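import Mathlib
import Pool.Agent.MVF.C034
import Pool.Agent.MVF.C041
import Pool.Agent.MVF.C049
import Pool.Agent.MVF.C057

/-! Parts: NS.T_VAK, NS.F_UNT, NS.F_RAT, NS.F_PIS, NS.F_RED, NS.F_PAL, NS.F_ISO, NS.F_IDL -/

namespace Pool.Agent.NSER.IDLaux
end Pool.Agent.NSER.IDLaux
namespace Pool.Agent.NSER.ISO
end Pool.Agent.NSER.ISO
namespace Pool.Agent.NSER.PAL75
end Pool.Agent.NSER.PAL75
namespace Pool.Agent.NSER.PIS
end Pool.Agent.NSER.PIS
namespace Pool.Agent.NSER.RAT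
end Pool.Agent.NSER.RAT
namespace Pool.Agent.NSER.RED
end Pool.Agent.NSER.RED
namespace Pool.Agent.NSER.UNT
end Pool.Agent.NSER.UNT

section

/-!
# NST, module VAK: conjugation of the values of `PhiK/(u om_0)`
-/

set_option autoImplicit false

namespace Pool.Agent.NST

open _root_.MU3 _root_.Pool.Agent.MU3A _root_.Pool.Agent.MU3B _root_.Pool.Agent.RI _root_.Pool.Agent.MUX _root_.Pool.Agent.MUXU
open OnePoint _root_.Pool.Agent.NS
open _root_.Pool.Agent.MUXV (GR InK)
open _root_.Pool.Agent.NSE (CtxN E3 su ru Rep)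
open _root_.Pool.Agent.MUXY (ActN Dn)

noncomputable section

theorem nt_VAK (h1 : Nt_SGM) (h2 : Nt_VAL) : Nt_VAK := by
  intro A B f hQ hf ι _ R e he j m' hm hfm σ c d hc hT hσ kk hkk u hu hσu x y hx hy
  have hf0 : f ≠ 0 := by omega
  have hm0 : 3 ^ (j + 1) * m' ≠ 0 := mul_ne_zero (pow_ne_zero _ (by norm_num)) hm
  have hfm' : 3 * f ∣ 3 ^ (j + 1) * m' := by
    rw [pow_succ, mul_assoc, mul_comm (3 ^ j)]
    exact (mul_dvd_mul_left 3 hfm).mul_right _
  have hsq : ∀ i, ((d i : ℤ) : ℂ) * ((d i : ℤ) : ℂ) = 1 := by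
    intro i
    rcases hT.sgn i with hd | hd <;> rw [hd] <;> norm_num
  have hd0 : ∀ i, ((d i : ℤ) : ℂ) ≠ 0 := fun i h0 => by
    have := hsq i
    rw [h0, zero_mul] at this
    exact zero_ne_one this
  have hom0 : R.om R.i0 ≠ 0 := (R.nl R.i0).om_ne
  have key : ∀ i, e c * σ (kk i * PhiI (R.b i) e x y / (u * R.om R.i0)) =
      kk i * PhiI (R.b i) e x y / (u * R.om R.i0) := by
    intro i
    have homi : R.om i ≠ 0 := (R.nl i).om_ne
    have hn : ((nI (R.b i) : ℕ) : ℂ) ≠ 0 :=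
      Nat.cast_ne_zero.2 (Pool.Agent.MUX.nI_ne_zero hQ (R.nl i).b_ne)
    have e1 : kk i * PhiI (R.b i) e x y / (u * R.om R.i0) =
        kk i * (PhiI (R.b i) e x y / R.om i) * muX R i / (nI (R.b i) * u) := by
      rw [muX]
      field_simp
    have e2 := h1 A B f hQ hf ι R j m' hm hfm σ c d hc hT i
    have e3 := h2 A B f hQ hf0 ι R e he _ hm0 hfm' σ c d hT hσ i x y hx hy
    rw [e1, map_div₀, map_mul, map_mul, map_mul, hkk, e2, map_natCast, hσu]
    have e4 : e c * (kk i * σ (PhiI (R.b i) e x y / R.om i) *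
        (d R.i0 * d i * muX R i) / (nI (R.b i) * (d R.i0 * u))) =
        kk i * (e c * σ (PhiI (R.b i) e x y / R.om i)) *
        (d i * muX R i) / (nI (R.b i) * u) := by
      field_simp [hd0 R.i0]
    rw [e4, e3]
    have e5 : kk i * (d i * (PhiI (R.b i) e x y / R.om i)) * (d i * muX R i) =
        (d i * d i : ℂ) * (kk i * (PhiI (R.b i) e x y / R.om i) * muX R i) := by ring
    rw [e5, hsq i, one_mul]
  rw [PhiK, Finset.sum_div, map_sum, Finset.mul_sum]
  exact Finset.sum_congr rfl fun i _ => key i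

end

end Pool.Agent.NST


end

section

/-!
# MUX-NS, block ER, module UNT (helper48): the multiplier of an isogeny of degree prime to 3 is a unit
-/

set_option autoImplicit false

open Polynomial

namespace Pool.Agent.NSER

open _root_.MU3 _root_.Pool.Agent.MU3A _root_.Pool.Agent.MU3B _root_.Pool.Agent.MUX _root_.Pool.Agent.MUXU _root_.Pool.Agent.MUXE
open _root_.Pool.Agent.RI _root_.Pool.Agent.NS _root_.Pool.Agent.NSRD
open _root_.Pool.Agent.NSE (E3 su ru WL IntP Rep)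
open _root_.Pool.Agent.MUXV (GR InK tX)

noncomputable section

namespace UNT

theorem _root_.Pool.Agent.NSER.UNT.frac (L : PeriodPair) (a : ℤ) (b : ℕ) (hb : b ≠ 0)
    (hm : (a : ℂ) * (L.ω₁ / b) ∈ L.lattice) : (b : ℤ) ∣ a := by
  have e : (a : ℂ) * (L.ω₁ / b) = ((a / b : ℚ) : ℂ) * L.ω₁ + ((0 : ℚ) : ℂ) * L.ω₂ := by
    push_cast
    ring
  rw [e, PeriodPair.mul_ω₁_add_mul_ω₂_mem_lattice] at hm
  have h1 : ((((a / b : ℚ)).num : ℤ) : ℚ) = (a / b : ℚ) := (Rat.den_eq_one_iff _).1 hm.1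
  have hb' : (b : ℚ) ≠ 0 := by exact_mod_cast hb
  refine ⟨((a / b : ℚ)).num, ?_⟩
  have h2 : (a : ℚ) = b * ((((a / b : ℚ)).num : ℤ) : ℚ) := by
    rw [h1]
    field_simp
  exact_mod_cast h2

/-- multiples by integers -/
theorem _root_.Pool.Agent.NSER.UNT.zmul (L : PeriodPair) (n : ℤ) {z : ℂ} (hz : z ∈ L.lattice) : (n : ℂ) * z ∈ L.lattice := by
  rw [← zsmul_eq_mul]
  exact zsmul_mem hz n

end UNT

open _root_.Pool.Agent.NSER.UNT in
theorem tf_UNT (h2 : Sf_GRN) (h3 : Sf_TNC) : Sf_UNT := by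
  intro V L M u e lam u' e' lam' μ N hL hM hv3 hμ hI hN3 hN
  obtain ⟨ξ, grL⟩ := h2 V L u e lam hL hv3
  obtain ⟨ξ', grM⟩ := h2 V M u' e' lam' hM hv3
  have tL := h3 V L u e lam hL hv3
  have tM := h3 V M u' e' lam' hM hv3
  have hN0 : N ≠ 0 := by
    rintro rfl
    exact hN3 (dvd_zero 3)
  obtain ⟨⟨R, hR⟩, -⟩ := u_BAC.2 L M μ hμ hI
  -- the two primes
  obtain ⟨l, hl1, hl⟩ := Nat.exists_infinite_primes (3 * N + 1)
  obtain ⟨l', hl1', hl'⟩ := Nat.exists_infinite_primes (l + 1)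
  have hNpos : 0 < N := Nat.pos_of_ne_zero hN0
  have hll : l ≠ l' := by omega
  have h3l : ¬ 3 ∣ l := by
    intro h
    have := (Nat.prime_dvd_prime_iff_eq Nat.prime_three hl).1 h
    omega
  have h3l' : ¬ 3 ∣ l' := by
    intro h
    have := (Nat.prime_dvd_prime_iff_eq Nat.prime_three hl').1 h
    omega
  have hlN : ¬ l ∣ N := fun h => by
    have := Nat.le_of_dvd hNpos h
    omega
  have hlN' : ¬ l' ∣ N := fun h => by
    have := Nat.le_of_dvd hNpos h
    omega
  have h3n : ¬ 3 ∣ N * l * l' := by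
    intro h
    rcases Nat.prime_three.dvd_mul.1 h with h | h
    · rcases Nat.prime_three.dvd_mul.1 h with h | h
      · exact hN3 h
      · exact h3l h
    · exact h3l' h
  have h3m : ¬ 3 ∣ l * l' := by
    intro h
    rcases Nat.prime_three.dvd_mul.1 h with h | h
    · exact h3l h
    · exact h3l' h
  have hl0 : (l : ℂ) ≠ 0 := by exact_mod_cast hl.ne_zero
  have hl0' : (l' : ℂ) ≠ 0 := by exact_mod_cast hl'.ne_zero
  set w : ℂ := L.ω₁ / l with hw
  set z : ℂ := L.ω₁ / l' with hz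
  have o1 := L.ω₁_mem_lattice
  have lw : (l : ℂ) * w ∈ L.lattice := by
    rw [hw, mul_div_cancel₀ _ hl0]
    exact o1
  have lz : (l' : ℂ) * z ∈ L.lattice := by
    rw [hz, mul_div_cancel₀ _ hl0']
    exact o1
  -- the combinations of `z` and `w` are not in the lattice, even after multiplication by `N`
  have comb : ∀ a b : ℤ, ¬ ((l' : ℤ) ∣ a ∧ (l : ℤ) ∣ b) →
      (N : ℂ) * ((a : ℂ) * z + (b : ℂ) * w) ∉ L.lattice := by
    intro a b hab hm
    apply hab
    have e1 : (N : ℂ) * ((a : ℂ) * z + (b : ℂ) * w) =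
        ((N * (a * l + b * l') : ℤ) : ℂ) * (L.ω₁ / ((l * l' : ℕ) : ℂ)) := by
      rw [hz, hw]
      push_cast
      field_simp
    rw [e1] at hm
    have h5 := _root_.Pool.Agent.NSER.UNT.frac L _ _ (Nat.mul_ne_zero hl.ne_zero hl'.ne_zero) hm
    have hlz : Prime (l : ℤ) := Nat.prime_iff_prime_int.1 hl
    have hlz' : Prime (l' : ℤ) := Nat.prime_iff_prime_int.1 hl'
    have hNl : ¬ (l : ℤ) ∣ (N : ℤ) := fun h => hlN (by exact_mod_cast h)
    have hNl' : ¬ (l' : ℤ) ∣ (N : ℤ) := fun h => hlN' (by exact_mod_cast h)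
    have hd1 : (l : ℤ) ∣ a * l + b * l' := by
      have : (l : ℤ) ∣ (N : ℤ) * (a * l + b * l') := Dvd.dvd.trans ⟨(l' : ℤ), by push_cast; ring⟩ h5
      exact (hlz.dvd_or_dvd this).resolve_left hNl
    have hd2 : (l' : ℤ) ∣ a * l + b * l' := by
      have : (l' : ℤ) ∣ (N : ℤ) * (a * l + b * l') := Dvd.dvd.trans ⟨(l : ℤ), by push_cast; ring⟩ h5
      exact (hlz'.dvd_or_dvd this).resolve_left hNl'
    have hne1 : ¬ (l : ℤ) ∣ (l' : ℤ) := fun h =>
      hll ((Nat.prime_dvd_prime_iff_eq hl hl').1 (by exact_mod_cast h))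
    have hne2 : ¬ (l' : ℤ) ∣ (l : ℤ) := fun h =>
      hll ((Nat.prime_dvd_prime_iff_eq hl' hl).1 (by exact_mod_cast h)).symm
    constructor
    · have : (l' : ℤ) ∣ a * l := (dvd_add_left (Dvd.intro_left b rfl)).1 hd2
      exact (hlz'.dvd_or_dvd this).resolve_right hne2
    · have : (l : ℤ) ∣ b * l' := (dvd_add_right (Dvd.intro_left a rfl)).1 hd1
      exact (hlz.dvd_or_dvd this).resolve_right hne1
  have one_not : ∀ k : ℕ, k.Prime → ∀ s : ℤ, s = 1 ∨ s = -1 → ¬ (k : ℤ) ∣ s := by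
    intro k hk s hs h
    have h6 : (k : ℤ) ∣ 1 := by
      rcases hs with rfl | rfl
      · exact h
      · exact (dvd_neg.1 h)
    have h7 : k ∣ 1 := by exact_mod_cast h6
    exact hk.one_lt.ne' (Nat.dvd_one.1 h7)
  -- points of `L`
  have ptL : ∀ (a b c : ℤ) (q : ℂ), (N : ℂ) * q ∈ L.lattice →
      ¬ ((l' : ℤ) ∣ a ∧ (l : ℤ) ∣ b) →
      ¬ InK V L (xu L u e) ((a : ℂ) * z + (b : ℂ) * w + (c : ℂ) * q) := by
    intro a b c q hq hab hin
    have hm := (tL (N * l * l') h3n).2 _ (by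
      have e1 : ((N * l * l' : ℕ) : ℂ) * ((a : ℂ) * z + (b : ℂ) * w + (c : ℂ) * q) =
          ((N * l * a : ℤ) : ℂ) * ((l' : ℂ) * z) + ((N * l' * b : ℤ) : ℂ) * ((l : ℂ) * w) +
            ((l * l' * c : ℤ) : ℂ) * ((N : ℂ) * q) := by
        push_cast
        ring
      rw [e1]
      exact add_mem (add_mem (_root_.Pool.Agent.NSER.UNT.zmul L _ lz) (_root_.Pool.Agent.NSER.UNT.zmul L _ lw)) (_root_.Pool.Agent.NSER.UNT.zmul L _ hq)) hin
    apply comb a b hab
    have e2 : (N : ℂ) * ((a : ℂ) * z + (b : ℂ) * w) =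
        ((N : ℤ) : ℂ) * ((a : ℂ) * z + (b : ℂ) * w + (c : ℂ) * q) -
          ((c : ℤ) : ℂ) * ((N : ℂ) * q) := by
      push_cast
      ring
    rw [e2]
    exact sub_mem (_root_.Pool.Agent.NSER.UNT.zmul L _ hm) (_root_.Pool.Agent.NSER.UNT.zmul L _ hq)
  -- points of `M`
  have ptM : ∀ (a b : ℤ), ¬ ((l' : ℤ) ∣ a ∧ (l : ℤ) ∣ b) →
      μ * ((a : ℂ) * z + (b : ℂ) * w) ∉ M.lattice ∧
      ¬ InK V M (xu M u' e') (μ * ((a : ℂ) * z + (b : ℂ) * w)) := by
    intro a b hab
    have h4 : μ * ((a : ℂ) * z + (b : ℂ) * w) ∉ M.lattice := fun h => comb a b hab (hN _ h)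
    refine ⟨h4, fun hin => h4 ((tM (l * l') h3m).2 _ ?_ hin)⟩
    have e1 : ((l * l' : ℕ) : ℂ) * (μ * ((a : ℂ) * z + (b : ℂ) * w)) =
        μ * (((l * a : ℤ) : ℂ) * ((l' : ℂ) * z) + ((l' * b : ℤ) : ℂ) * ((l : ℂ) * w)) := by
      push_cast
      ring
    rw [e1]
    exact hI _ (add_mem (_root_.Pool.Agent.NSER.UNT.zmul L _ lz) (_root_.Pool.Agent.NSER.UNT.zmul L _ lw))
  have hz1 : ∀ b : ℤ, ∀ s : ℤ, s = 1 ∨ s = -1 → ¬ ((l' : ℤ) ∣ s ∧ (l : ℤ) ∣ b) := fun b s hs h =>
    one_not l' hl' s hs h.1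
  have hw1 : ∀ a : ℤ, ∀ s : ℤ, s = 1 ∨ s = -1 → ¬ ((l' : ℤ) ∣ a ∧ (l : ℤ) ∣ s) := fun a s hs h =>
    one_not l hl s hs h.2
  have hN00 : (N : ℂ) * 0 ∈ L.lattice := by rw [mul_zero]; exact L.lattice.zero_mem
  obtain ⟨mz, iz⟩ := ptM 1 0 (hz1 0 1 (Or.inl rfl))
  obtain ⟨mw, iw⟩ := ptM 0 1 (hw1 0 1 (Or.inl rfl))
  obtain ⟨-, ip⟩ := ptM 1 1 (hz1 1 1 (Or.inl rfl))
  obtain ⟨-, im⟩ := ptM 1 (-1) (hz1 (-1) 1 (Or.inl rfl))
  have ez : ((1 : ℤ) : ℂ) * z + ((0 : ℤ) : ℂ) * w = z := by push_cast; ring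
  have ew : ((0 : ℤ) : ℂ) * z + ((1 : ℤ) : ℂ) * w = w := by push_cast; ring
  have ep : μ * (((1 : ℤ) : ℂ) * z + ((1 : ℤ) : ℂ) * w) = μ * z + μ * w := by push_cast; ring
  have em' : μ * (((1 : ℤ) : ℂ) * z + ((-1 : ℤ) : ℂ) * w) = μ * z - μ * w := by push_cast; ring
  rw [ez] at mz iz
  rw [ew] at mw iw
  rw [ep] at ip
  rw [em'] at im
  -- the product formula
  have pf := u_PFI L M μ R hμ hI hR w mw z mz
  have hu0 : u ^ 2 ≠ 0 := pow_ne_zero _ hL.u0
  have hu0' : u' ^ 2 ≠ 0 := pow_ne_zero _ hM.u0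
  have dL : ∀ a b : ℂ, L.weierstrassP a - L.weierstrassP b =
      u ^ 2 * (xu L u e a - xu L u e b) := by
    intro a b
    unfold xu
    rw [← sub_div, mul_div_cancel₀ _ hu0]
    ring
  have dM : ∀ a b : ℂ, M.weierstrassP a - M.weierstrassP b =
      u' ^ 2 * (xu M u' e' a - xu M u' e' b) := by
    intro a b
    unfold xu
    rw [← sub_div, mul_div_cancel₀ _ hu0']
    ring
  have vM : V.valuation (M.weierstrassP (μ * z) - M.weierstrassP (μ * w)) =
      V.valuation (u' ^ 2) := by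
    rw [dM, map_mul, Pool.Agent.MUXV.v_X_sub grM iz iw ip im, mul_one]
  have ptL' : ∀ (a b c : ℤ) (q p : ℂ), (N : ℂ) * q ∈ L.lattice →
      ¬ ((l' : ℤ) ∣ a ∧ (l : ℤ) ∣ b) → p = (a : ℂ) * z + (b : ℂ) * w + (c : ℂ) * q →
      ¬ InK V L (xu L u e) p := by
    intro a b c q p hq hab hp
    rw [hp]
    exact ptL a b c q hq hab
  have jz : ¬ InK V L (xu L u e) z :=
    ptL' 1 0 0 0 z hN00 (hz1 0 1 (Or.inl rfl)) (by push_cast; ring)
  have vL : V.valuation (L.weierstrassP z - L.weierstrassP w) = V.valuation (u ^ 2) := by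
    rw [dL, map_mul, Pool.Agent.MUXV.v_X_sub grL jz
      (ptL' 0 1 0 0 w hN00 (hw1 0 1 (Or.inl rfl)) (by push_cast; ring))
      (ptL' 1 1 0 0 _ hN00 (hz1 1 1 (Or.inl rfl)) (by push_cast; ring))
      (ptL' 1 (-1) 0 0 _ hN00 (hz1 (-1) 1 (Or.inl rfl)) (by push_cast; ring)), mul_one]
  have vq : ∀ q ∈ R, V.valuation (L.weierstrassP z - L.weierstrassP q) =
      V.valuation (u ^ 2) := by
    intro q hq
    have hNq := hN q (hR.mem q hq)
    have jq : ¬ InK V L (xu L u e) q := fun h => hR.ne q hq ((tL N hN3).2 q hNq h)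
    rw [dL, map_mul, Pool.Agent.MUXV.v_X_sub grL jz jq
      (ptL' 1 0 1 q _ hNq (hz1 0 1 (Or.inl rfl)) (by push_cast; ring))
      (ptL' 1 0 (-1) q _ hNq (hz1 0 1 (Or.inl rfl)) (by push_cast; ring)), mul_one]
  have vwq : ∀ q ∈ R, V.valuation (L.weierstrassP z - L.weierstrassP (w + q)) =
      V.valuation (u ^ 2) := by
    intro q hq
    have hNq := hN q (hR.mem q hq)
    rw [dL, map_mul, Pool.Agent.MUXV.v_X_sub grL jz
      (ptL' 0 1 1 q _ hNq (hw1 0 1 (Or.inl rfl)) (by push_cast; ring))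
      (ptL' 1 1 1 q _ hNq (hz1 1 1 (Or.inl rfl)) (by push_cast; ring))
      (ptL' 1 (-1) (-1) q _ hNq (hz1 (-1) 1 (Or.inl rfl)) (by push_cast; ring)), mul_one]
  have pv := congrArg V.valuation pf
  rw [map_mul, map_mul, map_mul, map_prod, map_prod, vM, vL, Finset.prod_congr rfl vq,
    Finset.prod_congr rfl vwq, Finset.prod_const] at pv
  have hT0 : V.valuation (u ^ 2) ^ R.card ≠ 0 := pow_ne_zero _ ((_root_.map_ne_zero _).2 hu0)
  have h6 : V.valuation (μ ^ 2) * V.valuation (u' ^ 2) = V.valuation (u ^ 2) :=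
    mul_right_cancel₀ hT0 pv
  have h7 : V.valuation (μ * u' / u) ^ 2 = 1 := by
    rw [← map_pow, div_pow, mul_pow, map_div₀, map_mul, h6]
    exact div_self ((_root_.map_ne_zero _).2 hu0)
  rcases lt_trichotomy (V.valuation (μ * u' / u)) 1 with h | h | h
  · exact absurd h7 (pow_lt_one₀ zero_le h two_ne_zero).ne
  · exact h
  · exact absurd h7 (one_lt_pow₀ h two_ne_zero).ne'

end

end Pool.Agent.NSER


end

section

/-!
# MUX-NS, block ER, module RAT (helper50): the isogeny as a rational function over V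
-/

set_option autoImplicit false

open Filter Topology Polynomial

namespace Pool.Agent.NSER

open _root_.MU3 _root_.Pool.Agent.MU3A _root_.Pool.Agent.MU3B _root_.Pool.Agent.MUX _root_.Pool.Agent.MUXU _root_.Pool.Agent.MUXE
open _root_.Pool.Agent.RI _root_.Pool.Agent.NS _root_.Pool.Agent.NSRD
open _root_.Pool.Agent.NSE (E3 su ru WL IntP Rep)
open _root_.Pool.Agent.MUXV (GR InK tX)

noncomputable section

namespace RAT

variable {V : ValuationSubring ℂ}

theorem iff_mem {P : ℂ[X]} : IntP V P ↔ ∀ i, P.coeff i ∈ V :=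
  forall_congr' fun _ => V.valuation_le_one_iff _

theorem _root_.Pool.Agent.NSER.RAT.int_add {P Q : ℂ[X]} (hP : IntP V P) (hQ : IntP V Q) : IntP V (P + Q) := by
  rw [iff_mem] at *
  intro i
  rw [coeff_add]
  exact add_mem (hP i) (hQ i)

theorem _root_.Pool.Agent.NSER.RAT.int_mul {P Q : ℂ[X]} (hP : IntP V P) (hQ : IntP V Q) : IntP V (P * Q) := by
  rw [iff_mem] at *
  intro i
  rw [coeff_mul]
  exact sum_mem fun x _ => mul_mem (hP _) (hQ _)

theorem _root_.Pool.Agent.NSER.RAT.int_C {a : ℂ} (ha : V.valuation a ≤ 1) : IntP V (C a) := by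
  rw [iff_mem]
  intro i
  rw [coeff_C]
  split_ifs
  · exact (V.valuation_le_one_iff _).1 ha
  · exact zero_mem V

theorem _root_.Pool.Agent.NSER.RAT.int_XC {a : ℂ} (ha : V.valuation a ≤ 1) : IntP V (X - C a) := by
  have h1 : IntP V (C (-a)) := _root_.Pool.Agent.NSER.RAT.int_C (by rwa [Valuation.map_neg])
  have h2 : IntP V (X : ℂ[X]) := by
    rw [iff_mem]
    intro i
    rw [coeff_X]
    split_ifs
    · exact one_mem V
    · exact zero_mem V
  have e : (X - C a : ℂ[X]) = X + C (-a) := by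
    rw [C_neg, sub_eq_add_neg]
  rw [e]
  exact _root_.Pool.Agent.NSER.RAT.int_add h2 h1

theorem _root_.Pool.Agent.NSER.RAT.int_prod (R : Finset ℂ) (f : ℂ → ℂ) (h : ∀ q ∈ R, V.valuation (f q) ≤ 1) :
    IntP V (∏ q ∈ R, (X - C (f q))) := by
  classical
  induction R using Finset.induction_on with
  | empty =>
    rw [Finset.prod_empty, ← C_1]
    exact _root_.Pool.Agent.NSER.RAT.int_C (by rw [map_one])
  | insert a S ha ih =>
    rw [Finset.prod_insert ha]
    exact _root_.Pool.Agent.NSER.RAT.int_mul (_root_.Pool.Agent.NSER.RAT.int_XC (h a (Finset.mem_insert_self _ _)))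
      (ih fun q hq => h q (Finset.mem_insert_of_mem hq))

end RAT

open _root_.Pool.Agent.NSER.RAT _root_.Pool.Agent.NSER.UNT in
theorem tf_RAT (h1 : Sf_COE) (h3 : Sf_TNC) (h4 : Sf_UNT) : Sf_RAT := by
  intro V L M u e lam u' e' lam' μ N hL hM hv3 hμ hI hN3 hN
  have hν := h4 V L M u e lam u' e' lam' μ N hL hM hv3 hμ hI hN3 hN
  have tL := h3 V L u e lam hL hv3
  have tM := h3 V M u' e' lam' hM hv3
  obtain ⟨-, -, -, -, -, -, -, dL, -⟩ := h1 V L u e lam hL hv3
  obtain ⟨-, -, -, -, -, -, -, dM, -⟩ := h1 V M u' e' lam' hM hv3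
  have hN0 : N ≠ 0 := by
    rintro rfl
    exact hN3 (dvd_zero 3)
  have hNpos : 0 < N := Nat.pos_of_ne_zero hN0
  obtain ⟨⟨R, hR⟩, -⟩ := u_BAC.2 L M μ hμ hI
  obtain ⟨l, hl1, hl⟩ := Nat.exists_infinite_primes (3 * N + 1)
  have h3l : ¬ 3 ∣ l := by
    intro h
    have := (Nat.prime_dvd_prime_iff_eq Nat.prime_three hl).1 h
    omega
  have hlN : ¬ l ∣ N := fun h => by
    have := Nat.le_of_dvd hNpos h
    omega
  have h3m : ¬ 3 ∣ N * l := by
    intro h
    rcases Nat.prime_three.dvd_mul.1 h with h | h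
    · exact hN3 h
    · exact h3l h
  have hl0 : (l : ℂ) ≠ 0 := by exact_mod_cast hl.ne_zero
  set w : ℂ := L.ω₁ / l with hw
  have lw : (l : ℂ) * w ∈ L.lattice := by
    rw [hw, mul_div_cancel₀ _ hl0]
    exact L.ω₁_mem_lattice
  have Nw : (N : ℂ) * w ∉ L.lattice := by
    intro hm
    have e1 : (N : ℂ) * w = ((N : ℤ) : ℂ) * (L.ω₁ / (l : ℂ)) := by
      rw [hw]
      push_cast
      ring
    rw [e1] at hm
    have h5 := _root_.Pool.Agent.NSER.UNT.frac L _ _ hl.ne_zero hm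
    exact hlN (by exact_mod_cast h5)
  have jw : ¬ InK V L (xu L u e) w := fun h => Nw (by
    have := _root_.Pool.Agent.NSER.UNT.zmul L N ((tL l h3l).2 w lw h)
    simpa using this)
  have jq : ∀ q ∈ R, ¬ InK V L (xu L u e) q := fun q hq h =>
    hR.ne q hq ((tL N hN3).2 q (hN q (hR.mem q hq)) h)
  have jwq : ∀ q ∈ R, ¬ InK V L (xu L u e) (w + q) := by
    intro q hq h
    have hNq := hN q (hR.mem q hq)
    have hm := (tL (N * l) h3m).2 (w + q) (by
      have e1 : ((N * l : ℕ) : ℂ) * (w + q) = ((N : ℤ) : ℂ) * ((l : ℂ) * w) +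
          ((l : ℤ) : ℂ) * ((N : ℂ) * q) := by
        push_cast
        ring
      rw [e1]
      exact add_mem (_root_.Pool.Agent.NSER.UNT.zmul L _ lw) (_root_.Pool.Agent.NSER.UNT.zmul L _ hNq)) h
    apply Nw
    have e2 : (N : ℂ) * w = ((N : ℤ) : ℂ) * (w + q) - (N : ℂ) * q := by
      push_cast
      ring
    rw [e2]
    exact sub_mem (_root_.Pool.Agent.NSER.UNT.zmul L _ hm) hNq
  have mw : μ * w ∉ M.lattice := fun h => Nw (hN w h)
  have jM : ¬ InK V M (xu M u' e') (μ * w) := fun h => mw ((tM l h3l).2 _ (by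
    have e1 : (l : ℂ) * (μ * w) = μ * ((l : ℂ) * w) := by ring
    rw [e1]
    exact hI _ lw) h)
  have vq : ∀ q ∈ R, V.valuation (xu L u e q) ≤ 1 := fun q hq =>
    (Pool.Agent.MUXV.int_X (jq q hq)).2
  have vwq : ∀ q ∈ R, V.valuation (xu L u e (w + q)) ≤ 1 := fun q hq =>
    (Pool.Agent.MUXV.int_X (jwq q hq)).2
  have vw : V.valuation (xu L u e w) ≤ 1 := (Pool.Agent.MUXV.int_X jw).2
  have vc : V.valuation (xu M u' e' (μ * w)) ≤ 1 := (Pool.Agent.MUXV.int_X jM).2
  set c : ℂ := xu M u' e' (μ * w) with hc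
  set ν : ℂ := μ * u' / u with hνd
  have hν0 : ν ^ 2 ≠ 0 := by
    apply pow_ne_zero
    intro h0
    rw [h0, map_zero] at hν
    exact zero_ne_one hν
  have vν : V.valuation (ν ^ 2) ≤ 1 := by rw [map_pow, hν, one_pow]
  set A : ℂ[X] := ∏ q ∈ R, (X - C (xu L u e q)) with hA
  set B : ℂ[X] := ∏ q ∈ R, (X - C (xu L u e (w + q))) with hB
  have mA : A.Monic := monic_prod_of_monic _ _ fun q _ => monic_X_sub_C _
  have mB : B.Monic := monic_prod_of_monic _ _ fun q _ => monic_X_sub_C _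
  have nA : A.natDegree = R.card := by
    rw [hA, natDegree_prod_of_monic _ _ fun q _ => monic_X_sub_C _]
    simp
  have nB : B.natDegree = R.card := by
    rw [hB, natDegree_prod_of_monic _ _ fun q _ => monic_X_sub_C _]
    simp
  set Q : ℂ[X] := C (ν ^ 2) * A with hQ
  have nQ : Q.natDegree = R.card := by rw [hQ, natDegree_C_mul hν0, nA]
  set T : ℂ[X] := (X - C (xu L u e w)) * B with hT
  have mT : T.Monic := (monic_X_sub_C _).mul mB
  have nT : T.natDegree = R.card + 1 := by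
    rw [hT, (monic_X_sub_C _).natDegree_mul mB, natDegree_X_sub_C, nB, add_comm]
  have hlt : (C c * Q).natDegree < T.natDegree := by
    rw [nT]
    calc (C c * Q).natDegree ≤ Q.natDegree := natDegree_C_mul_le _ _
      _ < R.card + 1 := by rw [nQ]; exact Nat.lt_succ_self _
  have iQ : IntP V Q := _root_.Pool.Agent.NSER.RAT.int_mul (_root_.Pool.Agent.NSER.RAT.int_C vν) (_root_.Pool.Agent.NSER.RAT.int_prod R _ vq)
  -- the first identity
  have hu0 : u ^ 2 ≠ 0 := pow_ne_zero _ hL.u0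
  have hu0' : u' ^ 2 ≠ 0 := pow_ne_zero _ hM.u0
  have eL : ∀ a b : ℂ, L.weierstrassP a - L.weierstrassP b =
      u ^ 2 * (xu L u e a - xu L u e b) := by
    intro a b
    unfold xu
    rw [← sub_div, mul_div_cancel₀ _ hu0]
    ring
  have eM : ∀ a b : ℂ, M.weierstrassP a - M.weierstrassP b =
      u' ^ 2 * (xu M u' e' a - xu M u' e' b) := by
    intro a b
    unfold xu
    rw [← sub_div, mul_div_cancel₀ _ hu0']
    ring
  have id1 : ∀ z, μ * z ∉ M.lattice →
      xu M u' e' (μ * z) * Q.eval (xu L u e z) = (C c * Q + T).eval (xu L u e z) := by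
    intro z hz
    have pf := u_PFI L M μ R hμ hI hR w mw z hz
    have p1 : ∏ q ∈ R, (L.weierstrassP z - L.weierstrassP q) =
        (u ^ 2) ^ R.card * A.eval (xu L u e z) := by
      rw [hA, eval_prod, ← Finset.prod_const, ← Finset.prod_mul_distrib]
      refine Finset.prod_congr rfl fun q _ => ?_
      rw [eL, eval_sub, eval_X, eval_C]
    have p2 : ∏ q ∈ R, (L.weierstrassP z - L.weierstrassP (w + q)) =
        (u ^ 2) ^ R.card * B.eval (xu L u e z) := by
      rw [hB, eval_prod, ← Finset.prod_const, ← Finset.prod_mul_distrib]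
      refine Finset.prod_congr rfl fun q _ => ?_
      rw [eL, eval_sub, eval_X, eval_C]
    rw [p1, p2, eM, eL] at pf
    have hpow : (u ^ 2) ^ R.card ≠ 0 := pow_ne_zero _ hu0
    have q1 : ν ^ 2 * (xu M u' e' (μ * z) - c) * A.eval (xu L u e z) =
        (xu L u e z - xu L u e w) * B.eval (xu L u e z) := by
      apply mul_left_cancel₀ (mul_ne_zero hu0 hpow)
      rw [hνd]
      have e3 : u ^ 2 * (u ^ 2) ^ R.card * ((μ * u' / u) ^ 2 * (xu M u' e' (μ * z) - c) *
          A.eval (xu L u e z)) = μ ^ 2 * (u' ^ 2 * (xu M u' e' (μ * z) - c)) *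
          ((u ^ 2) ^ R.card * A.eval (xu L u e z)) := by
        have hu : u ≠ 0 := hL.u0
        field_simp
      rw [e3, pf]
      ring
    simp only [hQ, hT, eval_add, eval_mul, eval_C, eval_sub, eval_X]
    rw [← q1]
    ring
  refine ⟨C c * Q + T, Q, _root_.Pool.Agent.NSER.RAT.int_add (_root_.Pool.Agent.NSER.RAT.int_mul (_root_.Pool.Agent.NSER.RAT.int_C vc) iQ) (_root_.Pool.Agent.NSER.RAT.int_mul (_root_.Pool.Agent.NSER.RAT.int_XC vw)
    (_root_.Pool.Agent.NSER.RAT.int_prod R _ vwq)), iQ, mT.add_of_right (degree_lt_degree hlt), ?_, ?_, ?_⟩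
  · rw [natDegree_add_eq_right_of_natDegree_lt hlt, nT, nQ]
  · rw [hQ, leadingCoeff_mul, leadingCoeff_C, mA.leadingCoeff, mul_one]
  · intro z hz
    refine ⟨id1 z hz, ?_⟩
    have hzL : z ∉ L.lattice := fun h => hz (hI z h)
    have hev : ∀ᶠ t in 𝓝 z, xu M u' e' (μ * t) * Q.eval (xu L u e t) =
        (C c * Q + T).eval (xu L u e t) := by
      have e2 : ∀ᶠ t in 𝓝 z, μ * t ∉ M.lattice := by
        have hcont : ContinuousAt (fun t : ℂ => μ * t) z := by fun_prop
        exact hcont.eventually_mem ((M.isClosed_lattice.isOpen_compl).mem_nhds hz)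
      filter_upwards [e2] with t ht
      exact id1 t ht
    have hxL := dL z hzL
    have hxM := dM (μ * z) hz
    have hM' : HasDerivAt (fun t : ℂ => xu M u' e' (μ * t))
        (2 * u' * yu M u' (μ * z) * μ) z := by
      have h5 : HasDerivAt (fun t : ℂ => μ * t) μ z := by
        simpa using (hasDerivAt_id z).const_mul μ
      exact HasDerivAt.comp z hxM h5
    have hB' : HasDerivAt (fun t : ℂ => Q.eval (xu L u e t))
        ((derivative Q).eval (xu L u e z) * (2 * u * yu L u z)) z :=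
      HasDerivAt.comp z (Q.hasDerivAt (xu L u e z)) hxL
    have hA' : HasDerivAt (fun t : ℂ => (C c * Q + T).eval (xu L u e t))
        ((derivative (C c * Q + T)).eval (xu L u e z) * (2 * u * yu L u z)) z :=
      HasDerivAt.comp z ((C c * Q + T).hasDerivAt (xu L u e z)) hxL
    have heq := (hM'.mul hB').unique (hA'.congr_of_eventuallyEq hev)
    have hid := id1 z hz
    have hu : u ≠ 0 := hL.u0
    generalize C c * Q + T = P at *
    simp only [eval_sub, eval_mul]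
    have h2u : (2 * u : ℂ) ≠ 0 := mul_ne_zero two_ne_zero hu
    apply mul_left_cancel₀ h2u
    rw [hνd]
    have e5 : 2 * u * (μ * u' / u * yu M u' (μ * z) * Q.eval (xu L u e z) ^ 2) =
        2 * u' * yu M u' (μ * z) * μ * Q.eval (xu L u e z) ^ 2 := by
      field_simp
    rw [e5]
    linear_combination (Q.eval (xu L u e z)) * heq -
      (derivative Q).eval (xu L u e z) * (2 * u * yu L u z) * hid

end

end Pool.Agent.NSER


end

section

/-!
# MUX-NS, block ER: the multiplier of `L → ν P⁻¹ L` (PIS), `3` ramified (helper61)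

The product formula (PFI) for `w = ω₁ / 5`, `z = ω₁ / 7`; the preparations are those of helper1's `F_TPR.lean`.
-/

set_option autoImplicit false

open Polynomial

namespace Pool.Agent.NSER

open _root_.MU3 _root_.Pool.Agent.MU3A _root_.Pool.Agent.MU3B _root_.Pool.Agent.MUX _root_.Pool.Agent.MUXU _root_.Pool.Agent.MUXE
open _root_.Pool.Agent.RI _root_.Pool.Agent.NS _root_.Pool.Agent.NSRD
open _root_.Pool.Agent.MUXV (GR InK tX)
open _root_.Pool.Agent.NSE (E3 su ru WL IntP Rep)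

noncomputable section

namespace PIS

theorem inv_pow_eq {Γ : Type*} [LinearOrderedCommGroupWithZero Γ] {T π : Γ} {m : ℕ}
    (hT : T ≠ 0) (h : T⁻¹ ^ m = π) : T ^ m * π = 1 := by
  rw [← h, inv_pow]
  exact mul_inv_cancel₀ (pow_ne_zero _ hT)

theorem one_lt_of {Γ : Type*} [LinearOrderedCommGroupWithZero Γ] {T π : Γ} {m : ℕ}
    (h : T ^ m * π = 1) (hπ : π < 1) : 1 < T := by
  by_contra hc
  have hc' : T ≤ 1 := not_lt.1 hc
  have h1 : T ^ m ≤ 1 := pow_le_one' hc' m
  have h2 : T ^ m * π ≤ 1 * π := mul_le_mul_left h1 π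
  rw [h, one_mul] at h2
  exact absurd hπ (not_lt.2 h2)

/-- rational multiples of the period `ω₁` -/
theorem rat_mul (L : PeriodPair) (x : ℚ) (hx : x.den ≠ 1) : ((x : ℚ) : ℂ) * L.ω₁ ∉ L.lattice := by
  intro hm
  have e : ((x : ℚ) : ℂ) * L.ω₁ = ((x : ℚ) : ℂ) * L.ω₁ + ((0 : ℚ) : ℂ) * L.ω₂ := by
    push_cast
    ring
  rw [e, PeriodPair.mul_ω₁_add_mul_ω₂_mem_lattice] at hm
  exact hx hm.1

end PIS

open _root_.Pool.Agent.NSER.PIS in
theorem tf_PIS (h2 : Sf_GRN) (h3 : Sf_TNC) (h4 : Sf_RPV) (h6 : Su_BAC) (h7 : Su_PFI) :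
    Sf_PIS := by
  intro A B P V h hT hG L N ν u e lam u' e' lam' hL hN hQ hg hg'
  obtain ⟨φ, hφ⟩ := h.ring.hom
  have embn : ∀ n : ℕ, emb ((n : ℕ) : OO A B) = n := fun n => by rw [← hφ, map_natCast]
  have hv3 := h.v3
  have mem3 : ((3 : ℕ) : OO A B) ∈ P := by
    have h8 : ((3 : ℕ) : OO A B) ∈ idl (A := A) (B := B) 3 :=
      Ideal.subset_span (Set.mem_singleton _)
    rw [← h.sq] at h8
    exact Ideal.mul_le_left h8
  have hPbot : P ≠ ⊥ := by
    intro h0
    rw [h0, Ideal.mem_bot] at mem3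
    have h9 := embn 3
    rw [mem3, ← hφ, map_zero] at h9
    norm_num at h9
  have hπ0 : V.valuation (3 : ℂ) ≠ 0 := (Valuation.ne_zero_iff _).2 (by norm_num)
  obtain ⟨tra1, tra2, tra3, tra4, tra5, tra6, tra7, tra8, tra9⟩ := te_TRA A B h.ring L hL
  have hν : ν ≠ 0 := hQ.1
  have hTor : ∀ z, ν * z ∈ N.lattice ↔ Tor P L z := hQ.2
  have hIsg : Isg L N ν := fun w hw => (hTor w).2 (fun x _ => tra1 x w hw)
  obtain ⟨⟨R, hR⟩, -⟩ := h6.2 L N ν hν hIsg
  obtain ⟨ξ, G⟩ := h2 V L u e lam hg hv3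
  obtain ⟨ξ', G'⟩ := h2 V N u' e' lam' hg' hv3
  have hu := hg.u0
  have hu' := hg'.u0
  -- the points of orders 5, 7, 35
  have hω : ∀ k : ℤ, (k : ℂ) * L.ω₁ ∈ L.lattice := by
    intro k
    have := L.lattice.smul_mem k L.ω₁_mem_lattice
    rwa [zsmul_eq_mul] at this
  -- a rational point of order prime to three
  have good : ∀ (x : ℚ) (n : ℕ) (k : ℤ), ¬ 3 ∣ n → (n : ℂ) * ((x : ℚ) : ℂ) = (k : ℂ) →
      x.den ≠ 1 →
      ¬ InK V L (xu L u e) (((x : ℚ) : ℂ) * L.ω₁) ∧ ν * (((x : ℚ) : ℂ) * L.ω₁) ∉ N.lattice ∧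
      ¬ InK V N (xu N u' e') (ν * (((x : ℚ) : ℂ) * L.ω₁)) := by
    intro x n k hn hk hx
    have hnL : (n : ℂ) * (((x : ℚ) : ℂ) * L.ω₁) ∈ L.lattice := by
      rw [← mul_assoc, hk]
      exact hω k
    have hxL := rat_mul L x hx
    have m1 : ν * (((x : ℚ) : ℂ) * L.ω₁) ∉ N.lattice := by
      intro h8
      have h9 := (hTor _).1 h8 _ mem3
      rw [embn] at h9
      apply hxL
      have hcop : Int.gcd 3 n = 1 := by
        have : Nat.Coprime 3 n := (Nat.Prime.coprime_iff_not_dvd Nat.prime_three).2 hn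
        simpa [Int.gcd] using this
      have hb := Int.gcd_eq_gcd_ab 3 n
      rw [hcop] at hb
      have h10 := add_mem (L.lattice.smul_mem (Int.gcdA 3 n) h9) (L.lattice.smul_mem (Int.gcdB 3 n) hnL)
      rw [zsmul_eq_mul, zsmul_eq_mul] at h10
      have hb' : (1 : ℂ) = 3 * (Int.gcdA 3 n : ℂ) + n * (Int.gcdB 3 n : ℂ) := by exact_mod_cast hb
      convert h10 using 1
      push_cast
      linear_combination (((x : ℚ) : ℂ) * L.ω₁) * hb'
    refine ⟨fun hin => hxL ((h3 V L u e lam hg hv3 n hn).2 _ hnL hin), m1, fun hin => ?_⟩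
    refine m1 ((h3 V N u' e' lam' hg' hv3 n hn).2 _ ?_ hin)
    have h8 := hIsg _ hnL
    rwa [show ν * ((n : ℂ) * (((x : ℚ) : ℂ) * L.ω₁)) = (n : ℂ) * (ν * (((x : ℚ) : ℂ) * L.ω₁)) by ring] at h8
  obtain ⟨w1, w2, w3⟩ := good (1 / 5) 5 1 (by norm_num) (by push_cast; norm_num) (by norm_num)
  obtain ⟨z1, z2, z3⟩ := good (1 / 7) 7 1 (by norm_num) (by push_cast; norm_num) (by norm_num)
  obtain ⟨p1, p2, p3⟩ := good (12 / 35) 35 12 (by norm_num) (by push_cast; norm_num) (by norm_num)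
  obtain ⟨s1, s2, s3⟩ := good (-2 / 35) 35 (-2) (by norm_num) (by push_cast; norm_num) (by norm_num)
  have ep : (((12 / 35 : ℚ) : ℚ) : ℂ) * L.ω₁ =
      (((1 / 7 : ℚ) : ℚ) : ℂ) * L.ω₁ + (((1 / 5 : ℚ) : ℚ) : ℂ) * L.ω₁ := by
    push_cast
    ring
  have es : (((-2 / 35 : ℚ) : ℚ) : ℂ) * L.ω₁ =
      (((1 / 7 : ℚ) : ℚ) : ℂ) * L.ω₁ - (((1 / 5 : ℚ) : ℚ) : ℂ) * L.ω₁ := by
    push_cast
    ring
  rw [ep] at p1 p2 p3
  rw [es] at s1 s2 s3
  generalize (((1 / 7 : ℚ) : ℚ) : ℂ) * L.ω₁ = z at z1 z2 z3 p1 p2 p3 s1 s2 s3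
  generalize (((1 / 5 : ℚ) : ℚ) : ℂ) * L.ω₁ = w at w1 w2 w3 p1 p2 p3 s1 s2 s3
  -- the representatives
  have torR : ∀ q ∈ R, Tor P L q := fun q hq => (hTor q).1 (hR.mem q hq)
  have hRk : ∀ q ∈ R, InK V L (xu L u e) q ∧ xu L u e q ≠ 0 ∧
      V.valuation (xu L u e q) ^ 2 * V.valuation (3 : ℂ) = 1 := by
    intro q hq
    obtain ⟨k1, k2, k3⟩ := h4 A B P V h hT hG L u e lam hL hg q (torR q hq) (hR.ne q hq)
    refine ⟨k1, k2, ?_⟩
    unfold su at k3
    rw [map_inv₀] at k3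
    exact inv_pow_eq ((Valuation.ne_zero_iff _).2 k2) k3
  -- congruence of the points of `E[P]`
  have cong : ∀ q q', Tor P L q → Tor P L q' → q ∉ L.lattice → q' ∉ L.lattice →
      q' - q ∈ L.lattice ∨ q' + q ∈ L.lattice := by
    intro q q' hq hq' hqL hqL'
    obtain ⟨x, hx⟩ := (te_TRB A B h.ring L hL).2 P hPbot h.max q q' hq hq' hqL
    by_cases hxP : x ∈ P
    · exfalso
      apply hqL'
      have := add_mem hx (hq x hxP)
      rwa [sub_add_cancel] at this
    · rcases h.pm x hxP with h8 | h8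
      · left
        have h9 := add_mem hx (hq _ h8)
        rw [← hφ (x - 1), map_sub, map_one, hφ] at h9
        convert h9 using 1
        ring
      · right
        have h9 := add_mem hx (hq _ h8)
        rw [← hφ (x + 1), map_add, map_one, hφ] at h9
        convert h9 using 1
        ring
  obtain ⟨q0', hq0', hq0L'⟩ : ∃ q, Tor P L q ∧ q ∉ L.lattice := by
    obtain ⟨q, k1, k2⟩ := (te_TRB A B h.ring L hL).1 ⊤ P hPbot h.max.ne_top.lt_top
    exact ⟨q, k1, fun h8 => k2 fun x _ => tra1 x q h8⟩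
  obtain ⟨q0, hq0R, -⟩ := hR.surj q0' ((hTor q0').2 hq0') hq0L'
  have hq0L := hR.ne q0 hq0R
  have hq0T := torR q0 hq0R
  have hpq : (3 : ℂ) * q0 ∈ L.lattice := by
    have := hq0T _ mem3
    rw [embn] at this
    exact_mod_cast this
  have hcard : R.card = 3 - 1 := by
    have hnT : Tor P L (-q0) := fun x hx => by
      rw [mul_neg]
      exact neg_mem (hq0T x hx)
    have hnL : -q0 ∉ L.lattice := fun h8 => hq0L (by simpa using neg_mem h8)
    obtain ⟨q1, hq1R, hq1⟩ := hR.surj (-q0) ((hTor _).2 hnT) hnL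
    have hne : q0 ≠ q1 := by
      rintro rfl
      apply hq0L
      have h8 := add_mem hq1 hpq
      convert h8 using 1
      ring
    have : R = {q0, q1} := by
      ext q
      rw [Finset.mem_insert, Finset.mem_singleton]
      constructor
      · intro hq
        rcases cong q0 q hq0T (torR q hq) hq0L (hR.ne q hq) with h8 | h8
        · exact Or.inl (hR.inj q hq q0 hq0R h8)
        · right
          apply hR.inj q hq q1 hq1R
          have h9 := add_mem h8 hq1
          convert h9 using 1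
          ring
      · rintro (rfl | rfl)
        · exact hq0R
        · exact hq1R
    rw [this, Finset.card_pair hne]
  have hRT : ∀ q ∈ R, V.valuation (xu L u e q) = V.valuation (xu L u e q0) := by
    intro q hq
    have h8 : V.valuation (xu L u e q) ^ 2 * V.valuation (3 : ℂ) =
        V.valuation (xu L u e q0) ^ 2 * V.valuation (3 : ℂ) := by
      rw [(hRk q hq).2.2, (hRk q0 hq0R).2.2]
    exact (pow_left_inj₀ zero_le zero_le two_ne_zero).1 (mul_right_cancel₀ hπ0 h8)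
  -- the product formula
  have pf := h7 L N ν R hν hIsg hR w w2 z z2
  have xd : ∀ a b : ℂ, L.weierstrassP a - L.weierstrassP b =
      u ^ 2 * (xu L u e a - xu L u e b) := by
    intro a b
    unfold xu
    field_simp
    ring
  have xd' : ∀ a b : ℂ, N.weierstrassP a - N.weierstrassP b =
      u' ^ 2 * (xu N u' e' a - xu N u' e' b) := by
    intro a b
    unfold xu
    field_simp
    ring
  have pf' : (ν * u' / u) ^ 2 * (xu N u' e' (ν * z) - xu N u' e' (ν * w)) *
      ∏ q ∈ R, (xu L u e z - xu L u e q) =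
      (xu L u e z - xu L u e w) * ∏ q ∈ R, (xu L u e z - xu L u e (w + q)) := by
    simp only [xd, xd', Finset.prod_mul_distrib, Finset.prod_const] at pf
    have hu2 : u ^ 2 * (u ^ 2) ^ R.card ≠ 0 := by positivity
    apply mul_left_cancel₀ hu2
    have e1 : u ^ 2 * (ν * u' / u) ^ 2 = ν ^ 2 * u' ^ 2 := by
      field_simp
    linear_combination pf + ((u ^ 2) ^ R.card *
      (xu N u' e' (ν * z) - xu N u' e' (ν * w)) * ∏ q ∈ R, (xu L u e z - xu L u e q)) * e1
  have hT1 : 1 < V.valuation (xu L u e q0) := one_lt_of (hRk q0 hq0R).2.2 hv3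
  have v1 : V.valuation (xu N u' e' (ν * z) - xu N u' e' (ν * w)) = 1 :=
    Pool.Agent.MUXV.v_X_sub G' z3 w3 (by rw [← mul_add]; exact p3) (by rw [← mul_sub]; exact s3)
  have v2 : V.valuation (xu L u e z - xu L u e w) = 1 :=
    Pool.Agent.MUXV.v_X_sub G z1 w1 p1 s1
  have v3 : ∀ q ∈ R, V.valuation (xu L u e z - xu L u e (w + q)) = 1 := by
    intro q hqR
    have hq := (hRk q hqR).1
    refine Pool.Agent.MUXV.v_X_sub G z1 (fun hin => w1 ?_) (fun hin => p1 ?_) (fun hin => s1 ?_)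
    · have := Pool.Agent.MUXV.inK_sub G hin hq
      rwa [add_sub_cancel_right] at this
    · have := Pool.Agent.MUXV.inK_sub G hin hq
      rwa [show z + (w + q) - q = z + w by ring] at this
    · have := Pool.Agent.MUXV.inK_add G hin hq
      rwa [show z - (w + q) + q = z - w by ring] at this
  have hzint : V.valuation (xu L u e z) ≤ 1 := (Pool.Agent.MUXV.int_X z1).2
  have v4 : ∀ q ∈ R, V.valuation (xu L u e z - xu L u e q) = V.valuation (xu L u e q0) := by
    intro q hqR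
    rw [← hRT q hqR]
    apply Valuation.map_sub_eq_of_lt_right
    rw [hRT q hqR]
    exact lt_of_le_of_lt hzint hT1
  have key := congrArg V.valuation pf'
  rw [map_mul, map_mul, map_mul, map_prod, map_prod, v1, v2, Finset.prod_congr rfl v3,
    Finset.prod_congr rfl v4, Finset.prod_const, Finset.prod_const_one, hcard, map_pow,
    mul_one, mul_one] at key
  have hq0' : V.valuation (xu L u e q0) ^ 2 ≠ 0 :=
    pow_ne_zero _ ((Valuation.ne_zero_iff _).2 (hRk q0 hq0R).2.1)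
  apply mul_right_cancel₀ hq0'
  rw [mul_comm (V.valuation (3 : ℂ)), (hRk q0 hq0R).2.2]
  exact key

end

end Pool.Agent.NSER


end

section

/-!
# MUX-NS, block ER, module RED (helper4): the final form, from the context
-/

set_option autoImplicit false

namespace Pool.Agent.NSER

open _root_.MU3 _root_.Pool.Agent.MU3A _root_.Pool.Agent.MU3B _root_.Pool.Agent.MUX _root_.Pool.Agent.MUXU _root_.Pool.Agent.MUXE
open _root_.Pool.Agent.RI _root_.Pool.Agent.NS _root_.Pool.Agent.NSRD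

noncomputable section

namespace RED

/-! ### Valuations -/

/-- the final bound -/
def Bd (V : ValuationSubring ℂ) (n : ℕ) (z : ℂ) : Prop :=
  V.valuation z ^ (12 * 3 ^ n) * V.valuation (3 : ℂ) ^ 10 ≤ V.valuation (3 : ℂ) ^ (15 * 3 ^ n)

variable {V : ValuationSubring ℂ} {n : ℕ}

lemma Bd.zero : Bd V n 0 := by
  unfold Bd
  rw [map_zero, zero_pow (by positivity), zero_mul]
  exact zero_le

lemma Bd.mono {z w : ℂ} (h : Bd V n w) (hz : V.valuation z ≤ V.valuation w) : Bd V n z := by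
  unfold Bd at *
  exact (mul_le_mul' (pow_le_pow_left₀ zero_le hz _) le_rfl).trans h

lemma Bd.add {z w : ℂ} (hz : Bd V n z) (hw : Bd V n w) : Bd V n (z + w) := by
  rcases le_total (V.valuation z) (V.valuation w) with h | h
  · exact hw.mono ((V.valuation.map_add z w).trans (max_le h le_rfl))
  · exact hz.mono ((V.valuation.map_add z w).trans (max_le le_rfl h))

lemma Bd.neg {z : ℂ} (hz : Bd V n z) : Bd V n (-z) := hz.mono (by rw [Valuation.map_neg])

lemma Bd.sub {z w : ℂ} (hz : Bd V n z) (hw : Bd V n w) : Bd V n (z - w) := by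
  rw [sub_eq_add_neg]
  exact hz.add hw.neg

lemma Bd.mul {c z : ℂ} (hz : Bd V n z) (hc : V.valuation c ≤ 1) : Bd V n (c * z) :=
  hz.mono (by rw [map_mul]; exact mul_le_of_le_one_left' hc)

lemma Bd.sum {α : Type} (s : Finset α) (F : α → ℂ) (h : ∀ x ∈ s, Bd V n (F x)) :
    Bd V n (∑ x ∈ s, F x) := by
  classical
  induction s using Finset.induction_on with
  | empty => exact Bd.zero
  | insert a s ha ih =>
    rw [Finset.sum_insert ha]
    exact (h a (Finset.mem_insert_self _ _)).add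
      (ih fun x hx => h x (Finset.mem_insert_of_mem hx))

lemma Bd.of_sq {z : ℂ} (h3 : V.valuation (3 : ℂ) < 1)
    (h : V.valuation z ^ 2 ≤ V.valuation (3 : ℂ) ^ 3) : Bd V n z := by
  unfold Bd
  have h1 : V.valuation z ^ (12 * 3 ^ n) ≤ V.valuation (3 : ℂ) ^ (18 * 3 ^ n) := by
    calc V.valuation z ^ (12 * 3 ^ n) = (V.valuation z ^ 2) ^ (6 * 3 ^ n) := by
          rw [← pow_mul]; congr 1; ring
      _ ≤ (V.valuation (3 : ℂ) ^ 3) ^ (6 * 3 ^ n) := pow_le_pow_left₀ zero_le h _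
      _ = V.valuation (3 : ℂ) ^ (18 * 3 ^ n) := by rw [← pow_mul]; congr 1; ring
  calc V.valuation z ^ (12 * 3 ^ n) * V.valuation (3 : ℂ) ^ 10
      ≤ V.valuation (3 : ℂ) ^ (18 * 3 ^ n) * 1 :=
        mul_le_mul' h1 (pow_le_one₀ zero_le h3.le)
    _ ≤ V.valuation (3 : ℂ) ^ (15 * 3 ^ n) := by
        rw [mul_one]
        exact pow_le_pow_right_of_le_one' h3.le (by omega)

lemma Bd.of_pal {c z : ℂ} (h3 : V.valuation (3 : ℂ) < 1)
    (hc : V.valuation c ^ 2 ≤ V.valuation (3 : ℂ))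
    (h : V.valuation z ^ (4 * 3 ^ n) ≤ V.valuation (3 : ℂ) ^ (3 * 3 ^ n - 3)) :
    Bd V n (c * z) := by
  unfold Bd
  have h1 : V.valuation c ^ (12 * 3 ^ n) ≤ V.valuation (3 : ℂ) ^ (6 * 3 ^ n) := by
    calc V.valuation c ^ (12 * 3 ^ n) = (V.valuation c ^ 2) ^ (6 * 3 ^ n) := by
          rw [← pow_mul]; congr 1; ring
      _ ≤ (V.valuation (3 : ℂ)) ^ (6 * 3 ^ n) := pow_le_pow_left₀ zero_le hc _
  have h2 : V.valuation z ^ (12 * 3 ^ n) ≤ V.valuation (3 : ℂ) ^ (3 * (3 * 3 ^ n - 3)) := by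
    calc V.valuation z ^ (12 * 3 ^ n) = (V.valuation z ^ (4 * 3 ^ n)) ^ 3 := by
          rw [← pow_mul]; congr 1; ring
      _ ≤ (V.valuation (3 : ℂ) ^ (3 * 3 ^ n - 3)) ^ 3 := pow_le_pow_left₀ zero_le h _
      _ = V.valuation (3 : ℂ) ^ (3 * (3 * 3 ^ n - 3)) := by rw [← pow_mul]; congr 1; ring
  have h4 : 1 ≤ 3 ^ n := Nat.one_le_pow _ _ (by norm_num)
  rw [map_mul, mul_pow]
  calc V.valuation c ^ (12 * 3 ^ n) * V.valuation z ^ (12 * 3 ^ n) * V.valuation (3 : ℂ) ^ 10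
      ≤ V.valuation (3 : ℂ) ^ (6 * 3 ^ n) * V.valuation (3 : ℂ) ^ (3 * (3 * 3 ^ n - 3)) *
          V.valuation (3 : ℂ) ^ 10 := mul_le_mul' (mul_le_mul' h1 h2) le_rfl
    _ = V.valuation (3 : ℂ) ^ (6 * 3 ^ n + 3 * (3 * 3 ^ n - 3) + 10) := by
        rw [← pow_add, ← pow_add]
    _ ≤ V.valuation (3 : ℂ) ^ (15 * 3 ^ n) :=
        pow_le_pow_right_of_le_one' h3.le (by omega)

/-! ### Splitting of ranges -/

lemma prod_split (N : ℕ) (F : ℕ → ℂ) : ∏ l ∈ Finset.range (N * 3), F l =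
    ∏ l ∈ Finset.range N, ∏ j ∈ Finset.range 3, F (l + N * j) := by
  rw [show N * 3 = N + N + N by ring, Finset.prod_range_add, Finset.prod_range_add,
    ← Finset.prod_mul_distrib, ← Finset.prod_mul_distrib]
  refine Finset.prod_congr rfl fun l _ => ?_
  rw [Finset.prod_range_succ, Finset.prod_range_succ, Finset.prod_range_one,
    show l + N * 0 = l by ring, show l + N * 1 = N + l by ring,
    show l + N * 2 = N + N + l by ring]

lemma sum_split (N : ℕ) (F : ℕ → ℂ) : ∑ l ∈ Finset.range (N * 3), F l =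
    ∑ l ∈ Finset.range N, ∑ j ∈ Finset.range 3, F (l + N * j) := by
  rw [show N * 3 = N + N + N by ring, Finset.sum_range_add, Finset.sum_range_add,
    ← Finset.sum_add_distrib, ← Finset.sum_add_distrib]
  refine Finset.sum_congr rfl fun l _ => ?_
  rw [Finset.sum_range_succ, Finset.sum_range_succ, Finset.sum_range_one,
    show l + N * 0 = l by ring, show l + N * 1 = N + l by ring,
    show l + N * 2 = N + N + l by ring]

/-! ### Algebra -/

variable {A B : ℤ} {P : Ideal (OO A B)}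

lemma exb (f n : ℕ) : ∃ b : OO A B, IsB f n b := by
  obtain ⟨T, hT⟩ : ∃ T : OO A B, T = ((3 * f : ℕ) : OO A B) * dD A B := ⟨_, rfl⟩
  have h1 : IsCoprime (1 - T) ((3 * f : ℕ) : OO A B) := ⟨1, dD A B, by rw [hT]; ring⟩
  have h2 : IsCoprime (1 - T) (((3 * f : ℕ) : OO A B) ^ (n + 1)) := h1.pow_right
  have h3 : ((lvX 3 f n : ℕ) : OO A B) ∣ ((3 * f : ℕ) : OO A B) ^ (n + 1) := by
    rw [← Nat.cast_pow]
    have h4 : lvX 3 f n ∣ (3 * f) ^ (n + 1) := by
      have h5 : lvX 3 f n = 3 ^ (n + 1) * f := by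
        simp [lvX, q0]
        ring
      rw [h5, mul_pow]
      exact mul_dvd_mul_left _ (dvd_pow_self f (by omega))
    exact map_dvd (Nat.castRingHom (OO A B)) h4
  obtain ⟨c, w, hcw⟩ := h2.of_isCoprime_of_dvd_right h3
  refine ⟨(1 + T) * c, ?_⟩
  unfold IsB
  rw [← hT]
  have h6 : (1 + T) * c * (1 - T) - (1 + T) =
      (-(1 + T) * w) * ((lvX 3 f n : ℕ) : OO A B) := by
    linear_combination (1 + T) * hcw
  rw [h6]
  exact Ideal.mul_mem_left _ _ (Ideal.mem_span_singleton_self _)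

section
variable {m : Ideal (OO A B)}

/-- powers of `1 + t`, `t² = 0` modulo `m` -/
lemma pow_mod {c t : OO A B} (hc : c - 1 - t ∈ m) (ht : t * t ∈ m) (l : ℕ) :
    c ^ l - (1 + l * t) ∈ m := by
  induction l with
  | zero => simp
  | succ l ih =>
    have e : c ^ (l + 1) - (1 + ((l + 1 : ℕ) : OO A B) * t) =
        c * (c ^ l - (1 + l * t)) + (1 + l * t) * (c - 1 - t) + l * (t * t) := by
      push_cast
      ring
    rw [e]
    exact add_mem (add_mem (m.mul_mem_left _ ih) (m.mul_mem_left _ hc)) (m.mul_mem_left _ ht)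

end

lemma wP_per {x y : OO A B} (h : x - y ∈ P) : wP P x = wP P y := by
  classical
  have h1 : x ∈ P ↔ y ∈ P := by
    constructor
    · intro hx
      have := sub_mem hx h
      rwa [sub_sub_cancel] at this
    · intro hy
      have := add_mem h hy
      rwa [sub_add_cancel] at this
  have h2 : x - 1 ∈ P ↔ y - 1 ∈ P := by
    constructor
    · intro hx
      have := sub_mem hx h
      rwa [show x - 1 - (x - y) = y - 1 by ring] at this
    · intro hy
      have := add_mem h hy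
      rwa [show x - y + (y - 1) = x - 1 by ring] at this
  unfold wP
  simp only [h1, h2]

lemma wP_sub (pm : ∀ x : OO A B, x ∉ P → x - 1 ∈ P ∨ x + 1 ∈ P) {x : OO A B} (hx : x ∉ P) :
    x - (wP P x : OO A B) ∈ P := by
  classical
  unfold wP
  rw [if_neg hx]
  split_ifs with h
  · simpa using h
  · rcases pm x hx with h' | h'
    · exact absurd h' h
    · simpa using h'

/-! ### The points -/

/-- the iterates of the action of `b` -/
lemma iter {ι Q : Type} [CommMonoid Q] (β : Q) (q : ι × Q) (l : ℕ) :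
    (fun q : ι × Q => (q.1, q.2 * β))^[l] q = (q.1, q.2 * β ^ l) := by
  induction l with
  | zero => simp
  | succ l ih =>
    rw [Function.iterate_succ_apply', ih, pow_succ, mul_assoc]

/-- everything about one orbit. `z x = pt R m i x`; `Θ`, `G` are functions with the period lattice `L`. -/
lemma orbit {L : PeriodPair} (φ : OO A B →+* ℂ) {m : Ideal (OO A B)} {z0 : ℂ}
    (hper : ∀ c ∈ m, φ c * z0 ∈ L.lattice) (G : ℂ → ℂ) (hG : ∀ z, ∀ w ∈ L.lattice, G (z + w) = G z)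
    {b t : OO A B} {N : ℕ} (hb : b ^ N - 1 - t ∈ m) (ht : t * t ∈ m) {x x' : OO A B} {l j : ℕ}
    (hx : x' - x * b ^ (l + N * j) ∈ m) :
    G (φ x' * z0) = G (φ (x * b ^ l) * z0 + j * (φ t * (φ (x * b ^ l) * z0))) := by
  have h1 := pow_mod hb ht j
  have h2 : x' - (x * b ^ l + x * b ^ l * (j * t)) ∈ m := by
    have e : x' - (x * b ^ l + x * b ^ l * (j * t)) =
        (x' - x * b ^ (l + N * j)) + x * b ^ l * ((b ^ N) ^ j - (1 + j * t)) := by
      rw [pow_add, pow_mul]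
      ring
    rw [e]
    exact add_mem hx (m.mul_mem_left _ h1)
  have h3 := hper _ h2
  have h4 := hG (φ (x * b ^ l) * z0 + j * (φ t * (φ (x * b ^ l) * z0))) _ h3
  rw [← h4]
  congr 1
  rw [map_sub, map_add, map_mul φ (x * b ^ l) (j * t), map_mul φ (j : OO A B) t, map_natCast]
  ring

lemma fin_quot (hr : RingE A B) {m : ℕ} (hm : m ≠ 0) :
    Finite (OO A B ⧸ idl (A := A) (B := B) m) := by
  have := hr.ded
  apply Ideal.finiteQuotientOfFreeOfNeBot
  exact m0_ne A B hr hm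

lemma notPP (hC : CtxR A B P V) {k r : ℕ} (hk : k ≠ 0) {y : OO A B}
    (h : ((k : ℕ) : OO A B) * y ∈ idl (A := A) (B := B) (k * (3 * r))) : y ∈ P * P := by
  have := hC.ring.ded
  rw [Ideal.mem_span_singleton] at h
  obtain ⟨z, hz⟩ := h
  have hk0 : ((k : ℕ) : OO A B) ≠ 0 := by
    intro h0
    obtain ⟨φ, -⟩ := hC.ring.hom
    have h1 : φ ((k : ℕ) : OO A B) = 0 := by rw [h0, map_zero]
    rw [map_natCast] at h1
    exact hk (by exact_mod_cast h1)
  have h1 : y = ((3 : ℕ) : OO A B) * ((r : OO A B) * z) := by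
    apply mul_left_cancel₀ hk0
    rw [hz]
    push_cast
    ring
  rw [hC.sq, h1]
  exact Ideal.mul_mem_right _ _ (Ideal.mem_span_singleton_self _)

/-- `D` is finite over `k` -/
lemma finD (hT : TorX A B) {m : Ideal (OO A B)} (hm : m ≠ ⊥) (D : IntermediateField ℚ ℂ)
    (h : kk A B ≤ D) (hD : ∀ y ∈ D, y ∈ RF m) :
    letI := algC h
    Finite (D ≃ₐ[kk A B] D) := by
  letI := algC h
  have := hT.fin m hm
  have := Pool.Agent.FX.fd_of_le h hD
  exact inferInstance

end RED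

open _root_.Pool.Agent.NSER.RED in
theorem tf_RED (hMAIN : Sf_MAIN) (hPAL : Sf_PAL) (hINN : Sf_INN) (hORB : Sf_ORB) (hSTB : Sf_STB)
    (hBPW : Sf_BPW) (hEXO : Sf_EXO) (hIDL : Sf_IDL) : Sf_RED := by
  classical
  intro A B P V hC hT hE n f hn hf3 hf2 hf ι _ R u e lam hG H hH D h hD hfix
  letI := algC h
  intro hCC g hcube τ'
  have hf0 : f ≠ 0 := by omega
  have h3 := hC.v3
  obtain ⟨φ, hφ⟩ := hC.ring.hom
  obtain ⟨b, hb⟩ := exb (A := A) (B := B) f n
  obtain ⟨hb1, hb2, hb3, -, hb5⟩ := hBPW A B P V hC f n b hf0 hb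
  obtain ⟨h3P, -, -, hnP, hlev⟩ := hIDL A B P V hC
  obtain ⟨k, rfl⟩ : ∃ k, n = k + 1 := ⟨n - 1, by omega⟩
  obtain ⟨m, hm⟩ : ∃ m, m = lvX 3 f (k + 1) := ⟨_, rfl⟩
  have hlv : m = 3 ^ (k + 1 + 1) * f := by
    rw [hm]
    simp [lvX, q0]
    ring
  obtain ⟨ha3, hap, haf⟩ := m0_aX (p := 3) (Or.inr rfl) hf0
  have hao : Odd (aX 3 f) := ⟨3 * f, by simp [aX, q0]; ring⟩
  obtain ⟨a, ha⟩ : ∃ a, a = aX 3 f := ⟨_, rfl⟩
  rw [← hm] at hb1 hb2 hb3 hcube hCC ⊢
  rw [← ha] at ha3 hap haf hao hH ⊢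
  have hm0 : m ≠ 0 := by
    rw [hlv]
    exact mul_ne_zero (pow_ne_zero _ (by norm_num)) hf0
  have : Finite (D ≃ₐ[kk A B] D) := finD hT (hlev f (k + 1) hf0).2.2.2.2.1 D h hD
  letI : Fintype (D ≃ₐ[kk A B] D) := Fintype.ofFinite _
  have := fin_quot hC.ring hm0
  -- multiples of `m` are in `P`
  have hmP : ∀ x ∈ idl (A := A) (B := B) m, x ∈ P := by
    intro x hx
    rw [Ideal.mem_span_singleton] at hx
    obtain ⟨z, rfl⟩ := hx
    exact P.mul_mem_right _ ((hnP m).2 (by rw [hlv, pow_succ', mul_assoc]; exact dvd_mul_right _ _))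
  -- `b^(3^k) = 1 + t`
  obtain ⟨y, hyP, hyPP, hy⟩ := hb2 (3 ^ k) k dvd_rfl (by
    intro h5
    have := (Nat.pow_dvd_pow_iff_le_right (by norm_num : 1 < 3)).1 h5
    omega) le_rfl
  obtain ⟨t, ht⟩ : ∃ t : OO A B, t = ((3 ^ (k + 1) * f : ℕ) : OO A B) * y := ⟨_, rfl⟩
  rw [← ht] at hy
  have htt : t * t ∈ idl (A := A) (B := B) m := by
    rw [ht, Ideal.mem_span_singleton, hlv]
    refine ⟨((3 ^ k * f : ℕ) : OO A B) * (y * y), ?_⟩
    push_cast
    ring
  -- the sets
  have hfin : ∀ τ : D ≃ₐ[kk A B] D, (XX R m h τ).Finite := fun τ => Set.toFinite _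
  let S : (D ≃ₐ[kk A B] D) → Finset (ι × (OO A B ⧸ idl (A := A) (B := B) m)) :=
    fun τ => (hfin τ).toFinset
  have hScop : ∀ τ, ∀ q ∈ S τ, IsCoprime (Quotient.out q.2 : OO A B) ((m : ℕ) : OO A B) :=
    fun τ q hq => ((hfin τ).mem_toFinset.1 hq).1
  obtain ⟨β, hβ⟩ : ∃ β : OO A B ⧸ idl (A := A) (B := B) m, β = Ideal.Quotient.mk _ b := ⟨_, rfl⟩
  let ψ : ι × (OO A B ⧸ idl (A := A) (B := B) m) → ι × (OO A B ⧸ idl (A := A) (B := B) m) :=
    fun q => (q.1, q.2 * β)
  have hit : ∀ (q : ι × (OO A B ⧸ idl (A := A) (B := B) m)) (l : ℕ),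
      ψ^[l] q = (q.1, q.2 * β ^ l) := fun q l => iter β q l
  have hβn : β ^ 3 ^ (k + 1) = 1 := by
    rw [hβ, ← map_pow, ← map_one (Ideal.Quotient.mk (idl (A := A) (B := B) m)),
      Ideal.Quotient.eq]
    exact hb3
  have hmain : ∀ τ : D ≃ₐ[kk A B] D, ∃ T : Finset (ι × (OO A B ⧸ idl (A := A) (B := B) m)),
      T ⊆ S τ ∧ (∀ F : ι × (OO A B ⧸ idl (A := A) (B := B) m) → ℂ, ∏ x ∈ S τ, F x =
        ∏ x ∈ T, ∏ l ∈ Finset.range (3 ^ (k + 1)), F (ψ^[l] x)) ∧
      ∀ F : ι × (OO A B ⧸ idl (A := A) (B := B) m) → ℂ, ∑ x ∈ S τ, F x =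
        ∑ x ∈ T, ∑ l ∈ Finset.range (3 ^ (k + 1)), F (ψ^[l] x) := by
    intro τ
    refine hORB _ (S τ) ψ (3 ^ (k + 1)) (by positivity) (fun q hq => ?_) (fun q hq => ?_)
      (fun q hq l hl0 hl => ?_)
    · rw [(hfin τ).mem_toFinset] at hq ⊢
      have h6 := hSTB A B P V hC hT (k + 1) f hn hf0 hf ι R D h hfix τ b hb
      subst hm
      subst hβ
      exact h6 q hq
    · rw [hit, hβn, mul_one]
    · rw [hit]
      intro h6
      have h7 : q.2 * β ^ l = q.2 := congrArg Prod.snd h6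
      obtain ⟨a1, a2, h8⟩ := hScop τ q hq
      have h9 : (Ideal.Quotient.mk (idl (A := A) (B := B) m) a1) * q.2 = 1 := by
        have h10 := congrArg (Ideal.Quotient.mk (idl (A := A) (B := B) m)) h8
        rw [map_add, map_mul, map_mul, Ideal.Quotient.mk_out, map_one,
          Ideal.Quotient.eq_zero_iff_mem.2 (Ideal.mem_span_singleton_self _), mul_zero,
          add_zero] at h10
        exact h10
      have h11 : β ^ l = 1 := by
        calc β ^ l = (Ideal.Quotient.mk (idl (A := A) (B := B) m) a1) * q.2 * β ^ l := by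
              rw [h9, one_mul]
          _ = 1 := by rw [mul_assoc, h7, h9]
      rw [hβ, ← map_pow, ← map_one (Ideal.Quotient.mk (idl (A := A) (B := B) m)),
        Ideal.Quotient.eq] at h11
      obtain ⟨j, l', hl', hlj⟩ := Nat.exists_eq_pow_mul_and_not_dvd hl0.ne' 3 (by norm_num)
      have hjn : j + 1 ≤ k + 1 := by
        by_contra h12
        have h13 : 3 ^ (k + 1) ≤ 3 ^ j := Nat.pow_le_pow_right (by norm_num) (by omega)
        have h14 : 3 ^ j ≤ l := Nat.le_of_dvd hl0 (hlj ▸ dvd_mul_right _ _)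
        omega
      obtain ⟨y', -, hy'P, hy'⟩ := hb2 l j (hlj ▸ dvd_mul_right _ _) (by
        rw [hlj, pow_succ]
        intro h12
        exact hl' (Nat.dvd_of_mul_dvd_mul_left (by positivity) h12)) hjn
      apply hy'P
      have h12 := sub_mem h11 hy'
      rw [sub_sub_cancel] at h12
      refine notPP hC (k := 3 ^ (j + 1) * f) (r := 3 ^ (k - j))
        (mul_ne_zero (by positivity) hf0) ?_
      have h13 : 3 ^ (j + 1) * f * (3 * 3 ^ (k - j)) = m := by
        rw [hlv, ← pow_succ', mul_right_comm, ← pow_add]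
        congr 2
        omega
      rw [h13]
      exact h12
  choose T hTS hTp hTs using hmain
  clear hORB hSTB
  -- points
  obtain ⟨z0, hz0⟩ : ∃ z0 : ι → ℂ, ∀ i x, pt R m i x = φ x * z0 i :=
    ⟨fun i => R.om i * nI (R.b i) / m, fun i x => by unfold pt; rw [hφ]; ring⟩
  have hex : ∀ (i : ι) (x : OO A B), IsCoprime x ((m : ℕ) : OO A B) →
      ∀ c : OO A B, φ c * pt R m i x ∈ (R.L i).lattice ↔ c ∈ idl (A := A) (B := B) m := by
    intro i x hx c
    rw [hlv] at hx ⊢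
    rw [hφ]
    exact (hEXO A B P V hC (k + 1) f ι R hf0 i x hx).1 c
  have hper : ∀ i, ∀ c ∈ idl (A := A) (B := B) m, φ c * z0 i ∈ (R.L i).lattice := by
    intro i c hc
    have h6 := (hex i 1 isCoprime_one_left c).2 hc
    rwa [hz0, map_one, one_mul] at h6
  -- the point of `E[P]`
  let xx : (ι × (OO A B ⧸ idl (A := A) (B := B) m)) × ℕ → OO A B := fun K =>
    (Quotient.out K.1.2 : OO A B) * b ^ K.2
  let qq : (ι × (OO A B ⧸ idl (A := A) (B := B) m)) × ℕ → ℂ := fun K =>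
    φ t * pt R m K.1.1 (xx K)
  have hxx : ∀ (q : ι × (OO A B ⧸ idl (A := A) (B := B) m)) (l : ℕ),
      IsCoprime (Quotient.out q.2 : OO A B) ((m : ℕ) : OO A B) →
      IsCoprime (xx (q, l)) ((m : ℕ) : OO A B) := fun q l hq => hq.mul_left hb1.pow_left
  have htor : ∀ (i : ι) (x : OO A B), IsCoprime x ((m : ℕ) : OO A B) →
      Tor P (R.L i) (φ t * pt R m i x) ∧ φ t * pt R m i x ∉ (R.L i).lattice := by
    intro i x hx
    refine ⟨fun p hp => ?_, fun h6 => ?_⟩
    · rw [← hφ, ← mul_assoc, ← map_mul, hex i x hx]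
      have h7 : p * y ∈ P * P := Ideal.mul_mem_mul hp hyP
      rw [hC.sq, Ideal.mem_span_singleton] at h7
      obtain ⟨w, hw⟩ := h7
      rw [Ideal.mem_span_singleton]
      refine ⟨w, ?_⟩
      rw [ht, hlv]
      calc p * (((3 ^ (k + 1) * f : ℕ) : OO A B) * y) =
            ((3 ^ (k + 1) * f : ℕ) : OO A B) * (p * y) := by ring
        _ = _ := by
            rw [hw]
            push_cast
            ring
    · rw [hex i x hx, ht] at h6
      refine hyPP (notPP hC (k := 3 ^ (k + 1) * f) (r := 1)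
        (mul_ne_zero (by positivity) hf0) ?_)
      rw [hlv] at h6
      rw [show 3 ^ (k + 1) * f * (3 * 1) = 3 ^ (k + 1 + 1) * f by ring]
      exact h6
  -- values of periodic functions
  have horb : ∀ (i : ι) (G : ℂ → ℂ), (∀ z, ∀ w ∈ (R.L i).lattice, G (z + w) = G z) →
      ∀ (x x' : OO A B) (l j : ℕ), x' - x * b ^ (l + 3 ^ k * j) ∈ idl (A := A) (B := B) m →
      G (pt R m i x') = G (pt R m i (x * b ^ l) + j * (φ t * pt R m i (x * b ^ l))) := by
    intro i G hGp x x' l j hx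
    rw [hz0, hz0]
    exact orbit φ (hper i) G hGp hy htt hx
  have hout : ∀ (q : ι × (OO A B ⧸ idl (A := A) (B := B) m)) (l : ℕ),
      (Quotient.out (ψ^[l] q).2 : OO A B) - (Quotient.out q.2 : OO A B) * b ^ l ∈
        idl (A := A) (B := B) m := by
    intro q l
    rw [← Ideal.Quotient.eq, Ideal.Quotient.mk_out, map_mul, Ideal.Quotient.mk_out, hit, hβ,
      map_pow]
  have hfst : ∀ (q : ι × (OO A B ⧸ idl (A := A) (B := B) m)) (l : ℕ), (ψ^[l] q).1 = q.1 := by
    intro q l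
    rw [hit]
  have hTh : ∀ i, ∀ z, ∀ w ∈ (R.L i).lattice,
      ThetaH (R.L i) (H i) (z + w) = ThetaH (R.L i) (H i) z := by
    intro i z w hw
    have h2 : (R.L i).weierstrassP (z + w) = (R.L i).weierstrassP z :=
      (R.L i).weierstrassP_add_coe z ⟨w, hw⟩
    simp only [ThetaH, h2]
  have hdl : ∀ i, ∀ z, ∀ w ∈ (R.L i).lattice, dlX (R.L i) a (z + w) = dlX (R.L i) a z := by
    intro i z w hw
    have h6 := (b_PER (R.L i)).1
    unfold dlX
    rw [h6 z w hw, mul_add, h6 (a * z) (a * w) (by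
      have := nsmul_mem hw a
      rwa [nsmul_eq_mul] at this)]
  have hsp : 3 ^ (k + 1) = 3 ^ k * 3 := pow_succ 3 k
  -- the products
  let S' : (D ≃ₐ[kk A B] D) → Finset ((ι × (OO A B ⧸ idl (A := A) (B := B) m)) × ℕ) := fun τ =>
    T τ ×ˢ Finset.range (3 ^ k)
  have hprod : ∀ τ : D ≃ₐ[kk A B] D, cX R m H h τ = ∏ K ∈ S' τ, ∏ l ∈ Finset.range 3,
      ThetaH (R.L K.1.1) (H K.1.1) (pt R m K.1.1 (xx K) + l * qq K) := by
    intro τ
    rw [cX, finprod_mem_eq_finite_toFinset_prod _ (hfin τ)]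
    refine (hTp τ _).trans ?_
    rw [Finset.prod_product]
    refine Finset.prod_congr rfl fun q _ => ?_
    rw [hsp, prod_split]
    refine Finset.prod_congr rfl fun l _ => Finset.prod_congr rfl fun j _ => ?_
    rw [hfst]
    exact horb q.1 _ (hTh q.1) _ _ l j (hout q _)
  -- the sums
  have hbP : ∀ l : ℕ, b ^ l - 1 ∈ P := by
    intro l
    obtain ⟨p, hp, h6⟩ := ((hlev f 1 hf0).1 _).1 (hb5 hn l)
    rw [h6]
    exact P.mul_mem_left _ hp
  let W : (ι × (OO A B ⧸ idl (A := A) (B := B) m)) → ℂ := fun q =>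
    (wP P (Quotient.out q.2 : OO A B) : ℂ)
  let d : (ι × (OO A B ⧸ idl (A := A) (B := B) m)) → ℕ → ℕ → ℂ := fun q l j =>
    dlX (R.L q.1) a (pt R m q.1 (xx (q, l)) + j * qq (q, l))
  have hsum : ∀ τ : D ≃ₐ[kk A B] D, TTX R P m a h τ = ∑ q ∈ T τ, ∑ l ∈ Finset.range (3 ^ k),
      ∑ j ∈ Finset.range 3, W q * muX R q.1 * d q l j := by
    intro τ
    rw [TTX, finsum_mem_eq_finite_toFinset_sum _ (hfin τ)]
    refine (hTs τ _).trans ?_
    refine Finset.sum_congr rfl fun q _ => ?_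
    rw [hsp, sum_split]
    refine Finset.sum_congr rfl fun l _ => Finset.sum_congr rfl fun j _ => ?_
    have h6 : wP P (Quotient.out (ψ^[l + 3 ^ k * j] q).2 : OO A B) =
        wP P (Quotient.out q.2 : OO A B) := by
      apply wP_per
      have h7 := add_mem (hmP _ (hout q (l + 3 ^ k * j)))
        (P.mul_mem_left (Quotient.out q.2 : OO A B) (hbP (l + 3 ^ k * j)))
      rwa [show (Quotient.out (ψ^[l + 3 ^ k * j] q).2 : OO A B) -
        (Quotient.out q.2 : OO A B) * b ^ (l + 3 ^ k * j) +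
        (Quotient.out q.2 : OO A B) * (b ^ (l + 3 ^ k * j) - 1) =
        (Quotient.out (ψ^[l + 3 ^ k * j] q).2 : OO A B) - Quotient.out q.2 by ring] at h7
    rw [h6, hfst, horb q.1 _ (hdl q.1) _ _ l j (hout q _)]
  -- the sum of `MAIN`
  obtain ⟨Y, hY⟩ : ∃ Y : (D ≃ₐ[kk A B] D) → ℂ, ∀ τ, Y τ = ∑ K ∈ S' τ, emb (xx K) *
      muX R K.1.1 * ∑ l ∈ Finset.range 3, dlX (R.L K.1.1) a (pt R m K.1.1 (xx K) + l * qq K) :=
    ⟨_, fun τ => rfl⟩
  have hM : V.valuation ((∑ᶠ τ : D ≃ₐ[kk A B] D, (g τ : ℂ) * Y (τ * τ')) / u) ^ 2 ≤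
      V.valuation (3 : ℂ) ^ 3 := by
    simp only [hY]
    subst hm
    subst ha
    refine hMAIN A B P V hC hT hE (k + 1) f hn hf3 hf2 hf ι R u e lam hG H hH D h hD
      (cX R (lvX 3 f (k + 1)) H h) _ S' (fun K => K.1.1) xx qq hCC ?_ hprod g hcube τ'
    intro τ K hK
    obtain ⟨hK1, -⟩ := Finset.mem_product.1 hK
    have h6 := hxx K.1 K.2 (hScop τ _ (hTS τ hK1))
    exact ⟨h6, htor K.1.1 _ h6⟩
  have hΔ : ∀ τ : D ≃ₐ[kk A B] D, Bd V (k + 1) ((Y τ - TTX R P m a h τ) / u) := by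
    intro τ
    rw [hsum τ, hY, Finset.sum_product, ← Finset.sum_sub_distrib, Finset.sum_div]
    refine Bd.sum _ _ fun q hq => ?_
    have hqc := hScop τ q (hTS τ hq)
    obtain ⟨x, hx⟩ : ∃ x : OO A B, x = Quotient.out q.2 := ⟨_, rfl⟩
    have e1 : ∀ l, emb (xx (q, l)) = emb x * emb (b ^ l) := by
      intro l
      rw [← hφ, ← hφ, ← hφ, hx]
      exact map_mul φ _ _
    have e2 : (∑ l ∈ Finset.range (3 ^ k), emb (xx (q, l)) * muX R q.1 *
        ∑ j ∈ Finset.range 3, d q l j -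
        ∑ l ∈ Finset.range (3 ^ k), ∑ j ∈ Finset.range 3, W q * muX R q.1 * d q l j) / u =
        (emb x - W q) * (muX R q.1 * (∑ l ∈ Finset.range (3 ^ k), ∑ j ∈ Finset.range 3,
          d q l j) / u) + ∑ l ∈ Finset.range (3 ^ k), ∑ j ∈ Finset.range 3,
          (emb x * (emb (b ^ l) - 1)) * (muX R q.1 * d q l j / u) := by
      simp only [Finset.mul_sum, Finset.sum_div, ← Finset.sum_sub_distrib,
        ← Finset.sum_add_distrib, e1]
      refine Finset.sum_congr rfl fun l _ => Finset.sum_congr rfl fun j _ => ?_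
      ring
    refine Eq.subst (motive := fun z => Bd V (k + 1) z) e2.symm ?_
    have hxP : x ∉ P := by
      intro h6
      obtain ⟨c1, c2, h7⟩ := hqc
      apply hC.max.ne_top
      rw [Ideal.eq_top_iff_one, ← h7]
      refine add_mem (P.mul_mem_left _ (hx ▸ h6)) (P.mul_mem_left _ ?_)
      exact hmP _ (Ideal.mem_span_singleton_self _)
    refine Bd.add (Bd.of_pal h3 ?_ ?_) (Bd.sum _ _ fun l _ => Bd.sum _ _ fun j _ => ?_)
    · have h6 := hC.vP _ (wP_sub hC.pm hxP)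
      rw [← hφ, map_sub, map_intCast, hφ] at h6
      rw [hx] at h6 ⊢
      exact h6
    · have h6 := hPAL A B P V hC hT hE (k + 1) f a hn hf3 hf2 hf ha3 hao hap haf ι R u e lam hG b
        hb q.1 x (by rw [← hm, hx]; exact hqc)
      rw [← hm, hsp, sum_split] at h6
      have e3 : ∑ l ∈ Finset.range (3 ^ k), ∑ j ∈ Finset.range 3,
          dlX (R.L q.1) a (pt R m q.1 (x * b ^ (l + 3 ^ k * j))) =
          ∑ l ∈ Finset.range (3 ^ k), ∑ j ∈ Finset.range 3, d q l j := by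
        refine Finset.sum_congr rfl fun l _ => Finset.sum_congr rfl fun j _ => ?_
        rw [horb q.1 _ (hdl q.1) x _ l j (by rw [sub_self]; exact zero_mem _), hx]
      rw [e3, ← hsp] at h6
      exact h6
    · have hxl := hxx q l hqc
      have h6 := ((hINN A B P V hC hT hE (k + 1) f a hf3 hf2 hf ha3 hao hap haf ι R u e lam hG H
        hH q.1 (xx (q, l)) (by rw [← hlv]; exact hxl) (qq (q, l)) (htor q.1 _ hxl).1).1 j).2
      rw [← hlv] at h6
      refine Bd.of_sq h3 ?_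
      obtain ⟨p, hp, h7⟩ := ((hlev f 1 hf0).1 _).1 (hb5 hn l)
      have h8 : emb (b ^ l) - 1 = 3 * (f * emb p) := by
        have h9 := congrArg φ h7
        rw [map_sub, map_one, map_mul, map_natCast, hφ, hφ] at h9
        rw [h9]
        push_cast
        ring
      have hnat : V.valuation (f : ℂ) ≤ 1 := by
        rw [V.valuation_le_one_iff]
        exact natCast_mem V f
      have h9 : V.valuation ((emb x * (emb (b ^ l) - 1)) * (muX R q.1 * d q l j / u)) ≤
          V.valuation (3 : ℂ) * V.valuation (emb p) := by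
        rw [h8]
        calc V.valuation ((emb x * (3 * (f * emb p))) * (muX R q.1 * d q l j / u))
            = V.valuation (emb x) * (V.valuation (3 : ℂ) * (V.valuation (f : ℂ) *
                V.valuation (emb p))) * V.valuation (muX R q.1 * d q l j / u) := by
              simp only [map_mul]
          _ ≤ 1 * (V.valuation (3 : ℂ) * (1 * V.valuation (emb p))) * 1 :=
              mul_le_mul' (mul_le_mul' (hC.int x) (mul_le_mul' le_rfl
                (mul_le_mul' hnat le_rfl))) h6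
          _ = _ := by rw [one_mul, one_mul, mul_one]
      calc V.valuation ((emb x * (emb (b ^ l) - 1)) * (muX R q.1 * d q l j / u)) ^ 2
          ≤ (V.valuation (3 : ℂ) * V.valuation (emb p)) ^ 2 := pow_le_pow_left₀ zero_le h9 _
        _ = V.valuation (3 : ℂ) ^ 2 * V.valuation (emb p) ^ 2 := mul_pow _ _ _
        _ ≤ V.valuation (3 : ℂ) ^ 2 * V.valuation (3 : ℂ) := mul_le_mul' le_rfl (hC.vP p hp)
        _ = V.valuation (3 : ℂ) ^ 3 := (pow_succ _ 2).symm
  rw [finsum_eq_sum_of_fintype] at hM ⊢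
  have e4 : (∑ τ : D ≃ₐ[kk A B] D, (g τ : ℂ) * TTX R P m a h (τ * τ')) / u =
      (∑ τ : D ≃ₐ[kk A B] D, (g τ : ℂ) * Y (τ * τ')) / u -
      ∑ τ : D ≃ₐ[kk A B] D, (g τ : ℂ) * ((Y (τ * τ') - TTX R P m a h (τ * τ')) / u) := by
    rw [Finset.sum_div, Finset.sum_div, ← Finset.sum_sub_distrib]
    exact Finset.sum_congr rfl fun τ _ => by ring
  rw [e4]
  refine (Bd.of_sq h3 hM).sub (Bd.sum _ _ fun τ _ => (hΔ _).mul ?_)
  rw [V.valuation_le_one_iff]
  exact intCast_mem V _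

end

end Pool.Agent.NSER


end

section

/-!
# MUX-NS, block ER, module PAL (helper75): the sums over the small group, on `L_i`

The manipulations of the points (`RED.orbit`, `RED.sum_split`, `RED.notPP`) are those of `F_RED.lean`.
-/

set_option autoImplicit false

namespace Pool.Agent.NSER

open _root_.MU3 _root_.Pool.Agent.MU3A _root_.Pool.Agent.MU3B _root_.Pool.Agent.MUX _root_.Pool.Agent.MUXU _root_.Pool.Agent.MUXE
open _root_.Pool.Agent.RI _root_.Pool.Agent.NS _root_.Pool.Agent.NSRD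

noncomputable section

namespace PAL75

/-- half systems exist for odd natural numbers -/
theorem half (N : PeriodPair) {a : ℕ} (ha : Odd a) : ∃ H : Finset ℂ, IsHalf N (a : ℂ) H := by
  have ha0 : a ≠ 0 := by
    rintro rfl
    simp at ha
  refine b_HAL N (a : ℂ) (by exact_mod_cast ha0) (fun w hw => ?_) (fun z h1 h2 => ?_)
  · have := nsmul_mem hw a
    rwa [nsmul_eq_mul] at this
  · obtain ⟨k, rfl⟩ := ha
    have h3 := nsmul_mem h2 k
    rw [nsmul_eq_mul] at h3
    have h4 := sub_mem h1 h3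
    have e : ((2 * k + 1 : ℕ) : ℂ) * z - (k : ℂ) * (2 * z) = z := by
      push_cast
      ring
    rwa [e] at h4

/-- `dlX` is periodic -/
theorem dl_per (L : PeriodPair) (a : ℕ) (z w : ℂ) (hw : w ∈ L.lattice) :
    dlX L a (z + w) = dlX L a z := by
  have h6 := (b_PER L).1
  unfold dlX
  rw [h6 z w hw, mul_add, h6 (a * z) (a * w) (by
    have := nsmul_mem hw a
    rwa [nsmul_eq_mul] at this)]

/-- the valuations -/
theorem val {V : ValuationSubring ℂ} {n : ℕ} (hn : 1 ≤ n) {c d e : ℂ}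
    (h1 : V.valuation c ^ (4 * 3 ^ n) ≤ V.valuation (3 : ℂ) ^ (3 ^ n - 3))
    (h2 : V.valuation d ^ 2 = V.valuation (3 : ℂ)) (h3 : V.valuation e = 1) :
    V.valuation (c * d * e) ^ (4 * 3 ^ n) ≤ V.valuation (3 : ℂ) ^ (3 * 3 ^ n - 3) := by
  have h4 : 3 ≤ 3 ^ n := by
    calc 3 = 3 ^ 1 := by norm_num
      _ ≤ 3 ^ n := Nat.pow_le_pow_right (by norm_num) hn
  rw [map_mul, map_mul, h3, mul_one, mul_pow]
  have h5 : V.valuation d ^ (4 * 3 ^ n) = V.valuation (3 : ℂ) ^ (2 * 3 ^ n) := by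
    rw [show 4 * 3 ^ n = 2 * (2 * 3 ^ n) by ring, pow_mul, h2]
  rw [h5]
  calc V.valuation c ^ (4 * 3 ^ n) * V.valuation (3 : ℂ) ^ (2 * 3 ^ n)
      ≤ V.valuation (3 : ℂ) ^ (3 ^ n - 3) * V.valuation (3 : ℂ) ^ (2 * 3 ^ n) :=
        mul_le_mul' h1 le_rfl
    _ = V.valuation (3 : ℂ) ^ (3 * 3 ^ n - 3) := by
        rw [← pow_add]
        congr 1
        omega

end PAL75

open _root_.Pool.Agent.NSER.PAL75 in
theorem tf_PAL (hPAR : Sf_PAR) (hPIS : Sf_PIS) (hDIS : Sf_DIS) (hEXO : Sf_EXO) (hUNT : Sf_UNT)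
    (hMUL : Sf_MUL) (hBPW : Sf_BPW) (hIDL : Sf_IDL) : Sf_PAL := by
  intro A B P V hC hT hE n f a hn hf3 hf2 hf ha3 hao ha haf ι R u e lam hG b hb i x hx
  have hf0 : f ≠ 0 := by omega
  have hv3 := hC.v3
  obtain ⟨φ, hφ⟩ := hC.ring.hom
  obtain ⟨hb1, hb2, -, -, -⟩ := hBPW A B P V hC f n b hf0 hb
  obtain ⟨h3P, -, -, hnP, hlev⟩ := hIDL A B P V hC
  obtain ⟨-, -, -, -, -, hlvn, -⟩ := hlev f n hf0
  obtain ⟨k, rfl⟩ : ∃ k, n = k + 1 := ⟨n - 1, by omega⟩
  have hlv : lvX 3 f (k + 1) = 3 ^ (k + 1 + 1) * f := by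
    simp [lvX, q0]
    ring
  rw [hlv] at hx hb1 hb2 ⊢
  obtain ⟨m, hm⟩ : ∃ m, m = 3 ^ (k + 1 + 1) * f := ⟨_, rfl⟩
  -- `b^(3^k) = 1 + t`
  obtain ⟨y, hyP, hyPP, hy⟩ := hb2 (3 ^ k) k dvd_rfl (by
    intro h5
    have := (Nat.pow_dvd_pow_iff_le_right (by norm_num : 1 < 3)).1 h5
    omega) le_rfl
  obtain ⟨t, ht⟩ : ∃ t : OO A B, t = ((3 ^ (k + 1) * f : ℕ) : OO A B) * y := ⟨_, rfl⟩
  rw [← ht] at hy
  have htt : t * t ∈ idl (A := A) (B := B) m := by
    rw [ht, Ideal.mem_span_singleton, hm]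
    refine ⟨((3 ^ k * f : ℕ) : OO A B) * (y * y), ?_⟩
    push_cast
    ring
  have hEX := hEXO A B P V hC (k + 1) f ι R hf0 i
  rw [← hm] at hx hb1 hy hEX ⊢
  -- the points
  obtain ⟨z0, hz0⟩ : ∃ z0 : ℂ, ∀ x, pt R m i x = φ x * z0 :=
    ⟨R.om i * nI (R.b i) / m, fun x => by unfold pt; rw [hφ]; ring⟩
  have hex : ∀ x : OO A B, IsCoprime x ((m : ℕ) : OO A B) →
      ∀ c : OO A B, φ c * pt R m i x ∈ (R.L i).lattice ↔ c ∈ idl (A := A) (B := B) m := by
    intro x hx c
    rw [hφ]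
    exact (hEX x hx).1 c
  have hper : ∀ c ∈ idl (A := A) (B := B) m, φ c * z0 ∈ (R.L i).lattice := by
    intro c hc
    have h6 := (hex 1 isCoprime_one_left c).2 hc
    rwa [hz0, map_one, one_mul] at h6
  have hxl : ∀ l : ℕ, IsCoprime (x * b ^ l) ((m : ℕ) : OO A B) := fun l =>
    hx.mul_left hb1.pow_left
  have htor : ∀ x : OO A B, IsCoprime x ((m : ℕ) : OO A B) →
      Tor P (R.L i) (φ t * pt R m i x) ∧ φ t * pt R m i x ∉ (R.L i).lattice := by
    intro x hx
    refine ⟨fun p hp => ?_, fun h6 => ?_⟩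
    · rw [← hφ, ← mul_assoc, ← map_mul, hex x hx]
      have h7 : p * y ∈ P * P := Ideal.mul_mem_mul hp hyP
      rw [hC.sq, Ideal.mem_span_singleton] at h7
      obtain ⟨w, hw⟩ := h7
      rw [Ideal.mem_span_singleton]
      refine ⟨w, ?_⟩
      rw [ht, hm]
      calc p * (((3 ^ (k + 1) * f : ℕ) : OO A B) * y) =
            ((3 ^ (k + 1) * f : ℕ) : OO A B) * (p * y) := by ring
        _ = _ := by
            rw [hw]
            push_cast
            ring
    · rw [hex x hx, ht] at h6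
      refine hyPP (RED.notPP hC (k := 3 ^ (k + 1) * f) (r := 1)
        (mul_ne_zero (by positivity) hf0) ?_)
      rw [hm] at h6
      rw [show 3 ^ (k + 1) * f * (3 * 1) = 3 ^ (k + 1 + 1) * f by ring]
      exact h6
  have horb : ∀ l j : ℕ, dlX (R.L i) a (pt R m i (x * b ^ (l + 3 ^ k * j))) =
      dlX (R.L i) a (pt R m i (x * b ^ l) + j * (φ t * pt R m i (x * b ^ l))) := by
    intro l j
    rw [hz0, hz0]
    exact RED.orbit φ hper (dlX (R.L i) a) (dl_per (R.L i) a) hy htt (by rw [sub_self]; exact zero_mem _)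
  -- the lattice `N`
  have hNL : NL A B (R.L i) := ⟨_, _, R.nl i⟩
  obtain ⟨N, nu, hN, hQ⟩ := hC.exq (R.L i) hNL
  obtain ⟨u1, e1, lam1, hG1⟩ := hC.good (R.L i) hNL
  obtain ⟨u2, e2, lam2, hG2⟩ := hC.good N hN
  obtain ⟨H', hH'⟩ := half N hao
  obtain ⟨H, hH⟩ := half (R.L i) hao
  have ha0 : a ≠ 0 := by omega
  have hEx2 : ∀ x : OO A B, IsCoprime x ((m : ℕ) : OO A B) →
      Ex (lvR P f (k + 1)) N (nu * pt R m i x) := fun x hx => (hEX x hx).2.1 N nu hQ
  -- the distribution relation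
  have hdis : ∀ l : ℕ, (∑ j ∈ Finset.range 3, dlX (R.L i) a (pt R m i (x * b ^ (l + 3 ^ k * j)))) =
      nu * dlX N a (emb (b ^ l) * (nu * pt R m i x)) := by
    intro l
    obtain ⟨hq1, hq2⟩ := htor _ (hxl l)
    obtain ⟨C, -, hCC⟩ := hDIS A B P V hC (R.L i) N nu hNL hN hQ a H H' ha0 ha hH hH' _ hq1 hq2
    have h1 := (hCC (pt R m i (x * b ^ l)) ?_).2
    · rw [Finset.sum_congr rfl fun j _ => horb l j, h1]
      congr 2
      rw [hz0, hz0, map_mul, ← hφ]
      ring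
    · intro h2
      have h3 : ((a : ℕ) : OO A B) ∈ lvR P f (k + 1) := by
        rw [← hEx2 _ (hxl l), ← hφ, map_natCast]
        exact h2
      rw [hlvn] at h3
      exact ha ((dvd_mul_right 3 _).trans ((by
        rw [pow_succ', mul_assoc] at h3
        exact h3)))
  have hsum : (∑ l ∈ Finset.range (3 ^ (k + 1)), dlX (R.L i) a (pt R m i (x * b ^ l))) =
      nu * ∑ l ∈ Finset.range (3 ^ k), dlX N a (emb (b ^ l) * (nu * pt R m i x)) := by
    rw [show 3 ^ (k + 1) = 3 ^ k * 3 from pow_succ 3 k, RED.sum_split, Finset.mul_sum]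
    exact Finset.sum_congr rfl fun l _ => hdis l
  -- the three factors
  have hpar := hPAR A B P V hC hT hE N u2 e2 lam2 hN hG2 (k + 1) f a hn hf3 hf2 hf ha3 ha haf H' hH'
    (nu * pt R m i x) (hEx2 x hx) b hb
  have hpis := hPIS A B P V hC hT hE (R.L i) N nu u1 e1 lam1 u2 e2 lam2 hNL hN hQ hG1 hG2
  have hunt : V.valuation (muX R i * u1 / u) = 1 := by
    obtain ⟨⟨h1, h2, M, h3, h4⟩, -⟩ := hMUL A B P V hC (3 * f) ι R (by omega) (dvd_mul_right _ _) i 1
      (by
        have := hC.max.ne_top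
        rwa [Ne, Ideal.eq_top_iff_one] at this)
    have h5 : emb (1 : OO A B) = 1 := by rw [← hφ, map_one]
    rw [h5, mul_one] at h1 h2 h4
    exact hUNT V (R.L R.i0) (R.L i) u e lam u1 e1 lam1 (muX R i) M hG hG1 hv3 h1 h2 h3 h4
  have hu := hG.u0
  have hu1 := hG1.u0
  have hu2 := hG2.u0
  have hfin := val hn hpar hpis hunt
  rw [Nat.add_sub_cancel] at hfin
  have e3 : muX R i * (∑ l ∈ Finset.range (3 ^ (k + 1)), dlX (R.L i) a
      (pt R m i (x * b ^ l))) / u =
      (∑ l ∈ Finset.range (3 ^ k), dlX N a (emb (b ^ l) * (nu * pt R m i x))) / u2 *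
        (nu * u2 / u1) * (muX R i * u1 / u) := by
    rw [hsum]
    generalize (∑ l ∈ Finset.range (3 ^ k), dlX N a (emb (b ^ l) * (nu * pt R m i x))) = S
    field_simp
  rw [e3]
  exact hfin

end

end Pool.Agent.NSER


end

section

/-!
# MUX-NS, block ER, module ISO: the isogeny on the points of order three
-/

set_option autoImplicit false

open Polynomial

namespace Pool.Agent.NSER

open _root_.MU3 _root_.Pool.Agent.MU3A _root_.Pool.Agent.MU3B _root_.Pool.Agent.MUX _root_.Pool.Agent.MUXU _root_.Pool.Agent.MUXE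
open _root_.Pool.Agent.RI _root_.Pool.Agent.NS _root_.Pool.Agent.NSRD
open _root_.Pool.Agent.NSE (E3 su ru WL IntP Rep)
open _root_.Pool.Agent.MUXV (GR InK tX)

noncomputable section

namespace ISO

variable {V : ValuationSubring ℂ}

lemma intP_iff {P : ℂ[X]} : IntP V P ↔ ∃ p : V[X], p.map (algebraMap V ℂ) = P := by
  constructor
  · intro h
    have h1 : P ∈ Polynomial.lifts (algebraMap V ℂ) := by
      rw [Polynomial.lifts_iff_coeff_lifts]
      intro n
      exact ⟨⟨P.coeff n, (V.valuation_le_one_iff _).1 (h n)⟩, rfl⟩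
    exact (Polynomial.mem_lifts _).1 h1
  · rintro ⟨p, rfl⟩ i
    rw [Polynomial.coeff_map]
    exact (V.valuation_le_one_iff _).2 (p.coeff i).2

lemma _root_.Pool.Agent.NSER.ISO.intP_W {P Q : ℂ[X]} (hP : IntP V P) (hQ : IntP V Q) :
    IntP V (derivative P * Q - P * derivative Q) := by
  obtain ⟨p, rfl⟩ := intP_iff.1 hP
  obtain ⟨q, rfl⟩ := intP_iff.1 hQ
  refine intP_iff.2 ⟨derivative p * q - p * derivative q, ?_⟩
  rw [Polynomial.map_sub, Polynomial.map_mul, Polynomial.map_mul, Polynomial.derivative_map,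
    Polynomial.derivative_map]

lemma _root_.Pool.Agent.NSER.ISO.intP_reflect {P : ℂ[X]} (N : ℕ) (h : IntP V P) : IntP V (reflect N P) := fun i => by
  rw [coeff_reflect]
  exact h _

lemma _root_.Pool.Agent.NSER.ISO.eval_reflect {P : ℂ[X]} {N : ℕ} (hf : P.natDegree ≤ N) {x : ℂ} (hx : x ≠ 0) :
    P.eval x = x ^ N * (reflect N P).eval x⁻¹ := by
  let _ := invertibleOfNonzero hx
  have h := eval₂_reflect_mul_pow (RingHom.id ℂ) x N P hf
  rw [invOf_eq_inv] at h
  unfold Polynomial.eval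
  rw [← h, mul_comm]

lemma _root_.Pool.Agent.NSER.ISO.eval_reflect_zero (P : ℂ[X]) (N : ℕ) : (reflect N P).eval 0 = P.coeff N := by
  rw [← coeff_zero_eq_eval_zero, coeff_reflect, revAt_zero]

lemma _root_.Pool.Agent.NSER.ISO.deg_W {P Q : ℂ[X]} (hPQ : P.natDegree = Q.natDegree + 1) :
    (derivative P * Q - P * derivative Q).natDegree ≤ Q.natDegree + Q.natDegree := by
  refine (natDegree_sub_le _ _).trans (max_le ?_ ?_)
  · refine natDegree_mul_le.trans ?_
    have h := natDegree_derivative_le P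
    omega
  · rcases Nat.eq_zero_or_pos Q.natDegree with h0 | h0
    · have h1 : derivative Q = 0 := by
        rw [eq_C_of_natDegree_eq_zero h0, derivative_C]
      rw [h1, mul_zero, natDegree_zero]
      omega
    · refine natDegree_mul_le.trans ?_
      have h := natDegree_derivative_le Q
      omega

lemma _root_.Pool.Agent.NSER.ISO.coeff_W {P Q : ℂ[X]} (hm : P.Monic) (hPQ : P.natDegree = Q.natDegree + 1) :
    (derivative P * Q - P * derivative Q).coeff (Q.natDegree + Q.natDegree) =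
      Q.leadingCoeff := by
  have hP1 : P.coeff (Q.natDegree + 1) = 1 := by
    rw [← hPQ]
    exact hm
  have h1 : (derivative P * Q).coeff (Q.natDegree + Q.natDegree) =
      (Q.natDegree + 1) * Q.leadingCoeff := by
    have h' : (derivative P).natDegree ≤ Q.natDegree := by
      have h := natDegree_derivative_le P
      omega
    rw [coeff_mul_add_eq_of_natDegree_le h' le_rfl, coeff_derivative, hP1, one_mul]
    rfl
  have h2 : (P * derivative Q).coeff (Q.natDegree + Q.natDegree) =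
      Q.natDegree * Q.leadingCoeff := by
    rcases Nat.eq_zero_or_pos Q.natDegree with h0 | h0
    · have h1 : derivative Q = 0 := by
        rw [eq_C_of_natDegree_eq_zero h0, derivative_C]
      rw [h1, mul_zero, coeff_zero, h0, Nat.cast_zero, zero_mul]
    · obtain ⟨d, hd⟩ : ∃ d, Q.natDegree = d + 1 := ⟨Q.natDegree - 1, by omega⟩
      have h3 : Q.natDegree + Q.natDegree = (d + 2) + d := by omega
      have h4 : (derivative Q).natDegree ≤ d := by
        have h := natDegree_derivative_le Q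
        omega
      have h5 : P.natDegree ≤ d + 2 := by omega
      rw [h3, coeff_mul_add_eq_of_natDegree_le h5 h4, coeff_derivative]
      have h6 : P.coeff (d + 2) = 1 := by
        rw [hd] at hP1
        exact hP1
      rw [h6, one_mul]
      unfold Polynomial.leadingCoeff
      rw [hd]
      push_cast
      ring
  rw [coeff_sub, h1, h2]
  ring

end ISO

open _root_.Pool.Agent.NSER.ISO in
/-- ISO. -/
theorem tf_ISO (h1 : Sf_ALG) (h2 : Sf_PRO) (h3 : Sf_PTS) (h4 : Sf_TW3) (h5 : Sf_UNT)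
    (h6 : Sf_RAT) : Sf_ISO := by
  intro V L M u e lam u' e' lam' μ N hL hM hv hμ hI hN hz
  have hE : ∀ Y ∈ E3 L, μ * Y ∈ E3 M := by
    rintro Y ⟨hY3, hY⟩
    refine ⟨?_, fun hmem => hY ?_⟩
    · have h7 := hI _ hY3
      rwa [mul_left_comm] at h7
    · have h7 := hz Y hmem
      have h8 : IsCoprime (3 : ℤ) (N : ℤ) := by
        rw [show (3 : ℤ) = ((3 : ℕ) : ℤ) by norm_num, Nat.isCoprime_iff_coprime]
        exact (Nat.Prime.coprime_iff_not_dvd Nat.prime_three).2 hN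
      obtain ⟨a, b, hab⟩ := h8
      have h9 := add_mem (L.lattice.smul_mem a hY3) (L.lattice.smul_mem b h7)
      have h10 : a • (3 * Y) + b • ((N : ℂ) * Y) = Y := by
        have h11 : (a : ℂ) * 3 + b * N = 1 := by exact_mod_cast hab
        rw [zsmul_eq_mul, zsmul_eq_mul]
        linear_combination Y * h11
      rwa [h10] at h9
  refine ⟨hE, ?_⟩
  have hν := h5 V L M u e lam u' e' lam' μ N hL hM hv hμ hI hN hz
  obtain ⟨P, Q, hP, hQ, hPm, hPQ, hQl, hPE⟩ := h6 V L M u e lam u' e' lam' μ N hL hM hv hμ hI hN hz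
  set ν : ℂ := μ * u' / u with hνdef
  have hν0 : ν ≠ 0 := by
    intro h0
    rw [h0, map_zero] at hν
    exact zero_ne_one hν
  have hpts := (h3 V L u e lam hL hv).1
  obtain ⟨hc, hs, hr, hch, -, hmul, hinv, -, -⟩ :=
    h1 V (E3 L) (su L u e) (ru L u e) (-(1 + lam)) lam hpts
  obtain ⟨hpol, -, -⟩ := h2 V (E3 L) (su L u e) (ru L u e) (-(1 + lam)) lam hpts
  -- exact change of representatives
  have hch0 : ∀ (F G : ℂ → ℂ) (α β α' β' : ℂ), _root_.Pool.Agent.NSE.Rep V (E3 L) (su L u e) (ru L u e) F α β →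
      (∀ Y ∈ E3 L, G Y = F Y) → α' = α → β' = β →
      _root_.Pool.Agent.NSE.Rep V (E3 L) (su L u e) (ru L u e) G α' β' := by
    intro F G α β α' β' hF hG ha hb
    refine hch F G α β α' β' hF hG ?_ ?_
    · rw [ha, sub_self, map_zero]
      exact zero_le
    · rw [hb, sub_self, map_zero]
      exact zero_le
  have hpR : ∀ (R : ℂ[X]) (n : ℕ), IntP V R → _root_.Pool.Agent.NSE.Rep V (E3 L) (su L u e) (ru L u e)
      (fun Y => (reflect n R).eval (su L u e Y)) (R.coeff n) 0 := by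
    intro R n hR
    refine hch0 _ _ _ _ _ _ (hpol (su L u e) 0 0 (reflect n R) hs (_root_.Pool.Agent.NSER.ISO.intP_reflect n hR))
      (fun _ _ => rfl) ?_ ?_
    · rw [_root_.Pool.Agent.NSER.ISO.eval_reflect_zero]
    · rw [zero_mul]
  have hP1 : P.coeff (Q.natDegree + 1) = 1 := by
    rw [← hPQ]
    exact hPm
  have rp := hpR P (Q.natDegree + 1) hP
  rw [hP1] at rp
  have rq := hpR Q Q.natDegree hQ
  have rw' := hpR (derivative P * Q - P * derivative Q) (Q.natDegree + Q.natDegree) (_root_.Pool.Agent.NSER.ISO.intP_W hP hQ)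
  rw [_root_.Pool.Agent.NSER.ISO.coeff_W hPm hPQ, hQl] at rw'
  have hq0 : Q.coeff Q.natDegree = ν ^ 2 := hQl
  rw [hq0] at rq
  obtain ⟨hpu, rpi⟩ := hinv _ 1 0 rp (map_one _)
  have rpi' : _root_.Pool.Agent.NSE.Rep V (E3 L) (su L u e) (ru L u e)
      (fun Y => ((reflect (Q.natDegree + 1) P).eval (su L u e Y))⁻¹) 1 0 := by
    refine hch0 _ _ _ _ _ _ rpi (fun _ _ => rfl) ?_ ?_
    · rw [inv_one]
    · rw [neg_zero, zero_div]
  have r1 := hmul _ _ _ _ _ _ hs (hmul _ _ _ _ _ _ rq rpi')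
  have hνi : V.valuation ν⁻¹ ≤ 1 := by
    rw [map_inv₀, hν, inv_one]
  have r2 := hmul _ _ _ _ _ _ (hc ν⁻¹ hνi)
    (hmul _ _ _ _ _ _ hr (hmul _ _ _ _ _ _ rw' (hmul _ _ _ _ _ _ rpi' rpi')))
  -- the identities
  have key : ∀ Y ∈ E3 L,
      su M u' e' (μ * Y) = su L u e Y * ((reflect Q.natDegree Q).eval (su L u e Y) *
        ((reflect (Q.natDegree + 1) P).eval (su L u e Y))⁻¹) ∧
      ru M u' e' (μ * Y) = ν⁻¹ * (ru L u e Y *
        ((reflect (Q.natDegree + Q.natDegree) (derivative P * Q - P * derivative Q)).eval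
          (su L u e Y) * (((reflect (Q.natDegree + 1) P).eval (su L u e Y))⁻¹ *
            ((reflect (Q.natDegree + 1) P).eval (su L u e Y))⁻¹))) := by
    intro Y hY
    obtain ⟨-, hx0, -⟩ := h4 V L u e lam hL hv Y hY
    obtain ⟨e1, e2⟩ := hPE Y (hE Y hY).2
    have hp1 := hpu Y hY
    have hPe := _root_.Pool.Agent.NSER.ISO.eval_reflect (P := P) (N := Q.natDegree + 1) hPQ.le hx0
    have hQe := _root_.Pool.Agent.NSER.ISO.eval_reflect (P := Q) (N := Q.natDegree) le_rfl hx0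
    have hWe := _root_.Pool.Agent.NSER.ISO.eval_reflect (P := derivative P * Q - P * derivative Q) (_root_.Pool.Agent.NSER.ISO.deg_W hPQ) hx0
    have hsu : su L u e Y = (xu L u e Y)⁻¹ := rfl
    have hru : ru L u e Y = -yu L u Y / xu L u e Y ^ 2 := rfl
    have hsu' : su M u' e' (μ * Y) = (xu M u' e' (μ * Y))⁻¹ := rfl
    have hru' : ru M u' e' (μ * Y) = -yu M u' (μ * Y) / xu M u' e' (μ * Y) ^ 2 := rfl
    rw [hsu] at hp1 ⊢
    rw [hru, hsu', hru']
    rw [hQe, hPe] at e1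
    rw [hQe, hWe] at e2
    clear hPe hQe hWe hsu hru hsu' hru' r1 r2 rp rq rw' rpi rpi'
    generalize (reflect (Q.natDegree + 1) P).eval (xu L u e Y)⁻¹ = p at *
    generalize (reflect Q.natDegree Q).eval (xu L u e Y)⁻¹ = q at *
    generalize (reflect (Q.natDegree + Q.natDegree)
      (derivative P * Q - P * derivative Q)).eval (xu L u e Y)⁻¹ = w at *
    generalize xu L u e Y = x at *
    generalize xu M u' e' (μ * Y) = x' at *
    generalize yu L u Y = y at *
    generalize yu M u' (μ * Y) = y' at *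
    generalize Q.natDegree = d at *
    have hp0 : p ≠ 0 := by
      intro h0
      rw [h0, map_zero] at hp1
      exact zero_ne_one hp1
    have hxd : x ^ d ≠ 0 := pow_ne_zero _ hx0
    have e1' : x' * q = x * p := by
      apply mul_left_cancel₀ hxd
      rw [pow_succ] at e1
      linear_combination e1
    have hx'0 : x' ≠ 0 := by
      rintro rfl
      rw [zero_mul] at e1'
      exact mul_ne_zero hx0 hp0 e1'.symm
    have hq0 : q ≠ 0 := by
      rintro rfl
      rw [mul_zero] at e1'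
      exact mul_ne_zero hx0 hp0 e1'.symm
    have e2' : ν * y' * q ^ 2 = y * w := by
      apply mul_left_cancel₀ (mul_ne_zero hxd hxd)
      rw [pow_add] at e2
      linear_combination e2
    constructor
    · field_simp
      linear_combination -e1'
    · have hx'e : x' = x * p / q := by
        field_simp
        exact e1'
      have hy'e : y' = y * w / (ν * q ^ 2) := by
        field_simp
        linear_combination e2'
      rw [hx'e, hy'e]
      field_simp
  refine ⟨?_, ?_⟩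
  · refine hch0 _ _ _ _ _ _ r1 (fun Y hY => (key Y hY).1) ?_ ?_
    · rw [zero_mul]
    · ring
  · refine hch0 _ _ _ _ _ _ r2 (fun Y hY => (key Y hY).2) ?_ ?_
    · ring
    · field_simp
      ring

end

end Pool.Agent.NSER


end

section

/-!
# MUX-NS, block ER, module IDL: the ideals `f P^(2n+1) = 3^n f P` (helper29)

`P² = (3)`, so `lvR P f n = (3^n f) P`; the ideal `P` is cancelled in the Dedekind domain `O`.
-/

set_option autoImplicit false

open Polynomial

namespace Pool.Agent.NSER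

open _root_.MU3 _root_.Pool.Agent.MU3A _root_.Pool.Agent.MU3B _root_.Pool.Agent.MUX _root_.Pool.Agent.MUXU _root_.Pool.Agent.MUXE
open _root_.Pool.Agent.RI _root_.Pool.Agent.NS _root_.Pool.Agent.NSRD

noncomputable section

namespace IDLaux

variable {A B : ℤ} {P : Ideal (OO A B)}

lemma three_mem (hsq : P * P = idl (A := A) (B := B) 3) : (3 : OO A B) ∈ P := by
  have h0 : ((3 : ℕ) : OO A B) ∈ P * P := by
    rw [hsq]
    exact Ideal.mem_span_singleton_self _
  have h1 := Ideal.mul_le_left h0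
  exact_mod_cast h1

lemma nat_re (k : ℕ) : ((k : ℕ) : OO A B).re = (k : ℤ) := by
  simp

lemma nat_im (k : ℕ) : ((k : ℕ) : OO A B).im = 0 := by
  simp

lemma nat_ne (k : ℕ) (hk : k ≠ 0) : ((k : ℕ) : OO A B) ≠ 0 := by
  intro h
  have h1 := congrArg QuadraticAlgebra.re h
  rw [nat_re, QuadraticAlgebra.re_zero] at h1
  exact hk (by exact_mod_cast h1)

lemma int_mem (h1 : (1 : OO A B) ∉ P) (h3 : (3 : OO A B) ∈ P) (n : ℤ) :
    ((n : ℤ) : OO A B) ∈ P ↔ (3 : ℤ) ∣ n := by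
  constructor
  · intro hn
    by_contra hnd
    obtain ⟨a, b, hab⟩ := (Int.prime_three.coprime_iff_not_dvd).2 hnd
    apply h1
    have h4 := congrArg (Int.cast : ℤ → OO A B) hab
    push_cast at h4
    rw [← h4]
    exact P.add_mem (P.mul_mem_left _ h3) (P.mul_mem_left _ hn)
  · rintro ⟨k, rfl⟩
    push_cast
    exact P.mul_mem_right _ h3

/-- cancelling `P` -/
lemma cancel {R : Type} [CommRing R] [IsDedekindDomain R] {P : Ideal R} (hP : P ≠ ⊥)
    (J : Ideal R) (x : R) (h : ∀ p ∈ P, p * x ∈ J * P) : x ∈ J := by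
  have h1 : Ideal.span {x} * P ≤ J * P := by
    rw [Ideal.mul_le]
    intro r hr s hs
    obtain ⟨y, rfl⟩ := Ideal.mem_span_singleton.1 hr
    have h2 : x * y * s = y * (s * x) := by ring
    rw [h2]
    exact Ideal.mul_mem_left _ _ (h s hs)
  have h2 : J * P ∣ Ideal.span {x} * P := Ideal.dvd_iff_le.2 h1
  have hP0 : P ≠ 0 := hP
  have h3 : J ∣ Ideal.span {x} := (mul_dvd_mul_iff_right hP0).1 h2
  have h4 : Ideal.span {x} ≤ J := Ideal.dvd_iff_le.1 h3
  exact (Ideal.span_singleton_le_iff_mem _).1 h4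

lemma pow_two_mul (hsq : P * P = idl (A := A) (B := B) 3) (n : ℕ) :
    P ^ (2 * n) = idl (A := A) (B := B) (3 ^ n) := by
  rw [pow_mul, pow_two, hsq]
  unfold idl
  rw [Ideal.span_singleton_pow, Nat.cast_pow]

lemma idl_mul (a b : ℕ) : idl (A := A) (B := B) (a * b) = idl a * idl b := by
  unfold idl
  rw [Ideal.span_singleton_mul_span_singleton, Nat.cast_mul]

lemma lvR_eq (hsq : P * P = idl (A := A) (B := B) 3) (f n : ℕ) :
    lvR P f n = idl (A := A) (B := B) (3 ^ n * f) * P := by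
  unfold lvR
  rw [pow_succ, pow_two_mul hsq, ← mul_assoc, mul_comm (3 ^ n) f, idl_mul]

end IDLaux

open _root_.Pool.Agent.NSER.IDLaux in
/-- (IDL) the ideals `lvR P f n = f P^(2n+1) = 3^n f P` -/
theorem tf_IDL : Sf_IDL := by
  intro A B P V hc
  have := hc.ring.ded
  have h3 : (3 : OO A B) ∈ P := three_mem hc.sq
  have h1 : (1 : OO A B) ∉ P := fun h => hc.max.ne_top ((Ideal.eq_top_iff_one P).2 h)
  have hP : P ≠ ⊥ := by
    intro h
    rw [h, Ideal.mem_bot] at h3
    exact nat_ne (A := A) (B := B) 3 (by norm_num) (by exact_mod_cast h3)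
  refine ⟨h3, fun x hx => cancel hP P x hx, pow_two_mul hc.sq, ?_, ?_⟩
  · intro k
    have h := int_mem h1 h3 (k : ℤ)
    rw [Int.cast_natCast] at h
    rw [h]
    exact_mod_cast Iff.rfl
  intro f n hf
  have hlv := lvR_eq hc.sq f n
  have hc0 : 3 ^ n * f ≠ 0 := mul_ne_zero (pow_ne_zero _ (by norm_num)) hf
  have hc1 : 3 ^ (n + 1) * f ≠ 0 := mul_ne_zero (pow_ne_zero _ (by norm_num)) hf
  have e1 : 3 ^ (n + 1) * f = 3 ^ n * f * 3 := by rw [pow_succ]; ring
  have hmem : ∀ x : OO A B, x ∈ lvR P f n ↔ ∃ p ∈ P, x = ((3 ^ n * f : ℕ) : OO A B) * p := by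
    intro x
    rw [hlv]
    exact Ideal.mem_span_singleton_mul.trans
      ⟨fun ⟨p, hp, h⟩ => ⟨p, hp, h.symm⟩, fun ⟨p, hp, h⟩ => ⟨p, hp, h.symm⟩⟩
  have e2 : idl (A := A) (B := B) (3 ^ (n + 1) * f) = lvR P f n * P := by
    rw [e1, idl_mul, hlv, ← hc.sq, mul_assoc]
  have hle : idl (A := A) (B := B) (3 ^ (n + 1) * f) ≤ lvR P f n := by
    rw [e2]
    exact Ideal.mul_le_left
  refine ⟨hmem, ?_, hle, ?_, ?_, ?_, ?_⟩
  · intro x
    rw [e2]
    constructor
    · intro hx p hp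
      rw [mul_comm p x]
      exact Ideal.mul_mem_mul hx hp
    · intro hx
      exact cancel hP _ x hx
  · rw [hlv]
    exact Ideal.mul_le_left
  · intro h
    have h4 : ((3 ^ (n + 1) * f : ℕ) : OO A B) ∈ lvR P f n :=
      hle (Ideal.mem_span_singleton_self _)
    rw [h, Ideal.mem_bot] at h4
    exact nat_ne _ hc1 h4
  · intro k
    constructor
    · intro hk
      obtain ⟨p, hp, h4⟩ := (hmem _).1 hk
      have hre := congrArg QuadraticAlgebra.re h4
      have him := congrArg QuadraticAlgebra.im h4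
      rw [QuadraticAlgebra.re_mul, nat_re, nat_re, nat_im] at hre
      rw [QuadraticAlgebra.im_mul, nat_re, nat_im, nat_im] at him
      have hcz : ((3 ^ n * f : ℕ) : ℤ) ≠ 0 := by exact_mod_cast hc0
      have him0 : p.im = 0 := by
        have h5 : ((3 ^ n * f : ℕ) : ℤ) * p.im = 0 := by linarith
        exact (mul_eq_zero.1 h5).resolve_left hcz
      have hp1 : p = ((p.re : ℤ) : OO A B) := by
        apply QuadraticAlgebra.ext
        · rw [QuadraticAlgebra.re_intCast]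
          simp
        · rw [QuadraticAlgebra.im_intCast, him0]
      rw [hp1, int_mem h1 h3] at hp
      obtain ⟨t, ht⟩ := hp
      have h6 : ((3 ^ (n + 1) * f : ℕ) : ℤ) ∣ (k : ℤ) := by
        refine ⟨t, ?_⟩
        rw [hre, ht, e1]
        push_cast
        ring
      exact_mod_cast h6
    · rintro ⟨t, rfl⟩
      rw [Nat.cast_mul]
      exact Ideal.mul_mem_right _ _ (hle (Ideal.mem_span_singleton_self _))
  · intro c hcop
    have h4 : IsCoprime c ((3 ^ (n + 1) * f : ℕ) : OO A B) := by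
      rw [Nat.cast_mul] at hcop
      have h5 := IsCoprime.of_mul_right_left hcop
      have h6 := IsCoprime.of_mul_right_right hcop
      rw [Nat.cast_mul, Nat.cast_pow]
      exact IsCoprime.mul_right h5.pow_right h6
    refine ⟨?_, h4⟩
    have h7 : IsCoprime (sp c) (idl (A := A) (B := B) (3 ^ (n + 1) * f)) :=
      (Ideal.isCoprime_span_singleton_iff _ _).2 h4
    rw [Ideal.isCoprime_iff_sup_eq] at h7 ⊢
    rw [eq_top_iff] at h7 ⊢
    exact h7.trans (sup_le_sup_left hle _)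

end

end Pool.Agent.NSER


end
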