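import Mathlib
import Pool.Agent.MVF.C033

/-! Parts: NS.T_TRC -/

namespace Pool.Agent.NST.TRC
end Pool.Agent.NST.TRC

section

/-!
# MUX-NS, block TN, module TRC: the local parameter at the points of order three (helper73)
-/

set_option autoImplicit false

namespace Pool.Agent.NST

open _root_.MU3 _root_.Pool.Agent.MU3A _root_.Pool.Agent.MU3B _root_.Pool.Agent.RI _root_.Pool.Agent.MUX _root_.Pool.Agent.MUXU
open OnePoint _root_.Pool.Agent.NS Polynomial
open _root_.Pool.Agent.MUXV (GR InK)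
open _root_.Pool.Agent.NSE (CtxN E3 su ru Rep)
open _root_.Pool.Agent.MUXY (ActN Dn)

noncomputable section

namespace TRC

variable {V : ValuationSubring ℂ}

lemma eval_le_one {P : ℂ[X]} (hP : Pool.Agent.NSE.IntP V P) {s : ℂ} (hs : V.valuation s ≤ 1) :
    V.valuation (P.eval s) ≤ 1 := by
  rw [Polynomial.eval_eq_sum_range]
  refine Valuation.map_sum_le _ fun i _ => ?_
  rw [map_mul, map_pow]
  exact mul_le_one' (hP i) (pow_le_one' hs i)

lemma eval_sub_le {P : ℂ[X]} (hP : Pool.Agent.NSE.IntP V P) {s : ℂ} (hs : V.valuation s ≤ 1) :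
    V.valuation (P.eval s - P.coeff 0) ≤ V.valuation s := by
  have h1 : P.eval s - P.coeff 0 = P.divX.eval s * s := by
    conv_lhs => rw [← Polynomial.divX_mul_X_add P]
    simp
  have h2 : Pool.Agent.NSE.IntP V P.divX := fun i => by
    rw [Polynomial.coeff_divX]
    exact hP _
  rw [h1, map_mul]
  exact mul_le_of_le_one_left' (eval_le_one h2 hs)

/-- the valuations of `s`, `r` at a point of order three -/
lemma pts_val {S : Set ℂ} {s r : ℂ → ℂ} {a2 a4 : ℂ} (h : Pool.Agent.NSE.Pts V S s r a2 a4) {Y : ℂ}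
    (hY : Y ∈ S) : V.valuation (s Y) < 1 ∧ V.valuation (3 : ℂ) ≤ V.valuation (s Y) ∧
      V.valuation (r Y) ^ 2 = V.valuation (s Y) := by
  have h4 := h.vs Y hY
  have hs : V.valuation (s Y) < 1 := by
    by_contra hc
    have h5 : 1 ≤ V.valuation (s Y) ^ 4 := one_le_pow_of_one_le' (not_lt.1 hc) 4
    rw [h4] at h5
    exact absurd h.v3 (not_lt.2 h5)
  have h3 : V.valuation (3 : ℂ) ≤ V.valuation (s Y) := by
    rw [← h4]
    calc V.valuation (s Y) ^ 4 = V.valuation (s Y) * V.valuation (s Y) ^ 3 := by rw [← pow_succ']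
      _ ≤ V.valuation (s Y) := mul_le_of_le_one_right' (pow_le_one' hs.le 3)
  refine ⟨hs, h3, ?_⟩
  have h6 : V.valuation (a2 * s Y + a4 * s Y ^ 2) < 1 := by
    refine Valuation.map_add_lt _ ?_ ?_
    · rw [map_mul]
      exact lt_of_le_of_lt (mul_le_of_le_one_left' h.i2) hs
    · rw [map_mul, map_pow]
      refine lt_of_le_of_lt (mul_le_of_le_one_left' h.i4) ?_
      rw [pow_two]
      exact lt_of_le_of_lt (mul_le_of_le_one_right' hs.le) hs
  have h7 : V.valuation (1 + a2 * s Y + a4 * s Y ^ 2) = 1 := by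
    rw [add_assoc]
    exact Valuation.map_one_add_of_lt _ h6
  rw [← map_pow, h.eq Y hY, map_mul, h7, mul_one]

end TRC

open _root_.Pool.Agent.NST.TRC in
/-- (TRC) -/
theorem nt_TRC (hP : Pool.Agent.NSE.Se_PTS) (hI : Pool.Agent.NSE.Se_ISO) : Nt_TRC := by
  intro A B V hC b L om u e lam hL hG
  have hcq := hC.cq
  obtain ⟨hpts, -⟩ := hP V L u e lam hG hC.v3
  refine ⟨fun Y hY => ?_, fun x hx => ?_⟩
  · have h1 := (pts_val hpts hY).2.2
    calc V.valuation (ru L u e Y) ^ 8 = (V.valuation (ru L u e Y) ^ 2) ^ 4 := by rw [← pow_mul]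
      _ = V.valuation (3 : ℂ) := by rw [h1, hpts.vs Y hY]
  · have hx0 : x ≠ 0 := by
      rintro rfl
      exact hx (Ideal.zero_mem _)
    have hcm := IsLI.hasCM hcq hL
    have hN : ¬ 3 ∣ (nm x).natAbs := by
      intro h3
      exact hC.nrm x hx (Int.natCast_dvd.2 h3)
    have hmem : ∀ z, emb x * z ∈ L.lattice → (((nm x).natAbs : ℕ) : ℂ) * z ∈ L.lattice := by
      intro z hz
      have h1 := hcm (star x) _ hz
      have h2 : emb (star x) * (emb x * z) = ((nm x : ℤ) : ℂ) * z := by
        rw [emb_star, emb_nm hcq]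
        ring
      have h3 : (((nm x).natAbs : ℕ) : ℂ) = ((nm x : ℤ) : ℂ) := by
        have h4 : (((nm x).natAbs : ℕ) : ℤ) = nm x := Int.natAbs_of_nonneg (nm_nonneg hcq x)
        calc (((nm x).natAbs : ℕ) : ℂ) = ((((nm x).natAbs : ℕ) : ℤ) : ℂ) := (Int.cast_natCast _).symm
          _ = ((nm x : ℤ) : ℂ) := by rw [h4]
      rw [h2] at h1
      rw [h3]
      exact h1
    obtain ⟨hE, -, P, Q, hPi, hQi, hF, hP0, hQ0⟩ := hI V L L u e lam u e lam (emb x) _ hG hG hC.v3
      (_root_.Pool.Agent.MUX.emb_ne_zero hcq hx0) (fun w hw => hcm x w hw) hN hmem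
    have hu : emb x * u / u = emb x := mul_div_cancel_right₀ _ hG.u0
    rw [hu] at hQ0
    rw [sub_zero] at hP0
    intro Y hY
    refine ⟨hE Y hY, ?_⟩
    obtain ⟨hs, h3, hr⟩ := pts_val hpts hY
    have hr1 : V.valuation (ru L u e Y) < 1 := by
      by_contra hc
      have h5 : 1 ≤ V.valuation (ru L u e Y) ^ 2 := one_le_pow_of_one_le' (not_lt.1 hc) 2
      rw [hr] at h5
      exact absurd hs (not_lt.2 h5)
    have hr0 : V.valuation (ru L u e Y) ≠ 0 := by
      intro h0
      rw [h0, zero_pow two_ne_zero] at hr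
      rw [← hr] at h3
      have h6 : V.valuation (3 : ℂ) = 0 := le_antisymm h3 zero_le
      exact (by norm_num : (3 : ℂ) ≠ 0) ((map_eq_zero V.valuation).1 h6)
    have hpos : 0 < V.valuation (ru L u e Y) := zero_lt_iff.2 hr0
    have hFY : ru L u e (emb x * Y) = P.eval (su L u e Y) + ru L u e Y * Q.eval (su L u e Y) :=
      hF Y hY
    rw [hFY]
    have he : P.eval (su L u e Y) + ru L u e Y * Q.eval (su L u e Y) - emb x * ru L u e Y =
        P.eval (su L u e Y) + ru L u e Y * (Q.eval (su L u e Y) - emb x) := by ring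
    rw [he]
    refine Valuation.map_add_lt _ ?_ ?_
    · have h5 : V.valuation (P.eval (su L u e Y)) ≤ V.valuation (su L u e Y) := by
        have h6 : P.eval (su L u e Y) = (P.eval (su L u e Y) - P.coeff 0) + P.coeff 0 := by ring
        rw [h6]
        exact Valuation.map_add_le _ (eval_sub_le hPi hs.le) (hP0.trans h3)
      refine lt_of_le_of_lt h5 ?_
      rw [← hr, pow_two]
      exact mul_lt_of_lt_one_right hpos hr1
    · have h5 : V.valuation (Q.eval (su L u e Y) - emb x) ≤ V.valuation (su L u e Y) := by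
        have h6 : Q.eval (su L u e Y) - emb x =
          (Q.eval (su L u e Y) - Q.coeff 0) + (Q.coeff 0 - emb x) := by ring
        rw [h6]
        exact Valuation.map_add_le _ (eval_sub_le hQi hs.le) (hQ0.trans h3)
      rw [map_mul]
      exact mul_lt_of_lt_one_right hpos (lt_of_le_of_lt h5 hs)

end

end Pool.Agent.NST


end
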