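import Mathlib
import Pool.Agent.MVF.C034
import Pool.Agent.MVF.C049
import Pool.Agent.MVF.C057
import Pool.Agent.MVF.C068

/-! Parts: ME.StE4, ME.E4_UNR, ME.E4_FIN, ME.E4_MAIN, ME.X_GTH, ME.E4_ONE, ME.E4_MUL, ME.E4_SIG, ME.E4_RAM, NS.E_RAM, NS.E_PRO -/

namespace Pool.Agent.ME4.FIN
end Pool.Agent.ME4.FIN
namespace Pool.Agent.ME4.ONE
end Pool.Agent.ME4.ONE
namespace Pool.Agent.ME4.SIG
end Pool.Agent.ME4.SIG

section

/-!
# ME, block E for `D = -4` (`3` inert): cubes and logarithmic derivatives (helper86)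

The statements of `Pool/Agent/NS/StEN.lean` which see the frame (`NL`, `RF`, `TorX`, `GalE`, `Reps`), for the frame of `DefsE.lean`; all levels are even. The other statements of block EN
(`Pool.Agent.NSE.e_ALG, e_PRO, e_PUL, e_COE, e_GRN, e_LEG, e_TW3, e_PTS, e_TPN, e_UNT, e_RAT, e_ISO, e_ADD, e_THN, e_BAS, e_NE1` in `EAll.lean`) are used as they are: they are statements
on lattices with `GoodN`. `S4_RFIN` (helper58) is the twin of `Sn_RFIN`, `S4_EFIN` is the result.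
-/

set_option autoImplicit false

open Polynomial

namespace Pool.Agent.ME4

open _root_.MU3 _root_.Pool.Agent.MU3A _root_.Pool.Agent.MU3B _root_.Pool.Agent.MUX _root_.Pool.Agent.MUXU _root_.Pool.Agent.RI
open _root_.Pool.Agent.NS
open _root_.Pool.Agent.ME hiding ActE
open _root_.Pool.Agent.MEE
open _root_.Pool.Agent.MUXE (RingE)
open _root_.Pool.Agent.MUXV (GR InK tX)
open _root_.Pool.Agent.NSE (E3 su ru WL IntP Pts Rep)

noncomputable section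

/-- (RFIN) the reduction of the normalised lattices at `V | 3`, `D = -4`. -/
def S4_RFIN : Prop :=
  ∀ (A B : ℤ) (V : ValuationSubring ℂ), CaseE A B → B = 0 →
    OverI V (idl (A := A) (B := B) 3) → TorXE A B →
    (∀ (b : Ideal (OO A B)) (L : PeriodPair) (om : ℂ), IsNE b L om →
      ∃ u e lam : ℂ, GoodN V L u e lam ∧ u ^ 2 ∈ RFE (idl (A := A) (B := B) 2) ∧
        e ∈ RFE (idl (A := A) (B := B) 2) ∧ lam ∈ RFE (idl (A := A) (B := B) 2)) ∧
    ∀ f : ℕ, f ≠ 0 → 2 ∣ f → ¬ 3 ∣ f → ∀ σ : ℂ ≃+* ℂ, FixK A B σ →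
      (∀ y ∈ RFE (idl (A := A) (B := B) f), y ∈ V → σ y - y ∈ V.nonunits) →
      ∀ y ∈ RFE (idl (A := A) (B := B) f), σ y = y

/-- (EFIN) cubes have a logarithmic derivative divisible by `3`. -/
def S4_EFIN : Prop :=
  ∀ (A B : ℤ) (V : ValuationSubring ℂ) (f : ℕ), SetE4 A B V f → TorXE A B →
    ∀ (ι : Type) [Fintype ι] (R : RepsE A B (3 * f) ι) (u e lam : ℂ),
    GoodN V (R.L R.i0) u e lam → ∀ w : OO A B → ℂ, IsTei V w →
    ∀ n : ℕ, 1 ≤ n →
    ∀ (H : ι → Finset ℂ), (∀ i, IsHalf (R.L i) (aX 3 f : ℂ) (H i)) →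
    ∀ (D : IntermediateField ℚ ℂ) (h : kk A B ≤ D),
      (∀ y ∈ D, y ∈ RFE (idl (A := A) (B := B) (lvX 3 f n))) →
    letI := algC h
    (∀ τ : D ≃ₐ[kk A B] D, ∃ y : D, (y : ℂ) = cXE R (lvX 3 f n) H h 1 ∧
      ((τ y : D) : ℂ) = cXE R (lvX 3 f n) H h τ) →
    ∀ g : (D ≃ₐ[kk A B] D) → ℤ,
      (∃ y ∈ D, y ^ 3 = ∏ᶠ τ : D ≃ₐ[kk A B] D, cXE R (lvX 3 f n) H h τ ^ g τ) →
      ∀ τ' : D ≃ₐ[kk A B] D,
        V.valuation ((∑ᶠ τ : D ≃ₐ[kk A B] D, (g τ : ℂ) *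
          TTNE R w (lvX 3 f n) (aX 3 f) h (τ * τ')) / u) ≤ V.valuation (3 : ℂ)

/-- everything on `O`, `k`, `V` and the reduction which is used -/
structure CtxN4 (A B : ℤ) (V : ValuationSubring ℂ) : Prop where
  case : CaseE A B
  ring : RingE A B
  cq : CQ A B
  v3 : V.valuation (3 : ℂ) < 1
  int : ∀ x : OO A B, V.valuation (emb x) ≤ 1
  unit : ∀ x : OO A B, x ∉ idl (A := A) (B := B) 3 → V.valuation (emb x) = 1
  nat : ∀ n : ℕ, ¬ 3 ∣ n → V.valuation (n : ℂ) = 1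
  max : (idl (A := A) (B := B) 3).IsMaximal
  nrm : ∀ x : OO A B, x ∉ idl (A := A) (B := B) 3 → ¬ (3 : ℤ) ∣ nm x
  kval : ∀ y ∈ kk A B, y ≠ 0 → ∃ k : ℤ, V.valuation y = V.valuation (3 : ℂ) ^ k
  good : ∀ L, NLE A B L → ∃ u e lam : ℂ, GoodN V L u e lam
  iner : ∀ f : ℕ, f ≠ 0 → 2 ∣ f → ¬ 3 ∣ f → ∀ σ : ℂ ≃+* ℂ, FixK A B σ →
    (∀ y ∈ RFE (idl (A := A) (B := B) f), y ∈ V → σ y - y ∈ V.nonunits) →
    ∀ y ∈ RFE (idl (A := A) (B := B) f), σ y = y

/-- (CTX) from the standing hypotheses to `CtxN4`.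

PROOF. `cong`/norm: `4 nm x = (2 x.re + B x.im)² - (B² + 4A) x.im²` and `B² + 4A ≡ -1` modulo 3, so `3 ∣ nm x` only if `3 ∣ x.im`, `3 ∣ x.re`, `x ∈ (3)`; `nm x = x star x`: so `O/(3)` is a field (`max`). `v 3 < 1`: `OverI` for `x = 3`. `int`: `emb x` is integral over `ℤ` (`x² - tr x + nm`). `unit`: `OverI`. `nat`: `1 = 3 a + n b`. `ring`: `te_RNG`.
`kval`: `x ∈ O`, `x ≠ 0`: `x = 3^j y`, `y ∉ (3)` (for instance the largest `j` with `3^j ∣ x.re, x.im`), `v(emb x) = v(3)^j`; every element of `k` is `emb x/n`, `n` a positive integer (see `E_PC.lean`). `good`, `iner`: `S4_RFIN`. See also `E_CTX.lean`, `E_PA.lean`, `E_PC.lean` of `Pool/Agent/MUX/`. -/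
def S4_CTX : Prop :=
  ∀ (A B : ℤ) (V : ValuationSubring ℂ), CaseE A B → B = 0 →
    OverI V (idl (A := A) (B := B) 3) → TorXE A B → S4_RFIN → CtxN4 A B V

/-- (RAM) a finite Galois extension `F / k` with trivial inertia group at `V` is unramified. -/
def S4_RAM : Prop :=
  ∀ (A B : ℤ) (V : ValuationSubring ℂ), CtxN4 A B V →
    ∀ (F : IntermediateField (kk A B) ℂ) [FiniteDimensional (kk A B) F] [IsGalois (kk A B) F],
      (∀ σ : F ≃ₐ[kk A B] F, (∀ x : F, V.valuation (x : ℂ) ≤ 1 →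
        V.valuation ((σ x : ℂ) - x) < 1) → σ = 1) →
      ∀ y ∈ F, y ≠ 0 → ∃ k : ℤ, V.valuation y = V.valuation (3 : ℂ) ^ k

/-- (UNR) `RFE (f)` is unramified at `V` if `f` is even and prime to `3`.

Uses S4_RAM. PROOF. (RAM) for `F = RFE (idl f)` (finite, Galois: `TorXE`). `σ ∈ Gal(F/k)` in the inertia group: extend it to `s ∈ Aut(ℂ)`, `FixK` (`T.ext` for `F` as a field over `ℚ`; see `CXW.extn` in `Pool/Agent/MUX/W_CXW.lean`); `CtxN4.iner`: `s y = y` for all `y ∈ F`, so `σ = 1`. -/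
def S4_UNR : Prop :=
  ∀ (A B : ℤ) (V : ValuationSubring ℂ), CtxN4 A B V → TorXE A B →
    ∀ f : ℕ, f ≠ 0 → 2 ∣ f → ¬ 3 ∣ f → ∀ y ∈ RFE (idl (A := A) (B := B) f), y ≠ 0 →
      ∃ k : ℤ, V.valuation y = V.valuation (3 : ℂ) ^ k

/-- (DEG) the degree of `RFE (3^(j+1) f)` over `RFE (f)`.

PROOF. As `Pool/Agent/MUX/E_DEG.lean`. `σ ∈ Gal(RFE (3^(j+1) f)/k)` trivial on `RFE (f)` acts as some `α` with `α - 1 ∈ (f)` (`GalEE.ker`), prime to `3`; `σ` is determined by the class of `α` modulo `3^(j+1)` (if `α ≡ α'` modulo `3^(j+1)` and modulo `f`, then modulo `3^(j+1) f`; `Pool.Agent.MEE.tm_FAC`). There are at most `8·9^j` classes modulo `3^(j+1)` of elements not divisible by `3`: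
pairs `(re, im)` modulo `3^(j+1)`, not both divisible by `3`: `9^(j+1) - 9^j`. -/
def S4_DEG : Prop :=
  ∀ (A B : ℤ) (V : ValuationSubring ℂ), CtxN4 A B V → GalEE A B → ∀ (j f : ℕ), f ≠ 0 → 2 ∣ f →
    ¬ 3 ∣ f → Module.finrank (kk A B) (RFE (idl (A := A) (B := B) (3 ^ (j + 1) * f))) ≤
      (8 * 9 ^ j) * Module.finrank (kk A B) (RFE (idl (A := A) (B := B) f))

/-- (SIG) `Y ↦ σ_Y(w)` for `w` in the ray class field, `σ_Y(P) = P + Y`, `P = om/(3^(n+1) f)`.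

Uses Se_ALG, Se_PRO, Se_COE, Se_GRN, Se_LEG, Se_PTS, Se_TPN, Se_ADD, S4_UNR, S4_DEG, Se_BAS. PROOF. `M = RFE (3^(n+1) f a)`, `M₀ = RFE (f a)`, `m = 3^(n+1) f`. `w₁, w₂` (LEG): `e = ℘ w₁`, `u² = ℘ w₂ - ℘ w₁`, `xnE L w_i = ℘ w_i - 1/12 ∈ RFE (2) ≤ M₀` (`2 ∣ f`), so `e, u² ∈ M₀`. `P = om/m`. `k` with `3^(n+1) k ≡ 1` modulo `f`, `P₀ = 3^(n+1) k P`,
`P₁ = P - P₀`: `f P₀ ∈ L`, `2 P₀ ∉ L` (`f ∤ 2 k`, `f ≥ 3`, `k` prime to `f`), `3^(n+1) P₁ ∈ L`, `3^n P₁ ∉ L` (`3^n (1 - 3^(n+1) k) P ∈ L` iff `m ∣ 3^n (1 - 3^(n+1) k)`). `P₀, 2 P₀ ∉ InK` (TPN (1)), so `v(y P₀) = 1` (`Pool.Agent.MU3.Val.v_y_unit` in `Pool/Agent/MU3/VRed.lean` for the point `ξ P₀`, with `MUXV.inE_iff`).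
`π = x(P) - x(P₀)`, `v(π - 2 y(P₀) t(P₁)) ≤ v(t P₁)²` (`MUXV.near`), `v π = v(t P₁)`, `v(t P₁)² = v(s P₁)` (`t = -x/y`, `y² = x³ (1 + ..)`), so `v(π)^(8·9^n) = v 3` (TPN (2)). (BAS) with `N = 8·9^n` (DEG with `j = n`, `f := f a`; UNR): `w = Σ a_i π^i`, `a_i ∈ M₀`, `v a_i ≤ 1`. `F Y = Σ a_i (x(P + Y) - x(P₀))^i`: polynomial over `V` in `x(P + Y)`, represented (ADD, PRO (1))
by `(Σ a_i π^i, β) = (w, β)`. `σ` with `c = 1 + 3^n f a y` acts trivially on `M₀` (`Pool.Agent.MEE.tm_FAC`: `c - 1 ∈ (f a)`), so on `a_i`, `e`, `u²`, `x(P₀)` (`xnE L P₀ ∈ M₀`), and `σ(xnE L P) = xnE L (emb c * P)`, `emb c * P = P + emb y * (a om/3)`; so `σ w = Σ a_i (x(P + Y) - x(P₀))^i`, `Y = emb y * (a om/3)`. -/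
def S4_SIG : Prop :=
  ∀ (A B : ℤ) (V : ValuationSubring ℂ), CtxN4 A B V → TorXE A B → GalEE A B →
    ∀ (L : PeriodPair) (om u e lam : ℂ), IsNE (⊤ : Ideal (OO A B)) L om → GoodN V L u e lam →
    ∀ n f a : ℕ, 1 ≤ n → 3 ≤ f → 2 ∣ f → ¬ 3 ∣ f → a ≠ 0 → ¬ 3 ∣ a →
    ∀ w ∈ RFE (idl (A := A) (B := B) (3 ^ (n + 1) * f * a)), V.valuation w ≤ 1 →
    ∃ (F : ℂ → ℂ) (β : ℂ), V.valuation β ≤ 1 ∧ _root_.Pool.Agent.NSE.Rep V (E3 L) (su L u e) (ru L u e) F w β ∧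
      ∀ (y : OO A B), y ∉ idl (A := A) (B := B) 3 →
      ∀ (σ : RFE (idl (A := A) (B := B) (3 ^ (n + 1) * f * a)) ≃ₐ[kk A B]
        RFE (idl (A := A) (B := B) (3 ^ (n + 1) * f * a))),
      ActEE (_root_.Pool.Agent.MU3A.em σ) (idl (A := A) (B := B) (3 ^ (n + 1) * f * a))
        (1 + ((3 ^ n * f * a : ℕ) : OO A B) * y) →
      ∀ hw : w ∈ RFE (idl (A := A) (B := B) (3 ^ (n + 1) * f * a)),
        (σ ⟨w, hw⟩ : ℂ) = F (emb y * (a * om / 3))

/-- (MUL) the isogenies `μ_i x : L_(i0) → L_i` have degree prime to `3`.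

PROOF. `μ = μ_i emb x`, `μ_i = om_i N(b_i)/om_0`, `L_0 = om_0 emb O`, `L_i = om_i emb b_i`; `N(b_i) ∈ b_i`: `μ L_0 ⊆ L_i` (`Pool.Agent.MEE.tm_PT`). `μ z ∈ L_i`: `emb x N(b_i) z/om_0 ∈ emb b_i ⊆ emb O`; multiply by `star x`: `nm x · N(b_i) z ∈ L_0`. `N = (nm x).natAbs * nI (R.b i)`, prime to `3` (`CtxN4.nrm`; `R.cop`, `3 ∣ n`). -/
def S4_MUL : Prop :=
  ∀ (A B : ℤ) (V : ValuationSubring ℂ), CtxN4 A B V → ∀ (n : ℕ) (ι : Type) (R : RepsE A B n ι),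
    n ≠ 0 → 3 ∣ n → ∀ (i : ι) (x : OO A B), x ∉ idl (A := A) (B := B) 3 →
      muXE R i * emb x ≠ 0 ∧ Isg (R.L R.i0) (R.L i) (muXE R i * emb x) ∧
      ∃ N : ℕ, ¬ 3 ∣ N ∧ ∀ z, muXE R i * emb x * z ∈ (R.L i).lattice →
        (N : ℂ) * z ∈ (R.L R.i0).lattice

/-- (ONE) Lemma E, for products over arbitrary finite families of points `(i, x)`.

Uses Se_ALG, Se_PRO, Se_COE, Se_LEG, Se_PTS, Se_THN, S4_UNR, S4_SIG, Se_NE1, S4_MUL. PROOF. (Model: `Pool/Agent/MUX/E_ONE.lean`.) `m = 3^(n+1) f`, `L_0 = R.L R.i0 = om emb O`, `M = RFE (m a)`. Models `u_i, e_i, lam_i` of `L_i` (`CtxN4.good`), `u, e, lam` of `L_0`. `z = ptE R m i x` for `(i, x) ∈ X j`: exact order `m` (`Pool.Agent.MEE.tm_PT`, `x` prime to `m`), so (NE1) applies, also to all `q ∈ H i`.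
(1) `v(Θ(z)) = v(u_i²)^|H_i|` (THN with `μ = muXE i * emb x`, MUL; `x ∉ (3)` as `3 ∣ m`), `3 ∣ |H_i|` (`b_HRE`: `2 |H| + 1 = a²`, `3 ∤ a`), `v(u_i²) ∈ v(3)^ℤ` (LEG: `u_i² = xnE w₂ - xnE w₁ ∈ RFE (2)`; UNR with `f = 2`). So `v(W) = v(3)^(3 K)` for `W = ∏_j (∏ Θ)^(g_j) = y³`, `v(y) = v(3)^K`, `w = y/3^K ∈ RFE (m) ≤ M`, `v w = 1`.
(2) `c_b = 1 + 3^n f a b`, `b ∈ O ∖ (3)`, is prime to `m a` (`n ≥ 1`), `σ_b` with `ActEE (em σ_b) (m a) c_b` (`GalEE.sur`). (SIG) for `w`: `F`, `β`. `Y_b = emb b * (a om/3) ∈ E3 L_0`, every `Y ∈ E3 L_0` is congruent to some `Y_b` modulo `L_0` (`Y = om emb b'/3`, `a b ≡ b'` modulo 3), and all functions below are functions of `(s Y, r Y)`, so periodic (PTS).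
(3) (`Pool.Agent.MEE.tm_GTH`): `σ_b(Θ(z)) = Θ(emb c_b z) = Θ(z + μ Y_b)`, `μ = muXE i * emb x` (`3^n f a b z = muXE i emb x · 3^n f a b om/m`). So for `G_(j,y)(Y) = Θ(z + μ Y)/Θ(z)` (THN: represented by `(1, μ dlX/u)`), `∏_j (∏_y G)^(g_j) (Y_b) = σ_b W/W = (σ_b w/w)³ = (F(Y_b)/w)³` (`3^K` is rational). The left side is represented by `(1, S')`,
`S' = Σ_j g_j Σ_y emb(x) muXE i dlX/u` (PRO (2)), `F/w` by `(1, β/w)`: (PRO (3)) `v(S') ≤ v 3`. (4) Replace `emb x` by `w x`: `v(w x - emb x) ≤ v 3` and `v(muXE i dlX/u) ≤ 1` (THN: `v(μ dlX/u) ≤ 1`, `v(emb x) = 1`). -/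
def S4_ONE : Prop :=
  ∀ (A B : ℤ) (V : ValuationSubring ℂ), CtxN4 A B V → TorXE A B → GalEE A B →
    ∀ (n f a : ℕ), 1 ≤ n → 3 ≤ f → 2 ∣ f → ¬ 3 ∣ f → 3 ≤ a → ¬ 3 ∣ a → a.Coprime f →
    ∀ (ι : Type) (R : RepsE A B (3 * f) ι) (u e lam : ℂ), GoodN V (R.L R.i0) u e lam →
    ∀ (H : ι → Finset ℂ), (∀ i, IsHalf (R.L i) (a : ℂ) (H i)) →
    ∀ w : OO A B → ℂ, IsTei V w →
    ∀ (J : Type) [Fintype J] (X : J → Finset (ι × OO A B)) (g : J → ℤ),
      (∀ j, ∀ y ∈ X j, IsCoprime y.2 ((3 ^ (n + 1) * f : ℕ) : OO A B)) →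
      (∃ y ∈ RFE (idl (A := A) (B := B) (3 ^ (n + 1) * f)), y ^ 3 =
        ∏ j, (∏ y ∈ X j, ThetaH (R.L y.1) (H y.1) (ptE R (3 ^ (n + 1) * f) y.1 y.2)) ^ g j) →
      V.valuation ((∑ j, (g j : ℂ) * ∑ y ∈ X j, w y.2 * muXE R y.1 *
        dlX (R.L y.1) a (ptE R (3 ^ (n + 1) * f) y.1 y.2)) / u) ≤ V.valuation (3 : ℂ)

/-- (MAIN) Lemma E for arbitrary families of pairs.

Uses S4_ONE, S4_CTX. PROOF. As `Pool/Agent/MUX/E_MAIN0.lean` (`Sxe_MAIN0`); `lvX 3 f n = f * 3 * 3^n = 3^(n+1) * f`, `aX 3 f = 1 + 6 f`. `f ≥ 3` and `2 ∣ f`: `SetE4.fD`, `absD ≥ 3`. -/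
def S4_MAIN : Prop :=
  ∀ (A B : ℤ) (V : ValuationSubring ℂ) (f : ℕ), SetE4 A B V f → TorXE A B → S4_RFIN →
    ∀ (ι : Type) [Fintype ι] (R : RepsE A B (3 * f) ι) (u e lam : ℂ),
    GoodN V (R.L R.i0) u e lam → ∀ w : OO A B → ℂ, IsTei V w →
    ∀ n : ℕ, 1 ≤ n →
    ∀ (H : ι → Finset ℂ), (∀ i, IsHalf (R.L i) (aX 3 f : ℂ) (H i)) →
    ∀ (D : IntermediateField ℚ ℂ) (h : kk A B ≤ D),
      (∀ y ∈ D, y ∈ RFE (idl (A := A) (B := B) (lvX 3 f n))) →
    letI := algC h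
    ∀ (C : (D ≃ₐ[kk A B] D) → ℂ)
      (S : (D ≃ₐ[kk A B] D) → Finset (ι × (OO A B ⧸ idl (A := A) (B := B) (lvX 3 f n)))),
    (∀ τ : D ≃ₐ[kk A B] D, ∃ y : D, (y : ℂ) = C 1 ∧ ((τ y : D) : ℂ) = C τ) →
    (∀ τ, ∀ q ∈ S τ, IsCoprime (Quotient.out q.2 : OO A B) ((lvX 3 f n : ℕ) : OO A B)) →
    (∀ τ, C τ = ∏ q ∈ S τ, ThetaH (R.L q.1) (H q.1) (ptE R (lvX 3 f n) q.1 (Quotient.out q.2))) →
    ∀ g : (D ≃ₐ[kk A B] D) → ℤ,
      (∃ y ∈ D, y ^ 3 = ∏ᶠ τ : D ≃ₐ[kk A B] D, C τ ^ g τ) →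
      ∀ τ' : D ≃ₐ[kk A B] D,
        V.valuation ((∑ᶠ τ : D ≃ₐ[kk A B] D, (g τ : ℂ) * ∑ q ∈ S (τ * τ'),
          w (Quotient.out q.2) * muXE R q.1 *
            dlX (R.L q.1) (aX 3 f) (ptE R (lvX 3 f n) q.1 (Quotient.out q.2))) / u) ≤
          V.valuation (3 : ℂ)

/-- (FIN) the final form.

Uses S4_MAIN. PROOF. `S τ = XXE R m h τ` (a finite set, `ι` and `O/m` are finite); `cXE = C`. As `Pool/Agent/MUX/E_EW.lean`. -/
def S4_FIN : Prop := S4_RFIN → S4_EFIN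

end

end Pool.Agent.ME4


end

section

/-!
# MUX-NS, block EN, module UNR: `RFE (f)` is unramified at `V` if `f` is prime to `3`
-/

set_option autoImplicit false

open Polynomial

namespace Pool.Agent.ME4

open _root_.MU3 _root_.Pool.Agent.MU3A _root_.Pool.Agent.MU3B _root_.Pool.Agent.MUX _root_.Pool.Agent.MUXU _root_.Pool.Agent.MUXE
open _root_.Pool.Agent.RI _root_.Pool.Agent.NS
open _root_.Pool.Agent.ME hiding ActE
open _root_.Pool.Agent.MEE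
open _root_.Pool.Agent.NSE (E3 su ru WL IntP Pts Rep Se_ALG Se_PRO Se_PUL Se_COE Se_GRN Se_LEG Se_TW3 Se_PTS Se_TPN Se_UNT Se_RAT Se_ISO Se_ADD Se_THN Se_BAS Se_NE1)
open _root_.Pool.Agent.MUXV (GR InK tX)

noncomputable section

namespace UNR

/-- extension of an automorphism of `RFE m` to `ℂ` (as `CXW.extn` in `W_CXW.lean` of MUX) -/
lemma extn {A B : ℤ} (hT : TorXE A B) {m : Ideal (OO A B)} (hm : m ≠ ⊥)
    (σ : (RFE m : IntermediateField (kk A B) ℂ) ≃ₐ[kk A B] RFE m) :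
    ∃ s : ℂ ≃+* ℂ, FixK A B s ∧ ∀ y : (RFE m : IntermediateField (kk A B) ℂ),
      s y = ((σ y : (RFE m : IntermediateField (kk A B) ℂ)) : ℂ) := by
  let D : IntermediateField ℚ ℂ :=
    (RFE m : IntermediateField (kk A B) ℂ).restrictScalars ℚ
  have hkD : kk A B ≤ D := fun x hx =>
    (RFE m : IntermediateField (kk A B) ℂ).algebraMap_mem ⟨x, hx⟩
  letI := algC hkD
  let f : D ≃+* D :=
    { toFun := fun y => σ y
      invFun := fun y => σ.symm y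
      left_inv := fun y => σ.symm_apply_apply y
      right_inv := fun y => σ.apply_symm_apply y
      map_mul' := fun x y => map_mul σ x y
      map_add' := fun x y => map_add σ x y }
  let τ : D ≃ₐ[kk A B] D := AlgEquiv.ofRingEquiv (f := f) (fun r => σ.commutes r)
  obtain ⟨s, hs, h1⟩ := hT.ext m hm D hkD (fun y hy => hy) τ
  exact ⟨s, hs, fun y => h1 ⟨y, y.2⟩⟩

lemma idl_ne {A B : ℤ} {f : ℕ} (hf : f ≠ 0) : idl (A := A) (B := B) f ≠ ⊥ := by
  intro h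
  rw [Ideal.span_singleton_eq_bot] at h
  have h1 := congrArg QuadraticAlgebra.re h
  rw [QuadraticAlgebra.re_natCast, QuadraticAlgebra.re_zero] at h1
  exact hf (by exact_mod_cast h1)

end UNR

/-- UNR. -/
theorem t4_UNR (h : S4_RAM) : S4_UNR := by
  intro A B V hC hT f hf hf2 hf3
  have hm : idl (A := A) (B := B) f ≠ ⊥ := UNR.idl_ne hf
  have := hT.fin _ hm
  have := hT.gal _ hm
  refine h A B V hC (RFE (idl (A := A) (B := B) f)) ?_
  intro σ hσ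
  obtain ⟨s, hs, hsv⟩ := UNR.extn hT hm σ
  have h1 : ∀ y ∈ (RFE (idl (A := A) (B := B) f) : IntermediateField (kk A B) ℂ), y ∈ V →
      s y - y ∈ V.nonunits := by
    intro y hy hyV
    have h2 := hσ ⟨y, hy⟩ ((V.valuation_le_one_iff y).2 hyV)
    rw [ValuationSubring.mem_nonunits_iff, hsv ⟨y, hy⟩]
    exact h2
  have h2 := hC.iner f hf hf2 hf3 s hs h1
  apply AlgEquiv.ext
  intro y
  apply Subtype.ext
  rw [← hsv]
  exact h2 y y.2

end

end Pool.Agent.ME4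


end

section

/-!
# MUX-NS, block EN, module FIN: the final form (helper86)
-/

set_option autoImplicit false

namespace Pool.Agent.ME4

open _root_.MU3 _root_.Pool.Agent.MU3A _root_.Pool.Agent.MU3B _root_.Pool.Agent.MUX _root_.Pool.Agent.MUXU
open _root_.Pool.Agent.RI _root_.Pool.Agent.NS
open _root_.Pool.Agent.ME hiding ActE
open _root_.Pool.Agent.MEE
open _root_.Pool.Agent.NSE (E3 su ru WL IntP Pts Rep Se_ALG Se_PRO Se_PUL Se_COE Se_GRN Se_LEG Se_TW3 Se_PTS Se_TPN Se_UNT Se_RAT Se_ISO Se_ADD Se_THN Se_BAS Se_NE1)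

noncomputable section

namespace FIN

/-- `O/m` is finite -/
lemma _root_.Pool.Agent.ME4.FIN.fin_quot (A B : ℤ) (hr : Pool.Agent.MUXE.RingE A B) {m : ℕ} (hm : m ≠ 0) :
    Finite (OO A B ⧸ idl (A := A) (B := B) m) := by
  haveI := hr.ded
  apply Ideal.finiteQuotientOfFreeOfNeBot
  intro h
  rw [Ideal.span_singleton_eq_bot] at h
  obtain ⟨φ, hφ⟩ := hr.hom
  have h1 : φ ((m : ℕ) : OO A B) = 0 := by rw [h, map_zero]
  rw [map_natCast] at h1
  exact hm (by exact_mod_cast h1)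

end FIN

open _root_.Pool.Agent.ME4.FIN in
theorem t4_FIN (h1 : S4_MAIN) : S4_FIN := by
  classical
  intro hR A B V f hS hT ι _ R u e lam hG w hw n hn H hH D h hD
  letI := algC h
  intro hC g hcube τ'
  have hr := Pool.Agent.MUXE.te_RNG A B hS.case.toCQ
  have hm0 : lvX 3 f n ≠ 0 := by
    have : lvX 3 f n = f * 3 * 3 ^ n := by simp [lvX, q0]
    rw [this]
    exact mul_ne_zero (mul_ne_zero hS.f0 (by norm_num)) (pow_ne_zero _ (by norm_num))
  haveI := _root_.Pool.Agent.ME4.FIN.fin_quot A B hr hm0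
  have hfin : ∀ τ : D ≃ₐ[kk A B] D, (XXE R (lvX 3 f n) h τ).Finite := fun τ => Set.toFinite _
  let S : (D ≃ₐ[kk A B] D) → Finset (ι × (OO A B ⧸ idl (A := A) (B := B) (lvX 3 f n))) :=
    fun τ => (hfin τ).toFinset
  have key := h1 A B V f hS hT hR ι R u e lam hG w hw n hn H hH D h hD
    (fun τ => cXE R (lvX 3 f n) H h τ) S hC
    (fun τ q hq => ((hfin τ).mem_toFinset.1 hq).1)
    (fun τ => by
      show cXE R (lvX 3 f n) H h τ = _
      rw [cXE, finprod_mem_eq_finite_toFinset_prod _ (hfin τ)])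
    g hcube τ'
  have e1 : ∀ τ : D ≃ₐ[kk A B] D, TTNE R w (lvX 3 f n) (aX 3 f) h (τ * τ') =
      ∑ q ∈ S (τ * τ'), w (Quotient.out q.2) * muXE R q.1 *
        dlX (R.L q.1) (aX 3 f) (ptE R (lvX 3 f n) q.1 (Quotient.out q.2)) := by
    intro τ
    rw [TTNE, finsum_mem_eq_finite_toFinset_sum _ (hfin (τ * τ'))]
  have e2 : (∑ᶠ τ : D ≃ₐ[kk A B] D, (g τ : ℂ) * TTNE R w (lvX 3 f n) (aX 3 f) h (τ * τ')) =
      ∑ᶠ τ : D ≃ₐ[kk A B] D, (g τ : ℂ) * ∑ q ∈ S (τ * τ'), w (Quotient.out q.2) * muXE R q.1 *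
        dlX (R.L q.1) (aX 3 f) (ptE R (lvX 3 f n) q.1 (Quotient.out q.2)) :=
    finsum_congr fun τ => by rw [e1]
  rw [e2]
  exact key

end

end Pool.Agent.ME4


end

section

/-!
# MUX-NS, block EN, module MAIN: Lemma E for arbitrary families of pairs
-/

set_option autoImplicit false

namespace Pool.Agent.ME4

open _root_.MU3 _root_.Pool.Agent.MU3A _root_.Pool.Agent.MU3B _root_.Pool.Agent.MUX _root_.Pool.Agent.MUXU _root_.Pool.Agent.MUXE
open _root_.Pool.Agent.RI _root_.Pool.Agent.NS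
open _root_.Pool.Agent.ME hiding ActE
open _root_.Pool.Agent.MEE
open _root_.Pool.Agent.NSE (E3 su ru WL IntP Pts Rep Se_ALG Se_PRO Se_PUL Se_COE Se_GRN Se_LEG Se_TW3 Se_PTS Se_TPN Se_UNT Se_RAT Se_ISO Se_ADD Se_THN Se_BAS Se_NE1)

noncomputable section

lemma mn_f {A B : ℤ} {V : ValuationSubring ℂ} {f : ℕ} (h : SetE4 A B V f) :
    3 ≤ f ∧ 2 ∣ f := by
  have h0 := h.f0
  have h1 := h.fD
  have h2 := h.case.neg
  have h4 : 2 * absD A B ≤ (f : ℤ) := Int.le_of_dvd (by positivity) h1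
  have h5 : 2 ≤ absD A B := by
    unfold absD
    rcases h.case.hB with rfl | rfl
    · simp at h2 ⊢
      omega
    · simp at h2 ⊢
      omega
  refine ⟨by omega, ?_⟩
  have h6 : (2 : ℤ) ∣ (f : ℤ) := (dvd_mul_right 2 (absD A B)).trans h1
  exact_mod_cast h6

theorem t4_MAIN (h1 : S4_ONE) (h2 : S4_CTX) : S4_MAIN := by
  classical
  intro A B V f hS hT hRF ι _ R u e lam hG w hw n hn H hH D hD hDF
  intro C S hC hcop hprod g hcube τ'
  letI := algC hD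
  have hctx := h2 A B V hS.case hS.hB hS.hV hT hRF
  have hr := hctx.ring
  have hgal := Pool.Agent.MEE.tm_GAL A B hS.case hr hT
  have hlv : lvX 3 f n = 3 ^ (n + 1) * f := by
    simp [lvX, q0]
    ring
  obtain ⟨ha3, hap, haf⟩ := m0_aX (p := 3) (Or.inr rfl) hS.f0
  obtain ⟨hf3, hf2⟩ := mn_f hS
  have hm0 : lvX 3 f n ≠ 0 := by
    rw [hlv]
    exact mul_ne_zero (pow_ne_zero _ (by norm_num)) hS.f0
  have hmb := m0_ne A B hr hm0
  have := hT.fin _ hmb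
  -- D is finite over k
  have := Pool.Agent.FX.fd_of_le hD hDF
  have : Finite (D ≃ₐ[kk A B] D) := inferInstance
  letI : Fintype (D ≃ₐ[kk A B] D) := Fintype.ofFinite _
  have hcom := mx_comm hT _ hmb D hD hDF
  have hout : Function.Injective
      (fun q : ι × (OO A B ⧸ idl (A := A) (B := B) (lvX 3 f n)) =>
        ((q.1, Quotient.out q.2) : ι × OO A B)) := by
    intro q q' hq
    have hq0 : ((q.1, Quotient.out q.2) : ι × OO A B) = (q'.1, Quotient.out q'.2) := hq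
    have h4 : q.1 = q'.1 := (Prod.mk.inj hq0).1
    have h5 : (Quotient.out q.2 : OO A B) = Quotient.out q'.2 := (Prod.mk.inj hq0).2
    have h6 : Ideal.Quotient.mk (idl (A := A) (B := B) (lvX 3 f n)) (Quotient.out q.2) =
        Ideal.Quotient.mk (idl (A := A) (B := B) (lvX 3 f n)) (Quotient.out q'.2) :=
      congrArg _ h5
    rw [Ideal.Quotient.mk_out, Ideal.Quotient.mk_out] at h6
    exact Prod.ext h4 h6
  set X : (D ≃ₐ[kk A B] D) → Finset (ι × OO A B) := fun τ =>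
    (S (τ * τ')).image (fun q => (q.1, Quotient.out q.2)) with hX
  have hcopX : ∀ τ : D ≃ₐ[kk A B] D, ∀ y ∈ X τ,
      IsCoprime y.2 ((3 ^ (n + 1) * f : ℕ) : OO A B) := by
    intro τ y hy
    rw [hX] at hy
    obtain ⟨q, hq, rfl⟩ := Finset.mem_image.1 hy
    have := hcop (τ * τ') q hq
    rw [← hlv]
    exact this
  have key := h1 A B V hctx hT hgal n f (aX 3 f) hn hf3 hf2 hS.fp ha3 hap haf ι R u e lam hG H
    hH w hw (D ≃ₐ[kk A B] D) X g hcopX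
  rw [← hlv] at key
  have hprodX : ∀ τ : D ≃ₐ[kk A B] D,
      ∏ y ∈ X τ, ThetaH (R.L y.1) (H y.1) (ptE R (lvX 3 f n) y.1 y.2) = C (τ * τ') := by
    intro τ
    rw [hX, Finset.prod_image (fun x _ y _ hxy => hout hxy), hprod (τ * τ')]
  have hsumX : ∀ τ : D ≃ₐ[kk A B] D,
      ∑ y ∈ X τ, w y.2 * muXE R y.1 * dlX (R.L y.1) (aX 3 f) (ptE R (lvX 3 f n) y.1 y.2) =
      ∑ q ∈ S (τ * τ'), w (Quotient.out q.2) * muXE R q.1 *
        dlX (R.L q.1) (aX 3 f) (ptE R (lvX 3 f n) q.1 (Quotient.out q.2)) := by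
    intro τ
    rw [hX, Finset.sum_image (fun x _ y _ hxy => hout hxy)]
  rw [finsum_eq_sum_of_fintype]
  have e1 : (∑ τ : D ≃ₐ[kk A B] D, (g τ : ℂ) * ∑ q ∈ S (τ * τ'),
      w (Quotient.out q.2) * muXE R q.1 *
        dlX (R.L q.1) (aX 3 f) (ptE R (lvX 3 f n) q.1 (Quotient.out q.2))) =
      ∑ j : D ≃ₐ[kk A B] D, (g j : ℂ) * ∑ y ∈ X j, w y.2 * muXE R y.1 *
      dlX (R.L y.1) (aX 3 f) (ptE R (lvX 3 f n) y.1 y.2) :=
    Finset.sum_congr rfl (fun τ _ => by rw [hsumX])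
  rw [e1]
  apply key
  obtain ⟨v, hv, hvp⟩ := hcube
  rw [finprod_eq_prod_of_fintype] at hvp
  obtain ⟨y, hy1, -⟩ := hC 1
  have hyτ : ∀ τ : D ≃ₐ[kk A B] D, ((τ y : D) : ℂ) = C τ := by
    intro τ
    obtain ⟨y', hy', hy''⟩ := hC τ
    have : y' = y := Subtype.ext (hy'.trans hy1.symm)
    rw [← hy'', this]
  have hw4 : (⟨v, hv⟩ : D) ^ 3 = ∏ τ : D ≃ₐ[kk A B] D, (τ y) ^ g τ := by
    apply Subtype.ext
    rw [IntermediateField.coe_prod]
    rw [show (((⟨v, hv⟩ : D) ^ 3 : D) : ℂ) = v ^ 3 from rfl, hvp]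
    refine Finset.prod_congr rfl (fun τ _ => ?_)
    rw [← hyτ τ, ← m0_zpc (D := D)]
  refine ⟨(τ' ⟨v, hv⟩ : D), hDF _ (τ' ⟨v, hv⟩).2, ?_⟩
  have hw5 := congrArg τ' hw4
  rw [map_pow, map_prod] at hw5
  have hw6 := congrArg (fun y : D => (y : ℂ)) hw5
  push_cast at hw6
  rw [hw6]
  refine Finset.prod_congr rfl (fun τ _ => ?_)
  rw [hprodX, hcom τ τ', map_zpow₀, ← hyτ (τ' * τ), m0_zpc]
  rfl

end

end Pool.Agent.ME4


end

section

/-!
# MUX, block E: the Galois action on `Θ_a(z)`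
-/

set_option autoImplicit false

open WeierstrassCurve Polynomial NumberField IsDedekindDomain

namespace Pool.Agent.MEE

open _root_.MU3 _root_.Pool.Agent.MU3A _root_.Pool.Agent.MU3B _root_.Pool.Agent.MUX _root_.Pool.Agent.MUXU _root_.Pool.Agent.RI
open _root_.Pool.Agent.ME hiding ActE
open _root_.Pool.Agent.MUXE (RingE)

noncomputable section

/-- (GTH) the Galois action on `Θ_a(z)` -/
theorem tm_GTH (h1 : Sme_TRA) : Sme_GTH := by
  intro A B hR L hL a H hH m hm σ c hσ hac z hz hzL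
  obtain ⟨t1, -, -, -, -, -, -, -, t9⟩ := h1 A B hR L hL
  obtain ⟨φ, hφ⟩ := hR.hom
  have emul : ∀ x y : OO A B, emb (x * y) = emb x * emb y := by
    intro x y
    rw [← hφ, ← hφ, ← hφ, map_mul]
  have eadd : ∀ x y : OO A B, emb (x + y) = emb x + emb y := by
    intro x y
    rw [← hφ, ← hφ, ← hφ, map_add]
  have eone : emb (1 : OO A B) = 1 := by rw [← hφ, map_one]
  have enat : ∀ n : ℕ, emb (n : OO A B) = n := by
    intro n
    rw [← hφ, map_natCast]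
  obtain ⟨hcop, hact⟩ := hσ
  obtain ⟨-, hact⟩ := hact L hL
  have hgen : ∀ x ∈ sp (a : OO A B), ∃ k : OO A B, x = k * (a : OO A B) := by
    intro x hx
    obtain ⟨k, hk⟩ := Ideal.mem_span_singleton'.1 hx
    exact ⟨k, hk.symm⟩
  have hq : ∀ q ∈ H, Tor m L q ∧ q ∉ L.lattice := by
    intro q hqH
    constructor
    · intro x hx
      obtain ⟨k, hk⟩ := hgen x (hm hx)
      rw [hk, emul, enat, mul_assoc]
      exact t1 k _ (hH.mem q hqH)
    · intro h0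
      refine hH.ne q hqH ?_
      rw [two_mul]
      exact add_mem h0 h0
  have hmem : ∀ z, Tor m L z → z ∉ L.lattice → xnE L z ∈ RFE m := by
    intro z h2 h3
    obtain ⟨b, om, hb⟩ := hL
    exact IntermediateField.subset_adjoin _ _ ⟨b, L, om, hb, Or.inr ⟨z, h2, h3, rfl⟩⟩
  have hcq : ∀ q ∈ H, xnE L (emb c * q) = xnE L q := by
    intro q hqH
    obtain ⟨k, hk⟩ := hgen _ hac
    have h2 : q - emb c * q ∈ L.lattice := by
      have h3 : c = 1 + k * (a : OO A B) := by rw [← hk]; ring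
      have h4 : q - emb c * q = -(emb k * ((a : ℂ) * q)) := by
        rw [h3, eadd, eone, emul, enat]
        ring
      rw [h4]
      exact neg_mem (t1 k _ (hH.mem q hqH))
    exact (((t9 q (emb c * q) h2).2 (hq q hqH).2).1).symm
  have hsub : ∀ z q, L.weierstrassP z - L.weierstrassP q = xnE L z - xnE L q := by
    intro z q
    unfold xnE
    ring
  have hTh : ∀ z, ThetaH L H z = ∏ q ∈ H, (xnE L z - xnE L q) := by
    intro z
    unfold ThetaH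
    exact Finset.prod_congr rfl fun q _ => hsub z q
  let y : RFE m := ∏ q ∈ H.attach, ((⟨xnE L z, hmem z hz hzL⟩ : RFE m) -
    ⟨xnE L q.1, hmem q.1 (hq q.1 q.2).1 (hq q.1 q.2).2⟩)
  have hy : (y : ℂ) = ThetaH L H z := by
    have h2 : (y : ℂ) = ∏ q ∈ H.attach, (xnE L z - xnE L q.1) := by
      change (RFE m).val y = _
      rw [map_prod]
      rfl
    rw [h2, hTh, Finset.prod_attach H (fun q => xnE L z - xnE L q)]
  have hmemT : ThetaH L H z ∈ RFE m := hy ▸ y.2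
  refine ⟨hmemT, ?_⟩
  have hyeq : (⟨ThetaH L H z, hmemT⟩ : RFE m) = y := Subtype.ext hy.symm
  rw [hyeq]
  change _root_.Pool.Agent.MU3A.em σ y = _
  have h2 : _root_.Pool.Agent.MU3A.em σ y = ∏ q ∈ H.attach, (xnE L (emb c * z) - xnE L q.1) := by
    rw [map_prod]
    refine Finset.prod_congr rfl fun q _ => ?_
    rw [map_sub, (hact z hz hzL).2 (hmem z hz hzL),
      (hact q.1 (hq q.1 q.2).1 (hq q.1 q.2).2).2 (hmem q.1 (hq q.1 q.2).1 (hq q.1 q.2).2),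
      hcq q.1 q.2]
  rw [h2, hTh, Finset.prod_attach H (fun q => xnE L (emb c * z) - xnE L q)]

end

end Pool.Agent.MEE


end

section

/-!
# MUX-NS, block EN, module ONE: Lemma E for products over finite families of points (helper76)
-/

set_option autoImplicit false

open Polynomial

namespace Pool.Agent.ME4

open _root_.MU3 _root_.Pool.Agent.MU3A _root_.Pool.Agent.MU3B _root_.Pool.Agent.MUX _root_.Pool.Agent.MUXU _root_.Pool.Agent.MUXE
open _root_.Pool.Agent.RI _root_.Pool.Agent.NS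
open _root_.Pool.Agent.ME hiding ActE
open _root_.Pool.Agent.MEE
open _root_.Pool.Agent.NSE (E3 su ru WL IntP Pts Rep Se_ALG Se_PRO Se_PUL Se_COE Se_GRN Se_LEG Se_TW3 Se_PTS Se_TPN Se_UNT Se_RAT Se_ISO Se_ADD Se_THN Se_BAS Se_NE1)
open _root_.Pool.Agent.MUXV (GR InK tX)

noncomputable section

namespace ONE

/-- `|H|` is divisible by `3` -/
lemma card3 {L : PeriodPair} {a : ℕ} {H : Finset ℂ} (ha : a ≠ 0) (h3 : ¬ 3 ∣ a)
    (hH : IsHalf L (a : ℂ) H) : 3 ∣ H.card := by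
  obtain ⟨-, -, h⟩ := b_HRE L a H (by exact_mod_cast ha) (fun w hw => by
    have := nsmul_mem hw a
    rwa [nsmul_eq_mul] at this) hH
  have h1 : 2 * H.card + 1 = a ^ 2 := by
    rw [Complex.norm_natCast] at h
    exact_mod_cast h
  have h2 : a ^ 2 % 3 = 1 := by
    rw [Nat.pow_mod]
    have h4 : a % 3 = 1 ∨ a % 3 = 2 := by omega
    rcases h4 with h4 | h4 <;> rw [h4]
  omega

lemma usq (h5 : Se_LEG) (h7 : S4_UNR) {A B : ℤ} {V : ValuationSubring ℂ} (hC : CtxN4 A B V)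
    (hT : TorXE A B) {L : PeriodPair} {u e lam : ℂ} (hL : NLE A B L) (hg : GoodN V L u e lam) :
    ∃ k : ℤ, V.valuation (u ^ 2) = V.valuation (3 : ℂ) ^ k := by
  obtain ⟨w₁, w₂, h1, h1', h2, h2', he, hu, -⟩ := h5 V L u e lam hg hC.v3
  have hring := hC.ring
  obtain ⟨φ, hφ⟩ := hring.hom
  have e2 : emb ((2 : ℕ) : OO A B) = 2 := by rw [← hφ, map_natCast]; norm_num
  obtain ⟨-, hx, -⟩ := tm_FAC tm_TRA A B hring
  have hsp := (tm_TRA A B hring L hL).2.2.2.2.1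
  have m1 : xnE L w₁ ∈ RFE (idl (A := A) (B := B) 2) :=
    (hx _ L hL).2 w₁ ((hsp _ _).2 (by rw [e2]; exact h1)) h1'
  have m2 : xnE L w₂ ∈ RFE (idl (A := A) (B := B) 2) :=
    (hx _ L hL).2 w₂ ((hsp _ _).2 (by rw [e2]; exact h2)) h2'
  have e3 : u ^ 2 = xnE L w₂ - xnE L w₁ := by
    rw [← hu, xnE, xnE]
  refine h7 A B V hC hT 2 (by norm_num) (by norm_num) (by norm_num) _ ?_ (pow_ne_zero 2 hg.u0)
  rw [e3]
  exact sub_mem m2 m1

lemma _root_.Pool.Agent.ME4.ONE.theta_per (L : PeriodPair) (H : Finset ℂ) (z v : ℂ) (hv : v ∈ L.lattice) :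
    ThetaH L H (z + v) = ThetaH L H z := by
  have h2 : L.weierstrassP (z + v) = L.weierstrassP z := L.weierstrassP_add_coe z ⟨v, hv⟩
  simp only [ThetaH, h2]

/-- everything about one point `(i, x)` -/
lemma _root_.Pool.Agent.ME4.ONE.point (hLEG : Se_LEG) (hTHN : Se_THN) (hUNR : S4_UNR) (hNE1 : Se_NE1) (hMUL : S4_MUL)
    {A B : ℤ} {V : ValuationSubring ℂ} (hC : CtxN4 A B V) (hT : TorXE A B) {n f a : ℕ}
    (hf3 : 3 ≤ f) (hf : ¬ 3 ∣ f) (ha : a ≠ 0) (hpa : ¬ 3 ∣ a) (hco : a.Coprime f) {ι : Type}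
    (R : RepsE A B (3 * f) ι) {u e lam : ℂ} (hgood : GoodN V (R.L R.i0) u e lam)
    {H : ι → Finset ℂ} (hH : ∀ i, IsHalf (R.L i) (a : ℂ) (H i)) (i : ι) (x : OO A B)
    (hx : IsCoprime x ((3 ^ (n + 1) * f : ℕ) : OO A B)) :
    x ∉ idl (A := A) (B := B) 3 ∧ Isg (R.L R.i0) (R.L i) (muXE R i * emb x) ∧
    ptE R (3 ^ (n + 1) * f) i x = muXE R i * (emb x * (R.om R.i0 / (3 ^ (n + 1) * f : ℕ))) ∧
    ((3 ^ (n + 1) * f : ℕ) : ℂ) * ptE R (3 ^ (n + 1) * f) i x ∈ (R.L i).lattice ∧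
    ptE R (3 ^ (n + 1) * f) i x ∉ (R.L i).lattice ∧
    (∃ k : ℤ, V.valuation (ThetaH (R.L i) (H i) (ptE R (3 ^ (n + 1) * f) i x)) =
      V.valuation (3 : ℂ) ^ (3 * k)) ∧
    V.valuation (muXE R i * emb x * dlX (R.L i) a (ptE R (3 ^ (n + 1) * f) i x) / u) ≤ 1 ∧
    _root_.Pool.Agent.NSE.Rep V (E3 (R.L R.i0)) (su (R.L R.i0) u e) (ru (R.L R.i0) u e)
      (fun Y => ThetaH (R.L i) (H i) (ptE R (3 ^ (n + 1) * f) i x + muXE R i * emb x * Y) /
        ThetaH (R.L i) (H i) (ptE R (3 ^ (n + 1) * f) i x)) 1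
      (muXE R i * emb x * dlX (R.L i) a (ptE R (3 ^ (n + 1) * f) i x) / u) := by
  have hring := hC.ring
  have hx3 : x ∉ idl (A := A) (B := B) 3 := by
    intro h
    apply hC.max.ne_top
    rw [Ideal.eq_top_iff_one]
    obtain ⟨b1, b2, hb⟩ := hx
    rw [← hb]
    refine add_mem (Ideal.mul_mem_left _ _ h) (Ideal.mul_mem_left _ _ ?_)
    exact Ideal.mem_span_singleton.2 ⟨((3 ^ n * f : ℕ) : OO A B), by push_cast; ring⟩
  obtain ⟨hmu, hisg, N, hN3, hN⟩ := hMUL A B V hC (3 * f) ι R (by omega) (dvd_mul_right _ _) i x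
    hx3
  have hm0 : 3 ^ (n + 1) * f ≠ 0 := mul_ne_zero (by positivity) (by omega)
  have hmf : (3 ^ (n + 1) * f).primeFactors ⊆ (3 * f).primeFactors := by
    rw [Nat.primeFactors_mul (by positivity) (by omega), Nat.primeFactors_pow _ (by omega),
      Nat.primeFactors_mul (by norm_num) (by omega)]
  obtain ⟨-, -, -, hpt⟩ := tm_PT tm_TRA A B hring (3 * f) ι R (by omega) i
  obtain ⟨hz, hzm, hzo, -⟩ := hpt (3 ^ (n + 1) * f) hm0 hmf x
  obtain ⟨u', e', lam', hg'⟩ := hC.good (R.L i) ⟨_, _, R.nl i⟩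
  obtain ⟨hzK, hza, hzq⟩ := hNE1 V (R.L i) u' e' lam' hg' hC.v3 (n + 1) f a (by omega) hf hpa
    hco _ hzm (hzo hx)
  obtain ⟨k1, k2, k3⟩ := hTHN V (R.L R.i0) (R.L i) u e lam u' e' lam' (muXE R i * emb x) N hgood
    hg' hC.v3 hmu hisg hN3 hN a (H i) ha (hH i) _ hzK hza (fun q hq =>
      hzq q ((hH i).mem q hq) (fun hqL => (hH i).ne q hq (by
        rw [two_mul]; exact add_mem hqL hqL)))
  obtain ⟨k, hk⟩ := usq hLEG hUNR hC hT ⟨_, _, R.nl i⟩ hg'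
  obtain ⟨t, ht⟩ := card3 ha hpa (hH i)
  refine ⟨hx3, hisg, hz, hzm, fun h => hzK (Or.inl h), ⟨k * t, ?_⟩, k2, k3⟩
  rw [k1, hk, ht, ← zpow_natCast, ← zpow_mul]
  congr 1
  push_cast
  ring

/-- the product of the functions `G y` -/
lemma _root_.Pool.Agent.ME4.ONE.asm (hALG : Se_ALG) (hPRO : Se_PRO) {V : ValuationSubring ℂ} {S : Set ℂ} {s r : ℂ → ℂ}
    {a2 a4 : ℂ} (hP : Pts V S s r a2 a4) {J κ : Type} [Fintype J] (X : J → Finset κ) (g : J → ℤ)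
    (G : κ → ℂ → ℂ) (l : κ → ℂ) (hG : ∀ j, ∀ y ∈ X j, _root_.Pool.Agent.NSE.Rep V S s r (G y) 1 (l y)) :
    _root_.Pool.Agent.NSE.Rep V S s r (fun Y => ∏ j, (∏ y ∈ X j, G y Y) ^ g j) 1 (∑ j, (g j : ℂ) * ∑ y ∈ X j, l y) := by
  obtain ⟨-, -, -, hcg, -⟩ := hALG V S s r a2 a4 hP
  obtain ⟨-, hpr, -⟩ := hPRO V S s r a2 a4 hP
  have v0 : V.valuation (0 : ℂ) ≤ V.valuation (3 : ℂ) := by rw [map_zero]; exact zero_le
  have h1 : ∀ j, _root_.Pool.Agent.NSE.Rep V S s r (fun Y => ∏ y ∈ X j, G y Y) 1 (∑ y ∈ X j, l y) := by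
    intro j
    have h2 := (hpr (X j) (fun y => G y.1) (fun _ => 1) (fun y => l y.1) (fun _ => 1)
      (fun y => by rw [one_mul]; exact hG j y.1 y.2) (fun y => map_one _)).2
    refine hcg _ _ _ _ _ _ h2 (fun Y _ => ?_) ?_ ?_
    · simp only [zpow_one]
      exact (Finset.prod_coe_sort (X j) (fun y => G y Y)).symm
    · simp only [one_zpow, Finset.prod_const_one, sub_self]
      exact v0
    · simp only [one_zpow, Finset.prod_const_one, one_mul, Int.cast_one]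
      rw [Finset.sum_coe_sort (X j) (fun y => l y), sub_self]
      exact v0
  have h3 := (hpr J (fun j Y => ∏ y ∈ X j, G y Y) (fun _ => 1) (fun j => ∑ y ∈ X j, l y) g
    (fun j => by rw [one_mul]; exact h1 j) (fun y => map_one _)).2
  refine hcg _ _ _ _ _ _ h3 (fun Y _ => rfl) ?_ ?_
  · simp only [one_zpow, Finset.prod_const_one, sub_self]
    exact v0
  · simp only [one_zpow, Finset.prod_const_one, one_mul, sub_self]
    exact v0

/-- an automorphism applied to the root -/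
lemma _root_.Pool.Agent.ME4.ONE.conj {A B : ℤ} {F : IntermediateField (kk A B) ℂ} (σ : F ≃ₐ[kk A B] F) {J κ : Type}
    [Fintype J] (X : J → Finset κ) (g : J → ℤ) (T T' : κ → ℂ)
    (hT : ∀ j, ∀ y ∈ X j, ∃ h : T y ∈ F, (σ ⟨T y, h⟩ : ℂ) = T' y) {y0 : ℂ} (hy0 : y0 ∈ F)
    (h : y0 ^ 3 = ∏ j, (∏ y ∈ X j, T y) ^ g j) :
    (σ ⟨y0, hy0⟩ : ℂ) ^ 3 = ∏ j, (∏ y ∈ X j, T' y) ^ g j := by
  have h1 : ∀ y, ∃ th : F, ∀ j, y ∈ X j → (th : ℂ) = T y ∧ (σ th : ℂ) = T' y := by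
    intro y
    by_cases hy : ∃ j, y ∈ X j
    · obtain ⟨j, hj⟩ := hy
      obtain ⟨h2, h3⟩ := hT j y hj
      exact ⟨⟨T y, h2⟩, fun _ _ => ⟨rfl, h3⟩⟩
    · exact ⟨1, fun j hj => absurd ⟨j, hj⟩ hy⟩
  choose θ hθ using h1
  have h2 : (⟨y0, hy0⟩ : F) ^ 3 = ∏ j, (∏ y ∈ X j, θ y) ^ g j := by
    apply F.val.injective
    rw [map_pow, map_prod]
    simp only [map_zpow₀, map_prod]
    change y0 ^ 3 = _
    rw [h]
    refine Finset.prod_congr rfl fun j _ => ?_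
    congr 1
    exact Finset.prod_congr rfl fun y hy => ((hθ y j hy).1).symm
  have h3 : (_root_.Pool.Agent.MU3A.em σ ⟨y0, hy0⟩) ^ 3 = ∏ j, (∏ y ∈ X j, _root_.Pool.Agent.MU3A.em σ (θ y)) ^ g j := by
    rw [← map_pow, h2, map_prod]
    simp only [map_zpow₀, map_prod]
  refine h3.trans (Finset.prod_congr rfl fun j _ => ?_)
  congr 1
  exact Finset.prod_congr rfl fun y hy => (hθ y j hy).2

/-- multiplication by a power of `3` -/
lemma _root_.Pool.Agent.ME4.ONE.conj3 {A B : ℤ} {F : IntermediateField (kk A B) ℂ} (σ : F ≃ₐ[kk A B] F) {y0 w0 : ℂ}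
    (K : ℤ) (hy0 : y0 ∈ F) (hw0 : w0 ∈ F) (h : y0 = w0 * 3 ^ K) :
    (σ ⟨y0, hy0⟩ : ℂ) = σ ⟨w0, hw0⟩ * 3 ^ K := by
  have h1 : (⟨y0, hy0⟩ : F) = ⟨w0, hw0⟩ * 3 ^ K := by
    apply F.val.injective
    rw [map_mul, map_zpow₀, map_ofNat]
    exact h
  have h2 : _root_.Pool.Agent.MU3A.em σ ⟨y0, hy0⟩ = _root_.Pool.Agent.MU3A.em σ ⟨w0, hw0⟩ * 3 ^ K := by
    rw [h1, map_mul, map_zpow₀, map_ofNat]
  exact h2

/-- powers of `v(3)³` -/
def _root_.Pool.Agent.ME4.ONE.Cb (V : ValuationSubring ℂ) (x : ℂ) : Prop :=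
  ∃ k : ℤ, V.valuation x = V.valuation (3 : ℂ) ^ (3 * k)

lemma Cb.one (V : ValuationSubring ℂ) : _root_.Pool.Agent.ME4.ONE.Cb V 1 := ⟨0, by simp⟩

lemma _root_.Pool.Agent.ME4.ONE.v3_ne (V : ValuationSubring ℂ) : V.valuation (3 : ℂ) ≠ 0 :=
  (Valuation.ne_zero_iff _).2 (by norm_num)

lemma Cb.mul {V : ValuationSubring ℂ} {x y : ℂ} (hx : _root_.Pool.Agent.ME4.ONE.Cb V x) (hy : _root_.Pool.Agent.ME4.ONE.Cb V y) : _root_.Pool.Agent.ME4.ONE.Cb V (x * y) := by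
  obtain ⟨k, hk⟩ := hx
  obtain ⟨l, hl⟩ := hy
  refine ⟨k + l, ?_⟩
  rw [map_mul, hk, hl, ← zpow_add₀ (_root_.Pool.Agent.ME4.ONE.v3_ne V)]
  congr 1
  ring

lemma Cb.zpow {V : ValuationSubring ℂ} {x : ℂ} (hx : _root_.Pool.Agent.ME4.ONE.Cb V x) (g : ℤ) : _root_.Pool.Agent.ME4.ONE.Cb V (x ^ g) := by
  obtain ⟨k, hk⟩ := hx
  refine ⟨k * g, ?_⟩
  rw [map_zpow₀, hk, ← zpow_mul]
  congr 1
  ring

lemma Cb.ne {V : ValuationSubring ℂ} {x : ℂ} (hx : _root_.Pool.Agent.ME4.ONE.Cb V x) : x ≠ 0 := by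
  rintro rfl
  obtain ⟨k, hk⟩ := hx
  rw [map_zero] at hk
  exact zpow_ne_zero _ (_root_.Pool.Agent.ME4.ONE.v3_ne V) hk.symm

end ONE

open _root_.Pool.Agent.ME4.ONE in
theorem t4_ONE (hALG : Se_ALG) (hPRO : Se_PRO) (hLEG : Se_LEG) (hPTS : Se_PTS) (hTHN : Se_THN)
    (hUNR : S4_UNR) (hSIG : S4_SIG) (hNE1 : Se_NE1) (hMUL : S4_MUL) : S4_ONE := by
  intro A B V hC hT hG n f a hn hf3 hf2 hf ha3 hpa hco ι R u e lam hgood H hH w hw J _ X g hX
    ⟨y0, hy0, hy3⟩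
  have ha0 : a ≠ 0 := by omega
  have hv3 := hC.v3
  have hring := hC.ring
  obtain ⟨φ, hφ⟩ := hring.hom
  have emul : ∀ x y : OO A B, emb (x * y) = emb x * emb y := fun x y => by
    rw [← hφ, map_mul, hφ, hφ]
  have eadd : ∀ x y : OO A B, emb (x + y) = emb x + emb y := fun x y => by
    rw [← hφ, map_add, hφ, hφ]
  have eone : emb (1 : OO A B) = 1 := by rw [← hφ, map_one]
  have enat : ∀ n : ℕ, emb ((n : ℕ) : OO A B) = n := fun n => by rw [← hφ, map_natCast]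
  have hP := fun j y hy => _root_.Pool.Agent.ME4.ONE.point (n := n) hLEG hTHN hUNR hNE1 hMUL hC hT hf3 hf ha0 hpa hco R
    hgood hH y.1 y.2 (hX j y hy)
  obtain ⟨hPts, hper⟩ := hPTS V (R.L R.i0) u e lam hgood hv3
  -- the product and its root
  have hCW : _root_.Pool.Agent.ME4.ONE.Cb V (∏ j, (∏ y ∈ X j, ThetaH (R.L y.1) (H y.1)
      (ptE R (3 ^ (n + 1) * f) y.1 y.2)) ^ g j) := by
    refine Finset.prod_induction _ (_root_.Pool.Agent.ME4.ONE.Cb V) (fun _ _ => Cb.mul) (Cb.one V) fun j _ => Cb.zpow ?_ _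
    exact Finset.prod_induction _ (_root_.Pool.Agent.ME4.ONE.Cb V) (fun _ _ => Cb.mul) (Cb.one V) fun y hy =>
      (hP j y hy).2.2.2.2.2.1
  obtain ⟨K, hK⟩ := hCW
  rw [← hy3, map_pow, mul_comm, zpow_mul] at hK
  have hK' : V.valuation y0 ^ 3 = (V.valuation (3 : ℂ) ^ K) ^ 3 := by exact_mod_cast hK
  have vy0 : V.valuation y0 = V.valuation (3 : ℂ) ^ K :=
    (pow_left_inj₀ zero_le zero_le (by norm_num)).1 hK'
  obtain ⟨w0, hw0⟩ : ∃ w0 : ℂ, w0 = y0 / 3 ^ K := ⟨_, rfl⟩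
  have h3K : (3 : ℂ) ^ K ≠ 0 := zpow_ne_zero _ (by norm_num)
  have hyw : y0 = w0 * 3 ^ K := by rw [hw0, div_mul_cancel₀ _ h3K]
  have vw0 : V.valuation w0 = 1 := by
    rw [hw0, map_div₀, map_zpow₀, vy0, div_self (zpow_ne_zero _ (_root_.Pool.Agent.ME4.ONE.v3_ne V))]
  have hw00 : w0 ≠ 0 := by
    intro h
    rw [h, map_zero] at vw0
    exact zero_ne_one vw0
  have hy00 : y0 ≠ 0 := by rw [hyw]; exact mul_ne_zero hw00 h3K
  -- the big field
  have hy0M : y0 ∈ RFE (idl (A := A) (B := B) (3 ^ (n + 1) * f * a)) := by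
    refine (tm_FAC tm_TRA A B hring).1 _ _ ?_ hy0
    rw [Ideal.span_singleton_le_span_singleton]
    exact ⟨(a : OO A B), by push_cast; ring⟩
  have hw0M : w0 ∈ RFE (idl (A := A) (B := B) (3 ^ (n + 1) * f * a)) := by
    rw [hw0]
    exact div_mem hy0M (zpow_mem (ofNat_mem _ 3) K)
  have hNL0 : IsNE (⊤ : Ideal (OO A B)) (R.L R.i0) (R.om R.i0) := by
    have := R.nl R.i0
    rwa [R.b0] at this
  obtain ⟨F, β, vβ, hF, hσF⟩ := hSIG A B V hC hT hG (R.L R.i0) (R.om R.i0) u e lam hNL0 hgood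
    n f a hn hf3 hf2 hf ha0 hpa w0 hw0M vw0.le
  have hm0 : ((3 ^ (n + 1) * f : ℕ) : ℂ) ≠ 0 := by
    exact_mod_cast mul_ne_zero (pow_ne_zero _ (by norm_num : (3 : ℕ) ≠ 0)) (by omega : f ≠ 0)
  have h3n : ∀ mu ex eb : ℂ, ((3 ^ n * f * a : ℕ) : ℂ) * eb *
      (mu * (ex * (R.om R.i0 / (3 ^ (n + 1) * f : ℕ)))) = mu * ex * (eb * (a * R.om R.i0 / 3)) := by
    intro mu ex eb
    have h5 : ((3 ^ (n + 1) * f : ℕ) : ℂ) = 3 * ((3 ^ n * f : ℕ) : ℂ) := by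
      push_cast
      ring
    have h6 : ((3 ^ n * f * a : ℕ) : ℂ) = ((3 ^ n * f : ℕ) : ℂ) * a := by
      push_cast
      ring
    have h7 : ((3 ^ n * f : ℕ) : ℂ) ≠ 0 := by
      intro h
      rw [h5, h, mul_zero] at hm0
      exact hm0 rfl
    rw [h5, h6]
    field_simp
  -- the identity at the points `Y_b`
  have key : ∀ b : OO A B, b ∉ idl (A := A) (B := B) 3 →
      ∏ j, (∏ y ∈ X j, ThetaH (R.L y.1) (H y.1) (ptE R (3 ^ (n + 1) * f) y.1 y.2 +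
        muXE R y.1 * emb y.2 * (emb b * (a * R.om R.i0 / 3))) /
        ThetaH (R.L y.1) (H y.1) (ptE R (3 ^ (n + 1) * f) y.1 y.2)) ^ g j =
      (F (emb b * (a * R.om R.i0 / 3)) * w0⁻¹) ^ 3 := by
    intro b hb
    have hne : idl (A := A) (B := B) (3 ^ (n + 1) * f * a) ≠ ⊥ := by
      intro h
      rw [Ideal.span_singleton_eq_bot] at h
      have h2 := congrArg emb h
      rw [enat, ← hφ 0, map_zero] at h2
      push_cast at h2 hm0
      exact mul_ne_zero hm0 (by exact_mod_cast ha0) h2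
    have hcop : IsCoprime (sp (1 + ((3 ^ n * f * a : ℕ) : OO A B) * b))
        (idl (A := A) (B := B) (3 ^ (n + 1) * f * a)) := by
      rw [Ideal.isCoprime_span_singleton_iff]
      have h1 : IsCoprime (1 + ((3 ^ n * f * a : ℕ) : OO A B) * b)
          ((3 ^ n * f * a : ℕ) : OO A B) := ⟨1, -b, by ring⟩
      have h2 : IsCoprime (1 + ((3 ^ n * f * a : ℕ) : OO A B) * b) ((3 : ℕ) : OO A B) := by
        refine h1.of_isCoprime_of_dvd_right ?_
        obtain ⟨n', rfl⟩ : ∃ n', n = n' + 1 := ⟨n - 1, by omega⟩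
        exact ⟨((3 ^ n' * f * a : ℕ) : OO A B), by push_cast; ring⟩
      have h3 : ((3 ^ (n + 1) * f * a : ℕ) : OO A B) =
          ((3 : ℕ) : OO A B) * ((3 ^ n * f * a : ℕ) : OO A B) := by
        push_cast
        ring
      rw [h3]
      exact h2.mul_right h1
    obtain ⟨f', hf'⟩ := hf2
    have hne2 : idl (A := A) (B := B) (3 ^ (n + 1) * f * a) ≤ idl (A := A) (B := B) 2 := by
      refine Ideal.span_singleton_le_span_singleton.2 ⟨((3 ^ (n + 1) * f' * a : ℕ) : OO A B), ?_⟩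
      rw [hf']
      push_cast
      ring
    have hc2 : (1 + ((3 ^ n * f * a : ℕ) : OO A B) * b) - 1 ∈ idl (A := A) (B := B) 2 := by
      refine Ideal.mem_span_singleton'.2 ⟨((3 ^ n * f' * a : ℕ) : OO A B) * b, ?_⟩
      rw [hf']
      push_cast
      ring
    obtain ⟨σ, hσ⟩ := hG.sur _ hne hne2 _ hcop hc2
    have k1 := _root_.Pool.Agent.ME4.ONE.conj σ X g
      (fun y => ThetaH (R.L y.1) (H y.1) (ptE R (3 ^ (n + 1) * f) y.1 y.2))
      (fun y => ThetaH (R.L y.1) (H y.1) (ptE R (3 ^ (n + 1) * f) y.1 y.2 +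
        muXE R y.1 * emb y.2 * (emb b * (a * R.om R.i0 / 3)))) (fun j y hy => by
          obtain ⟨-, -, hz, hzm, hzL, -⟩ := hP j y hy
          have hNLi : NLE A B (R.L y.1) := ⟨_, _, R.nl y.1⟩
          have hzT : Tor (idl (A := A) (B := B) (3 ^ (n + 1) * f * a)) (R.L y.1)
              (ptE R (3 ^ (n + 1) * f) y.1 y.2) := by
            refine ((tm_TRA A B hring _ hNLi).2.2.2.2.1 _ _).2 ?_
            rw [enat]
            have h1 := nsmul_mem hzm a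
            rw [nsmul_eq_mul] at h1
            have h2 : ((3 ^ (n + 1) * f * a : ℕ) : ℂ) * ptE R (3 ^ (n + 1) * f) y.1 y.2 =
                (a : ℂ) * (((3 ^ (n + 1) * f : ℕ) : ℂ) * ptE R (3 ^ (n + 1) * f) y.1 y.2) := by
              push_cast
              ring
            rw [h2]
            exact h1
          obtain ⟨hmem, hθ⟩ := tm_GTH tm_TRA A B hring _ hNLi a (H y.1) (hH y.1)
            (idl (A := A) (B := B) (3 ^ (n + 1) * f * a)) (by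
              rw [Ideal.span_singleton_le_span_singleton]
              exact ⟨((3 ^ (n + 1) * f : ℕ) : OO A B), by push_cast; ring⟩) σ _ hσ (by
              rw [add_sub_cancel_left, Ideal.mem_span_singleton]
              exact ⟨((3 ^ n * f : ℕ) : OO A B) * b, by push_cast; ring⟩) _ hzT hzL
          refine ⟨hmem, hθ.trans ?_⟩
          congr 1
          rw [eadd, eone, emul, enat, add_mul, one_mul]
          congr 1
          rw [hz]
          exact h3n _ _ _) hy0M hy3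
    have k2 := _root_.Pool.Agent.ME4.ONE.conj3 σ K hy0M hw0M hyw
    rw [hσF b hb σ hσ hw0M] at k2
    simp only [Finset.prod_div_distrib, div_zpow]
    rw [← k1, ← hy3, k2, hyw]
    field_simp
  -- the identity on `E3`
  have hom0 : R.om R.i0 ≠ 0 := hNL0.om_ne
  have key2 : ∀ Y ∈ E3 (R.L R.i0),
      ∏ j, (∏ y ∈ X j, ThetaH (R.L y.1) (H y.1) (ptE R (3 ^ (n + 1) * f) y.1 y.2 +
        muXE R y.1 * emb y.2 * Y) /
        ThetaH (R.L y.1) (H y.1) (ptE R (3 ^ (n + 1) * f) y.1 y.2)) ^ g j =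
      (F Y * w0⁻¹) ^ 3 := by
    rintro Y ⟨hY3, hYL⟩
    obtain ⟨b', -, hb'⟩ := (hNL0.mem _).1 hY3
    obtain ⟨a', t, hat⟩ : ∃ a' t : ℤ, (a : ℤ) * a' = 1 + 3 * t := by
      have h4 : a % 3 = 1 ∨ a % 3 = 2 := by omega
      rcases h4 with h4 | h4
      · exact ⟨1, (a : ℤ) / 3, by omega⟩
      · exact ⟨2, (2 * (a : ℤ) - 1) / 3, by omega⟩
    obtain ⟨b, hbd⟩ : ∃ b : OO A B, b = (a' : OO A B) * b' := ⟨_, rfl⟩
    have eint : ∀ n : ℤ, emb ((n : ℤ) : OO A B) = n := fun n => by rw [← hφ, map_intCast]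
    have hYb : emb b * (a * R.om R.i0 / 3) = Y + R.om R.i0 * emb ((t : OO A B) * b') := by
      have h1 : (a : ℂ) * a' = 1 + 3 * t := by exact_mod_cast hat
      rw [hbd, emul, emul, eint, eint]
      linear_combination (emb b' * R.om R.i0 / 3) * h1 - (1 / 3) * hb'
    have hl : R.om R.i0 * emb ((t : OO A B) * b') ∈ (R.L R.i0).lattice :=
      (hNL0.mem _).2 ⟨_, trivial, rfl⟩
    have hb3 : b ∉ idl (A := A) (B := B) 3 := by
      intro h
      obtain ⟨b'', hb''⟩ := Ideal.mem_span_singleton.1 h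
      apply hYL
      have h1 : Y = R.om R.i0 * emb ((a : OO A B) * b'' - (t : OO A B) * b') := by
        have esub : ∀ x y : OO A B, emb (x - y) = emb x - emb y := fun x y => by
          rw [← hφ, map_sub, hφ, hφ]
        rw [hb'', emul, enat] at hYb
        rw [esub, emul, enat]
        push_cast at hYb
        linear_combination -hYb
      rw [h1]
      exact (hNL0.mem _).2 ⟨_, trivial, rfl⟩
    have h2 := key b hb3
    rw [hYb] at h2
    obtain ⟨-, hs, hr⟩ := hper Y ⟨hY3, hYL⟩ _ hl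
    have hFY : F (Y + R.om R.i0 * emb ((t : OO A B) * b')) = F Y := by
      obtain ⟨P, Q, -, -, hPQ, -⟩ := hF
      rw [hPQ _ (hper Y ⟨hY3, hYL⟩ _ hl).1, hPQ _ ⟨hY3, hYL⟩, hs, hr]
    rw [hFY] at h2
    rw [← h2]
    refine Finset.prod_congr rfl fun j _ => ?_
    refine congrArg (fun t : ℂ => t ^ g j) ?_
    refine Finset.prod_congr rfl fun y hy => ?_
    congr 1
    have h3 : ptE R (3 ^ (n + 1) * f) y.1 y.2 +
        muXE R y.1 * emb y.2 * (Y + R.om R.i0 * emb ((t : OO A B) * b')) =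
        (ptE R (3 ^ (n + 1) * f) y.1 y.2 + muXE R y.1 * emb y.2 * Y) +
        muXE R y.1 * emb y.2 * (R.om R.i0 * emb ((t : OO A B) * b')) := by ring
    rw [h3, _root_.Pool.Agent.ME4.ONE.theta_per _ _ _ _ ((hP j y hy).2.1 _ hl)]
  -- the comparison
  have hS := _root_.Pool.Agent.ME4.ONE.asm hALG hPRO hPts X g
    (fun y Y => ThetaH (R.L y.1) (H y.1) (ptE R (3 ^ (n + 1) * f) y.1 y.2 +
      muXE R y.1 * emb y.2 * Y) / ThetaH (R.L y.1) (H y.1) (ptE R (3 ^ (n + 1) * f) y.1 y.2))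
    (fun y => muXE R y.1 * emb y.2 * dlX (R.L y.1) a (ptE R (3 ^ (n + 1) * f) y.1 y.2) / u)
    (fun j y hy => (hP j y hy).2.2.2.2.2.2.2)
  obtain ⟨hcst, -, -, -, -, hmul, -⟩ := hALG _ _ _ _ _ _ hPts
  have hG' : _root_.Pool.Agent.NSE.Rep V (E3 (R.L R.i0)) (su (R.L R.i0) u e) (ru (R.L R.i0) u e)
      (fun Y => F Y * w0⁻¹) (w0 * w0⁻¹) (w0 * 0 + w0⁻¹ * β) :=
    hmul _ _ _ _ _ _ hF (hcst w0⁻¹ (by rw [map_inv₀, vw0, inv_one]))
  have hS' := (hPRO _ _ _ _ _ _ hPts).2.2 _ _ _ _ _ _ hG' key2 hS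
  -- replace `emb x` by `w x`
  have hdiff : (∑ j, (g j : ℂ) * ∑ y ∈ X j, w y.2 * muXE R y.1 *
      dlX (R.L y.1) a (ptE R (3 ^ (n + 1) * f) y.1 y.2)) / u =
      (∑ j, (g j : ℂ) * ∑ y ∈ X j, muXE R y.1 * emb y.2 *
        dlX (R.L y.1) a (ptE R (3 ^ (n + 1) * f) y.1 y.2) / u) +
      ∑ j, (g j : ℂ) * ∑ y ∈ X j, (w y.2 - emb y.2) * (muXE R y.1 *
        dlX (R.L y.1) a (ptE R (3 ^ (n + 1) * f) y.1 y.2) / u) := by
    rw [← Finset.sum_add_distrib, Finset.sum_div]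
    refine Finset.sum_congr rfl fun j _ => ?_
    rw [← mul_add, ← Finset.sum_add_distrib, mul_div_assoc, Finset.sum_div]
    congr 1
    refine Finset.sum_congr rfl fun y _ => ?_
    ring
  rw [hdiff]
  refine (V.valuation.map_add _ _).trans (max_le hS' ?_)
  refine V.valuation.map_sum_le fun j _ => ?_
  rw [map_mul]
  have vg : V.valuation ((g j : ℤ) : ℂ) ≤ 1 := (V.valuation_le_one_iff _).2 (intCast_mem V (g j))
  refine (mul_le_mul' vg (V.valuation.map_sum_le (g := V.valuation (3 : ℂ)) fun y hy => ?_)).trans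
    (one_mul _).le
  rw [map_mul]
  have h1 : V.valuation (muXE R y.1 * dlX (R.L y.1) a (ptE R (3 ^ (n + 1) * f) y.1 y.2) / u) ≤ 1 := by
    have h2 := (hP j y hy).2.2.2.2.2.2.1
    have h3 : muXE R y.1 * emb y.2 * dlX (R.L y.1) a (ptE R (3 ^ (n + 1) * f) y.1 y.2) / u =
        emb y.2 * (muXE R y.1 * dlX (R.L y.1) a (ptE R (3 ^ (n + 1) * f) y.1 y.2) / u) := by ring
    rwa [h3, map_mul, hC.unit _ (hP j y hy).1, one_mul] at h2
  exact (mul_le_mul' (hw.cong y.2) h1).trans (mul_one _).le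

end

end Pool.Agent.ME4


end

section

/-!
# MUX-NS, block EN, module MUL (helper83): the isogenies `μ_i x : L_(i0) → L_i` have degree prime to 3
-/

set_option autoImplicit false

namespace Pool.Agent.ME4

open _root_.MU3 _root_.Pool.Agent.MU3A _root_.Pool.Agent.MU3B _root_.Pool.Agent.MUX _root_.Pool.Agent.MUXU _root_.Pool.Agent.MUXE
open _root_.Pool.Agent.RI _root_.Pool.Agent.NS
open _root_.Pool.Agent.ME hiding ActE
open _root_.Pool.Agent.MEE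
open _root_.Pool.Agent.NSE (E3 su ru WL IntP Pts Rep Se_ALG Se_PRO Se_PUL Se_COE Se_GRN Se_LEG Se_TW3 Se_PTS Se_TPN Se_UNT Se_RAT Se_ISO Se_ADD Se_THN Se_BAS Se_NE1)

noncomputable section

theorem t4_MUL : S4_MUL := by
  intro A B V hC n ι R _ h3n i x hx
  have h := hC.cq
  have hnl := R.nl i
  have hnl0 := R.nl R.i0
  have hom : R.om i ≠ 0 := hnl.om_ne
  have hom0 : R.om R.i0 ≠ 0 := hnl0.om_ne
  have hN0 : nI (R.b i) ≠ 0 := nI_ne_zero h hnl.b_ne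
  have hNC : ((nI (R.b i) : ℕ) : ℂ) ≠ 0 := by exact_mod_cast hN0
  have hNb : ((nI (R.b i) : ℕ) : OO A B) ∈ R.b i := nI_mem h hnl.b_ne
  have hx0 : x ≠ 0 := by
    rintro rfl
    exact hx (Ideal.zero_mem _)
  have hex : emb x ≠ 0 := _root_.Pool.Agent.MUX.emb_ne_zero h hx0
  have hmu : muXE R i ≠ 0 := by
    unfold muXE
    exact div_ne_zero (mul_ne_zero hom hNC) hom0
  have hL0 : ∀ z, z ∈ (R.L R.i0).lattice ↔ ∃ x : OO A B, z = R.om R.i0 * emb x := by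
    intro z
    rw [hnl0.mem, R.b0]
    simp
  have h3 : Nat.Prime 3 := Nat.prime_three
  refine ⟨mul_ne_zero hmu hex, ?_, (nm x).natAbs * nI (R.b i), ?_, ?_⟩
  · intro u hu
    obtain ⟨y, rfl⟩ := (hL0 u).1 hu
    rw [hnl.mem]
    refine ⟨(nI (R.b i) : ℕ) * (x * y), (R.b i).mul_mem_right _ hNb, ?_⟩
    rw [_root_.Pool.Agent.MUX.emb_mul h, _root_.Pool.Agent.MUX.emb_mul h, _root_.Pool.Agent.MUX.emb_natCast h]
    unfold muXE
    field_simp
  · intro hd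
    rcases h3.dvd_mul.1 hd with h4 | h4
    · apply hC.nrm x hx
      exact Int.natCast_dvd.2 h4
    · have h5 : 3 ∣ Nat.gcd (nI (R.b i)) n := Nat.dvd_gcd h4 h3n
      rw [Nat.Coprime.gcd_eq_one (R.cop i)] at h5
      omega
  · intro z hz
    obtain ⟨y, -, hy⟩ := (hnl.mem _).1 hz
    rw [hL0]
    refine ⟨star x * y, ?_⟩
    have h1 : (nI (R.b i) : ℂ) * emb x * z = R.om R.i0 * emb y := by
      unfold muXE at hy
      field_simp at hy
      linear_combination hy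
    have h2 : (((nm x).natAbs : ℕ) : ℂ) = emb x * emb (star x) := by
      have h6 : (((nm x).natAbs : ℕ) : ℤ) = nm x := Int.natAbs_of_nonneg (nm_nonneg h x)
      rw [← _root_.Pool.Agent.MUX.emb_mul h, mul_star, _root_.Pool.Agent.MUX.emb_intCast h, ← Int.cast_natCast, h6]
    rw [_root_.Pool.Agent.MUX.emb_mul h]
    have h7 : (((nm x).natAbs : ℕ) : ℂ) * (nI (R.b i) : ℂ) * z =
        R.om R.i0 * (emb (star x) * emb y) := by
      rw [h2]
      linear_combination (emb (star x)) * h1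
    rw [← h7, Nat.cast_mul]

end

end Pool.Agent.ME4


end

section

/-!
# MUX-NS, block EN, module SIG: `Y ↦ σ_Y(w)` for `w` in the ray class field
-/

set_option autoImplicit false

open Polynomial

namespace Pool.Agent.ME4

open _root_.MU3 _root_.Pool.Agent.MU3A _root_.Pool.Agent.MU3B _root_.Pool.Agent.MUX _root_.Pool.Agent.MUXU _root_.Pool.Agent.MUXE
open _root_.Pool.Agent.RI _root_.Pool.Agent.NS
open _root_.Pool.Agent.ME hiding ActE
open _root_.Pool.Agent.MEE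
open _root_.Pool.Agent.NSE (E3 su ru WL IntP Pts Rep Se_ALG Se_PRO Se_PUL Se_COE Se_GRN Se_LEG Se_TW3 Se_PTS Se_TPN Se_UNT Se_RAT Se_ISO Se_ADD Se_THN Se_BAS Se_NE1)
open _root_.Pool.Agent.MUXV (GR InK tX)

noncomputable section

namespace SIG

variable {A B : ℤ}

/-- rational multiples of `om` in the lattice `om O` -/
theorem _root_.Pool.Agent.ME4.SIG.rat_mem (hR : RingE A B) {L : PeriodPair} {om : ℂ} (hL : IsNE (⊤ : Ideal (OO A B)) L om)
    (a : ℤ) {b : ℕ} (hb : b ≠ 0) : (a : ℂ) / b * om ∈ L.lattice ↔ (b : ℤ) ∣ a := by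
  obtain ⟨φ, hφ⟩ := hR.hom
  have hb0 : (b : ℂ) ≠ 0 := by exact_mod_cast hb
  rw [hL.mem]
  constructor
  · rintro ⟨x, -, hx⟩
    have h1 : (a : ℂ) = b * emb x := by
      have h2 : (a : ℂ) / b = emb x := by
        apply mul_right_cancel₀ hL.om_ne
        rw [hx, mul_comm]
      rw [← h2]
      field_simp
    have h3 : emb ((b : OO A B) * x - (a : OO A B)) = 0 := by
      rw [← hφ, map_sub, map_mul, map_natCast, map_intCast, hφ, h1, sub_self]
    have h4 := hR.inj0 _ h3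
    have h5 := congrArg QuadraticAlgebra.re h4
    have re_nat : ∀ n : ℕ, ((n : ℕ) : OO A B).re = n := fun n => rfl
    have im_nat : ∀ n : ℕ, ((n : ℕ) : OO A B).im = 0 := fun n => rfl
    have re_int : ∀ n : ℤ, ((n : ℤ) : OO A B).re = n := fun n => rfl
    rw [QuadraticAlgebra.re_sub, QuadraticAlgebra.re_mul, re_nat, im_nat, re_int] at h5
    refine ⟨x.re, ?_⟩
    have h6 : (b : ℤ) * x.re + A * 0 * x.im - a = 0 := h5
    linarith
  · rintro ⟨c, rfl⟩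
    refine ⟨(c : OO A B), Submodule.mem_top, ?_⟩
    rw [← hφ, map_intCast]
    push_cast
    field_simp

/-- polynomials over `V` -/
theorem intP_iff {V : ValuationSubring ℂ} {P : ℂ[X]} :
    IntP V P ↔ P ∈ Polynomial.liftsRing (algebraMap V ℂ) := by
  rw [← Polynomial.lifts_iff_liftsRing, Polynomial.lifts_iff_coeff_lifts]
  refine forall_congr' fun i => ?_
  rw [ValuationSubring.valuation_le_one_iff]
  constructor
  · intro h
    exact ⟨⟨_, h⟩, rfl⟩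
  · rintro ⟨c, hc⟩
    rw [← hc]
    exact c.2

theorem _root_.Pool.Agent.ME4.SIG.intP_sum {V : ValuationSubring ℂ} {N : ℕ} (a : Fin N → ℂ) (c : ℂ)
    (ha : ∀ i, V.valuation (a i) ≤ 1) (hc : V.valuation c ≤ 1) :
    IntP V (∑ i, C (a i) * (X - C c) ^ (i : ℕ)) := by
  have hC : ∀ b : ℂ, V.valuation b ≤ 1 → C b ∈ Polynomial.liftsRing (algebraMap V ℂ) := by
    intro b hb
    rw [← intP_iff]
    intro i
    rw [coeff_C]
    split_ifs
    · exact hb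
    · rw [map_zero]; exact zero_le
  rw [intP_iff]
  refine sum_mem fun i _ => mul_mem (hC _ (ha i)) (pow_mem (sub_mem ?_ (hC _ hc)) _)
  rw [← intP_iff]
  intro i
  rw [coeff_X]
  split_ifs
  · rw [map_one]
  · rw [map_zero]; exact zero_le

end SIG

open _root_.Pool.Agent.ME4.SIG in
theorem t4_SIG (h1 : Se_ALG) (h2 : Se_PRO) (h3 : Se_GRN) (h4 : Se_LEG) (h5 : Se_PTS)
    (h6 : Se_TPN) (h7 : Se_ADD) (h8 : S4_UNR) (h9 : S4_DEG) (h10 : Se_BAS) : S4_SIG := by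
  intro A B V hC hT hG L om u e lam hL hgood n f a hn hf h2f h3f ha h3a w hw hvw
  have h2fa : 2 ∣ f * a := h2f.mul_right a
  have hR := hC.ring
  obtain ⟨φ, hφ⟩ := hR.hom
  have hmul : ∀ x y : OO A B, emb (x * y) = emb x * emb y := fun x y => by
    rw [← hφ, map_mul, hφ, hφ]
  have hadd : ∀ x y : OO A B, emb (x + y) = emb x + emb y := fun x y => by
    rw [← hφ, map_add, hφ, hφ]
  have hone : emb (1 : OO A B) = 1 := by rw [← hφ, map_one]
  have hnat : ∀ k : ℕ, emb ((k : ℕ) : OO A B) = k := fun k => by rw [← hφ, map_natCast]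
  have hLn : NLE A B L := ⟨⊤, om, hL⟩
  have hom0 := hL.om_ne
  have hv3 := hC.v3
  have hf0 : f ≠ 0 := by omega
  have hfa0 : f * a ≠ 0 := Nat.mul_ne_zero hf0 ha
  have h3fa : ¬ 3 ∣ f * a := fun h => by
    rcases (Nat.Prime.dvd_mul (by norm_num)).1 h with h | h
    · exact h3f h
    · exact h3a h
  have hm0' : 3 ^ (n + 1) * f * a ≠ 0 := by positivity
  have hne : ∀ k : ℕ, k ≠ 0 → idl (A := A) (B := B) k ≠ ⊥ := by
    intro k hk h
    rw [Ideal.span_singleton_eq_bot] at h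
    apply hk
    have h' := hnat k
    rw [h, ← hφ, map_zero] at h'
    exact_mod_cast h'.symm
  -- the fields
  have hmm : idl (A := A) (B := B) (3 ^ (n + 1) * f * a) ≤ idl (f * a) := by
    rw [Ideal.span_singleton_le_span_singleton]
    refine ⟨((3 ^ (n + 1) : ℕ) : OO A B), ?_⟩
    push_cast; ring
  obtain ⟨c1, c2, c3, c4, c5⟩ := Pool.Agent.MEE.tm_FAC Pool.Agent.MEE.tm_TRA A B hR
  have hle := c1 _ _ hmm
  obtain ⟨ξ, G⟩ := h3 V L u e lam hgood hv3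
  obtain ⟨hP, -⟩ := h5 V L u e lam hgood hv3
  obtain ⟨t1, t2⟩ := h6 V L u e lam hgood hv3
  obtain ⟨w₁, w₂, hw₁, hw₁L, hw₂, hw₂L, he, hu2, hxw⟩ := h4 V L u e lam hgood hv3
  -- torsion points
  have hTor : ∀ (k : ℕ) (z : ℂ), (k : ℂ) * z ∈ L.lattice → Tor (idl (A := A) (B := B) k) L z := by
    intro k z hz x hx
    obtain ⟨y, rfl⟩ := Ideal.mem_span_singleton'.1 hx
    rw [hmul, hnat, mul_assoc]
    obtain ⟨c, -, hc⟩ := (hL.mem _).1 hz
    exact (hL.mem _).2 ⟨y * c, Submodule.mem_top, by rw [hc, hmul]; ring⟩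
  have hint : ∀ (k : ℤ) (z : ℂ), z ∈ L.lattice → (k : ℂ) * z ∈ L.lattice := by
    intro k z hz
    simpa [zsmul_eq_mul] using L.lattice.smul_mem k hz
  obtain ⟨f', hf'⟩ := h2f
  have htwo : ∀ z : ℂ, 2 * z ∈ L.lattice → Tor (idl (A := A) (B := B) (f * a)) L z := by
    intro z hz
    apply hTor
    have h11 := hint ((f' * a : ℕ) : ℤ) _ hz
    have h12 : ((f * a : ℕ) : ℂ) * z = (((f' * a : ℕ) : ℤ) : ℂ) * (2 * z) := by
      rw [hf']; push_cast; ring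
    rw [h12]; exact h11
  have hx1 : xnE L w₁ ∈ RFE (idl (A := A) (B := B) (f * a)) := (c2 _ L hLn).2 _ (htwo _ hw₁) hw₁L
  have hx2 : xnE L w₂ ∈ RFE (idl (A := A) (B := B) (f * a)) := (c2 _ L hLn).2 _ (htwo _ hw₂) hw₂L
  have heM : e ∈ RFE (idl (A := A) (B := B) (f * a)) := by
    have h11 : e = xnE L w₁ + ((0 : ℚ) : ℂ) := by rw [← he]; unfold xnE; push_cast; ring
    rw [h11]
    refine add_mem hx1 ?_
    exact SubfieldClass.ratCast_mem _ _
  have huM : u ^ 2 ∈ RFE (idl (A := A) (B := B) (f * a)) := by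
    have h11 : u ^ 2 = xnE L w₂ - xnE L w₁ := by rw [← hu2]; unfold xnE; ring
    rw [h11]
    exact sub_mem hx2 hx1
  -- the points
  have hcop : IsCoprime ((3 ^ (n + 1) : ℕ) : ℤ) (f : ℤ) := by
    rw [Nat.isCoprime_iff_coprime]
    exact Nat.Coprime.pow_left _ ((Nat.Prime.coprime_iff_not_dvd (by norm_num)).2 h3f)
  obtain ⟨α, β, hαβ⟩ := hcop
  push_cast at hαβ
  obtain ⟨P₀, hP₀⟩ : ∃ z, z = (α : ℂ) / (f : ℕ) * om := ⟨_, rfl⟩
  obtain ⟨P₁, hP₁⟩ : ∃ z, z = (β : ℂ) / ((3 ^ (n + 1) : ℕ) : ℂ) * om := ⟨_, rfl⟩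
  obtain ⟨Pt, hPt⟩ : ∃ z, z = om / ((3 ^ (n + 1) * f : ℕ) : ℂ) := ⟨_, rfl⟩
  have hfc : (f : ℂ) ≠ 0 := by exact_mod_cast hf0
  have h3c : (3 : ℂ) ^ (n + 1) ≠ 0 := pow_ne_zero _ (by norm_num)
  have hsum : P₀ + P₁ = Pt := by
    have h11 : (α : ℂ) * 3 ^ (n + 1) + β * f = 1 := by exact_mod_cast hαβ
    rw [hP₀, hP₁, hPt]
    push_cast
    field_simp
    linear_combination h11
  have hfP₀ : (f : ℂ) * P₀ ∈ L.lattice := by
    have h11 : (f : ℂ) * P₀ = (((f : ℤ) * α : ℤ) : ℂ) / ((f : ℕ) : ℂ) * om := by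
      rw [hP₀]; push_cast; ring
    rw [h11, _root_.Pool.Agent.ME4.SIG.rat_mem hR hL _ hf0]
    exact dvd_mul_right _ _
  have h2P₀ : 2 * P₀ ∉ L.lattice := by
    have h11 : 2 * P₀ = ((2 * α : ℤ) : ℂ) / ((f : ℕ) : ℂ) * om := by
      rw [hP₀]; push_cast; ring
    rw [h11, _root_.Pool.Agent.ME4.SIG.rat_mem hR hL _ hf0]
    intro h12
    have h13 : IsCoprime (f : ℤ) α := ⟨β, 3 ^ (n + 1), by linear_combination hαβ⟩
    have h14 := h13.dvd_of_dvd_mul_right h12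
    have h15 := Int.le_of_dvd (by norm_num) h14
    omega
  have hP₀L : P₀ ∉ L.lattice := fun h => h2P₀ (by rw [two_mul]; exact add_mem h h)
  have hP₀E : ¬ InK V L (xu L u e) P₀ := fun h => hP₀L ((t1 f h3f).2 P₀ hfP₀ h)
  have h2P₀E : ¬ InK V L (xu L u e) (2 * P₀) := fun h => h2P₀ ((t1 f h3f).2 _ (by
    have h11 : (f : ℂ) * (2 * P₀) = f * P₀ + f * P₀ := by ring
    rw [h11]; exact add_mem hfP₀ hfP₀) h)
  have h3P₁ : (3 : ℂ) ^ (n + 1) * P₁ ∈ L.lattice := by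
    have h11 : (3 : ℂ) ^ (n + 1) * P₁ =
        ((((3 ^ (n + 1) : ℕ) : ℤ) * β : ℤ) : ℂ) / ((3 ^ (n + 1) : ℕ) : ℂ) * om := by
      rw [hP₁]; push_cast; ring
    rw [h11, _root_.Pool.Agent.ME4.SIG.rat_mem hR hL _ (by positivity)]
    exact dvd_mul_right _ _
  have h3P₁' : (3 : ℂ) ^ n * P₁ ∉ L.lattice := by
    have h11 : (3 : ℂ) ^ n * P₁ = (β : ℂ) / ((3 : ℕ) : ℂ) * om := by
      rw [hP₁]; push_cast; field_simp; ring
    rw [h11, _root_.Pool.Agent.ME4.SIG.rat_mem hR hL _ (by norm_num)]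
    intro h12
    have h13 : (3 : ℤ) ∣ 1 := by
      rw [← hαβ]
      refine dvd_add (Dvd.dvd.mul_left (dvd_pow_self 3 (Nat.succ_ne_zero n)) _)
        (Dvd.dvd.mul_right ?_ _)
      exact_mod_cast h12
    omega
  obtain ⟨hP₁E, hxP₁, hP₁v⟩ := t2 n P₁ h3P₁ h3P₁'
  have hP₁L : P₁ ∉ L.lattice := fun h => h3P₁' (by
    have := hint (3 ^ n) _ h
    push_cast at this
    exact this)
  obtain ⟨hPE, -⟩ := Pool.Agent.MUXV.near G hP₀E hP₁E hP₁L
  rw [hsum] at hPE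
  have hPL : Pt ∉ L.lattice := fun h => hPE (Or.inl h)
  -- the uniformiser
  obtain ⟨π, hπ⟩ : ∃ z, z = xu L u e Pt - xu L u e P₀ := ⟨_, rfl⟩
  have hvπ : V.valuation π ^ (8 * 9 ^ n) = V.valuation (3 : ℂ) := by
    have h11 := (Pool.Agent.MUXV.tq_YUN V (WL lam) L (xu L u e) (yu L u) ξ G P₀ hP₀E h2P₀E).2 P₁
      hP₁E hP₁L
    rw [hsum, ← hπ] at h11
    obtain ⟨-, h12, h13⟩ := Pool.Agent.MUXV.v_tX_lt G hP₁E hP₁L
    have h14 : V.valuation (su L u e P₁) = V.valuation (tX (xu L u e) (yu L u) P₁) ^ 2 := by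
      unfold su
      rw [map_inv₀]
      exact inv_eq_of_mul_eq_one_right h13
    rw [h14, ← pow_mul] at hP₁v
    rw [h11, ← hP₁v]
    congr 1
    ring
  have hPM : xnE L Pt ∈ RFE (idl (A := A) (B := B) (3 ^ (n + 1) * f * a)) := by
    refine (c2 _ L hLn).2 _ (hTor _ _ ?_) hPL
    have h11 : ((3 ^ (n + 1) * f * a : ℕ) : ℂ) * Pt = ((a : ℤ) : ℂ) / ((1 : ℕ) : ℂ) * om := by
      rw [hPt]; push_cast; field_simp
    rw [h11, _root_.Pool.Agent.ME4.SIG.rat_mem hR hL _ one_ne_zero]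
    exact ⟨a, by simp⟩
  have hP₀M : xnE L P₀ ∈ RFE (idl (A := A) (B := B) (f * a)) := by
    refine (c2 _ L hLn).2 _ (hTor _ _ ?_) hP₀L
    have h11 : ((f * a : ℕ) : ℂ) * P₀ = ((a : ℤ) : ℂ) * (f * P₀) := by push_cast; ring
    rw [h11]
    exact hint _ _ hfP₀
  have hxx : ∀ z : ℂ, xu L u e z = (xnE L z + ((0 : ℚ) : ℂ) - e) / u ^ 2 := by
    intro z; unfold xu xnE; push_cast; ring
  have hx0M : xu L u e P₀ ∈ RFE (idl (A := A) (B := B) (f * a)) := by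
    rw [hxx]
    exact div_mem (sub_mem (add_mem hP₀M (SubfieldClass.ratCast_mem _ _)) heM) huM
  have hxPM : xu L u e Pt ∈ RFE (idl (A := A) (B := B) (3 ^ (n + 1) * f * a)) := by
    rw [hxx]
    exact div_mem (sub_mem (add_mem hPM (SubfieldClass.ratCast_mem _ _)) (hle heM)) (hle huM)
  have hπM : π ∈ RFE (idl (A := A) (B := B) (3 ^ (n + 1) * f * a)) := by
    rw [hπ]; exact sub_mem hxPM (hle hx0M)
  have := hG.fin _ (hne _ hfa0)
  have := hG.fin _ (hne _ hm0')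
  have hdeg := h9 A B V hC hG n (f * a) hfa0 h2fa h3fa
  rw [← mul_assoc] at hdeg
  obtain ⟨c, hc1, hc2⟩ := h10 (kk A B) ℂ V.ValueGroup V.valuation
    (RFE (idl (A := A) (B := B) (f * a))) (RFE (idl (A := A) (B := B) (3 ^ (n + 1) * f * a)))
    (8 * 9 ^ n) 3 π hle (by positivity) hdeg (by norm_num) hv3
    (h8 A B V hC hT (f * a) hfa0 h2fa h3fa) hπM hvπ w hw hvw
  -- the function
  have hvx0 : V.valuation (xu L u e P₀) ≤ 1 := (Pool.Agent.MUXV.int_X hP₀E).2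
  obtain ⟨Pol, hPol⟩ : ∃ Q : ℂ[X], Q = ∑ i : Fin (8 * 9 ^ n),
    C ((c i : ℂ)) * (X - C (xu L u e P₀)) ^ (i : ℕ) := ⟨_, rfl⟩
  have hPolI : IntP V Pol := by
    rw [hPol]; exact _root_.Pool.Agent.ME4.SIG.intP_sum _ _ hc1 hvx0
  have hPolE : ∀ t : ℂ, Pol.eval t =
      ∑ i : Fin (8 * 9 ^ n), (c i : ℂ) * (t - xu L u e P₀) ^ (i : ℕ) := by
    intro t
    rw [hPol, eval_finsetSum]
    refine Finset.sum_congr rfl fun i _ => ?_
    simp
  have hPolw : Pol.eval (xu L u e Pt) = w := by rw [hPolE, ← hπ, ← hc2]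
  have hRep := (h2 V (E3 L) (su L u e) (ru L u e) _ _ hP).1 _ _ _ Pol
    (h7 V L u e lam hgood hv3 Pt hPE) hPolI
  have hβ := ((h1 V (E3 L) (su L u e) (ru L u e) _ _ hP).2.2.2.2.2.2.2.1 _ _ _ hRep).2.1
  rw [hPolw] at hRep
  refine ⟨_, _, hβ, hRep, ?_⟩
  intro y _ σ hσ hw'
  have hc4 : ∀ (t : ℂ) (ht : t ∈ RFE (idl (A := A) (B := B) (3 ^ (n + 1) * f * a))),
      t ∈ RFE (idl (A := A) (B := B) (f * a)) → (σ ⟨t, ht⟩ : ℂ) = t := by
    intro t ht ht'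
    refine c4 _ _ hmm (_root_.Pool.Agent.MU3A.em σ) _ hσ ?_ t ht ht'
    rw [Ideal.mem_span_singleton']
    refine ⟨((3 ^ n : ℕ) : OO A B) * y, ?_⟩
    push_cast; ring
  have hemb3 : emb (1 + ((3 ^ n * f * a : ℕ) : OO A B) * y) * Pt = Pt + emb y * (a * om / 3) := by
    rw [hadd, hone, hmul, hnat, hPt]
    push_cast
    field_simp
    ring
  have hTorPt : Tor (idl (A := A) (B := B) (3 ^ (n + 1) * f * a)) L Pt := by
    refine hTor _ _ ?_
    have h11 : ((3 ^ (n + 1) * f * a : ℕ) : ℂ) * Pt = ((a : ℤ) : ℂ) / ((1 : ℕ) : ℂ) * om := by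
      rw [hPt]; push_cast; field_simp
    rw [h11, _root_.Pool.Agent.ME4.SIG.rat_mem hR hL _ one_ne_zero]
    exact ⟨a, by simp⟩
  have hσx : (σ ⟨xnE L Pt, hPM⟩ : ℂ) = xnE L (Pt + emb y * (a * om / 3)) := by
    rw [← hemb3]
    exact ((hσ.2 L hLn).2 Pt hTorPt hPL).2 hPM
  have hrat : ∀ q : ℚ, ((q : RFE (idl (A := A) (B := B) (3 ^ (n + 1) * f * a))) : ℂ) = (q : ℂ) := by
    intro q; rfl
  have hσπ : (σ ⟨π, hπM⟩ : ℂ) = xu L u e (Pt + emb y * (a * om / 3)) - xu L u e P₀ := by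
    have h11 : (⟨π, hπM⟩ : RFE (idl (A := A) (B := B) (3 ^ (n + 1) * f * a))) =
        (⟨xnE L Pt, hPM⟩ + (((0 : ℚ)) : RFE (idl (A := A) (B := B) (3 ^ (n + 1) * f * a))) -
          ⟨e, hle heM⟩) / ⟨u ^ 2, hle huM⟩ - ⟨xu L u e P₀, hle hx0M⟩ := by
      apply Subtype.ext
      show π = _
      rw [hπ, hxx Pt]
      rfl
    rw [h11, map_sub, map_div₀, map_sub, map_add, map_ratCast]
    show ((σ ⟨xnE L Pt, hPM⟩ : ℂ) + ((0 : ℚ) : ℂ) - (σ ⟨e, hle heM⟩ : ℂ)) /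
      (σ ⟨u ^ 2, hle huM⟩ : ℂ) - (σ ⟨xu L u e P₀, hle hx0M⟩ : ℂ) = _
    rw [hσx, hc4 _ _ heM, hc4 _ _ huM, hc4 _ _ hx0M, ← hxx]
  have hww : (⟨w, hw'⟩ : RFE (idl (A := A) (B := B) (3 ^ (n + 1) * f * a))) =
      ∑ i : Fin (8 * 9 ^ n), ⟨(c i : ℂ), hle (c i).2⟩ * ⟨π, hπM⟩ ^ (i : ℕ) := by
    apply Subtype.ext
    rw [IntermediateField.coe_sum]
    show w = _
    rw [hc2]
    rfl
  rw [hww, map_sum]
  show _ = Pol.eval (xu L u e (Pt + emb y * (a * om / 3)))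
  rw [hPolE, IntermediateField.coe_sum]
  refine Finset.sum_congr rfl fun i _ => ?_
  rw [map_mul, map_pow]
  show (σ ⟨(c i : ℂ), hle (c i).2⟩ : ℂ) * (σ ⟨π, hπM⟩ : ℂ) ^ (i : ℕ) = _
  rw [hc4 _ _ (c i).2, hσπ]

end

end Pool.Agent.ME4


end

section

/-!
# MUX-NS, block EN: module RAM (helper75), from `RN_RAM.lean` (helper44) with `P = (3)`, `ϖ = 3`
-/

set_option autoImplicit false

open Polynomial

namespace Pool.Agent.ME4

open _root_.MU3 _root_.Pool.Agent.MU3A _root_.Pool.Agent.MU3B _root_.Pool.Agent.MUX _root_.Pool.Agent.MUXU _root_.Pool.Agent.MUXE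
open _root_.Pool.Agent.RI _root_.Pool.Agent.NS
open _root_.Pool.Agent.ME hiding ActE
open _root_.Pool.Agent.MEE
open _root_.Pool.Agent.NSE (E3 su ru WL IntP Pts Rep Se_ALG Se_PRO Se_PUL Se_COE Se_GRN Se_LEG Se_TW3 Se_PTS Se_TPN Se_UNT Se_RAT Se_ISO Se_ADD Se_THN Se_BAS Se_NE1)

theorem t4_RAM : S4_RAM := by
  intro A B V hC F _ _ htriv y hy hy0
  obtain ⟨⟨φ, hφ⟩, hinj, -, -, -⟩ := hC.ring
  have h3e : emb (((3 : ℕ) : OO A B)) = (3 : ℂ) := by
    rw [← hφ, map_natCast]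
    norm_num
  have h3ne : (3 : ℂ) ≠ 0 := by norm_num
  have hmul : ∀ z : OO A B, emb (((3 : ℕ) : OO A B) * z) = 3 * emb z := by
    intro z
    rw [← hφ, map_mul, hφ, hφ, h3e]
  have hlt : ∀ z : OO A B, V.valuation (emb (((3 : ℕ) : OO A B) * z)) < 1 := by
    intro z
    rw [hmul, map_mul]
    exact mul_lt_one_of_lt_of_le hC.v3 (hC.int z)
  have hmem3 : ((3 : ℕ) : OO A B) ∈ idl (A := A) (B := B) 3 := Ideal.mem_span_singleton_self _
  have h30 : ((3 : ℕ) : OO A B) ≠ 0 := by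
    intro h
    have h1 := congrArg emb h
    rw [h3e, ← hφ 0, map_zero] at h1
    exact h3ne h1
  have hP0 : idl (A := A) (B := B) 3 ≠ ⊥ := by
    intro h
    rw [h] at hmem3
    exact h30 (by simpa using hmem3)
  have hOver : OverI V (idl (A := A) (B := B) 3) := by
    intro x
    rw [ValuationSubring.mem_nonunits_iff]
    constructor
    · intro h
      by_contra hx
      rw [hC.unit x hx] at h
      exact lt_irrefl _ h
    · intro h
      obtain ⟨z, rfl⟩ := Ideal.mem_span_singleton'.mp h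
      rw [mul_comm]
      exact hlt z
  have hsq : ((3 : ℕ) : OO A B) ∉ (idl (A := A) (B := B) 3) ^ 2 := by
    intro h
    rw [Ideal.span_singleton_pow] at h
    obtain ⟨z, hz⟩ := Ideal.mem_span_singleton'.mp h
    have h1 := congrArg emb hz
    have h2 : emb (z * ((3 : ℕ) : OO A B) ^ 2) = emb z * 9 := by
      rw [← hφ, map_mul, map_pow, hφ, hφ, h3e]
      norm_num
    rw [h2, h3e] at h1
    have h4 : (1 : ℂ) = 3 * emb z := by linear_combination (-1 / 3 : ℂ) * h1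
    have h5 := congrArg V.valuation h4
    rw [map_one, map_mul] at h5
    have h6 := mul_lt_one_of_lt_of_le hC.v3 (hC.int z)
    rw [← h5] at h6
    exact lt_irrefl _ h6
  obtain ⟨k, hk⟩ := Pool.Agent.NSR.tr_RAM A B V (idl (A := A) (B := B) 3) ((3 : ℕ) : OO A B) hC.cq
    hC.max.isPrime hP0 hOver hmem3 hsq F htriv y hy hy0
  exact ⟨k, by rw [hk, h3e]⟩

end Pool.Agent.ME4


end

section

/-!
# MUX-NS, block EN: module RAM (helper75), from `RN_RAM.lean` (helper44) with `P = (3)`, `ϖ = 3`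
-/

set_option autoImplicit false

open Polynomial

namespace Pool.Agent.NSE

open _root_.MU3 _root_.Pool.Agent.MU3A _root_.Pool.Agent.MU3B _root_.Pool.Agent.MUX _root_.Pool.Agent.MUXU _root_.Pool.Agent.MUXE
open _root_.Pool.Agent.RI _root_.Pool.Agent.NS

theorem te_RAM : Se_RAM := by
  intro A B V hC F _ _ htriv y hy hy0
  obtain ⟨⟨φ, hφ⟩, hinj, -, -, -⟩ := hC.ring
  have h3e : emb (((3 : ℕ) : OO A B)) = (3 : ℂ) := by
    rw [← hφ, map_natCast]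
    norm_num
  have h3ne : (3 : ℂ) ≠ 0 := by norm_num
  have hmul : ∀ z : OO A B, emb (((3 : ℕ) : OO A B) * z) = 3 * emb z := by
    intro z
    rw [← hφ, map_mul, hφ, hφ, h3e]
  have hlt : ∀ z : OO A B, V.valuation (emb (((3 : ℕ) : OO A B) * z)) < 1 := by
    intro z
    rw [hmul, map_mul]
    exact mul_lt_one_of_lt_of_le hC.v3 (hC.int z)
  have hmem3 : ((3 : ℕ) : OO A B) ∈ idl (A := A) (B := B) 3 := Ideal.mem_span_singleton_self _
  have h30 : ((3 : ℕ) : OO A B) ≠ 0 := by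
    intro h
    have h1 := congrArg emb h
    rw [h3e, ← hφ 0, map_zero] at h1
    exact h3ne h1
  have hP0 : idl (A := A) (B := B) 3 ≠ ⊥ := by
    intro h
    rw [h] at hmem3
    exact h30 (by simpa using hmem3)
  have hOver : OverI V (idl (A := A) (B := B) 3) := by
    intro x
    rw [ValuationSubring.mem_nonunits_iff]
    constructor
    · intro h
      by_contra hx
      rw [hC.unit x hx] at h
      exact lt_irrefl _ h
    · intro h
      obtain ⟨z, rfl⟩ := Ideal.mem_span_singleton'.mp h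
      rw [mul_comm]
      exact hlt z
  have hsq : ((3 : ℕ) : OO A B) ∉ (idl (A := A) (B := B) 3) ^ 2 := by
    intro h
    rw [Ideal.span_singleton_pow] at h
    obtain ⟨z, hz⟩ := Ideal.mem_span_singleton'.mp h
    have h1 := congrArg emb hz
    have h2 : emb (z * ((3 : ℕ) : OO A B) ^ 2) = emb z * 9 := by
      rw [← hφ, map_mul, map_pow, hφ, hφ, h3e]
      norm_num
    rw [h2, h3e] at h1
    have h4 : (1 : ℂ) = 3 * emb z := by linear_combination (-1 / 3 : ℂ) * h1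
    have h5 := congrArg V.valuation h4
    rw [map_one, map_mul] at h5
    have h6 := mul_lt_one_of_lt_of_le hC.v3 (hC.int z)
    rw [← h5] at h6
    exact lt_irrefl _ h6
  obtain ⟨k, hk⟩ := Pool.Agent.NSR.tr_RAM A B V (idl (A := A) (B := B) 3) ((3 : ℕ) : OO A B) hC.cq
    hC.max.isPrime hP0 hOver hmem3 hsq F htriv y hy hy0
  exact ⟨k, by rw [hk, h3e]⟩

end Pool.Agent.NSE


end

section

/-!
# MUX-NS, block EN: module PRO, polynomials, products, quotients and cubes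
-/

set_option autoImplicit false

open Polynomial

namespace Pool.Agent.NSE

open _root_.MU3 _root_.Pool.Agent.MU3A _root_.Pool.Agent.MU3B _root_.Pool.Agent.MUX _root_.Pool.Agent.MUXU _root_.Pool.Agent.MUXE
open _root_.Pool.Agent.RI _root_.Pool.Agent.NS
open _root_.Pool.Agent.MUXV (GR InK tX)

noncomputable section

namespace PRO

variable {V : ValuationSubring ℂ} {S : Set ℂ} {s r : ℂ → ℂ} {a2 a4 : ℂ}

/-- change of the form of the numbers -/
lemma cong (h : Se_ALG) (hp : Pts V S s r a2 a4) {F : ℂ → ℂ} {α β : ℂ} (hF : Rep V S s r F α β)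
    {G : ℂ → ℂ} {α' β' : ℂ} (hG : ∀ Y, G Y = F Y) (hα : α' = α) (hβ : β' = β) :
    Rep V S s r G α' β' := by
  obtain ⟨-, -, -, h4, -⟩ := h V S s r a2 a4 hp
  refine h4 F G α β α' β' hF (fun Y _ => hG Y) ?_ ?_
  · rw [hα, sub_self, map_zero]
    exact zero_le'
  · rw [hβ, sub_self, map_zero]
    exact zero_le'

lemma poly (h : Se_ALG) (hp : Pts V S s r a2 a4) (F : ℂ → ℂ) (α β : ℂ)
    (hF : Rep V S s r F α β) (P : ℂ[X]) : IntP V P →
      Rep V S s r (fun Y => P.eval (F Y)) (P.eval α) (β * (derivative P).eval α) := by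
  obtain ⟨h1, -, -, -, h5, h6, -⟩ := h V S s r a2 a4 hp
  induction P using Polynomial.recOnHorner with
  | M0 =>
    intro _
    refine cong h hp (h1 0 (by rw [map_zero]; exact zero_le')) ?_ ?_ ?_
    · intro Y; simp
    · simp
    · simp
  | MC P a h0 _ ih =>
    intro hI
    have hP : IntP V P := by
      intro i
      cases i with
      | zero => rw [h0, map_zero]; exact zero_le'
      | succ i =>
        have := hI (i + 1)
        rwa [coeff_add, coeff_C_succ, add_zero] at this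
    have ha : V.valuation a ≤ 1 := by
      have := hI 0
      rwa [coeff_add, coeff_C_zero, h0, zero_add] at this
    refine cong h hp (h5 _ _ _ _ _ _ (ih hP) (h1 a ha)) ?_ ?_ ?_
    · intro Y; simp
    · simp
    · simp
  | MX P _ ih =>
    intro hI
    have hP : IntP V P := by
      intro i
      have := hI (i + 1)
      rwa [coeff_mul_X] at this
    refine cong h hp (h6 _ _ _ _ _ _ (ih hP) hF) ?_ ?_ ?_
    · intro Y; simp
    · simp
    · simp only [derivative_mul, derivative_X, mul_one, eval_add, eval_mul, eval_X]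
      ring

lemma pow (h : Se_ALG) (hp : Pts V S s r a2 a4) (F : ℂ → ℂ) (c l : ℂ)
    (hF : Rep V S s r F c (c * l)) (n : ℕ) :
      Rep V S s r (fun Y => F Y ^ n) (c ^ n) (c ^ n * (n * l)) := by
  obtain ⟨h1, -, -, -, h5, h6, -⟩ := h V S s r a2 a4 hp
  induction n with
  | zero =>
    refine cong h hp (h1 1 (by rw [map_one])) ?_ ?_ ?_
    · intro Y; simp
    · simp
    · simp
  | succ n ih =>
    refine cong h hp (h6 _ _ _ _ _ _ ih hF) ?_ ?_ ?_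
    · intro Y; exact pow_succ _ _
    · exact pow_succ _ _
    · push_cast
      ring

lemma zpow (h : Se_ALG) (hp : Pts V S s r a2 a4) (F : ℂ → ℂ) (c l : ℂ)
    (hF : Rep V S s r F c (c * l)) (hc : V.valuation c = 1) (g : ℤ) :
      Rep V S s r (fun Y => F Y ^ g) (c ^ g) (c ^ g * (g * l)) := by
  obtain ⟨-, -, -, -, -, -, h7, -⟩ := h V S s r a2 a4 hp
  have hc0 : c ≠ 0 := by
    rintro rfl
    rw [map_zero] at hc
    exact zero_ne_one hc
  obtain ⟨n, rfl | rfl⟩ := g.eq_nat_or_neg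
  · refine cong h hp (pow h hp F c l hF n) ?_ ?_ ?_
    · intro Y; exact zpow_natCast _ _
    · exact zpow_natCast _ _
    · rw [zpow_natCast]
      push_cast
      ring
  · have h8 := (h7 _ _ _ (pow h hp F c l hF n) (by rw [map_pow, hc, one_pow])).2
    refine cong h hp h8 ?_ ?_ ?_
    · intro Y
      rw [zpow_neg, zpow_natCast]
    · rw [zpow_neg, zpow_natCast]
    · rw [zpow_neg, zpow_natCast]
      have hcn : c ^ n ≠ 0 := pow_ne_zero _ hc0
      push_cast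
      field_simp

lemma prod (h : Se_ALG) (hp : Pts V S s r a2 a4) {J : Type} (T : Finset J) (F : J → ℂ → ℂ)
    (c l : J → ℂ) (g : J → ℤ) (hF : ∀ j, Rep V S s r (F j) (c j) (c j * l j))
    (hc : ∀ j, V.valuation (c j) = 1) :
      Rep V S s r (fun Y => ∏ j ∈ T, F j Y ^ g j) (∏ j ∈ T, c j ^ g j)
        ((∏ j ∈ T, c j ^ g j) * ∑ j ∈ T, (g j : ℂ) * l j) := by
  classical
  obtain ⟨h1, -, -, -, h5, h6, -⟩ := h V S s r a2 a4 hp
  induction T using Finset.induction_on with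
  | empty =>
    refine cong h hp (h1 1 (by rw [map_one])) ?_ ?_ ?_
    · intro Y; simp
    · simp
    · simp
  | insert a T ha ih =>
    refine cong h hp (h6 _ _ _ _ _ _ (zpow h hp (F a) (c a) (l a) (hF a) (hc a) (g a)) ih)
      ?_ ?_ ?_
    · intro Y; exact Finset.prod_insert ha
    · exact Finset.prod_insert ha
    · rw [Finset.prod_insert ha, Finset.sum_insert ha]
      ring

end PRO

theorem te_PRO (h : Se_ALG) : Se_PRO := by
  intro V S s r a2 a4 hp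
  refine ⟨fun F α β P hF hP => PRO.poly h hp F α β hF P hP, ?_, ?_⟩
  · intro J _ F c l g hF hc
    refine ⟨?_, PRO.prod h hp Finset.univ F c l g hF hc⟩
    rw [map_prod]
    refine Finset.prod_eq_one fun i _ => ?_
    rw [map_zpow₀, hc i, one_zpow]
  · intro F G α β α' β' hG hFG hF
    obtain ⟨-, -, -, h4, -, h6, -, h8, h9⟩ := h V S s r a2 a4 hp
    have h10 := h6 _ _ _ _ _ _ (h6 _ _ _ _ _ _ hG hG) hG
    have h11 : Rep V S s r F (α * α * α) (3 * (α ^ 2 * β)) := by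
      refine h4 _ F _ _ _ _ h10 (fun Y hY => ?_) ?_ ?_
      · rw [hFG Y hY]
        ring
      · rw [sub_self, map_zero]
        exact zero_le'
      · have e : 3 * (α ^ 2 * β) - (α * α * β + α * (α * β + α * β)) = 0 := by ring
        rw [e, map_zero]
        exact zero_le'
    have h12 := (h9 _ _ _ _ _ hF h11).2
    obtain ⟨hα, hβ, -⟩ := h8 _ _ _ hG
    have h13 : V.valuation (3 * (α ^ 2 * β)) ≤ V.valuation 3 := by
      rw [map_mul, map_mul, map_pow]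
      exact mul_le_of_le_one_right' (mul_le_one' (pow_le_one' hα 2) hβ)
    have e : β' = (β' - 3 * (α ^ 2 * β)) + 3 * (α ^ 2 * β) := by ring
    rw [e]
    exact V.valuation.map_add_le h12 h13

end

end Pool.Agent.NSE


end
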