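import Mathlib
import Pool.Agent.MVF.C034
import Pool.Agent.MVF.C049
import Pool.Agent.MVF.C057
import Pool.Agent.MVF.C063

/-! Parts: NS.E_UNR, NS.E_COE, NS.F_TPR, NS.F_MAIN, NS.F_DIS, NS.F_DEG -/

namespace Pool.Agent.NSE.COE
end Pool.Agent.NSE.COE
namespace Pool.Agent.NSER.DEG
end Pool.Agent.NSER.DEG
namespace Pool.Agent.NSER.DIS84
end Pool.Agent.NSER.DIS84
namespace Pool.Agent.NSER.TPR
end Pool.Agent.NSER.TPR

section

/-!
# MUX-NS, block EN, module UNR: `RF (f)` is unramified at `V` if `f` is prime to `3`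
-/

set_option autoImplicit false

open Polynomial

namespace Pool.Agent.NSE

open _root_.MU3 _root_.Pool.Agent.MU3A _root_.Pool.Agent.MU3B _root_.Pool.Agent.MUX _root_.Pool.Agent.MUXU _root_.Pool.Agent.MUXE
open _root_.Pool.Agent.RI _root_.Pool.Agent.NS
open _root_.Pool.Agent.MUXV (GR InK tX)

noncomputable section

namespace UNR

/-- extension of an automorphism of `RF m` to `ℂ` (as `CXW.extn` in `W_CXW.lean` of MUX) -/
lemma extn {A B : ℤ} (hT : TorX A B) {m : Ideal (OO A B)} (hm : m ≠ ⊥)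
    (σ : (RF m : IntermediateField (kk A B) ℂ) ≃ₐ[kk A B] RF m) :
    ∃ s : ℂ ≃+* ℂ, FixK A B s ∧ ∀ y : (RF m : IntermediateField (kk A B) ℂ),
      s y = ((σ y : (RF m : IntermediateField (kk A B) ℂ)) : ℂ) := by
  let D : IntermediateField ℚ ℂ :=
    (RF m : IntermediateField (kk A B) ℂ).restrictScalars ℚ
  have hkD : kk A B ≤ D := fun x hx =>
    (RF m : IntermediateField (kk A B) ℂ).algebraMap_mem ⟨x, hx⟩
  letI := algC hkD
  let f : D ≃+* D :=
    { toFun := fun y => σ y
      invFun := fun y => σ.symm y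
      left_inv := fun y => σ.symm_apply_apply y
      right_inv := fun y => σ.apply_symm_apply y
      map_mul' := fun x y => map_mul σ x y
      map_add' := fun x y => map_add σ x y }
  let τ : D ≃ₐ[kk A B] D := AlgEquiv.ofRingEquiv (f := f) (fun r => σ.commutes r)
  obtain ⟨s, hs, h1⟩ := hT.ext m hm D hkD (fun y hy => hy) τ
  exact ⟨s, hs, fun y => h1 ⟨y, y.2⟩⟩

lemma idl_ne {A B : ℤ} {f : ℕ} (hf : f ≠ 0) : idl (A := A) (B := B) f ≠ ⊥ := by
  intro h
  rw [Ideal.span_singleton_eq_bot] at h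
  have h1 := congrArg QuadraticAlgebra.re h
  rw [QuadraticAlgebra.re_natCast, QuadraticAlgebra.re_zero] at h1
  exact hf (by exact_mod_cast h1)

end UNR

/-- UNR. -/
theorem te_UNR (h : Se_RAM) : Se_UNR := by
  intro A B V hC hT f hf hf3
  have hm : idl (A := A) (B := B) f ≠ ⊥ := UNR.idl_ne hf
  have := hT.fin _ hm
  have := hT.gal _ hm
  refine h A B V hC (RF (idl (A := A) (B := B) f)) ?_
  intro σ hσ
  obtain ⟨s, hs, hsv⟩ := UNR.extn hT hm σ
  have h1 : ∀ y ∈ (RF (idl (A := A) (B := B) f) : IntermediateField (kk A B) ℂ), y ∈ V →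
      s y - y ∈ V.nonunits := by
    intro y hy hyV
    have h2 := hσ ⟨y, hy⟩ ((V.valuation_le_one_iff y).2 hyV)
    rw [ValuationSubring.mem_nonunits_iff, hsv ⟨y, hy⟩]
    exact h2
  have h2 := hC.iner f hf hf3 s hs h1
  apply AlgEquiv.ext
  intro y
  apply Subtype.ext
  rw [← hsv]
  exact h2 y y.2

end

end Pool.Agent.NSE


end

section

/-!
# MUX-NS, block EN, module COE (helper65): the coefficients of the Legendre model
-/

set_option autoImplicit false

open Polynomial

namespace Pool.Agent.NSE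

open _root_.MU3 _root_.Pool.Agent.MU3A _root_.Pool.Agent.MU3B _root_.Pool.Agent.MUX _root_.Pool.Agent.MUXU _root_.Pool.Agent.MUXE
open _root_.Pool.Agent.RI _root_.Pool.Agent.NS
open _root_.Pool.Agent.MUXV (GR InK tX)

noncomputable section

namespace COE

lemma hasDeriv (L : PeriodPair) {z : ℂ} (hz : z ∉ L.lattice) :
    HasDerivAt L.weierstrassP (L.derivWeierstrassP z) z := by
  have h1 : DifferentiableAt ℂ L.weierstrassP z :=
    L.differentiableOn_weierstrassP.differentiableAt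
      (L.isClosed_lattice.isOpen_compl.mem_nhds hz)
  have h2 := h1.hasDerivAt
  rwa [L.deriv_weierstrassP] at h2

end COE

open _root_.Pool.Agent.NSE.COE in
theorem te_COE : Se_COE := by
  intro V L u e lam hG h3
  have hu := hG.u0
  -- the polynomial identity
  have key : ∀ T : ℂ, 4 * T ^ 3 - L.g₂ * T - L.g₃ =
      4 * (T - e) * (T - e - u ^ 2) * (T - e - lam * u ^ 2) := by
    intro T
    obtain ⟨z, hz, hT⟩ := b_SUR L T
    have h1 := L.derivWeierstrassP_sq z hz
    have h2 := hG.eq z hz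
    rw [← hT, ← h1]
    have h4 : L.derivWeierstrassP z ^ 2 =
        (L.derivWeierstrassP z / (2 * u ^ 3)) ^ 2 * (4 * u ^ 6) := by
      field_simp
      ring
    rw [h4, h2]
    field_simp
  have k0 := key 0
  have k1 := key 1
  have k2 := key (-1)
  have a1 : 3 * e = -(1 + lam) * u ^ 2 := by
    have : 4 * (3 * e + (1 + lam) * u ^ 2) = 0 := by
      linear_combination (1 / 2 : ℂ) * k1 + (1 / 2 : ℂ) * k2 - k0
    have h5 : 3 * e + (1 + lam) * u ^ 2 = 0 := by
      rcases mul_eq_zero.1 this with h | h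
      · norm_num at h
      · exact h
    linear_combination h5
  have a2 : L.g₂ = 4 * (3 * e ^ 2 - lam * u ^ 4) := by
    linear_combination (-1 / 2 : ℂ) * k1 + (1 / 2 : ℂ) * k2 - 8 * e * a1
  have a3 : L.g₃ = 4 * e ^ 3 - L.g₂ * e := by
    linear_combination -k0 + 4 * e ^ 2 * a1 + e * a2
  have hv1 : V.valuation (1 : ℂ) = 1 := map_one _
  have v2 : V.valuation (2 : ℂ) = 1 := by
    have h5 : V.valuation ((-1 : ℂ) + 3) = V.valuation (-1 : ℂ) :=
      Valuation.map_add_eq_of_lt_left _ (by rw [Valuation.map_neg, hv1]; exact h3)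
    rw [Valuation.map_neg, hv1] at h5
    rw [← h5]
    congr 1
    norm_num
  have hl : V.valuation (1 + lam) < 1 := lt_of_le_of_lt hG.lam1 h3
  have vl : V.valuation lam = 1 := by
    have h5 : V.valuation ((-1 : ℂ) + (1 + lam)) = V.valuation (-1 : ℂ) :=
      Valuation.map_add_eq_of_lt_left _ (by rw [Valuation.map_neg, hv1]; exact hl)
    rw [Valuation.map_neg, hv1] at h5
    rw [← h5]
    congr 1
    ring
  have vl1 : V.valuation (1 - lam) = 1 := by
    have h5 : V.valuation ((2 : ℂ) + -(1 + lam)) = V.valuation (2 : ℂ) :=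
      Valuation.map_add_eq_of_lt_left _ (by rw [Valuation.map_neg, v2]; exact hl)
    rw [v2] at h5
    rw [← h5]
    congr 1
    ring
  refine ⟨a1, a2, a3, v2, vl, vl1, ?_, ?_, ?_⟩
  · intro z hz
    have h5 := hG.eq z hz
    show (L.derivWeierstrassP z / (2 * u ^ 3)) ^ 2 = _
    rw [h5]
    unfold xu
    ring
  · intro z hz
    have h5 := ((hasDeriv L hz).sub_const e).div_const (u ^ 2)
    have h6 : L.derivWeierstrassP z / u ^ 2 = 2 * u * yu L u z := by
      unfold yu
      field_simp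
    rw [h6] at h5
    exact h5
  · intro z
    refine ⟨fun w hw => ⟨?_, ?_⟩, ?_, ?_⟩
    · unfold xu
      rw [L.weierstrassP_add_coe z ⟨w, hw⟩]
    · unfold yu
      rw [L.derivWeierstrassP_add_coe z ⟨w, hw⟩]
    · unfold xu
      rw [L.weierstrassP_neg]
    · unfold yu
      rw [L.derivWeierstrassP_neg]
      ring

end

end Pool.Agent.NSE


end

section

/-!
# MUX-NS, block ER: the points of exact order `P^(j+1)` (TPR), `3` ramified (helper1)
-/

set_option autoImplicit false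

open Polynomial

namespace Pool.Agent.NSER

open _root_.MU3 _root_.Pool.Agent.MU3A _root_.Pool.Agent.MU3B _root_.Pool.Agent.MUX _root_.Pool.Agent.MUXU _root_.Pool.Agent.MUXE
open _root_.Pool.Agent.RI _root_.Pool.Agent.NS _root_.Pool.Agent.NSRD
open _root_.Pool.Agent.MUXV (GR InK tX)
open _root_.Pool.Agent.NSE (E3 su ru WL IntP Rep)

noncomputable section

namespace TPR

theorem one_lt_of {Γ : Type*} [LinearOrderedCommGroupWithZero Γ] {T π : Γ} {m : ℕ}
    (h : T ^ m * π = 1) (hπ : π < 1) : 1 < T := by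
  by_contra hc
  have hc' : T ≤ 1 := not_lt.1 hc
  have h1 : T ^ m ≤ 1 := pow_le_one' hc' m
  have h2 : T ^ m * π ≤ 1 * π := mul_le_mul_left h1 π
  rw [h, one_mul] at h2
  exact absurd hπ (not_lt.2 h2)

theorem inv_pow_eq {Γ : Type*} [LinearOrderedCommGroupWithZero Γ] {T π : Γ} {m : ℕ}
    (hT : T ≠ 0) (h : T⁻¹ ^ m = π) : T ^ m * π = 1 := by
  rw [← h, inv_pow]
  exact mul_inv_cancel₀ (pow_ne_zero _ hT)

theorem lt_one_of_sq {Γ : Type*} [LinearOrderedCommGroupWithZero Γ] {a b : Γ}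
    (h : a ^ 2 = b) (hb : b < 1) : a < 1 := by
  by_contra hc
  have hc' : 1 ≤ a := not_lt.1 hc
  have h1 : 1 ≤ a ^ 2 := one_le_pow₀ hc'
  rw [h] at h1
  exact absurd hb (not_lt.2 h1)

end TPR

open _root_.Pool.Agent.NSER.TPR in
theorem tf_TPR (h2 : Sf_GRN) (h3 : Sf_TNC) (h4 : Sf_RPV) (h5 : Sf_PIS) (h6 : Su_BAC)
    (h7 : Su_PFI) : Sf_TPR := by
  intro A B P V h hT hG j
  obtain ⟨φ, hφ⟩ := h.ring.hom
  have embn : ∀ n : ℕ, emb ((n : ℕ) : OO A B) = n := fun n => by rw [← hφ, map_natCast]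
  have hv3 := h.v3
  have mem3 : ((3 : ℕ) : OO A B) ∈ P := by
    have h8 : ((3 : ℕ) : OO A B) ∈ idl (A := A) (B := B) 3 :=
      Ideal.subset_span (Set.mem_singleton _)
    rw [← h.sq] at h8
    exact Ideal.mul_le_left h8
  have hPbot : P ≠ ⊥ := by
    intro h0
    rw [h0, Ideal.mem_bot] at mem3
    have h9 := embn 3
    rw [mem3, ← hφ, map_zero] at h9
    norm_num at h9
  have hπ0 : V.valuation (3 : ℂ) ≠ 0 := (Valuation.ne_zero_iff _).2 (by norm_num)
  induction j with
  | zero =>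
    intro L u e lam hL hg z hz hz0
    obtain ⟨tra1, -⟩ := te_TRA A B h.ring L hL
    have hzL : z ∉ L.lattice := fun h8 => hz0 fun x _ => tra1 x z h8
    rw [zero_add, pow_one] at hz
    obtain ⟨k1, k2, k3⟩ := h4 A B P V h hT hG L u e lam hL hg z hz hzL
    exact ⟨k1, k2, by simpa using k3⟩
  | succ j ih =>
    intro L u e lam hL hg z hz hz0
    obtain ⟨tra1, tra2, tra3, tra4, tra5, tra6, tra7, tra8, tra9⟩ := te_TRA A B h.ring L hL
    obtain ⟨N, ν, hN, hQ⟩ := h.exq L hL
    obtain ⟨u', e', lam', hg'⟩ := h.good N hN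
    have hν : ν ≠ 0 := hQ.1
    have hTor : ∀ z, ν * z ∈ N.lattice ↔ Tor P L z := hQ.2
    have hIsg : Isg L N ν := fun w hw => (hTor w).2 (fun x _ => tra1 x w hw)
    obtain ⟨⟨R, hR⟩, -⟩ := h6.2 L N ν hν hIsg
    obtain ⟨ξ, G⟩ := h2 V L u e lam hg hv3
    have hmu := h5 A B P V h hT hG L N ν u e lam u' e' lam' hL hN hQ hg hg'
    have hu := hg.u0
    have hu' := hg'.u0
    -- the point of order 5
    have hw5 : ((5 : ℕ) : ℂ) * (L.ω₁ / 5) ∈ L.lattice := by
      convert L.ω₁_mem_lattice using 1; push_cast; ring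
    have n1 := TP.fifth L
    set w : ℂ := L.ω₁ / 5 with hw
    have i1 : ¬ InK V L (xu L u e) w := fun hin =>
      n1 ((h3 V L u e lam hg hv3 5 (by norm_num)).2 w hw5 hin)
    have m1 : ν * w ∉ N.lattice := by
      intro h8
      have h9 := (hTor w).1 h8 _ mem3
      rw [embn] at h9
      apply n1
      have h10 := sub_mem (add_mem h9 h9) hw5
      convert h10 using 1
      push_cast
      ring
    have i1' : ¬ InK V N (xu N u' e') (ν * w) := by
      intro hin
      refine m1 ((h3 V N u' e' lam' hg' hv3 5 (by norm_num)).2 _ ?_ hin)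
      have h8 := hIsg _ hw5
      rwa [show ν * (((5 : ℕ) : ℂ) * w) = ((5 : ℕ) : ℂ) * (ν * w) by ring] at h8
    -- the point `z' = ν z`
    have hz1 : Tor (P ^ (j + 1)) N (ν * z) := by
      intro x hx
      have h8 : Tor P L (emb x * z) := by
        apply tra6 (P ^ (j + 1)) P x z hx
        rw [← pow_succ]
        exact hz
      have h9 := (hTor _).2 h8
      rwa [show ν * (emb x * z) = emb x * (ν * z) by ring] at h9
    have hz2 : ¬ Tor (P ^ j) N (ν * z) := by
      intro h8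
      apply hz0
      rw [pow_succ]
      apply tra7
      intro x hx
      have h9 := h8 x hx
      rw [show emb x * (ν * z) = ν * (emb x * z) by ring] at h9
      exact (hTor _).1 h9
    obtain ⟨y1, y2, y3⟩ := ih N u' e' lam' hN hg' (ν * z) hz1 hz2
    have hzN : ν * z ∉ N.lattice := by
      intro h8
      apply hz2
      obtain ⟨trb1, -⟩ := te_TRA A B h.ring N hN
      exact fun x _ => trb1 x _ h8
    -- the representatives
    have torR : ∀ q ∈ R, Tor P L q := fun q hq => (hTor q).1 (hR.mem q hq)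
    have hRk : ∀ q ∈ R, InK V L (xu L u e) q ∧ xu L u e q ≠ 0 ∧
        V.valuation (xu L u e q) ^ 2 * V.valuation (3 : ℂ) = 1 := by
      intro q hq
      obtain ⟨k1, k2, k3⟩ := h4 A B P V h hT hG L u e lam hL hg q (torR q hq) (hR.ne q hq)
      refine ⟨k1, k2, ?_⟩
      unfold su at k3
      rw [map_inv₀] at k3
      exact inv_pow_eq ((Valuation.ne_zero_iff _).2 k2) k3
    -- congruence of the points of `E[P]`
    have cong : ∀ q q', Tor P L q → Tor P L q' → q ∉ L.lattice → q' ∉ L.lattice →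
        q' - q ∈ L.lattice ∨ q' + q ∈ L.lattice := by
      intro q q' hq hq' hqL hqL'
      obtain ⟨x, hx⟩ := (te_TRB A B h.ring L hL).2 P hPbot h.max q q' hq hq' hqL
      by_cases hxP : x ∈ P
      · exfalso
        apply hqL'
        have := add_mem hx (hq x hxP)
        rwa [sub_add_cancel] at this
      · rcases h.pm x hxP with h8 | h8
        · left
          have h9 := add_mem hx (hq _ h8)
          rw [← hφ (x - 1), map_sub, map_one, hφ] at h9
          convert h9 using 1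
          ring
        · right
          have h9 := add_mem hx (hq _ h8)
          rw [← hφ (x + 1), map_add, map_one, hφ] at h9
          convert h9 using 1
          ring
    obtain ⟨q0', hq0', hq0L'⟩ : ∃ q, Tor P L q ∧ q ∉ L.lattice := by
      obtain ⟨q, k1, k2⟩ := (te_TRB A B h.ring L hL).1 ⊤ P hPbot h.max.ne_top.lt_top
      exact ⟨q, k1, fun h8 => k2 fun x _ => tra1 x q h8⟩
    obtain ⟨q0, hq0R, -⟩ := hR.surj q0' ((hTor q0').2 hq0') hq0L'
    have hq0L := hR.ne q0 hq0R
    have hq0T := torR q0 hq0R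
    have hpq : (3 : ℂ) * q0 ∈ L.lattice := by
      have := hq0T _ mem3
      rw [embn] at this
      exact_mod_cast this
    have hcard : R.card = 3 - 1 := by
      have hnT : Tor P L (-q0) := fun x hx => by
        rw [mul_neg]
        exact neg_mem (hq0T x hx)
      have hnL : -q0 ∉ L.lattice := fun h8 => hq0L (by simpa using neg_mem h8)
      obtain ⟨q1, hq1R, hq1⟩ := hR.surj (-q0) ((hTor _).2 hnT) hnL
      have hne : q0 ≠ q1 := by
        rintro rfl
        apply hq0L
        have h8 := add_mem hq1 hpq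
        convert h8 using 1
        ring
      have : R = {q0, q1} := by
        ext q
        rw [Finset.mem_insert, Finset.mem_singleton]
        constructor
        · intro hq
          rcases cong q0 q hq0T (torR q hq) hq0L (hR.ne q hq) with h8 | h8
          · exact Or.inl (hR.inj q hq q0 hq0R h8)
          · right
            apply hR.inj q hq q1 hq1R
            have h9 := add_mem h8 hq1
            convert h9 using 1
            ring
        · rintro (rfl | rfl)
          · exact hq0R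
          · exact hq1R
      rw [this, Finset.card_pair hne]
    have hRT : ∀ q ∈ R, V.valuation (xu L u e q) = V.valuation (xu L u e q0) := by
      intro q hq
      have h8 : V.valuation (xu L u e q) ^ 2 * V.valuation (3 : ℂ) =
          V.valuation (xu L u e q0) ^ 2 * V.valuation (3 : ℂ) := by
        rw [(hRk q hq).2.2, (hRk q0 hq0R).2.2]
      exact (pow_left_inj₀ zero_le zero_le two_ne_zero).1 (mul_right_cancel₀ hπ0 h8)
    -- the product formula
    have pf := h7 L N ν R hν hIsg hR w m1 z hzN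
    have xd : ∀ a b : ℂ, L.weierstrassP a - L.weierstrassP b =
        u ^ 2 * (xu L u e a - xu L u e b) := by
      intro a b
      unfold xu
      field_simp
      ring
    have xd' : ∀ a b : ℂ, N.weierstrassP a - N.weierstrassP b =
        u' ^ 2 * (xu N u' e' a - xu N u' e' b) := by
      intro a b
      unfold xu
      field_simp
      ring
    have pf' : (ν * u' / u) ^ 2 * (xu N u' e' (ν * z) - xu N u' e' (ν * w)) *
        ∏ q ∈ R, (xu L u e z - xu L u e q) =
        (xu L u e z - xu L u e w) * ∏ q ∈ R, (xu L u e z - xu L u e (w + q)) := by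
      simp only [xd, xd', Finset.prod_mul_distrib, Finset.prod_const] at pf
      have hu2 : u ^ 2 * (u ^ 2) ^ R.card ≠ 0 := by positivity
      apply mul_left_cancel₀ hu2
      have e1 : u ^ 2 * (ν * u' / u) ^ 2 = ν ^ 2 * u' ^ 2 := by
        field_simp
      linear_combination pf + ((u ^ 2) ^ R.card *
        (xu N u' e' (ν * z) - xu N u' e' (ν * w)) * ∏ q ∈ R, (xu L u e z - xu L u e q)) * e1
    have hm0 : V.valuation (ν * u' / u) ≠ 0 :=
      (Valuation.ne_zero_iff _).2 (div_ne_zero (mul_ne_zero hν hu') hu)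
    have hm1 : V.valuation (ν * u' / u) < 1 := lt_one_of_sq hmu hv3
    have hy0 : V.valuation (xu N u' e' (ν * z)) ≠ 0 := (Valuation.ne_zero_iff _).2 y2
    have hyk : V.valuation (xu N u' e' (ν * z)) ^ (2 * 3 ^ j) * V.valuation (3 : ℂ) = 1 := by
      unfold su at y3
      rw [map_inv₀] at y3
      exact inv_pow_eq hy0 y3
    obtain ⟨X1, X2⟩ := TP.num V.valuation 3 (3 ^ j) (by norm_num) (by positivity) R hcard
      (ν * u' / u) (xu N u' e' (ν * z)) (xu N u' e' (ν * w)) (xu L u e z) (xu L u e w)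
      (fun q => xu L u e q) (fun q => xu L u e (w + q)) (V.valuation (xu L u e q0))
      (V.valuation (ν * u' / u)) hm0 hm1 rfl
      (by rw [hmu, mul_comm]; exact (hRk q0 hq0R).2.2)
      (one_lt_of (hRk q0 hq0R).2.2 hv3) hRT
      (fun q hqR => (Pool.Agent.MUXV.int_X (fun hin => i1 (by
        have := Pool.Agent.MUXV.inK_sub G hin (hRk q hqR).1
        rwa [add_sub_cancel_right] at this))).2)
      (Pool.Agent.MUXV.int_X i1).2 (Pool.Agent.MUXV.int_X i1').2
      (one_lt_of hyk hv3) (by rw [hmu, mul_comm]; exact hyk) pf'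
    have hx0 : xu L u e z ≠ 0 := by
      intro h0
      rw [h0, map_zero] at X1
      exact absurd X1 (not_lt.2 zero_le)
    refine ⟨Or.inr fun hin => ?_, hx0, ?_⟩
    · exact absurd X1 (not_lt.2 ((V.valuation_le_one_iff _).2 hin))
    · calc V.valuation (su L u e z) ^ (2 * 3 ^ (j + 1))
          = (V.valuation (su L u e z) ^ 3) ^ (2 * 3 ^ j) := by
            rw [← pow_mul]
            congr 1
            ring
        _ = V.valuation (su N u' e' (ν * z)) ^ (2 * 3 ^ j) := by
            unfold su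
            rw [map_inv₀, map_inv₀, inv_pow, X2]
        _ = V.valuation (3 : ℂ) := y3

end

end Pool.Agent.NSER


end

section

/-!
# MUX-NS, block ER, module MAIN: Lemma E for a conjugate family (helper96)

Apply `τ'` to `w³ = ∏ C τ ^ g τ`: `(τ' w)³ = ∏ C(τ τ') ^ g τ`, because the Galois group of `D / k` is
commutative; then (ONE) with `J = Gal(D/k)` and `X τ = S (τ τ')`.
-/

set_option autoImplicit false

namespace Pool.Agent.NSER

open _root_.MU3 _root_.Pool.Agent.MU3A _root_.Pool.Agent.MU3B _root_.Pool.Agent.MUX _root_.Pool.Agent.MUXU _root_.Pool.Agent.MUXE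
open _root_.Pool.Agent.RI _root_.Pool.Agent.NS _root_.Pool.Agent.NSRD

noncomputable section

/-- the ideal `f P^(2n+1)` is not zero -/
lemma fm_ne {A B : ℤ} {P : Ideal (OO A B)} {V : ValuationSubring ℂ} (hc : CtxR A B P V)
    {f : ℕ} (hf : f ≠ 0) (n : ℕ) : lvR P f n ≠ ⊥ := by
  intro h
  have h3 : (3 : OO A B) ∈ P := by
    have h0 : ((3 : ℕ) : OO A B) ∈ P * P := by
      rw [hc.sq]
      exact Ideal.mem_span_singleton_self _
    have h1 := Ideal.mul_le_left h0
    exact_mod_cast h1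
  have h4 : ((f * 3 ^ (2 * n + 1) : ℕ) : OO A B) ∈ lvR P f n := by
    push_cast
    exact Ideal.mul_mem_mul (Ideal.mem_span_singleton_self _) (Ideal.pow_mem_pow h3 _)
  have h5 : idl (A := A) (B := B) (f * 3 ^ (2 * n + 1)) = ⊥ := by
    rw [eq_bot_iff, ← h]
    exact (Ideal.span_singleton_le_iff_mem _).2 h4
  exact m0_ne A B hc.ring (mul_ne_zero hf (pow_ne_zero _ (by norm_num))) h5

theorem tf_MAIN (h1 : Sf_ONE) : Sf_MAIN := by
  classical
  intro A B P V hctx hT hgal n f hn hf3 hf2 hfp ι R u e lam hG H hH D hD hDF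
  intro C κ S i x q hC hcop hprod g hcube τ'
  letI := algC hD
  have hf0 : f ≠ 0 := by omega
  have hlv : lvX 3 f n = 3 ^ (n + 1) * f := by
    simp [lvX, q0]
    ring
  obtain ⟨ha3, hap, haf⟩ := m0_aX (p := 3) (Or.inr rfl) hf0
  have hodd : Odd (aX 3 f) := by
    refine ⟨3 * f, ?_⟩
    simp [aX, q0]
    ring
  have hmb := fm_ne hctx hf0 n
  have := hT.fin _ hmb
  -- D is finite over k
  have := Pool.Agent.FX.fd_of_le hD hDF
  have : Finite (D ≃ₐ[kk A B] D) := inferInstance
  letI : Fintype (D ≃ₐ[kk A B] D) := Fintype.ofFinite _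
  have hcom := m0_comm hT _ hmb D hD hDF
  have key := h1 A B P V hctx hT hgal n f (aX 3 f) hn hf3 hf2 hfp ha3 hodd hap haf ι R u e lam hG
    H hH (D ≃ₐ[kk A B] D) κ (fun τ => S (τ * τ')) g i x q
  rw [← hlv] at key
  rw [finsum_eq_sum_of_fintype]
  refine key (fun τ k hk => hcop (τ * τ') k hk) ?_
  obtain ⟨w, hw, hwp⟩ := hcube
  rw [finprod_eq_prod_of_fintype] at hwp
  obtain ⟨y, hy1, -⟩ := hC 1
  have hyτ : ∀ τ : D ≃ₐ[kk A B] D, ((τ y : D) : ℂ) = C τ := by
    intro τ
    obtain ⟨y', hy', hy''⟩ := hC τ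
    have : y' = y := Subtype.ext (hy'.trans hy1.symm)
    rw [← hy'', this]
  have hw4 : (⟨w, hw⟩ : D) ^ 3 = ∏ τ : D ≃ₐ[kk A B] D, (τ y) ^ g τ := by
    apply Subtype.ext
    rw [IntermediateField.coe_prod]
    rw [show (((⟨w, hw⟩ : D) ^ 3 : D) : ℂ) = w ^ 3 from rfl, hwp]
    refine Finset.prod_congr rfl (fun τ _ => ?_)
    rw [← hyτ τ, ← m0_zpc (D := D)]
  refine ⟨(τ' ⟨w, hw⟩ : D), hDF _ (τ' ⟨w, hw⟩).2, ?_⟩
  have hw5 := congrArg τ' hw4
  rw [map_pow, map_prod] at hw5
  have hw6 := congrArg (fun y : D => (y : ℂ)) hw5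
  push_cast at hw6
  rw [hw6]
  refine Finset.prod_congr rfl (fun τ _ => ?_)
  rw [← hprod (τ * τ'), hcom τ τ', map_zpow₀, ← hyτ (τ' * τ), m0_zpc]
  rfl

end

end Pool.Agent.NSER


end

section

/-!
# MUX-NS, block ER: module DIS, the distribution relation for `L → N = ν P⁻¹ L` (helper84)
-/

set_option autoImplicit false

namespace Pool.Agent.NSER

open _root_.MU3 _root_.Pool.Agent.MU3A _root_.Pool.Agent.MU3B _root_.Pool.Agent.MUX _root_.Pool.Agent.MUXU _root_.Pool.Agent.MUXE
open _root_.Pool.Agent.RI _root_.Pool.Agent.NS _root_.Pool.Agent.NSRD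

noncomputable section

namespace DIS84

/-- the facts on `L`, `N`, `ν` which are used -/
structure Fa (L N : PeriodPair) (nu : ℂ) : Prop where
  ne : nu ≠ 0
  isg : ∀ w ∈ L.lattice, nu * w ∈ N.lattice
  three : ∀ w, nu * w ∈ N.lattice → 3 * w ∈ L.lattice

theorem nat_mul {M : PeriodPair} (k : ℕ) {w : ℂ} (h : w ∈ M.lattice) :
    (k : ℂ) * w ∈ M.lattice := by
  have := nsmul_mem h k
  rwa [nsmul_eq_mul] at this

theorem int_mul {M : PeriodPair} (k : ℤ) {w : ℂ} (h : w ∈ M.lattice) :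
    (k : ℂ) * w ∈ M.lattice := by
  have := zsmul_mem h k
  rwa [zsmul_eq_mul] at this

theorem cop_mem {M : PeriodPair} {a : ℕ} (ha : ¬ 3 ∣ a) {w : ℂ} (h3 : 3 * w ∈ M.lattice)
    (h : (a : ℂ) * w ∈ M.lattice) : w ∈ M.lattice := by
  have h1 : Nat.Coprime 3 a := (Nat.Prime.coprime_iff_not_dvd (by norm_num)).2 ha
  obtain ⟨u, v, huv⟩ := Nat.isCoprime_iff_coprime.2 h1
  have h2 : w = (u : ℂ) * (3 * w) + (v : ℂ) * ((a : ℂ) * w) := by
    have h4 : (u : ℂ) * 3 + v * a = 1 := by exact_mod_cast huv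
    linear_combination (-w) * h4
  rw [h2]
  exact add_mem (int_mul u h3) (int_mul v h)

/-- the half system `ν H` -/
theorem half {L N : PeriodPair} {nu : ℂ} (hF : Fa L N nu) {a : ℕ} (ha : ¬ 3 ∣ a) {H : Finset ℂ}
    (hH : IsHalf L (a : ℂ) H) : IsHalf N (a : ℂ) (H.image fun h => nu * h) := by
  have key : ∀ w, (a : ℂ) * w ∈ L.lattice → nu * w ∈ N.lattice → w ∈ L.lattice := by
    intro w hw hn
    exact cop_mem ha (hF.three w hn) hw
  refine ⟨?_, ?_, ?_, ?_, ?_⟩
  · intro q hq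
    obtain ⟨h, hh, rfl⟩ := Finset.mem_image.1 hq
    have := hF.isg _ (hH.mem h hh)
    rw [mul_left_comm]
    exact this
  · intro q hq h2
    obtain ⟨h, hh, rfl⟩ := Finset.mem_image.1 hq
    refine hH.ne h hh (key _ ?_ ?_)
    · rw [mul_left_comm]
      have := nat_mul (M := L) 2 (hH.mem h hh)
      exact_mod_cast this
    · rw [mul_left_comm]
      exact h2
  · intro q hq q' hq' h2
    obtain ⟨h, hh, rfl⟩ := Finset.mem_image.1 hq
    obtain ⟨h', hh', rfl⟩ := Finset.mem_image.1 hq'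
    have : h = h' := by
      refine hH.inj h hh h' hh' (key _ ?_ ?_)
      · rw [mul_sub]; exact sub_mem (hH.mem h hh) (hH.mem h' hh')
      · rw [mul_sub]; exact h2
    rw [this]
  · intro q hq q' hq' h2
    obtain ⟨h, hh, rfl⟩ := Finset.mem_image.1 hq
    obtain ⟨h', hh', rfl⟩ := Finset.mem_image.1 hq'
    refine hH.neg h hh h' hh' (key _ ?_ ?_)
    · rw [mul_add]; exact add_mem (hH.mem h hh) (hH.mem h' hh')
    · rw [mul_add]; exact h2
  · intro z hz hzN
    have h1 : Nat.Coprime 3 a := (Nat.Prime.coprime_iff_not_dvd (by norm_num)).2 ha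
    obtain ⟨u, v, huv⟩ := Nat.isCoprime_iff_coprime.2 h1
    have h4 : (u : ℂ) * 3 + v * a = 1 := by exact_mod_cast huv
    have hne := hF.ne
    set w : ℂ := z / nu with hw
    have hzw : z = nu * w := by rw [hw]; field_simp
    have h5 : 3 * ((a : ℂ) * w) ∈ L.lattice := by
      refine hF.three _ ?_
      rw [mul_left_comm, ← hzw]
      exact hz
    have h6 : (a : ℂ) * ((u : ℂ) * (3 * w)) ∈ L.lattice := by
      have := int_mul (M := L) u h5
      have e : (a : ℂ) * ((u : ℂ) * (3 * w)) = (u : ℂ) * (3 * ((a : ℂ) * w)) := by ring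
      rw [e]; exact this
    have h7 : (v : ℂ) * ((a : ℂ) * (nu * w)) ∈ N.lattice := by
      rw [← hzw]; exact int_mul v hz
    have h8 : (u : ℂ) * (3 * w) ∉ L.lattice := by
      intro h
      refine hzN ?_
      have e : z = nu * ((u : ℂ) * (3 * w)) + (v : ℂ) * ((a : ℂ) * (nu * w)) := by
        rw [hzw]; linear_combination (-(nu * w)) * h4
      rw [e]
      exact add_mem (hF.isg _ h) h7
    obtain ⟨h, hh, h9⟩ := hH.surj _ h6 h8
    refine ⟨nu * h, Finset.mem_image_of_mem _ hh, ?_⟩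
    rcases h9 with h9 | h9
    · left
      have e : z - nu * h = nu * ((u : ℂ) * (3 * w) - h) + (v : ℂ) * ((a : ℂ) * (nu * w)) := by
        rw [hzw]; linear_combination (-(nu * w)) * h4
      rw [e]
      exact add_mem (hF.isg _ h9) h7
    · right
      have e : z + nu * h = nu * ((u : ℂ) * (3 * w) + h) + (v : ℂ) * ((a : ℂ) * (nu * w)) := by
        rw [hzw]; linear_combination (-(nu * w)) * h4
      rw [e]
      exact add_mem (hF.isg _ h9) h7

/-- `℘` is periodic -/
theorem per {L : PeriodPair} {x y : ℂ} (h : x - y ∈ L.lattice) :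
    L.weierstrassP x = L.weierstrassP y := by
  have h1 := L.weierstrassP_add_coe y ⟨x - y, h⟩
  simp only [add_sub_cancel] at h1
  exact h1

/-- the product relation -/
theorem prod_rel (hPFI : Su_PFI) {L N : PeriodPair} {nu : ℂ} (hF : Fa L N nu) {a : ℕ}
    (ha : ¬ 3 ∣ a) {H : Finset ℂ} (hH : IsHalf L (a : ℂ) H) {q : ℂ} (hq3 : 3 * q ∈ L.lattice)
    (hR : IsRpM L N nu {q, -q}) (hqq : q ≠ -q) {z : ℂ} (hz : nu * z ∉ N.lattice) :
    (∏ l ∈ Finset.range 3, ThetaH L H (z + l * q)) =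
      (∏ h ∈ H, nu ^ 2 * ((L.weierstrassP h - L.weierstrassP q) *
        (L.weierstrassP h - L.weierstrassP (-q)))) *
      ∏ h ∈ H, (N.weierstrassP (nu * z) - N.weierstrassP (nu * h)) := by
  have hhN : ∀ h ∈ H, nu * h ∉ N.lattice := by
    intro h hh hn
    refine hH.ne h hh ?_
    have h1 := cop_mem ha (hF.three h hn) (hH.mem h hh)
    have := nat_mul (M := L) 2 h1
    exact_mod_cast this
  have e2 : L.weierstrassP (z + (2 : ℕ) * q) = L.weierstrassP (z + -q) := by
    refine per ?_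
    have e : z + ((2 : ℕ) : ℂ) * q - (z + -q) = 3 * q := by push_cast; ring
    rw [e]; exact hq3
  simp only [ThetaH, Finset.prod_range_succ, Finset.prod_range_zero, one_mul]
  rw [← Finset.prod_mul_distrib, ← Finset.prod_mul_distrib, ← Finset.prod_mul_distrib]
  refine Finset.prod_congr rfl fun h hh => ?_
  have h1 := hPFI L N nu {q, -q} hF.ne hF.isg hR z hz h (hhN h hh)
  rw [Finset.prod_pair hqq, Finset.prod_pair hqq] at h1
  rw [e2]
  simp only [Nat.cast_zero, zero_mul, add_zero, Nat.cast_one, one_mul]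
  linear_combination h1

end DIS84

open _root_.Pool.Agent.NSER.DIS84 in
theorem tf_DIS (hPFI : Su_PFI) : Sf_DIS := by
  intro A B P V hC L N nu hL hN hQ a H H' ha0 ha hH hH' q hTq hq
  obtain ⟨φ, hφ⟩ := hC.ring.hom
  have h3P : ((3 : ℕ) : OO A B) ∈ P := by
    have h1 : ((3 : ℕ) : OO A B) ∈ P * P := by
      rw [hC.sq]
      exact Ideal.mem_span_singleton_self _
    exact Ideal.mul_le_left h1
  have he3 : emb ((3 : ℕ) : OO A B) = 3 := by
    rw [← hφ, map_natCast]; norm_num
  have hPb : P ≠ ⊥ := by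
    rintro rfl
    have h1 : ((3 : ℕ) : OO A B) = 0 := (Submodule.mem_bot _).1 h3P
    rw [h1] at he3
    have h2 : emb (0 : OO A B) = 0 := by rw [← hφ, map_zero]
    rw [h2] at he3
    norm_num at he3
  have hOL : ∀ (x : OO A B), ∀ w ∈ L.lattice, emb x * w ∈ L.lattice := by
    obtain ⟨b, om, hb⟩ := hL
    intro x w hw
    obtain ⟨y, hy, rfl⟩ := (hb.mem w).1 hw
    refine (hb.mem _).2 ⟨x * y, b.mul_mem_left x hy, ?_⟩
    rw [← hφ (x * y), map_mul, hφ, hφ]; ring
  have hF : Fa L N nu := by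
    refine ⟨hQ.1, ?_, ?_⟩
    · intro w hw
      exact (hQ.2 w).2 fun x _ => hOL x w hw
    · intro w hw
      have := (hQ.2 w).1 hw _ h3P
      rwa [he3] at this
  have hqN : nu * q ∈ N.lattice := (hQ.2 q).2 hTq
  have hq3 : 3 * q ∈ L.lattice := hF.three q hqN
  have h2q : 2 * q ∉ L.lattice := by
    intro h
    refine hq ?_
    have e : q = 3 * q - 2 * q := by ring
    rw [e]; exact sub_mem hq3 h
  have hqq : q ≠ -q := by
    intro h
    refine h2q ?_
    have e : 2 * q = 0 := by linear_combination h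
    rw [e]; exact zero_mem _
  have hR : IsRpM L N nu {q, -q} := by
    refine ⟨?_, ?_, ?_, ?_⟩
    · intro r hr
      rcases Finset.mem_insert.1 hr with rfl | hr
      · exact hqN
      · rw [Finset.mem_singleton.1 hr, mul_neg]
        exact neg_mem hqN
    · intro r hr
      rcases Finset.mem_insert.1 hr with rfl | hr
      · exact hq
      · rw [Finset.mem_singleton.1 hr]
        intro h
        exact hq (neg_mem_iff.1 h)
    · intro r hr r' hr' h
      rcases Finset.mem_insert.1 hr with rfl | hr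
      · rcases Finset.mem_insert.1 hr' with rfl | hr'
        · rfl
        · rw [Finset.mem_singleton.1 hr'] at h
          exfalso; refine h2q ?_
          have e : 2 * r = r - -r := by ring
          rw [e]; exact h
      · rw [Finset.mem_singleton.1 hr] at h ⊢
        rcases Finset.mem_insert.1 hr' with rfl | hr'
        · exfalso; refine h2q ?_
          have e : 2 * r' = -(-r' - r') := by ring
          rw [e]; exact neg_mem h
        · rw [Finset.mem_singleton.1 hr']
    · intro z hz hzL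
      have hTz : Tor P L z := (hQ.2 z).1 hz
      obtain ⟨x, hx⟩ := (Pool.Agent.MUXE.te_TRB A B hC.ring L hL).2 P hPb hC.max q z hTq hTz hq
      have hxP : x ∉ P := by
        intro h
        refine hzL ?_
        have e : z = z - emb x * q + emb x * q := by ring
        rw [e]; exact add_mem hx (hTq x h)
      rcases hC.pm x hxP with h | h
      · refine ⟨q, by simp, ?_⟩
        have h1 := hTq _ h
        have e1 : emb (x - 1) = emb x - 1 := by
          rw [← hφ, map_sub, map_one, hφ]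
        rw [e1] at h1
        have e : z - q = z - emb x * q + (emb x - 1) * q := by ring
        rw [e]; exact add_mem hx h1
      · refine ⟨-q, by simp, ?_⟩
        have h1 := hTq _ h
        have e1 : emb (x + 1) = emb x + 1 := by
          rw [← hφ, map_add, map_one, hφ]
        rw [e1] at h1
        have e : z - -q = z - emb x * q + (emb x + 1) * q := by ring
        rw [e]; exact add_mem hx h1
  have hH'' := half hF ha hH
  set C : ℂ := ∏ h ∈ H, nu ^ 2 * ((L.weierstrassP h - L.weierstrassP q) *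
        (L.weierstrassP h - L.weierstrassP (-q))) with hCdef
  have hhN : ∀ h ∈ H, nu * h ∉ N.lattice := by
    intro h hh hn
    refine hH.ne h hh ?_
    have h1 := cop_mem ha (hF.three h hn) (hH.mem h hh)
    have := nat_mul (M := L) 2 h1
    exact_mod_cast this
  have hC0 : C ≠ 0 := by
    rw [hCdef, Finset.prod_ne_zero_iff]
    intro h hh
    have hhL : h ∉ L.lattice := fun h1 => hhN h hh (hF.isg h h1)
    have key : ∀ r : ℂ, r ∉ L.lattice → nu * r ∈ N.lattice →
        L.weierstrassP h - L.weierstrassP r ≠ 0 := by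
      intro r hr hrN h0
      rcases b_NEQ L r h hr hhL (sub_eq_zero.1 h0) with h1 | h1
      · refine hhN h hh ?_
        have e : nu * h = nu * (h - r) + nu * r := by ring
        rw [e]; exact add_mem (hF.isg _ h1) hrN
      · refine hhN h hh ?_
        have e : nu * h = nu * (h + r) - nu * r := by ring
        rw [e]; exact sub_mem (hF.isg _ h1) hrN
    refine mul_ne_zero (pow_ne_zero 2 hF.ne) (mul_ne_zero (key q hq hqN) (key (-q) ?_ ?_))
    · intro h; exact hq (neg_mem_iff.1 h)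
    · rw [mul_neg]; exact neg_mem hqN
  have hprod : ∀ z : ℂ, (a : ℂ) * (nu * z) ∉ N.lattice →
      (∏ l ∈ Finset.range 3, ThetaH L H (z + l * q)) = C * ThetaH N H' (nu * z) := by
    intro z hz
    have hz1 : nu * z ∉ N.lattice := fun h => hz (nat_mul a h)
    rw [prod_rel hPFI hF ha hH hq3 hR hqq hz1, ← hCdef,
      ← (b_TIN N a _ _ hH'' hH').1 (nu * z)]
    congr 1
    rw [ThetaH, Finset.prod_image fun x _ y _ h => mul_left_cancel₀ hF.ne h]
  refine ⟨C, hC0, fun z hz => ⟨hprod z hz, ?_⟩⟩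
  have ha0' : (a : ℂ) ≠ 0 := by exact_mod_cast ha0
  have hna : ((‖(a : ℂ)‖ ^ 2 : ℝ) : ℂ) = (a : ℂ) ^ 2 := by
    rw [Complex.norm_natCast]; push_cast; ring
  -- derivatives of the left side
  have hzl : ∀ l : ℕ, (a : ℂ) * (z + l * q) ∉ L.lattice := by
    intro l h
    refine hz ?_
    have h1 := hF.isg _ h
    have h2 : (a : ℂ) * (l * (nu * q)) ∈ N.lattice := nat_mul a (nat_mul l hqN)
    have e : (a : ℂ) * (nu * z) = nu * (a * (z + l * q)) - a * (l * (nu * q)) := by ring
    rw [e]; exact sub_mem h1 h2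
  have d1 : ∀ l : ℕ, HasDerivAt (fun x => ThetaH L H (x + l * q))
      (dlX L a (z + l * q) * ThetaH L H (z + l * q)) z := by
    intro l
    have h1 := (b_TDL L a H ha0' (fun w hw => nat_mul a hw) hH (z + l * q) (hzl l)).2
    rw [hna] at h1
    exact h1.comp_add_const z _
  have d2 : HasDerivAt (fun x => ThetaH N H' (nu * x))
      (nu * dlX N a (nu * z) * ThetaH N H' (nu * z)) z := by
    have h1 := (b_TDL N a H' ha0' (fun w hw => nat_mul a hw) hH' (nu * z) hz).2
    rw [hna] at h1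
    have h2 : HasDerivAt (fun x : ℂ => nu * x) nu z := by
      simpa using (hasDerivAt_id z).const_mul nu
    refine (HasDerivAt.comp z h1 h2).congr_deriv ?_
    unfold dlX; ring
  have d3 : HasDerivAt (fun x => ∏ l ∈ Finset.range 3, ThetaH L H (x + l * q))
      ((∑ l ∈ Finset.range 3, dlX L a (z + l * q)) *
        ∏ l ∈ Finset.range 3, ThetaH L H (z + l * q)) z := by
    have h1 := ((d1 0).mul (d1 1)).mul (d1 2)
    simp only [Finset.prod_range_succ, Finset.sum_range_succ, Finset.prod_range_zero,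
      Finset.sum_range_zero, one_mul, zero_add]
    refine h1.congr_deriv ?_
    simp only [Pi.mul_apply]
    ring
  have hopen : IsOpen {x : ℂ | (a : ℂ) * (nu * x) ∉ N.lattice} := by
    have h1 : IsClosed {x : ℂ | (a : ℂ) * (nu * x) ∈ N.lattice} :=
      N.isClosed_lattice.preimage (by fun_prop : Continuous fun x : ℂ => (a : ℂ) * (nu * x))
    exact h1.isOpen_compl
  have hev : (fun x => ∏ l ∈ Finset.range 3, ThetaH L H (x + l * q)) =ᶠ[nhds z]
      fun x => C * ThetaH N H' (nu * x) := by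
    filter_upwards [hopen.mem_nhds hz] with x hx
    exact hprod x hx
  have d4 := (d2.const_mul C).congr_of_eventuallyEq hev
  have h5 := d3.unique d4
  rw [hprod z hz] at h5
  have hz1 : nu * z ∉ N.lattice := fun h => hz (nat_mul a h)
  have h6 : ThetaH N H' (nu * z) ≠ 0 := by
    intro h0
    exact hz ((b_TNZ N a H' (fun w hw => nat_mul a hw) hH' (nu * z) hz1).1 h0)
  have h7 : C * ThetaH N H' (nu * z) ≠ 0 := mul_ne_zero hC0 h6
  refine mul_right_cancel₀ h7 ?_
  rw [h5]; ring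

end

end Pool.Agent.NSER


end

section

/-!
# MUX-NS, block ER, module DEG: the degree of `RF (f P^(2n+1))` over `RF (f)`
-/

set_option autoImplicit false

open Polynomial

namespace Pool.Agent.NSER

open _root_.MU3 _root_.Pool.Agent.MU3A _root_.Pool.Agent.MU3B _root_.Pool.Agent.MUX _root_.Pool.Agent.MUXU _root_.Pool.Agent.MUXE
open _root_.Pool.Agent.RI _root_.Pool.Agent.NS _root_.Pool.Agent.NSRD
open _root_.Pool.Agent.MUXV (GR InK tX)
open _root_.Pool.Agent.NSE (E3 su ru WL IntP Rep)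

noncomputable section

namespace DEG

/-- the pairs `(u, s)`, `u` modulo `3^(n+1)` prime to `3`, `s` modulo `3^n` -/
def _root_.Pool.Agent.NSER.DEG.box (n : ℕ) : Finset (ℕ × ℕ) :=
  (Finset.range (3 ^ (n + 1)) \ (Finset.range (3 ^ n)).image fun q => 3 * q) ×ˢ
    Finset.range (3 ^ n)

lemma _root_.Pool.Agent.NSER.DEG.card_box (n : ℕ) : (_root_.Pool.Agent.NSER.DEG.box n).card = 2 * 9 ^ n := by
  unfold _root_.Pool.Agent.NSER.DEG.box
  rw [Finset.card_product, Finset.card_sdiff_of_subset, Finset.card_image_of_injective]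
  · simp only [Finset.card_range]
    have h1 : 3 ^ (n + 1) - 3 ^ n = 2 * 3 ^ n := by rw [pow_succ]; omega
    have h2 : 3 ^ n * 3 ^ n = 9 ^ n := by rw [← mul_pow]; norm_num
    rw [h1, mul_assoc, h2]
  · intro a b h
    simp only at h
    omega
  · intro q hq
    simp only [Finset.mem_image, Finset.mem_range] at hq ⊢
    obtain ⟨q', h1, rfl⟩ := hq
    rw [pow_succ]
    omega

/-- the class of an element -/
def _root_.Pool.Agent.NSER.DEG.cls {A B : ℤ} (n : ℕ) (x : OO A B) : ℕ × ℕ :=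
  (((2 * x.re + x.im * B) % (3 ^ (n + 1) : ℕ)).toNat, (x.im % (3 ^ n : ℕ)).toNat)

lemma int_mul {A B : ℤ} (a b t : ℤ) (x : OO A B) (ha : a = 2)
    (h : 2 * x.re + x.im * B = b * t) :
    ((a : ℤ) : OO A B) * x =
      ((b : ℤ) : OO A B) * ((t : ℤ) : OO A B) + ((x.im : ℤ) : OO A B) * dD A B := by
  ext
  · simp [dD]
    rw [ha]
    linarith
  · simp [dD]
    rw [ha]
    ring

lemma nat_mul {A B : ℤ} (N : ℕ) (r s : ℤ) (x : OO A B) (h1 : x.re = N * r) (h2 : x.im = N * s) :
    x = (N : OO A B) * (⟨r, s⟩ : OO A B) := by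
  ext <;> simp [h1, h2]

/-- the elements of `P` -/
lemma mem_P {A B : ℤ} (P : Ideal (OO A B)) (h3 : (3 : OO A B) ∈ P) (hd : dD A B ∈ P)
    (x : OO A B) (h : (3 : ℤ) ∣ 2 * x.re + x.im * B) : x ∈ P := by
  obtain ⟨t, ht⟩ := h
  have e1 : (2 : OO A B) * x = 3 * ((t : ℤ) : OO A B) + ((x.im : ℤ) : OO A B) * dD A B := by
    have hx : (2 : OO A B) * x = (((2 : ℤ)) : OO A B) * x := by norm_num
    have h3' : (3 : OO A B) = (((3 : ℤ)) : OO A B) := by norm_num
    rw [hx, h3']
    exact int_mul 2 3 t x rfl ht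
  have e2 : (2 : OO A B) * x ∈ P := by
    rw [e1]
    exact P.add_mem (P.mul_mem_right _ h3) (P.mul_mem_left _ hd)
  have e3 : x = 3 * x - 2 * x := by ring
  rw [e3]
  exact P.sub_mem (P.mul_mem_right _ h3) e2

lemma _root_.Pool.Agent.NSER.DEG.cls_mem {A B : ℤ} (P : Ideal (OO A B)) (h3 : (3 : OO A B) ∈ P) (hd : dD A B ∈ P)
    (n : ℕ) (x : OO A B) (hx : x ∉ P) : _root_.Pool.Agent.NSER.DEG.cls n x ∈ _root_.Pool.Agent.NSER.DEG.box n := by
  have hN : (0 : ℤ) < ((3 ^ (n + 1) : ℕ) : ℤ) := by positivity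
  have hN' : (0 : ℤ) < ((3 ^ n : ℕ) : ℤ) := by positivity
  have h1 := Int.emod_nonneg (2 * x.re + x.im * B) hN.ne'
  have h2 := Int.emod_lt_of_pos (2 * x.re + x.im * B) hN
  have h4 := Int.emod_nonneg x.im hN'.ne'
  have h5 := Int.emod_lt_of_pos x.im hN'
  unfold _root_.Pool.Agent.NSER.DEG.box _root_.Pool.Agent.NSER.DEG.cls
  rw [Finset.mem_product, Finset.mem_sdiff]
  refine ⟨⟨?_, ?_⟩, ?_⟩
  · simp only [Finset.mem_range]
    omega
  · intro h
    simp only [Finset.mem_image, Finset.mem_range] at h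
    obtain ⟨q, -, e1⟩ := h
    apply hx
    apply mem_P P h3 hd
    have h6 : (3 : ℤ) ∣ ((3 ^ (n + 1) : ℕ) : ℤ) := by
      push_cast
      exact dvd_pow_self 3 (by omega)
    have h7 := Int.emod_add_mul_ediv (2 * x.re + x.im * B) ((3 ^ (n + 1) : ℕ) : ℤ)
    rw [← h7]
    refine dvd_add ?_ (dvd_mul_of_dvd_left h6 _)
    exact ⟨q, by omega⟩
  · simp only [Finset.mem_range]
    omega

lemma _root_.Pool.Agent.NSER.DEG.cls_inj {A B : ℤ} (P : Ideal (OO A B)) (h3 : (3 : OO A B) ∈ P) (hd : dD A B ∈ P)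
    (n : ℕ) (hn : P ^ (2 * n) = idl (A := A) (B := B) (3 ^ n)) (x y : OO A B)
    (h : _root_.Pool.Agent.NSER.DEG.cls n x = _root_.Pool.Agent.NSER.DEG.cls n y) : x - y ∈ P ^ (2 * n + 1) := by
  have hN : (0 : ℤ) < ((3 ^ (n + 1) : ℕ) : ℤ) := by positivity
  have hN' : (0 : ℤ) < ((3 ^ n : ℕ) : ℤ) := by positivity
  have h1 := Int.emod_nonneg (2 * x.re + x.im * B) hN.ne'
  have h2 := Int.emod_nonneg (2 * y.re + y.im * B) hN.ne'
  have h4 := Int.emod_nonneg x.im hN'.ne'
  have h5 := Int.emod_nonneg y.im hN'.ne'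
  unfold _root_.Pool.Agent.NSER.DEG.cls at h
  rw [Prod.mk.injEq] at h
  obtain ⟨e1, e2⟩ := h
  have e3 : (2 * x.re + x.im * B) % ((3 ^ (n + 1) : ℕ) : ℤ) =
      (2 * y.re + y.im * B) % ((3 ^ (n + 1) : ℕ) : ℤ) := by omega
  have e4 : x.im % ((3 ^ n : ℕ) : ℤ) = y.im % ((3 ^ n : ℕ) : ℤ) := by omega
  have e5 : ((3 ^ (n + 1) : ℕ) : ℤ) ∣ (2 * x.re + x.im * B) - (2 * y.re + y.im * B) :=
    Int.ModEq.dvd (Int.ModEq.symm e3)
  have e6 : ((3 ^ n : ℕ) : ℤ) ∣ x.im - y.im := Int.ModEq.dvd (Int.ModEq.symm e4)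
  have e7 : ((3 ^ n : ℕ) : ℤ) ∣ 2 * (x.re - y.re) := by
    have e8 : ((3 ^ n : ℕ) : ℤ) ∣ ((3 ^ (n + 1) : ℕ) : ℤ) := by
      push_cast
      exact pow_dvd_pow 3 (by omega)
    have e9 : 2 * (x.re - y.re) =
        ((2 * x.re + x.im * B) - (2 * y.re + y.im * B)) - (x.im - y.im) * B := by ring
    rw [e9]
    exact dvd_sub (e8.trans e5) (dvd_mul_of_dvd_left e6 _)
  have e10 : ((3 ^ n : ℕ) : ℤ) ∣ x.re - y.re := by
    have hc : IsCoprime ((3 ^ n : ℕ) : ℤ) 2 := by
      push_cast
      exact IsCoprime.pow_left ⟨1, -1, by norm_num⟩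
    exact hc.dvd_of_dvd_mul_left e7
  obtain ⟨s, hs⟩ := e6
  obtain ⟨r, hr⟩ := e10
  have e11 : x - y = ((3 ^ n : ℕ) : OO A B) * (⟨r, s⟩ : OO A B) := nat_mul _ r s _ hr hs
  have e12 : (⟨r, s⟩ : OO A B) ∈ P := by
    apply mem_P P h3 hd
    show (3 : ℤ) ∣ 2 * r + s * B
    have e13 : (2 * x.re + x.im * B) - (2 * y.re + y.im * B) =
        ((3 ^ n : ℕ) : ℤ) * (2 * r + s * B) := by
      have : (2 * x.re + x.im * B) - (2 * y.re + y.im * B) =
        2 * (x.re - y.re) + (x.im - y.im) * B := by ring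
      rw [this, hr, hs]
      ring
    rw [e13] at e5
    have e14 : ((3 ^ (n + 1) : ℕ) : ℤ) = ((3 ^ n : ℕ) : ℤ) * 3 := by
      push_cast
      exact pow_succ 3 n
    rw [e14] at e5
    exact Int.dvd_of_mul_dvd_mul_left hN'.ne' e5
  rw [e11, pow_succ, hn]
  exact Ideal.mul_mem_mul (Ideal.mem_span_singleton_self _) e12

end DEG

open _root_.Pool.Agent.NSER.DEG in
theorem tf_DEG (hIDL : Sf_IDL) : Sf_DEG := by
  classical
  intro A B P V hC hG n f hf h3f
  have hR := hC.ring
  obtain ⟨f1, -, f3, -, f5⟩ := Pool.Agent.MUXE.te_FAC Pool.Agent.MUXE.te_TRA A B hR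
  obtain ⟨i3, -, ipow, -, ilv⟩ := hIDL A B P V hC
  obtain ⟨-, -, -, -, ibot, -⟩ := ilv f n hf
  have hd := hC.dP
  -- ideals
  set m : Ideal (OO A B) := lvR P f n with hm
  set m' : Ideal (OO A B) := idl (A := A) (B := B) f with hm'
  have hmm' : m ≤ m' := Ideal.mul_le_left
  have hmP : m ≤ P := Ideal.mul_le_right.trans (Ideal.pow_le_self (by omega))
  have hm0 : m ≠ ⊥ := ibot
  have hcop0 : IsCoprime (((3 ^ (n + 1) : ℕ)) : OO A B) ((f : ℕ) : OO A B) := by
    have h4 : Nat.Coprime (3 ^ (n + 1)) f :=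
      Nat.Coprime.pow_left _ ((Nat.Prime.coprime_iff_not_dvd Nat.prime_three).2 h3f)
    have h5 := (Nat.isCoprime_iff_coprime.2 h4).intCast (R := OO A B)
    simpa using h5
  have hmem3 : (((3 ^ (n + 1) : ℕ)) : OO A B) ∈ P ^ (2 * n + 1) := by
    rw [pow_succ, ipow n]
    have : (((3 ^ (n + 1) : ℕ)) : OO A B) = ((3 ^ n : ℕ) : OO A B) * 3 := by
      push_cast
      exact pow_succ 3 n
    rw [this]
    exact Ideal.mul_mem_mul (Ideal.mem_span_singleton_self _) i3
  have hcop : IsCoprime m' (P ^ (2 * n + 1)) := by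
    rw [Ideal.isCoprime_iff_exists]
    obtain ⟨a, b, hab⟩ := hcop0
    exact ⟨b * (f : OO A B), Ideal.mul_mem_left _ _ (Ideal.mem_span_singleton_self _),
      a * ((3 ^ (n + 1) : ℕ) : OO A B), Ideal.mul_mem_left _ _ hmem3, by rw [add_comm]; exact hab⟩
  have hinf : ∀ x : OO A B, x ∈ P ^ (2 * n + 1) → x ∈ m' → x ∈ m := by
    intro x h4 h5
    have h6 : m' * P ^ (2 * n + 1) = m' ⊓ P ^ (2 * n + 1) := Ideal.mul_eq_inf_of_isCoprime hcop
    show x ∈ m' * P ^ (2 * n + 1)
    rw [h6]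
    exact ⟨h5, h4⟩
  -- fields
  have hF : RF m' ≤ RF m := f1 m m' hmm'
  haveI := hG.fin m hm0
  haveI := hG.gal m hm0
  rw [← Pool.Agent.FX.card_fix hF]
  refine Nat.mul_le_mul_right _ ?_
  -- the kernel
  have hker : ∀ σ : Pool.Agent.FX.Fix (RF m') (RF m), ∃ α : OO A B, α - 1 ∈ m' ∧
      ActE (_root_.Pool.Agent.MU3A.em σ.1) m α := by
    intro σ
    refine hG.ker m m' hm0 hmm' (_root_.Pool.Agent.MU3A.em σ.1) ?_
    intro y hy hy'
    exact σ.2 y hy hy'
  choose α hα1 hα2 using hker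
  have hα3 : ∀ σ, α σ ∉ P := by
    intro σ hσ
    have h4 := (hα2 σ).1
    have h5 : sp (α σ) ≤ P := (Ideal.span_singleton_le_iff_mem _).2 hσ
    have h7 : sp (α σ) ⊔ m = ⊤ := Ideal.isCoprime_iff_sup_eq.1 h4
    have h8 : (⊤ : Ideal (OO A B)) ≤ P := h7 ▸ sup_le h5 hmP
    exact hC.max.ne_top (top_le_iff.1 h8)
  have hinj : ∀ σ τ, α σ - α τ ∈ P ^ (2 * n + 1) → σ = τ := by
    intro σ τ h
    have h4 : α σ - α τ ∈ m' := by
      have := sub_mem (hα1 σ) (hα1 τ)
      rwa [sub_sub_sub_cancel_right] at this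
    have h5 : α σ - α τ ∈ m := hinf _ h h4
    have h6 := f5 m (RF m) (_root_.Pool.Agent.MU3A.em σ.1) (α σ) (α τ) (Or.inl h5) (hα2 σ)
    have h7 := f3 m _ _ _ h6 (hα2 τ)
    exact Pool.Agent.FX.fix_ext fun x => DFunLike.congr_fun h7 x
  have hcard : Nat.card (Pool.Agent.FX.Fix (RF m') (RF m)) ≤ Nat.card (_root_.Pool.Agent.NSER.DEG.box n) := by
    refine Nat.card_le_card_of_injective
      (fun σ => ⟨_root_.Pool.Agent.NSER.DEG.cls n (α σ), _root_.Pool.Agent.NSER.DEG.cls_mem P i3 hd n _ (hα3 σ)⟩) ?_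
    intro σ τ h
    exact hinj _ _ (_root_.Pool.Agent.NSER.DEG.cls_inj P i3 hd n (ipow n) _ _ (congrArg Subtype.val h))
  refine hcard.trans (le_of_eq ?_)
  rw [Nat.card_eq_fintype_card, Fintype.card_coe, _root_.Pool.Agent.NSER.DEG.card_box]

end

end Pool.Agent.NSER


end
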