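import Mathlib
import Pool.Agent.MVF.C158

/-! Parts: ME.E4_DEG, NS.T_FGP, NS.T_TCJ, NS.F_COE, NS.TR_TAU -/

namespace Pool.Agent.ME4.DEG
end Pool.Agent.ME4.DEG
namespace Pool.Agent.NSER.COE
end Pool.Agent.NSER.COE
namespace Pool.Agent.NSTR.TAU
end Pool.Agent.NSTR.TAU

section

/-!
# MUX-NS, block EN, module DEG: the degree of `RFE (3^(j+1) f)` over `RFE (f)`
-/

set_option autoImplicit false

open Polynomial

namespace Pool.Agent.ME4

open _root_.MU3 _root_.Pool.Agent.MU3A _root_.Pool.Agent.MU3B _root_.Pool.Agent.MUX _root_.Pool.Agent.MUXU _root_.Pool.Agent.MUXE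
open _root_.Pool.Agent.RI _root_.Pool.Agent.NS
open _root_.Pool.Agent.ME hiding ActE
open _root_.Pool.Agent.MEE
open _root_.Pool.Agent.NSE (E3 su ru WL IntP Pts Rep Se_ALG Se_PRO Se_PUL Se_COE Se_GRN Se_LEG Se_TW3 Se_PTS Se_TPN Se_UNT Se_RAT Se_ISO Se_ADD Se_THN Se_BAS Se_NE1)
open _root_.Pool.Agent.MUXV (GR InK tX)

noncomputable section

namespace DEG

lemma mem_idl_of {A B : ℤ} (n : ℕ) (x : OO A B) (h1 : (n : ℤ) ∣ x.re) (h2 : (n : ℤ) ∣ x.im) :
    x ∈ idl (A := A) (B := B) n := by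
  obtain ⟨a, ha⟩ := h1
  obtain ⟨b, hb⟩ := h2
  rw [Ideal.mem_span_singleton]
  refine ⟨⟨a, b⟩, ?_⟩
  ext <;> simp [ha, hb]

/-- the pairs modulo `3^(j+1)` which are not divisible by `3` -/
def _root_.Pool.Agent.ME4.DEG.box (j : ℕ) : Finset (ℕ × ℕ) :=
  (Finset.range (3 ^ (j + 1)) ×ˢ Finset.range (3 ^ (j + 1))) \
    ((Finset.range (3 ^ j) ×ˢ Finset.range (3 ^ j)).image fun q => (3 * q.1, 3 * q.2))

lemma _root_.Pool.Agent.ME4.DEG.card_box (j : ℕ) : (_root_.Pool.Agent.ME4.DEG.box j).card = 8 * 9 ^ j := by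
  unfold _root_.Pool.Agent.ME4.DEG.box
  rw [Finset.card_sdiff_of_subset, Finset.card_image_of_injective]
  · simp only [Finset.card_product, Finset.card_range]
    have h1 : 3 ^ (j + 1) * 3 ^ (j + 1) = 9 * 9 ^ j := by
      rw [← mul_pow, pow_succ]; norm_num [mul_comm]
    have h2 : 3 ^ j * 3 ^ j = 9 ^ j := by rw [← mul_pow]; norm_num
    rw [h1, h2]
    omega
  · rintro ⟨a, b⟩ ⟨c, d⟩ h
    simp only [Prod.mk.injEq] at h ⊢
    omega
  · intro q hq
    simp only [Finset.mem_image, Finset.mem_product, Finset.mem_range] at hq ⊢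
    obtain ⟨q', ⟨h1, h2⟩, rfl⟩ := hq
    rw [pow_succ]
    constructor <;> simp only <;> omega

/-- the class of an element -/
def _root_.Pool.Agent.ME4.DEG.cls {A B : ℤ} (j : ℕ) (x : OO A B) : ℕ × ℕ :=
  ((x.re % (3 ^ (j + 1) : ℕ)).toNat, (x.im % (3 ^ (j + 1) : ℕ)).toNat)

lemma _root_.Pool.Agent.ME4.DEG.cls_mem {A B : ℤ} (j : ℕ) (x : OO A B) (hx : x ∉ idl (A := A) (B := B) 3) :
    _root_.Pool.Agent.ME4.DEG.cls j x ∈ _root_.Pool.Agent.ME4.DEG.box j := by
  have hN : (0 : ℤ) < ((3 ^ (j + 1) : ℕ) : ℤ) := by positivity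
  have h1 := Int.emod_nonneg x.re hN.ne'
  have h2 := Int.emod_lt_of_pos x.re hN
  have h3 := Int.emod_nonneg x.im hN.ne'
  have h4 := Int.emod_lt_of_pos x.im hN
  unfold _root_.Pool.Agent.ME4.DEG.box _root_.Pool.Agent.ME4.DEG.cls
  rw [Finset.mem_sdiff]
  constructor
  · simp only [Finset.mem_product, Finset.mem_range]
    omega
  · intro h
    simp only [Finset.mem_image, Finset.mem_product, Finset.mem_range, Prod.mk.injEq] at h
    obtain ⟨q, -, e1, e2⟩ := h
    apply hx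
    have h5 : (3 : ℤ) ∣ ((3 ^ (j + 1) : ℕ) : ℤ) := by
      push_cast
      exact dvd_pow_self 3 (by omega)
    have h6 := Int.emod_add_mul_ediv x.re ((3 ^ (j + 1) : ℕ) : ℤ)
    have h7 := Int.emod_add_mul_ediv x.im ((3 ^ (j + 1) : ℕ) : ℤ)
    apply mem_idl_of
    · rw [← h6]
      refine dvd_add ?_ (dvd_mul_of_dvd_left (by exact_mod_cast h5) _)
      push_cast
      exact ⟨q.1, by push_cast at e1 h1 ⊢; omega⟩
    · rw [← h7]
      refine dvd_add ?_ (dvd_mul_of_dvd_left (by exact_mod_cast h5) _)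
      push_cast
      exact ⟨q.2, by push_cast at e2 h3 ⊢; omega⟩

lemma _root_.Pool.Agent.ME4.DEG.cls_inj {A B : ℤ} (j : ℕ) (x y : OO A B) (h : _root_.Pool.Agent.ME4.DEG.cls j x = _root_.Pool.Agent.ME4.DEG.cls j y) :
    x - y ∈ idl (A := A) (B := B) (3 ^ (j + 1)) := by
  have hN : (0 : ℤ) < ((3 ^ (j + 1) : ℕ) : ℤ) := by positivity
  have h1 := Int.emod_nonneg x.re hN.ne'
  have h2 := Int.emod_nonneg y.re hN.ne'
  have h3 := Int.emod_nonneg x.im hN.ne'
  have h4 := Int.emod_nonneg y.im hN.ne'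
  unfold _root_.Pool.Agent.ME4.DEG.cls at h
  rw [Prod.mk.injEq] at h
  obtain ⟨e1, e2⟩ := h
  have e3 : x.re % ((3 ^ (j + 1) : ℕ) : ℤ) = y.re % ((3 ^ (j + 1) : ℕ) : ℤ) := by omega
  have e4 : x.im % ((3 ^ (j + 1) : ℕ) : ℤ) = y.im % ((3 ^ (j + 1) : ℕ) : ℤ) := by omega
  apply mem_idl_of
  · show ((3 ^ (j + 1) : ℕ) : ℤ) ∣ x.re - y.re
    exact Int.ModEq.dvd (Int.ModEq.symm e3)
  · show ((3 ^ (j + 1) : ℕ) : ℤ) ∣ x.im - y.im
    exact Int.ModEq.dvd (Int.ModEq.symm e4)

end DEG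

open _root_.Pool.Agent.ME4.DEG in
theorem t4_DEG : S4_DEG := by
  classical
  intro A B V hC hG j f hf h2f h3f
  have hR := hC.ring
  obtain ⟨f1, -, f3, -, f5⟩ := Pool.Agent.MEE.tm_FAC Pool.Agent.MEE.tm_TRA A B hR
  -- ideals
  set m : Ideal (OO A B) := idl (A := A) (B := B) (3 ^ (j + 1) * f) with hm
  set m' : Ideal (OO A B) := idl (A := A) (B := B) f with hm'
  have hmm' : m ≤ m' := Ideal.span_singleton_le_span_singleton.2
    (by push_cast; exact Dvd.intro_left _ rfl)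
  have hm2 : m' ≤ idl (A := A) (B := B) 2 := Ideal.span_singleton_le_span_singleton.2
    (by exact_mod_cast (Nat.cast_dvd_cast (α := OO A B) h2f))
  have hm3 : m ≤ idl (A := A) (B := B) 3 := Ideal.span_singleton_le_span_singleton.2
    (by
      push_cast
      exact dvd_mul_of_dvd_left (dvd_pow_self _ (by omega)) _)
  have hm0 : m ≠ ⊥ := by
    intro h0
    have h4 : (((3 ^ (j + 1) * f : ℕ)) : OO A B) ∈ m := Ideal.mem_span_singleton_self _
    rw [h0, Ideal.mem_bot] at h4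
    obtain ⟨φ, hφ⟩ := hR.hom
    have h5 : φ (((3 ^ (j + 1) * f : ℕ)) : OO A B) = ((3 ^ (j + 1) * f : ℕ) : ℂ) := map_natCast φ _
    rw [h4, map_zero] at h5
    have h6 : (3 ^ (j + 1) * f : ℕ) = 0 := by exact_mod_cast h5.symm
    exact (mul_ne_zero (pow_ne_zero _ (by norm_num)) hf) h6
  have hcop : IsCoprime (((3 ^ (j + 1) : ℕ)) : OO A B) ((f : ℕ) : OO A B) := by
    have h4 : Nat.Coprime (3 ^ (j + 1)) f :=
      Nat.Coprime.pow_left _ ((Nat.Prime.coprime_iff_not_dvd Nat.prime_three).2 h3f)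
    have h5 := (Nat.isCoprime_iff_coprime.2 h4).intCast (R := OO A B)
    simpa using h5
  have hinf : ∀ x : OO A B, x ∈ idl (A := A) (B := B) (3 ^ (j + 1)) → x ∈ m' → x ∈ m := by
    intro x h4 h5
    rw [Ideal.mem_span_singleton] at h4 h5
    rw [hm, Ideal.mem_span_singleton, Nat.cast_mul]
    exact hcop.mul_dvd h4 h5
  -- fields
  have hF : RFE m' ≤ RFE m := f1 m m' hmm'
  haveI := hG.fin m hm0
  haveI := hG.gal m hm0
  rw [← Pool.Agent.FX.card_fix hF]
  refine Nat.mul_le_mul_right _ ?_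
  -- the kernel
  have hker : ∀ σ : Pool.Agent.FX.Fix (RFE m') (RFE m), ∃ α : OO A B, α - 1 ∈ m' ∧
      ActEE (_root_.Pool.Agent.MU3A.em σ.1) m α := by
    intro σ
    refine hG.ker m m' hm0 hmm' hm2 (_root_.Pool.Agent.MU3A.em σ.1) ?_
    intro y hy hy'
    exact σ.2 y hy hy'
  choose α hα1 hα2 using hker
  have hα3 : ∀ σ, α σ ∉ idl (A := A) (B := B) 3 := by
    intro σ hσ
    have h4 := (hα2 σ).1
    have h5 : sp (α σ) ≤ idl (A := A) (B := B) 3 := (Ideal.span_singleton_le_iff_mem _).2 hσ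
    have h7 : sp (α σ) ⊔ m = ⊤ := Ideal.isCoprime_iff_sup_eq.1 h4
    have h8 : (⊤ : Ideal (OO A B)) ≤ idl (A := A) (B := B) 3 := h7 ▸ sup_le h5 hm3
    exact hC.max.ne_top (top_le_iff.1 h8)
  have hinj : ∀ σ τ, α σ - α τ ∈ idl (A := A) (B := B) (3 ^ (j + 1)) → σ = τ := by
    intro σ τ h
    have h4 : α σ - α τ ∈ m' := by
      have := sub_mem (hα1 σ) (hα1 τ)
      rwa [sub_sub_sub_cancel_right] at this
    have h5 : α σ - α τ ∈ m := hinf _ h h4
    have h6 := f5 m (RFE m) (_root_.Pool.Agent.MU3A.em σ.1) (α σ) (α τ) (Or.inl h5) (hα2 σ)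
    have h7 := f3 m _ _ _ h6 (hα2 τ)
    exact Pool.Agent.FX.fix_ext fun x => DFunLike.congr_fun h7 x
  have hcard : Nat.card (Pool.Agent.FX.Fix (RFE m') (RFE m)) ≤ Nat.card (_root_.Pool.Agent.ME4.DEG.box j) := by
    refine Nat.card_le_card_of_injective (fun σ => ⟨_root_.Pool.Agent.ME4.DEG.cls j (α σ), _root_.Pool.Agent.ME4.DEG.cls_mem j _ (hα3 σ)⟩) ?_
    intro σ τ h
    exact hinj _ _ (_root_.Pool.Agent.ME4.DEG.cls_inj j _ _ (congrArg Subtype.val h))
  refine hcard.trans (le_of_eq ?_)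
  rw [Nat.card_eq_fintype_card, Fintype.card_coe, _root_.Pool.Agent.ME4.DEG.card_box]

end

end Pool.Agent.ME4


end

section

/-!
# MUX-NS, block TN: FGP (helper20, for helper4)

Finitely many pairs of cusps generate all values.
-/

set_option autoImplicit false

namespace Pool.Agent.NST

open OnePoint
open _root_.Pool.Agent.MUXY (Dn)

namespace FGP

/-- a subset of a finitely generated abelian group is generated by a finite part of itself -/
theorem finite_gen (T : Finset ℂ) (X : Set ℂ) (hX : X ⊆ AddSubgroup.closure (T : Set ℂ)) :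
    ∃ F : Finset ℂ, (F : Set ℂ) ⊆ X ∧ X ⊆ AddSubgroup.closure (F : Set ℂ) := by
  have h1 : (Submodule.span ℤ X).FG := by
    have hle : Submodule.span ℤ X ≤ Submodule.span ℤ (T : Set ℂ) := by
      rw [Submodule.span_le]
      intro x hx
      have := hX hx
      rw [← Submodule.span_int_eq_addSubgroupClosure] at this
      exact this
    have : IsNoetherian ℤ (Submodule.span ℤ (T : Set ℂ)) :=
      isNoetherian_span_of_finite ℤ T.finite_toSet
    exact (isNoetherian_submodule.mp this) _ hle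
  obtain ⟨F, hF, hs⟩ := (Submodule.fg_span_iff_fg_span_finset_subset X).1 h1
  refine ⟨F, hF, fun x hx => ?_⟩
  have : x ∈ Submodule.span ℤ (F : Set ℂ) := by
    rw [← hs]; exact Submodule.subset_span hx
  rw [← Submodule.span_int_eq_addSubgroupClosure]
  exact this

/-- every cusp has a denominator -/
theorem ex_Dn (x : OnePoint ℚ) : ∃ m : ℕ, m ≠ 0 ∧ Dn m x := by
  induction x using OnePoint.rec with
  | infty => exact ⟨1, one_ne_zero, fun r hr => absurd hr (OnePoint.infty_ne_coe r)⟩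
  | coe q => exact ⟨q.den, q.den_nz, fun r hr => by
      rw [OnePoint.coe_eq_coe] at hr; rw [hr]⟩

theorem Dn_mul {m m' : ℕ} {x : OnePoint ℚ} (h : Dn m x) (hd : m ∣ m') : Dn m' x :=
  fun r hr => (h r hr).trans hd

/-- a common denominator of a finite set of cusps -/
theorem ex_common (S : Finset (OnePoint ℚ × OnePoint ℚ)) :
    ∃ D : ℕ, D ≠ 0 ∧ ∀ q ∈ S, Dn D q.1 ∧ Dn D q.2 := by
  classical
  induction S using Finset.induction_on with
  | empty => exact ⟨1, one_ne_zero, fun q hq => absurd hq (Finset.notMem_empty q)⟩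
  | insert a s ha ih =>
    obtain ⟨D, hD, h⟩ := ih
    obtain ⟨m1, hm1, h1⟩ := ex_Dn a.1
    obtain ⟨m2, hm2, h2⟩ := ex_Dn a.2
    refine ⟨D * (m1 * m2), mul_ne_zero hD (mul_ne_zero hm1 hm2), fun q hq => ?_⟩
    rcases Finset.mem_insert.1 hq with rfl | hq
    · exact ⟨Dn_mul h1 ((dvd_mul_right m1 m2).trans (dvd_mul_left _ D)),
        Dn_mul h2 ((dvd_mul_left m2 m1).trans (dvd_mul_left _ D))⟩
    · exact ⟨Dn_mul (h q hq).1 (dvd_mul_right _ _), Dn_mul (h q hq).2 (dvd_mul_right _ _)⟩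

end FGP

theorem nt_FGP : Nt_FGP := by
  classical
  intro P T hT
  obtain ⟨F, hF, hgen⟩ := FGP.finite_gen T
    (Set.range fun q : OnePoint ℚ × OnePoint ℚ => P q.1 q.2)
    (by rintro _ ⟨q, rfl⟩; exact hT q.1 q.2)
  have hch : ∀ f : {f : ℂ // f ∈ F}, ∃ q : OnePoint ℚ × OnePoint ℚ, P q.1 q.2 = f.1 :=
    fun f => hF f.2
  choose g hg using hch
  obtain ⟨D, hD, hDn⟩ := FGP.ex_common (F.attach.image g)
  obtain ⟨j, N, hN, hDN⟩ := Nat.exists_eq_pow_mul_and_not_dvd hD 3 (by norm_num)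
  refine ⟨F.attach.image g, j, N, ?_, hN, ?_, ?_⟩
  · rintro rfl; exact hN (dvd_zero 3)
  · intro q hq; rw [← hDN]; exact hDn q hq
  · intro x y
    refine AddSubgroup.closure_mono ?_ (hgen ⟨(x, y), rfl⟩)
    intro f hf
    exact ⟨g ⟨f, hf⟩, Finset.mem_coe.2 (Finset.mem_image.2 ⟨⟨f, hf⟩, Finset.mem_attach _ _, rfl⟩),
      hg ⟨f, hf⟩⟩

end Pool.Agent.NST


end

section

/-!
# MUX-NS, block TN, module TCJ (helper48): conjugation of the coordinates
-/

set_option autoImplicit false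

namespace Pool.Agent.NST

open _root_.MU3 _root_.Pool.Agent.MU3A _root_.Pool.Agent.MU3B _root_.Pool.Agent.RI _root_.Pool.Agent.MUX _root_.Pool.Agent.MUXU
open OnePoint _root_.Pool.Agent.NS
open _root_.Pool.Agent.MUXV (GR InK)
open _root_.Pool.Agent.NSE (CtxN E3 su ru Rep)
open _root_.Pool.Agent.MUXY (ActN Dn)

noncomputable section

theorem nt_TCJ : Nt_TCJ := by
  intro A B n ι R m σ c d hA u e hu0 hu he z hmz hz
  obtain ⟨h1, h2, h3⟩ := (hA.act R.i0).act z hmz hz
  set L := R.L R.i0 with hL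
  have key : emb c * z ∉ L.lattice ∧ L.weierstrassP (emb c * z) = σ (L.weierstrassP z) ∧
      L.derivWeierstrassP (emb c * z) = d R.i0 * σ (L.derivWeierstrassP z) := by
    rcases hA.sgn R.i0 with hd | hd
    · rw [hd] at h1 h2 h3 ⊢
      rw [Int.cast_one, one_mul] at h1 h2 h3
      refine ⟨h1, h2, ?_⟩
      rw [h3, Int.cast_one, one_mul]
    · rw [hd] at h1 h2 h3 ⊢
      have e1 : (((-1 : ℤ) : ℂ) * emb c) * z = -(emb c * z) := by push_cast; ring
      rw [e1] at h1 h2 h3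
      rw [L.weierstrassP_neg] at h2
      rw [L.derivWeierstrassP_neg] at h3
      refine ⟨fun h => h1 (neg_mem h), h2, ?_⟩
      rw [← h3]
      push_cast
      ring
  obtain ⟨k1, k2, k3⟩ := key
  have hdd : ((d R.i0 : ℤ) : ℂ) ^ 2 = 1 := by
    rcases hA.sgn R.i0 with hd | hd <;> rw [hd] <;> norm_num
  have hd0 : ((d R.i0 : ℤ) : ℂ) ≠ 0 := by
    intro h
    rw [h] at hdd
    norm_num at hdd
  have hx : σ (xu L u e z) = xu L u e (emb c * z) := by
    unfold xu
    rw [k2, map_div₀, map_sub, map_pow, hu, he, mul_pow, hdd, one_mul]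
  have hy : σ (yu L u z) = yu L u (emb c * z) := by
    unfold yu
    rw [k3, map_div₀, map_mul, map_pow, hu, map_ofNat]
    have e2 : 2 * ((d R.i0 : ℂ) * u) ^ 3 = (d R.i0 : ℂ) ^ 2 * (d R.i0 * (2 * u ^ 3)) := by ring
    have e3 : (d R.i0 : ℂ) * σ (L.derivWeierstrassP z) / (2 * u ^ 3) =
        (d R.i0 : ℂ) ^ 2 * σ (L.derivWeierstrassP z) / (d R.i0 * (2 * u ^ 3)) := by
      field_simp
    rw [e2, e3, hdd, one_mul, one_mul]
  refine ⟨k1, hx, hy, ?_⟩
  unfold ru
  rw [map_div₀, map_neg, map_pow, hx, hy]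

end

end Pool.Agent.NST


end

section

/-!
# MUX-NS, block ER, module COE (helper65): the coefficients of the Legendre model
-/

set_option autoImplicit false

open Polynomial

namespace Pool.Agent.NSER

open _root_.MU3 _root_.Pool.Agent.MU3A _root_.Pool.Agent.MU3B _root_.Pool.Agent.MUX _root_.Pool.Agent.MUXU _root_.Pool.Agent.MUXE
open _root_.Pool.Agent.RI _root_.Pool.Agent.NS _root_.Pool.Agent.NSRD
open _root_.Pool.Agent.NSE (E3 su ru WL IntP Rep)
open _root_.Pool.Agent.MUXV (GR InK tX)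

noncomputable section

namespace COE

lemma _root_.Pool.Agent.NSER.COE.hasDeriv (L : PeriodPair) {z : ℂ} (hz : z ∉ L.lattice) :
    HasDerivAt L.weierstrassP (L.derivWeierstrassP z) z := by
  have h1 : DifferentiableAt ℂ L.weierstrassP z :=
    L.differentiableOn_weierstrassP.differentiableAt
      (L.isClosed_lattice.isOpen_compl.mem_nhds hz)
  have h2 := h1.hasDerivAt
  rwa [L.deriv_weierstrassP] at h2

end COE

open _root_.Pool.Agent.NSER.COE in
theorem tf_COE : Sf_COE := by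
  intro V L u e lam hG h3
  have hu := hG.u0
  -- the polynomial identity
  have key : ∀ T : ℂ, 4 * T ^ 3 - L.g₂ * T - L.g₃ =
      4 * (T - e) * (T - e - u ^ 2) * (T - e - lam * u ^ 2) := by
    intro T
    obtain ⟨z, hz, hT⟩ := b_SUR L T
    have h1 := L.derivWeierstrassP_sq z hz
    have h2 := hG.eq z hz
    rw [← hT, ← h1]
    have h4 : L.derivWeierstrassP z ^ 2 =
        (L.derivWeierstrassP z / (2 * u ^ 3)) ^ 2 * (4 * u ^ 6) := by
      field_simp
      ring
    rw [h4, h2]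
    field_simp
  have k0 := key 0
  have k1 := key 1
  have k2 := key (-1)
  have a1 : 3 * e = -(1 + lam) * u ^ 2 := by
    have : 4 * (3 * e + (1 + lam) * u ^ 2) = 0 := by
      linear_combination (1 / 2 : ℂ) * k1 + (1 / 2 : ℂ) * k2 - k0
    have h5 : 3 * e + (1 + lam) * u ^ 2 = 0 := by
      rcases mul_eq_zero.1 this with h | h
      · norm_num at h
      · exact h
    linear_combination h5
  have a2 : L.g₂ = 4 * (3 * e ^ 2 - lam * u ^ 4) := by
    linear_combination (-1 / 2 : ℂ) * k1 + (1 / 2 : ℂ) * k2 - 8 * e * a1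
  have a3 : L.g₃ = 4 * e ^ 3 - L.g₂ * e := by
    linear_combination -k0 + 4 * e ^ 2 * a1 + e * a2
  have hv1 : V.valuation (1 : ℂ) = 1 := map_one _
  have v2 : V.valuation (2 : ℂ) = 1 := by
    have h5 : V.valuation ((-1 : ℂ) + 3) = V.valuation (-1 : ℂ) :=
      Valuation.map_add_eq_of_lt_left _ (by rw [Valuation.map_neg, hv1]; exact h3)
    rw [Valuation.map_neg, hv1] at h5
    rw [← h5]
    congr 1
    norm_num
  have hl : V.valuation (1 + lam) < 1 := by
    by_contra hcon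
    exact absurd (lt_of_le_of_lt hG.lam1 h3) (not_lt.2 (one_le_pow₀ (not_lt.1 hcon)))
  have vl : V.valuation lam = 1 := by
    have h5 : V.valuation ((-1 : ℂ) + (1 + lam)) = V.valuation (-1 : ℂ) :=
      Valuation.map_add_eq_of_lt_left _ (by rw [Valuation.map_neg, hv1]; exact hl)
    rw [Valuation.map_neg, hv1] at h5
    rw [← h5]
    congr 1
    ring
  have vl1 : V.valuation (1 - lam) = 1 := by
    have h5 : V.valuation ((2 : ℂ) + -(1 + lam)) = V.valuation (2 : ℂ) :=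
      Valuation.map_add_eq_of_lt_left _ (by rw [Valuation.map_neg, v2]; exact hl)
    rw [v2] at h5
    rw [← h5]
    congr 1
    ring
  refine ⟨a1, a2, a3, v2, vl, vl1, ?_, ?_, ?_⟩
  · intro z hz
    have h5 := hG.eq z hz
    show (L.derivWeierstrassP z / (2 * u ^ 3)) ^ 2 = _
    rw [h5]
    unfold xu
    ring
  · intro z hz
    have h5 := ((_root_.Pool.Agent.NSER.COE.hasDeriv L hz).sub_const e).div_const (u ^ 2)
    have h6 : L.derivWeierstrassP z / u ^ 2 = 2 * u * yu L u z := by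
      unfold yu
      field_simp
    rw [h6] at h5
    exact h5
  · intro z
    refine ⟨fun w hw => ⟨?_, ?_⟩, ?_, ?_⟩
    · unfold xu
      rw [L.weierstrassP_add_coe z ⟨w, hw⟩]
    · unfold yu
      rw [L.derivWeierstrassP_add_coe z ⟨w, hw⟩]
    · unfold xu
      rw [L.weierstrassP_neg]
    · unfold yu
      rw [L.derivWeierstrassP_neg]
      ring

end

end Pool.Agent.NSER


end

section

/-!
# MUX-NS, block TR, module TAU: the number `tau`, ramified case (helper22)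
-/

set_option autoImplicit false

namespace Pool.Agent.NSTR

open _root_.MU3 _root_.Pool.Agent.MU3A _root_.Pool.Agent.MU3B _root_.Pool.Agent.RI _root_.Pool.Agent.MUX _root_.Pool.Agent.MUXU
open OnePoint _root_.Pool.Agent.NS _root_.Pool.Agent.NSRD
open _root_.Pool.Agent.MUXV (GR InK)
open _root_.Pool.Agent.NSE (su ru)
open _root_.Pool.Agent.NST (KIn ActT)
open _root_.Pool.Agent.MUXY (ActN Dn)

noncomputable section

namespace TAU

/-- `ru` is periodic -/
lemma ru_congr (L : PeriodPair) (u e : ℂ) {z w : ℂ} (h : w - z ∈ L.lattice) :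
    ru L u e w = ru L u e z := by
  have h4 := L.derivWeierstrassP_add_coe z ⟨w - z, h⟩
  have h6 := L.weierstrassP_add_coe z ⟨w - z, h⟩
  have h5 : z + ((⟨w - z, h⟩ : L.lattice) : ℂ) = w := by
    show z + (w - z) = w
    ring
  rw [h5] at h4 h6
  unfold ru xu yu
  rw [h4, h6]

/-- `ru` is odd -/
lemma ru_neg (L : PeriodPair) (u e z : ℂ) : ru L u e (-z) = -ru L u e z := by
  unfold ru xu yu
  rw [L.derivWeierstrassP_neg, L.weierstrassP_neg]
  ring

end TAU

open _root_.Pool.Agent.NSTR.TAU in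
theorem tw_TAU (h1 : Sw_DEL) (h2 : Sw_ALT) (h3 : Sw_VSR) : Sw_TAU := by
  intro A B P V hC hP hV hTor n ι R u e lam hg
  obtain ⟨hv3, -, -, -, hdP, -, -, hx3, hd3, hres, -, -⟩ := h1 A B P V hC hP hV
  have hcq : CQ A B := hC.toCQ
  set L := R.L R.i0 with hL
  set om := R.om R.i0 with hom
  have hli : IsLI (R.b R.i0) L om := (R.nl R.i0).toIsLI
  have hmem : ∀ z : ℂ, z ∈ L.lattice ↔ ∃ x : OO A B, z = om * emb x := by
    intro z
    rw [hli.mem z, R.b0]
    simp
  have hom0 : om ≠ 0 := hli.om_ne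
  have e3 : emb (3 : OO A B) = 3 := by
    have := _root_.Pool.Agent.MUX.emb_natCast hcq 3
    simpa using this
  set Y : ℂ := om * emb (dD A B) / 3 with hY
  have hYL : Y ∉ L.lattice := by
    intro hc
    obtain ⟨x, hx⟩ := (hmem _).1 hc
    apply hd3 x
    apply _root_.Pool.Agent.MUX.emb_inj hcq
    rw [_root_.Pool.Agent.MUX.emb_mul hcq, e3]
    have h5 : om * emb (dD A B) = om * (3 * emb x) := by
      rw [hY] at hx
      linear_combination 3 * hx
    exact mul_left_cancel₀ hom0 h5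
  have hxY : ∀ x ∈ P, emb x * Y ∈ L.lattice := by
    intro x hx
    obtain ⟨y, hy⟩ := hx3 x hx
    rw [hmem]
    refine ⟨y, ?_⟩
    have h5 : emb x * emb (dD A B) = 3 * emb y := by
      rw [← _root_.Pool.Agent.MUX.emb_mul hcq, hy, _root_.Pool.Agent.MUX.emb_mul hcq, e3]
    rw [hY]
    linear_combination (om / 3) * h5
  have h3Y : (3 : ℂ) * Y ∈ L.lattice := by
    rw [hmem]
    exact ⟨dD A B, by rw [hY]; ring⟩
  refine ⟨ru L u e Y, (h3 A B P V hC hP hV hTor n ι R u e lam hg Y hYL hxY).2, ?_, ?_⟩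
  · obtain ⟨-, -, -, -, halg⟩ := h2 A B hcq hTor V hv3 (R.b R.i0) L om (R.nl R.i0) u e lam hg
    exact (halg 3 (by norm_num) Y hYL (by push_cast; exact h3Y)).2.2
  · intro m hm σ c d hact hc hσu hσe
    obtain ⟨k, rfl⟩ := hm
    have h5 := (Pool.Agent.NST.nt_TCJ A B n ι R (3 * k) σ c d hact u e hg.u0 hσu hσe Y (by
      have h6 : ((3 * k : ℕ) : ℂ) * Y = (k : ℕ) • (3 * Y) := by
        rw [nsmul_eq_mul]
        push_cast
        ring
      rw [h6]
      exact nsmul_mem h3Y k) hYL).2.2.2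
    rw [← hL] at h5
    rw [h5]
    obtain ⟨hs, hcs⟩ := hres c hc
    have h7 : emb c * Y - emb ((wP P c : ℤ) : OO A B) * Y ∈ L.lattice := by
      rw [← sub_mul, ← _root_.Pool.Agent.MUX.emb_sub hcq]
      exact hxY _ hcs
    rw [_root_.Pool.Agent.MUX.emb_intCast hcq] at h7
    rw [ru_congr L u e h7]
    rcases hs with h8 | h8
    · rw [h8]
      push_cast
      rw [one_mul, one_mul]
    · rw [h8]
      push_cast
      rw [neg_one_mul, neg_one_mul, ru_neg]

end

end Pool.Agent.NSTR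


end
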