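import Mathlib
import Pool.Agent.MVF.C034
import Pool.Agent.MVF.C035
import Pool.Agent.MVF.C063

/-! Parts: ME.StTE, NS.E_PUL, NS.E_ONE, NS.E_NE1, NS.E_FIN, NS.E_DEG, NS.E_ALG, NS.F_ONE -/

namespace Pool.Agent.NSE.DEG
end Pool.Agent.NSE.DEG
namespace Pool.Agent.NSE.FIN
end Pool.Agent.NSE.FIN
namespace Pool.Agent.NSE.NE1
end Pool.Agent.NSE.NE1
namespace Pool.Agent.NSE.ONE
end Pool.Agent.NSE.ONE
namespace Pool.Agent.NSER.ONE
end Pool.Agent.NSER.ONE

section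

/-!
# ME, block T (helper4): the type for `D = -4`, `p = 3`

The twin of `Sn_TYF` (`NS/StTN.lean`) in the frame of `DefsE.lean`; for `D = -3` the statement is `Sq_TYF_E` of `DefsE2.lean`.
-/

set_option autoImplicit false

namespace Pool.Agent.NS

open _root_.MU3 _root_.Pool.Agent.MU3A _root_.Pool.Agent.MU3B _root_.Pool.Agent.RI _root_.Pool.Agent.MUX _root_.Pool.Agent.ME OnePoint

noncomputable section

/-- (TYF) `D = -4`: the type (`typ`, `unr`, `vpi`). -/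
def Sn_TYF_E : Prop :=
  ∀ (A B : ℤ) (V : ValuationSubring ℂ) (f : ℕ), SetE4 A B V f → TorXE A B →
    ∀ (ι : Type) [Fintype ι] (R : RepsE A B (3 * f) ι) (u el lam : ℂ),
    GoodN V (R.L R.i0) u el lam → ∀ w : OO A B → ℂ, IsTei V w →
    ∀ e : OO A B → ℂ, IsEIE (idl (A := A) (B := B) (3 * f)) e → ∀ r : ℕ, ¬ 3 ∣ r →
    (∀ x, e x ≠ 0 → e x ^ r = 1) → ∀ i : ℕ,
    (∀ x, x - 1 ∈ idl (A := A) (B := B) f → x ∉ idl (A := A) (B := B) 3 → e x = w x ^ i) →
    ∀ kk : ι → ℂ, (∀ i, kk i ^ r = 1) →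
    ∃ (pi : ℂ) (KI : Subfield ℂ),
      (∀ x y : OnePoint ℚ, ∃ w' ∈ KI, PhiKE R e kk x y / (u * R.om R.i0) = pi * w') ∧
      (∀ w' ∈ KI, V.valuation w' < 1 → V.valuation w' ≤ V.valuation (3 : ℂ)) ∧
      V.valuation pi ^ 8 * V.valuation (3 : ℂ) ^ i = 1

end

end Pool.Agent.NS


end

section

/-!
# MUX-NS, block EN: pullback of representable functions (helper96)

`F = A(s') + r' B(s')` on `S'`, `ρ : S → S'` with `s' ∘ ρ` represented by `(0, 0)` and `r' ∘ ρ` by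
`(0, c)`: then `F ∘ ρ` is represented by `(α, β c)`.
-/

set_option autoImplicit false

open Polynomial

namespace Pool.Agent.NSE

open _root_.MU3 _root_.Pool.Agent.MU3A _root_.Pool.Agent.MU3B _root_.Pool.Agent.MUX _root_.Pool.Agent.MUXU _root_.Pool.Agent.MUXE
open _root_.Pool.Agent.RI _root_.Pool.Agent.NS
open _root_.Pool.Agent.MUXV (GR InK tX)

theorem te_PUL (hA : Se_ALG) (hP : Se_PRO) : Se_PUL := by
  intro V S S' s r s' r' a2 a4 ρ c hpts hρ hs hr F α β hF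
  obtain ⟨-, -, -, hch, hadd, hmul, -, hval, -⟩ := hA V S s r a2 a4 hpts
  obtain ⟨hpol, -, -⟩ := hP V S s r a2 a4 hpts
  obtain ⟨P, Q, iP, iQ, hFe, hPα, hQβ⟩ := hF
  have hc : V.valuation c ≤ 1 := (hval _ _ _ hr).2.1
  have h1 := hpol _ _ _ P hs iP
  have h2 := hpol _ _ _ Q hs iQ
  have h3 := hmul _ _ _ _ _ _ hr h2
  have h4 := hadd _ _ _ _ _ _ h1 h3
  refine hch _ _ _ _ _ _ h4 (fun Y hY => hFe (ρ Y) (hρ Y hY)) ?_ ?_
  · have e1 : α - (P.eval 0 + 0 * Q.eval 0) = -(P.coeff 0 - α) := by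
      rw [coeff_zero_eq_eval_zero P]
      ring
    rw [e1, Valuation.map_neg]
    exact hPα
  · have e2 : β * c - (0 * (derivative P).eval 0 +
        (0 * (0 * (derivative Q).eval 0) + Q.eval 0 * c)) = -(Q.coeff 0 - β) * c := by
      rw [coeff_zero_eq_eval_zero Q]
      ring
    rw [e2, map_mul, Valuation.map_neg]
    calc V.valuation (Q.coeff 0 - β) * V.valuation c
        ≤ V.valuation (3 : ℂ) * 1 := mul_le_mul' hQβ hc
      _ = V.valuation (3 : ℂ) := mul_one _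

end Pool.Agent.NSE


end

section

/-!
# MUX-NS, block EN, module ONE: Lemma E for products over finite families of points (helper76)
-/

set_option autoImplicit false

open Polynomial

namespace Pool.Agent.NSE

open _root_.MU3 _root_.Pool.Agent.MU3A _root_.Pool.Agent.MU3B _root_.Pool.Agent.MUX _root_.Pool.Agent.MUXU _root_.Pool.Agent.MUXE
open _root_.Pool.Agent.RI _root_.Pool.Agent.NS
open _root_.Pool.Agent.MUXV (GR InK tX)

noncomputable section

namespace ONE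

/-- `|H|` is divisible by `3` -/
lemma card3 {L : PeriodPair} {a : ℕ} {H : Finset ℂ} (ha : a ≠ 0) (h3 : ¬ 3 ∣ a)
    (hH : IsHalf L (a : ℂ) H) : 3 ∣ H.card := by
  obtain ⟨-, -, h⟩ := b_HRE L a H (by exact_mod_cast ha) (fun w hw => by
    have := nsmul_mem hw a
    rwa [nsmul_eq_mul] at this) hH
  have h1 : 2 * H.card + 1 = a ^ 2 := by
    rw [Complex.norm_natCast] at h
    exact_mod_cast h
  have h2 : a ^ 2 % 3 = 1 := by
    rw [Nat.pow_mod]
    have h4 : a % 3 = 1 ∨ a % 3 = 2 := by omega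
    rcases h4 with h4 | h4 <;> rw [h4]
  omega

lemma usq (h5 : Se_LEG) (h7 : Se_UNR) {A B : ℤ} {V : ValuationSubring ℂ} (hC : CtxN A B V)
    (hT : TorX A B) {L : PeriodPair} {u e lam : ℂ} (hL : NL A B L) (hg : GoodN V L u e lam) :
    ∃ k : ℤ, V.valuation (u ^ 2) = V.valuation (3 : ℂ) ^ k := by
  obtain ⟨w₁, w₂, h1, h1', h2, h2', he, hu, -⟩ := h5 V L u e lam hg hC.v3
  have hring := hC.ring
  obtain ⟨φ, hφ⟩ := hring.hom
  have e2 : emb ((2 : ℕ) : OO A B) = 2 := by rw [← hφ, map_natCast]; norm_num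
  obtain ⟨-, hx, -⟩ := te_FAC te_TRA A B hring
  have hsp := (te_TRA A B hring L hL).2.2.2.2.1
  have m1 : xn L w₁ ∈ RF (idl (A := A) (B := B) 2) :=
    (hx _ L hL).2 w₁ ((hsp _ _).2 (by rw [e2]; exact h1)) h1'
  have m2 : xn L w₂ ∈ RF (idl (A := A) (B := B) 2) :=
    (hx _ L hL).2 w₂ ((hsp _ _).2 (by rw [e2]; exact h2)) h2'
  have e3 : u ^ 2 = xn L w₂ - xn L w₁ := by
    rw [← hu, xn, xn]
    ring
  refine h7 A B V hC hT 2 (by norm_num) (by norm_num) _ ?_ (pow_ne_zero 2 hg.u0)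
  rw [e3]
  exact sub_mem m2 m1

lemma _root_.Pool.Agent.NSE.ONE.theta_per (L : PeriodPair) (H : Finset ℂ) (z v : ℂ) (hv : v ∈ L.lattice) :
    ThetaH L H (z + v) = ThetaH L H z := by
  have h2 : L.weierstrassP (z + v) = L.weierstrassP z := L.weierstrassP_add_coe z ⟨v, hv⟩
  simp only [ThetaH, h2]

/-- everything about one point `(i, x)` -/
lemma point (hLEG : Se_LEG) (hTHN : Se_THN) (hUNR : Se_UNR) (hNE1 : Se_NE1) (hMUL : Se_MUL)
    {A B : ℤ} {V : ValuationSubring ℂ} (hC : CtxN A B V) (hT : TorX A B) {n f a : ℕ}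
    (hf3 : 3 ≤ f) (hf : ¬ 3 ∣ f) (ha : a ≠ 0) (hpa : ¬ 3 ∣ a) (hco : a.Coprime f) {ι : Type}
    (R : Reps A B (3 * f) ι) {u e lam : ℂ} (hgood : GoodN V (R.L R.i0) u e lam)
    {H : ι → Finset ℂ} (hH : ∀ i, IsHalf (R.L i) (a : ℂ) (H i)) (i : ι) (x : OO A B)
    (hx : IsCoprime x ((3 ^ (n + 1) * f : ℕ) : OO A B)) :
    x ∉ idl (A := A) (B := B) 3 ∧ Isg (R.L R.i0) (R.L i) (muX R i * emb x) ∧
    pt R (3 ^ (n + 1) * f) i x = muX R i * (emb x * (R.om R.i0 / (3 ^ (n + 1) * f : ℕ))) ∧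
    ((3 ^ (n + 1) * f : ℕ) : ℂ) * pt R (3 ^ (n + 1) * f) i x ∈ (R.L i).lattice ∧
    pt R (3 ^ (n + 1) * f) i x ∉ (R.L i).lattice ∧
    (∃ k : ℤ, V.valuation (ThetaH (R.L i) (H i) (pt R (3 ^ (n + 1) * f) i x)) =
      V.valuation (3 : ℂ) ^ (3 * k)) ∧
    V.valuation (muX R i * emb x * dlX (R.L i) a (pt R (3 ^ (n + 1) * f) i x) / u) ≤ 1 ∧
    Rep V (E3 (R.L R.i0)) (su (R.L R.i0) u e) (ru (R.L R.i0) u e)
      (fun Y => ThetaH (R.L i) (H i) (pt R (3 ^ (n + 1) * f) i x + muX R i * emb x * Y) /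
        ThetaH (R.L i) (H i) (pt R (3 ^ (n + 1) * f) i x)) 1
      (muX R i * emb x * dlX (R.L i) a (pt R (3 ^ (n + 1) * f) i x) / u) := by
  have hring := hC.ring
  have hx3 : x ∉ idl (A := A) (B := B) 3 := by
    intro h
    apply hC.max.ne_top
    rw [Ideal.eq_top_iff_one]
    obtain ⟨b1, b2, hb⟩ := hx
    rw [← hb]
    refine add_mem (Ideal.mul_mem_left _ _ h) (Ideal.mul_mem_left _ _ ?_)
    exact Ideal.mem_span_singleton.2 ⟨((3 ^ n * f : ℕ) : OO A B), by push_cast; ring⟩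
  obtain ⟨hmu, hisg, N, hN3, hN⟩ := hMUL A B V hC (3 * f) ι R (by omega) (dvd_mul_right _ _) i x
    hx3
  have hm0 : 3 ^ (n + 1) * f ≠ 0 := mul_ne_zero (by positivity) (by omega)
  have hmf : (3 ^ (n + 1) * f).primeFactors ⊆ (3 * f).primeFactors := by
    rw [Nat.primeFactors_mul (by positivity) (by omega), Nat.primeFactors_pow _ (by omega),
      Nat.primeFactors_mul (by norm_num) (by omega)]
  obtain ⟨-, -, -, hpt⟩ := te_PT te_TRA A B hring (3 * f) ι R (by omega) i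
  obtain ⟨hz, hzm, hzo, -⟩ := hpt (3 ^ (n + 1) * f) hm0 hmf x
  obtain ⟨u', e', lam', hg'⟩ := hC.good (R.L i) ⟨_, _, R.nl i⟩
  obtain ⟨hzK, hza, hzq⟩ := hNE1 V (R.L i) u' e' lam' hg' hC.v3 (n + 1) f a (by omega) hf hpa
    hco _ hzm (hzo hx)
  obtain ⟨k1, k2, k3⟩ := hTHN V (R.L R.i0) (R.L i) u e lam u' e' lam' (muX R i * emb x) N hgood
    hg' hC.v3 hmu hisg hN3 hN a (H i) ha (hH i) _ hzK hza (fun q hq =>
      hzq q ((hH i).mem q hq) (fun hqL => (hH i).ne q hq (by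
        rw [two_mul]; exact add_mem hqL hqL)))
  obtain ⟨k, hk⟩ := usq hLEG hUNR hC hT ⟨_, _, R.nl i⟩ hg'
  obtain ⟨t, ht⟩ := card3 ha hpa (hH i)
  refine ⟨hx3, hisg, hz, hzm, fun h => hzK (Or.inl h), ⟨k * t, ?_⟩, k2, k3⟩
  rw [k1, hk, ht, ← zpow_natCast, ← zpow_mul]
  congr 1
  push_cast
  ring

/-- the product of the functions `G y` -/
lemma asm (hALG : Se_ALG) (hPRO : Se_PRO) {V : ValuationSubring ℂ} {S : Set ℂ} {s r : ℂ → ℂ}
    {a2 a4 : ℂ} (hP : Pts V S s r a2 a4) {J κ : Type} [Fintype J] (X : J → Finset κ) (g : J → ℤ)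
    (G : κ → ℂ → ℂ) (l : κ → ℂ) (hG : ∀ j, ∀ y ∈ X j, Rep V S s r (G y) 1 (l y)) :
    Rep V S s r (fun Y => ∏ j, (∏ y ∈ X j, G y Y) ^ g j) 1 (∑ j, (g j : ℂ) * ∑ y ∈ X j, l y) := by
  obtain ⟨-, -, -, hcg, -⟩ := hALG V S s r a2 a4 hP
  obtain ⟨-, hpr, -⟩ := hPRO V S s r a2 a4 hP
  have v0 : V.valuation (0 : ℂ) ≤ V.valuation (3 : ℂ) := by rw [map_zero]; exact zero_le
  have h1 : ∀ j, Rep V S s r (fun Y => ∏ y ∈ X j, G y Y) 1 (∑ y ∈ X j, l y) := by
    intro j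
    have h2 := (hpr (X j) (fun y => G y.1) (fun _ => 1) (fun y => l y.1) (fun _ => 1)
      (fun y => by rw [one_mul]; exact hG j y.1 y.2) (fun y => map_one _)).2
    refine hcg _ _ _ _ _ _ h2 (fun Y _ => ?_) ?_ ?_
    · simp only [zpow_one]
      exact (Finset.prod_coe_sort (X j) (fun y => G y Y)).symm
    · simp only [one_zpow, Finset.prod_const_one, sub_self]
      exact v0
    · simp only [one_zpow, Finset.prod_const_one, one_mul, Int.cast_one]
      rw [Finset.sum_coe_sort (X j) (fun y => l y), sub_self]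
      exact v0
  have h3 := (hpr J (fun j Y => ∏ y ∈ X j, G y Y) (fun _ => 1) (fun j => ∑ y ∈ X j, l y) g
    (fun j => by rw [one_mul]; exact h1 j) (fun y => map_one _)).2
  refine hcg _ _ _ _ _ _ h3 (fun Y _ => rfl) ?_ ?_
  · simp only [one_zpow, Finset.prod_const_one, sub_self]
    exact v0
  · simp only [one_zpow, Finset.prod_const_one, one_mul, sub_self]
    exact v0

/-- an automorphism applied to the root -/
lemma conj {A B : ℤ} {F : IntermediateField (kk A B) ℂ} (σ : F ≃ₐ[kk A B] F) {J κ : Type}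
    [Fintype J] (X : J → Finset κ) (g : J → ℤ) (T T' : κ → ℂ)
    (hT : ∀ j, ∀ y ∈ X j, ∃ h : T y ∈ F, (σ ⟨T y, h⟩ : ℂ) = T' y) {y0 : ℂ} (hy0 : y0 ∈ F)
    (h : y0 ^ 3 = ∏ j, (∏ y ∈ X j, T y) ^ g j) :
    (σ ⟨y0, hy0⟩ : ℂ) ^ 3 = ∏ j, (∏ y ∈ X j, T' y) ^ g j := by
  have h1 : ∀ y, ∃ th : F, ∀ j, y ∈ X j → (th : ℂ) = T y ∧ (σ th : ℂ) = T' y := by
    intro y
    by_cases hy : ∃ j, y ∈ X j
    · obtain ⟨j, hj⟩ := hy
      obtain ⟨h2, h3⟩ := hT j y hj
      exact ⟨⟨T y, h2⟩, fun _ _ => ⟨rfl, h3⟩⟩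
    · exact ⟨1, fun j hj => absurd ⟨j, hj⟩ hy⟩
  choose θ hθ using h1
  have h2 : (⟨y0, hy0⟩ : F) ^ 3 = ∏ j, (∏ y ∈ X j, θ y) ^ g j := by
    apply F.val.injective
    rw [map_pow, map_prod]
    simp only [map_zpow₀, map_prod]
    change y0 ^ 3 = _
    rw [h]
    refine Finset.prod_congr rfl fun j _ => ?_
    congr 1
    exact Finset.prod_congr rfl fun y hy => ((hθ y j hy).1).symm
  have h3 : (_root_.Pool.Agent.MU3A.em σ ⟨y0, hy0⟩) ^ 3 = ∏ j, (∏ y ∈ X j, _root_.Pool.Agent.MU3A.em σ (θ y)) ^ g j := by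
    rw [← map_pow, h2, map_prod]
    simp only [map_zpow₀, map_prod]
  refine h3.trans (Finset.prod_congr rfl fun j _ => ?_)
  congr 1
  exact Finset.prod_congr rfl fun y hy => (hθ y j hy).2

/-- multiplication by a power of `3` -/
lemma conj3 {A B : ℤ} {F : IntermediateField (kk A B) ℂ} (σ : F ≃ₐ[kk A B] F) {y0 w0 : ℂ}
    (K : ℤ) (hy0 : y0 ∈ F) (hw0 : w0 ∈ F) (h : y0 = w0 * 3 ^ K) :
    (σ ⟨y0, hy0⟩ : ℂ) = σ ⟨w0, hw0⟩ * 3 ^ K := by
  have h1 : (⟨y0, hy0⟩ : F) = ⟨w0, hw0⟩ * 3 ^ K := by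
    apply F.val.injective
    rw [map_mul, map_zpow₀, map_ofNat]
    exact h
  have h2 : _root_.Pool.Agent.MU3A.em σ ⟨y0, hy0⟩ = _root_.Pool.Agent.MU3A.em σ ⟨w0, hw0⟩ * 3 ^ K := by
    rw [h1, map_mul, map_zpow₀, map_ofNat]
  exact h2

/-- powers of `v(3)³` -/
def Cb (V : ValuationSubring ℂ) (x : ℂ) : Prop :=
  ∃ k : ℤ, V.valuation x = V.valuation (3 : ℂ) ^ (3 * k)

lemma Cb.one (V : ValuationSubring ℂ) : Cb V 1 := ⟨0, by simp⟩

lemma v3_ne (V : ValuationSubring ℂ) : V.valuation (3 : ℂ) ≠ 0 :=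
  (Valuation.ne_zero_iff _).2 (by norm_num)

lemma Cb.mul {V : ValuationSubring ℂ} {x y : ℂ} (hx : Cb V x) (hy : Cb V y) : Cb V (x * y) := by
  obtain ⟨k, hk⟩ := hx
  obtain ⟨l, hl⟩ := hy
  refine ⟨k + l, ?_⟩
  rw [map_mul, hk, hl, ← zpow_add₀ (v3_ne V)]
  congr 1
  ring

lemma Cb.zpow {V : ValuationSubring ℂ} {x : ℂ} (hx : Cb V x) (g : ℤ) : Cb V (x ^ g) := by
  obtain ⟨k, hk⟩ := hx
  refine ⟨k * g, ?_⟩
  rw [map_zpow₀, hk, ← zpow_mul]
  congr 1
  ring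

lemma Cb.ne {V : ValuationSubring ℂ} {x : ℂ} (hx : Cb V x) : x ≠ 0 := by
  rintro rfl
  obtain ⟨k, hk⟩ := hx
  rw [map_zero] at hk
  exact zpow_ne_zero _ (v3_ne V) hk.symm

end ONE

open _root_.Pool.Agent.NSE.ONE in
theorem te_ONE (hALG : Se_ALG) (hPRO : Se_PRO) (hLEG : Se_LEG) (hPTS : Se_PTS) (hTHN : Se_THN)
    (hUNR : Se_UNR) (hSIG : Se_SIG) (hNE1 : Se_NE1) (hMUL : Se_MUL) : Se_ONE := by
  intro A B V hC hT hG n f a hn hf3 hf2 hf ha3 hpa hco ι R u e lam hgood H hH w hw J _ X g hX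
    ⟨y0, hy0, hy3⟩
  have ha0 : a ≠ 0 := by omega
  have hv3 := hC.v3
  have hring := hC.ring
  obtain ⟨φ, hφ⟩ := hring.hom
  have emul : ∀ x y : OO A B, emb (x * y) = emb x * emb y := fun x y => by
    rw [← hφ, map_mul, hφ, hφ]
  have eadd : ∀ x y : OO A B, emb (x + y) = emb x + emb y := fun x y => by
    rw [← hφ, map_add, hφ, hφ]
  have eone : emb (1 : OO A B) = 1 := by rw [← hφ, map_one]
  have enat : ∀ n : ℕ, emb ((n : ℕ) : OO A B) = n := fun n => by rw [← hφ, map_natCast]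
  have hP := fun j y hy => point (n := n) hLEG hTHN hUNR hNE1 hMUL hC hT hf3 hf ha0 hpa hco R
    hgood hH y.1 y.2 (hX j y hy)
  obtain ⟨hPts, hper⟩ := hPTS V (R.L R.i0) u e lam hgood hv3
  -- the product and its root
  have hCW : Cb V (∏ j, (∏ y ∈ X j, ThetaH (R.L y.1) (H y.1)
      (pt R (3 ^ (n + 1) * f) y.1 y.2)) ^ g j) := by
    refine Finset.prod_induction _ (Cb V) (fun _ _ => Cb.mul) (Cb.one V) fun j _ => Cb.zpow ?_ _
    exact Finset.prod_induction _ (Cb V) (fun _ _ => Cb.mul) (Cb.one V) fun y hy =>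
      (hP j y hy).2.2.2.2.2.1
  obtain ⟨K, hK⟩ := hCW
  rw [← hy3, map_pow, mul_comm, zpow_mul] at hK
  have hK' : V.valuation y0 ^ 3 = (V.valuation (3 : ℂ) ^ K) ^ 3 := by exact_mod_cast hK
  have vy0 : V.valuation y0 = V.valuation (3 : ℂ) ^ K :=
    (pow_left_inj₀ zero_le zero_le (by norm_num)).1 hK'
  obtain ⟨w0, hw0⟩ : ∃ w0 : ℂ, w0 = y0 / 3 ^ K := ⟨_, rfl⟩
  have h3K : (3 : ℂ) ^ K ≠ 0 := zpow_ne_zero _ (by norm_num)
  have hyw : y0 = w0 * 3 ^ K := by rw [hw0, div_mul_cancel₀ _ h3K]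
  have vw0 : V.valuation w0 = 1 := by
    rw [hw0, map_div₀, map_zpow₀, vy0, div_self (zpow_ne_zero _ (v3_ne V))]
  have hw00 : w0 ≠ 0 := by
    intro h
    rw [h, map_zero] at vw0
    exact zero_ne_one vw0
  have hy00 : y0 ≠ 0 := by rw [hyw]; exact mul_ne_zero hw00 h3K
  -- the big field
  have hy0M : y0 ∈ RF (idl (A := A) (B := B) (3 ^ (n + 1) * f * a)) := by
    refine (te_FAC te_TRA A B hring).1 _ _ ?_ hy0
    rw [Ideal.span_singleton_le_span_singleton]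
    exact ⟨(a : OO A B), by push_cast; ring⟩
  have hw0M : w0 ∈ RF (idl (A := A) (B := B) (3 ^ (n + 1) * f * a)) := by
    rw [hw0]
    exact div_mem hy0M (zpow_mem (ofNat_mem _ 3) K)
  have hNL0 : IsNL (⊤ : Ideal (OO A B)) (R.L R.i0) (R.om R.i0) := by
    have := R.nl R.i0
    rwa [R.b0] at this
  obtain ⟨F, β, vβ, hF, hσF⟩ := hSIG A B V hC hT hG (R.L R.i0) (R.om R.i0) u e lam hNL0 hgood
    n f a hn hf3 hf2 hf ha0 hpa w0 hw0M vw0.le
  have hm0 : ((3 ^ (n + 1) * f : ℕ) : ℂ) ≠ 0 := by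
    exact_mod_cast mul_ne_zero (pow_ne_zero _ (by norm_num : (3 : ℕ) ≠ 0)) (by omega : f ≠ 0)
  have h3n : ∀ mu ex eb : ℂ, ((3 ^ n * f * a : ℕ) : ℂ) * eb *
      (mu * (ex * (R.om R.i0 / (3 ^ (n + 1) * f : ℕ)))) = mu * ex * (eb * (a * R.om R.i0 / 3)) := by
    intro mu ex eb
    have h5 : ((3 ^ (n + 1) * f : ℕ) : ℂ) = 3 * ((3 ^ n * f : ℕ) : ℂ) := by
      push_cast
      ring
    have h6 : ((3 ^ n * f * a : ℕ) : ℂ) = ((3 ^ n * f : ℕ) : ℂ) * a := by
      push_cast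
      ring
    have h7 : ((3 ^ n * f : ℕ) : ℂ) ≠ 0 := by
      intro h
      rw [h5, h, mul_zero] at hm0
      exact hm0 rfl
    rw [h5, h6]
    field_simp
  -- the identity at the points `Y_b`
  have key : ∀ b : OO A B, b ∉ idl (A := A) (B := B) 3 →
      ∏ j, (∏ y ∈ X j, ThetaH (R.L y.1) (H y.1) (pt R (3 ^ (n + 1) * f) y.1 y.2 +
        muX R y.1 * emb y.2 * (emb b * (a * R.om R.i0 / 3))) /
        ThetaH (R.L y.1) (H y.1) (pt R (3 ^ (n + 1) * f) y.1 y.2)) ^ g j =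
      (F (emb b * (a * R.om R.i0 / 3)) * w0⁻¹) ^ 3 := by
    intro b hb
    have hne : idl (A := A) (B := B) (3 ^ (n + 1) * f * a) ≠ ⊥ := by
      intro h
      rw [Ideal.span_singleton_eq_bot] at h
      have h2 := congrArg emb h
      rw [enat, ← hφ 0, map_zero] at h2
      push_cast at h2 hm0
      exact mul_ne_zero hm0 (by exact_mod_cast ha0) h2
    have hcop : IsCoprime (sp (1 + ((3 ^ n * f * a : ℕ) : OO A B) * b))
        (idl (A := A) (B := B) (3 ^ (n + 1) * f * a)) := by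
      rw [Ideal.isCoprime_span_singleton_iff]
      have h1 : IsCoprime (1 + ((3 ^ n * f * a : ℕ) : OO A B) * b)
          ((3 ^ n * f * a : ℕ) : OO A B) := ⟨1, -b, by ring⟩
      have h2 : IsCoprime (1 + ((3 ^ n * f * a : ℕ) : OO A B) * b) ((3 : ℕ) : OO A B) := by
        refine h1.of_isCoprime_of_dvd_right ?_
        obtain ⟨n', rfl⟩ : ∃ n', n = n' + 1 := ⟨n - 1, by omega⟩
        exact ⟨((3 ^ n' * f * a : ℕ) : OO A B), by push_cast; ring⟩
      have h3 : ((3 ^ (n + 1) * f * a : ℕ) : OO A B) =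
          ((3 : ℕ) : OO A B) * ((3 ^ n * f * a : ℕ) : OO A B) := by
        push_cast
        ring
      rw [h3]
      exact h2.mul_right h1
    obtain ⟨σ, hσ⟩ := hG.sur _ hne _ hcop
    have k1 := conj σ X g
      (fun y => ThetaH (R.L y.1) (H y.1) (pt R (3 ^ (n + 1) * f) y.1 y.2))
      (fun y => ThetaH (R.L y.1) (H y.1) (pt R (3 ^ (n + 1) * f) y.1 y.2 +
        muX R y.1 * emb y.2 * (emb b * (a * R.om R.i0 / 3)))) (fun j y hy => by
          obtain ⟨-, -, hz, hzm, hzL, -⟩ := hP j y hy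
          have hNLi : NL A B (R.L y.1) := ⟨_, _, R.nl y.1⟩
          have hzT : Tor (idl (A := A) (B := B) (3 ^ (n + 1) * f * a)) (R.L y.1)
              (pt R (3 ^ (n + 1) * f) y.1 y.2) := by
            refine ((te_TRA A B hring _ hNLi).2.2.2.2.1 _ _).2 ?_
            rw [enat]
            have h1 := nsmul_mem hzm a
            rw [nsmul_eq_mul] at h1
            have h2 : ((3 ^ (n + 1) * f * a : ℕ) : ℂ) * pt R (3 ^ (n + 1) * f) y.1 y.2 =
                (a : ℂ) * (((3 ^ (n + 1) * f : ℕ) : ℂ) * pt R (3 ^ (n + 1) * f) y.1 y.2) := by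
              push_cast
              ring
            rw [h2]
            exact h1
          obtain ⟨hmem, hθ⟩ := te_GTH te_TRA A B hring _ hNLi a (H y.1) (hH y.1)
            (idl (A := A) (B := B) (3 ^ (n + 1) * f * a)) (by
              rw [Ideal.span_singleton_le_span_singleton]
              exact ⟨((3 ^ (n + 1) * f : ℕ) : OO A B), by push_cast; ring⟩) σ _ hσ (by
              rw [add_sub_cancel_left, Ideal.mem_span_singleton]
              exact ⟨((3 ^ n * f : ℕ) : OO A B) * b, by push_cast; ring⟩) _ hzT hzL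
          refine ⟨hmem, hθ.trans ?_⟩
          congr 1
          rw [eadd, eone, emul, enat, add_mul, one_mul]
          congr 1
          rw [hz]
          exact h3n _ _ _) hy0M hy3
    have k2 := conj3 σ K hy0M hw0M hyw
    rw [hσF b hb σ hσ hw0M] at k2
    simp only [Finset.prod_div_distrib, div_zpow]
    rw [← k1, ← hy3, k2, hyw]
    field_simp
  -- the identity on `E3`
  have hom0 : R.om R.i0 ≠ 0 := hNL0.om_ne
  have key2 : ∀ Y ∈ E3 (R.L R.i0),
      ∏ j, (∏ y ∈ X j, ThetaH (R.L y.1) (H y.1) (pt R (3 ^ (n + 1) * f) y.1 y.2 +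
        muX R y.1 * emb y.2 * Y) /
        ThetaH (R.L y.1) (H y.1) (pt R (3 ^ (n + 1) * f) y.1 y.2)) ^ g j =
      (F Y * w0⁻¹) ^ 3 := by
    rintro Y ⟨hY3, hYL⟩
    obtain ⟨b', -, hb'⟩ := (hNL0.mem _).1 hY3
    obtain ⟨a', t, hat⟩ : ∃ a' t : ℤ, (a : ℤ) * a' = 1 + 3 * t := by
      have h4 : a % 3 = 1 ∨ a % 3 = 2 := by omega
      rcases h4 with h4 | h4
      · exact ⟨1, (a : ℤ) / 3, by omega⟩
      · exact ⟨2, (2 * (a : ℤ) - 1) / 3, by omega⟩
    obtain ⟨b, hbd⟩ : ∃ b : OO A B, b = (a' : OO A B) * b' := ⟨_, rfl⟩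
    have eint : ∀ n : ℤ, emb ((n : ℤ) : OO A B) = n := fun n => by rw [← hφ, map_intCast]
    have hYb : emb b * (a * R.om R.i0 / 3) = Y + R.om R.i0 * emb ((t : OO A B) * b') := by
      have h1 : (a : ℂ) * a' = 1 + 3 * t := by exact_mod_cast hat
      rw [hbd, emul, emul, eint, eint]
      linear_combination (emb b' * R.om R.i0 / 3) * h1 - (1 / 3) * hb'
    have hl : R.om R.i0 * emb ((t : OO A B) * b') ∈ (R.L R.i0).lattice :=
      (hNL0.mem _).2 ⟨_, trivial, rfl⟩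
    have hb3 : b ∉ idl (A := A) (B := B) 3 := by
      intro h
      obtain ⟨b'', hb''⟩ := Ideal.mem_span_singleton.1 h
      apply hYL
      have h1 : Y = R.om R.i0 * emb ((a : OO A B) * b'' - (t : OO A B) * b') := by
        have esub : ∀ x y : OO A B, emb (x - y) = emb x - emb y := fun x y => by
          rw [← hφ, map_sub, hφ, hφ]
        rw [hb'', emul, enat] at hYb
        rw [esub, emul, enat]
        push_cast at hYb
        linear_combination -hYb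
      rw [h1]
      exact (hNL0.mem _).2 ⟨_, trivial, rfl⟩
    have h2 := key b hb3
    rw [hYb] at h2
    obtain ⟨-, hs, hr⟩ := hper Y ⟨hY3, hYL⟩ _ hl
    have hFY : F (Y + R.om R.i0 * emb ((t : OO A B) * b')) = F Y := by
      obtain ⟨P, Q, -, -, hPQ, -⟩ := hF
      rw [hPQ _ (hper Y ⟨hY3, hYL⟩ _ hl).1, hPQ _ ⟨hY3, hYL⟩, hs, hr]
    rw [hFY] at h2
    rw [← h2]
    refine Finset.prod_congr rfl fun j _ => ?_
    refine congrArg (fun t : ℂ => t ^ g j) ?_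
    refine Finset.prod_congr rfl fun y hy => ?_
    congr 1
    have h3 : pt R (3 ^ (n + 1) * f) y.1 y.2 +
        muX R y.1 * emb y.2 * (Y + R.om R.i0 * emb ((t : OO A B) * b')) =
        (pt R (3 ^ (n + 1) * f) y.1 y.2 + muX R y.1 * emb y.2 * Y) +
        muX R y.1 * emb y.2 * (R.om R.i0 * emb ((t : OO A B) * b')) := by ring
    rw [h3, _root_.Pool.Agent.NSE.ONE.theta_per _ _ _ _ ((hP j y hy).2.1 _ hl)]
  -- the comparison
  have hS := asm hALG hPRO hPts X g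
    (fun y Y => ThetaH (R.L y.1) (H y.1) (pt R (3 ^ (n + 1) * f) y.1 y.2 +
      muX R y.1 * emb y.2 * Y) / ThetaH (R.L y.1) (H y.1) (pt R (3 ^ (n + 1) * f) y.1 y.2))
    (fun y => muX R y.1 * emb y.2 * dlX (R.L y.1) a (pt R (3 ^ (n + 1) * f) y.1 y.2) / u)
    (fun j y hy => (hP j y hy).2.2.2.2.2.2.2)
  obtain ⟨hcst, -, -, -, -, hmul, -⟩ := hALG _ _ _ _ _ _ hPts
  have hG' : Rep V (E3 (R.L R.i0)) (su (R.L R.i0) u e) (ru (R.L R.i0) u e)
      (fun Y => F Y * w0⁻¹) (w0 * w0⁻¹) (w0 * 0 + w0⁻¹ * β) :=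
    hmul _ _ _ _ _ _ hF (hcst w0⁻¹ (by rw [map_inv₀, vw0, inv_one]))
  have hS' := (hPRO _ _ _ _ _ _ hPts).2.2 _ _ _ _ _ _ hG' key2 hS
  -- replace `emb x` by `w x`
  have hdiff : (∑ j, (g j : ℂ) * ∑ y ∈ X j, w y.2 * muX R y.1 *
      dlX (R.L y.1) a (pt R (3 ^ (n + 1) * f) y.1 y.2)) / u =
      (∑ j, (g j : ℂ) * ∑ y ∈ X j, muX R y.1 * emb y.2 *
        dlX (R.L y.1) a (pt R (3 ^ (n + 1) * f) y.1 y.2) / u) +
      ∑ j, (g j : ℂ) * ∑ y ∈ X j, (w y.2 - emb y.2) * (muX R y.1 *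
        dlX (R.L y.1) a (pt R (3 ^ (n + 1) * f) y.1 y.2) / u) := by
    rw [← Finset.sum_add_distrib, Finset.sum_div]
    refine Finset.sum_congr rfl fun j _ => ?_
    rw [← mul_add, ← Finset.sum_add_distrib, mul_div_assoc, Finset.sum_div]
    congr 1
    refine Finset.sum_congr rfl fun y _ => ?_
    ring
  rw [hdiff]
  refine (V.valuation.map_add _ _).trans (max_le hS' ?_)
  refine V.valuation.map_sum_le fun j _ => ?_
  rw [map_mul]
  have vg : V.valuation ((g j : ℤ) : ℂ) ≤ 1 := (V.valuation_le_one_iff _).2 (intCast_mem V (g j))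
  refine (mul_le_mul' vg (V.valuation.map_sum_le (g := V.valuation (3 : ℂ)) fun y hy => ?_)).trans
    (one_mul _).le
  rw [map_mul]
  have h1 : V.valuation (muX R y.1 * dlX (R.L y.1) a (pt R (3 ^ (n + 1) * f) y.1 y.2) / u) ≤ 1 := by
    have h2 := (hP j y hy).2.2.2.2.2.2.1
    have h3 : muX R y.1 * emb y.2 * dlX (R.L y.1) a (pt R (3 ^ (n + 1) * f) y.1 y.2) / u =
        emb y.2 * (muX R y.1 * dlX (R.L y.1) a (pt R (3 ^ (n + 1) * f) y.1 y.2) / u) := by ring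
    rwa [h3, map_mul, hC.unit _ (hP j y hy).1, one_mul] at h2
  exact (mul_le_mul' (hw.cong y.2) h1).trans (mul_one _).le

end

end Pool.Agent.NSE


end

section

/-!
# MUX-NS, block EN, module NE1: the points that occur are not in the kernel of reduction (helper39)
-/

set_option autoImplicit false

namespace Pool.Agent.NSE

open _root_.MU3 _root_.Pool.Agent.MU3A _root_.Pool.Agent.MU3B _root_.Pool.Agent.MUX _root_.Pool.Agent.MUXU _root_.Pool.Agent.MUXE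
open _root_.Pool.Agent.RI _root_.Pool.Agent.NS
open _root_.Pool.Agent.MUXV (GR InK tX)

noncomputable section

namespace NE1

lemma _root_.Pool.Agent.NSE.NE1.nat_mul_mem {L : PeriodPair} (c : ℕ) {w : ℂ} (hw : w ∈ L.lattice) :
    (c : ℂ) * w ∈ L.lattice := by
  have h := L.lattice.smul_mem (c : ℤ) hw
  simpa using h

end NE1

open _root_.Pool.Agent.NSE.NE1 in
/-- NE1. -/
theorem te_NE1 (h1 : Se_TPN) (h2 : Se_GRN) : Se_NE1 := by
  intro V L u e lam hg h3 j f a hf hpf hpa hco z hz hord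
  obtain ⟨ξ, hG⟩ := h2 V L u e lam hg h3
  obtain ⟨htor, -⟩ := h1 V L u e lam hg h3
  have hp : Nat.Prime 3 := Nat.prime_three
  have hno : ∀ k : ℕ, k ≤ j → ((a * 3 ^ k : ℕ) : ℂ) * z ∉ L.lattice := by
    intro k hk hmem
    have h3 := hord _ hmem
    have h4 : f ∣ a * 3 ^ k := (Dvd.intro_left _ rfl).trans h3
    have h5 : f.Coprime (3 ^ k) :=
      Nat.Coprime.pow_right k ((Nat.Prime.coprime_iff_not_dvd hp).2 hpf).symm
    have h6 : f ∣ a := h5.dvd_of_dvd_mul_right h4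
    have h7 : f = 1 := Nat.Coprime.eq_one_of_dvd hco.symm h6
    omega
  have hfa : ¬ 3 ∣ f * a := by
    rw [hp.dvd_mul]
    rintro (h | h)
    · exact hpf h
    · exact hpa h
  have key : ∀ q : ℂ, (a : ℂ) * q ∈ L.lattice → ¬ InK V L (xu L u e) (z + q) := by
    intro q hq hE
    have hE' := Pool.Agent.MUXV.inK_nat hG hE (3 ^ j)
    have hmem : ((f * a : ℕ) : ℂ) * (((3 ^ j : ℕ) : ℂ) * (z + q)) ∈ L.lattice := by
      have h3 := add_mem (_root_.Pool.Agent.NSE.NE1.nat_mul_mem a hz) (_root_.Pool.Agent.NSE.NE1.nat_mul_mem (3 ^ j * f) hq)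
      have h4 : ((f * a : ℕ) : ℂ) * (((3 ^ j : ℕ) : ℂ) * (z + q)) =
          (a : ℂ) * (((3 ^ j * f : ℕ) : ℂ) * z) + ((3 ^ j * f : ℕ) : ℂ) * ((a : ℂ) * q) := by
        push_cast
        ring
      rw [h4]
      exact h3
    have hz' := (htor _ hfa).2 _ hmem hE'
    have h5 := sub_mem (_root_.Pool.Agent.NSE.NE1.nat_mul_mem a hz') (_root_.Pool.Agent.NSE.NE1.nat_mul_mem (3 ^ j) hq)
    refine hno j le_rfl ?_
    have h6 : ((a * 3 ^ j : ℕ) : ℂ) * z =
        (a : ℂ) * (((3 ^ j : ℕ) : ℂ) * (z + q)) - ((3 ^ j : ℕ) : ℂ) * ((a : ℂ) * q) := by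
      push_cast
      ring
    rw [h6]
    exact h5
  refine ⟨?_, ?_, ?_⟩
  · have h3 := key 0 (by rw [mul_zero]; exact zero_mem _)
    rwa [add_zero] at h3
  · have h3 := hno 0 (Nat.zero_le _)
    rwa [pow_zero, mul_one] at h3
  · intro q hq hqL
    refine ⟨?_, key q hq, ?_⟩
    · intro hE
      exact hqL ((htor a hpa).2 _ hq hE)
    · rw [sub_eq_add_neg]
      refine key (-q) ?_
      rw [mul_neg]
      exact neg_mem hq

end

end Pool.Agent.NSE


end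

section

/-!
# MUX-NS, block EN, module FIN: the final form (helper86)
-/

set_option autoImplicit false

namespace Pool.Agent.NSE

open _root_.MU3 _root_.Pool.Agent.MU3A _root_.Pool.Agent.MU3B _root_.Pool.Agent.MUX _root_.Pool.Agent.MUXU
open _root_.Pool.Agent.RI _root_.Pool.Agent.NS

noncomputable section

namespace FIN

/-- `O/m` is finite -/
lemma fin_quot (A B : ℤ) (hr : Pool.Agent.MUXE.RingE A B) {m : ℕ} (hm : m ≠ 0) :
    Finite (OO A B ⧸ idl (A := A) (B := B) m) := by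
  haveI := hr.ded
  apply Ideal.finiteQuotientOfFreeOfNeBot
  intro h
  rw [Ideal.span_singleton_eq_bot] at h
  obtain ⟨φ, hφ⟩ := hr.hom
  have h1 : φ ((m : ℕ) : OO A B) = 0 := by rw [h, map_zero]
  rw [map_natCast] at h1
  exact hm (by exact_mod_cast h1)

end FIN

open _root_.Pool.Agent.NSE.FIN in
theorem te_FIN (h1 : Se_MAIN) : Se_FIN := by
  classical
  intro hR A B V f hS hT ι _ R u e lam hG w hw n hn H hH D h hD
  letI := algC h
  intro hC g hcube τ'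
  have hr := Pool.Agent.MUXE.te_RNG A B hS.case.toCQ
  have hm0 : lvX 3 f n ≠ 0 := by
    have : lvX 3 f n = f * 3 * 3 ^ n := by simp [lvX, q0]
    rw [this]
    exact mul_ne_zero (mul_ne_zero hS.f0 (by norm_num)) (pow_ne_zero _ (by norm_num))
  haveI := fin_quot A B hr hm0
  have hfin : ∀ τ : D ≃ₐ[kk A B] D, (XX R (lvX 3 f n) h τ).Finite := fun τ => Set.toFinite _
  let S : (D ≃ₐ[kk A B] D) → Finset (ι × (OO A B ⧸ idl (A := A) (B := B) (lvX 3 f n))) :=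
    fun τ => (hfin τ).toFinset
  have key := h1 A B V f hS hT hR ι R u e lam hG w hw n hn H hH D h hD
    (fun τ => cX R (lvX 3 f n) H h τ) S hC
    (fun τ q hq => ((hfin τ).mem_toFinset.1 hq).1)
    (fun τ => by
      show cX R (lvX 3 f n) H h τ = _
      rw [cX, finprod_mem_eq_finite_toFinset_prod _ (hfin τ)])
    g hcube τ'
  have e1 : ∀ τ : D ≃ₐ[kk A B] D, TTN R w (lvX 3 f n) (aX 3 f) h (τ * τ') =
      ∑ q ∈ S (τ * τ'), w (Quotient.out q.2) * muX R q.1 *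
        dlX (R.L q.1) (aX 3 f) (pt R (lvX 3 f n) q.1 (Quotient.out q.2)) := by
    intro τ
    rw [TTN, finsum_mem_eq_finite_toFinset_sum _ (hfin (τ * τ'))]
  have e2 : (∑ᶠ τ : D ≃ₐ[kk A B] D, (g τ : ℂ) * TTN R w (lvX 3 f n) (aX 3 f) h (τ * τ')) =
      ∑ᶠ τ : D ≃ₐ[kk A B] D, (g τ : ℂ) * ∑ q ∈ S (τ * τ'), w (Quotient.out q.2) * muX R q.1 *
        dlX (R.L q.1) (aX 3 f) (pt R (lvX 3 f n) q.1 (Quotient.out q.2)) :=
    finsum_congr fun τ => by rw [e1]
  rw [e2]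
  exact key

end

end Pool.Agent.NSE


end

section

/-!
# MUX-NS, block EN, module DEG: the degree of `RF (3^(j+1) f)` over `RF (f)`
-/

set_option autoImplicit false

open Polynomial

namespace Pool.Agent.NSE

open _root_.MU3 _root_.Pool.Agent.MU3A _root_.Pool.Agent.MU3B _root_.Pool.Agent.MUX _root_.Pool.Agent.MUXU _root_.Pool.Agent.MUXE
open _root_.Pool.Agent.RI _root_.Pool.Agent.NS
open _root_.Pool.Agent.MUXV (GR InK tX)

noncomputable section

namespace DEG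

lemma mem_idl_of {A B : ℤ} (n : ℕ) (x : OO A B) (h1 : (n : ℤ) ∣ x.re) (h2 : (n : ℤ) ∣ x.im) :
    x ∈ idl (A := A) (B := B) n := by
  obtain ⟨a, ha⟩ := h1
  obtain ⟨b, hb⟩ := h2
  rw [Ideal.mem_span_singleton]
  refine ⟨⟨a, b⟩, ?_⟩
  ext <;> simp [ha, hb]

/-- the pairs modulo `3^(j+1)` which are not divisible by `3` -/
def box (j : ℕ) : Finset (ℕ × ℕ) :=
  (Finset.range (3 ^ (j + 1)) ×ˢ Finset.range (3 ^ (j + 1))) \
    ((Finset.range (3 ^ j) ×ˢ Finset.range (3 ^ j)).image fun q => (3 * q.1, 3 * q.2))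

lemma card_box (j : ℕ) : (box j).card = 8 * 9 ^ j := by
  unfold box
  rw [Finset.card_sdiff_of_subset, Finset.card_image_of_injective]
  · simp only [Finset.card_product, Finset.card_range]
    have h1 : 3 ^ (j + 1) * 3 ^ (j + 1) = 9 * 9 ^ j := by
      rw [← mul_pow, pow_succ]; norm_num [mul_comm]
    have h2 : 3 ^ j * 3 ^ j = 9 ^ j := by rw [← mul_pow]; norm_num
    rw [h1, h2]
    omega
  · rintro ⟨a, b⟩ ⟨c, d⟩ h
    simp only [Prod.mk.injEq] at h ⊢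
    omega
  · intro q hq
    simp only [Finset.mem_image, Finset.mem_product, Finset.mem_range] at hq ⊢
    obtain ⟨q', ⟨h1, h2⟩, rfl⟩ := hq
    rw [pow_succ]
    constructor <;> simp only <;> omega

/-- the class of an element -/
def cls {A B : ℤ} (j : ℕ) (x : OO A B) : ℕ × ℕ :=
  ((x.re % (3 ^ (j + 1) : ℕ)).toNat, (x.im % (3 ^ (j + 1) : ℕ)).toNat)

lemma cls_mem {A B : ℤ} (j : ℕ) (x : OO A B) (hx : x ∉ idl (A := A) (B := B) 3) :
    cls j x ∈ box j := by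
  have hN : (0 : ℤ) < ((3 ^ (j + 1) : ℕ) : ℤ) := by positivity
  have h1 := Int.emod_nonneg x.re hN.ne'
  have h2 := Int.emod_lt_of_pos x.re hN
  have h3 := Int.emod_nonneg x.im hN.ne'
  have h4 := Int.emod_lt_of_pos x.im hN
  unfold box cls
  rw [Finset.mem_sdiff]
  constructor
  · simp only [Finset.mem_product, Finset.mem_range]
    omega
  · intro h
    simp only [Finset.mem_image, Finset.mem_product, Finset.mem_range, Prod.mk.injEq] at h
    obtain ⟨q, -, e1, e2⟩ := h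
    apply hx
    have h5 : (3 : ℤ) ∣ ((3 ^ (j + 1) : ℕ) : ℤ) := by
      push_cast
      exact dvd_pow_self 3 (by omega)
    have h6 := Int.emod_add_mul_ediv x.re ((3 ^ (j + 1) : ℕ) : ℤ)
    have h7 := Int.emod_add_mul_ediv x.im ((3 ^ (j + 1) : ℕ) : ℤ)
    apply mem_idl_of
    · rw [← h6]
      refine dvd_add ?_ (dvd_mul_of_dvd_left (by exact_mod_cast h5) _)
      push_cast
      exact ⟨q.1, by push_cast at e1 h1 ⊢; omega⟩
    · rw [← h7]
      refine dvd_add ?_ (dvd_mul_of_dvd_left (by exact_mod_cast h5) _)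
      push_cast
      exact ⟨q.2, by push_cast at e2 h3 ⊢; omega⟩

lemma cls_inj {A B : ℤ} (j : ℕ) (x y : OO A B) (h : cls j x = cls j y) :
    x - y ∈ idl (A := A) (B := B) (3 ^ (j + 1)) := by
  have hN : (0 : ℤ) < ((3 ^ (j + 1) : ℕ) : ℤ) := by positivity
  have h1 := Int.emod_nonneg x.re hN.ne'
  have h2 := Int.emod_nonneg y.re hN.ne'
  have h3 := Int.emod_nonneg x.im hN.ne'
  have h4 := Int.emod_nonneg y.im hN.ne'
  unfold cls at h
  rw [Prod.mk.injEq] at h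
  obtain ⟨e1, e2⟩ := h
  have e3 : x.re % ((3 ^ (j + 1) : ℕ) : ℤ) = y.re % ((3 ^ (j + 1) : ℕ) : ℤ) := by omega
  have e4 : x.im % ((3 ^ (j + 1) : ℕ) : ℤ) = y.im % ((3 ^ (j + 1) : ℕ) : ℤ) := by omega
  apply mem_idl_of
  · show ((3 ^ (j + 1) : ℕ) : ℤ) ∣ x.re - y.re
    exact Int.ModEq.dvd (Int.ModEq.symm e3)
  · show ((3 ^ (j + 1) : ℕ) : ℤ) ∣ x.im - y.im
    exact Int.ModEq.dvd (Int.ModEq.symm e4)

end DEG

open _root_.Pool.Agent.NSE.DEG in
theorem te_DEG : Se_DEG := by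
  classical
  intro A B V hC hG j f hf h3f
  have hR := hC.ring
  obtain ⟨f1, -, f3, -, f5⟩ := Pool.Agent.MUXE.te_FAC Pool.Agent.MUXE.te_TRA A B hR
  -- ideals
  set m : Ideal (OO A B) := idl (A := A) (B := B) (3 ^ (j + 1) * f) with hm
  set m' : Ideal (OO A B) := idl (A := A) (B := B) f with hm'
  have hmm' : m ≤ m' := Ideal.span_singleton_le_span_singleton.2
    (by push_cast; exact Dvd.intro_left _ rfl)
  have hm3 : m ≤ idl (A := A) (B := B) 3 := Ideal.span_singleton_le_span_singleton.2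
    (by
      push_cast
      exact dvd_mul_of_dvd_left (dvd_pow_self _ (by omega)) _)
  have hm0 : m ≠ ⊥ := by
    intro h0
    have h4 : (((3 ^ (j + 1) * f : ℕ)) : OO A B) ∈ m := Ideal.mem_span_singleton_self _
    rw [h0, Ideal.mem_bot] at h4
    obtain ⟨φ, hφ⟩ := hR.hom
    have h5 : φ (((3 ^ (j + 1) * f : ℕ)) : OO A B) = ((3 ^ (j + 1) * f : ℕ) : ℂ) := map_natCast φ _
    rw [h4, map_zero] at h5
    have h6 : (3 ^ (j + 1) * f : ℕ) = 0 := by exact_mod_cast h5.symm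
    exact (mul_ne_zero (pow_ne_zero _ (by norm_num)) hf) h6
  have hcop : IsCoprime (((3 ^ (j + 1) : ℕ)) : OO A B) ((f : ℕ) : OO A B) := by
    have h4 : Nat.Coprime (3 ^ (j + 1)) f :=
      Nat.Coprime.pow_left _ ((Nat.Prime.coprime_iff_not_dvd Nat.prime_three).2 h3f)
    have h5 := (Nat.isCoprime_iff_coprime.2 h4).intCast (R := OO A B)
    simpa using h5
  have hinf : ∀ x : OO A B, x ∈ idl (A := A) (B := B) (3 ^ (j + 1)) → x ∈ m' → x ∈ m := by
    intro x h4 h5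
    rw [Ideal.mem_span_singleton] at h4 h5
    rw [hm, Ideal.mem_span_singleton, Nat.cast_mul]
    exact hcop.mul_dvd h4 h5
  -- fields
  have hF : RF m' ≤ RF m := f1 m m' hmm'
  haveI := hG.fin m hm0
  haveI := hG.gal m hm0
  rw [← Pool.Agent.FX.card_fix hF]
  refine Nat.mul_le_mul_right _ ?_
  -- the kernel
  have hker : ∀ σ : Pool.Agent.FX.Fix (RF m') (RF m), ∃ α : OO A B, α - 1 ∈ m' ∧
      ActE (_root_.Pool.Agent.MU3A.em σ.1) m α := by
    intro σ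
    refine hG.ker m m' hm0 hmm' (_root_.Pool.Agent.MU3A.em σ.1) ?_
    intro y hy hy'
    exact σ.2 y hy hy'
  choose α hα1 hα2 using hker
  have hα3 : ∀ σ, α σ ∉ idl (A := A) (B := B) 3 := by
    intro σ hσ
    have h4 := (hα2 σ).1
    have h5 : sp (α σ) ≤ idl (A := A) (B := B) 3 := (Ideal.span_singleton_le_iff_mem _).2 hσ
    have h7 : sp (α σ) ⊔ m = ⊤ := Ideal.isCoprime_iff_sup_eq.1 h4
    have h8 : (⊤ : Ideal (OO A B)) ≤ idl (A := A) (B := B) 3 := h7 ▸ sup_le h5 hm3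
    exact hC.max.ne_top (top_le_iff.1 h8)
  have hinj : ∀ σ τ, α σ - α τ ∈ idl (A := A) (B := B) (3 ^ (j + 1)) → σ = τ := by
    intro σ τ h
    have h4 : α σ - α τ ∈ m' := by
      have := sub_mem (hα1 σ) (hα1 τ)
      rwa [sub_sub_sub_cancel_right] at this
    have h5 : α σ - α τ ∈ m := hinf _ h h4
    have h6 := f5 m (RF m) (_root_.Pool.Agent.MU3A.em σ.1) (α σ) (α τ) (Or.inl h5) (hα2 σ)
    have h7 := f3 m _ _ _ h6 (hα2 τ)
    exact Pool.Agent.FX.fix_ext fun x => DFunLike.congr_fun h7 x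
  have hcard : Nat.card (Pool.Agent.FX.Fix (RF m') (RF m)) ≤ Nat.card (box j) := by
    refine Nat.card_le_card_of_injective (fun σ => ⟨cls j (α σ), cls_mem j _ (hα3 σ)⟩) ?_
    intro σ τ h
    exact hinj _ _ (cls_inj j _ _ (congrArg Subtype.val h))
  refine hcard.trans (le_of_eq ?_)
  rw [Nat.card_eq_fintype_card, Fintype.card_coe, card_box]

end

end Pool.Agent.NSE


end

section

/-!
# MUX-NS, block EN, module ALG (helper86): the ring of the functions `A(s) + r B(s)`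

The situation `Pts` is a special case of the situation `PtsR` of the ramified case.
-/

set_option autoImplicit false

open Polynomial

namespace Pool.Agent.NSE

open _root_.Pool.Agent.NSER (PtsR tf_ALG)

noncomputable section

lemma Pts.toR {V : ValuationSubring ℂ} {S : Set ℂ} {s r : ℂ → ℂ} {a2 a4 : ℂ}
    (h : Pts V S s r a2 a4) : PtsR V S s r a2 a4 := by
  have h30 : V.valuation (3 : ℂ) ≠ 0 := by
    intro h1
    exact three_ne_zero ((map_eq_zero V.valuation).mp h1)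
  have hlt : ∀ Y ∈ S, V.valuation (s Y) < 1 := by
    intro Y hY
    by_contra h1
    rw [not_lt] at h1
    have h2 : 1 ≤ V.valuation (s Y) ^ 4 := one_le_pow₀ h1
    rw [h.vs Y hY] at h2
    exact absurd h.v3 (not_lt.mpr h2)
  refine ⟨h.v3, h.i2, h.i4, fun Y hY => ⟨?_, hlt Y hY⟩, h.eq, h.neg, ?_, h.fin⟩
  · intro h1
    have h2 := h.vs Y hY
    rw [h1, map_zero, zero_pow (by norm_num)] at h2
    exact h30 h2.symm
  · obtain ⟨y, hy, hi⟩ := h.four
    refine ⟨y, hy, hi, ?_⟩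
    have h1 : V.valuation (∏ i, s (y i)) ^ 4 = V.valuation (3 : ℂ) ^ 4 := by
      rw [map_prod, ← Finset.prod_pow]
      rw [Finset.prod_congr rfl fun i _ => h.vs (y i) (hy i)]
      simp
    by_contra h2
    rw [not_le] at h2
    have h3 := pow_lt_pow_left₀ h2 zero_le' (n := 4) (by norm_num)
    exact absurd h1.symm (ne_of_lt h3)

theorem te_ALG : Se_ALG := by
  intro V S s r a2 a4 hp
  exact tf_ALG V S s r a2 a4 hp.toR

end

end Pool.Agent.NSE


end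

section

/-!
# MUX-NS, block ER, module ONE: Lemma E for products over finite families of points, ramified case
-/

set_option autoImplicit false

open Polynomial

namespace Pool.Agent.NSER

open _root_.MU3 _root_.Pool.Agent.MU3A _root_.Pool.Agent.MU3B _root_.Pool.Agent.MUX _root_.Pool.Agent.MUXU _root_.Pool.Agent.MUXE
open _root_.Pool.Agent.RI _root_.Pool.Agent.NS _root_.Pool.Agent.NSRD
open _root_.Pool.Agent.MUXV (GR InK tX)
open _root_.Pool.Agent.NSE (E3 su ru WL IntP Rep)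

noncomputable section

namespace ONE

variable {A B : ℤ}

lemma emb_kk (x : OO A B) : emb x ∈ kk A B := by
  have h : wC A B ∈ kk A B := IntermediateField.mem_adjoin_simple_self ℚ _
  exact add_mem (intCast_mem _ _) (mul_mem (intCast_mem _ _) h)

lemma _root_.Pool.Agent.NSER.ONE.theta_per (L : PeriodPair) (H : Finset ℂ) (z v : ℂ) (hv : v ∈ L.lattice) :
    ThetaH L H (z + v) = ThetaH L H z := by
  have h2 : L.weierstrassP (z + v) = L.weierstrassP z := L.weierstrassP_add_coe z ⟨v, hv⟩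
  simp only [ThetaH, h2]

/-- multiplication by a power of an element of `k` -/
lemma conjk {F : IntermediateField (kk A B) ℂ} (σ : F ≃ₐ[kk A B] F) {y0 w0 d : ℂ}
    (hd : d ∈ kk A B) (K : ℤ) (hy0 : y0 ∈ F) (hw0 : w0 ∈ F) (h : y0 = w0 * d ^ K) :
    (σ ⟨y0, hy0⟩ : ℂ) = σ ⟨w0, hw0⟩ * d ^ K := by
  have h1 : (⟨y0, hy0⟩ : F) = ⟨w0, hw0⟩ * (algebraMap (kk A B) F ⟨d, hd⟩) ^ K := by
    apply F.val.injective
    rw [map_mul, map_zpow₀]
    exact h
  have h2 : _root_.Pool.Agent.MU3A.em σ ⟨y0, hy0⟩ = _root_.Pool.Agent.MU3A.em σ ⟨w0, hw0⟩ * d ^ K := by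
    rw [h1, map_mul, map_zpow₀, AlgHom.commutes]
    rfl
  exact h2

/-- a product of conjugate elements -/
lemma conj_prod {F : IntermediateField (kk A B) ℂ} (σ : F ≃ₐ[kk A B] F) (t t' : ℕ → ℂ)
    (h : ∀ l, ∃ h : t l ∈ F, (σ ⟨t l, h⟩ : ℂ) = t' l) (s : Finset ℕ) :
    ∃ h : (∏ l ∈ s, t l) ∈ F, (σ ⟨∏ l ∈ s, t l, h⟩ : ℂ) = ∏ l ∈ s, t' l := by
  choose h1 h2 using h
  have h3 : (∏ l ∈ s, t l) ∈ F := prod_mem fun l _ => h1 l
  refine ⟨h3, ?_⟩
  have h4 : (⟨∏ l ∈ s, t l, h3⟩ : F) = ∏ l ∈ s, ⟨t l, h1 l⟩ := by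
    apply F.val.injective
    rw [map_prod]
    rfl
  have h5 : _root_.Pool.Agent.MU3A.em σ ⟨∏ l ∈ s, t l, h3⟩ = ∏ l ∈ s, _root_.Pool.Agent.MU3A.em σ ⟨t l, h1 l⟩ := by
    rw [h4, map_prod]
  exact h5.trans (Finset.prod_congr rfl fun l _ => h2 l)

/-- powers of `v(d)³` -/
def _root_.Pool.Agent.NSER.ONE.Cb (V : ValuationSubring ℂ) (d x : ℂ) : Prop :=
  ∃ k : ℤ, V.valuation x = V.valuation d ^ (3 * k)

lemma Cb.one (V : ValuationSubring ℂ) (d : ℂ) : _root_.Pool.Agent.NSER.ONE.Cb V d 1 := ⟨0, by simp⟩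

lemma Cb.mul {V : ValuationSubring ℂ} {d x y : ℂ} (hd : d ≠ 0) (hx : _root_.Pool.Agent.NSER.ONE.Cb V d x) (hy : _root_.Pool.Agent.NSER.ONE.Cb V d y) :
    _root_.Pool.Agent.NSER.ONE.Cb V d (x * y) := by
  obtain ⟨k, hk⟩ := hx
  obtain ⟨l, hl⟩ := hy
  refine ⟨k + l, ?_⟩
  rw [map_mul, hk, hl, ← zpow_add₀ ((Valuation.ne_zero_iff _).2 hd)]
  congr 1
  ring

lemma Cb.zpow {V : ValuationSubring ℂ} {d x : ℂ} (hx : _root_.Pool.Agent.NSER.ONE.Cb V d x) (g : ℤ) : _root_.Pool.Agent.NSER.ONE.Cb V d (x ^ g) := by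
  obtain ⟨k, hk⟩ := hx
  refine ⟨k * g, ?_⟩
  rw [map_zpow₀, hk, ← zpow_mul]
  congr 1
  ring

/-- the product of the functions `G y` -/
lemma _root_.Pool.Agent.NSER.ONE.asm (hALG : Sf_ALG) (hPRO : Sf_PRO) {V : ValuationSubring ℂ} {S : Set ℂ} {s r : ℂ → ℂ}
    {a2 a4 : ℂ} (hP : PtsR V S s r a2 a4) {J κ : Type} [Fintype J] (X : J → Finset κ)
    (g : J → ℤ) (G : κ → ℂ → ℂ) (l : κ → ℂ) (hG : ∀ j, ∀ y ∈ X j, _root_.Pool.Agent.NSE.Rep V S s r (G y) 1 (l y)) :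
    _root_.Pool.Agent.NSE.Rep V S s r (fun Y => ∏ j, (∏ y ∈ X j, G y Y) ^ g j) 1 (∑ j, (g j : ℂ) * ∑ y ∈ X j, l y) := by
  obtain ⟨-, -, -, hcg, -⟩ := hALG V S s r a2 a4 hP
  obtain ⟨-, hpr, -⟩ := hPRO V S s r a2 a4 hP
  have v0 : V.valuation (0 : ℂ) ≤ V.valuation (3 : ℂ) := by rw [map_zero]; exact zero_le
  have h1 : ∀ j, _root_.Pool.Agent.NSE.Rep V S s r (fun Y => ∏ y ∈ X j, G y Y) 1 (∑ y ∈ X j, l y) := by
    intro j
    have h2 := (hpr (X j) (fun y => G y.1) (fun _ => 1) (fun y => l y.1) (fun _ => 1)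
      (fun y => by rw [one_mul]; exact hG j y.1 y.2) (fun y => map_one _)).2
    refine hcg _ _ _ _ _ _ h2 (fun Y _ => ?_) ?_ ?_
    · simp only [zpow_one]
      exact (Finset.prod_coe_sort (X j) (fun y => G y Y)).symm
    · simp only [one_zpow, Finset.prod_const_one, sub_self]
      exact v0
    · simp only [one_zpow, Finset.prod_const_one, one_mul, Int.cast_one]
      rw [Finset.sum_coe_sort (X j) (fun y => l y), sub_self]
      exact v0
  have h3 := (hpr J (fun j Y => ∏ y ∈ X j, G y Y) (fun _ => 1) (fun j => ∑ y ∈ X j, l y) g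
    (fun j => by rw [one_mul]; exact h1 j) (fun y => map_one _)).2
  refine hcg _ _ _ _ _ _ h3 (fun Y _ => rfl) ?_ ?_
  · simp only [one_zpow, Finset.prod_const_one, sub_self]
    exact v0
  · simp only [one_zpow, Finset.prod_const_one, one_mul, sub_self]
    exact v0

/-- everything about one point `(i, x)`, on the lattice `N = ν P⁻¹ L_i` -/
lemma _root_.Pool.Agent.NSER.ONE.point (hTHN : Sf_THN) (hNE1 : Sf_NE1) (hMUL : Sf_MUL) (hEXO : Sf_EXO) (hIDL : Sf_IDL)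
    {P : Ideal (OO A B)} {V : ValuationSubring ℂ} (hC : CtxR A B P V) {n f a : ℕ}
    (hf3 : 3 ≤ f) (hf : ¬ 3 ∣ f) (ha : a ≠ 0) (hpa : ¬ 3 ∣ a) (hco : a.Coprime f) {ι : Type}
    (R : Reps A B (3 * f) ι) {N0 N : PeriodPair} {nu0 nu u e lam u' e' lam' : ℂ}
    (hQ0 : IsQ P (R.L R.i0) N0 nu0) (hg0 : GoodR V N0 u e lam) {i : ι}
    (hQ : IsQ P (R.L i) N nu) (hg : GoodR V N u' e' lam') {H' : Finset ℂ}
    (hH' : IsHalf N (a : ℂ) H') (x : OO A B)
    (hx : IsCoprime x ((3 ^ (n + 1) * f : ℕ) : OO A B)) :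
    Isg N0 N (muX R i * emb x * nu / nu0) ∧
    nu * pt R (3 ^ (n + 1) * f) i x =
      (muX R i * emb x * nu / nu0) * (nu0 * (R.om R.i0 / (3 ^ (n + 1) * f : ℕ))) ∧
    (a : ℂ) * (nu * pt R (3 ^ (n + 1) * f) i x) ∉ N.lattice ∧
    _root_.Pool.Agent.NSE.Rep V (E3 N0) (su N0 u e) (ru N0 u e)
      (fun Y => ThetaH N H' (nu * pt R (3 ^ (n + 1) * f) i x + muX R i * emb x * nu / nu0 * Y) /
        ThetaH N H' (nu * pt R (3 ^ (n + 1) * f) i x)) 1
      (muX R i * emb x * nu / nu0 * dlX N a (nu * pt R (3 ^ (n + 1) * f) i x) / u) := by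
  have hf0 : f ≠ 0 := by omega
  obtain ⟨h3P, -, -, -, hidl⟩ := hIDL A B P V hC
  obtain ⟨-, -, -, -, -, hnat, -⟩ := hidl f n hf0
  have hxP : x ∉ P := by
    intro h
    apply hC.max.ne_top
    rw [Ideal.eq_top_iff_one]
    obtain ⟨b1, b2, hb⟩ := hx
    rw [← hb]
    refine add_mem (Ideal.mul_mem_left _ _ h) (Ideal.mul_mem_left _ _ ?_)
    have h5 : ((3 ^ (n + 1) * f : ℕ) : OO A B) = ((3 ^ n * f : ℕ) : OO A B) * 3 := by
      push_cast
      ring
    rw [h5]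
    exact Ideal.mul_mem_left _ _ h3P
  obtain ⟨-, hMU⟩ := hMUL A B P V hC (3 * f) ι R (by omega) (dvd_mul_right _ _) i x hxP
  obtain ⟨hmu, hisg, m, hm3, hm⟩ := hMU N0 N nu0 nu hQ0 hQ
  obtain ⟨-, hEx, -, hlast⟩ := hEXO A B P V hC n f ι R hf0 i x hx
  have hE := hEx N nu hQ
  have enat : ∀ n : ℕ, emb ((n : ℕ) : OO A B) = n := by
    obtain ⟨φ, hφ⟩ := hC.ring.hom
    intro n
    rw [← hφ, map_natCast]
  have hE' : ∀ c : ℕ, (c : ℂ) * (nu * pt R (3 ^ (n + 1) * f) i x) ∈ N.lattice ↔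
      3 ^ (n + 1) * f ∣ c := by
    intro c
    rw [← hnat c, ← hE (c : OO A B), enat]
  obtain ⟨hzK, hza, hzq⟩ := hNE1 V N u' e' lam' hg hC.v3 (n + 1) f a (by omega) hf hpa hco _
    ((hE' _).2 (dvd_refl _)) (fun c hc => (dvd_mul_left f _).trans ((hE' c).1 hc))
  obtain ⟨-, -, k3⟩ := hTHN V N0 N u e lam u' e' lam' (muX R i * emb x * nu / nu0) m hg0
    hg hC.v3 hmu hisg hm3 hm a H' ha hH' _ hzK hza (fun q hq =>
      hzq q (hH'.mem q hq) (fun hqL => hH'.ne q hq (by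
        rw [two_mul]; exact add_mem hqL hqL)))
  exact ⟨hisg, hlast nu nu0 hQ0.1, hza, k3⟩

end ONE

open _root_.Pool.Agent.NSER.ONE in
theorem tf_ONE (hALG : Sf_ALG) (hPRO : Sf_PRO) (hPTS : Sf_PTS) (hTHN : Sf_THN)
    (hSIG : Sf_SIG) (hNE1 : Sf_NE1) (hMUL : Sf_MUL) (hEXO : Sf_EXO) (hIDL : Sf_IDL)
    (hDIS : Sf_DIS) (hPIS : Sf_PIS) (hINN : Sf_INN) : Sf_ONE := by
  intro A B P V hC hT hG n f a hn hf3 hf2 hf ha3 hodd hpa hco ι R u e lam hgood H hH J κ _ X g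
    i x q hX ⟨y0, hy0, hy3⟩
  have ha0 : a ≠ 0 := by omega
  have hf0 : f ≠ 0 := by omega
  have hv3 := hC.v3
  have hring := hC.ring
  obtain ⟨φ, hφ⟩ := hring.hom
  have emul : ∀ x y : OO A B, emb (x * y) = emb x * emb y := fun x y => by
    rw [← hφ, map_mul, hφ, hφ]
  have eadd : ∀ x y : OO A B, emb (x + y) = emb x + emb y := fun x y => by
    rw [← hφ, map_add, hφ, hφ]
  have esub : ∀ x y : OO A B, emb (x - y) = emb x - emb y := fun x y => by
    rw [← hφ, map_sub, hφ, hφ]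
  have eone : emb (1 : OO A B) = 1 := by rw [← hφ, map_one]
  have enat : ∀ n : ℕ, emb ((n : ℕ) : OO A B) = n := fun n => by rw [← hφ, map_natCast]
  have eint : ∀ n : ℤ, emb ((n : ℤ) : OO A B) = n := fun n => by rw [← hφ, map_intCast]
  obtain ⟨h3P, hPP, -, -, hidl⟩ := hIDL A B P V hC
  obtain ⟨hlv, -, hmle, -, -, -, -⟩ := hidl f n hf0
  -- the lattices `N_i`
  have hNLR : ∀ j : ι, NL A B (R.L j) := fun j => ⟨_, _, R.nl j⟩
  choose Nt nt hNt hQt using fun j : ι => hC.exq (R.L j) (hNLR j)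
  choose ut et lt hgt using fun j : ι => hC.good (Nt j) (hNt j)
  have hHalf : ∀ j : ι, ∃ H' : Finset ℂ, IsHalf (Nt j) (a : ℂ) H' := by
    intro j
    refine b_HAL (Nt j) (a : ℂ) (by exact_mod_cast ha0) (fun w hw => ?_) (fun z h1 h2 => ?_)
    · have := nsmul_mem hw a
      rwa [nsmul_eq_mul] at this
    · obtain ⟨t, ht⟩ := hodd
      have h3 := nsmul_mem h2 t
      have h4 : z = (a : ℂ) * z - t • (2 * z) := by
        rw [ht, nsmul_eq_mul]
        push_cast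
        ring
      rw [h4]
      exact sub_mem h1 h3
  choose Ht hHt using hHalf
  obtain ⟨N0, hN0⟩ : ∃ N0, N0 = Nt R.i0 := ⟨_, rfl⟩
  obtain ⟨nu0, hnu0⟩ : ∃ nu0, nu0 = nt R.i0 := ⟨_, rfl⟩
  obtain ⟨u0, hu0⟩ : ∃ u0, u0 = ut R.i0 := ⟨_, rfl⟩
  obtain ⟨e0, he0⟩ : ∃ e0, e0 = et R.i0 := ⟨_, rfl⟩
  obtain ⟨l0, hl0⟩ : ∃ l0, l0 = lt R.i0 := ⟨_, rfl⟩
  have hNN0 : NL A B N0 := by rw [hN0]; exact hNt _
  have hQ0 : IsQ P (R.L R.i0) N0 nu0 := by rw [hN0, hnu0]; exact hQt _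
  have hg0 : GoodR V N0 u0 e0 l0 := by rw [hN0, hu0, he0, hl0]; exact hgt _
  obtain ⟨hPts, hper⟩ := hPTS V N0 u0 e0 l0 hg0 hv3
  have hm0 : ((3 ^ (n + 1) * f : ℕ) : ℂ) ≠ 0 := by
    exact_mod_cast mul_ne_zero (pow_ne_zero _ (by norm_num : (3 : ℕ) ≠ 0)) hf0
  -- the base point
  obtain ⟨z₁, hz₁⟩ : ∃ z₁ : ℂ, z₁ = nu0 * (R.om R.i0 / (3 ^ (n + 1) * f : ℕ)) := ⟨_, rfl⟩
  have hEz : Ex (lvR P f n) N0 z₁ := by
    obtain ⟨-, hEx, -, -⟩ := hEXO A B P V hC n f ι R hf0 R.i0 1 isCoprime_one_left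
    have h1 := hEx N0 nu0 hQ0
    have h2 : pt R (3 ^ (n + 1) * f) R.i0 (1 : OO A B) = R.om R.i0 / (3 ^ (n + 1) * f : ℕ) := by
      have h3 : nI (R.b R.i0) = 1 := by
        rw [R.b0, nI]
        exact Nat.card_eq_one_iff_unique.2 ⟨Ideal.Quotient.subsingleton_iff.2 rfl, ⟨0⟩⟩
      rw [pt, h3, eone, Nat.cast_one, mul_one, mul_one]
    rwa [h2, ← hz₁] at h1
  -- the points
  have hP := fun j k (hk : k ∈ X j) => _root_.Pool.Agent.NSER.ONE.point (n := n) hTHN hNE1 hMUL hEXO hIDL hC hf3 hf ha0 hpa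
    hco R hQ0 hg0 (hQt (i k)) (hgt (i k)) (hHt (i k)) (x k) (hX j k hk).1
  have hDi : ∀ k : κ, Tor P (R.L (i k)) (q k) → q k ∉ (R.L (i k)).lattice →
      ∃ C : ℂ, C ≠ 0 ∧ ∀ z : ℂ, (a : ℂ) * (nt (i k) * z) ∉ (Nt (i k)).lattice →
        (∏ l ∈ Finset.range 3, ThetaH (R.L (i k)) (H (i k)) (z + l * q k)) =
          C * ThetaH (Nt (i k)) (Ht (i k)) (nt (i k) * z) ∧
        (∑ l ∈ Finset.range 3, dlX (R.L (i k)) a (z + l * q k)) =
          nt (i k) * dlX (Nt (i k)) a (nt (i k) * z) := fun k h1 h2 =>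
    hDIS A B P V hC (R.L (i k)) (Nt (i k)) (nt (i k)) (hNLR _) (hNt _) (hQt _) a (H (i k))
      (Ht (i k)) ha0 hpa (hH _) (hHt _) (q k) h1 h2
  -- the element `δ`
  obtain ⟨d, hd⟩ : ∃ d : ℂ, d = emb (dD A B) := ⟨_, rfl⟩
  have hdk : d ∈ kk A B := by rw [hd]; exact emb_kk _
  have hd0 : d ≠ 0 := by
    intro h
    have h1 := hC.vd
    rw [← hd, h, map_zero, zero_pow (by norm_num)] at h1
    exact (Valuation.ne_zero_iff V.valuation).2 (by norm_num : (3 : ℂ) ≠ 0) h1.symm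
  have vd0 : V.valuation d ≠ 0 := (Valuation.ne_zero_iff _).2 hd0
  -- the product and its root
  have hCW : _root_.Pool.Agent.NSER.ONE.Cb V d (∏ j, (∏ k ∈ X j, ∏ l ∈ Finset.range 3, ThetaH (R.L (i k)) (H (i k))
      (pt R (3 ^ (n + 1) * f) (i k) (x k) + l * q k)) ^ g j) := by
    refine Finset.prod_induction _ (_root_.Pool.Agent.NSER.ONE.Cb V d) (fun _ _ => Cb.mul hd0) (Cb.one V d)
      fun j _ => Cb.zpow ?_ _
    refine Finset.prod_induction _ (_root_.Pool.Agent.NSER.ONE.Cb V d) (fun _ _ => Cb.mul hd0) (Cb.one V d) fun k hk => ?_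
    refine Finset.prod_induction _ (_root_.Pool.Agent.NSER.ONE.Cb V d) (fun _ _ => Cb.mul hd0) (Cb.one V d) fun l _ => ?_
    obtain ⟨hxk, hqk, -⟩ := hX j k hk
    rw [hd]
    exact ((hINN A B P V hC hT hG n f a hf3 hf2 hf ha3 hodd hpa hco ι R u e lam hgood H hH (i k)
      (x k) hxk (q k) hqk).1 l).1
  obtain ⟨K, hK⟩ := hCW
  rw [← hy3, map_pow, mul_comm, zpow_mul] at hK
  have hK' : V.valuation y0 ^ 3 = (V.valuation d ^ K) ^ 3 := by exact_mod_cast hK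
  have vy0 : V.valuation y0 = V.valuation d ^ K :=
    (pow_left_inj₀ zero_le zero_le (by norm_num)).1 hK'
  obtain ⟨w0, hw0⟩ : ∃ w0 : ℂ, w0 = y0 / d ^ K := ⟨_, rfl⟩
  have hdK : d ^ K ≠ 0 := zpow_ne_zero _ hd0
  have hyw : y0 = w0 * d ^ K := by rw [hw0, div_mul_cancel₀ _ hdK]
  have vw0 : V.valuation w0 = 1 := by
    rw [hw0, map_div₀, map_zpow₀, vy0, div_self (zpow_ne_zero _ vd0)]
  have hw00 : w0 ≠ 0 := by
    intro h
    rw [h, map_zero] at vw0
    exact zero_ne_one vw0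
  have hdF : ∀ F : IntermediateField (kk A B) ℂ, d ^ K ∈ F := fun F =>
    zpow_mem (F.algebraMap_mem ⟨d, hdk⟩) K
  -- the fields
  have hle1 : lvR P (f * a) n ≤ lvR P f n := by
    refine Ideal.mul_mono_left ?_
    rw [Ideal.span_singleton_le_span_singleton]
    exact ⟨(a : OO A B), by push_cast; ring⟩
  have hle2 : idl (A := A) (B := B) (3 ^ (n + 1) * f * a) ≤ lvR P f n := by
    refine le_trans ?_ hmle
    rw [Ideal.span_singleton_le_span_singleton]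
    exact ⟨(a : OO A B), by push_cast; ring⟩
  have hFAC := (te_FAC te_TRA A B hring).1
  have hw0S : w0 ∈ RF (lvR P (f * a) n) := by
    rw [hw0]
    exact div_mem (hFAC _ _ hle1 hy0) (hdF _)
  have hy0M : y0 ∈ RF (idl (A := A) (B := B) (3 ^ (n + 1) * f * a)) := hFAC _ _ hle2 hy0
  have hw0M : w0 ∈ RF (idl (A := A) (B := B) (3 ^ (n + 1) * f * a)) := by
    rw [hw0]
    exact div_mem hy0M (hdF _)
  obtain ⟨F, β, vβ, hF, hσF⟩ := hSIG A B P V hC hT hG N0 u0 e0 l0 hNN0 hg0 n f a hf3 hf2 hf ha0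
    hpa z₁ hEz w0 hw0S vw0.le
  obtain ⟨n', hn'⟩ : ∃ n', n = n' + 1 := ⟨n - 1, by omega⟩
  -- the identity at the points `Y`
  have key : ∀ p ∈ P,
      ∏ j, (∏ k ∈ X j, ThetaH (Nt (i k)) (Ht (i k)) (nt (i k) * pt R (3 ^ (n + 1) * f) (i k) (x k) +
        muX R (i k) * emb (x k) * nt (i k) / nu0 *
          (emb (((3 ^ n' * f * a : ℕ) : OO A B) * p) * z₁)) /
        ThetaH (Nt (i k)) (Ht (i k)) (nt (i k) * pt R (3 ^ (n + 1) * f) (i k) (x k))) ^ g j =
      (F (emb (((3 ^ n' * f * a : ℕ) : OO A B) * p) * z₁) * w0⁻¹) ^ 3 := by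
    intro p hp
    have hne : idl (A := A) (B := B) (3 ^ (n + 1) * f * a) ≠ ⊥ := by
      intro h
      rw [Ideal.span_singleton_eq_bot] at h
      have h2 := congrArg emb h
      rw [enat, ← hφ 0, map_zero] at h2
      push_cast at h2 hm0
      exact mul_ne_zero hm0 (by exact_mod_cast ha0) h2
    obtain ⟨c, hc⟩ : ∃ c : OO A B, c = 1 + ((3 ^ n' * f * a : ℕ) : OO A B) * p := ⟨_, rfl⟩
    have hc1 : c - 1 = ((3 ^ n' * f * a : ℕ) : OO A B) * p := by rw [hc]; ring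
    have hcP : c - 1 ∈ P := by rw [hc1]; exact Ideal.mul_mem_left _ _ hp
    have hcop3 : IsCoprime c ((3 : ℕ) : OO A B) := by
      have h1 : (c - 1) * (c - 1) ∈ idl (A := A) (B := B) 3 := by
        rw [← hC.sq]
        exact Ideal.mul_mem_mul hcP hcP
      obtain ⟨t, ht⟩ := Ideal.mem_span_singleton.1 h1
      exact ⟨2 - c, t, by linear_combination -ht⟩
    have hcop1 : IsCoprime c ((3 ^ n' * f * a : ℕ) : OO A B) := ⟨1, -p, by rw [hc]; ring⟩
    have hcopm : IsCoprime c ((3 ^ (n + 1) * f * a : ℕ) : OO A B) := by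
      have h3 : ((3 ^ (n + 1) * f * a : ℕ) : OO A B) =
          ((3 : ℕ) : OO A B) * (((3 : ℕ) : OO A B) * ((3 ^ n' * f * a : ℕ) : OO A B)) := by
        rw [hn']
        push_cast
        ring
      rw [h3]
      exact hcop3.mul_right (hcop3.mul_right hcop1)
    have hcopf : IsCoprime c ((3 ^ (n + 1) * f : ℕ) : OO A B) := by
      refine hcopm.of_isCoprime_of_dvd_right ⟨(a : OO A B), by push_cast; ring⟩
    have hcop : IsCoprime (sp c) (idl (A := A) (B := B) (3 ^ (n + 1) * f * a)) := by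
      rw [Ideal.isCoprime_span_singleton_iff]
      exact hcopm
    obtain ⟨σ, hσ⟩ := hG.sur _ hne _ hcop
    have k1 := NSE.ONE.conj σ X g
      (fun k => ∏ l ∈ Finset.range 3, ThetaH (R.L (i k)) (H (i k))
        (pt R (3 ^ (n + 1) * f) (i k) (x k) + l * q k))
      (fun k => ∏ l ∈ Finset.range 3, ThetaH (R.L (i k)) (H (i k))
        (emb c * pt R (3 ^ (n + 1) * f) (i k) (x k) + l * q k)) (fun j k hk => by
          obtain ⟨hxk, hqk, hqL⟩ := hX j k hk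
          refine conj_prod σ (fun l => ThetaH (R.L (i k)) (H (i k))
            (pt R (3 ^ (n + 1) * f) (i k) (x k) + l * q k)) (fun l => ThetaH (R.L (i k)) (H (i k))
            (emb c * pt R (3 ^ (n + 1) * f) (i k) (x k) + l * q k)) (fun l => ?_) _
          obtain ⟨-, -, hEx3, -⟩ := hEXO A B P V hC n f ι R hf0 (i k) (x k) hxk
          obtain ⟨hzm, hzf⟩ := hEx3 (q k) hqk l
          have hzL : pt R (3 ^ (n + 1) * f) (i k) (x k) + l * q k ∉ (R.L (i k)).lattice := by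
            intro h
            have h1 := hzf 1 (by rwa [Nat.cast_one, one_mul])
            have h2 := Nat.le_of_dvd (by norm_num) h1
            omega
          have hzT : Tor (idl (A := A) (B := B) (3 ^ (n + 1) * f * a)) (R.L (i k))
              (pt R (3 ^ (n + 1) * f) (i k) (x k) + l * q k) := by
            refine ((te_TRA A B hring _ (hNLR _)).2.2.2.2.1 _ _).2 ?_
            rw [enat]
            have h1 := nsmul_mem hzm a
            rw [nsmul_eq_mul] at h1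
            have h2 : ((3 ^ (n + 1) * f * a : ℕ) : ℂ) *
                (pt R (3 ^ (n + 1) * f) (i k) (x k) + l * q k) =
                (a : ℂ) * (((3 ^ (n + 1) * f : ℕ) : ℂ) *
                  (pt R (3 ^ (n + 1) * f) (i k) (x k) + l * q k)) := by
              push_cast
              ring
            rw [h2]
            exact h1
          obtain ⟨hmem, hθ⟩ := te_GTH te_TRA A B hring _ (hNLR (i k)) a (H (i k)) (hH (i k))
            (idl (A := A) (B := B) (3 ^ (n + 1) * f * a)) (by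
              rw [Ideal.span_singleton_le_span_singleton]
              exact ⟨((3 ^ (n + 1) * f : ℕ) : OO A B), by push_cast; ring⟩) σ _ hσ (by
              rw [hc1, Ideal.mem_span_singleton]
              exact ⟨((3 ^ n' * f : ℕ) : OO A B) * p, by push_cast; ring⟩) _ hzT hzL
          refine ⟨hmem, hθ.trans ?_⟩
          have h4 : emb c * (pt R (3 ^ (n + 1) * f) (i k) (x k) + l * q k) =
              (emb c * pt R (3 ^ (n + 1) * f) (i k) (x k) + l * q k) +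
                l * (emb (c - 1) * q k) := by
            rw [esub, eone]
            ring
          have h5 : (l : ℂ) * (emb (c - 1) * q k) ∈ (R.L (i k)).lattice := by
            have := nsmul_mem (hqk _ hcP) l
            rwa [nsmul_eq_mul] at this
          rw [h4, _root_.Pool.Agent.NSER.ONE.theta_per _ _ _ _ h5]) hy0M hy3
    have k2 := conjk σ hdk K hy0M hw0M hyw
    have hσc := hσF c (by
      rw [hc1, Ideal.mem_span_singleton]
      exact ⟨((3 ^ n' : ℕ) : OO A B) * p, by push_cast; ring⟩) σ hσ hw0M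
    rw [hσc, hc1] at k2
    have k3 : ∀ j, ∀ k ∈ X j, ThetaH (Nt (i k)) (Ht (i k))
        (nt (i k) * pt R (3 ^ (n + 1) * f) (i k) (x k) +
        muX R (i k) * emb (x k) * nt (i k) / nu0 *
          (emb (((3 ^ n' * f * a : ℕ) : OO A B) * p) * z₁)) /
        ThetaH (Nt (i k)) (Ht (i k)) (nt (i k) * pt R (3 ^ (n + 1) * f) (i k) (x k)) =
        (∏ l ∈ Finset.range 3, ThetaH (R.L (i k)) (H (i k))
          (emb c * pt R (3 ^ (n + 1) * f) (i k) (x k) + l * q k)) /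
        (∏ l ∈ Finset.range 3, ThetaH (R.L (i k)) (H (i k))
          (pt R (3 ^ (n + 1) * f) (i k) (x k) + l * q k)) := by
      intro j k hk
      obtain ⟨hxk, hqk, hqL⟩ := hX j k hk
      obtain ⟨C, hC0, hCz⟩ := hDi k hqk hqL
      obtain ⟨-, hz, hza, -⟩ := hP j k hk
      obtain ⟨-, -, hzc, -⟩ := _root_.Pool.Agent.NSER.ONE.point (n := n) hTHN hNE1 hMUL hEXO hIDL hC hf3 hf ha0 hpa
        hco R hQ0 hg0 (hQt (i k)) (hgt (i k)) (hHt (i k)) (c * x k) (hcopf.mul_left hxk)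
      have h5 : pt R (3 ^ (n + 1) * f) (i k) (c * x k) =
          emb c * pt R (3 ^ (n + 1) * f) (i k) (x k) := by
        rw [pt, pt, emul]
        ring
      rw [h5] at hzc
      rw [(hCz _ hza).1, (hCz _ hzc).1, mul_div_mul_left _ _ hC0]
      congr 2
      rw [← hc1, esub, eone, hz₁]
      linear_combination (1 - emb c) * hz
    have k4 : ∏ j, (∏ k ∈ X j, ThetaH (Nt (i k)) (Ht (i k))
        (nt (i k) * pt R (3 ^ (n + 1) * f) (i k) (x k) +
        muX R (i k) * emb (x k) * nt (i k) / nu0 *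
          (emb (((3 ^ n' * f * a : ℕ) : OO A B) * p) * z₁)) /
        ThetaH (Nt (i k)) (Ht (i k)) (nt (i k) * pt R (3 ^ (n + 1) * f) (i k) (x k))) ^ g j =
        ∏ j, (∏ k ∈ X j, (∏ l ∈ Finset.range 3, ThetaH (R.L (i k)) (H (i k))
          (emb c * pt R (3 ^ (n + 1) * f) (i k) (x k) + l * q k)) /
        (∏ l ∈ Finset.range 3, ThetaH (R.L (i k)) (H (i k))
          (pt R (3 ^ (n + 1) * f) (i k) (x k) + l * q k))) ^ g j := by
      refine Finset.prod_congr rfl fun j _ => ?_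
      congr 1
      exact Finset.prod_congr rfl fun k hk => k3 j k hk
    rw [k4]
    simp only [Finset.prod_div_distrib, div_zpow] at k1 ⊢
    rw [← k1, ← hy3, k2, hyw]
    field_simp
  -- the identity on `E3`
  have key2 : ∀ Y ∈ E3 N0,
      ∏ j, (∏ k ∈ X j, ThetaH (Nt (i k)) (Ht (i k)) (nt (i k) * pt R (3 ^ (n + 1) * f) (i k) (x k) +
        muX R (i k) * emb (x k) * nt (i k) / nu0 * Y) /
        ThetaH (Nt (i k)) (Ht (i k)) (nt (i k) * pt R (3 ^ (n + 1) * f) (i k) (x k))) ^ g j =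
      (F Y * w0⁻¹) ^ 3 := by
    rintro Y ⟨hY3, hYL⟩
    have hnl0 : IsNL (⊤ : Ideal (OO A B)) (R.L R.i0) (R.om R.i0) := by
      have := R.nl R.i0
      rwa [R.b0] at this
    have hom0 : R.om R.i0 ≠ 0 := hnl0.om_ne
    have hnu00 : nu0 ≠ 0 := hQ0.1
    have hY3' : nu0 * (3 * Y / nu0) ∈ N0.lattice := by
      rwa [mul_div_cancel₀ _ hnu00]
    have hYp := (hQ0.2 (3 * Y / nu0)).1 hY3'
    obtain ⟨s, -, hs⟩ := (hnl0.mem _).1 (hYp _ h3P)
    have e3 : emb (3 : OO A B) = 3 := by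
      have := enat 3
      exact_mod_cast this
    have hsP : s ∈ P := by
      refine hPP s fun p hp => ?_
      obtain ⟨y, -, hy⟩ := (hnl0.mem _).1 (hYp p hp)
      rw [hC.sq, Ideal.mem_span_singleton]
      refine ⟨y, ?_⟩
      have h1 : R.om R.i0 * emb (p * s - ((3 : ℕ) : OO A B) * y) = 0 := by
        rw [esub, emul, emul, enat]
        rw [e3] at hs
        push_cast
        linear_combination 3 * hy - emb p * hs
      have h2 := (mul_eq_zero.1 h1).resolve_left hom0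
      exact sub_eq_zero.1 (hring.inj0 _ h2)
    have hYz : Y = emb (((3 ^ n' * f : ℕ) : OO A B) * s) * z₁ := by
      rw [e3] at hs
      have h1 : ((3 ^ (n + 1) * f : ℕ) : ℂ) = 9 * ((3 ^ n' * f : ℕ) : ℂ) := by
        rw [hn']
        push_cast
        ring
      have h2 : ((3 ^ n' * f : ℕ) : ℂ) ≠ 0 := by
        intro h
        rw [h1, h, mul_zero] at hm0
        exact hm0 rfl
      rw [hz₁, h1, emul, enat]
      field_simp at hs ⊢
      linear_combination hs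
    obtain ⟨a', t, hat⟩ : ∃ a' t : ℤ, (a : ℤ) * a' = 1 + 3 * t := by
      have h4 : a % 3 = 1 ∨ a % 3 = 2 := by omega
      rcases h4 with h4 | h4
      · exact ⟨1, (a : ℤ) / 3, by omega⟩
      · exact ⟨2, (2 * (a : ℤ) - 1) / 3, by omega⟩
    have h2 := key ((a' : OO A B) * s) (Ideal.mul_mem_left _ _ hsP)
    obtain ⟨b, hb⟩ : ∃ b : ℂ, b = emb (((3 ^ n * f : ℕ) : OO A B) * ((t : OO A B) * s)) * z₁ :=
      ⟨_, rfl⟩
    have hbN : b ∈ N0.lattice := by
      rw [hb]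
      exact (hEz _).2 ((hlv _).2 ⟨_, Ideal.mul_mem_left _ _ hsP, rfl⟩)
    have hYb : emb (((3 ^ n' * f * a : ℕ) : OO A B) * ((a' : OO A B) * s)) * z₁ = Y + b := by
      have h1 : (a : ℂ) * a' = 1 + 3 * t := by exact_mod_cast hat
      rw [hYz, hb, hn']
      simp only [emul, enat, eint]
      push_cast
      linear_combination (3 ^ n' * f * emb s * z₁) * h1
    rw [hYb] at h2
    obtain ⟨hYb3, hs', hr'⟩ := hper Y ⟨hY3, hYL⟩ _ hbN
    have hFY : F (Y + b) = F Y := by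
      obtain ⟨P', Q', -, -, hPQ, -⟩ := hF
      rw [hPQ _ hYb3, hPQ _ ⟨hY3, hYL⟩, hs', hr']
    rw [hFY] at h2
    rw [← h2]
    refine Finset.prod_congr rfl fun j _ => ?_
    congr 1
    refine Finset.prod_congr rfl fun k hk => ?_
    congr 1
    have h3 : nt (i k) * pt R (3 ^ (n + 1) * f) (i k) (x k) +
        muX R (i k) * emb (x k) * nt (i k) / nu0 * (Y + b) =
        (nt (i k) * pt R (3 ^ (n + 1) * f) (i k) (x k) +
        muX R (i k) * emb (x k) * nt (i k) / nu0 * Y) +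
        muX R (i k) * emb (x k) * nt (i k) / nu0 * b := by ring
    rw [h3, _root_.Pool.Agent.NSER.ONE.theta_per _ _ _ _ ((hP j k hk).1 _ hbN)]
  -- the comparison
  have hS := _root_.Pool.Agent.NSER.ONE.asm hALG hPRO hPts X g
    (fun k Y => ThetaH (Nt (i k)) (Ht (i k)) (nt (i k) * pt R (3 ^ (n + 1) * f) (i k) (x k) +
        muX R (i k) * emb (x k) * nt (i k) / nu0 * Y) /
        ThetaH (Nt (i k)) (Ht (i k)) (nt (i k) * pt R (3 ^ (n + 1) * f) (i k) (x k)))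
    (fun k => muX R (i k) * emb (x k) * nt (i k) / nu0 *
      dlX (Nt (i k)) a (nt (i k) * pt R (3 ^ (n + 1) * f) (i k) (x k)) / u0)
    (fun j k hk => (hP j k hk).2.2.2)
  obtain ⟨hcst, -, -, -, -, hmul, -⟩ := hALG _ _ _ _ _ _ hPts
  have hG' : _root_.Pool.Agent.NSE.Rep V (E3 N0) (su N0 u0 e0) (ru N0 u0 e0)
      (fun Y => F Y * w0⁻¹) (w0 * w0⁻¹) (w0 * 0 + w0⁻¹ * β) :=
    hmul _ _ _ _ _ _ hF (hcst w0⁻¹ (by rw [map_inv₀, vw0, inv_one]))
  have hS' := (hPRO _ _ _ _ _ _ hPts).2.2 _ _ _ _ _ _ hG' key2 hS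
  have hu00 : u0 ≠ 0 := hg0.u0
  have huu : u ≠ 0 := hgood.u0
  have hnu00 : nu0 ≠ 0 := hQ0.1
  have hfin : (∑ j, (g j : ℂ) * ∑ k ∈ X j, emb (x k) * muX R (i k) *
        ∑ l ∈ Finset.range 3, dlX (R.L (i k)) a
          (pt R (3 ^ (n + 1) * f) (i k) (x k) + l * q k)) / u =
      (∑ j, (g j : ℂ) * ∑ k ∈ X j, muX R (i k) * emb (x k) * nt (i k) / nu0 *
      dlX (Nt (i k)) a (nt (i k) * pt R (3 ^ (n + 1) * f) (i k) (x k)) / u0) *
        (nu0 * u0 / u) := by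
    rw [Finset.sum_div, Finset.sum_mul]
    refine Finset.sum_congr rfl fun j _ => ?_
    rw [mul_div_assoc, mul_assoc, Finset.sum_div, Finset.sum_mul]
    congr 1
    refine Finset.sum_congr rfl fun k hk => ?_
    obtain ⟨hxk, hqk, hqL⟩ := hX j k hk
    obtain ⟨C, hC0, hCz⟩ := hDi k hqk hqL
    obtain ⟨-, hz, hza, -⟩ := hP j k hk
    rw [(hCz _ hza).2]
    field_simp
  have hpis := hPIS A B P V hC hT hG (R.L R.i0) N0 nu0 u e lam u0 e0 l0 (hNLR _) hNN0 hQ0 hgood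
    hg0
  rw [hfin, map_mul, mul_pow, hpis, pow_succ]
  exact mul_le_mul' (pow_le_pow_left' hS' 2) le_rfl

end

end Pool.Agent.NSER


end
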