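import Mathlib
import Pool.Agent.MVF.C061
import Pool.Agent.MVF.C120
import Pool.Agent.MVF.C139
import Pool.Agent.MVF.C152
import Pool.Agent.MVF.C156
import Pool.Agent.MVF.C157
import Pool.Agent.MVF.C160
import Pool.Agent.MVF.C161
import Pool.Agent.MVF.C162
import Pool.Agent.MVF.C163

/-! Parts: ME.R_S3, ME.E4_CTX, NS.E_MUL, NS.EAll, ME.E4All, NS.T_TEI, NS.TAll, ME.T_TYF4, NS.TR_TYF, ME.T_TYFR -/

namespace Pool.Agent.ME4.CtxNaux
end Pool.Agent.ME4.CtxNaux
namespace Pool.Agent.NSTR.TYF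
end Pool.Agent.NSTR.TYF

section

/-!
# ME, block R (helper58): `S3_RFIN` (`D = -3`), without hypotheses
-/

set_option autoImplicit false

namespace Pool.Agent.MER

/-- (RFIN) for `D = -3`, the form of `StE3.lean` -/
theorem s3_rfin : Pool.Agent.ME3.S3_RFIN := fun A B P V h hB hP hV T => rfin3 A B P V h hB hP hV T

end Pool.Agent.MER


end

section

/-!
# MUX-NS, block EN, module CTX: from the standing hypotheses to `CtxN4`
-/

set_option autoImplicit false

namespace Pool.Agent.ME4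

open _root_.MU3 _root_.Pool.Agent.MU3A _root_.Pool.Agent.MU3B _root_.Pool.Agent.MUX _root_.Pool.Agent.MUXU _root_.Pool.Agent.MUXE
open _root_.Pool.Agent.RI _root_.Pool.Agent.NS
open _root_.Pool.Agent.ME hiding ActE
open _root_.Pool.Agent.MEE
open _root_.Pool.Agent.NSE (E3 su ru WL IntP Pts Rep Se_ALG Se_PRO Se_PUL Se_COE Se_GRN Se_LEG Se_TW3 Se_PTS Se_TPN Se_UNT Se_RAT Se_ISO Se_ADD Se_THN Se_BAS Se_NE1)

noncomputable section

namespace CtxNaux

variable {A B : ℤ}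

lemma _root_.Pool.Agent.ME4.CtxNaux.mem_idl (m : ℕ) (x : OO A B) :
    x ∈ idl (A := A) (B := B) m ↔ (m : ℤ) ∣ x.re ∧ (m : ℤ) ∣ x.im := by
  rw [Ideal.mem_span_singleton]
  constructor
  · rintro ⟨t, rfl⟩
    refine ⟨⟨t.re, ?_⟩, ⟨t.im, ?_⟩⟩
    · rw [QuadraticAlgebra.re_mul]; simp
    · rw [QuadraticAlgebra.im_mul]; simp
  · rintro ⟨⟨s, hs⟩, ⟨t, ht⟩⟩
    refine ⟨⟨s, t⟩, ?_⟩
    apply QuadraticAlgebra.ext
    · rw [QuadraticAlgebra.re_mul]; simp [hs]
    · rw [QuadraticAlgebra.im_mul]; simp [ht]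

lemma _root_.Pool.Agent.ME4.CtxNaux.emb_nat (h : CQ A B) (n : ℕ) : emb ((n : ℕ) : OO A B) = (n : ℂ) := by
  rw [← RNGaux.eH_apply h, map_natCast]

lemma sq_mod {a b : ℤ} (h : (3 : ℤ) ∣ a ^ 2 + b ^ 2) : (3 : ℤ) ∣ a ∧ (3 : ℤ) ∣ b := by
  have h1 : a % 3 = 0 ∨ a % 3 = 1 ∨ a % 3 = 2 := by omega
  have h2 : b % 3 = 0 ∨ b % 3 = 1 ∨ b % 3 = 2 := by omega
  have h3 : (a ^ 2 + b ^ 2) % 3 = ((a % 3) ^ 2 + (b % 3) ^ 2) % 3 :=
    ((Int.mod_modEq a 3).symm.pow 2).add ((Int.mod_modEq b 3).symm.pow 2)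
  have h4 : (a ^ 2 + b ^ 2) % 3 = 0 := Int.emod_eq_zero_of_dvd h
  rw [h4] at h3
  rcases h1 with h1 | h1 | h1 <;> rcases h2 with h2 | h2 | h2 <;> rw [h1, h2] at h3 <;>
    first
      | exact ⟨Int.dvd_of_emod_eq_zero h1, Int.dvd_of_emod_eq_zero h2⟩
      | (exfalso; revert h3; decide)

lemma nrm (h : (3 : ℤ) ∣ B ^ 2 + 4 * A + 1) {x : OO A B}
    (hx : x ∉ idl (A := A) (B := B) 3) : ¬ (3 : ℤ) ∣ nm x := by
  intro h1
  apply hx
  have h2 := RNGaux.four_nm x
  have h3 : (3 : ℤ) ∣ (2 * x.re + B * x.im) ^ 2 + x.im ^ 2 := by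
    have h4 : (2 * x.re + B * x.im) ^ 2 + x.im ^ 2 =
        4 * nm x + (B ^ 2 + 4 * A + 1) * x.im ^ 2 := by
      rw [h2]
      unfold absD
      ring
    rw [h4]
    exact dvd_add (h1.mul_left _) (h.mul_right _)
  obtain ⟨h4, h5⟩ := sq_mod h3
  rw [_root_.Pool.Agent.ME4.CtxNaux.mem_idl]
  refine ⟨?_, by exact_mod_cast h5⟩
  have h6 : (3 : ℤ) ∣ 2 * x.re := (dvd_add_left (h5.mul_left B)).1 h4
  have h7 : (3 : ℤ) ∣ x.re := by omega
  exact_mod_cast h7

lemma _root_.Pool.Agent.ME4.CtxNaux.maxi (h : (3 : ℤ) ∣ B ^ 2 + 4 * A + 1) : (idl (A := A) (B := B) 3).IsMaximal := by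
  rw [Ideal.isMaximal_iff]
  refine ⟨?_, ?_⟩
  · intro h1
    rw [_root_.Pool.Agent.ME4.CtxNaux.mem_idl] at h1
    have h2 := h1.1
    rw [QuadraticAlgebra.re_one] at h2
    norm_num at h2
  · intro J x hJ hx hxJ
    have h1 : IsCoprime (nm x) (3 : ℤ) :=
      isCoprime_comm.1 ((Int.prime_three.coprime_iff_not_dvd).2 (nrm h hx))
    obtain ⟨u, v, huv⟩ := h1
    have h2 : ((nm x : ℤ) : OO A B) ∈ J := by
      rw [← RNGaux.mul_star']
      exact J.mul_mem_right _ hxJ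
    have h3 : ((3 : ℕ) : OO A B) ∈ J := hJ (Ideal.mem_span_singleton_self _)
    have h4 := congrArg (Int.cast : ℤ → OO A B) huv
    push_cast at h4
    rw [← h4]
    refine J.add_mem (J.mul_mem_left _ h2) (J.mul_mem_left _ ?_)
    simpa using h3

lemma _root_.Pool.Agent.ME4.CtxNaux.val_le (h : CQ A B) (V : ValuationSubring ℂ) (x : OO A B) : V.valuation (emb x) ≤ 1 := by
  rw [ValuationSubring.valuation_le_one_iff]
  have h1 : IsIntegral V (emb x) := (RNGaux.emb_int h x).tower_top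
  obtain ⟨y, hy⟩ := IsIntegrallyClosed.isIntegral_iff.1 h1
  rw [← hy]
  exact y.2

lemma _root_.Pool.Agent.ME4.CtxNaux.val_unit (h : CQ A B) {V : ValuationSubring ℂ} (hV : OverI V (idl (A := A) (B := B) 3))
    {x : OO A B} (hx : x ∉ idl (A := A) (B := B) 3) : V.valuation (emb x) = 1 := by
  refine le_antisymm (_root_.Pool.Agent.ME4.CtxNaux.val_le h V x) (not_lt.1 fun h1 => hx ((hV x).1 ?_))
  exact (ValuationSubring.mem_nonunits_iff V).2 h1

lemma _root_.Pool.Agent.ME4.CtxNaux.val_emb (h : CQ A B) {V : ValuationSubring ℂ} (hV : OverI V (idl (A := A) (B := B) 3)) :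
    ∀ (n : ℕ) (x : OO A B), x ≠ 0 → (nm x).toNat ≤ n →
      ∃ j : ℕ, V.valuation (emb x) = V.valuation (3 : ℂ) ^ j := by
  intro n
  induction n with
  | zero =>
    intro x hx hn
    have := RNGaux.nm_pos h hx
    omega
  | succ n ih =>
    intro x hx hn
    by_cases h3 : x ∈ idl (A := A) (B := B) 3
    · obtain ⟨y, hy⟩ := Ideal.mem_span_singleton.1 h3
      have hy0 : y ≠ 0 := by
        rintro rfl
        rw [mul_zero] at hy
        exact hx hy
      have hnm : nm x = 9 * nm y := by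
        have h4 : ((3 : ℕ) : OO A B).re = 3 := QuadraticAlgebra.re_natCast 3
        have h5 : ((3 : ℕ) : OO A B).im = 0 := QuadraticAlgebra.im_natCast 3
        rw [hy]
        unfold nm
        rw [QuadraticAlgebra.re_mul, QuadraticAlgebra.im_mul, h4, h5]
        ring
      have hpos := RNGaux.nm_pos h hy0
      obtain ⟨j, hj⟩ := ih y hy0 (by omega)
      refine ⟨j + 1, ?_⟩
      rw [hy, ← RNGaux.eH_apply h, map_mul, RNGaux.eH_apply h, RNGaux.eH_apply h, _root_.Pool.Agent.ME4.CtxNaux.emb_nat h,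
        map_mul, hj, pow_succ, mul_comm]
      norm_num
    · exact ⟨0, by rw [pow_zero, _root_.Pool.Agent.ME4.CtxNaux.val_unit h hV h3]⟩

lemma _root_.Pool.Agent.ME4.CtxNaux.alg_kk (h : CQ A B) (y : ℂ) (hy : y ∈ kk A B) : IsAlgebraic ℤ y := by
  have h1 : Algebra.IsAlgebraic ℚ (kk A B) :=
    IntermediateField.isAlgebraic_adjoin_simple (RNGaux.w_intQ h)
  have h2 : IsAlgebraic ℚ y := by
    have h3 := h1.isAlgebraic ⟨y, hy⟩
    exact h3.algebraMap
  exact (IsFractionRing.isAlgebraic_iff ℤ ℚ ℂ).2 h2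

end CtxNaux

open _root_.Pool.Agent.ME4.CtxNaux in
/-- (CTX) from the standing hypotheses to `CtxN4` -/
theorem t4_CTX : S4_CTX := by
  intro A B V hC hB hV hT hF
  obtain ⟨hF1, hF2⟩ := hF A B V hC hB hV hT
  have hthree : (3 : ℤ) ∣ B ^ 2 + 4 * A + 1 := by
    rw [hC.hA, hB]
    norm_num
  have h := hC.toCQ
  have hv3 : V.valuation (3 : ℂ) < 1 := by
    have h1 := (hV ((3 : ℕ) : OO A B)).2 (Ideal.mem_span_singleton_self _)
    rw [ValuationSubring.mem_nonunits_iff, _root_.Pool.Agent.ME4.CtxNaux.emb_nat h] at h1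
    exact_mod_cast h1
  have hv0 : V.valuation (3 : ℂ) ≠ 0 := by
    rw [Valuation.ne_zero_iff]
    norm_num
  have hR : RingE A B := te_RNG A B h
  refine
    { case := hC
      ring := hR
      cq := h
      v3 := hv3
      int := _root_.Pool.Agent.ME4.CtxNaux.val_le h V
      unit := fun x hx => _root_.Pool.Agent.ME4.CtxNaux.val_unit h hV hx
      nat := ?_
      max := _root_.Pool.Agent.ME4.CtxNaux.maxi hthree
      nrm := fun x hx => nrm hthree hx
      kval := ?_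
      good := ?_
      iner := hF2 }
  · intro n hn
    rw [← _root_.Pool.Agent.ME4.CtxNaux.emb_nat h]
    refine _root_.Pool.Agent.ME4.CtxNaux.val_unit h hV fun h1 => hn ?_
    rw [_root_.Pool.Agent.ME4.CtxNaux.mem_idl] at h1
    have h2 := h1.1
    rw [QuadraticAlgebra.re_natCast] at h2
    exact_mod_cast h2
  · intro y hy hy0
    obtain ⟨n, hn, hint⟩ := (_root_.Pool.Agent.ME4.CtxNaux.alg_kk h y hy).exists_integral_multiple
    have hnk : n • y ∈ kk A B := zsmul_mem hy n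
    obtain ⟨x, hx⟩ := (hR.int _ hnk).1 hint
    have hnC : (n : ℂ) ≠ 0 := by exact_mod_cast hn
    have hxe : (n : ℂ) * y = emb x := by
      rw [← hx, zsmul_eq_mul]
    have hx0 : x ≠ 0 := by
      rintro rfl
      rw [← RNGaux.eH_apply h, map_zero] at hxe
      exact mul_ne_zero hnC hy0 hxe
    have hne : emb ((n : ℤ) : OO A B) = (n : ℂ) := by
      rw [← RNGaux.eH_apply h, map_intCast]
    have hn0 : ((n : ℤ) : OO A B) ≠ 0 := by
      intro h0
      rw [h0, ← RNGaux.eH_apply h, map_zero] at hne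
      exact hnC hne.symm
    obtain ⟨j, hj⟩ := _root_.Pool.Agent.ME4.CtxNaux.val_emb h hV _ x hx0 le_rfl
    obtain ⟨i, hi⟩ := _root_.Pool.Agent.ME4.CtxNaux.val_emb h hV _ ((n : ℤ) : OO A B) hn0 le_rfl
    rw [hne] at hi
    have h2 := congrArg V.valuation hxe
    rw [map_mul, hi, hj] at h2
    refine ⟨(j : ℤ) - i, ?_⟩
    rw [zpow_sub₀ hv0, zpow_natCast, zpow_natCast, ← h2]
    field_simp
  · rintro L ⟨b, om, hL⟩
    obtain ⟨u, e, lam, h1, -⟩ := hF1 b L om hL
    exact ⟨u, e, lam, h1⟩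

end

end Pool.Agent.ME4


end

section

/-!
# MUX-NS, block EN, module MUL (helper83): the isogenies `μ_i x : L_(i0) → L_i` have degree prime to 3
-/

set_option autoImplicit false

namespace Pool.Agent.NSE

open _root_.MU3 _root_.Pool.Agent.MU3A _root_.Pool.Agent.MU3B _root_.Pool.Agent.MUX _root_.Pool.Agent.MUXU _root_.Pool.Agent.MUXE
open _root_.Pool.Agent.RI _root_.Pool.Agent.NS

noncomputable section

theorem te_MUL : Se_MUL := by
  intro A B V hC n ι R _ h3n i x hx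
  have h := hC.cq
  have hnl := R.nl i
  have hnl0 := R.nl R.i0
  have hom : R.om i ≠ 0 := hnl.om_ne
  have hom0 : R.om R.i0 ≠ 0 := hnl0.om_ne
  have hN0 : nI (R.b i) ≠ 0 := nI_ne_zero h hnl.b_ne
  have hNC : ((nI (R.b i) : ℕ) : ℂ) ≠ 0 := by exact_mod_cast hN0
  have hNb : ((nI (R.b i) : ℕ) : OO A B) ∈ R.b i := nI_mem h hnl.b_ne
  have hx0 : x ≠ 0 := by
    rintro rfl
    exact hx (Ideal.zero_mem _)
  have hex : emb x ≠ 0 := _root_.Pool.Agent.MUX.emb_ne_zero h hx0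
  have hmu : muX R i ≠ 0 := by
    unfold muX
    exact div_ne_zero (mul_ne_zero hom hNC) hom0
  have hL0 : ∀ z, z ∈ (R.L R.i0).lattice ↔ ∃ x : OO A B, z = R.om R.i0 * emb x := by
    intro z
    rw [hnl0.mem, R.b0]
    simp
  have h3 : Nat.Prime 3 := Nat.prime_three
  refine ⟨mul_ne_zero hmu hex, ?_, (nm x).natAbs * nI (R.b i), ?_, ?_⟩
  · intro u hu
    obtain ⟨y, rfl⟩ := (hL0 u).1 hu
    rw [hnl.mem]
    refine ⟨(nI (R.b i) : ℕ) * (x * y), (R.b i).mul_mem_right _ hNb, ?_⟩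
    rw [_root_.Pool.Agent.MUX.emb_mul h, _root_.Pool.Agent.MUX.emb_mul h, _root_.Pool.Agent.MUX.emb_natCast h]
    unfold muX
    field_simp
  · intro hd
    rcases h3.dvd_mul.1 hd with h4 | h4
    · apply hC.nrm x hx
      exact Int.natCast_dvd.2 h4
    · have h5 : 3 ∣ Nat.gcd (nI (R.b i)) n := Nat.dvd_gcd h4 h3n
      rw [Nat.Coprime.gcd_eq_one (R.cop i)] at h5
      omega
  · intro z hz
    obtain ⟨y, -, hy⟩ := (hnl.mem _).1 hz
    rw [hL0]
    refine ⟨star x * y, ?_⟩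
    have h1 : (nI (R.b i) : ℂ) * emb x * z = R.om R.i0 * emb y := by
      unfold muX at hy
      field_simp at hy
      linear_combination hy
    have h2 : (((nm x).natAbs : ℕ) : ℂ) = emb x * emb (star x) := by
      have h6 : (((nm x).natAbs : ℕ) : ℤ) = nm x := Int.natAbs_of_nonneg (nm_nonneg h x)
      rw [← _root_.Pool.Agent.MUX.emb_mul h, mul_star, _root_.Pool.Agent.MUX.emb_intCast h, ← Int.cast_natCast, h6]
    rw [_root_.Pool.Agent.MUX.emb_mul h]
    have h7 : (((nm x).natAbs : ℕ) : ℂ) * (nI (R.b i) : ℂ) * z =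
        R.om R.i0 * (emb (star x) * emb y) := by
      rw [h2]
      linear_combination (emb (star x)) * h1
    rw [← h7, Nat.cast_mul]

end

end Pool.Agent.NSE


end

section

/-! # Block EN of the project MUX-NS, assembled

`StEN.lean` states Lemma E at the inert prime `3`; the files `E_*.lean` prove the statements. This
file puts them together: `e_X : Se_X` for every name `X` of block EN, without hypotheses; the last
one, `e_FIN`, derives `Sn_EFIN` from `Sn_RFIN`; `efin` is `Sn_EFIN`. -/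

namespace Pool.Agent.NSE

theorem e_ALG : Se_ALG := te_ALG
theorem e_PRO : Se_PRO := te_PRO e_ALG
theorem e_PUL : Se_PUL := te_PUL e_ALG e_PRO
theorem e_COE : Se_COE := te_COE
theorem e_GRN : Se_GRN := te_GRN e_COE
theorem e_LEG : Se_LEG := te_LEG
theorem e_TW3 : Se_TW3 := te_TW3 e_COE
theorem e_PTS : Se_PTS := te_PTS e_COE e_TW3
theorem e_TPN : Se_TPN := te_TPN e_COE e_GRN e_LEG e_TW3 Pool.Agent.MUXU.u_PFI
theorem e_UNT : Se_UNT := te_UNT e_GRN e_TPN
theorem e_RAT : Se_RAT := te_RAT e_COE e_TPN e_UNT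
theorem e_ISO : Se_ISO := te_ISO e_ALG e_PRO e_PTS e_TW3 e_UNT e_RAT
theorem e_ADD : Se_ADD := te_ADD e_ALG e_COE e_GRN e_TW3 e_PTS
theorem e_THN : Se_THN := te_THN e_ALG e_PRO e_PUL e_GRN e_ISO e_ADD e_PTS
theorem e_CTX : Se_CTX := te_CTX
theorem e_RAM : Se_RAM := te_RAM
theorem e_UNR : Se_UNR := te_UNR e_RAM
theorem e_DEG : Se_DEG := te_DEG
theorem e_BAS : Se_BAS := te_BAS
theorem e_SIG : Se_SIG :=
  te_SIG e_ALG e_PRO e_GRN e_LEG e_PTS e_TPN e_ADD e_UNR e_DEG e_BAS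
theorem e_NE1 : Se_NE1 := te_NE1 e_TPN e_GRN
theorem e_MUL : Se_MUL := te_MUL
theorem e_ONE : Se_ONE := te_ONE e_ALG e_PRO e_LEG e_PTS e_THN e_UNR e_SIG e_NE1 e_MUL
theorem e_MAIN : Se_MAIN := te_MAIN e_ONE e_CTX
theorem e_FIN : Se_FIN := te_FIN e_MAIN

/-- the function `E` of the inert case -/
theorem efin : Pool.Agent.NS.Sn_EFIN := e_FIN Pool.Agent.NSR.rfin

end Pool.Agent.NSE


end

section

/-! # ME, block E for `D = -4`, assembled (helper86): `efin4 : S4_RFIN → S4_EFIN` -/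

namespace Pool.Agent.ME4

open _root_.Pool.Agent.NSE

theorem e4_CTX : S4_CTX := t4_CTX
theorem e4_UNR : S4_UNR := t4_UNR t4_RAM
theorem e4_DEG : S4_DEG := t4_DEG
theorem e4_SIG : S4_SIG := t4_SIG e_ALG e_PRO e_GRN e_LEG e_PTS e_TPN e_ADD e4_UNR e4_DEG e_BAS
theorem e4_MUL : S4_MUL := t4_MUL
theorem e4_ONE : S4_ONE := t4_ONE e_ALG e_PRO e_LEG e_PTS e_THN e4_UNR e4_SIG e_NE1 e4_MUL
theorem e4_MAIN : S4_MAIN := t4_MAIN e4_ONE e4_CTX
theorem efin4 : S4_RFIN → S4_EFIN := t4_FIN e4_MAIN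

end Pool.Agent.ME4


end

section

/-!
# MUX-NS, block TN, module TEI (helper61): existence of the Teichmueller character

The statement is the same as `Sn_TEI` of block IN, proved by helper80 in `Pool/Agent/NS/I_TEI.lean`.
-/

set_option autoImplicit false

namespace Pool.Agent.NST

open _root_.MU3 _root_.Pool.Agent.MU3A _root_.Pool.Agent.MU3B _root_.Pool.Agent.RI _root_.Pool.Agent.MUX _root_.Pool.Agent.MUXU
open OnePoint _root_.Pool.Agent.NS
open _root_.Pool.Agent.MUXV (GR InK)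
open _root_.Pool.Agent.NSE (CtxN E3 su ru Rep)
open _root_.Pool.Agent.MUXY (ActN Dn)

noncomputable section

/-- (TEI) existence of the Teichmueller character -/
theorem nt_TEI : Nt_TEI :=
  fun A B V hC hV => Pool.Agent.NSI.tn_TEI A B V hC hV

end

end Pool.Agent.NST


end

section

/-!
# Block TN put together (helper4): TYPE, inert case
-/

set_option autoImplicit false

namespace Pool.Agent.NST

open _root_.MU3 _root_.Pool.Agent.MU3A _root_.Pool.Agent.MU3B _root_.Pool.Agent.MUX _root_.Pool.Agent.NS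
open _root_.Pool.Agent.NSE _root_.Pool.Agent.MUXU _root_.Pool.Agent.MUXY

theorem x_RTU : Nt_RTU := nt_RTU
theorem x_TEI : Nt_TEI := nt_TEI
theorem x_GLC : Nt_GLC := nt_GLC
theorem x_UNF : Nt_UNF := nt_UNF
theorem x_FGP : Nt_FGP := nt_FGP
theorem x_FGV : Nt_FGV := nt_FGV
theorem x_ALV : Nt_ALV := nt_ALV y_ALP
theorem x_ALT : Nt_ALT := nt_ALT e_LEG e_COE
theorem x_ACI : Nt_ACI := nt_ACI y_MUU y_BRI
theorem x_TCJ : Nt_TCJ := nt_TCJ
theorem x_SGU : Nt_SGU := nt_SGU e_GRN e_TPN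
theorem x_SGM : Nt_SGM := nt_SGM y_MUI y_MUC y_MUU
theorem x_VAL : Nt_VAL := nt_VAL y_RA1
theorem x_VAK : Nt_VAK := nt_VAK x_SGM x_VAL
theorem x_TRC : Nt_TRC := nt_TRC e_PTS e_ISO
theorem x_TAU : Nt_TAU := nt_TAU x_TRC x_TCJ x_ALT e_PTS

/-- TYPE, inert case, without hypotheses -/
theorem x_TYF : Sn_TYF :=
  nt_TYF Pool.Agent.NSR.rfin e_CTX x_RTU x_GLC x_UNF x_FGP x_FGV x_ALV x_ALT x_ACI
    x_SGU x_VAK x_TAU

end Pool.Agent.NST


end

section

/-!
# ME, block T, `D = -4`, `p = 3` (helper4): the result `Sn_TYF_E`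

`σ` in the inertia group at `V` of a large Galois extension `F / k` is trivial on `RFE (m')`, `m'` even and prime to `3` (`rfinE4`), so it acts on the points of level `m = 3^(j+1) m'` of
`L_0` as `d c`, `d = ± 1`, `c ≡ 1` modulo `m'` (`actE`, `cong_pm`). `σ u = d u` (`sgu`), `σ tau = w(c) tau`, `v(tau)^8 = v 3` (`tauE`), `e(d c) σ(P/om) = P/om` (`valE`), so
`e(c) σ(P/(u om)) = P/(u om)` and `tau^i P/(u om)` is fixed by the inertia group.
-/

set_option autoImplicit false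

namespace Pool.Agent.MET

open _root_.MU3 _root_.Pool.Agent.MU3A _root_.Pool.Agent.MU3B _root_.Pool.Agent.RI _root_.Pool.Agent.MUX _root_.Pool.Agent.MUXU
open OnePoint _root_.Pool.Agent.NS _root_.Pool.Agent.ME2
open _root_.Pool.Agent.ME hiding ActE
open _root_.Pool.Agent.ME4 (CtxN4)
open _root_.Pool.Agent.MUXV (GR InK)
open _root_.Pool.Agent.NSE (E3 su ru)
open _root_.Pool.Agent.MUXY (ActN Dn)
open _root_.Pool.Agent.NST (KIn nt_GLC)
open _root_.Pool.Agent.NST.TYF (dn_mono idl_ne_bot)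

noncomputable section

variable {A B : ℤ} {L : PeriodPair} {om : ℂ} {b : Ideal (OO A B)} {V : ValuationSubring ℂ}

/-! ### Algebraic numbers -/

/-- `u²`, `e`, `lam` are in `RFE (2)` -/
theorem ueE (hC : CQ A B) (hL : IsNE b L om) {u e lam : ℂ} (hG : GoodN V L u e lam)
    (h3 : V.valuation (3 : ℂ) < 1) :
    u ^ 2 ∈ RFE (idl (A := A) (B := B) 2) ∧ e ∈ RFE (idl (A := A) (B := B) 2) := by
  obtain ⟨w₁, w₂, hw1', hw1, hw2', hw2, he, hu, -⟩ := NSE.e_LEG V L u e lam hG h3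
  have m1 := wp_mem (n := 2) hC hL hw1 (by push_cast; exact hw1')
  have m2 := wp_mem (n := 2) hC hL hw2 (by push_cast; exact hw2')
  refine ⟨?_, ?_⟩
  · rw [← hu]; exact sub_mem m2 m1
  · rw [← he]; exact m1

/-- the coordinates of torsion points are algebraic -/
theorem coordE (hC : CQ A B) (T : TorXE A B) (hL : IsNE b L om) {u e : ℂ}
    (hua : IsAlgebraic ℚ (u ^ 2)) (hea : IsAlgebraic ℚ e) :
    ∀ N : ℕ, N ≠ 0 → ∀ z, z ∉ L.lattice → (N : ℂ) * z ∈ L.lattice →
      IsAlgebraic ℚ (xu L u e z) ∧ IsAlgebraic ℚ (yu L u z) ∧ IsAlgebraic ℚ (ru L u e z) := by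
  intro N hN z hz hz'
  have hu1 : IsAlgebraic ℚ u := IsAlgebraic.of_pow two_pos hua
  have hP : IsAlgebraic ℚ (L.weierstrassP z) := alg_RFE hC T hN (wp_mem hC hL hz hz')
  have h4 : IsAlgebraic ℚ (4 : ℂ) := by simpa using NST.ALT.alg_num 4
  have h0 : IsAlgebraic ℚ (0 : ℂ) := isAlgebraic_zero
  have hg2 : IsAlgebraic ℚ L.g₂ := by
    rw [hL.nrm.g2]
    unfold g2E
    split_ifs
    · exact h4
    · exact h0
  have hg3 : IsAlgebraic ℚ L.g₃ := by
    rw [hL.nrm.g3]
    unfold g3E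
    split_ifs
    · exact h0
    · exact h4.neg
  have hD : IsAlgebraic ℚ (L.derivWeierstrassP z) := by
    apply IsAlgebraic.of_pow two_pos
    rw [L.derivWeierstrassP_sq z hz]
    exact ((h4.mul (hP.pow 3)).sub (hg2.mul hP)).sub hg3
  have hx : IsAlgebraic ℚ (xu L u e z) := by
    unfold xu
    rw [div_eq_mul_inv]
    exact (hP.sub hea).mul hua.inv
  have hy : IsAlgebraic ℚ (yu L u z) := by
    unfold yu
    rw [div_eq_mul_inv]
    have h2 : IsAlgebraic ℚ (2 : ℂ) := by simpa using NST.ALT.alg_num 2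
    exact hD.mul (h2.mul (hu1.pow 3)).inv
  refine ⟨hx, hy, ?_⟩
  unfold ru
  rw [div_eq_mul_inv]
  exact hy.neg.mul (hx.pow 2).inv

/-! ### The action of an automorphism -/

/-- conjugation of the coordinates -/
theorem tcj {m : ℕ} {a : Ideal (OO A B)} {σ : ℂ ≃+* ℂ} {c : OO A B} {d : ℤ}
    (hd : d = 1 ∨ d = -1) (hA : ActN σ m a L L (d * emb c)) {u e : ℂ}
    (hu : σ u = d * u) (he : σ e = e) {z : ℂ} (hmz : (m : ℂ) * z ∈ L.lattice)
    (hz : z ∉ L.lattice) :
    emb c * z ∉ L.lattice ∧ σ (xu L u e z) = xu L u e (emb c * z) ∧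
      σ (yu L u z) = yu L u (emb c * z) ∧ σ (ru L u e z) = ru L u e (emb c * z) := by
  obtain ⟨h1, h2, h3⟩ := hA.act z hmz hz
  have key : emb c * z ∉ L.lattice ∧ L.weierstrassP (emb c * z) = σ (L.weierstrassP z) ∧
      L.derivWeierstrassP (emb c * z) = d * σ (L.derivWeierstrassP z) := by
    rcases hd with hd | hd
    · rw [hd] at h1 h2 h3 ⊢
      rw [Int.cast_one, one_mul] at h1 h2 h3
      refine ⟨h1, h2, ?_⟩
      rw [h3, Int.cast_one, one_mul]
    · rw [hd] at h1 h2 h3 ⊢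
      have e1 : (((-1 : ℤ) : ℂ) * emb c) * z = -(emb c * z) := by push_cast; ring
      rw [e1] at h1 h2 h3
      rw [L.weierstrassP_neg] at h2
      rw [L.derivWeierstrassP_neg] at h3
      refine ⟨fun h => h1 (neg_mem h), h2, ?_⟩
      rw [← h3]
      push_cast
      ring
  obtain ⟨k1, k2, k3⟩ := key
  have hdd : ((d : ℤ) : ℂ) ^ 2 = 1 := by
    rcases hd with hd | hd <;> rw [hd] <;> norm_num
  have hd0 : ((d : ℤ) : ℂ) ≠ 0 := by
    intro h
    rw [h] at hdd
    norm_num at hdd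
  have hx : σ (xu L u e z) = xu L u e (emb c * z) := by
    unfold xu
    rw [k2, map_div₀, map_sub, map_pow, hu, he, mul_pow, hdd, one_mul]
  have hy : σ (yu L u z) = yu L u (emb c * z) := by
    unfold yu
    rw [k3, map_div₀, map_mul, map_pow, hu, map_ofNat]
    have e2 : 2 * ((d : ℂ) * u) ^ 3 = (d : ℂ) ^ 2 * (d * (2 * u ^ 3)) := by ring
    have e3 : (d : ℂ) * σ (L.derivWeierstrassP z) / (2 * u ^ 3) =
        (d : ℂ) ^ 2 * σ (L.derivWeierstrassP z) / (d * (2 * u ^ 3)) := by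
      field_simp
    rw [e2, e3, hdd, one_mul, one_mul]
  refine ⟨k1, hx, hy, ?_⟩
  unfold ru
  rw [map_div₀, map_neg, map_pow, hx, hy]

/-- the sign `d` -/
theorem sgu (hC : CQ A B) (h3 : V.valuation (3 : ℂ) < 1)
    (hL : IsLI (⊤ : Ideal (OO A B)) L om) {u e lam : ℂ} (hGd : GoodN V L u e lam) {m m' : ℕ}
    (hm3' : 3 ≤ m') (hm3 : ¬ 3 ∣ m') (hmm : m' ∣ m) {a : Ideal (OO A B)} {σ : ℂ ≃+* ℂ}
    {c : OO A B} {d : ℤ} (hcm : c - 1 ∈ idl (A := A) (B := B) m') (hd : d = 1 ∨ d = -1)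
    (hAct : ActN σ m a L L (d * emb c)) (hσu : σ (u ^ 2) = u ^ 2)
    (hlast : V.valuation (yu L u (om / m')) ≤ 1 →
      V.valuation (σ (yu L u (om / m')) - yu L u (om / m')) < 1) : σ u = d * u := by
  have hmem : ∀ z : ℂ, z ∈ L.lattice ↔ ∃ x : OO A B, z = om * emb x := by
    intro z
    rw [hL.mem]
    exact ⟨fun ⟨x, _, hx⟩ => ⟨x, hx⟩, fun ⟨x, hx⟩ => ⟨x, trivial, hx⟩⟩
  have hm0 : m' ≠ 0 := by omega
  have hom0 : om ≠ 0 := hL.om_ne
  have hmC : (m' : ℂ) ≠ 0 := Nat.cast_ne_zero.2 hm0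
  obtain ⟨ξ, G⟩ := NSE.e_GRN V L u e lam hGd h3
  obtain ⟨hT1, -⟩ := NSE.e_TPN V L u e lam hGd h3
  obtain ⟨-, hT2⟩ := hT1 m' hm3
  set z : ℂ := om / m' with hz
  have hmz : (m' : ℂ) * z = om := by rw [hz]; field_simp
  have homL : om ∈ L.lattice := (hmem om).2 ⟨1, by rw [Pool.Agent.MUX.emb_one hC, mul_one]⟩
  have hzz : z + z ∉ L.lattice := by
    intro h
    obtain ⟨x, hx⟩ := (hmem _).1 h
    have h1 : (m' : ℂ) * emb x = 2 := by
      have h2 : om * ((m' : ℂ) * emb x) = om * 2 := by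
        linear_combination (-(m' : ℂ)) * hx + 2 * hmz
      exact mul_left_cancel₀ hom0 h2
    have h2 : ((m' : ℕ) : OO A B) * x = ((2 : ℕ) : OO A B) := by
      apply Pool.Agent.MUX.emb_inj hC
      rw [Pool.Agent.MUX.emb_mul hC, Pool.Agent.MUX.emb_natCast hC,
        Pool.Agent.MUX.emb_natCast hC, h1]
      norm_num
    have h4 := congrArg nm h2
    rw [Pool.Agent.MUX.nm_mul hC] at h4
    have h5 := Pool.Agent.MUX.nm_intCast (A := A) (B := B) (m' : ℤ)
    have h6 := Pool.Agent.MUX.nm_intCast (A := A) (B := B) (2 : ℤ)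
    rw [Int.cast_natCast] at h5
    have h7 : ((2 : ℤ) : OO A B) = ((2 : ℕ) : OO A B) := by push_cast; rfl
    rw [h7] at h6
    rw [h5, h6] at h4
    have h8 : ((m' : ℤ) ^ 2) ∣ 2 ^ 2 := ⟨_, h4.symm⟩
    have h9 := Int.le_of_dvd (by norm_num) h8
    have h10 : (3 : ℤ) ≤ m' := by exact_mod_cast hm3'
    nlinarith
  have hzL : z ∉ L.lattice := fun h => hzz (add_mem h h)
  have hzK : ¬ InK V L (xu L u e) z := fun h => hzL (hT2 z (by rw [hmz]; exact homL) h)
  have hzzK : ¬ InK V L (xu L u e) (z + z) := fun h => hzz (hT2 (z + z) (by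
    rw [mul_add, hmz]
    exact add_mem homL homL) h)
  -- `v (yu z) = 1`
  have hy1 : V.valuation (yu L u z) = 1 := by
    obtain ⟨hns, hxi⟩ := G.some z hzL
    have e1 := (Pool.Agent.MUXV.inE_iff G z).not.2 hzK
    have e2 := (Pool.Agent.MUXV.inE_iff G (z + z)).not.2 hzzK
    rw [map_add, hxi] at e2
    rw [hxi] at e1
    exact Pool.Agent.MU3.Val.v_y_unit G.int G.two G.disc hns e1 e2
  -- the action
  have hmzL : (m : ℂ) * z ∈ L.lattice := by
    obtain ⟨k, rfl⟩ := hmm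
    have h1 : ((m' * k : ℕ) : ℂ) * z = (k : ℕ) * om := by
      rw [← hmz]; push_cast; ring
    rw [h1, ← nsmul_eq_mul]
    exact nsmul_mem homL _
  obtain ⟨-, -, hP'⟩ := hAct.act z hmzL hzL
  have hcz : emb c * z - z ∈ L.lattice := by
    obtain ⟨y, hy⟩ := Ideal.mem_span_singleton'.1 hcm
    refine (hmem _).2 ⟨y, ?_⟩
    have h1 : emb c - 1 = emb y * m' := by
      have h2 := congrArg emb hy
      rw [Pool.Agent.MUX.emb_mul hC, Pool.Agent.MUX.emb_natCast hC, Pool.Agent.MUX.emb_sub hC,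
        Pool.Agent.MUX.emb_one hC] at h2
      exact h2.symm
    have h2 : emb c * z - z = (emb c - 1) * z := by ring
    rw [h2, h1, mul_assoc, hmz, mul_comm]
  have hder : σ (L.derivWeierstrassP z) = d * L.derivWeierstrassP z := by
    rw [← hP']
    rcases hd with hd | hd
    · rw [hd]
      push_cast
      rw [one_mul, one_mul]
      exact NST.SGU.der_congr L hcz
    · rw [hd]
      push_cast
      have h1 : -1 * emb c * z = -(emb c * z) := by ring
      rw [h1, L.derivWeierstrassP_neg, NST.SGU.der_congr L hcz]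
      ring
  have hu0 := hGd.u0
  have hd2 : (d : ℂ) * d = 1 := by
    rcases hd with hd | hd <;> rw [hd] <;> norm_num
  have hs : σ u = d * u ∨ σ u = -(d * u) := by
    have h1 : (σ u) ^ 2 = (d * u) ^ 2 := by
      rw [← map_pow, hσu]
      linear_combination (-(u ^ 2)) * hd2
    exact sq_eq_sq_iff_eq_or_eq_neg.1 h1
  rcases hs with hs | hs
  · exact hs
  · exfalso
    have hσy : σ (yu L u z) = -yu L u z := by
      unfold yu
      rw [map_div₀, map_mul, map_pow, hs, hder, map_ofNat]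
      have hd0 : (d : ℂ) ≠ 0 := fun h0 => by
        rw [h0, zero_mul] at hd2
        exact zero_ne_one hd2
      rw [div_eq_iff (by
        refine mul_ne_zero two_ne_zero (pow_ne_zero _ ?_)
        exact neg_ne_zero.2 (mul_ne_zero hd0 hu0))]
      have h5 : (d : ℂ) ^ 3 = d := by linear_combination (d : ℂ) * hd2
      have h6 : (2 : ℂ) * (-(d * u)) ^ 3 = -(d * (2 * u ^ 3)) := by
        linear_combination (-2 * u ^ 3) * h5
      rw [h6]
      field_simp
    have h1 := hlast hy1.le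
    rw [hσy] at h1
    have h2 : -yu L u z - yu L u z = -(2 * yu L u z) := by ring
    rw [h2, Valuation.map_neg, map_mul, hy1, G.two, one_mul] at h1
    exact lt_irrefl _ h1

/-! ### The number `tau` -/

open _root_.Pool.Agent.NST.TRC in
theorem trc (hC : CtxN4 A B V) (hL : IsLI b L om) {u e lam : ℂ} (hG : GoodN V L u e lam) :
    (∀ Y ∈ E3 L, V.valuation (ru L u e Y) ^ 8 = V.valuation (3 : ℂ)) ∧
    ∀ x : OO A B, x ∉ idl (A := A) (B := B) 3 → ∀ Y ∈ E3 L,
      emb x * Y ∈ E3 L ∧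
      V.valuation (ru L u e (emb x * Y) - emb x * ru L u e Y) < V.valuation (ru L u e Y) := by
  have hcq := hC.cq
  obtain ⟨hpts, -⟩ := NSE.e_PTS V L u e lam hG hC.v3
  refine ⟨fun Y hY => ?_, fun x hx => ?_⟩
  · have h1 := (pts_val hpts hY).2.2
    calc V.valuation (ru L u e Y) ^ 8 = (V.valuation (ru L u e Y) ^ 2) ^ 4 := by rw [← pow_mul]
      _ = V.valuation (3 : ℂ) := by rw [h1, hpts.vs Y hY]
  · have hx0 : x ≠ 0 := by
      rintro rfl
      exact hx (Ideal.zero_mem _)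
    have hcm := IsLI.hasCM hcq hL
    have hN : ¬ 3 ∣ (nm x).natAbs := by
      intro h3
      exact hC.nrm x hx (Int.natCast_dvd.2 h3)
    have hmem : ∀ z, emb x * z ∈ L.lattice → (((nm x).natAbs : ℕ) : ℂ) * z ∈ L.lattice := by
      intro z hz
      have h1 := hcm (star x) _ hz
      have h2 : emb (star x) * (emb x * z) = ((nm x : ℤ) : ℂ) * z := by
        rw [emb_star, emb_nm hcq]
        ring
      have h3 : (((nm x).natAbs : ℕ) : ℂ) = ((nm x : ℤ) : ℂ) := by
        have h4 : (((nm x).natAbs : ℕ) : ℤ) = nm x := Int.natAbs_of_nonneg (nm_nonneg hcq x)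
        calc (((nm x).natAbs : ℕ) : ℂ) = ((((nm x).natAbs : ℕ) : ℤ) : ℂ) := (Int.cast_natCast _).symm
          _ = ((nm x : ℤ) : ℂ) := by rw [h4]
      rw [h2] at h1
      rw [h3]
      exact h1
    obtain ⟨hE, -, P, Q, hPi, hQi, hF, hP0, hQ0⟩ := NSE.e_ISO V L L u e lam u e lam (emb x) _ hG hG
      hC.v3 (_root_.Pool.Agent.MUX.emb_ne_zero hcq hx0) (fun w hw => hcm x w hw) hN hmem
    have hu : emb x * u / u = emb x := mul_div_cancel_right₀ _ hG.u0
    rw [hu] at hQ0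
    rw [sub_zero] at hP0
    intro Y hY
    refine ⟨hE Y hY, ?_⟩
    obtain ⟨hs, h3, hr⟩ := pts_val hpts hY
    have hr1 : V.valuation (ru L u e Y) < 1 := by
      by_contra hc
      have h5 : 1 ≤ V.valuation (ru L u e Y) ^ 2 := one_le_pow_of_one_le' (not_lt.1 hc) 2
      rw [hr] at h5
      exact absurd hs (not_lt.2 h5)
    have hr0 : V.valuation (ru L u e Y) ≠ 0 := by
      intro h0
      rw [h0, zero_pow two_ne_zero] at hr
      rw [← hr] at h3
      have h6 : V.valuation (3 : ℂ) = 0 := le_antisymm h3 zero_le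
      exact (by norm_num : (3 : ℂ) ≠ 0) ((map_eq_zero V.valuation).1 h6)
    have hpos : 0 < V.valuation (ru L u e Y) := zero_lt_iff.2 hr0
    have hFY : ru L u e (emb x * Y) = P.eval (su L u e Y) + ru L u e Y * Q.eval (su L u e Y) :=
      hF Y hY
    rw [hFY]
    have he : P.eval (su L u e Y) + ru L u e Y * Q.eval (su L u e Y) - emb x * ru L u e Y =
        P.eval (su L u e Y) + ru L u e Y * (Q.eval (su L u e Y) - emb x) := by ring
    rw [he]
    refine Valuation.map_add_lt _ ?_ ?_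
    · have h5 : V.valuation (P.eval (su L u e Y)) ≤ V.valuation (su L u e Y) := by
        have h6 : P.eval (su L u e Y) = (P.eval (su L u e Y) - P.coeff 0) + P.coeff 0 := by ring
        rw [h6]
        exact Valuation.map_add_le _ (eval_sub_le hPi hs.le) (hP0.trans h3)
      refine lt_of_le_of_lt h5 ?_
      rw [← hr, pow_two]
      exact mul_lt_of_lt_one_right hpos hr1
    · have h5 : V.valuation (Q.eval (su L u e Y) - emb x) ≤ V.valuation (su L u e Y) := by
        have h6 : Q.eval (su L u e Y) - emb x =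
          (Q.eval (su L u e Y) - Q.coeff 0) + (Q.coeff 0 - emb x) := by ring
        rw [h6]
        exact Valuation.map_add_le _ (eval_sub_le hQi hs.le) (hQ0.trans h3)
      rw [map_mul]
      exact mul_lt_of_lt_one_right hpos (lt_of_le_of_lt h5 hs)

open _root_.Pool.Agent.NST.TAU in
theorem tauE (hctx : CtxN4 A B V) (hTor : TorXE A B) (hNL : IsNE (⊤ : Ideal (OO A B)) L om)
    {u e lam : ℂ} (hg : GoodN V L u e lam) {w : OO A B → ℂ} (hw : IsTei V w) :
    ∃ tau : ℂ, V.valuation tau ^ 8 = V.valuation (3 : ℂ) ∧ IsAlgebraic ℚ tau ∧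
      ∀ (m : ℕ), 3 ∣ m → ∀ (a : Ideal (OO A B)) (σ : ℂ ≃+* ℂ) (c : OO A B) (d : ℤ),
        (d = 1 ∨ d = -1) → ActN σ m a L L (d * emb c) →
        c ∉ idl (A := A) (B := B) 3 → σ u = d * u → σ e = e → (∀ x, σ (w x) = w x) →
        σ tau = w c * tau := by
  classical
  have hcq := hctx.cq
  have hli : IsLI (⊤ : Ideal (OO A B)) L om := hNL.toIsLI
  have hmem : ∀ z : ℂ, z ∈ L.lattice ↔ ∃ x : OO A B, z = om * emb x := by
    intro z
    rw [hli.mem z]
    simp
  have hom0 : om ≠ 0 := hli.om_ne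
  -- facts on the points of order three
  obtain ⟨hr8, hrx⟩ := trc hctx hli hg
  obtain ⟨-, hper⟩ := NSE.e_PTS V L u e lam hg hctx.v3
  have hone : (1 : OO A B) ∉ idl (A := A) (B := B) 3 := fun h =>
    hctx.max.ne_top ((Ideal.eq_top_iff_one _).2 h)
  have hY0 : om / 3 ∈ E3 L := by
    refine ⟨?_, ?_⟩
    · rw [hmem]
      exact ⟨1, by rw [_root_.Pool.Agent.MUX.emb_one hcq]; field_simp⟩
    · intro hc
      obtain ⟨x, hx⟩ := (hmem _).1 hc
      apply hone
      rw [cast3]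
      refine ⟨x, ?_⟩
      apply _root_.Pool.Agent.MUX.emb_inj hcq
      have e3 : emb (3 : OO A B) = 3 := by
        have := _root_.Pool.Agent.MUX.emb_natCast hcq 3
        simpa using this
      rw [_root_.Pool.Agent.MUX.emb_one hcq, _root_.Pool.Agent.MUX.emb_mul hcq, e3]
      have h5 : om * (3 * emb x) = om * 1 := by
        linear_combination (-3) * hx
      exact (mul_left_cancel₀ hom0 h5).symm
  set Y := om / 3 with hY
  set ρ := ru L u e Y with hρ
  have hv3 : V.valuation (3 : ℂ) ≠ 0 := by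
    rw [Ne, map_eq_zero]
    norm_num
  have hρ8 : V.valuation ρ ^ 8 = V.valuation (3 : ℂ) := hr8 Y hY0
  have hρ0 : V.valuation ρ ≠ 0 := by
    intro h0
    rw [h0, zero_pow (by norm_num)] at hρ8
    exact hv3 hρ8.symm
  have hρpos : 0 < V.valuation ρ := zero_lt_iff.2 hρ0
  have hw0 : ∀ x, x ∉ idl (A := A) (B := B) 3 → w x ≠ 0 := by
    intro x hx h0
    have h5 := hw.pow x hx
    rw [h0, zero_pow (by norm_num)] at h5
    exact zero_ne_one h5
  have hwv : ∀ x, x ∉ idl (A := A) (B := B) 3 → V.valuation (w x) = 1 := by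
    intro x hx
    have h5 := congrArg V.valuation (hw.pow x hx)
    rw [map_pow, map_one] at h5
    exact (pow_eq_one_iff.1 h5).resolve_right (by norm_num)
  -- the terms are periodic
  have hTper : ∀ x y : OO A B, x - y ∈ idl (A := A) (B := B) 3 →
      NST.TAU.T w L u e Y x = NST.TAU.T w L u e Y y := by
    intro x y hxy
    have hwxy := hw.per x y hxy
    by_cases hx : x ∈ idl (A := A) (B := B) 3
    · unfold NST.TAU.T
      rw [← hwxy, hw.zero x hx]
      simp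
    · unfold NST.TAU.T
      rw [hwxy]
      congr 1
      have hy : y ∉ idl (A := A) (B := B) 3 := by
        intro hy
        apply hx
        have := Ideal.add_mem _ hxy hy
        rwa [sub_add_cancel] at this
      obtain ⟨t, ht⟩ := (cast3 _).1 hxy
      have e3 : emb (3 : OO A B) = 3 := by
        have := _root_.Pool.Agent.MUX.emb_natCast hcq 3
        simpa using this
      have h5 : emb x * Y = emb y * Y + om * emb t := by
        have h6 : emb x - emb y = 3 * emb t := by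
          rw [← _root_.Pool.Agent.MUX.emb_sub hcq, ht, _root_.Pool.Agent.MUX.emb_mul hcq, e3]
        rw [hY]
        linear_combination (om / 3) * h6
      rw [h5]
      exact (hper _ (hrx y hy Y hY0).1 _ ((hmem _).2 ⟨t, rfl⟩)).2.2
  -- the quotient
  have hne : idl (A := A) (B := B) 3 ≠ ⊥ := by
    intro h0
    rw [Ideal.span_singleton_eq_bot] at h0
    exact natCast_ne_zero' hcq (by norm_num) h0
  have hfin : Finite (OO A B ⧸ idl (A := A) (B := B) 3) := finite_quot hcq hne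
  have hfq : Fintype (OO A B ⧸ idl (A := A) (B := B) 3) := Fintype.ofFinite _
  have hcard : Fintype.card (OO A B ⧸ idl (A := A) (B := B) 3) = 9 := by
    rw [← Nat.card_eq_fintype_card]
    exact card9 hcq
  have hout : ∀ q : OO A B ⧸ idl (A := A) (B := B) 3,
      Ideal.Quotient.mk (idl (A := A) (B := B) 3) (Quotient.out q) = q := fun q =>
    Ideal.Quotient.mk_out q
  have hq0 : ∀ q : OO A B ⧸ idl (A := A) (B := B) 3, q ≠ 0 →
      (Quotient.out q : OO A B) ∉ idl (A := A) (B := B) 3 := by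
    intro q hq h0
    apply hq
    rw [← hout q]
    exact Ideal.Quotient.eq_zero_iff_mem.2 h0
  have hT0 : NST.TAU.T w L u e Y (Quotient.out (0 : OO A B ⧸ idl (A := A) (B := B) 3)) = 0 := by
    have h0 : (Quotient.out (0 : OO A B ⧸ idl (A := A) (B := B) 3) : OO A B) ∈
        idl (A := A) (B := B) 3 := by
      rw [← Ideal.Quotient.eq_zero_iff_mem, hout]
    unfold NST.TAU.T
    rw [hw.zero _ h0]
    simp
  refine ⟨∑ q : OO A B ⧸ idl (A := A) (B := B) 3, NST.TAU.T w L u e Y (Quotient.out q), ?_, ?_, ?_⟩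
  · -- the valuation
    have h8 : V.valuation ((8 : ℕ) : ℂ) = 1 := hctx.nat 8 (by norm_num)
    have hsum : ∑ q : OO A B ⧸ idl (A := A) (B := B) 3, NST.TAU.T w L u e Y (Quotient.out q) =
        ((8 : ℕ) : ℂ) * ρ + ∑ q ∈ Finset.univ.erase (0 : OO A B ⧸ idl (A := A) (B := B) 3),
          (NST.TAU.T w L u e Y (Quotient.out q) - ρ) := by
      rw [Finset.sum_sub_distrib, Finset.sum_const, Finset.card_erase_of_mem (Finset.mem_univ _),
        Finset.card_univ, hcard, ← Finset.add_sum_erase _ _ (Finset.mem_univ 0), hT0, nsmul_eq_mul]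
      push_cast
      ring
    have hlt : V.valuation (∑ q ∈ Finset.univ.erase (0 : OO A B ⧸ idl (A := A) (B := B) 3),
        (NST.TAU.T w L u e Y (Quotient.out q) - ρ)) < V.valuation ρ := by
      apply Valuation.map_sum_lt _ hρ0
      intro q hq
      have hq' : (Quotient.out q : OO A B) ∉ idl (A := A) (B := B) 3 :=
        hq0 q (Finset.ne_of_mem_erase hq)
      generalize (Quotient.out q : OO A B) = x at hq'
      have h5 : NST.TAU.T w L u e Y x - ρ = (w x)⁻¹ * (ru L u e (emb x * Y) - emb x * ρ) +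
          (w x)⁻¹ * (-(w x - emb x)) * ρ := by
        unfold NST.TAU.T
        have := hw0 x hq'
        field_simp
        ring
      rw [h5]
      apply Valuation.map_add_lt
      · rw [map_mul, map_inv₀, hwv x hq', inv_one, one_mul]
        exact (hrx x hq' Y hY0).2
      · rw [map_mul, map_mul, map_inv₀, hwv x hq', inv_one, one_mul, Valuation.map_neg]
        calc V.valuation (w x - emb x) * V.valuation ρ
            ≤ V.valuation (3 : ℂ) * V.valuation ρ := by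
              gcongr
              exact hw.cong x
          _ < 1 * V.valuation ρ := by
              exact mul_lt_mul_of_pos_right hctx.v3 hρpos
          _ = V.valuation ρ := one_mul _
    have h9 : V.valuation (((8 : ℕ) : ℂ) * ρ) = V.valuation ρ := by
      rw [map_mul, h8, one_mul]
    rw [hsum, Valuation.map_add_eq_of_lt_left _ (by rw [h9]; exact hlt), h9, hρ8]
  · -- algebraic
    obtain ⟨hua, hea⟩ := ueE hcq hNL hg hctx.v3
    have halg := coordE hcq hTor hNL (u := u) (e := e) (alg_RFE hcq hTor two_ne_zero hua)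
      (alg_RFE hcq hTor two_ne_zero hea)
    rw [isAlgebraic_iff_isIntegral]
    apply IsIntegral.sum
    intro q _
    rw [← isAlgebraic_iff_isIntegral]
    by_cases hq : q = 0
    · rw [hq, hT0]
      exact isAlgebraic_zero
    · have hx := hq0 q hq
      generalize (Quotient.out q : OO A B) = x at hx
      unfold NST.TAU.T
      have hE := (hrx x hx Y hY0).1
      apply IsAlgebraic.mul
      · apply IsAlgebraic.inv
        rw [isAlgebraic_iff_isIntegral]
        apply IsIntegral.of_pow (n := 8) (by norm_num)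
        rw [hw.pow x hx]
        exact isIntegral_one
      · exact (halg 3 (by norm_num) _ hE.2 (by
          push_cast
          exact hE.1)).2.2
  · -- conjugation
    intro m hm a σ c d hd hact hc hσu hσe hσw
    obtain ⟨k, rfl⟩ := hm
    have hc0 := hw0 c hc
    have hterm : ∀ x : OO A B, σ (NST.TAU.T w L u e Y x) = w c * NST.TAU.T w L u e Y (c * x) := by
      intro x
      by_cases hx : x ∈ idl (A := A) (B := B) 3
      · unfold NST.TAU.T
        rw [hw.zero x hx, hw.zero (c * x) (Ideal.mul_mem_left _ c hx)]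
        simp
      · have hE := (hrx x hx Y hY0).1
        have h5 := (tcj hd hact hσu hσe (z := emb x * Y) (by
          have h6 : ((3 * k : ℕ) : ℂ) * (emb x * Y) = (k : ℕ) • (3 * (emb x * Y)) := by
            rw [nsmul_eq_mul]
            push_cast
            ring
          rw [h6]
          exact nsmul_mem hE.1 k) hE.2).2.2.2
        unfold NST.TAU.T
        rw [map_mul, map_inv₀, hσw, h5, hw.mul, _root_.Pool.Agent.MUX.emb_mul hcq]
        have := hw0 x hx
        have e6 : emb c * (emb x * Y) = emb c * emb x * Y := by ring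
        rw [e6]
        field_simp
    rw [map_sum]
    simp_rw [hterm]
    rw [← Finset.mul_sum]
    congr 1
    have hprime : (idl (A := A) (B := B) 3).IsPrime := hctx.max.isPrime
    have hdom : IsDomain (OO A B ⧸ idl (A := A) (B := B) 3) := Ideal.Quotient.isDomain _
    set cb := Ideal.Quotient.mk (idl (A := A) (B := B) 3) c with hcb
    have hcb0 : cb ≠ 0 := fun h => hc (Ideal.Quotient.eq_zero_iff_mem.1 h)
    have hbij : Function.Bijective (fun q : OO A B ⧸ idl (A := A) (B := B) 3 => cb * q) := by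
      rw [← Finite.injective_iff_bijective]
      intro a b hab
      exact mul_left_cancel₀ hcb0 hab
    rw [← Function.Bijective.sum_comp hbij (fun q => NST.TAU.T w L u e Y (Quotient.out q))]
    apply Finset.sum_congr rfl
    intro q _
    apply hTper
    rw [← Ideal.Quotient.eq, map_mul, hout, hout]

/-! ### The result -/

theorem tyf4 : Sn_TYF_E := by
  intro A B V f hS hT ι _ R u el lam hG w hw e he r hr her i hi ka hka
  have hE := hS.case
  have hQ : CQ A B := hE.toCQ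
  have hR4 : Pool.Agent.ME4.S4_RFIN := fun A B V hc hB hV hT => by
    obtain ⟨h1, h2⟩ := Pool.Agent.MER.rfinE4 A B V ⟨hc, hB⟩ hV hT
    exact ⟨h1, fun f hf h2f h3f σ hσ hin => h2 f hf h3f h2f σ hσ hin⟩
  have hC : CtxN4 A B V := Pool.Agent.ME4.e4_CTX A B V hE hS.hB hS.hV hT hR4
  have hu0 : u ≠ 0 := hG.u0
  have hr0 : r ≠ 0 := by
    rintro rfl
    exact hr (dvd_zero 3)
  have hD := NST.TYF.absD_ge hQ
  have hf2 : 2 ∣ f := hS.f2
  have hf3 : 3 ≤ f := by
    have h1 := Int.le_of_dvd (by exact_mod_cast Nat.pos_of_ne_zero hS.f0) hS.fD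
    omega
  have h3f : 3 * f ≠ 0 := mul_ne_zero (by norm_num) hS.f0
  have hL := R.nl R.i0
  have hL0 : IsNE (⊤ : Ideal (OO A B)) (R.L R.i0) (R.om R.i0) := by
    have h1 := hL
    rw [R.b0] at h1
    exact h1
  have hom0 : R.om R.i0 ≠ 0 := hL.om_ne
  have hgt : idl (A := A) (B := B) (3 * f) ≠ ⊤ := NST.VAL.idl_ne_top (by omega)
  have hgb : idl (A := A) (B := B) (3 * f) ≠ ⊥ := idl_ne_bot hQ h3f
  have hcopb : IsCoprime (sp ((nI (R.b R.i0) : ℕ) : OO A B))
      (idl (A := A) (B := B) (3 * f)) := NST.VAL.coprime_idl (R.cop R.i0)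
  obtain ⟨hu2, hel⟩ := ueE hQ hL hG hC.v3
  have hua2 := alg_RFE hQ hT two_ne_zero hu2
  have hua : IsAlgebraic ℚ u := IsAlgebraic.of_pow two_pos hua2
  have hea := alg_RFE hQ hT two_ne_zero hel
  -- the values
  obtain ⟨Q, hQdef⟩ : ∃ Q : OnePoint ℚ × OnePoint ℚ → ℂ,
    Q = fun q => PhiI (R.b R.i0) e q.1 q.2 / (u * R.om R.i0) := ⟨_, rfl⟩
  obtain ⟨S, N00, hN00, hSD0, hgen⟩ := fgE hQ hL.b_ne hgb he.toIsEI (u * R.om R.i0)
  have hgen' : ∀ x y, Q (x, y) ∈ AddSubgroup.closure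
      (Q '' (S : Set (OnePoint ℚ × OnePoint ℚ))) := by
    rw [hQdef]
    exact hgen
  obtain ⟨j, N, hN3, hjN⟩ := Nat.exists_eq_pow_mul_and_not_dvd hN00 3 (by norm_num)
  rw [hjN] at hSD0
  have hN0 : N ≠ 0 := by
    rintro rfl
    exact hN3 (dvd_zero 3)
  obtain ⟨tau, htau8, htaua, htau⟩ := tauE hC hT hL0 hG hw
  obtain ⟨m', hm'⟩ : ∃ m', m' = f * N := ⟨_, rfl⟩
  have hm'0 : m' ≠ 0 := by rw [hm']; exact mul_ne_zero hS.f0 hN0
  have hm'3 : ¬ 3 ∣ m' := by
    intro h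
    rw [hm'] at h
    rcases (Nat.Prime.dvd_mul Nat.prime_three).1 h with h | h
    · exact hS.fp h
    · exact hN3 h
  have hm'C : (m' : ℂ) ≠ 0 := by exact_mod_cast hm'0
  have hfm : f ∣ m' := by rw [hm']; exact Dvd.intro _ rfl
  have h3m' : 3 ≤ m' := hf3.trans (Nat.le_of_dvd (Nat.pos_of_ne_zero hm'0) hfm)
  obtain ⟨m, hm⟩ : ∃ m, m = 3 ^ (j + 1) * m' := ⟨_, rfl⟩
  have hm0 : m ≠ 0 := by rw [hm]; exact mul_ne_zero (by positivity) hm'0
  have h3m : 3 ∣ m := by
    rw [hm]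
    exact (dvd_pow_self 3 (Nat.succ_ne_zero j)).mul_right _
  have hmm : m' ∣ m := by rw [hm]; exact dvd_mul_left _ _
  have hpm : 3 * f ∣ m := by
    rw [hm, pow_succ, mul_assoc]
    exact (mul_dvd_mul_left 3 hfm).mul_left _
  have hdvd : 3 ^ j * N ∣ m := by
    rw [hm, hm']
    exact mul_dvd_mul (pow_dvd_pow 3 (Nat.le_succ j)) (Dvd.intro_left _ rfl)
  -- the point of level `m'`
  have hm'1 : m' ≠ 1 := by omega
  have hz1 : R.om R.i0 / m' ∉ (R.L R.i0).lattice := by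
    intro h
    obtain ⟨x, -, hx⟩ := (hL.mem _).1 h
    apply NST.TYF.nat_mul_ne_one hQ hm'1 x
    apply MUX.emb_inj hQ
    rw [MUX.emb_mul hQ, MUX.emb_natCast hQ, MUX.emb_one hQ]
    field_simp at hx
    rw [← hx]
  have hz2 : (m' : ℂ) * (R.om R.i0 / m') ∈ (R.L R.i0).lattice := by
    rw [mul_div_cancel₀ _ hm'C]
    exact (hL0.mem _).2 ⟨1, trivial, by rw [MUX.emb_one hQ, mul_one]⟩
  have hYa := (coordE hQ hT hL hua2 hea m' hm'0 _ hz1 hz2).2.1
  have hQalg : ∀ q, IsAlgebraic ℚ (Q q) := by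
    intro q
    have h1 := algE hE hT hL he.toIsEI hgt h3f (natCast_mem_idl (3 * f)) hcopb hr0 her q.1 q.2
    have h3 : Q q = PhiI (R.b R.i0) e q.1 q.2 / R.om R.i0 * u⁻¹ := by
      rw [hQdef]
      field_simp
    rw [h3]
    exact h1.mul hua.inv
  -- the field
  have h8r : 8 * r ≠ 0 := mul_ne_zero (by norm_num) hr0
  set Ts : Set ℂ := (Q '' (S : Set (OnePoint ℚ × OnePoint ℚ))) ∪
    ({tau, yu (R.L R.i0) u (R.om R.i0 / m')} ∪
      ((Polynomial.nthRootsFinset (8 * r) (1 : ℂ) : Finset ℂ) : Set ℂ)) with hTs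
  have hTfin : Ts.Finite := by
    refine Set.Finite.union ?_ (Set.Finite.union ?_ ?_)
    · exact (Finset.finite_toSet S).image _
    · exact Set.toFinite _
    · exact Finset.finite_toSet _
  have hTalg : ∀ t ∈ Ts, IsAlgebraic ℚ t := by
    rintro t (⟨q, -, rfl⟩ | (ht | ht))
    · exact hQalg q
    · rcases ht with rfl | ht
      · exact htaua
      · rw [Set.mem_singleton_iff] at ht
        rw [ht]
        exact hYa
    · rw [Finset.mem_coe, Polynomial.mem_nthRootsFinset (Nat.pos_of_ne_zero h8r)] at ht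
      refine ⟨Polynomial.X ^ (8 * r) - 1, Polynomial.X_pow_sub_C_ne_zero
        (Nat.pos_of_ne_zero h8r) (1 : ℚ), ?_⟩
      simp [ht]
  obtain ⟨F, hFf, hFg, hEF, hTF⟩ := nt_GLC A B hQ (RFE (idl (A := A) (B := B) m'))
    (hT.fin _ (idl_ne_bot hQ hm'0)) Ts hTfin hTalg
  have htau0 : tau ≠ 0 := by
    rintro rfl
    rw [map_zero, zero_pow (by norm_num)] at htau8
    exact (V.valuation.ne_zero_iff.2 (by norm_num : (3 : ℂ) ≠ 0)) htau8.symm
  have htauF : tau ∈ F := hTF (Or.inr (Or.inl (Or.inl rfl)))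
  have hyF : yu (R.L R.i0) u (R.om R.i0 / m') ∈ F := hTF (Or.inr (Or.inl (Or.inr rfl)))
  have hrF : ∀ z : ℂ, z ^ (8 * r) = 1 → z ∈ F := fun z hz => hTF (Or.inr (Or.inr (by
    rw [Finset.mem_coe, Polynomial.mem_nthRootsFinset (Nat.pos_of_ne_zero h8r)]
    exact hz)))
  have h38r : ¬ 3 ∣ 8 * r := by
    intro h
    rcases (Nat.Prime.dvd_mul Nat.prime_three).1 h with h | h
    · omega
    · exact hr h
  have hunf : ∀ w' ∈ KIn A B V F, V.valuation w' < 1 → V.valuation w' ≤ V.valuation (3 : ℂ) := by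
    intro w' hw' hw1
    have h1 : ((3 : ℕ) : OO A B) ∉ idl (A := A) (B := B) 3 ^ 2 := by
      intro h
      rw [pow_two, Ideal.span_singleton_mul_span_singleton, Ideal.mem_span_singleton] at h
      obtain ⟨x, hx⟩ := h
      have h30 : ((3 : ℕ) : OO A B) ≠ 0 := natCast_ne_zero' hQ (by norm_num)
      rw [mul_assoc] at hx
      have h2 : ((3 : ℕ) : OO A B) * x = 1 := by
        apply MUX.emb_inj hQ
        have h4 := congrArg emb hx
        rw [MUX.emb_mul hQ] at h4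
        have h5 : emb ((3 : ℕ) : OO A B) ≠ 0 := _root_.Pool.Agent.MUX.emb_ne_zero hQ h30
        rw [MUX.emb_one hQ]
        apply mul_left_cancel₀ h5
        rw [mul_one]
        exact h4.symm
      exact NST.TYF.nat_mul_ne_one hQ (by norm_num) x h2
    have h2 := Pool.Agent.N2T.unfP hQ hS.hV (natCast_mem_idl (A := A) (B := B) 3) h1 F w' hw' hw1
    rwa [MUX.emb_natCast hQ, Nat.cast_ofNat] at h2
  -- the key point
  have hkey : ∀ σ : ℂ ≃+* ℂ, InI A B V (F : Set ℂ) σ → ∀ q ∈ S,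
      σ (Q q * tau ^ i) = Q q * tau ^ i := by
    intro σ hσ q hq
    have hRF : ∀ y ∈ RFE (idl (A := A) (B := B) m'), σ y = y :=
      (Pool.Agent.MER.rfinE4 A B V hS.c4 hS.hV hT).2 m' hm'0 hm'3 (hf2.trans hfm) σ hσ.fix
        (fun y hy hyV => hσ.iner y (hEF hy) hyV)
    have hle : (RFE (idl (A := A) (B := B) 2) : IntermediateField (kk A B) ℂ) ≤
        RFE (idl (A := A) (B := B) m') := hT.mono _ _ (idl_mono (hf2.trans hfm))
    have hsu2 : σ (u ^ 2) = u ^ 2 := hRF _ (hle hu2)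
    have hsel : σ el = el := hRF _ (hle hel)
    obtain ⟨c0, -, hcop, hact, hz⟩ := actE hE hT hm0 ((hf2.trans hfm).trans hmm) hσ.fix
    have hA := hact _ _ _ hL
    -- the sign
    have hmz : (m : ℂ) * (R.om R.i0 / m') ∈ (R.L R.i0).lattice := by
      have h1 : (m : ℂ) = ((3 ^ (j + 1) : ℕ) : ℂ) * (m' : ℂ) := by
        rw [hm]
        push_cast
        ring
      rw [h1, mul_assoc, ← nsmul_eq_mul]
      exact nsmul_mem hz2 _
    obtain ⟨h4, h5, -⟩ := hA.act _ hmz hz1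
    have hpm1 := cong_pm hQ (by omega : 2 ≤ m') (σ := σ) hL0 (c := c0) h5.symm h4
      (hRF _ (wp_mem hQ hL hz1 hz2))
    obtain ⟨d, c, hd, hc0, hcm⟩ : ∃ (d : ℤ) (c : OO A B), (d = 1 ∨ d = -1) ∧
        c0 = (d : OO A B) * c ∧ c - 1 ∈ idl (A := A) (B := B) m' := by
      rcases hpm1 with h | h
      · exact ⟨1, c0, Or.inl rfl, by rw [Int.cast_one, one_mul], h⟩
      · refine ⟨-1, -c0, Or.inr rfl, by rw [Int.cast_neg, Int.cast_one]; ring, ?_⟩
        have h6 : -c0 - 1 = -(c0 + 1) := by ring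
        rw [h6]
        exact (Submodule.neg_mem_iff _).2 h
    have hembc : emb c0 = (d : ℂ) * emb c := by
      rw [hc0, MUX.emb_mul hQ, MUX.emb_intCast hQ]
    have hec0 : e c0 = (d : ℂ) * e c := by
      rw [hc0, he.mul]
      congr 1
      rcases hd with rfl | rfl
      · rw [Int.cast_one, Int.cast_one, he.one]
      · rw [Int.cast_neg, Int.cast_one, Int.cast_neg, Int.cast_one, he.neg]
    have hc3 : c ∉ idl (A := A) (B := B) 3 := by
      intro h
      have h6 : c0 ∈ idl (A := A) (B := B) 3 := by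
        rw [hc0]
        exact Ideal.mul_mem_left _ _ h
      rw [Ideal.isCoprime_iff_sup_eq] at hcop
      have h7 : (⊤ : Ideal (OO A B)) ≤ idl (A := A) (B := B) 3 := by
        rw [← hcop]
        exact sup_le ((Ideal.span_singleton_le_iff_mem _).2 h6) (idl_mono h3m)
      exact hC.max.ne_top (top_le_iff.1 h7)
    have hA' : ActN σ m (sp c0) (R.L R.i0) (R.L R.i0) ((d : ℂ) * emb c) := by
      rw [← hembc]
      exact hA
    have hsu : σ u = d * u := by
      refine sgu hQ hC.v3 hL0.toIsLI hG h3m' hm'3 hmm hcm hd hA' hsu2 ?_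
      intro h
      have h1 := hσ.iner _ hyF ((V.valuation_le_one_iff _).1 h)
      rwa [ValuationSubring.mem_nonunits_iff] at h1
    have hroot : ∀ z : ℂ, (z = 0 ∨ z ^ (8 * r) = 1) → σ z = z := by
      refine (NST.x_RTU V hC.v3 (8 * r) h38r).2 σ ?_
      intro z hz
      have hz1 : V.valuation z = 1 := by
        have h1 : (V.valuation z) ^ (8 * r) = 1 := by rw [← map_pow, hz, map_one]
        exact (pow_eq_one_iff.1 h1).resolve_right h8r
      have h1 := hσ.iner z (hrF z hz) ((V.valuation_le_one_iff _).1 hz1.le)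
      rwa [ValuationSubring.mem_nonunits_iff] at h1
    have hse : ∀ x, σ (e x) = e x := by
      intro x
      apply hroot
      by_cases hx : e x = 0
      · exact Or.inl hx
      · right
        rw [mul_comm, pow_mul, her x hx, one_pow]
    have hsw : ∀ x, σ (w x) = w x := by
      intro x
      apply hroot
      by_cases hx : x ∈ idl (A := A) (B := B) 3
      · exact Or.inl (hw.zero x hx)
      · right
        rw [pow_mul, hw.pow x hx, one_pow]
    have h1 := valE hQ hL.toIsLI hm0 hA hz he.toIsEI hgt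
      (idl_mono hpm (natCast_mem_idl m)) hcopb hse q.1 q.2
      (dn_mono hdvd (hSD0 q hq).1) (dn_mono hdvd (hSD0 q hq).2)
    have h2 : σ tau = w c * tau := htau m h3m _ σ c d hd hA' hc3 hsu hsel hsw
    have h3 : e c = w c ^ i := hi c (idl_mono hfm hcm) hc3
    have hdd : (d : ℂ) * d = 1 := by
      rcases hd with rfl | rfl <;> norm_num
    have hd0 : (d : ℂ) ≠ 0 := left_ne_zero_of_mul_eq_one hdd
    have h6 : e c * σ (Q q) = Q q := by
      have h7 : ∀ q, Q q = PhiI (R.b R.i0) e q.1 q.2 / R.om R.i0 / u := by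
        intro q
        rw [hQdef]
        field_simp
      rw [h7, map_div₀, hsu]
      nth_rewrite 2 [← h1]
      rw [hec0]
      field_simp
      linear_combination (-(e c * σ (PhiI (R.b R.i0) e q.1 q.2 / R.om R.i0))) * hdd
    rw [map_mul, map_pow, h2, mul_pow, ← h3]
    calc σ (Q q) * (e c * tau ^ i) = (e c * σ (Q q)) * tau ^ i := by ring
      _ = Q q * tau ^ i := by rw [h6]
  have hi0 : ∀ i, i = R.i0 := one_elt hE R
  have hQU : ∀ x y, PhiKE R e ka x y / (u * R.om R.i0) = ka R.i0 * Q (x, y) := by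
    intro x y
    unfold PhiKE
    rw [Finset.sum_eq_single R.i0 (fun i _ hi => absurd (hi0 i) hi)
      (fun h => absurd (Finset.mem_univ _) h), hQdef]
    field_simp
  have hvk : V.valuation (ka R.i0) = 1 := NST.RTU.v_root hr0 (hka R.i0)
  refine ⟨ka R.i0 * (tau ^ i)⁻¹, KIn A B V F, ?_, hunf, ?_⟩
  · have hle : AddSubgroup.closure (Q '' (S : Set (OnePoint ℚ × OnePoint ℚ))) ≤
        ((KIn A B V F).toAddSubgroup).map (AddMonoidHom.mulLeft ((tau ^ i)⁻¹)) := by
      rw [AddSubgroup.closure_le]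
      rintro _ ⟨q, hq, rfl⟩
      refine ⟨Q q * tau ^ i, ⟨?_, fun σ hσ => hkey σ hσ q hq⟩, ?_⟩
      · exact F.mul_mem (hTF (Or.inl ⟨q, hq, rfl⟩)) (F.pow_mem htauF i)
      · rw [AddMonoidHom.coe_mulLeft]
        field_simp
    intro x y
    obtain ⟨w', hw', hw2⟩ := hle (hgen' x y)
    refine ⟨w', hw', ?_⟩
    rw [hQU, ← hw2, AddMonoidHom.coe_mulLeft]
    ring
  · rw [map_mul, hvk, one_mul, map_inv₀, map_pow, inv_pow, ← pow_mul, mul_comm i 8, pow_mul, htau8]
    exact inv_mul_cancel₀ (pow_ne_zero _ (V.valuation.ne_zero_iff.2 (by norm_num)))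

end

end Pool.Agent.MET


end

section

/-!
# MUX-NS, block TR, module TYF: TYPE in the ramified case (adapted from `T_TYF.lean`)
-/

set_option autoImplicit false

namespace Pool.Agent.NSTR

open _root_.MU3 _root_.Pool.Agent.MU3A _root_.Pool.Agent.MU3B _root_.Pool.Agent.RI _root_.Pool.Agent.MUX _root_.Pool.Agent.MUXU
open OnePoint _root_.Pool.Agent.NS _root_.Pool.Agent.NSRD
open _root_.Pool.Agent.MUXV (GR InK)
open _root_.Pool.Agent.NSE (su ru)
open _root_.Pool.Agent.NST (KIn ActT)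
open _root_.Pool.Agent.MUXY (ActN Dn)

noncomputable section

namespace TYF

open _root_.Pool.Agent.NST.TYF

/-- algebraicity of the values for a family of weights which are `0` or roots of unity -/
lemma alg_zero (h11 : NST.Nt_ALV) {A B : ℤ} (hQ : CQ A B) (hT : TorX A B) {f : ℕ} (hf : f ≠ 0)
    {ι : Type} [Fintype ι] (R : Reps A B (3 * f) ι) (e : OO A B → ℂ)
    (he : IsEI (idl (A := A) (B := B) (3 * f)) e) {r : ℕ} (hr : r ≠ 0)
    (her : ∀ x, e x ≠ 0 → e x ^ r = 1) (kk : ι → ℂ) (hk : ∀ j, kk j = 0 ∨ kk j ^ r = 1)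
    {u : ℂ} (hu : IsAlgebraic ℚ u) (x y : OnePoint ℚ) :
    IsAlgebraic ℚ (PhiK R e kk x y / (u * R.om R.i0)) := by
  classical
  set al : ι → ℂ := fun j => if kk j = 0 then 1 else kk j with hal
  set be : ι → ℂ := fun j => if kk j = 0 then -1 else kk j with hbe
  have h2r : 2 * r ≠ 0 := mul_ne_zero (by norm_num) hr
  have he2 : ∀ x, e x ≠ 0 → e x ^ (2 * r) = 1 := by
    intro x hx
    rw [mul_comm, pow_mul, her x hx, one_pow]
  have hal1 : ∀ j, al j ^ (2 * r) = 1 := by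
    intro j
    simp only [hal]
    split_ifs with h
    · exact one_pow _
    · rw [mul_comm, pow_mul, (hk j).resolve_left h, one_pow]
  have hbe1 : ∀ j, be j ^ (2 * r) = 1 := by
    intro j
    simp only [hbe]
    split_ifs with h
    · rw [pow_mul, neg_one_sq, one_pow]
    · rw [mul_comm, pow_mul, (hk j).resolve_left h, one_pow]
  have h1 := h11 A B hQ hT f hf ι R e he (2 * r) h2r he2 al hal1 u hu x y
  have h2 := h11 A B hQ hT f hf ι R e he (2 * r) h2r he2 be hbe1 u hu x y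
  have h3 : PhiK R e kk x y / (u * R.om R.i0) =
      (1 / 2 : ℚ) • (PhiK R e al x y / (u * R.om R.i0) + PhiK R e be x y / (u * R.om R.i0)) := by
    have h4 : PhiK R e kk x y = (1 / 2 : ℂ) * (PhiK R e al x y + PhiK R e be x y) := by
      unfold PhiK
      rw [← Finset.sum_add_distrib, Finset.mul_sum]
      refine Finset.sum_congr rfl fun j _ => ?_
      have h5 : kk j = (1 / 2 : ℂ) * (al j + be j) := by
        simp only [hal, hbe]
        split_ifs with h
        · rw [h]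
          ring
        · ring
      rw [← add_mul, ← mul_assoc, ← h5]
    rw [h4, Algebra.smul_def]
    simp only [one_div, map_inv₀, map_ofNat]
    ring
  rw [h3]
  exact (h1.add h2).smul _

lemma two_dvd {A B : ℤ} {f : ℕ} (h : 2 * absD A B ∣ 3 * (f : ℤ)) : 2 ∣ f := by
  have h1 : (2 : ℤ) ∣ 3 * (f : ℤ) := (Dvd.intro _ rfl).trans h
  omega

/-- an element prime to `m` with `3 ∣ m` is not in `P` -/
lemma not_mem {A B : ℤ} {P : Ideal (OO A B)} (hP : IsPN 3 P) {m : ℕ} (hm : 3 ∣ m)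
    {c : OO A B} (hc : IsCoprime (sp c) (idl (A := A) (B := B) m)) : c ∉ P := by
  intro h
  have h1 : sp c ≤ P := by
    rw [Ideal.span_singleton_le_iff_mem]
    exact h
  have h2 : idl (A := A) (B := B) m ≤ P := by
    rw [Ideal.span_singleton_le_iff_mem]
    obtain ⟨k, rfl⟩ := hm
    rw [Nat.cast_mul]
    exact P.mul_mem_right _ hP.mem
  have h3 := (Ideal.isCoprime_iff_sup_eq.1 hc)
  exact hP.prime.ne_top (top_le_iff.1 (h3 ▸ sup_le h1 h2))

end TYF

open _root_.Pool.Agent.NSTR.TYF _root_.Pool.Agent.NST.TYF in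
/-- (TYF) TYPE, ramified case -/
theorem tw_TYF (h0 : Sq_RFIN) (h1 : Sw_DEL) (h2 : Sw_UNF) (h3 : Sw_ALT) (h4 : Sw_ACF)
    (h5 : Sw_SGU) (h6 : Sw_TAU) (h7 : NST.Nt_RTU) (h8 : NST.Nt_GLC) (h9 : NST.Nt_FGP)
    (h10 : NST.Nt_FGV) (h11 : NST.Nt_ALV) (h12 : NST.Nt_VAK) : Sw_TYF := by
  intro A B P V f hS hT ι _ R u el lam hG e he r hr her i hi1 hi ka ka' hka hka'
  have hQ : CQ A B := hS.case.toCQ
  obtain ⟨hv3, -, -, hD15, -, -, -, -, -, -, -, -⟩ := h1 A B P V hS.case hS.hP hS.hV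
  have hu0 : u ≠ 0 := hG.u0
  have hr0 : r ≠ 0 := by
    rintro rfl
    exact hr (dvd_zero 3)
  have hf2 : 2 ∣ f := two_dvd hS.fD
  have hf10 : 10 ≤ f := by
    have h1 := Int.le_of_dvd (by have := hS.f0; omega) hS.fD
    omega
  have h3f : 3 * f ≠ 0 := mul_ne_zero (by norm_num) hS.f0
  obtain ⟨T, hTT⟩ := h10 A B hQ (3 * f) ι R (idl (3 * f)) e (idl_ne_bot hQ h3f) he ka
    (u * R.om R.i0)
  obtain ⟨T', hTT'⟩ := h10 A B hQ (3 * f) ι R (idl (3 * f)) e (idl_ne_bot hQ h3f) he ka'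
    (u * R.om R.i0)
  obtain ⟨S, j, N, hN0, hN3, hSD, hgen⟩ :=
    h9 (fun x y => PhiK R e ka x y / (u * R.om R.i0)) T hTT
  obtain ⟨S', j', N', hN0', hN3', hSD', hgen'⟩ :=
    h9 (fun x y => PhiK R e ka' x y / (u * R.om R.i0)) T' hTT'
  obtain ⟨tau, htau4, htaua, htau⟩ := h6 A B P V hS.case hS.hP hS.hV hT (3 * f) ι R u el lam hG
  obtain ⟨hu2, hel, hlam, hua, hALTz⟩ := h3 A B hQ hT V hv3 (R.b R.i0) (R.L R.i0)
    (R.om R.i0) (R.nl R.i0) u el lam hG
  set m' := f * (N * N') with hm'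
  have hm'0 : m' ≠ 0 := mul_ne_zero hS.f0 (mul_ne_zero hN0 hN0')
  have hm'3 : ¬ 3 ∣ m' := by
    intro h
    rcases (Nat.Prime.dvd_mul Nat.prime_three).1 h with h | h
    · exact hS.fp h
    · rcases (Nat.Prime.dvd_mul Nat.prime_three).1 h with h | h
      · exact hN3 h
      · exact hN3' h
  have hm'C : (m' : ℂ) ≠ 0 := by exact_mod_cast hm'0
  have hfm : f ∣ m' := Dvd.intro _ rfl
  have hm'1 : m' ≠ 1 := by
    intro h
    rw [h] at hfm
    have := Nat.le_of_dvd one_pos hfm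
    omega
  -- the point of level `m'`
  have hom : R.om R.i0 ≠ 0 := (R.nl R.i0).om_ne
  have hz1 : R.om R.i0 / m' ∉ (R.L R.i0).lattice := by
    intro h
    obtain ⟨x, -, hx⟩ := ((R.nl R.i0).mem _).1 h
    apply nat_mul_ne_one hQ hm'1 x
    apply MUX.emb_inj hQ
    rw [MUX.emb_mul hQ, MUX.emb_natCast hQ, MUX.emb_one hQ]
    field_simp at hx
    rw [← hx]
  have hz2 : (m' : ℂ) * (R.om R.i0 / m') ∈ (R.L R.i0).lattice := by
    rw [mul_div_cancel₀ _ hm'C]
    refine ((R.nl R.i0).mem _).2 ⟨1, ?_, ?_⟩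
    · rw [R.b0]
      trivial
    · rw [MUX.emb_one hQ, mul_one]
  have hYa := (hALTz m' hm'0 _ hz1 hz2).2.1
  -- the field
  set Q : OnePoint ℚ × OnePoint ℚ → ℂ :=
    fun q => PhiK R e ka q.1 q.2 / (u * R.om R.i0) with hQdef
  set Q' : OnePoint ℚ × OnePoint ℚ → ℂ :=
    fun q => PhiK R e ka' q.1 q.2 / (u * R.om R.i0) with hQdef'
  set Ts : Set ℂ := ((Q '' (S : Set (OnePoint ℚ × OnePoint ℚ))) ∪
    (Q' '' (S' : Set (OnePoint ℚ × OnePoint ℚ)))) ∪
    ({tau, yu (R.L R.i0) u (R.om R.i0 / m')} ∪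
      ((Polynomial.nthRootsFinset r (1 : ℂ) : Finset ℂ) : Set ℂ)) with hTs
  have hTfin : Ts.Finite := by
    refine Set.Finite.union (Set.Finite.union ?_ ?_) (Set.Finite.union ?_ ?_)
    · exact (Finset.finite_toSet S).image _
    · exact (Finset.finite_toSet S').image _
    · exact Set.toFinite _
    · exact Finset.finite_toSet _
  have hTalg : ∀ t ∈ Ts, IsAlgebraic ℚ t := by
    rintro t ((⟨q, -, rfl⟩ | ⟨q, -, rfl⟩) | (ht | ht))
    · exact alg_zero h11 hQ hT hS.f0 R e he hr0 her ka hka hua q.1 q.2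
    · exact alg_zero h11 hQ hT hS.f0 R e he hr0 her ka' hka' hua q.1 q.2
    · rcases ht with rfl | ht
      · exact htaua
      · rw [Set.mem_singleton_iff] at ht
        rw [ht]
        exact hYa
    · rw [Finset.mem_coe, Polynomial.mem_nthRootsFinset (Nat.pos_of_ne_zero hr0)] at ht
      refine ⟨Polynomial.X ^ r - 1, Polynomial.X_pow_sub_C_ne_zero
        (Nat.pos_of_ne_zero hr0) (1 : ℚ), ?_⟩
      simp [ht]
  obtain ⟨F, hFf, hFg, hEF, hTF⟩ := h8 A B hQ (RF (idl (A := A) (B := B) m'))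
    (hT.fin _ (idl_ne_bot hQ hm'0)) Ts hTfin hTalg
  have htau0 : tau ≠ 0 := by
    rintro rfl
    rw [map_zero, zero_pow (by norm_num)] at htau4
    exact (V.valuation.ne_zero_iff.2 (by norm_num : (3 : ℂ) ≠ 0)) htau4.symm
  have htauF : tau ∈ F := hTF (Or.inr (Or.inl (Or.inl rfl)))
  have hyF : yu (R.L R.i0) u (R.om R.i0 / m') ∈ F := hTF (Or.inr (Or.inl (Or.inr rfl)))
  have hrF : ∀ z : ℂ, z ^ r = 1 → z ∈ F := fun z hz => hTF (Or.inr (Or.inr (by
    rw [Finset.mem_coe, Polynomial.mem_nthRootsFinset (Nat.pos_of_ne_zero hr0)]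
    exact hz)))
  -- the level
  set m := 3 ^ (j + j' + 1) * m' with hm
  have h3m : 3 ∣ m := (dvd_pow_self 3 (Nat.succ_ne_zero _)).mul_right _
  have hm0 : m ≠ 0 := mul_ne_zero (pow_ne_zero _ (by norm_num)) hm'0
  have hd1 : 3 ^ j * N ∣ m := by
    refine mul_dvd_mul (pow_dvd_pow 3 (by omega)) ?_
    exact (Dvd.intro _ rfl).trans (Dvd.intro_left f rfl)
  have hd2 : 3 ^ j' * N' ∣ m := by
    refine mul_dvd_mul (pow_dvd_pow 3 (by omega)) ?_
    exact (Dvd.intro_left N rfl).trans (Dvd.intro_left f rfl)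
  -- the key point
  have hkey : ∀ σ : ℂ ≃+* ℂ, InI A B V (F : Set ℂ) σ →
      (∀ q ∈ S, σ (Q q * tau ^ i) = Q q * tau ^ i) ∧
      (∀ q ∈ S', σ (Q' q * tau ^ i) = Q' q * tau ^ i) := by
    intro σ hσ
    have hRF := (h0 A B P V hS.case hS.hP hS.hV hT).2 m' hm'0 hm'3 σ hσ.fix
      (fun y hy hyV => hσ.iner y (hEF hy) hyV)
    obtain ⟨c, d, hc1, hcop, hact⟩ := h4 A B hQ hT (3 * f) ι R m m' hm0
      (Dvd.intro_left _ rfl) σ hσ.fix hRF
    have hcP : c ∉ P := not_mem hS.hP h3m hcop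
    have hle : (RF (idl (A := A) (B := B) 2) : IntermediateField (kk A B) ℂ) ≤
        RF (idl (A := A) (B := B) m') :=
      hT.mono _ _ (mem_idl_of_dvd (hf2.trans hfm))
    have hsu2 : σ (u ^ 2) = u ^ 2 := hRF _ (hle hu2)
    have hsel : σ el = el := hRF _ (hle hel)
    have hsu : σ u = d R.i0 * u := by
      refine h5 A B P V f hS ι R u el lam hG (j + j') m' hm'0 hm'3 hfm σ c d hc1 hact hsu2 ?_
      intro h
      have h1 := hσ.iner _ hyF ((V.valuation_le_one_iff _).1 h)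
      rwa [ValuationSubring.mem_nonunits_iff] at h1
    have hroot : ∀ z : ℂ, (z = 0 ∨ z ^ r = 1) → σ z = z := by
      refine (h7 V hv3 r hr).2 σ ?_
      intro z hz
      have hz1 : V.valuation z = 1 := by
        have h1 : (V.valuation z) ^ r = 1 := by rw [← map_pow, hz, map_one]
        exact (pow_eq_one_iff.1 h1).resolve_right hr0
      have h1 := hσ.iner z (hrF z hz) ((V.valuation_le_one_iff _).1 hz1.le)
      rwa [ValuationSubring.mem_nonunits_iff] at h1
    have hse : ∀ x, σ (e x) = e x := by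
      intro x
      apply hroot
      by_cases hx : e x = 0
      · exact Or.inl hx
      · exact Or.inr (her x hx)
    have h2 : σ tau = ((wP P c : ℤ) : ℂ) * tau := htau m h3m σ c d hact hcP hsu hsel
    have h3 : e c = ((wP P c : ℤ) : ℂ) ^ i := hi c (mem_idl_of_dvd hfm hc1) hcP
    have hfin : ∀ z : ℂ, e c * σ z = z → σ (z * tau ^ i) = z * tau ^ i := by
      intro z hz
      rw [map_mul, map_pow, h2, mul_pow, ← h3]
      calc σ z * (e c * tau ^ i) = (e c * σ z) * tau ^ i := by ring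
        _ = z * tau ^ i := by rw [hz]
    refine ⟨fun q hq => hfin _ ?_, fun q hq => hfin _ ?_⟩
    · exact h12 A B f hQ (by omega) ι R e he (j + j') m' hm'0 hfm σ c d hc1 hact hse ka
        (fun l => hroot _ (hka l)) u hu0 hsu q.1 q.2 (dn_mono hd1 (hSD q hq).1)
        (dn_mono hd1 (hSD q hq).2)
    · exact h12 A B f hQ (by omega) ι R e he (j + j') m' hm'0 hfm σ c d hc1 hact hse ka'
        (fun l => hroot _ (hka' l)) u hu0 hsu q.1 q.2 (dn_mono hd2 (hSD' q hq).1)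
        (dn_mono hd2 (hSD' q hq).2)
  have hgenl : ∀ (G : OnePoint ℚ × OnePoint ℚ → ℂ) (X : Set (OnePoint ℚ × OnePoint ℚ)),
      (∀ q ∈ X, G q ∈ F) →
      (∀ σ : ℂ ≃+* ℂ, InI A B V (F : Set ℂ) σ → ∀ q ∈ X, σ (G q * tau ^ i) = G q * tau ^ i) →
      AddSubgroup.closure (G '' X) ≤
        ((KIn A B V F).toAddSubgroup).map (AddMonoidHom.mulLeft ((tau ^ i)⁻¹)) := by
    intro G X hGF hGs
    rw [AddSubgroup.closure_le]
    rintro _ ⟨q, hq, rfl⟩
    refine ⟨G q * tau ^ i, ⟨?_, fun σ hσ => hGs σ hσ q hq⟩, ?_⟩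
    · exact F.mul_mem (hGF q hq) (F.pow_mem htauF i)
    · rw [AddMonoidHom.coe_mulLeft]
      field_simp
  have hQF : ∀ q ∈ (S : Set (OnePoint ℚ × OnePoint ℚ)), Q q ∈ F := fun q hq =>
    hTF (Set.mem_union_left _ (Set.mem_union_left _ (Set.mem_image_of_mem Q hq)))
  have hQF' : ∀ q ∈ (S' : Set (OnePoint ℚ × OnePoint ℚ)), Q' q ∈ F := fun q hq =>
    hTF (Set.mem_union_left _ (Set.mem_union_right _ (Set.mem_image_of_mem Q' hq)))
  have hle1 := hgenl Q (S : Set (OnePoint ℚ × OnePoint ℚ)) hQF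
    (fun σ hσ q hq => (hkey σ hσ).1 q hq)
  have hle2 := hgenl Q' (S' : Set (OnePoint ℚ × OnePoint ℚ)) hQF'
    (fun σ hσ q hq => (hkey σ hσ).2 q hq)
  refine ⟨(tau ^ i)⁻¹, KIn A B V F, ?_, ?_, h2 A B P V hS.case hS.hP hS.hV F, ?_⟩
  · intro x y
    obtain ⟨w', hw', hw2⟩ := hle1 (hgen x y)
    exact ⟨w', hw', hw2.symm⟩
  · intro x y
    obtain ⟨w', hw', hw2⟩ := hle2 (hgen' x y)
    exact ⟨w', hw', hw2.symm⟩
  · rw [map_inv₀, map_pow, inv_pow, ← pow_mul, mul_comm i 4, pow_mul, htau4]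
    exact inv_mul_cancel₀ (pow_ne_zero _ (V.valuation.ne_zero_iff.2 (by norm_num)))

end

end Pool.Agent.NSTR


end

section

/-!
# ME, block T, `D = -3`, `p = 3` (helper4): the result `Sq_TYF_E`

`y² = x³ + 1`, `L = om O`. `σ` in the inertia group at `V` of a large Galois extension `F / k` is trivial on `RFE (m')`, `m'` even and prime to `3` (`rfinE3`), so it acts on the points of
level `m = 3^(j+1) m'` as `c0 = d c`, `d = ± 1`, `c ≡ 1` modulo `m'`. The points of order `√-3` are `(0, ± 1)`, rational, so `c0 ≡ 1` modulo `P` (`one_P`) and `w(c)³ = d`. `σ u = d u` (`sguR`).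
`κ = ℘(om/3)`: `κ³ = -4` (`kap_cub`), and `(O/3)^*` consists of the classes of the units, `℘(η z) = ℘(z)/η²`, so `σ κ = κ/w(c)² = w(c)⁴ κ`. `e(c) σ(P/(u om)) = P/(u om)`, `e(c) = w(c)^(3i+1)`,
so `tau P/(u om)` is fixed by the inertia group for `tau = u^(1-i) κ`; `v(u)⁴ = v 3` (`legE`), `v κ = 1`.
-/

set_option autoImplicit false

namespace Pool.Agent.MET

open _root_.MU3 _root_.Pool.Agent.MU3A _root_.Pool.Agent.MU3B _root_.Pool.Agent.RI _root_.Pool.Agent.MUX _root_.Pool.Agent.MUXU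
open OnePoint _root_.Pool.Agent.NS _root_.Pool.Agent.NSRD _root_.Pool.Agent.ME2
open _root_.Pool.Agent.ME hiding ActE
open _root_.Pool.Agent.ME3 (CtxR3)
open _root_.Pool.Agent.MUXV (GR InK)
open _root_.Pool.Agent.MUXY (ActN Dn)
open _root_.Pool.Agent.NST (KIn nt_GLC)
open _root_.Pool.Agent.NST.TYF (dn_mono idl_ne_bot)

noncomputable section

variable {A B : ℤ} {L : PeriodPair} {om : ℂ} {b : Ideal (OO A B)} {V : ValuationSubring ℂ}
  {P : Ideal (OO A B)}

/-! ### The Legendre form of `y² = x³ + 1` -/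

/-- the numbers of the Legendre form -/
theorem legE {u e lam : ℂ} (hG : GoodR V L u e lam) (h2 : L.g₂ = 0) (h3 : L.g₃ = -4) :
    (1 + lam) * u ^ 2 = -3 * e ∧ lam * u ^ 4 = 3 * e ^ 2 ∧ e ^ 3 = -1 := by
  obtain ⟨k1, -, -, k2, k3, -, -⟩ := NSR.tr_LGF L u e lam ⟨hG.u0, hG.eq⟩
  rw [h2] at k2
  rw [h3] at k3
  have hl : lam ^ 2 - lam + 1 = 0 := by
    rcases mul_eq_zero.1 k2.symm with h | h
    · exfalso
      rcases mul_eq_zero.1 h with h | h
      · norm_num at h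
      · exact hG.u0 ((pow_eq_zero_iff (by norm_num)).1 h)
    · exact h
  refine ⟨by linear_combination k1, ?_, ?_⟩
  · linear_combination (-1 / 3) * (3 * e - (1 + lam) * u ^ 2) * k1 - (1 / 3) * u ^ 4 * hl
  · linear_combination (1 / 27) * (9 * e ^ 2 - 3 * e * (1 + lam) * u ^ 2 + (1 + lam) ^ 2 * u ^ 4) *
      k1 - (1 / 27) * u ^ 6 * (lam + 4) * hl - (1 / 4) * k3 -
      (1 / 27) * u ^ 6 * (2 * lam - 1) * hl

/-- `v(u)⁴ = v 3` -/
theorem vu4 {u e lam : ℂ} (hG : GoodR V L u e lam) (h2 : L.g₂ = 0) (h3 : L.g₃ = -4)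
    (v3 : V.valuation (3 : ℂ) < 1) : V.valuation u ^ 4 = V.valuation (3 : ℂ) := by
  obtain ⟨-, k2, k3⟩ := legE hG h2 h3
  have hb : V.valuation (1 + lam) < 1 := by
    by_contra h
    exact absurd ((one_le_pow_of_one_le' (not_lt.1 h) 2).trans hG.lam1) (not_le.2 v3)
  have vlam : V.valuation lam = 1 := by
    have h4 : lam = (1 + lam) - 1 := by ring
    rw [h4, V.valuation.map_sub_eq_of_lt_right (by rwa [map_one]), map_one]
  have ve : V.valuation e = 1 := by
    have h4 : V.valuation e ^ 3 = 1 := by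
      rw [← map_pow, k3, Valuation.map_neg, map_one]
    exact (pow_eq_one_iff.1 h4).resolve_right (by norm_num)
  have h5 := congrArg V.valuation k2
  rw [map_mul, map_mul, map_pow, map_pow, vlam, ve, one_pow, one_mul, mul_one] at h5
  exact h5

/-- points killed by three -/
theorem kap_cub {u e lam : ℂ} (hG : GoodR V L u e lam) (h2 : L.g₂ = 0) (h3 : L.g₃ = -4) {Y : ℂ}
    (hY : Y ∉ L.lattice) (hY3 : 3 * Y ∈ L.lattice) :
    L.weierstrassP Y ^ 4 = -4 * L.weierstrassP Y := by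
  obtain ⟨k1, k2, k3⟩ := legE hG h2 h3
  have hu0 := hG.u0
  have h4 := (NSR.rtr3 L u e lam ⟨hG.u0, hG.eq⟩ Y hY).1 hY3
  obtain ⟨p, hp⟩ : ∃ p, p = L.weierstrassP Y := ⟨_, rfl⟩
  have h5 : xu L u e Y = (p - e) / u ^ 2 := by rw [hp]; rfl
  rw [h5] at h4
  rw [← hp]
  have h6 : 3 * (p - e) ^ 4 - 4 * ((1 + lam) * u ^ 2) * (p - e) ^ 3 +
      6 * (lam * u ^ 4) * (p - e) ^ 2 - (lam * u ^ 4) ^ 2 = 0 := by
    have h7 : 3 * (p - e) ^ 4 - 4 * ((1 + lam) * u ^ 2) * (p - e) ^ 3 +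
      6 * (lam * u ^ 4) * (p - e) ^ 2 - (lam * u ^ 4) ^ 2 = u ^ 8 *
        (3 * ((p - e) / u ^ 2) ^ 4 - 4 * (1 + lam) * ((p - e) / u ^ 2) ^ 3 +
      6 * lam * ((p - e) / u ^ 2) ^ 2 - lam ^ 2) := by
      field_simp
    rw [h7, h4, mul_zero]
  rw [k1, k2] at h6
  linear_combination (1 / 3) * h6 + 4 * p * k3

/-! ### The invariants and units -/

lemma nrm3 (hB : B = 1) (hL : NrmE A B L) : L.g₂ = 0 ∧ L.g₃ = -4 := by
  refine ⟨?_, ?_⟩
  · rw [hL.g2]
    unfold g2E
    rw [if_neg (by rw [hB]; norm_num)]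
  · rw [hL.g3]
    unfold g3E
    rw [if_neg (by rw [hB]; norm_num)]

/-- points of the lattice -/
lemma mem_of_lat (hC : CQ A B) (hL : IsLI (⊤ : Ideal (OO A B)) L om) {n : ℕ} (hn : n ≠ 0)
    {y : OO A B} : emb y * (om / n) ∈ L.lattice ↔ y ∈ idl (A := A) (B := B) n := by
  have hnC : (n : ℂ) ≠ 0 := by exact_mod_cast hn
  have hom : om ≠ 0 := hL.om_ne
  constructor
  · intro hy
    obtain ⟨x, -, hx⟩ := (hL.mem _).1 hy
    have h1 : emb y = emb (x * ((n : ℕ) : OO A B)) := by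
      rw [MUX.emb_mul hC, MUX.emb_natCast hC]
      field_simp at hx
      linear_combination hx
    rw [MUX.emb_inj hC h1]
    exact Ideal.mul_mem_left _ _ (natCast_mem_idl n)
  · intro hy
    obtain ⟨x, rfl⟩ := Ideal.mem_span_singleton'.1 hy
    refine (hL.mem _).2 ⟨x, trivial, ?_⟩
    rw [MUX.emb_mul hC, MUX.emb_natCast hC]
    field_simp

/-- `℘(om/3) ≠ 0` -/
theorem kap_ne (hC : CQ A B) (hA : A = -1) (hB : B = 1) (hL : IsLI (⊤ : Ideal (OO A B)) L om) :
    om / 3 ∉ L.lattice ∧ 3 * (om / 3) ∈ L.lattice ∧ L.weierstrassP (om / 3) ≠ 0 := by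
  have key : ∀ y : OO A B, emb y * (om / 3) ∈ L.lattice ↔ (3 : ℤ) ∣ y.re ∧ (3 : ℤ) ∣ y.im := by
    intro y
    have h1 := mem_of_lat hC hL (n := 3) (by norm_num) (y := y)
    rw [mem_idl_iff] at h1
    exact_mod_cast h1
  have h0 : om / 3 ∉ L.lattice := by
    intro h
    have h1 := (key 1).1 (by rwa [MUX.emb_one hC, one_mul])
    have h2 : (3 : ℤ) ∣ 1 := h1.1
    norm_num at h2
  refine ⟨h0, ?_, ?_⟩
  · refine (hL.mem _).2 ⟨1, trivial, ?_⟩
    rw [MUX.emb_one hC]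
    ring
  · intro hP
    subst hA
    subst hB
    have hη : (⟨0, 1⟩ : OO (-1) 1) * ⟨1, -1⟩ = 1 := QuadraticAlgebra.ext rfl rfl
    obtain ⟨hη0, hiff, hPη, -⟩ := unit_hom hC hL hη
    have h1 : L.weierstrassP (emb (⟨0, 1⟩ : OO (-1) 1) * (om / 3)) =
        L.weierstrassP (om / 3) := by
      rw [hPη, hP, zero_div]
    rcases b_NEQ L (om / 3) _ h0 (fun h => h0 ((hiff _).2 h)) h1 with h2 | h2
    · have h3 := (key (⟨0, 1⟩ - 1)).1 (by
        rw [MUX.emb_sub hC, MUX.emb_one hC, sub_mul, one_mul]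
        exact h2)
      have h4 : (3 : ℤ) ∣ 0 - 1 := h3.1
      norm_num at h4
    · have h3 := (key (⟨0, 1⟩ + 1)).1 (by
        rw [MUX.emb_add hC, MUX.emb_one hC, add_mul, one_mul]
        exact h2)
      have h4 : (3 : ℤ) ∣ 0 + 1 := h3.1
      norm_num at h4

/-- the points of order `√-3` are `(0, ± 1)` -/
theorem pnt_P (hC : CQ A B) (hA : A = -1) (hB : B = 1) (hL : IsLI (⊤ : Ideal (OO A B)) L om)
    (hn : NrmE A B L) :
    emb (dD A B) * (om / 3) ∉ L.lattice ∧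
      (L.derivWeierstrassP (emb (dD A B) * (om / 3)) = 2 ∨
        L.derivWeierstrassP (emb (dD A B) * (om / 3)) = -2) := by
  have key : ∀ y : OO A B, emb y * (om / 3) ∈ L.lattice ↔ (3 : ℤ) ∣ y.re ∧ (3 : ℤ) ∣ y.im := by
    intro y
    have h1 := mem_of_lat hC hL (n := 3) (by norm_num) (y := y)
    rw [mem_idl_iff] at h1
    exact_mod_cast h1
  have h0 : emb (dD A B) * (om / 3) ∉ L.lattice := by
    intro h
    have h1 := ((key _).1 h).2
    have h2 : (3 : ℤ) ∣ 2 := h1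
    norm_num at h2
  refine ⟨h0, ?_⟩
  obtain ⟨hg2, hg3⟩ := nrm3 hB hn
  subst hA
  subst hB
  have hη : (⟨-1, 1⟩ : OO (-1) 1) * ⟨0, -1⟩ = 1 := QuadraticAlgebra.ext rfl rfl
  obtain ⟨hη0, hiff, hPη, -⟩ := unit_hom hC hL hη
  obtain ⟨Z, hZ⟩ : ∃ Z, Z = emb (dD (-1) 1) * (om / 3) := ⟨_, rfl⟩
  rw [← hZ] at h0 ⊢
  have h1 : emb (⟨-1, 1⟩ : OO (-1) 1) * Z - Z ∈ L.lattice := by
    have h2 : emb (⟨-1, 1⟩ : OO (-1) 1) * Z - Z =
        emb ((⟨-1, 1⟩ - 1) * dD (-1) 1 : OO (-1) 1) * (om / 3) := by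
      rw [hZ, MUX.emb_mul hC, MUX.emb_sub hC, MUX.emb_one hC]
      ring
    rw [h2, key]
    constructor
    · show (3 : ℤ) ∣ (-1 - 1) * (-1) + (-1) * ((1 - 0) * 2)
      norm_num
    · show (3 : ℤ) ∣ (-1 - 1) * 2 + (1 - 0) * (-1) + 1 * ((1 - 0) * 2)
      norm_num
  have h3 : L.weierstrassP (emb (⟨-1, 1⟩ : OO (-1) 1) * Z) = L.weierstrassP Z := by
    have h4 := L.weierstrassP_add_coe Z ⟨_, h1⟩
    have h5 : Z + ((⟨emb (⟨-1, 1⟩ : OO (-1) 1) * Z - Z, h1⟩ : L.lattice) : ℂ) =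
        emb (⟨-1, 1⟩ : OO (-1) 1) * Z := by
      show Z + (emb (⟨-1, 1⟩ : OO (-1) 1) * Z - Z) = _
      ring
    rw [h5] at h4
    exact h4
  have h6 : L.weierstrassP Z = 0 := by
    rw [hPη] at h3
    by_contra h7
    have h8 : emb (⟨-1, 1⟩ : OO (-1) 1) ^ 2 = 1 := by
      have h9 : L.weierstrassP Z = L.weierstrassP Z * emb (⟨-1, 1⟩ : OO (-1) 1) ^ 2 := by
        rw [div_eq_iff (pow_ne_zero 2 hη0)] at h3
        exact h3
      apply mul_left_cancel₀ h7
      rw [mul_one, ← h9]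
    rw [← MUX.emb_pow hC, ← MUX.emb_one hC] at h8
    have h9 := MUX.emb_inj hC h8
    have h10 := congrArg QuadraticAlgebra.im h9
    rw [pow_two] at h10
    have h11 : (-1 : ℤ) * 1 + 1 * (-1) + 1 * (1 * 1) = 0 := h10
    norm_num at h11
  have h7 := L.derivWeierstrassP_sq Z h0
  rw [h6, hg2, hg3] at h7
  apply sq_eq_sq_iff_eq_or_eq_neg.1
  linear_combination h7

/-! ### The action of an automorphism -/

/-- `σ` acts as `c ≡ 1` modulo `P` -/
theorem one_P (hC : CtxR3 A B P V) (hA : A = -1) (hB : B = 1)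
    (hL : IsLI (⊤ : Ideal (OO A B)) L om) (hn : NrmE A B L) {m : ℕ} (h3m : 3 ∣ m)
    {σ : ℂ ≃+* ℂ} {c : OO A B} (hc : c ∉ P) (hAct : ActN σ m (sp c) L L (emb c)) :
    c - 1 ∈ P := by
  have hcq := hC.cq
  obtain ⟨h0, hd⟩ := pnt_P hcq hA hB hL hn
  obtain ⟨Z, hZ⟩ : ∃ Z, Z = emb (dD A B) * (om / 3) := ⟨_, rfl⟩
  rw [← hZ] at h0 hd
  have h3Z : 3 * Z ∈ L.lattice := by
    refine (hL.mem _).2 ⟨dD A B, trivial, ?_⟩
    rw [hZ]
    ring
  have hmZ : (m : ℂ) * Z ∈ L.lattice := by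
    obtain ⟨k, rfl⟩ := h3m
    have h1 := nsmul_mem h3Z k
    rw [nsmul_eq_mul] at h1
    have e1 : ((3 * k : ℕ) : ℂ) * Z = (k : ℂ) * (3 * Z) := by push_cast; ring
    rw [e1]
    exact h1
  obtain ⟨-, -, h5⟩ := hAct.act Z hmZ h0
  rcases hC.pm c hc with h | h
  · exact h
  · exfalso
    have h6 : emb c * Z - -Z ∈ L.lattice := by
      have h7 : (c + 1) * dD A B ∈ idl (A := A) (B := B) 3 := by
        rw [← hC.sq]
        exact Ideal.mul_mem_mul h hC.dP
      have h8 := (mem_of_lat hcq hL (n := 3) (by norm_num)).2 h7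
      have h9 : emb c * Z - -Z = emb ((c + 1) * dD A B) * (om / (3 : ℕ)) := by
        rw [MUX.emb_mul hcq, MUX.emb_add hcq, MUX.emb_one hcq, hZ]
        push_cast
        ring
      rw [h9]
      exact h8
    have h7 : L.derivWeierstrassP (emb c * Z) = -L.derivWeierstrassP Z := by
      rw [NST.SGU.der_congr L h6, L.derivWeierstrassP_neg]
    rw [h7] at h5
    rcases hd with hd | hd
    · rw [hd, map_ofNat] at h5
      norm_num at h5
    · rw [hd, map_neg, map_ofNat] at h5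
      norm_num at h5

/-- the sign `d` -/
theorem sguR (hC : CQ A B) (h3 : V.valuation (3 : ℂ) < 1) (hv2 : V.valuation (2 : ℂ) = 1)
    (hL : IsLI (⊤ : Ideal (OO A B)) L om) {u e lam : ℂ} (hGd : GoodR V L u e lam) {m m' : ℕ}
    (hm3' : 3 ≤ m') (hvm : V.valuation (m' : ℂ) = 1) (hmm : m' ∣ m) {a : Ideal (OO A B)}
    {σ : ℂ ≃+* ℂ} {c : OO A B} {d : ℤ} (hcm : c - 1 ∈ idl (A := A) (B := B) m')
    (hd : d = 1 ∨ d = -1) (hAct : ActN σ m a L L (d * emb c)) (hσu : σ (u ^ 2) = u ^ 2)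
    (hlast : V.valuation (yu L u (om / m')) ≤ 1 →
      V.valuation (σ (yu L u (om / m')) - yu L u (om / m')) < 1) : σ u = d * u := by
  have hmem : ∀ z : ℂ, z ∈ L.lattice ↔ ∃ x : OO A B, z = om * emb x := by
    intro z
    rw [hL.mem]
    exact ⟨fun ⟨x, _, hx⟩ => ⟨x, hx⟩, fun ⟨x, hx⟩ => ⟨x, trivial, hx⟩⟩
  have hm0 : m' ≠ 0 := by omega
  have hom0 : om ≠ 0 := hL.om_ne
  have hmC : (m' : ℂ) ≠ 0 := Nat.cast_ne_zero.2 hm0
  -- good reduction
  have hlam : V.valuation (1 + lam) < 1 := by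
    by_contra hcon
    have h5 : 1 ≤ V.valuation (1 + lam) ^ 2 := one_le_pow₀ (not_lt.1 hcon)
    exact absurd (h5.trans hGd.lam1) (not_le.2 h3)
  obtain ⟨ξ, G, -⟩ := NSR.rgrl V L u e lam hv2 hlam ⟨hGd.u0, hGd.eq⟩
  have hT2 : ∀ z : ℂ, (m' : ℂ) * z ∈ L.lattice → InK V L (xu L u e) z → z ∈ L.lattice :=
    fun z hz hK => Pool.Agent.MUXV.mem_of_nat_mul G hK hvm hz
  set z : ℂ := om / m' with hz
  have hmz : (m' : ℂ) * z = om := by rw [hz]; field_simp
  have homL : om ∈ L.lattice := (hmem om).2 ⟨1, by rw [Pool.Agent.MUX.emb_one hC, mul_one]⟩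
  have hzz : z + z ∉ L.lattice := by
    intro h
    obtain ⟨x, hx⟩ := (hmem _).1 h
    have h1 : (m' : ℂ) * emb x = 2 := by
      have h2 : om * ((m' : ℂ) * emb x) = om * 2 := by
        linear_combination (-(m' : ℂ)) * hx + 2 * hmz
      exact mul_left_cancel₀ hom0 h2
    have h2 : ((m' : ℕ) : OO A B) * x = ((2 : ℕ) : OO A B) := by
      apply Pool.Agent.MUX.emb_inj hC
      rw [Pool.Agent.MUX.emb_mul hC, Pool.Agent.MUX.emb_natCast hC,
        Pool.Agent.MUX.emb_natCast hC, h1]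
      norm_num
    have h4 := congrArg nm h2
    rw [Pool.Agent.MUX.nm_mul hC] at h4
    have h5 := Pool.Agent.MUX.nm_intCast (A := A) (B := B) (m' : ℤ)
    have h6 := Pool.Agent.MUX.nm_intCast (A := A) (B := B) (2 : ℤ)
    rw [Int.cast_natCast] at h5
    have h7 : ((2 : ℤ) : OO A B) = ((2 : ℕ) : OO A B) := by push_cast; rfl
    rw [h7] at h6
    rw [h5, h6] at h4
    have h8 : ((m' : ℤ) ^ 2) ∣ 2 ^ 2 := ⟨_, h4.symm⟩
    have h9 := Int.le_of_dvd (by norm_num) h8
    have h10 : (3 : ℤ) ≤ m' := by exact_mod_cast hm3'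
    nlinarith
  have hzL : z ∉ L.lattice := fun h => hzz (add_mem h h)
  have hzK : ¬ InK V L (xu L u e) z := fun h => hzL (hT2 z (by rw [hmz]; exact homL) h)
  have hzzK : ¬ InK V L (xu L u e) (z + z) := fun h => hzz (hT2 (z + z) (by
    rw [mul_add, hmz]
    exact add_mem homL homL) h)
  -- `v (yu z) = 1`
  have hy1 : V.valuation (yu L u z) = 1 := by
    obtain ⟨hns, hxi⟩ := G.some z hzL
    have e1 := (Pool.Agent.MUXV.inE_iff G z).not.2 hzK
    have e2 := (Pool.Agent.MUXV.inE_iff G (z + z)).not.2 hzzK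
    rw [map_add, hxi] at e2
    rw [hxi] at e1
    exact Pool.Agent.MU3.Val.v_y_unit G.int G.two G.disc hns e1 e2
  -- the action
  have hmzL : (m : ℂ) * z ∈ L.lattice := by
    obtain ⟨k, rfl⟩ := hmm
    have h1 : ((m' * k : ℕ) : ℂ) * z = (k : ℕ) * om := by
      rw [← hmz]; push_cast; ring
    rw [h1, ← nsmul_eq_mul]
    exact nsmul_mem homL _
  obtain ⟨-, -, hP'⟩ := hAct.act z hmzL hzL
  have hcz : emb c * z - z ∈ L.lattice := by
    obtain ⟨y, hy⟩ := Ideal.mem_span_singleton'.1 hcm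
    refine (hmem _).2 ⟨y, ?_⟩
    have h1 : emb c - 1 = emb y * m' := by
      have h2 := congrArg emb hy
      rw [Pool.Agent.MUX.emb_mul hC, Pool.Agent.MUX.emb_natCast hC, Pool.Agent.MUX.emb_sub hC,
        Pool.Agent.MUX.emb_one hC] at h2
      exact h2.symm
    have h2 : emb c * z - z = (emb c - 1) * z := by ring
    rw [h2, h1, mul_assoc, hmz, mul_comm]
  have hder : σ (L.derivWeierstrassP z) = d * L.derivWeierstrassP z := by
    rw [← hP']
    rcases hd with hd | hd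
    · rw [hd]
      push_cast
      rw [one_mul, one_mul]
      exact NST.SGU.der_congr L hcz
    · rw [hd]
      push_cast
      have h1 : -1 * emb c * z = -(emb c * z) := by ring
      rw [h1, L.derivWeierstrassP_neg, NST.SGU.der_congr L hcz]
      ring
  have hu0 := hGd.u0
  have hd2 : (d : ℂ) * d = 1 := by
    rcases hd with hd | hd <;> rw [hd] <;> norm_num
  have hs : σ u = d * u ∨ σ u = -(d * u) := by
    have h1 : (σ u) ^ 2 = (d * u) ^ 2 := by
      rw [← map_pow, hσu]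
      linear_combination (-(u ^ 2)) * hd2
    exact sq_eq_sq_iff_eq_or_eq_neg.1 h1
  rcases hs with hs | hs
  · exact hs
  · exfalso
    have hσy : σ (yu L u z) = -yu L u z := by
      unfold yu
      rw [map_div₀, map_mul, map_pow, hs, hder, map_ofNat]
      have hd0 : (d : ℂ) ≠ 0 := fun h0 => by
        rw [h0, zero_mul] at hd2
        exact zero_ne_one hd2
      rw [div_eq_iff (by
        refine mul_ne_zero two_ne_zero (pow_ne_zero _ ?_)
        exact neg_ne_zero.2 (mul_ne_zero hd0 hu0))]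
      have h5 : (d : ℂ) ^ 3 = d := by linear_combination (d : ℂ) * hd2
      have h6 : (2 : ℂ) * (-(d * u)) ^ 3 = -(d * (2 * u ^ 3)) := by
        linear_combination (-2 * u ^ 3) * h5
      rw [h6]
      field_simp
    have h1 := hlast hy1.le
    rw [hσy] at h1
    have h2 : -yu L u z - yu L u z = -(2 * yu L u z) := by ring
    rw [h2, Valuation.map_neg, map_mul, hy1, G.two, one_mul] at h1
    exact lt_irrefl _ h1

/-- `u²`, `e` are in `RFE (2)` -/
theorem ueR (hC : CQ A B) (hL : IsNE b L om) {u e lam : ℂ} (hG : GoodR V L u e lam) :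
    u ^ 2 ∈ RFE (idl (A := A) (B := B) 2) ∧ e ∈ RFE (idl (A := A) (B := B) 2) := by
  have hu2' : u ^ 2 ≠ 0 := pow_ne_zero _ hG.u0
  obtain ⟨e1, -, -, -, -, ⟨w₁, hw1, hw1', he⟩, -⟩ :=
    Pool.Agent.NSR.tr_LGF L u e lam ⟨hG.u0, hG.eq⟩
  obtain ⟨w₂, hw2, hew⟩ := b_SUR L (e + u ^ 2)
  have hw2' : 2 * w₂ ∈ L.lattice := by
    apply (b_ZER L w₂ hw2).1
    have h1 := hG.eq w₂ hw2
    have h4 : (L.weierstrassP w₂ - e) / u ^ 2 = 1 := by
      rw [hew, add_sub_cancel_left, div_self hu2']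
    rw [h4, sub_self, mul_zero, zero_mul] at h1
    have h5 := (pow_eq_zero_iff two_ne_zero).1 h1
    rcases div_eq_zero_iff.1 h5 with h6 | h6
    · exact h6
    · exact absurd h6 (mul_ne_zero two_ne_zero (pow_ne_zero _ hG.u0))
  have hu : L.weierstrassP w₂ - L.weierstrassP w₁ = u ^ 2 := by
    rw [hew, he]
    ring
  have m1 := wp_mem (n := 2) hC hL hw1 (by push_cast; exact hw1')
  have m2 := wp_mem (n := 2) hC hL hw2 (by push_cast; exact hw2')
  refine ⟨?_, ?_⟩
  · rw [← hu]; exact sub_mem m2 m1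
  · rw [← he]; exact m1

/-- the elements outside `P` are congruent to units modulo `3` -/
lemma unitP (hC : CtxR3 A B P V) (hA : A = -1) (hB : B = 1) {c : OO A B} (hc : c ∉ P) :
    ∃ η η' : OO A B, η * η' = 1 ∧ (η ^ 3 = 1 ∨ η ^ 3 = -1) ∧
      c - η ∈ idl (A := A) (B := B) 3 := by
  apply unit3 hC.cq hA hB
  have h1 : IsCoprime (sp c) P := by
    rw [Ideal.isCoprime_iff_sup_eq]
    have h2 := hC.max.out.2 (sp c ⊔ P)
    apply h2
    refine lt_of_le_of_ne le_sup_right ?_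
    intro h
    apply hc
    rw [h]
    exact (le_sup_left : sp c ≤ _) (Ideal.mem_span_singleton_self c)
  rw [← hC.sq]
  exact h1.mul_right h1

/-! ### The result -/

theorem tyf3 : Sq_TYF_E := by
  intro A B P V f hS _ hT ι _ R u el lam hG w hw e e0 he hee r hr her i hi1 hi ka hka
  have hE := hS.case
  have hQ : CQ A B := hE.toCQ
  have hC : CtxR3 A B P V := Pool.Agent.ME3.t3_CTX A B P V hE hS.hB hS.hP hS.hV hT
    Pool.Agent.MER.s3_rfin
  have hu0 : u ≠ 0 := hG.u0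
  have hr0 : r ≠ 0 := by
    rintro rfl
    exact hr (dvd_zero 3)
  have hf2 : 2 ∣ f := hS.f2
  have hf2' : 2 ≤ f := Nat.le_of_dvd (Nat.pos_of_ne_zero hS.f0) hf2
  have h3f : 3 * f ≠ 0 := mul_ne_zero (by norm_num) hS.f0
  have hL := R.nl R.i0
  have hL0 : IsNE (⊤ : Ideal (OO A B)) (R.L R.i0) (R.om R.i0) := by
    have h1 := hL
    rw [R.b0] at h1
    exact h1
  have hom0 : R.om R.i0 ≠ 0 := hL.om_ne
  obtain ⟨hg2, hg3⟩ := nrm3 hS.hB hL.nrm
  have hgt : idl (A := A) (B := B) (3 * f) ≠ ⊤ := NST.VAL.idl_ne_top (by omega)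
  have hgb : idl (A := A) (B := B) (3 * f) ≠ ⊥ := idl_ne_bot hQ h3f
  have hcopb : IsCoprime (sp ((nI (R.b R.i0) : ℕ) : OO A B))
      (idl (A := A) (B := B) (3 * f)) := NST.VAL.coprime_idl (R.cop R.i0)
  obtain ⟨hu2, hel⟩ := ueR hQ hL hG
  have hua2 := alg_RFE hQ hT two_ne_zero hu2
  have hua : IsAlgebraic ℚ u := IsAlgebraic.of_pow two_pos hua2
  have hea := alg_RFE hQ hT two_ne_zero hel
  have hvu := vu4 hG hg2 hg3 hC.v3
  have hv2 : V.valuation (2 : ℂ) = 1 := by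
    have := hC.nat 2 (by norm_num)
    exact_mod_cast this
  -- the number `κ`
  obtain ⟨hY0, hY3, hY1⟩ := kap_ne hQ hE.hA hS.hB hL0.toIsLI
  obtain ⟨κ, hκ⟩ : ∃ κ, κ = (R.L R.i0).weierstrassP (R.om R.i0 / 3) := ⟨_, rfl⟩
  rw [← hκ] at hY1
  have hκ3 : κ ^ 3 = -4 := by
    have h1 := kap_cub hG hg2 hg3 hY0 hY3
    rw [← hκ] at h1
    apply mul_left_cancel₀ hY1
    linear_combination h1
  have hvκ : V.valuation κ = 1 := by
    have h1 : V.valuation κ ^ 3 = 1 := by
      have h4 : (-4 : ℂ) = -(2 * 2) := by norm_num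
      rw [← map_pow, hκ3, h4, Valuation.map_neg, map_mul, hv2, one_mul]
    exact (pow_eq_one_iff.1 h1).resolve_right (by norm_num)
  have hκa : IsAlgebraic ℚ κ := by
    rw [hκ]
    exact alg_RFE hQ hT three_ne_zero (wp_mem hQ hL hY0 (by exact_mod_cast hY3))
  -- `w` on the units
  have hwm1 : w (-1) = -1 := by
    rw [hw.unit (-1) (isUnit_one.neg), MUX.emb_neg hQ, MUX.emb_one hQ]
  -- the values
  obtain ⟨Q, hQdef⟩ : ∃ Q : OnePoint ℚ × OnePoint ℚ → ℂ,
    Q = fun q => PhiI (R.b R.i0) e q.1 q.2 / (3 * u * R.om R.i0) := ⟨_, rfl⟩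
  obtain ⟨S, N00, hN00, hSD0, hgen⟩ := fgE hQ hL.b_ne hgb he.toIsEI (3 * u * R.om R.i0)
  have hgen' : ∀ x y, Q (x, y) ∈ AddSubgroup.closure
      (Q '' (S : Set (OnePoint ℚ × OnePoint ℚ))) := by
    rw [hQdef]
    exact hgen
  obtain ⟨j, N, hN3, hjN⟩ := Nat.exists_eq_pow_mul_and_not_dvd hN00 3 (by norm_num)
  rw [hjN] at hSD0
  have hN0 : N ≠ 0 := by
    rintro rfl
    exact hN3 (dvd_zero 3)
  obtain ⟨m', hm'⟩ : ∃ m', m' = f * (N * 5) := ⟨_, rfl⟩
  have hm'0 : m' ≠ 0 := by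
    rw [hm']; exact mul_ne_zero hS.f0 (mul_ne_zero hN0 (by norm_num))
  have hm'3 : ¬ 3 ∣ m' := by
    intro h
    rw [hm'] at h
    rcases (Nat.Prime.dvd_mul Nat.prime_three).1 h with h | h
    · exact hS.fp h
    · rcases (Nat.Prime.dvd_mul Nat.prime_three).1 h with h | h
      · exact hN3 h
      · omega
  have hm'C : (m' : ℂ) ≠ 0 := by exact_mod_cast hm'0
  have hfm : f ∣ m' := by rw [hm']; exact Dvd.intro _ rfl
  have h3m' : 3 ≤ m' := by
    have h5 : 5 ∣ m' := by rw [hm']; exact (dvd_mul_left 5 N).mul_left f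
    have := Nat.le_of_dvd (Nat.pos_of_ne_zero hm'0) h5
    omega
  obtain ⟨m, hm⟩ : ∃ m, m = 3 ^ (j + 1) * m' := ⟨_, rfl⟩
  have hm0 : m ≠ 0 := by rw [hm]; exact mul_ne_zero (by positivity) hm'0
  have h3m : 3 ∣ m := by
    rw [hm]
    exact (dvd_pow_self 3 (Nat.succ_ne_zero j)).mul_right _
  have hmm : m' ∣ m := by rw [hm]; exact dvd_mul_left _ _
  have hpm : 3 * f ∣ m := by
    rw [hm, pow_succ, mul_assoc]
    exact (mul_dvd_mul_left 3 hfm).mul_left _
  have hdvd : 3 ^ j * N ∣ m := by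
    rw [hm, hm']
    refine mul_dvd_mul (pow_dvd_pow 3 (Nat.le_succ j)) ?_
    exact (Dvd.intro _ rfl : N ∣ N * 5).mul_left f
  -- the point of level `m'`
  have hm'1 : m' ≠ 1 := by omega
  have hz1 : R.om R.i0 / m' ∉ (R.L R.i0).lattice := by
    intro h
    obtain ⟨x, -, hx⟩ := (hL.mem _).1 h
    apply NST.TYF.nat_mul_ne_one hQ hm'1 x
    apply MUX.emb_inj hQ
    rw [MUX.emb_mul hQ, MUX.emb_natCast hQ, MUX.emb_one hQ]
    field_simp at hx
    rw [← hx]
  have hz2 : (m' : ℂ) * (R.om R.i0 / m') ∈ (R.L R.i0).lattice := by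
    rw [mul_div_cancel₀ _ hm'C]
    exact (hL0.mem _).2 ⟨1, trivial, by rw [MUX.emb_one hQ, mul_one]⟩
  have hYa := (coordE hQ hT hL hua2 hea m' hm'0 _ hz1 hz2).2.1
  -- `w` and `e` have values in roots of unity
  have hw6 : ∀ x, w x ≠ 0 → w x ^ 6 = 1 := by
    intro x hx
    apply hw.pow
    intro h
    exact hx (hw.zero x h)
  have her6 : ∀ x, e x ≠ 0 → e x ^ (6 * r) = 1 := by
    intro x hx
    rw [hee] at hx ⊢
    rw [mul_pow, pow_mul (w x), hw6 x (right_ne_zero_of_mul hx), one_pow, mul_one, mul_comm 6,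
      pow_mul, her x (left_ne_zero_of_mul hx), one_pow]
  have h6r0 : 6 * r ≠ 0 := mul_ne_zero (by norm_num) hr0
  have hQalg : ∀ q, IsAlgebraic ℚ (Q q) := by
    intro q
    have h1 := algE hE hT hL he.toIsEI hgt h3f (natCast_mem_idl (3 * f)) hcopb h6r0 her6 q.1 q.2
    have h3 : Q q = PhiI (R.b R.i0) e q.1 q.2 / R.om R.i0 * (3 * u)⁻¹ := by
      rw [hQdef]
      field_simp
    have h4 : IsAlgebraic ℚ (3 : ℂ) := by simpa using NST.ALT.alg_num 3
    rw [h3]
    exact h1.mul (h4.mul hua).inv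
  -- the field
  set Ts : Set ℂ := (Q '' (S : Set (OnePoint ℚ × OnePoint ℚ))) ∪
    ({u, κ, yu (R.L R.i0) u (R.om R.i0 / m')} ∪
      ((Polynomial.nthRootsFinset r (1 : ℂ) : Finset ℂ) : Set ℂ)) with hTs
  have hTfin : Ts.Finite := by
    refine Set.Finite.union ?_ (Set.Finite.union ?_ ?_)
    · exact (Finset.finite_toSet S).image _
    · exact Set.toFinite _
    · exact Finset.finite_toSet _
  have hTalg : ∀ t ∈ Ts, IsAlgebraic ℚ t := by
    rintro t (⟨q, -, rfl⟩ | (ht | ht))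
    · exact hQalg q
    · rcases ht with rfl | ht
      · exact hua
      · rcases ht with rfl | ht
        · exact hκa
        · rw [Set.mem_singleton_iff] at ht
          rw [ht]
          exact hYa
    · rw [Finset.mem_coe, Polynomial.mem_nthRootsFinset (Nat.pos_of_ne_zero hr0)] at ht
      refine ⟨Polynomial.X ^ r - 1, Polynomial.X_pow_sub_C_ne_zero
        (Nat.pos_of_ne_zero hr0) (1 : ℚ), ?_⟩
      simp [ht]
  obtain ⟨F, hFf, hFg, hEF, hTF⟩ := nt_GLC A B hQ (RFE (idl (A := A) (B := B) m'))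
    (hT.fin _ (idl_ne_bot hQ hm'0)) Ts hTfin hTalg
  have huF : u ∈ F := hTF (Or.inr (Or.inl (Or.inl rfl)))
  have hκF : κ ∈ F := hTF (Or.inr (Or.inl (Or.inr (Or.inl rfl))))
  have hyF : yu (R.L R.i0) u (R.om R.i0 / m') ∈ F :=
    hTF (Or.inr (Or.inl (Or.inr (Or.inr rfl))))
  have hrF : ∀ z : ℂ, z ^ r = 1 → z ∈ F := fun z hz => hTF (Or.inr (Or.inr (by
    rw [Finset.mem_coe, Polynomial.mem_nthRootsFinset (Nat.pos_of_ne_zero hr0)]
    exact hz)))
  have hunf : ∀ z ∈ KIn A B V F, V.valuation z < 1 →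
      V.valuation z ^ 2 ≤ V.valuation (3 : ℂ) := by
    intro z hz hz1
    have h2 := Pool.Agent.N2T.unfP hQ hS.hV hC.dP (Pool.Agent.ME3.UNR.dD_not hC) F z hz hz1
    rw [← hC.vd]
    gcongr
  -- the multiplier
  obtain ⟨tau, htau⟩ : ∃ tau, tau = u ^ (1 - i) * κ := ⟨_, rfl⟩
  have htau0 : tau ≠ 0 := by
    rw [htau]
    exact mul_ne_zero (pow_ne_zero _ hu0) hY1
  have htauF : tau ∈ F := by
    rw [htau]
    exact F.mul_mem (pow_mem huF (1 - i)) hκF
  have hvtau : V.valuation tau ^ 4 = V.valuation (3 : ℂ) ^ (1 - i) := by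
    rw [htau, map_mul, hvκ, mul_one, map_pow, ← pow_mul, mul_comm, pow_mul, hvu]
  -- the key point
  have hkey : ∀ σ : ℂ ≃+* ℂ, InI A B V (F : Set ℂ) σ → ∀ q ∈ S,
      σ (Q q * tau) = Q q * tau := by
    intro σ hσ q hq
    have hRF : ∀ y ∈ RFE (idl (A := A) (B := B) m'), σ y = y :=
      hC.iner m' hm'0 (hf2.trans hfm) hm'3 σ hσ.fix (fun y hy hyV => hσ.iner y (hEF hy) hyV)
    have hle : (RFE (idl (A := A) (B := B) 2) : IntermediateField (kk A B) ℂ) ≤
        RFE (idl (A := A) (B := B) m') := hT.mono _ _ (idl_mono (hf2.trans hfm))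
    have hsu2 : σ (u ^ 2) = u ^ 2 := hRF _ (hle hu2)
    obtain ⟨c0, -, hcop, hact, hz⟩ := actE hE hT hm0 ((hf2.trans hfm).trans hmm) hσ.fix
    have hA := hact _ _ _ hL
    have hc0P : c0 ∉ P := NSTR.TYF.not_mem hS.hP h3m hcop
    -- the sign
    have hmz : (m : ℂ) * (R.om R.i0 / m') ∈ (R.L R.i0).lattice := by
      have h1 : (m : ℂ) = ((3 ^ (j + 1) : ℕ) : ℂ) * (m' : ℂ) := by
        rw [hm]
        push_cast
        ring
      rw [h1, mul_assoc, ← nsmul_eq_mul]
      exact nsmul_mem hz2 _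
    obtain ⟨h4, h5, -⟩ := hA.act _ hmz hz1
    have hpm1 := cong_pm hQ (by omega : 2 ≤ m') (σ := σ) hL0 (c := c0) h5.symm h4
      (hRF _ (wp_mem hQ hL hz1 hz2))
    obtain ⟨d, c, hd, hc0, hcm⟩ : ∃ (d : ℤ) (c : OO A B), (d = 1 ∨ d = -1) ∧
        c0 = (d : OO A B) * c ∧ c - 1 ∈ idl (A := A) (B := B) m' := by
      rcases hpm1 with h | h
      · exact ⟨1, c0, Or.inl rfl, by rw [Int.cast_one, one_mul], h⟩
      · refine ⟨-1, -c0, Or.inr rfl, by rw [Int.cast_neg, Int.cast_one]; ring, ?_⟩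
        have h6 : -c0 - 1 = -(c0 + 1) := by ring
        rw [h6]
        exact (Submodule.neg_mem_iff _).2 h
    have hembc : emb c0 = (d : ℂ) * emb c := by
      rw [hc0, MUX.emb_mul hQ, MUX.emb_intCast hQ]
    have hec0 : e c0 = (d : ℂ) * e c := by
      rw [hc0, he.mul]
      congr 1
      rcases hd with rfl | rfl
      · rw [Int.cast_one, Int.cast_one, he.one]
      · rw [Int.cast_neg, Int.cast_one, Int.cast_neg, Int.cast_one, he.neg]
    have hwc0 : w c0 = (d : ℂ) * w c := by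
      rw [hc0, hw.mul]
      congr 1
      rcases hd with rfl | rfl
      · rw [Int.cast_one, Int.cast_one, hw.one]
      · rw [Int.cast_neg, Int.cast_one, Int.cast_neg, Int.cast_one, hwm1]
    have hcP : c ∉ P := by
      intro h
      apply hc0P
      rw [hc0]
      exact P.mul_mem_left _ h
    have hdd : (d : ℂ) * d = 1 := by
      rcases hd with rfl | rfl <;> norm_num
    have hd0 : (d : ℂ) ≠ 0 := left_ne_zero_of_mul_eq_one hdd
    have hA' : ActN σ m (sp c0) (R.L R.i0) (R.L R.i0) ((d : ℂ) * emb c) := by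
      rw [← hembc]
      exact hA
    have hsu : σ u = d * u := by
      refine sguR hQ hC.v3 hv2 hL0.toIsLI hG h3m' (hC.nat m' hm'3) hmm hcm hd hA' hsu2 ?_
      intro h
      have h1 := hσ.iner _ hyF ((V.valuation_le_one_iff _).1 h)
      rwa [ValuationSubring.mem_nonunits_iff] at h1
    -- `w(c)`
    obtain ⟨η, η', hη, hη3, hcη⟩ := unitP hC hE.hA hS.hB hc0P
    have hwη : w c0 = emb η := by
      rw [hw.per _ _ hcη]
      exact hw.unit η (IsUnit.of_mul_eq_one η' hη)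
    have hc1P := one_P hC hE.hA hS.hB hL0.toIsLI hL.nrm h3m hc0P hA
    have hη1 : η ^ 3 = 1 := by
      rcases hη3 with h | h
      · exact h
      · exfalso
        have h3P : (3 : OO A B) ∈ P := by
          have := hS.hP.mem
          exact_mod_cast this
        have h6 : η - 1 ∈ P := by
          have h7 : c0 - η ∈ P := by
            obtain ⟨t, ht⟩ := Ideal.mem_span_singleton'.1 hcη
            rw [← ht]
            exact P.mul_mem_left _ hS.hP.mem
          have h8 : η - 1 = (c0 - 1) - (c0 - η) := by ring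
          rw [h8]
          exact P.sub_mem hc1P h7
        have h7 : η ^ 3 - 1 ∈ P := by
          have h8 : η ^ 3 - 1 = (η ^ 2 + η + 1) * (η - 1) := by ring
          rw [h8]
          exact P.mul_mem_left _ h6
        rw [h] at h7
        have h8 : (1 : OO A B) ∈ P := by
          have h9 : (1 : OO A B) = 3 + (-1 - 1) := by ring
          rw [h9]
          exact P.add_mem h3P h7
        exact hS.hP.prime.ne_top ((Ideal.eq_top_iff_one _).2 h8)
    have hwc : w c = (d : ℂ) * emb η := by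
      have h6 : (d : ℂ) * w c0 = w c := by
        rw [hwc0, ← mul_assoc, hdd, one_mul]
      rw [← h6, hwη]
    have hη3' : emb η ^ 3 = 1 := by
      rw [← MUX.emb_pow hQ, hη1, MUX.emb_one hQ]
    have hη0 : emb η ≠ 0 := by
      intro h
      rw [h] at hη3'
      norm_num at hη3'
    -- `σ κ`
    have hsκ : σ κ = emb η * κ := by
      have h6 : (m : ℂ) * (R.om R.i0 / 3) ∈ (R.L R.i0).lattice := by
        obtain ⟨k, hk⟩ := h3m
        have h7 := nsmul_mem hY3 k
        rw [nsmul_eq_mul] at h7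
        have h8 : (m : ℂ) * (R.om R.i0 / 3) = (k : ℂ) * (3 * (R.om R.i0 / 3)) := by
          rw [hk]
          push_cast
          ring
        rw [h8]
        exact h7
      obtain ⟨-, h7, -⟩ := hA.act _ h6 hY0
      rw [← hκ] at h7
      rw [← h7, (wp_cong hQ hL.toIsLI hcη (w := R.om R.i0 / 3) (by exact_mod_cast hY3)).1,
        (unit_hom hQ hL.toIsLI hη).2.2.1, ← hκ, div_eq_iff (pow_ne_zero 2 hη0)]
      linear_combination (-κ) * hη3'
    -- the values of `e`
    have hroot : ∀ z : ℂ, (z = 0 ∨ z ^ r = 1) → σ z = z := by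
      refine (NST.x_RTU V hC.v3 r hr).2 σ ?_
      intro z hz
      have hz1 : V.valuation z = 1 := NST.RTU.v_root hr0 hz
      have h1 := hσ.iner z (hrF z hz) ((V.valuation_le_one_iff _).1 hz1.le)
      rwa [ValuationSubring.mem_nonunits_iff] at h1
    have hsw : ∀ x, σ (w x) = w x := by
      intro x
      by_cases hx : x ∈ P
      · rw [hw.zero x hx, map_zero]
      · obtain ⟨ζ, ζ', hζ, -, hxζ⟩ := unitP hC hE.hA hS.hB hx
        rw [hw.per _ _ hxζ, hw.unit ζ (IsUnit.of_mul_eq_one ζ' hζ)]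
        exact Pool.Agent.MUXC.FGL.fix hσ.fix _ (Pool.Agent.MU3A.emb_mem ζ)
    have hse : ∀ x, σ (e x) = e x := by
      intro x
      rw [hee, map_mul, hsw]
      congr 1
      apply hroot
      by_cases hx : e0 x = 0
      · exact Or.inl hx
      · exact Or.inr (her x hx)
    have h1 := valE hQ hL.toIsLI hm0 hA hz he.toIsEI hgt
      (idl_mono hpm (natCast_mem_idl m)) hcopb hse q.1 q.2
      (dn_mono hdvd (hSD0 q hq).1) (dn_mono hdvd (hSD0 q hq).2)
    have h3 : e c = w c ^ (3 * i + 1) := hi c (idl_mono hfm hcm) hcP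
    obtain ⟨x, hx⟩ : ∃ x, x = PhiI (R.b R.i0) e q.1 q.2 / R.om R.i0 := ⟨_, rfl⟩
    rw [← hx] at h1
    have h7 : Q q = x / (3 * u) := by
      rw [hQdef, hx]
      field_simp
    have hec : e c0 = (d : ℂ) * w c ^ (3 * i + 1) := by rw [hec0, h3]
    have hsx : σ x = x / e c0 := by
      have h8 : e c0 ≠ 0 := by
        rw [hec, hwc]
        exact mul_ne_zero hd0 (pow_ne_zero _ (mul_ne_zero hd0 hη0))
      rw [eq_div_iff h8, mul_comm]
      exact h1
    rw [h7, htau, map_mul, map_div₀, map_mul, map_mul, map_pow, map_ofNat, hsu, hsκ, hsx, hec, hwc]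
    have hi01 : i = 0 ∨ i = 1 := by omega
    have hd4 : (d : ℂ) ^ 4 = 1 := by
      have : (d : ℂ) ^ 4 = ((d : ℂ) * d) ^ 2 := by ring
      rw [this, hdd, one_pow]
    rcases hi01 with rfl | rfl
    · field_simp
      norm_num
      linear_combination (-(x * emb η * u * d)) * hdd
    · have h8 : emb η ^ 4 = emb η := by linear_combination emb η * hη3'
      norm_num
      rw [mul_pow, h8, hd4, one_mul]
      field_simp
      linear_combination (-x) * hdd
  have hi0 : ∀ i, i = R.i0 := one_elt hE R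
  have hQU : ∀ x y, PhiKE R e ka x y / (3 * u * R.om R.i0) = ka R.i0 * Q (x, y) := by
    intro x y
    unfold PhiKE
    rw [Finset.sum_eq_single R.i0 (fun i _ hi => absurd (hi0 i) hi)
      (fun h => absurd (Finset.mem_univ _) h), hQdef]
    field_simp
  have hvk : V.valuation (ka R.i0) = 1 := NST.RTU.v_root hr0 (hka R.i0)
  refine ⟨ka R.i0 * tau⁻¹, KIn A B V F, ?_, hunf, ?_⟩
  · have hle : AddSubgroup.closure (Q '' (S : Set (OnePoint ℚ × OnePoint ℚ))) ≤
        ((KIn A B V F).toAddSubgroup).map (AddMonoidHom.mulLeft (tau⁻¹)) := by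
      rw [AddSubgroup.closure_le]
      rintro _ ⟨q, hq, rfl⟩
      refine ⟨Q q * tau, ⟨?_, fun σ hσ => hkey σ hσ q hq⟩, ?_⟩
      · exact F.mul_mem (hTF (Or.inl ⟨q, hq, rfl⟩)) htauF
      · rw [AddMonoidHom.coe_mulLeft]
        field_simp
    intro x y
    obtain ⟨w', hw', hw2⟩ := hle (hgen' x y)
    refine ⟨w', hw', ?_⟩
    rw [hQU, ← hw2, AddMonoidHom.coe_mulLeft]
    ring
  · rw [map_mul, hvk, one_mul, map_inv₀, inv_pow, hvtau]
    exact inv_mul_cancel₀ (pow_ne_zero _ (V.valuation.ne_zero_iff.2 (by norm_num)))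

end

end Pool.Agent.MET


end
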