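import Mathlib
import Pool.Agent.MVF.C150

/-! Parts: NS.G_Bin, NS.GR_TWR, NS.GR_GJP, NS.GR_COL, NS.GR_BNP, NS.G_Gj -/

namespace Pool.Agent.NSG.NLeg
end Pool.Agent.NSG.NLeg
namespace Pool.Agent.NSGR.BNP
end Pool.Agent.NSGR.BNP
namespace Pool.Agent.NSGR.COL
end Pool.Agent.NSGR.COL

section

/-!
# NS, block GN: integrality of a series whose integral is a modular point, Legendre form (helper6; from helper76's N_BIN)
-/

set_option autoImplicit false

namespace Pool.Agent.NSG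

open _root_.MU3 _root_.Pool.Agent.MU3A _root_.Pool.Agent.MU3B _root_.Pool.Agent.MU3Q _root_.Pool.Agent.MUX _root_.Pool.Agent.NS
  _root_.Pool.Agent.MUXN _root_.Pool.Agent.MuSym
  OnePoint UpperHalfPlane
open scoped MatrixGroups

noncomputable section

namespace NLeg

open _root_.Pool.Agent.MUXN.NBin

/-- the curve over a ring -/
def Wl {O : Type} [CommRing O] (κ : O) : WeierstrassCurve O := ⟨0, -(1 + κ), 0, κ, 0⟩

section Wl

variable {O : Type} [CommRing O] (κ : O)

theorem Wl_Δ : (Wl κ).Δ = 2 ^ 4 * κ ^ 2 * (1 - κ) ^ 2 := by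
  simp only [Wl, WeierstrassCurve.Δ, WeierstrassCurve.b₂, WeierstrassCurve.b₄,
    WeierstrassCurve.b₆, WeierstrassCurve.b₈]
  ring

theorem Wl_b₂ : (Wl κ).b₂ = -4 * (1 + κ) := by
  simp only [Wl, WeierstrassCurve.b₂]
  ring

theorem Wl_b₄ : (Wl κ).b₄ = 2 * κ := by
  simp only [Wl, WeierstrassCurve.b₄]
  ring

theorem Wl_b₆ : (Wl κ).b₆ = 0 := by
  simp only [Wl, WeierstrassCurve.b₆]
  ring

theorem pull {ι : O →+* ℂ} (hι : Function.Injective ι) (c : O) (P Q G : PowerSeries O)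
    (h : PowerSeries.C (ι c) ^ 2 * (PowerSeries.map ι Q * thetaD (PowerSeries.map ι P) -
        PowerSeries.map ι P * thetaD (PowerSeries.map ι Q)) ^ 2 =
      PowerSeries.map ι Q * (4 * PowerSeries.map ι P ^ 3 -
        4 * (1 + PowerSeries.C (ι κ)) * PowerSeries.map ι P ^ 2 * PowerSeries.map ι Q +
        4 * PowerSeries.C (ι κ) * PowerSeries.map ι P * PowerSeries.map ι Q ^ 2) *
        PowerSeries.map ι G ^ 2) :
    PowerSeries.C c ^ 2 * (Q * tth P - P * tth Q) ^ 2 =
      Q * (4 * P ^ 3 + PowerSeries.C (Wl κ).b₂ * P ^ 2 * Q + 2 * PowerSeries.C (Wl κ).b₄ * P * Q ^ 2 +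
        PowerSeries.C (Wl κ).b₆ * Q ^ 3) * G ^ 2 := by
  apply mapι_inj hι
  rw [Wl_b₂, Wl_b₄, Wl_b₆]
  simp only [map_mul, map_pow, map_sub, map_add, map_tth, map_ofNat, map_neg, map_one, map_zero,
    PowerSeries.map_C]
  linear_combination h

end Wl

end NLeg

open _root_.Pool.Agent.NSG.NLeg _root_.Pool.Agent.MUXN.NBin in
/-- integrality of a series whose integral is a modular point of a curve in Legendre form with good reduction -/
theorem bin_leg (hWQ : St_WQ) (hGP : Sg_GP) (hDV : Sg_DV) (K : Subfield ℂ) [NumberField K]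
    (V : ValuationSubring ℂ) (p : ℕ) (hp : p.Prime) (hpV : (p : ℂ) ∈ V.nonunits)
    (h2V : V.valuation (2 : ℂ) = 1) (N : ℕ) (hN : 0 < N)
    (hζ : Complex.exp (2 * Real.pi * Complex.I / N) ∈ K) (L : PeriodPair) (e lam : ℂ)
    (heq : ∀ z ∉ L.lattice, L.derivWeierstrassP z ^ 2 / 4 =
      (L.weierstrassP z - e) * (L.weierstrassP z - e - 1) * (L.weierstrassP z - e - lam))
    (hκK : lam ∈ K) (hκ : V.valuation lam = 1) (hκ' : V.valuation (1 - lam) = 1)
    (Z : ℍ → ℂ) (z : PowerSeries ℂ) (hQS : QS Z z)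
    (hzK : ∀ n, PowerSeries.coeff n z ∈ K) (hz0 : PowerSeries.coeff 0 z = 0)
    (hden : ∃ c ∈ K, c ≠ 0 ∧ c ∈ V ∧ ∀ n : ℕ, c * (n * PowerSeries.coeff n z) ∈ V)
    (hcusp : ∀ γ : SL(2, ℤ), ∃ (C : ℂ) (w : ℕ → ℂ), ∀ τ : ℍ, HasSum (fun n : ℕ => w n *
      Complex.exp (2 * Real.pi * Complex.I * (τ : ℂ) / N) ^ (n + 1)) (Z (γ • τ) - C))
    (hper : ∀ γ ∈ CongruenceSubgroup.Gamma1 N, ∀ τ : ℍ, Z (γ • τ) - Z τ ∈ L.lattice) :
    PowerSeries.coeff 1 z ∈ V := by
  by_cases h1 : PowerSeries.coeff 1 z = 0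
  · rw [h1]
    exact V.zero_mem
  have hκV : lam ∈ V := (V.valuation_le_one_iff _).1 hκ.le
  have hDVR := hDV K V p hp hpV
  obtain ⟨c, hcK, hc0, hcV, hcz⟩ := hden
  obtain ⟨S, -, -, -, S2, ode, A, hA, B, hB, hA0, hAS⟩ := hWQ K V N L (-e) (-(1 + lam))
    lam 0 Z z hN hζ (K.neg_mem (K.add_mem K.one_mem hκK)) hκK K.zero_mem (by
      intro u hu
      rw [heq u hu]
      ring) hzK hz0 h1 hQS hcusp hper
  have hS0 : S ≠ 0 := by
    rintro rfl
    rw [map_zero] at S2
    exact h1 (pow_eq_zero_iff two_ne_zero |>.1 S2.symm)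
  have hB0 : B ≠ 0 := by
    rw [← hAS]
    exact mul_ne_zero hA0 hS0
  have hthS : thetaD S ≠ 0 := by
    intro h
    have h2 := congrArg (PowerSeries.coeff 2) h
    rw [map_zero, thetaD, PowerSeries.coeff_mk, S2] at h2
    have h3 : PowerSeries.coeff 1 z ^ 2 ≠ 0 := pow_ne_zero 2 h1
    rcases mul_eq_zero.1 h2 with h5 | h5
    · norm_num at h5
    · exact h3 h5
  -- the wronskian
  have hW1 : A * thetaD B - B * thetaD A = A ^ 2 * thetaD S := by
    rw [← hAS, thetaD_mul]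
    ring
  have hG : PowerSeries.C c * thetaD z ∈ PP K V := by
    intro n
    rw [PowerSeries.coeff_C_mul, thetaD, PowerSeries.coeff_mk]
    exact ⟨K.mul_mem hcK (K.mul_mem (natCast_mem K n) (hzK n)), hcz n⟩
  have hode : PowerSeries.C c ^ 2 * (B * thetaD A - A * thetaD B) ^ 2 =
      B * (4 * A ^ 3 - 4 * (1 + PowerSeries.C lam) * A ^ 2 * B + 4 * PowerSeries.C lam * A * B ^ 2) *
        (PowerSeries.C c * thetaD z) ^ 2 := by
    have e1 : (B * thetaD A - A * thetaD B) ^ 2 = A ^ 4 * thetaD S ^ 2 := by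
      calc (B * thetaD A - A * thetaD B) ^ 2 = (A * thetaD B - B * thetaD A) ^ 2 := by ring
        _ = _ := by rw [hW1]; ring
    rw [e1, ode, ← hAS, PowerSeries.smul_eq_C_mul, PowerSeries.smul_eq_C_mul,
      PowerSeries.smul_eq_C_mul, map_neg, map_add, map_one, map_zero]
    ring
  -- the ring
  have h2K : (2 : ℂ) ∈ K := by exact_mod_cast natCast_mem K 2
  have h2V' : (2 : ℂ) ∈ V := (V.valuation_le_one_iff _).1 h2V.le
  have hu : IsUnit (Wl (el lam hκK hκV)).Δ := by
    rw [Wl_Δ]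
    have h5 : (1 - lam : ℂ) ∈ K := K.sub_mem K.one_mem hκK
    have h6 : (1 - lam : ℂ) ∈ V := (V.valuation_le_one_iff _).1 hκ'.le
    have h7 : (1 - el lam hκK hκV) = el (1 - lam) h5 h6 := by
      apply io_inj K V
      rw [io_el, map_sub, map_one, io_el]
    have h8 : (2 : ↥(V.comap K.subtype)) = el 2 h2K h2V' := by
      apply io_inj K V
      rw [io_el, map_ofNat]
    rw [h7, h8]
    exact (((el_unit h2K h2V' h2V).pow 4).mul ((el_unit hκK hκV hκ).pow 2)).mul
      ((el_unit h5 h6 hκ').pow 2)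
  have h20 : (2 : ↥(V.comap K.subtype)) ≠ 0 := by
    intro h
    have := congrArg (io K V) h
    rw [map_ofNat, map_zero] at this
    norm_num at this
  have hdvd := hGP ↥(V.comap K.subtype) h20 (Wl (el lam hκK hκV)) hu tth
    (fun f n => by rw [tth, PowerSeries.coeff_mk]) (lft A hA)
    (lft B hB) (lft _ hG) (el c hcK hcV) (by
      intro h
      have := congrArg (io K V) h
      rw [io_el, map_zero] at this
      exact hc0 this) (by
      intro h
      have := congrArg (PowerSeries.map (io K V)) h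
      rw [map_lft, map_zero] at this
      exact hB0 this) (by
      intro h
      have := congrArg (PowerSeries.map (io K V)) h
      rw [map_sub, map_mul, map_mul, map_tth, map_tth, map_lft, map_lft, map_zero] at this
      have h8 : A ^ 2 * thetaD S = 0 := by
        rw [← hW1]
        linear_combination -this
      exact mul_ne_zero (pow_ne_zero 2 hA0) hthS h8) (by
      apply NLeg.pull _ (io_inj K V)
      rw [map_lft, map_lft, map_lft]
      exact hode)
  obtain ⟨G', hG'⟩ := hdvd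
  have h9 := congrArg (PowerSeries.coeff 1) hG'
  rw [PowerSeries.coeff_C_mul] at h9
  have h10 := congrArg (io K V) h9
  rw [map_mul, io_el, lft, PowerSeries.coeff_mk, io_el, PowerSeries.coeff_C_mul, thetaD,
    PowerSeries.coeff_mk, Nat.cast_one, one_mul] at h10
  rw [mul_left_cancel₀ hc0 h10]
  exact io_mem _

end

end Pool.Agent.NSG


end

section

/-!
# MUX-NS, block GR, module TWR: the two halves of the projector (helper78)
-/

set_option autoImplicit false

namespace Pool.Agent.NSGR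

open _root_.MU3 _root_.Pool.Agent.MU3A _root_.Pool.Agent.MU3B _root_.Pool.Agent.MU3Q _root_.Pool.Agent.MUX _root_.Pool.Agent.NS
  _root_.Pool.Agent.NSRD _root_.Pool.Agent.NSG _root_.Pool.Agent.MUXN _root_.Pool.Agent.MuSym OnePoint UpperHalfPlane
open _root_.Pool.Agent.MUXF (qb)
open scoped MatrixGroups

noncomputable section

namespace TWR

/-- the coefficients of the statement are those of `F_PRJ` -/
lemma cf_eq (q : ℕ) (φ : ℤ → ℂ) (a : ℕ) :
    ((1 / q) * ∑ n ∈ Finset.range q, φ n *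
        Complex.exp (2 * Real.pi * Complex.I * (-(a * n) / q))) = MUXF.PRJ.cf q φ a := by
  unfold MUXF.PRJ.cf
  congr 1
  refine Finset.sum_congr rfl fun n _ => ?_
  congr 1
  unfold MU3F.ex
  congr 2
  push_cast
  ring

end TWR

theorem tv_TWR : Sv_TWR := by
  intro A B hc b g e hb hg he q φ hq hφ
  have hF : MUXF.CQ A B := ⟨hc.hB, hc.neg, hc.fund1, hc.fund0⟩
  have heF : MUXF.IsEI g e := ⟨he.one, he.mul, he.per, he.supp, he.neg⟩
  obtain ⟨-, C, -, hC⟩ := MUXF.xf_BDD A B hF g e hg heF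
  simp only [TWR.cf_eq]
  constructor
  · intro hv x y
    have a1 : ∀ r : ℚ, ∑ a ∈ Finset.range q, MUXF.PRJ.cf q φ a *
        MUXF.IvI b e (r + (1 : ℤ) * (a / q)) = 1 * MUXF.IvI b e r :=
      MUXF.PRJ.twistI MUXF.xf_QB MUXF.xf_ALG MUXF.xf_TSM MUXF.xf_ITG hF hb hg heF hC hq hφ 1 1 (by
        intro x hx hx0
        rw [one_mul]
        exact hv x hx hx0)
    have b1 : ∀ x : OnePoint ℚ, ∑ a ∈ Finset.range q, MUXF.PRJ.cf q φ a *
        MUXF.IcI b e (mob q a 0 q x) = MUXF.IcI b e x := by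
      intro x
      induction x using OnePoint.rec with
      | infty =>
        have e1 : ∀ a : ℤ, MUXF.IcI b e (mob q a 0 q ∞) = 0 := by
          intro a
          rw [MUXF.PRJ.mob2 _ _ _ _ rfl]
          rfl
        have e2 : MUXF.IcI b e ∞ = 0 := rfl
        simp only [e1, e2, mul_zero, Finset.sum_const_zero]
      | coe r =>
        have e1 := a1 r
        have e2 : MUXF.IcI b e ((r : ℚ) : OnePoint ℚ) = MUXF.IvI b e r := rfl
        rw [e2, ← one_mul (MUXF.IvI b e r), ← e1]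
        refine Finset.sum_congr rfl fun a _ => ?_
        rw [MUXF.PRJ.mob1 hq]
        have e3 : MUXF.IcI b e ((r + ((a : ℤ) : ℚ) / (q : ℚ) : ℚ) : OnePoint ℚ) =
          MUXF.IvI b e (r + ((a : ℤ) : ℚ) / (q : ℚ)) := rfl
        rw [e3]
        congr 2
        push_cast
        ring
    have key : ∑ a ∈ Finset.range q, MUXF.PRJ.cf q φ a *
        _root_.Pool.Agent.MUX.PhiI b e (mob q a 0 q x) (mob q a 0 q y) =
        (∑ a ∈ Finset.range q, MUXF.PRJ.cf q φ a * MUXF.IcI b e (mob q a 0 q x)) -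
        (∑ a ∈ Finset.range q, MUXF.PRJ.cf q φ a * MUXF.IcI b e (mob q a 0 q y)) := by
      rw [← Finset.sum_sub_distrib]
      refine Finset.sum_congr rfl fun a _ => ?_
      rw [← mul_sub]
      rfl
    rw [key, b1, b1]
    rfl
  · intro hv x y
    have a2 : ∀ r : ℚ, ∑ a ∈ Finset.range q, MUXF.PRJ.cf q φ a *
        MUXF.IvI b e (r + (-1 : ℤ) * (a / q)) = 0 * MUXF.IvI b e r :=
      MUXF.PRJ.twistI MUXF.xf_QB MUXF.xf_ALG MUXF.xf_TSM MUXF.xf_ITG hF hb hg heF hC hq hφ (-1) 0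
        (by
          intro x hx hx0
          rw [neg_one_mul]
          exact hv x hx hx0)
    have b2 : ∀ x : OnePoint ℚ, ∑ a ∈ Finset.range q,
        MUXF.PRJ.cf q φ a * MUXF.IcI b e (mob (-1) 0 0 1 (mob q a 0 q x)) = 0 := by
      intro x
      induction x using OnePoint.rec with
      | infty =>
        have e1 : ∀ a : ℤ, MUXF.IcI b e (mob (-1) 0 0 1 (mob q a 0 q ∞)) = 0 := by
          intro a
          rw [MUXF.PRJ.mob2 _ _ _ _ rfl, MUXF.PRJ.mob2 _ _ _ _ rfl]
          rfl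
        simp only [e1, mul_zero, Finset.sum_const_zero]
      | coe r =>
        have e1 := a2 (-r)
        rw [zero_mul] at e1
        rw [← e1]
        refine Finset.sum_congr rfl fun a _ => ?_
        rw [MUXF.PRJ.mob1 hq, MUXF.PRJ.mob3]
        have e3 : MUXF.IcI b e ((-(r + ((a : ℤ) : ℚ) / (q : ℚ)) : ℚ) : OnePoint ℚ) =
          MUXF.IvI b e (-(r + ((a : ℤ) : ℚ) / (q : ℚ))) := rfl
        rw [e3]
        congr 2
        push_cast
        ring
    have key : ∑ a ∈ Finset.range q, MUXF.PRJ.cf q φ a *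
        _root_.Pool.Agent.MUX.PhiI b e (mob (-1) 0 0 1 (mob q a 0 q x)) (mob (-1) 0 0 1 (mob q a 0 q y)) =
        (∑ a ∈ Finset.range q, MUXF.PRJ.cf q φ a *
          MUXF.IcI b e (mob (-1) 0 0 1 (mob q a 0 q x))) -
        (∑ a ∈ Finset.range q, MUXF.PRJ.cf q φ a *
          MUXF.IcI b e (mob (-1) 0 0 1 (mob q a 0 q y))) := by
      rw [← Finset.sum_sub_distrib]
      refine Finset.sum_congr rfl fun a _ => ?_
      rw [← mul_sub]
      rfl
    rw [key, b2, b2, sub_zero]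

end

end Pool.Agent.NSGR


end

section

/-!
# MUX-NS, block GR, module GJP: the forms `g_j`, depleted case (adapted from `NS/G_Gj.lean`)
-/

set_option autoImplicit false

namespace Pool.Agent.NSGR

open _root_.MU3 _root_.Pool.Agent.MU3A _root_.Pool.Agent.MU3B _root_.Pool.Agent.MU3Q _root_.Pool.Agent.MUX _root_.Pool.Agent.NS
  _root_.Pool.Agent.NSRD _root_.Pool.Agent.NSG _root_.Pool.Agent.MUXN _root_.Pool.Agent.MuSym OnePoint UpperHalfPlane
open _root_.Pool.Agent.MUXF (qb)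
open scoped MatrixGroups

noncomputable section

namespace GJP

lemma alg_root {x : ℂ} (h : x ^ 3 = 1) : IsAlgebraic ℚ x :=
  (IsIntegral.of_pow (n := 3) (by norm_num) (by rw [h]; exact isIntegral_one)).isAlgebraic

lemma exp_add (τ : ℂ) (k n : ℕ) :
    Complex.exp (2 * Real.pi * Complex.I * (τ + (k : ℂ) / 3)) ^ n =
      Complex.exp (2 * Real.pi * Complex.I / (3 : ℕ)) ^ (k * n) *
        Complex.exp (2 * Real.pi * Complex.I * τ) ^ n := by
  rw [pow_mul, ← mul_pow]
  congr 1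
  rw [← Complex.exp_nat_mul, ← Complex.exp_add]
  congr 1
  push_cast
  ring

lemma depl {β : ℕ → ℂ} {Θ : ℂ → ℂ}
    (hs : ∀ τ : ℂ, 0 < τ.im → HasSum (fun n : ℕ => β n *
      Complex.exp (2 * Real.pi * Complex.I * τ) ^ n) (Θ τ))
    (h : ∀ τ : ℂ, 0 < τ.im → Θ τ + Θ (τ + 1 / 3) + Θ (τ + 2 / 3) = 0) (n : ℕ) (hn : 3 ∣ n) :
    β n = 0 := by
  set ω : ℂ := Complex.exp (2 * Real.pi * Complex.I / (3 : ℕ)) with hω
  have h3 : ω ^ 3 = 1 := (Complex.isPrimitiveRoot_exp 3 (by norm_num)).pow_eq_one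
  have key : (PowerSeries.mk fun n => β n * (1 + ω ^ (1 * n) + ω ^ (2 * n)) : PowerSeries ℂ) =
      0 := by
    refine t_QA.2.2.2.2 (fun _ => 0) _ 0 0 ?_ ?_
    · intro τ _
      have hτ : 0 < (τ : ℂ).im := τ.2
      have a0 := hs (τ : ℂ) hτ
      have a1 := hs ((τ : ℂ) + 1 / 3) (by simpa using hτ)
      have a2 := hs ((τ : ℂ) + 2 / 3) (by simpa using hτ)
      have a3 := (a0.add a1).add a2
      rw [h (τ : ℂ) hτ] at a3
      have e1 : (fun n : ℕ => PowerSeries.coeff n
          (PowerSeries.mk fun n => β n * (1 + ω ^ (1 * n) + ω ^ (2 * n)) : PowerSeries ℂ) *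
          qq τ ^ n) = fun n : ℕ => β n * Complex.exp (2 * Real.pi * Complex.I * (τ : ℂ)) ^ n +
            β n * Complex.exp (2 * Real.pi * Complex.I * ((τ : ℂ) + 1 / 3)) ^ n +
            β n * Complex.exp (2 * Real.pi * Complex.I * ((τ : ℂ) + 2 / 3)) ^ n := by
        funext n
        have b1 := exp_add (τ : ℂ) 1 n
        have b2 := exp_add (τ : ℂ) 2 n
        rw [Nat.cast_one] at b1
        rw [Nat.cast_ofNat] at b2
        rw [PowerSeries.coeff_mk, b1, b2, ← hω, qq]
        ring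
      rw [e1]
      exact a3
    · intro τ _
      simp only [map_zero, zero_mul]
      exact hasSum_zero
  have h4 := congrArg (PowerSeries.coeff n) key
  rw [PowerSeries.coeff_mk, map_zero] at h4
  obtain ⟨m, rfl⟩ := hn
  have h5 : ω ^ (1 * (3 * m)) = 1 := by
    rw [one_mul, pow_mul, h3, one_pow]
  have h6 : ω ^ (2 * (3 * m)) = 1 := by
    rw [mul_left_comm, pow_mul, h3, one_pow]
  rw [h5, h6] at h4
  have h7 : β (3 * m) * 3 = 0 := by
    rw [← h4]
    ring
  exact (mul_eq_zero.1 h7).resolve_right (by norm_num)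

end GJP

open _root_.Pool.Agent.MUXN.N_GJ _root_.Pool.Agent.MU3G in
theorem tv_GJP (h1 : Sv_BNP) (h2 : Sg_RET) (h3 : Sg_NFE) : Sv_GJP := by
  classical
  intro A B hc J _ Ψ Θ α₁ Om N' hG hdep V h3V hLoc L' el lam hL hlam r h hh hfg w hw y hy
  have hOm0 : Om ≠ 0 := hL.om0
  choose α hα using fun j => hG.qexp j
  choose Kα hKα using fun j => (hα j).2.1
  -- generators of the fields of coefficients
  have hgen : ∀ c : J, ∃ S : Finset ℂ, (∀ x ∈ S, IsAlgebraic ℚ x) ∧
      ∀ K' : Subfield ℂ, (∀ x ∈ S, x ∈ K') → Kα c ≤ K' := by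
    intro c
    have := (hKα c).1
    exact gens _
  choose Sg hSg1 hSg2 using hgen
  set Pm : Fin r → J → ℂ := fun l' c => Ψ c ∞
      (mob (h l' 0 0) (h l' 0 1) (h l' 1 0) (h l' 1 1) ∞) / Om with hPm
  have hPmalg : ∀ l' c, IsAlgebraic ℚ (Pm l' c) := fun l' c => hG.alg c _ _
  have hN' : N' ≠ 0 := hG.pos.ne'
  have hζ : IsAlgebraic ℚ (Complex.exp (2 * Real.pi * Complex.I / N')) := by
    have hp := (Complex.isPrimitiveRoot_exp N' hN').pow_eq_one
    have : IsIntegral ℚ (Complex.exp (2 * Real.pi * Complex.I / N')) := by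
      refine ⟨Polynomial.X ^ N' - Polynomial.C 1, Polynomial.monic_X_pow_sub_C 1 hN', ?_⟩
      simp [hp]
    exact this.isAlgebraic
  have hωp : IsPrimitiveRoot (Complex.exp (2 * Real.pi * Complex.I / (3 : ℕ))) 3 :=
    Complex.isPrimitiveRoot_exp 3 (by norm_num)
  have hωa : IsAlgebraic ℚ (Complex.exp (2 * Real.pi * Complex.I / (3 : ℕ))) :=
    GJP.alg_root hωp.pow_eq_one
  obtain ⟨K, hKnf, hK⟩ := h3 ((Finset.univ.image fun q : Fin r × J => Pm q.1 q.2) ∪
    Finset.univ.image w ∪ {lam} ∪ {Complex.exp (2 * Real.pi * Complex.I / N')} ∪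
    {wC A B} ∪ Finset.univ.biUnion Sg ∪
    {Complex.exp (2 * Real.pi * Complex.I / (3 : ℕ))}) (by
      intro x hx
      simp only [Finset.mem_union, Finset.mem_image, Finset.mem_univ, true_and,
        Finset.mem_singleton, Finset.mem_biUnion] at hx
      rcases hx with (((((⟨q, rfl⟩ | ⟨i, rfl⟩) | rfl) | rfl) | rfl) | ⟨c, hc'⟩) | rfl
      · exact hPmalg _ _
      · exact kk_alg hc (hw i).1
      · exact hL.alg
      · exact hζ
      · exact ((wC_int hc).tower_top (A := ℚ)).isAlgebraic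
      · exact hSg1 c x hc'
      · exact hωa)
  simp only [Finset.mem_union, Finset.mem_image, Finset.mem_univ, true_and,
    Finset.mem_singleton, Finset.mem_biUnion] at hK
  have hKP : ∀ l' c, Pm l' c ∈ K := fun l' c => hK _ (by
    left; left; left; left; left; left; exact ⟨(l', c), rfl⟩)
  have hKw : ∀ i, w i ∈ K := fun i => hK _ (by
    left; left; left; left; left; right; exact ⟨i, rfl⟩)
  have hKlam : lam ∈ K := hK _ (by left; left; left; left; right; rfl)
  have hKζ : Complex.exp (2 * Real.pi * Complex.I / N') ∈ K := hK _ (by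
    left; left; left; right; rfl)
  have hKwC : wC A B ∈ K := hK _ (by left; left; right; rfl)
  have hKω : Complex.exp (2 * Real.pi * Complex.I / (3 : ℕ)) ∈ K := hK _ (by right; rfl)
  have hKS : ∀ c : J, Kα c ≤ K := fun c => hSg2 c K fun x hx => hK x (by
    left; right; exact ⟨c, hx⟩)
  have hKemb : ∀ x : OO A B, emb x ∈ K := fun x =>
    K.add_mem (intCast_mem _ _) (K.mul_mem (intCast_mem _ _) hKwC)
  obtain ⟨y', hy'K, hy'⟩ := h2 K J r (fun c i => Pm i c) w (fun c i => hKP i c) hKw y hy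
  obtain ⟨t, ht1, ht⟩ := hLoc (Finset.univ.image w) (by
    intro x hx
    obtain ⟨i, -, rfl⟩ := Finset.mem_image.1 hx
    exact hw i)
  refine ⟨y', hy', ?_⟩
  have hαK : ∀ c : J, ∀ n, α c n ∈ K := fun c n => hKS c ((hKα c).2 n)
  have hαV : ∀ c : J, ∀ n, α c n ∈ V := fun c n =>
    Pool.Agent.MU3A2.mem_of_integral ((hα c).1 n)
  set Z : ℍ → ℂ := fun τ => emb t * ∑ c : J, y' c * Θ c (τ : ℂ) with hZ
  set z : PowerSeries ℂ := PowerSeries.mk fun n =>
    emb t * ∑ c : J, y' c * (α c n / n) with hz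
  have hzn : ∀ n, PowerSeries.coeff n z = emb t * ∑ c : J, y' c * (α c n / n) :=
    fun n => by rw [hz, PowerSeries.coeff_mk]
  have hsmul : ∀ (γ : SL(2, ℤ)) (τ : ℍ), ((γ • τ : ℍ) : ℂ) =
      (((γ 0 0 : ℤ) : ℂ) * τ + ((γ 0 1 : ℤ) : ℂ)) /
          (((γ 1 0 : ℤ) : ℂ) * τ + ((γ 1 1 : ℤ) : ℂ)) := by
    intro γ τ
    rw [UpperHalfPlane.specialLinearGroup_apply]
    simp
  have hQS : QS Z z := by
    intro τ
    have hs := (hasSum_sum (s := Finset.univ) fun c (_ : c ∈ (Finset.univ : Finset J)) =>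
      ((hα c).2.2.2 (τ : ℂ) τ.2).mul_left (y' c)).mul_left (emb t)
    have e2 : (fun n : ℕ => PowerSeries.coeff n z * qq τ ^ n) = fun n : ℕ =>
        emb t * ∑ c : J, y' c * (α c n / n *
          Complex.exp (2 * Real.pi * Complex.I * (τ : ℂ)) ^ n) := by
      funext n
      rw [hzn n, qq, mul_assoc, Finset.sum_mul]
      congr 1
      refine Finset.sum_congr rfl fun c _ => ?_
      ring
    rw [e2]
    exact hs
  have hcusp : ∀ γ : SL(2, ℤ), ∃ (C : ℂ) (w : ℕ → ℂ), ∀ τ : ℍ, HasSum (fun n : ℕ => w n *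
      Complex.exp (2 * Real.pi * Complex.I * (τ : ℂ) / N') ^ (n + 1)) (Z (γ • τ) - C) := by
    intro γ
    choose C W hW using fun c : J => hG.cusp c (γ 0 0) (γ 0 1) (γ 1 0) (γ 1 1)
      (G6c.det_eq γ)
    refine ⟨emb t * ∑ c : J, y' c * C c, fun n => emb t * ∑ c : J, y' c * W c n, ?_⟩
    intro τ
    have hs := (hasSum_sum (s := Finset.univ) fun c (_ : c ∈ (Finset.univ : Finset J)) =>
      (hW c (τ : ℂ) τ.2).mul_left (y' c)).mul_left (emb t)
    have e1 : (fun n : ℕ => (emb t * ∑ c : J, y' c * W c n) *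
        Complex.exp (2 * Real.pi * Complex.I * (τ : ℂ) / N') ^ (n + 1)) = fun n : ℕ =>
        emb t * ∑ c : J, y' c * (W c n *
          Complex.exp (2 * Real.pi * Complex.I * (τ : ℂ) / N') ^ (n + 1)) := by
      funext n
      rw [mul_assoc, Finset.sum_mul]
      congr 1
      refine Finset.sum_congr rfl fun c _ => ?_
      ring
    have e2 : Z (γ • τ) - emb t * ∑ c : J, y' c * C c = emb t * ∑ c : J, y' c *
        (Θ c ((((γ 0 0 : ℤ) : ℂ) * τ + ((γ 0 1 : ℤ) : ℂ)) /
          (((γ 1 0 : ℤ) : ℂ) * τ + ((γ 1 1 : ℤ) : ℂ))) - C c) := by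
      rw [hZ]
      beta_reduce
      rw [← mul_sub, ← Finset.sum_sub_distrib, hsmul]
      congr 1
      refine Finset.sum_congr rfl fun c _ => ?_
      ring
    rw [e1, e2]
    exact hs
  -- the periods
  set ρ : SL(2, ℤ) → ℂ := fun g => ∑ c : J, y' c * (Ψ c ∞ (G6c.mI g) / Om) with hρ
  have hρadd : ∀ g ∈ CongruenceSubgroup.Gamma1 N', ∀ g' ∈ CongruenceSubgroup.Gamma1 N',
      ρ (g * g') = ρ g + ρ g' := by
    intro g hg g' hg'
    rw [hρ]
    beta_reduce
    rw [← Finset.sum_add_distrib]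
    refine Finset.sum_congr rfl fun c _ => ?_
    obtain ⟨m1, m2⟩ := G6c.mem1 hg
    have a1 := hG.add c ∞ (G6c.mI g) (G6c.mI (g * g'))
    have a2 := hG.inv c (g 0 0) (g 0 1) (g 1 0) (g 1 1) (G6c.det_eq g) m1 m2 ∞
      (G6c.mI g')
    rw [← G6c.mI_mul] at a2
    have a3 : mob (g 0 0) (g 0 1) (g 1 0) (g 1 1) ∞ = G6c.mI g := rfl
    rw [a3] at a2
    rw [← a1, a2]
    ring
  have hM : ∀ g ∈ CongruenceSubgroup.Gamma1 N', ∃ c : OO A B, emb t * ρ g = emb c := by
    let M : AddSubgroup ℂ := AddSubgroup.comap (AddMonoidHom.mulLeft (emb t))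
      (AddMonoidHom.range (eHom hc).toAddMonoidHom)
    have hMm : ∀ x, x ∈ M ↔ ∃ c : OO A B, emb t * x = emb c := by
      intro x
      constructor
      · rintro ⟨c, hc'⟩
        refine ⟨c, ?_⟩
        have e1 : emb t * x = eHom hc c := hc'.symm
        rw [e1, eHom_apply hc]
      · rintro ⟨c, hc'⟩
        refine ⟨c, ?_⟩
        rw [← eHom_apply hc] at hc'
        rw [eHom_apply hc] at hc'
        show (eHom hc) c = emb t * x
        rw [eHom_apply hc, hc']
    intro g hg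
    rw [← hMm]
    refine hfg ρ hρadd M (fun i => ?_) g hg
    rw [hMm]
    have e1 : ρ (h i) = w i := hy' i
    rw [e1]
    exact ht _ (Finset.mem_image_of_mem w (Finset.mem_univ i))
  have hper : ∀ γ ∈ CongruenceSubgroup.Gamma1 N', ∀ τ : ℍ, Z (γ • τ) - Z τ ∈ L'.lattice := by
    intro γ hγ τ
    obtain ⟨m1, m2⟩ := G6c.mem1 hγ
    obtain ⟨x, hx⟩ := hM γ hγ
    rw [hL.mem]
    refine ⟨x, ?_⟩
    have e1 : Z (γ • τ) - Z τ = Om * (emb t * ρ γ) := by
      rw [hZ, hρ]
      beta_reduce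
      rw [hsmul, ← mul_sub, ← Finset.sum_sub_distrib, mul_left_comm Om (emb t), Finset.mul_sum _ _ Om]
      congr 1
      refine Finset.sum_congr rfl fun c _ => ?_
      rw [hG.per c (γ 0 0) (γ 0 1) (γ 1 0) (γ 1 1) (G6c.det_eq γ) m1 m2 (τ : ℂ) τ.2]
      have a3 : mob (γ 0 0) (γ 0 1) (γ 1 0) (γ 1 1) ∞ = G6c.mI γ := rfl
      rw [a3]
      field_simp
      ring
    rw [e1, hx]
  -- the denominators
  choose q hqK hq0 hqV hqy using fun c => denom K V (y' c) (hy'K c)
  have hden : ∃ c ∈ K, c ≠ 0 ∧ c ∈ V ∧ ∀ n : ℕ, c * (n * PowerSeries.coeff n z) ∈ V := by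
    refine ⟨∏ c, q c, K.prod_mem fun c _ => hqK c, Finset.prod_ne_zero_iff.2 fun c _ => hq0 c,
      prod_mem fun c _ => hqV c, ?_⟩
    intro m
    by_cases hm : m = 0
    · rw [hm]
      simp
    · have e1 : (∏ c, q c) * (m * PowerSeries.coeff m z) = ∑ c : J,
          (emb t * (∏ c' ∈ Finset.univ.erase c, q c')) * (q c * y' c) * α c m := by
        rw [hzn, mul_left_comm (m : ℂ), Finset.mul_sum, mul_left_comm, Finset.mul_sum,
          Finset.mul_sum]
        refine Finset.sum_congr rfl fun c _ => ?_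
        rw [← Finset.mul_prod_erase Finset.univ q (Finset.mem_univ c)]
        have : (m : ℂ) ≠ 0 := by exact_mod_cast hm
        field_simp
      rw [e1]
      exact sum_mem fun c _ => V.mul_mem _ _ (V.mul_mem _ _ (V.mul_mem _ _ (emb_mem_V hc V t)
        (prod_mem fun c _ => hqV c)) (hqy c)) (hαV c m)
  have hdz : ∀ n, 3 ∣ n → PowerSeries.coeff n z = 0 := by
    intro n hn
    rw [hzn]
    have e1 : ∑ c : J, y' c * (α c n / n) = 0 := Finset.sum_eq_zero fun c _ => by
      rw [GJP.depl (hα c).2.2.2 (hdep c) n hn, mul_zero]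
    rw [e1, mul_zero]
  have hfin := h1 K V h3V N' hG.pos hKζ _ hKω hωp L' el lam hL.eq hKlam hL.v1 hlam Z z hQS
    (fun m => by
      rw [hzn]
      exact K.mul_mem (hKemb t) (sum_mem fun c _ => K.mul_mem (hy'K c)
        (K.div_mem (hαK c m) (natCast_mem _ _))))
    hdz hden hcusp hper
  rw [hzn] at hfin
  have e1 : (∑ c : J, y' c * (α c 1 / (1 : ℕ))) = ∑ c : J, y' c * α₁ c := by
    refine Finset.sum_congr rfl fun c _ => ?_
    rw [(hα c).2.2.1]
    simp
  rw [e1, map_mul, ht1, one_mul] at hfin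
  exact hfin

end

end Pool.Agent.NSGR


end

section

/-!
# Module NSGR_COL: the three points `Z`, `α Z`, `α² Z` are collinear
-/

set_option autoImplicit false

namespace Pool.Agent.NSGR

open _root_.MU3 _root_.Pool.Agent.MU3A _root_.Pool.Agent.MU3B _root_.Pool.Agent.MU3Q _root_.Pool.Agent.MUX _root_.Pool.Agent.NS
  _root_.Pool.Agent.NSRD _root_.Pool.Agent.NSG _root_.Pool.Agent.MUXN _root_.Pool.Agent.MuSym OnePoint UpperHalfPlane
open _root_.Pool.Agent.MUXF (qb)
open scoped MatrixGroups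

noncomputable section

namespace COL

open Filter Topology _root_.Pool.Agent.MU3Q.ODE

theorem near0 (L : PeriodPair) (c0 : ℂ) :
    ∀ᶠ u in 𝓝[≠] (0 : ℂ), u ∉ L.lattice ∧ L.weierstrassP u + c0 ≠ 0 := by
  have hden : ∀ᶠ u in 𝓝 (0 : ℂ), 1 + u ^ 2 * (L.weierstrassPExcept 0 u + c0) ≠ 0 := by
    have hc : ContinuousAt (fun u => 1 + u ^ 2 * (L.weierstrassPExcept 0 u + c0)) 0 := by
      have h := (L.analyticAt_weierstrassPExcept 0).continuousAt
      exact continuousAt_const.add ((continuousAt_id.pow 2).mul (h.add continuousAt_const))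
    exact hc.eventually_ne (by simp)
  have hlat : ∀ᶠ u in 𝓝[≠] (0 : ℂ), u ∉ L.lattice := by
    have h1 := L.compl_lattice_sdiff_singleton_mem_nhds 0
    filter_upwards [nhdsWithin_le_nhds h1, self_mem_nhdsWithin] with u hu hu0 hul
    exact hu ⟨hul, hu0⟩
  filter_upwards [nhdsWithin_le_nhds hden, hlat, self_mem_nhdsWithin] with u h1 h2 h3
  have hu0 : u ≠ 0 := h3
  refine ⟨h2, fun h5 => ?_⟩
  have h4 := sf_eq L c0 u hu0
  rw [h5, inv_zero] at h4
  unfold sf at h4
  rw [div_eq_zero_iff] at h4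
  rcases h4 with h4 | h4
  · exact hu0 (pow_eq_zero_iff (two_ne_zero) |>.1 h4)
  · exact h1 h4

theorem sf_zero (L : PeriodPair) (c0 : ℂ) : sf L c0 0 = 0 := by simp [sf]

/-- the constants of the two equations agree -/
theorem a2_eq (L : PeriodPair) (c0 a2 a4 a6 : ℂ)
    (hrel : ∀ u : ℂ, u ∉ L.lattice → L.derivWeierstrassP u ^ 2 / 4 =
      (L.weierstrassP u + c0) ^ 3 + a2 * (L.weierstrassP u + c0) ^ 2 +
        a4 * (L.weierstrassP u + c0) + a6) : a2 = -3 * c0 := by
  set b : ℂ := 3 * c0 ^ 2 + 2 * a2 * c0 + a4 + L.g₂ / 4 with hb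
  set c : ℂ := c0 ^ 3 + a2 * c0 ^ 2 + a4 * c0 + a6 + L.g₃ / 4 with hc
  have h1 : ∀ᶠ u in 𝓝[≠] (0 : ℂ),
      (3 * c0 + a2) + b * sf L 0 u + c * sf L 0 u ^ 2 = 0 := by
    filter_upwards [near0 L 0, self_mem_nhdsWithin] with u hu hu0
    have hu0' : u ≠ 0 := hu0
    have hx := hu.2
    have e1 := hrel u hu.1
    have e2 := L.derivWeierstrassP_sq u hu.1
    rw [sf_eq L 0 u hu0']
    rw [add_zero] at hx ⊢
    have e3 : (3 * c0 + a2) * L.weierstrassP u ^ 2 + b * L.weierstrassP u + c = 0 := by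
      rw [hb, hc]
      linear_combination (-1) * e1 + (1 / 4) * e2
    field_simp
    linear_combination e3
  have h2 : ContinuousAt (fun u => (3 * c0 + a2) + b * sf L 0 u + c * sf L 0 u ^ 2) 0 := by
    have := (sf_analytic L 0).continuousAt
    fun_prop
  have h3 : Tendsto (fun u => (3 * c0 + a2) + b * sf L 0 u + c * sf L 0 u ^ 2) (𝓝[≠] 0)
      (𝓝 ((3 * c0 + a2) + b * sf L 0 0 + c * sf L 0 0 ^ 2)) := h2.tendsto.mono_left nhdsWithin_le_nhds
  have h4 : Tendsto (fun u => (3 * c0 + a2) + b * sf L 0 u + c * sf L 0 u ^ 2) (𝓝[≠] 0)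
      (𝓝 0) := by
    refine Tendsto.congr' (f₁ := fun _ => (0 : ℂ)) ?_ tendsto_const_nhds
    filter_upwards [h1] with u hu
    exact hu.symm
  have h5 := tendsto_nhds_unique h3 h4
  rw [sf_zero] at h5
  linear_combination h5

/-- the addition theorem, as collinearity -/
theorem col_pt (L : PeriodPair) (c0 a2 a4 a6 : ℂ)
    (hrel : ∀ u : ℂ, u ∉ L.lattice → L.derivWeierstrassP u ^ 2 / 4 =
      (L.weierstrassP u + c0) ^ 3 + a2 * (L.weierstrassP u + c0) ^ 2 +
        a4 * (L.weierstrassP u + c0) + a6) (u0 u1 u2 : ℂ) (h0 : u0 ∉ L.lattice)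
    (h1 : u1 ∉ L.lattice) (h2 : u2 ∉ L.lattice) (h01 : u0 - u1 ∉ L.lattice)
    (hs : u0 + u1 + u2 = 0) :
    (L.weierstrassP u0 + c0 + (L.weierstrassP u1 + c0) + (L.weierstrassP u2 + c0) + a2) *
      (L.derivWeierstrassP u0 / 2 + L.derivWeierstrassP u1 / 2) ^ 2 =
    ((L.weierstrassP u0 + c0) ^ 2 + (L.weierstrassP u0 + c0) * (L.weierstrassP u1 + c0) +
      (L.weierstrassP u1 + c0) ^ 2 + a2 * (L.weierstrassP u0 + c0 + (L.weierstrassP u1 + c0)) +
      a4) ^ 2 := by
  have ha2 := a2_eq L c0 a2 a4 a6 hrel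
  have e2 : u0 + u1 = -u2 := by linear_combination hs
  have h3 : u0 + u1 ∉ L.lattice := by
    rw [e2]
    intro h
    exact h2 (by simpa using neg_mem h)
  have hadd := (b_ADD L u1 u0 h1 h0 h3 h01).1
  rw [e2, L.weierstrassP_neg] at hadd
  have hne : L.weierstrassP u0 - L.weierstrassP u1 ≠ 0 := by
    intro h
    rcases b_NEQ L u1 u0 h1 h0 (sub_eq_zero.1 h) with h' | h'
    · exact h01 h'
    · exact h3 h'
  have r0 := hrel u0 h0
  have r1 := hrel u1 h1
  set X0 := L.weierstrassP u0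
  set X1 := L.weierstrassP u1
  set X2 := L.weierstrassP u2
  set Y0 := L.derivWeierstrassP u0
  set Y1 := L.derivWeierstrassP u1
  set N : ℂ := (X0 + c0) ^ 2 + (X0 + c0) * (X1 + c0) + (X1 + c0) ^ 2 +
    a2 * (X0 + c0 + (X1 + c0)) + a4 with hN
  have e3 : (Y0 - Y1) * (Y0 + Y1) = 4 * ((X0 - X1) * N) := by
    rw [hN]
    linear_combination 4 * r0 - 4 * r1
  have e4 : X0 + c0 + (X1 + c0) + (X2 + c0) + a2 =
      ((Y0 - Y1) / (2 * (X0 - X1))) ^ 2 := by
    rw [ha2]
    linear_combination hadd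
  rw [e4]
  have e5 : ((Y0 - Y1) / (2 * (X0 - X1))) * (Y0 / 2 + Y1 / 2) = N := by
    field_simp
    linear_combination e3
  rw [← mul_pow, e5]

theorem ser_rescale {f : ℂ → ℂ} {S : PowerSeries ℂ} (h : Ser f S) (w : ℂ) :
    Ser (fun q => f (w * q)) (PowerSeries.rescale w S) := by
  unfold Ser at *
  have ht : Tendsto (fun q : ℂ => w * q) (𝓝 0) (𝓝 0) := by
    have : Continuous (fun q : ℂ => w * q) := by fun_prop
    simpa using this.tendsto 0
  filter_upwards [ht.eventually h] with q hq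
  convert hq using 2
  rw [PowerSeries.coeff_rescale, mul_pow]
  ring

theorem ser_ne {f : ℂ → ℂ} {S : PowerSeries ℂ} (h : Ser f S) (n : ℕ)
    (hS : PowerSeries.coeff n S ≠ 0) : ∀ᶠ q in 𝓝[≠] (0 : ℂ), f q ≠ 0 := by
  rcases h.analyticAt.eventually_eq_zero_or_eventually_ne_zero with h1 | h1
  · exfalso
    have h2 : Ser f (PowerSeries.C 0) := (Ser.const 0).congr (h1.mono fun q hq => hq.symm)
    apply hS
    rw [h.unique h2]
    simp
  · exact h1

theorem ser_pow {f : ℂ → ℂ} {S : PowerSeries ℂ} (h : Ser f S) (n : ℕ) :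
    Ser (fun q => f q ^ n) (S ^ n) := by
  induction n with
  | zero => simpa using Ser.const 1
  | succ n ih => simpa only [pow_succ] using ih.mul h

theorem sf_deriv (L : PeriodPair) (c0 u : ℂ) (h0 : u ≠ 0) (h : u ∉ L.lattice)
    (hx : L.weierstrassP u + c0 ≠ 0) :
    HasDerivAt (sf L c0) (-L.derivWeierstrassP u / (L.weierstrassP u + c0) ^ 2) u := by
  have hev : sf L c0 =ᶠ[𝓝 u] fun v => (L.weierstrassP v + c0)⁻¹ := by
    filter_upwards [isOpen_ne.mem_nhds h0] with v hv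
    exact sf_eq L c0 v hv
  have hdw : HasDerivAt L.weierstrassP (L.derivWeierstrassP u) u := by
    have h5 : DifferentiableAt ℂ L.weierstrassP u :=
      (L.analyticOnNhd_weierstrassP u h).differentiableAt
    have h6 := h5.hasDerivAt
    rwa [L.deriv_weierstrassP] at h6
  exact ((hdw.add_const c0).inv hx).congr_of_eventuallyEq hev

theorem alg (s0 s1 s2 x0 x1 x2 W0 W1 G0 G1 a2 a4 : ℂ) (h0 : s0 * x0 = 1) (h1 : s1 * x1 = 1)
    (h2 : s2 * x2 = 1)
    (e : (x0 + x1 + x2 + a2) * (W0 / 2 + W1 / 2) ^ 2 =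
      (x0 ^ 2 + x0 * x1 + x1 ^ 2 + a2 * (x0 + x1) + a4) ^ 2) :
    (s0 * s1 + s0 * s2 + s1 * s2 + a2 * (s0 * s1 * s2)) *
      ((-W0 * s0 ^ 2 * G0) * G1 * s1 ^ 2 + (-W1 * s1 ^ 2 * G1) * G0 * s0 ^ 2) ^ 2 =
    4 * s0 * s1 * s2 * G0 ^ 2 * G1 ^ 2 *
      (s0 ^ 2 + s0 * s1 + s1 ^ 2 + a2 * (s0 * s1 * (s0 + s1)) + a4 * (s0 ^ 2 * s1 ^ 2)) ^ 2 := by
  have e1 : s0 * s1 + s0 * s2 + s1 * s2 + a2 * (s0 * s1 * s2) =
      s0 * s1 * s2 * (x0 + x1 + x2 + a2) := by
    linear_combination (-(s1 * s2)) * h0 + (-(s0 * s2)) * h1 + (-(s0 * s1)) * h2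
  have e2 : s0 ^ 2 + s0 * s1 + s1 ^ 2 + a2 * (s0 * s1 * (s0 + s1)) + a4 * (s0 ^ 2 * s1 ^ 2) =
      s0 ^ 2 * s1 ^ 2 * (x0 ^ 2 + x0 * x1 + x1 ^ 2 + a2 * (x0 + x1) + a4) := by
    linear_combination (-(s1 ^ 2 * (s0 * x0 + 1) + s0 * s1 * (s1 * x1) + a2 * s0 * s1 ^ 2)) * h0 +
      (-(s0 * s1 + s0 ^ 2 * (s1 * x1 + 1) + a2 * s0 ^ 2 * s1)) * h1
  rw [e1, e2]
  linear_combination (4 * s0 * s1 * s2 * (s0 ^ 2 * s1 ^ 2) ^ 2 * G0 ^ 2 * G1 ^ 2) * e

end COL

open _root_.Pool.Agent.MU3Q.ODE Filter Topology _root_.Pool.Agent.NSGR.COL in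
theorem tv_COL : Sv_COL := by
  intro L c0 a2 a4 a6 hrel ha6 Z z hZ hz1 hz3 ω hω
  have hz0 : PowerSeries.coeff 0 z = 0 := hz3 0 (dvd_zero 3)
  obtain ⟨S, hS0, hS1, hS2, hSo, Y, hSY⟩ := t_ODE L c0 a2 a4 a6 hrel Z z hZ hz0 hz1
  refine ⟨S, ⟨hS0, hS1, hS2, ?_⟩, ?_⟩
  · rw [hSo, ha6, zero_smul, add_zero]
  -- the function `φ`
  set φ : ℂ → ℂ := fun q => ∑' n : ℕ, PowerSeries.coeff n z * q ^ n with hφdef
  have hφZ : ∀ τ : ℍ, φ (qq τ) = Z τ := fun τ => (hZ τ).tsum_eq
  have hφ : Ser φ z := by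
    have h1 := (hZ UpperHalfPlane.I).summable
    set q0 : ℝ := ‖qq UpperHalfPlane.I‖ with hq0
    have hq0pos : 0 < q0 := norm_pos_iff.2 (Complex.exp_ne_zero _)
    obtain ⟨C, hC⟩ : ∃ C : ℝ, ∀ n : ℕ, ‖PowerSeries.coeff n z * qq UpperHalfPlane.I ^ n‖ ≤ C := by
      obtain ⟨C, hC⟩ := (h1.tendsto_atTop_zero.norm).bddAbove_range
      exact ⟨C, fun n => hC ⟨n, rfl⟩⟩
    unfold Ser
    filter_upwards [Metric.ball_mem_nhds (0 : ℂ) hq0pos] with q hq
    rw [Metric.mem_ball, dist_zero_right] at hq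
    have hr : ‖q‖ / q0 < 1 := (div_lt_one hq0pos).2 hq
    have h2 : Summable (fun n : ℕ => PowerSeries.coeff n z * q ^ n) := by
      refine Summable.of_norm_bounded (g := fun n : ℕ => C * (‖q‖ / q0) ^ n)
        ((summable_geometric_of_lt_one (by positivity) hr).mul_left C) (fun n => ?_)
      have h3 := hC n
      rw [norm_mul, norm_pow, ← hq0] at h3
      rw [norm_mul, norm_pow, div_pow]
      calc ‖PowerSeries.coeff n z‖ * ‖q‖ ^ n
          = (‖PowerSeries.coeff n z‖ * q0 ^ n) * (‖q‖ ^ n / q0 ^ n) := by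
            field_simp
        _ ≤ C * (‖q‖ ^ n / q0 ^ n) := mul_le_mul_of_nonneg_right h3 (by positivity)
    exact h2.hasSum
  have hφ0 : φ 0 = 0 := by rw [hφ.zero_eq, hz0]
  have hφne := ser_ne hφ 1 hz1
  set F : ℂ → ℂ := fun q => sf L c0 (φ q) with hFdef
  have hF0 : F 0 = 0 := by
    show sf L c0 (φ 0) = 0
    rw [hφ0, sf_zero]
  have hF : Ser F S := by
    unfold Ser
    have hne := hφne
    rw [eventually_nhdsWithin_iff] at hne
    filter_upwards [Metric.ball_mem_nhds (0 : ℂ) one_pos,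
      Metric.ball_mem_nhds (0 : ℂ) (Real.exp_pos (-(2 * Real.pi * Y))), hne] with q hq1 hq2 hq3
    rw [Metric.mem_ball, dist_zero_right] at hq1 hq2
    by_cases h0 : q = 0
    · subst h0
      rw [hF0]
      have := hasSum_single (f := fun n : ℕ => PowerSeries.coeff n S * (0 : ℂ) ^ n) 0
        (fun n hn => by simp [hn])
      simpa [hS0] using this
    · have hn : 0 < ‖q‖ := norm_pos_iff.2 h0
      have hpi : 0 < 2 * Real.pi := by positivity
      have l1 : Real.log ‖q‖ < 0 := Real.log_neg hn hq1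
      have l2 : Real.log ‖q‖ < -(2 * Real.pi * Y) := by
        rw [Real.log_lt_iff_lt_exp hn]
        exact hq2
      have him : 0 < -(Real.log ‖q‖) / (2 * Real.pi) := div_pos (by linarith) hpi
      set τ : ℍ := ⟨⟨Complex.arg q / (2 * Real.pi), -(Real.log ‖q‖) / (2 * Real.pi)⟩, him⟩ with hτ
      have hqq : qq τ = q := by
        have e1 : 2 * (Real.pi : ℂ) * Complex.I * (τ : ℂ) = Complex.log q := by
          apply Complex.ext
          · have : (τ : ℂ).im = -(Real.log ‖q‖) / (2 * Real.pi) := rfl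
            simp [Complex.mul_re, Complex.mul_im, Complex.log_re]
            have h3 : τ.im = -(Real.log ‖q‖) / (2 * Real.pi) := rfl
            rw [h3]
            field_simp
          · simp [Complex.mul_re, Complex.mul_im, Complex.log_im]
            have h3 : τ.re = Complex.arg q / (2 * Real.pi) := rfl
            rw [h3]
            field_simp
        unfold qq
        rw [e1, Complex.exp_log h0]
      have hY : Y < τ.im := by
        have h3 : τ.im = -(Real.log ‖q‖) / (2 * Real.pi) := rfl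
        rw [h3, lt_div_iff₀ hpi]
        linarith
      have h := hSY τ hY
      rw [hqq] at h
      have h4 : φ q = Z τ := by rw [← hφZ τ, hqq]
      have h5 : F q = (L.weierstrassP (Z τ) + c0)⁻¹ := by
        show sf L c0 (φ q) = _
        rw [sf_eq L c0 (φ q) (hq3 h0), h4]
      rw [h5]
      exact h
  have hω0 : ω ≠ 0 := hω.ne_zero (by norm_num)
  have hω1 : ω ≠ 1 := hω.ne_one (by norm_num)
  have hω3 : ω ^ 3 = 1 := hω.pow_eq_one
  have hωs : 1 + ω + ω ^ 2 = 0 := by
    have h1 : (ω - 1) * (1 + ω + ω ^ 2) = 0 := by linear_combination hω3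
    rcases mul_eq_zero.1 h1 with h | h
    · exact absurd (sub_eq_zero.1 h) hω1
    · exact h
  -- the sum
  have hsum : ∀ᶠ q in 𝓝 (0 : ℂ), φ q + φ (ω * q) + φ (ω ^ 2 * q) = 0 := by
    have h1 := (hφ.add (ser_rescale hφ ω)).add (ser_rescale hφ (ω ^ 2))
    have h2 : z + PowerSeries.rescale ω z + PowerSeries.rescale (ω ^ 2) z = 0 := by
      ext n
      rw [map_add, map_add, PowerSeries.coeff_rescale, PowerSeries.coeff_rescale, map_zero]
      by_cases h3 : 3 ∣ n
      · rw [hz3 n h3]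
        ring
      · have h4 : 1 + ω ^ n + (ω ^ 2) ^ n = 0 := by
          have h5 : ω ^ n ≠ 1 := fun h => h3 (hω.pow_eq_one_iff_dvd n |>.1 h)
          have h6 : (ω ^ n - 1) * (1 + ω ^ n + (ω ^ 2) ^ n) = 0 := by
            have h7 : (ω ^ 3) ^ n = 1 := by rw [hω3, one_pow]
            have h8 : (ω ^ 3) ^ n = ω ^ n * (ω ^ 2) ^ n := by rw [← mul_pow]; congr 1; ring
            have h9 : (ω ^ 2) ^ n = (ω ^ n) ^ 2 := by rw [← pow_mul, ← pow_mul, mul_comm]
            rw [h8, h9] at h7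
            rw [h9]
            linear_combination h7
          rcases mul_eq_zero.1 h6 with h | h
          · exact absurd (sub_eq_zero.1 h) h5
          · exact h
        linear_combination PowerSeries.coeff n z * h4
    rw [h2] at h1
    unfold Ser at h1
    filter_upwards [h1] with q hq
    refine hq.unique ?_
    simp
  -- differences
  have hdne : ∀ᶠ q in 𝓝[≠] (0 : ℂ), φ q - φ (ω * q) ≠ 0 := by
    have h1 := hφ.add ((ser_rescale hφ ω).smul (-1))
    have h2 := ser_ne h1 1 (by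
      rw [map_add, PowerSeries.coeff_smul, PowerSeries.coeff_rescale, pow_one, smul_eq_mul]
      intro h
      have h3 : (1 - ω) * PowerSeries.coeff 1 z = 0 := by linear_combination h
      rcases mul_eq_zero.1 h3 with h4 | h4
      · exact hω1 (sub_eq_zero.1 h4).symm
      · exact hz1 h4)
    filter_upwards [h2] with q hq h3
    apply hq
    linear_combination h3
  have hdL : ∀ᶠ q in 𝓝[≠] (0 : ℂ), φ q - φ (ω * q) ∉ L.lattice := by
    have h1 := hφ.add ((ser_rescale hφ ω).smul (-1))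
    have hc : Tendsto (fun q => φ q + -1 * φ (ω * q)) (𝓝[≠] 0) (𝓝 0) := by
      have := h1.analyticAt.continuousAt.tendsto
      simp only [mul_zero, hφ0, add_zero] at this
      exact this.mono_left nhdsWithin_le_nhds
    have hc' : Tendsto (fun q => φ q + -1 * φ (ω * q)) (𝓝[≠] 0) (𝓝[≠] 0) := by
      rw [tendsto_nhdsWithin_iff]
      refine ⟨hc, ?_⟩
      filter_upwards [hdne] with q hq h3
      apply hq
      have h4 : φ q + -1 * φ (ω * q) = 0 := h3
      linear_combination h4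
    filter_upwards [hc'.eventually (near0 L c0)] with q hq
    have h4 : φ q + -1 * φ (ω * q) = φ q - φ (ω * q) := by ring
    rw [← h4]
    exact hq.1
  -- the good points
  have hgood : ∀ᶠ q in 𝓝[≠] (0 : ℂ), φ q ∉ L.lattice ∧ L.weierstrassP (φ q) + c0 ≠ 0 ∧
      F q * (L.weierstrassP (φ q) + c0) = 1 ∧
      q * deriv F q = -L.derivWeierstrassP (φ q) * F q ^ 2 * (q * deriv φ q) := by
    have hc : Tendsto φ (𝓝[≠] 0) (𝓝[≠] 0) := by
      rw [tendsto_nhdsWithin_iff]
      refine ⟨?_, hφne⟩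
      have := hφ.analyticAt.continuousAt.tendsto
      rw [hφ0] at this
      exact this.mono_left nhdsWithin_le_nhds
    filter_upwards [hc.eventually (near0 L c0), hφne,
      nhdsWithin_le_nhds hφ.analyticAt.eventually_analyticAt] with q h1 h2 h3
    have hFq : F q = (L.weierstrassP (φ q) + c0)⁻¹ := sf_eq L c0 (φ q) h2
    refine ⟨h1.1, h1.2, ?_, ?_⟩
    · rw [hFq, inv_mul_cancel₀ h1.2]
    · have h4 : HasDerivAt F (-L.derivWeierstrassP (φ q) / (L.weierstrassP (φ q) + c0) ^ 2 *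
          deriv φ q) q :=
        (sf_deriv L c0 (φ q) h2 h1.1 h1.2).comp q h3.differentiableAt.hasDerivAt
      rw [h4.deriv, hFq, inv_pow, div_eq_mul_inv]
      ring
  have hrot : ∀ w : ℂ, w ≠ 0 → Tendsto (fun q : ℂ => w * q) (𝓝[≠] 0) (𝓝[≠] 0) := by
    intro w hw
    rw [tendsto_nhdsWithin_iff]
    constructor
    · have : Continuous (fun q : ℂ => w * q) := by fun_prop
      have h := this.tendsto 0
      rw [mul_zero] at h
      exact h.mono_left nhdsWithin_le_nhds
    · filter_upwards [self_mem_nhdsWithin] with q hq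
      exact mul_ne_zero hw hq
  have hg1 := (hrot ω hω0).eventually hgood
  have hg2 := (hrot (ω ^ 2) (pow_ne_zero 2 hω0)).eventually hgood
  -- the series
  have hF1 := ser_rescale hF ω
  have hF2 := ser_rescale hF (ω ^ 2)
  have hT := hF.theta
  have hT1 := ser_rescale hT ω
  have hG := hφ.theta
  have hG1 := ser_rescale hG ω
  have hA := (((hF.mul hF1).add (hF.mul hF2)).add (hF1.mul hF2)).add
    (((hF.mul hF1).mul hF2).smul a2)
  have hB := ser_pow (((hT.mul hG1).mul (ser_pow hF1 2)).add ((hT1.mul hG).mul (ser_pow hF 2))) 2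
  have hL := hA.mul hB
  have hN := ser_pow (((((ser_pow hF 2).add (hF.mul hF1)).add (ser_pow hF1 2)).add
    (((hF.mul hF1).mul (hF.add hF1)).smul a2)).add
    (((ser_pow hF 2).mul (ser_pow hF1 2)).smul a4)) 2
  have hR := ((((((Ser.const 4).mul hF).mul hF1).mul hF2).mul (ser_pow hG 2)).mul
    (ser_pow hG1 2)).mul hN
  have hkey : ∀ᶠ q in 𝓝[≠] (0 : ℂ),
      (F q * F (ω * q) + F q * F (ω ^ 2 * q) + F (ω * q) * F (ω ^ 2 * q) +
        a2 * (F q * F (ω * q) * F (ω ^ 2 * q))) *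
      (q * deriv F q * (ω * q * deriv φ (ω * q)) * F (ω * q) ^ 2 +
        ω * q * deriv F (ω * q) * (q * deriv φ q) * F q ^ 2) ^ 2 =
      4 * F q * F (ω * q) * F (ω ^ 2 * q) * (q * deriv φ q) ^ 2 *
        (ω * q * deriv φ (ω * q)) ^ 2 *
        (F q ^ 2 + F q * F (ω * q) + F (ω * q) ^ 2 + a2 * (F q * F (ω * q) * (F q + F (ω * q))) +
          a4 * (F q ^ 2 * F (ω * q) ^ 2)) ^ 2 := by
    filter_upwards [hgood, hg1, hg2, hdL, nhdsWithin_le_nhds hsum] with q h0 h1 h2 h3 h4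
    obtain ⟨a0, b0, c0', d0⟩ := h0
    obtain ⟨a1, b1, c1, d1⟩ := h1
    obtain ⟨a2', b2, c2, d2⟩ := h2
    have hc := col_pt L c0 a2 a4 a6 hrel (φ q) (φ (ω * q)) (φ (ω ^ 2 * q)) a0 a1 a2' h3 h4
    rw [d0, d1]
    exact alg _ _ _ _ _ _ _ _ _ _ a2 a4 c0' c1 c2 hc
  have hev : ∀ᶠ q in 𝓝 (0 : ℂ),
      (F q * F (ω * q) + F q * F (ω ^ 2 * q) + F (ω * q) * F (ω ^ 2 * q) +
        a2 * (F q * F (ω * q) * F (ω ^ 2 * q))) *
      (q * deriv F q * (ω * q * deriv φ (ω * q)) * F (ω * q) ^ 2 +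
        ω * q * deriv F (ω * q) * (q * deriv φ q) * F q ^ 2) ^ 2 =
      4 * F q * F (ω * q) * F (ω ^ 2 * q) * (q * deriv φ q) ^ 2 *
        (ω * q * deriv φ (ω * q)) ^ 2 *
        (F q ^ 2 + F q * F (ω * q) + F (ω * q) ^ 2 + a2 * (F q * F (ω * q) * (F q + F (ω * q))) +
          a4 * (F q ^ 2 * F (ω * q) ^ 2)) ^ 2 := by
    rw [eventually_nhdsWithin_iff] at hkey
    filter_upwards [hkey] with q hq
    by_cases h0 : q = 0
    · subst h0
      simp [hF0]
    · exact hq h0
  have hfin := (hL.congr hev).unique hR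
  have h7 : (PowerSeries.C (4 : ℂ)) = (4 : PowerSeries ℂ) := map_ofNat _ 4
  rw [h7] at hfin
  exact hfin

end

end Pool.Agent.NSGR


end

section

/-!
# MUX-NS, block GR, module BNP: a depleted series whose integral is a modular point, Legendre form (helper18; from helper6's G_Bin)
-/

set_option autoImplicit false

namespace Pool.Agent.NSGR

open _root_.MU3 _root_.Pool.Agent.MU3A _root_.Pool.Agent.MU3B _root_.Pool.Agent.MU3Q _root_.Pool.Agent.MUX _root_.Pool.Agent.NS
  _root_.Pool.Agent.NSRD _root_.Pool.Agent.NSG _root_.Pool.Agent.MUXN _root_.Pool.Agent.MuSym OnePoint UpperHalfPlane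
open _root_.Pool.Agent.MUXF (qb)
open scoped MatrixGroups

noncomputable section

namespace BNP

open _root_.Pool.Agent.MUXN.NBin

/-- `map` commutes with rescaling -/
theorem map_rescale {O : Type} [CommRing O] (ι : O →+* ℂ) (a : O) (f : PowerSeries O) :
    PowerSeries.map ι (PowerSeries.rescale a f) =
      PowerSeries.rescale (ι a) (PowerSeries.map ι f) := by
  ext n
  rw [PowerSeries.coeff_map, PowerSeries.coeff_rescale, PowerSeries.coeff_rescale,
    PowerSeries.coeff_map, map_mul, map_pow]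

/-- the coefficient of degree 12 of a 12th power -/
theorem coeff_pow12 {O : Type} [CommRing O] (G : PowerSeries O) (h0 : PowerSeries.coeff 0 G = 0) :
    PowerSeries.coeff 12 (G ^ 12) = PowerSeries.coeff 1 G ^ 12 := by
  have hX : PowerSeries.X ∣ G := by
    rw [PowerSeries.X_dvd_iff, ← PowerSeries.coeff_zero_eq_constantCoeff_apply]
    exact h0
  obtain ⟨H, rfl⟩ := hX
  have h1 : PowerSeries.coeff 1 (PowerSeries.X * H) = PowerSeries.coeff 0 H := by
    exact PowerSeries.coeff_succ_X_mul 0 H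
  rw [h1, mul_pow]
  have h2 := PowerSeries.coeff_X_pow_mul (H ^ 12) 12 0
  rw [zero_add] at h2
  rw [h2, PowerSeries.coeff_zero_eq_constantCoeff_apply, PowerSeries.coeff_zero_eq_constantCoeff_apply,
    map_pow]

/-- the equation of collinearity for `S = B/A` -/
theorem col_pull (ω c a2 a4 : ℂ) (A B S tA tB tS g : PowerSeries ℂ) (hAS : A * S = B)
    (hW : B * tA - A * tB = -(A ^ 2 * tS))
    (hcol : (S * PowerSeries.rescale ω S + S * PowerSeries.rescale (ω ^ 2) S +
          PowerSeries.rescale ω S * PowerSeries.rescale (ω ^ 2) S +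
          a2 • (S * PowerSeries.rescale ω S * PowerSeries.rescale (ω ^ 2) S)) *
        (tS * PowerSeries.rescale ω g * PowerSeries.rescale ω S ^ 2 +
          PowerSeries.rescale ω tS * g * S ^ 2) ^ 2 =
      4 * S * PowerSeries.rescale ω S * PowerSeries.rescale (ω ^ 2) S * g ^ 2 *
        PowerSeries.rescale ω g ^ 2 *
        (S ^ 2 + S * PowerSeries.rescale ω S + PowerSeries.rescale ω S ^ 2 +
          a2 • (S * PowerSeries.rescale ω S * (S + PowerSeries.rescale ω S)) +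
          a4 • (S ^ 2 * PowerSeries.rescale ω S ^ 2)) ^ 2) :
    PowerSeries.C c ^ 2 *
        (A * (PowerSeries.rescale ω) B * (PowerSeries.rescale (ω ^ 2)) B +
              (PowerSeries.rescale ω) A * B * (PowerSeries.rescale (ω ^ 2)) B +
            (PowerSeries.rescale (ω ^ 2)) A * B * (PowerSeries.rescale ω) B +
          PowerSeries.C a2 * B * (PowerSeries.rescale ω) B * (PowerSeries.rescale (ω ^ 2)) B) *
      (-(A ^ 2 * tS) * (PowerSeries.rescale ω) B ^ 2 *
            ((PowerSeries.rescale ω) (PowerSeries.C c) * (PowerSeries.rescale ω) g) +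
          ((PowerSeries.rescale ω) B * (PowerSeries.rescale ω) tA -
                (PowerSeries.rescale ω) A * (PowerSeries.rescale ω) tB) *
              B ^ 2 *
            (PowerSeries.C c * g)) ^ 2 =
    4 * B * (PowerSeries.rescale ω) B * (PowerSeries.rescale (ω ^ 2)) B *
        (PowerSeries.C c * g) ^ 2 *
        ((PowerSeries.rescale ω) (PowerSeries.C c) * (PowerSeries.rescale ω) g) ^ 2 *
      (A ^ 2 * (PowerSeries.rescale ω) B ^ 2 +
              A * (PowerSeries.rescale ω) A * B * (PowerSeries.rescale ω) B +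
              (PowerSeries.rescale ω) A ^ 2 * B ^ 2 +
            PowerSeries.C a2 * B * (PowerSeries.rescale ω) B *
              (A * (PowerSeries.rescale ω) B + (PowerSeries.rescale ω) A * B) +
          PowerSeries.C a4 * B ^ 2 * (PowerSeries.rescale ω) B ^ 2) ^ 2 := by
  have e1 : PowerSeries.rescale ω (PowerSeries.C c) = PowerSeries.C c := by
    ext n
    rw [PowerSeries.coeff_rescale, PowerSeries.coeff_C]
    split_ifs with h
    · rw [h, pow_zero, one_mul]
    · rw [mul_zero]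
  have e2 : PowerSeries.rescale ω B * PowerSeries.rescale ω tA -
      PowerSeries.rescale ω A * PowerSeries.rescale ω tB =
        -(PowerSeries.rescale ω A ^ 2 * PowerSeries.rescale ω tS) := by
    have := congrArg (PowerSeries.rescale ω) hW
    simpa only [map_sub, map_mul, map_neg, map_pow] using this
  rw [e1, e2, ← hAS]
  simp only [map_mul]
  rw [PowerSeries.smul_eq_C_mul, PowerSeries.smul_eq_C_mul, PowerSeries.smul_eq_C_mul] at hcol
  generalize PowerSeries.rescale ω A = A₁ at *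
  generalize PowerSeries.rescale (ω ^ 2) A = A₂ at *
  generalize PowerSeries.rescale ω S = S₁ at *
  generalize PowerSeries.rescale (ω ^ 2) S = S₂ at *
  generalize PowerSeries.rescale ω g = g₁ at *
  generalize PowerSeries.rescale ω tS = tS₁ at *
  generalize PowerSeries.C c = cc at *
  generalize PowerSeries.C a2 = b2 at *
  generalize PowerSeries.C a4 = b4 at *
  linear_combination cc ^ 4 * A ^ 5 * A₁ ^ 5 * A₂ * hcol

end BNP

open _root_.Pool.Agent.NSGR.BNP _root_.Pool.Agent.MUXN.NBin in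
/-- (BNP) a depleted series whose integral is a modular point of a curve in Legendre form. -/
theorem tv_BNP (hWQ : St_WQ) (hDV : Sg_DV) (hODU : Sv_ODU) (hCOL : Sv_COL) (hGPP : Sv_GPP) :
    Sv_BNP := by
  intro K _ V hv3 N hN hζ ω hωK hω L e lam heq hκK hκ hκ' Z z hQS hzK hz3 hden hcusp hper
  by_cases h1 : PowerSeries.coeff 1 z = 0
  · rw [h1, map_zero, zero_pow (by norm_num)]
    exact zero_le
  have hz0 : PowerSeries.coeff 0 z = 0 := hz3 0 (dvd_zero 3)
  have hκV : lam ∈ V := (V.valuation_le_one_iff _).1 hκ.le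
  have h3V : ((3 : ℕ) : ℂ) ∈ V.nonunits := by
    rw [ValuationSubring.mem_nonunits_iff]
    exact_mod_cast hv3
  have hDVR := hDV K V 3 Nat.prime_three h3V
  obtain ⟨c, hcK, hc0, hcV, hcz⟩ := hden
  have heq' : ∀ u : ℂ, u ∉ L.lattice → L.derivWeierstrassP u ^ 2 / 4 =
      (L.weierstrassP u + -e) ^ 3 + -(1 + lam) * (L.weierstrassP u + -e) ^ 2 +
        lam * (L.weierstrassP u + -e) + 0 := by
    intro u hu
    rw [heq u hu]
    ring
  have ha2K : -(1 + lam) ∈ K := K.neg_mem (K.add_mem K.one_mem hκK)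
  obtain ⟨S, -, S0, S1, S2, ode, A, hA, B, hB, hA0, hAS⟩ := hWQ K V N L (-e) (-(1 + lam))
    lam 0 Z z hN hζ ha2K hκK K.zero_mem heq' hzK hz0 h1 hQS hcusp hper
  have hOde : OdeS (-(1 + lam)) lam z S := by
    refine ⟨S0, S1, S2, ?_⟩
    rw [ode, zero_smul, add_zero]
  obtain ⟨S', hOde', hCol'⟩ := hCOL L (-e) (-(1 + lam)) lam 0 heq' rfl Z z hQS h1 hz3 ω hω
  have hSS : S = S' := hODU _ _ z S S' h1 hOde hOde'
  subst hSS
  have hS0 : S ≠ 0 := by
    rintro rfl
    rw [map_zero] at S2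
    exact h1 (pow_eq_zero_iff two_ne_zero |>.1 S2.symm)
  have hB0 : B ≠ 0 := by
    rw [← hAS]
    exact mul_ne_zero hA0 hS0
  have hthS : thetaD S ≠ 0 := by
    intro h
    have h2 := congrArg (PowerSeries.coeff 2) h
    rw [map_zero, thetaD, PowerSeries.coeff_mk, S2] at h2
    have h3 : PowerSeries.coeff 1 z ^ 2 ≠ 0 := pow_ne_zero 2 h1
    rcases mul_eq_zero.1 h2 with h5 | h5
    · norm_num at h5
    · exact h3 h5
  -- the wronskian
  have hW1 : B * thetaD A - A * thetaD B = -(A ^ 2 * thetaD S) := by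
    rw [← hAS, thetaD_mul]
    ring
  have hG : PowerSeries.C c * thetaD z ∈ PP K V := by
    intro n
    rw [PowerSeries.coeff_C_mul, thetaD, PowerSeries.coeff_mk]
    exact ⟨K.mul_mem hcK (K.mul_mem (natCast_mem K n) (hzK n)), hcz n⟩
  have hode : PowerSeries.C c ^ 2 * (B * thetaD A - A * thetaD B) ^ 2 =
      B * (4 * A ^ 3 + 4 * PowerSeries.C (-(1 + lam)) * A ^ 2 * B +
        4 * PowerSeries.C lam * A * B ^ 2) * (PowerSeries.C c * thetaD z) ^ 2 := by
    rw [hW1, neg_sq, mul_pow, ode, ← hAS, PowerSeries.smul_eq_C_mul, PowerSeries.smul_eq_C_mul,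
      PowerSeries.smul_eq_C_mul, map_zero]
    ring
  -- the ring
  have hωV1 : V.valuation ω = 1 := by
    have h3 := congrArg V.valuation hω.pow_eq_one
    rw [map_pow, map_one] at h3
    exact (pow_eq_one_iff_of_nonneg zero_le (by norm_num)).1 h3
  have hωV : ω ∈ V := (V.valuation_le_one_iff _).1 hωV1.le
  have hωeq : ω ^ 2 + ω + 1 = 0 := by
    have hne : ω ≠ 1 := hω.ne_one (by norm_num)
    have h3 : (ω - 1) * (ω ^ 2 + ω + 1) = 0 := by
      have := hω.pow_eq_one
      linear_combination this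
    exact (mul_eq_zero.1 h3).resolve_left (sub_ne_zero.2 hne)
  have h30 : (3 : ↥(V.comap K.subtype)) ≠ 0 := by
    intro h
    have := congrArg (io K V) h
    rw [map_ofNat, map_zero] at this
    norm_num at this
  have h20 : (2 : ↥(V.comap K.subtype)) ≠ 0 := by
    intro h
    have := congrArg (io K V) h
    rw [map_ofNat, map_zero] at this
    norm_num at this
  have h3u : ¬ IsUnit (3 : ↥(V.comap K.subtype)) := by
    intro h
    obtain ⟨y, hy⟩ := h.exists_right_inv
    have h4 := congrArg (fun t => V.valuation (io K V t)) hy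
    simp only [map_mul, map_ofNat, map_one] at h4
    have h5 : V.valuation (io K V y) ≤ 1 := (V.valuation_le_one_iff _).2 (io_mem y)
    have h6 : V.valuation (3 : ℂ) * V.valuation (io K V y) < 1 :=
      mul_lt_one_of_lt_of_le hv3 h5
    rw [h4] at h6
    exact lt_irrefl _ h6
  have h3K : (3 : ℂ) ∈ K := by exact_mod_cast natCast_mem K 3
  have ha2V2 : V.valuation (-(1 + lam)) ^ 2 ≤ V.valuation (3 : ℂ) := by
    rw [Valuation.map_neg]
    exact hκ'
  have ha2V : -(1 + lam) ∈ V := by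
    exact neg_mem (add_mem (one_mem V) hκV)
  have hv30 : V.valuation (3 : ℂ) ≠ 0 := by
    rw [Ne, map_eq_zero]
    norm_num
  have hdiv : (3 : ↥(V.comap K.subtype)) ∣ (el (-(1 + lam)) ha2K ha2V) ^ 2 := by
    have hqK : (-(1 + lam)) ^ 2 / 3 ∈ K := K.div_mem (K.pow_mem ha2K 2) h3K
    have hqV : (-(1 + lam)) ^ 2 / 3 ∈ V := by
      rw [← V.valuation_le_one_iff, map_div₀, map_pow]
      exact div_le_one_of_le₀ ha2V2 zero_le
    refine ⟨el _ hqK hqV, io_inj K V ?_⟩
    rw [map_pow, map_mul, io_el, io_el, map_ofNat]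
    ring
  have hωO : (el ω hωK hωV) ^ 2 + el ω hωK hωV + 1 = 0 := by
    apply io_inj K V
    rw [map_add, map_add, map_pow, map_one, map_zero, io_el]
    exact hωeq
  have hW0 : (lft B hB * tth (lft A hA) - lft A hA * tth (lft B hB)) ≠ 0 := by
    intro h
    have := congrArg (PowerSeries.map (io K V)) h
    rw [map_sub, map_mul, map_mul, map_tth, map_tth, map_lft, map_lft, map_zero, hW1,
      neg_eq_zero] at this
    exact mul_ne_zero (pow_ne_zero 2 hA0) hthS this
  have hmW : PowerSeries.map (io K V)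
      (lft B hB * tth (lft A hA) - lft A hA * tth (lft B hB)) = -(A ^ 2 * thetaD S) := by
    rw [map_sub, map_mul, map_mul, map_tth, map_tth, map_lft, map_lft, hW1]
  have hdvd := hGPP ↥(V.comap K.subtype) h30 h3u h20 (el ω hωK hωV) hωO
    (el (-(1 + lam)) ha2K ha2V) (el lam hκK hκV) hdiv (el_unit hκK hκV hκ)
    (lft A hA) (lft B hB) (lft _ hG) (el c hcK hcV) (by
      intro h
      have := congrArg (io K V) h
      rw [io_el, map_zero] at this
      exact hc0 this)
    (lft B hB * tth (lft A hA) - lft A hA * tth (lft B hB)) (by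
      intro h
      have := congrArg (PowerSeries.map (io K V)) h
      rw [map_lft, map_zero] at this
      exact hB0 this) (by
      intro h
      have := congrArg (PowerSeries.map (io K V)) h
      rw [map_lft, map_zero] at this
      exact hA0 this) hW0 rfl (by
      apply mapι_inj (io_inj K V)
      simp only [map_mul, map_pow, map_sub, map_add, map_tth, map_ofNat, PowerSeries.map_C,
        map_lft, io_el]
      exact hode)
    _ _ _ _ _ _ rfl rfl rfl rfl rfl rfl (by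
      apply mapι_inj (io_inj K V)
      simp only [map_mul, map_pow, map_sub, map_add, map_tth, map_ofNat, PowerSeries.map_C,
        map_lft, io_el, map_rescale, hmW]
      exact col_pull ω c (-(1 + lam)) lam A B S (thetaD A) (thetaD B) (thetaD S) (thetaD z) hAS
        hW1 hCol')
  obtain ⟨G', hG'⟩ := hdvd
  have hG0 : PowerSeries.coeff 0 (lft _ hG) = 0 := by
    apply io_inj K V
    rw [lft, PowerSeries.coeff_mk, io_el, map_zero, PowerSeries.coeff_C_mul, thetaD,
      PowerSeries.coeff_mk, hz0, mul_zero, mul_zero]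
  have h9 := congrArg (PowerSeries.coeff 12) hG'
  rw [PowerSeries.coeff_C_mul, coeff_pow12 _ hG0] at h9
  have h10 := congrArg (io K V) h9
  rw [map_pow, map_mul, map_mul, map_pow, map_ofNat, io_el, lft, PowerSeries.coeff_mk, io_el,
    PowerSeries.coeff_C_mul, thetaD, PowerSeries.coeff_mk, Nat.cast_one, one_mul] at h10
  have h11 : PowerSeries.coeff 1 z ^ 12 = 3 * io K V (PowerSeries.coeff 12 G') := by
    have hc12 : c ^ 12 ≠ 0 := pow_ne_zero 12 hc0
    apply mul_left_cancel₀ hc12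
    rw [← mul_pow, h10]
    ring
  rw [← map_pow, h11, map_mul]
  exact mul_le_of_le_one_right' ((V.valuation_le_one_iff _).2 (io_mem _))

end

end Pool.Agent.NSGR


end

section

/-!
# NS, block GN, module GJ: the forms `g_j` (helper6; adapted from `MUX/N_GJ.lean`)
-/

set_option autoImplicit false

namespace Pool.Agent.NSG

open _root_.MU3 _root_.Pool.Agent.MU3A _root_.Pool.Agent.MU3B _root_.Pool.Agent.MU3Q _root_.Pool.Agent.MUX _root_.Pool.Agent.NS
  _root_.Pool.Agent.MUXN _root_.Pool.Agent.MuSym OnePoint UpperHalfPlane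
open scoped MatrixGroups

noncomputable section

open _root_.Pool.Agent.MUXN.N_GJ _root_.Pool.Agent.MU3G in
theorem tn_GJ (hWQ : St_WQ) (hGP : Sg_GP) (hDV : Sg_DV) (h2 : Sg_RET) (h3 : Sg_NFE) : Sn_GJ := by
  classical
  intro A B hc J _ Ψ Θ α₁ Om N' hG V p hp hpV h2V hLoc L' el lam hL r h hh hfg w hw y hy
  have hOm0 : Om ≠ 0 := hL.om0
  choose α hα using fun j => hG.qexp j
  choose Kα hKα using fun j => (hα j).2.1
  -- generators of the fields of coefficients
  have hgen : ∀ c : J, ∃ S : Finset ℂ, (∀ x ∈ S, IsAlgebraic ℚ x) ∧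
      ∀ K' : Subfield ℂ, (∀ x ∈ S, x ∈ K') → Kα c ≤ K' := by
    intro c
    have := (hKα c).1
    exact gens _
  choose Sg hSg1 hSg2 using hgen
  set Pm : Fin r → J → ℂ := fun l' c => Ψ c ∞
      (mob (h l' 0 0) (h l' 0 1) (h l' 1 0) (h l' 1 1) ∞) / Om with hPm
  have hPmalg : ∀ l' c, IsAlgebraic ℚ (Pm l' c) := fun l' c => hG.alg c _ _
  have hN' : N' ≠ 0 := hG.pos.ne'
  have hζ : IsAlgebraic ℚ (Complex.exp (2 * Real.pi * Complex.I / N')) := by
    have hp := (Complex.isPrimitiveRoot_exp N' hN').pow_eq_one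
    have : IsIntegral ℚ (Complex.exp (2 * Real.pi * Complex.I / N')) := by
      refine ⟨Polynomial.X ^ N' - Polynomial.C 1, Polynomial.monic_X_pow_sub_C 1 hN', ?_⟩
      simp [hp]
    exact this.isAlgebraic
  obtain ⟨K, hKnf, hK⟩ := h3 ((Finset.univ.image fun q : Fin r × J => Pm q.1 q.2) ∪
    Finset.univ.image w ∪ {lam} ∪ {Complex.exp (2 * Real.pi * Complex.I / N')} ∪
    {wC A B} ∪ Finset.univ.biUnion Sg) (by
      intro x hx
      simp only [Finset.mem_union, Finset.mem_image, Finset.mem_univ, true_and,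
        Finset.mem_singleton, Finset.mem_biUnion] at hx
      rcases hx with ((((⟨q, rfl⟩ | ⟨i, rfl⟩) | rfl) | rfl) | rfl) | ⟨c, hc'⟩
      · exact hPmalg _ _
      · exact kk_alg hc (hw i).1
      · exact hL.alg
      · exact hζ
      · exact ((wC_int hc).tower_top (A := ℚ)).isAlgebraic
      · exact hSg1 c x hc')
  simp only [Finset.mem_union, Finset.mem_image, Finset.mem_univ, true_and,
    Finset.mem_singleton, Finset.mem_biUnion] at hK
  have hKP : ∀ l' c, Pm l' c ∈ K := fun l' c => hK _ (by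
    left; left; left; left; left; exact ⟨(l', c), rfl⟩)
  have hKw : ∀ i, w i ∈ K := fun i => hK _ (by left; left; left; left; right; exact ⟨i, rfl⟩)
  have hKlam : lam ∈ K := hK _ (by left; left; left; right; rfl)
  have hKζ : Complex.exp (2 * Real.pi * Complex.I / N') ∈ K := hK _ (by left; left; right; rfl)
  have hKwC : wC A B ∈ K := hK _ (by left; right; rfl)
  have hKS : ∀ c : J, Kα c ≤ K := fun c => hSg2 c K fun x hx => hK x (by right; exact ⟨c, hx⟩)
  have hKemb : ∀ x : OO A B, emb x ∈ K := fun x =>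
    K.add_mem (intCast_mem _ _) (K.mul_mem (intCast_mem _ _) hKwC)
  obtain ⟨y', hy'K, hy'⟩ := h2 K J r (fun c i => Pm i c) w (fun c i => hKP i c) hKw y hy
  obtain ⟨t, ht1, ht⟩ := hLoc (Finset.univ.image w) (by
    intro x hx
    obtain ⟨i, -, rfl⟩ := Finset.mem_image.1 hx
    exact hw i)
  refine ⟨y', hy', ?_⟩
  have hαK : ∀ c : J, ∀ n, α c n ∈ K := fun c n => hKS c ((hKα c).2 n)
  have hαV : ∀ c : J, ∀ n, α c n ∈ V := fun c n =>
    Pool.Agent.MU3A2.mem_of_integral ((hα c).1 n)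
  set Z : ℍ → ℂ := fun τ => emb t * ∑ c : J, y' c * Θ c (τ : ℂ) with hZ
  set z : PowerSeries ℂ := PowerSeries.mk fun n =>
    emb t * ∑ c : J, y' c * (α c n / n) with hz
  have hzn : ∀ n, PowerSeries.coeff n z = emb t * ∑ c : J, y' c * (α c n / n) :=
    fun n => by rw [hz, PowerSeries.coeff_mk]
  have hsmul : ∀ (γ : SL(2, ℤ)) (τ : ℍ), ((γ • τ : ℍ) : ℂ) =
      (((γ 0 0 : ℤ) : ℂ) * τ + ((γ 0 1 : ℤ) : ℂ)) /
          (((γ 1 0 : ℤ) : ℂ) * τ + ((γ 1 1 : ℤ) : ℂ)) := by
    intro γ τ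
    rw [UpperHalfPlane.specialLinearGroup_apply]
    simp
  have hQS : QS Z z := by
    intro τ
    have hs := (hasSum_sum (s := Finset.univ) fun c (_ : c ∈ (Finset.univ : Finset J)) =>
      ((hα c).2.2.2 (τ : ℂ) τ.2).mul_left (y' c)).mul_left (emb t)
    have e2 : (fun n : ℕ => PowerSeries.coeff n z * qq τ ^ n) = fun n : ℕ =>
        emb t * ∑ c : J, y' c * (α c n / n *
          Complex.exp (2 * Real.pi * Complex.I * (τ : ℂ)) ^ n) := by
      funext n
      rw [hzn n, qq, mul_assoc, Finset.sum_mul]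
      congr 1
      refine Finset.sum_congr rfl fun c _ => ?_
      ring
    rw [e2]
    exact hs
  have hcusp : ∀ γ : SL(2, ℤ), ∃ (C : ℂ) (w : ℕ → ℂ), ∀ τ : ℍ, HasSum (fun n : ℕ => w n *
      Complex.exp (2 * Real.pi * Complex.I * (τ : ℂ) / N') ^ (n + 1)) (Z (γ • τ) - C) := by
    intro γ
    choose C W hW using fun c : J => hG.cusp c (γ 0 0) (γ 0 1) (γ 1 0) (γ 1 1)
      (G6c.det_eq γ)
    refine ⟨emb t * ∑ c : J, y' c * C c, fun n => emb t * ∑ c : J, y' c * W c n, ?_⟩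
    intro τ
    have hs := (hasSum_sum (s := Finset.univ) fun c (_ : c ∈ (Finset.univ : Finset J)) =>
      (hW c (τ : ℂ) τ.2).mul_left (y' c)).mul_left (emb t)
    have e1 : (fun n : ℕ => (emb t * ∑ c : J, y' c * W c n) *
        Complex.exp (2 * Real.pi * Complex.I * (τ : ℂ) / N') ^ (n + 1)) = fun n : ℕ =>
        emb t * ∑ c : J, y' c * (W c n *
          Complex.exp (2 * Real.pi * Complex.I * (τ : ℂ) / N') ^ (n + 1)) := by
      funext n
      rw [mul_assoc, Finset.sum_mul]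
      congr 1
      refine Finset.sum_congr rfl fun c _ => ?_
      ring
    have e2 : Z (γ • τ) - emb t * ∑ c : J, y' c * C c = emb t * ∑ c : J, y' c *
        (Θ c ((((γ 0 0 : ℤ) : ℂ) * τ + ((γ 0 1 : ℤ) : ℂ)) /
          (((γ 1 0 : ℤ) : ℂ) * τ + ((γ 1 1 : ℤ) : ℂ))) - C c) := by
      rw [hZ]
      beta_reduce
      rw [← mul_sub, ← Finset.sum_sub_distrib, hsmul]
      congr 1
      refine Finset.sum_congr rfl fun c _ => ?_
      ring
    rw [e1, e2]
    exact hs
  -- the periods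
  set ρ : SL(2, ℤ) → ℂ := fun g => ∑ c : J, y' c * (Ψ c ∞ (G6c.mI g) / Om) with hρ
  have hρadd : ∀ g ∈ CongruenceSubgroup.Gamma1 N', ∀ g' ∈ CongruenceSubgroup.Gamma1 N',
      ρ (g * g') = ρ g + ρ g' := by
    intro g hg g' hg'
    rw [hρ]
    beta_reduce
    rw [← Finset.sum_add_distrib]
    refine Finset.sum_congr rfl fun c _ => ?_
    obtain ⟨m1, m2⟩ := G6c.mem1 hg
    have a1 := hG.add c ∞ (G6c.mI g) (G6c.mI (g * g'))
    have a2 := hG.inv c (g 0 0) (g 0 1) (g 1 0) (g 1 1) (G6c.det_eq g) m1 m2 ∞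
      (G6c.mI g')
    rw [← G6c.mI_mul] at a2
    have a3 : mob (g 0 0) (g 0 1) (g 1 0) (g 1 1) ∞ = G6c.mI g := rfl
    rw [a3] at a2
    rw [← a1, a2]
    ring
  have hM : ∀ g ∈ CongruenceSubgroup.Gamma1 N', ∃ c : OO A B, emb t * ρ g = emb c := by
    let M : AddSubgroup ℂ := AddSubgroup.comap (AddMonoidHom.mulLeft (emb t))
      (AddMonoidHom.range (eHom hc).toAddMonoidHom)
    have hMm : ∀ x, x ∈ M ↔ ∃ c : OO A B, emb t * x = emb c := by
      intro x
      constructor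
      · rintro ⟨c, hc'⟩
        refine ⟨c, ?_⟩
        have e1 : emb t * x = eHom hc c := hc'.symm
        rw [e1, eHom_apply hc]
      · rintro ⟨c, hc'⟩
        refine ⟨c, ?_⟩
        rw [← eHom_apply hc] at hc'
        rw [eHom_apply hc] at hc'
        show (eHom hc) c = emb t * x
        rw [eHom_apply hc, hc']
    intro g hg
    rw [← hMm]
    refine hfg ρ hρadd M (fun i => ?_) g hg
    rw [hMm]
    have e1 : ρ (h i) = w i := hy' i
    rw [e1]
    exact ht _ (Finset.mem_image_of_mem w (Finset.mem_univ i))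
  have hper : ∀ γ ∈ CongruenceSubgroup.Gamma1 N', ∀ τ : ℍ, Z (γ • τ) - Z τ ∈ L'.lattice := by
    intro γ hγ τ
    obtain ⟨m1, m2⟩ := G6c.mem1 hγ
    obtain ⟨x, hx⟩ := hM γ hγ
    rw [hL.mem]
    refine ⟨x, ?_⟩
    have e1 : Z (γ • τ) - Z τ = Om * (emb t * ρ γ) := by
      rw [hZ, hρ]
      beta_reduce
      rw [hsmul, ← mul_sub, ← Finset.sum_sub_distrib, mul_left_comm Om (emb t), Finset.mul_sum _ _ Om]
      congr 1
      refine Finset.sum_congr rfl fun c _ => ?_
      rw [hG.per c (γ 0 0) (γ 0 1) (γ 1 0) (γ 1 1) (G6c.det_eq γ) m1 m2 (τ : ℂ) τ.2]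
      have a3 : mob (γ 0 0) (γ 0 1) (γ 1 0) (γ 1 1) ∞ = G6c.mI γ := rfl
      rw [a3]
      field_simp
      ring
    rw [e1, hx]
  -- the denominators
  choose q hqK hq0 hqV hqy using fun c => denom K V (y' c) (hy'K c)
  have hden : ∃ c ∈ K, c ≠ 0 ∧ c ∈ V ∧ ∀ n : ℕ, c * (n * PowerSeries.coeff n z) ∈ V := by
    refine ⟨∏ c, q c, K.prod_mem fun c _ => hqK c, Finset.prod_ne_zero_iff.2 fun c _ => hq0 c,
      prod_mem fun c _ => hqV c, ?_⟩
    intro m
    by_cases hm : m = 0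
    · rw [hm]
      simp
    · have e1 : (∏ c, q c) * (m * PowerSeries.coeff m z) = ∑ c : J,
          (emb t * (∏ c' ∈ Finset.univ.erase c, q c')) * (q c * y' c) * α c m := by
        rw [hzn, mul_left_comm (m : ℂ), Finset.mul_sum, mul_left_comm, Finset.mul_sum,
          Finset.mul_sum]
        refine Finset.sum_congr rfl fun c _ => ?_
        rw [← Finset.mul_prod_erase Finset.univ q (Finset.mem_univ c)]
        have : (m : ℂ) ≠ 0 := by exact_mod_cast hm
        field_simp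
      rw [e1]
      exact sum_mem fun c _ => V.mul_mem _ _ (V.mul_mem _ _ (V.mul_mem _ _ (emb_mem_V hc V t)
        (prod_mem fun c _ => hqV c)) (hqy c)) (hαV c m)
  have hfin := bin_leg hWQ hGP hDV K V p hp hpV h2V N' hG.pos hKζ L' el lam hL.eq hKlam hL.v1
    hL.v2 Z z hQS
    (fun m => by
      rw [hzn]
      exact K.mul_mem (hKemb t) (sum_mem fun c _ => K.mul_mem (hy'K c)
        (K.div_mem (hαK c m) (natCast_mem _ _))))
    (by rw [hzn]; simp) hden hcusp hper
  rw [hzn] at hfin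
  have e1 : (∑ c : J, y' c * (α c 1 / (1 : ℕ))) = ∑ c : J, y' c * α₁ c := by
    refine Finset.sum_congr rfl fun c _ => ?_
    rw [(hα c).2.2.1]
    simp
  rw [e1] at hfin
  have ht0 : emb t ≠ 0 := by
    intro h0
    rw [h0, map_zero] at ht1
    exact zero_ne_one ht1
  have ht2 : (emb t)⁻¹ ∈ V := by
    rw [← V.valuation_le_one_iff, map_inv₀, ht1, inv_one]
  have := V.mul_mem _ _ ht2 hfin
  rwa [inv_mul_cancel_left₀ ht0] at this

end

end Pool.Agent.NSG


end
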