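import Mathlib
import Pool.Agent.MVF.C108
import Pool.Agent.MVF.C116
import Pool.Agent.MVF.C150

/-! Parts: NS.G_Unn, NS.G_Gpt, NS.GR_GPR, NS.GR_GPP -/

section

/-!
# NS, block GN (helper6): units for `3` inert, `D ≠ -4` (after helper58's `N_UNIT`)
-/

set_option autoImplicit false

namespace Pool.Agent.NSG

open _root_.MU3 _root_.Pool.Agent.MUX _root_.Pool.Agent.NS

theorem unit_I (h : MUXF.Sx_IDL) (h' : MUXF.Sx_NIM) (A B : ℤ) (hc : CaseI A B) :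
    (∀ x : OO A B, nm x = 1 → x = 1 ∨ x = -1) ∧
    ∀ (b : Ideal (OO A B)) (_ : b ≠ ⊥) (x : OO A B), x ∈ b → nm x = MUX.nI b → b = MUX.sp x := by
  have hD : 5 ≤ -(B ^ 2 + 4 * A) := by
    have h3 := hc.three
    have hex := hc.exc
    have hn := hc.neg
    rcases hc.hB with hB | hB
    · subst hB
      simp only [ne_eq, OfNat.ofNat_ne_zero, not_false_eq_true, zero_pow, zero_add, true_and] at h3 hn hex ⊢
      omega
    · subst hB
      simp only [one_pow] at h3 hn ⊢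
      omega
  refine ⟨fun x hx => ?_, fun b hb x hx hn => ?_⟩
  · have h4 : (2 * x.re + B * x.im) ^ 2 + -(B ^ 2 + 4 * A) * x.im ^ 2 = 4 := by
      unfold nm at hx
      linear_combination 4 * hx
    have him : x.im = 0 := by
      by_contra him
      have h1 : 1 ≤ x.im ^ 2 := by
        have : 0 < x.im ^ 2 := by positivity
        omega
      nlinarith [sq_nonneg (2 * x.re + B * x.im)]
    have hre : x.re ^ 2 = 1 := by
      rw [him] at h4
      linarith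
    rcases (sq_eq_sq_iff_eq_or_eq_neg.1 (hre.trans (one_pow 2).symm)) with h1 | h1
    · left
      ext
      · exact h1
      · exact him
    · right
      ext
      · exact h1
      · exact him
  · have hcq : MUXF.CQ A B := MUXY.cqF hc.toCQ
    have hn0 : MUX.nI b ≠ 0 := (h A B hcq b hb).1
    obtain ⟨-, h2, -, -⟩ := h' A B hcq
    have hx0 : x ≠ 0 := by
      rintro rfl
      apply hn0
      have : nm (0 : OO A B) = 0 := by
        unfold nm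
        simp
      rw [this] at hn
      exact_mod_cast hn.symm
    have hle : sp x ≤ b := (Ideal.span_singleton_le_iff_mem b).2 hx
    have hcard : Nat.card (OO A B ⧸ sp x) = Nat.card (OO A B ⧸ b) := by
      have h3 := (h2 x).resolve_right hx0
      have h4 : (nm x).natAbs = MUX.nI b := by
        rw [hn]
        simp
      exact h3.trans h4
    have : Finite (OO A B ⧸ sp x) := by
      apply Nat.finite_of_card_ne_zero
      rw [hcard]
      exact hn0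
    have hbij := Function.Surjective.bijective_of_nat_card_le (Ideal.Quotient.factor_surjective hle)
      hcard.le
    apply le_antisymm _ hle
    intro y hy
    rw [← Ideal.Quotient.eq_zero_iff_mem]
    apply hbij.injective
    rw [map_zero, Ideal.Quotient.factor_mk]
    exact Ideal.Quotient.eq_zero_iff_mem.2 hy

end Pool.Agent.NSG


end

section

/-!
# NS, block GN (helper6): Theorem G for `PT (PhiK R e kk / (u om))`
-/

set_option autoImplicit false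

namespace Pool.Agent.NSG

open _root_.MU3 _root_.Pool.Agent.MU3A _root_.Pool.Agent.MU3B _root_.Pool.Agent.MU3Q _root_.Pool.Agent.MUX _root_.Pool.Agent.MuSym
  _root_.Pool.Agent.MUXN _root_.Pool.Agent.NS OnePoint UpperHalfPlane

noncomputable section

/-- Theorem G for `P_t`, `P = PhiK R e kk / (u om_(i0))` -/
def Sn_GPT : Prop :=
  ∀ (A B : ℤ) (V : ValuationSubring ℂ) (f : ℕ), SetN A B V f → TorX A B →
    ∀ (ι : Type) [Fintype ι] (R : Reps A B (3 * f) ι) (u el lam : ℂ),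
    GoodN V (R.L R.i0) u el lam → ∀ e : OO A B → ℂ, IsEI (idl (A := A) (B := B) (3 * f)) e →
    ∀ r : ℕ, r ≠ 0 → (∀ x, e x ≠ 0 → e x ^ r = 1) → ∀ kk : ι → ℂ, V.valuation (kk R.i0) = 1 →
    ∀ N' : ℕ, N' ≠ 0 → absD A B * ((3 * f : ℕ) : ℤ) ^ 2 ∣ (N' : ℤ) →
    ∃ a b c d : ℤ, a * d - b * c = 1 ∧ (N' : ℤ) ∣ c ∧ (N' : ℤ) ∣ d - 1 ∧
      V.valuation (3 : ℂ) ≤ V.valuation (MUXHN.PT (fun x y => PhiK R e kk x y / (u * R.om R.i0)) ∞
        (mob a b c d ∞)) ^ 18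

theorem z27_prim : IsPrimitiveRoot z27 27 := by
  have := Complex.isPrimitiveRoot_exp 27 (by norm_num)
  unfold z27
  exact_mod_cast this

theorem mob_zero (x : OnePoint ℚ) : mob 27 (0 : ℤ) 0 27 x = x := by
  induction x using OnePoint.rec with
  | infty => exact Trl.mob_inf 27 0
  | coe r =>
    rw [Trl.mob_tr]
    simp

theorem sumF (a b : ℂ) (G : Fin 27 → ℂ) :
    ∑ t, (if t = 0 then a else if t = 1 then b else 0) * G t = a * G 0 + b * G 1 := by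
  rw [Fin.sum_univ_succ, Fin.sum_univ_succ]
  have h1 : ∑ i : Fin 25, (if i.succ.succ = (0 : Fin 27) then a else
      if i.succ.succ = (1 : Fin 27) then b else 0) * G i.succ.succ = 0 := by
    refine Finset.sum_eq_zero fun i _ => ?_
    rw [if_neg (Fin.succ_ne_zero _), if_neg, zero_mul]
    intro h
    have := congrArg Fin.val h
    simp at this
  rw [h1, add_zero]
  rfl

theorem gPT (hS : MUXU.Su_SCX) (hG : Sn_GTH) (h2 : MUXT.Xs_FTI)
    (h3 : MUXF.Sx_CHI) (h4 : MUXY.Sy_CON) (h5 : MUXY.Sy_ALP)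
    (h7 : MUXY.Sy_FEC) (h8 : MUXY.Sy_COP) (hA : MUXF.Sx_ALG) (hI : MUXF.Sx_IDL)
    (hN : MUXF.Sx_NIM) (hQB : MUXF.Sx_QB)
    (hBD : MUXF.Sx_BDD) (hTS : MUXF.Sx_TSM) : Sn_GPT := by
  classical
  intro A B V f hSN hT ι _ R u el lam hg e he r hr her kk hkk N' hN' hNd
  have hc : CQ A B := hSN.case.toCQ
  obtain ⟨u1, u2⟩ := unit_I hI hN A B hSN.case
  have hv3 : V.valuation (3 : ℂ) < 1 := v3 hSN.hV
  have hv2 : V.valuation (2 : ℂ) = 1 := by
    have := vN V hv3 2 (by norm_num)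
    exact_mod_cast this
  obtain ⟨L', hL'⟩ := legN hS hc hT R hv3 hg
  have hn : 2 ≤ 3 * f := by
    have := Nat.pos_of_ne_zero hSN.f0
    omega
  have hD := gdat h2 h3 h4 h5 h7 h8 hA hI hQB hBD hTS hc u1 u2 hT hn R e he r hr her u hg.u0
    (leg_alg hc hT (R.nl R.i0) hg).1 N' hN' hNd
  have hfE : Finite (EC e) := (h7 A B e r hr her).1
  have hFt : Fintype (EC e) := Fintype.ofFinite _
  have heE : e ∈ EC e := ⟨RingEquiv.refl ℂ, rfl⟩
  have hz1 : (1 : ℂ) - z27 ≠ 0 := by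
    intro h0
    have h1 : z27 = 1 := by linear_combination -h0
    have h2 := z27_prim.ne_one (by norm_num)
    exact h2 h1
  set w : ι × EC e × Fin 27 → ℂ := fun j => if j.2.1 = ⟨e, heE⟩ then
    (if j.2.2 = 0 then kk j.1 / (1 - z27) else if j.2.2 = 1 then -(kk j.1 / (1 - z27)) else 0)
    else 0 with hw
  have hsum : ∀ F : ι × EC e × Fin 27 → ℂ, ∑ j, w j * F j =
      ∑ i, (kk i / (1 - z27) * F (i, ⟨e, heE⟩, 0) + -(kk i / (1 - z27)) * F (i, ⟨e, heE⟩, 1)) := by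
    intro F
    rw [Fintype.sum_prod_type]
    refine Finset.sum_congr rfl fun i _ => ?_
    rw [Fintype.sum_prod_type, Finset.sum_eq_single (⟨e, heE⟩ : EC e)]
    · refine Eq.trans ?_ (sumF (kk i / (1 - z27)) (-(kk i / (1 - z27)))
        (fun t => F (i, ⟨e, heE⟩, t)))
      refine Finset.sum_congr rfl fun t _ => ?_
      rw [hw]
      beta_reduce
      rw [if_pos rfl]
    · intro e' _ he'
      refine Finset.sum_eq_zero fun t _ => ?_
      rw [hw]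
      beta_reduce
      rw [if_neg he', zero_mul]
    · intro h
      exact absurd (Finset.mem_univ _) h
  have hα : ∑ j, w j * a1T R e j = kk R.i0 := by
    rw [hsum, Finset.sum_eq_single R.i0]
    · unfold a1T
      rw [if_pos rfl, if_pos rfl]
      have e0 : ((0 : Fin 27) : ℕ) = 0 := rfl
      have e1 : ((1 : Fin 27) : ℕ) = 1 := rfl
      rw [e0, e1]
      field_simp
      ring
    · intro i _ hi
      unfold a1T
      rw [if_neg hi, if_neg hi]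
      ring
    · intro h
      exact absurd (Finset.mem_univ _) h
  obtain ⟨a, b, c, d, k1, k2, k3, k4⟩ := hG A B hc (ι × EC e × Fin 27) (PsT R e) (ThT R e)
    (a1T R e) (u * R.om R.i0) (729 * N') hD V 3 Nat.prime_three
    (by
      rw [ValuationSubring.mem_nonunits_iff]
      exact_mod_cast hv3) hv2 (loc_I A B hc V hSN.hV) L' (el / u ^ 2) lam hL' w (by
      rw [hα, ValuationSubring.mem_nonunits_iff, hkk]
      exact lt_irrefl _)
  have hcast : ((729 * N' : ℕ) : ℤ) = 729 * (N' : ℤ) := by push_cast; ring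
  rw [hcast] at k2 k3
  refine ⟨a, b, c, d, k1, dvd_trans (Dvd.intro_left _ rfl) k2, dvd_trans (Dvd.intro_left _ rfl) k3,
    ?_⟩
  rw [ValuationSubring.mem_nonunits_iff, not_lt, hsum] at k4
  have e2 : (∑ i, (kk i / (1 - z27) * PsT R e (i, ⟨e, heE⟩, 0) ∞ (mob a b c d ∞) +
      -(kk i / (1 - z27)) * PsT R e (i, ⟨e, heE⟩, 1) ∞ (mob a b c d ∞))) / (u * R.om R.i0) =
      MUXHN.PT (fun x y => PhiK R e kk x y / (u * R.om R.i0)) ∞ (mob a b c d ∞) / (1 - z27) := by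
    have e3 : MUXHN.PT (fun x y => PhiK R e kk x y / (u * R.om R.i0)) ∞ (mob a b c d ∞) =
        (∑ i, (kk i * PhiI (R.b i) e ∞ (mob a b c d ∞) -
          kk i * PhiI (R.b i) e (mob 27 1 0 27 ∞) (mob 27 1 0 27 (mob a b c d ∞)))) /
          (u * R.om R.i0) := by
      unfold MUXHN.PT PhiK
      rw [← sub_div, ← Finset.sum_sub_distrib]
    rw [e3, div_right_comm _ (u * R.om R.i0)]
    refine congrArg (fun t => t / (u * R.om R.i0)) ?_
    rw [Finset.sum_div]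
    refine Finset.sum_congr rfl fun i _ => ?_
    have e0 : PsT R e (i, ⟨e, heE⟩, 0) ∞ (mob a b c d ∞) = PhiI (R.b i) e ∞ (mob a b c d ∞) := by
      have f1 : (((0 : Fin 27) : ℕ) : ℤ) = 0 := rfl
      unfold PsT
      dsimp only
      rw [f1, mob_zero, mob_zero]
    have e1 : PsT R e (i, ⟨e, heE⟩, 1) ∞ (mob a b c d ∞) =
        PhiI (R.b i) e (mob 27 1 0 27 ∞) (mob 27 1 0 27 (mob a b c d ∞)) := by
      have f1 : (((1 : Fin 27) : ℕ) : ℤ) = 1 := rfl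
      unfold PsT
      dsimp only
      rw [f1]
    rw [e0, e1]
    ring
  rw [e2, map_div₀] at k4
  have h27 : V.valuation (z27 - 1) ^ 18 = V.valuation (3 : ℂ) := by
    have := MUXH.Hz.val_p 3 Nat.prime_three V 2 z27 (by
      have : (3 : ℕ) ^ (2 + 1) = 27 := by norm_num
      rw [this]
      exact z27_prim)
    norm_num at this
    exact this
  have hz2 : V.valuation (1 - z27) = V.valuation (z27 - 1) := by
    rw [← neg_sub, Valuation.map_neg]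
  have hz3 : (0 : V.ValueGroup) < V.valuation (1 - z27) :=
    zero_lt_iff.2 ((Valuation.ne_zero_iff _).2 hz1)
  rw [← h27, ← hz2]
  have k5 : V.valuation (1 - z27) ≤
      V.valuation (MUXHN.PT (fun x y => PhiK R e kk x y / (u * R.om R.i0)) ∞ (mob a b c d ∞)) := by
    have := (le_div_iff₀ hz3).1 k4
    rw [one_mul] at this
    exact this
  exact pow_le_pow_left₀ zero_le k5 18

end

end Pool.Agent.NSG


end

section

/-!
# NS, block GR, module GPR (helper31): Theorem G+ for `PT (PhiK R e kk / (u om))`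

The proof follows `gPT` (`Pool/Agent/NS/G_Gpt.lean`, helper6).
-/

set_option autoImplicit false

namespace Pool.Agent.NSGR

open _root_.MU3 _root_.Pool.Agent.MU3A _root_.Pool.Agent.MU3B _root_.Pool.Agent.MU3Q _root_.Pool.Agent.MUX _root_.Pool.Agent.NS
  _root_.Pool.Agent.NSRD _root_.Pool.Agent.NSG _root_.Pool.Agent.MUXN _root_.Pool.Agent.MuSym OnePoint UpperHalfPlane
open _root_.Pool.Agent.MUXF (qb)
open scoped MatrixGroups

noncomputable section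

/-- `v 3 < 1` -/
theorem GPR.v3 {A B : ℤ} {P : Ideal (OO A B)} {V : ValuationSubring ℂ} (hP : IsPN 3 P)
    (hV : OverI V P) : V.valuation (3 : ℂ) < 1 := by
  have h1 := (hV ((3 : ℕ) : OO A B)).2 hP.mem
  rw [ValuationSubring.mem_nonunits_iff] at h1
  have h2 : emb ((3 : ℕ) : OO A B) = (3 : ℂ) := by
    unfold emb
    rw [QuadraticAlgebra.re_natCast, QuadraticAlgebra.im_natCast]
    norm_num
  rw [h2] at h1
  exact h1

/-- `1 + ζ^t + ζ^(2t) = 0` -/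
theorem GPR.exp3 (t : ℤ) (ht : ¬ (3 : ℤ) ∣ t) :
    1 + Complex.exp (2 * Real.pi * Complex.I * (t * (1 : ℤ) / 3)) +
      Complex.exp (2 * Real.pi * Complex.I * (t * (2 : ℤ) / 3)) = 0 := by
  set x : ℂ := Complex.exp (2 * Real.pi * Complex.I * (t * (1 : ℤ) / 3)) with hx
  have h2 : Complex.exp (2 * Real.pi * Complex.I * (t * (2 : ℤ) / 3)) = x ^ 2 := by
    rw [hx, ← Complex.exp_nat_mul]
    congr 1
    push_cast
    ring
  have h3 : x ^ 3 = 1 := by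
    rw [hx, ← Complex.exp_nat_mul]
    have : ((3 : ℕ) : ℂ) * (2 * Real.pi * Complex.I * (t * (1 : ℤ) / 3)) =
        t * (2 * Real.pi * Complex.I) := by
      push_cast
      ring
    rw [this, Complex.exp_int_mul_two_pi_mul_I]
  have h1 : x ≠ 1 := by
    intro h
    rw [hx, Complex.exp_eq_one_iff] at h
    obtain ⟨n, hn⟩ := h
    have hpi : (2 * Real.pi * Complex.I : ℂ) ≠ 0 := Complex.two_pi_I_ne_zero
    have h5 : (t * (1 : ℤ) / 3 : ℂ) = n := by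
      have := hn.trans (mul_comm _ _)
      exact mul_left_cancel₀ hpi this
    have h6 : (t : ℂ) = 3 * n := by
      have : (t * (1 : ℤ) / 3 : ℂ) * 3 = n * 3 := by rw [h5]
      push_cast at this
      rw [mul_one, div_mul_cancel₀ _ (by norm_num : (3 : ℂ) ≠ 0)] at this
      rw [this]
      ring
    exact ht ⟨n, by exact_mod_cast h6⟩
  rw [h2]
  have h4 : (x - 1) * (1 + x + x ^ 2) = 0 := by
    linear_combination h3
  rcases mul_eq_zero.1 h4 with h | h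
  · exact absurd (sub_eq_zero.1 h) h1
  · exact h

/-- the primitives are depleted -/
theorem GPR.dep (h2 : Sv_QB3) (h3 : Sv_SH3) {A B : ℤ} {P : Ideal (OO A B)}
    {V : ValuationSubring ℂ} {f : ℕ} (hSR : SetR A B P V f) {ι : Type}
    (R : Reps A B (3 * f) ι) (e : OO A B → ℂ) (he : _root_.Pool.Agent.MUX.IsEI (idl (A := A) (B := B) (3 * f)) e)
    (j : ι × EC e × Fin 27) (τ : ℂ) (hτ : 0 < τ.im) :
    ThT R e j τ + ThT R e j (τ + 1 / 3) + ThT R e j (τ + 2 / 3) = 0 := by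
  obtain ⟨i, ⟨e', he'⟩, s⟩ := j
  have heI : _root_.Pool.Agent.MUX.IsEI (idl (A := A) (B := B) (3 * f)) e' := by
    obtain ⟨σ, rfl⟩ := he'
    exact Gdt.ei_conj he σ
  have hf : 3 * f ≠ 0 := by
    have := hSR.f0
    omega
  have hg : idl (A := A) (B := B) (3 * f) ≠ ⊥ := by
    intro h
    have hpf : ((3 * f : ℕ) : OO A B) ∈ idl (A := A) (B := B) (3 * f) :=
      Ideal.mem_span_singleton_self _
    rw [h, Ideal.mem_bot] at hpf
    exact Gdt.nat_ne _ hf hpf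
  have hb : R.b i ≠ ⊥ := (R.nl i).b_ne
  have hcop : (MUX.nI (R.b i)).Coprime (3 * f) := R.cop i
  have ht : ¬ (3 : ℤ) ∣ ((MUX.nI (R.b i) : ℕ) : ℤ) := by
    intro h
    have h1 : 3 ∣ MUX.nI (R.b i) := by exact_mod_cast h
    have h4 : 3 ∣ Nat.gcd (MUX.nI (R.b i)) (3 * f) := Nat.dvd_gcd h1 (Dvd.intro _ rfl)
    rw [Nat.Coprime.gcd_eq_one hcop] at h4
    omega
  have hS := (h3 A B hSR.case.toCQ (R.b i) (idl (A := A) (B := B) (3 * f)) e' hb hg heI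
    ((MUX.nI (R.b i) : ℕ) : ℤ) (fun x hx hx0 =>
      (h2 A B P V f hSR e' heI (R.b i) hb hcop x hx hx0).2.1)).2
  have him : 0 < (τ + (((s : ℕ) : ℤ) : ℂ) / 27).im := by
    have : ((((s : ℕ) : ℤ) : ℂ) / 27).im = 0 := by
      have : ((((s : ℕ) : ℤ) : ℂ) / 27) = (((s : ℕ) / 27 : ℝ) : ℂ) := by push_cast; ring
      rw [this]
      exact Complex.ofReal_im _
    rw [Complex.add_im, this, add_zero]
    exact hτ
  have k1 := hS _ him 1
  have k2 := hS _ him 2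
  have e1 : τ + 1 / 3 + (((s : ℕ) : ℤ) : ℂ) / 27 =
      τ + (((s : ℕ) : ℤ) : ℂ) / 27 + ((1 : ℤ) : ℂ) / 3 := by
    push_cast
    ring
  have e2 : τ + 2 / 3 + (((s : ℕ) : ℤ) : ℂ) / 27 =
      τ + (((s : ℕ) : ℤ) : ℂ) / 27 + ((2 : ℤ) : ℂ) / 3 := by
    push_cast
    ring
  show _root_.Pool.Agent.MUX.thetaIntI (R.b i) e' (τ + (((s : ℕ) : ℤ) : ℂ) / 27) +
    _root_.Pool.Agent.MUX.thetaIntI (R.b i) e' (τ + 1 / 3 + (((s : ℕ) : ℤ) : ℂ) / 27) +
    _root_.Pool.Agent.MUX.thetaIntI (R.b i) e' (τ + 2 / 3 + (((s : ℕ) : ℤ) : ℂ) / 27) = 0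
  rw [e1, e2, k1, k2]
  have h5 := GPR.exp3 _ ht
  linear_combination (_root_.Pool.Agent.MUX.thetaIntI (R.b i) e' (τ + (((s : ℕ) : ℤ) : ℂ) / 27)) * h5

theorem tv_GPR (h1 : Sv_GTP) (h2 : Sv_QB3) (h3 : Sv_SH3) (h4 : Sv_UNR) (h5 : Sv_LCR)
    (h6 : Sv_LGR) (g2 : MUXT.Xs_FTI) (g3 : MUXF.Sx_CHI) (g4 : MUXY.Sy_CON) (g5 : MUXY.Sy_ALP)
    (g7 : MUXY.Sy_FEC) (g8 : MUXY.Sy_COP) (gA : MUXF.Sx_ALG) (gI : MUXF.Sx_IDL)
    (gQ : MUXF.Sx_QB) (gB : MUXF.Sx_BDD) (gT : MUXF.Sx_TSM) : Sv_GPR := by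
  classical
  intro A B P V f hSR hT ι _ R u el lam hg e he r hr her kk hkk N' hN' hNd
  have hc : _root_.Pool.Agent.MUX.CQ A B := hSR.case.toCQ
  obtain ⟨u1, u2⟩ := h4 A B hSR.case
  have hv3 : V.valuation (3 : ℂ) < 1 := GPR.v3 hSR.hP hSR.hV
  obtain ⟨⟨hua, -, -⟩, L', hL'⟩ := h6 A B hc hT (3 * f) ι R V hv3 u el lam hg
  have hn : 2 ≤ 3 * f := by
    have := Nat.pos_of_ne_zero hSR.f0
    omega
  have hD := gdat g2 g3 g4 g5 g7 g8 gA gI gQ gB gT hc u1 u2 hT hn R e he r hr her u hg.u0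
    hua N' hN' hNd
  have hfE : Finite (EC e) := (g7 A B e r hr her).1
  have hFt : Fintype (EC e) := Fintype.ofFinite _
  have heE : e ∈ EC e := ⟨RingEquiv.refl ℂ, rfl⟩
  set w : ι × EC e × Fin 27 → ℂ := fun j => if j.2.1 = ⟨e, heE⟩ then
    (if j.2.2 = 0 then kk j.1 else if j.2.2 = 1 then -(kk j.1) else 0) else 0 with hw
  have hsum : ∀ F : ι × EC e × Fin 27 → ℂ, ∑ j, w j * F j =
      ∑ i, (kk i * F (i, ⟨e, heE⟩, 0) + -(kk i) * F (i, ⟨e, heE⟩, 1)) := by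
    intro F
    rw [Fintype.sum_prod_type]
    refine Finset.sum_congr rfl fun i _ => ?_
    rw [Fintype.sum_prod_type, Finset.sum_eq_single (⟨e, heE⟩ : EC e)]
    · refine Eq.trans ?_ (sumF (kk i) (-(kk i)) (fun t => F (i, ⟨e, heE⟩, t)))
      refine Finset.sum_congr rfl fun t _ => ?_
      rw [hw]
      beta_reduce
      rw [if_pos rfl]
    · intro e' _ he'
      refine Finset.sum_eq_zero fun t _ => ?_
      rw [hw]
      beta_reduce
      rw [if_neg he', zero_mul]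
    · intro h
      exact absurd (Finset.mem_univ _) h
  have hα : ∑ j, w j * a1T R e j = kk R.i0 * (1 - z27) := by
    rw [hsum, Finset.sum_eq_single R.i0]
    · unfold a1T
      rw [if_pos rfl, if_pos rfl]
      have e0 : ((0 : Fin 27) : ℕ) = 0 := rfl
      have e1 : ((1 : Fin 27) : ℕ) = 1 := rfl
      rw [e0, e1]
      ring
    · intro i _ hi
      unfold a1T
      rw [if_neg hi, if_neg hi]
      ring
    · intro h
      exact absurd (Finset.mem_univ _) h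
  have h27 : V.valuation (z27 - 1) ^ 18 = V.valuation (3 : ℂ) := by
    have := MUXH.Hz.val_p 3 Nat.prime_three V 2 z27 (by
      have : (3 : ℕ) ^ (2 + 1) = 27 := by norm_num
      rw [this]
      exact z27_prim)
    norm_num at this
    exact this
  have hz2 : V.valuation (1 - z27) = V.valuation (z27 - 1) := by
    rw [← neg_sub, Valuation.map_neg]
  have hv30 : V.valuation (3 : ℂ) ≠ 0 := (Valuation.ne_zero_iff _).2 (by norm_num)
  have hz0 : V.valuation (z27 - 1) ≠ 0 := by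
    intro h0
    rw [h0, zero_pow (by norm_num)] at h27
    exact hv30 h27.symm
  have hz1 : V.valuation (z27 - 1) < 1 := by
    by_contra h0
    rw [not_lt] at h0
    have := one_le_pow₀ h0 (n := 18)
    rw [h27] at this
    exact absurd this (not_le.2 hv3)
  have hkey : V.valuation (3 : ℂ) < V.valuation (∑ j, w j * a1T R e j) ^ 12 := by
    rw [hα, map_mul, hkk, one_mul, hz2, ← h27]
    exact pow_lt_pow_right_of_lt_one₀ (zero_lt_iff.2 hz0) hz1 (by norm_num)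
  obtain ⟨a, b, c, d, k1, k2, k3, k4⟩ := h1 A B hc (ι × EC e × Fin 27) (PsT R e) (ThT R e)
    (a1T R e) (u * R.om R.i0) (729 * N') hD (fun j τ hτ => GPR.dep h2 h3 hSR R e he j τ hτ) V hv3
    (h5 A B hc P hSR.hP V hSR.hV) L' (el / u ^ 2) lam hL' hg.lam1 w hkey
  have hcast : ((729 * N' : ℕ) : ℤ) = 729 * (N' : ℤ) := by push_cast; ring
  rw [hcast] at k2 k3
  refine ⟨a, b, c, d, k1, dvd_trans (Dvd.intro_left _ rfl) k2, dvd_trans (Dvd.intro_left _ rfl) k3,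
    ?_⟩
  rw [hsum] at k4
  have e2 : (∑ i, (kk i * PsT R e (i, ⟨e, heE⟩, 0) ∞ (mob a b c d ∞) +
      -(kk i) * PsT R e (i, ⟨e, heE⟩, 1) ∞ (mob a b c d ∞))) / (u * R.om R.i0) =
      MUXHN.PT (fun x y => PhiK R e kk x y / (u * R.om R.i0)) ∞ (mob a b c d ∞) := by
    unfold MUXHN.PT PhiK
    rw [← sub_div, ← Finset.sum_sub_distrib]
    refine congrArg (fun t => t / (u * R.om R.i0)) ?_
    refine Finset.sum_congr rfl fun i _ => ?_
    have e0 : PsT R e (i, ⟨e, heE⟩, 0) ∞ (mob a b c d ∞) = _root_.Pool.Agent.MUX.PhiI (R.b i) e ∞ (mob a b c d ∞) := by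
      have f1 : (((0 : Fin 27) : ℕ) : ℤ) = 0 := rfl
      unfold PsT
      dsimp only
      rw [f1, mob_zero, mob_zero]
    have e1 : PsT R e (i, ⟨e, heE⟩, 1) ∞ (mob a b c d ∞) =
        _root_.Pool.Agent.MUX.PhiI (R.b i) e (mob 27 1 0 27 ∞) (mob 27 1 0 27 (mob a b c d ∞)) := by
      have f1 : (((1 : Fin 27) : ℕ) : ℤ) = 1 := rfl
      unfold PsT
      dsimp only
      rw [f1]
    rw [e0, e1]
    ring
  rw [e2] at k4
  exact k4

end

end Pool.Agent.NSGR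


end

section

/-!
# MUX-NS, block GR, module GPP (helper11): the Gauss lemma for power series, depleted case
-/

set_option autoImplicit false

namespace Pool.Agent.NSGR

open _root_.MU3 _root_.Pool.Agent.MU3A _root_.Pool.Agent.MU3B _root_.Pool.Agent.MU3Q _root_.Pool.Agent.MUX _root_.Pool.Agent.NS
  _root_.Pool.Agent.NSRD _root_.Pool.Agent.NSG _root_.Pool.Agent.MUXN _root_.Pool.Agent.MuSym OnePoint UpperHalfPlane
open _root_.Pool.Agent.MUXF (qb)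
open scoped MatrixGroups

noncomputable section

namespace GPP

theorem rescale_C' {R : Type} [CommRing R] (w a : R) :
    PowerSeries.rescale w (PowerSeries.C a) = PowerSeries.C a := by
  ext n
  rw [PowerSeries.coeff_rescale, PowerSeries.coeff_C]
  split_ifs with hn
  · simp [hn]
  · simp

/-- the first equation -/
theorem eq1 {E : Type} [Field E] (P Q G W c a2 a4 : E) (hQ : Q ≠ 0) (hG : G ≠ 0)
    (h2 : (2 : E) ≠ 0)
    (h : c ^ 2 * W ^ 2 = Q * (4 * P ^ 3 + 4 * a2 * P ^ 2 * Q + 4 * a4 * P * Q ^ 2) * G ^ 2) :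
    (W * c / (2 * Q ^ 2 * G)) ^ 2 = (P / Q) ^ 3 + a2 * (P / Q) ^ 2 + a4 * (P / Q) := by
  have h4 : (2 : E) * Q ^ 2 * G ≠ 0 := mul_ne_zero (mul_ne_zero h2 (pow_ne_zero _ hQ)) hG
  have e1 : (P / Q) ^ 3 + a2 * (P / Q) ^ 2 + a4 * (P / Q) =
      (P ^ 3 + a2 * P ^ 2 * Q + a4 * P * Q ^ 2) / Q ^ 3 := by
    field_simp
  rw [e1, div_pow, div_eq_div_iff (pow_ne_zero _ h4) (pow_ne_zero _ hQ)]
  linear_combination Q ^ 3 * h

theorem fin {E : Type} [Field E] (Q Q₁ Q₂ G G₁ c A B N : E) (hQ : Q ≠ 0) (hQ1 : Q₁ ≠ 0)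
    (hQ2 : Q₂ ≠ 0) (hG : G ≠ 0) (hG1 : G₁ ≠ 0) (h2 : (2 : E) ≠ 0)
    (h : c ^ 2 * A * B ^ 2 = 4 * Q * Q₁ * Q₂ * G ^ 2 * G₁ ^ 2 * N ^ 2) :
    (A / (Q * Q₁ * Q₂)) * (c * B / (2 * Q ^ 2 * Q₁ ^ 2 * G * G₁)) ^ 2 =
      (N / (Q ^ 2 * Q₁ ^ 2)) ^ 2 := by
  have n1 : Q * Q₁ * Q₂ ≠ 0 := mul_ne_zero (mul_ne_zero hQ hQ1) hQ2
  have n2 : 2 * Q ^ 2 * Q₁ ^ 2 * G * G₁ ≠ 0 :=
    mul_ne_zero (mul_ne_zero (mul_ne_zero (mul_ne_zero h2 (pow_ne_zero _ hQ))
      (pow_ne_zero _ hQ1)) hG) hG1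
  have n3 : Q ^ 2 * Q₁ ^ 2 ≠ 0 := mul_ne_zero (pow_ne_zero _ hQ) (pow_ne_zero _ hQ1)
  rw [div_pow, div_pow, div_mul_div_comm, div_eq_div_iff (mul_ne_zero n1 (pow_ne_zero _ n2))
    (pow_ne_zero _ n3)]
  linear_combination (Q ^ 2 * Q₁ ^ 2) ^ 2 * h

/-- the second equation -/
theorem eq2 {E : Type} [Field E] (P Q G W P₁ Q₁ G₁ W₁ P₂ Q₂ c a2 a4 : E) (hQ : Q ≠ 0)
    (hG : G ≠ 0) (hQ1 : Q₁ ≠ 0) (hG1 : G₁ ≠ 0) (hQ2 : Q₂ ≠ 0) (h2 : (2 : E) ≠ 0)
    (h : c ^ 2 * (P * Q₁ * Q₂ + P₁ * Q * Q₂ + P₂ * Q * Q₁ + a2 * Q * Q₁ * Q₂) *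
        (W * Q₁ ^ 2 * G₁ + W₁ * Q ^ 2 * G) ^ 2 =
      4 * Q * Q₁ * Q₂ * G ^ 2 * G₁ ^ 2 * (P ^ 2 * Q₁ ^ 2 + P * P₁ * Q * Q₁ + P₁ ^ 2 * Q ^ 2 +
        a2 * Q * Q₁ * (P * Q₁ + P₁ * Q) + a4 * Q ^ 2 * Q₁ ^ 2) ^ 2) :
    (P / Q + P₁ / Q₁ + P₂ / Q₂ + a2) *
        (W * c / (2 * Q ^ 2 * G) + W₁ * c / (2 * Q₁ ^ 2 * G₁)) ^ 2 =
      ((P / Q) ^ 2 + P / Q * (P₁ / Q₁) + (P₁ / Q₁) ^ 2 + a2 * (P / Q + P₁ / Q₁) + a4) ^ 2 := by
  have s1 : P / Q + P₁ / Q₁ + P₂ / Q₂ + a2 =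
      (P * Q₁ * Q₂ + P₁ * Q * Q₂ + P₂ * Q * Q₁ + a2 * Q * Q₁ * Q₂) / (Q * Q₁ * Q₂) := by
    field_simp
  have s2 : W * c / (2 * Q ^ 2 * G) + W₁ * c / (2 * Q₁ ^ 2 * G₁) =
      c * (W * Q₁ ^ 2 * G₁ + W₁ * Q ^ 2 * G) / (2 * Q ^ 2 * Q₁ ^ 2 * G * G₁) := by
    field_simp
  have s3 : (P / Q) ^ 2 + P / Q * (P₁ / Q₁) + (P₁ / Q₁) ^ 2 + a2 * (P / Q + P₁ / Q₁) + a4 =
      (P ^ 2 * Q₁ ^ 2 + P * P₁ * Q * Q₁ + P₁ ^ 2 * Q ^ 2 +
        a2 * Q * Q₁ * (P * Q₁ + P₁ * Q) + a4 * Q ^ 2 * Q₁ ^ 2) / (Q ^ 2 * Q₁ ^ 2) := by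
    field_simp
  rw [s1, s2, s3]
  exact fin Q Q₁ Q₂ G G₁ c _ _ _ hQ hQ1 hQ2 hG hG1 h2 h

end GPP

theorem tv_GPP (h1 : Sv_RSC) (h2 : Sv_GVP) : Sv_GPP := by
  intro O _ _ _ h3ne h3u h2ne ω hω a2 a4 h3a ha4 P Q G c hc W₀ hQ hP hW hW0 heq P₁ Q₁ G₁ W₁ P₂ Q₂
    e1 e2 e3 e4 e5 e6 hcol
  obtain ⟨v, D, al, d, hv1, hvu, hvn, hvd, hvD, hD, hal, hald, hd⟩ := h1 O ω hω h3ne
  by_cases hG : G = 0
  · rw [hG, zero_pow (by norm_num)]
    exact dvd_zero _
  have inj : Function.Injective (algebraMap (PowerSeries O) (FractionRing (PowerSeries O))) :=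
    IsFractionRing.injective _ _
  obtain ⟨ι, hι⟩ : ∃ ι : PowerSeries O →+* FractionRing (PowerSeries O),
    ι = algebraMap (PowerSeries O) (FractionRing (PowerSeries O)) := ⟨_, rfl⟩
  rw [← hι] at inj
  simp only [← hι] at hv1 hvu hvn hvd hD hal hd
  obtain ⟨φ, hφ⟩ : ∃ φ : O →+* FractionRing (PowerSeries O),
    ∀ a, φ a = ι (PowerSeries.C a) := ⟨ι.comp (PowerSeries.C (R := O)), fun _ => rfl⟩
  have hφinj : Function.Injective φ := by
    intro a b hab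
    rw [hφ, hφ] at hab
    exact PowerSeries.C_injective (inj hab)
  obtain ⟨th, hth⟩ : ∃ th : PowerSeries O → PowerSeries O,
    ∀ f, th f = PowerSeries.mk fun n => (n : O) * PowerSeries.coeff n f := ⟨_, fun _ => rfl⟩
  have hDι : ∀ f, D (ι f) = ι (th f) := by
    intro f
    rw [hD, hth]
  have halC : ∀ a : O, al (φ a) = φ a := by
    intro a
    rw [hφ, hal, GPP.rescale_C']
  rw [← hth, ← hth] at hW0
  have aP : al (ι P) = ι P₁ := by rw [hal, e1]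
  have aQ : al (ι Q) = ι Q₁ := by rw [hal, e2]
  have aG : al (ι G) = ι G₁ := by rw [hal, e3]
  have aW : al (ι W₀) = ι W₁ := by rw [hal, e4]
  have aP1 : al (ι P₁) = ι P₂ := by
    rw [hal, e1, e5, PowerSeries.rescale_rescale, pow_two]
  have aQ1 : al (ι Q₁) = ι Q₂ := by
    rw [hal, e2, e6, PowerSeries.rescale_rescale, pow_two]
  have hQ' : ι Q ≠ 0 := fun h => hQ (inj (by rw [h, map_zero]))
  have hP' : ι P ≠ 0 := fun h => hP (inj (by rw [h, map_zero]))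
  have hG' : ι G ≠ 0 := fun h => hG (inj (by rw [h, map_zero]))
  have hW' : ι W₀ ≠ 0 := fun h => hW (inj (by rw [h, map_zero]))
  have hc' : φ c ≠ 0 := fun h => hc (hφinj (by rw [h, map_zero]))
  have alne : ∀ x, x ≠ 0 → al x ≠ 0 := fun x hx h => hx (al.injective (by rw [h, map_zero]))
  have hQ1' : ι Q₁ ≠ 0 := by
    rw [← aQ]
    exact alne _ hQ'
  have hQ2' : ι Q₂ ≠ 0 := by
    rw [← aQ1]
    exact alne _ hQ1'
  have hG1' : ι G₁ ≠ 0 := by
    rw [← aG]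
    exact alne _ hG'
  have h2' : (2 : FractionRing (PowerSeries O)) ≠ 0 := by
    intro h
    apply h2ne
    apply hφinj
    rw [map_ofNat, map_zero]
    exact h
  have hφ3 : φ 3 = 3 := map_ofNat φ 3
  have h3' : (3 : FractionRing (PowerSeries O)) ≠ 0 := by
    intro h
    apply h3ne
    apply hφinj
    rw [hφ3, map_zero]
    exact h
  have heq' : φ c ^ 2 * ι W₀ ^ 2 = ι Q * (4 * ι P ^ 3 + 4 * φ a2 * ι P ^ 2 * ι Q +
      4 * φ a4 * ι P * ι Q ^ 2) * ι G ^ 2 := by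
    have h3 := congrArg ι heq
    simp only [map_mul, map_pow, map_add, map_ofNat, ← hφ] at h3
    exact h3
  have hcol' : φ c ^ 2 * (ι P * ι Q₁ * ι Q₂ + ι P₁ * ι Q * ι Q₂ + ι P₂ * ι Q * ι Q₁ +
        φ a2 * ι Q * ι Q₁ * ι Q₂) * (ι W₀ * ι Q₁ ^ 2 * ι G₁ + ι W₁ * ι Q ^ 2 * ι G) ^ 2 =
      4 * ι Q * ι Q₁ * ι Q₂ * ι G ^ 2 * ι G₁ ^ 2 * (ι P ^ 2 * ι Q₁ ^ 2 +
        ι P * ι P₁ * ι Q * ι Q₁ + ι P₁ ^ 2 * ι Q ^ 2 +
        φ a2 * ι Q * ι Q₁ * (ι P * ι Q₁ + ι P₁ * ι Q) + φ a4 * ι Q ^ 2 * ι Q₁ ^ 2) ^ 2 := by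
    have h3 := congrArg ι hcol
    simp only [map_mul, map_pow, map_add, map_ofNat, ← hφ] at h3
    exact h3
  have hDX : D (ι P / ι Q) = ι W₀ / ι Q ^ 2 := by
    have f1 : ι P = ι Q * (ι P / ι Q) := by
      field_simp
    have f2 := D.leibniz (ι Q) (ι P / ι Q)
    rw [← f1, hDι, hDι] at f2
    simp only [smul_eq_mul] at f2
    have f3 : D (ι P / ι Q) = (ι (th P) - ι P / ι Q * ι (th Q)) / ι Q := by
      rw [eq_div_iff hQ', f2]
      ring
    rw [f3, hW0, map_sub, map_mul, map_mul]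
    field_simp
  obtain ⟨X, hX⟩ : ∃ X, X = ι P / ι Q := ⟨_, rfl⟩
  obtain ⟨g, hg⟩ : ∃ g, g = ι G / φ c := ⟨_, rfl⟩
  obtain ⟨Y, hY⟩ : ∃ Y, Y = ι W₀ * φ c / (2 * ι Q ^ 2 * ι G) := ⟨_, rfl⟩
  have hY0 : Y ≠ 0 := by
    rw [hY]
    exact div_ne_zero (mul_ne_zero hW' hc')
      (mul_ne_zero (mul_ne_zero h2' (pow_ne_zero _ hQ')) hG')
  have hX0 : X ≠ 0 := by
    rw [hX]
    exact div_ne_zero hP' hQ'
  have hDg : D X = 2 * Y * g := by
    rw [hX, hDX, hY, hg]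
    field_simp
  have alX : al X = ι P₁ / ι Q₁ := by
    rw [hX, map_div₀, aP, aQ]
  have alX2 : al (al X) = ι P₂ / ι Q₂ := by
    rw [alX, map_div₀, aP1, aQ1]
  have alY : al Y = ι W₁ * φ c / (2 * ι Q₁ ^ 2 * ι G₁) := by
    rw [hY, map_div₀, map_mul, map_mul, map_mul, map_pow, map_ofNat, aW, aQ, aG, halC]
  have hE : Y ^ 2 = X ^ 3 + φ a2 * X ^ 2 + φ a4 * X := by
    rw [hX, hY]
    exact GPP.eq1 _ _ _ _ _ _ _ hQ' hG' h2' heq'
  have hC : (X + al X + al (al X) + φ a2) * (Y + al Y) ^ 2 =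
      (X ^ 2 + X * al X + al X ^ 2 + φ a2 * (X + al X) + φ a4) ^ 2 := by
    rw [alX2, alX, alY, hX, hY]
    exact GPP.eq2 _ _ _ _ _ _ _ _ _ _ _ _ _ hQ' hG' hQ1' hG1' hQ2' h2' hcol'
  have hvφ : ∀ a, v (φ a) ≤ 1 := fun a => by
    rw [hφ]
    exact hv1 _
  have hv3 : v (3 : FractionRing (PowerSeries O)) < 1 := by
    rw [← hφ3, hφ]
    exact hvn _ h3u
  have hva2 : v (φ a2) ^ 2 ≤ v (3 : FractionRing (PowerSeries O)) := by
    obtain ⟨b, hb⟩ := h3a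
    rw [← map_pow, ← map_pow, hb, map_mul, hφ3, map_mul]
    exact mul_le_of_le_one_right' (hvφ b)
  have key : v g ^ 12 ≤ v (3 : FractionRing (PowerSeries O)) := by
    refine h2 (FractionRing (PowerSeries O)) (WithZero (Multiplicative ℤ)) v (fun x => D x) al d
      hv3 ((v.ne_zero_iff).mpr h3') ?_ hvD hald (φ a2) (φ a4) X Y g hva2 ?_ hE hDg hY0 hX0 hC
    · rw [hd, ← hφ, hφ3]
    · rw [hφ]
      exact hvu _ ha4
  refine hvd (G ^ 12) (3 * c ^ 12) (mul_ne_zero h3ne (pow_ne_zero _ hc)) ?_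
  rw [← hφ]
  have h4 : ι G = g * φ c := by
    rw [hg]
    field_simp
  rw [map_pow, h4, map_mul φ, hφ3, map_pow φ, mul_pow, map_mul v, map_mul v, map_pow v]
  exact mul_le_mul_left key _

end

end Pool.Agent.NSGR


end
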