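import Mathlib
import Pool.Agent.MVF.C091
import Pool.Agent.MVF.C113
import Pool.Agent.MVF.C150

/-! Parts: NS.GR_SH3, ME.WeberDefs, ME.Weber -/

section

/-!
# MUX-NS, block GR, module SH3 (helper85): the symbol under `x ↦ x + k/3`
-/

set_option autoImplicit false

namespace Pool.Agent.NSGR

open _root_.MU3 _root_.Pool.Agent.MU3A _root_.Pool.Agent.MU3B _root_.Pool.Agent.MU3Q _root_.Pool.Agent.MUX _root_.Pool.Agent.NS
  _root_.Pool.Agent.NSRD _root_.Pool.Agent.NSG _root_.Pool.Agent.MUXN _root_.Pool.Agent.MuSym OnePoint UpperHalfPlane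
open _root_.Pool.Agent.MUXF (qb)
open scoped MatrixGroups

noncomputable section

namespace SH3

variable {A B : ℤ}

/-- the quotient `nm x / N b` is the integer `qb b x` -/
lemma quo (hc : CQ A B) {b : Ideal (OO A B)} (hb : b ≠ ⊥) (x : b) :
    ((nm (x : OO A B) : ℂ) / nI b) = (qb b (x : OO A B) : ℂ) := by
  have hF : MUXF.CQ A B := ⟨hc.hB, hc.neg, hc.fund1, hc.fund0⟩
  have hAL := MUXF.tx_ALG
  have hQB := MUXF.tx_QB hAL (MUXF.tx_IDL hAL)
  have h1 : nm (x : OO A B) = (MUXF.nI b : ℤ) * qb b (x : OO A B) := ((hQB A B hF b hb).1 x.1 x.2).1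
  have hfin : Finite (OO A B ⧸ b) := (hAL A B hF).2.2.2.1 b hb
  have hn0 : (nI b : ℂ) ≠ 0 := by
    have : 0 < nI b := Nat.card_pos
    exact_mod_cast this.ne'
  rw [div_eq_iff hn0]
  have h2 : ((nm (x : OO A B) : ℤ) : ℂ) = (((MUXF.nI b : ℤ) * qb b (x : OO A B) : ℤ) : ℂ) := by
    rw [← h1]
  have h3 : MUXF.nI b = nI b := rfl
  rw [h2, h3]
  push_cast
  ring

/-- the exponential factor of an index which is `t` modulo `3` -/
lemma shift (t n k : ℤ) (hn : (3 : ℤ) ∣ n - t) (z : ℂ) :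
    Complex.exp (2 * Real.pi * Complex.I * (n : ℂ) * (z + k / 3)) =
      Complex.exp (2 * Real.pi * Complex.I * (t * k / 3)) *
        Complex.exp (2 * Real.pi * Complex.I * (n : ℂ) * z) := by
  obtain ⟨m, hm⟩ := hn
  have h1 : n = t + 3 * m := by linarith
  have h2 : (n : ℂ) = (t : ℂ) + 3 * (m : ℂ) := by
    rw [h1]
    push_cast
    ring
  have h3 : (2 * Real.pi * Complex.I * (n : ℂ) * (z + k / 3) : ℂ) =
      (2 * Real.pi * Complex.I * (t * k / 3) + 2 * Real.pi * Complex.I * (n : ℂ) * z) +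
        ((m * k : ℤ) : ℂ) * (2 * Real.pi * Complex.I) := by
    rw [h2]
    push_cast
    ring
  rw [h3, Complex.exp_add, Complex.exp_int_mul_two_pi_mul_I, mul_one, Complex.exp_add]

lemma theta (hc : CQ A B) {b : Ideal (OO A B)} (hb : b ≠ ⊥) {e : OO A B → ℂ} (t : ℤ)
    (ht : ∀ x ∈ b, e x ≠ 0 → (3 : ℤ) ∣ qb b x - t) (k : ℤ) (z : ℂ) :
    _root_.Pool.Agent.MUX.thetaI b e (z + k / 3) =
      Complex.exp (2 * Real.pi * Complex.I * (t * k / 3)) * _root_.Pool.Agent.MUX.thetaI b e z := by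
  have h : ∑' x : b, e x * (starRingEnd ℂ) (emb (x : OO A B)) *
      Complex.exp (2 * Real.pi * Complex.I * ((nm (x : OO A B) : ℂ) / nI b) * (z + k / 3)) =
      Complex.exp (2 * Real.pi * Complex.I * (t * k / 3)) *
        ∑' x : b, e x * (starRingEnd ℂ) (emb (x : OO A B)) *
          Complex.exp (2 * Real.pi * Complex.I * ((nm (x : OO A B) : ℂ) / nI b) * z) := by
    rw [← tsum_mul_left]
    refine tsum_congr fun x => ?_
    by_cases hx : e x = 0
    · rw [hx]
      ring
    · rw [quo hc hb x, shift t _ k (ht x.1 x.2 hx) z]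
      ring
  unfold _root_.Pool.Agent.MUX.thetaI
  rw [h]
  ring

lemma thetaInt (hc : CQ A B) {b : Ideal (OO A B)} (hb : b ≠ ⊥) {e : OO A B → ℂ} (t : ℤ)
    (ht : ∀ x ∈ b, e x ≠ 0 → (3 : ℤ) ∣ qb b x - t) (k : ℤ) (z : ℂ) :
    _root_.Pool.Agent.MUX.thetaIntI b e (z + k / 3) =
      Complex.exp (2 * Real.pi * Complex.I * (t * k / 3)) * _root_.Pool.Agent.MUX.thetaIntI b e z := by
  have h : ∑' x : b, e x * (starRingEnd ℂ) (emb (x : OO A B)) / ((nm (x : OO A B) : ℂ) / nI b) *
      Complex.exp (2 * Real.pi * Complex.I * ((nm (x : OO A B) : ℂ) / nI b) * (z + k / 3)) =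
      Complex.exp (2 * Real.pi * Complex.I * (t * k / 3)) *
        ∑' x : b, e x * (starRingEnd ℂ) (emb (x : OO A B)) / ((nm (x : OO A B) : ℂ) / nI b) *
          Complex.exp (2 * Real.pi * Complex.I * ((nm (x : OO A B) : ℂ) / nI b) * z) := by
    rw [← tsum_mul_left]
    refine tsum_congr fun x => ?_
    by_cases hx : e x = 0
    · rw [hx]
      ring
    · rw [quo hc hb x, shift t _ k (ht x.1 x.2 hx) z]
      ring
  unfold _root_.Pool.Agent.MUX.thetaIntI
  rw [h]
  ring

lemma symb (hc : CQ A B) {b : Ideal (OO A B)} (hb : b ≠ ⊥) {e : OO A B → ℂ} (t : ℤ)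
    (ht : ∀ x ∈ b, e x ≠ 0 → (3 : ℤ) ∣ qb b x - t) (r : ℚ) (k : ℤ) :
    _root_.Pool.Agent.MUX.IvI b e (r + k / 3 : ℚ) =
      Complex.exp (2 * Real.pi * Complex.I * (t * k / 3)) * _root_.Pool.Agent.MUX.IvI b e r := by
  unfold _root_.Pool.Agent.MUX.IvI
  have h1 : ∀ s : ℝ, _root_.Pool.Agent.MUX.thetaI b e (((r + k / 3 : ℚ) : ℂ) + s * Complex.I) =
      Complex.exp (2 * Real.pi * Complex.I * (t * k / 3)) *
        _root_.Pool.Agent.MUX.thetaI b e ((r : ℂ) + s * Complex.I) := by
    intro s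
    rw [← theta hc hb t ht k ((r : ℂ) + s * Complex.I)]
    congr 1
    push_cast
    ring
  simp only [h1]
  rw [MeasureTheory.integral_const_mul]
  ring

end SH3

theorem tv_SH3 : Sv_SH3 := by
  intro A B hc b g e hb _ _ t ht
  refine ⟨fun r k => ?_, fun τ _ k => SH3.thetaInt hc hb t ht k τ⟩
  have h0 : ∀ x : ℚ, _root_.Pool.Agent.MUX.PhiI b e ∞ (x : OnePoint ℚ) = 0 - _root_.Pool.Agent.MUX.IvI b e x := fun x => rfl
  rw [h0, h0, SH3.symb hc hb t ht r k]
  ring

end

end Pool.Agent.NSGR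


end

section

/-!
# The field generated by the values of the Weber functions, for all imaginary quadratic fields (helper87)

`k = ℚ(√-d)`, `d` squarefree. For `d ≠ 1, 3` the Weber function of a lattice `L` with complex multiplication is
`(g₂ g₃/(g₂³ - 27 g₃²)) ℘_L(z)`; for `d = 1` (`g₃ = 0`) it is `(g₂²/(g₂³ - 27 g₃²)) ℘_L(z)²`, for `d = 3` (`g₂ = 0`) it is
`(g₃/(g₂³ - 27 g₃²)) ℘_L(z)³`. The field `weberAll d` is generated by the values of all three functions at the points of finite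
order; it is the maximal abelian extension of `k` (Weber, Fueter, Hasse).
-/

set_option autoImplicit false

namespace Pool.Agent.MUXZ

open _root_.Pool.Agent.MU3Z

/-- The subfield of `ℂ` generated by `√-d`, the numbers `j(L)/1728 = g₂³/(g₂³ - 27 g₃²)` and the values at the points
of finite order of the three Weber functions `(g₂ g₃/Δ) ℘(z)`, `(g₂²/Δ) ℘(z)²`, `(g₃/Δ) ℘(z)³`, `Δ = g₂³ - 27 g₃²`, for
all lattices `L` with complex multiplication by the ring of integers of `ℚ(√-d)`. -/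
noncomputable def weberAll (d : ℕ) : IntermediateField ℚ ℂ :=
  IntermediateField.adjoin ℚ ({rt d} ∪ {t : ℂ | ∃ L : PeriodPair, HasCM d L ∧
    (t = L.g₂ ^ 3 / dsc L ∨
      ∃ (n : ℕ) (z : ℂ), n ≠ 0 ∧ n * z ∈ L.lattice ∧ z ∉ L.lattice ∧
        (t = L.g₂ * L.g₃ / dsc L * L.weierstrassP z ∨
          t = L.g₂ ^ 2 / dsc L * L.weierstrassP z ^ 2 ∨
          t = L.g₃ / dsc L * L.weierstrassP z ^ 3))})

end Pool.Agent.MUXZ


end

section

/-!
# `weberAll d` for `d ≠ 1, 3` and for `d = 1, 3` (helper87)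
-/

set_option autoImplicit false

namespace Pool.Agent.MUXZ

open _root_.MU3 _root_.Pool.Agent.MU3A _root_.Pool.Agent.MU3B _root_.Pool.Agent.RI _root_.Pool.Agent.MUX _root_.Pool.Agent.MUXJ
  _root_.Pool.Agent.MU3Z _root_.Pool.Agent.ME

/-- for `d ≠ 1, 3` the field `weberAll d` is `weberField d` -/
theorem weberAll_le {d : ℕ} (hd : Squarefree d) (h1 : d ≠ 1) (h3 : d ≠ 3) :
    weberAll d ≤ weberField d := by
  have hC := cq_p hd
  have ha := absD_p d
  have hd3 : absD (pA d) (pB d) ≠ 3 := by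
    rw [ha]
    split_ifs <;> omega
  have hd4 : absD (pA d) (pB d) ≠ 4 := by
    rw [ha]
    split_ifs <;> omega
  unfold weberAll
  rw [IntermediateField.adjoin_le_iff]
  rintro t (ht | ⟨L, hL, ht⟩)
  · exact IntermediateField.subset_adjoin _ _ (Or.inl ht)
  · rcases ht with ht | ⟨n, z, hn0, hnz, hz, ht⟩
    · exact IntermediateField.subset_adjoin _ _ (Or.inr ⟨L, hL, Or.inl ht⟩)
    · have hJ : L.g₂ ^ 3 / dsc L ∈ weberField d :=
        IntermediateField.subset_adjoin _ _ (Or.inr ⟨L, hL, Or.inl rfl⟩)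
      have hh : L.g₂ * L.g₃ / dsc L * L.weierstrassP z ∈ weberField d :=
        IntermediateField.subset_adjoin _ _ (Or.inr ⟨L, hL, Or.inr ⟨n, z, hn0, hnz, hz, rfl⟩⟩)
      have hL' : ∀ z ∈ L.lattice, wC (pA d) (pB d) * z ∈ L.lattice := by
        rw [wC_p]
        exact hL
      obtain ⟨b, om, hb⟩ := exists_ideal hC L hL'
      obtain ⟨hg2, hg3⟩ := MUXY.z_NZL _ _ hC hd3 hd4 b L om hb
      have hD : dsc L ≠ 0 := sub_ne_zero.mpr (b_DSC L).1
      have h27 : (27 : ℂ) ∈ weberField d := by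
        exact_mod_cast natCast_mem (weberField d) 27
      have hJ1 : L.g₂ ^ 3 / dsc L - 1 = 27 * L.g₃ ^ 2 / dsc L := by
        have : L.g₂ ^ 3 = dsc L + 27 * L.g₃ ^ 2 := by unfold dsc; ring
        rw [this]
        field_simp
        ring
      rcases ht with ht | ht | ht
      · rw [ht]
        exact hh
      · have e : t = (L.g₂ * L.g₃ / dsc L * L.weierstrassP z) ^ 2 *
            (27 / (L.g₂ ^ 3 / dsc L - 1)) := by
          rw [ht, hJ1]
          field_simp
        rw [e]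
        exact mul_mem (pow_mem hh 2) (div_mem h27 (sub_mem hJ (one_mem _)))
      · have e : t = (L.g₂ * L.g₃ / dsc L * L.weierstrassP z) ^ 3 *
            (27 / (L.g₂ ^ 3 / dsc L * (L.g₂ ^ 3 / dsc L - 1))) := by
          rw [ht, hJ1]
          field_simp
        rw [e]
        exact mul_mem (pow_mem hh 3) (div_mem h27 (mul_mem hJ (sub_mem hJ (one_mem _))))

/-! ### The exceptional fields -/

lemma caseE_p {d : ℕ} (h : d = 1 ∨ d = 3) : CaseE (pA d) (pB d) := by
  rcases h with rfl | rfl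
  · exact { cq_p (d := 1) squarefree_one with hA := by unfold pA; norm_num }
  · exact { cq_p (d := 3) Nat.prime_three.squarefree with hA := by unfold pA; norm_num }

/-- the union of the fields `RFE m` -/
noncomputable def UFE {A B : ℤ} (h : CQ A B) (T : TorXE A B) : IntermediateField ℚ ℂ where
  carrier := {x | ∃ m : Ideal (OO A B), m ≠ ⊥ ∧ x ∈ RFE m}
  mul_mem' := by
    rintro x y ⟨m, hm, hx⟩ ⟨m', hm', hy⟩
    have hd : IsDomain (OO A B) := (MUXE.te_RNG A B h).ded.toIsDomain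
    exact ⟨m * m', mul_ne_zero hm hm', mul_mem (T.mono m (m * m') (fun x hx => (Ideal.mul_le_inf hx).1) hx)
      (T.mono m' (m * m') (fun x hx => (Ideal.mul_le_inf hx).2) hy)⟩
  add_mem' := by
    rintro x y ⟨m, hm, hx⟩ ⟨m', hm', hy⟩
    have hd : IsDomain (OO A B) := (MUXE.te_RNG A B h).ded.toIsDomain
    exact ⟨m * m', mul_ne_zero hm hm', add_mem (T.mono m (m * m') (fun x hx => (Ideal.mul_le_inf hx).1) hx)
      (T.mono m' (m * m') (fun x hx => (Ideal.mul_le_inf hx).2) hy)⟩
  inv_mem' := by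
    rintro x ⟨m, hm, hx⟩
    exact ⟨m, hm, inv_mem hx⟩
  algebraMap_mem' := by
    intro r
    have hd : IsDomain (OO A B) := (MUXE.te_RNG A B h).ded.toIsDomain
    refine ⟨⊤, bot_ne_top.symm, ?_⟩
    have := (RFE (⊤ : Ideal (OO A B))).algebraMap_mem (algebraMap ℚ (kk A B) r)
    rwa [← IsScalarTower.algebraMap_apply] at this

/-- a lattice with complex multiplication can be normalised -/
lemma exists_normE {A B : ℤ} (h : CaseE A B)
    (L : PeriodPair) (hL : ∀ z ∈ L.lattice, wC A B * z ∈ L.lattice) :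
    ∃ (b : Ideal (OO A B)) (L' : PeriodPair) (om u : ℂ), IsNE b L' om ∧ u ≠ 0 ∧
      (∀ z : ℂ, z ∈ L.lattice ↔ u * z ∈ L'.lattice) := by
  obtain ⟨b, om, hb⟩ := exists_ideal h.toCQ L hL
  obtain ⟨L', om', hL'⟩ := MEC.exists_isNE h b hb.b_ne
  have h0 := hb.om_ne
  have h1 := hL'.om_ne
  refine ⟨b, L', om', om' / om, hL', div_ne_zero h1 h0, fun z => ?_⟩
  rw [hb.mem, hL'.mem]
  constructor
  · rintro ⟨x, hx, rfl⟩
    exact ⟨x, hx, by field_simp⟩
  · rintro ⟨x, hx, hz⟩
    refine ⟨x, hx, ?_⟩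
    field_simp at hz
    exact hz

theorem weberAll_leE {d : ℕ} (hd : d = 1 ∨ d = 3) (T : TorXE (pA d) (pB d)) :
    ∀ t ∈ weberAll d, ∃ m : Ideal (OO (pA d) (pB d)), m ≠ ⊥ ∧ t ∈ RFE m := by
  have hE := caseE_p hd
  have hC := hE.toCQ
  have hdom : IsDomain (OO (pA d) (pB d)) := (MUXE.te_RNG _ _ hC).ded.toIsDomain
  have key : weberAll d ≤ UFE hC T := by
    unfold weberAll
    rw [IntermediateField.adjoin_le_iff]
    rintro t (ht | ⟨L, hL, ht⟩)
    · rw [Set.mem_singleton_iff] at ht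
      subst ht
      refine ⟨⊤, bot_ne_top.symm, ?_⟩
      have h2 : rt d ∈ kk (pA d) (pB d) := by
        rw [kk_p]
        exact IntermediateField.mem_adjoin_simple_self ℚ _
      exact (RFE (⊤ : Ideal (OO (pA d) (pB d)))).algebraMap_mem ⟨rt d, h2⟩
    · have hL' : ∀ z ∈ L.lattice, wC (pA d) (pB d) * z ∈ L.lattice := by
        rw [wC_p]
        exact hL
      obtain ⟨b, L', om, u, hN, hu, hLL⟩ := exists_normE hE L hL'
      obtain ⟨k1, -, k3, k4⟩ := ta_SCP L L' u hu hLL
      have hD' : dsc L' ≠ 0 := sub_ne_zero.mpr (b_DSC L').1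
      have f2 : L.g₂ = L'.g₂ * u ^ 4 := by
        rw [k3]
        field_simp
      have f3 : L.g₃ = L'.g₃ * u ^ 6 := by
        rw [k4]
        field_simp
      have f4 : dsc L = dsc L' * u ^ 12 := by
        unfold dsc
        rw [f2, f3]
        ring
      have hn : ∀ (m : Ideal (OO (pA d) (pB d))) (n : ℕ), (n : ℂ) ∈ RFE m := fun m n =>
        natCast_mem _ n
      have hm2 : ∀ m : Ideal (OO (pA d) (pB d)), L'.g₂ ∈ RFE m := fun m => by
        rw [hN.nrm.g2]
        unfold g2E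
        split_ifs
        · exact_mod_cast hn m 4
        · exact zero_mem _
      have hm3 : ∀ m : Ideal (OO (pA d) (pB d)), L'.g₃ ∈ RFE m := fun m => by
        rw [hN.nrm.g3]
        unfold g3E
        split_ifs
        · exact zero_mem _
        · exact neg_mem (by exact_mod_cast hn m 4)
      have hmD : ∀ m : Ideal (OO (pA d) (pB d)), dsc L' ∈ RFE m := fun m => by
        unfold dsc
        exact sub_mem (pow_mem (hm2 m) 3)
          (mul_mem (by exact_mod_cast hn m 27) (pow_mem (hm3 m) 2))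
      rcases ht with ht | ⟨n, z, hn0, hnz, hz, ht⟩
      · refine ⟨⊤, bot_ne_top.symm, ?_⟩
        have e : t = L'.g₂ ^ 3 / dsc L' := by
          rw [ht, f4, f2]
          field_simp
        rw [e]
        exact div_mem (pow_mem (hm2 _) 3) (hmD _)
      · have hm : idl (A := pA d) (B := pB d) n ≠ ⊥ := by
          intro h0
          apply hn0
          have h5 := Ideal.span_singleton_eq_bot.mp h0
          have h6 := congrArg (fun x : OO (pA d) (pB d) => x.re) h5
          have h7 : ((n : ℕ) : ℤ) = 0 := by simpa using h6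
          exact_mod_cast h7
        refine ⟨idl n, hm, ?_⟩
        have hx : L'.weierstrassP (u * z) ∈ RFE (idl (A := pA d) (B := pB d) n) := by
          refine IntermediateField.subset_adjoin _ _ ⟨b, L', om, hN, Or.inr ⟨u * z, ?_, ?_, rfl⟩⟩
          · intro x hx
            obtain ⟨y, rfl⟩ := Ideal.mem_span_singleton'.mp hx
            obtain ⟨hmul, -, -, -, hnat, -, -, -, -, -, -, -, -⟩ :=
              Pool.Agent.MUXV.q_EMB _ _ (MUXY.cqF hC)
            rw [hmul, hnat]
            have e : emb y * (n : ℂ) * (u * z) = emb y * (u * (n * z)) := by ring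
            rw [e]
            have h8 : u * (n * z) ∈ L'.lattice := (hLL _).mp hnz
            rw [hN.mem] at h8 ⊢
            obtain ⟨x', hx', hx''⟩ := h8
            refine ⟨y * x', Ideal.mul_mem_left _ _ hx', ?_⟩
            rw [hx'', hmul]
            ring
          · intro h8
            exact hz ((hLL z).mpr h8)
        have f1 : L.weierstrassP z = L'.weierstrassP (u * z) * u ^ 2 := by
          rw [k1]
          field_simp
        rcases ht with ht | ht | ht
        · have e : t = L'.g₂ * L'.g₃ / dsc L' * L'.weierstrassP (u * z) := by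
            rw [ht, f4, f2, f3, f1]
            field_simp
          rw [e]
          exact mul_mem (div_mem (mul_mem (hm2 _) (hm3 _)) (hmD _)) hx
        · have e : t = L'.g₂ ^ 2 / dsc L' * L'.weierstrassP (u * z) ^ 2 := by
            rw [ht, f4, f2, f1]
            field_simp
          rw [e]
          exact mul_mem (div_mem (pow_mem (hm2 _) 2) (hmD _)) (pow_mem hx 2)
        · have e : t = L'.g₃ / dsc L' * L'.weierstrassP (u * z) ^ 3 := by
            rw [ht, f4, f3, f1]
            field_simp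
          rw [e]
          exact mul_mem (div_mem (hm3 _) (hmD _)) (pow_mem hx 3)
  intro t ht
  exact key ht

/-- from the statement for the fields `RFE` to the statement for `weberAll d`, `d = 1, 3` -/
theorem to_weberE {p d : ℕ} (hd : d = 1 ∨ d = 3)
    (T : TorXE (pA d) (pB d))
    (H : ∀ (F M K : IntermediateField ℚ ℂ) [FiniteDimensional ℚ M] (_ : kk (pA d) (pB d) ≤ F)
      (h : F ≤ M) (a : ℕ), TorU_E (pA d) (pB d) F →
      IsGalois F (IntermediateField.extendScalars h) →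
      Module.finrank F (IntermediateField.extendScalars h) = p ^ a → K ≤ M →
      ∃ C : ℕ, ∀ (n : ℕ) (Q : IntermediateField ℚ ℂ), IsLayer p n Q →
        padicValNat p (classNo (K ⊔ Q)) ≤ C * (n + 1) ^ C)
    (K : IntermediateField ℚ ℂ) [FiniteDimensional ℚ K] (hK : K ≤ weberAll d) :
    ∃ C : ℕ, ∀ (n : ℕ) (Q : IntermediateField ℚ ℂ), IsLayer p n Q →
      padicValNat p (classNo (K ⊔ Q)) ≤ C * (n + 1) ^ C := by
  have hC := (caseE_p hd).toCQ
  have hfk : FiniteDimensional ℚ (kk (pA d) (pB d)) := (t_FLD (pA d) (pB d) hC).1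
  have hfF : FiniteDimensional ℚ ↥(K ⊔ kk (pA d) (pB d)) :=
    IntermediateField.finiteDimensional_sup K (kk (pA d) (pB d))
  have hUF : K ⊔ kk (pA d) (pB d) ≤ UFE hC T := by
    refine sup_le (fun x hx => weberAll_leE hd T x (hK hx)) (fun x hx => ?_)
    refine ⟨⊤, ?_, ?_⟩
    · have hdom : IsDomain (OO (pA d) (pB d)) := (MUXE.te_RNG _ _ hC).ded.toIsDomain
      exact bot_ne_top.symm
    · exact (RFE (⊤ : Ideal (OO (pA d) (pB d)))).algebraMap_mem ⟨x, hx⟩
  refine H (K ⊔ kk (pA d) (pB d)) (K ⊔ kk (pA d) (pB d)) K le_sup_right le_rfl 0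
    (fun x hx => hUF hx) ?_ ?_ le_sup_left
  · rw [IntermediateField.extendScalars_self]
    infer_instance
  · rw [IntermediateField.extendScalars_self, pow_zero]
    exact IntermediateField.finrank_bot

end Pool.Agent.MUXZ


end
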