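import Mathlib
import Pool.Agent.MVF.C098
import Pool.Agent.MVF.C115
import Pool.Agent.MVF.C119
import Pool.Agent.MVF.C120
import Pool.Agent.MVF.C121
import Pool.Agent.MVF.C122
import Pool.Agent.MVF.C132

/-! Parts: ME.Z_Reps, ME.X.XK1, ME.X.W_KOL, ME.X.W_FRD, ME.X.W_I1, ME.X.W_SUC, ME.X.W_HIT, ME.X.W_INV, ME.X.W_GRB, MUX.WAll, ME.X.WAll, ME.N.ZL -/

section

/-!
# ME (helper87): existence of `RepsE`, one element
-/

set_option autoImplicit false

namespace Pool.Agent.MEZ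

open _root_.MU3 _root_.Pool.Agent.MU3A _root_.Pool.Agent.MU3B _root_.Pool.Agent.RI _root_.Pool.Agent.MUX _root_.Pool.Agent.ME

noncomputable section

/-- every nonzero ideal of `O` is principal -/
theorem principal {A B : ℤ} (h : CaseE A B) (c : Ideal (OO A B)) (hc : c ≠ ⊥) :
    ∃ y : OO A B, y ≠ 0 ∧ c = sp y := by
  have hC := h.toCQ
  have hdom : IsDomain (OO A B) := by
    have := (MUXE.te_RNG A B hC).ded
    infer_instance
  obtain ⟨L, om, hL⟩ := MEC.exists_isNE h (⊤ : Ideal (OO A B)) bot_ne_top.symm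
  obtain ⟨L', om', hL'⟩ := MEC.exists_isNE h c hc
  obtain ⟨h1, -, -⟩ := MEC.c_SGQ A B L L' hL.nrm hL'.nrm
  have h0 : om ∈ L.lattice := by
    refine (hL.mem _).2 ⟨1, trivial, ?_⟩
    rw [MUX.emb_one hC, mul_one]
  obtain ⟨y, hy, hom⟩ := (hL'.mem _).1 ((h1 _).1 h0)
  have hom0 := hL.om_ne
  have hom'0 := hL'.om_ne
  have hy0 : y ≠ 0 := by
    rintro rfl
    apply hom0
    rw [hom, MUX.emb_zero hC, mul_zero]
  refine ⟨y, hy0, le_antisymm ?_ ?_⟩
  · intro x hx
    have h2 : om' * emb x ∈ L'.lattice := (hL'.mem _).2 ⟨x, hx, rfl⟩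
    obtain ⟨z, -, hz⟩ := (hL.mem _).1 ((h1 _).2 h2)
    refine Ideal.mem_span_singleton'.2 ⟨z, MUX.emb_inj hC ?_⟩
    rw [MUX.emb_mul hC]
    apply mul_left_cancel₀ hom'0
    rw [hz, hom]
    ring
  · rw [Ideal.span_singleton_le_iff_mem]
    exact hy

/-- the representatives -/
theorem exists_reps {A B : ℤ} (h : CaseE A B) (n : ℕ) : Nonempty (RepsE A B n Unit) := by
  have hC := h.toCQ
  have hdom : IsDomain (OO A B) := by
    have := (MUXE.te_RNG A B hC).ded
    infer_instance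
  obtain ⟨L, om, hL⟩ := MEC.exists_isNE h (⊤ : Ideal (OO A B)) bot_ne_top.symm
  refine ⟨⟨fun _ => ⊤, fun _ => L, fun _ => om, (), fun _ => hL, fun _ => ?_, rfl, ?_, ?_⟩⟩
  · have h1 : nI (⊤ : Ideal (OO A B)) = 1 := by
      unfold nI
      exact Nat.card_unique
    rw [h1]
    exact Nat.coprime_one_left n
  · intro c hc
    obtain ⟨y, hy, hcy⟩ := principal h c hc
    refine ⟨(), 1, y, one_ne_zero, hy, ?_⟩
    have h4 : sp (1 : OO A B) = ⊤ := Ideal.span_singleton_one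
    rw [hcy, Ideal.mul_top, h4, Ideal.top_mul]
  · intro i j x y _ _ _
    rfl

end

end Pool.Agent.MEZ


end

section

/-!
# MUX, block W, for (KOL): restriction of automorphisms, the group `Gal(F_(m lam) / D)` (helper59)
-/

set_option autoImplicit false

open WeierstrassCurve Polynomial NumberField IsDedekindDomain

namespace Pool.Agent.MUXW

open _root_.MU3 _root_.Pool.Agent.MU3A _root_.Pool.Agent.MU3B _root_.Pool.Agent.MU3C _root_.Pool.Agent.RI
open _root_.Pool.Agent.MUX _root_.Pool.Agent.ME _root_.Pool.Agent.MUXU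
open _root_.Pool.Agent.MU3V (cls Sub GD algDF towDF rsHom rsHom_apply rsHom_mem rsHom_surj rsHom_inj
  mem_GD rd rd_cls cls_eq_iff cls_mul cls_one cls_out isUnit_cls coprime_of_isUnit)
open _root_.Pool.Agent.MUXV (GR InK tX CMO Ovr)

noncomputable section

/-! ### Restriction to a subfield -/

variable {A B : ℤ}

lemma RF_mono_E {I J : Ideal (OO A B)} (h : J ≤ I) :
    (RFE I : IntermediateField (kk A B) ℂ) ≤ RFE J := by
  unfold RFE
  apply IntermediateField.adjoin.mono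
  rintro c ⟨b, L, om, hL, hc⟩
  refine ⟨b, L, om, hL, ?_⟩
  rcases hc with hc | ⟨z, hz, hzL, hc⟩
  · exact Or.inl hc
  · exact Or.inr ⟨z, fun x hx => hz x (h hx), hzL, hc⟩

lemma RF_dvd_E {m N : OO A B} (h : m ∣ N) :
    (RFE (sp m) : IntermediateField (kk A B) ℂ) ≤ RFE (sp N) := RF_mono_E (sp_le h)

/-- a group element trivial on `D`, seen in `Gal(F/k)`, is trivial on `H` if `H ≤ D` -/
lemma trH_of_GD_E {D : IntermediateField ℚ ℂ} (hk : kk A B ≤ D) (hH : HasH_E A B D)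
    {F : IntermediateField (kk A B) ℂ} {σ : F ≃ₐ[kk A B] F} (hσ : σ ∈ GD hk F) : TrH_E σ := by
  intro x hx
  exact hσ x (hH x hx) x.2

section
variable (hCQ : CaseE A B) {L : PeriodPair} {Om : ℂ} (hL : IsNE (⊤ : Ideal (OO A B)) L Om)
  {m lam : OO A B} (hm : m ≠ 0) (hlam : lam ≠ 0) (h2m : (2 : OO A B) ∣ m) (hm2 : ¬ m ∣ 2) (hcop : IsCoprime m lam)
  {D : IntermediateField ℚ ℂ} (hk : kk A B ≤ D) (hH : HasH_E A B D)
  (hD : _root_.Pool.Agent.MU3V.Sub D (RFE (sp m) : IntermediateField (kk A B) ℂ))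
  (hs : _root_.Pool.Agent.MU3V.Sub D (RFE (sp (m * lam)) : IntermediateField (kk A B) ℂ))

include hCQ hL hm hlam h2m hm2 hcop hH hD in
/-- the group `Gal(F_(m lam) / D)` is in bijection with `Gal(F_m/D) × (O/lam)ˣ` -/
theorem bijX_E [IsDomain (OO A B)] (hACM : Sy_ACM_E) (hKER : Sy_KER_E) (T : TorXE A B)
    {xs : GD hk (RFE (sp m) : IntermediateField (kk A B) ℂ) → OO A B}
    (hxs : ∀ s : GD hk (RFE (sp m) : IntermediateField (kk A B) ℂ),
      ActH_E (s : (RFE (sp m) : IntermediateField (kk A B) ℂ) ≃ₐ[kk A B] RFE (sp m)) m (xs s)) :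
    letI := algDF hs
    ∃ (res : ((RFE (sp (m * lam)) : IntermediateField (kk A B) ℂ) ≃ₐ[D] RFE (sp (m * lam))) →
        GD hk (RFE (sp m) : IntermediateField (kk A B) ℂ))
      (b : ((RFE (sp (m * lam)) : IntermediateField (kk A B) ℂ) ≃ₐ[D] RFE (sp (m * lam))) → OO A B)
      (bu : ((RFE (sp (m * lam)) : IntermediateField (kk A B) ℂ) ≃ₐ[D] RFE (sp (m * lam))) →
        (OO A B ⧸ Ideal.span {lam})ˣ),
      (∀ σ (x : (RFE (sp m) : IntermediateField (kk A B) ℂ))
        (hx : (x : ℂ) ∈ (RFE (sp (m * lam)) : IntermediateField (kk A B) ℂ)),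
        ((rsHom hk hs σ ⟨x, hx⟩ : (RFE (sp (m * lam)) : IntermediateField (kk A B) ℂ)) : ℂ) =
          ((res σ).1 x : ℂ)) ∧
      (∀ σ, ActH_E (rsHom hk hs σ) (m * lam) (b σ)) ∧ (∀ σ, m ∣ b σ - xs (res σ)) ∧
      (∀ σ, ((bu σ : (OO A B ⧸ Ideal.span {lam})ˣ) : OO A B ⧸ Ideal.span {lam}) =
        cls lam (b σ)) ∧
      Function.Bijective (fun σ => (res σ, bu σ)) ∧
      (∀ (p : ℕ) (ψ : (OO A B ⧸ Ideal.span {lam})ˣ →* Multiplicative (ZMod p)), ψ (-1) = 1 →
        ∃ χ : ((RFE (sp (m * lam)) : IntermediateField (kk A B) ℂ) ≃ₐ[D] RFE (sp (m * lam))) →*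
          Multiplicative (ZMod p), ∀ σ, χ σ = ψ (bu σ)) := by
  letI := algDF hs
  have hN : m * lam ≠ 0 := mul_ne_zero hm hlam
  obtain ⟨c1, c2, c3, c4, c5, c6, c7, c8⟩ := hACM A B hCQ L Om hL (m * lam) hN
  obtain ⟨d1, d2, d3, d4, d5, d6, d7, d8⟩ := hACM A B hCQ L Om hL m hm
  obtain ⟨k1, k2⟩ := hKER A B hCQ T (m * lam) hN
  have hbotN : (sp (m * lam) : Ideal (OO A B)) ≠ ⊥ := by
    rw [Ne, Ideal.span_singleton_eq_bot]; exact hN
  have hle : (RFE (sp m) : IntermediateField (kk A B) ℂ) ≤ RFE (sp (m * lam)) :=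
    RF_dvd_E (dvd_mul_right m lam)
  obtain ⟨r1, r2⟩ := res_exists hle (T.fin _ hbotN) (T.gal _ hbotN) (T.comm _ hbotN)
  -- restriction
  have hres : ∀ σ : (RFE (sp (m * lam)) : IntermediateField (kk A B) ℂ) ≃ₐ[D] RFE (sp (m * lam)),
      ∃ s : GD hk (RFE (sp m) : IntermediateField (kk A B) ℂ),
        ∀ (x : (RFE (sp m) : IntermediateField (kk A B) ℂ))
        (hx : (x : ℂ) ∈ (RFE (sp (m * lam)) : IntermediateField (kk A B) ℂ)),
        ((rsHom hk hs σ ⟨x, hx⟩ : (RFE (sp (m * lam)) : IntermediateField (kk A B) ℂ)) : ℂ) =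
          (s.1 x : ℂ) := by
    intro σ
    obtain ⟨s, hs'⟩ := r1 (rsHom hk hs σ)
    refine ⟨⟨s, ?_⟩, hs'⟩
    intro y hyD hyF
    apply Subtype.ext
    rw [← hs' ⟨y, hyF⟩ (hle hyF)]
    exact congrArg Subtype.val (rsHom_mem hk hs σ y hyD (hle hyF))
  choose res hres using hres
  have hact : ∀ σ : (RFE (sp (m * lam)) : IntermediateField (kk A B) ℂ) ≃ₐ[D] RFE (sp (m * lam)),
      ∃ b : OO A B, ActH_E (rsHom hk hs σ) (m * lam) b ∧ m ∣ b - xs (res σ) := by
    intro σ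
    obtain ⟨a, ha⟩ := k1 (rsHom hk hs σ) (trH_of_GD_E hk hH (rsHom_mem hk hs σ))
    have h1 : ActH_E (res σ).1 m a := c8 m _ _ a (dvd_mul_right m lam) (hres σ) ha
    rcases d1 _ _ _ _ le_rfl h1 (hxs (res σ)) with h2 | h2
    · exact ⟨a, ha, h2⟩
    · refine ⟨-a, c2 _ _ a (-a) (Or.inr (by rw [add_neg_cancel]; exact dvd_zero _)) ha, ?_⟩
      have : -a - xs (res σ) = -(a + xs (res σ)) := by ring
      rw [this]
      exact (dvd_neg.2 h2)
  choose b hb hbm using hact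
  have hbu : ∀ σ : (RFE (sp (m * lam)) : IntermediateField (kk A B) ℂ) ≃ₐ[D] RFE (sp (m * lam)),
      IsUnit (cls lam (b σ)) := fun σ => isUnit_cls ((hb σ).cop.of_mul_right_right)
  refine ⟨res, b, fun σ => (hbu σ).unit, hres, hb, hbm, fun σ => rfl, ⟨?_, ?_⟩, ?_⟩
  · -- injective
    intro σ τ e
    have e1 : res σ = res τ := congrArg Prod.fst e
    have e2 : (hbu σ).unit = (hbu τ).unit := congrArg Prod.snd e
    have e3 : cls lam (b σ) = cls lam (b τ) := congrArg Units.val e2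
    rw [cls_eq_iff] at e3
    have e4 : m ∣ b σ - b τ := by
      have h1 := hbm σ
      have h2 := hbm τ
      rw [e1] at h1
      have := dvd_sub h1 h2
      rwa [sub_sub_sub_cancel_right] at this
    have e5 : m * lam ∣ b τ - b σ := by
      have := hcop.mul_dvd e4 e3
      rw [← neg_sub]
      exact dvd_neg.2 this
    have e6 := c2 _ _ (b τ) (b σ) (Or.inl e5) (hb τ)
    exact rsHom_inj hk hs (c5 _ _ _ (hb σ) e6)
  · -- surjective
    rintro ⟨s, r⟩
    obtain ⟨r0, hr⟩ : ∃ r0, (r : OO A B ⧸ Ideal.span {lam}) = cls lam r0 :=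
      ⟨_, (cls_out _).symm⟩
    obtain ⟨u, v, e⟩ := id hcop
    set y := r0 * (u * m) + xs s * (v * lam) with hy
    have h1 : m ∣ y - xs s := ⟨u * (r0 - xs s), by rw [hy]; linear_combination xs s * e⟩
    have h2 : lam ∣ y - r0 := ⟨v * (xs s - r0), by rw [hy]; linear_combination r0 * e⟩
    have y1 : IsCoprime y m := by
      apply coprime_of_isUnit
      rw [(cls_eq_iff).2 h1]
      exact isUnit_cls (hxs s).cop
    have y2 : IsCoprime y lam := by
      apply coprime_of_isUnit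
      rw [(cls_eq_iff).2 h2, ← hr]
      exact r.isUnit
    have y3 : (2 : OO A B) ∣ y - 1 := by
      have e := dvd_add (h2m.trans h1) (actH_two hCQ T hACM hm h2m (hxs s))
      rwa [sub_add_sub_cancel] at e
    obtain ⟨σ₀, hσ₀⟩ := k2 y (y1.mul_right y2) (h2m.trans (dvd_mul_right m lam)) y3
    obtain ⟨s₀, hs₀⟩ := r1 σ₀
    have a1 : ActH_E s₀ m y := c8 m _ _ y (dvd_mul_right m lam) hs₀ hσ₀
    have h1' : m ∣ xs s - y := by rw [← neg_sub]; exact dvd_neg.2 h1
    have a2 : ActH_E s.1 m y := d2 _ _ (xs s) y (Or.inl h1') (hxs s)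
    have a3 : s₀ = s.1 := d5 _ _ _ a1 a2
    have hmem : σ₀ ∈ GD hk (RFE (sp (m * lam)) : IntermediateField (kk A B) ℂ) := by
      intro z hzD hzN
      apply Subtype.ext
      have := hs₀ ⟨z, hD z hzD⟩ hzN
      rw [this, a3]
      exact congrArg Subtype.val (s.2 z hzD (hD z hzD))
    obtain ⟨σ, hσ⟩ := rsHom_surj hk hs σ₀ hmem
    have hrs : res σ = s := by
      apply Subtype.ext
      rw [← a3]
      refine res_unique hle (hres σ) ?_
      rw [hσ]
      exact hs₀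
    have hNy : m * lam ∣ b σ - y := by
      have hb' := hb σ
      rw [hσ] at hb'
      rcases c1 _ _ _ _ le_rfl hb' hσ₀ with h3 | h3
      · exact h3
      · exfalso
        have h4 : m ∣ b σ + y := (dvd_mul_right m lam).trans h3
        have h5 := hbm σ
        rw [hrs] at h5
        have h6 : m ∣ 2 * xs s := by
          have h7 := dvd_sub (dvd_sub h4 h5) h1
          have e7 : b σ + y - (b σ - xs s) - (y - xs s) = 2 * xs s := by ring
          rwa [e7] at h7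
        exact hm2 ((hxs s).cop.symm.dvd_of_dvd_mul_right h6)
    refine ⟨σ, Prod.ext hrs (Units.ext ?_)⟩
    show cls lam (b σ) = r
    rw [hr, cls_eq_iff]
    have h8 := dvd_add ((dvd_mul_left lam m).trans hNy) h2
    have e8 : b σ - y + (y - r0) = b σ - r0 := by ring
    rwa [e8] at h8
  · -- the character
    intro p ψ hψ
    have hmul : ∀ σ τ : (RFE (sp (m * lam)) : IntermediateField (kk A B) ℂ) ≃ₐ[D]
        RFE (sp (m * lam)), (hbu (σ * τ)).unit = (hbu σ).unit * (hbu τ).unit ∨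
        (hbu (σ * τ)).unit = -1 * ((hbu σ).unit * (hbu τ).unit) := by
      intro σ τ
      have e1 := c4 _ _ _ _ _ le_rfl (hb σ) (hb τ)
      rw [← map_mul] at e1
      rcases c1 _ _ _ _ le_rfl (hb (σ * τ)) e1 with h1 | h1
      · left
        apply Units.ext
        show cls lam (b (σ * τ)) = cls lam (b σ) * cls lam (b τ)
        rw [← cls_mul, cls_eq_iff]
        exact (dvd_mul_left lam m).trans h1
      · right
        apply Units.ext
        show cls lam (b (σ * τ)) = -1 * (cls lam (b σ) * cls lam (b τ))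
        have e2 : (-1 : OO A B ⧸ Ideal.span {lam}) = cls lam (-1) := by
          unfold cls; rw [map_neg, map_one]
        rw [e2, ← cls_mul, ← cls_mul, cls_eq_iff]
        have : b (σ * τ) - -1 * (b σ * b τ) = b (σ * τ) + b σ * b τ := by ring
        rw [this]
        exact (dvd_mul_left lam m).trans h1
    have key : ∀ σ τ : (RFE (sp (m * lam)) : IntermediateField (kk A B) ℂ) ≃ₐ[D]
        RFE (sp (m * lam)), ψ (hbu (σ * τ)).unit = ψ (hbu σ).unit * ψ (hbu τ).unit := by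
      intro σ τ
      rcases hmul σ τ with h1 | h1
      · rw [h1, map_mul]
      · rw [h1, map_mul, hψ, one_mul, map_mul]
    have hone : ψ (hbu 1).unit = 1 := by
      have := key 1 1
      rw [mul_one] at this
      exact left_eq_mul.1 this
    exact ⟨{ toFun := fun σ => ψ (hbu σ).unit, map_one' := hone, map_mul' := key }, fun σ => rfl⟩

end

end

end Pool.Agent.MUXW


end

section

/-!
# MUX, block W: (KOL), the Kolyvagin input, for every prime `p` (helper59)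
-/

set_option autoImplicit false

open WeierstrassCurve Polynomial NumberField IsDedekindDomain

namespace Pool.Agent.MUXW

open _root_.MU3 _root_.Pool.Agent.MU3A _root_.Pool.Agent.MU3B _root_.Pool.Agent.MU3C _root_.Pool.Agent.RI
open _root_.Pool.Agent.MUX _root_.Pool.Agent.ME _root_.Pool.Agent.MUXU
open _root_.Pool.Agent.MU3V (cls Sub GD algDF towDF rsHom rsHom_apply rsHom_mem rsHom_surj rsHom_inj
  mem_GD rd rd_cls cls_eq_iff cls_mul cls_one cls_out isUnit_cls coprime_of_isUnit val_int_S)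
open _root_.Pool.Agent.MUXV (GR InK tX CMO Ovr)

noncomputable section

variable {A B : ℤ}

theorem ty_KOL_E (hACM : Sy_ACM_E) (hKER : Sy_KER_E) (hTHG : Sy_THG_E) (hGRB : Sy_GRB_E) (hINV : Sy_INV_E)
    (hDIS : Sy_DIS_E) (hPRQ : Sy_PRQ) (hFRD : Sy_FRD_E) (hURA : Sy_URA) : Sy_KOL_E := by
  intro A B h T n ι _ R
  have hL : IsNE (⊤ : Ideal (OO A B)) (R.L R.i0) (R.om R.i0) := by
    have := R.nl R.i0; rwa [R.b0] at this
  generalize R.L R.i0 = L at hL ⊢
  generalize R.om R.i0 = Om at hL ⊢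
  obtain ⟨n1, hn1, hF⟩ := hFRD A B h T n ι R
  obtain ⟨n2, hn2, hGR⟩ := hGRB A B h L hL.nrm
  have hdisc : (B ^ 2 + 4 * A).natAbs ≠ 0 := Int.natAbs_ne_zero.2 (ne_of_lt h.neg)
  refine ⟨2 * (n1 * (n2 * (B ^ 2 + 4 * A).natAbs)), mul_ne_zero (by norm_num)
    (mul_ne_zero hn1 (mul_ne_zero hn2 hdisc)), ?_⟩
  intro p hp m hm h2m hm2 a H ha hcm hH S hS0 hSa hSm θ hθ D _ _ hk hHas hD
  letI := algC hk
  intro c hc v q hg
  haveI := kx_dom h.toCQ
  obtain ⟨hPR1, hPR2, -⟩ := hPRQ A B h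
  have hq := hg.prime
  have hq0 : ¬ q ∣ 2 * (n1 * (n2 * (B ^ 2 + 4 * A).natAbs)) := fun hd => hg.notin (hS0 q hq hd)
  have hqm : ¬ (q : ℤ) ∣ nm m := fun hd => hg.notin (hSm q hq hd)
  have hqa : ¬ (q : ℤ) ∣ a := fun hd => hg.notin (hSa q hq hd)
  have hqn1 : ¬ q ∣ n1 := fun hd => hq0 ((hd.mul_right _).mul_left 2)
  have hqn2 : ¬ q ∣ n2 := fun hd => hq0 (((hd.mul_right _).mul_left n1).mul_left 2)
  have hqD : ¬ (q : ℤ) ∣ B ^ 2 + 4 * A := fun hd =>
    hq0 ((((Int.natCast_dvd.1 hd).mul_left n2).mul_left n1).mul_left 2)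
  have hq2 : q ≠ 2 := fun e => hq0 (by rw [e]; exact dvd_mul_right _ _)
  obtain ⟨lam, hnm, hfrob, hP⟩ := hF p m hm h2m D hk hHas hD S v q hg hqn1 hqm
  have hmu : ¬ IsUnit m := fun hu => hm2 hu.dvd
  have hlam : lam ≠ 0 := by
    rintro rfl
    rw [(kx_n0 h 0).2 rfl] at hnm
    exact hq.ne_zero (by exact_mod_cast hnm.symm)
  obtain ⟨hcardq, hmax, -, -, hZ⟩ := MUXV.q_DGL A B (kx_cq h) lam q hq hnm
  have hprl : Prime lam := (Ideal.span_singleton_prime hlam).1 hmax.isPrime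
  have hul : ¬ IsUnit lam := hprl.not_isUnit
  have hnmdvd : ∀ x y : OO A B, x ∣ y → nm x ∣ nm y := by
    rintro x y ⟨z, rfl⟩
    exact ⟨nm z, kx_nmul h x z⟩
  have hcop : IsCoprime m lam := by
    refine kx_cop hmax ?_
    intro hd
    apply hqm
    rw [← hnm]
    exact hnmdvd _ _ hd
  have hcl : IsCoprime (a : OO A B) lam := kx_cop hmax fun hd => hqa (hZ a hd)
  obtain ⟨hfld, hfin, hcyc, hcardU⟩ := kx_units h hq hnm
  have hpU : 2 * p ∣ Nat.card (OO A B ⧸ Ideal.span {lam})ˣ := by rw [hcardU]; exact hg.dvd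
  obtain ⟨ψ, hψ⟩ := exists_psi (p := p) (U := (OO A B ⧸ Ideal.span {lam})ˣ)
    ((dvd_mul_left p 2).trans hpU)
  have hψ1 : ψ (-1) = 1 := psi_two hpU ψ (by rw [neg_mul_neg, one_mul])
  have hN : m * lam ≠ 0 := mul_ne_zero hm hlam
  have hbN : (sp (m * lam) : Ideal (OO A B)) ≠ ⊥ := by
    rw [Ne, Ideal.span_singleton_eq_bot]; exact hN
  have hbm : (sp m : Ideal (OO A B)) ≠ ⊥ := by
    rw [Ne, Ideal.span_singleton_eq_bot]; exact hm
  have hfdM := T.fin _ hbN
  have hgalM := T.gal _ hbN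
  have hcomm := T.comm _ hbN
  have hkN : NumberField (kk A B) := ⟨⟩
  have hMQ : FiniteDimensional ℚ (RFE (sp (m * lam)) : IntermediateField (kk A B) ℂ) :=
    FiniteDimensional.trans ℚ (kk A B) _
  have hMN : NumberField (RFE (sp (m * lam)) : IntermediateField (kk A B) ℂ) := ⟨⟩
  have hle : (RFE (sp m) : IntermediateField (kk A B) ℂ) ≤ RFE (sp (m * lam)) :=
    RF_dvd_E (dvd_mul_right m lam)
  have hs : _root_.Pool.Agent.MU3V.Sub D (RFE (sp (m * lam)) : IntermediateField (kk A B) ℂ) := fun x hx => hle (hD x hx)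
  letI := algDF hs
  haveI := towDF hk hs
  obtain ⟨c1, c2, c3, c4, c5, c6, c7, c8⟩ := hACM A B h L Om hL (m * lam) hN
  obtain ⟨d1, d2, d3, d4, d5, d6, d7, d8⟩ := hACM A B h L Om hL m hm
  -- the exponents on `F_m`
  have hxs0 : ∀ s : GD hk (RFE (sp m) : IntermediateField (kk A B) ℂ), ∃ x : OO A B,
      ActH_E (s : (RFE (sp m) : IntermediateField (kk A B) ℂ) ≃ₐ[kk A B] RFE (sp m)) m x := fun s =>
    (hKER A B h T m hm).1 s.1 (trH_of_GD_E hk hHas s.2)
  choose xs hxs using hxs0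
  obtain ⟨res, b, bu, hres, hb, hbm', hbu, hbij, hchi⟩ :=
    bijX_E h hL hm hlam h2m hm2 hcop hk hHas hD hs hACM hKER T hxs
  obtain ⟨χ, hχ⟩ := hchi p ψ hψ1
  have hfinm : Finite (GD hk (RFE (sp m) : IntermediateField (kk A B) ℂ)) := by
    haveI := T.fin _ hbm
    infer_instance
  have hfinG : Finite ((RFE (sp (m * lam)) : IntermediateField (kk A B) ℂ) ≃ₐ[D]
      RFE (sp (m * lam))) := Finite.of_injective _ (rsHom_inj hk hs)
  have hUfin : Finite (OO A B ⧸ Ideal.span {lam})ˣ := inferInstance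
  -- the values
  have hz1 : emb (1 : OO A B) * (Om / emb m) + emb (1 : OO A B) * (Om / emb lam) ∉ L.lattice :=
    kx_notMem2_E h hL hm hlam hcop hul 1 1 isCoprime_one_left
  have hz0 : emb (1 : OO A B) * (Om / emb m) + emb (0 : OO A B) * (Om / emb lam) ∉ L.lattice := by
    rw [kx_zero h, zero_mul, add_zero]
    exact kx_notMem_E h hL hm hmu isCoprime_one_left
  obtain ⟨-, -, hθM, -⟩ := hTHG A B h T ⊤ L Om hL (m * lam) hN a H ha hH _
    (kx_torsN_E h hL hm hlam 1 1) hz1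
  obtain ⟨-, -, hθ0, -⟩ := hTHG A B h T ⊤ L Om hL (m * lam) hN a H ha hH _
    (kx_torsN_E h hL hm hlam 1 0) hz0
  have hblam : ∀ σ, lam ∣ b σ - Quotient.out ((bu σ : (OO A B ⧸ Ideal.span {lam})ˣ) :
      OO A B ⧸ Ideal.span {lam}) := fun σ => cls_eq_iff.1 (by rw [cls_out, hbu])
  have hsig : ∀ σ : (RFE (sp (m * lam)) : IntermediateField (kk A B) ℂ) ≃ₐ[D] RFE (sp (m * lam)),
      ((σ ⟨_, hθM⟩ : (RFE (sp (m * lam)) : IntermediateField (kk A B) ℂ)) : ℂ) =
        ThetaH L H (emb (xs (res σ)) * (Om / emb m) +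
          emb (Quotient.out ((bu σ : (OO A B ⧸ Ideal.span {lam})ˣ) :
            OO A B ⧸ Ideal.span {lam})) * (Om / emb lam)) := by
    intro σ
    have h1 := kx_sigma_E h hL hm hlam hH hTHG T ha 1 1 hz1 (rsHom hk hs σ) (hb σ) (hbm' σ)
      (hblam σ) hθM
    rw [one_mul, one_mul] at h1
    exact h1
  have hsig0 : ∀ σ : (RFE (sp (m * lam)) : IntermediateField (kk A B) ℂ) ≃ₐ[D] RFE (sp (m * lam)),
      ((σ ⟨_, hθ0⟩ : (RFE (sp (m * lam)) : IntermediateField (kk A B) ℂ)) : ℂ) =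
        ThetaH L H (emb (xs (res σ)) * (Om / emb m)) := by
    intro σ
    have h1 := kx_sigma_E h hL hm hlam hH hTHG T ha 1 0 hz0 (rsHom hk hs σ) (hb σ) (hbm' σ)
      (hblam σ) hθ0
    refine h1.trans ?_
    rw [one_mul, zero_mul, kx_zero h, zero_mul, add_zero]
  have hcval : (c : ℂ) = ∏ᶠ s : GD hk (RFE (sp m) : IntermediateField (kk A B) ℂ),
      ThetaH L H (emb (xs s) * (Om / emb m)) := by
    rw [hc]
    unfold cW
    refine finprod_congr fun s => ?_
    have hz : emb (1 : OO A B) * (Om / emb m) ∉ L.lattice :=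
      kx_notMem_E h hL hm hmu isCoprime_one_left
    rw [kx_one h, one_mul] at hz
    have hkz := kx_tors_E h hL hm (1 : OO A B)
    rw [kx_one h, one_mul] at hkz
    obtain ⟨-, -, h3, -, h5⟩ := hTHG A B h T ⊤ L Om hL m hm a H ha hH _ hkz hz
    have e : θ = ⟨_, h3⟩ := Subtype.ext hθ
    rw [e]
    exact h5 s.1 (xs s) (hxs s)
  -- valuations
  have hVQ : ∀ w : HeightOneSpectrum (𝓞 (RFE (sp (m * lam)) : IntermediateField (kk A B) ℂ)),
      ∃ V : ValuationSubring ℂ,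
      ∀ x : (RFE (sp (m * lam)) : IntermediateField (kk A B) ℂ),
      ((algebraMap _ ℂ x) ∈ V ↔ w.valuation _ x ≤ 1) ∧
      (V.valuation (algebraMap _ ℂ x) < 1 ↔ w.valuation _ x < 1) ∧
      (V.valuation (algebraMap _ ℂ x) = 1 ↔ w.valuation _ x = 1) := fun w =>
    MU3V.tv_EXT _ (algebraMap (RFE (sp (m * lam)) : IntermediateField (kk A B) ℂ) ℂ) w
  have hnm0' : nm m ≠ 0 := fun h0 => hm ((kx_n0 h m).1 h0)
  -- `lam` as an element of the ring of integers of `M`
  obtain ⟨ℓ, hℓ⟩ : ∃ ℓ : 𝓞 (kk A B), ((ℓ : kk A B) : ℂ) = emb lam := hPR2 lam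
  have hℓ0 : ℓ ≠ 0 := by
    rintro rfl
    apply kx_ne h hlam
    rw [← hℓ]
    simp
  have hℓM : ((algebraMap (𝓞 (kk A B)) (𝓞 (RFE (sp (m * lam)) : IntermediateField (kk A B) ℂ)) ℓ :
      (RFE (sp (m * lam)) : IntermediateField (kk A B) ℂ)) : ℂ) = emb lam := by
    rw [← hℓ]; rfl
  have hℓv : ℓ ∈ v.asIdeal.under (𝓞 (kk A B)) := (hP ℓ lam hℓ).2 dvd_rfl
  have hvspan : v.asIdeal.under (𝓞 (kk A B)) = Ideal.span {ℓ} := by
    apply le_antisymm
    · intro x hx
      obtain ⟨y, hy⟩ := hPR1 x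
      obtain ⟨z, hz⟩ := (hP x y hy).1 hx
      obtain ⟨z', hz'⟩ := hPR2 z
      rw [Ideal.mem_span_singleton]
      refine ⟨z', ?_⟩
      apply RingOfIntegers.ext
      apply Subtype.ext
      rw [hy, hz, kx_mul h, ← hℓ, ← hz']
      rfl
    · rw [Ideal.span_singleton_le_iff_mem]
      exact hℓv
  have hvl : ∀ (w : HeightOneSpectrum (𝓞 (RFE (sp (m * lam)) : IntermediateField (kk A B) ℂ)))
      (V : ValuationSubring ℂ),
      (∀ x : (RFE (sp (m * lam)) : IntermediateField (kk A B) ℂ),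
      ((algebraMap _ ℂ x) ∈ V ↔ w.valuation _ x ≤ 1) ∧
      (V.valuation (algebraMap _ ℂ x) < 1 ↔ w.valuation _ x < 1) ∧
      (V.valuation (algebraMap _ ℂ x) = 1 ↔ w.valuation _ x = 1)) →
      w.asIdeal.under (𝓞 (kk A B)) = v.asIdeal.under (𝓞 (kk A B)) →
      V.valuation (emb lam) < 1 := by
    intro w V hV hw
    have hy : ℓ ∈ w.asIdeal.under (𝓞 (kk A B)) := by rw [hw]; exact hℓv
    rw [← hℓM]
    exact ((hV _).2.1).2 ((HeightOneSpectrum.valuation_lt_one_iff_mem w _).2 hy)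
  have hval2 : ∀ (V : ValuationSubring ℂ), V.valuation ((n2 : ℕ) : ℂ) = 1 → GR0 V L := fun V hV =>
    gre_zero (hGR V hV).2.2
  have hSn2 : ∀ {w : HeightOneSpectrum (𝓞 (RFE (sp (m * lam)) : IntermediateField (kk A B) ℂ))}
      {V : ValuationSubring ℂ},
      (∀ x : (RFE (sp (m * lam)) : IntermediateField (kk A B) ℂ),
      ((algebraMap _ ℂ x) ∈ V ↔ w.valuation _ x ≤ 1) ∧
      (V.valuation (algebraMap _ ℂ x) < 1 ↔ w.valuation _ x < 1) ∧
      (V.valuation (algebraMap _ ℂ x) = 1 ↔ w.valuation _ x = 1)) →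
      ¬ Pool.Agent.MU3.Above S w → GR0 V L := by
    intro w V hV hwS
    apply hval2
    have := val_int_S hV hwS (n := (n2 : ℤ)) (by exact_mod_cast hn2) (fun p hp hpd => by
      refine hS0 p hp (((Dvd.dvd.mul_right ?_ _).mul_left n1).mul_left 2)
      exact_mod_cast hpd)
    simpa using this
  have hINVc : ∀ {w : HeightOneSpectrum (𝓞 (RFE (sp (m * lam)) : IntermediateField (kk A B) ℂ))}
      {V : ValuationSubring ℂ},
      (∀ x : (RFE (sp (m * lam)) : IntermediateField (kk A B) ℂ),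
      ((algebraMap _ ℂ x) ∈ V ↔ w.valuation _ x ≤ 1) ∧
      (V.valuation (algebraMap _ ℂ x) < 1 ↔ w.valuation _ x < 1) ∧
      (V.valuation (algebraMap _ ℂ x) = 1 ↔ w.valuation _ x = 1)) →
      ∀ σ : (RFE (sp (m * lam)) : IntermediateField (kk A B) ℂ) ≃ₐ[D] RFE (sp (m * lam)),
      (∀ x : 𝓞 (RFE (sp (m * lam)) : IntermediateField (kk A B) ℂ), σ • x - x ∈ w.asIdeal) →
      ∀ x : (RFE (sp (m * lam)) : IntermediateField (kk A B) ℂ), (x : ℂ) ∈ V →
        V.valuation ((((rsHom hk hs σ) x :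
          (RFE (sp (m * lam)) : IntermediateField (kk A B) ℂ)) : ℂ) - (x : ℂ)) < 1 := by
    intro w V hV σ hσ x hx
    have h2 := MU3V.tw_LOC A B (RFE (sp (m * lam))) w V (fun y => ⟨(hV y).1, (hV y).2.1⟩)
      (rsHom hk hs σ) 1 one_pos (fun y => ⟨_, hσ y, by rw [pow_one]; rfl⟩) x hx
    rwa [pow_one] at h2
  have hAmem : ∀ σ : (RFE (sp (m * lam)) : IntermediateField (kk A B) ℂ) ≃ₐ[D] RFE (sp (m * lam)),
      σ ∈ kA hs (RFE (sp m) : IntermediateField (kk A B) ℂ) ↔ res σ = 1 := fun σ =>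
    (mem_kA' hk hs hle (res σ).1 σ (hres σ)).trans
      ⟨fun e => Subtype.ext e, fun e => by rw [e]; rfl⟩
  refine Pool.Agent.MUXK.I2ABSP_thm p hp (kk A B) D
    (RFE (sp (m * lam)) : IntermediateField (kk A B) ℂ) hcomm _ S c v q
    (kA hs (RFE (sp m) : IntermediateField (kk A B) ℂ)) χ ?_ ?_ ?_ ⟨_, hθM⟩ ⟨_, hθ0⟩ ?_ ?_ ?_ ?_
  · -- the character is not trivial on `A`
    obtain ⟨r, hr⟩ := hψ (Multiplicative.ofAdd 1)
    obtain ⟨σ, hσ⟩ := hbij.2 (1, r)
    have e1 : res σ = 1 := congrArg Prod.fst hσ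
    have e2 : bu σ = r := congrArg Prod.snd hσ
    refine ⟨σ, (hAmem σ).2 e1, ?_⟩
    rw [hχ, e2, hr]
    intro e
    have h1 : (1 : ZMod p) = 0 := congrArg Multiplicative.toAdd e
    haveI := Fact.mk hp
    exact one_ne_zero h1
  · -- unramified
    intro w hwS hwk σ hσ
    obtain ⟨V, hV⟩ := hVQ w
    have vm : V.valuation ((nm m : ℤ) : ℂ) = 1 := val_int_S hV hwS hnm0' hSm
    have hGV := hSn2 hV hwS
    have vl : V.valuation (emb lam) = 1 := by
      refine le_antisymm (kx_vle h V lam) (not_lt.1 fun hlt => hwk ?_)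
      have hℓw : ℓ ∈ w.asIdeal.under (𝓞 (kk A B)) := by
        show algebraMap (𝓞 (kk A B)) (𝓞 (RFE (sp (m * lam)) : IntermediateField (kk A B) ℂ)) ℓ ∈
          w.asIdeal
        rw [← HeightOneSpectrum.valuation_lt_one_iff_mem
          (K := (RFE (sp (m * lam)) : IntermediateField (kk A B) ℂ)) w]
        apply ((hV _).2.1).1
        have : algebraMap (RFE (sp (m * lam)) : IntermediateField (kk A B) ℂ) ℂ
          (algebraMap (𝓞 (RFE (sp (m * lam)) : IntermediateField (kk A B) ℂ))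
          (RFE (sp (m * lam)) : IntermediateField (kk A B) ℂ)
          (algebraMap (𝓞 (kk A B)) (𝓞 (RFE (sp (m * lam)) : IntermediateField (kk A B) ℂ)) ℓ)) =
            emb lam := hℓM
        rw [this]
        exact hlt
      have hsub : v.asIdeal.under (𝓞 (kk A B)) ≤ w.asIdeal.under (𝓞 (kk A B)) := by
        rw [hvspan, Ideal.span_singleton_le_iff_mem]
        exact hℓw
      have hmax' : (v.asIdeal.under (𝓞 (kk A B))).IsMaximal := by
        have hp : (v.asIdeal.under (𝓞 (kk A B))).IsPrime := Ideal.IsPrime.under _ _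
        exact hp.isMaximal (v.under (𝓞 (kk A B))).ne_bot
      have hne : w.asIdeal.under (𝓞 (kk A B)) ≠ ⊤ := by
        have hp : (w.asIdeal.under (𝓞 (kk A B))).IsPrime := Ideal.IsPrime.under _ _
        exact hp.ne_top
      exact (hmax'.eq_of_le hne hsub).symm
    have h1 := hINV A B h L Om hL (m * lam) hN V (gre_of hGV)
      (fun z hz hE => kx_torN_E h hL hGV hq hq2 hqD hnm hlam vm vl hz ((ink_zero V L z).2 hE)) _ le_rfl
      (rsHom hk hs σ) (hINVc hV σ hσ) (b σ) (hb σ)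
    have h2 := c2 _ _ (b σ) 1 h1 (hb σ)
    have h3 : rsHom hk hs σ = 1 := c5 _ _ 1 h2 (c6 _)
    exact rsHom_inj hk hs (by rw [h3, map_one])
  · -- totally ramified
    intro w hw σ hσ x
    obtain ⟨V, hV⟩ := hVQ w
    have hlt := hvl w V hV hw
    obtain ⟨vq, hint, -⟩ := kx_int1 h hq hnm hlt
    have vm : V.valuation ((nm m : ℤ) : ℂ) = 1 := hint _ hqm
    have hGV : GR0 V L := hval2 V (by
      have := hint (n2 : ℤ) (by exact_mod_cast hqn2)
      simpa using this)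
    haveI : IsGalois D (RFE (sp (m * lam)) : IntermediateField (kk A B) ℂ) :=
      IsGalois.tower_top_of_isGalois (kk A B) D _
    -- the prime of `D` below `w`
    have hv'k : (w.under (𝓞 D)).asIdeal.under (𝓞 (kk A B)) = v.asIdeal.under (𝓞 (kk A B)) := by
      rw [← hw]
      exact Ideal.under_under w.asIdeal
    haveI := kx_galD hgalM hfdM hcomm hk hs
    have hr := hURA p (kk A B) D S v q hg (w.under (𝓞 D)) hv'k
    have hlD := kx_val_lam (kk A B) D (w.under (𝓞 D)) hr ℓ hℓ0 (hv'k.trans hvspan)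
    -- the element `x(u + u') - x(u)`
    have hu1 : Om / emb m + Om / emb lam ∉ L.lattice := by
      have := hz1; rwa [kx_one h, one_mul, one_mul] at this
    have hk1 : emb (m * lam) * (Om / emb m + Om / emb lam) ∈ L.lattice := by
      have := kx_torsN_E h hL hm hlam 1 1; rwa [kx_one h, one_mul, one_mul] at this
    have hu2 : Om / emb m ∉ L.lattice := by
      have := kx_notMem_E h hL hm hmu (isCoprime_one_left (x := m))
      rwa [kx_one h, one_mul] at this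
    have hk2 : emb (m * lam) * (Om / emb m) ∈ L.lattice := by
      have := kx_torsN_E h hL hm hlam 1 0
      rwa [kx_one h, one_mul, kx_zero h, zero_mul, add_zero] at this
    have hmemx : ∀ z : ℂ, z ∉ L.lattice → emb (m * lam) * z ∈ L.lattice →
        xnE L z ∈ (RFE (sp (m * lam)) : IntermediateField (kk A B) ℂ) := by
      intro z hz hkz
      refine IntermediateField.subset_adjoin _ _ ⟨⊤, L, Om, hL, Or.inr ⟨z, ?_, hz, rfl⟩⟩
      intro y hy
      obtain ⟨t, rfl⟩ := Ideal.mem_span_singleton.1 hy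
      have e : emb (m * lam * t) * z = emb t * (emb (m * lam) * z) := by
        rw [kx_mul h (m * lam) t]; ring
      rw [e]
      exact kx_cmo_E h hL t _ hkz
    have htM := sub_mem (hmemx _ hu1 hk1) (hmemx _ hu2 hk2)
    have htra := kx_tra_E h hL hGV hq hq2 hqD hnm hm hlam hul hm2 vm hlt
    have hvt : w.valuation _ (⟨_, htM⟩ : (RFE (sp (m * lam)) : IntermediateField (kk A B) ℂ)) ^
        (q - 1) = w.valuation _ (algebraMap D (RFE (sp (m * lam)) : IntermediateField (kk A B) ℂ)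
          (algebraMap (kk A B) D (ℓ : kk A B))) := by
      set t : (RFE (sp (m * lam)) : IntermediateField (kk A B) ℂ) := ⟨_, htM⟩ with ht
      set lM : (RFE (sp (m * lam)) : IntermediateField (kk A B) ℂ) :=
        algebraMap D (RFE (sp (m * lam)) : IntermediateField (kk A B) ℂ)
          (algebraMap (kk A B) D (ℓ : kk A B)) with hlM
      have e1 : (lM : ℂ) = emb lam := hℓ
      have hne : lM ≠ 0 := by
        intro h0
        apply kx_ne h hlam
        rw [← e1, h0]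
        rfl
      have h1 : V.valuation (((t ^ (q - 1) / lM :
          (RFE (sp (m * lam)) : IntermediateField (kk A B) ℂ))) : ℂ) = 1 := by
        have e2 : (((t ^ (q - 1) / lM :
            (RFE (sp (m * lam)) : IntermediateField (kk A B) ℂ))) : ℂ) =
            (xnE L (Om / emb m + Om / emb lam) - xnE L (Om / emb m)) ^ (q - 1) / emb lam := by
          rw [IntermediateField.coe_div, IntermediateField.coe_pow, e1]
        rw [e2, map_div₀, map_pow, htra, div_self]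
        exact (Valuation.ne_zero_iff _).2 (kx_ne h hlam)
      have h1' := (hV (t ^ (q - 1) / lM)).2.2.1 h1
      rw [map_div₀, map_pow] at h1'
      have h3 : w.valuation _ lM ≠ 0 := (Valuation.ne_zero_iff _).2 hne
      rwa [div_eq_one_iff_eq h3] at h1'
    refine kx_full D _ w (w.under (𝓞 D)) rfl _ hlD _ (q - 1) hvt
      (kA hs (RFE (sp m) : IntermediateField (kk A B) ℂ) : Set _) ?_ ?_ σ hσ x
    · -- the number of elements of `A`
      rw [← hcardU, ← Set.ncard_univ]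
      refine Set.ncard_le_ncard_of_injOn bu (fun _ _ => Set.mem_univ _) ?_ (Set.toFinite _)
      intro σ₁ h₁ σ₂ h₂ e
      apply hbij.1
      exact Prod.ext (((hAmem σ₁).1 h₁).trans ((hAmem σ₂).1 h₂).symm) e
    · intro τ hτ
      have h0 : ActH_E (rsHom hk hs τ) m (b τ) := c3 _ _ m _ (dvd_mul_right m lam) (hb τ)
      have h1 := hINV A B h L Om hL m hm V (gre_of hGV)
        (fun z hz hE => kx_tor_E h hL hGV vm hz ((ink_zero V L z).2 hE)) _ hle
        (rsHom hk hs τ) (hINVc hV τ hτ) (b τ) h0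
      have h2 := d2 _ _ (b τ) 1 h1 h0
      show τ ∈ kA hs (RFE (sp m) : IntermediateField (kk A B) ℂ)
      rw [hAmem]
      apply Subtype.ext
      have h3 : ActH_E (res τ).1 m 1 := by
        have h4 : m ∣ b τ - xs (res τ) := hbm' τ
        have h5 : m ∣ xs (res τ) - 1 ∨ m ∣ xs (res τ) + 1 := by
          rcases h1 with h1 | h1
          · left
            have := dvd_sub h1 h4
            have e : b τ - 1 - (b τ - xs (res τ)) = xs (res τ) - 1 := by ring
            rwa [e] at this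
          · right
            have := dvd_sub h1 h4
            have e : b τ + 1 - (b τ - xs (res τ)) = xs (res τ) + 1 := by ring
            rwa [e] at this
        exact d2 _ _ (xs (res τ)) 1 h5 (hxs (res τ))
      exact d5 _ _ 1 h3 (d6 _)
  · -- unit outside `S`
    intro w hwS
    obtain ⟨V, hV⟩ := hVQ w
    have vm : V.valuation ((nm m : ℤ) : ℂ) = 1 := val_int_S hV hwS hnm0' hSm
    have va : V.valuation (a : ℂ) = 1 := val_int_S hV hwS ha hSa
    apply ((hV _).2.2).1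
    exact kx_unit_E h hL (hSn2 hV hwS) hq hq2 hqD hnm hm hlam hcop hul hmu vm hH va hcm hcl
  · -- the congruence
    intro w hw σ
    obtain ⟨V, hV⟩ := hVQ w
    have hlt := hvl w V hV hw
    obtain ⟨vq, hint, -⟩ := kx_int1 h hq hnm hlt
    have vm : V.valuation ((nm m : ℤ) : ℂ) = 1 := hint _ hqm
    have va : V.valuation (a : ℂ) = 1 := hint _ hqa
    have hGV : GR0 V L := hval2 V (by
      have := hint (n2 : ℤ) (by exact_mod_cast hqn2)
      simpa using this)
    obtain ⟨k1, k2⟩ := kx_cong_E h hL hGV hq hq2 hqD hnm hm hlam hmu vm hH va hlt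
      (y := xs (res σ)) (r := Quotient.out ((bu σ : (OO A B ⧸ Ideal.span {lam})ˣ) :
            OO A B ⧸ Ideal.span {lam})) (hxs (res σ)).cop
    constructor
    · apply ((hV _).1).1
      rw [← ValuationSubring.valuation_le_one_iff]
      have e : algebraMap (RFE (sp (m * lam)) : IntermediateField (kk A B) ℂ) ℂ (σ ⟨_, hθ0⟩) = _ :=
        hsig0 σ
      rw [e]
      exact k1
    · apply ((hV _).2.1).1
      rw [map_sub]
      have e : algebraMap (RFE (sp (m * lam)) : IntermediateField (kk A B) ℂ) ℂ (σ ⟨_, hθ0⟩) = _ :=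
        hsig0 σ
      have e' : algebraMap (RFE (sp (m * lam)) : IntermediateField (kk A B) ℂ) ℂ (σ ⟨_, hθM⟩) = _ :=
        hsig σ
      rw [e, e']
      exact k2
  · -- the norm
    obtain ⟨C, hC, -, hCe⟩ := kx_norm_E h hL hm hlam hcop hH hACM hDIS T ha hcl hcm hmu hfld hk hxs
      hfrob
    intro y hy g hg'
    apply hg'
    have : Fintype ((RFE (sp (m * lam)) : IntermediateField (kk A B) ℂ) ≃ₐ[D] RFE (sp (m * lam))) :=
      Fintype.ofFinite _
    have e1 := prod_all_abs (fun σ => res σ) (fun σ => bu σ) hbij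
      (fun (s : GD hk (RFE (sp m) : IntermediateField (kk A B) ℂ))
        (r : (OO A B ⧸ Ideal.span {lam})ˣ) =>
        ThetaH L H (emb (xs s) * (Om / emb m) +
          emb (Quotient.out (r : OO A B ⧸ Ideal.span {lam})) * (Om / emb lam)))
    rw [hCe, finprod_eq_prod_of_fintype] at e1
    have e2 := congrArg (algebraMap (RFE (sp (m * lam)) : IntermediateField (kk A B) ℂ) ℂ) hy
    rw [finprod_eq_prod_of_fintype, map_prod] at e2
    have e3 : (y : ℂ) = C := by
      refine e2.trans ?_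
      refine (Finset.prod_congr rfl fun σ _ => ?_).trans e1
      exact hsig σ
    rw [e3]
    exact hC
  · -- the product over the kernel
    have : Fintype χ.ker := Fintype.ofFinite _
    apply (algebraMap (RFE (sp (m * lam)) : IntermediateField (kk A B) ℂ) ℂ).injective
    have e1 := prod_ker_abs hp (fun σ => res σ) (fun σ => bu σ) hbij ψ hψ χ hχ
      (fun (s : GD hk (RFE (sp m) : IntermediateField (kk A B) ℂ)) =>
        ThetaH L H (emb (xs s) * (Om / emb m)))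
    rw [← hcval, hcardU, finprod_eq_prod_of_fintype] at e1
    rw [finprod_eq_prod_of_fintype, map_prod, map_pow]
    refine (Finset.prod_congr rfl fun σ _ => ?_).trans e1
    exact hsig0 σ

end

end Pool.Agent.MUXW


end

section

/-!
# MUX, block W: module FRD, a good prime of `D` lies over a principal prime
-/

set_option autoImplicit false

open WeierstrassCurve Polynomial NumberField IsDedekindDomain

namespace Pool.Agent.MUXW

open _root_.MU3 _root_.Pool.Agent.MU3A _root_.Pool.Agent.MU3B _root_.Pool.Agent.MU3C _root_.Pool.Agent.RI _root_.Pool.Agent.RID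
open _root_.Pool.Agent.MUX _root_.Pool.Agent.ME _root_.Pool.Agent.MUXU
open _root_.Pool.Agent.MU3V (cls Sub GD algDF Sw_LOC Sv_EXT)
open _root_.Pool.Agent.MUXV (GR InK tX CMO Ovr)

theorem ty_FRD_E (h1 : Sy_FRH_E) (h2 : Sy_PRQ) (h3 : Sy_MEM) (h4 : Sw_LOC) (h5 : Sv_EXT) : Sy_FRD_E := by
  intro A B hc T n ι _ R
  obtain ⟨n₀, hn₀, hF⟩ := h1 A B hc T n ι R
  refine ⟨n₀, hn₀, ?_⟩
  intro p m hm h2m D _ h hHas hsub
  letI := algC h
  intro S v q hgood hqn hqm
  have hkfd : FiniteDimensional ℚ (kk A B) :=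
    FiniteDimensional.of_injective (IntermediateField.inclusion h).toLinearMap
      (IntermediateField.inclusion h).injective
  have hk : NumberField (kk A B) := ⟨⟩
  have hDN : NumberField D := ⟨⟩
  have hspm : (sp m : Ideal (OO A B)) ≠ ⊥ := by
    rw [Ne, Ideal.span_singleton_eq_bot]
    exact hm
  have hTfd := T.fin (sp m) hspm
  have hTgal := T.gal (sp m) hspm
  have hTcomm := T.comm (sp m) hspm
  set F : IntermediateField (kk A B) ℂ := RFE (sp m) with hFdef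
  have hFQ : FiniteDimensional ℚ F := FiniteDimensional.trans ℚ (kk A B) F
  have hFN : NumberField F := ⟨⟩
  letI : Algebra D F := algDF hsub
  haveI := Pool.Agent.FX.tower (kk A B) D F fun x => rfl
  obtain ⟨hcard, w, hw, hwb, hwv, hwk, σ, hσ⟩ :=
    Pool.Agent.MU3V.W_FRD.abs_frob (kk A B) D F v q hgood.prime hgood.card
  obtain ⟨-, hP2, hP3⟩ := h2 A B hc
  obtain ⟨Q, hQc, hQ⟩ := hP3 (v.asIdeal.under (𝓞 (kk A B)))
  -- the place `V`
  obtain ⟨V, hV⟩ := h5 F (algebraMap F ℂ) ⟨w, hw, hwb⟩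
  have hcong : ∀ x : F, (x : ℂ) ∈ V → V.valuation (((σ x : F) : ℂ) - (x : ℂ) ^ q) < 1 :=
    h4 A B F ⟨w, hw, hwb⟩ V (fun x => ⟨(hV x).1, (hV x).2.1⟩) σ q hgood.prime.pos hσ
  have hOvr : Ovr Q V := by
    intro y hy
    obtain ⟨x, hx⟩ := hP2 y
    have h6 : x ∈ v.asIdeal.under (𝓞 (kk A B)) := (hQ x y hx).mpr hy
    rw [← hwk] at h6
    have h7 : algebraMap (𝓞 (kk A B)) (𝓞 F) x ∈ w := h6
    have h8 : HeightOneSpectrum.valuation F (⟨w, hw, hwb⟩ : HeightOneSpectrum (𝓞 F))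
        (algebraMap (𝓞 F) F (algebraMap (𝓞 (kk A B)) (𝓞 F) x)) < 1 :=
      (HeightOneSpectrum.valuation_lt_one_iff_mem _ _).mpr h7
    have h9 := (hV _).2.1.mpr h8
    have h10 : algebraMap F ℂ (algebraMap (𝓞 F) F (algebraMap (𝓞 (kk A B)) (𝓞 F) x)) = emb y :=
      hx
    rwa [h10] at h9
  -- `σ` is trivial on `D`
  obtain ⟨-, -, -, -, hext⟩ := h3 A B F hTfd hTgal hTcomm D h hsub 1 one_ne_zero
  obtain ⟨τ, hτ⟩ := hext σ
  have hτ1 : τ = 1 := by
    apply hgood.free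
    refine Pool.Agent.MU3V.W_FRD.abs_free (kk A B) D F v w hwv q hgood.prime.pos σ hσ τ ?_
    intro y
    apply Subtype.ext
    exact hτ y (hsub y y.2)
  subst hτ1
  have hGD : σ ∈ GD h F := by
    intro y hyD hyF
    apply Subtype.ext
    exact hτ ⟨y, hyD⟩ hyF
  have hTr : TrH_E σ := by
    intro x hx
    exact hGD x (hHas x hx) x.2
  obtain ⟨lam, hlQ, hlam, hact⟩ := hF m hm h2m Q q hgood.prime hqn hqm (hQc.trans hcard) V hOvr σ
    hcong hTr
  refine ⟨lam, hlam, ⟨σ, hGD, hact⟩, fun x y hxy => ?_⟩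
  rw [hQ x y hxy, hlQ, Ideal.mem_span_singleton]

end Pool.Agent.MUXW


end

section

/-!
# MUX, block W, module I1 (helper4): the norm relation (I1)
-/

set_option autoImplicit false

open WeierstrassCurve Polynomial NumberField IsDedekindDomain

namespace Pool.Agent.MUXW

open _root_.MU3 _root_.Pool.Agent.MU3A _root_.Pool.Agent.MU3B _root_.Pool.Agent.MU3C _root_.Pool.Agent.RI _root_.Pool.Agent.RID
open _root_.Pool.Agent.MUX _root_.Pool.Agent.ME _root_.Pool.Agent.MUXU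
open _root_.Pool.Agent.MU3V (cls Sub GD algDF)
open _root_.Pool.Agent.MUXV (GR InK tX CMO Ovr)

noncomputable section

namespace I1W

end I1W

open _root_.Pool.Agent.MUXW.I1W in
theorem ty_I1_E (hNRM : Sy_NRM_E) (hMEM : Sy_MEM) : Sy_I1_E := by
  classical
  intro A B hc T L Om hL m b hm h2m hbm hm2 a H ha ham hH θ θ' hθ hθ' D D' h h' hDD' hHD hsub hsub'
  letI := algC h
  letI := algC h'
  intro p σ hσ hord hp c' hc'
  obtain ⟨C, hCm, hC0, hC⟩ := hNRM A B hc T L Om hL m b hm h2m hbm hm2 a H ha ham hH θ θ' hθ hθ'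
  -- the fields
  have hb0 : b ≠ 0 := fun h0 => hm (by rw [h0] at hbm; exact zero_dvd_iff.1 hbm)
  obtain ⟨-, -, -, -, -, -, -, -, -, -, -, -, hdom⟩ :=
    Pool.Agent.MUXV.tq_EMB A B ⟨hc.hB, hc.neg, hc.fund1, hc.fund0⟩
  have hbotF : sp m ≠ (⊥ : Ideal (OO A B)) := by
    rw [Ne, Ideal.span_singleton_eq_bot]
    exact hm
  have hbotF' : sp (b * m) ≠ (⊥ : Ideal (OO A B)) := by
    rw [Ne, Ideal.span_singleton_eq_bot]
    exact mul_ne_zero hb0 hm
  have hFF' : (RFE (sp m) : IntermediateField (kk A B) ℂ) ≤ RFE (sp (b * m)) :=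
    T.mono _ _ (Ideal.span_singleton_le_span_singleton.2 (Dvd.intro_left _ rfl))
  have hfd' := T.fin _ hbotF'
  by_cases h0 : θ' = 0
  · -- degenerate case
    have hfin : Finite ((RFE (sp (b * m)) : IntermediateField (kk A B) ℂ) ≃ₐ[kk A B]
      RFE (sp (b * m))) := inferInstance
    have e1 : (C * θ : ℂ) = 0 := by
      rw [← hC]
      refine finprod_eq_zero _ ⟨1, fun x _ => rfl⟩ ?_ (Set.toFinite _)
      rw [h0, map_zero]
      rfl
    have e2 : (θ : ℂ) = 0 := by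
      rcases mul_eq_zero.1 e1 with h1 | h1
      · exact absurd h1 hC0
      · exact h1
    have e3 : θ = 0 := Subtype.ext e2
    have hfd := T.fin _ hbotF
    have hfin2 : Finite ((RFE (sp m) : IntermediateField (kk A B) ℂ) ≃ₐ[kk A B]
      RFE (sp m)) := inferInstance
    have e4 : cW h θ = 0 := by
      unfold cW
      refine finprod_eq_zero _ (1 : GD h (RFE (sp m) : IntermediateField (kk A B) ℂ)) ?_
        (Set.toFinite _)
      rw [e3, map_zero]
      rfl
    have e5 : cW h' θ' = 0 := by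
      unfold cW
      refine finprod_eq_zero _ (1 : GD h' (RFE (sp (b * m)) : IntermediateField (kk A B) ℂ)) ?_
        (Set.toFinite _)
      rw [h0, map_zero]
      rfl
    refine ⟨1, one_mem _, one_ne_zero, ?_⟩
    rw [e4, mul_zero]
    have e6 : c' = 0 := Subtype.ext (hc'.trans e5)
    refine Finset.prod_eq_zero (Finset.mem_range.2 (Nat.pos_of_ne_zero hp)) ?_
    rw [e6, map_zero]
    rfl
  · refine ⟨C ^ Nat.card (GD h (RFE (sp m) : IntermediateField (kk A B) ℂ)), pow_mem hCm _,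
      pow_ne_zero _ hC0, ?_⟩
    exact core hMEM hFF' hfd' (T.gal _ hbotF) (T.gal _ hbotF') (T.comm _ hbotF') h h' hDD' hsub
      hsub' θ θ' h0 (hHD C hCm) hC p σ hσ hord hp c' hc'

end

end Pool.Agent.MUXW


end

section

/-!
# MUX, block W: module SUC, the element `cW h θ` is a unit outside `S`
-/

set_option autoImplicit false

open WeierstrassCurve Polynomial NumberField IsDedekindDomain

namespace Pool.Agent.MUXW

open _root_.MU3 _root_.Pool.Agent.MU3A _root_.Pool.Agent.MU3B _root_.Pool.Agent.MU3C _root_.Pool.Agent.RI _root_.Pool.Agent.RID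
open _root_.Pool.Agent.MUX _root_.Pool.Agent.ME _root_.Pool.Agent.MUXU
open _root_.Pool.Agent.MU3V (cls Sub GD algDF)
open _root_.Pool.Agent.MUXV (GR InK tX CMO Ovr)

noncomputable section

namespace SUC

end SUC

open _root_.Pool.Agent.MUXW.SUC in
/-- `cW h θ` is a unit outside `S` -/
theorem ty_SUC_E (hEXT : Pool.Agent.MU3V.Sv_EXT) (hTHU : Pool.Agent.MUXV.Sq_THU)
    (hTOR : Pool.Agent.MUXV.Sq_TOR) (hEMB : Pool.Agent.MUXV.Sq_EMB) (hGRB : Sy_GRB_E)
    (hAUE : Su_AUE) : Sy_SUC_E := by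
  intro A B hC T L Om hL
  obtain ⟨n₀, hn₀, hg⟩ := hGRB A B hC L hL.nrm
  refine ⟨n₀, hn₀, ?_⟩
  intro m hm hmu a H ha ham hH S h2S haS hmS θ hθ D _ hk _ c hc v hv
  obtain ⟨emul, -, -, eint, -, einj, -, -, -, -, -, nm0, -⟩ := hEMB A B (cqF hC)
  have embm : emb m ≠ 0 := by
    intro h0
    apply hm
    apply einj
    rw [h0]
    have := eint 0
    simpa using this.symm
  obtain ⟨V, hV⟩ := hEXT D (algebraMap D ℂ) v
  have hS : ∀ p ∈ S, V.valuation (p : ℂ) = 1 := by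
    intro p hp
    have h1 : v.valuation D (p : D) = 1 := by
      have h3 : ¬ (v.valuation D (p : D) < 1) := by
        intro h4
        apply hv
        refine ⟨p, hp, ?_⟩
        rw [← HeightOneSpectrum.valuation_lt_one_iff_mem (K := D) v (p : 𝓞 D)]
        simpa using h4
      refine le_antisymm ?_ (not_lt.1 h3)
      have h5 := HeightOneSpectrum.valuation_le_one (K := D) v (p : 𝓞 D)
      simpa using h5
    have h2 := ((hV (p : D)).2.2).2 h1
    simpa using h2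
  have vn : V.valuation (n₀ : ℂ) = 1 := _root_.Pool.Agent.MUXW.SUC.v_nat n₀ hn₀ (fun p hp1 hp2 => hS p (h2S p hp1 hp2))
  have va : V.valuation (a : ℂ) = 1 := _root_.Pool.Agent.MUXW.SUC.v_int ha (fun p hp1 hp2 => hS p (haS p hp1 hp2))
  have hm' : nm m ≠ 0 := fun h0 => hm ((nm0 m).1 h0)
  have vm : V.valuation ((nm m : ℤ) : ℂ) = 1 := _root_.Pool.Agent.MUXW.SUC.v_int hm' (fun p hp1 hp2 => hS p (hmS p hp1 hp2))
  have hcmo : CMO A B L := by
    intro x z hz
    obtain ⟨y, -, rfl⟩ := (hL.mem z).1 hz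
    exact (hL.mem _).2 ⟨x * y, trivial, by rw [emul]; ring⟩
  have key : ∀ s : ℂ ≃+* ℂ, V.valuation (s (ThetaH L H (Om / emb m))) = 1 := by
    intro s
    rw [← v_comap]
    have vn' : (V.comap (s : ℂ →+* ℂ)).valuation (n₀ : ℂ) = 1 := by
      rw [v_comap, map_natCast]; exact vn
    have va' : (V.comap (s : ℂ →+* ℂ)).valuation (a : ℂ) = 1 := by
      rw [v_comap, map_intCast]; exact va
    have vm' : (V.comap (s : ℂ →+* ℂ)).valuation ((nm m : ℤ) : ℂ) = 1 := by
      rw [v_comap, map_intCast]; exact vm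
    obtain ⟨W, ξ, hGR⟩ := gre_zero (hg _ vn').2.2
    refine (hTHU _ L 0 W ξ hGR a H va' hH).1 _ ?_
    intro hE
    have h3 := hTOR A B (cqF hC) _ W L _ _ ξ hGR hcmo m vm' _ (by
      rw [mul_left_comm, mul_div_cancel₀ _ embm, ← eint]
      exact hcmo _ _ ((hL.mem _).2 ⟨1, trivial, by
        have := eint 1
        rw [Int.cast_one, Int.cast_one] at this
        rw [this, mul_one]⟩)) hE
    obtain ⟨y, -, hy⟩ := (hL.mem _).1 h3
    have h4 : (a : ℂ) = emb (m * y) := by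
      rw [emul]
      have h5 : Om * (a : ℂ) = Om * (emb m * emb y) := by
        have h6 : (a : ℂ) * (Om / emb m) * emb m = Om * emb y * emb m := by rw [hy]
        rw [mul_assoc, div_mul_cancel₀ _ embm] at h6
        rw [mul_comm, h6]
        ring
      exact mul_left_cancel₀ hL.om_ne h5
    have h7 : (a : OO A B) = m * y := einj _ _ ((eint a).trans h4)
    exact hmu (ham.isUnit_of_dvd' ⟨y, h7⟩ dvd_rfl)
  have : FiniteDimensional (kk A B) (RFE (sp m)) := T.fin (sp m) (by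
    rw [Ne, Ideal.span_singleton_eq_bot]; exact hm)
  have hFa := alg hEMB hC (RFE (sp m))
  rw [← (hV c).2.2]
  change V.valuation (c : ℂ) = 1
  rw [hc]
  refine finprod_induction (fun y => V.valuation y = 1) (map_one _) ?_ ?_
  · intro y z hy hz
    rw [map_mul, hy, hz, one_mul]
  · intro σ
    obtain ⟨s, hs⟩ := extA hAUE (RFE (sp m)) hFa (σ : RFE (sp m) ≃ₐ[kk A B] RFE (sp m))
    rw [← hs θ, hθ]
    exact key s

end

end Pool.Agent.MUXW


end

section

/-!
# MUX, block W, module HIT (helper97): every automorphism of `F_m / k` hits exactly two pairs `± (i, x)`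
-/

set_option autoImplicit false

open WeierstrassCurve Polynomial NumberField IsDedekindDomain

namespace Pool.Agent.MUXW

open _root_.MU3 _root_.Pool.Agent.MU3A _root_.Pool.Agent.MU3B _root_.Pool.Agent.MU3C _root_.Pool.Agent.RI _root_.Pool.Agent.RID
open _root_.Pool.Agent.MUX _root_.Pool.Agent.ME _root_.Pool.Agent.MUXU
open _root_.Pool.Agent.MU3V (cls Sub GD algDF)
open _root_.Pool.Agent.MUXV (GR InK tX CMO Ovr)

noncomputable section

namespace HIT

/-- homothetic normalised lattices are equal -/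
lemma homo_E {A B : ℤ} {b b' : Ideal (OO A B)} {L L' : PeriodPair} {om om' : ℂ} (hL : IsNE b L om)
    (hL' : IsNE b' L' om') {u : ℂ} (_ : u ≠ 0)
    (_ : ∀ z : ℂ, z ∈ L.lattice ↔ u * z ∈ L'.lattice) :
    kapE L' = kapE L ∧ (∀ z, z ∈ L.lattice ↔ z ∈ L'.lattice) ∧
      ∀ z, L'.weierstrassP z = L.weierstrassP z := by
  exact ⟨hL'.nrm.kap_eq hL.nrm, fun z => nrm_lat hL.nrm hL'.nrm z, fun z => nrm_x hL'.nrm hL.nrm z⟩

section
variable {A B : ℤ} {n : ℕ} {ι : Type}

/-- every normalised lattice is one of the `L i` -/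
lemma repr_E (he : Pool.Agent.MUXV.Sq_EMB) (hC : CQ A B) (R : RepsE A B n ι) {b' : Ideal (OO A B)}
    {L' : PeriodPair} {om' : ℂ} (hL' : IsNE b' L' om') :
    ∃ i, kapE L' = kapE (R.L i) ∧ (∀ z, z ∈ (R.L i).lattice ↔ z ∈ L'.lattice) ∧
      ∀ z, L'.weierstrassP z = (R.L i).weierstrassP z := by
  obtain ⟨i, x, y, hx, hy, hxy⟩ := R.surj b' hL'.b_ne
  have h1 := (he A B (KER.cqF hC)).1
  have hx0 := ne0 he hC hx
  have hy0 := ne0 he hC hy
  have ho := (R.nl i).om_ne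
  have ho' := hL'.om_ne
  refine ⟨i, homo_E (R.nl i) hL' (u := om' * emb y / (emb x * R.om i))
    (div_ne_zero (mul_ne_zero ho' hy0) (mul_ne_zero hx0 ho)) fun z => ?_⟩
  rw [(R.nl i).mem, hL'.mem]
  constructor
  · rintro ⟨β, hβ, rfl⟩
    have h2 : y * β ∈ sp x * b' := by
      rw [hxy]
      exact Ideal.mul_mem_mul (Ideal.mem_span_singleton_self y) hβ
    obtain ⟨γ, hγ, h3⟩ := Ideal.mem_span_singleton_mul.1 h2
    refine ⟨γ, hγ, ?_⟩
    have h4 : emb x * emb γ = emb y * emb β := by rw [← h1, ← h1, h3]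
    field_simp
    linear_combination -h4
  · rintro ⟨γ, hγ, h5⟩
    have h2 : x * γ ∈ sp y * R.b i := by
      rw [← hxy]
      exact Ideal.mul_mem_mul (Ideal.mem_span_singleton_self x) hγ
    obtain ⟨β, hβ, h3⟩ := Ideal.mem_span_singleton_mul.1 h2
    refine ⟨β, hβ, ?_⟩
    have h4 : emb y * emb β = emb x * emb γ := by rw [← h1, ← h1, h3]
    field_simp at h5
    have h6 : emb y * (z - R.om i * emb β) = 0 := by
      linear_combination h5 + (-(R.om i)) * h4
    rcases mul_eq_zero.1 h6 with h | h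
    · exact absurd h hy0
    · linear_combination h

/-- the invariant determines the class -/
lemma uniq_E (he : Pool.Agent.MUXV.Sq_EMB) (hDET : Su_DET) (hC : CQ A B) (R : RepsE A B n ι) {i j : ι}
    (_h : kapE (R.L i) = kapE (R.L j)) : i = j := by
  obtain ⟨h1, -, -, -, -, hinj, -, -, -, -, -, -, hdom⟩ := he A B (KER.cqF hC)
  have hg2 : (R.L i).g₂ = (R.L j).g₂ := (R.nl i).nrm.g2_eq (R.nl j).nrm
  have hg3 : (R.L i).g₃ = (R.L j).g₃ := (R.nl i).nrm.g3_eq (R.nl j).nrm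
  have hlat := hDET _ _ hg2 hg3
  have hsym : ∀ {i j : ι}, (R.L i).lattice = (R.L j).lattice → ∀ (β β' : OO A B), β ≠ 0 →
      R.om i * emb β = R.om j * emb β' → sp β' * R.b i ≤ sp β * R.b j := by
    intro i j hlat β β' hβ hβ'
    rw [Ideal.span_singleton_mul_le_iff]
    intro γ hγ
    have h4 : R.om i * emb γ ∈ (R.L j).lattice := by
      rw [← hlat]
      exact ((R.nl i).mem _).2 ⟨γ, hγ, rfl⟩
    obtain ⟨γ', hγ', h5⟩ := ((R.nl j).mem _).1 h4
    refine Ideal.mem_span_singleton_mul.2 ⟨γ', hγ', ?_⟩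
    apply hinj
    rw [h1, h1]
    have ho := (R.nl i).om_ne
    have ho' := (R.nl j).om_ne
    have h6 : R.om j * (emb β * emb γ' - emb β' * emb γ) = 0 := by
      linear_combination (-emb β) * h5 + emb γ * hβ'
    rcases mul_eq_zero.1 h6 with h | h
    · exact absurd h ho'
    · linear_combination h
  obtain ⟨β, hβ, hβ0⟩ := Submodule.exists_mem_ne_zero_of_ne_bot (R.nl i).b_ne
  have h4 : R.om i * emb β ∈ (R.L j).lattice := by
    rw [← hlat]
    exact ((R.nl i).mem _).2 ⟨β, hβ, rfl⟩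
  obtain ⟨β', hβ', h5⟩ := ((R.nl j).mem _).1 h4
  have hβ'0 : β' ≠ 0 := by
    intro h6
    have h7 : R.om i * emb β = 0 := by
      rw [h5, h6]
      simp [emb]
    exact mul_ne_zero (R.nl i).om_ne (ne0 he hC hβ0) h7
  exact R.inj i j β' β hβ'0 hβ0 (le_antisymm (hsym hlat β β' hβ0 h5)
    (hsym hlat.symm β' β hβ'0 h5.symm))

lemma xn_congr_E {L : PeriodPair} {z w : ℂ} (h : z - w ∈ L.lattice) : xnE L z = xnE L w := by
  unfold xnE
  rw [wp_congr h]

lemma xn_congr'_E {L : PeriodPair} {z w : ℂ} (h : z + w ∈ L.lattice) : xnE L z = xnE L w := by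
  have h1 : xnE L z = xnE L (-w) := xn_congr_E (by rwa [sub_neg_eq_add])
  rw [h1]
  unfold xnE
  rw [L.weierstrassP_neg]

end

end HIT

open _root_.Pool.Agent.MUXW.HIT in
theorem ty_HIT_E (he : Pool.Agent.MUXV.Sq_EMB) (hDET : Su_DET) : Sy_HIT_E := by
  intro A B hC T n ι R m hm hcop hm2 s hs
  obtain ⟨h1, h2, h3, h4, h5, hinj, -, -, -, -, -, -, hdom⟩ := he A B (KER.cqF hC)
  have hmC : (m : ℂ) ≠ 0 := Nat.cast_ne_zero.2 hm
  have hM0 : ((m : ℕ) : OO A B) ≠ 0 := by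
    intro h
    apply hmC
    rw [← h5 m, h]
    simp [emb]
  have he1 : emb (1 : OO A B) = 1 := by
    have := h5 1
    rwa [Nat.cast_one, Nat.cast_one] at this
  have hMn : (idl m : Ideal (OO A B)) ≠ ⊥ := by rwa [Ne, Ideal.span_singleton_eq_bot]
  obtain ⟨a, ha, hact⟩ := T.act (idl m) hMn s hs
  have hL := R.nl R.i0
  obtain ⟨b', L', om', mu, hL', hA⟩ := hact _ _ _ hL
  obtain ⟨i, hk, hlat, hP⟩ := repr_E he hC R hL'
  have hLmem : ∀ z, z ∈ (R.L R.i0).lattice ↔ ∃ x : OO A B, z = R.om R.i0 * emb x := by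
    intro z
    rw [hL.mem, R.b0]
    simp
  have ho0 := hL.om_ne
  have hoi := (R.nl i).om_ne
  -- the base point
  have hpt0 : Pool.Agent.ME.ptE R m R.i0 1 = R.om R.i0 / m := by
    unfold Pool.Agent.ME.ptE
    have : nI (R.b R.i0) = 1 := by
      unfold nI
      rw [R.b0]
      have : Subsingleton (OO A B ⧸ (⊤ : Ideal (OO A B))) := Ideal.Quotient.subsingleton_iff.2 rfl
      exact Nat.card_unique
    rw [this, he1]
    simp
  have htor : Tor (idl m : Ideal (OO A B)) (R.L R.i0) (R.om R.i0 / m) := by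
    intro x hx
    obtain ⟨y, rfl⟩ := Ideal.mem_span_singleton'.1 hx
    rw [hLmem]
    refine ⟨y, ?_⟩
    rw [h1, h5]
    field_simp
  have hP0 : R.om R.i0 / m ∉ (R.L R.i0).lattice := by
    intro h
    obtain ⟨t, ht⟩ := (hLmem _).1 h
    apply hm2
    refine (IsUnit.of_mul_eq_one t ?_).dvd
    apply hinj
    rw [h1, h5, he1]
    field_simp at ht
    rw [ht]
  have hPM := hA.act _ htor
  rcases hPM with ⟨h, -⟩ | ⟨-, hmuP, hxP, -⟩
  · exact absurd h hP0
  rw [← hlat] at hmuP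
  have hxP' : s (xnE (R.L R.i0) (R.om R.i0 / m)) = xnE (R.L i) (mu * (R.om R.i0 / m)) := by
    rw [hxP]
    unfold xnE
    rw [hP]
  -- the multiplier
  obtain ⟨β, hβ, hmu⟩ : ∃ β ∈ R.b i, mu * R.om R.i0 = R.om i * emb β := by
    rw [← (R.nl i).mem, hlat, hA.isq.2]
    intro x _
    rw [hLmem]
    exact ⟨x, by ring⟩
  set N : ℕ := nI (R.b i) with hN
  have hNmem : ((N : ℕ) : OO A B) ∈ R.b i := _root_.Pool.Agent.MUXW.HIT.nI_mem _
  obtain ⟨u, v, huv⟩ := (Nat.isCoprime_iff_coprime.2 (hcop i))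
  have huv' : (u : OO A B) * ((N : ℕ) : OO A B) + (v : OO A B) * ((m : ℕ) : OO A B) = 1 := by
    have : (((u * (N : ℤ) + v * (m : ℤ) : ℤ)) : OO A B) = 1 := by rw [huv]; norm_num
    push_cast at this
    exact this
  have hcu : IsCoprime (u : OO A B) ((m : ℕ) : OO A B) :=
    ⟨((N : ℕ) : OO A B), (v : OO A B), by linear_combination huv'⟩
  have hcβ : IsCoprime β ((m : ℕ) : OO A B) := by
    apply cop_of_inj hM0
    rintro t ⟨w, hw⟩
    -- `om emb (t N) / m`
    have hz : mu * (R.om R.i0 * emb (t * ((N : ℕ) : OO A B)) / m) ∈ L'.lattice := by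
      rw [← hlat, (R.nl i).mem]
      refine ⟨w * ((N : ℕ) : OO A B), Ideal.mul_mem_left _ _ hNmem, ?_⟩
      have h6 : emb t * emb β = m * emb w := by rw [← h1, hw, h1, h5]
      rw [h1, h1]
      field_simp
      linear_combination (emb t * emb ((N : ℕ) : OO A B)) * hmu +
        (R.om i * emb ((N : ℕ) : OO A B)) * h6
    have hx : ∀ x ∈ a, ((m : ℕ) : OO A B) ∣ x * (t * ((N : ℕ) : OO A B)) := by
      intro x hx
      obtain ⟨y, hy⟩ := (hLmem _).1 ((hA.isq.2 _).1 hz x hx)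
      refine ⟨y, ?_⟩
      apply hinj
      rw [h1, h1 ((m : ℕ) : OO A B), h5]
      field_simp at hy
      exact hy
    obtain ⟨α, hα, γ, hγ, hαγ⟩ := Ideal.isCoprime_iff_exists.1 ha
    obtain ⟨g, hg⟩ := Ideal.mem_span_singleton.1 hγ
    obtain ⟨f, hf⟩ := hx α hα
    refine ⟨u * (f + g * (t * ((N : ℕ) : OO A B))) + v * t, ?_⟩
    linear_combination (u * (t * ((N : ℕ) : OO A B))) * (-hαγ) + u * hf +
      (u * (t * ((N : ℕ) : OO A B))) * hg - t * huv'
  have hx : IsCoprime ((u : OO A B) * β) ((m : ℕ) : OO A B) := hcu.mul_left hcβ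
  have hdiff : mu * (R.om R.i0 / m) - Pool.Agent.ME.ptE R m i ((u : OO A B) * β) ∈
      (R.L i).lattice := by
    rw [(R.nl i).mem]
    refine ⟨v * β, Ideal.mul_mem_left _ _ hβ, ?_⟩
    unfold Pool.Agent.ME.ptE
    rw [← hN]
    have h6 : emb (u : OO A B) * N + emb (v : OO A B) * m = 1 := by
      rw [← h5 N, ← h5 m, ← h1, ← h1, ← h2, huv', he1]
    rw [h1, h1]
    field_simp
    linear_combination hmu - (R.om i * emb β) * h6
  have hhit : HitsE R m s i ((u : OO A B) * β) := by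
    refine ⟨?_, ?_, ?_⟩
    · rw [← hk]; exact hA.kapE
    · rw [hpt0, hxP']
      exact xn_congr_E hdiff
    · intro h
      apply hmuP
      have := add_mem hdiff h
      rwa [sub_add_cancel] at this
  refine ⟨i, (u : OO A B) * β, hx, hhit, fun h => hm2 (hx.symm.dvd_of_dvd_mul_right h), ?_⟩
  have hptl : ∀ w : OO A B, R.om i * N * emb w / m ∈ (R.L i).lattice ↔
      ((m : ℕ) : OO A B) ∣ w := by
    intro w
    rw [(R.nl i).mem]
    constructor
    · rintro ⟨γ, hγ, h6⟩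
      have h7 : ((N : ℕ) : OO A B) * w = ((m : ℕ) : OO A B) * γ := by
        apply hinj
        rw [h1, h1, h5, h5]
        field_simp at h6
        linear_combination h6
      exact ⟨u * γ + v * w, by linear_combination (-w) * huv' + (u : OO A B) * h7⟩
    · rintro ⟨t, rfl⟩
      refine ⟨t * ((N : ℕ) : OO A B), Ideal.mul_mem_left _ _ hNmem, ?_⟩
      rw [h1, h1, h5, h5]
      field_simp
  have hsub : ∀ y : OO A B, Pool.Agent.ME.ptE R m i y -
      Pool.Agent.ME.ptE R m i ((u : OO A B) * β) ∈ (R.L i).lattice ↔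
      ((m : ℕ) : OO A B) ∣ y - (u : OO A B) * β := by
    intro y
    rw [← hptl]
    unfold Pool.Agent.ME.ptE
    rw [← hN, h3, mul_sub, sub_div]
  have hadd : ∀ y : OO A B, Pool.Agent.ME.ptE R m i y +
      Pool.Agent.ME.ptE R m i ((u : OO A B) * β) ∈ (R.L i).lattice ↔
      ((m : ℕ) : OO A B) ∣ y + (u : OO A B) * β := by
    intro y
    rw [← hptl]
    unfold Pool.Agent.ME.ptE
    rw [← hN, h2, mul_add, add_div]
  intro j y
  constructor
  · rintro ⟨hk', hx', hn'⟩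
    have hji : j = i := uniq_E he hDET hC R (by rw [hk', hhit.1])
    subst hji
    refine ⟨rfl, ?_⟩
    have h6 : xnE (R.L j) (Pool.Agent.ME.ptE R m j y) =
        xnE (R.L j) (Pool.Agent.ME.ptE R m j ((u : OO A B) * β)) := by
      rw [← hx', hhit.2.1]
    unfold xnE at h6
    rcases b_NEQ (R.L j) _ _ hhit.2.2 hn' (by linear_combination h6) with h | h
    · left; exact (hsub y).1 h
    · right; exact (hadd y).1 h
  · rintro ⟨rfl, h | h⟩
    · have h6 := (hsub y).2 h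
      exact ⟨hhit.1, by rw [hhit.2.1, xn_congr_E h6], notMem_congr h6 hhit.2.2⟩
    · have h6 := (hadd y).2 h
      refine ⟨hhit.1, by rw [hhit.2.1, xn_congr'_E h6], fun h7 => hhit.2.2 ?_⟩
      have := sub_mem h6 h7
      rwa [add_sub_cancel_left] at this

end

end Pool.Agent.MUXW


end

section

/-!
# MUX, block W, module INV (helper23): automorphisms which are trivial modulo `V`
-/

set_option autoImplicit false

open WeierstrassCurve Polynomial NumberField IsDedekindDomain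

namespace Pool.Agent.MUXW

open _root_.MU3 _root_.Pool.Agent.MU3A _root_.Pool.Agent.MU3B _root_.Pool.Agent.MU3C _root_.Pool.Agent.RI _root_.Pool.Agent.RID
open _root_.Pool.Agent.MUX _root_.Pool.Agent.ME _root_.Pool.Agent.MUXU
open _root_.Pool.Agent.MU3V (cls Sub GD algDF)
open _root_.Pool.Agent.MUXV (GR InK tX CMO Ovr Sq_EMB)

noncomputable section

/-- an automorphism which is trivial modulo `V` acts as `1` or `-1` on `E[m]` -/
theorem ty_INV_E (hE : Sq_EMB) : Sy_INV_E := by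
  intro A B h L Om hL m hm V hG hK F hF σ hσ a ha
  obtain ⟨emul, eadd, esub, eint, enat, einj, -⟩ := hE A B ⟨h.hB, h.neg, h.fund1, h.fund0⟩
  obtain ⟨W, ξ, G⟩ := hG
  by_cases hu : IsUnit m
  · exact Or.inl hu.dvd
  have e0 : emb (0 : OO A B) = 0 := by simpa using eint 0
  have e1 : emb (1 : OO A B) = 1 := by simpa using eint 1
  have hm0 : emb m ≠ 0 := fun h0 => hm (einj _ _ (by rw [h0, e0]))
  have hOm := hL.om_ne
  have hmem : ∀ c : OO A B, Om * emb c ∈ L.lattice := fun c =>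
    (hL.mem _).2 ⟨c, Submodule.mem_top, rfl⟩
  have hdvd : ∀ c : OO A B, emb c * (Om / emb m) ∈ L.lattice → m ∣ c := by
    intro c hc
    obtain ⟨x, -, hx⟩ := (hL.mem _).1 hc
    refine ⟨x, einj _ _ ?_⟩
    rw [emul]
    field_simp at hx
    exact hx
  have hz : Om / emb m ∉ L.lattice := by
    intro h0
    apply hu
    rw [isUnit_iff_dvd_one]
    apply hdvd
    rw [e1, one_mul]
    exact h0
  have hmc : ∀ c : OO A B, emb m * (emb c * (Om / emb m)) ∈ L.lattice := by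
    intro c
    have e : emb m * (emb c * (Om / emb m)) = Om * emb c := by field_simp
    rw [e]
    exact hmem c
  have hmz : emb m * (Om / emb m) ∈ L.lattice := by
    have := hmc 1
    rwa [e1, one_mul] at this
  obtain ⟨haz, hx⟩ := ha.ptE ⊤ L Om hL _ hmz hz
  have hxF : xnE L (Om / emb m) ∈ F := by
    apply hF
    refine IntermediateField.subset_adjoin _ _ ⟨⊤, L, Om, hL, Or.inr ⟨_, ?_, hz, rfl⟩⟩
    intro x hx
    obtain ⟨y, rfl⟩ := Ideal.mem_span_singleton.1 hx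
    rw [emul, mul_assoc]
    exact hmc y
  have hz1 : ¬ InK V L (xnE L) (Om / emb m) := fun h0 =>
    hz (hK _ hmz h0)
  have hz2 : ¬ InK V L (xnE L) (emb a * (Om / emb m)) := fun h0 =>
    haz (hK _ (hmc a) h0)
  have hx1 : V.valuation (xnE L (emb a * (Om / emb m)) - xnE L (Om / emb m)) < 1 := by
    have h3 := hσ ⟨_, hxF⟩
      ((ValuationSubring.valuation_le_one_iff _ _).1 (Pool.Agent.MUXV.int_X hz1).2)
    rwa [hx hxF] at h3
  by_contra hcon
  rw [not_or] at hcon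
  have hm1 : ¬ InK V L (xnE L)
      (emb a * (Om / emb m) - Om / emb m) := by
    intro h0
    have e : emb a * (Om / emb m) - Om / emb m = emb (a - 1) * (Om / emb m) := by
      rw [esub, e1]
      ring
    rw [e] at h0
    exact hcon.1 (hdvd _ (hK _ (hmc (a - 1)) h0))
  have hp1 : ¬ InK V L (xnE L)
      (emb a * (Om / emb m) + Om / emb m) := by
    intro h0
    have e : emb a * (Om / emb m) + Om / emb m = emb (a + 1) * (Om / emb m) := by
      rw [eadd, e1]
      ring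
    rw [e] at h0
    exact hcon.2 (hdvd _ (hK _ (hmc (a + 1)) h0))
  have h9 := Pool.Agent.MUXV.v_X_sub G hz2 hz1 hp1 hm1
  exact absurd h9 hx1.ne

end

end Pool.Agent.MUXW


end

section

/-!
# MUX, block W, module GRB: good reduction outside finitely many primes   (helper50)
-/

set_option autoImplicit false

open WeierstrassCurve Polynomial NumberField IsDedekindDomain

namespace Pool.Agent.MUXW

open _root_.MU3 _root_.Pool.Agent.MU3A _root_.Pool.Agent.MU3B _root_.Pool.Agent.MU3C _root_.Pool.Agent.RI _root_.Pool.Agent.RID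
open _root_.Pool.Agent.MUX _root_.Pool.Agent.ME _root_.Pool.Agent.MUXU
open _root_.Pool.Agent.MU3V (cls Sub GD algDF)
open _root_.Pool.Agent.MUXV (GR InK tX CMO Ovr)

noncomputable section

namespace GRB

/-- the elements of `F_m` are algebraic -/
lemma alg_RF_E {A B : ℤ} (h : CQ A B) (T : TorXE A B) (m : Ideal (OO A B)) (hm : m ≠ ⊥) {x : ℂ}
    (hx : x ∈ (RFE m : IntermediateField (kk A B) ℂ)) : IsAlgebraic ℚ x := by
  have hfd := T.fin m hm
  have halg := isAlgebraic_kk h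
  have h1 : IsAlgebraic (kk A B) (⟨x, hx⟩ : (RFE m : IntermediateField (kk A B) ℂ)) :=
    Algebra.IsAlgebraic.isAlgebraic _
  have h2 : IsAlgebraic (kk A B) x := by
    have := h1.algHom (RFE m : IntermediateField (kk A B) ℂ).val
    exact this
  exact h2.restrictScalars ℚ

end GRB

theorem ty_GRB_E : Sy_GRB_E := by
  intro A B hc L hL
  refine ⟨6, by norm_num, fun V hV => ?_⟩
  have h6 : V.valuation (((2 * 3 : ℕ)) : ℂ) = 1 := by
    rw [← hV]
  obtain ⟨v2, v3⟩ := GRB.val_mul V _ _ h6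
  have v2' : V.valuation 2 = 1 := by simpa using v2
  have v3' : V.valuation 3 = 1 := by simpa using v3
  exact ⟨v2', v3', MEC.c_BAD A B hc V v2' v3' L hL⟩

end

end Pool.Agent.MUXW


end

section

/-!
# MUX, block W: all statements of `StWX.lean`, `StWX2.lean`, without hypotheses (helper59)

Every statement except `Sy_URA`, `Sy_MEM`, `Sy_TOW`, `Sy_ACM`, `Sy_INV`, `Sy_PRQ`, `Sy_THC` has `TorX A B` as a
hypothesis inside.
-/

set_option autoImplicit false

namespace Pool.Agent.MUXW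

open _root_.Pool.Agent.MU3B _root_.Pool.Agent.MUXU _root_.Pool.Agent.MUXV

theorem y_ACM : Sy_ACM := ty_ACM q_EMB
theorem y_KER : Sy_KER := ty_KER q_EMB
theorem y_THC : Sy_THC := ty_THC u_PHI u_TSN
theorem y_THG : Sy_THG := ty_THG y_THC u_AUE u_AUF
theorem y_GRB : Sy_GRB := ty_GRB x_NGR q_ALU
theorem y_INV : Sy_INV := ty_INV q_EMB
theorem y_FRH : Sy_FRH := ty_FRH q_EMB u_DET q_FRX q_VQI q_ALU q_TOR q_CYQ q_DGI q_DGL y_GRB y_KER
  y_ACM
theorem y_MEM : Sy_MEM := ty_MEM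
theorem y_TOW : Sy_TOW := ty_TOW y_MEM
theorem y_HIT : Sy_HIT := ty_HIT q_EMB u_DET
theorem y_CXW : Sy_CXW := ty_CXW y_HIT y_THG u_DET q_EMB
theorem y_CXS : Sy_CXS := ty_CXS y_HIT y_THG
theorem y_SUC : Sy_SUC := ty_SUC Pool.Agent.MU3V.tv_EXT q_THU q_TOR q_EMB y_GRB u_AUE
theorem y_DIS : Sy_DIS := ty_DIS b_TDI b_TIN y_THG y_KER q_EMB
theorem y_NRM : Sy_NRM := ty_NRM y_DIS y_KER y_ACM y_THG q_EMB
theorem y_I1 : Sy_I1 := ty_I1 y_NRM y_MEM
theorem y_PRQ : Sy_PRQ := ty_PRQ q_EMB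
theorem y_FRD : Sy_FRD := ty_FRD y_FRH y_PRQ y_MEM Pool.Agent.MU3V.tw_LOC Pool.Agent.MU3V.tv_EXT
theorem y_URA : Sy_URA := ty_URA
theorem y_KOL : Sy_KOL := ty_KOL y_ACM y_KER y_THG y_GRB y_INV y_DIS y_PRQ y_FRD y_URA

end Pool.Agent.MUXW


end

section

/-!
# ME, block W: all statements of `ME/X/StWX.lean`, `StWX2.lean`, without hypotheses (helper21)
-/

set_option autoImplicit false

namespace Pool.Agent.MUXW

open _root_.Pool.Agent.MU3B _root_.Pool.Agent.MUXU _root_.Pool.Agent.MUXV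

theorem y_ACM_E : Sy_ACM_E := ty_ACM_E q_EMB
theorem y_KER_E : Sy_KER_E := ty_KER_E
theorem y_THG_E : Sy_THG_E := ty_THG_E y_THC u_AUE u_AUF
theorem y_GRB_E : Sy_GRB_E := ty_GRB_E
theorem y_INV_E : Sy_INV_E := ty_INV_E q_EMB
theorem y_FRH_E : Sy_FRH_E := ty_FRH_E q_VQI
theorem y_HIT_E : Sy_HIT_E := ty_HIT_E q_EMB u_DET
theorem y_CXW_E : Sy_CXW_E := ty_CXW_E y_HIT_E y_THG_E q_EMB
theorem y_CXS_E : Sy_CXS_E := ty_CXS_E y_HIT_E y_THG_E
theorem y_SUC_E : Sy_SUC_E := ty_SUC_E Pool.Agent.MU3V.tv_EXT q_THU q_TOR q_EMB y_GRB_E u_AUE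
theorem y_DIS_E : Sy_DIS_E := ty_DIS_E b_TDI b_TIN y_THG_E y_KER_E q_EMB
theorem y_NRM_E : Sy_NRM_E := ty_NRM_E y_DIS_E y_KER_E y_ACM_E y_THG_E q_EMB
theorem y_I1_E : Sy_I1_E := ty_I1_E y_NRM_E y_MEM
theorem y_FRD_E : Sy_FRD_E := ty_FRD_E y_FRH_E y_PRQ y_MEM Pool.Agent.MU3V.tw_LOC Pool.Agent.MU3V.tv_EXT
theorem y_KOL_E : Sy_KOL_E := ty_KOL_E y_ACM_E y_KER_E y_THG_E y_GRB_E y_INV_E y_DIS_E y_PRQ y_FRD_E y_URA

end Pool.Agent.MUXW


end

section

/-!
# ME: the inputs from block W for the exceptional fields (twin of `NS/ZL.lean`; helper87)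

`Zl_INW_E`: as `Zl_INW`, for the exceptional fields, with the condition that the level is even. `l_INW_E`: from `Sn_SUB_E` only.
-/

set_option autoImplicit false

open NumberField IsDedekindDomain

namespace Pool.Agent.NSZ

open _root_.MU3 _root_.Pool.Agent.MU3 _root_.Pool.Agent.MU3A _root_.Pool.Agent.MU3B _root_.Pool.Agent.RI _root_.Pool.Agent.RID
  _root_.Pool.Agent.MUX _root_.Pool.Agent.ME _root_.Pool.Agent.MUXK _root_.Pool.Agent.MUXJ _root_.Pool.Agent.MUXW _root_.Pool.Agent.MUXZ _root_.Pool.Agent.NSI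
open _root_.Pool.Agent.MU3V (Sub GD)

noncomputable section

/-- the norm relation, with the level of `θ'` up to equality -/
theorem i1'_E (hI1 : Sy_I1_E) (A B : ℤ) (hc : CaseE A B) (T : TorXE A B) (L : PeriodPair) (Om : ℂ)
    (hL : IsNE (⊤ : Ideal (OO A B)) L Om) (m b M : OO A B) (hM : M = b * m) (hm : m ≠ 0)
    (h20 : (2 : OO A B) ∣ m) (hbm : b ∣ m) (h2 : ¬ m ∣ 2) (a : ℤ) (H : Finset ℂ) (ha : a ≠ 0)
    (hcop : IsCoprime (a : OO A B) m) (hH : IsHalf L a H)
    (θ : (RFE (sp m) : IntermediateField (kk A B) ℂ))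
    (θ' : (RFE (sp M) : IntermediateField (kk A B) ℂ))
    (h3 : (θ : ℂ) = ThetaH L H (Om / emb m)) (h4 : (θ' : ℂ) = ThetaH L H (Om / emb M))
    (D D' : IntermediateField ℚ ℂ) (h : kk A B ≤ D) (h' : kk A B ≤ D') (hle : D ≤ D')
    (hH' : HasH_E A B D) (hs : _root_.Pool.Agent.MU3V.Sub D (RFE (sp m) : IntermediateField (kk A B) ℂ))
    (hs' : _root_.Pool.Agent.MU3V.Sub D' (RFE (sp M) : IntermediateField (kk A B) ℂ)) :
    letI := algC h; letI := algC h'
    ∀ (p : ℕ) (σ : D' ≃ₐ[kk A B] D'), (∀ x : D', σ x = x ↔ (x : ℂ) ∈ D) → orderOf σ = p → p ≠ 0 →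
    ∀ c' : D', (c' : ℂ) = cW h' θ' →
      ∃ C ∈ (RFE (⊤ : Ideal (OO A B)) : IntermediateField (kk A B) ℂ), C ≠ 0 ∧
        ∏ i ∈ Finset.range p, (((σ ^ i) c' : D') : ℂ) = C * cW h θ := by
  subst hM
  exact hI1 A B hc T L Om hL m b hm h20 hbm h2 a H ha hcop hH θ θ' h3 h4 D D' h h' hle hH' hs hs'

/-- (INW) the inputs from block W -/
def Zl_INW_E : Prop :=
  ∀ (p : ℕ) (A B : ℤ) (f : ℕ)
    (_ : SetL p A B f) (_ : CaseE A B) (_ : 2 ∣ lvX p f 0) (_ : TorXE A B) (ι : Type) [Finite ι]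
    (R : RepsE A B (p * f) ι)
    (H : ι → Finset ℂ)
    (θ : ∀ n : ℕ, (RFE (idl (A := A) (B := B) (lvX p f n)) : IntermediateField (kk A B) ℂ))
    (_ : ThN_E p f R H θ)
    (K₀ K : IntermediateField ℚ ℂ) (Bn : ℕ → IntermediateField ℚ ℂ)
    [FiniteDimensional ℚ (kk A B)] [FiniteDimensional ℚ K] [∀ n, FiniteDimensional ℚ ↥(K ⊔ Bn n)]
    (_ : SetX p (kk A B) K₀ K Bn) (_ : ∀ y ∈ K, y ∈ RFE (idl (A := A) (B := B) (lvX p f 0)))
    (_ : ∀ y ∈ RFE (⊤ : Ideal (OO A B)), y ∈ K)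
    (hk : ∀ n, kk A B ≤ K ⊔ Bn n) (hk₀ : ∀ n, kk A B ≤ K₀ ⊔ Bn n),
    ∃ S : Finset ℕ, InpW p (kk A B) K₀ K Bn hk hk₀ S (fun n => cW (hk n) (θ n))
      (fun n => cW (hk₀ n) (θ n)) 0

open _root_.Pool.Agent.MUXZ.Z_INW in
/-- the inputs from block W -/
theorem tl_INW_E (hLVX : Zl_LVX) (hLVF : Sn_SUB_E) (hMEM : Sy_MEM) (hTOW : Sy_TOW) (hSUC : Sy_SUC_E)
    (hI1 : Sy_I1_E) (hKOL : Sy_KOL_E) : Zl_INW_E := by
  intro p A B f hS hE hl2 T ι _ R H θ hθ K₀ K Bn _ _ _ hX hKF hHK hk hk₀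
  have hp : p.Prime := by
    rcases hS.hp with h | h
    · rw [h]; exact Nat.prime_two
    · rw [h]; exact Nat.prime_three
  have : Fact p.Prime := ⟨hp⟩
  have h2m : ∀ n, (2 : OO A B) ∣ ((lvX p f n : ℕ) : OO A B) := by
    intro n
    obtain ⟨t, ht⟩ := hl2
    refine ⟨((t * p ^ n : ℕ) : OO A B), ?_⟩
    have h1 : lvX p f n = 2 * (t * p ^ n) := by
      have h3 : lvX p f n = lvX p f 0 * p ^ n := by unfold lvX; ring
      rw [h3, ht]; ring
    rw [h1]
    push_cast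
    ring
  have hnl : IsNE (⊤ : Ideal (OO A B)) (R.L R.i0) (R.om R.i0) := by
    have h1 := R.nl R.i0
    rw [R.b0] at h1
    exact h1
  have hNL : NLex_E A B := ⟨_, _, _, hnl⟩
  have hm0 : ∀ n, lvX p f n ≠ 0 := fun n => (hLVX p A B f hS n).1
  have hsub : ∀ n, _root_.Pool.Agent.MU3V.Sub (K ⊔ Bn n) (RFE (idl (A := A) (B := B) (lvX p f n))) := fun n =>
    hLVF p A B f hS T hNL K hKF n (Bn n) (hX.b.lay n)
  have hsub₀ : ∀ n, _root_.Pool.Agent.MU3V.Sub (K₀ ⊔ Bn n) (RFE (idl (A := A) (B := B) (lvX p f n))) := fun n =>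
    hLVF p A B f hS T hNL K₀ (fun y hy => hKF y (hX.le hy)) n (Bn n) (hX.b.lay n)
  have hM := fun n => hMEM A B (RFE (idl (A := A) (B := B) (lvX p f n))) (T.fin _ (idl_ne (hm0 n)))
    (T.gal _ (idl_ne (hm0 n))) (T.comm _ (idl_ne (hm0 n))) (K ⊔ Bn n) (hk n) (hsub n) (θ n)
    (hθ.ne n)
  have hM₀ := fun n => hMEM A B (RFE (idl (A := A) (B := B) (lvX p f n)))
    (T.fin _ (idl_ne (hm0 n))) (T.gal _ (idl_ne (hm0 n))) (T.comm _ (idl_ne (hm0 n)))
    (K₀ ⊔ Bn n) (hk₀ n) (hsub₀ n) (θ n) (hθ.ne n)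
  have hmem : ∀ n, cW (hk n) (θ n) ∈ K ⊔ Bn n := by
    intro n
    rw [(hM n).1]
    exact ((hM n).2.1 _).1
  have hne : ∀ n, cW (hk n) (θ n) ≠ 0 := by
    intro n
    rw [(hM n).1]
    exact ((hM n).2.1 _).2
  have hmem₀ : ∀ n, cW (hk₀ n) (θ n) ∈ K₀ ⊔ Bn n := by
    intro n
    rw [(hM₀ n).1]
    exact ((hM₀ n).2.1 _).1
  obtain ⟨n0, hn0, hSUC'⟩ := hSUC A B hE T (R.L R.i0) (R.om R.i0) hnl
  obtain ⟨n1, hn1, hKOL'⟩ := hKOL A B hE T (p * f) ι R
  have ha0 : aX p f ≠ 0 := by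
    intro h0
    have h1 := (hLVX p A B f hS 0).2.2.2.2.2.1
    rw [h0] at h1
    exact absurd h1 (by decide)
  have haZ : (aX p f : ℤ) ≠ 0 := by exact_mod_cast ha0
  have hhalf : IsHalf (R.L R.i0) ((aX p f : ℤ) : ℂ) (H R.i0) := by
    have h1 := hθ.half R.i0
    rw [Int.cast_natCast]
    exact h1
  have hcopO : ∀ n, IsCoprime ((aX p f : ℤ) : OO A B) ((lvX p f n : ℕ) : OO A B) := fun n =>
    (hLVX p A B f hS n).2.2.2.2.2.2.2.1
  have hfn0 := hS.f0
  set S : Finset ℕ := n0.primeFactors ∪ n1.primeFactors ∪ (aX p f).primeFactors ∪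
    (p * f).primeFactors with hSdef
  have hSprime : ∀ q ∈ S, q.Prime := by
    intro q hq
    rw [hSdef] at hq
    simp only [Finset.mem_union] at hq
    rcases hq with ((h | h) | h) | h <;> exact Nat.prime_of_mem_primeFactors h
  have hS0 : ∀ q : ℕ, q.Prime → q ∣ n0 → q ∈ S := by
    intro q hq hd
    rw [hSdef]
    simp only [Finset.mem_union]
    exact Or.inl (Or.inl (Or.inl (Nat.mem_primeFactors.2 ⟨hq, hd, hn0⟩)))
  have hS1 : ∀ q : ℕ, q.Prime → q ∣ n1 → q ∈ S := by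
    intro q hq hd
    rw [hSdef]
    simp only [Finset.mem_union]
    exact Or.inl (Or.inl (Or.inr (Nat.mem_primeFactors.2 ⟨hq, hd, hn1⟩)))
  have hSa : ∀ q : ℕ, q.Prime → (q : ℤ) ∣ (aX p f : ℤ) → q ∈ S := by
    intro q hq hd
    have h1 : q ∣ aX p f := by exact_mod_cast hd
    rw [hSdef]
    simp only [Finset.mem_union]
    exact Or.inl (Or.inr (Nat.mem_primeFactors.2 ⟨hq, h1, ha0⟩))
  have hSm : ∀ n, ∀ q : ℕ, q.Prime → (q : ℤ) ∣ nm ((lvX p f n : ℕ) : OO A B) → q ∈ S := by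
    intro n q hq hd
    have h1 := (hLVX p A B f hS n).2.2.2.2.2.2.2.2.1 q hq hd
    rw [hSdef]
    simp only [Finset.mem_union]
    exact Or.inr (Nat.mem_primeFactors.2 ⟨hq, h1, mul_ne_zero hp.ne_zero hfn0⟩)
  have hHas : ∀ n, HasH_E A B (K ⊔ Bn n) := fun n x hx =>
    (le_sup_left : K ≤ K ⊔ Bn n) (hHK x hx)
  refine ⟨S, ?_⟩
  constructor
  case mem => exact hmem
  case ne => exact hne
  case mem₀ => exact hmem₀
  case norm =>
    intro n
    exact hTOW A B (RFE (idl (A := A) (B := B) (lvX p f n))) (T.fin _ (idl_ne (hm0 n)))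
      (T.gal _ (idl_ne (hm0 n))) (T.comm _ (idl_ne (hm0 n))) (K₀ ⊔ Bn n) (K ⊔ Bn n) (hk₀ n) (hk n)
      (sup_le_sup_right hX.le _) (hsub n) (θ n) (hθ.ne n) (hmem n)
  case prime => exact hSprime
  case su =>
    intro n _
    exact hSUC' _ (natO_ne (hm0 n)) (hLVX p A B f hS n).2.2.2.2.1 (aX p f : ℤ) (H R.i0) haZ
      (hcopO n) hhalf S hS0 hSa (hSm n) (θ n) (hθ.om n) (K ⊔ Bn n) (hk n) (hsub n) _ rfl
  case nrm =>
    intro n _
    let akD : Algebra (kk A B) ↥(K ⊔ Bn n) := algC (hk n)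
    let akL : Algebra (kk A B) ↥(K ⊔ Bn (n + 1)) := algC (hk (n + 1))
    intro σ hσ
    have hle : K ⊔ Bn n ≤ K ⊔ Bn (n + 1) := sup_le_sup_left (hX.b.mono (Nat.le_succ n)) K
    have hord : orderOf σ = p := by
      have h1 := ordP p (kk A B) K Bn hX.b (n + 1) n (Nat.le_succ n) (hk n) (hk (n + 1)) σ hσ
      rw [h1]
      simp
    have hlev : ((lvX p f (n + 1) : ℕ) : OO A B) = (p : OO A B) * ((lvX p f n : ℕ) : OO A B) := by
      rw [(hLVX p A B f hS n).2.1]
      push_cast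
      rfl
    have hbm : (p : OO A B) ∣ ((lvX p f n : ℕ) : OO A B) := by
      obtain ⟨t, ht⟩ := (hLVX p A B f hS n).2.2.1
      rw [ht]
      push_cast
      exact dvd_mul_right _ _
    obtain ⟨C, hCH, hC0, hCe⟩ := i1'_E hI1 A B hE T (R.L R.i0) (R.om R.i0) hnl
      ((lvX p f n : ℕ) : OO A B) (p : OO A B) ((lvX p f (n + 1) : ℕ) : OO A B) hlev
      (natO_ne (hm0 n)) (h2m n) hbm (hLVX p A B f hS n).2.2.2.1 (aX p f : ℤ) (H R.i0) haZ (hcopO n)
      hhalf (θ n) (θ (n + 1)) (hθ.om n) (hθ.om (n + 1)) (K ⊔ Bn n) (K ⊔ Bn (n + 1)) (hk n)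
      (hk (n + 1)) hle (hHas n) (hsub n) (hsub (n + 1)) p σ hσ hord hp.ne_zero
      ⟨cW (hk (n + 1)) (θ (n + 1)), hmem (n + 1)⟩ rfl
    exact ⟨C, hHK C hCH, hC0, hCe⟩
  case kol =>
    intro n _
    let akD : Algebra (kk A B) ↥(K ⊔ Bn n) := algC (hk n)
    have h1 := hKOL' p hp _ (natO_ne (hm0 n)) (h2m n) (hLVX p A B f hS n).2.2.2.1 (aX p f : ℤ)
      (H R.i0) haZ (hcopO n) hhalf S hS1 hSa (hSm n) (θ n) (hθ.om n) (K ⊔ Bn n) (hk n) (hHas n)
      (hsub n) ⟨cW (hk n) (θ n), hmem n⟩ rfl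
    refine KolInP.mono ?_ h1
    intro g hg x hx
    exact hg x (hHK _ hx)

/-- (INW) with block W put in -/
theorem l_INW_E (hSUB : Sn_SUB_E) : Zl_INW_E :=
  tl_INW_E tl_LVX hSUB y_MEM y_TOW y_SUC_E y_I1_E y_KOL_E

end

end Pool.Agent.NSZ


end
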