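import Mathlib
import Pool.Agent.MVF.C155

/-! Parts: NS.F_TW3, NS.F_MUL, NS.F_LAG, NS.F_BPW, NS.TR_SGU, NS.TR_VSR -/

namespace Pool.Agent.NSER.TW3
end Pool.Agent.NSER.TW3
namespace Pool.Agent.NSTR.SGU
end Pool.Agent.NSTR.SGU
namespace Pool.Agent.NSTR.VSR
end Pool.Agent.NSTR.VSR

section

/-!
# MUX-NS, block ER: module TW3, the points of order three (`3` ramified)
-/

set_option autoImplicit false

open Polynomial

namespace Pool.Agent.NSER

open _root_.MU3 _root_.Pool.Agent.MU3A _root_.Pool.Agent.MU3B _root_.Pool.Agent.MUX _root_.Pool.Agent.MUXU _root_.Pool.Agent.MUXE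
open _root_.Pool.Agent.RI _root_.Pool.Agent.NS _root_.Pool.Agent.NSRD
open _root_.Pool.Agent.MUXV (GR InK tX)
open _root_.Pool.Agent.NSE (E3 su ru WL IntP Rep)

noncomputable section

namespace TW3

/-- the valuation of the roots of the division polynomial of order three -/
theorem _root_.Pool.Agent.NSER.TW3.val {V : ValuationSubring ℂ} (h3 : V.valuation (3 : ℂ) < 1) {a2 a4 s : ℂ}
    (h2 : V.valuation a2 < 1) (h4 : V.valuation a4 = 1)
    (heq : a4 ^ 2 * s ^ 4 = 3 + 4 * a2 * s + 6 * a4 * s ^ 2) :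
    V.valuation s < 1 := by
  have hn : ∀ n : ℕ, V.valuation (n : ℂ) ≤ 1 := fun n =>
    (V.valuation_le_one_iff _).2 (natCast_mem V n)
  have hv4 : V.valuation (4 : ℂ) ≤ 1 := by simp
  have hv2 : V.valuation (2 : ℂ) ≤ 1 := by simp
  have hv6 : V.valuation (6 : ℂ) ≤ V.valuation (3 : ℂ) := by
    rw [show (6 : ℂ) = 2 * 3 by norm_num, map_mul]
    exact mul_le_of_le_one_left zero_le hv2
  have hL : V.valuation (a4 ^ 2 * s ^ 4) = V.valuation s ^ 4 := by
    rw [map_mul, map_pow, map_pow, h4, one_pow, one_mul]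
  by_contra hge
  rw [not_lt] at hge
  have h14 : 1 ≤ V.valuation s ^ 4 := one_le_pow₀ hge
  have hA : V.valuation (4 * a2 * s) < V.valuation s ^ 4 := by
    rw [map_mul, map_mul]
    have h5 : V.valuation (4 : ℂ) * V.valuation a2 < 1 :=
      lt_of_le_of_lt (mul_le_of_le_one_left zero_le hv4) h2
    have h6 : V.valuation s ≤ V.valuation s ^ 4 := le_self_pow₀ hge (by norm_num)
    refine lt_of_lt_of_le (mul_lt_of_lt_one_left ?_ h5) h6
    exact lt_of_lt_of_le zero_lt_one hge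
  have hB : V.valuation (6 * a4 * s ^ 2) < V.valuation s ^ 4 := by
    rw [map_mul, map_mul, map_pow, h4, mul_one]
    have h5 : V.valuation (6 : ℂ) < 1 := lt_of_le_of_lt hv6 h3
    have h6 : V.valuation s ^ 2 ≤ V.valuation s ^ 4 := pow_le_pow_right₀ hge (by norm_num)
    refine lt_of_lt_of_le (mul_lt_of_lt_one_left ?_ h5) h6
    exact lt_of_lt_of_le zero_lt_one (one_le_pow₀ hge)
  have h1 : V.valuation (3 + 4 * a2 * s + 6 * a4 * s ^ 2) < V.valuation s ^ 4 := by
    refine lt_of_le_of_lt (V.valuation.map_add _ _) (max_lt (lt_of_le_of_lt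
      (V.valuation.map_add _ _) (max_lt (lt_of_lt_of_le h3 h14) hA)) hB)
  rw [← heq, hL] at h1
  exact lt_irrefl _ h1

end TW3

open _root_.Pool.Agent.NSER.TW3 in
theorem tf_TW3 (h : Sf_COE) : Sf_TW3 := by
  intro V L u e lam hG h3 Y hY
  obtain ⟨he, hg2, hg3, hv2, hlam, -, hsq, -, hper⟩ := h V L u e lam hG h3
  obtain ⟨h3Y, hYL⟩ := hY
  have h2Y : 2 * Y ∉ L.lattice := by
    intro h2
    apply hYL
    have := sub_mem h3Y h2
    convert this using 1
    ring
  have hu := hG.u0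
  have hP : ∀ z, L.weierstrassP z = u ^ 2 * xu L u e z + e := by
    intro z
    unfold xu
    field_simp
    ring
  have hP' : L.derivWeierstrassP Y = 2 * u ^ 3 * yu L u Y := by
    unfold yu
    field_simp
  have hx2 : xu L u e (2 * Y) = xu L u e Y := by
    have h1 : 2 * Y = -Y + 3 * Y := by ring
    rw [h1, ((hper (-Y)).1 _ h3Y).1, (hper Y).2.1]
  have hd0 : L.derivWeierstrassP Y ≠ 0 := fun h0 => h2Y ((b_ZER L Y hYL).1 h0)
  have hd := (b_DUP L Y h2Y).1
  set x := xu L u e Y with hx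
  set y := yu L u Y with hy
  have hy0 : y ≠ 0 := by
    intro h0
    apply hd0
    rw [hP', h0, mul_zero]
  rw [hP, hP, hP', hx2, hg2] at hd
  have hyy : y ^ 2 = x ^ 3 - (1 + lam) * x ^ 2 + lam * x := hsq Y hYL
  -- the quartic
  have hq : 3 * x ^ 4 - 4 * (1 + lam) * x ^ 3 + 6 * lam * x ^ 2 - lam ^ 2 = 0 := by
    have e1 : (3 * (u ^ 2 * x + e)) * (4 * u ^ 3 * y) ^ 2 =
        (6 * (u ^ 2 * x + e) ^ 2 - 2 * (3 * e ^ 2 - lam * u ^ 4)) ^ 2 := by
      have e2 : u ^ 2 * x + e + 2 * (u ^ 2 * x + e) = 3 * (u ^ 2 * x + e) := by ring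
      rw [e2] at hd
      rw [hd]
      field_simp
      ring
    have e3 : e = -(1 + lam) * u ^ 2 / 3 := by
      field_simp
      linear_combination he
    rw [e3, mul_pow, hyy] at e1
    have e4 : u ^ 8 * (3 * x ^ 4 - 4 * (1 + lam) * x ^ 3 + 6 * lam * x ^ 2 - lam ^ 2) = 0 := by
      linear_combination e1 / 4
    exact (mul_eq_zero.1 e4).resolve_left (pow_ne_zero _ hu)
  have hlam0 : lam ≠ 0 := by
    rintro rfl
    rw [map_zero] at hlam
    exact zero_ne_one hlam
  have hx0 : x ≠ 0 := by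
    intro h0
    rw [h0] at hq
    apply hlam0
    have : lam ^ 2 = 0 := by linear_combination -hq
    exact pow_eq_zero_iff two_ne_zero |>.1 this
  have hl1 : V.valuation (1 + lam) < 1 := by
    by_contra hge
    rw [not_lt] at hge
    exact absurd (lt_of_le_of_lt hG.lam1 h3) (not_lt.2 (one_le_pow₀ hge))
  have heq : lam ^ 2 * su L u e Y ^ 4 =
      3 - 4 * (1 + lam) * su L u e Y + 6 * lam * su L u e Y ^ 2 := by
    unfold su
    rw [← hx]
    field_simp
    linear_combination -hq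
  have hval := _root_.Pool.Agent.NSER.TW3.val (V := V) h3 (a2 := -(1 + lam)) (a4 := lam) (s := su L u e Y)
    (by rw [Valuation.map_neg]; exact hl1) hlam (by linear_combination heq)
  refine ⟨Or.inr ?_, hx0, hval, heq⟩
  intro hin
  have h5 : V.valuation (xu L u e Y) ≤ 1 := (V.valuation_le_one_iff _).2 hin
  have h6 := hval
  unfold su at h6
  rw [map_inv₀] at h6
  have h7 : V.valuation x * (V.valuation x)⁻¹ < 1 := by
    have hxv : V.valuation x ≠ 0 := by simpa using hx0
    exact lt_of_le_of_lt (mul_le_of_le_one_left zero_le h5) h6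
  rw [mul_inv_cancel₀ (by simpa using hx0)] at h7
  exact lt_irrefl _ h7

end

end Pool.Agent.NSER


end

section

/-!
# MUX-NS, block ER, module MUL: the isogenies `μ_i x : L_(i0) → L_i` and `μ_i x ν/ν_0 : N_0 → N`
have degree prime to 3 (first part adapted from helper83's `E_MUL.lean`)
-/

set_option autoImplicit false

namespace Pool.Agent.NSER

open _root_.MU3 _root_.Pool.Agent.MU3A _root_.Pool.Agent.MU3B _root_.Pool.Agent.MUX _root_.Pool.Agent.MUXU _root_.Pool.Agent.MUXE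
open _root_.Pool.Agent.RI _root_.Pool.Agent.NS _root_.Pool.Agent.NSRD

noncomputable section

namespace MUL

/-- the first part -/
lemma first {A B : ℤ} {P : Ideal (OO A B)} {V : ValuationSubring ℂ} (hC : CtxR A B P V)
    {n : ℕ} {ι : Type} (R : Reps A B n ι) (h3n : 3 ∣ n) (i : ι) (x : OO A B) (hx : x ∉ P) :
    muX R i * emb x ≠ 0 ∧ Isg (R.L R.i0) (R.L i) (muX R i * emb x) ∧
      ∃ N : ℕ, ¬ 3 ∣ N ∧ ∀ z, muX R i * emb x * z ∈ (R.L i).lattice →
        (N : ℂ) * z ∈ (R.L R.i0).lattice := by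
  have h := hC.cq
  have hnl := R.nl i
  have hnl0 := R.nl R.i0
  have hom : R.om i ≠ 0 := hnl.om_ne
  have hom0 : R.om R.i0 ≠ 0 := hnl0.om_ne
  have hN0 : nI (R.b i) ≠ 0 := nI_ne_zero h hnl.b_ne
  have hNC : ((nI (R.b i) : ℕ) : ℂ) ≠ 0 := by exact_mod_cast hN0
  have hNb : ((nI (R.b i) : ℕ) : OO A B) ∈ R.b i := nI_mem h hnl.b_ne
  have hx0 : x ≠ 0 := by
    rintro rfl
    exact hx (Ideal.zero_mem _)
  have hex : emb x ≠ 0 := _root_.Pool.Agent.MUX.emb_ne_zero h hx0
  have hmu : muX R i ≠ 0 := by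
    unfold muX
    exact div_ne_zero (mul_ne_zero hom hNC) hom0
  have hL0 : ∀ z, z ∈ (R.L R.i0).lattice ↔ ∃ x : OO A B, z = R.om R.i0 * emb x := by
    intro z
    rw [hnl0.mem, R.b0]
    simp
  have h3 : Nat.Prime 3 := Nat.prime_three
  refine ⟨mul_ne_zero hmu hex, ?_, (nm x).natAbs * nI (R.b i), ?_, ?_⟩
  · intro u hu
    obtain ⟨y, rfl⟩ := (hL0 u).1 hu
    rw [hnl.mem]
    refine ⟨(nI (R.b i) : ℕ) * (x * y), (R.b i).mul_mem_right _ hNb, ?_⟩
    rw [_root_.Pool.Agent.MUX.emb_mul h, _root_.Pool.Agent.MUX.emb_mul h, _root_.Pool.Agent.MUX.emb_natCast h]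
    unfold muX
    field_simp
  · intro hd
    rcases h3.dvd_mul.1 hd with h4 | h4
    · apply hC.nrm x hx
      exact Int.natCast_dvd.2 h4
    · have h5 : 3 ∣ Nat.gcd (nI (R.b i)) n := Nat.dvd_gcd h4 h3n
      rw [Nat.Coprime.gcd_eq_one (R.cop i)] at h5
      omega
  · intro z hz
    obtain ⟨y, -, hy⟩ := (hnl.mem _).1 hz
    rw [hL0]
    refine ⟨star x * y, ?_⟩
    have h1 : (nI (R.b i) : ℂ) * emb x * z = R.om R.i0 * emb y := by
      unfold muX at hy
      field_simp at hy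
      linear_combination hy
    have h2 : (((nm x).natAbs : ℕ) : ℂ) = emb x * emb (star x) := by
      have h6 : (((nm x).natAbs : ℕ) : ℤ) = nm x := Int.natAbs_of_nonneg (nm_nonneg h x)
      rw [← _root_.Pool.Agent.MUX.emb_mul h, mul_star, _root_.Pool.Agent.MUX.emb_intCast h, ← Int.cast_natCast, h6]
    rw [_root_.Pool.Agent.MUX.emb_mul h]
    have h7 : (((nm x).natAbs : ℕ) : ℂ) * (nI (R.b i) : ℂ) * z =
        R.om R.i0 * (emb (star x) * emb y) := by
      rw [h2]
      linear_combination (emb (star x)) * h1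
    rw [← h7, Nat.cast_mul]

end MUL

theorem tf_MUL : Sf_MUL := by
  intro A B P V hC n ι R _ h3n i x hx
  obtain ⟨h1, h2, m, hm, h3⟩ := MUL.first hC R h3n i x hx
  refine ⟨⟨h1, h2, m, hm, h3⟩, ?_⟩
  intro N0 N nu0 nu hq0 hq
  set μ : ℂ := muX R i * emb x with hμ
  have n0 : nu0 ≠ 0 := hq0.1
  have n1 : nu ≠ 0 := hq.1
  refine ⟨div_ne_zero (mul_ne_zero h1 n1) n0, ?_, m, hm, ?_⟩
  · intro z hz
    have e1 : nu0 * (z / nu0) = z := by field_simp
    have h4 := (hq0.2 (z / nu0)).1 (by rw [e1]; exact hz)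
    have e2 : μ * nu / nu0 * z = nu * (μ * (z / nu0)) := by field_simp
    rw [e2, hq.2]
    intro p hp
    have h5 := h2 _ (h4 p hp)
    have e3 : emb p * (μ * (z / nu0)) = μ * (emb p * (z / nu0)) := by ring
    rw [e3]
    exact h5
  · intro z hz
    have e2 : μ * nu / nu0 * z = nu * (μ * (z / nu0)) := by field_simp
    rw [e2, hq.2] at hz
    have e1 : (m : ℂ) * z = nu0 * (m * (z / nu0)) := by field_simp
    rw [e1, hq0.2]
    intro p hp
    have h5 := hz p hp
    have e3 : emb p * (μ * (z / nu0)) = μ * (emb p * (z / nu0)) := by ring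
    rw [e3] at h5
    have h6 := h3 _ h5
    have e4 : emb p * ((m : ℂ) * (z / nu0)) = m * (emb p * (z / nu0)) := by ring
    rw [e4]
    exact h6

end

end Pool.Agent.NSER


end

section

/-!
# MUXER_LAG: Lagrange interpolation over a valuation ring
-/

set_option autoImplicit false

open Polynomial

namespace Pool.Agent.NSER

open _root_.Pool.Agent.NSE (IntP)

noncomputable section

/-- `Sf_LAG`. -/
theorem tf_LAG : Sf_LAG := by
  intro V e π H hπ hinj hH
  have hφinj : Function.Injective (algebraMap V ℂ) := fun a b h => Subtype.ext h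
  have hHl : H ∈ Polynomial.lifts (algebraMap V ℂ) := by
    rw [Polynomial.lifts_iff_coeff_lifts]
    intro n
    exact ⟨⟨H.coeff n, (V.valuation_le_one_iff _).1 (hH n)⟩, rfl⟩
  obtain ⟨H', hH'⟩ := (Polynomial.mem_lifts H).1 hHl
  let p : ℕ → V := fun l => if h : l < e then ⟨π l, (V.valuation_le_one_iff _).1 (hπ l h)⟩ else 0
  have hp : ∀ l < e, ((p l : V) : ℂ) = π l := by
    intro l hl
    simp only [p, dif_pos hl]
  have hG : (Lagrange.nodal (Finset.range e) p).map (algebraMap V ℂ) =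
      Lagrange.nodal (Finset.range e) π := by
    rw [Lagrange.nodal_eq, Lagrange.nodal_eq, Polynomial.map_prod]
    refine Finset.prod_congr rfl fun l hl => ?_
    rw [Polynomial.map_sub, Polynomial.map_X, Polynomial.map_C]
    congr 2
    exact hp l (Finset.mem_range.1 hl)
  have hmon : (Lagrange.nodal (Finset.range e) p).Monic := Lagrange.nodal_monic
  have hmonC : (Lagrange.nodal (Finset.range e) π).Monic := Lagrange.nodal_monic
  have hR : (H' %ₘ Lagrange.nodal (Finset.range e) p).map (algebraMap V ℂ) =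
      H %ₘ Lagrange.nodal (Finset.range e) π := by
    rw [Polynomial.map_modByMonic _ hmon, hG, hH']
  rcases Nat.eq_zero_or_pos e with he | he
  · subst he
    simp
  have hdeg : (H %ₘ Lagrange.nodal (Finset.range e) π).degree < (e : WithBot ℕ) := by
    have h := Polynomial.degree_modByMonic_lt H hmonC
    rwa [Lagrange.degree_nodal, Finset.card_range] at h
  have hvs : Set.InjOn π (Finset.range e : Set ℕ) := by
    intro a ha b hb hab
    exact hinj a (by simpa using ha) b (by simpa using hb) hab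
  have hco := Lagrange.coeff_eq_sum (s := Finset.range e) (v := π) hvs
    (P := H %ₘ Lagrange.nodal (Finset.range e) π)
    (by rw [Finset.card_range]; exact hdeg)
  have hev : ∀ l ∈ Finset.range e,
      (H %ₘ Lagrange.nodal (Finset.range e) π).eval (π l) = H.eval (π l) := by
    intro l hl
    have h := congrArg (Polynomial.eval (π l))
      (Polynomial.modByMonic_add_div H (Lagrange.nodal (Finset.range e) π))
    rw [Polynomial.eval_add, Polynomial.eval_mul, Lagrange.eval_nodal_at_node hl, zero_mul,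
      add_zero] at h
    exact h
  have hsum : (∑ l ∈ Finset.range e, H.eval (π l) /
      ∏ l' ∈ (Finset.range e).erase l, (π l - π l')) =
      (H %ₘ Lagrange.nodal (Finset.range e) π).coeff ((Finset.range e).card - 1) := by
    rw [hco]
    exact Finset.sum_congr rfl fun l hl => by rw [hev l hl]
  rw [hsum, ← hR, Polynomial.coeff_map]
  exact (V.valuation_le_one_iff _).2 (Subtype.mem _)

end

end Pool.Agent.NSER


end

section

/-!
# MUX-NS, block ER: (BPW) the powers of `b` (helper39)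
-/

set_option autoImplicit false

namespace Pool.Agent.NSER

open _root_.MU3 _root_.Pool.Agent.MU3A _root_.Pool.Agent.MU3B _root_.Pool.Agent.MUX _root_.Pool.Agent.MUXU _root_.Pool.Agent.MUXE
open _root_.Pool.Agent.RI _root_.Pool.Agent.NS _root_.Pool.Agent.NSRD

namespace BPW

lemma cancel {R : Type} [CommRing R] {P : Ideal R} (hP : P.IsMaximal) {y t : R} (hy : y ∈ P)
    (ht : t ∉ P) (h : y * t ∈ P * P) : y ∈ P * P := by
  obtain ⟨t', p, hp, h1⟩ := hP.exists_inv ht
  have h2 : y = y * t * t' + y * p := by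
    calc y = y * 1 := by ring
      _ = y * (t' * t + p) := by rw [h1]
      _ = _ := by ring
  rw [h2]
  exact (P * P).add_mem ((P * P).mul_mem_right _ h) (Ideal.mul_mem_mul hy hp)

lemma one_add_pow {R : Type} [CommRing R] (X : R) (l : ℕ) :
    ∃ s : R, (1 + X) ^ l = 1 + X * (l + X * s) := by
  induction l with
  | zero => exact ⟨0, by simp⟩
  | succ l ih =>
    obtain ⟨s, hs⟩ := ih
    refine ⟨s + l + X * s, ?_⟩
    rw [pow_succ, hs]
    push_cast
    ring

lemma nm_add_mul {A B : ℤ} (x t : OO A B) (m : ℕ) :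
    ∃ r : ℤ, nm (x + (m : OO A B) * t) = nm x + m * r := by
  refine ⟨2 * x.re * t.re + m * t.re ^ 2 + B * (x.re * t.im + t.re * x.im + m * t.re * t.im) -
    A * (2 * x.im * t.im + m * t.im ^ 2), ?_⟩
  simp only [nm, QuadraticAlgebra.re_add, QuadraticAlgebra.im_add, QuadraticAlgebra.re_mul,
    QuadraticAlgebra.im_mul, QuadraticAlgebra.re_natCast, QuadraticAlgebra.im_natCast]
  ring

lemma nm_mul1 {A B : ℤ} (x y : OO A B) : nm (x * y) = nm x * nm y := by
  simp only [nm, QuadraticAlgebra.re_mul, QuadraticAlgebra.im_mul]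
  ring

end BPW

theorem tf_BPW (h : Sf_IDL) : Sf_BPW := by
  intro A B P V hc f n b hf hb
  obtain ⟨h3P, -, -, hnP, hI⟩ := h A B P V hc
  have hmax := hc.max
  have hsq := hc.sq
  have hlv : lvX 3 f n = 3 ^ (n + 1) * f := by simp [lvX, q0]; ring
  unfold IsB at hb
  rw [hlv] at hb ⊢
  set δ : OO A B := dD A B with hδ
  set m : OO A B := ((3 ^ (n + 1) * f : ℕ) : OO A B) with hm
  set cb : OO A B := 1 - ((3 * f : ℕ) : OO A B) * δ with hcb
  -- `c̄` is prime to `m`
  have hco0 : IsCoprime cb ((3 * f : ℕ) : OO A B) := ⟨1, δ, by rw [hcb]; ring⟩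
  have hdv : m ∣ ((3 * f : ℕ) : OO A B) ^ (n + 1) := by
    refine ⟨((f ^ n : ℕ) : OO A B), ?_⟩
    rw [hm]
    push_cast
    ring
  have hco : IsCoprime cb m := (hco0.pow_right).of_isCoprime_of_dvd_right hdv
  obtain ⟨c', t', hct⟩ := hco
  rw [Ideal.mem_span_singleton] at hb
  obtain ⟨s, hs⟩ := hb
  have hmP : m ∈ P := by
    have : m = ((3 ^ n * f : ℕ) : OO A B) * 3 := by rw [hm]; push_cast; ring
    rw [this]
    exact P.mul_mem_left _ h3P
  have h1P : (1 : OO A B) ∉ P := fun h1 => hmax.ne_top ((Ideal.eq_top_iff_one P).2 h1)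
  -- `b - 1`
  have hb1 : b - 1 = ((3 * f : ℕ) : OO A B) * (δ * (2 * c')) + m * (c' * s + (b - 1) * t') := by
    have e1 : (b - 1) * cb = 2 * (((3 * f : ℕ) : OO A B) * δ) + m * s := by
      have : b * cb = 1 + ((3 * f : ℕ) : OO A B) * δ + m * s := by
        linear_combination hs
      rw [sub_mul, this, hcb]; ring
    calc b - 1 = (b - 1) * (c' * cb + t' * m) := by rw [hct, mul_one]
      _ = c' * ((b - 1) * cb) + (b - 1) * (t' * m) := by ring
      _ = _ := by rw [e1]; ring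
  have hc'P : c' ∉ P := by
    intro h1
    apply h1P
    rw [← hct]
    exact P.add_mem (P.mul_mem_right _ h1) (P.mul_mem_left _ hmP)
  have h2P : (2 : OO A B) ∉ P := by
    intro h1
    apply h1P
    have : (1 : OO A B) = 3 - 2 := by norm_num
    rw [this]
    exact P.sub_mem h3P h1
  have h2c : (2 * c' : OO A B) ∉ P := by
    intro h1
    rcases hmax.isPrime.mem_or_mem h1 with h2 | h2
    · exact h2P h2
    · exact hc'P h2
  have hδPP : δ ∉ P * P := by
    rw [hsq, Ideal.mem_span_singleton]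
    rintro ⟨z, hz⟩
    have h1 := congrArg QuadraticAlgebra.im hz
    rw [hδ] at h1
    simp only [dD, QuadraticAlgebra.im_mul, QuadraticAlgebra.re_natCast,
      QuadraticAlgebra.im_natCast] at h1
    push_cast at h1
    omega
  have hδP : δ ∈ P := hc.dP
  have hy1 : δ * (2 * c') ∈ P := P.mul_mem_right _ hδP
  have hy1' : δ * (2 * c') ∉ P * P := fun h1 => hδPP (BPW.cancel hmax hδP h2c h1)
  -- the powers `b ^ (3 ^ j)`
  have hpw : ∀ j : ℕ, ∃ y ∈ P, y ∉ P * P ∧
      ∃ r, b ^ (3 ^ j) = 1 + ((3 ^ (j + 1) * f : ℕ) : OO A B) * y + m * r := by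
    intro j
    induction j with
    | zero =>
      refine ⟨δ * (2 * c'), hy1, hy1', c' * s + (b - 1) * t', ?_⟩
      have : b = 1 + (b - 1) := by ring
      rw [pow_zero, pow_one, zero_add, pow_one]
      linear_combination hb1
    | succ j ih =>
      obtain ⟨y, hy, hy', r, hr⟩ := ih
      set X : OO A B := ((3 ^ (j + 1) * f : ℕ) : OO A B) * y with hX
      have hXP : X ∈ P := P.mul_mem_left _ hy
      have ht : (1 + (X + ((3 ^ j * f : ℕ) : OO A B) * y * X) : OO A B) ∉ P := by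
        intro h1
        apply h1P
        have := P.sub_mem h1 (P.add_mem hXP (P.mul_mem_left (((3 ^ j * f : ℕ) : OO A B) * y) hXP))
        simpa using this
      refine ⟨y * (1 + (X + ((3 ^ j * f : ℕ) : OO A B) * y * X)), P.mul_mem_right _ hy,
        fun h1 => hy' (BPW.cancel hmax hy ht h1),
        3 * (1 + X) ^ 2 * r + 3 * (1 + X) * m * r ^ 2 + m ^ 2 * r ^ 3, ?_⟩
      have e1 : b ^ (3 ^ (j + 1)) = (b ^ (3 ^ j)) ^ 3 := by rw [← pow_mul, pow_succ]
      rw [e1, hr, hX]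
      push_cast
      ring
  have hcong : ∀ u v : OO A B, (∃ r, u = v + m * r) → ∀ l : ℕ, ∃ r, u ^ l = v ^ l + m * r := by
    rintro u v ⟨r, rfl⟩ l
    obtain ⟨w, hw⟩ := sub_dvd_pow_sub_pow (v + m * r) v l
    refine ⟨r * w, ?_⟩
    linear_combination hw
  refine ⟨?_, ?_, ?_, ?_, ?_⟩
  · -- (1)
    have h1 : IsCoprime (1 + ((3 * f : ℕ) : OO A B) * δ) m :=
      (IsCoprime.pow_right (n := n + 1) (⟨1, -δ, by ring⟩ :
        IsCoprime (1 + ((3 * f : ℕ) : OO A B) * δ) ((3 * f : ℕ) : OO A B))).of_isCoprime_of_dvd_right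
        hdv
    have h2 : b * cb = 1 + ((3 * f : ℕ) : OO A B) * δ + m * s := by linear_combination hs
    have h3 : IsCoprime (b * cb) m := by
      rw [h2]
      exact h1.add_mul_left_left s
    exact h3.of_mul_left_left
  · -- (2)
    intro l j hl hl' _
    obtain ⟨k, rfl⟩ := hl
    have hk : ¬ 3 ∣ k := by
      rintro ⟨k', rfl⟩
      exact hl' ⟨k', by ring⟩
    obtain ⟨y, hy, hy', r, hr⟩ := hpw j
    obtain ⟨r', hr'⟩ := hcong _ _ ⟨r, hr⟩ k
    set X : OO A B := ((3 ^ (j + 1) * f : ℕ) : OO A B) * y with hX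
    have hXP : X ∈ P := P.mul_mem_left _ hy
    obtain ⟨w, hw⟩ := BPW.one_add_pow X k
    have ht : (k + X * w : OO A B) ∉ P := by
      intro h1
      have h2 := P.sub_mem h1 (P.mul_mem_right w hXP)
      rw [add_sub_cancel_right] at h2
      exact hk ((hnP k).1 h2)
    refine ⟨y * (k + X * w), P.mul_mem_right _ hy, fun h1 => hy' (BPW.cancel hmax hy ht h1), ?_⟩
    rw [Ideal.mem_span_singleton]
    refine ⟨r', ?_⟩
    rw [pow_mul, hr', hw, hX]
    ring
  · -- (3)
    obtain ⟨y, -, -, r, hr⟩ := hpw n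
    rw [Ideal.mem_span_singleton]
    refine ⟨y + r, ?_⟩
    rw [hr]
    ring
  · -- (4)
    have h2 : b * cb = 1 + ((3 * f : ℕ) : OO A B) * δ + m * s := by linear_combination hs
    obtain ⟨r, hr⟩ := BPW.nm_add_mul (1 + ((3 * f : ℕ) : OO A B) * δ) s (3 ^ (n + 1) * f)
    have h3 : nm (b * cb) = nm (1 + ((3 * f : ℕ) : OO A B) * δ) + (3 ^ (n + 1) * f : ℕ) * r := by
      rw [h2, hm]; exact hr
    rw [BPW.nm_mul1] at h3
    have e1 : nm (1 + ((3 * f : ℕ) : OO A B) * δ) = 1 - 9 * (f : ℤ) ^ 2 * (B ^ 2 + 4 * A) := by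
      simp only [hδ, dD, nm, QuadraticAlgebra.re_add, QuadraticAlgebra.im_add,
        QuadraticAlgebra.re_mul, QuadraticAlgebra.im_mul, QuadraticAlgebra.re_natCast,
        QuadraticAlgebra.im_natCast, QuadraticAlgebra.re_one, QuadraticAlgebra.im_one]
      push_cast
      ring
    have e2 : nm cb = 1 - 9 * (f : ℤ) ^ 2 * (B ^ 2 + 4 * A) := by
      simp only [hcb, hδ, dD, nm, QuadraticAlgebra.re_sub, QuadraticAlgebra.im_sub,
        QuadraticAlgebra.re_mul, QuadraticAlgebra.im_mul, QuadraticAlgebra.re_natCast,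
        QuadraticAlgebra.im_natCast, QuadraticAlgebra.re_one, QuadraticAlgebra.im_one]
      push_cast
      ring
    rw [e1, e2] at h3
    set q : ℤ := 1 - 9 * (f : ℤ) ^ 2 * (B ^ 2 + 4 * A) with hq
    have h4 : q * (nm b - 1) = 3 ^ (n + 1) * (f * r) := by
      push_cast at h3
      linear_combination h3
    have h5 : IsCoprime ((3 : ℤ) ^ (n + 1)) q := by
      apply IsCoprime.pow_left
      exact ⟨3 * (f : ℤ) ^ 2 * (B ^ 2 + 4 * A), 1, by rw [hq]; ring⟩
    exact h5.dvd_of_dvd_mul_left ⟨f * r, h4⟩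
  · -- (5)
    intro hn l
    have h6 : b - 1 ∈ lvR P f 1 := by
      rw [(hI f 1 hf).1]
      refine ⟨δ * (2 * c') + 3 ^ n * (c' * s + (b - 1) * t'), P.add_mem hy1 ?_, ?_⟩
      · obtain ⟨k, rfl⟩ : ∃ k, n = k + 1 := ⟨n - 1, by omega⟩
        rw [pow_succ, mul_assoc]
        exact P.mul_mem_left _ (P.mul_mem_right _ h3P)
      · have := hb1
        rw [hm] at this
        push_cast at this ⊢
        linear_combination this
    obtain ⟨w, hw⟩ := sub_dvd_pow_sub_pow b 1 l
    rw [one_pow] at hw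
    rw [hw]
    exact Ideal.mul_mem_right _ _ h6

end Pool.Agent.NSER


end

section

/-!
# MUX-NS, block TR, module SGU: the sign `d_0`, ramified case (adapted from `T_SGU.lean`)
-/

set_option autoImplicit false

namespace Pool.Agent.NSTR

open _root_.MU3 _root_.Pool.Agent.MU3A _root_.Pool.Agent.MU3B _root_.Pool.Agent.RI _root_.Pool.Agent.MUX _root_.Pool.Agent.MUXU
open OnePoint _root_.Pool.Agent.NS _root_.Pool.Agent.NSRD
open _root_.Pool.Agent.MUXV (GR InK)
open _root_.Pool.Agent.NSE (su ru)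
open _root_.Pool.Agent.NST (KIn ActT)
open _root_.Pool.Agent.MUXY (ActN Dn)

noncomputable section

namespace SGU

theorem _root_.Pool.Agent.NSTR.SGU.der_congr (L : PeriodPair) {z w : ℂ} (h : w - z ∈ L.lattice) :
    L.derivWeierstrassP w = L.derivWeierstrassP z := by
  have h4 := L.derivWeierstrassP_add_coe z ⟨w - z, h⟩
  have h5 : z + ((⟨w - z, h⟩ : L.lattice) : ℂ) = w := by
    show z + (w - z) = w
    ring
  rw [h5] at h4
  exact h4

end SGU

open _root_.Pool.Agent.NSTR.SGU in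
/-- (SGU) the sign `d_0` -/
theorem tw_SGU (h1 : Sw_DEL) : Sw_SGU := by
  intro A B P V f hS ι R u e lam hGd j m' hm0 hm3 hfm σ c d hcm hAct hσu hlast
  have hC := hS.case.toCQ
  obtain ⟨h3, hv2, -, hD15, -, -, -, -, -, -, -, hvn⟩ := h1 A B P V hS.case hS.hP hS.hV
  have hf6 : 6 ≤ f := by
    have h2 := Int.le_of_dvd (by have := hS.f0; omega) hS.fD
    omega
  have hm6 : 6 ≤ m' := le_trans hf6 (Nat.le_of_dvd (Nat.pos_of_ne_zero hm0) hfm)
  set L := R.L R.i0 with hL
  set om := R.om R.i0 with hom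
  have hmem : ∀ z : ℂ, z ∈ L.lattice ↔ ∃ x : OO A B, z = om * emb x := by
    intro z
    rw [(R.nl R.i0).mem, R.b0]
    exact ⟨fun ⟨x, _, hx⟩ => ⟨x, hx⟩, fun ⟨x, hx⟩ => ⟨x, trivial, hx⟩⟩
  have hom0 : om ≠ 0 := (R.nl R.i0).om_ne
  have hmC : (m' : ℂ) ≠ 0 := Nat.cast_ne_zero.2 hm0
  -- good reduction
  have hlam : V.valuation (1 + lam) < 1 := by
    by_contra hcon
    have h5 : 1 ≤ V.valuation (1 + lam) ^ 2 := one_le_pow₀ (not_lt.1 hcon)
    exact absurd (h5.trans hGd.lam1) (not_le.2 h3)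
  obtain ⟨ξ, G, -⟩ := NSR.rgrl V L u e lam hv2 hlam ⟨hGd.u0, hGd.eq⟩
  have hT2 : ∀ z : ℂ, (m' : ℂ) * z ∈ L.lattice → InK V L (xu L u e) z → z ∈ L.lattice :=
    fun z hz hK => Pool.Agent.MUXV.mem_of_nat_mul G hK (hvn m' hm3) hz
  set z : ℂ := om / m' with hz
  have hmz : (m' : ℂ) * z = om := by rw [hz]; field_simp
  have homL : om ∈ L.lattice := (hmem om).2 ⟨1, by rw [Pool.Agent.MUX.emb_one hC, mul_one]⟩
  have hzz : z + z ∉ L.lattice := by
    intro h
    obtain ⟨x, hx⟩ := (hmem _).1 h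
    have h1 : (m' : ℂ) * emb x = 2 := by
      have h2 : om * ((m' : ℂ) * emb x) = om * 2 := by
        linear_combination (-(m' : ℂ)) * hx + 2 * hmz
      exact mul_left_cancel₀ hom0 h2
    have h2 : ((m' : ℕ) : OO A B) * x = ((2 : ℕ) : OO A B) := by
      apply Pool.Agent.MUX.emb_inj hC
      rw [Pool.Agent.MUX.emb_mul hC, Pool.Agent.MUX.emb_natCast hC,
        Pool.Agent.MUX.emb_natCast hC, h1]
      norm_num
    have h4 := congrArg nm h2
    rw [Pool.Agent.MUX.nm_mul hC] at h4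
    have h5 := Pool.Agent.MUX.nm_intCast (A := A) (B := B) (m' : ℤ)
    have h6 := Pool.Agent.MUX.nm_intCast (A := A) (B := B) (2 : ℤ)
    rw [Int.cast_natCast] at h5
    have h7 : ((2 : ℤ) : OO A B) = ((2 : ℕ) : OO A B) := by push_cast; rfl
    rw [h7] at h6
    rw [h5, h6] at h4
    have h8 : ((m' : ℤ) ^ 2) ∣ 2 ^ 2 := ⟨_, h4.symm⟩
    have h9 := Int.le_of_dvd (by norm_num) h8
    have h10 : (6 : ℤ) ≤ m' := by exact_mod_cast hm6
    nlinarith
  have hzL : z ∉ L.lattice := fun h => hzz (add_mem h h)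
  have hzK : ¬ InK V L (xu L u e) z := fun h => hzL (hT2 z (by rw [hmz]; exact homL) h)
  have hzzK : ¬ InK V L (xu L u e) (z + z) := fun h => hzz (hT2 (z + z) (by
    rw [mul_add, hmz]
    exact add_mem homL homL) h)
  -- `v (yu z) = 1`
  have hy1 : V.valuation (yu L u z) = 1 := by
    obtain ⟨hns, hxi⟩ := G.some z hzL
    have e1 := (Pool.Agent.MUXV.inE_iff G z).not.2 hzK
    have e2 := (Pool.Agent.MUXV.inE_iff G (z + z)).not.2 hzzK
    rw [map_add, hxi] at e2
    rw [hxi] at e1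
    exact Pool.Agent.MU3.Val.v_y_unit G.int G.two G.disc hns e1 e2
  -- the action
  have hact := hAct.act R.i0
  have hmzL : ((3 ^ (j + 1) * m' : ℕ) : ℂ) * z ∈ L.lattice := by
    have h1 : ((3 ^ (j + 1) * m' : ℕ) : ℂ) * z = (3 ^ (j + 1) : ℕ) * om := by
      rw [← hmz]; push_cast; ring
    rw [h1, ← nsmul_eq_mul]
    exact nsmul_mem homL _
  obtain ⟨-, -, hP'⟩ := hact.act z hmzL hzL
  have hcz : emb c * z - z ∈ L.lattice := by
    obtain ⟨y, hy⟩ := Ideal.mem_span_singleton'.1 hcm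
    refine (hmem _).2 ⟨y, ?_⟩
    have h1 : emb c - 1 = emb y * m' := by
      have h2 := congrArg emb hy
      rw [Pool.Agent.MUX.emb_mul hC, Pool.Agent.MUX.emb_natCast hC, Pool.Agent.MUX.emb_sub hC,
        Pool.Agent.MUX.emb_one hC] at h2
      exact h2.symm
    have h2 : emb c * z - z = (emb c - 1) * z := by ring
    rw [h2, h1, mul_assoc, hmz, mul_comm]
  have hder : σ (L.derivWeierstrassP z) = d R.i0 * L.derivWeierstrassP z := by
    rw [← hP']
    rcases hAct.sgn R.i0 with hd | hd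
    · rw [hd]
      push_cast
      rw [one_mul, one_mul]
      exact _root_.Pool.Agent.NSTR.SGU.der_congr L hcz
    · rw [hd]
      push_cast
      have h1 : -1 * emb c * z = -(emb c * z) := by ring
      rw [h1, L.derivWeierstrassP_neg, _root_.Pool.Agent.NSTR.SGU.der_congr L hcz]
      ring
  have hu0 := hGd.u0
  have hd2 : (d R.i0 : ℂ) * d R.i0 = 1 := by
    rcases hAct.sgn R.i0 with hd | hd <;> rw [hd] <;> norm_num
  have hs : σ u = d R.i0 * u ∨ σ u = -(d R.i0 * u) := by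
    have h1 : (σ u) ^ 2 = (d R.i0 * u) ^ 2 := by
      rw [← map_pow, hσu]
      linear_combination (-(u ^ 2)) * hd2
    exact sq_eq_sq_iff_eq_or_eq_neg.1 h1
  rcases hs with hs | hs
  · exact hs
  · exfalso
    have hσy : σ (yu L u z) = -yu L u z := by
      unfold yu
      rw [map_div₀, map_mul, map_pow, hs, hder, map_ofNat]
      have hd0 : (d R.i0 : ℂ) ≠ 0 := fun h0 => by
        rw [h0, zero_mul] at hd2
        exact zero_ne_one hd2
      rw [div_eq_iff (by
        refine mul_ne_zero two_ne_zero (pow_ne_zero _ ?_)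
        exact neg_ne_zero.2 (mul_ne_zero hd0 hu0))]
      have h5 : (d R.i0 : ℂ) ^ 3 = d R.i0 := by linear_combination (d R.i0 : ℂ) * hd2
      have h6 : (2 : ℂ) * (-(d R.i0 * u)) ^ 3 = -(d R.i0 * (2 * u ^ 3)) := by
        linear_combination (-2 * u ^ 3) * h5
      rw [h6]
      field_simp
    have h1 := hlast hy1.le
    rw [hσy] at h1
    have h2 : -yu L u z - yu L u z = -(2 * yu L u z) := by ring
    rw [h2, Valuation.map_neg, map_mul, hy1, G.two, one_mul] at h1
    exact lt_irrefl _ h1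

end

end Pool.Agent.NSTR


end

section

/-!
# MUX-NS, block TR, module VSR: the points of order `P`, the canonical subgroup (helper76)
-/

set_option autoImplicit false

namespace Pool.Agent.NSTR

open _root_.MU3 _root_.Pool.Agent.MU3A _root_.Pool.Agent.MU3B _root_.Pool.Agent.RI _root_.Pool.Agent.MUX _root_.Pool.Agent.MUXU
open OnePoint _root_.Pool.Agent.NS _root_.Pool.Agent.NSRD
open _root_.Pool.Agent.MUXV (GR InK)
open _root_.Pool.Agent.NSE (su ru)
open _root_.Pool.Agent.NST (KIn ActT)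
open _root_.Pool.Agent.MUXY (ActN Dn)

noncomputable section

namespace VSR

/-- the valuation of a root of the division polynomial, if it is at least `v(3)^(-1/2)` -/
lemma dom {V : ValuationSubring ℂ} {x lam : ℂ} (h3 : V.valuation (3 : ℂ) < 1)
    (h2 : V.valuation (2 : ℂ) = 1) (hl : V.valuation (1 + lam) ^ 2 ≤ V.valuation (3 : ℂ))
    (hψ : 3 * x ^ 4 - 4 * (1 + lam) * x ^ 3 + 6 * lam * x ^ 2 - lam ^ 2 = 0)
    (hx : 1 < V.valuation x → 1 ≤ V.valuation x ^ 2 * V.valuation (3 : ℂ)) :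
    1 < V.valuation x ∧ V.valuation x ^ 2 * V.valuation (3 : ℂ) = 1 ∧ V.valuation lam = 1 := by
  have hb : V.valuation (1 + lam) < 1 := by
    by_contra h
    exact absurd ((one_le_pow_of_one_le' (not_lt.1 h) 2).trans hl) (not_le.2 h3)
  have vlam : V.valuation lam = 1 := by
    have h4 : lam = (1 + lam) - 1 := by ring
    rw [h4, V.valuation.map_sub_eq_of_lt_right (by rwa [map_one]), map_one]
  have v4 : V.valuation (4 : ℂ) = 1 := by
    have h4 : (4 : ℂ) = 2 * 2 := by norm_num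
    rw [h4, map_mul, h2, one_mul]
  have v6 : V.valuation (6 : ℂ) = V.valuation (3 : ℂ) := by
    have h4 : (6 : ℂ) = 2 * 3 := by norm_num
    rw [h4, map_mul, h2, one_mul]
  have t1 : V.valuation (3 * x ^ 4) = V.valuation (3 : ℂ) * V.valuation x ^ 4 := by
    rw [map_mul, map_pow]
  have t2 : V.valuation (4 * (1 + lam) * x ^ 3) = V.valuation (1 + lam) * V.valuation x ^ 3 := by
    rw [map_mul, map_mul, map_pow, v4, one_mul]
  have t3 : V.valuation (6 * lam * x ^ 2) = V.valuation (3 : ℂ) * V.valuation x ^ 2 := by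
    rw [map_mul, map_mul, map_pow, v6, vlam, mul_one]
  have t4 : V.valuation (lam ^ 2) = 1 := by rw [map_pow, vlam, one_pow]
  have hθ : 0 < V.valuation (3 : ℂ) :=
    lt_of_le_of_ne zero_le (Ne.symm ((Valuation.ne_zero_iff _).2 (by norm_num)))
  have ha : 1 < V.valuation x := by
    by_contra h
    rw [not_lt] at h
    have e1 : lam ^ 2 = 3 * x ^ 4 - 4 * (1 + lam) * x ^ 3 + 6 * lam * x ^ 2 := by
      linear_combination -hψ
    have e2 : V.valuation (lam ^ 2) < 1 := by
      rw [e1]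
      refine V.valuation.map_add_lt (V.valuation.map_sub_lt ?_ ?_) ?_
      · rw [t1]
        exact (mul_le_of_le_one_right' (pow_le_one' h 4)).trans_lt h3
      · rw [t2]
        exact (mul_le_of_le_one_right' (pow_le_one' h 3)).trans_lt hb
      · rw [t3]
        exact (mul_le_of_le_one_right' (pow_le_one' h 2)).trans_lt h3
    rw [t4] at e2
    exact lt_irrefl _ e2
  refine ⟨ha, ?_, vlam⟩
  by_contra hne
  have h5 : 1 < V.valuation x ^ 2 * V.valuation (3 : ℂ) := lt_of_le_of_ne (hx ha) (Ne.symm hne)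
  have ha2 : 1 < V.valuation x ^ 2 := one_lt_pow₀ ha two_ne_zero
  have hpos2 : 0 < V.valuation x ^ 2 := lt_trans zero_lt_one ha2
  have e0 : V.valuation (3 : ℂ) * V.valuation x ^ 4 =
      (V.valuation (3 : ℂ) * V.valuation x ^ 2) * V.valuation x ^ 2 := by
    rw [mul_assoc, ← pow_add]
  have s3 : V.valuation (3 : ℂ) * V.valuation x ^ 2 < V.valuation (3 : ℂ) * V.valuation x ^ 4 := by
    rw [e0]
    have h6 := mul_lt_mul_of_pos_left ha2 (mul_pos hθ hpos2)
    rwa [mul_one] at h6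
  have s4 : 1 < V.valuation (3 : ℂ) * V.valuation x ^ 4 := by
    rw [mul_comm] at h5
    exact h5.trans s3
  have s2 : V.valuation (1 + lam) * V.valuation x ^ 3 <
      V.valuation (3 : ℂ) * V.valuation x ^ 4 := by
    refine lt_of_pow_lt_pow_left₀ 2 zero_le ?_
    rw [mul_pow, mul_pow, ← pow_mul, ← pow_mul]
    have hpos6 : 0 < V.valuation x ^ (3 * 2) := pow_pos (lt_trans zero_lt_one ha) _
    calc V.valuation (1 + lam) ^ 2 * V.valuation x ^ (3 * 2)
        ≤ V.valuation (3 : ℂ) * V.valuation x ^ (3 * 2) := mul_le_mul_left hl _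
      _ < (V.valuation (3 : ℂ) * V.valuation x ^ (3 * 2)) *
          (V.valuation x ^ 2 * V.valuation (3 : ℂ)) := by
            have h6 := mul_lt_mul_of_pos_left h5 (mul_pos hθ hpos6)
            rwa [mul_one] at h6
      _ = V.valuation (3 : ℂ) ^ 2 * V.valuation x ^ (4 * 2) := by
            have h7 : V.valuation x ^ (4 * 2) = V.valuation x ^ (3 * 2) * V.valuation x ^ 2 := by
              rw [← pow_add]
            rw [h7, pow_two (V.valuation (3 : ℂ))]
            ac_rfl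
  have e1 : 3 * x ^ 4 = 4 * (1 + lam) * x ^ 3 - 6 * lam * x ^ 2 + lam ^ 2 := by
    linear_combination hψ
  have e2 : V.valuation (3 * x ^ 4) < V.valuation (3 : ℂ) * V.valuation x ^ 4 := by
    rw [e1]
    refine V.valuation.map_add_lt (V.valuation.map_sub_lt ?_ ?_) ?_
    · rw [t2]; exact s2
    · rw [t3]; exact s3
    · rw [t4]; exact s4
  rw [t1] at e2
  exact lt_irrefl _ e2

/-- `℘` at `± c Y` -/
lemma wp_sign {L : PeriodPair} {Y l : ℂ} (hl : l ∈ L.lattice) {s d : ℤ} (hs : s = 1 ∨ s = -1)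
    (hd : d = 1 ∨ d = -1) : L.weierstrassP ((d : ℂ) * (s * Y + l)) = L.weierstrassP Y := by
  have hp : ∀ z : ℂ, ∀ v ∈ L.lattice, L.weierstrassP (z + v) = L.weierstrassP z :=
    fun z v hv => L.weierstrassP_add_coe z ⟨v, hv⟩
  rcases hs with rfl | rfl <;> rcases hd with rfl | rfl
  · have e : ((1 : ℤ) : ℂ) * (((1 : ℤ) : ℂ) * Y + l) = Y + l := by push_cast; ring
    rw [e, hp _ _ hl]
  · have e : ((-1 : ℤ) : ℂ) * (((1 : ℤ) : ℂ) * Y + l) = -Y + -l := by push_cast; ring
    rw [e, hp _ _ (neg_mem hl), L.weierstrassP_neg]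
  · have e : ((1 : ℤ) : ℂ) * (((-1 : ℤ) : ℂ) * Y + l) = -Y + l := by push_cast; ring
    rw [e, hp _ _ hl, L.weierstrassP_neg]
  · have e : ((-1 : ℤ) : ℂ) * (((-1 : ℤ) : ℂ) * Y + l) = Y + -l := by push_cast; ring
    rw [e, hp _ _ (neg_mem hl)]

end VSR

open _root_.Pool.Agent.NSTR.VSR _root_.Pool.Agent.NST.ALT in
/-- (VSR) -/
theorem tw_VSR (hDEL : Sw_DEL) (hALT : Sw_ALT) (hACF : Sw_ACF) : Sw_VSR := by
  intro A B P V hR hP hV hT n ι R u e lam hg Y hYL hYP
  have hC : CQ A B := hR.toCQ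
  obtain ⟨v3, v2, -, -, hδP, hδP2, vδ, -, -, hres, -, -⟩ := hDEL A B P V hR hP hV
  have h3P : ((3 : ℕ) : OO A B) ∈ P := hP.mem
  have h6P : ((6 : ℕ) : OO A B) ∈ P := by
    have e6 : ((6 : ℕ) : OO A B) = 2 * ((3 : ℕ) : OO A B) := by push_cast; norm_num
    rw [e6]
    exact P.mul_mem_left _ h3P
  have hNL := R.nl R.i0
  obtain ⟨hu2, he2, -, -, -⟩ := hALT A B hC hT V v3 (R.b R.i0) (R.L R.i0) (R.om R.i0) hNL u e lam hg
  -- (a) `℘ Y ∈ RF (idl 2)`
  have h3Y : 3 * Y ∈ (R.L R.i0).lattice := by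
    have := hYP _ h3P
    rwa [_root_.Pool.Agent.MUX.emb_natCast hC, Nat.cast_ofNat] at this
  have h6Y : ((6 : ℕ) : ℂ) * Y ∈ (R.L R.i0).lattice := by
    have := hYP _ h6P
    rwa [_root_.Pool.Agent.MUX.emb_natCast hC] at this
  have hYm : (R.L R.i0).weierstrassP Y ∈ RF (idl (A := A) (B := B) 2) := by
    have halg : Algebra.IsAlgebraic ℚ
        ((RF (idl (A := A) (B := B) 2)).restrictScalars ℚ : IntermediateField ℚ ℂ) :=
      ⟨fun x => (IntermediateField.isAlgebraic_iff).2 (alg_RF hC hT two_ne_zero x.2)⟩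
    have key := u_AUF ((RF (idl (A := A) (B := B) 2)).restrictScalars ℚ) halg
      ((R.L R.i0).weierstrassP Y) (fun σ hσ => by
        have hσ' : ∀ y ∈ RF (idl (A := A) (B := B) 2), σ y = y := fun y hy => hσ y hy
        have hfix : FixK A B σ :=
          hσ' _ (IntermediateField.algebraMap_mem (RF (idl (A := A) (B := B) 2))
            (⟨wC A B, IntermediateField.mem_adjoin_simple_self ℚ (wC A B)⟩ : kk A B))
        obtain ⟨c, d, -, hcop, hact⟩ := hACF A B hC hT n ι R 6 2 (by norm_num) (by norm_num) σ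
          hfix hσ'
        have hcP : c ∉ P := by
          intro h
          apply hP.prime.ne_top
          rw [Ideal.isCoprime_iff_sup_eq] at hcop
          rw [eq_top_iff, ← hcop]
          refine sup_le ?_ ?_
          · rwa [Ideal.span_singleton_le_iff_mem]
          · rwa [Ideal.span_singleton_le_iff_mem]
        obtain ⟨hs, hsP⟩ := hres c hcP
        have h1 := ((hact.act R.i0).act Y h6Y hYL).2.1
        rw [← h1]
        have hl := hYP _ hsP
        have e1 : (d R.i0 : ℂ) * emb c * Y = (d R.i0 : ℂ) * ((wP P c : ℤ) * Y +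
            emb (c - ((wP P c : ℤ) : OO A B)) * Y) := by
          rw [_root_.Pool.Agent.MUX.emb_sub hC, _root_.Pool.Agent.MUX.emb_intCast hC]
          ring
        rw [e1]
        exact wp_sign hl hs (hact.sgn R.i0))
    exact key
  -- (b)
  have hxm : xu (R.L R.i0) u e Y ∈ RF (idl (A := A) (B := B) 2) :=
    div_mem (sub_mem hYm he2) hu2
  -- (c)
  obtain ⟨⟨N, hN⟩, -⟩ := Pool.Agent.NSR.tr_ALR A B V P hC hR.three hV h3P
  have hval : ∀ y ∈ RF (idl (A := A) (B := B) 2), y ≠ 0 →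
      ∃ k : ℤ, V.valuation y = V.valuation (emb (dD A B)) ^ k := by
    have : FiniteDimensional (kk A B) (RF (idl (A := A) (B := B) 2)) :=
      hT.fin _ (idl_ne hC two_ne_zero)
    have : IsGalois (kk A B) (RF (idl (A := A) (B := B) 2)) := hT.gal _ (idl_ne hC two_ne_zero)
    have hPne : P ≠ ⊥ := by
      rintro rfl
      rw [Ideal.mem_bot] at h3P
      have h4 := _root_.Pool.Agent.MUX.emb_natCast (A := A) (B := B) hC 3
      rw [h3P, _root_.Pool.Agent.MUX.emb_zero hC] at h4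
      norm_num at h4
    refine Pool.Agent.NSR.tr_RAM A B V P (dD A B) hC hP.prime hPne hV hδP hδP2
      (RF (idl (A := A) (B := B) 2)) ?_
    intro σ hσ
    obtain ⟨s, hs, hsσ⟩ := Pool.Agent.MUXC.CMM.ext tu_AUE hC _ σ
    have h4 := Pool.Agent.NSR.runr' A B V N hN hT 2 two_ne_zero (by norm_num) s hs (by
      intro z hz hvz
      have h5 := hσ ⟨z, hz⟩ hvz
      rw [← hsσ] at h5
      exact h5)
    ext z
    have h5 := h4 z z.2
    rw [hsσ] at h5
    exact h5
  -- (d)
  have hψ := (Pool.Agent.NSR.rtr3 (R.L R.i0) u e lam ⟨hg.u0, hg.eq⟩ Y hYL).1 h3Y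
  obtain ⟨x, hx⟩ : ∃ x, x = xu (R.L R.i0) u e Y := ⟨_, rfl⟩
  rw [← hx] at hψ hxm ⊢
  have hθ : 0 < V.valuation (3 : ℂ) :=
    lt_of_le_of_ne zero_le (Ne.symm ((Valuation.ne_zero_iff _).2 (by norm_num)))
  obtain ⟨ha, hax, vlam⟩ := dom v3 v2 hg.lam1 hψ (by
    intro ha
    have hx0 : x ≠ 0 := by
      rintro rfl
      rw [map_zero] at ha
      exact absurd ha (not_lt.2 zero_le)
    obtain ⟨k, hk⟩ := hval x hxm hx0
    have hk2 : V.valuation x ^ 2 = V.valuation (3 : ℂ) ^ k := by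
      rw [hk, ← vδ, ← zpow_natCast, ← zpow_natCast, ← zpow_mul, ← zpow_mul, mul_comm]
    have hk0 : k < 0 := by
      by_contra h
      obtain ⟨j, rfl⟩ := Int.eq_ofNat_of_zero_le (not_lt.1 h)
      have h6 : 1 < V.valuation x ^ 2 := one_lt_pow₀ ha two_ne_zero
      rw [hk2, zpow_natCast] at h6
      exact absurd (pow_le_one' v3.le j) (not_le.2 h6)
    obtain ⟨j, hj⟩ := Int.eq_ofNat_of_zero_le (show 0 ≤ -k - 1 by omega)
    have hj' : k = -((j : ℤ) + 1) := by omega
    rw [hk2, hj', zpow_neg, zpow_add₀ hθ.ne', zpow_one, zpow_natCast, mul_inv, mul_assoc,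
      inv_mul_cancel₀ hθ.ne', mul_one]
    exact (one_le_inv₀ (pow_pos hθ j)).2 (pow_le_one' v3.le j))
  refine ⟨hax, ?_⟩
  have hy2 : V.valuation (yu (R.L R.i0) u Y) ^ 2 = V.valuation x ^ 3 := by
    have h1 : yu (R.L R.i0) u Y ^ 2 = x * (x - 1) * (x - lam) := by
      rw [hx]
      exact hg.eq Y hYL
    rw [← map_pow, h1, map_mul, map_mul,
      V.valuation.map_sub_eq_of_lt_left (by rwa [map_one]),
      V.valuation.map_sub_eq_of_lt_left (by rwa [vlam])]
    rw [pow_succ, pow_two]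
  have hpos : 0 < V.valuation x := lt_trans zero_lt_one ha
  rw [ru, map_div₀, Valuation.map_neg, map_pow, ← hx, div_pow]
  have h4 : V.valuation (yu (R.L R.i0) u Y) ^ 4 = V.valuation x ^ 6 := by
    have h5 : V.valuation (yu (R.L R.i0) u Y) ^ 4 =
        (V.valuation (yu (R.L R.i0) u Y) ^ 2) ^ 2 := by rw [← pow_mul]
    rw [h5, hy2, ← pow_mul]
  rw [h4, ← pow_mul, div_eq_iff (pow_ne_zero _ hpos.ne')]
  have h6 : V.valuation x ^ (2 * 4) = V.valuation x ^ 2 * V.valuation x ^ 6 := by rw [← pow_add]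
  rw [h6, ← mul_assoc, mul_comm (V.valuation (3 : ℂ)), hax, one_mul]

end

end Pool.Agent.NSTR


end
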