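import Mathlib
import Pool.Agent.MVF.C047
import Pool.Agent.MVF.C068
import Pool.Agent.MVF.C159

/-! Parts: NS.F_UNR, NS.F_UNI, NS.F_THN, NS.F_RP1, NS.F_PAR, NS.F_GRN, NS.F_FIN -/

namespace Pool.Agent.NSER.PAR
end Pool.Agent.NSER.PAR

section

/-!
# MUX-NS, block ER, module UNR: `RF (f)` is unramified at `V` if `f` is prime to `3`
-/

set_option autoImplicit false

open Polynomial

namespace Pool.Agent.NSER

open _root_.MU3 _root_.Pool.Agent.MU3A _root_.Pool.Agent.MU3B _root_.Pool.Agent.MUX _root_.Pool.Agent.MUXU _root_.Pool.Agent.MUXE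
open _root_.Pool.Agent.RI _root_.Pool.Agent.NS _root_.Pool.Agent.NSRD
open _root_.Pool.Agent.MUXV (GR InK tX)
open _root_.Pool.Agent.NSE (E3 su ru WL IntP Rep)

noncomputable section

namespace UNR

/-- `V` is above `P`. -/
lemma above {A B : ℤ} {P : Ideal (OO A B)} {V : ValuationSubring ℂ} (hC : CtxR A B P V) :
    OverI V P := by
  intro x
  rw [ValuationSubring.mem_nonunits_iff (A := V)]
  constructor
  · intro h
    by_contra hx
    exact absurd (hC.unit x hx) h.ne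
  · intro hx
    by_contra h2
    exact absurd (lt_of_le_of_lt (hC.vP x hx) hC.v3) (not_lt.2 (one_le_pow₀ (not_lt.1 h2)))

/-- `dD` is not in `P²`. -/
lemma dD_not {A B : ℤ} {P : Ideal (OO A B)} {V : ValuationSubring ℂ} (hC : CtxR A B P V) :
    dD A B ∉ P ^ 2 := by
  rw [pow_two, hC.sq]
  intro h
  obtain ⟨c, hc⟩ := Ideal.mem_span_singleton'.1 h
  have h1 := congrArg QuadraticAlgebra.im hc
  rw [mul_comm] at h1
  rw [QuadraticAlgebra.im_mul, QuadraticAlgebra.re_natCast, QuadraticAlgebra.im_natCast] at h1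
  have h2 : (dD A B).im = 2 := rfl
  rw [h2] at h1
  push_cast at h1
  simp only [zero_mul, mul_zero, add_zero] at h1
  omega

end UNR

/-- UNR. -/
theorem tf_UNR : Sf_UNR := by
  intro A B P V hC hT f hf hf3
  have hm : idl (A := A) (B := B) f ≠ ⊥ := Pool.Agent.NSE.UNR.idl_ne hf
  have := hT.fin _ hm
  have := hT.gal _ hm
  have hd2 := UNR.dD_not hC
  have hP0 : P ≠ ⊥ := by
    rintro rfl
    have h1 : dD A B = 0 := hC.dP
    exact hd2 (by rw [h1]; exact Ideal.zero_mem _)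
  refine Pool.Agent.NSR.tr_RAM A B V P (dD A B) hC.cq hC.max.isPrime hP0 (UNR.above hC) hC.dP hd2
    (RF (idl (A := A) (B := B) f)) ?_
  intro σ hσ
  obtain ⟨s, hs, hsv⟩ := Pool.Agent.NSE.UNR.extn hT hm σ
  have h1 : ∀ y ∈ (RF (idl (A := A) (B := B) f) : IntermediateField (kk A B) ℂ), y ∈ V →
      s y - y ∈ V.nonunits := by
    intro y hy hyV
    have h2 := hσ ⟨y, hy⟩ ((V.valuation_le_one_iff y).2 hyV)
    rw [ValuationSubring.mem_nonunits_iff, hsv ⟨y, hy⟩]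
    exact h2
  have h2 := hC.iner f hf hf3 s hs h1
  apply AlgEquiv.ext
  intro y
  apply Subtype.ext
  rw [← hsv]
  exact h2 y y.2

end

end Pool.Agent.NSER


end

section

/-!
# MUX-NS, block ER, module UNI: a uniformiser of `RF (f a P^(2n+1))` over `RF (f a)`
-/

set_option autoImplicit false

open Polynomial

namespace Pool.Agent.NSER

open _root_.MU3 _root_.Pool.Agent.MU3A _root_.Pool.Agent.MU3B _root_.Pool.Agent.MUX _root_.Pool.Agent.MUXU _root_.Pool.Agent.MUXE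
open _root_.Pool.Agent.RI _root_.Pool.Agent.NS _root_.Pool.Agent.NSRD
open _root_.Pool.Agent.MUXV (GR InK tX)
open _root_.Pool.Agent.NSE (E3 su ru WL IntP Rep)

noncomputable section

theorem tf_UNI (h3 : Sf_GRN) (h6 : Sf_TNC) (hTPR : Sf_TPR) (h8 : Sf_UNR) (h9 : Sf_DEG)
    (hRP : Sf_RP1) (hIDL : Sf_IDL) : Sf_UNI := by
  intro A B P V hC hT hG N u e lam hN hgood n f a hf h2f h3f ha h3a z₁ hz₁
  have hR := hC.ring
  obtain ⟨φ, hφ⟩ := hR.hom
  have hmul : ∀ x y : OO A B, emb (x * y) = emb x * emb y := fun x y => by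
    rw [← hφ, map_mul, hφ, hφ]
  have hnat : ∀ k : ℕ, emb ((k : ℕ) : OO A B) = k := fun k => by rw [← hφ, map_natCast]
  have hint0 : ∀ k : ℤ, emb ((k : ℤ) : OO A B) = k := fun k => by rw [← hφ, map_intCast]
  have hv3 := hC.v3
  have hf0 : f ≠ 0 := by omega
  have hfa0 : f * a ≠ 0 := Nat.mul_ne_zero hf0 ha
  have h3fa : ¬ 3 ∣ f * a := fun h => by
    rcases (Nat.Prime.dvd_mul (by norm_num)).1 h with h | h
    · exact h3f h
    · exact h3a h
  obtain ⟨c1, c2, c3, c4, c5⟩ := Pool.Agent.MUXE.te_FAC Pool.Agent.MUXE.te_TRA A B hR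
  obtain ⟨r1, r2, r3, r4, r5, -⟩ := Pool.Agent.MUXE.te_TRA A B hR N hN
  obtain ⟨-, -, i3, -, i5⟩ := hIDL A B P V hC
  obtain ⟨-, -, -, -, -, a6, -⟩ := i5 f n hf0
  obtain ⟨-, -, -, -, a5', -, -⟩ := i5 (f * a) n hfa0
  obtain ⟨ξ, G⟩ := h3 V N u e lam hgood hv3
  have t1 := h6 V N u e lam hgood hv3
  have t2 := hTPR A B P V hC hT hG
  obtain ⟨huM', heM', -⟩ := hRP A B P V hC hG N u e lam hN hgood
  -- multiples of `z₁`
  have hzk : ∀ k : ℤ, (k : ℂ) * z₁ ∈ N.lattice ↔ ((3 ^ (n + 1) * f : ℕ) : ℤ) ∣ k := by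
    intro k
    rw [← hint0, hz₁]
    have h11 : ((k : ℤ) : OO A B) ∈ lvR P f n ↔ ((k.natAbs : ℕ) : OO A B) ∈ lvR P f n := by
      obtain ⟨m, rfl | rfl⟩ := k.eq_nat_or_neg
      · simp
      · rw [Int.cast_neg, neg_mem_iff]; simp
    rw [h11, a6, ← Int.natCast_dvd]
  have hcop : IsCoprime ((3 ^ (n + 1) : ℕ) : ℤ) (f : ℤ) := by
    rw [Nat.isCoprime_iff_coprime]
    exact Nat.Coprime.pow_left _ ((Nat.Prime.coprime_iff_not_dvd (by norm_num)).2 h3f)
  obtain ⟨α, β, hαβ⟩ := hcop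
  push_cast at hαβ
  have h3z : (3 : ℤ) ^ (n + 1) ≠ 0 := pow_ne_zero _ (by norm_num)
  have hfz : (f : ℤ) ≠ 0 := by exact_mod_cast hf0
  have h3one : ¬ (3 : ℤ) ∣ 1 := by norm_num
  obtain ⟨P₀, hP₀⟩ : ∃ z, z = ((α * 3 ^ (n + 1) : ℤ) : ℂ) * z₁ := ⟨_, rfl⟩
  obtain ⟨P₁, hP₁⟩ : ∃ z, z = ((β * f : ℤ) : ℂ) * z₁ := ⟨_, rfl⟩
  have hsum : P₀ + P₁ = z₁ := by
    have h11 : ((α * 3 ^ (n + 1) + β * f : ℤ) : ℂ) = 1 := by rw [hαβ]; simp
    rw [hP₀, hP₁, ← add_mul, ← Int.cast_add, h11, one_mul]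
  have hfP₀ : (f : ℂ) * P₀ ∈ N.lattice := by
    have h11 : (f : ℂ) * P₀ = ((f * (α * 3 ^ (n + 1)) : ℤ) : ℂ) * z₁ := by
      rw [hP₀]; push_cast; ring
    rw [h11, hzk]
    refine ⟨α, ?_⟩
    push_cast; ring
  have h2P₀ : 2 * P₀ ∉ N.lattice := by
    have h11 : 2 * P₀ = ((2 * (α * 3 ^ (n + 1)) : ℤ) : ℂ) * z₁ := by
      rw [hP₀]; push_cast; ring
    rw [h11, hzk]
    intro h12
    have h12' : (f : ℤ) ∣ 2 * α := by
      obtain ⟨t, ht⟩ := h12
      refine ⟨t, mul_left_cancel₀ h3z ?_⟩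
      push_cast at ht
      linear_combination ht
    have h13 : IsCoprime (f : ℤ) α := ⟨β, 3 ^ (n + 1), by linear_combination hαβ⟩
    have h14 := h13.dvd_of_dvd_mul_right h12'
    have h15 := Int.le_of_dvd (by norm_num) h14
    omega
  have hP₀L : P₀ ∉ N.lattice := fun h => h2P₀ (by rw [two_mul]; exact add_mem h h)
  have hP₀E : ¬ InK V N (xu N u e) P₀ := fun h => hP₀L ((t1 f h3f).2 P₀ hfP₀ h)
  have h2P₀E : ¬ InK V N (xu N u e) (2 * P₀) := fun h => h2P₀ ((t1 f h3f).2 _ (by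
    have h11 : (f : ℂ) * (2 * P₀) = f * P₀ + f * P₀ := by ring
    rw [h11]; exact add_mem hfP₀ hfP₀) h)
  have h3β : ¬ (3 : ℤ) ∣ β := fun h => h3one (by
    rw [← hαβ]
    exact dvd_add (Dvd.dvd.mul_left (dvd_pow_self 3 (Nat.succ_ne_zero n)) _)
      (Dvd.dvd.mul_right h _))
  -- `P₁` is of exact order `P^(2n+1)`
  have hTP₁ : Tor (P ^ (2 * n + 1)) N P₁ := by
    intro x hx
    have h11 : emb x * P₁ = emb (((β : ℤ) : OO A B) * (((f : ℕ) : OO A B) * x)) * z₁ := by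
      rw [hmul, hmul, hint0, hnat, hP₁]; push_cast; ring
    rw [h11, hz₁]
    exact Ideal.mul_mem_left _ _ (Ideal.mul_mem_mul (Ideal.mem_span_singleton_self _) hx)
  have hTP₁' : ¬ Tor (P ^ (2 * n)) N P₁ := by
    intro h
    have h11 := h ((3 ^ n : ℕ) : OO A B) (by
      rw [i3]; exact Ideal.mem_span_singleton_self _)
    rw [hnat, hP₁, ← mul_assoc] at h11
    have h12 : ((3 ^ n : ℕ) : ℂ) * ((β * f : ℤ) : ℂ) = ((3 ^ n * (β * f) : ℤ) : ℂ) := by
      push_cast; ring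
    rw [h12, hzk] at h11
    obtain ⟨t, ht⟩ := h11
    apply h3β
    refine ⟨t, mul_left_cancel₀ (mul_ne_zero (pow_ne_zero n (by norm_num : (3 : ℤ) ≠ 0)) hfz) ?_⟩
    push_cast at ht
    rw [pow_succ] at ht
    linear_combination ht
  obtain ⟨hP₁E, hxP₁, hP₁v⟩ := t2 (2 * n) N u e lam hN hgood P₁ hTP₁ hTP₁'
  have hP₁L : P₁ ∉ N.lattice := fun h => hTP₁' (fun x _ => r1 x _ h)
  obtain ⟨hPE, -⟩ := Pool.Agent.MUXV.near G hP₀E hP₁E hP₁L
  rw [hsum] at hPE
  have hPL : z₁ ∉ N.lattice := fun h => hPE (Or.inl h)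
  have h2PE : ¬ InK V N (xu N u e) (2 * z₁) := by
    rw [Pool.Agent.MUXV.inK_congr G (w := 2 * P₀) (by
      have h11 : 2 * z₁ - 2 * P₀ = P₁ + P₁ := by rw [← hsum]; ring
      rw [h11]
      exact Pool.Agent.MUXV.inK_add G hP₁E hP₁E)]
    exact h2P₀E
  have hsub : z₁ - P₀ ∉ N.lattice := by rw [← hsum, add_sub_cancel_left]; exact hP₁L
  have hadd' : z₁ + P₀ ∉ N.lattice := by
    have h11 : z₁ + P₀ = ((1 + α * 3 ^ (n + 1) : ℤ) : ℂ) * z₁ := by
      rw [hP₀]; push_cast; ring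
    rw [h11, hzk]
    intro h12
    apply h3one
    have h13 : (3 : ℤ) ∣ ((3 ^ (n + 1) * f : ℕ) : ℤ) := by
      push_cast
      exact Dvd.dvd.mul_right (dvd_pow_self 3 (Nat.succ_ne_zero n)) _
    have h14 := h13.trans h12
    rwa [Int.dvd_add_left (Dvd.dvd.mul_left (dvd_pow_self 3 (Nat.succ_ne_zero n)) _)] at h14
  -- the fields
  have hfa2 : idl (A := A) (B := B) (f * a) ≤ idl 2 := by
    rw [Ideal.span_singleton_le_span_singleton]
    obtain ⟨f', hf'⟩ := h2f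
    refine ⟨((f' * a : ℕ) : OO A B), ?_⟩
    rw [hf']; push_cast; ring
  have huM : u ^ 2 ∈ RF (idl (A := A) (B := B) (f * a)) := c1 _ _ hfa2 huM'
  have heM : e ∈ RF (idl (A := A) (B := B) (f * a)) := c1 _ _ hfa2 heM'
  have hlv : lvR P (f * a) n ≤ idl (f * a) := Ideal.mul_le_left
  have hle := c1 _ _ hlv
  have hlvf : lvR P (f * a) n ≤ lvR P f n := by
    refine Ideal.mul_mono_left ?_
    rw [Ideal.span_singleton_le_span_singleton]
    exact ⟨((a : ℕ) : OO A B), by push_cast; ring⟩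
  have hP₀M : xn N P₀ ∈ RF (idl (A := A) (B := B) (f * a)) := by
    refine (c2 _ N hN).2 _ ((r5 ((f * a : ℕ) : OO A B) P₀).2 ?_) hP₀L
    have h11 : emb ((f * a : ℕ) : OO A B) * P₀ = emb ((a : ℕ) : OO A B) * (f * P₀) := by
      rw [hnat, hnat]; push_cast; ring
    rw [h11]
    exact r1 _ _ hfP₀
  have hPM : xn N z₁ ∈ RF (lvR P (f * a) n) :=
    (c2 _ N hN).2 _ (fun x hx => (hz₁ x).2 (hlvf hx)) hPL
  have hxx : ∀ z : ℂ, xu N u e z = (xn N z + ((1 / 12 : ℚ) : ℂ) - e) / u ^ 2 := by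
    intro z; unfold xu xn; push_cast; ring
  have hx0M : xu N u e P₀ ∈ RF (idl (A := A) (B := B) (f * a)) := by
    rw [hxx]
    exact div_mem (sub_mem (add_mem hP₀M (SubfieldClass.ratCast_mem _ _)) heM) huM
  have hxPM : xu N u e z₁ ∈ RF (lvR P (f * a) n) := by
    rw [hxx]
    exact div_mem (sub_mem (add_mem hPM (SubfieldClass.ratCast_mem _ _)) (hle heM)) (hle huM)
  obtain ⟨π, hπ⟩ : ∃ z, z = xu N u e z₁ - xu N u e P₀ := ⟨_, rfl⟩
  have hπM : π ∈ RF (lvR P (f * a) n) := by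
    rw [hπ]; exact sub_mem hxPM (hle hx0M)
  have hvπ : V.valuation π ^ (2 * 9 ^ n) = V.valuation (emb (dD A B)) := by
    have h11 := (Pool.Agent.MUXV.tq_YUN V (WL lam) N (xu N u e) (yu N u) ξ G P₀ hP₀E h2P₀E).2 P₁
      hP₁E hP₁L
    rw [hsum, ← hπ] at h11
    obtain ⟨-, h12, h13⟩ := Pool.Agent.MUXV.v_tX_lt G hP₁E hP₁L
    have h14 : V.valuation (su N u e P₁) = V.valuation (tX (xu N u e) (yu N u) P₁) ^ 2 := by
      unfold su
      rw [map_inv₀]
      exact inv_eq_of_mul_eq_one_right h13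
    rw [h14, ← pow_mul] at hP₁v
    have h15 : (V.valuation π ^ (2 * 9 ^ n)) ^ 2 = V.valuation (emb (dD A B)) ^ 2 := by
      rw [hC.vd, ← hP₁v, h11, ← pow_mul]
      congr 1
      rw [pow_mul 3 2 n]
      norm_num
      ring
    exact (pow_left_inj₀ zero_le zero_le (by norm_num)).1 h15
  have hvp : V.valuation (emb (dD A B)) < 1 := by
    by_contra h
    have h11 : (1 : V.ValueGroup) ≤ V.valuation (emb (dD A B)) ^ 2 := one_le_pow₀ (not_lt.1 h)
    rw [hC.vd] at h11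
    exact absurd hv3 (not_lt.2 h11)
  have hp0 : emb (dD A B) ≠ 0 := by
    intro h
    have h11 := hC.vd
    rw [h, map_zero] at h11
    have h12 : V.valuation (3 : ℂ) = 0 := by rw [← h11]; simp
    exact absurd ((Valuation.zero_iff _).1 h12) (by norm_num)
  have hbot : idl (A := A) (B := B) (f * a) ≠ ⊥ := by
    intro h
    rw [Ideal.span_singleton_eq_bot] at h
    apply hfa0
    have h' := hnat (f * a)
    rw [h, ← hφ, map_zero] at h'
    exact_mod_cast h'.symm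
  have := hG.fin _ hbot
  have := hG.fin _ a5'
  refine ⟨P₀, α * 3 ^ (n + 1), hP₀, hfP₀, hP₀L, h2P₀, hsub, hadd', hP₀E, h2P₀E, hPE, h2PE, hx0M,
    hπ ▸ hπM, hπ ▸ hvπ, ?_⟩
  intro w hw hvw
  rw [← hπ]
  exact Pool.Agent.NSE.te_BAS (kk A B) ℂ V.ValueGroup V.valuation
    (RF (idl (A := A) (B := B) (f * a))) (RF (lvR P (f * a) n))
    (2 * 9 ^ n) (emb (dD A B)) π hle (by positivity) (h9 A B P V hC hG n (f * a) hfa0 h3fa) hp0
    hvp (h8 A B P V hC hT (f * a) hfa0 h3fa) hπM hvπ w hw hvw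

end

end Pool.Agent.NSER


end

section

/-!
# MUX-NS, block EN: module THN, the functions `Θ_a(z + μ Y)` on the points of order three
-/

set_option autoImplicit false

open Polynomial

namespace Pool.Agent.NSER

open _root_.MU3 _root_.Pool.Agent.MU3A _root_.Pool.Agent.MU3B _root_.Pool.Agent.MUX _root_.Pool.Agent.MUXU _root_.Pool.Agent.MUXE
open _root_.Pool.Agent.RI _root_.Pool.Agent.NS _root_.Pool.Agent.NSRD
open _root_.Pool.Agent.NSE (E3 su ru WL IntP Rep)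
open _root_.Pool.Agent.MUXV (GR InK tX)

noncomputable section

/-- THN. -/
theorem tf_THN (h1 : Sf_ALG) (h2 : Sf_PRO) (h3 : Sf_PUL) (h4 : Sf_GRN) (h5 : Sf_ISO)
    (h6 : Sf_ADD) (h7 : Sf_PTS) : Sf_THN := by
  intro V L M u e lam u' e' lam' μ N hL hM v3 hμ hI hN hNz a H ha hH z hz haz hq
  obtain ⟨ξ, G⟩ := h4 V M u' e' lam' hM v3
  have P := (h7 V L u e lam hL v3).1
  obtain ⟨a1, -, -, a4, a5, a6, -, a8, -⟩ := h1 V (E3 L) (su L u e) (ru L u e) _ _ P
  obtain ⟨-, p2, -⟩ := h2 V (E3 L) (su L u e) (ru L u e) _ _ P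
  obtain ⟨i1, i2, i3⟩ := h5 V L M u e lam u' e' lam' μ N hL hM v3 hμ hI hN hNz
  have hu' : u' ≠ 0 := hM.u0
  have hu : u ≠ 0 := hL.u0
  have hx : ∀ w q, M.weierstrassP w - M.weierstrassP q =
      u' ^ 2 * (xu M u' e' w - xu M u' e' q) := by
    intro w q
    unfold xu
    field_simp
    ring
  have hcv : ∀ q : H, V.valuation (xu M u' e' z - xu M u' e' q) = 1 := fun q =>
    Pool.Agent.MUXV.v_X_sub G hz (hq q q.2).1 (hq q q.2).2.1 (hq q q.2).2.2
  have hc0 : ∀ q : H, xu M u' e' z - xu M u' e' q ≠ 0 := fun q h0 => by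
    have := hcv q
    rw [h0, map_zero] at this
    exact zero_ne_one this
  have hTh : ∀ w, ThetaH M H w =
      (u' ^ 2) ^ H.card * ∏ q : H, (xu M u' e' w - xu M u' e' q) := by
    intro w
    unfold ThetaH
    rw [← Finset.prod_coe_sort, ← Fintype.card_coe H, ← Finset.card_univ, ← Finset.prod_const,
      ← Finset.prod_mul_distrib]
    exact Finset.prod_congr rfl fun q _ => hx w q
  have hnat : ∀ w ∈ M.lattice, (a : ℂ) * w ∈ M.lattice := by
    intro w hw
    have := M.lattice.smul_mem (a : ℤ) hw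
    rwa [zsmul_eq_mul, Int.cast_natCast] at this
  have hdl : ∑ q : H, M.derivWeierstrassP z / (M.weierstrassP z - M.weierstrassP q) =
      dlX M a z := by
    have h8 := (b_TDL M (a : ℂ) H (Nat.cast_ne_zero.2 ha) hnat hH z haz).1
    unfold dlX
    rw [← Finset.sum_coe_sort] at h8
    have h9 : ((‖(a : ℂ)‖ ^ 2 : ℝ) : ℂ) = (a : ℂ) ^ 2 := by
      rw [Complex.norm_natCast]; push_cast; rfl
    rw [h9] at h8
    exact h8
  have r1 := h3 V (E3 L) (E3 M) (su L u e) (ru L u e) (su M u' e') (ru M u' e') _ _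
    (fun Y => μ * Y) (μ * u' / u) P i1 i2 i3 (fun Y => xu M u' e' (z + Y)) (xu M u' e' z)
    (2 * yu M u' z) (h6 V M u' e' lam' hM v3 z hz)
  have z0 : ∀ {x y : ℂ}, x = y → V.valuation (x - y) ≤ V.valuation (3 : ℂ) := by
    rintro x y rfl
    rw [sub_self, map_zero]
    exact zero_le
  have r2 : ∀ q : H, _root_.Pool.Agent.NSE.Rep V (E3 L) (su L u e) (ru L u e)
      (fun Y => xu M u' e' (z + μ * Y) - xu M u' e' q) (xu M u' e' z - xu M u' e' q)
      ((xu M u' e' z - xu M u' e' q) *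
        (2 * yu M u' z * (μ * u' / u) / (xu M u' e' z - xu M u' e' q))) := by
    intro q
    have s1 := a5 _ _ _ _ _ _ r1 (a1 (-xu M u' e' q)
      (by rw [Valuation.map_neg]; exact (Pool.Agent.MUXV.int_X (hq q q.2).1).2))
    refine a4 _ _ _ _ _ _ s1 (fun Y _ => sub_eq_add_neg _ _) (z0 (sub_eq_add_neg _ _)) (z0 ?_)
    rw [mul_div_cancel₀ _ (hc0 q), add_zero]
  obtain ⟨v1, r3⟩ := p2 H (fun q Y => xu M u' e' (z + μ * Y) - xu M u' e' q)
    (fun q => xu M u' e' z - xu M u' e' q)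
    (fun q => 2 * yu M u' z * (μ * u' / u) / (xu M u' e' z - xu M u' e' q)) (fun _ => 1) r2 hcv
  have hP0 : ∏ q : H, (xu M u' e' z - xu M u' e' q) ^ (1 : ℤ) ≠ 0 :=
    Finset.prod_ne_zero_iff.2 fun q _ => zpow_ne_zero _ (hc0 q)
  have r4 := a6 _ _ _ _ _ _ r3 (a1 (∏ q : H, (xu M u' e' z - xu M u' e' q) ^ (1 : ℤ))⁻¹
    (by rw [map_inv₀, v1, inv_one]))
  have r5 : _root_.Pool.Agent.NSE.Rep V (E3 L) (su L u e) (ru L u e)
      (fun Y => ThetaH M H (z + μ * Y) / ThetaH M H z) 1 (μ * dlX M a z / u) := by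
    refine a4 _ _ _ _ _ _ r4 (fun Y _ => ?_) (z0 (mul_inv_cancel₀ hP0).symm) (z0 ?_)
    · have hk : (u' ^ 2) ^ H.card ≠ 0 := pow_ne_zero _ (pow_ne_zero _ hu')
      change ThetaH M H (z + μ * Y) / ThetaH M H z =
        (∏ q : H, (xu M u' e' (z + μ * Y) - xu M u' e' q) ^ (1 : ℤ)) *
          (∏ q : H, (xu M u' e' z - xu M u' e' q) ^ (1 : ℤ))⁻¹
      rw [hTh, hTh, mul_div_mul_left _ _ hk, div_eq_mul_inv]
      simp only [zpow_one]
    · rw [mul_zero, zero_add, inv_mul_cancel_left₀ hP0, ← hdl, mul_div_right_comm,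
        Finset.mul_sum]
      refine Finset.sum_congr rfl fun q _ => ?_
      have := hc0 q
      rw [hx]
      unfold yu
      push_cast
      field_simp
  refine ⟨?_, (a8 _ _ _ r5).2.1, r5⟩
  rw [hTh, map_mul, map_pow, map_prod, Finset.prod_eq_one fun q _ => hcv q, mul_one]

end

end Pool.Agent.NSER


end

section

/-!
# MUX-NS, block ER, module RP1: the coordinates of the points of `E[P]` are in `RF (2)`
-/

set_option autoImplicit false

open Polynomial

namespace Pool.Agent.NSER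

open _root_.MU3 _root_.Pool.Agent.MU3A _root_.Pool.Agent.MU3B _root_.Pool.Agent.MUX _root_.Pool.Agent.MUXU _root_.Pool.Agent.MUXE
open _root_.Pool.Agent.RI _root_.Pool.Agent.NS _root_.Pool.Agent.NSRD
open _root_.Pool.Agent.MUXV (GR InK tX)
open _root_.Pool.Agent.NSE (E3 su ru WL IntP Rep)

noncomputable section

theorem tf_RP1 (h1 : Sf_LEG) : Sf_RP1 := by
  classical
  intro A B P V hC hG L u e lam hL hg
  have hR := hC.ring
  have hded := hR.ded
  obtain ⟨φ, hφ⟩ := hR.hom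
  obtain ⟨f1, hx, -, -, -⟩ := Pool.Agent.MUXE.te_FAC Pool.Agent.MUXE.te_TRA A B hR
  obtain ⟨-, -, -, -, hsp, -, -, -, hper⟩ := Pool.Agent.MUXE.te_TRA A B hR L hL
  -- the points of order two
  obtain ⟨w₁, w₂, a1, a1', a2, a2', he, hu, -⟩ := h1 V L u e lam hg hC.v3
  have e2 : emb ((2 : ℕ) : OO A B) = 2 := by rw [← hφ, map_natCast]; norm_num
  have m1 : xn L w₁ ∈ RF (idl (A := A) (B := B) 2) :=
    (hx _ L hL).2 w₁ ((hsp _ _).2 (by rw [e2]; exact a1)) a1'
  have m2 : xn L w₂ ∈ RF (idl (A := A) (B := B) 2) :=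
    (hx _ L hL).2 w₂ ((hsp _ _).2 (by rw [e2]; exact a2)) a2'
  have e3 : u ^ 2 = xn L w₂ - xn L w₁ := by
    rw [← hu, xn, xn]
    ring
  have hq : (1 / 12 : ℂ) ∈ RF (idl (A := A) (B := B) 2) := by
    have h2 : ((12 : ℕ) : ℂ) ∈ RF (idl (A := A) (B := B) 2) := natCast_mem _ 12
    have h3 := inv_mem h2
    have h4 : (1 / 12 : ℂ) = (((12 : ℕ) : ℂ))⁻¹ := by norm_num
    rw [h4]; exact h3
  have hu2 : u ^ 2 ∈ RF (idl (A := A) (B := B) 2) := by
    rw [e3]
    exact sub_mem m2 m1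
  have e4 : e = xn L w₁ + 1 / 12 := by
    rw [← he, xn]
    ring
  have he2 : e ∈ RF (idl (A := A) (B := B) 2) := by
    rw [e4]
    exact add_mem m1 hq
  refine ⟨hu2, he2, ?_⟩
  intro z hz hzL
  -- the fields
  set m' : Ideal (OO A B) := idl (A := A) (B := B) 2 with hm'
  set m : Ideal (OO A B) := m' * P with hm
  have hmm' : m ≤ m' := Ideal.mul_le_left
  have hmP : m ≤ P := Ideal.mul_le_right
  have hn0 : ∀ n : ℕ, n ≠ 0 → idl (A := A) (B := B) n ≠ ⊥ := by
    intro n hn h0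
    have h4 : ((n : ℕ) : OO A B) ∈ idl (A := A) (B := B) n := Ideal.mem_span_singleton_self _
    rw [h0, Ideal.mem_bot] at h4
    have h5 : φ ((n : ℕ) : OO A B) = ((n : ℕ) : ℂ) := map_natCast φ _
    rw [h4, map_zero] at h5
    exact hn (by exact_mod_cast h5.symm)
  have hP0 : P ≠ ⊥ := by
    intro h0
    apply hn0 3 (by norm_num)
    rw [← hC.sq, h0]
    simp
  have hm0 : m ≠ ⊥ := mul_ne_zero (hn0 2 (by norm_num)) hP0
  have hF : RF m' ≤ RF m := f1 m m' hmm'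
  have hfin := hG.fin m hm0
  have hgal := hG.gal m hm0
  have hzm : Tor m L z := fun x hxm => hz x (hmP hxm)
  have hxz : xn L z ∈ RF m := (hx m L hL).2 z hzm hzL
  set E : IntermediateField (kk A B) (RF m) := IntermediateField.restrict hF with hE
  have key : (⟨xn L z, hxz⟩ : RF m) ∈ E := by
    rw [← IsGalois.fixedField_fixingSubgroup E, IntermediateField.mem_fixedField_iff]
    intro σ hσ
    obtain ⟨α, hα1, hα2⟩ := hG.ker m m' hm0 hmm' (_root_.Pool.Agent.MU3A.em σ) (by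
      intro y hy hy'
      have h4 : (⟨y, hy⟩ : RF m) ∈ E := (IntermediateField.mem_restrict hF _).2 hy'
      have h5 := (IntermediateField.mem_fixingSubgroup_iff E _).1 hσ ⟨y, hy⟩ h4
      exact congrArg Subtype.val h5)
    have hαP : α ∉ P := by
      intro hα
      have h5 : sp α ≤ P := (Ideal.span_singleton_le_iff_mem P).2 hα
      have h7 : sp α ⊔ m = ⊤ := Ideal.isCoprime_iff_sup_eq.1 hα2.1
      have h8 : (⊤ : Ideal (OO A B)) ≤ P := h7 ▸ sup_le h5 hmP
      exact hC.max.ne_top (top_le_iff.1 h8)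
    obtain ⟨b1, b2⟩ := (hα2.2 L hL).2 z hzm hzL
    have b3 : _root_.Pool.Agent.MU3A.em σ ⟨xn L z, hxz⟩ = xn L (emb α * z) := b2 hxz
    have b4 : xn L (emb α * z) = xn L z := by
      rcases hC.pm α hαP with h | h
      · have h5 := hz _ h
        have h6 : emb (α - 1) * z = emb α * z - z := by
          rw [← hφ, map_sub, map_one, hφ]; ring
        rw [h6] at h5
        exact ((hper _ _ h5).2 b1).1
      · have h5 := hz _ h
        have h6 : emb (α + 1) * z = emb α * z - (-z) := by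
          rw [← hφ, map_add, map_one, hφ]; ring
        rw [h6] at h5
        rw [((hper _ _ h5).2 b1).1]
        exact ((hper z z (by simp)).2 hzL).2.2
    apply Subtype.ext
    show _root_.Pool.Agent.MU3A.em σ ⟨xn L z, hxz⟩ = xn L z
    rw [b3, b4]
  have hx2 : xn L z ∈ RF m' := (IntermediateField.mem_restrict hF _).1 key
  refine ⟨hx2, ?_⟩
  have e5 : xu L u e z = (xn L z + 1 / 12 - e) / u ^ 2 := by
    rw [xu, xn]
    ring
  rw [e5]
  exact div_mem (sub_mem (add_mem hx2 hq) he2) hu2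

end

end Pool.Agent.NSER


end

section

/-!
# MUX-NS, block ER, module PAR: the sums over the small group, on `N` (helper90)
-/

set_option autoImplicit false

open Polynomial

namespace Pool.Agent.NSER

open _root_.MU3 _root_.Pool.Agent.MU3A _root_.Pool.Agent.MU3B _root_.Pool.Agent.MUX _root_.Pool.Agent.MUXU _root_.Pool.Agent.MUXE
open _root_.Pool.Agent.RI _root_.Pool.Agent.NS _root_.Pool.Agent.NSRD
open _root_.Pool.Agent.MUXV (GR InK tX)
open _root_.Pool.Agent.NSE (E3 su ru WL IntP Rep)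

noncomputable section

namespace PAR

variable {A B : ℤ}

/-- the exponents -/
theorem expo {Γ : Type*} [LinearOrderedCommGroupWithZero Γ] (S p t : Γ) (n : ℕ) (hn : 1 ≤ n)
    (h1 : S ≤ p ^ (3 ^ (n - 1) * (9 * (3 ^ (n - 1) - 1)))) (h2 : p ^ (4 * 9 ^ n) = t) :
    S ^ (4 * 3 ^ n) ≤ t ^ (3 ^ n - 3) := by
  obtain ⟨m, rfl⟩ : ∃ m, n = m + 1 := ⟨n - 1, by omega⟩
  rw [Nat.add_sub_cancel] at h1
  obtain ⟨e, he⟩ : ∃ e, e + 1 = 3 ^ m := ⟨3 ^ m - 1, Nat.sub_add_cancel (Nat.one_le_pow _ _ (by norm_num))⟩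
  have h9 : 9 ^ m = (e + 1) ^ 2 := by
    rw [he, ← pow_mul, mul_comm m 2, pow_mul]; norm_num
  have h3 : 3 ^ (m + 1) - 3 = 3 * e := by
    rw [pow_succ, ← he]; omega
  rw [← he, Nat.add_sub_cancel] at h1
  rw [h3, ← h2, ← pow_mul]
  refine (pow_le_pow_left' h1 _).trans_eq ?_
  rw [← pow_mul]
  congr 1
  rw [pow_succ 9 m, h9, pow_succ 3 m, ← he]
  ring

/-- a point of `E[P^(2n)]` is in the kernel of reduction, and its parameter is smaller than a uniformiser -/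
theorem small (h1 : Sf_TPR) (hGRN : Sf_GRN) {P : Ideal (OO A B)} {V : ValuationSubring ℂ}
    (hC : CtxR A B P V) (hT : TorX A B) (hG : GalE A B) {N : PeriodPair} {u e lam : ℂ}
    (hN : NL A B N) (hgood : GoodR V N u e lam) (n : ℕ) (w : ℂ) (hw : Tor (P ^ (2 * n)) N w)
    (hwN : w ∉ N.lattice) (p : V.ValueGroup) (hp : p ^ (4 * 9 ^ n) = V.valuation (3 : ℂ)) :
    InK V N (xu N u e) w ∧ V.valuation (tX (xu N u e) (yu N u) w) < p := by
  classical
  obtain ⟨φ, hφ⟩ := hC.ring.hom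
  have hone : emb (1 : OO A B) = 1 := by rw [← hφ, map_one]
  have hex : ∃ i, Tor (P ^ i) N w := ⟨_, hw⟩
  obtain ⟨i, hi⟩ : ∃ i, i = Nat.find hex := ⟨_, rfl⟩
  have hi1 : Tor (P ^ i) N w := by rw [hi]; exact Nat.find_spec hex
  have hi2 : i ≤ 2 * n := by rw [hi]; exact Nat.find_min' hex hw
  have hi0 : i ≠ 0 := by
    rintro h
    rw [h, pow_zero, Ideal.one_eq_top] at hi1
    have := hi1 1 Submodule.mem_top
    rw [hone, one_mul] at this
    exact hwN this
  obtain ⟨j, rfl⟩ : ∃ j, i = j + 1 := ⟨i - 1, by omega⟩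
  have hj : ¬ Tor (P ^ j) N w := fun h => by
    have := Nat.find_min' hex h
    omega
  obtain ⟨hE, hx0, hv⟩ := h1 A B P V hC hT hG j N u e lam hN hgood w hi1 hj
  refine ⟨hE, ?_⟩
  obtain ⟨ξ, G⟩ := hGRN V N u e lam hgood hC.v3
  obtain ⟨t1, t2, t3⟩ := Pool.Agent.MUXV.v_tX_lt G hE hwN
  have h14 : V.valuation (su N u e w) = V.valuation (tX (xu N u e) (yu N u) w) ^ 2 := by
    unfold su
    rw [map_inv₀]
    exact inv_eq_of_mul_eq_one_right t3
  rw [h14, ← pow_mul, ← hp] at hv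
  by_contra hlt
  rw [not_lt] at hlt
  have h5 : V.valuation (tX (xu N u e) (yu N u) w) ^ (2 * (2 * 3 ^ j)) ≤
      V.valuation (tX (xu N u e) (yu N u) w) ^ (4 * 9 ^ n) := by
    rw [hv]; exact pow_le_pow_left' hlt _
  have h6 : (2 * (2 * 3 ^ j)) < 4 * 9 ^ n := by
    have : 3 ^ j < 3 ^ (2 * n) := Nat.pow_lt_pow_right (by norm_num) (by omega)
    have h9 : 9 ^ n = 3 ^ (2 * n) := by rw [pow_mul]; norm_num
    omega
  have h7 := pow_lt_pow_right_of_lt_one₀ (zero_lt_iff.2 t2) t1 h6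
  exact absurd h5 (not_le.2 h7)

/-- iterating a field automorphism -/
theorem iter {K : Type} [Field K] [Algebra K ℂ] {M : IntermediateField K ℂ} (σ : M ≃ₐ[K] M)
    (X : ℕ → ℂ) (hX : ∀ l, X l ∈ M) (h : ∀ l, (σ ⟨X l, hX l⟩ : ℂ) = X (l + 1)) (l : ℕ) :
    (σ ^ l) ⟨X 0, hX 0⟩ = ⟨X l, hX l⟩ := by
  induction l with
  | zero => rfl
  | succ l ih =>
    rw [pow_succ', AlgEquiv.mul_apply, ih]
    exact Subtype.ext (h l)

end PAR

open _root_.Pool.Agent.NSER.PAR in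
theorem tf_PAR (hCOE : Sf_COE) (hGRN : Sf_GRN) (hNE1 : Sf_NE1) (hTPR : Sf_TPR) (hUNI : Sf_UNI)
    (hTRV : Sf_TRV) (hBPW : Sf_BPW) (hDIF : Sf_DIF) (hXCJ : Sf_XCJ) (hIDL : Sf_IDL) :
    Sf_PAR := by
  intro A B P V hC hT hG N u e lam hN hgood n f a hn hf h2f h3f ha h3a haf H' hH' z₁ hz₁ b hb
  have hR := hC.ring
  obtain ⟨φ, hφ⟩ := hR.hom
  have hmul : ∀ x y : OO A B, emb (x * y) = emb x * emb y := fun x y => by
    rw [← hφ, map_mul, hφ, hφ]
  have hadd : ∀ x y : OO A B, emb (x + y) = emb x + emb y := fun x y => by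
    rw [← hφ, map_add, hφ, hφ]
  have hsub : ∀ x y : OO A B, emb (x - y) = emb x - emb y := fun x y => by
    rw [← hφ, map_sub, hφ, hφ]
  have hone : emb (1 : OO A B) = 1 := by rw [← hφ, map_one]
  have hnat : ∀ k : ℕ, emb ((k : ℕ) : OO A B) = k := fun k => by rw [← hφ, map_natCast]
  have hint : ∀ k : ℤ, emb ((k : ℤ) : OO A B) = k := fun k => by rw [← hφ, map_intCast]
  have hv3 := hC.v3
  have hf0 : f ≠ 0 := by omega
  have ha0 : a ≠ 0 := by omega
  have hfa0 : f * a ≠ 0 := Nat.mul_ne_zero hf0 ha0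
  obtain ⟨h3P, -, hpow, -, hidl⟩ := hIDL A B P V hC
  obtain ⟨m1, -, m3, -, -, m6, -⟩ := hidl f n hf0
  obtain ⟨k1, -, k3, -, k5, -, k7⟩ := hidl (f * a) n hfa0
  obtain ⟨o1, -, -, o4, -, -, -⟩ := hidl f 1 hf0
  have hlv : lvX 3 f n = 3 ^ (n + 1) * f := by
    simp [lvX, q0]; ring
  -- `b'`
  obtain ⟨α, β, hαβ⟩ : ∃ α β : ℤ, α * a + β * (3 ^ (n + 1) * f) = 1 := by
    have h1 : IsCoprime (a : ℤ) ((3 ^ (n + 1) * f : ℕ) : ℤ) := by
      rw [Nat.isCoprime_iff_coprime]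
      refine Nat.Coprime.mul_right (Nat.Coprime.pow_right _ ?_) haf
      exact ((Nat.Prime.coprime_iff_not_dvd (by norm_num)).2 h3a).symm
    obtain ⟨α, β, h⟩ := h1
    refine ⟨α, β, ?_⟩
    push_cast at h
    exact h
  have hαβ' : (α : OO A B) * (a : OO A B) + (β : OO A B) * (3 ^ (n + 1) * (f : OO A B)) = 1 := by
    have := congrArg (fun t : ℤ => (t : OO A B)) hαβ
    push_cast at this
    exact this
  obtain ⟨b', hb'⟩ : ∃ b' : OO A B, b' = b + (1 - b) * ((β : OO A B) *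
    (3 ^ (n + 1) * (f : OO A B))) := ⟨_, rfl⟩
  have hIB : IsB f n b' := by
    unfold IsB at hb ⊢
    have h1 : b' * (1 - ((3 * f : ℕ) : OO A B) * dD A B) - (1 + ((3 * f : ℕ) : OO A B) * dD A B) =
        (b * (1 - ((3 * f : ℕ) : OO A B) * dD A B) - (1 + ((3 * f : ℕ) : OO A B) * dD A B)) +
        ((1 - b) * (β : OO A B) * (1 - ((3 * f : ℕ) : OO A B) * dD A B)) *
          ((lvX 3 f n : ℕ) : OO A B) := by
      rw [hb', hlv]
      push_cast
      ring
    rw [h1]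
    exact add_mem hb (Ideal.mul_mem_left _ _ (Ideal.mem_span_singleton_self _))
  obtain ⟨-, -, -, -, hbf⟩ := hBPW A B P V hC f n b hf0 hb
  obtain ⟨hbc, hbl, -, -, hb'f⟩ := hBPW A B P V hC f n b' hf0 hIB
  have hb1 : b' - 1 ∈ idl (A := A) (B := B) (f * a) := by
    have h0 := hbf hn 1
    rw [pow_one] at h0
    have h1 := o4 h0
    obtain ⟨c, hc⟩ := Ideal.mem_span_singleton'.1 h1
    rw [Ideal.mem_span_singleton']
    refine ⟨3 * c * (α : OO A B), ?_⟩
    have h2 : b' - 1 = (b - 1) * ((α : OO A B) * (a : OO A B)) := by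
      rw [hb']
      linear_combination (b - 1) * (-hαβ')
    rw [h2, ← hc]
    push_cast
    ring
  have hcop : IsCoprime b' ((3 * (f * a) : ℕ) : OO A B) := by
    have h1 : IsCoprime b' ((3 * f : ℕ) : OO A B) := by
      have h2 : ((lvX 3 f n : ℕ) : OO A B) = ((3 * f : ℕ) : OO A B) * ((3 ^ n : ℕ) : OO A B) := by
        rw [hlv]; push_cast; ring
      rw [h2] at hbc
      exact hbc.of_mul_right_left
    have h2 : IsCoprime b' ((a : ℕ) : OO A B) := by
      obtain ⟨c, hc⟩ := Ideal.mem_span_singleton'.1 hb1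
      refine ⟨1, -(c * f), ?_⟩
      push_cast at hc
      linear_combination -hc
    have h3 : ((3 * (f * a) : ℕ) : OO A B) = ((3 * f : ℕ) : OO A B) * ((a : ℕ) : OO A B) := by
      push_cast; ring
    rw [h3]
    exact h1.mul_right h2
  obtain ⟨σ, hσ⟩ := hG.sur (lvR P (f * a) n) k5 b' (k7 b' hcop).1
  -- periodicity
  obtain ⟨-, -, -, v2, -, -, -, -, hper⟩ := hCOE V N u e lam hgood hv3
  have hxper : ∀ z : ℂ, ∀ w ∈ N.lattice, xu N u e (z + w) = xu N u e z := fun z w hw =>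
    ((hper z).1 w hw).1
  have hdper : ∀ z : ℂ, ∀ w ∈ N.lattice, dlX N a (z + w) = dlX N a z := by
    intro z w hw
    have haw : (a : ℂ) * w ∈ N.lattice := by
      have := N.lattice.smul_mem (a : ℤ) hw
      simpa [zsmul_eq_mul] using this
    obtain ⟨p1, -⟩ := b_PER N
    unfold dlX
    rw [mul_add, p1 _ _ haw, p1 _ _ hw]
  -- the points
  obtain ⟨zl, hzl⟩ : ∃ zl : ℕ → ℂ, ∀ l, zl l = emb (b' ^ l) * z₁ := ⟨_, fun _ => rfl⟩
  have hzl0 : zl 0 = z₁ := by rw [hzl, pow_zero, hone, one_mul]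
  have hzls : ∀ l, emb b' * zl l = zl (l + 1) := fun l => by
    rw [hzl, hzl, pow_succ', hmul, mul_assoc]
  have hMlv : ((lvX 3 f n : ℕ) : OO A B) ∈ lvR P f n := by
    rw [hlv]; exact m3 (Ideal.mem_span_singleton_self _)
  have hEx : ∀ l, Ex (lvR P f n) N (zl l) := by
    intro l x
    rw [hzl, ← mul_assoc, ← hmul, hz₁]
    constructor
    · intro h
      obtain ⟨s, t, hst⟩ := (hbc.pow_left (m := l))
      have h1 : x = s * (x * b' ^ l) + x * t * ((lvX 3 f n : ℕ) : OO A B) := by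
        linear_combination (-x) * hst
      rw [h1]
      exact add_mem (Ideal.mul_mem_left _ _ h) (Ideal.mul_mem_left _ _ hMlv)
    · intro h
      exact Ideal.mul_mem_right _ _ h
  have hTor : ∀ l, Tor (lvR P f n) N (zl l) := fun l x hx => (hEx l x).2 hx
  have hnatEx : ∀ (l c : ℕ), (c : ℂ) * zl l ∈ N.lattice → 3 ^ (n + 1) * f ∣ c := by
    intro l c hc
    rw [← hnat, hEx l] at hc
    exact (m6 c).1 hc
  have hcf : ∀ (l c : ℕ), (c : ℂ) * zl l ∈ N.lattice → f ∣ c := fun l c hc =>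
    (Dvd.intro_left _ rfl).trans (hnatEx l c hc)
  have hm0 : ∀ l, ((3 ^ (n + 1) * f : ℕ) : ℂ) * zl l ∈ N.lattice := by
    intro l
    rw [← hnat, hEx l]
    exact (m6 _).2 dvd_rfl
  have hne1 := fun l => hNE1 V N u e lam hgood hv3 (n + 1) f a (by omega) h3f h3a haf (zl l)
    (hm0 l) (hcf l)
  have hlvP : ∀ x ∈ lvR P f n, x ∈ P := by
    intro x hx
    obtain ⟨p, hp, rfl⟩ := (m1 x).1 hx
    exact Ideal.mul_mem_left _ _ hp
  have hlvP1 : ∀ x ∈ lvR P f 1, x ∈ P := by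
    intro x hx
    obtain ⟨p, hp, rfl⟩ := (o1 x).1 hx
    exact Ideal.mul_mem_left _ _ hp
  have h1P : (1 : OO A B) ∉ P := fun h => hC.max.ne_top ((Ideal.eq_top_iff_one _).2 h)
  -- the uniformiser
  obtain ⟨P₀, k, hP₀, hfP₀, hP₀L, h2P₀, -, -, hP₀E, h2P₀E, hz₁E, -, -, -, hvπ, hexp⟩ :=
    hUNI A B P V hC hT hG N u e lam hN hgood n f a hf h2f h3f ha0 h3a z₁ hz₁
  have hkP : ((k : ℤ) : OO A B) ∈ P := by
    have h1 : ((f : ℕ) : OO A B) * ((k : ℤ) : OO A B) ∈ lvR P f n := by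
      rw [← hz₁, hmul, hnat, hint, mul_assoc, ← hP₀]
      exact hfP₀
    obtain ⟨p, hp, hpe⟩ := (m1 _).1 h1
    have hfO : ((f : ℕ) : ℂ) ≠ 0 := by exact_mod_cast hf0
    have h2 : ((k : ℤ) : OO A B) - ((3 ^ n : ℕ) : OO A B) * p = 0 := by
      apply hR.inj0
      have h3 := congrArg (fun t : OO A B => emb t) hpe
      simp only [hmul, hnat, hint] at h3
      rw [hsub, hmul, hnat, hint]
      apply mul_left_cancel₀ hfO
      rw [mul_zero, mul_sub, h3]
      push_cast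
      ring
    rw [sub_eq_zero.1 h2]
    exact Ideal.mul_mem_left _ _ hp
  have hbP : ∀ l, b' ^ l - 1 ∈ P := fun l => hlvP1 _ (hb'f hn l)
  have hza : ∀ l, (a : ℂ) * zl l ∉ N.lattice := fun l => (hne1 l).2.1
  have hzm : ∀ l, zl l - P₀ ∉ N.lattice := by
    intro l h
    have h1 : b' ^ l - (k : OO A B) ∈ lvR P f n := by
      rw [← hz₁, hsub, hint, sub_mul, ← hP₀, ← hzl]
      exact h
    apply h1P
    have h2 : (1 : OO A B) = (b' ^ l - (k : OO A B)) - (b' ^ l - 1) + (k : OO A B) := by ring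
    rw [h2]
    exact add_mem (sub_mem (hlvP _ h1) (hbP l)) hkP
  have hzp : ∀ l, zl l + P₀ ∉ N.lattice := by
    intro l h
    have h1 : b' ^ l + (k : OO A B) ∈ lvR P f n := by
      rw [← hz₁, hadd, hint, add_mul, ← hP₀, ← hzl]
      exact h
    apply h1P
    have h2 : (1 : OO A B) = (b' ^ l + (k : OO A B)) - (b' ^ l - 1) - (k : OO A B) := by ring
    rw [h2]
    exact sub_mem (sub_mem (hlvP _ h1) (hbP l)) hkP
  -- the conjugates
  obtain ⟨X, hX⟩ : ∃ X : ℕ → ℂ, ∀ l, X l = yu N u (zl l) * yu N u P₀ *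
    ∑ q ∈ H', (xu N u e (zl l) - xu N u e q)⁻¹ := ⟨_, fun _ => rfl⟩
  obtain ⟨π, hπ⟩ : ∃ π : ℕ → ℂ, ∀ l, π l = xu N u e (zl l) - xu N u e P₀ := ⟨_, fun _ => rfl⟩
  have hxcj : ∀ l, ∃ (hXM : X l ∈ RF (lvR P (f * a) n)) (hπM : π l ∈ RF (lvR P (f * a) n)),
      yu N u P₀ ≠ 0 ∧ dlX N a (zl l) / u = 2 * X l / yu N u P₀ ∧
      (σ ⟨X l, hXM⟩ : ℂ) = X (l + 1) ∧ (σ ⟨π l, hπM⟩ : ℂ) = π (l + 1) := by
    intro l
    obtain ⟨Y, hYM, hxM, y0, hY, hd, hcj⟩ := hXCJ A B P V hC hG N u e lam hN hgood n f a hf h2f h3f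
      ha h3a haf H' hH' (zl l) P₀ (hTor l) hfP₀ hP₀L h2P₀ (hza l) (hzm l) (hzp l)
    have hYX : Y = X l := by rw [hY, hX]
    subst hYX
    have hxM' : π l ∈ RF (lvR P (f * a) n) := by rw [hπ]; exact hxM
    refine ⟨hYM, hxM', y0, hd, ?_, ?_⟩
    · rw [(hcj σ b' hσ hb1 hYM hxM).1, hX (l + 1), hzls]
    · have h1 := (hcj σ b' hσ hb1 hYM hxM).2
      rw [hzls] at h1
      rw [hπ (l + 1), ← h1]
      congr 2
      exact Subtype.ext (hπ l)
  choose hXM hπM y0 hdl hσX hσπ using hxcj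
  have hiX := iter σ X hXM hσX
  have hiπ := iter σ π hπM hσπ
  -- valuations
  obtain ⟨ξ, G⟩ := hGRN V N u e lam hgood hv3
  have hvπ0 : V.valuation (π 0) ^ (2 * 9 ^ n) = V.valuation (emb (dD A B)) := by
    rw [hπ, hzl0]; exact hvπ
  have hv4 : V.valuation (π 0) ^ (4 * 9 ^ n) = V.valuation (3 : ℂ) := by
    rw [← hC.vd, ← hvπ0, ← pow_mul]
    congr 1
    ring
  have h30 : V.valuation (3 : ℂ) ≠ 0 := by
    rw [Valuation.ne_zero_iff]; norm_num
  have hπ0 : π 0 ≠ 0 := by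
    intro h
    rw [h, map_zero, zero_pow (by positivity)] at hv4
    exact h30 hv4.symm
  have hπ1 : V.valuation (π 0) ≤ 1 := by
    by_contra h
    rw [not_le] at h
    have h1 := one_le_pow₀ (n := 4 * 9 ^ n) h.le
    rw [hv4] at h1
    exact absurd hv3 (not_lt.2 h1)
  have hπl : ∀ l, V.valuation (π l) = V.valuation (π 0) := by
    intro l
    by_cases hw : emb (b' ^ l - 1) * z₁ ∈ N.lattice
    · have h1 : zl l = z₁ + emb (b' ^ l - 1) * z₁ := by rw [hzl, hsub, hone]; ring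
      rw [hπ, hπ, hzl0, h1, hxper _ _ hw]
    · have h1 : zl l = z₁ + emb (b' ^ l - 1) * z₁ := by rw [hzl, hsub, hone]; ring
      have h2 : Tor (P ^ (2 * n)) N (emb (b' ^ l - 1) * z₁) := by
        intro x hx
        rw [hpow] at hx
        obtain ⟨c, rfl⟩ := Ideal.mem_span_singleton'.1 hx
        rw [← mul_assoc, ← hmul, hz₁]
        obtain ⟨p, hp, hpe⟩ := (o1 _).1 (hb'f hn l)
        refine (m1 _).2 ⟨c * 3 * p, Ideal.mul_mem_left _ _ hp, ?_⟩
        rw [hpe]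
        push_cast
        ring
      obtain ⟨h3, h4⟩ := small hTPR hGRN hC hT hG hN hgood n _ h2 hw _ hv4
      have h5 := (Pool.Agent.MUXV.near G hz₁E h3 hw).2.2.1
      have h6 : π l = π 0 + (xu N u e (z₁ + emb (b' ^ l - 1) * z₁) - xu N u e z₁) := by
        rw [hπ, hπ, hzl0, h1]; ring
      rw [h6]
      exact Valuation.map_add_eq_of_lt_left _ (h5.trans_lt h4)
  have hvX : V.valuation (X 0) ≤ 1 := by
    rw [hX, hzl0, map_mul, map_mul]
    refine mul_le_one' (mul_le_one' (Pool.Agent.MUXV.int_Y G hz₁E)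
      (Pool.Agent.MUXV.int_Y G hP₀E)) ?_
    refine Valuation.map_sum_le _ fun q hq => ?_
    obtain ⟨n1, -, n3⟩ := hne1 0
    rw [hzl0] at n3
    obtain ⟨q1, q2, q3⟩ := n3 q (hH'.mem q hq) (fun h => hH'.ne q hq (by
      rw [two_mul]; exact add_mem h h))
    rw [map_inv₀, Pool.Agent.MUXV.v_X_sub G hz₁E q1 q2 q3, inv_one]
  have hbe : b' ^ (3 ^ (n - 1)) - 1 ∈ lvR P f n := by
    obtain ⟨y, hy, -, hy2⟩ := hbl (3 ^ (n - 1)) (n - 1) dvd_rfl (fun h => by
      have := (Nat.pow_dvd_pow_iff_le_right (by norm_num : 1 < 3)).1 h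
      omega) (by omega)
    have h1 : n - 1 + 1 = n := by omega
    rw [h1] at hy2
    have h2 := m3 (by rw [← hlv]; exact hy2)
    have h3 : ((3 ^ n * f : ℕ) : OO A B) * y ∈ lvR P f n := (m1 _).2 ⟨y, hy, rfl⟩
    have h4 := add_mem h2 h3
    rwa [sub_add_cancel] at h4
  obtain ⟨c1, -, -, c4, -⟩ := Pool.Agent.MUXE.te_FAC Pool.Agent.MUXE.te_TRA A B hR
  have hlefa : lvR P (f * a) n ≤ idl (A := A) (B := B) (f * a) := Ideal.mul_le_left
  obtain ⟨D1, D2⟩ := hDIF A B P V hC hT hG N u e lam hN hgood n f hn hf h3f z₁ hz₁ b' hIB (π 0) hv4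
  have hmain := hTRV (kk A B) V (RF (idl (A := A) (B := B) (f * a))) (RF (lvR P (f * a) n)) σ
    (2 * 9 ^ n) (3 ^ (n - 1)) (9 * (3 ^ (n - 1) - 1)) ⟨π 0, hπM 0⟩ (by positivity)
    (fun y hy hy' => c4 _ _ hlefa (_root_.Pool.Agent.MU3A.em σ) _ hσ hb1 y hy hy')
    (c1 _ _ hlefa)
    (fun w hw hvw => by
      obtain ⟨c, hc1, hc2⟩ := hexp w hw hvw
      refine ⟨c, hc1, ?_⟩
      rw [hc2]
      show _ = ∑ i, (c i : ℂ) * (π 0) ^ (i : ℕ)
      rw [hπ, hzl0])
    (by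
      rw [hiπ]
      apply Subtype.ext
      show π (3 ^ (n - 1)) = π 0
      have h1 : zl (3 ^ (n - 1)) = z₁ + emb (b' ^ (3 ^ (n - 1)) - 1) * z₁ := by
        rw [hzl, hsub, hone]; ring
      rw [hπ, hπ, hzl0, h1, hxper _ _ ((hz₁ _).2 hbe)])
    hπ0 hπ1
    (fun l => by
      rw [hiπ]
      exact hπl l)
    (fun l hl hl' h => by
      rw [hiπ] at h
      have h1 : π l = π 0 := congrArg Subtype.val h
      rw [hπ, hπ, hzl0, sub_left_inj, hzl] at h1
      exact D1 l hl hl' h1)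
    (by
      refine le_of_eq ?_
      rw [← D2]
      congr 1
      refine Finset.prod_congr rfl fun l _ => ?_
      rw [hiπ]
      show π 0 - π l = _
      rw [hπ, hπ, hzl0, hzl]
      ring)
    ⟨X 0, hXM 0⟩ hvX
  -- the sum
  have hS : (∑ l ∈ Finset.range (3 ^ (n - 1)), dlX N a (emb (b ^ l) * z₁)) / u =
      2 / yu N u P₀ * ∑ l ∈ Finset.range (3 ^ (n - 1)),
        (((σ ^ l) ⟨X 0, hXM 0⟩ : RF (lvR P (f * a) n)) : ℂ) := by
    rw [Finset.sum_div, Finset.mul_sum]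
    refine Finset.sum_congr rfl fun l _ => ?_
    rw [hiX]
    show _ = 2 / yu N u P₀ * X l
    have h1 : b ^ l - b' ^ l ∈ lvR P f n := by
      have h2 : b - b' ∈ lvR P f n := by
        have h3 : b - b' = ((b - 1) * (β : OO A B)) * ((lvX 3 f n : ℕ) : OO A B) := by
          rw [hb', hlv]; push_cast; ring
        rw [h3]
        exact Ideal.mul_mem_left _ _ hMlv
      obtain ⟨c, hc⟩ := sub_dvd_pow_sub_pow b b' l
      rw [hc]
      exact Ideal.mul_mem_right _ _ h2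
    have h4 : emb (b ^ l) * z₁ = zl l + emb (b ^ l - b' ^ l) * z₁ := by
      rw [hzl, hsub]; ring
    rw [h4, hdper _ _ ((hz₁ _).2 h1), hdl l]
    ring
  have hvy : V.valuation (yu N u P₀) = 1 :=
    (Pool.Agent.MUXV.tq_YUN V (WL lam) N (xu N u e) (yu N u) ξ G P₀ hP₀E h2P₀E).1
  have hSv : V.valuation ((∑ l ∈ Finset.range (3 ^ (n - 1)), dlX N a (emb (b ^ l) * z₁)) / u) ≤
      V.valuation (π 0) ^ (3 ^ (n - 1) * (9 * (3 ^ (n - 1) - 1))) := by
    rw [hS, map_mul, map_div₀, hvy, v2, div_one, one_mul]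
    exact hmain
  exact expo _ _ _ n hn hSv hv4

end

end Pool.Agent.NSER


end

section

/-!
# MUX-NS, block ER, module GRN: the Legendre model has good reduction (helper2)

The proof of the group law is that of `Pool/Agent/MUX/R_XIC.lean`, in the scaled coordinates.
-/

set_option autoImplicit false

open Polynomial

namespace Pool.Agent.NSER

open _root_.MU3 _root_.Pool.Agent.MU3A _root_.Pool.Agent.MU3B _root_.Pool.Agent.MUX _root_.Pool.Agent.MUXU _root_.Pool.Agent.MUXE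
open _root_.Pool.Agent.RI _root_.Pool.Agent.NS _root_.Pool.Agent.NSRD
open _root_.Pool.Agent.NSE (E3 su ru WL IntP Rep)
open _root_.Pool.Agent.MUXV (GR InK tX)

noncomputable section

namespace GRN

open WeierstrassCurve.Affine

theorem some_eq {W : WeierstrassCurve.Affine ℂ} {x y x' y' : ℂ} (h : W.Nonsingular x y)
    (h' : W.Nonsingular x' y') (hx : x = x') (hy : y = y') :
    Point.some x y h = Point.some x' y' h' := by
  subst hx hy
  rfl

/-- the group homomorphism in the coordinates `v² (℘ - c)`, `v³ ℘'/2` -/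
theorem xi (L : PeriodPair) (c v : ℂ) (hv : v ≠ 0) (W : WeierstrassCurve.Affine ℂ)
    (w1 : W.a₁ = 0) (w2 : W.a₂ = 3 * c * v ^ 2) (w3 : W.a₃ = 0)
    (w4 : W.a₄ = (3 * c ^ 2 - L.g₂ / 4) * v ^ 4)
    (w6 : W.a₆ = (c ^ 3 - L.g₂ / 4 * c - L.g₃ / 4) * v ^ 6) :
    ∃ ξ : ℂ →+ W.Point, (∀ z ∈ L.lattice, ξ z = 0) ∧
      ∀ z, z ∉ L.lattice → ∃ h, ξ z = .some ((L.weierstrassP z - c) * v ^ 2)
        (L.derivWeierstrassP z / 2 * v ^ 3) h := by
  classical
  set P : ℂ → ℂ := L.weierstrassP with hP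
  set D : ℂ → ℂ := L.derivWeierstrassP with hD
  -- the facts
  have hsq : ∀ z, z ∉ L.lattice → D z ^ 2 = 4 * P z ^ 3 - L.g₂ * P z - L.g₃ :=
    fun z hz => L.derivWeierstrassP_sq z hz
  have hpar : ∀ z, P (-z) = P z ∧ D (-z) = -D z := fun z =>
    ⟨L.weierstrassP_neg z, L.derivWeierstrassP_neg z⟩
  have hper : ∀ z, ∀ u ∈ L.lattice, P (z + u) = P z ∧ D (z + u) = D z := by
    intro z u hu
    exact ⟨L.weierstrassP_add_coe z ⟨u, hu⟩, L.derivWeierstrassP_add_coe z ⟨u, hu⟩⟩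
  have hinj : ∀ z z', z ∉ L.lattice → z' ∉ L.lattice → P z = P z' →
      z - z' ∈ L.lattice ∨ z + z' ∈ L.lattice := fun z z' hz hz' hx =>
    b_NEQ L z' z hz' hz hx
  have hy0 : ∀ z, z ∉ L.lattice → (D z = 0 ↔ 2 * z ∈ L.lattice) := fun z hz => b_ZER L z hz
  have hadd := b_ADD L
  have hdbl := b_DUP L
  have hv2 : v ^ 2 ≠ 0 := pow_ne_zero 2 hv
  have hv3 : v ^ 3 ≠ 0 := pow_ne_zero 3 hv
  have ns : ∀ z, z ∉ L.lattice → W.Nonsingular ((P z - c) * v ^ 2) (D z / 2 * v ^ 3) := by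
    intro z hz
    rw [WeierstrassCurve.Affine.nonsingular_iff', WeierstrassCurve.Affine.equation_iff, w1, w2, w3,
      w4, w6]
    refine ⟨by linear_combination (v ^ 6 / 4) * hsq z hz, ?_⟩
    by_contra hcon
    rw [not_or, not_not, not_not] at hcon
    obtain ⟨hx, hy⟩ := hcon
    have h1 := hsq z hz
    have h2 : D z = 0 := by
      apply mul_left_cancel₀ hv3
      linear_combination hy
    rw [h2] at h1
    have e2 : L.g₂ = 12 * P z ^ 2 := by
      apply mul_left_cancel₀ (pow_ne_zero 4 hv)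
      linear_combination 4 * hx
    have e3 : L.g₃ = -8 * P z ^ 3 := by
      linear_combination h1 - P z * e2
    apply (b_DSC L).1
    rw [e2, e3]
    ring
  set f : ℂ → W.Point := fun z => if h : z ∈ L.lattice then 0 else Point.some _ _ (ns z h) with hf
  have hf0 : ∀ z, z ∈ L.lattice → f z = 0 := fun z hz => dif_pos hz
  have hf1 : ∀ z (hz : z ∉ L.lattice), f z = Point.some _ _ (ns z hz) := fun z hz => dif_neg hz
  have hfper : ∀ z, ∀ u ∈ L.lattice, f (z + u) = f z := by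
    intro z u hu
    by_cases hz : z ∈ L.lattice
    · rw [hf0 z hz, hf0 _ (add_mem hz hu)]
    · have hzu : z + u ∉ L.lattice := fun h => hz (by
        have := sub_mem h hu
        rwa [add_sub_cancel_right] at this)
      rw [hf1 z hz, hf1 _ hzu]
      exact some_eq _ _ (by rw [(hper z u hu).1]) (by rw [(hper z u hu).2])
  have hnegY : ∀ x y : ℂ, W.negY x y = -y := by
    intro x y
    rw [WeierstrassCurve.Affine.negY, w1, w3]
    ring
  have hmap : ∀ z z', f (z + z') = f z + f z' := by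
    intro z z'
    by_cases hz : z ∈ L.lattice
    · rw [hf0 z hz, zero_add, add_comm z z', hfper z' z hz]
    by_cases hz' : z' ∈ L.lattice
    · rw [hf0 z' hz', add_zero, hfper z z' hz']
    by_cases hzz : z + z' ∈ L.lattice
    · rw [hf0 _ hzz, hf1 z hz, hf1 z' hz']
      have e : z = -z' + (z + z') := by ring
      have hx : P z = P z' := by
        rw [e, (hper (-z') _ hzz).1, (hpar z').1]
      have hy : D z = -D z' := by
        rw [e, (hper (-z') _ hzz).2, (hpar z').2]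
      exact (Point.add_of_Y_eq (by rw [hx]) (by rw [hnegY, hy]; ring)).symm
    by_cases hzd : z - z' ∈ L.lattice
    · have e1 : f z' = f z := by
        have := hfper z' _ hzd
        rw [← this]
        congr 1
        ring
      have e2 : f (z + z') = f (2 * z) := by
        have := hfper (z + z') _ hzd
        rw [← this]
        congr 1
        ring
      have h2z : 2 * z ∉ L.lattice := by
        intro h
        apply hzz
        have := sub_mem h hzd
        have e : z + z' = 2 * z - (z - z') := by ring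
        rwa [e]
      have hy : D z ≠ 0 := fun h => h2z ((hy0 z hz).1 h)
      have hyne : D z / 2 * v ^ 3 ≠ W.negY ((P z - c) * v ^ 2) (D z / 2 * v ^ 3) := by
        rw [hnegY]
        intro h0
        apply hy
        apply mul_left_cancel₀ hv3
        linear_combination h0
      rw [e1, e2, hf1 z hz, hf1 _ h2z, Point.add_self_of_Y_ne hyne]
      have hsl : W.slope ((P z - c) * v ^ 2) ((P z - c) * v ^ 2) (D z / 2 * v ^ 3)
          (D z / 2 * v ^ 3) = (6 * P z ^ 2 - L.g₂ / 2) / (2 * D z) * v := by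
        rw [WeierstrassCurve.Affine.slope_of_Y_ne rfl hyne, hnegY, w1, w2, w4]
        have h3 : D z / 2 * v ^ 3 - -(D z / 2 * v ^ 3) = D z * v ^ 3 := by ring
        rw [h3]
        field_simp
        ring
      obtain ⟨hd1, hd2⟩ := hdbl z h2z
      have hX : W.addX ((P z - c) * v ^ 2) ((P z - c) * v ^ 2)
          (W.slope ((P z - c) * v ^ 2) ((P z - c) * v ^ 2) (D z / 2 * v ^ 3)
          (D z / 2 * v ^ 3)) = (P (2 * z) - c) * v ^ 2 := by
        rw [WeierstrassCurve.Affine.addX, hsl, w1, w2]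
        linear_combination -(v ^ 2) * hd1
      apply some_eq
      · exact hX.symm
      · rw [WeierstrassCurve.Affine.addY, WeierstrassCurve.Affine.negAddY, hnegY, hX, hsl]
        linear_combination (v ^ 3 / 2) * hd2
    · have hxne : P z ≠ P z' := by
        intro h
        rcases hinj z z' hz hz' h with h3 | h3
        · exact hzd h3
        · exact hzz h3
      have hxne' : (P z - c) * v ^ 2 ≠ (P z' - c) * v ^ 2 := fun h => hxne (by
        have := mul_right_cancel₀ hv2 h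
        linear_combination this)
      rw [hf1 z hz, hf1 z' hz', hf1 _ hzz, Point.add_of_X_ne hxne']
      have hsl : W.slope ((P z - c) * v ^ 2) ((P z' - c) * v ^ 2) (D z / 2 * v ^ 3)
          (D z' / 2 * v ^ 3) = (D z - D z') / (2 * (P z - P z')) * v := by
        rw [WeierstrassCurve.Affine.slope_of_X_ne hxne']
        have h3 : P z - P z' ≠ 0 := sub_ne_zero.2 hxne
        have h4 : (P z - c) * v ^ 2 - (P z' - c) * v ^ 2 = (P z - P z') * v ^ 2 := by ring
        rw [h4]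
        field_simp
      obtain ⟨ha1, ha2⟩ := hadd z' z hz' hz hzz hzd
      have hX : W.addX ((P z - c) * v ^ 2) ((P z' - c) * v ^ 2)
          (W.slope ((P z - c) * v ^ 2) ((P z' - c) * v ^ 2) (D z / 2 * v ^ 3)
          (D z' / 2 * v ^ 3)) = (P (z + z') - c) * v ^ 2 := by
        rw [WeierstrassCurve.Affine.addX, hsl, w1, w2]
        linear_combination -(v ^ 2) * ha1
      apply some_eq
      · exact hX.symm
      · rw [WeierstrassCurve.Affine.addY, WeierstrassCurve.Affine.negAddY, hnegY, hX, hsl]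
        linear_combination (v ^ 3 / 2) * ha2
  exact ⟨⟨⟨f, hf0 0 L.lattice.zero_mem⟩, hmap⟩, fun z hz => hf0 z hz,
    fun z hz => ⟨ns z hz, hf1 z hz⟩⟩

end GRN

/-- (GRN) the Legendre model has good reduction -/
theorem tf_GRN (h : Sf_COE) : Sf_GRN := by
  intro V L u e lam hG h3
  obtain ⟨e1, e2, e3, v2, vl, vl1, -, -, -⟩ := h V L u e lam hG h3
  have hu := hG.u0
  have c1 : (WL lam).a₁ = 0 := rfl
  have c2 : (WL lam).a₂ = -(1 + lam) := rfl
  have c3 : (WL lam).a₃ = 0 := rfl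
  have c4 : (WL lam).a₄ = lam := rfl
  have c6 : (WL lam).a₆ = 0 := rfl
  have hui : u⁻¹ ≠ 0 := inv_ne_zero hu
  have huu : u * u⁻¹ = 1 := mul_inv_cancel₀ hu
  obtain ⟨ξ, h0, h1⟩ := GRN.xi L e u⁻¹ hui (WL lam) c1
    (by
      rw [c2]
      field_simp
      linear_combination -e1)
    c3
    (by
      rw [c4, e2]
      field_simp
      ring)
    (by
      rw [c6, e3]
      ring)
  have v2' : V.valuation (2 : ℂ) = 1 := v2
  refine ⟨ξ, ⟨rfl, rfl, ?_, ?_, ?_⟩, v2', ?_, fun z hz => ?_, h0⟩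
  · rw [c2, Valuation.map_neg]
    refine (V.valuation.map_add _ _).trans ?_
    rw [map_one, vl, max_self]
  · rw [c4, vl]
  · rw [c6, map_zero]; exact zero_le_one
  · have hD : (WL lam).Δ = 2 * 2 * 2 * 2 * (lam * lam) * ((1 - lam) * (1 - lam)) := by
      unfold WeierstrassCurve.Δ WeierstrassCurve.b₂ WeierstrassCurve.b₄ WeierstrassCurve.b₆
        WeierstrassCurve.b₈
      rw [c1, c2, c3, c4, c6]
      ring
    rw [hD]
    simp only [map_mul, v2', vl, vl1, mul_one]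
  · obtain ⟨hn, hx⟩ := h1 z hz
    have g1 : (L.weierstrassP z - e) * u⁻¹ ^ 2 = xu L u e z := by
      unfold xu
      field_simp
    have g2 : L.derivWeierstrassP z / 2 * u⁻¹ ^ 3 = yu L u z := by
      unfold yu
      field_simp
    have hn' : (WL lam).Nonsingular (xu L u e z) (yu L u z) := by
      rw [← g1, ← g2]; exact hn
    exact ⟨hn', hx.trans (GRN.some_eq _ _ g1 g2)⟩

end

end Pool.Agent.NSER


end

section

/-!
# MUX-NS, block ER, module FIN: the final form (helper86)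
-/

set_option autoImplicit false

namespace Pool.Agent.NSER

open _root_.MU3 _root_.Pool.Agent.MU3A _root_.Pool.Agent.MU3B _root_.Pool.Agent.MUX _root_.Pool.Agent.MUXU _root_.Pool.Agent.MUXE
open _root_.Pool.Agent.RI _root_.Pool.Agent.NS _root_.Pool.Agent.NSRD

theorem tf_FIN (h1 : Sf_CTX) (h2 : Sf_RED) : Sf_FIN := by
  intro hR A B P V f hS hT ι _ R u e lam hG n hn H hH D h hD hb
  have hC := h1 A B P V hS.case hS.hP hS.hV hT hR
  have hE := Pool.Agent.MUXE.te_GAL A B hC.ring hT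
  have hf2 : 2 ∣ f := by
    have h3 : (2 : ℤ) ∣ 3 * (f : ℤ) := (Dvd.intro _ rfl : (2 : ℤ) ∣ 2 * absD A B).trans hS.fD
    omega
  have hf3 : 3 ≤ f := by
    have h3 : 2 * absD A B ≤ 3 * (f : ℤ) :=
      Int.le_of_dvd (by have := Nat.pos_of_ne_zero hS.f0; omega) hS.fD
    have h4 : 6 ≤ absD A B := by
      have hneg := hS.case.neg
      have h3' := hS.case.three
      have hexc := hS.case.exc
      unfold absD
      rcases hS.case.hB with hB | hB
      · subst hB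
        norm_num at hneg h3' ⊢
        omega
      · subst hB
        norm_num at hneg h3' hexc ⊢
        omega
    omega
  exact h2 A B P V hC hT hE n f hn hf3 hf2 hS.fp ι R u e lam hG H hH D h hD hb

end Pool.Agent.NSER


end
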