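import Mathlib
import Pool.Agent.MVF.C027
import Pool.Agent.MVF.C113
import Pool.Agent.MVF.C150
import Pool.Agent.MVF.C151
import Pool.Agent.MVF.C156
import Pool.Agent.MVF.C161
import Pool.Agent.MVF.C163
import Pool.Agent.MVF.C171
import Pool.Agent.MVF.C172
import Pool.Agent.MVF.C173

/-! Parts: NS.F_RPV, NS.F_PRO, NS.F_NE1, NS.F_INN, NS.F_ADD, NS.RN_RFINR, NS.FAll -/

namespace Pool.Agent.NSER.AddE
end Pool.Agent.NSER.AddE
namespace Pool.Agent.NSER.INN
end Pool.Agent.NSER.INN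
namespace Pool.Agent.NSER.NE1
end Pool.Agent.NSER.NE1

section

/-!
# MUX-NS, block ER, module RPV (helper89): the values of the points of `E[P]`
-/

set_option autoImplicit false

open Polynomial

namespace Pool.Agent.NSER

open _root_.MU3 _root_.Pool.Agent.MU3A _root_.Pool.Agent.MU3B _root_.Pool.Agent.MUX _root_.Pool.Agent.MUXU _root_.Pool.Agent.MUXE
open _root_.Pool.Agent.RI _root_.Pool.Agent.NS _root_.Pool.Agent.NSRD
open _root_.Pool.Agent.MUXV (GR InK tX)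
open _root_.Pool.Agent.NSE (E3 su ru WL IntP Rep)

noncomputable section

theorem rpv_emb_three {A B : ℤ} (h : RingE A B) : emb (3 : OO A B) = (3 : ℂ) := by
  obtain ⟨φ, hφ⟩ := h.hom
  rw [← hφ, map_ofNat]

/-- the estimate: `v(s) = ρ^n`, `ρ² = v 3`, and the equation of `s` force `n ≤ 1` -/
theorem rpv_core (V : ValuationSubring ℂ) (s lam : ℂ) (ρ : V.ValueGroup) (n : ℕ)
    (h3 : V.valuation (3 : ℂ) < 1) (hρ : ρ ^ 2 = V.valuation (3 : ℂ))
    (h2 : V.valuation (2 : ℂ) = 1) (hl : V.valuation lam = 1)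
    (h1l : V.valuation (1 + lam) ^ 2 ≤ V.valuation (3 : ℂ))
    (hs : V.valuation s = ρ ^ n) (hn : 2 ≤ n)
    (he : lam ^ 2 * s ^ 4 = 3 - 4 * (1 + lam) * s + 6 * lam * s ^ 2) : False := by
  have v3 : V.valuation (3 : ℂ) ≠ 0 := (Valuation.ne_zero_iff _).mpr (by norm_num)
  have r0 : ρ ≠ 0 := by
    rintro rfl
    exact v3 (by rw [← hρ]; simp)
  have rp : 0 < ρ := zero_lt_iff.mpr r0
  have r1 : ρ < 1 := by
    by_contra hc
    have hc' : 1 ≤ ρ := not_lt.mp hc
    have : (1 : V.ValueGroup) ≤ ρ ^ 2 := one_le_pow₀ hc'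
    rw [hρ] at this
    exact absurd h3 (not_lt.mpr this)
  have lt : ∀ {a b : ℕ}, a < b → ρ ^ b < ρ ^ a := fun h => pow_lt_pow_right_of_lt_one₀ rp r1 h
  have l1 : V.valuation (1 + lam) ≤ ρ := by
    rw [← hρ] at h1l
    exact (pow_le_pow_iff_left₀ zero_le zero_le two_ne_zero).mp h1l
  have v4 : V.valuation (4 : ℂ) = 1 := by
    have : (4 : ℂ) = 2 * 2 := by norm_num
    rw [this, map_mul, h2, one_mul]
  have v6 : V.valuation (6 : ℂ) = ρ ^ 2 := by
    have : (6 : ℂ) = 2 * 3 := by norm_num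
    rw [this, map_mul, h2, one_mul, hρ]
  have b1 : V.valuation (4 * (1 + lam) * s) < V.valuation (3 : ℂ) := by
    rw [map_mul, map_mul, v4, one_mul, hs, ← hρ]
    calc V.valuation (1 + lam) * ρ ^ n ≤ ρ * ρ ^ n := mul_le_mul_left l1 _
      _ = ρ ^ (n + 1) := by rw [pow_succ']
      _ < ρ ^ 2 := lt (by omega)
  have b2 : V.valuation (6 * lam * s ^ 2) < V.valuation (3 : ℂ) := by
    rw [map_mul, map_mul, v6, hl, mul_one, map_pow, hs, ← hρ, ← pow_mul, ← pow_add]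
    exact lt (by omega)
  have b3 : V.valuation (3 - 4 * (1 + lam) * s + 6 * lam * s ^ 2) = V.valuation (3 : ℂ) := by
    have e1 : (3 : ℂ) - 4 * (1 + lam) * s + 6 * lam * s ^ 2 =
        3 + (6 * lam * s ^ 2 - 4 * (1 + lam) * s) := by ring
    rw [e1]
    exact Valuation.map_add_eq_of_lt_left _
      (lt_of_le_of_lt (Valuation.map_sub _ _ _) (max_lt b2 b1))
  have b4 : V.valuation (lam ^ 2 * s ^ 4) = ρ ^ (n * 4) := by
    rw [map_mul, map_pow, hl, one_pow, one_mul, map_pow, hs, ← pow_mul]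
  rw [he, b3, ← hρ] at b4
  exact absurd b4 (ne_of_gt (lt (by omega)))

theorem tf_RPV (hCOE : Sf_COE) (hTW3 : Sf_TW3) (hUNR : Sf_UNR) (hRP1 : Sf_RP1) : Sf_RPV := by
  intro A B P V c tx ge L u e lam nl g z ht hz
  have h3P : (3 : OO A B) ∈ P := by
    have h1 : (3 : OO A B) ∈ idl (A := A) (B := B) 3 := by
      have : (3 : OO A B) = ((3 : ℕ) : OO A B) := by norm_num
      rw [this]
      exact Ideal.mem_span_singleton_self _
    rw [← c.sq] at h1
    exact Ideal.mul_le_left h1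
  have hE : z ∈ E3 L := by
    refine ⟨?_, hz⟩
    have := ht 3 h3P
    rwa [rpv_emb_three c.ring] at this
  obtain ⟨-, -, -, h2, hl, -, -, -, -⟩ := hCOE V L u e lam g c.v3
  obtain ⟨hk, hx0, hs1, heq⟩ := hTW3 V L u e lam g c.v3 z hE
  obtain ⟨-, -, hmem⟩ := hRP1 A B P V c ge L u e lam nl g
  have hxR := (hmem z ht hz).2
  obtain ⟨k, hkv⟩ := hUNR A B P V c tx 2 two_ne_zero (by norm_num) _ hxR hx0
  refine ⟨hk, hx0, ?_⟩
  set ρ : V.ValueGroup := V.valuation (emb (dD A B)) with hρd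
  have hρ : ρ ^ 2 = V.valuation (3 : ℂ) := c.vd
  have v3 : V.valuation (3 : ℂ) ≠ 0 := (Valuation.ne_zero_iff _).mpr (by norm_num)
  have r0 : ρ ≠ 0 := by
    intro h0
    exact v3 (by rw [← hρ, h0]; simp)
  have rp : 0 < ρ := zero_lt_iff.mpr r0
  have r1 : ρ < 1 := by
    by_contra hc
    have hc' : 1 ≤ ρ := not_lt.mp hc
    have : (1 : V.ValueGroup) ≤ ρ ^ 2 := one_le_pow₀ hc'
    rw [hρ] at this
    exact absurd c.v3 (not_lt.mpr this)
  have hsv : V.valuation (su L u e z) = ρ ^ (-k) := by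
    unfold su
    rw [map_inv₀, hkv, zpow_neg]
  rcases le_or_gt (-k) 0 with hk0 | hk0
  · exfalso
    obtain ⟨m, hm⟩ := Int.eq_ofNat_of_zero_le (a := k) (by omega)
    have h1 : (1 : V.ValueGroup) ≤ ρ ^ (-k) := by
      rw [hm, zpow_neg, zpow_natCast]
      exact (one_le_inv₀ (pow_pos rp m)).mpr (pow_le_one₀ zero_le r1.le)
    rw [hsv] at hs1
    exact absurd hs1 (not_lt.mpr h1)
  · obtain ⟨n, hn⟩ := Int.eq_ofNat_of_zero_le hk0.le
    rw [hn, zpow_natCast] at hsv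
    have hn1 : 1 ≤ n := by
      have : (0 : ℤ) < n := hn ▸ hk0
      omega
    rcases Nat.lt_or_ge n 2 with h | h
    · have : n = 1 := by omega
      rw [hsv, this, pow_one, hρ]
    · exact absurd (rpv_core V (su L u e z) lam ρ n c.v3 hρ h2 hl g.lam1 hsv h heq) id

end

end Pool.Agent.NSER


end

section

/-!
# MUX-NS, block EN: module PRO, polynomials, products, quotients and cubes
-/

set_option autoImplicit false

open Polynomial

namespace Pool.Agent.NSER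

open _root_.MU3 _root_.Pool.Agent.MU3A _root_.Pool.Agent.MU3B _root_.Pool.Agent.MUX _root_.Pool.Agent.MUXU _root_.Pool.Agent.MUXE
open _root_.Pool.Agent.RI _root_.Pool.Agent.NS _root_.Pool.Agent.NSRD
open _root_.Pool.Agent.NSE (E3 su ru WL IntP Rep)
open _root_.Pool.Agent.MUXV (GR InK tX)

noncomputable section

namespace PRO

variable {V : ValuationSubring ℂ} {S : Set ℂ} {s r : ℂ → ℂ} {a2 a4 : ℂ}

/-- change of the form of the numbers -/
lemma cong (h : Sf_ALG) (hp : PtsR V S s r a2 a4) {F : ℂ → ℂ} {α β : ℂ} (hF : _root_.Pool.Agent.NSE.Rep V S s r F α β)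
    {G : ℂ → ℂ} {α' β' : ℂ} (hG : ∀ Y, G Y = F Y) (hα : α' = α) (hβ : β' = β) :
    _root_.Pool.Agent.NSE.Rep V S s r G α' β' := by
  obtain ⟨-, -, -, h4, -⟩ := h V S s r a2 a4 hp
  refine h4 F G α β α' β' hF (fun Y _ => hG Y) ?_ ?_
  · rw [hα, sub_self, map_zero]
    exact zero_le'
  · rw [hβ, sub_self, map_zero]
    exact zero_le'

lemma poly (h : Sf_ALG) (hp : PtsR V S s r a2 a4) (F : ℂ → ℂ) (α β : ℂ)
    (hF : _root_.Pool.Agent.NSE.Rep V S s r F α β) (P : ℂ[X]) : IntP V P →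
      _root_.Pool.Agent.NSE.Rep V S s r (fun Y => P.eval (F Y)) (P.eval α) (β * (derivative P).eval α) := by
  obtain ⟨h1, -, -, -, h5, h6, -⟩ := h V S s r a2 a4 hp
  induction P using Polynomial.recOnHorner with
  | M0 =>
    intro _
    refine cong h hp (h1 0 (by rw [map_zero]; exact zero_le')) ?_ ?_ ?_
    · intro Y; simp
    · simp
    · simp
  | MC P a h0 _ ih =>
    intro hI
    have hP : IntP V P := by
      intro i
      cases i with
      | zero => rw [h0, map_zero]; exact zero_le'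
      | succ i =>
        have := hI (i + 1)
        rwa [coeff_add, coeff_C_succ, add_zero] at this
    have ha : V.valuation a ≤ 1 := by
      have := hI 0
      rwa [coeff_add, coeff_C_zero, h0, zero_add] at this
    refine cong h hp (h5 _ _ _ _ _ _ (ih hP) (h1 a ha)) ?_ ?_ ?_
    · intro Y; simp
    · simp
    · simp
  | MX P _ ih =>
    intro hI
    have hP : IntP V P := by
      intro i
      have := hI (i + 1)
      rwa [coeff_mul_X] at this
    refine cong h hp (h6 _ _ _ _ _ _ (ih hP) hF) ?_ ?_ ?_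
    · intro Y; simp
    · simp
    · simp only [derivative_mul, derivative_X, mul_one, eval_add, eval_mul, eval_X]
      ring

lemma pow (h : Sf_ALG) (hp : PtsR V S s r a2 a4) (F : ℂ → ℂ) (c l : ℂ)
    (hF : _root_.Pool.Agent.NSE.Rep V S s r F c (c * l)) (n : ℕ) :
      _root_.Pool.Agent.NSE.Rep V S s r (fun Y => F Y ^ n) (c ^ n) (c ^ n * (n * l)) := by
  obtain ⟨h1, -, -, -, h5, h6, -⟩ := h V S s r a2 a4 hp
  induction n with
  | zero =>
    refine cong h hp (h1 1 (by rw [map_one])) ?_ ?_ ?_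
    · intro Y; simp
    · simp
    · simp
  | succ n ih =>
    refine cong h hp (h6 _ _ _ _ _ _ ih hF) ?_ ?_ ?_
    · intro Y; exact pow_succ _ _
    · exact pow_succ _ _
    · push_cast
      ring

lemma zpow (h : Sf_ALG) (hp : PtsR V S s r a2 a4) (F : ℂ → ℂ) (c l : ℂ)
    (hF : _root_.Pool.Agent.NSE.Rep V S s r F c (c * l)) (hc : V.valuation c = 1) (g : ℤ) :
      _root_.Pool.Agent.NSE.Rep V S s r (fun Y => F Y ^ g) (c ^ g) (c ^ g * (g * l)) := by
  obtain ⟨-, -, -, -, -, -, h7, -⟩ := h V S s r a2 a4 hp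
  have hc0 : c ≠ 0 := by
    rintro rfl
    rw [map_zero] at hc
    exact zero_ne_one hc
  obtain ⟨n, rfl | rfl⟩ := g.eq_nat_or_neg
  · refine cong h hp (pow h hp F c l hF n) ?_ ?_ ?_
    · intro Y; exact zpow_natCast _ _
    · exact zpow_natCast _ _
    · rw [zpow_natCast]
      push_cast
      ring
  · have h8 := (h7 _ _ _ (pow h hp F c l hF n) (by rw [map_pow, hc, one_pow])).2
    refine cong h hp h8 ?_ ?_ ?_
    · intro Y
      rw [zpow_neg, zpow_natCast]
    · rw [zpow_neg, zpow_natCast]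
    · rw [zpow_neg, zpow_natCast]
      have hcn : c ^ n ≠ 0 := pow_ne_zero _ hc0
      push_cast
      field_simp

lemma prod (h : Sf_ALG) (hp : PtsR V S s r a2 a4) {J : Type} (T : Finset J) (F : J → ℂ → ℂ)
    (c l : J → ℂ) (g : J → ℤ) (hF : ∀ j, _root_.Pool.Agent.NSE.Rep V S s r (F j) (c j) (c j * l j))
    (hc : ∀ j, V.valuation (c j) = 1) :
      _root_.Pool.Agent.NSE.Rep V S s r (fun Y => ∏ j ∈ T, F j Y ^ g j) (∏ j ∈ T, c j ^ g j)
        ((∏ j ∈ T, c j ^ g j) * ∑ j ∈ T, (g j : ℂ) * l j) := by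
  classical
  obtain ⟨h1, -, -, -, h5, h6, -⟩ := h V S s r a2 a4 hp
  induction T using Finset.induction_on with
  | empty =>
    refine cong h hp (h1 1 (by rw [map_one])) ?_ ?_ ?_
    · intro Y; simp
    · simp
    · simp
  | insert a T ha ih =>
    refine cong h hp (h6 _ _ _ _ _ _ (zpow h hp (F a) (c a) (l a) (hF a) (hc a) (g a)) ih)
      ?_ ?_ ?_
    · intro Y; exact Finset.prod_insert ha
    · exact Finset.prod_insert ha
    · rw [Finset.prod_insert ha, Finset.sum_insert ha]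
      ring

end PRO

theorem tf_PRO (h : Sf_ALG) : Sf_PRO := by
  intro V S s r a2 a4 hp
  refine ⟨fun F α β P hF hP => PRO.poly h hp F α β hF P hP, ?_, ?_⟩
  · intro J _ F c l g hF hc
    refine ⟨?_, PRO.prod h hp Finset.univ F c l g hF hc⟩
    rw [map_prod]
    refine Finset.prod_eq_one fun i _ => ?_
    rw [map_zpow₀, hc i, one_zpow]
  · intro F G α β α' β' hG hFG hF
    obtain ⟨-, -, -, h4, -, h6, -, h8, h9⟩ := h V S s r a2 a4 hp
    have h10 := h6 _ _ _ _ _ _ (h6 _ _ _ _ _ _ hG hG) hG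
    have h11 : _root_.Pool.Agent.NSE.Rep V S s r F (α * α * α) (3 * (α ^ 2 * β)) := by
      refine h4 _ F _ _ _ _ h10 (fun Y hY => ?_) ?_ ?_
      · rw [hFG Y hY]
        ring
      · rw [sub_self, map_zero]
        exact zero_le'
      · have e : 3 * (α ^ 2 * β) - (α * α * β + α * (α * β + α * β)) = 0 := by ring
        rw [e, map_zero]
        exact zero_le'
    have h12 := (h9 _ _ _ _ _ hF h11).2
    obtain ⟨hα, hβ, -⟩ := h8 _ _ _ hG
    have h13 : V.valuation (3 * (α ^ 2 * β)) ≤ V.valuation 3 := by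
      rw [map_mul, map_mul, map_pow]
      exact mul_le_of_le_one_right' (mul_le_one' (pow_le_one' hα 2) hβ)
    have e : β' = (β' - 3 * (α ^ 2 * β)) + 3 * (α ^ 2 * β) := by ring
    rw [e]
    exact V.valuation.map_add_le h12 h13

end

end Pool.Agent.NSER


end

section

/-!
# MUX-NS, block ER, module NE1: the points that occur are not in the kernel of reduction (helper5, after E_NE1.lean of helper39)
-/

set_option autoImplicit false

namespace Pool.Agent.NSER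

open _root_.MU3 _root_.Pool.Agent.MU3A _root_.Pool.Agent.MU3B _root_.Pool.Agent.MUX _root_.Pool.Agent.MUXU _root_.Pool.Agent.MUXE
open _root_.Pool.Agent.RI _root_.Pool.Agent.NS _root_.Pool.Agent.NSRD
open _root_.Pool.Agent.MUXV (GR InK tX)

noncomputable section

namespace NE1

lemma _root_.Pool.Agent.NSER.NE1.nat_mul_mem {L : PeriodPair} (c : ℕ) {w : ℂ} (hw : w ∈ L.lattice) :
    (c : ℂ) * w ∈ L.lattice := by
  have h := L.lattice.smul_mem (c : ℤ) hw
  simpa using h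

end NE1

open _root_.Pool.Agent.NSER.NE1 in
/-- NE1. -/
theorem tf_NE1 (h1 : Sf_TNC) (h2 : Sf_GRN) : Sf_NE1 := by
  intro V L u e lam hg h3 j f a hf hpf hpa hco z hz hord
  obtain ⟨ξ, hG⟩ := h2 V L u e lam hg h3
  have htor := h1 V L u e lam hg h3
  have hp : Nat.Prime 3 := Nat.prime_three
  have hno : ∀ k : ℕ, k ≤ j → ((a * 3 ^ k : ℕ) : ℂ) * z ∉ L.lattice := by
    intro k hk hmem
    have h4 : f ∣ a * 3 ^ k := hord _ hmem
    have h5 : f.Coprime (3 ^ k) :=
      Nat.Coprime.pow_right k ((Nat.Prime.coprime_iff_not_dvd hp).2 hpf).symm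
    have h6 : f ∣ a := h5.dvd_of_dvd_mul_right h4
    have h7 : f = 1 := Nat.Coprime.eq_one_of_dvd hco.symm h6
    omega
  have hfa : ¬ 3 ∣ f * a := by
    rw [hp.dvd_mul]
    rintro (h | h)
    · exact hpf h
    · exact hpa h
  have key : ∀ q : ℂ, (a : ℂ) * q ∈ L.lattice → ¬ InK V L (xu L u e) (z + q) := by
    intro q hq hE
    have hE' := Pool.Agent.MUXV.inK_nat hG hE (3 ^ j)
    have hmem : ((f * a : ℕ) : ℂ) * (((3 ^ j : ℕ) : ℂ) * (z + q)) ∈ L.lattice := by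
      have h3 := add_mem (_root_.Pool.Agent.NSER.NE1.nat_mul_mem a hz) (_root_.Pool.Agent.NSER.NE1.nat_mul_mem (3 ^ j * f) hq)
      have h4 : ((f * a : ℕ) : ℂ) * (((3 ^ j : ℕ) : ℂ) * (z + q)) =
          (a : ℂ) * (((3 ^ j * f : ℕ) : ℂ) * z) + ((3 ^ j * f : ℕ) : ℂ) * ((a : ℂ) * q) := by
        push_cast
        ring
      rw [h4]
      exact h3
    have hz' := (htor _ hfa).2 _ hmem hE'
    have h5 := sub_mem (_root_.Pool.Agent.NSER.NE1.nat_mul_mem a hz') (_root_.Pool.Agent.NSER.NE1.nat_mul_mem (3 ^ j) hq)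
    refine hno j le_rfl ?_
    have h6 : ((a * 3 ^ j : ℕ) : ℂ) * z =
        (a : ℂ) * (((3 ^ j : ℕ) : ℂ) * (z + q)) - ((3 ^ j : ℕ) : ℂ) * ((a : ℂ) * q) := by
      push_cast
      ring
    rw [h6]
    exact h5
  refine ⟨?_, ?_, ?_⟩
  · have h3 := key 0 (by rw [mul_zero]; exact zero_mem _)
    rwa [add_zero] at h3
  · have h3 := hno 0 (Nat.zero_le _)
    rwa [pow_zero, mul_one] at h3
  · intro q hq hqL
    refine ⟨?_, key q hq, ?_⟩
    · intro hE
      exact hqL ((htor a hpa).2 _ hq hE)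
    · rw [sub_eq_add_neg]
      refine key (-q) ?_
      rw [mul_neg]
      exact neg_mem hq

end

end Pool.Agent.NSER


end

section

/-!
# MUX-NS, block ER, module INN: integrality and the sums over `E[P]` (helper44)
-/

set_option autoImplicit false

open Polynomial

namespace Pool.Agent.NSER

open _root_.MU3 _root_.Pool.Agent.MU3A _root_.Pool.Agent.MU3B _root_.Pool.Agent.MUX _root_.Pool.Agent.MUXU _root_.Pool.Agent.MUXE
open _root_.Pool.Agent.RI _root_.Pool.Agent.NS _root_.Pool.Agent.NSRD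
open _root_.Pool.Agent.MUXV (GR InK tX)
open _root_.Pool.Agent.NSE (E3 su ru WL IntP Rep)

noncomputable section

namespace INN

/-- `|H|` is divisible by `3` -/
lemma card3 {L : PeriodPair} {a : ℕ} {H : Finset ℂ} (ha : a ≠ 0) (h3 : ¬ 3 ∣ a)
    (hH : IsHalf L (a : ℂ) H) : 3 ∣ H.card := by
  obtain ⟨-, -, h⟩ := b_HRE L a H (by exact_mod_cast ha) (fun w hw => by
    have := nsmul_mem hw a
    rwa [nsmul_eq_mul] at this) hH
  have h1 : 2 * H.card + 1 = a ^ 2 := by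
    rw [Complex.norm_natCast] at h
    exact_mod_cast h
  have h2 : a ^ 2 % 3 = 1 := by
    rw [Nat.pow_mod]
    have h4 : a % 3 = 1 ∨ a % 3 = 2 := by omega
    rcases h4 with h4 | h4 <;> rw [h4]
  omega

/-- the theta product and the logarithmic derivative at one point -/
lemma core (hTHN : Sf_THN) (hNE1 : Sf_NE1) {V : ValuationSubring ℂ} {L M : PeriodPair}
    {u e lam u' e' lam' mu : ℂ} {N : ℕ} (hg : GoodR V L u e lam) (hg' : GoodR V M u' e' lam')
    (hv3 : V.valuation (3 : ℂ) < 1) (hmu : mu ≠ 0) (hI : Isg L M mu) (hN : ¬ 3 ∣ N)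
    (hk : ∀ z, mu * z ∈ M.lattice → (N : ℂ) * z ∈ L.lattice) {j f a : ℕ} (hf2 : 2 ≤ f)
    (hf : ¬ 3 ∣ f) (ha0 : a ≠ 0) (ha : ¬ 3 ∣ a) (hco : a.Coprime f) {H : Finset ℂ}
    (hH : IsHalf M (a : ℂ) H) {z : ℂ} (hm : ((3 ^ j * f : ℕ) : ℂ) * z ∈ M.lattice)
    (ho : ∀ c : ℕ, (c : ℂ) * z ∈ M.lattice → f ∣ c) :
    V.valuation (ThetaH M H z) = V.valuation (u' ^ 2) ^ H.card ∧
      V.valuation (mu * dlX M a z / u) ≤ 1 := by
  obtain ⟨hzK, hza, hzq⟩ := hNE1 V M u' e' lam' hg' hv3 j f a hf2 hf ha hco z hm ho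
  obtain ⟨k1, k2, -⟩ := hTHN V L M u e lam u' e' lam' mu N hg hg' hv3 hmu hI hN hk a H ha0 hH z
    hzK hza (fun q hq => hzq q (hH.mem q hq) (fun hqL => hH.ne q hq (by
      rw [two_mul]; exact add_mem hqL hqL)))
  exact ⟨k1, k2⟩

/-- a natural number in the ideal `(f)` is divisible by `f` -/
lemma dvd_of_idl {A B : ℤ} {f c : ℕ} (h : (c : OO A B) ∈ idl (A := A) (B := B) f) : f ∣ c := by
  obtain ⟨y, hy⟩ := Ideal.mem_span_singleton.1 h
  have h6 : (c : ℤ) = (f : ℤ) * y.re := by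
    have := congrArg QuadraticAlgebra.re hy
    rw [QuadraticAlgebra.re_natCast, QuadraticAlgebra.re_mul, QuadraticAlgebra.re_natCast,
      QuadraticAlgebra.im_natCast] at this
    linarith
  exact_mod_cast (Dvd.intro _ h6.symm : (f : ℤ) ∣ c)

end INN

open _root_.Pool.Agent.NSER.INN in
theorem tf_INN (hTHN : Sf_THN) (hNE1 : Sf_NE1) (hEXO : Sf_EXO) (hMUL : Sf_MUL) (hPIS : Sf_PIS)
    (hDIS : Sf_DIS) (hUNR : Sf_UNR) (hRP1 : Sf_RP1) : Sf_INN := by
  intro A B P V hC hT hG n f a hf3 hf2 hf ha3 hao hpa hco ι R u e lam hgood H hH i x hx q hq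
  have ha0 : a ≠ 0 := by omega
  have hf0 : f ≠ 0 := by omega
  have hv3 := hC.v3
  have hring := hC.ring
  obtain ⟨φ, hφ⟩ := hring.hom
  have emul : ∀ x y : OO A B, emb (x * y) = emb x * emb y := fun x y => by
    rw [← hφ, map_mul, hφ, hφ]
  have enat : ∀ n : ℕ, emb ((n : ℕ) : OO A B) = n := fun n => by rw [← hφ, map_natCast]
  have h3P : (3 : OO A B) ∈ P := by
    have h1 : (3 : OO A B) ∈ P * P := by
      rw [hC.sq]
      exact Ideal.mem_span_singleton.2 ⟨1, by push_cast; ring⟩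
    exact Ideal.mul_le_left h1
  have hxP : x ∉ P := by
    intro h
    apply hC.max.ne_top
    rw [Ideal.eq_top_iff_one]
    obtain ⟨b1, b2, hb⟩ := hx
    rw [← hb]
    refine add_mem (Ideal.mul_mem_left _ _ h) (Ideal.mul_mem_left _ _ ?_)
    have h2 : ((3 ^ (n + 1) * f : ℕ) : OO A B) = ((3 ^ n * f : ℕ) : OO A B) * 3 := by
      push_cast
      ring
    rw [h2]
    exact Ideal.mul_mem_left _ _ h3P
  have vx : V.valuation (emb x) = 1 := hC.unit x hxP
  obtain ⟨⟨hmu, hisg, N, hN3, hN⟩, hsec⟩ := hMUL A B P V hC (3 * f) ι R (by omega)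
    (dvd_mul_right _ _) i x hxP
  obtain ⟨hEx, hExN, hzl, -⟩ := hEXO A B P V hC n f ι R hf0 i x hx
  have hLi : NL A B (R.L i) := ⟨_, _, R.nl i⟩
  have hL0 : NL A B (R.L R.i0) := ⟨_, _, R.nl R.i0⟩
  obtain ⟨u', e', lam', hg'⟩ := hC.good (R.L i) hLi
  refine ⟨fun l => ?_, fun hqL => ?_⟩
  · obtain ⟨hm', ho'⟩ := hzl q hq l
    obtain ⟨k1, k2⟩ := core hTHN hNE1 hgood hg' hv3 hmu hisg hN3 hN (by omega) hf ha0 hpa hco
      (hH i) hm' ho'
    refine ⟨?_, ?_⟩
    · obtain ⟨k, hk⟩ := hUNR A B P V hC hT 2 (by norm_num) (by norm_num) _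
        (hRP1 A B P V hC hG (R.L i) u' e' lam' hLi hg').1
        (pow_ne_zero 2 hg'.u0)
      obtain ⟨t, ht⟩ := card3 ha0 hpa (hH i)
      refine ⟨k * t, ?_⟩
      rw [k1, hk, ht, ← zpow_natCast, ← zpow_mul]
      congr 1
      push_cast
      ring
    · have e1 : muX R i * emb x * dlX (R.L i) a (pt R (3 ^ (n + 1) * f) i x + l * q) / u =
          emb x * (muX R i * dlX (R.L i) a (pt R (3 ^ (n + 1) * f) i x + l * q) / u) := by ring
      rwa [e1, map_mul, vx, one_mul] at k2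
  · obtain ⟨N1, nu, hNL1, hQ⟩ := hC.exq (R.L i) hLi
    obtain ⟨N0, nu0, hNL0, hQ0⟩ := hC.exq (R.L R.i0) hL0
    obtain ⟨u1, e1, lam1, hg1⟩ := hC.good N1 hNL1
    obtain ⟨u0, e0, lam0, hg0⟩ := hC.good N0 hNL0
    obtain ⟨H', hH'⟩ := b_HAL N1 (a : ℂ) (by exact_mod_cast ha0) (fun w hw => by
      have := nsmul_mem hw a
      rwa [nsmul_eq_mul] at this) (fun z h1 h2 => by
        obtain ⟨k, hk⟩ := hao
        have h3 := nsmul_mem h2 k
        rw [nsmul_eq_mul] at h3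
        have h4 : z = (a : ℂ) * z - (k : ℂ) * (2 * z) := by
          rw [hk]
          push_cast
          ring
        rw [h4]
        exact sub_mem h1 h3)
    obtain ⟨hmu', hisg', N', hN3', hN'⟩ := hsec N0 N1 nu0 nu hQ0 hQ
    have hExN1 := hExN N1 nu hQ
    have hle : lvR P f n ≤ idl (A := A) (B := B) f := Ideal.mul_le_left
    have ho1 : ∀ c : ℕ, (c : ℂ) * (nu * pt R (3 ^ (n + 1) * f) i x) ∈ N1.lattice → f ∣ c := by
      intro c hc
      have hc' : (c : OO A B) ∈ lvR P f n := by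
        refine (hExN1 _).1 ?_
        rw [enat]
        exact hc
      exact dvd_of_idl (hle hc')
    have hm1 : ((3 ^ (n + 1) * f : ℕ) : ℂ) * (nu * pt R (3 ^ (n + 1) * f) i x) ∈ N1.lattice := by
      have e2 : ((3 ^ (n + 1) * f : ℕ) : ℂ) * (nu * pt R (3 ^ (n + 1) * f) i x) =
          nu * (((3 ^ (n + 1) * f : ℕ) : ℂ) * pt R (3 ^ (n + 1) * f) i x) := by ring
      rw [e2, hQ.2]
      intro p _
      have e3 : emb p * (((3 ^ (n + 1) * f : ℕ) : ℂ) * pt R (3 ^ (n + 1) * f) i x) =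
          emb (((3 ^ (n + 1) * f : ℕ) : OO A B) * p) * pt R (3 ^ (n + 1) * f) i x := by
        rw [emul, enat]
        ring
      rw [e3, hEx]
      exact Ideal.mem_span_singleton.2 ⟨p, rfl⟩
    obtain ⟨-, k2⟩ := core hTHN hNE1 hg0 hg1 hv3 hmu' hisg' hN3' hN' (by omega) hf ha0 hpa hco
      hH' hm1 ho1
    obtain ⟨C, -, hdis⟩ := hDIS A B P V hC (R.L i) N1 nu hLi hNL1 hQ a (H i) H' ha0 hpa (hH i)
      hH' q hq hqL
    have hsum := (hdis (pt R (3 ^ (n + 1) * f) i x) (fun h => by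
      have h7 := ho1 a h
      have h8 : Nat.gcd a f = f := Nat.gcd_eq_right h7
      rw [hco.gcd_eq_one] at h8
      omega)).2
    have hpis := hPIS A B P V hC hT hG (R.L R.i0) N0 nu0 u e lam u0 e0 lam0 hL0 hNL0 hQ0 hgood
      hg0
    have e4 : emb x * (muX R i * (∑ l ∈ Finset.range 3,
        dlX (R.L i) a (pt R (3 ^ (n + 1) * f) i x + l * q)) / u) =
        (muX R i * emb x * nu / nu0 * dlX N1 a (nu * pt R (3 ^ (n + 1) * f) i x) / u0) *
          (nu0 * u0 / u) := by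
      rw [hsum]
      have h9 := hQ0.1
      have h10 := hg0.u0
      have h11 := hgood.u0
      field_simp
    have e5 := congrArg V.valuation e4
    rw [map_mul, vx, one_mul, map_mul] at e5
    rw [e5, mul_pow, hpis]
    exact mul_le_of_le_one_left' (pow_le_one' k2 2)

end

end Pool.Agent.NSER


end

section

/-!
# MUX-NS, block ER, module ADD: addition of a point of order three (helper42)
-/

set_option autoImplicit false

open Polynomial

namespace Pool.Agent.NSER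

open _root_.MU3 _root_.Pool.Agent.MU3A _root_.Pool.Agent.MU3B _root_.Pool.Agent.MUX _root_.Pool.Agent.MUXU _root_.Pool.Agent.MUXE
open _root_.Pool.Agent.RI _root_.Pool.Agent.NS _root_.Pool.Agent.NSRD
open _root_.Pool.Agent.NSE (E3 su ru WL IntP Rep)
open _root_.Pool.Agent.MUXV (GR InK tX)

noncomputable section

namespace AddE

lemma intP_quad {V : ValuationSubring ℂ} {a b c : ℂ} (ha : V.valuation a ≤ 1)
    (hb : V.valuation b ≤ 1) (hc : V.valuation c ≤ 1) : IntP V (C a + C b * X + C c * X ^ 2) := by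
  intro i
  rcases i with _ | _ | _ | i
  · simpa using ha
  · simpa [coeff_X, coeff_C] using hb
  · simpa [coeff_X, coeff_C] using hc
  · simp

/-- a function `A(s) + r c` with `A` of degree at most two -/
lemma _root_.Pool.Agent.NSER.AddE.rep_quad {V : ValuationSubring ℂ} {S : Set ℂ} {s r F : ℂ → ℂ} {a b c d : ℂ}
    (ha : V.valuation a ≤ 1) (hb : V.valuation b ≤ 1) (hc : V.valuation c ≤ 1)
    (hd : V.valuation d ≤ 1)
    (hF : ∀ Y ∈ S, F Y = a + b * s Y + c * s Y ^ 2 + r Y * d) : _root_.Pool.Agent.NSE.Rep V S s r F a d := by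
  refine ⟨C a + C b * X + C c * X ^ 2, C d, intP_quad ha hb hc, ?_, ?_, ?_, ?_⟩
  · intro i
    rw [coeff_C]
    split_ifs
    · exact hd
    · simp
  · intro Y hY
    rw [hF Y hY]
    simp
  · simp
  · simp

end AddE

open _root_.Pool.Agent.NSER.AddE

/-- the module ADD -/
theorem tf_ADD (h1 : Sf_ALG) (h2 : Sf_COE) (h3 : Sf_GRN) (h4 : Sf_TW3) (h5 : Sf_PTS) :
    Sf_ADD := by
  intro V L u e lam hG h30 z hz
  obtain ⟨ξ, G⟩ := h3 V L u e lam hG h30
  obtain ⟨c1, -, -, c2, c3, -, c4, -, -⟩ := h2 V L u e lam hG h30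
  obtain ⟨hP, -⟩ := h5 V L u e lam hG h30
  obtain ⟨-, -, -, a4, -, a6, a7, -, -⟩ := h1 V (E3 L) (su L u e) (ru L u e) _ _ hP
  obtain ⟨hzL, hx⟩ := Pool.Agent.MUXV.int_X hz
  have hy := Pool.Agent.MUXV.int_Y G hz
  have hu := hG.u0
  have hl : V.valuation lam ≤ 1 := c3.le
  have ha2 : V.valuation (-(1 + lam)) ≤ 1 := by
    rw [Valuation.map_neg]
    by_contra hcon
    exact absurd (lt_of_le_of_lt hG.lam1 h30) (not_lt.2 (one_le_pow₀ (not_le.1 hcon).le))
  set x := xu L u e z with hxdef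
  set y := yu L u z with hydef
  have h2x : V.valuation (2 * (-(1 + lam)) * x) ≤ 1 := by
    rw [map_mul, map_mul, c2, one_mul]
    exact mul_le_one' ha2 hx
  have hxx : V.valuation (x ^ 2) ≤ 1 := by
    rw [map_pow]
    exact pow_le_one₀ zero_le hx
  -- numerator and denominator
  have hN : _root_.Pool.Agent.NSE.Rep V (E3 L) (su L u e) (ru L u e)
      (fun Y => x + (x ^ 2 + lam + 2 * (-(1 + lam)) * x) * su L u e Y + (lam * x) * su L u e Y ^ 2 +
        ru L u e Y * (2 * y)) x (2 * y) := by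
    refine _root_.Pool.Agent.NSER.AddE.rep_quad hx ?_ ?_ ?_ fun Y _ => rfl
    · exact V.valuation.map_add_le (V.valuation.map_add_le hxx hl) h2x
    · rw [map_mul]
      exact mul_le_one' hl hx
    · rw [map_mul, c2, one_mul]
      exact hy
  have hD : _root_.Pool.Agent.NSE.Rep V (E3 L) (su L u e) (ru L u e) (fun Y => (1 - su L u e Y * x) ^ 2) 1 0 := by
    refine _root_.Pool.Agent.NSER.AddE.rep_quad (b := -(2 * x)) (c := x ^ 2) (by simp) ?_ hxx (by simp) fun Y _ => ?_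
    · rw [Valuation.map_neg, map_mul, c2, one_mul]
      exact hx
    · ring
  obtain ⟨d1, d2⟩ := a7 _ _ _ hD (by simp)
  have hM := a6 _ _ _ _ _ _ hN d2
  refine a4 _ _ _ _ _ _ hM ?_ (by simp) (by simp)
  intro Y hY
  obtain ⟨t1, t2, -⟩ := h4 V L u e lam hG h30 Y hY
  have hYL : Y ∉ L.lattice := hY.2
  have hzp : z + Y ∉ L.lattice := fun h => hz (by
    have := Pool.Agent.MUXV.inK_sub G (Pool.Agent.MUXV.inK_of_mem h) t1
    rwa [add_sub_cancel_right] at this)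
  have hzm : z - Y ∉ L.lattice := fun h => hz (by
    have := Pool.Agent.MUXV.inK_add G (Pool.Agent.MUXV.inK_of_mem h) t1
    rwa [sub_add_cancel] at this)
  have hadd := (b_ADD L Y z hYL hzL hzp hzm).1
  have hxY : xu L u e Y ∉ V := t1.resolve_left hYL
  have hne : x - xu L u e Y ≠ 0 := by
    intro h
    apply hxY
    rw [← sub_eq_zero.1 h]
    exact (ValuationSubring.valuation_le_one_iff _ _).1 hx
  have e1 : ∀ w, L.weierstrassP w = u ^ 2 * xu L u e w + e := by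
    intro w
    unfold xu
    field_simp
    ring
  have e2 : ∀ w, L.derivWeierstrassP w = 2 * u ^ 3 * yu L u w := by
    intro w
    unfold yu
    field_simp
  rw [e1 (z + Y), e1 z, e1 Y, e2 z, e2 Y, ← hxdef, ← hydef] at hadd
  have k1 := c4 z hzL
  have k2 := c4 Y hYL
  rw [← hxdef, ← hydef] at k1
  have hD1 : (1 - su L u e Y * x) ^ 2 ≠ 0 := by
    intro h
    have := d1 Y hY
    simp only [h, map_zero] at this
    exact zero_ne_one this
  show xu L u e (z + Y) = _ * ((1 - su L u e Y * x) ^ 2)⁻¹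
  rw [eq_mul_inv_iff_mul_eq₀ hD1]
  unfold su ru
  set X' := xu L u e Y with hX'
  set Y' := yu L u Y with hY'
  set W := xu L u e (z + Y) with hW
  have hm : (2 * u ^ 3 * y - 2 * u ^ 3 * Y') / (2 * (u ^ 2 * x + e - (u ^ 2 * X' + e))) =
      u * ((y - Y') / (x - X')) := by
    have : u ^ 2 * x + e - (u ^ 2 * X' + e) = u ^ 2 * (x - X') := by ring
    rw [this]
    field_simp
  rw [hm] at hadd
  have k3 : (W + x + X' - (1 + lam)) * (x - X') ^ 2 = (y - Y') ^ 2 := by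
    have h6 : u ^ 2 * ((W + x + X' - (1 + lam)) * (x - X') ^ 2) = u ^ 2 * (y - Y') ^ 2 := by
      have h7 : u ^ 2 * (W + x + X' - (1 + lam)) = (u * ((y - Y') / (x - X'))) ^ 2 := by
        linear_combination hadd - c1
      calc u ^ 2 * ((W + x + X' - (1 + lam)) * (x - X') ^ 2)
          = (u ^ 2 * (W + x + X' - (1 + lam))) * (x - X') ^ 2 := by ring
        _ = (u * ((y - Y') / (x - X'))) ^ 2 * (x - X') ^ 2 := by rw [h7]
        _ = u ^ 2 * (y - Y') ^ 2 := by field_simp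
    exact mul_left_cancel₀ (pow_ne_zero 2 hu) h6
  field_simp
  linear_combination k3 + k1 + k2

end

end Pool.Agent.NSER


end

section

/-!
# MUX-NS, block RN, ramified case: the final statement of the block
-/

set_option autoImplicit false

namespace Pool.Agent.NSRD

open _root_.MU3 _root_.Pool.Agent.MU3A _root_.Pool.Agent.MU3B _root_.Pool.Agent.RI _root_.Pool.Agent.MUX _root_.Pool.Agent.NS
open _root_.Pool.Agent.NSR

theorem rfinr : Sq_RFIN := by
  intro A B P V hR hP hV hT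
  have h3P : ((3 : ℕ) : OO A B) ∈ P := hP.mem
  obtain ⟨⟨N, hN⟩, hal⟩ := tr_ALR A B V P hR.toCQ hR.three hV h3P
  refine ⟨fun b L om hL => ?_, fun f hf0 hf3 σ hσ hin y hy => ?_⟩
  · obtain ⟨w₁, w₂, w₃, u, ⟨a1, a2⟩, ⟨b1, b2⟩, ⟨c1, c2⟩, hne, hu, hleg, hv⟩ := tr_HPD V L
    have hred := (rred A B V N hN b L om hL.toIsLI _ _ _ hleg hv).1
    have m1 := xn_mem_two hN.cq hL a1 a2
    have m2 := xn_mem_two hN.cq hL b1 b2
    have m3 := xn_mem_two hN.cq hL c1 c2
    refine ⟨u, _, _, ⟨hleg.u0, hleg.eq, ?_⟩, ?_, m1, ?_⟩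
    · have h30 : V.valuation (3 : ℂ) ≠ 0 := by
        rw [Valuation.ne_zero_iff]
        norm_num
      have h1 := mul_le_mul' hred hred
      rw [mul_mul_mul_comm, ← pow_two, ← pow_two, hal] at h1
      exact le_of_mul_le_mul_right h1 (zero_lt_iff.2 h30)
    · rw [hu]
      exact sub_mem m2 m1
    · exact div_mem (sub_mem m3 m1) (sub_mem m2 m1)
  · refine runr' A B V N hN hT f hf0 hf3 σ hσ (fun y hy hyv => ?_) y hy
    rw [← ValuationSubring.mem_nonunits_iff]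
    exact hin y hy ((ValuationSubring.valuation_le_one_iff _ _).1 hyv)

end Pool.Agent.NSRD


end

section

/-! # Block ER of the project MUX-NS, assembled (helper86)

`StER.lean` states Lemma E at the ramified prime `3`; the files `F_*.lean` prove the statements.
This file puts them together: `f_X : Sf_X` for every name `X` of block ER, without hypotheses; the
last one, `f_FIN`, derives `Sq_EFIN` from `Sq_RFIN`; `efinr` is `Sq_EFIN`. -/

set_option autoImplicit false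

namespace Pool.Agent.NSER

theorem f_IAF : Pool.Agent.MUXI.Si_IAF := Pool.Agent.MUXI.ti_IAF Pool.Agent.MUXU.u_DET
theorem f_HIT : Pool.Agent.MUXI.Si_HIT :=
  Pool.Agent.MUXI.ti_HIT f_IAF (Pool.Agent.MUXI.ti_IAG f_IAF)
    (Pool.Agent.MUXI.ti_RPR Pool.Agent.MUXF.xf_ALG Pool.Agent.MUXF.xf_IDL Pool.Agent.MUXF.xf_NIM)
    Pool.Agent.MUXY.y_MUI Pool.Agent.MUXY.y_UNJ Pool.Agent.MUXF.xf_ALG

theorem f_ALG : Sf_ALG := tf_ALG
theorem f_COE : Sf_COE := tf_COE
theorem f_CTX : Sf_CTX := tf_CTX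
theorem f_DIS : Sf_DIS := tf_DIS Pool.Agent.MUXU.u_PFI
theorem f_GRN : Sf_GRN := tf_GRN f_COE
theorem f_IDL : Sf_IDL := tf_IDL
theorem f_LAG : Sf_LAG := tf_LAG
theorem f_LEG : Sf_LEG := tf_LEG
theorem f_MUL : Sf_MUL := tf_MUL
theorem f_ORB : Sf_ORB := tf_ORB
theorem f_PRO : Sf_PRO := tf_PRO f_ALG
theorem f_PUL : Sf_PUL := tf_PUL f_ALG f_PRO
theorem f_RP1 : Sf_RP1 := tf_RP1 f_LEG
theorem f_TNC : Sf_TNC := tf_TNC f_GRN
theorem f_TRV : Sf_TRV := tf_TRV f_LAG
theorem f_TW3 : Sf_TW3 := tf_TW3 f_COE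
theorem f_UNR : Sf_UNR := tf_UNR
theorem f_UNT : Sf_UNT := tf_UNT f_GRN f_TNC
theorem f_XCJ : Sf_XCJ := tf_XCJ f_COE f_RP1
theorem f_BPW : Sf_BPW := tf_BPW f_IDL
theorem f_DEG : Sf_DEG := tf_DEG f_IDL
theorem f_EXO : Sf_EXO := tf_EXO f_IDL
theorem f_NE1 : Sf_NE1 := tf_NE1 f_TNC f_GRN
theorem f_PTS : Sf_PTS := tf_PTS f_COE f_TW3
theorem f_RAT : Sf_RAT := tf_RAT f_COE f_TNC f_UNT
theorem f_RPV : Sf_RPV := tf_RPV f_COE f_TW3 f_UNR f_RP1
theorem f_STB : Sf_STB := tf_STB f_HIT f_IAF f_BPW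
theorem f_ADD : Sf_ADD := tf_ADD f_ALG f_COE f_GRN f_TW3 f_PTS
theorem f_ISO : Sf_ISO := tf_ISO f_ALG f_PRO f_PTS f_TW3 f_UNT f_RAT
theorem f_PIS : Sf_PIS := tf_PIS f_GRN f_TNC f_RPV Pool.Agent.MUXU.u_BAC Pool.Agent.MUXU.u_PFI
theorem f_THN : Sf_THN := tf_THN f_ALG f_PRO f_PUL f_GRN f_ISO f_ADD f_PTS
theorem f_TPR : Sf_TPR :=
  tf_TPR f_GRN f_TNC f_RPV f_PIS Pool.Agent.MUXU.u_BAC Pool.Agent.MUXU.u_PFI
theorem f_UNI : Sf_UNI := tf_UNI f_GRN f_TNC f_TPR f_UNR f_DEG f_RP1 f_IDL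
theorem f_DIF : Sf_DIF := tf_DIF f_GRN f_TNC f_TPR f_IDL f_BPW
theorem f_INN : Sf_INN := tf_INN f_THN f_NE1 f_EXO f_MUL f_PIS f_DIS f_UNR f_RP1
theorem f_PAR : Sf_PAR := tf_PAR f_COE f_GRN f_NE1 f_TPR f_UNI f_TRV f_BPW f_DIF f_XCJ f_IDL
theorem f_SIG : Sf_SIG := tf_SIG f_ALG f_PRO f_PTS f_ADD f_UNI f_RP1 f_IDL
theorem f_ONE : Sf_ONE :=
  tf_ONE f_ALG f_PRO f_PTS f_THN f_SIG f_NE1 f_MUL f_EXO f_IDL f_DIS f_PIS f_INN
theorem f_PAL : Sf_PAL := tf_PAL f_PAR f_PIS f_DIS f_EXO f_UNT f_MUL f_BPW f_IDL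
theorem f_MAIN : Sf_MAIN := tf_MAIN f_ONE
theorem f_RED : Sf_RED := tf_RED f_MAIN f_PAL f_INN f_ORB f_STB f_BPW f_EXO f_IDL
theorem f_FIN : Sf_FIN := tf_FIN f_CTX f_RED

/-- the function `E` of the ramified case -/
theorem efinr : Pool.Agent.NSRD.Sq_EFIN := f_FIN Pool.Agent.NSRD.rfinr

end Pool.Agent.NSER


end
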