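import Mathlib
import Pool.Agent.MVF.C120
import Pool.Agent.MVF.C152

/-! Parts: NS.TR_DEL, NS.IR_SUB, NS.ZR_INPG -/

namespace Pool.Agent.NSIR.SUBR
end Pool.Agent.NSIR.SUBR
namespace Pool.Agent.NSTR.DEL
end Pool.Agent.NSTR.DEL

section

/-!
# MUX-NS, block TR, module DEL: the element `δ = √D = 2 w - B` and the residues modulo `P`
-/

set_option autoImplicit false

namespace Pool.Agent.NSTR

open _root_.MU3 _root_.Pool.Agent.MU3A _root_.Pool.Agent.MU3B _root_.Pool.Agent.RI _root_.Pool.Agent.MUX _root_.Pool.Agent.MUXU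
open OnePoint _root_.Pool.Agent.NS _root_.Pool.Agent.NSRD
open _root_.Pool.Agent.MUXV (GR InK)
open _root_.Pool.Agent.NSE (su ru)
open _root_.Pool.Agent.NST (KIn ActT)
open _root_.Pool.Agent.MUXY (ActN Dn)

noncomputable section

namespace DEL

variable {A B : ℤ}

lemma int_eq (n : ℤ) : ((n : ℤ) : OO A B) = ⟨n, 0⟩ := by
  ext
  · simp
  · simp

lemma three_eq : (3 : OO A B) = ⟨3, 0⟩ := by
  have h : (3 : OO A B) = ((3 : ℤ) : OO A B) := by norm_cast
  rw [h, int_eq]

lemma two_eq : (2 : OO A B) = ⟨2, 0⟩ := by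
  have h : (2 : OO A B) = ((2 : ℤ) : OO A B) := by norm_cast
  rw [h, int_eq]

lemma three_im (z : OO A B) : (3 * z).im = 3 * z.im := by
  rw [three_eq]
  simp

lemma dD_sq (A B : ℤ) : dD A B * dD A B = ((-absD A B : ℤ) : OO A B) := by
  rw [int_eq]
  ext
  · simp only [dD, absD, QuadraticAlgebra.re_mul]
    ring
  · simp only [dD, QuadraticAlgebra.im_mul]
    ring

/-- an element in terms of `w + B` -/
lemma decomp (x : OO A B) : x = ((x.re - B * x.im : ℤ) : OO A B) +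
    ((x.im : ℤ) : OO A B) * (⟨B, 1⟩ : OO A B) := by
  rw [int_eq, int_eq]
  ext
  · simp only [QuadraticAlgebra.re_add, QuadraticAlgebra.re_mul]
    ring
  · simp only [QuadraticAlgebra.im_add, QuadraticAlgebra.im_mul]
    ring

lemma dD_eq (A B : ℤ) : dD A B = 2 * (⟨B, 1⟩ : OO A B) - ((3 * B : ℤ) : OO A B) := by
  rw [two_eq, int_eq]
  ext
  · simp only [dD, QuadraticAlgebra.re_sub, QuadraticAlgebra.re_mul]
    ring
  · simp only [dD, QuadraticAlgebra.im_sub, QuadraticAlgebra.im_mul]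
    ring

lemma wB_dD (A B : ℤ) : (⟨B, 1⟩ : OO A B) * dD A B =
    ((2 * A - B ^ 2 : ℤ) : OO A B) + 3 * (⟨0, B⟩ : OO A B) := by
  rw [three_eq, int_eq]
  ext
  · simp only [dD, QuadraticAlgebra.re_add, QuadraticAlgebra.re_mul]
    ring
  · simp only [dD, QuadraticAlgebra.im_add, QuadraticAlgebra.im_mul]
    ring

lemma absD_ge (h : CaseR A B) : 15 ≤ absD A B := by
  have h3 := h.three
  have hn := h.neg
  unfold absD
  rcases h.hB with rfl | rfl
  · have h4 := (h.fund0 rfl).2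
    norm_num at h3 hn ⊢
    omega
  · have h4 := h.exc
    norm_num at h3 hn h4 ⊢
    omega

lemma not_dvd (h : CaseR A B) {d : ℤ} (hd : B ^ 2 + 4 * A = 3 * d) : ¬ (3 : ℤ) ∣ d := by
  intro h3
  obtain ⟨k, rfl⟩ := h3
  have hu : ¬ IsUnit (3 : ℤ) := by
    rw [Int.isUnit_iff]
    omega
  rcases h.hB with rfl | rfl
  · apply hu
    apply (h.fund0 rfl).1
    norm_num at hd ⊢
    omega
  · apply hu
    apply h.fund1 rfl
    exact ⟨k, by linarith⟩

end DEL

open _root_.Pool.Agent.NSTR.DEL in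
/-- (DEL) the element `δ = √D` and the residues modulo `P` -/
theorem tw_DEL : Sw_DEL := by
  intro A B P V hR hP hV
  have hC : CQ A B := hR.toCQ
  have hlt : ∀ x : OO A B, V.valuation (emb x) < 1 ↔ x ∈ P := fun x =>
    (ValuationSubring.mem_nonunits_iff (A := V)).symm.trans (hV x)
  have h3P : (3 : OO A B) ∈ P := by
    have := hP.mem
    exact_mod_cast this
  have e3 : emb (3 : OO A B) = 3 := by
    have h := _root_.Pool.Agent.MUX.emb_natCast hC 3
    exact_mod_cast h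
  have e2 : emb (2 : OO A B) = 2 := by
    have h := _root_.Pool.Agent.MUX.emb_natCast hC 2
    exact_mod_cast h
  have v3 : V.valuation (3 : ℂ) < 1 := by
    have h := (hlt 3).2 h3P
    rwa [e3] at h
  have v2 : V.valuation (2 : ℂ) = 1 := by
    have h : V.valuation ((2 : ℤ) : ℂ) = 1 := NSR.ALRaux.v_int_unit v3 (by norm_num)
    exact_mod_cast h
  have vle : ∀ x : OO A B, V.valuation (emb x) ≤ 1 := NSR.ALRaux.v_emb hC V
  obtain ⟨d, hd⟩ := hR.three
  have hnd : ¬ (3 : ℤ) ∣ d := not_dvd hR hd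
  have hsq := dD_sq A B
  have hsq' : dD A B * dD A B = 3 * ((d : ℤ) : OO A B) := by
    rw [hsq]
    have h : -absD A B = 3 * d := by
      unfold absD
      linarith
    rw [h]
    push_cast
    ring
  have hdP : dD A B ∈ P := by
    have h : dD A B * dD A B ∈ P := by
      rw [hsq']
      exact P.mul_mem_right _ h3P
    rcases hP.prime.mem_or_mem h with h | h <;> exact h
  have h1P : (1 : OO A B) ∉ P := fun h => hP.prime.ne_top ((Ideal.eq_top_iff_one _).2 h)
  -- integers in `P`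
  have hint : ∀ n : ℤ, (n : OO A B) ∈ P → (3 : ℤ) ∣ n := by
    intro n hn
    by_contra h3
    obtain ⟨a, b, hab⟩ := (Int.prime_three.coprime_iff_not_dvd).2 h3
    apply h1P
    have h := congrArg (Int.cast : ℤ → OO A B) hab
    push_cast at h
    rw [← h]
    exact P.add_mem (P.mul_mem_left _ h3P) (P.mul_mem_left _ hn)
  have hint' : ∀ n : ℤ, (3 : ℤ) ∣ n → (n : OO A B) ∈ P := by
    rintro n ⟨k, rfl⟩
    push_cast
    exact P.mul_mem_right _ h3P
  -- `w + B ∈ P`
  have hwB : (⟨B, 1⟩ : OO A B) ∈ P := by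
    have h : 2 * (⟨B, 1⟩ : OO A B) ∈ P := by
      have h5 : 2 * (⟨B, 1⟩ : OO A B) = dD A B + ((3 * B : ℤ) : OO A B) := by
        rw [dD_eq]
        ring
      rw [h5]
      exact P.add_mem hdP (hint' _ ⟨B, rfl⟩)
    rcases hP.prime.mem_or_mem h with h | h
    · exact absurd (hint 2 (by exact_mod_cast h)) (by norm_num)
    · exact h
  have hred : ∀ x : OO A B, x - ((x.re - B * x.im : ℤ) : OO A B) ∈ P := by
    intro x
    have h : x - ((x.re - B * x.im : ℤ) : OO A B) = ((x.im : ℤ) : OO A B) * (⟨B, 1⟩ : OO A B) := by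
      nth_rewrite 1 [decomp x]
      ring
    rw [h]
    exact P.mul_mem_left _ hwB
  have hmemP : ∀ x ∈ P, (3 : ℤ) ∣ x.re - B * x.im := by
    intro x hx
    apply hint
    have h := P.sub_mem hx (hred x)
    rwa [sub_sub_cancel] at h
  have vd2 : V.valuation (emb (dD A B)) ^ 2 = V.valuation (3 : ℂ) := by
    have h : emb (dD A B) ^ 2 = 3 * ((d : ℤ) : ℂ) := by
      rw [sq, ← _root_.Pool.Agent.MUX.emb_mul hC, hsq', _root_.Pool.Agent.MUX.emb_mul hC, e3, _root_.Pool.Agent.MUX.emb_intCast hC]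
    rw [← map_pow, h, map_mul, NSR.ALRaux.v_int_unit v3 hnd, mul_one]
  have vd1 : V.valuation (emb (dD A B)) < 1 := (hlt _).2 hdP
  have v30 : V.valuation (3 : ℂ) ≠ 0 := by
    rw [Ne, map_eq_zero]
    norm_num
  have vd0 : V.valuation (emb (dD A B)) ≠ 0 := by
    intro h
    rw [h] at vd2
    apply v30
    rw [← vd2]
    simp
  have v3d : V.valuation (3 : ℂ) < V.valuation (emb (dD A B)) := by
    rw [← vd2, sq]
    exact mul_lt_of_lt_one_left (zero_lt_iff.2 vd0) vd1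
  have vwB : V.valuation (emb (⟨B, 1⟩ : OO A B)) ≤ V.valuation (emb (dD A B)) := by
    have h : (2 : ℂ) * emb (⟨B, 1⟩ : OO A B) = emb (dD A B) + 3 * ((B : ℤ) : ℂ) := by
      rw [dD_eq, _root_.Pool.Agent.MUX.emb_sub hC, _root_.Pool.Agent.MUX.emb_mul hC, e2, _root_.Pool.Agent.MUX.emb_intCast hC]
      push_cast
      ring
    have h5 : V.valuation (emb (⟨B, 1⟩ : OO A B)) =
        V.valuation ((2 : ℂ) * emb (⟨B, 1⟩ : OO A B)) := by
      rw [map_mul, v2, one_mul]
    rw [h5, h]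
    refine (V.valuation.map_add _ _).trans (max_le le_rfl ?_)
    rw [map_mul]
    exact (mul_le_of_le_one_right' (NSR.ALRaux.v_int V B)).trans v3d.le
  have vP : ∀ x ∈ P, V.valuation (emb x) ≤ V.valuation (emb (dD A B)) := by
    intro x hx
    obtain ⟨k, hk⟩ := hmemP x hx
    have h : emb x = 3 * (k : ℂ) + ((x.im : ℤ) : ℂ) * emb (⟨B, 1⟩ : OO A B) := by
      nth_rewrite 1 [decomp x]
      rw [_root_.Pool.Agent.MUX.emb_add hC, _root_.Pool.Agent.MUX.emb_mul hC, _root_.Pool.Agent.MUX.emb_intCast hC, _root_.Pool.Agent.MUX.emb_intCast hC, hk]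
      push_cast
      ring
    rw [h]
    refine (V.valuation.map_add _ _).trans (max_le ?_ ?_)
    · rw [map_mul]
      exact (mul_le_of_le_one_right' (NSR.ALRaux.v_int V k)).trans v3d.le
    · rw [map_mul]
      exact (mul_le_of_le_one_left' (NSR.ALRaux.v_int V _)).trans vwB
  have vP2 : ∀ x ∈ P ^ 2, V.valuation (emb x) ≤ V.valuation (3 : ℂ) := by
    intro x hx
    rw [sq] at hx
    refine Submodule.mul_induction_on hx ?_ ?_
    · intro y hy z hz
      rw [_root_.Pool.Agent.MUX.emb_mul hC, map_mul, ← vd2, sq]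
      exact mul_le_mul' (vP y hy) (vP z hz)
    · intro y z hy hz
      rw [_root_.Pool.Agent.MUX.emb_add hC]
      exact (V.valuation.map_add _ _).trans (max_le hy hz)
  refine ⟨v3, v2, hsq, absD_ge hR, hdP, fun h => absurd (vP2 _ h) (not_le.2 v3d), vd2,
    ?_, ?_, ?_, vle, ?_⟩
  · -- `x δ ∈ 3 O`
    intro x hx
    obtain ⟨k, hk⟩ := hmemP x hx
    obtain ⟨l, hl⟩ : (3 : ℤ) ∣ 2 * A - B ^ 2 := by
      obtain ⟨t, ht⟩ := hR.three
      exact ⟨2 * A - t, by linarith⟩
    refine ⟨(k : OO A B) * dD A B + ((x.im : ℤ) : OO A B) * ((l : OO A B) + (⟨0, B⟩ : OO A B)), ?_⟩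
    have h1 : x * dD A B = ((x.re - B * x.im : ℤ) : OO A B) * dD A B +
        ((x.im : ℤ) : OO A B) * ((⟨B, 1⟩ : OO A B) * dD A B) := by
      nth_rewrite 1 [decomp x]
      ring
    rw [h1, wB_dD, hk, hl]
    push_cast
    ring
  · intro y h
    have h1 := congrArg QuadraticAlgebra.im h
    rw [three_im] at h1
    simp only [dD] at h1
    omega
  · intro c hc
    have h1 : ¬ (3 : ℤ) ∣ c.re - B * c.im := by
      intro h
      apply hc
      have h2 := P.add_mem (hred c) (hint' _ h)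
      rwa [sub_add_cancel] at h2
    by_cases h2 : c - 1 ∈ P
    · have hw : wP P c = 1 := by simp [wP, hc, h2]
      rw [hw]
      exact ⟨Or.inl rfl, by simpa using h2⟩
    · have hw : wP P c = -1 := by simp [wP, hc, h2]
      rw [hw]
      refine ⟨Or.inr rfl, ?_⟩
      have h3 : ¬ (3 : ℤ) ∣ (c.re - B * c.im) - 1 := by
        intro h
        apply h2
        have h4 := P.add_mem (hred c) (hint' _ h)
        have h5 : c - ((c.re - B * c.im : ℤ) : OO A B) +
            (((c.re - B * c.im) - 1 : ℤ) : OO A B) = c - 1 := by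
          push_cast
          ring
        rwa [h5] at h4
      have h6 : (3 : ℤ) ∣ (c.re - B * c.im) + 1 := by omega
      have h4 := P.add_mem (hred c) (hint' _ h6)
      have h5 : c - ((c.re - B * c.im : ℤ) : OO A B) +
          (((c.re - B * c.im) + 1 : ℤ) : OO A B) = c - ((-1 : ℤ) : OO A B) := by
        push_cast
        ring
      rwa [h5] at h4
  · intro n hn
    have h : V.valuation ((n : ℤ) : ℂ) = 1 := NSR.ALRaux.v_int_unit v3 (by omega)
    exact_mod_cast h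

end

end Pool.Agent.NSTR


end

section

/-!
# MUX-NS, block IR (helper87): the fields `K B_n`, ramified case
-/

set_option autoImplicit false

namespace Pool.Agent.NSIR

open _root_.MU3 _root_.Pool.Agent.MU3 _root_.Pool.Agent.MU3A _root_.Pool.Agent.MU3B _root_.Pool.Agent.RI _root_.Pool.Agent.RID
  _root_.Pool.Agent.MUX _root_.Pool.Agent.MUXU _root_.Pool.Agent.MUXK _root_.Pool.Agent.MUXI _root_.Pool.Agent.NS _root_.Pool.Agent.NSRD
  _root_.Pool.Agent.NSI
open _root_.Pool.Agent.MU3I (w3 zt)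

noncomputable section

namespace SUBR

variable {A B : ℤ} {P : Ideal (OO A B)}

/-- `P² = (3)` -/
theorem sq_eq {V : ValuationSubring ℂ} (hc : CaseR A B) (hP : IsPN 3 P) (hV : OverI V P) :
    P ^ 2 = idl (A := A) (B := B) 3 := by
  have h3P : (3 : OO A B) ∈ P := by simpa using hP.mem
  obtain ⟨-, -, hdd, -, hdP, -, -, -, -, -, -, -⟩ := Pool.Agent.NSTR.tw_DEL A B P V hc hP hV
  apply le_antisymm
  · rw [pow_two, Ideal.mul_le]
    intro x hx y hy
    obtain ⟨a, ha⟩ := Pool.Agent.NSGR.TYI.sq_mem hc.three hP hx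
    obtain ⟨b, hb⟩ := Pool.Agent.NSGR.TYI.sq_mem hc.three hP hy
    obtain ⟨c, hc'⟩ := Pool.Agent.NSGR.TYI.sq_mem hc.three hP (P.add_mem hx hy)
    refine Ideal.mem_span_singleton'.2 ⟨x * y - (c - a - b), ?_⟩
    have e : 2 * (x * y) = 3 * (c - a - b) := by
      linear_combination hc' - ha - hb
    push_cast
    linear_combination e
  · rw [Ideal.span_singleton_le_iff_mem]
    have h9 : (3 : OO A B) * 3 ∈ P ^ 2 := by
      rw [pow_two]
      exact Ideal.mul_mem_mul h3P h3P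
    have hD : ((-absD A B : ℤ) : OO A B) ∈ P ^ 2 := by
      rw [← hdd, pow_two]
      exact Ideal.mul_mem_mul hdP hdP
    -- `|D| = 3 D'`, `3 ∤ D'`
    have h3 : (3 : ℤ) ∣ B ^ 2 + 4 * A := hc.three
    obtain ⟨d, hd⟩ := h3
    have hnd := Pool.Agent.NSTR.DEL.not_dvd hc hd
    have hcop : IsCoprime (3 : ℤ) d := (Int.prime_three.coprime_iff_not_dvd).2 hnd
    obtain ⟨a, b, hab⟩ := hcop
    have hD2 : ((3 * d : ℤ) : OO A B) ∈ P ^ 2 := by
      have e : (-absD A B : ℤ) = 3 * d := by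
        unfold absD
        omega
      rwa [e] at hD
    have e1 : ((3 : ℕ) : OO A B) = (a : OO A B) * (3 * 3) + (b : OO A B) * ((3 * d : ℤ) : OO A B) := by
      have h1 := congrArg (fun t : ℤ => (t : OO A B)) hab
      push_cast at h1 ⊢
      linear_combination (-3 : OO A B) * h1
    rw [e1]
    exact (P ^ 2).add_mem ((P ^ 2).mul_mem_left _ h9) ((P ^ 2).mul_mem_left _ hD2)

theorem pow_eq {V : ValuationSubring ℂ} (hc : CaseR A B) (hP : IsPN 3 P) (hV : OverI V P) (n : ℕ) :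
    P ^ (2 * n + 1) = Ideal.span {((3 ^ n : ℕ) : OO A B)} * P := by
  rw [pow_succ, pow_mul, sq_eq hc hP hV]
  congr 1
  rw [Ideal.span_singleton_pow]
  push_cast
  rfl

/-- the norm of `c ≡ 1` modulo `f P^(2n+1)` -/
theorem nm_one {V : ValuationSubring ℂ} (hc : CaseR A B) (hP : IsPN 3 P) (hV : OverI V P)
    (f n : ℕ) {c : OO A B} (h : c - 1 ∈ lvR P f n) : ((3 ^ (n + 1) : ℕ) : ℤ) ∣ nm c - 1 := by
  have h1 : c - 1 ∈ Ideal.span {((3 ^ n : ℕ) : OO A B)} * P := by
    rw [← pow_eq hc hP hV]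
    exact Ideal.mul_le_right h
  obtain ⟨p, hp, hpc⟩ := Ideal.mem_span_singleton_mul.1 h1
  have hq := Pool.Agent.NSGR.TYI.qi hP
  have h2 : (3 : ℤ) ∣ nm p := by
    rw [← hq.int, ← Pool.Agent.MUXF.AlgX.mul_star' p]
    exact P.mul_mem_right _ hp
  have h3 : (3 : ℤ) ∣ 2 * p.re + B * p.im := by
    have : (3 : ℤ) ∣ (2 * p.re + B * p.im) ^ 2 := by
      have e : (2 * p.re + B * p.im) ^ 2 = 4 * nm p + (B ^ 2 + 4 * A) * p.im ^ 2 := by
        unfold nm
        ring
      rw [e]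
      exact dvd_add (Dvd.dvd.mul_left h2 _) (Dvd.dvd.mul_right hc.three _)
    exact Int.prime_three.dvd_of_dvd_pow this
  obtain ⟨a, ha⟩ := h2
  obtain ⟨b, hb⟩ := h3
  have e1 : c = ⟨1 + 3 ^ n * p.re, 3 ^ n * p.im⟩ := by
    have h4 : c = 1 + ((3 ^ n : ℕ) : OO A B) * p := by rw [hpc]; ring
    rw [h4]
    have e2 : ((3 ^ n : ℕ) : OO A B) = ⟨3 ^ n, 0⟩ := by
      ext
      · rw [QuadraticAlgebra.re_natCast]; push_cast; rfl
      · rw [QuadraticAlgebra.im_natCast]
    rw [e2]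
    ext
    · simp
      rfl
    · simp
      rfl
  have e3 : nm c - 1 = 3 ^ n * (2 * p.re + B * p.im) + 3 ^ n * 3 ^ n * nm p := by
    rw [e1]
    unfold nm
    simp only
    ring
  rw [e3, hb, ha]
  refine ⟨b + 3 ^ n * a, ?_⟩
  push_cast
  ring

end SUBR

open _root_.Pool.Agent.NSIR.SUBR in
/-- (SUB) -/
theorem tp_SUB (h1 : Si_LAY) : Sp_SUB := by
  intro A B P V f hS hT hNL K hK n Bn hn hlay
  have hc : CaseR A B := hS.case
  have hC : CQ A B := hc.toCQ
  have hP := hS.hP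
  have hV := hS.hV
  have h3P : (3 : OO A B) ∈ P := by simpa using hP.mem
  have hq3 : q0 3 = 3 := by simp [q0]
  have hlvdef : lvX 3 f n = f * 3 ^ (n + 1) := by
    unfold lvX
    rw [hq3]
    ring
  -- comparison of the ideals
  have hlvR : lvR P f n = idl f * (Ideal.span {((3 ^ n : ℕ) : OO A B)} * P) := by
    unfold lvR
    rw [pow_eq hc hP hV]
  have hle : idl (A := A) (B := B) (lvX 3 f n) ≤ lvR P f n := by
    rw [hlvR, Ideal.span_singleton_le_iff_mem]
    have e1 : ((lvX 3 f n : ℕ) : OO A B) = ((f : ℕ) : OO A B) * (((3 ^ n : ℕ) : OO A B) * 3) := by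
      rw [hlvdef]
      push_cast
      ring
    rw [e1]
    exact Ideal.mul_mem_mul (Ideal.mem_span_singleton_self _)
      (Ideal.mul_mem_mul (Ideal.mem_span_singleton_self _) h3P)
  have hle2 : lvR P f n ≤ idl (3 * f) := by
    obtain ⟨m, rfl⟩ : ∃ m, n = m + 1 := ⟨n - 1, by omega⟩
    rw [hlvR, ← mul_assoc, Ideal.span_singleton_mul_span_singleton]
    refine Ideal.mul_le_left.trans ?_
    rw [Ideal.span_singleton_le_span_singleton]
    refine ⟨((3 ^ m : ℕ) : OO A B), ?_⟩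
    push_cast
    ring
  have hf0 := hS.f0
  have hlv0 : lvX 3 f n ≠ 0 := by
    rw [hlvdef]
    positivity
  have hm : idl (A := A) (B := B) (lvX 3 f n) ≠ ⊥ := Pool.Agent.NST.ALT.idl_ne hC hlv0
  have hmR : lvR P f n ≠ ⊥ := by
    intro h
    rw [h, le_bot_iff] at hle
    exact hm hle
  have hK' : K ≤ IntermediateField.restrictScalars ℚ (RF (lvR P f n)) := by
    intro x hx
    exact hT.mono _ _ hle2 (hK x hx)
  -- the roots of unity
  have halg : Algebra.IsAlgebraic ℚ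
      ((RF (lvR P f n)).restrictScalars ℚ : IntermediateField ℚ ℂ) := by
    refine ⟨fun x => (IntermediateField.isAlgebraic_iff).2 ?_⟩
    have h2 := hT.mono _ _ hle x.2
    exact Pool.Agent.NST.ALT.alg_RF hC hT hlv0 h2
  have hz : ∀ z : ℂ, z ^ 3 ^ (n + 1) = 1 → z ∈ RF (lvR P f n) := by
    intro z hz
    have key := u_AUF ((RF (lvR P f n)).restrictScalars ℚ) halg z (fun σ hσ => by
      have hσ' : ∀ y ∈ RF (lvR P f n), σ y = y := fun y hy => hσ y hy
      have hfix : FixK A B σ :=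
        hσ' _ (IntermediateField.algebraMap_mem (RF (lvR P f n))
          (⟨wC A B, IntermediateField.mem_adjoin_simple_self ℚ (wC A B)⟩ : kk A B))
      obtain ⟨b, L, om, hL⟩ := hNL
      obtain ⟨a, hcop, ha⟩ := hT.act (idl (lvX 3 f n)) hm σ hfix
      obtain ⟨b', L', om', mu, hL', hA⟩ := ha b L om hL
      have hA' : ActI σ (lvR P f n) a L L' mu := by
        refine ⟨hA.kap, ?_, hA.isq, fun z hz => hA.act z fun x hx => hz x (hle hx)⟩
        rw [Ideal.isCoprime_iff_sup_eq] at hcop ⊢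
        rw [eq_top_iff, ← hcop]
        exact sup_le_sup_left hle a
      obtain ⟨c, hc1, hca⟩ := (hT.triv _ a σ b L L' om mu hmR hfix hL hA' hL'.nrm).1 hσ'
      have h3 := (hT.zeta (3 ^ (n + 1)) (idl (lvX 3 f n)) a σ b L L' om mu hm hfix
        (pow_ne_zero _ (by norm_num)) (by
          rw [Ideal.span_singleton_le_span_singleton]
          exact_mod_cast Nat.cast_dvd_cast ⟨f, by rw [hlvdef]; ring⟩) hL hA z hz).2
      rw [h3, hca]
      have h4 := nm_one hc hP hV f n hc1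
      have hc0 : c ≠ 0 := by
        rintro rfl
        have h6 : (0 - 1 : OO A B) ∈ P := by
          have h7 : lvR P f n ≤ P := by
            rw [hlvR]
            exact (Ideal.mul_le_right).trans Ideal.mul_le_right
          exact h7 hc1
        apply hP.prime.ne_top
        rw [Ideal.eq_top_iff_one]
        have h8 := P.neg_mem h6
        rwa [zero_sub, neg_neg] at h8
      have hnn : 0 ≤ nm c := by
        have h6 : 4 * nm c = (2 * c.re + B * c.im) ^ 2 - (B ^ 2 + 4 * A) * c.im ^ 2 := by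
          unfold nm
          ring
        have h7 := hC.neg
        nlinarith [sq_nonneg (2 * c.re + B * c.im), sq_nonneg c.im]
      have h5 : ((nI (sp c) : ℕ) : ℤ) = nm c := by
        rw [Pool.Agent.MUX.nI_sp hC hc0]
        exact Int.natAbs_of_nonneg hnn
      obtain ⟨k, hk⟩ : ∃ k : ℕ, nI (sp c) = 1 + 3 ^ (n + 1) * k := by
        obtain ⟨k, hk⟩ := h4
        have h6 : ((nI (sp c) : ℕ) : ℤ) = 1 + ((3 ^ (n + 1) : ℕ) : ℤ) * k := by
          rw [h5, ← hk]
          ring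
        have h7 : 0 ≤ k := by
          by_contra h8
          have h9 : k ≤ -1 := by omega
          have h10 : (3 : ℤ) ≤ ((3 ^ (n + 1) : ℕ) : ℤ) := by
            have : 3 ^ 1 ≤ 3 ^ (n + 1) := Nat.pow_le_pow_right (by norm_num) (by omega)
            exact_mod_cast this
          have h11 : (0 : ℤ) ≤ ((nI (sp c) : ℕ) : ℤ) := by positivity
          nlinarith
        obtain ⟨k', rfl⟩ := Int.eq_ofNat_of_zero_le h7
        exact ⟨k', by exact_mod_cast h6⟩
      rw [hk, pow_add, pow_one, pow_mul, hz, one_pow, mul_one])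
    exact key
  have hzt : zt (3 ^ (n + 1)) ^ 3 ^ (n + 1) = 1 := by
    unfold Pool.Agent.MU3I.zt
    exact (Complex.isPrimitiveRoot_exp _ (pow_ne_zero _ (by norm_num))).pow_eq_one
  have hq : q0 3 * 3 ^ n = 3 ^ (n + 1) := by
    rw [hq3]
    ring
  have hBdef : Bn = IntermediateField.adjoin ℚ {zt (3 ^ (n + 1)) + (zt (3 ^ (n + 1)))⁻¹} := by
    have h2 := h1 3 n (Or.inr rfl) Bn hlay
    rwa [hq] at h2
  constructor
  · have hBn : Bn ≤ IntermediateField.restrictScalars ℚ (RF (lvR P f n)) := by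
      rw [hBdef, IntermediateField.adjoin_le_iff]
      intro x hx
      rw [Set.mem_singleton_iff] at hx
      rw [hx]
      have h3 := hz _ hzt
      exact add_mem h3 (inv_mem h3)
    intro y hy
    exact (sup_le hK' hBn) hy
  · intro σ hfix hσ hσz y hy
    -- the field fixed by `σ`
    let F : IntermediateField ℚ ℂ :=
      { carrier := {x | σ x = x}
        mul_mem' := fun {a b} ha hb => by
          show σ (a * b) = a * b
          rw [map_mul, ha, hb]
        add_mem' := fun {a b} ha hb => by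
          show σ (a + b) = a + b
          rw [map_add, ha, hb]
        algebraMap_mem' := fun r => by
          show σ (algebraMap ℚ ℂ r) = algebraMap ℚ ℂ r
          exact map_ratCast σ r
        inv_mem' := fun a ha => by
          show σ a⁻¹ = a⁻¹
          rw [map_inv₀, ha] }
    have hKF : K ≤ F := fun x hx => hσ x (hK x hx)
    have hBF : Bn ≤ F := by
      rw [hBdef, IntermediateField.adjoin_le_iff]
      intro x hx
      rw [Set.mem_singleton_iff] at hx
      rw [hx]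
      have h3 : zt (3 ^ (n + 1)) ∈ F := hσz _ hzt
      exact add_mem h3 (inv_mem h3)
    exact (sup_le hKF hBF) hy

end

end Pool.Agent.NSIR


end

section

/-!
# MUX-NS, ramified case (helper87): the inputs of block J, `3 = P²`

Model: `Pool/Agent/MUX/Z_INP.lean` (helper3), `Pool/Agent/N2/I_INPG.lean` (helper36).
-/

set_option autoImplicit false

open NumberField IsDedekindDomain

namespace Pool.Agent.NSIR

open _root_.MU3 _root_.Pool.Agent.MU3 _root_.Pool.Agent.MU3A _root_.Pool.Agent.MU3B _root_.Pool.Agent.RI _root_.Pool.Agent.RID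
  _root_.Pool.Agent.MUX _root_.Pool.Agent.MUXK _root_.Pool.Agent.MUXJ _root_.Pool.Agent.MUXW _root_.Pool.Agent.MUXZ _root_.Pool.Agent.NSI
  _root_.Pool.Agent.NSZ _root_.Pool.Agent.NSRD
open _root_.Pool.Agent.MU3V (Sub GD)

noncomputable section

lemma setL_R {A B : ℤ} {P : Ideal (OO A B)} {V : ValuationSubring ℂ} {f : ℕ}
    (h : SetR A B P V f) : SetL 3 A B f :=
  ⟨h.case.toCQ, Or.inr rfl, h.f0, h.fp⟩

/-- the inputs of block J for `3` ramified -/
def Sp_INPG : Prop :=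
  ∀ (A B : ℤ) (P : Ideal (OO A B)) (V : ValuationSubring ℂ), CaseR A B → IsPN 3 P → OverI V P →
    TorX A B → InpG 3 (2 * ((absD A B).toNat / 3)) A B V

/-- the input of block IR for the norm to any field `D ≤ RF (lvR P f n)` -/
theorem eInpR (hME : Sy_MEM) (hCX : Sy_CXW) (hEF : Sq_EFIN)
    {A B : ℤ} {P : Ideal (OO A B)} {V : ValuationSubring ℂ} {f : ℕ}
    (hS : SetR A B P V f) (hT : TorX A B) (hLV : Zl_LVX)
    {ι : Type} [Fintype ι] (R : Reps A B (3 * f) ι) {u e lam : ℂ}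
    (hG : GoodR V (R.L R.i0) u e lam) {H : ι → Finset ℂ}
    {θ : ∀ n : ℕ, (RF (idl (A := A) (B := B) (lvX 3 f n)) : IntermediateField (kk A B) ℂ)}
    (hth : ThN 3 f R H θ) (n : ℕ) (hn : 1 ≤ n) (D : IntermediateField ℚ ℂ) (h : kk A B ≤ D)
    (hD : ∀ y ∈ D, y ∈ RF (idl (A := A) (B := B) (lvX 3 f n)))
    (hDR : ∀ y ∈ D, y ∈ RF (lvR P f n))
    (hDc : ∀ σ : ℂ ≃+* ℂ, FixK A B σ → (∀ y ∈ RF (idl (A := A) (B := B) (3 * f)), σ y = y) →
      (∀ z : ℂ, z ^ 3 ^ (n + 1) = 1 → σ z = z) → ∀ y ∈ D, σ y = y) :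
    EInpR P V f R u n h (fun τ => cWt h (θ n) τ) := by
  obtain ⟨hl0, _, _, hl2, hlu, hodd, hac, _, _, hcop⟩ := hLV 3 A B f (setL_R hS) n
  have hb : (idl (A := A) (B := B) (lvX 3 f n)) ≠ ⊥ := by
    intro hh
    apply hl0
    have := (Ideal.span_singleton_eq_bot.mp hh)
    exact_mod_cast (by
      have h1 := congrArg (fun x : OO A B => x.re) this
      simpa using h1 : ((lvX 3 f n : ℕ) : ℤ) = 0)
  have := hT.fin _ hb
  have := hT.gal _ hb
  obtain ⟨h1, h2, h3, h4, h5⟩ := hME A B _ (hT.fin _ hb) (hT.gal _ hb) (hT.comm _ hb) D h hD (θ n)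
    (hth.ne n)
  let := algC h
  have hconj : ∀ τ : D ≃ₐ[kk A B] D, ∃ y : D, (y : ℂ) = cWt h (θ n) 1 ∧
      ((τ y : D) : ℂ) = cWt h (θ n) τ := by
    intro τ
    refine ⟨⟨cWt h (θ n) 1, (h2 1).1⟩, rfl, ?_⟩
    have hm : cW h (θ n) ∈ D := by rw [h1]; exact (h2 1).1
    have := h3 τ hm
    have he : (⟨cWt h (θ n) 1, (h2 1).1⟩ : D) = ⟨cW h (θ n), hm⟩ := Subtype.ext h1.symm
    rw [he]; exact this
  have hsq : ∀ τ : D ≃ₐ[kk A B] D, cX R (lvX 3 f n) H h τ = cWt h (θ n) τ ^ 2 :=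
    hCX A B hS.case.toCQ hT (3 * f) ι R (lvX 3 f n) hl0
      (fun i => hcop _ (R.cop i)) hl2 (aX 3 f) H (by unfold aX; omega) hac hth.half (θ n)
      (hth.pt n) D h hD
  refine ⟨(h2 1).2, hconj, ?_⟩
  intro g hg τ'
  refine hEF A B P V f hS hT ι R u e lam hG n hn H hth.half D h hDR hDc ?_ g ?_ τ'
  · intro τ
    obtain ⟨y, hy1, hy2⟩ := hconj τ
    refine ⟨y ^ 2, ?_, ?_⟩
    · rw [hsq 1, ← hy1]
      rfl
    · rw [hsq τ, ← hy2, map_pow]
      rfl
  · obtain ⟨y, hy, hyp⟩ := hg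
    refine ⟨y ^ 2, D.pow_mem hy 2, ?_⟩
    have hfin : Finite (D ≃ₐ[kk A B] D) := by
      choose s hs using h4
      refine Finite.of_injective s ?_
      intro τ τ' e
      apply AlgEquiv.ext
      intro z
      refine Subtype.ext ((hs τ z (hD z z.2)).symm.trans ?_)
      rw [e]
      exact hs τ' z (hD z z.2)
    have e1 : (y ^ 2) ^ 3 = (y ^ 3) ^ 2 := by ring
    refine e1.trans ?_
    rw [hyp, finprod_pow (Set.toFinite _)]
    refine finprod_congr fun τ => ?_
    rw [hsq τ, ← zpow_natCast, ← zpow_natCast, ← zpow_mul, ← zpow_mul, mul_comm]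

/-- the inputs of block J -/
theorem tp_INPG (hRF : Sq_RFIN) (hEF : Sq_EFIN) (hINP : Sp_INP) (hSUR : Sp_SUB) (hLV : Zl_LVX)
    (hIW : Zl_INW) (hSUB : Sn_SUB) (hTH : Sz_THN) (hME : Sy_MEM) (hCX : Sy_CXW)
    (hRX : MUXY.Sy_REX) : Sp_INPG := by
  intro A B P V hC hP hV hT f hf0 hfp hfd K₀ K Bn _ _ _ hX hK hH hk hk₀ hkK
  have hCQ : CQ A B := hC.toCQ
  have hpos : 0 < absD A B := by
    have := hCQ.neg
    unfold absD
    omega
  have h3D : (3 : ℤ) ∣ absD A B := by
    unfold absD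
    exact (dvd_neg).mpr hC.three
  have hS : SetR A B P V f := by
    refine ⟨hC, hP, hV, hf0, hfp, ?_⟩
    obtain ⟨c, hc⟩ := hfd
    obtain ⟨D', hD'⟩ := h3D
    have h1 : (absD A B).toNat / 3 = D'.toNat := by
      rw [hD']
      have : 0 ≤ D' := by omega
      omega
    rw [h1] at hc
    refine ⟨c, ?_⟩
    rw [hc, hD']
    push_cast
    rw [Int.toNat_of_nonneg (by omega)]
    ring
  have hL : SetL 3 A B f := setL_R hS
  have : Fact (Nat.Prime 3) := ⟨Nat.prime_three⟩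
  have hd3 : absD A B ≠ 3 := by
    intro h
    apply hC.exc
    rcases hCQ.hB with h0 | h1
    · exfalso
      unfold absD at h
      rw [h0] at h
      omega
    · refine ⟨h1, ?_⟩
      unfold absD at h
      rw [h1] at h
      omega
  have hd4 : absD A B ≠ 4 := by
    intro h
    rw [h] at h3D
    omega
  obtain ⟨ι, hι, ⟨R⟩⟩ := hRX A B hCQ hd3 hd4 (3 * f) (Nat.mul_ne_zero three_ne_zero hf0)
  have hodd := (hLV 3 A B f hL 0).2.2.2.2.2.1
  obtain ⟨H, hHalf, hθ⟩ := hTH A B hCQ hT (3 * f) ι R (aX 3 f) hodd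
  have hθ' : ∀ n : ℕ, ∃ θ : (RF (idl (A := A) (B := B) (lvX 3 f n)) :
      IntermediateField (kk A B) ℂ),
      (θ : ℂ) = ThetaH (R.L R.i0) (H R.i0) (pt R (lvX 3 f n) R.i0 1) ∧
      (θ : ℂ) = ThetaH (R.L R.i0) (H R.i0) (R.om R.i0 / emb ((lvX 3 f n : ℕ) : OO A B)) ∧
      θ ≠ 0 := fun n =>
    hθ (lvX 3 f n) (hLV 3 A B f hL n).1 (hLV 3 A B f hL n).2.2.2.2.1
      (hLV 3 A B f hL n).2.2.2.2.2.2.1
  choose θ hθ1 hθ2 hθ3 using hθ'
  have hth : ThN 3 f R H θ := ⟨hHalf, hθ1, hθ2, hθ3⟩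
  obtain ⟨S, hW⟩ := hIW 3 A B f hL hT ι R H θ hth K₀ K Bn hX hK hH hk hk₀
  obtain ⟨u, e, lam, hG, -, -, -⟩ := (hRF A B P V hC hP hV hT).1 _ _ _ (R.nl R.i0)
  have hNL : ∃ (b : Ideal (OO A B)) (L : PeriodPair) (om : ℂ), IsNL b L om :=
    ⟨_, _, _, R.nl R.i0⟩
  have hK₀ : ∀ y ∈ K₀, y ∈ RF (idl (A := A) (B := B) (lvX 3 f 0)) := fun y hy => hK y (hX.le hy)
  have hlv0 : lvX 3 f 0 = 3 * f := by
    unfold lvX
    simp [q0, mul_comm]
  have hK₀' : ∀ y ∈ K₀, y ∈ RF (idl (A := A) (B := B) (3 * f)) := by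
    rw [← hlv0]; exact hK₀
  have hDn : ∀ n, ∀ y ∈ K₀ ⊔ Bn n, y ∈ RF (idl (A := A) (B := B) (lvX 3 f n)) := fun n =>
    hSUB 3 A B f hL hT hNL K₀ hK₀ n (Bn n) (hX.b0.lay n)
  refine ⟨S, fun n => cW (hk n) (θ n), fun n => cW (hk₀ n) (θ n), 0, ?_⟩
  refine hINP A B P V f hS hT ι R u e lam hG K₀ K Bn hX hK₀ hk hk₀ hkK S _ _ 0 hW
    (fun n τ => cWt (hk₀ n) (θ n) τ) (fun n hn => ?_) (fun n hn => ?_)
  · obtain ⟨hS1, hS2⟩ := hSUR A B P V f hS hT hNL K₀ hK₀' n (Bn n) hn (hX.b0.lay n)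
    exact eInpR hME hCX hEF hS hT hLV R hG hth n hn (K₀ ⊔ Bn n) (hk₀ n) (hDn n) hS1 hS2
  · have hb : (idl (A := A) (B := B) (lvX 3 f n)) ≠ ⊥ := by
      intro hh
      apply (hLV 3 A B f hL n).1
      have := (Ideal.span_singleton_eq_bot.mp hh)
      exact_mod_cast (by
        have h1 := congrArg (fun x : OO A B => x.re) this
        simpa using h1 : ((lvX 3 f n : ℕ) : ℤ) = 0)
    exact (hME A B _ (hT.fin _ hb) (hT.gal _ hb) (hT.comm _ hb) _ (hk₀ n) (hDn n) (θ n)
      (hth.ne n)).1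

end

end Pool.Agent.NSIR


end
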