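import Mathlib
import Pool.Agent.MVF.C112

/-! Parts: NS.TR_UNF -/

section

/-!
# MUX-NS, block TR, module UNF: the inertia field has values in `(1/2) ℤ`
-/

set_option autoImplicit false

open NumberField IsDedekindDomain

namespace Pool.Agent.NSTR

open _root_.MU3 _root_.Pool.Agent.MU3A _root_.Pool.Agent.MU3B _root_.Pool.Agent.RI _root_.Pool.Agent.MUX _root_.Pool.Agent.MUXU
open OnePoint _root_.Pool.Agent.NS _root_.Pool.Agent.NSRD
open _root_.Pool.Agent.MUXV (GR InK)
open _root_.Pool.Agent.NSE (su ru)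
open _root_.Pool.Agent.NST (KIn ActT)
open _root_.Pool.Agent.MUXY (ActN Dn)

noncomputable section

open _root_.Pool.Agent.NST.UNF _root_.Pool.Agent.MU3E.RAM in
theorem tw_UNF (h1 : Sw_DEL) : Sw_UNF := by
  intro A B P V hc hP hV F _ _ y hyK hy1
  have hcq : CQ A B := hc.toCQ
  obtain ⟨hv3, -, hdd, -, hdP, hdP2, -⟩ := h1 A B P V hc hP hV
  obtain ⟨⟨φ, hφ⟩, hinj, hded, hpos, hint⟩ := Pool.Agent.MUXE.te_RNG A B hcq
  have hw0 : IsIntegral ℤ (wC A B) := by
    rw [hint _ (wC_mem A B)]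
    exact ⟨⟨0, 1⟩, by simp [emb]⟩
  have hfd : FiniteDimensional ℚ (kk A B) :=
    IntermediateField.adjoin.finiteDimensional hw0.tower_top
  have hk : NumberField (kk A B) := ⟨⟩
  have hFQ : FiniteDimensional ℚ F := FiniteDimensional.trans ℚ (kk A B) F
  have hF : NumberField F := ⟨⟩
  have hv : ∀ x : OO A B, V.valuation (emb x) < 1 ↔ x ∈ P := by
    intro x
    rw [← ValuationSubring.mem_nonunits_iff, hV x]
  obtain ⟨w, hw⟩ := exists_prime (V := V) (algebraMap F ℂ) (z := (3 : 𝓞 F)) (by norm_num) (by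
    have h2 : (algebraMap F ℂ) (((3 : 𝓞 F)) : F) = (3 : ℂ) := by
      have h1 : ((3 : 𝓞 F) : F) = 3 := map_ofNat (algebraMap (𝓞 F) F) 3
      rw [h1, map_ofNat]
    rw [h2]
    exact hv3)
  -- the isomorphism `O ≅ 𝓞 k`
  have hI : ∀ z : OO A B, IsIntegral ℤ (ek z) := by
    intro z
    have h2 : IsIntegral ℤ (emb z) := (hint (emb z) (_root_.Pool.Agent.MU3A.emb_mem z)).mpr ⟨z, rfl⟩
    have h3 : algebraMap (kk A B) ℂ (ek z) = emb z := rfl
    rw [← h3] at h2
    exact (isIntegral_algebraMap_iff (FaithfulSMul.algebraMap_injective (kk A B) ℂ)).mp h2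
  let ψ : OO A B →+* 𝓞 (kk A B) :=
    { toFun := fun z => ⟨ek z, hI z⟩
      map_one' := by
        apply RingOfIntegers.ext
        apply Subtype.ext
        change emb (1 : OO A B) = 1
        rw [← hφ, map_one]
      map_zero' := by
        apply RingOfIntegers.ext
        apply Subtype.ext
        change emb (0 : OO A B) = 0
        rw [← hφ, map_zero]
      map_mul' := fun a b => by
        apply RingOfIntegers.ext
        apply Subtype.ext
        change emb (a * b) = emb a * emb b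
        rw [← hφ, map_mul, hφ, hφ]
      map_add' := fun a b => by
        apply RingOfIntegers.ext
        apply Subtype.ext
        change emb (a + b) = emb a + emb b
        rw [← hφ, map_add, hφ, hφ] }
  have hψ : ∀ z : OO A B, (((ψ z : 𝓞 (kk A B)) : kk A B) : ℂ) = emb z := fun z => rfl
  have hψi : Function.Injective ψ := by
    intro a b hab
    have h2 : emb a = emb b := by rw [← hψ, ← hψ, hab]
    have h3 : emb (a - b) = 0 := by
      rw [← hφ, map_sub, hφ, hφ, h2, sub_self]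
    exact sub_eq_zero.1 (hinj _ h3)
  have hψs : Function.Surjective ψ := by
    intro x
    have h2 : IsIntegral ℤ ((x : kk A B) : ℂ) :=
      (RingOfIntegers.isIntegral_coe x).map (Algebra.ofId (kk A B) ℂ |>.restrictScalars ℤ)
    obtain ⟨z, hz⟩ := (hint _ (x : kk A B).2).mp h2
    refine ⟨z, ?_⟩
    apply RingOfIntegers.ext
    apply Subtype.ext
    rw [hψ, hz]
  let ε : OO A B ≃+* 𝓞 (kk A B) := RingEquiv.ofBijective ψ ⟨hψi, hψs⟩
  have hε : ∀ z : OO A B, ε z = ψ z := fun z => rfl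
  set K₁ : IntermediateField (kk A B) F :=
    IntermediateField.fixedField (w.asIdeal.inertia (F ≃ₐ[kk A B] F)) with hK₁
  have hK₁Q : FiniteDimensional ℚ K₁ := FiniteDimensional.trans ℚ (kk A B) K₁
  have hK₁n : NumberField K₁ := ⟨⟩
  have hcard := card_fixed w K₁ hK₁
  obtain ⟨v, hvp, hvv⟩ := val_card (k := kk A B) w
  obtain ⟨v₁, -, hvv₁⟩ := val_card (k := K₁) w
  rw [hcard] at hvv₁
  set e := Nat.card (w.asIdeal.inertia (F ≃ₐ[kk A B] F)) with he
  have hmem : ∀ z : OO A B, ε z ∈ v.asIdeal ↔ z ∈ P := by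
    intro z
    rw [hvp, ← hv z]
    exact hw (algebraMap (𝓞 (kk A B)) (𝓞 F) (ψ z))
  have hmap : Ideal.map ε P = v.asIdeal := by
    ext x
    obtain ⟨z, rfl⟩ := ε.surjective x
    rw [hmem, Ideal.mem_map_of_equiv]
    constructor
    · rintro ⟨z', hz', h⟩
      rwa [← ε.injective h]
    · intro hz
      exact ⟨z, hz, rfl⟩
  have hnot : ε (dD A B) ∉ v.asIdeal ^ 2 := by
    rw [← hmap, ← Ideal.map_pow, Ideal.mem_map_of_equiv]
    rintro ⟨z', hz', h⟩
    exact hdP2 (by rwa [← ε.injective h])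
  have hδ : WithZero.exp (-1 : ℤ) ≤ v.intValuation (ε (dD A B)) := by
    have h2 : ¬ v.intValuation (ε (dD A B)) ≤ WithZero.exp (-((2 : ℕ) : ℤ)) := by
      rw [v.intValuation_le_pow_iff_mem]
      exact hnot
    rw [not_le] at h2
    have h0 : v.intValuation (ε (dD A B)) ≠ 0 := (lt_of_le_of_lt zero_le h2).ne'
    rw [← WithZero.exp_log h0] at h2 ⊢
    rw [WithZero.exp_lt_exp] at h2
    rw [WithZero.exp_le_exp]
    push_cast at h2
    omega
  have hval3 : (WithZero.exp (-1 : ℤ) ^ 2) ^ e ≤ w.valuation F 3 := by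
    have h1 := hvv 3
    rw [map_ofNat] at h1
    rw [h1]
    apply pow_le_pow_left₀ zero_le
    obtain ⟨m, hm⟩ := hc.three
    have h2 : (algebraMap (𝓞 (kk A B)) (kk A B)) 3 = 3 := map_ofNat _ 3
    rw [← h2, HeightOneSpectrum.valuation_of_algebraMap]
    have h3 : ε (dD A B) * ε (dD A B) = 3 * (m : 𝓞 (kk A B)) := by
      rw [← map_mul, hdd, map_intCast]
      have : -absD A B = 3 * m := by
        rw [absD, neg_neg, hm]
      rw [this]
      push_cast
      ring
    calc WithZero.exp (-1 : ℤ) ^ 2 ≤ v.intValuation (ε (dD A B)) ^ 2 :=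
          pow_le_pow_left₀ zero_le hδ 2
      _ = v.intValuation 3 * v.intValuation (m : 𝓞 (kk A B)) := by
          rw [pow_two, ← map_mul, h3, map_mul]
      _ ≤ v.intValuation 3 * 1 := by
          exact mul_le_mul_right (v.intValuation_le_one _) _
      _ = v.intValuation 3 := mul_one _
  -- the element `y` is in `K₁`
  have hyF : y ∈ F := hyK.1
  have hyK₁ : (⟨y, hyF⟩ : F) ∈ K₁ := by
    rw [hK₁, IntermediateField.mem_fixedField_iff]
    intro σ hσ
    obtain ⟨s, hs⟩ := tu_AUE (F.restrictScalars ℚ) (by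
      have h1 : Algebra.IsAlgebraic ℚ F := inferInstance
      exact h1) ((algebraMap F ℂ).comp (σ : F →+* F))
    have hs' : ∀ x : F, s (x : ℂ) = ((σ x : F) : ℂ) := hs
    have hI : InI A B V (F : Set ℂ) s := by
      refine ⟨?_, ?_, ?_⟩
      · have h1 := hs' (algebraMap (kk A B) F ⟨wC A B, wC_mem A B⟩)
        rw [σ.commutes] at h1
        exact h1
      · intro x hx
        rw [hs' ⟨x, hx⟩]
        exact (σ ⟨x, hx⟩).2
      · intro x hx hxV
        rw [ValuationSubring.mem_nonunits_iff, hs' ⟨x, hx⟩]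
        exact inertia_lt (algebraMap F ℂ) hw hσ (x := ⟨x, hx⟩)
          ((V.valuation_le_one_iff _).2 hxV)
    apply Subtype.ext
    rw [← hs']
    exact hyK.2 s hI
  have h1 := hvv₁ ⟨⟨y, hyF⟩, hyK₁⟩
  have h2 : w.valuation F (⟨y, hyF⟩ : F) < 1 := by
    refine lt_of_le_of_ne (le_ord (algebraMap F ℂ) hw hy1.le) ?_
    intro h
    have h3 := ord_one (algebraMap F ℂ) hw h
    exact absurd h3 hy1.ne
  have h3 : w.valuation F (⟨y, hyF⟩ : F) ^ 2 ≤ w.valuation F 3 := by
    have h4 : (algebraMap K₁ F) ⟨⟨y, hyF⟩, hyK₁⟩ = (⟨y, hyF⟩ : F) := rfl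
    rw [h4] at h1
    rw [h1] at h2 ⊢
    refine le_trans ?_ hval3
    rw [← pow_mul, mul_comm e 2, pow_mul]
    apply pow_le_pow_left₀ zero_le
    apply pow_le_pow_left₀ zero_le
    have h5 : v₁.valuation K₁ ⟨⟨y, hyF⟩, hyK₁⟩ < 1 := by
      by_contra h6
      push Not at h6
      exact absurd h2 (not_lt.2 (one_le_pow₀ h6))
    by_cases h0 : v₁.valuation K₁ ⟨⟨y, hyF⟩, hyK₁⟩ = 0
    · rw [h0]
      exact zero_le
    · rw [← WithZero.exp_log h0] at h5 ⊢
      rw [← WithZero.exp_zero, WithZero.exp_lt_exp] at h5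
      rw [WithZero.exp_le_exp]
      omega
  have h4 : w.valuation F ((⟨y, hyF⟩ : F) ^ 2 / 3) ≤ 1 := by
    rw [map_div₀, map_pow]
    have h30 : w.valuation F 3 ≠ 0 := (map_ne_zero _).2 (by norm_num)
    exact (div_le_one₀ (zero_lt_iff.2 h30)).2 h3
  have h5 := ord_le (algebraMap F ℂ) hw h4
  rw [map_div₀, map_div₀, map_ofNat, map_pow, map_pow] at h5
  have h30 : V.valuation (3 : ℂ) ≠ 0 := (map_ne_zero _).2 (by norm_num)
  exact (div_le_one₀ (zero_lt_iff.2 h30)).1 h5

end

end Pool.Agent.NSTR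


end
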