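import Mathlib
import Pool.Agent.MVF.C125
import Pool.Agent.MVF.C134
import Pool.Agent.MVF.C137
import Pool.Agent.MVF.C154
import Pool.Agent.MVF.C164
import Pool.Agent.MVF.C168
import Pool.Agent.MVF.C169
import Pool.Agent.MVF.C170
import Pool.Agent.MVF.C174
import Pool.Agent.MVF.C175
import Pool.Agent.MVF.C176

/-! Parts: NS.IRAll, NS.TRAll, NS.HGRAll, NS.ZRam3, NS.H_Chn, NS.H_Prn, NS.H_Dep, NS.H_Hfin, NS.G_Gth, NS.HAll, NS.ZInert3, HB.JT3 -/

section

/-!
# MUX-NS, block IR put together (helper87). The only input is `Sq_HFIN` (block H)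
-/

set_option autoImplicit false

namespace Pool.Agent.NSIR

open _root_.Pool.Agent.MUXF _root_.Pool.Agent.MUXU _root_.Pool.Agent.MUXY _root_.Pool.Agent.MUXK _root_.Pool.Agent.MUXI
  _root_.Pool.Agent.NSI _root_.Pool.Agent.NSRD

theorem p_SUB : Sp_SUB := tp_SUB i_LAY
theorem p_I31 (hH : Sq_HFIN) : Sp_I31 :=
  tp_I31 Pool.Agent.MUXJ.j_RES i_CHI n_FOU Pool.Agent.MU3I.t_ITG n_E0 i_ARF i_XXF n_SUB
    i_GAM n_XMX i_BIJ n_TH i_GEN hH k_GALX

/-- the result of block IR -/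
theorem p_INP (hH : Sq_HFIN) : Sp_INP := tp_INP (p_I31 hH) n_LEM1 n_NRX

end Pool.Agent.NSIR


end

section

/-!
# MUX-NS, block TR put together (helper87): TYPE, `3` ramified
-/

set_option autoImplicit false

namespace Pool.Agent.NSTR

open _root_.Pool.Agent.MUXY _root_.Pool.Agent.NSRD _root_.Pool.Agent.NST

theorem w_DEL : Sw_DEL := tw_DEL
theorem w_ALT : Sw_ALT := tw_ALT
theorem w_ACF : Sw_ACF := tw_ACF y_MUU y_BRI
theorem w_VSR : Sw_VSR := tw_VSR w_DEL w_ALT w_ACF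
theorem w_UNF : Sw_UNF := tw_UNF w_DEL
theorem w_SGU : Sw_SGU := tw_SGU w_DEL
theorem w_TAU : Sw_TAU := tw_TAU w_DEL w_ALT w_VSR

/-- TYPE, ramified case -/
theorem w_TYF : Sq_TYF :=
  tw_TYF rfinr w_DEL w_UNF w_ALT w_ACF w_SGU w_TAU x_RTU x_GLC x_FGP x_FGV x_ALV x_VAK

end Pool.Agent.NSTR


end

section

/-!
# MUX-NS, `3` ramified (helper87): blocks GR, TR, HR, IR together, no hypotheses
-/

set_option autoImplicit false

namespace Pool.Agent.NSIR

open _root_.Pool.Agent.NSRD _root_.Pool.Agent.NSGR _root_.Pool.Agent.NSTR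

/-- the character sums -/
theorem q_HFIN : Sq_HFIN :=
  Pool.Agent.NSHR.tq_HFIN v_GQR w_TYF v_TYI v_RLR v_QB3 Pool.Agent.MUXY.y_ALP
    Pool.Agent.MUXY.y_COP v_LGR

/-- the result of block IR -/
theorem q_INP : Sp_INP := p_INP q_HFIN

end Pool.Agent.NSIR


end

section

/-!
# MUX-NS: the final theorem for `p = 3` ramified in `k`, `D ≠ -3` (helper87). Model: `NS/ZInert3.lean` (helper6)
-/

set_option autoImplicit false

open NumberField IsDedekindDomain

namespace Pool.Agent.NSZ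

open _root_.MU3 _root_.Pool.Agent.MU3 _root_.Pool.Agent.MU3A _root_.Pool.Agent.MU3B _root_.Pool.Agent.RI _root_.Pool.Agent.RID
  _root_.Pool.Agent.MUX _root_.Pool.Agent.MUXK _root_.Pool.Agent.MUXJ _root_.Pool.Agent.MUXW _root_.Pool.Agent.MUXZ _root_.Pool.Agent.NSI
  _root_.Pool.Agent.NS _root_.Pool.Agent.MU3Z _root_.Pool.Agent.NSRD _root_.Pool.Agent.NSIR

/-- the inputs of block J -/
theorem r_INPG : Sp_INPG :=
  tp_INPG rfinr Pool.Agent.NSER.efinr q_INP p_SUB tl_LVX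
    (tl_INW tl_LVX n_SUB z_MEM z_TOW z_SUC z_I1 z_KOL) n_SUB (tz_THN z_THG) z_MEM y_CXW
    MUXY.z_REX

/-- THE MAIN THEOREM, `3` ramified -/
theorem z_main3r (A B : ℤ) (hC : CaseR A B)
    (F M K : IntermediateField ℚ ℂ) [FiniteDimensional ℚ M] (hF : kk A B ≤ F) (h : F ≤ M)
    (a : ℕ) (hT : TorU A B F) (hGal : IsGalois F (IntermediateField.extendScalars h))
    (ha : Module.finrank F (IntermediateField.extendScalars h) = 3 ^ a) (hK : K ≤ M) :
    ∃ C : ℕ, ∀ (n : ℕ) (Q : IntermediateField ℚ ℂ), IsLayer 3 n Q →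
      padicValNat 3 (classNo (K ⊔ Q)) ≤ C * (n + 1) ^ C := by
  have : Fact (Nat.Prime 3) := ⟨Nat.prime_three⟩
  have hCQ : MUX.CQ A B := hC.toCQ
  obtain ⟨P, V, hP, hV, h3V⟩ := vexR A B hC
  have hTor := MUXC.c_TOR A B hCQ
  have hpos : 0 < absD A B := by
    have := hCQ.neg
    unfold absD
    omega
  have h3 := hC.three
  have h3D : (3 : ℤ) ∣ absD A B := by
    unfold absD
    exact (dvd_neg).mpr h3
  have hn9 : ¬ (9 : ℤ) ∣ absD A B := by
    have hnu : ¬ IsUnit (3 : ℤ) := by decide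
    intro h
    unfold absD at h
    rcases hCQ.hB with hB | hB
    · have hsq := (hCQ.fund0 hB).1
      rw [hB] at h
      exact hnu (hsq 3 (by omega))
    · have hsq := hCQ.fund1 hB
      rw [hB] at h
      exact hnu (hsq 3 (by omega))
  have hd3 : absD A B ≠ 3 := by
    intro h
    apply hC.exc
    unfold absD at h
    rcases hCQ.hB with hB | hB
    · rw [hB] at h
      omega
    · refine ⟨hB, ?_⟩
      rw [hB] at h
      omega
  have hd4 : absD A B ≠ 4 := by
    intro h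
    rw [h] at h3D
    omega
  have hNL : NLex A B := by
    obtain ⟨L, om, hL⟩ := MUXY.z_NLE A B hCQ hd3 hd4 ⊤ (by
      have := (MUXE.xe_RNG A B hCQ).ded
      exact bot_ne_top.symm)
    exact ⟨⊤, L, om, hL⟩
  have hU : UnrH A B V := unhR rfinr hC hP hV hTor
  refine j_FING 3 2 (2 * ((absD A B).toNat / 3)) A B P V (aboR hC hP hV h3V) (by omega) ?_
    (fun _ => dvd_mul_right 2 _) hU hTor hNL (r_INPG A B P V hC hP hV hTor) F M K hF h a
    hT hGal ha hK
  intro h4
  omega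

/-- every finite extension of `ℚ` inside the maximal abelian extension of `ℚ(√-d)`, `3 ∣ d`, `d ≠ 3` -/
theorem final3r (d : ℕ) (hd : Squarefree d) (h3 : 3 ∣ d) (hd3 : d ≠ 3)
    (K : IntermediateField ℚ ℂ) [FiniteDimensional ℚ K] (hK : K ≤ weberField d) :
    ∃ C : ℕ, ∀ (n : ℕ) (Q : IntermediateField ℚ ℂ), IsLayer 3 n Q →
      padicValNat 3 (classNo (K ⊔ Q)) ≤ C * (n + 1) ^ C := by
  have h1 : d ≠ 1 := by omega
  have hC : CaseR (pA d) (pB d) := by
    have h4 := absD_p d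
    refine { cq_p hd with three := ?_, exc := ?_ }
    · unfold absD at h4
      split_ifs at h4 <;> omega
    · rintro ⟨h6, h5⟩
      unfold absD at h4
      rw [h6, h5] at h4
      split_ifs at h4 <;> omega
  refine to_weber hd h1 hd3 (MUXC.c_TOR _ _ (cq_p hd)) ?_ K hK
  intro F M K _ hF h a hT hGal ha hK
  exact z_main3r _ _ hC F M K hF h a hT hGal ha hK

end Pool.Agent.NSZ


end

section

/-!
# NS, block HG (helper6): the nebentypus, for `3` inert
-/

set_option autoImplicit false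

namespace Pool.Agent.NSH

open _root_.MU3 _root_.Pool.Agent.MU3A _root_.Pool.Agent.MU3B _root_.Pool.Agent.MU3F _root_.Pool.Agent.MUX _root_.Pool.Agent.MUXH
  _root_.Pool.Agent.MUXHY _root_.Pool.Agent.MuSym _root_.Pool.Agent.NS OnePoint

noncomputable section

variable {A B : ℤ}

/-- elementary facts -/
theorem valN {V : ValuationSubring ℂ} {f : ℕ} (H : SetN A B V f) :
    V.valuation (3 : ℂ) < 1 ∧ (∀ n : ℤ, V.valuation (n : ℂ) ≤ 1) ∧
    (∀ n : ℤ, ¬ (3 : ℤ) ∣ n → V.valuation (n : ℂ) = 1) ∧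
    (∀ (r : ℕ) (z : ℂ), r ≠ 0 → z ^ r = 1 → V.valuation z = 1) ∧
    0 < absD A B ∧ ¬ (3 : ℤ) ∣ absD A B ∧
    idl (A := A) (B := B) (3 * f) ≤ sp ((absD A B : ℤ) : OO A B) ∧
    idl (A := A) (B := B) (3 * f) ≠ ⊥ ∧ idl (A := A) (B := B) (3 * f) ≠ ⊤ ∧
    ((3 * f : ℕ) : OO A B) ∈ idl (A := A) (B := B) (3 * f) := by
  have h3 : V.valuation (3 : ℂ) < 1 := by
    have h1 : emb ((3 : ℕ) : OO A B) ∈ V.nonunits :=
      (H.hV _).2 (Ideal.mem_span_singleton_self _)
    have h2 : emb ((3 : ℕ) : OO A B) = 3 := by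
      unfold emb
      rw [QuadraticAlgebra.re_natCast, QuadraticAlgebra.im_natCast]
      norm_num
    rw [h2, ValuationSubring.mem_nonunits_iff] at h1
    exact h1
  have hle : ∀ z : ℤ, V.valuation (z : ℂ) ≤ 1 := fun z =>
    (V.valuation_le_one_iff _).2 (intCast_mem V z)
  have hD0 : 0 < absD A B := by
    have := H.case.neg
    unfold absD
    omega
  have h3f : ((3 * f : ℕ) : OO A B) ∈ idl (A := A) (B := B) (3 * f) :=
    Ideal.mem_span_singleton_self _
  have hf0 := H.f0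
  refine ⟨h3, hle, ?_, ?_, hD0, ?_, ?_, ?_, ?_, h3f⟩
  · intro n hn
    have hc : IsCoprime n 3 := by
      rw [isCoprime_comm]
      exact (Int.prime_three.coprime_iff_not_dvd).2 hn
    obtain ⟨a, b, hab⟩ := hc
    by_contra hne
    have hlt : V.valuation (n : ℂ) < 1 := lt_of_le_of_ne (hle n) hne
    have h1 : V.valuation ((a : ℂ) * n + b * 3) < 1 := by
      refine lt_of_le_of_lt (V.valuation.map_add _ _) (max_lt ?_ ?_)
      · rw [map_mul]
        exact mul_lt_one_of_nonneg_of_lt_one_right (hle a) zero_le hlt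
      · rw [map_mul]
        exact mul_lt_one_of_nonneg_of_lt_one_right (hle b) zero_le h3
    have h2 : (a : ℂ) * n + b * 3 = 1 := by exact_mod_cast hab
    rw [h2, map_one] at h1
    exact lt_irrefl _ h1
  · intro r z hr hz
    have h1 : V.valuation z ^ r = 1 := by rw [← map_pow, hz, map_one]
    exact (pow_eq_one_iff_of_nonneg zero_le hr).1 h1
  · have := H.case.three
    unfold absD
    omega
  · rw [Ideal.span_singleton_le_iff_mem, Ideal.mem_span_singleton]
    obtain ⟨t, ht⟩ := H.fD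
    refine ⟨(3 * 2 * t : ℤ), ?_⟩
    have h1 : ((3 * f : ℕ) : OO A B) = ((3 * (f : ℤ) : ℤ) : OO A B) := by push_cast; rfl
    rw [h1, ht]
    push_cast
    ring
  · intro h
    rw [h, Ideal.mem_bot] at h3f
    have h1 := congrArg QuadraticAlgebra.re h3f
    simp only [QuadraticAlgebra.re_natCast, QuadraticAlgebra.re_zero] at h1
    have h2 : (3 * f : ℕ) = 0 := by exact_mod_cast h1
    omega
  · intro h
    rw [Ideal.eq_top_iff_one, Ideal.mem_span_singleton] at h
    obtain ⟨y, hy⟩ := h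
    have h1 := congrArg QuadraticAlgebra.re hy
    rw [QuadraticAlgebra.re_one, QuadraticAlgebra.re_mul, QuadraticAlgebra.re_natCast,
      QuadraticAlgebra.im_natCast, mul_zero, zero_mul, add_zero] at h1
    have h9 : ((3 * f : ℕ) : ℤ) ∣ 1 := ⟨y.re, h1⟩
    have h10 := Int.le_of_dvd one_pos h9
    have : 0 < f := Nat.pos_of_ne_zero hf0
    omega

theorem chrN (h4 : MUXF.Sx_CHI) {V : ValuationSubring ℂ} {f : ℕ} (H : SetN A B V f)
    {e : OO A B → ℂ} (he : IsEI (idl (A := A) (B := B) (3 * f)) e) {r : ℕ} (hr0 : r ≠ 0)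
    (hr : ∀ x, e x ≠ 0 → e x ^ r = 1) :
    nuX e 1 = 1 ∧ (∀ d d', nuX e (d * d') = nuX e d * nuX e d') ∧
    (∀ d d' : ℤ, ((3 * N0X A B f : ℕ) : ℤ) ∣ d - d' → nuX e d = nuX e d') ∧
    (∀ d, V.valuation (nuX e d) ≤ 1) := by
  obtain ⟨-, vZ, -, vru, hDpos, -, hgD, hg0, -, hpf⟩ := valN H
  have hcq : CQ A B := H.case.toCQ
  have ev : ∀ x, V.valuation (e x) ≤ 1 := by
    intro x
    by_cases hx : e x = 0
    · rw [hx, map_zero]
      exact zero_le_one
    · exact (vru r (e x) hr0 (hr x hx)).le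
  have hcopD : ∀ d : ℤ, e (d : OO A B) ≠ 0 → IsCoprime d (absD A B) := by
    intro d hd
    have h5 := (he.supp _).1 hd
    apply Chr.coprime_int (A := A) (B := B)
    rw [← Ideal.isCoprime_span_singleton_iff]
    rw [Ideal.isCoprime_iff_sup_eq] at h5 ⊢
    exact top_le_iff.1 (h5 ▸ sup_le_sup_left hgD _)
  refine ⟨?_, ?_, ?_, ?_⟩
  · unfold nuX
    have : ((1 : ℤ) : OO A B) = 1 := by push_cast; rfl
    rw [Chr.chiX_one, this, he.one]
    norm_num
  · intro d d'
    unfold nuX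
    have : ((d * d' : ℤ) : OO A B) = (d : OO A B) * (d' : OO A B) := by push_cast; rfl
    rw [Chr.chiX_mul, this, he.mul]
    push_cast
    ring
  · intro d d' hd
    have hDnat : (((absD A B).toNat : ℕ) : ℤ) = absD A B := Int.toNat_of_nonneg hDpos.le
    have hd2 : (3 : ℤ) * (absD A B * (f : ℤ) ^ 2) ∣ d - d' := by
      have h5 : ((3 * N0X A B f : ℕ) : ℤ) = (3 : ℤ) * (absD A B * (f : ℤ) ^ 2) := by
        unfold N0X
        push_cast
        rw [hDnat]
      rwa [h5] at hd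
    obtain ⟨t, ht⟩ := hd2
    have hD : absD A B ∣ d - d' := ⟨(3 : ℤ) * (f : ℤ) ^ 2 * t, by rw [ht]; ring⟩
    unfold nuX
    by_cases hcop : IsCoprime d (absD A B)
    · have h5 : chiX A B d' = chiX A B d := ((h4 A B (toCQ hcq) d hcop).2.2 d' hD)
      have h6 : e (d : OO A B) = e (d' : OO A B) := by
        apply he.per
        have h7 : (d : OO A B) - (d' : OO A B) =
            (((absD A B * f * t : ℤ)) : OO A B) * ((3 * f : ℕ) : OO A B) := by
          have h8 : (d : OO A B) - (d' : OO A B) = ((d - d' : ℤ) : OO A B) := by push_cast; rfl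
          rw [h8, ht]
          push_cast
          ring
        rw [h7]
        exact Ideal.mul_mem_left _ _ hpf
      rw [h5, h6]
    · have h5 : e (d : OO A B) = 0 := by
        by_contra hne
        exact hcop (hcopD d hne)
      have h6 : e (d' : OO A B) = 0 := by
        by_contra hne
        apply hcop
        obtain ⟨s, hs⟩ := hD
        have h7 : d = d' + absD A B * s := by linarith
        rw [h7]
        exact (IsCoprime.add_mul_left_left_iff).2 (hcopD d' hne)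
      rw [h5, h6, mul_zero, mul_zero]
  · intro d
    unfold nuX
    rw [map_mul]
    exact mul_le_one' (vZ _) (ev _)

end

end Pool.Agent.NSH


end

section

/-!
# NS, block HG (helper6): projector, depletion, symbols, for `3` inert
-/

set_option autoImplicit false

namespace Pool.Agent.NSH

open _root_.MU3 _root_.Pool.Agent.MU3A _root_.Pool.Agent.MU3B _root_.Pool.Agent.MU3F _root_.Pool.Agent.MUX _root_.Pool.Agent.MUXH
  _root_.Pool.Agent.MUXHY _root_.Pool.Agent.MuSym _root_.Pool.Agent.NS OnePoint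
open scoped ComplexConjugate

noncomputable section

variable {A B : ℤ}

lemma sgn_PK {n : ℕ} {ι : Type} [Fintype ι] (R : Reps A B n ι) (e : OO A B → ℂ) (kk : ι → ℂ)
    (Z s : ℂ) (x y : OnePoint ℚ) :
    sgnPart s (fun x y => PhiK R e kk x y / Z) x y =
      (∑ c, kk c * sgnPart s (PhiI (R.b c) e) x y) / Z := by
  unfold sgnPart PhiK
  rw [← mul_div_assoc, ← add_div, Finset.mul_sum, ← Finset.sum_add_distrib]
  congr 1
  refine Finset.sum_congr rfl fun c _ => ?_
  ring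

/-- the projector -/
theorem prn (h3 : MUXF.Sx_PHX) (h4 : MUXF.Sx_PRJ) {V : ValuationSubring ℂ} {f : ℕ}
    (hS : SetN A B V f) {n : ℕ} {ι : Type} [Fintype ι] (R : Reps A B n ι) {e : OO A B → ℂ}
    (he : IsEI (idl (A := A) (B := B) (3 * f)) e) (kk : ι → ℂ) (Z s : ℂ) :
    ∃ (q : ℕ) (c : ℕ → ℂ), q ≠ 0 ∧ (∀ t, V.valuation (c t) ≤ 1) ∧ ∀ x y : OnePoint ℚ,
      ∑ t ∈ Finset.range q, c t * sgnPart s (fun x y => PhiK R e kk x y / Z) (mob q t 0 q x)
        (mob q t 0 q y) = PhiK R e kk x y / Z := by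
  obtain ⟨-, -, hv1, hr, hD, hD3, hgD, hg, -, -⟩ := valN hS
  obtain ⟨φ, hφ, hper, hφ2⟩ := h3 A B (toCQ hS.case.toCQ)
  have hqD : (((absD A B).toNat : ℕ) : ℤ) = absD A B := Int.toNat_of_nonneg hD.le
  have hq : (absD A B).toNat ≠ 0 := by omega
  have hv : V.valuation (((absD A B).toNat : ℕ) : ℂ) = 1 := by
    have h5 : (((absD A B).toNat : ℕ) : ℂ) = ((absD A B : ℤ) : ℂ) := by
      rw [← Int.cast_natCast (R := ℂ) (absD A B).toNat, hqD]
    rw [h5]
    exact hv1 _ hD3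
  refine ⟨(absD A B).toNat, fun t => (1 / ((absD A B).toNat : ℂ)) *
    ∑ n ∈ Finset.range (absD A B).toNat, φ n * ex (-(t * n) / (absD A B).toNat), hq,
    fun t => Prx.val_le V hr _ hq hv φ hφ t, fun x y => ?_⟩
  have key : ∀ c, ∑ t ∈ Finset.range (absD A B).toNat, ((1 / ((absD A B).toNat : ℂ)) *
      ∑ n ∈ Finset.range (absD A B).toNat, φ n * ex (-(t * n) / (absD A B).toNat)) *
      sgnPart s (PhiI (R.b c) e) (mob (absD A B).toNat t 0 (absD A B).toNat x)
        (mob (absD A B).toNat t 0 (absD A B).toNat y) = PhiI (R.b c) e x y := by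
    intro c
    exact h4 A B (toCQ hS.case.toCQ) (R.b c) _ e (R.nl c).b_ne hg (toEI he) _ φ hq
      (fun n => by rw [hqD]; exact hper n)
      (hφ2 (R.b c) _ e (R.nl c).b_ne (toEI he) hgD) s x y
  simp only [sgn_PK]
  simp only [← mul_div_assoc]
  rw [← Finset.sum_div]
  congr 1
  simp only [Finset.mul_sum (s := (Finset.univ : Finset ι))]
  rw [Finset.sum_comm]
  unfold PhiK
  refine Finset.sum_congr rfl fun c _ => ?_
  rw [← key c, Finset.mul_sum]
  refine Finset.sum_congr rfl fun t _ => ?_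
  ring

/-- for `3` inert, `e x = 0` if `3` divides the exponent -/
theorem e_zero (hQB : MUXF.Sx_QB) {V : ValuationSubring ℂ} {f : ℕ} (hS : SetN A B V f)
    {e : OO A B → ℂ} (he : IsEI (idl (A := A) (B := B) (3 * f)) e) {b : Ideal (OO A B)}
    (hb : b ≠ ⊥) {x : OO A B} (hx : x ∈ b) (h3 : (3 : ℤ) ∣ MUXF.qb b x) : e x = 0 := by
  obtain ⟨h1, -⟩ := (hQB A B (toCQ hS.case.toCQ) b hb).1 x hx
  have h2 : (3 : ℤ) ∣ nm x := by rw [h1]; exact Dvd.dvd.mul_left h3 _
  have h4 : (3 : ℤ) ∣ x.re ∧ (3 : ℤ) ∣ x.im := by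
    have h5 := hS.case.three
    unfold nm at h2
    rcases hS.case.hB with hB | hB
    · subst hB
      obtain ⟨k, hk⟩ := h5
      obtain ⟨l, hl⟩ := h2
      have hA : A = 2 + 3 * (k - A - 1) := by linarith
      have h6 : (3 : ℤ) ∣ x.re ^ 2 + x.im ^ 2 := by
        refine ⟨l + (k - A) * x.im ^ 2, ?_⟩
        linear_combination hl + x.im ^ 2 * hk
      have e1 : x.re % 3 = 0 ∨ x.re % 3 = 1 ∨ x.re % 3 = 2 := by omega
      have e2 : x.im % 3 = 0 ∨ x.im % 3 = 1 ∨ x.im % 3 = 2 := by omega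
      rw [Int.dvd_iff_emod_eq_zero, Int.add_emod, pow_two, pow_two, Int.mul_emod,
        Int.mul_emod x.im] at h6
      rcases e1 with e1 | e1 | e1 <;> rcases e2 with e2 | e2 | e2 <;>
        rw [e1, e2] at h6 <;> omega
    · subst hB
      obtain ⟨k, hk⟩ := h5
      obtain ⟨l, hl⟩ := h2
      have hA : A - 1 = 3 * (k - A - 1) := by linarith
      have h6 : (3 : ℤ) ∣ x.re ^ 2 + x.re * x.im + 2 * x.im ^ 2 := by
        refine ⟨l + (k - A) * x.im ^ 2, ?_⟩
        linear_combination hl + x.im ^ 2 * hA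
      have e1 : x.re % 3 = 0 ∨ x.re % 3 = 1 ∨ x.re % 3 = 2 := by omega
      have e2 : x.im % 3 = 0 ∨ x.im % 3 = 1 ∨ x.im % 3 = 2 := by omega
      rw [Int.dvd_iff_emod_eq_zero, Int.add_emod, Int.add_emod (x.re ^ 2), Int.mul_emod 2, pow_two,
        pow_two, Int.mul_emod, Int.mul_emod x.re x.im, Int.mul_emod x.im x.im] at h6
      rcases e1 with e1 | e1 | e1 <;> rcases e2 with e2 | e2 | e2 <;>
        rw [e1, e2] at h6 <;> omega
  by_contra hne
  have h5 := (he.supp _).1 hne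
  obtain ⟨⟨s, hs⟩, ⟨t, ht⟩⟩ := h4
  have h6 : x = ((3 : ℕ) : OO A B) * ⟨s, t⟩ := by
    ext
    · rw [QuadraticAlgebra.re_mul, QuadraticAlgebra.re_natCast, QuadraticAlgebra.im_natCast, hs]
      push_cast
      ring
    · rw [QuadraticAlgebra.im_mul, QuadraticAlgebra.re_natCast, QuadraticAlgebra.im_natCast, ht]
      push_cast
      ring
  obtain ⟨i, hi, j, hj, hij⟩ := (Ideal.isCoprime_iff_exists).1 h5
  rw [Ideal.mem_span_singleton] at hi hj
  obtain ⟨i', hi'⟩ := hi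
  obtain ⟨j', hj'⟩ := hj
  have h7 : ((3 : ℕ) : OO A B) * (⟨s, t⟩ * i' + ((f : ℕ) : OO A B) * j') = 1 := by
    rw [← hij, hi', hj']
    conv_rhs => rw [h6]
    push_cast
    ring
  have h8 := congrArg QuadraticAlgebra.re h7
  rw [QuadraticAlgebra.re_mul, QuadraticAlgebra.re_natCast, QuadraticAlgebra.im_natCast,
    QuadraticAlgebra.re_one] at h8
  omega

end

end Pool.Agent.NSH


end

section

/-!
# NS, block HG (helper6): depletion, for `3` inert
-/

set_option autoImplicit false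

namespace Pool.Agent.NSH

open _root_.MU3 _root_.Pool.Agent.MU3A _root_.Pool.Agent.MU3B _root_.Pool.Agent.MU3F _root_.Pool.Agent.MUX _root_.Pool.Agent.MUXH
  _root_.Pool.Agent.MUXHY _root_.Pool.Agent.MuSym _root_.Pool.Agent.NS OnePoint
open scoped ComplexConjugate

noncomputable section

variable {A B : ℤ}

/-- the sum over the translates by thirds of theta is zero -/
theorem theta_dep {V : ValuationSubring ℂ} {f : ℕ} (hS : SetN A B V f)
    {e : OO A B → ℂ} (he : IsEI (idl (A := A) (B := B) (3 * f)) e) {b : Ideal (OO A B)}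
    (hb : b ≠ ⊥) (z : ℂ) (hz : 0 < z.im) :
    ∑ j ∈ Finset.range 3, thetaI b e (z + (j : ℂ) / 3) = 0 := by
  obtain ⟨-, -, -, -, -, -, -, hg, -, -⟩ := valN hS
  have hcq := toCQ hS.case.toCQ
  obtain ⟨-, C, hC0, hC⟩ := MUXF.xf_BDD A B hcq _ e hg (toEI he)
  have him : ∀ j : ℕ, 0 < (z + (j : ℂ) / 3).im := by
    intro j
    have : ((j : ℂ) / 3).im = 0 := by
      have : ((j : ℂ) / 3) = (((j : ℝ) / 3 : ℝ) : ℂ) := by push_cast; ring
      rw [this]
      exact Complex.ofReal_im _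
    rw [Complex.add_im, this, add_zero]
    exact hz
  have hsum : ∀ j : ℕ, Summable (fun x : b => e x * (starRingEnd ℂ) (emb (x : OO A B)) *
      Complex.exp (2 * Real.pi * Complex.I * ((nm (x : OO A B) : ℂ) / nI b) *
        (z + (j : ℂ) / 3))) :=
    fun j : ℕ => MUXF.xf_TSM A B hcq b hb e C hC (z + (j : ℂ) / 3) (him j)
  have e1 : ∑ j ∈ Finset.range 3, thetaI b e (z + (j : ℂ) / 3) =
      (1 / 2) * ∑ j ∈ Finset.range 3, ∑' x : b, e x * (starRingEnd ℂ) (emb (x : OO A B)) *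
        Complex.exp (2 * Real.pi * Complex.I * ((nm (x : OO A B) : ℂ) / nI b) *
          (z + (j : ℂ) / 3)) := by
    rw [Finset.mul_sum]
    rfl
  rw [e1, ← Summable.tsum_finsetSum (fun j _ => hsum j)]
  have e2 : ∀ x : b, ∑ j ∈ Finset.range 3, e x * (starRingEnd ℂ) (emb (x : OO A B)) *
      Complex.exp (2 * Real.pi * Complex.I * ((nm (x : OO A B) : ℂ) / nI b) *
        (z + (j : ℂ) / 3)) = 0 := by
    intro x
    obtain ⟨h1, h2⟩ := (MUXF.xf_QB A B hcq b hb).1 x x.2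
    have hnI : ((nI b : ℕ) : ℂ) ≠ 0 := by
      have := (MUXF.xf_IDL A B hcq b hb).1
      exact_mod_cast this
    by_cases h3 : (3 : ℤ) ∣ MUXF.qb b (x : OO A B)
    · rw [e_zero MUXF.xf_QB hS he hb x.2 h3]
      simp
    · have h4 : ((nm (x : OO A B) : ℤ) : ℂ) / ((nI b : ℕ) : ℂ) = ((MUXF.qb b (x : OO A B) : ℤ) : ℂ) := by
        have h5 : nm (x : OO A B) = (nI b : ℤ) * MUXF.qb b (x : OO A B) := h1
        rw [h5]
        push_cast
        field_simp
      set N : ℤ := MUXF.qb b (x : OO A B) with hN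
      have e3 : ∀ j : ℕ, Complex.exp (2 * Real.pi * Complex.I * ((nm (x : OO A B) : ℂ) / nI b) *
          (z + (j : ℂ) / 3)) = Complex.exp (2 * Real.pi * Complex.I * N * z) *
            Complex.exp (2 * Real.pi * Complex.I * N / 3) ^ j := by
        intro j
        rw [← Complex.exp_nat_mul, ← Complex.exp_add, h4]
        congr 1
        ring
      simp only [e3]
      set q : ℂ := Complex.exp (2 * Real.pi * Complex.I * N / 3) with hq
      have hq3 : q ^ 3 = 1 := by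
        rw [hq, ← Complex.exp_nat_mul, Complex.exp_eq_one_iff]
        exact ⟨N, by push_cast; ring⟩
      have hq1 : q ≠ 1 := by
        intro h
        rw [hq, Complex.exp_eq_one_iff] at h
        obtain ⟨k, hk⟩ := h
        apply h3
        refine ⟨k, ?_⟩
        have hpi : (2 * Real.pi * Complex.I : ℂ) ≠ 0 := Complex.two_pi_I_ne_zero
        have h6 : (2 * Real.pi * Complex.I : ℂ) * N = (2 * Real.pi * Complex.I) * (3 * k) := by
          linear_combination 3 * hk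
        have h7 := mul_left_cancel₀ hpi h6
        exact_mod_cast h7
      have h5 : ∑ j ∈ Finset.range 3, q ^ j = 0 := by
        have h6 := mul_geom_sum q 3
        rw [hq3, sub_self] at h6
        exact (mul_eq_zero.1 h6).resolve_left (sub_ne_zero.2 hq1)
      have h6 : ∀ j ∈ Finset.range 3, e x * (starRingEnd ℂ) (emb (x : OO A B)) *
          (Complex.exp (2 * Real.pi * Complex.I * N * z) * q ^ j) =
          e x * (starRingEnd ℂ) (emb (x : OO A B)) *
          Complex.exp (2 * Real.pi * Complex.I * N * z) * q ^ j := fun j _ => by ring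
      rw [Finset.sum_congr rfl h6, ← Finset.mul_sum, h5, mul_zero]
  rw [tsum_congr e2, tsum_zero, mul_zero]

/-- depletion -/
theorem phi_dep {V : ValuationSubring ℂ} {f : ℕ} (hS : SetN A B V f)
    {e : OO A B → ℂ} (he : IsEI (idl (A := A) (B := B) (3 * f)) e) {b : Ideal (OO A B)}
    (hb : b ≠ ⊥) (x : ℚ) :
    ∑ j ∈ Finset.range 3, PhiI b e ∞ (((x + j) / 3 : ℚ) : OnePoint ℚ) = 0 := by
  obtain ⟨-, -, -, -, -, -, -, hg, -, -⟩ := valN hS
  have hcq := toCQ hS.case.toCQ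
  have hI := fun r : ℚ => MUXF.xf_ITG A B hcq b _ e hb hg (toEI he) r
  have e1 : ∀ j ∈ Finset.range 3, PhiI b e ∞ (((x + j) / 3 : ℚ) : OnePoint ℚ) =
      2 * Real.pi * ∫ t in Set.Ioi (0 : ℝ), thetaI b e (((x / 3 : ℚ) : ℂ) + t * Complex.I +
        (j : ℂ) / 3) := by
    intro j _
    rw [Qsx.PhiI_inf]
    unfold IvI
    rw [neg_mul, neg_neg]
    congr 1
    refine MeasureTheory.integral_congr_ae (Filter.Eventually.of_forall fun t => ?_)
    show thetaI b e _ = thetaI b e _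
    congr 1
    push_cast
    ring
  rw [Finset.sum_congr rfl e1, ← Finset.mul_sum, ← MeasureTheory.integral_finsetSum]
  · have e2 : ∫ t in Set.Ioi (0 : ℝ), ∑ j ∈ Finset.range 3,
        thetaI b e (((x / 3 : ℚ) : ℂ) + t * Complex.I + (j : ℂ) / 3) = 0 := by
      rw [MeasureTheory.setIntegral_congr_fun (g := fun _ => (0 : ℂ)) measurableSet_Ioi]
      · simp
      · intro t ht
        refine theta_dep hS he hb _ ?_
        have h1 : (((x / 3 : ℚ) : ℂ)).im = 0 := by
          rw [← Complex.ofReal_ratCast]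
          exact Complex.ofReal_im _
        rw [Complex.add_im, h1, zero_add, Complex.mul_im]
        simpa using ht
    rw [e2, mul_zero]
  · intro j _
    have h1 := hI ((x + j) / 3)
    refine h1.congr_fun ?_ measurableSet_Ioi
    intro t _
    show thetaI b e _ = thetaI b e _
    congr 1
    push_cast
    ring

end

end Pool.Agent.NSH


end

section

/-!
# NS, block HG (helper6): the character sums, for `3` inert (glue)
-/

set_option autoImplicit false

namespace Pool.Agent.NSH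

open _root_.MU3 _root_.Pool.Agent.MU3A _root_.Pool.Agent.MU3B _root_.Pool.Agent.MU3F _root_.Pool.Agent.MUX _root_.Pool.Agent.MUXH
  _root_.Pool.Agent.MUXHY _root_.Pool.Agent.MuSym _root_.Pool.Agent.NS _root_.Pool.Agent.NSG _root_.Pool.Agent.NST _root_.Pool.Agent.MUXHN
  OnePoint
open scoped ComplexConjugate

noncomputable section

variable {A B : ℤ}

theorem sum_alg {ι : Type} (S : Finset ι) (F : ι → ℂ) (h : ∀ c ∈ S, IsAlgebraic ℚ (F c)) :
    IsAlgebraic ℚ (∑ c ∈ S, F c) := by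
  rw [← mem_algebraicClosure_iff]
  exact sum_mem fun c hc => mem_algebraicClosure_iff.2 (h c hc)

/-- the hypotheses of the abstract part -/
theorem hypN (hG : Sn_GPT) (hT' : Sn_TYF) (hP : MUXY.Sy_ALP) (hCOP : MUXY.Sy_COP)
    {V : ValuationSubring ℂ} {f : ℕ}
    (hS : SetN A B V f) (hT : TorX A B) {ι : Type} [Fintype ι] (R : Reps A B (3 * f) ι)
    {u el lam : ℂ} (hg : GoodN V (R.L R.i0) u el lam) {w : OO A B → ℂ} (hw : IsTei V w)
    {e : OO A B → ℂ} (he : IsEI (idl (A := A) (B := B) (3 * f)) e) {r : ℕ} (hr3 : ¬ 3 ∣ r)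
    (her : ∀ x, e x ≠ 0 → e x ^ r = 1) {i : ℕ} (hi4 : 4 ≤ i) (hi7 : i ≤ 7)
    (hty : ∀ x, x - 1 ∈ idl (A := A) (B := B) f → x ∉ idl (A := A) (B := B) 3 → e x = w x ^ i)
    {s : ℤ} (hs : s = 1 ∨ s = -1) {kk : ι → ℂ} (hkk : ∀ i, kk i ^ r = 1) :
    ∃ (pi : ℂ) (KI : Subfield ℂ), HypN V (N0X A B f) 1 i (nuX e)
      (fun x y => PhiK R e kk x y / (u * R.om R.i0)) s pi KI := by
  obtain ⟨pi, KI, typ, unr, vpi⟩ := hT' A B V f hS hT ι R u el lam hg w hw e he r hr3 her i hty kk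
    hkk
  obtain ⟨v3, vZ, v1, vr, D0, D3, gD, gb, gt, h3f⟩ := valN hS
  have hcq : CQ A B := hS.case.toCQ
  have hr0 : r ≠ 0 := by
    rintro rfl
    exact hr3 (dvd_zero 3)
  have hf0 := hS.f0
  obtain ⟨nu1, num, nuper, nuv⟩ := chrN MUXF.xf_CHI hS he hr0 her
  have hN0 : ((N0X A B f : ℕ) : ℤ) = absD A B * (f : ℤ) ^ 2 := Brg.N0X_cast f D0
  have hDz : absD A B * ((3 * f : ℕ) : ℤ) ^ 2 = ((3 ^ (1 + 1) * N0X A B f : ℕ) : ℤ) := by
    push_cast
    rw [hN0]
    ring
  have hfz : (f : ℤ) ≠ 0 := by exact_mod_cast hf0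
  have hNne : N0X A B f ≠ 0 := by
    have h1 : ((N0X A B f : ℕ) : ℤ) ≠ 0 := by
      rw [hN0]
      exact mul_ne_zero D0.ne' (pow_ne_zero _ hfz)
    exact_mod_cast h1
  have hcop : ∀ i, IsCoprime (MUX.sp ((MUX.nI (R.b i) : ℕ) : OO A B))
      (idl (A := A) (B := B) (3 * f)) :=
    hCOP A B (3 * f) ι R _ 1 (by rw [pow_one]; exact h3f)
  refine ⟨pi, KI, ?_⟩
  exact
    { vp := v3
      N0 := hNne
      cop := by
        rw [Nat.Prime.coprime_iff_not_dvd Nat.prime_three]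
        intro h
        have h1 : (3 : ℤ) ∣ ((N0X A B f : ℕ) : ℤ) := by exact_mod_cast h
        rw [hN0] at h1
        rcases Int.prime_three.dvd_or_dvd h1 with h2 | h2
        · exact D3 h2
        · have h4 := Int.prime_three.dvd_of_dvd_pow h2
          exact hS.fp (by exact_mod_cast h4)
      nu1 := nu1
      num := num
      nuper := nuper
      nuv := nuv
      sym := by
        have h1 : ∀ c, IsSym (3 ^ (1 + 1) * N0X A B f) (nuX e) (PhiI (R.b c) e) := fun c =>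
          MUXT.sym_EI (toCQ hcq) (R.b c) (R.nl c).b_ne _ e (toEI he) (3 * f) (by omega) h3f _
            (mul_ne_zero (by norm_num) hNne) (by rw [hDz])
        exact Sym.isSym_lin h1 kk (u * R.om R.i0)
      dep := by
        intro x
        unfold PhiK
        rw [← Finset.sum_div, Finset.sum_comm]
        have h1 : ∀ c, ∑ j ∈ Finset.range 3, kk c * PhiI (R.b c) e ∞
            (((x + j) / 3 : ℚ) : OnePoint ℚ) = 0 := by
          intro c
          rw [← Finset.mul_sum, phi_dep hS he (R.nl c).b_ne x, mul_zero]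
        rw [Finset.sum_eq_zero fun c _ => h1 c, zero_div]
      alg := by
        intro x y
        have hua : IsAlgebraic ℚ u := (leg_alg hcq hT (R.nl R.i0) hg).1
        have hka : ∀ c, IsAlgebraic ℚ (kk c) := fun c =>
          IsAlgebraic.of_pow (Nat.pos_of_ne_zero hr0) (by rw [hkk c]; exact isAlgebraic_one)
        have h1 := fun c => (hP A B hcq hT (3 * f) ι inferInstance R _ e gb gt he hcop r hr0 her c x y).2
        have e1 : PhiK R e kk x y / (u * R.om R.i0) =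
            (∑ c, kk c * (PhiI (R.b c) e x y / R.om R.i0)) * u⁻¹ := by
          unfold PhiK
          have ho : R.om R.i0 ≠ 0 := (R.nl R.i0).om_ne
          have hu := hg.u0
          rw [mul_comm u, ← div_div, Finset.sum_div, div_eq_mul_inv]
          congr 1
          refine Finset.sum_congr rfl fun c _ => ?_
          ring
        rw [e1]
        exact (sum_alg _ _ fun c _ => (hka c).mul (h1 c)).mul hua.inv
      fin := by
        classical
        have h1 := fun c => MUXT.fg_EI A B (toCQ hcq) (R.b c) _ e (R.nl c).b_ne gb (toEI he)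
        choose S hS' using h1
        set Z : ℂ := u * R.om R.i0 with hZ
        refine ⟨Finset.univ.biUnion fun c => (S c).image fun t => kk c / Z * t, fun x y => ?_⟩
        have e1 : PhiK R e kk x y / Z = ∑ c, kk c / Z * PhiI (R.b c) e x y := by
          unfold PhiK
          rw [Finset.sum_div]
          refine Finset.sum_congr rfl fun c _ => ?_
          ring
        rw [e1]
        refine sum_mem fun c _ => ?_
        have h2 := hS' c x y
        have h3 : AddMonoidHom.mulLeft (kk c / Z) (PhiI (R.b c) e x y) ∈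
            (AddSubgroup.closure (S c : Set ℂ)).map (AddMonoidHom.mulLeft (kk c / Z)) :=
          AddSubgroup.mem_map_of_mem _ h2
        rw [AddMonoidHom.map_closure] at h3
        refine AddSubgroup.closure_mono ?_ h3
        rintro _ ⟨t, ht, rfl⟩
        simp only [Finset.coe_biUnion, Set.mem_iUnion]
        exact ⟨c, by simp, Finset.mem_coe.2 (Finset.mem_image.2 ⟨t, ht, rfl⟩)⟩
      s1 := hs
      typ := typ
      unr := unr
      i4 := hi4
      i7 := hi7
      vpi := vpi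
      G := by
        intro N' hN' hd
        refine hG A B V f hS hT ι R u el lam hg e he r hr0 her kk (vr r _ hr0 (hkk _)) N' hN' ?_
        rw [hDz]
        exact_mod_cast hd
      prj := prn MUXF.xf_PHX MUXF.xf_PRJ hS R he kk _ _ }

/-- the character sums -/
theorem th_HFIN (hG : Sn_GPT) (hT' : Sn_TYF) (hP : MUXY.Sy_ALP) (hCOP : MUXY.Sy_COP) :
    Sn_HFIN := by
  intro A B V f hS hT ι _ R u el lam hg w hw e he r hr3 her i hi4 hi7 hty s hs kk hkk n₀
  obtain ⟨v3, vZ, v1, vr, D0, D3, gD, gb, gt, h3f⟩ := valN hS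
  have hcq : CQ A B := hS.case.toCQ
  have hr0 : r ≠ 0 := by
    rintro rfl
    exact hr3 (dvd_zero 3)
  have hf0 := hS.f0
  set kk' : ι → ℂ := fun c => kk c / e ((nI (R.b c) : ℕ) : OO A B) with hkk'
  have heN : ∀ c, e ((nI (R.b c) : ℕ) : OO A B) ≠ 0 := Brg.e_nI R he h3f
  have hk1 : ∀ c, kk' c ^ r = 1 := by
    intro c
    rw [hkk']
    beta_reduce
    rw [div_pow, hkk, her _ (heN c), div_one]
  obtain ⟨pi, KI, hyp⟩ := hypN hG hT' hP hCOP hS hT R hg hw he hr3 her hi4 hi7 hty hs hk1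
  have hfz : (0 : ℤ) < f := by exact_mod_cast Nat.pos_of_ne_zero hf0
  have haz : ((aX 3 f : ℕ) : ℤ) - 1 = 3 * (2 * f) := by
    unfold aX q0
    push_cast
    norm_num
    ring
  have ha3 : (3 : ℤ) ∣ ((aX 3 f : ℕ) : ℤ) - 1 := by rw [haz]; exact Dvd.intro _ rfl
  have ha1 : ((aX 3 f : ℕ) : ℤ) ≠ 1 := by
    intro h
    rw [h] at haz
    omega
  obtain ⟨n, hn, hmain⟩ := xn_HN V (N0X A B f) 1 i (nuX e) _ s pi KI hyp ((aX 3 f : ℕ) : ℤ) 4 ha3 ha1
    (by norm_num) (by norm_num) (n₀ + 1)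
  obtain ⟨m, rfl⟩ : ∃ m, n = m + 1 := ⟨n - 1, by omega⟩
  refine ⟨m, by omega, ?_⟩
  have hQS := ty_QSX MUXF.xf_F5 MUXF.xf_PRD 3 Nat.prime_three A B hcq ⊤ f hf0 ι inferInstance R _ e
    he h3f kk s 1 m
  have hM : q0 3 * 3 ^ m = 3 ^ (m + 1) := by
    unfold q0
    norm_num
    ring
  have hq3 : (q0 3 : ℤ) = 3 := by
    unfold q0
    norm_num
  have hq3' : (q0 3 : ℚ) = 3 := by
    unfold q0
    norm_num
  rw [hM, hq3, hq3'] at hQS
  have e4 : (1 + 3 : ℤ) = 4 := by norm_num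
  have e4' : (1 + 3 : ℚ) = 4 := by norm_num
  rw [e4, e4'] at hQS
  have hL : ∑ j ∈ Finset.range 2, (-1 : ℂ) ^ (1 - j) *
        (STX R (lvX 3 f m) (3 ^ (m + 1)) (aX 3 f) e kk (4 ^ j) +
          s * STX R (lvX 3 f m) (3 ^ (m + 1)) (aX 3 f) e kk (-(4 ^ j))) =
      ∑ j ∈ Finset.range (1 + 1), ((-1 : ℂ) ^ (1 - j) * ((1 : ℕ).choose j : ℂ)) *
        (STX R (lvX 3 f m) (3 ^ (m + 1)) (aX 3 f) e kk (4 ^ j) +
          s * STX R (lvX 3 f m) (3 ^ (m + 1)) (aX 3 f) e kk (-4 ^ j)) := by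
    refine Finset.sum_congr rfl fun j hj => ?_
    have hj2 : j = 0 ∨ j = 1 := by
      have := Finset.mem_range.1 hj
      omega
    rcases hj2 with rfl | rfl <;> simp
  rw [hL, hQS]
  have hprim := Hfx.prim 3 (m + 1) Nat.prime_three (-(4 * ((aX 3 f : ℕ) : ℤ) ^ 2)) (by
    intro h
    rw [dvd_neg] at h
    rcases Int.prime_three.dvd_or_dvd h with h | h
    · omega
    · have h5 := Int.prime_three.dvd_of_dvd_pow h
      have h6 := dvd_sub h5 ha3
      rw [sub_sub_cancel] at h6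
      omega)
  have hζ : ex (-((4 : ℚ) ^ 1 * (aX 3 f : ℚ) ^ 2) / ((3 ^ (m + 1) : ℕ) : ℚ)) =
      ex (((-(4 * ((aX 3 f : ℕ) : ℤ) ^ 2) : ℤ) : ℚ) / (3 : ℕ) ^ (m + 1)) := by
    push_cast
    rw [pow_one]
  rw [hζ]
  set ζ : ℂ := ex (((-(4 * ((aX 3 f : ℕ) : ℤ) ^ 2) : ℤ) : ℚ) / (3 : ℕ) ^ (m + 1)) with hζd
  have h1 := hmain ζ hprim
  have hu := hg.u0
  have e5 : (2 * (f : ℂ) * ∑ b ∈ Finset.range (3 ^ (m + 1)), ζ ^ b *
      comb ((aX 3 f : ℕ) : ℤ) 4 1 (fun b => sgnPart (s : ℂ) (PP R ⊤ e kk 0) ∞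
        ((b / ((3 ^ (m + 1) : ℕ) : ℚ) : ℚ) : OnePoint ℚ)) b) / u =
      2 * f * ∑ b ∈ Finset.range (3 ^ (m + 1)), ζ ^ b *
      comb ((aX 3 f : ℕ) : ℤ) 4 1 (fun b => sgnPart (s : ℂ)
        (fun x y => PhiK R e kk' x y / (u * R.om R.i0)) ∞
        (((b : ℚ) / 3 ^ (m + 1) : ℚ) : OnePoint ℚ)) b := by
    rw [mul_div_assoc, Finset.sum_div]
    congr 1
    refine Finset.sum_congr rfl fun b _ => ?_
    rw [mul_div_assoc]
    congr 1
    unfold comb
    rw [Finset.sum_div]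
    refine Finset.sum_congr rfl fun j _ => ?_
    rw [mul_div_assoc]
    congr 1
    have e6 : ∀ b : ℤ, sgnPart (s : ℂ) (PP R ⊤ e kk 0) ∞
        ((b / ((3 ^ (m + 1) : ℕ) : ℚ) : ℚ) : OnePoint ℚ) = u * sgnPart (s : ℂ)
        (fun x y => PhiK R e kk' x y / (u * R.om R.i0)) ∞
        (((b : ℚ) / 3 ^ (m + 1) : ℚ) : OnePoint ℚ) := by
      intro b
      have e7 : ∀ x y, PP R ⊤ e kk 0 x y = u * (PhiK R e kk' x y / (u * R.om R.i0)) := by
        intro x y
        rw [Brg.PP_zero, ← mul_div_assoc, mul_div_mul_left _ _ hu]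
      unfold sgnPart
      rw [e7, e7]
      push_cast
      ring
    beta_reduce
    rw [e6, e6]
    field_simp
  rw [e5, map_mul, map_mul]
  have e8 : V.valuation (2 : ℂ) = 1 := by
    have := v1 2 (by norm_num)
    exact_mod_cast this
  have e9 : V.valuation (f : ℂ) = 1 := by
    have := v1 f (by
      intro h
      exact hS.fp (by exact_mod_cast h))
    exact_mod_cast this
  rw [e8, e9, one_mul, one_mul]
  exact h1

end

end Pool.Agent.NSH


end

section

/-!
# NS, block GN, module GTH: THEOREM G (helper6; adapted from helper48's `MUX/N_GTHX.lean`)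
-/

set_option autoImplicit false

namespace Pool.Agent.NSG

open _root_.MU3 _root_.Pool.Agent.MU3A _root_.Pool.Agent.MU3B _root_.Pool.Agent.MU3Q _root_.Pool.Agent.MUX _root_.Pool.Agent.NS
  _root_.Pool.Agent.MUXN _root_.Pool.Agent.MuSym OnePoint UpperHalfPlane
open scoped MatrixGroups

noncomputable section

open _root_.Pool.Agent.MU3G in
theorem tn_GTH (h1 : Sn_GJ) (h2 : Sg_DSC) (h3 : Sg_ZL) (h4 : Sg_FK) (h5 : Sg_FGG) : Sn_GTH := by
  classical
  intro A B hc J' _ Ψ Θ α₁ Om N' hG V p hp hpV h2V hLoc L' el lam hL kk' hkk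
  by_contra hcon
  push Not at hcon
  have hOm0 : Om ≠ 0 := hL.om0
  obtain ⟨r, h, hh, hfg⟩ := h5 N' hG.pos
  set Pm : Fin r → J' → ℂ := fun l' c => Ψ c ∞
      (mob (h l' 0 0) (h l' 0 1) (h l' 1 0) (h l' 1 1) ∞) / Om with hPm
  -- the space of the period vectors
  let T : (J' → ℂ) →ₗ[ℂ] (Fin r → ℂ) :=
    { toFun := fun y l' => ∑ c, y c * Pm l' c
      map_add' := by
        intro y z
        funext l'
        simp only [Pi.add_apply, add_mul, Finset.sum_add_distrib]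
      map_smul' := by
        intro a y
        funext l'
        simp only [Pi.smul_apply, smul_eq_mul, RingHom.id_apply, Finset.mul_sum, mul_assoc] }
  have hT : ∀ y l', T y l' = ∑ c, y c * Pm l' c := fun y l' => rfl
  set X : Submodule ℂ (Fin r → ℂ) := LinearMap.range T with hX
  have hcol : ∀ c : J', (fun l' => Pm l' c) ∈ X := by
    intro c
    refine ⟨Pi.single c 1, ?_⟩
    funext l'
    rw [hT, Finset.sum_eq_single c]
    · simp
    · intro c' _ hc'
      simp [Pi.single_eq_of_ne hc']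
    · intro hc'
      exact absurd (Finset.mem_univ _) hc'
  obtain ⟨hfk, hfk2⟩ := h4 A B hc
  have hst : ∀ σ : ℂ ≃+* ℂ, (∀ a ∈ (kk A B : Set ℂ), σ a = a) → ∀ x ∈ X,
      (fun i => σ (x i)) ∈ X := by
    intro σ hσ x hx
    obtain ⟨y, rfl⟩ := hx
    have hF : FixK A B σ := (hfk σ).2 hσ
    have hcol' : ∀ c : J', (fun l' => σ (Pm l' c)) ∈ X := by
      intro c
      obtain ⟨j, u, hu⟩ := hG.rat σ hF c
      have e1 : (fun l' => σ (Pm l' c)) = u • (fun l' => Pm l' j) := by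
        funext l'
        simp only [Pi.smul_apply, smul_eq_mul, hPm, hu]
      rw [e1]
      exact X.smul_mem _ (hcol _)
    have e3 : (fun i => σ (T y i)) = ∑ c, (σ (y c)) • (fun l' => σ (Pm l' c)) := by
      funext l'
      rw [hT, map_sum, Finset.sum_apply]
      refine Finset.sum_congr rfl fun c _ => ?_
      simp
    rw [e3]
    exact X.sum_mem fun c _ => X.smul_mem _ (hcol' c)
  obtain ⟨J, ej, hJ, hJX⟩ := h2 (kk A B : Set ℂ)
    (fun x hx => hfk2 x fun σ hσ => hx σ ((hfk σ).1 hσ)) V r X hst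
  have hgj : ∀ j : Fin r, j ∈ J → ∃ y' : J' → ℂ, (∀ l', ∑ c, y' c * Pm l' c = ej j l') ∧
      ∑ c : J', y' c * α₁ c ∈ V := by
    intro j hj
    obtain ⟨hX1, hX2, -⟩ := hJ j hj
    obtain ⟨y, hy⟩ := hX1
    exact h1 A B hc J' Ψ Θ α₁ Om N' hG V p hp hpV h2V hLoc L' el lam hL r h hh hfg (ej j) hX2 y
      (fun l' => by rw [← hy]; rfl)
  choose! y' hy'1 hy'2 using hgj
  -- the vector `x`
  set x : Fin r → ℂ := T kk' with hx
  have hxnu : ∀ l', x l' ∈ V.nonunits := by
    intro l'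
    obtain ⟨m1, m2⟩ := G6c.mem1 (hh l')
    have h6 := hcon (h l' 0 0) (h l' 0 1) (h l' 1 0) (h l' 1 1) (G6c.det_eq (h l')) m1 m2
    have e1 : x l' = (∑ j, kk' j * Ψ j ∞ (mob (h l' 0 0) (h l' 0 1) (h l' 1 0) (h l' 1 1) ∞)) /
        Om := by
      rw [hx, hT, Finset.sum_div]
      refine Finset.sum_congr rfl fun c _ => ?_
      rw [hPm]
      ring
    rw [e1]
    exact h6
  have hxJ : x = ∑ j ∈ J, x j • ej j := hJX x ⟨kk', rfl⟩
  set yp : J' → ℂ := fun c => kk' c - ∑ j ∈ J, x j * y' j c with hyp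
  have hyp0 : ∀ l', ∑ c, yp c * Pm l' c = 0 := by
    intro l'
    have e1 : ∑ c, yp c * Pm l' c = x l' - ∑ j ∈ J, x j * ej j l' := by
      have e2 : ∑ j ∈ J, x j * ej j l' = ∑ c, (∑ j ∈ J, x j * y' j c) * Pm l' c := by
        simp_rw [Finset.sum_mul]
        rw [Finset.sum_comm]
        refine Finset.sum_congr rfl fun j hj => ?_
        rw [← hy'1 j hj l', Finset.mul_sum]
        refine Finset.sum_congr rfl fun c _ => ?_
        ring
      rw [e2, hx, hT, ← Finset.sum_sub_distrib]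
      refine Finset.sum_congr rfl fun c _ => ?_
      rw [hyp]
      ring
    have e3 := congrFun hxJ l'
    rw [Finset.sum_apply] at e3
    simp only [Pi.smul_apply, smul_eq_mul] at e3
    rw [e1, ← e3, sub_self]
  -- the form
  choose α hα using fun j => hG.qexp j
  set Z : ℍ → ℂ := fun τ => ∑ c : J', yp c * Θ c (τ : ℂ) with hZ
  set z : PowerSeries ℂ := PowerSeries.mk fun n => ∑ c : J', yp c * (α c n / n) with hz
  have hzn : ∀ n, PowerSeries.coeff n z = ∑ c : J', yp c * (α c n / n) :=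
    fun n => by rw [hz, PowerSeries.coeff_mk]
  have hsmul : ∀ (γ : SL(2, ℤ)) (τ : ℍ), ((γ • τ : ℍ) : ℂ) =
      (((γ 0 0 : ℤ) : ℂ) * τ + ((γ 0 1 : ℤ) : ℂ)) /
          (((γ 1 0 : ℤ) : ℂ) * τ + ((γ 1 1 : ℤ) : ℂ)) := by
    intro γ τ
    rw [UpperHalfPlane.specialLinearGroup_apply]
    simp
  have hQS : QS Z z := by
    intro τ
    have hs := (hasSum_sum (s := Finset.univ) fun c (_ : c ∈ (Finset.univ : Finset (J'))) =>
      ((hα c).2.2.2 (τ : ℂ) τ.2).mul_left (yp c))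
    have e2 : (fun n : ℕ => PowerSeries.coeff n z * qq τ ^ n) = fun n : ℕ =>
        ∑ c : J', yp c * (α c n / n *
          Complex.exp (2 * Real.pi * Complex.I * (τ : ℂ)) ^ n) := by
      funext n
      rw [hzn n, qq, Finset.sum_mul]
      refine Finset.sum_congr rfl fun c _ => ?_
      ring
    rw [e2]
    exact hs
  have hcusp : ∀ γ : SL(2, ℤ), ∃ (C : ℂ) (w : ℕ → ℂ), ∀ τ : ℍ, HasSum (fun n : ℕ => w n *
      Complex.exp (2 * Real.pi * Complex.I * (τ : ℂ) / N') ^ (n + 1)) (Z (γ • τ) - C) := by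
    intro γ
    choose C W hW using fun c : J' => hG.cusp c (γ 0 0) (γ 0 1) (γ 1 0) (γ 1 1)
      (G6c.det_eq γ)
    refine ⟨∑ c : J', yp c * C c, fun n => ∑ c : J', yp c * W c n, ?_⟩
    intro τ
    have hs := (hasSum_sum (s := Finset.univ) fun c (_ : c ∈ (Finset.univ : Finset (J'))) =>
      (hW c (τ : ℂ) τ.2).mul_left (yp c))
    have e1 : (fun n : ℕ => (∑ c : J', yp c * W c n) *
        Complex.exp (2 * Real.pi * Complex.I * (τ : ℂ) / N') ^ (n + 1)) = fun n : ℕ =>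
        ∑ c : J', yp c * (W c n *
          Complex.exp (2 * Real.pi * Complex.I * (τ : ℂ) / N') ^ (n + 1)) := by
      funext n
      rw [Finset.sum_mul]
      refine Finset.sum_congr rfl fun c _ => ?_
      ring
    have e2 : Z (γ • τ) - ∑ c : J', yp c * C c = ∑ c : J', yp c *
        (Θ c ((((γ 0 0 : ℤ) : ℂ) * τ + ((γ 0 1 : ℤ) : ℂ)) /
          (((γ 1 0 : ℤ) : ℂ) * τ + ((γ 1 1 : ℤ) : ℂ))) - C c) := by
      rw [hZ]
      beta_reduce
      rw [← Finset.sum_sub_distrib, hsmul]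
      refine Finset.sum_congr rfl fun c _ => ?_
      ring
    rw [e1, e2]
    exact hs
  -- the periods
  set ρ : SL(2, ℤ) → ℂ := fun g => ∑ c : J', yp c *
    (Ψ c ∞ (G6c.mI g) / Om) with hρ
  have hρadd : ∀ g ∈ CongruenceSubgroup.Gamma1 N', ∀ g' ∈ CongruenceSubgroup.Gamma1 N',
      ρ (g * g') = ρ g + ρ g' := by
    intro g hg g' hg'
    rw [hρ]
    beta_reduce
    rw [← Finset.sum_add_distrib]
    refine Finset.sum_congr rfl fun c _ => ?_
    obtain ⟨m1, m2⟩ := G6c.mem1 hg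
    have a1 := hG.add c ∞ (G6c.mI g) (G6c.mI (g * g'))
    have a2 := hG.inv c (g 0 0) (g 0 1) (g 1 0) (g 1 1) (G6c.det_eq g) m1 m2 ∞
      (G6c.mI g')
    rw [← G6c.mI_mul] at a2
    have a3 : mob (g 0 0) (g 0 1) (g 1 0) (g 1 1) ∞ = G6c.mI g := rfl
    rw [a3] at a2
    rw [← a1, a2]
    ring
  have hρ0 : ∀ g ∈ CongruenceSubgroup.Gamma1 N', ρ g = 0 := by
    intro g hg
    have := hfg ρ hρadd ⊥ (fun i => by
      rw [AddSubgroup.mem_bot]
      exact hyp0 i) g hg
    rwa [AddSubgroup.mem_bot] at this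
  have hper : ∀ γ ∈ CongruenceSubgroup.Gamma1 N', ∀ τ : ℍ, Z (γ • τ) = Z τ := by
    intro γ hγ τ
    obtain ⟨m1, m2⟩ := G6c.mem1 hγ
    have e1 : Z (γ • τ) - Z τ = Om * ρ γ := by
      rw [hZ, hρ]
      beta_reduce
      rw [hsmul, ← Finset.sum_sub_distrib, Finset.mul_sum _ _ Om]
      refine Finset.sum_congr rfl fun c _ => ?_
      rw [hG.per c (γ 0 0) (γ 0 1) (γ 1 0) (γ 1 1) (G6c.det_eq γ) m1 m2 (τ : ℂ) τ.2]
      have a3 : mob (γ 0 0) (γ 0 1) (γ 1 0) (γ 1 1) ∞ = G6c.mI γ := rfl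
      rw [a3]
      field_simp
      ring
    rw [hρ0 γ hγ, mul_zero] at e1
    exact sub_eq_zero.1 e1
  have hz0 : z = 0 := h3 N' hG.pos Z z hQS (by rw [hzn]; simp) hcusp hper
  have hc1 := hzn 1
  rw [hz0, map_zero] at hc1
  have e1 : (∑ c : J', yp c * (α c 1 / (1 : ℕ))) = ∑ c : J', yp c * α₁ c := by
    refine Finset.sum_congr rfl fun c _ => ?_
    rw [(hα c).2.2.1]
    simp
  have e2 : ∑ c : J', yp c * α₁ c = ∑ j, kk' j * α₁ j - ∑ j ∈ J, x j * ∑ c : J', y' j c * α₁ c := by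
    have e4 : ∑ c : J', (∑ j ∈ J, x j * y' j c) * α₁ c =
        ∑ j ∈ J, x j * ∑ c : J', y' j c * α₁ c := by
      simp_rw [Finset.sum_mul, Finset.mul_sum]
      rw [Finset.sum_comm]
      refine Finset.sum_congr rfl fun j _ => Finset.sum_congr rfl fun c _ => ?_
      ring
    rw [← e4, ← Finset.sum_sub_distrib]
    refine Finset.sum_congr rfl fun c _ => ?_
    rw [hyp]
    ring
  have e5 : ∑ j, kk' j * α₁ j = ∑ j ∈ J, x j * ∑ c : J', y' j c * α₁ c := by
    rw [e1, e2] at hc1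
    exact (sub_eq_zero.1 hc1.symm)
  apply hkk
  rw [e5]
  exact sum_mem fun j hj => by
    rw [mul_comm]
    exact Pool.Agent.MU3A2.nonunit_mul (hy'2 j hj) (hxnu j)

end

end Pool.Agent.NSG


end

section

/-!
# NS, blocks GN, HG, IN without hypotheses (helper6): `3` inert
-/

set_option autoImplicit false

namespace Pool.Agent.NSZ

open _root_.MU3 _root_.Pool.Agent.MUX _root_.Pool.Agent.MUXN _root_.Pool.Agent.MUXF _root_.Pool.Agent.MUXY _root_.Pool.Agent.MUXU
  _root_.Pool.Agent.MuSym _root_.Pool.Agent.NS _root_.Pool.Agent.NSG OnePoint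

/-- Theorem G for the translates -/
theorem g_GPTn : Sn_GPT :=
  gPT u_SCX (tn_GTH (tn_GJ Pool.Agent.MU3Q.wq (tg_GP tg_GV tg_GD) tg_DV tg_RET tg_NFE)
    (tg_DSC tg_DSI) tg_ZL (tg_FK u_AUF) tg_FGG) Pool.Agent.MUXT.main_FTI xf_CHI y_CON y_ALP
    y_FEC y_COP xf_ALG xf_IDL xf_NIM xf_QB xf_BDD xf_TSM

/-- the character sums -/
theorem h_HFINn : Sn_HFIN :=
  Pool.Agent.NSH.th_HFIN g_GPTn Pool.Agent.NST.x_TYF y_ALP y_COP

/-- the inputs of block K, except for the first part -/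
theorem i_INPn : Pool.Agent.NSI.Sn_INP := Pool.Agent.NSI.n_INP h_HFINn

end Pool.Agent.NSZ


end

section

/-!
# NS: the final theorem for `p = 3` inert in `k`, `D ≠ -4` (helper6)
-/

set_option autoImplicit false

open NumberField IsDedekindDomain

namespace Pool.Agent.NSZ

open _root_.MU3 _root_.Pool.Agent.MU3 _root_.Pool.Agent.MU3A _root_.Pool.Agent.MU3B _root_.Pool.Agent.RI _root_.Pool.Agent.RID
  _root_.Pool.Agent.MUX _root_.Pool.Agent.MUXK _root_.Pool.Agent.MUXJ _root_.Pool.Agent.MUXW _root_.Pool.Agent.MUXZ _root_.Pool.Agent.NSI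
  _root_.Pool.Agent.NS _root_.Pool.Agent.MU3Z

/-- the inputs of block J -/
theorem i_INPGn (A B : ℤ) (V : ValuationSubring ℂ) (hC : CaseI A B)
    (hV : OverI V (idl (A := A) (B := B) 3)) (hT : TorX A B) :
    InpG 3 (2 * (absD A B).toNat) A B V :=
  ni_INPG Pool.Agent.NSR.rfin Pool.Agent.NSE.efin i_INPn tl_LVX
    (tl_INW tl_LVX n_SUB z_MEM z_TOW z_SUC z_I1 z_KOL) n_SUB (tz_THN z_THG) z_MEM z_CXS
    MUXY.z_REX A B V hC hV hT

/-- `3` is a prime element of `O` -/
theorem three_max {A B : ℤ} (hC : CaseI A B) : (idl (A := A) (B := B) 3).IsMaximal := by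
  have h3 := hC.three
  apply idl_max 3 Nat.prime_three
  intro a b h
  push_cast at h ⊢
  -- `4 (a² + B a b - A b²) = (2 a + B b)² - (B² + 4 A) b² ≡ (2 a + B b)² + b²`
  have h1 : (3 : ℤ) ∣ (2 * a + B * b) ^ 2 + b ^ 2 := by
    have e : (2 * a + B * b) ^ 2 + b ^ 2 = 4 * (a ^ 2 + B * a * b - A * b ^ 2) +
        (B ^ 2 + 4 * A + 1) * b ^ 2 := by ring
    rw [e]
    exact dvd_add (Dvd.dvd.mul_left h 4) (Dvd.dvd.mul_right h3 _)
  have h2 : ∀ x y : ℤ, (3 : ℤ) ∣ x ^ 2 + y ^ 2 → (3 : ℤ) ∣ x ∧ (3 : ℤ) ∣ y := by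
    intro x y hxy
    have hx : x % 3 = 0 ∨ x % 3 = 1 ∨ x % 3 = 2 := by omega
    have hy : y % 3 = 0 ∨ y % 3 = 1 ∨ y % 3 = 2 := by omega
    have hm : (x ^ 2 + y ^ 2) % 3 = 0 := Int.emod_eq_zero_of_dvd hxy
    rw [Int.add_emod, pow_two, pow_two, Int.mul_emod x x, Int.mul_emod y y] at hm
    rcases hx with hx | hx | hx <;> rcases hy with hy | hy | hy <;> rw [hx, hy] at hm <;>
      first
        | exact ⟨Int.dvd_of_emod_eq_zero hx, Int.dvd_of_emod_eq_zero hy⟩
        | (exfalso; norm_num at hm)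
  obtain ⟨h4, h5⟩ := h2 _ _ h1
  refine ⟨?_, h5⟩
  have h6 : (3 : ℤ) ∣ 2 * a := by
    have e : 2 * a = (2 * a + B * b) - B * b := by ring
    rw [e]
    exact dvd_sub h4 (Dvd.dvd.mul_left h5 B)
  omega

/-- THE MAIN THEOREM, `3` inert -/
theorem z_main3 (A B : ℤ) (hC : CaseI A B)
    (F M K : IntermediateField ℚ ℂ) [FiniteDimensional ℚ M] (hF : kk A B ≤ F) (h : F ≤ M)
    (a : ℕ) (hT : TorU A B F) (hGal : IsGalois F (IntermediateField.extendScalars h))
    (ha : Module.finrank F (IntermediateField.extendScalars h) = 3 ^ a) (hK : K ≤ M) :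
    ∃ C : ℕ, ∀ (n : ℕ) (Q : IntermediateField ℚ ℂ), IsLayer 3 n Q →
      padicValNat 3 (classNo (K ⊔ Q)) ≤ C * (n + 1) ^ C := by
  have : Fact (Nat.Prime 3) := ⟨Nat.prime_three⟩
  have hCQ : MUX.CQ A B := hC.toCQ
  have hmax := three_max hC
  obtain ⟨V, hV⟩ := vex hCQ _ hmax
  have hTor := MUXC.c_TOR A B hCQ
  have hpos : 0 < absD A B := by
    have := hCQ.neg
    unfold absD
    omega
  have h3 := hC.three
  have hn3 : ¬ 3 ∣ (absD A B).toNat := by
    intro h
    have h4 : (3 : ℤ) ∣ absD A B := by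
      have h5 : ((3 : ℕ) : ℤ) ∣ (((absD A B).toNat : ℕ) : ℤ) := Int.natCast_dvd_natCast.2 h
      rwa [Int.toNat_of_nonneg hpos.le] at h5
    unfold absD at h4
    omega
  have hd3 : absD A B ≠ 3 := by
    intro h
    unfold absD at h
    omega
  have hd4 : absD A B ≠ 4 := by
    intro h
    apply hC.exc
    unfold absD at h
    rcases hCQ.hB with hB | hB
    · refine ⟨hB, ?_⟩
      rw [hB] at h
      omega
    · rw [hB] at h
      omega
  have hNL : NLex A B := by
    obtain ⟨L, om, hL⟩ := MUXY.z_NLE A B hCQ hd3 hd4 ⊤ (by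
      have := (MUXE.xe_RNG A B hCQ).ded
      exact bot_ne_top.symm)
    exact ⟨⊤, L, om, hL⟩
  have hU : UnrH A B V := by
    have h1 := (Pool.Agent.NSR.rfin A B V hC hV hTor).2 1 one_ne_zero (by norm_num)
    have h2 : idl (A := A) (B := B) 1 = ⊤ := by
      unfold idl
      rw [Nat.cast_one, Ideal.span_singleton_one]
    rw [h2] at h1
    exact h1
  refine j_FING 3 1 (2 * (absD A B).toNat) A B (idl 3) V (aboX 3 (Or.inr rfl) hCQ hmax V hV)
    (by omega) ?_ (fun _ => dvd_mul_right 2 _) hU hTor hNL (i_INPGn A B V hC hV hTor) F M K hF h a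
    hT hGal ha hK
  intro h4
  rcases (Nat.Prime.dvd_mul Nat.prime_three).1 h4 with h5 | h5
  · norm_num at h5
  · exact hn3 h5

/-- every finite extension of `ℚ` inside the maximal abelian extension of `ℚ(√-d)`, `d ≡ 1` modulo 3,
`d ≠ 1` -/
theorem final3 (d : ℕ) (hd : Squarefree d) (h3 : d % 3 = 1) (h1 : d ≠ 1)
    (K : IntermediateField ℚ ℂ) [FiniteDimensional ℚ K] (hK : K ≤ weberField d) :
    ∃ C : ℕ, ∀ (n : ℕ) (Q : IntermediateField ℚ ℂ), IsLayer 3 n Q →
      padicValNat 3 (classNo (K ⊔ Q)) ≤ C * (n + 1) ^ C := by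
  have h0 : d ≠ 3 := by omega
  have hC : CaseI (pA d) (pB d) := by
    have h4 := absD_p d
    refine { cq_p hd with three := ?_, exc := ?_ }
    · unfold absD at h4
      split_ifs at h4 <;> omega
    · rintro ⟨h6, h5⟩
      unfold absD at h4
      rw [h6, h5] at h4
      split_ifs at h4 <;> omega
  refine to_weber hd h1 h0 (MUXC.c_TOR _ _ (cq_p hd)) ?_ K hK
  intro F M K _ hF h a hT hGal ha hK
  exact z_main3 _ _ hC F M K hF h a hT hGal ha hK

end Pool.Agent.NSZ


end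

section

/-!
# JT: `p = 3`, all imaginary quadratic fields except `ℚ(i)`, `ℚ(√-3)` (helper3)
-/

set_option autoImplicit false

open NumberField

namespace Pool.Agent.JT

open _root_.MU3 _root_.Pool.Agent.MU3A _root_.Pool.Agent.RI _root_.Pool.Agent.MUX _root_.Pool.Agent.MUXJ _root_.Pool.Agent.HB
  _root_.Pool.Agent.NSZ _root_.Pool.Agent.NS

/-- `p = 3`, all `k` except `ℚ(i)`, `ℚ(√-3)`, for ray class fields -/
theorem z_all3 (A B : ℤ) (hC : MUX.CQ A B) (h3 : absD A B ≠ 3) (h4 : absD A B ≠ 4)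
    (F M K : IntermediateField ℚ ℂ) [FiniteDimensional ℚ M] (hF : kk A B ≤ F) (h : F ≤ M)
    (a : ℕ) (hT : TorU A B F) (hG : IsGalois F (IntermediateField.extendScalars h))
    (ha : Module.finrank F (IntermediateField.extendScalars h) = 3 ^ a) (hK : K ≤ M) :
    ∃ C : ℕ, ∀ (n : ℕ) (Q : IntermediateField ℚ ℂ), IsLayer 3 n Q →
      padicValNat 3 (classNo (K ⊔ Q)) ≤ C * (n + 1) ^ C := by
  unfold absD at h3 h4
  have h0 : (3 : ℤ) ∣ B ^ 2 + 4 * A ∨ (3 : ℤ) ∣ B ^ 2 + 4 * A - 1 ∨ (3 : ℤ) ∣ B ^ 2 + 4 * A + 1 := by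
    generalize B ^ 2 + 4 * A = D
    omega
  rcases h0 with h0 | h0 | h0
  · exact z_main3r A B { hC with
      three := h0
      exc := by
        rintro ⟨h5, h6⟩
        rw [h5, h6] at h3
        norm_num at h3 } F M K hF h a hT hG ha hK
  · exact MUXZ.z_main 3 A B { hC with split := Or.inl ⟨rfl, h0⟩ } F M K hF h a hT hG ha hK
  · exact z_main3 A B { hC with
      three := h0
      exc := by
        rintro ⟨h5, h6⟩
        rw [h5, h6] at h4
        norm_num at h4 } F M K hF h a hT hG ha hK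

theorem finJ3_non (d : ℕ) (hd : Squarefree d) (h1 : d ≠ 1) (h3 : d ≠ 3) : FinJ 3 d :=
  finJ_of (fun A B hC h3 h4 F M K _ hF h a hT hG ha hK => z_all3 A B hC h3 h4 F M K hF h a hT hG ha hK)
    d hd h1 h3

end Pool.Agent.JT


end
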