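import Mathlib
import Pool.Agent.MVF.C151
import Pool.Agent.MVF.C169
import Pool.Agent.MVF.C170

/-! Parts: ME.E3_DIS, ME.Z3_INPG -/

namespace Pool.Agent.ME3.DIS84
end Pool.Agent.ME3.DIS84

section

/-!
# MUX-NS, block ER: module DIS, the distribution relation for `L → N = ν P⁻¹ L` (helper84)
-/

set_option autoImplicit false

namespace Pool.Agent.ME3

open _root_.MU3 _root_.Pool.Agent.MU3A _root_.Pool.Agent.MU3B _root_.Pool.Agent.MUX _root_.Pool.Agent.MUXU _root_.Pool.Agent.MUXE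
open _root_.Pool.Agent.RI _root_.Pool.Agent.NS _root_.Pool.Agent.NSRD
open _root_.Pool.Agent.ME hiding ActE
open _root_.Pool.Agent.MEE
open _root_.Pool.Agent.NSER (PtsR Ex Sf_ALG Sf_PRO Sf_PUL Sf_COE Sf_GRN Sf_LEG Sf_TW3 Sf_PTS Sf_TNC Sf_UNT Sf_RAT Sf_ISO Sf_ADD Sf_THN Sf_NE1 Sf_ORB)

noncomputable section

namespace DIS84

/-- the facts on `L`, `N`, `ν` which are used -/
structure _root_.Pool.Agent.ME3.DIS84.Fa (L N : PeriodPair) (nu : ℂ) : Prop where
  ne : nu ≠ 0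
  isg : ∀ w ∈ L.lattice, nu * w ∈ N.lattice
  three : ∀ w, nu * w ∈ N.lattice → 3 * w ∈ L.lattice

theorem _root_.Pool.Agent.ME3.DIS84.nat_mul {M : PeriodPair} (k : ℕ) {w : ℂ} (h : w ∈ M.lattice) :
    (k : ℂ) * w ∈ M.lattice := by
  have := nsmul_mem h k
  rwa [nsmul_eq_mul] at this

theorem int_mul {M : PeriodPair} (k : ℤ) {w : ℂ} (h : w ∈ M.lattice) :
    (k : ℂ) * w ∈ M.lattice := by
  have := zsmul_mem h k
  rwa [zsmul_eq_mul] at this

theorem _root_.Pool.Agent.ME3.DIS84.cop_mem {M : PeriodPair} {a : ℕ} (ha : ¬ 3 ∣ a) {w : ℂ} (h3 : 3 * w ∈ M.lattice)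
    (h : (a : ℂ) * w ∈ M.lattice) : w ∈ M.lattice := by
  have h1 : Nat.Coprime 3 a := (Nat.Prime.coprime_iff_not_dvd (by norm_num)).2 ha
  obtain ⟨u, v, huv⟩ := Nat.isCoprime_iff_coprime.2 h1
  have h2 : w = (u : ℂ) * (3 * w) + (v : ℂ) * ((a : ℂ) * w) := by
    have h4 : (u : ℂ) * 3 + v * a = 1 := by exact_mod_cast huv
    linear_combination (-w) * h4
  rw [h2]
  exact add_mem (int_mul u h3) (int_mul v h)

/-- the half system `ν H` -/
theorem _root_.Pool.Agent.ME3.DIS84.half {L N : PeriodPair} {nu : ℂ} (hF : _root_.Pool.Agent.ME3.DIS84.Fa L N nu) {a : ℕ} (ha : ¬ 3 ∣ a) {H : Finset ℂ}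
    (hH : IsHalf L (a : ℂ) H) : IsHalf N (a : ℂ) (H.image fun h => nu * h) := by
  have key : ∀ w, (a : ℂ) * w ∈ L.lattice → nu * w ∈ N.lattice → w ∈ L.lattice := by
    intro w hw hn
    exact _root_.Pool.Agent.ME3.DIS84.cop_mem ha (hF.three w hn) hw
  refine ⟨?_, ?_, ?_, ?_, ?_⟩
  · intro q hq
    obtain ⟨h, hh, rfl⟩ := Finset.mem_image.1 hq
    have := hF.isg _ (hH.mem h hh)
    rw [mul_left_comm]
    exact this
  · intro q hq h2
    obtain ⟨h, hh, rfl⟩ := Finset.mem_image.1 hq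
    refine hH.ne h hh (key _ ?_ ?_)
    · rw [mul_left_comm]
      have := _root_.Pool.Agent.ME3.DIS84.nat_mul (M := L) 2 (hH.mem h hh)
      exact_mod_cast this
    · rw [mul_left_comm]
      exact h2
  · intro q hq q' hq' h2
    obtain ⟨h, hh, rfl⟩ := Finset.mem_image.1 hq
    obtain ⟨h', hh', rfl⟩ := Finset.mem_image.1 hq'
    have : h = h' := by
      refine hH.inj h hh h' hh' (key _ ?_ ?_)
      · rw [mul_sub]; exact sub_mem (hH.mem h hh) (hH.mem h' hh')
      · rw [mul_sub]; exact h2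
    rw [this]
  · intro q hq q' hq' h2
    obtain ⟨h, hh, rfl⟩ := Finset.mem_image.1 hq
    obtain ⟨h', hh', rfl⟩ := Finset.mem_image.1 hq'
    refine hH.neg h hh h' hh' (key _ ?_ ?_)
    · rw [mul_add]; exact add_mem (hH.mem h hh) (hH.mem h' hh')
    · rw [mul_add]; exact h2
  · intro z hz hzN
    have h1 : Nat.Coprime 3 a := (Nat.Prime.coprime_iff_not_dvd (by norm_num)).2 ha
    obtain ⟨u, v, huv⟩ := Nat.isCoprime_iff_coprime.2 h1
    have h4 : (u : ℂ) * 3 + v * a = 1 := by exact_mod_cast huv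
    have hne := hF.ne
    set w : ℂ := z / nu with hw
    have hzw : z = nu * w := by rw [hw]; field_simp
    have h5 : 3 * ((a : ℂ) * w) ∈ L.lattice := by
      refine hF.three _ ?_
      rw [mul_left_comm, ← hzw]
      exact hz
    have h6 : (a : ℂ) * ((u : ℂ) * (3 * w)) ∈ L.lattice := by
      have := int_mul (M := L) u h5
      have e : (a : ℂ) * ((u : ℂ) * (3 * w)) = (u : ℂ) * (3 * ((a : ℂ) * w)) := by ring
      rw [e]; exact this
    have h7 : (v : ℂ) * ((a : ℂ) * (nu * w)) ∈ N.lattice := by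
      rw [← hzw]; exact int_mul v hz
    have h8 : (u : ℂ) * (3 * w) ∉ L.lattice := by
      intro h
      refine hzN ?_
      have e : z = nu * ((u : ℂ) * (3 * w)) + (v : ℂ) * ((a : ℂ) * (nu * w)) := by
        rw [hzw]; linear_combination (-(nu * w)) * h4
      rw [e]
      exact add_mem (hF.isg _ h) h7
    obtain ⟨h, hh, h9⟩ := hH.surj _ h6 h8
    refine ⟨nu * h, Finset.mem_image_of_mem _ hh, ?_⟩
    rcases h9 with h9 | h9
    · left
      have e : z - nu * h = nu * ((u : ℂ) * (3 * w) - h) + (v : ℂ) * ((a : ℂ) * (nu * w)) := by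
        rw [hzw]; linear_combination (-(nu * w)) * h4
      rw [e]
      exact add_mem (hF.isg _ h9) h7
    · right
      have e : z + nu * h = nu * ((u : ℂ) * (3 * w) + h) + (v : ℂ) * ((a : ℂ) * (nu * w)) := by
        rw [hzw]; linear_combination (-(nu * w)) * h4
      rw [e]
      exact add_mem (hF.isg _ h9) h7

/-- `℘` is periodic -/
theorem per {L : PeriodPair} {x y : ℂ} (h : x - y ∈ L.lattice) :
    L.weierstrassP x = L.weierstrassP y := by
  have h1 := L.weierstrassP_add_coe y ⟨x - y, h⟩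
  simp only [add_sub_cancel] at h1
  exact h1

/-- the product relation -/
theorem _root_.Pool.Agent.ME3.DIS84.prod_rel (hPFI : Su_PFI) {L N : PeriodPair} {nu : ℂ} (hF : _root_.Pool.Agent.ME3.DIS84.Fa L N nu) {a : ℕ}
    (ha : ¬ 3 ∣ a) {H : Finset ℂ} (hH : IsHalf L (a : ℂ) H) {q : ℂ} (hq3 : 3 * q ∈ L.lattice)
    (hR : IsRpM L N nu {q, -q}) (hqq : q ≠ -q) {z : ℂ} (hz : nu * z ∉ N.lattice) :
    (∏ l ∈ Finset.range 3, ThetaH L H (z + l * q)) =
      (∏ h ∈ H, nu ^ 2 * ((L.weierstrassP h - L.weierstrassP q) *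
        (L.weierstrassP h - L.weierstrassP (-q)))) *
      ∏ h ∈ H, (N.weierstrassP (nu * z) - N.weierstrassP (nu * h)) := by
  have hhN : ∀ h ∈ H, nu * h ∉ N.lattice := by
    intro h hh hn
    refine hH.ne h hh ?_
    have h1 := _root_.Pool.Agent.ME3.DIS84.cop_mem ha (hF.three h hn) (hH.mem h hh)
    have := _root_.Pool.Agent.ME3.DIS84.nat_mul (M := L) 2 h1
    exact_mod_cast this
  have e2 : L.weierstrassP (z + (2 : ℕ) * q) = L.weierstrassP (z + -q) := by
    refine per ?_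
    have e : z + ((2 : ℕ) : ℂ) * q - (z + -q) = 3 * q := by push_cast; ring
    rw [e]; exact hq3
  simp only [ThetaH, Finset.prod_range_succ, Finset.prod_range_zero, one_mul]
  rw [← Finset.prod_mul_distrib, ← Finset.prod_mul_distrib, ← Finset.prod_mul_distrib]
  refine Finset.prod_congr rfl fun h hh => ?_
  have h1 := hPFI L N nu {q, -q} hF.ne hF.isg hR z hz h (hhN h hh)
  rw [Finset.prod_pair hqq, Finset.prod_pair hqq] at h1
  rw [e2]
  simp only [Nat.cast_zero, zero_mul, add_zero, Nat.cast_one, one_mul]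
  linear_combination h1

end DIS84

open _root_.Pool.Agent.ME3.DIS84 in
theorem t3_DIS (hPFI : Su_PFI) : S3_DIS := by
  intro A B P V hC L N nu hL hN hQ a H H' ha0 ha hH hH' q hTq hq
  obtain ⟨φ, hφ⟩ := hC.ring.hom
  have h3P : ((3 : ℕ) : OO A B) ∈ P := by
    have h1 : ((3 : ℕ) : OO A B) ∈ P * P := by
      rw [hC.sq]
      exact Ideal.mem_span_singleton_self _
    exact Ideal.mul_le_left h1
  have he3 : emb ((3 : ℕ) : OO A B) = 3 := by
    rw [← hφ, map_natCast]; norm_num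
  have hPb : P ≠ ⊥ := by
    rintro rfl
    have h1 : ((3 : ℕ) : OO A B) = 0 := (Submodule.mem_bot _).1 h3P
    rw [h1] at he3
    have h2 : emb (0 : OO A B) = 0 := by rw [← hφ, map_zero]
    rw [h2] at he3
    norm_num at he3
  have hOL : ∀ (x : OO A B), ∀ w ∈ L.lattice, emb x * w ∈ L.lattice := by
    obtain ⟨b, om, hb⟩ := hL
    intro x w hw
    obtain ⟨y, hy, rfl⟩ := (hb.mem w).1 hw
    refine (hb.mem _).2 ⟨x * y, b.mul_mem_left x hy, ?_⟩
    rw [← hφ (x * y), map_mul, hφ, hφ]; ring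
  have hF : _root_.Pool.Agent.ME3.DIS84.Fa L N nu := by
    refine ⟨hQ.1, ?_, ?_⟩
    · intro w hw
      exact (hQ.2 w).2 fun x _ => hOL x w hw
    · intro w hw
      have := (hQ.2 w).1 hw _ h3P
      rwa [he3] at this
  have hqN : nu * q ∈ N.lattice := (hQ.2 q).2 hTq
  have hq3 : 3 * q ∈ L.lattice := hF.three q hqN
  have h2q : 2 * q ∉ L.lattice := by
    intro h
    refine hq ?_
    have e : q = 3 * q - 2 * q := by ring
    rw [e]; exact sub_mem hq3 h
  have hqq : q ≠ -q := by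
    intro h
    refine h2q ?_
    have e : 2 * q = 0 := by linear_combination h
    rw [e]; exact zero_mem _
  have hR : IsRpM L N nu {q, -q} := by
    refine ⟨?_, ?_, ?_, ?_⟩
    · intro r hr
      rcases Finset.mem_insert.1 hr with rfl | hr
      · exact hqN
      · rw [Finset.mem_singleton.1 hr, mul_neg]
        exact neg_mem hqN
    · intro r hr
      rcases Finset.mem_insert.1 hr with rfl | hr
      · exact hq
      · rw [Finset.mem_singleton.1 hr]
        intro h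
        exact hq (neg_mem_iff.1 h)
    · intro r hr r' hr' h
      rcases Finset.mem_insert.1 hr with rfl | hr
      · rcases Finset.mem_insert.1 hr' with rfl | hr'
        · rfl
        · rw [Finset.mem_singleton.1 hr'] at h
          exfalso; refine h2q ?_
          have e : 2 * r = r - -r := by ring
          rw [e]; exact h
      · rw [Finset.mem_singleton.1 hr] at h ⊢
        rcases Finset.mem_insert.1 hr' with rfl | hr'
        · exfalso; refine h2q ?_
          have e : 2 * r' = -(-r' - r') := by ring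
          rw [e]; exact neg_mem h
        · rw [Finset.mem_singleton.1 hr']
    · intro z hz hzL
      have hTz : Tor P L z := (hQ.2 z).1 hz
      obtain ⟨x, hx⟩ := (Pool.Agent.MEE.tm_TRB A B hC.ring L hL).2 P hPb hC.max q z hTq hTz hq
      have hxP : x ∉ P := by
        intro h
        refine hzL ?_
        have e : z = z - emb x * q + emb x * q := by ring
        rw [e]; exact add_mem hx (hTq x h)
      rcases hC.pm x hxP with h | h
      · refine ⟨q, by simp, ?_⟩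
        have h1 := hTq _ h
        have e1 : emb (x - 1) = emb x - 1 := by
          rw [← hφ, map_sub, map_one, hφ]
        rw [e1] at h1
        have e : z - q = z - emb x * q + (emb x - 1) * q := by ring
        rw [e]; exact add_mem hx h1
      · refine ⟨-q, by simp, ?_⟩
        have h1 := hTq _ h
        have e1 : emb (x + 1) = emb x + 1 := by
          rw [← hφ, map_add, map_one, hφ]
        rw [e1] at h1
        have e : z - -q = z - emb x * q + (emb x + 1) * q := by ring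
        rw [e]; exact add_mem hx h1
  have hH'' := _root_.Pool.Agent.ME3.DIS84.half hF ha hH
  set C : ℂ := ∏ h ∈ H, nu ^ 2 * ((L.weierstrassP h - L.weierstrassP q) *
        (L.weierstrassP h - L.weierstrassP (-q))) with hCdef
  have hhN : ∀ h ∈ H, nu * h ∉ N.lattice := by
    intro h hh hn
    refine hH.ne h hh ?_
    have h1 := _root_.Pool.Agent.ME3.DIS84.cop_mem ha (hF.three h hn) (hH.mem h hh)
    have := _root_.Pool.Agent.ME3.DIS84.nat_mul (M := L) 2 h1
    exact_mod_cast this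
  have hC0 : C ≠ 0 := by
    rw [hCdef, Finset.prod_ne_zero_iff]
    intro h hh
    have hhL : h ∉ L.lattice := fun h1 => hhN h hh (hF.isg h h1)
    have key : ∀ r : ℂ, r ∉ L.lattice → nu * r ∈ N.lattice →
        L.weierstrassP h - L.weierstrassP r ≠ 0 := by
      intro r hr hrN h0
      rcases b_NEQ L r h hr hhL (sub_eq_zero.1 h0) with h1 | h1
      · refine hhN h hh ?_
        have e : nu * h = nu * (h - r) + nu * r := by ring
        rw [e]; exact add_mem (hF.isg _ h1) hrN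
      · refine hhN h hh ?_
        have e : nu * h = nu * (h + r) - nu * r := by ring
        rw [e]; exact sub_mem (hF.isg _ h1) hrN
    refine mul_ne_zero (pow_ne_zero 2 hF.ne) (mul_ne_zero (key q hq hqN) (key (-q) ?_ ?_))
    · intro h; exact hq (neg_mem_iff.1 h)
    · rw [mul_neg]; exact neg_mem hqN
  have hprod : ∀ z : ℂ, (a : ℂ) * (nu * z) ∉ N.lattice →
      (∏ l ∈ Finset.range 3, ThetaH L H (z + l * q)) = C * ThetaH N H' (nu * z) := by
    intro z hz
    have hz1 : nu * z ∉ N.lattice := fun h => hz (_root_.Pool.Agent.ME3.DIS84.nat_mul a h)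
    rw [_root_.Pool.Agent.ME3.DIS84.prod_rel hPFI hF ha hH hq3 hR hqq hz1, ← hCdef,
      ← (b_TIN N a _ _ hH'' hH').1 (nu * z)]
    congr 1
    rw [ThetaH, Finset.prod_image fun x _ y _ h => mul_left_cancel₀ hF.ne h]
  refine ⟨C, hC0, fun z hz => ⟨hprod z hz, ?_⟩⟩
  have ha0' : (a : ℂ) ≠ 0 := by exact_mod_cast ha0
  have hna : ((‖(a : ℂ)‖ ^ 2 : ℝ) : ℂ) = (a : ℂ) ^ 2 := by
    rw [Complex.norm_natCast]; push_cast; ring
  -- derivatives of the left side
  have hzl : ∀ l : ℕ, (a : ℂ) * (z + l * q) ∉ L.lattice := by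
    intro l h
    refine hz ?_
    have h1 := hF.isg _ h
    have h2 : (a : ℂ) * (l * (nu * q)) ∈ N.lattice := _root_.Pool.Agent.ME3.DIS84.nat_mul a (_root_.Pool.Agent.ME3.DIS84.nat_mul l hqN)
    have e : (a : ℂ) * (nu * z) = nu * (a * (z + l * q)) - a * (l * (nu * q)) := by ring
    rw [e]; exact sub_mem h1 h2
  have d1 : ∀ l : ℕ, HasDerivAt (fun x => ThetaH L H (x + l * q))
      (dlX L a (z + l * q) * ThetaH L H (z + l * q)) z := by
    intro l
    have h1 := (b_TDL L a H ha0' (fun w hw => _root_.Pool.Agent.ME3.DIS84.nat_mul a hw) hH (z + l * q) (hzl l)).2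
    rw [hna] at h1
    exact h1.comp_add_const z _
  have d2 : HasDerivAt (fun x => ThetaH N H' (nu * x))
      (nu * dlX N a (nu * z) * ThetaH N H' (nu * z)) z := by
    have h1 := (b_TDL N a H' ha0' (fun w hw => _root_.Pool.Agent.ME3.DIS84.nat_mul a hw) hH' (nu * z) hz).2
    rw [hna] at h1
    have h2 : HasDerivAt (fun x : ℂ => nu * x) nu z := by
      simpa using (hasDerivAt_id z).const_mul nu
    refine (HasDerivAt.comp z h1 h2).congr_deriv ?_
    unfold dlX; ring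
  have d3 : HasDerivAt (fun x => ∏ l ∈ Finset.range 3, ThetaH L H (x + l * q))
      ((∑ l ∈ Finset.range 3, dlX L a (z + l * q)) *
        ∏ l ∈ Finset.range 3, ThetaH L H (z + l * q)) z := by
    have h1 := ((d1 0).mul (d1 1)).mul (d1 2)
    simp only [Finset.prod_range_succ, Finset.sum_range_succ, Finset.prod_range_zero,
      Finset.sum_range_zero, one_mul, zero_add]
    refine h1.congr_deriv ?_
    simp only [Pi.mul_apply]
    ring
  have hopen : IsOpen {x : ℂ | (a : ℂ) * (nu * x) ∉ N.lattice} := by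
    have h1 : IsClosed {x : ℂ | (a : ℂ) * (nu * x) ∈ N.lattice} :=
      N.isClosed_lattice.preimage (by fun_prop : Continuous fun x : ℂ => (a : ℂ) * (nu * x))
    exact h1.isOpen_compl
  have hev : (fun x => ∏ l ∈ Finset.range 3, ThetaH L H (x + l * q)) =ᶠ[nhds z]
      fun x => C * ThetaH N H' (nu * x) := by
    filter_upwards [hopen.mem_nhds hz] with x hx
    exact hprod x hx
  have d4 := (d2.const_mul C).congr_of_eventuallyEq hev
  have h5 := d3.unique d4
  rw [hprod z hz] at h5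
  have hz1 : nu * z ∉ N.lattice := fun h => hz (_root_.Pool.Agent.ME3.DIS84.nat_mul a h)
  have h6 : ThetaH N H' (nu * z) ≠ 0 := by
    intro h0
    exact hz ((b_TNZ N a H' (fun w hw => _root_.Pool.Agent.ME3.DIS84.nat_mul a hw) hH' (nu * z) hz1).1 h0)
  have h7 : C * ThetaH N H' (nu * z) ≠ 0 := mul_ne_zero hC0 h6
  refine mul_right_cancel₀ h7 ?_
  rw [h5]; ring

end

end Pool.Agent.ME3


end

section

/-!
# ME, `D = -3`, `p = 3` (helper87): the inputs of block J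

Model: `Pool/Agent/NS/ZR_INPG.lean`.
-/

set_option autoImplicit false

open NumberField IsDedekindDomain

namespace Pool.Agent.MEZ

open _root_.MU3 _root_.Pool.Agent.MU3 _root_.Pool.Agent.MU3A _root_.Pool.Agent.MU3B _root_.Pool.Agent.RI _root_.Pool.Agent.RID
  _root_.Pool.Agent.MUX _root_.Pool.Agent.ME _root_.Pool.Agent.MUXK _root_.Pool.Agent.MUXJ _root_.Pool.Agent.MUXW _root_.Pool.Agent.MUXZ
  _root_.Pool.Agent.NSI _root_.Pool.Agent.NSZ _root_.Pool.Agent.NSRD _root_.Pool.Agent.NSIR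
open _root_.Pool.Agent.MU3V (Sub GD)

noncomputable section

lemma setL_3 {A B : ℤ} {P : Ideal (OO A B)} {V : ValuationSubring ℂ} {f : ℕ}
    (h : SetE3 A B P V f) : SetL 3 A B f :=
  ⟨h.case.toCQ, Or.inr rfl, h.f0, h.fp⟩

/-- the inputs from block W, `p = 3` (the statement `Zl_INW_E` for `p = 3`) -/
def S3_INW : Prop :=
  ∀ (A B : ℤ) (f : ℕ)
    (_ : SetL 3 A B f) (_ : CaseE A B) (_ : 2 ∣ f) (_ : TorXE A B) (ι : Type) [Finite ι]
    (R : RepsE A B (3 * f) ι) (H : ι → Finset ℂ)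
    (θ : ∀ n : ℕ, (RFE (idl (A := A) (B := B) (lvX 3 f n)) : IntermediateField (kk A B) ℂ))
    (_ : ThN_E 3 f R H θ)
    (K₀ K : IntermediateField ℚ ℂ) (Bn : ℕ → IntermediateField ℚ ℂ)
    [FiniteDimensional ℚ (kk A B)] [FiniteDimensional ℚ K] [∀ n, FiniteDimensional ℚ ↥(K ⊔ Bn n)]
    (_ : SetX 3 (kk A B) K₀ K Bn) (_ : ∀ y ∈ K, y ∈ RFE (idl (A := A) (B := B) (lvX 3 f 0)))
    (_ : ∀ y ∈ RFE (⊤ : Ideal (OO A B)), y ∈ K)
    (hk : ∀ n, kk A B ≤ K ⊔ Bn n) (hk₀ : ∀ n, kk A B ≤ K₀ ⊔ Bn n),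
    ∃ S : Finset ℕ, InpW 3 (kk A B) K₀ K Bn hk hk₀ S (fun n => cW (hk n) (θ n))
      (fun n => cW (hk₀ n) (θ n)) 0

/-- the inputs of block J for `D = -3` at `p = 3` -/
def S3_INPG : Prop :=
  ∀ (A B : ℤ) (P : Ideal (OO A B)) (V : ValuationSubring ℂ), CaseE3 A B → IsPN 3 P →
    OverI V P → TorXE A B → InpG_E 3 4 A B V

/-- the field condition of `S3_EFIN` -/
theorem fixB {A B : ℤ} (h1 : Pool.Agent.MUXI.Si_LAY) (f n : ℕ) (K Bn : IntermediateField ℚ ℂ)
    (hK : ∀ y ∈ K, y ∈ RFE (idl (A := A) (B := B) (3 * f))) (hlay : IsLayer 3 n Bn) :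
    ∀ σ : ℂ ≃+* ℂ, FixK A B σ → (∀ y ∈ RFE (idl (A := A) (B := B) (3 * f)), σ y = y) →
      (∀ z : ℂ, z ^ 3 ^ (n + 1) = 1 → σ z = z) → ∀ y ∈ K ⊔ Bn, σ y = y := by
  have hzt : Pool.Agent.MU3I.zt (3 ^ (n + 1)) ^ 3 ^ (n + 1) = 1 := by
    unfold Pool.Agent.MU3I.zt
    exact (Complex.isPrimitiveRoot_exp _ (pow_ne_zero _ (by norm_num))).pow_eq_one
  have hq : q0 3 * 3 ^ n = 3 ^ (n + 1) := by
    have : q0 3 = 3 := by simp [q0]
    rw [this]
    ring
  have hBdef : Bn = IntermediateField.adjoin ℚ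
      {Pool.Agent.MU3I.zt (3 ^ (n + 1)) + (Pool.Agent.MU3I.zt (3 ^ (n + 1)))⁻¹} := by
    have h2 := h1 3 n (Or.inr rfl) Bn hlay
    rwa [hq] at h2
  intro σ hfix hσ hσz y hy
  let F : IntermediateField ℚ ℂ :=
    { carrier := {x | σ x = x}
      mul_mem' := fun {a b} ha hb => by
        show σ (a * b) = a * b
        rw [map_mul, ha, hb]
      add_mem' := fun {a b} ha hb => by
        show σ (a + b) = a + b
        rw [map_add, ha, hb]
      algebraMap_mem' := fun r => by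
        show σ (algebraMap ℚ ℂ r) = algebraMap ℚ ℂ r
        exact map_ratCast σ r
      inv_mem' := fun a ha => by
        show σ a⁻¹ = a⁻¹
        rw [map_inv₀, ha] }
  have hKF : K ≤ F := fun x hx => hσ x (hK x hx)
  have hBF : Bn ≤ F := by
    rw [hBdef, IntermediateField.adjoin_le_iff]
    intro x hx
    rw [Set.mem_singleton_iff] at hx
    rw [hx]
    have h3 : Pool.Agent.MU3I.zt (3 ^ (n + 1)) ∈ F := hσz _ hzt
    exact add_mem h3 (inv_mem h3)
  exact (sup_le hKF hBF) hy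

/-- the input of block IR for the norm to any field `D ≤ RFE (lvR P f n)` -/
theorem eInpR3 (hME : Sy_MEM) (hCX : Sy_CXW_E) (hEF : Pool.Agent.ME3.S3_EFIN)
    {A B : ℤ} {P : Ideal (OO A B)} {V : ValuationSubring ℂ} {f : ℕ}
    (hS : SetE3 A B P V f) (hf3 : 3 ≤ f) (hT : TorXE A B) (hLV : Zl_LVX)
    {ι : Type} [Fintype ι] (R : RepsE A B (3 * f) ι) {u e lam : ℂ}
    (hG : GoodR V (R.L R.i0) u e lam) {H : ι → Finset ℂ}
    {θ : ∀ n : ℕ, (RFE (idl (A := A) (B := B) (lvX 3 f n)) : IntermediateField (kk A B) ℂ)}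
    (hth : ThN_E 3 f R H θ) (n : ℕ) (hn : 1 ≤ n) (D : IntermediateField ℚ ℂ) (h : kk A B ≤ D)
    (hD : ∀ y ∈ D, y ∈ RFE (idl (A := A) (B := B) (lvX 3 f n)))
    (hDR : ∀ y ∈ D, y ∈ RFE (lvR P f n))
    (hDc : ∀ σ : ℂ ≃+* ℂ, FixK A B σ → (∀ y ∈ RFE (idl (A := A) (B := B) (3 * f)), σ y = y) →
      (∀ z : ℂ, z ^ 3 ^ (n + 1) = 1 → σ z = z) → ∀ y ∈ D, σ y = y) :
    EInpR_E P V f R u n h (fun τ => cWt h (θ n) τ) := by
  obtain ⟨hl0, _, _, hl2, hlu, hodd, hac, _, _, hcop⟩ := hLV 3 A B f (setL_3 hS) n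
  have hb : (idl (A := A) (B := B) (lvX 3 f n)) ≠ ⊥ := by
    intro hh
    apply hl0
    have := (Ideal.span_singleton_eq_bot.mp hh)
    exact_mod_cast (by
      have h1 := congrArg (fun x : OO A B => x.re) this
      simpa using h1 : ((lvX 3 f n : ℕ) : ℤ) = 0)
  have := hT.fin _ hb
  have := hT.gal _ hb
  obtain ⟨h1, h2, h3, h4, h5⟩ := hME A B _ (hT.fin _ hb) (hT.gal _ hb) (hT.comm _ hb) D h hD (θ n)
    (hth.ne n)
  let := algC h
  have hconj : ∀ τ : D ≃ₐ[kk A B] D, ∃ y : D, (y : ℂ) = cWt h (θ n) 1 ∧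
      ((τ y : D) : ℂ) = cWt h (θ n) τ := by
    intro τ
    refine ⟨⟨cWt h (θ n) 1, (h2 1).1⟩, rfl, ?_⟩
    have hm : cW h (θ n) ∈ D := by rw [h1]; exact (h2 1).1
    have := h3 τ hm
    have he : (⟨cWt h (θ n) 1, (h2 1).1⟩ : D) = ⟨cW h (θ n), hm⟩ := Subtype.ext h1.symm
    rw [he]; exact this
  have h2m : 2 ∣ lvX 3 f n := by
    unfold lvX
    exact (hS.f2.mul_right _).mul_right _
  have hsq : ∀ τ : D ≃ₐ[kk A B] D, cXE R (lvX 3 f n) H h τ = cWt h (θ n) τ ^ 2 :=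
    hCX A B hS.case hT (3 * f) ι R (lvX 3 f n) hl0 h2m
      (fun i => hcop _ (R.cop i)) hl2 (aX 3 f) H (by unfold aX; omega) hac hth.half (θ n)
      (hth.ptE n) D h hD
  refine ⟨(h2 1).2, hconj, ?_⟩
  intro w hw g hg τ'
  refine hEF A B P V f hS hf3 hT ι R u e lam hG w hw n hn H hth.half D h hDR hDc ?_ g ?_ τ'
  · intro τ
    obtain ⟨y, hy1, hy2⟩ := hconj τ
    refine ⟨y ^ 2, ?_, ?_⟩
    · rw [hsq 1, ← hy1]
      rfl
    · rw [hsq τ, ← hy2, map_pow]
      rfl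
  · obtain ⟨y, hy, hyp⟩ := hg
    refine ⟨y ^ 2, D.pow_mem hy 2, ?_⟩
    have hfin : Finite (D ≃ₐ[kk A B] D) := by
      choose s hs using h4
      refine Finite.of_injective s ?_
      intro τ τ' e
      apply AlgEquiv.ext
      intro z
      refine Subtype.ext ((hs τ z (hD z z.2)).symm.trans ?_)
      rw [e]
      exact hs τ' z (hD z z.2)
    have e1 : (y ^ 2) ^ 3 = (y ^ 3) ^ 2 := by ring
    refine e1.trans ?_
    rw [hyp, finprod_pow (Set.toFinite _)]
    refine finprod_congr fun τ => ?_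
    rw [hsq τ, ← zpow_natCast, ← zpow_natCast, ← zpow_mul, ← zpow_mul, mul_comm]

/-- the inputs of block J -/
theorem t3_INPG (hLAY : Pool.Agent.MUXI.Si_LAY) (hRF : Pool.Agent.ME3.S3_RFIN)
    (hEF : Pool.Agent.ME3.S3_EFIN) (hINP : Sp_INP_E) (hSUR : Sp_SUB_E) (hLV : Zl_LVX)
    (hIW : S3_INW) (hSUB : Sn_SUB_E) (hTH : Sz_THN_E) (hME : Sy_MEM) (hCX : Sy_CXW_E) :
    S3_INPG := by
  intro A B P V hC hP hV hT f hf0 hfp hfd K₀ K Bn _ _ _ hX hK hH hk hk₀ hkK
  have hCQ : CQ A B := hC.toCQ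
  have hf2 : 2 ∣ f := (by norm_num : 2 ∣ 4).trans hfd
  have hf3 : 3 ≤ f := (by norm_num : 3 ≤ 4).trans (Nat.le_of_dvd (Nat.pos_of_ne_zero hf0) hfd)
  have hS : SetE3 A B P V f := by
    refine ⟨hC.toCaseE, hC.eB, hP, hV, hf0, hfp, ?_⟩
    have hD : absD A B = 3 := by
      unfold absD
      rw [hC.hA, hC.eB]
      norm_num
    rw [hD]
    obtain ⟨c, rfl⟩ := hf2
    refine ⟨c, ?_⟩
    push_cast
    ring
  have hL : SetL 3 A B f := setL_3 hS
  have : Fact (Nat.Prime 3) := ⟨Nat.prime_three⟩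
  obtain ⟨R⟩ := exists_reps hC.toCaseE (3 * f)
  have hodd := (hLV 3 A B f hL 0).2.2.2.2.2.1
  obtain ⟨H, hHalf, hθ⟩ := hTH A B hCQ hT (3 * f) Unit R (aX 3 f) hodd
  have hθ' : ∀ n : ℕ, ∃ θ : (RFE (idl (A := A) (B := B) (lvX 3 f n)) :
      IntermediateField (kk A B) ℂ),
      (θ : ℂ) = ThetaH (R.L R.i0) (H R.i0) (ptE R (lvX 3 f n) R.i0 1) ∧
      (θ : ℂ) = ThetaH (R.L R.i0) (H R.i0) (R.om R.i0 / emb ((lvX 3 f n : ℕ) : OO A B)) ∧
      θ ≠ 0 := fun n =>
    hθ (lvX 3 f n) (hLV 3 A B f hL n).1 (hLV 3 A B f hL n).2.2.2.2.1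
      (hLV 3 A B f hL n).2.2.2.2.2.2.1
  choose θ hθ1 hθ2 hθ3 using hθ'
  have hth : ThN_E 3 f R H θ := ⟨hHalf, hθ1, hθ2, hθ3⟩
  obtain ⟨S, hW⟩ := hIW A B f hL hC.toCaseE hf2 hT Unit R H θ hth K₀ K Bn hX hK hH hk hk₀
  obtain ⟨u, e, lam, hG, -, -, -⟩ :=
    (hRF A B P V hC.toCaseE hC.eB hP hV hT).1 _ _ _ (R.nl R.i0)
  have hNL : ∃ (b : Ideal (OO A B)) (L : PeriodPair) (om : ℂ), IsNE b L om :=
    ⟨_, _, _, R.nl R.i0⟩
  have hK₀ : ∀ y ∈ K₀, y ∈ RFE (idl (A := A) (B := B) (lvX 3 f 0)) := fun y hy => hK y (hX.le hy)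
  have hlv0 : lvX 3 f 0 = 3 * f := by
    unfold lvX
    simp [q0, mul_comm]
  have hK₀' : ∀ y ∈ K₀, y ∈ RFE (idl (A := A) (B := B) (3 * f)) := by
    rw [← hlv0]; exact hK₀
  have hDn : ∀ n, ∀ y ∈ K₀ ⊔ Bn n, y ∈ RFE (idl (A := A) (B := B) (lvX 3 f n)) := fun n =>
    hSUB 3 A B f hL hT hNL K₀ hK₀ n (Bn n) (hX.b0.lay n)
  refine ⟨S, fun n => cW (hk n) (θ n), fun n => cW (hk₀ n) (θ n), 0, ?_⟩
  refine hINP A B P V f hS hfd hT Unit R u e lam hG K₀ K Bn hX hK₀ hk hk₀ hkK S _ _ 0 hW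
    (fun n τ => cWt (hk₀ n) (θ n) τ) (fun n hn => ?_) (fun n hn => ?_)
  · exact eInpR3 hME hCX hEF hS hf3 hT hLV R hG hth n hn (K₀ ⊔ Bn n) (hk₀ n) (hDn n)
      (hSUR A B P V f hS hT hNL K₀ hK₀' n (Bn n) hn (hX.b0.lay n))
      (fixB hLAY f n K₀ (Bn n) hK₀' (hX.b0.lay n))
  · have hb : (idl (A := A) (B := B) (lvX 3 f n)) ≠ ⊥ := by
      intro hh
      apply (hLV 3 A B f hL n).1
      have := (Ideal.span_singleton_eq_bot.mp hh)
      exact_mod_cast (by
        have h1 := congrArg (fun x : OO A B => x.re) this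
        simpa using h1 : ((lvX 3 f n : ℕ) : ℤ) = 0)
    exact (hME A B _ (hT.fin _ hb) (hT.gal _ hb) (hT.comm _ hb) _ (hk₀ n) (hDn n) (θ n)
      (hth.ne n)).1

end

end Pool.Agent.MEZ


end
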