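import Mathlib
import Pool.Agent.MVF.C049
import Pool.Agent.MVF.C151

/-! Parts: ME.E3_MAIN, ME.E3_INN -/

namespace Pool.Agent.ME3.INN
end Pool.Agent.ME3.INN

section

/-!
# MUX-NS, block ER, module MAIN: Lemma E for a conjugate family (helper96)

Apply `τ'` to `w³ = ∏ C τ ^ g τ`: `(τ' w)³ = ∏ C(τ τ') ^ g τ`, because the Galois group of `D / k` is
commutative; then (ONE) with `J = Gal(D/k)` and `X τ = S (τ τ')`.
-/

set_option autoImplicit false

namespace Pool.Agent.ME3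

open _root_.MU3 _root_.Pool.Agent.MU3A _root_.Pool.Agent.MU3B _root_.Pool.Agent.MUX _root_.Pool.Agent.MUXU _root_.Pool.Agent.MUXE
open _root_.Pool.Agent.RI _root_.Pool.Agent.NS _root_.Pool.Agent.NSRD
open _root_.Pool.Agent.ME hiding ActE
open _root_.Pool.Agent.MEE
open _root_.Pool.Agent.NSER (PtsR Ex Sf_ALG Sf_PRO Sf_PUL Sf_COE Sf_GRN Sf_LEG Sf_TW3 Sf_PTS Sf_TNC Sf_UNT Sf_RAT Sf_ISO Sf_ADD Sf_THN Sf_NE1 Sf_ORB)

noncomputable section

/-- the ideal `f P^(2n+1)` is not zero -/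
lemma fm_ne {A B : ℤ} {P : Ideal (OO A B)} {V : ValuationSubring ℂ} (hc : CtxR3 A B P V)
    {f : ℕ} (hf : f ≠ 0) (n : ℕ) : lvR P f n ≠ ⊥ := by
  intro h
  have h3 : (3 : OO A B) ∈ P := by
    have h0 : ((3 : ℕ) : OO A B) ∈ P * P := by
      rw [hc.sq]
      exact Ideal.mem_span_singleton_self _
    have h1 := Ideal.mul_le_left h0
    exact_mod_cast h1
  have h4 : ((f * 3 ^ (2 * n + 1) : ℕ) : OO A B) ∈ lvR P f n := by
    push_cast
    exact Ideal.mul_mem_mul (Ideal.mem_span_singleton_self _) (Ideal.pow_mem_pow h3 _)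
  have h5 : idl (A := A) (B := B) (f * 3 ^ (2 * n + 1)) = ⊥ := by
    rw [eq_bot_iff, ← h]
    exact (Ideal.span_singleton_le_iff_mem _).2 h4
  exact m0_ne A B hc.ring (mul_ne_zero hf (pow_ne_zero _ (by norm_num))) h5

theorem t3_MAIN (h1 : S3_ONE) : S3_MAIN := by
  classical
  intro A B P V hctx hT hgal n f hn hf3 hf2 hfp ι R u e lam hG H hH D hD hDF
  intro C κ S i x q hC hcop hprod g hcube τ'
  letI := algC hD
  have hf0 : f ≠ 0 := by omega
  have hlv : lvX 3 f n = 3 ^ (n + 1) * f := by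
    simp [lvX, q0]
    ring
  obtain ⟨ha3, hap, haf⟩ := m0_aX (p := 3) (Or.inr rfl) hf0
  have hodd : Odd (aX 3 f) := by
    refine ⟨3 * f, ?_⟩
    simp [aX, q0]
    ring
  have hmb := fm_ne hctx hf0 n
  have := hT.fin _ hmb
  -- D is finite over k
  have := Pool.Agent.FX.fd_of_le hD hDF
  have : Finite (D ≃ₐ[kk A B] D) := inferInstance
  letI : Fintype (D ≃ₐ[kk A B] D) := Fintype.ofFinite _
  have hcom := mx_comm hT _ hmb D hD hDF
  have key := h1 A B P V hctx hT hgal n f (aX 3 f) hn hf3 hf2 hfp ha3 hodd hap haf ι R u e lam hG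
    H hH (D ≃ₐ[kk A B] D) κ (fun τ => S (τ * τ')) g i x q
  rw [← hlv] at key
  rw [finsum_eq_sum_of_fintype]
  refine key (fun τ k hk => hcop (τ * τ') k hk) ?_
  obtain ⟨w, hw, hwp⟩ := hcube
  rw [finprod_eq_prod_of_fintype] at hwp
  obtain ⟨y, hy1, -⟩ := hC 1
  have hyτ : ∀ τ : D ≃ₐ[kk A B] D, ((τ y : D) : ℂ) = C τ := by
    intro τ
    obtain ⟨y', hy', hy''⟩ := hC τ
    have : y' = y := Subtype.ext (hy'.trans hy1.symm)
    rw [← hy'', this]
  have hw4 : (⟨w, hw⟩ : D) ^ 3 = ∏ τ : D ≃ₐ[kk A B] D, (τ y) ^ g τ := by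
    apply Subtype.ext
    rw [IntermediateField.coe_prod]
    rw [show (((⟨w, hw⟩ : D) ^ 3 : D) : ℂ) = w ^ 3 from rfl, hwp]
    refine Finset.prod_congr rfl (fun τ _ => ?_)
    rw [← hyτ τ, ← m0_zpc (D := D)]
  refine ⟨(τ' ⟨w, hw⟩ : D), hDF _ (τ' ⟨w, hw⟩).2, ?_⟩
  have hw5 := congrArg τ' hw4
  rw [map_pow, map_prod] at hw5
  have hw6 := congrArg (fun y : D => (y : ℂ)) hw5
  push_cast at hw6
  rw [hw6]
  refine Finset.prod_congr rfl (fun τ _ => ?_)
  rw [← hprod (τ * τ'), hcom τ τ', map_zpow₀, ← hyτ (τ' * τ), m0_zpc]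
  rfl

end

end Pool.Agent.ME3


end

section

/-!
# MUX-NS, block ER, module INN: integrality and the sums over `E[P]` (helper44)
-/

set_option autoImplicit false

open Polynomial

namespace Pool.Agent.ME3

open _root_.MU3 _root_.Pool.Agent.MU3A _root_.Pool.Agent.MU3B _root_.Pool.Agent.MUX _root_.Pool.Agent.MUXU _root_.Pool.Agent.MUXE
open _root_.Pool.Agent.RI _root_.Pool.Agent.NS _root_.Pool.Agent.NSRD
open _root_.Pool.Agent.ME hiding ActE
open _root_.Pool.Agent.MEE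
open _root_.Pool.Agent.NSER (PtsR Ex Sf_ALG Sf_PRO Sf_PUL Sf_COE Sf_GRN Sf_LEG Sf_TW3 Sf_PTS Sf_TNC Sf_UNT Sf_RAT Sf_ISO Sf_ADD Sf_THN Sf_NE1 Sf_ORB)
open _root_.Pool.Agent.MUXV (GR InK tX)
open _root_.Pool.Agent.NSE (E3 su ru WL IntP Rep)

noncomputable section

namespace INN

/-- `|H|` is divisible by `3` -/
lemma _root_.Pool.Agent.ME3.INN.card3 {L : PeriodPair} {a : ℕ} {H : Finset ℂ} (ha : a ≠ 0) (h3 : ¬ 3 ∣ a)
    (hH : IsHalf L (a : ℂ) H) : 3 ∣ H.card := by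
  obtain ⟨-, -, h⟩ := b_HRE L a H (by exact_mod_cast ha) (fun w hw => by
    have := nsmul_mem hw a
    rwa [nsmul_eq_mul] at this) hH
  have h1 : 2 * H.card + 1 = a ^ 2 := by
    rw [Complex.norm_natCast] at h
    exact_mod_cast h
  have h2 : a ^ 2 % 3 = 1 := by
    rw [Nat.pow_mod]
    have h4 : a % 3 = 1 ∨ a % 3 = 2 := by omega
    rcases h4 with h4 | h4 <;> rw [h4]
  omega

/-- the theta product and the logarithmic derivative at one point -/
lemma _root_.Pool.Agent.ME3.INN.core (hTHN : Sf_THN) (hNE1 : Sf_NE1) {V : ValuationSubring ℂ} {L M : PeriodPair}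
    {u e lam u' e' lam' mu : ℂ} {N : ℕ} (hg : GoodR V L u e lam) (hg' : GoodR V M u' e' lam')
    (hv3 : V.valuation (3 : ℂ) < 1) (hmu : mu ≠ 0) (hI : Isg L M mu) (hN : ¬ 3 ∣ N)
    (hk : ∀ z, mu * z ∈ M.lattice → (N : ℂ) * z ∈ L.lattice) {j f a : ℕ} (hf2 : 2 ≤ f)
    (hf : ¬ 3 ∣ f) (ha0 : a ≠ 0) (ha : ¬ 3 ∣ a) (hco : a.Coprime f) {H : Finset ℂ}
    (hH : IsHalf M (a : ℂ) H) {z : ℂ} (hm : ((3 ^ j * f : ℕ) : ℂ) * z ∈ M.lattice)
    (ho : ∀ c : ℕ, (c : ℂ) * z ∈ M.lattice → f ∣ c) :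
    V.valuation (ThetaH M H z) = V.valuation (u' ^ 2) ^ H.card ∧
      V.valuation (mu * dlX M a z / u) ≤ 1 := by
  obtain ⟨hzK, hza, hzq⟩ := hNE1 V M u' e' lam' hg' hv3 j f a hf2 hf ha hco z hm ho
  obtain ⟨k1, k2, -⟩ := hTHN V L M u e lam u' e' lam' mu N hg hg' hv3 hmu hI hN hk a H ha0 hH z
    hzK hza (fun q hq => hzq q (hH.mem q hq) (fun hqL => hH.ne q hq (by
      rw [two_mul]; exact add_mem hqL hqL)))
  exact ⟨k1, k2⟩

/-- a natural number in the ideal `(f)` is divisible by `f` -/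
lemma _root_.Pool.Agent.ME3.INN.dvd_of_idl {A B : ℤ} {f c : ℕ} (h : (c : OO A B) ∈ idl (A := A) (B := B) f) : f ∣ c := by
  obtain ⟨y, hy⟩ := Ideal.mem_span_singleton.1 h
  have h6 : (c : ℤ) = (f : ℤ) * y.re := by
    have := congrArg QuadraticAlgebra.re hy
    rw [QuadraticAlgebra.re_natCast, QuadraticAlgebra.re_mul, QuadraticAlgebra.re_natCast,
      QuadraticAlgebra.im_natCast] at this
    linarith
  exact_mod_cast (Dvd.intro _ h6.symm : (f : ℤ) ∣ c)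

end INN

open _root_.Pool.Agent.ME3.INN in
theorem t3_INN (hTHN : Sf_THN) (hNE1 : Sf_NE1) (hEXO : S3_EXO) (hMUL : S3_MUL) (hPIS : S3_PIS)
    (hDIS : S3_DIS) (hUNR : S3_UNR) (hRP1 : S3_RP1) : S3_INN := by
  intro A B P V hC hT hG n f a hf3 hf2 hf ha3 hao hpa hco ι R u e lam hgood H hH i x hx q hq
  have ha0 : a ≠ 0 := by omega
  have hf0 : f ≠ 0 := by omega
  have hv3 := hC.v3
  have hring := hC.ring
  obtain ⟨φ, hφ⟩ := hring.hom
  have emul : ∀ x y : OO A B, emb (x * y) = emb x * emb y := fun x y => by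
    rw [← hφ, map_mul, hφ, hφ]
  have enat : ∀ n : ℕ, emb ((n : ℕ) : OO A B) = n := fun n => by rw [← hφ, map_natCast]
  have h3P : (3 : OO A B) ∈ P := by
    have h1 : (3 : OO A B) ∈ P * P := by
      rw [hC.sq]
      exact Ideal.mem_span_singleton.2 ⟨1, by push_cast; ring⟩
    exact Ideal.mul_le_left h1
  have hxP : x ∉ P := by
    intro h
    apply hC.max.ne_top
    rw [Ideal.eq_top_iff_one]
    obtain ⟨b1, b2, hb⟩ := hx
    rw [← hb]
    refine add_mem (Ideal.mul_mem_left _ _ h) (Ideal.mul_mem_left _ _ ?_)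
    have h2 : ((3 ^ (n + 1) * f : ℕ) : OO A B) = ((3 ^ n * f : ℕ) : OO A B) * 3 := by
      push_cast
      ring
    rw [h2]
    exact Ideal.mul_mem_left _ _ h3P
  have vx : V.valuation (emb x) = 1 := hC.unit x hxP
  obtain ⟨⟨hmu, hisg, N, hN3, hN⟩, hsec⟩ := hMUL A B P V hC (3 * f) ι R (by omega)
    (dvd_mul_right _ _) i x hxP
  obtain ⟨hEx, hExN, hzl, -⟩ := hEXO A B P V hC n f ι R hf0 i x hx
  have hLi : NLE A B (R.L i) := ⟨_, _, R.nl i⟩
  have hL0 : NLE A B (R.L R.i0) := ⟨_, _, R.nl R.i0⟩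
  obtain ⟨u', e', lam', hg'⟩ := hC.good (R.L i) hLi
  refine ⟨fun l => ?_, fun hqL => ?_⟩
  · obtain ⟨hm', ho'⟩ := hzl q hq l
    obtain ⟨k1, k2⟩ := _root_.Pool.Agent.ME3.INN.core hTHN hNE1 hgood hg' hv3 hmu hisg hN3 hN (by omega) hf ha0 hpa hco
      (hH i) hm' ho'
    refine ⟨?_, ?_⟩
    · obtain ⟨k, hk⟩ := hUNR A B P V hC hT 2 (by norm_num) (by norm_num) (by norm_num) _
        (hRP1 A B P V hC hG (R.L i) u' e' lam' hLi hg').1
        (pow_ne_zero 2 hg'.u0)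
      obtain ⟨t, ht⟩ := _root_.Pool.Agent.ME3.INN.card3 ha0 hpa (hH i)
      refine ⟨k * t, ?_⟩
      rw [k1, hk, ht, ← zpow_natCast, ← zpow_mul]
      congr 1
      push_cast
      ring
    · have e1 : muXE R i * emb x * dlX (R.L i) a (ptE R (3 ^ (n + 1) * f) i x + l * q) / u =
          emb x * (muXE R i * dlX (R.L i) a (ptE R (3 ^ (n + 1) * f) i x + l * q) / u) := by ring
      rwa [e1, map_mul, vx, one_mul] at k2
  · obtain ⟨N1, nu, hNL1, hQ⟩ := hC.exq (R.L i) hLi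
    obtain ⟨N0, nu0, hNL0, hQ0⟩ := hC.exq (R.L R.i0) hL0
    obtain ⟨u1, e1, lam1, hg1⟩ := hC.good N1 hNL1
    obtain ⟨u0, e0, lam0, hg0⟩ := hC.good N0 hNL0
    obtain ⟨H', hH'⟩ := b_HAL N1 (a : ℂ) (by exact_mod_cast ha0) (fun w hw => by
      have := nsmul_mem hw a
      rwa [nsmul_eq_mul] at this) (fun z h1 h2 => by
        obtain ⟨k, hk⟩ := hao
        have h3 := nsmul_mem h2 k
        rw [nsmul_eq_mul] at h3
        have h4 : z = (a : ℂ) * z - (k : ℂ) * (2 * z) := by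
          rw [hk]
          push_cast
          ring
        rw [h4]
        exact sub_mem h1 h3)
    obtain ⟨hmu', hisg', N', hN3', hN'⟩ := hsec N0 N1 nu0 nu hQ0 hQ
    have hExN1 := hExN N1 nu hQ
    have hle : lvR P f n ≤ idl (A := A) (B := B) f := Ideal.mul_le_left
    have ho1 : ∀ c : ℕ, (c : ℂ) * (nu * ptE R (3 ^ (n + 1) * f) i x) ∈ N1.lattice → f ∣ c := by
      intro c hc
      have hc' : (c : OO A B) ∈ lvR P f n := by
        refine (hExN1 _).1 ?_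
        rw [enat]
        exact hc
      exact _root_.Pool.Agent.ME3.INN.dvd_of_idl (hle hc')
    have hm1 : ((3 ^ (n + 1) * f : ℕ) : ℂ) * (nu * ptE R (3 ^ (n + 1) * f) i x) ∈ N1.lattice := by
      have e2 : ((3 ^ (n + 1) * f : ℕ) : ℂ) * (nu * ptE R (3 ^ (n + 1) * f) i x) =
          nu * (((3 ^ (n + 1) * f : ℕ) : ℂ) * ptE R (3 ^ (n + 1) * f) i x) := by ring
      rw [e2, hQ.2]
      intro p _
      have e3 : emb p * (((3 ^ (n + 1) * f : ℕ) : ℂ) * ptE R (3 ^ (n + 1) * f) i x) =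
          emb (((3 ^ (n + 1) * f : ℕ) : OO A B) * p) * ptE R (3 ^ (n + 1) * f) i x := by
        rw [emul, enat]
        ring
      rw [e3, hEx]
      exact Ideal.mem_span_singleton.2 ⟨p, rfl⟩
    obtain ⟨-, k2⟩ := _root_.Pool.Agent.ME3.INN.core hTHN hNE1 hg0 hg1 hv3 hmu' hisg' hN3' hN' (by omega) hf ha0 hpa hco
      hH' hm1 ho1
    obtain ⟨C, -, hdis⟩ := hDIS A B P V hC (R.L i) N1 nu hLi hNL1 hQ a (H i) H' ha0 hpa (hH i)
      hH' q hq hqL
    have hsum := (hdis (ptE R (3 ^ (n + 1) * f) i x) (fun h => by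
      have h7 := ho1 a h
      have h8 : Nat.gcd a f = f := Nat.gcd_eq_right h7
      rw [hco.gcd_eq_one] at h8
      omega)).2
    have hpis := hPIS A B P V hC hT hG (R.L R.i0) N0 nu0 u e lam u0 e0 lam0 hL0 hNL0 hQ0 hgood
      hg0
    have e4 : emb x * (muXE R i * (∑ l ∈ Finset.range 3,
        dlX (R.L i) a (ptE R (3 ^ (n + 1) * f) i x + l * q)) / u) =
        (muXE R i * emb x * nu / nu0 * dlX N1 a (nu * ptE R (3 ^ (n + 1) * f) i x) / u0) *
          (nu0 * u0 / u) := by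
      rw [hsum]
      have h9 := hQ0.1
      have h10 := hg0.u0
      have h11 := hgood.u0
      field_simp
    have e5 := congrArg V.valuation e4
    rw [map_mul, vx, one_mul, map_mul] at e5
    rw [e5, mul_pow, hpis]
    exact mul_le_of_le_one_left' (pow_le_one' k2 2)

end

end Pool.Agent.ME3


end
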