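import Mathlib
import Pool.Agent.MVF.C049
import Pool.Agent.MVF.C151

/-! Parts: ME.E3_RED -/

namespace Pool.Agent.ME3.RED
end Pool.Agent.ME3.RED

section

/-!
# MUX-NS, block ER, module RED (helper4): the final form, from the context
-/

set_option autoImplicit false

namespace Pool.Agent.ME3

open _root_.MU3 _root_.Pool.Agent.MU3A _root_.Pool.Agent.MU3B _root_.Pool.Agent.MUX _root_.Pool.Agent.MUXU _root_.Pool.Agent.MUXE
open _root_.Pool.Agent.RI _root_.Pool.Agent.NS _root_.Pool.Agent.NSRD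
open _root_.Pool.Agent.ME hiding ActE
open _root_.Pool.Agent.MEE
open _root_.Pool.Agent.NSER (PtsR Ex Sf_ALG Sf_PRO Sf_PUL Sf_COE Sf_GRN Sf_LEG Sf_TW3 Sf_PTS Sf_TNC Sf_UNT Sf_RAT Sf_ISO Sf_ADD Sf_THN Sf_NE1 Sf_ORB)

noncomputable section

namespace RED

/-! ### Valuations -/

/-- the final bound -/
def _root_.Pool.Agent.ME3.RED.Bd (V : ValuationSubring ℂ) (z : ℂ) : Prop :=
  V.valuation z ^ 2 ≤ V.valuation (3 : ℂ) ^ 3

variable {V : ValuationSubring ℂ}

lemma Bd.zero : _root_.Pool.Agent.ME3.RED.Bd V 0 := by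
  unfold _root_.Pool.Agent.ME3.RED.Bd
  rw [map_zero, zero_pow (by positivity)]
  exact zero_le

lemma Bd.mono {z w : ℂ} (h : _root_.Pool.Agent.ME3.RED.Bd V w) (hz : V.valuation z ≤ V.valuation w) : _root_.Pool.Agent.ME3.RED.Bd V z := by
  unfold _root_.Pool.Agent.ME3.RED.Bd at *
  exact (pow_le_pow_left₀ zero_le hz _).trans h

lemma Bd.add {z w : ℂ} (hz : _root_.Pool.Agent.ME3.RED.Bd V z) (hw : _root_.Pool.Agent.ME3.RED.Bd V w) : _root_.Pool.Agent.ME3.RED.Bd V (z + w) := by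
  rcases le_total (V.valuation z) (V.valuation w) with h | h
  · exact hw.mono ((V.valuation.map_add z w).trans (max_le h le_rfl))
  · exact hz.mono ((V.valuation.map_add z w).trans (max_le le_rfl h))

lemma Bd.neg {z : ℂ} (hz : _root_.Pool.Agent.ME3.RED.Bd V z) : _root_.Pool.Agent.ME3.RED.Bd V (-z) := hz.mono (by rw [Valuation.map_neg])

lemma Bd.sub {z w : ℂ} (hz : _root_.Pool.Agent.ME3.RED.Bd V z) (hw : _root_.Pool.Agent.ME3.RED.Bd V w) : _root_.Pool.Agent.ME3.RED.Bd V (z - w) := by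
  rw [sub_eq_add_neg]
  exact hz.add hw.neg

lemma Bd.mul {c z : ℂ} (hz : _root_.Pool.Agent.ME3.RED.Bd V z) (hc : V.valuation c ≤ 1) : _root_.Pool.Agent.ME3.RED.Bd V (c * z) :=
  hz.mono (by rw [map_mul]; exact mul_le_of_le_one_left' hc)

lemma Bd.sum {α : Type} (s : Finset α) (F : α → ℂ) (h : ∀ x ∈ s, _root_.Pool.Agent.ME3.RED.Bd V (F x)) :
    _root_.Pool.Agent.ME3.RED.Bd V (∑ x ∈ s, F x) := by
  classical
  induction s using Finset.induction_on with
  | empty => exact Bd.zero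
  | insert a s ha ih =>
    rw [Finset.sum_insert ha]
    exact (h a (Finset.mem_insert_self _ _)).add
      (ih fun x hx => h x (Finset.mem_insert_of_mem hx))

/-! ### Splitting of ranges -/

lemma _root_.Pool.Agent.ME3.RED.prod_split (N : ℕ) (F : ℕ → ℂ) : ∏ l ∈ Finset.range (N * 3), F l =
    ∏ l ∈ Finset.range N, ∏ j ∈ Finset.range 3, F (l + N * j) := by
  rw [show N * 3 = N + N + N by ring, Finset.prod_range_add, Finset.prod_range_add,
    ← Finset.prod_mul_distrib, ← Finset.prod_mul_distrib]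
  refine Finset.prod_congr rfl fun l _ => ?_
  rw [Finset.prod_range_succ, Finset.prod_range_succ, Finset.prod_range_one,
    show l + N * 0 = l by ring, show l + N * 1 = N + l by ring,
    show l + N * 2 = N + N + l by ring]

lemma _root_.Pool.Agent.ME3.RED.sum_split (N : ℕ) (F : ℕ → ℂ) : ∑ l ∈ Finset.range (N * 3), F l =
    ∑ l ∈ Finset.range N, ∑ j ∈ Finset.range 3, F (l + N * j) := by
  rw [show N * 3 = N + N + N by ring, Finset.sum_range_add, Finset.sum_range_add,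
    ← Finset.sum_add_distrib, ← Finset.sum_add_distrib]
  refine Finset.sum_congr rfl fun l _ => ?_
  rw [Finset.sum_range_succ, Finset.sum_range_succ, Finset.sum_range_one,
    show l + N * 0 = l by ring, show l + N * 1 = N + l by ring,
    show l + N * 2 = N + N + l by ring]

/-! ### Algebra -/

variable {A B : ℤ} {P : Ideal (OO A B)}

section
variable {m : Ideal (OO A B)}

/-- powers of `1 + t`, `t² = 0` modulo `m` -/
lemma _root_.Pool.Agent.ME3.RED.pow_mod {c t : OO A B} (hc : c - 1 - t ∈ m) (ht : t * t ∈ m) (l : ℕ) :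
    c ^ l - (1 + l * t) ∈ m := by
  induction l with
  | zero => simp
  | succ l ih =>
    have e : c ^ (l + 1) - (1 + ((l + 1 : ℕ) : OO A B) * t) =
        c * (c ^ l - (1 + l * t)) + (1 + l * t) * (c - 1 - t) + l * (t * t) := by
      push_cast
      ring
    rw [e]
    exact add_mem (add_mem (m.mul_mem_left _ ih) (m.mul_mem_left _ hc)) (m.mul_mem_left _ ht)

end

/-! ### The points -/

/-- the iterates of the action of `b` -/
lemma _root_.Pool.Agent.ME3.RED.iter {ι Q : Type} [CommMonoid Q] (β : Q) (q : ι × Q) (l : ℕ) :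
    (fun q : ι × Q => (q.1, q.2 * β))^[l] q = (q.1, q.2 * β ^ l) := by
  induction l with
  | zero => simp
  | succ l ih =>
    rw [Function.iterate_succ_apply', ih, pow_succ, mul_assoc]

/-- everything about one orbit. `z x = ptE R m i x`; `Θ`, `G` are functions with the period lattice `L`. -/
lemma _root_.Pool.Agent.ME3.RED.orbit {L : PeriodPair} (φ : OO A B →+* ℂ) {m : Ideal (OO A B)} {z0 : ℂ}
    (hper : ∀ c ∈ m, φ c * z0 ∈ L.lattice) (G : ℂ → ℂ) (hG : ∀ z, ∀ w ∈ L.lattice, G (z + w) = G z)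
    {b t : OO A B} {N : ℕ} (hb : b ^ N - 1 - t ∈ m) (ht : t * t ∈ m) {x x' : OO A B} {l j : ℕ}
    (hx : x' - x * b ^ (l + N * j) ∈ m) :
    G (φ x' * z0) = G (φ (x * b ^ l) * z0 + j * (φ t * (φ (x * b ^ l) * z0))) := by
  have h1 := _root_.Pool.Agent.ME3.RED.pow_mod hb ht j
  have h2 : x' - (x * b ^ l + x * b ^ l * (j * t)) ∈ m := by
    have e : x' - (x * b ^ l + x * b ^ l * (j * t)) =
        (x' - x * b ^ (l + N * j)) + x * b ^ l * ((b ^ N) ^ j - (1 + j * t)) := by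
      rw [pow_add, pow_mul]
      ring
    rw [e]
    exact add_mem hx (m.mul_mem_left _ h1)
  have h3 := hper _ h2
  have h4 := hG (φ (x * b ^ l) * z0 + j * (φ t * (φ (x * b ^ l) * z0))) _ h3
  rw [← h4]
  congr 1
  rw [map_sub, map_add, map_mul φ (x * b ^ l) (j * t), map_mul φ (j : OO A B) t, map_natCast]
  ring

lemma _root_.Pool.Agent.ME3.RED.fin_quot (hr : RingE A B) {m : ℕ} (hm : m ≠ 0) :
    Finite (OO A B ⧸ idl (A := A) (B := B) m) := by
  have := hr.ded
  apply Ideal.finiteQuotientOfFreeOfNeBot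
  exact m0_ne A B hr hm

lemma _root_.Pool.Agent.ME3.RED.notPP (hC : CtxR3 A B P V) {k r : ℕ} (hk : k ≠ 0) {y : OO A B}
    (h : ((k : ℕ) : OO A B) * y ∈ idl (A := A) (B := B) (k * (3 * r))) : y ∈ P * P := by
  have := hC.ring.ded
  rw [Ideal.mem_span_singleton] at h
  obtain ⟨z, hz⟩ := h
  have hk0 : ((k : ℕ) : OO A B) ≠ 0 := by
    intro h0
    obtain ⟨φ, -⟩ := hC.ring.hom
    have h1 : φ ((k : ℕ) : OO A B) = 0 := by rw [h0, map_zero]
    rw [map_natCast] at h1
    exact hk (by exact_mod_cast h1)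
  have h1 : y = ((3 : ℕ) : OO A B) * ((r : OO A B) * z) := by
    apply mul_left_cancel₀ hk0
    rw [hz]
    push_cast
    ring
  rw [hC.sq, h1]
  exact Ideal.mul_mem_right _ _ (Ideal.mem_span_singleton_self _)

/-- `D` is finite over `k` -/
lemma _root_.Pool.Agent.ME3.RED.finD (hT : TorXE A B) {m : Ideal (OO A B)} (hm : m ≠ ⊥) (D : IntermediateField ℚ ℂ)
    (h : kk A B ≤ D) (hD : ∀ y ∈ D, y ∈ RFE m) :
    letI := algC h
    Finite (D ≃ₐ[kk A B] D) := by
  letI := algC h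
  have := hT.fin m hm
  have := Pool.Agent.FX.fd_of_le h hD
  exact inferInstance

end RED

open _root_.Pool.Agent.ME3.RED in
theorem t3_RED (hMAIN : S3_MAIN) (hINN : S3_INN) (hORB : Sf_ORB) (hSTB : S3_STB)
    (hEXO : S3_EXO) (hIDL : S3_IDL) : S3_RED := by
  classical
  intro A B P V hC hT hE n f hn hf3 hf2 hf ι _ R u e lam hG wt hwt H hH D h hD
  letI := algC h
  intro hCC g hcube τ'
  have hf0 : f ≠ 0 := by omega
  have h3 := hC.v3
  obtain ⟨φ, hφ⟩ := hC.ring.hom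
  obtain ⟨h3P, -, -, hnP, hlev⟩ := hIDL A B P V hC
  obtain ⟨k, rfl⟩ : ∃ k, n = k + 1 := ⟨n - 1, by omega⟩
  obtain ⟨m, hm⟩ : ∃ m, m = lvX 3 f (k + 1) := ⟨_, rfl⟩
  have hlv : m = 3 ^ (k + 1 + 1) * f := by
    rw [hm]
    simp [lvX, q0]
    ring
  obtain ⟨ha3, hap, haf⟩ := m0_aX (p := 3) (Or.inr rfl) hf0
  have hao : Odd (aX 3 f) := ⟨3 * f, by simp [aX, q0]; ring⟩
  obtain ⟨a, ha⟩ : ∃ a, a = aX 3 f := ⟨_, rfl⟩
  rw [← hm] at hcube hCC ⊢
  rw [← ha] at ha3 hap haf hao hH ⊢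
  have hm0 : m ≠ 0 := by
    rw [hlv]
    exact mul_ne_zero (pow_ne_zero _ (by norm_num)) hf0
  have : Finite (D ≃ₐ[kk A B] D) := _root_.Pool.Agent.ME3.RED.finD hT (hlev f (k + 1) hf0).2.2.2.2.1 D h hD
  letI : Fintype (D ≃ₐ[kk A B] D) := Fintype.ofFinite _
  have := _root_.Pool.Agent.ME3.RED.fin_quot hC.ring hm0
  -- multiples of `m` are in `(3)`
  have hm3 : ∀ x ∈ idl (A := A) (B := B) m, x ∈ idl (A := A) (B := B) 3 := by
    intro x hx
    rw [Ideal.mem_span_singleton] at hx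
    obtain ⟨z, rfl⟩ := hx
    refine Ideal.mul_mem_right _ _ (Ideal.mem_span_singleton.2 ⟨((3 ^ (k + 1) * f : ℕ) : OO A B),
      ?_⟩)
    rw [hlv]
    push_cast
    ring
  -- multiples of `m` are in `P`
  have hmP : ∀ x ∈ idl (A := A) (B := B) m, x ∈ P := by
    intro x hx
    rw [Ideal.mem_span_singleton] at hx
    obtain ⟨z, rfl⟩ := hx
    exact P.mul_mem_right _ ((hnP m).2 (by rw [hlv, pow_succ', mul_assoc]; exact dvd_mul_right _ _))
  -- `b = 1 + t`
  obtain ⟨y, hyd⟩ : ∃ y : OO A B, y = dD A B := ⟨_, rfl⟩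
  have hyP : y ∈ P := hyd ▸ hC.dP
  have hyPP : y ∉ P * P := by
    rw [hC.sq, hyd]
    intro h5
    obtain ⟨c, hc⟩ := Ideal.mem_span_singleton'.1 h5
    have h6 := congrArg QuadraticAlgebra.im hc
    rw [mul_comm] at h6
    rw [QuadraticAlgebra.im_mul, QuadraticAlgebra.re_natCast, QuadraticAlgebra.im_natCast] at h6
    have h7 : (dD A B).im = 2 := rfl
    rw [h7] at h6
    push_cast at h6
    simp only [zero_mul, mul_zero, add_zero] at h6
    omega
  obtain ⟨t, ht⟩ : ∃ t : OO A B, t = ((3 ^ (k + 1) * f : ℕ) : OO A B) * y := ⟨_, rfl⟩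
  obtain ⟨b, hb⟩ : ∃ b : OO A B, b = 1 + t := ⟨_, rfl⟩
  have hy : b ^ 1 - 1 - t ∈ idl (A := A) (B := B) m := by
    rw [hb, pow_one, add_sub_cancel_left, sub_self]
    exact zero_mem _
  have htt : t * t ∈ idl (A := A) (B := B) m := by
    rw [ht, Ideal.mem_span_singleton, hlv]
    refine ⟨((3 ^ k * f : ℕ) : OO A B) * (y * y), ?_⟩
    push_cast
    ring
  have h3t : ((3 : ℕ) : OO A B) * t ∈ idl (A := A) (B := B) m := by
    rw [ht, Ideal.mem_span_singleton, hlv]
    refine ⟨y, ?_⟩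
    push_cast
    ring
  have hbl : b - 1 ∈ lvR P f (k + 1) := by
    rw [hb, add_sub_cancel_left, ht]
    exact ((hlev f (k + 1) hf0).1 _).2 ⟨y, hyP, rfl⟩
  have hb1 : IsCoprime b ((m : ℕ) : OO A B) := by
    obtain ⟨s, hs⟩ := Ideal.mem_span_singleton'.1 htt
    exact ⟨1 - t, s, by rw [hs, hb]; ring⟩
  have hb3 : b ^ 3 - 1 ∈ idl (A := A) (B := B) m := by
    have h5 := add_mem (_root_.Pool.Agent.ME3.RED.pow_mod (by rwa [pow_one] at hy) htt 3) h3t
    rwa [show b ^ 3 - (1 + ((3 : ℕ) : OO A B) * t) + ((3 : ℕ) : OO A B) * t = b ^ 3 - 1 by ring]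
      at h5
  -- the sets
  have hfin : ∀ τ : D ≃ₐ[kk A B] D, (XXE R m h τ).Finite := fun τ => Set.toFinite _
  let S : (D ≃ₐ[kk A B] D) → Finset (ι × (OO A B ⧸ idl (A := A) (B := B) m)) :=
    fun τ => (hfin τ).toFinset
  have hScop : ∀ τ, ∀ q ∈ S τ, IsCoprime (Quotient.out q.2 : OO A B) ((m : ℕ) : OO A B) :=
    fun τ q hq => ((hfin τ).mem_toFinset.1 hq).1
  obtain ⟨β, hβ⟩ : ∃ β : OO A B ⧸ idl (A := A) (B := B) m, β = Ideal.Quotient.mk _ b := ⟨_, rfl⟩
  let ψ : ι × (OO A B ⧸ idl (A := A) (B := B) m) → ι × (OO A B ⧸ idl (A := A) (B := B) m) :=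
    fun q => (q.1, q.2 * β)
  have hit : ∀ (q : ι × (OO A B ⧸ idl (A := A) (B := B) m)) (l : ℕ),
      ψ^[l] q = (q.1, q.2 * β ^ l) := fun q l => _root_.Pool.Agent.ME3.RED.iter β q l
  have hβn : β ^ 3 = 1 := by
    rw [hβ, ← map_pow, ← map_one (Ideal.Quotient.mk (idl (A := A) (B := B) m)),
      Ideal.Quotient.eq]
    exact hb3
  have hmain : ∀ τ : D ≃ₐ[kk A B] D, ∃ T : Finset (ι × (OO A B ⧸ idl (A := A) (B := B) m)),
      T ⊆ S τ ∧ (∀ F : ι × (OO A B ⧸ idl (A := A) (B := B) m) → ℂ, ∏ x ∈ S τ, F x =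
        ∏ x ∈ T, ∏ l ∈ Finset.range 3, F (ψ^[l] x)) ∧
      ∀ F : ι × (OO A B ⧸ idl (A := A) (B := B) m) → ℂ, ∑ x ∈ S τ, F x =
        ∑ x ∈ T, ∑ l ∈ Finset.range 3, F (ψ^[l] x) := by
    intro τ
    refine hORB _ (S τ) ψ 3 (by norm_num) (fun q hq => ?_) (fun q hq => ?_)
      (fun q hq l hl0 hl => ?_)
    · rw [(hfin τ).mem_toFinset] at hq ⊢
      have h6 := hSTB A B P V hC hT (k + 1) f hn hf0 hf2 hf ι R D h hD τ b (hm ▸ hb1) hbl
      subst hm
      subst hβ
      exact h6 q hq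
    · rw [hit, hβn, mul_one]
    · rw [hit]
      intro h6
      have h7 : q.2 * β ^ l = q.2 := congrArg Prod.snd h6
      obtain ⟨a1, a2, h8⟩ := hScop τ q hq
      have h9 : (Ideal.Quotient.mk (idl (A := A) (B := B) m) a1) * q.2 = 1 := by
        have h10 := congrArg (Ideal.Quotient.mk (idl (A := A) (B := B) m)) h8
        rw [map_add, map_mul, map_mul, Ideal.Quotient.mk_out, map_one,
          Ideal.Quotient.eq_zero_iff_mem.2 (Ideal.mem_span_singleton_self _), mul_zero,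
          add_zero] at h10
        exact h10
      have h11 : β ^ l = 1 := by
        calc β ^ l = (Ideal.Quotient.mk (idl (A := A) (B := B) m) a1) * q.2 * β ^ l := by
              rw [h9, one_mul]
          _ = 1 := by rw [mul_assoc, h7, h9]
      rw [hβ, ← map_pow, ← map_one (Ideal.Quotient.mk (idl (A := A) (B := B) m)),
        Ideal.Quotient.eq] at h11
      have h12 := sub_mem h11 (_root_.Pool.Agent.ME3.RED.pow_mod (by rwa [pow_one] at hy) htt l)
      have h13 : b ^ l - 1 - (b ^ l - (1 + (l : OO A B) * t)) =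
          ((3 ^ (k + 1) * f : ℕ) : OO A B) * ((l : OO A B) * y) := by
        rw [ht]
        ring
      rw [h13] at h12
      have h14 : (l : OO A B) * y ∈ P * P := by
        refine _root_.Pool.Agent.ME3.RED.notPP hC (k := 3 ^ (k + 1) * f) (r := 1) (mul_ne_zero (by positivity) hf0) ?_
        have h15 : 3 ^ (k + 1) * f * (3 * 1) = m := by
          rw [hlv]
          ring
        rw [h15]
        exact h12
      apply hyPP
      have h16 : ((3 : ℕ) : OO A B) * y ∈ P * P := by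
        rw [hC.sq]
        exact Ideal.mul_mem_right _ _ (Ideal.mem_span_singleton_self _)
      have h17 : l = 1 ∨ l = 2 := by omega
      rcases h17 with rfl | rfl
      · rwa [Nat.cast_one, one_mul] at h14
      · have h18 := sub_mem h16 h14
        rwa [show ((3 : ℕ) : OO A B) * y - ((2 : ℕ) : OO A B) * y = y by push_cast; ring] at h18
  choose T hTS hTp hTs using hmain
  clear hORB hSTB
  -- points
  obtain ⟨z0, hz0⟩ : ∃ z0 : ι → ℂ, ∀ i x, ptE R m i x = φ x * z0 i :=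
    ⟨fun i => R.om i * nI (R.b i) / m, fun i x => by unfold ptE; rw [hφ]; ring⟩
  have hex : ∀ (i : ι) (x : OO A B), IsCoprime x ((m : ℕ) : OO A B) →
      ∀ c : OO A B, φ c * ptE R m i x ∈ (R.L i).lattice ↔ c ∈ idl (A := A) (B := B) m := by
    intro i x hx c
    rw [hlv] at hx ⊢
    rw [hφ]
    exact (hEXO A B P V hC (k + 1) f ι R hf0 i x hx).1 c
  have hper : ∀ i, ∀ c ∈ idl (A := A) (B := B) m, φ c * z0 i ∈ (R.L i).lattice := by
    intro i c hc
    have h6 := (hex i 1 isCoprime_one_left c).2 hc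
    rwa [hz0, map_one, one_mul] at h6
  -- the point of `E[P]`
  let xx : (ι × (OO A B ⧸ idl (A := A) (B := B) m)) × ℕ → OO A B := fun K =>
    (Quotient.out K.1.2 : OO A B) * b ^ K.2
  let qq : (ι × (OO A B ⧸ idl (A := A) (B := B) m)) × ℕ → ℂ := fun K =>
    φ t * ptE R m K.1.1 (xx K)
  have hxx : ∀ (q : ι × (OO A B ⧸ idl (A := A) (B := B) m)) (l : ℕ),
      IsCoprime (Quotient.out q.2 : OO A B) ((m : ℕ) : OO A B) →
      IsCoprime (xx (q, l)) ((m : ℕ) : OO A B) := fun q l hq => hq.mul_left hb1.pow_left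
  have htor : ∀ (i : ι) (x : OO A B), IsCoprime x ((m : ℕ) : OO A B) →
      Tor P (R.L i) (φ t * ptE R m i x) ∧ φ t * ptE R m i x ∉ (R.L i).lattice := by
    intro i x hx
    refine ⟨fun p hp => ?_, fun h6 => ?_⟩
    · rw [← hφ, ← mul_assoc, ← map_mul, hex i x hx]
      have h7 : p * y ∈ P * P := Ideal.mul_mem_mul hp hyP
      rw [hC.sq, Ideal.mem_span_singleton] at h7
      obtain ⟨w, hw⟩ := h7
      rw [Ideal.mem_span_singleton]
      refine ⟨w, ?_⟩
      rw [ht, hlv]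
      calc p * (((3 ^ (k + 1) * f : ℕ) : OO A B) * y) =
            ((3 ^ (k + 1) * f : ℕ) : OO A B) * (p * y) := by ring
        _ = _ := by
            rw [hw]
            push_cast
            ring
    · rw [hex i x hx, ht] at h6
      refine hyPP (_root_.Pool.Agent.ME3.RED.notPP hC (k := 3 ^ (k + 1) * f) (r := 1)
        (mul_ne_zero (by positivity) hf0) ?_)
      rw [hlv] at h6
      rw [show 3 ^ (k + 1) * f * (3 * 1) = 3 ^ (k + 1 + 1) * f by ring]
      exact h6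
  -- values of periodic functions
  have horb : ∀ (i : ι) (G : ℂ → ℂ), (∀ z, ∀ w ∈ (R.L i).lattice, G (z + w) = G z) →
      ∀ (x x' : OO A B) (l j : ℕ), x' - x * b ^ (l + 1 * j) ∈ idl (A := A) (B := B) m →
      G (ptE R m i x') = G (ptE R m i (x * b ^ l) + j * (φ t * ptE R m i (x * b ^ l))) := by
    intro i G hGp x x' l j hx
    rw [hz0, hz0]
    exact _root_.Pool.Agent.ME3.RED.orbit φ (hper i) G hGp hy htt hx
  have hout : ∀ (q : ι × (OO A B ⧸ idl (A := A) (B := B) m)) (l : ℕ),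
      (Quotient.out (ψ^[l] q).2 : OO A B) - (Quotient.out q.2 : OO A B) * b ^ l ∈
        idl (A := A) (B := B) m := by
    intro q l
    rw [← Ideal.Quotient.eq, Ideal.Quotient.mk_out, map_mul, Ideal.Quotient.mk_out, hit, hβ,
      map_pow]
  have hfst : ∀ (q : ι × (OO A B ⧸ idl (A := A) (B := B) m)) (l : ℕ), (ψ^[l] q).1 = q.1 := by
    intro q l
    rw [hit]
  have hTh : ∀ i, ∀ z, ∀ w ∈ (R.L i).lattice,
      ThetaH (R.L i) (H i) (z + w) = ThetaH (R.L i) (H i) z := by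
    intro i z w hw
    have h2 : (R.L i).weierstrassP (z + w) = (R.L i).weierstrassP z :=
      (R.L i).weierstrassP_add_coe z ⟨w, hw⟩
    simp only [ThetaH, h2]
  have hdl : ∀ i, ∀ z, ∀ w ∈ (R.L i).lattice, dlX (R.L i) a (z + w) = dlX (R.L i) a z := by
    intro i z w hw
    have h6 := (b_PER (R.L i)).1
    unfold dlX
    rw [h6 z w hw, mul_add, h6 (a * z) (a * w) (by
      have := nsmul_mem hw a
      rwa [nsmul_eq_mul] at this)]
  -- the products
  let S' : (D ≃ₐ[kk A B] D) → Finset ((ι × (OO A B ⧸ idl (A := A) (B := B) m)) × ℕ) := fun τ =>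
    T τ ×ˢ Finset.range 1
  have hprod : ∀ τ : D ≃ₐ[kk A B] D, cXE R m H h τ = ∏ K ∈ S' τ, ∏ l ∈ Finset.range 3,
      ThetaH (R.L K.1.1) (H K.1.1) (ptE R m K.1.1 (xx K) + l * qq K) := by
    intro τ
    rw [cXE, finprod_mem_eq_finite_toFinset_prod _ (hfin τ)]
    refine (hTp τ _).trans ?_
    rw [Finset.prod_product]
    refine Finset.prod_congr rfl fun q _ => (_root_.Pool.Agent.ME3.RED.prod_split 1 _).trans ?_
    refine Finset.prod_congr rfl fun l _ => Finset.prod_congr rfl fun j _ => ?_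
    rw [hfst]
    exact horb q.1 _ (hTh q.1) _ _ l j (hout q _)
  -- the sums
  have hbP : ∀ l : ℕ, ∃ r : OO A B, b ^ l - 1 = ((3 : ℕ) : OO A B) * r := by
    intro l
    have h5 : b ^ l - 1 ∈ idl (A := A) (B := B) 3 := by
      have h6 : b - 1 ∣ b ^ l - 1 := sub_one_dvd_pow_sub_one b l
      refine Ideal.mem_of_dvd _ h6 ?_
      rw [hb, add_sub_cancel_left, ht]
      refine Ideal.mul_mem_right _ _ (Ideal.mem_span_singleton.2 ⟨((3 ^ k * f : ℕ) : OO A B), ?_⟩)
      push_cast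
      ring
    exact Ideal.mem_span_singleton.1 h5
  let W : (ι × (OO A B ⧸ idl (A := A) (B := B) m)) → ℂ := fun q =>
    wt (Quotient.out q.2 : OO A B)
  let d : (ι × (OO A B ⧸ idl (A := A) (B := B) m)) → ℕ → ℕ → ℂ := fun q l j =>
    dlX (R.L q.1) a (ptE R m q.1 (xx (q, l)) + j * qq (q, l))
  have hsum : ∀ τ : D ≃ₐ[kk A B] D, TTNE R wt m a h τ = ∑ q ∈ T τ, ∑ l ∈ Finset.range 1,
      ∑ j ∈ Finset.range 3, W q * muXE R q.1 * d q l j := by
    intro τ
    rw [TTNE, finsum_mem_eq_finite_toFinset_sum _ (hfin τ)]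
    refine (hTs τ _).trans ?_
    refine Finset.sum_congr rfl fun q _ => (_root_.Pool.Agent.ME3.RED.sum_split 1 _).trans ?_
    refine Finset.sum_congr rfl fun l _ => Finset.sum_congr rfl fun j _ => ?_
    have h6 : wt (Quotient.out (ψ^[l + 1 * j] q).2 : OO A B) =
        wt (Quotient.out q.2 : OO A B) := by
      apply hwt.per
      obtain ⟨r, hr⟩ := hbP (l + 1 * j)
      have h7 := add_mem (hm3 _ (hout q (l + 1 * j)))
        (Ideal.mul_mem_left _ (Quotient.out q.2 : OO A B) (show b ^ (l + 1 * j) - 1 ∈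
          idl (A := A) (B := B) 3 from Ideal.mem_span_singleton.2 ⟨r, hr⟩))
      rwa [show (Quotient.out (ψ^[l + 1 * j] q).2 : OO A B) -
        (Quotient.out q.2 : OO A B) * b ^ (l + 1 * j) +
        (Quotient.out q.2 : OO A B) * (b ^ (l + 1 * j) - 1) =
        (Quotient.out (ψ^[l + 1 * j] q).2 : OO A B) - Quotient.out q.2 by ring] at h7
    rw [h6, hfst, horb q.1 _ (hdl q.1) _ _ l j (hout q _)]
  -- the sum of `MAIN`
  obtain ⟨Y, hY⟩ : ∃ Y : (D ≃ₐ[kk A B] D) → ℂ, ∀ τ, Y τ = ∑ K ∈ S' τ, emb (xx K) *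
      muXE R K.1.1 * ∑ l ∈ Finset.range 3, dlX (R.L K.1.1) a (ptE R m K.1.1 (xx K) + l * qq K) :=
    ⟨_, fun τ => rfl⟩
  have hM : V.valuation ((∑ᶠ τ : D ≃ₐ[kk A B] D, (g τ : ℂ) * Y (τ * τ')) / u) ^ 2 ≤
      V.valuation (3 : ℂ) ^ 3 := by
    simp only [hY]
    subst hm
    subst ha
    refine hMAIN A B P V hC hT hE (k + 1) f hn hf3 hf2 hf ι R u e lam hG H hH D h hD
      (cXE R (lvX 3 f (k + 1)) H h) _ S' (fun K => K.1.1) xx qq hCC ?_ hprod g hcube τ'
    intro τ K hK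
    obtain ⟨hK1, -⟩ := Finset.mem_product.1 hK
    have h6 := hxx K.1 K.2 (hScop τ _ (hTS τ hK1))
    exact ⟨h6, htor K.1.1 _ h6⟩
  have hΔ : ∀ τ : D ≃ₐ[kk A B] D, _root_.Pool.Agent.ME3.RED.Bd V ((Y τ - TTNE R wt m a h τ) / u) := by
    intro τ
    rw [hsum τ, hY, Finset.sum_product, ← Finset.sum_sub_distrib, Finset.sum_div]
    refine Bd.sum _ _ fun q hq => ?_
    have hqc := hScop τ q (hTS τ hq)
    obtain ⟨x, hx⟩ : ∃ x : OO A B, x = Quotient.out q.2 := ⟨_, rfl⟩
    have e1 : ∀ l, emb (xx (q, l)) = emb x * emb (b ^ l) := by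
      intro l
      rw [← hφ, ← hφ, ← hφ, hx]
      exact map_mul φ _ _
    have e2 : (∑ l ∈ Finset.range 1, emb (xx (q, l)) * muXE R q.1 *
        ∑ j ∈ Finset.range 3, d q l j -
        ∑ l ∈ Finset.range 1, ∑ j ∈ Finset.range 3, W q * muXE R q.1 * d q l j) / u =
        ∑ l ∈ Finset.range 1, (emb x * emb (b ^ l) - W q) *
          (muXE R q.1 * (∑ j ∈ Finset.range 3, d q l j) / u) := by
      rw [← Finset.sum_sub_distrib, Finset.sum_div]
      refine Finset.sum_congr rfl fun l _ => ?_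
      rw [e1, ← Finset.mul_sum]
      ring
    refine Eq.subst (motive := fun z => _root_.Pool.Agent.ME3.RED.Bd V z) e2.symm ?_
    have hxP : x ∉ P := by
      intro h6
      obtain ⟨c1, c2, h7⟩ := hqc
      apply hC.max.ne_top
      rw [Ideal.eq_top_iff_one, ← h7]
      refine add_mem (P.mul_mem_left _ (hx ▸ h6)) (P.mul_mem_left _ ?_)
      exact hmP _ (Ideal.mem_span_singleton_self _)
    refine Bd.sum _ _ fun l _ => ?_
    have hxl := hxx q l hqc
    have h6 := (hINN A B P V hC hT hE (k + 1) f a hf3 hf2 hf ha3 hao hap haf ι R u e lam hG H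
      hH q.1 (xx (q, l)) (by rw [← hlv]; exact hxl) (qq (q, l)) (htor q.1 _ hxl).1).2
      (htor q.1 _ hxl).2
    rw [← hlv] at h6
    obtain ⟨r, hr⟩ := hbP l
    have h8 : emb (b ^ l) - 1 = 3 * emb r := by
      have h9 := congrArg φ hr
      rw [map_sub, map_one, map_mul, map_natCast, hφ, hφ] at h9
      rw [h9]
      push_cast
      ring
    have h9 : V.valuation (emb x * emb (b ^ l) - W q) ≤ V.valuation (3 : ℂ) := by
      have h10 : emb x * emb (b ^ l) - W q = 3 * (emb x * emb r) - (W q - emb x) := by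
        linear_combination emb x * h8
      rw [h10]
      refine (V.valuation.map_sub _ _).trans (max_le ?_ ?_)
      · rw [map_mul, map_mul]
        exact mul_le_of_le_one_right' (mul_le_one' (hC.int x) (hC.int r))
      · rw [hx] at hxP ⊢
        exact hwt.cong _ hxP
    unfold _root_.Pool.Agent.ME3.RED.Bd
    rw [map_mul, mul_pow]
    calc V.valuation (emb x * emb (b ^ l) - W q) ^ 2 *
          V.valuation (muXE R q.1 * (∑ j ∈ Finset.range 3, d q l j) / u) ^ 2
        ≤ V.valuation (3 : ℂ) ^ 2 * V.valuation (3 : ℂ) :=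
          mul_le_mul' (pow_le_pow_left₀ zero_le h9 _) h6
      _ = V.valuation (3 : ℂ) ^ 3 := (pow_succ _ 2).symm
  rw [finsum_eq_sum_of_fintype] at hM ⊢
  have e4 : (∑ τ : D ≃ₐ[kk A B] D, (g τ : ℂ) * TTNE R wt m a h (τ * τ')) / u =
      (∑ τ : D ≃ₐ[kk A B] D, (g τ : ℂ) * Y (τ * τ')) / u -
      ∑ τ : D ≃ₐ[kk A B] D, (g τ : ℂ) * ((Y (τ * τ') - TTNE R wt m a h (τ * τ')) / u) := by
    rw [Finset.sum_div, Finset.sum_div, ← Finset.sum_sub_distrib]
    exact Finset.sum_congr rfl fun τ _ => by ring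
  rw [e4]
  refine Bd.sub (show _root_.Pool.Agent.ME3.RED.Bd V _ from hM) (Bd.sum _ _ fun τ _ => (hΔ _).mul ?_)
  rw [V.valuation_le_one_iff]
  exact intCast_mem V _

end

end Pool.Agent.ME3


end
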