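import Mathlib
import Pool.Agent.MVF.C027
import Pool.Agent.MVF.C115
import Pool.Agent.MVF.C117
import Pool.Agent.MVF.C120

/-! Parts: ME.X.I_HIT, ME.N.I_I31, ME.N.I_XMX, ME.X.I_XXF, ME.X.I_IAF -/

section

/-!
# MUX, block IX, module HIT (helper28): `σ` hits the pair `(i, x)` iff it acts as the ideal `x cjI (b i)`
-/

set_option autoImplicit false

namespace Pool.Agent.MUXI

open _root_.MU3 _root_.Pool.Agent.MU3 _root_.Pool.Agent.MU3A _root_.Pool.Agent.MU3B _root_.Pool.Agent.RI _root_.Pool.Agent.RID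
  _root_.Pool.Agent.MUX _root_.Pool.Agent.ME _root_.Pool.Agent.MUXE _root_.Pool.Agent.MUXK
open _root_.Pool.Agent.MU3I (w3 zt)

noncomputable section

namespace Hit

/-- equal lattices have the same functions -/
lemma same_E (L L' : PeriodPair) (h : ∀ z : ℂ, z ∈ L.lattice ↔ z ∈ L'.lattice) (z : ℂ) :
    xnE L' z = xnE L z := by
  have hs := ta_SCP L L' 1 one_ne_zero (fun u => by rw [one_mul]; exact h u)
  unfold xnE
  simpa using hs.1 z

/-- there is only one class -/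
lemma one_E {A B : ℤ} (hE : CaseE A B) (h6 : Pool.Agent.MUXY.Sy_UNJ_E) {n₀ : ℕ} {ι : Type}
    (R : RepsE A B n₀ ι) (i : ι) : i = R.i0 :=
  h6 A B hE n₀ ι R i R.i0 ((R.nl i).nrm.g2_eq (R.nl R.i0).nrm) ((R.nl i).nrm.g3_eq (R.nl R.i0).nrm)

lemma bt_E {A B : ℤ} (hE : CaseE A B) (h6 : Pool.Agent.MUXY.Sy_UNJ_E) {n₀ : ℕ} {ι : Type}
    (R : RepsE A B n₀ ι) (i : ι) : R.b i = ⊤ := by
  rw [one_E hE h6 R i, R.b0]

lemma nb_E {A B : ℤ} (hE : CaseE A B) (h6 : Pool.Agent.MUXY.Sy_UNJ_E) {n₀ : ℕ} {ι : Type}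
    (R : RepsE A B n₀ ι) (i : ι) : nI (R.b i) = 1 := by
  rw [bt_E hE h6 R i]
  change Nat.card (OO A B ⧸ (⊤ : Ideal (OO A B))) = 1
  have : Subsingleton (OO A B ⧸ (⊤ : Ideal (OO A B))) :=
    Ideal.Quotient.subsingleton_iff.2 rfl
  exact Nat.card_unique

lemma cj_E {A B : ℤ} (hE : CaseE A B) (h6 : Pool.Agent.MUXY.Sy_UNJ_E) {n₀ : ℕ} {ι : Type}
    (R : RepsE A B n₀ ι) (i : ι) : cjI (R.b i) = ⊤ := by
  rw [bt_E hE h6 R i]
  unfold cjI
  exact Ideal.comap_top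

/-- a point of level `m` in the lattice -/
lemma pt_mem_E {A B : ℤ} (hc : CQ A B) (hALG : Pool.Agent.MUXF.Sx_ALG) {n₀ : ℕ} {ι : Type}
    (R : RepsE A B n₀ ι) (m : ℕ) (hm : m ≠ 0) (i : ι) (hcop : (nI (R.b i)).Coprime m)
    (y : OO A B) (h : ptE R m i y ∈ (R.L i).lattice) : y ∈ idl (A := A) (B := B) m := by
  obtain ⟨hmul, hz, hint, -, -⟩ := hALG A B (Pool.Agent.MUXY.cqF hc)
  have hem : ∀ x y : OO A B, emb (x * y) = emb x * emb y := fun x y => (hmul x y).1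
  have heZ : ∀ k : ℤ, emb ((k : ℤ) : OO A B) = (k : ℂ) := fun k => (hint k).1
  have heN : ∀ k : ℕ, emb ((k : ℕ) : OO A B) = (k : ℂ) := fun k => by
    have := heZ (k : ℤ)
    rwa [Int.cast_natCast, Int.cast_natCast] at this
  have hes : ∀ x y : OO A B, emb x = emb y → x = y := by
    intro x y hxy
    have h1 : emb ((x - y) + y) = emb (x - y) + emb y := (hmul (x - y) y).2.1
    rw [sub_add_cancel, hxy] at h1
    have h2 : emb (x - y) = 0 := by linear_combination -h1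
    exact sub_eq_zero.1 ((hz _).1.1 h2)
  have hmC : (m : ℂ) ≠ 0 := by exact_mod_cast hm
  have hom : R.om i ≠ 0 := (R.nl i).om_ne
  obtain ⟨s, -, hs⟩ := ((R.nl i).mem _).1 h
  have h1 : ((nI (R.b i) : ℕ) : OO A B) * y = (m : ℕ) * s := by
    apply hes
    rw [hem, hem, heN, heN]
    unfold ptE at hs
    field_simp at hs
    linear_combination hs
  obtain ⟨u, v, huv⟩ := Nat.isCoprime_iff_coprime.2 hcop
  have h2 : (u : OO A B) * ((nI (R.b i) : ℕ) : OO A B) + (v : OO A B) * (m : ℕ) = 1 := by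
    have := congrArg (fun k : ℤ => (k : OO A B)) huv
    push_cast at this
    exact this
  refine Ideal.mem_span_singleton.2 ⟨(u : OO A B) * s + (v : OO A B) * y, ?_⟩
  linear_combination (-y) * h2 + (u : OO A B) * h1

lemma idl_bot {A B : ℤ} {m : ℕ} (hm : m ≠ 0) : idl (A := A) (B := B) m ≠ ⊥ := by
  intro h
  have h4 : ((m : ℕ) : OO A B) = 0 := by
    have : ((m : ℕ) : OO A B) ∈ (idl (A := A) (B := B) m) := Ideal.mem_span_singleton_self _
    rw [h] at this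
    exact this
  have h5 := congrArg QuadraticAlgebra.re h4
  simp at h5
  omega

lemma idl_le {A B : ℤ} {m : ℕ} (h2 : 2 ∣ m) :
    idl (A := A) (B := B) m ≤ idl (A := A) (B := B) 2 := by
  obtain ⟨k, rfl⟩ := h2
  refine Ideal.span_singleton_le_span_singleton.2 ⟨(k : OO A B), ?_⟩
  push_cast
  rfl

/-- from the ideal to the point -/
lemma hit_of_E {A B : ℤ} (hE : CaseE A B) (hT : TorXE A B) (hALG : Pool.Agent.MUXF.Sx_ALG)
    (h6 : Pool.Agent.MUXY.Sy_UNJ_E) {n₀ : ℕ} {ι : Type}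
    (R : RepsE A B n₀ ι) (m : ℕ) (hm0 : m ≠ 0) (h2 : 2 ∣ m)
    (σ : ℂ ≃+* ℂ) (i : ι) (x : OO A B) (hx2 : x - 1 ∈ idl (A := A) (B := B) 2)
    (hIA : IA_E σ (idl m) (sp x * cjI (R.b i))) : HitsE R m σ i x := by
  have hc := hE.toCQ
  have hm : 2 ≤ m := Nat.le_of_dvd (Nat.pos_of_ne_zero hm0) h2
  obtain ⟨hmul, hz, hint, -, -⟩ := hALG A B (Pool.Agent.MUXY.cqF hc)
  have hem : ∀ x y : OO A B, emb (x * y) = emb x * emb y := fun x y => (hmul x y).1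
  have heZ : ∀ k : ℤ, emb ((k : ℤ) : OO A B) = (k : ℂ) := fun k => (hint k).1
  have heN : ∀ k : ℕ, emb ((k : ℕ) : OO A B) = (k : ℂ) := fun k => by
    have := heZ (k : ℤ)
    rwa [Int.cast_natCast, Int.cast_natCast] at this
  have he1 : emb (1 : OO A B) = 1 := by
    have := heN 1
    rwa [Nat.cast_one, Nat.cast_one] at this
  have hmC : (m : ℂ) ≠ 0 := by exact_mod_cast hm0
  have hi := one_E hE h6 R i
  subst hi
  obtain ⟨b', L', om', mu, hnl', hact⟩ := hIA.act _ _ _ (R.nl R.i0)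
  obtain ⟨c, hmu, hac, hc2⟩ := hT.two (idl m) _ σ _ _ L' _ mu (idl_bot hm0) (idl_le h2) hIA.fix
    (R.nl R.i0) hact hnl'.nrm
  haveI := isDomain hc
  rw [cj_E hE h6, Ideal.mul_top] at hac
  obtain ⟨u, hu⟩ := Ideal.span_singleton_eq_span_singleton.1 hac
  have hu2 : ((u : OO A B) - 1) ∈ idl (A := A) (B := B) 2 := by
    have h3 : (u : OO A B) - 1 = (c - 1) - (u : OO A B) * (x - 1) := by
      rw [← hu]
      ring
    rw [h3]
    exact sub_mem hc2 (Ideal.mul_mem_left _ _ hx2)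
  have hlat : ∀ z : ℂ, z ∈ L'.lattice ↔ z ∈ (R.L R.i0).lattice := hnl'.nrm.lat (R.nl R.i0).nrm
  have hxn := same_E L' (R.L R.i0) hlat
  have hN0 : nI (R.b R.i0) = 1 := nb_E hE h6 R R.i0
  have hom0 : R.om R.i0 ≠ 0 := (R.nl R.i0).om_ne
  have hz0 : ptE R m R.i0 1 = R.om R.i0 / m := by
    unfold ptE
    rw [hN0, he1]
    simp
  have hTor : Tor (idl (A := A) (B := B) m) (R.L R.i0) (ptE R m R.i0 1) := by
    intro y hy
    obtain ⟨t, rfl⟩ := Ideal.mem_span_singleton.1 hy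
    refine ((R.nl R.i0).mem _).2 ⟨t, by rw [R.b0]; trivial, ?_⟩
    rw [hem, heN, hz0]
    field_simp
  have hz0L : ptE R m R.i0 1 ∉ (R.L R.i0).lattice := by
    intro h
    have h1 := pt_mem_E hc hALG R m hm0 R.i0 (by rw [hN0]; exact Nat.coprime_one_left m) 1 h
    obtain ⟨t, ht⟩ := Ideal.mem_span_singleton.1 h1
    exact not_unit m hm t ht
  have hpt : emb x * ptE R m R.i0 1 = ptE R m R.i0 x := by
    rw [hz0]
    unfold ptE
    rw [hN0]
    push_cast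
    ring
  have hk : kapE (R.L R.i0) = σ (kapE (R.L R.i0)) := (R.nl R.i0).nrm.kapc (R.nl R.i0).nrm σ
  rcases hact.act _ hTor with ⟨h1, -⟩ | ⟨-, h2, h3, -⟩
  · exact absurd h1 hz0L
  · rcases unit_two hE u.isUnit hu2 with e | e
    · have e1 : ptE R m R.i0 x = mu * ptE R m R.i0 1 := by
        rw [← hpt, hmu, ← hu, e, mul_one]
      refine ⟨hk, ?_, ?_⟩
      · rw [h3, hxn, e1]
      · rw [e1, ← hlat]
        exact h2
    · have e1 : ptE R m R.i0 x = -(mu * ptE R m R.i0 1) := by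
        rw [← hpt, hmu, ← hu, e, mul_neg, mul_one]
        have e2 : emb (-x) = -emb x := _root_.Pool.Agent.MUX.emb_neg hc x
        rw [e2]
        ring
      refine ⟨hk, ?_, ?_⟩
      · rw [h3, hxn, e1]
        unfold xnE
        rw [PeriodPair.weierstrassP_neg]
      · rw [e1, ← hlat, neg_mem_iff]
        exact h2

end Hit

open _root_.Pool.Agent.MUXI.Hit in
/-- (HIT) `σ` hits the pair `(i, x)` iff it acts as the ideal `x cjI (b i)` and `x ≡ 1` modulo `2`. -/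
theorem ti_HIT_E (h1 : Si_IAF_E) (h2 : Si_IAG_E) (h3 : Si_RPR_E)
    (h6 : Pool.Agent.MUXY.Sy_UNJ_E) (h7 : Pool.Agent.MUXF.Sx_ALG) : Si_HIT_E := by
  intro A B hE hT n₀ ι R m hm0 hm2 σ hfix i x hx
  refine ⟨fun hh => ?_, fun h => hit_of_E hE hT h7 h6 R m hm0 hm2 σ i x h.1 h.2⟩
  have hc := hE.toCQ
  have hm : 2 ≤ m := Nat.le_of_dvd (Nat.pos_of_ne_zero hm0) hm2
  obtain ⟨hmul, hz, hint, -, -⟩ := h7 A B (Pool.Agent.MUXY.cqF hc)
  have hmb := idl_bot (A := A) (B := B) hm0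
  have hle := idl_le (A := A) (B := B) hm2
  have hcop : ∀ i, (nI (R.b i)).Coprime m := fun i => by
    rw [nb_E hE h6]
    exact Nat.coprime_one_left m
  have hex : ∃ (b : Ideal (OO A B)) (L : PeriodPair) (om : ℂ), IsNE b L om :=
    ⟨_, _, _, R.nl R.i0⟩
  obtain ⟨i1, -, -, -, i5, -⟩ := h1 A B hc hT hex _ hmb
  obtain ⟨-, j2, -⟩ := h2 A B hc hT hex _ hmb (Or.inl hle)
  obtain ⟨a, ha⟩ := i1 σ hfix
  obtain ⟨p1, p2⟩ := h3 A B hc n₀ ι R m hm0 hcop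
  obtain ⟨j, x'', hx'', hRE⟩ := p2 a (j2 σ a ha).1 ha.cop
  have hIA'' := i5 σ a _ ha (p1 j x'' hx'') hRE
  have h2m : ((2 : ℕ) : OO A B) ∣ ((m : ℕ) : OO A B) := by
    obtain ⟨k, rfl⟩ := hm2
    exact ⟨(k : OO A B), by push_cast; rfl⟩
  have hx2'' : IsCoprime x'' (2 : OO A B) := by
    have h5 := hx''.of_isCoprime_of_dvd_right h2m
    rwa [Nat.cast_ofNat] at h5
  obtain ⟨z, hz1, hz2⟩ := unit_ex hE hx2''
  have hij : i = j := (one_E hE h6 R i).trans (one_E hE h6 R j).symm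
  subst hij
  obtain ⟨x', rfl⟩ : ∃ x', x' = z * x'' := ⟨_, rfl⟩
  have hx' : IsCoprime (z * x'') (m : OO A B) := by
    obtain ⟨u, v, huv⟩ := hx''
    obtain ⟨z', hz'⟩ := hz1.exists_left_inv
    exact ⟨u * z', v, by linear_combination (u * x'') * hz' + huv⟩
  have hsz : sp (z * x'') = sp x'' := Ideal.span_singleton_mul_left_unit hz1 x''
  have hIA : IA_E σ (idl m) (sp (z * x'') * cjI (R.b i)) := by
    rw [hsz]
    exact hIA''
  have hh' := hit_of_E hE hT h7 h6 R m hm0 hm2 σ i (z * x'') hz2 hIA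
  have hP : (R.L i).weierstrassP (ptE R m i x) = (R.L i).weierstrassP (ptE R m i (z * x'')) := by
    have e1 := hh.2.1.symm.trans hh'.2.1
    unfold xnE at e1
    exact e1
  have hdiff : x - z * x'' ∈ idl (A := A) (B := B) m ∨ x + z * x'' ∈ idl (A := A) (B := B) m := by
    rcases b_NEQ (R.L i) _ _ hh'.2.2 hh.2.2 hP with e | e
    · left
      apply pt_mem_E hc h7 R m hm0 i (hcop i)
      have e1 : ptE R m i (x - z * x'') = ptE R m i x - ptE R m i (z * x'') := by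
        have e2 : emb ((x - z * x'') + z * x'') = emb (x - z * x'') + emb (z * x'') :=
          (hmul _ _).2.1
        rw [sub_add_cancel] at e2
        unfold ptE
        rw [e2]
        ring
      rw [e1]
      exact e
    · right
      apply pt_mem_E hc h7 R m hm0 i (hcop i)
      have e1 : ptE R m i (x + z * x'') = ptE R m i x + ptE R m i (z * x'') := by
        have e2 : emb (x + z * x'') = emb x + emb (z * x'') := (hmul _ _).2.1
        unfold ptE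
        rw [e2]
        ring
      rw [e1]
      exact e
  have h22 : (2 : OO A B) ∈ idl (A := A) (B := B) 2 := by
    have h8 : ((2 : ℕ) : OO A B) ∈ idl (A := A) (B := B) 2 := Ideal.mem_span_singleton_self _
    rwa [Nat.cast_ofNat] at h8
  have hx2 : x - 1 ∈ idl (A := A) (B := B) 2 := by
    rcases hdiff with e | e
    · have h8 := add_mem (hle e) hz2
      rwa [sub_add_sub_cancel] at h8
    · have h8 := sub_mem (sub_mem (hle e) hz2) h22
      have h9 : x + z * x'' - (z * x'' - 1) - 2 = x - 1 := by ring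
      rwa [h9] at h8
  have hx0 : x ≠ 0 := cop_ne m hm x hx
  have hx0' : z * x'' ≠ 0 := cop_ne m hm _ hx'
  have hcx : IsCoprime (sp x) (idl (A := A) (B := B) m) :=
    (Ideal.isCoprime_span_singleton_iff _ _).2 hx
  have hRE2 : RE (idl m) (sp (z * x'') * cjI (R.b i)) (sp x * cjI (R.b i)) := by
    rcases hdiff with e | e
    · exact ⟨x, z * x'', hx0, hx0', hcx, e, by rw [mul_left_comm]⟩
    · refine ⟨x, -(z * x''), hx0, neg_ne_zero.2 hx0', hcx, by rwa [sub_neg_eq_add], ?_⟩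
      have e3 : sp (-(z * x'')) = sp (z * x'') := Ideal.span_singleton_neg _
      rw [e3, mul_left_comm]
  exact ⟨hx2, i5 σ _ _ hIA (p1 i x hx) hRE2⟩

end

end Pool.Agent.MUXI


end

section

/-!
# MUX-NS, block IN, module I31 (helper36): one level, from blocks E and H

Model: `Pool/Agent/MUX/I_I3.lean`.
-/

set_option autoImplicit false

namespace Pool.Agent.NSI

open _root_.MU3 _root_.Pool.Agent.MU3 _root_.Pool.Agent.MU3A _root_.Pool.Agent.MU3B _root_.Pool.Agent.RI _root_.Pool.Agent.RID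
  _root_.Pool.Agent.MUX _root_.Pool.Agent.ME _root_.Pool.Agent.MUXK _root_.Pool.Agent.MUXI _root_.Pool.Agent.NS
open _root_.Pool.Agent.MU3I (w3 zt St_ITG)

noncomputable section

namespace I31

/-- if the product is a cube, then the sum is small -/
theorem pows_E (hFOU : Sn_FOU) (hTG : St_ITG) {A B : ℤ} (V : ValuationSubring ℂ) (f : ℕ)
    {ι : Type} (R : RepsE A B (3 * f) ι) (u : ℂ)
    (n : ℕ) (D : IntermediateField ℚ ℂ) [FiniteDimensional ℚ D] (h : kk A B ≤ D)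
    (C : (letI := algC h; D ≃ₐ[kk A B] D) → ℂ) (hE : EInpN_E V f R u n h C) (w : OO A B → ℂ)
    (hw : IsTei V w) :
    letI := algC h
    ∀ (_ : ∀ σ τ : D ≃ₐ[kk A B] D, σ * τ = τ * σ) (c₁ : ℂ) (hc : c₁ ∈ D) (_ : c₁ = C 1)
      (γ : D ≃ₐ[kk A B] D) (Δ : Subgroup (D ≃ₐ[kk A B] D)) [Fintype Δ] (N : ℕ) (b : Δ → ℕ)
      (X : Δ →* ℂˣ) (_ : (∑ δ : Δ, (b δ : ℂ) * (X δ : ℂ)) ∉ V.nonunits) (y : D)
      (_ : y ^ 3 = ∏ δ : Δ, ((δ : D ≃ₐ[kk A B] D) ((Tg γ)^[N] ⟨c₁, hc⟩)) ^ b δ),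
      V.valuation ((∑ j ∈ Finset.range (N + 1),
        (((-1 : ℤ) ^ (N - j) * (N.choose j : ℤ) : ℤ) : ℂ) *
        ∑ δ : Δ, (((X δ)⁻¹ : ℂˣ) : ℂ) * TTNE R w (lvX 3 f n)
          (aX 3 f) h (γ ^ j * (δ : D ≃ₐ[kk A B] D))) / u) ≤ V.valuation (3 : ℂ) := by
  classical
  let akL : Algebra (kk A B) D := algC h
  intro comm c₁ hc hc1 γ Δ iΔ N b X hX y hy
  have fdk := Pool.Agent.FX.fd (kk A B) D
  have iG : Fintype (D ≃ₐ[kk A B] D) := Fintype.ofFinite _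
  let e : ℕ → ℤ := fun j => (-1 : ℤ) ^ (N - j) * (N.choose j : ℤ)
  let g : (D ≃ₐ[kk A B] D) → ℤ := fun τ => ∑ δ : Δ, ∑ j ∈ Finset.range (N + 1),
      if (δ : D ≃ₐ[kk A B] D) * γ ^ j = τ then (b δ : ℤ) * e j else 0
  have hcτ : ∀ τ : D ≃ₐ[kk A B] D, ((τ ⟨c₁, hc⟩ : D) : ℂ) = C τ := by
    intro τ
    obtain ⟨y', hy1, hy2⟩ := hE.conj τ
    have h3 : y' = ⟨c₁, hc⟩ := Subtype.ext (hy1.trans hc1.symm)
    rw [← h3]
    exact hy2
  have hcne : (⟨c₁, hc⟩ : D) ≠ 0 := by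
    intro h0
    apply hE.ne
    have h1 : c₁ = 0 := congrArg Subtype.val h0
    rw [hc1] at h1
    exact h1
  have hu : ∀ τ : D ≃ₐ[kk A B] D, C τ ≠ 0 := by
    intro τ h0
    rw [← hcτ τ] at h0
    have h1 : τ (⟨c₁, hc⟩ : D) = 0 := Subtype.ext h0
    exact hcne ((map_eq_zero_iff τ τ.injective).1 h1)
  have e1 : (y : ℂ) ^ 3 = ∏ᶠ τ : D ≃ₐ[kk A B] D, C τ ^ g τ := by
    rw [MU3I.I3F.prod_exp γ Δ _ hu (fun δ => (b δ : ℤ)) N e g (fun τ => rfl)]
    have h1 : (y : ℂ) ^ 3 = D.val (y ^ 3) := rfl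
    rw [h1, hy, map_prod]
    refine Finset.prod_congr rfl fun δ _ => ?_
    rw [MU3I.I3F.tg_pow hTG _ _ γ δ _ hcne N (b δ), map_prod]
    refine Finset.prod_congr rfl fun j _ => ?_
    rw [map_zpow₀]
    exact congrArg (fun w : ℂ => w ^ ((b δ : ℤ) * e j)) (hcτ ((δ : D ≃ₐ[kk A B] D) * γ ^ j))
  have e2 := hE.ew w hw g ⟨y, y.2, e1⟩
  obtain ⟨q1, q2, q3, q4⟩ := val_prop V u
  refine hFOU V (fun x => V.valuation (x / u) ≤ V.valuation (3 : ℂ)) q1 q2 q3 q4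
    (D ≃ₐ[kk A B] D) comm γ Δ
    (fun τ => TTNE R w (lvX 3 f n) (aX 3 f) h τ) (fun δ => (b δ : ℤ)) N e X ?_ ?_
  · simpa using hX
  · intro τ'
    have e3 := e2 τ'
    rw [MU3I.I3F.sum_exp γ Δ (fun τ => TTNE R w (lvX 3 f n) (aX 3 f) h τ)
      (fun δ => (b δ : ℤ)) N e g (fun τ => rfl) τ'] at e3
    exact e3

lemma nI_ne_E {f : ℕ} {A B : ℤ} {ι : Type} (R : RepsE A B (3 * f) ι) (i : ι) :
    ¬ (3 : ℤ) ∣ (nI (R.b i) : ℤ) := by
  intro h
  have h1 : (3 : ℕ) ∣ nI (R.b i) := by exact_mod_cast h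
  have h2 := R.cop i
  have h3 : 3 ∣ Nat.gcd (nI (R.b i)) (3 * f) := Nat.dvd_gcd h1 (dvd_mul_right 3 f)
  rw [h2] at h3
  omega

lemma muX_ne_E {f : ℕ} {A B : ℤ} {ι : Type} (R : RepsE A B (3 * f) ι) (i : ι) : muXE R i ≠ 0 := by
  have h1 := nI_ne_E R i
  have h2 : nI (R.b i) ≠ 0 := by
    intro h
    rw [h] at h1
    exact h1 (dvd_zero _)
  unfold muXE
  exact div_ne_zero (mul_ne_zero (R.nl i).om_ne (Nat.cast_ne_zero.2 h2)) (R.nl R.i0).om_ne

lemma kkC_pow_E {f : ℕ} {A B : ℤ} {ι : Type} (R : RepsE A B (3 * f) ι) (kp : ι → ℂ) (r : ℕ)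
    (hkp : ∀ i, kp i ^ r = 1) (s : ℤ) (i : ι) :
    kkC_E R kp (fun i => muXE R i) s i ^ (8 * r) = 1 := by
  have h1 : kp i * muXE R i / muXE R i = kp i := mul_div_cancel_right₀ _ (muX_ne_E R i)
  unfold kkC_E
  rw [h1, mul_pow, mul_comm 8 r, pow_mul, hkp, one_pow, one_mul, mul_comm r 8, pow_mul]
  split_ifs with h2
  · rw [one_pow, one_pow]
  · rcases w3_unit (nI_ne_E R i) with h3 | h3
    · rw [h3]
      simp
    · rw [h3]
      have : (((-1 : ℤ) : ℂ)) ^ 8 = 1 := by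
        push_cast
        norm_num
      rw [this, one_pow]

end I31

/-- (I31) one level -/
theorem tn_I31_E (hRES : Pool.Agent.MUXJ.Sj_RES) (hCHI : Si_CHI) (hFOU : Sn_FOU)
    (hTG : St_ITG) (hEPS : Sn_EPS_E) (hTEI : Sn_TEI_E) (hE0 : Sn_E0_E) (hARF : Si_ARF_E)
    (hXXF : Si_XXF_E) (hSUB : Sn_SUB_E) (hGAM : Si_GAM) (hXM : Sn_XMX_E) (hBIJ : Si_BIJ) (hTH : Sn_TH_E)
    (hGEN : Si_GEN) (hH : Sn_HFIN_E) (hGAL : S_GALX) : Sn_I31_E := by
  classical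
  intro A B V f hS hTor ι iι R u el lam hG K Bn iK iKB hB hcop hKT hk hkK C hE c₀ mem hc₀ χ n₀
  let aK : Algebra (kk A B) K := algC hkK
  have iP : Fact (Nat.Prime 3) := ⟨Nat.prime_three⟩
  have hCQ : CQ A B := hS.case.toCQ
  have hL : SetL 3 A B f := setL_N_E hS
  have h2l : 2 ∣ lvX 3 f 0 := by
    unfold lvX
    exact Dvd.dvd.mul_right (Dvd.dvd.mul_right hS.f2 _) _
  have hpV : ((3 : ℕ) : ℂ) ∈ V.nonunits := by
    have h1 := (hS.hV ((3 : ℕ) : OO A B)).2 (Ideal.mem_span_singleton_self _)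
    rwa [I31.emb_nat] at h1
  obtain ⟨iF1, iF2⟩ := hRES 3 V hpV
  have galK : IsGalois (kk A B) K := (isGalois_algC hkK).2 hB.gal
  have fdkK := Pool.Agent.FX.fd (kk A B) K
  have commK : ∀ a b : K ≃ₐ[kk A B] K, a * b = b * a := by
    intro a b
    have h1 := hB.ab ((extEquiv hkK).symm.autCongr a) ((extEquiv hkK).symm.autCongr b)
    rw [← map_mul, ← map_mul] at h1
    exact (extEquiv hkK).symm.autCongr.injective h1
  have iG0 : Fintype (K ≃ₐ[kk A B] K) := Fintype.ofFinite _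
  have hcard : Fintype.card (K ≃ₐ[kk A B] K) =
      Module.finrank (kk A B) (IntermediateField.extendScalars hB.hk) := by
    rw [← Nat.card_eq_fintype_card, IsGalois.card_aut_eq_finrank]
    exact (Pool.Agent.FX.fre (extEquiv hkK))
  have hc3 : ¬ 3 ∣ Fintype.card (K ≃ₐ[kk A B] K) := by
    rw [hcard]
    exact hcop
  obtain ⟨X, θ, hXθ⟩ := hCHI 3 V hpV iF1 iF2 (K ≃ₐ[kk A B] K) commK hc3 χ
  obtain ⟨rr, hrr⟩ : ∃ rr, rr = Fintype.card (K ≃ₐ[kk A B] K) := ⟨_, rfl⟩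
  have hXr : ∀ τ, X τ ^ rr = 1 := by
    intro τ
    rw [hrr, ← map_pow, pow_card_eq_one, map_one]
  rw [← hrr] at hc3
  obtain ⟨e0, kp, h01, h0m, h0mul, h0per, h0supp, h0pow, h0un, hkp, h0X⟩ := hE0 3 A B f hL hS.case
    h2l hTor ι R K hkK hKT galK X _ hXr
  obtain ⟨w, hw⟩ := hTEI A B V hS.c4 hS.hV
  obtain ⟨e, s, i, hei, hs, hi4, hi7, hty, hepow, hes⟩ := hEPS A B V f hS w hw e0 rr h01
    h0m h0mul h0per h0supp h0pow h0un
  have hkk := I31.kkC_pow_E R kp rr hkp s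
  have h8 : ¬ 3 ∣ 8 * rr := by
    intro h
    rcases (Nat.Prime.dvd_mul Nat.prime_three).1 h with h | h
    · omega
    · exact hc3 h
  obtain ⟨n, hn1, hnot⟩ := hH A B V f hS hTor ι R u el lam hG w hw e hei (8 * rr) h8 hepow i hi4
    hi7 hty s hs (kkC_E R kp (fun i => muXE R i) s) hkk (n₀ + 1)
  refine ⟨n, by omega, ?_⟩
  have hn2 : 1 ≤ n := by omega
  let akL : Algebra (kk A B) ↥(K ⊔ Bn n) := algC (hk n)
  intro γ hγ iN r hr
  obtain ⟨gal, comm⟩ := hGAL 3 (kk A B) K Bn hB n (hk n)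
  have hNL : ∃ (b : Ideal (OO A B)) (L : PeriodPair) (om : ℂ), IsNE b L om :=
    ⟨_, _, _, R.nl R.i0⟩
  have hsub := hSUB 3 A B f hL hTor hNL K hKT n (Bn n) (hB.lay n)
  obtain ⟨γ₀, hγ₀, hγ₀z⟩ := hGAM 3 (Or.inr rfl) (kk A B) K Bn hB n (hk n)
  have hXX := hXM 3 A B f hL hS.case h2l hTor ι R K (Bn n) n (hk n) (hB.lay n) hsub gal γ₀ hγ₀z
  obtain ⟨hbij, hrmul⟩ := hBIJ 3 (kk A B) K Bn hB n (hk n) hkK r hr
  have fdk := Pool.Agent.FX.fd (kk A B) ↥(K ⊔ Bn n)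
  have iG : Finite (↥(K ⊔ Bn n) ≃ₐ[kk A B] ↥(K ⊔ Bn n)) := inferInstance
  let rh : NC (hk n) (Bn n) →* (K ≃ₐ[kk A B] K) := MonoidHom.mk' r hrmul
  let X' : NC (hk n) (Bn n) →* ℂˣ := X.comp rh
  have hX'θ : (∑ δ : NC (hk n) (Bn n),
      (((θ ((χ (r δ))⁻¹ : (IsLocalRing.ResidueField V)ˣ)).val : ℕ) : ℂ) * (X' δ : ℂ)) ∉
        V.nonunits := by
    have h1 : (∑ δ : NC (hk n) (Bn n),
      (((θ ((χ (r δ))⁻¹ : (IsLocalRing.ResidueField V)ˣ)).val : ℕ) : ℂ) * (X' δ : ℂ)) =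
        ∑ δ : K ≃ₐ[kk A B] K,
      (((θ ((χ δ)⁻¹ : (IsLocalRing.ResidueField V)ˣ)).val : ℕ) : ℂ) * (X δ : ℂ) :=
      Fintype.sum_bijective r hbij _ _ fun δ => rfl
    rw [h1]
    exact hXθ
  have hKD : K ≤ K ⊔ Bn n := le_sup_left
  have hq3 : q0 3 = 3 := by simp [q0]
  have hm2 : 2 ≤ lvX 3 f n := by
    have h2 : 1 ≤ 3 ^ n := Nat.one_le_pow _ _ (by norm_num)
    have h3 : 1 ≤ f := Nat.one_le_iff_ne_zero.2 hS.f0
    unfold lvX
    rw [hq3]
    nlinarith [Nat.mul_le_mul h3 h2]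
  have hm0 : (idl (A := A) (B := B) (lvX 3 f n)) ≠ ⊥ := by
    intro h
    have h1 : ((lvX 3 f n : ℕ) : OO A B) = 0 := Ideal.span_singleton_eq_bot.1 h
    have h2 := congrArg emb h1
    rw [I31.emb_nat] at h2
    have h3 : emb (0 : OO A B) = 0 := by
      unfold emb
      simp
    rw [h3] at h2
    have h4 : lvX 3 f n = 0 := by exact_mod_cast h2
    omega
  have hlv : lvX 3 f 0 ∣ lvX 3 f n := by
    unfold lvX
    rw [pow_zero, mul_one]
    exact dvd_mul_right _ _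
  have h2n : 2 ∣ lvX 3 f n := h2l.trans hlv
  have hle : idl (A := A) (B := B) (lvX 3 f n) ≤ idl (lvX 3 f 0) := by
    refine Ideal.span_singleton_le_span_singleton.2 ?_
    exact_mod_cast Nat.cast_dvd_cast hlv
  have hchi : ∀ (δ : NC (hk n) (Bn n)) (j : ℕ),
      ∀ q ∈ XXE R (lvX 3 f n) (hk n) (γ₀ ^ j * (δ : ↥(K ⊔ Bn n) ≃ₐ[kk A B] ↥(K ⊔ Bn n))),
      (((X' δ)⁻¹ : ℂˣ) : ℂ) = kp q.1 * e0 (Quotient.out q.2) := by
    intro δ j q hq
    have hqc : IsCoprime (Quotient.out q.2 : OO A B) ((lvX 3 f n : ℕ) : OO A B) := hq.1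
    have h1 := hXXF A B hS.case hTor (3 * f) ι R (lvX 3 f n) (by omega) h2n (K ⊔ Bn n) (hk n) hsub
      gal
    have hq2 : (q.1, Ideal.Quotient.mk (idl (A := A) (B := B) (lvX 3 f n))
        (Quotient.out q.2)) = q := Prod.ext rfl (Quotient.out_eq' q.2)
    have h2 := (h1.1 (γ₀ ^ j * (δ : ↥(K ⊔ Bn n) ≃ₐ[kk A B] ↥(K ⊔ Bn n))) q.1
      (Quotient.out q.2) hqc).1 (by rw [hq2]; exact hq) |>.2
    obtain ⟨-, -, -, -, -, h3, -⟩ := hARF A B hCQ hTor hNL (idl (lvX 3 f n)) hm0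
      (Hit.idl_le h2n) (K ⊔ Bn n) (hk n) hsub gal
    have hγj : ∀ (i : ℕ) (z : ↥(K ⊔ Bn n)), (z : ℂ) ∈ K → (γ₀ ^ i) z = z := by
      intro i z hz
      induction i with
      | zero => rfl
      | succ i ih =>
        rw [pow_succ, AlgEquiv.mul_apply, (hγ₀ z).2 hz, ih]
    have h4 := h3 K hkK (idl (lvX 3 f 0)) hle hKD
      (γ₀ ^ j * (δ : ↥(K ⊔ Bn n) ≃ₐ[kk A B] ↥(K ⊔ Bn n))) (r δ)
      (sp (Quotient.out q.2) * cjI (R.b q.1)) (by
        intro x x' hx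
        rw [AlgEquiv.mul_apply]
        have h5 := hr δ x x' hx
        have h6 : (((δ : ↥(K ⊔ Bn n) ≃ₐ[kk A B] ↥(K ⊔ Bn n)) x' : ↥(K ⊔ Bn n)) : ℂ) ∈ K := by
          rw [h5]
          exact (r δ x).2
        rw [hγj j _ h6]
        exact h5) h2
    have hco : IsCoprime (Quotient.out q.2 : OO A B) ((lvX 3 f 0 : ℕ) : OO A B) := by
      have h7 : ((lvX 3 f 0 : ℕ) : OO A B) ∣ ((lvX 3 f n : ℕ) : OO A B) := by
        exact_mod_cast Nat.cast_dvd_cast hlv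
      exact hqc.of_isCoprime_of_dvd_right h7
    exact h0X (r δ) q.1 (Quotient.out q.2) hco h4
  -- the ideal `(3 f)`
  have hg1 : idl (A := A) (B := B) (lvX 3 f 0) ≤ idl (3 * f) := by
    refine Ideal.span_singleton_le_span_singleton.2 ?_
    have h1 : 3 * f ∣ lvX 3 f 0 := by
      unfold lvX
      rw [hq3, pow_zero, mul_one, mul_comm]
    exact_mod_cast Nat.cast_dvd_cast h1
  have hg2 : idl (A := A) (B := B) (3 * f) ≤ idl f := by
    refine Ideal.span_singleton_le_span_singleton.2 ?_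
    have h1 : f ∣ 3 * f := dvd_mul_left f 3
    exact_mod_cast Nat.cast_dvd_cast h1
  have hg3 : idl (A := A) (B := B) (lvX 3 f n) ≤ idl 3 := by
    refine Ideal.span_singleton_le_span_singleton.2 ?_
    have h1 : 3 ∣ lvX 3 f n := by
      unfold lvX
      rw [hq3]
      exact Dvd.dvd.mul_right (dvd_mul_left 3 f) _
    exact_mod_cast Nat.cast_dvd_cast h1
  have hTHi := hTH 3 A B f hL hS.case h2l (idl (3 * f)) hg1 hg2 ι R n _ γ₀ (NC (hk n) (Bn n))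
    (fun τ => XXE R (lvX 3 f n) (hk n) τ) hXX X' e0 kp (fun i => muXE R i) w e s
    (fun x y hxy => h0per x y (hle hxy)) (fun x y hxy => hw.per x y (hg3 hxy)) hei hs
    (fun h => by omega) hes hchi
  -- the statement for `γ₀`
  have hcne : c₀ n ≠ 0 := by
    rw [hc₀ n hn2]
    exact (hE n hn2).ne
  have key : ∀ y : ↥(K ⊔ Bn n), y ^ 3 ≠ ∏ δ : NC (hk n) (Bn n),
      ((δ : ↥(K ⊔ Bn n) ≃ₐ[kk A B] ↥(K ⊔ Bn n)) ((Tg γ₀)^[1] ⟨c₀ n, mem n⟩)) ^
        (θ ((χ (r δ))⁻¹ : (IsLocalRing.ResidueField V)ˣ)).val := by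
    intro y hy
    have hHf := I31.pows_E hFOU hTG V f R u n (K ⊔ Bn n) (hk n) (C n) (hE n hn2) w
      hw comm (c₀ n) (mem n) (hc₀ n hn2) γ₀ (NC (hk n) (Bn n)) 1
      (fun δ => (θ ((χ (r δ))⁻¹ : (IsLocalRing.ResidueField V)ˣ)).val) X' hX'θ y hy
    refine absurd hHf (not_le_of_gt ?_)
    have hS1 : (rE A B : ℂ) * ∑ j ∈ Finset.range (1 + 1),
        (((-1 : ℤ) ^ (1 - j) * (Nat.choose 1 j : ℤ) : ℤ) : ℂ) *
        ∑ δ : NC (hk n) (Bn n), (((X' δ)⁻¹ : ℂˣ) : ℂ) * TTNE R w (lvX 3 f n)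
          (aX 3 f) (hk n) (γ₀ ^ j * (δ : ↥(K ⊔ Bn n) ≃ₐ[kk A B] ↥(K ⊔ Bn n))) =
        ∑ j ∈ Finset.range 2, (-1) ^ (1 - j) *
        (STXE R (lvX 3 f n) (3 ^ (n + 1)) (aX 3 f) e (kkC_E R kp (fun i => muXE R i) s) (4 ^ j) +
          s * STXE R (lvX 3 f n) (3 ^ (n + 1)) (aX 3 f) e (kkC_E R kp (fun i => muXE R i) s)
            (-(4 ^ j))) := by
      rw [Finset.mul_sum]
      refine Finset.sum_congr rfl fun j hj => ?_
      have hj1 : j ≤ 1 := by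
        have := Finset.mem_range.1 hj
        omega
      have hch : Nat.choose 1 j = 1 := by
        interval_cases j <;> rfl
      have h9 := hTHi j
      have e1 : q0 3 * 3 ^ n = 3 ^ (n + 1) := by
        rw [hq3]
        ring
      have e2 : (1 + (q0 3 : ℤ)) = 4 := by
        rw [hq3]
        norm_num
      rw [e1, e2] at h9
      have h10 : (rE A B : ℂ) * ∑ δ : NC (hk n) (Bn n), (((X' δ)⁻¹ : ℂˣ) : ℂ) *
          TTNE R w (lvX 3 f n) (aX 3 f) (hk n)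
            (γ₀ ^ j * (δ : ↥(K ⊔ Bn n) ≃ₐ[kk A B] ↥(K ⊔ Bn n))) = _ := h9
      rw [mul_left_comm, h10, hch]
      push_cast
      ring
    refine lt_of_lt_of_le hnot ?_
    rw [← hS1, mul_div_assoc, map_mul]
    exact mul_le_of_le_one_left' ((V.valuation_le_one_iff _).2 (natCast_mem V _))
  have key2 := hGEN 3 (kk A B) K Bn hB n (hk n) (c₀ n) (mem n) hcne 1 γ₀ hγ₀
    (fun δ => (θ ((χ (r δ))⁻¹ : (IsLocalRing.ResidueField V)ˣ)).val) key γ hγ
  exact ⟨θ, key2⟩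

end

end Pool.Agent.NSI


end

section

/-!
# MUX-NS, block IN: module XMX, the sets `XX` satisfy `XM` (no condition on the decomposition of `p`)
-/

set_option autoImplicit false

namespace Pool.Agent.NSI

open _root_.MU3 _root_.Pool.Agent.MU3 _root_.Pool.Agent.MU3A _root_.Pool.Agent.MU3B _root_.Pool.Agent.RI _root_.Pool.Agent.RID
  _root_.Pool.Agent.MUX _root_.Pool.Agent.ME _root_.Pool.Agent.MUXK _root_.Pool.Agent.MUXI _root_.Pool.Agent.NS
open _root_.Pool.Agent.MU3I (w3 zt)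

noncomputable section

namespace Xmx

end Xmx

open _root_.Pool.Agent.NSI.Xmx in
theorem tn_XMX_E (h1 : Si_XXF_E) (h2 : Si_ARF_E) (h3 : Si_LAY) : Sn_XMX_E := by
  intro p A B f hS hE h2' hT ι R K Bn n h hLay hD
  let aD : Algebra (kk A B) ↥(K ⊔ Bn) := algC h
  intro hG γ hγ
  have hQ := hS.cq
  obtain ⟨hq3, hqc⟩ := q0_facts hS.hp
  have hp0 : 0 < p := by rcases hS.hp with h | h <;> omega
  have hf1 : 1 ≤ f := Nat.one_le_iff_ne_zero.2 hS.f0
  have hpn : 1 ≤ p ^ n := Nat.one_le_pow _ _ hp0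
  set m : ℕ := lvX p f n with hm
  set M : ℕ := q0 p * p ^ n with hM
  have hmM : m = f * M := by rw [hm, hM, lvX, mul_assoc]
  have hM3 : 3 ≤ M := by
    rw [hM]
    calc 3 = 3 * 1 := rfl
      _ ≤ q0 p * p ^ n := Nat.mul_le_mul hq3 hpn
  have hm3 : 3 ≤ m := by
    rw [hmM]
    calc 3 = 1 * 3 := rfl
      _ ≤ f * M := Nat.mul_le_mul hf1 hM3
  have hm2 : 2 ≤ m := by omega
  have hM0 : M ≠ 0 := by omega
  have hm0 : idl (A := A) (B := B) m ≠ ⊥ := by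
    rw [Ne, Ideal.span_singleton_eq_bot]
    exact natCast_ne_zero' hQ (by omega)
  have h2n : 2 ∣ m := by
    refine h2'.trans ⟨p ^ n, ?_⟩
    rw [hm]
    unfold lvX
    ring
  have hNL : ∃ (b : Ideal (OO A B)) (L : PeriodPair) (om : ℂ), IsNE b L om :=
    ⟨_, _, _, R.nl R.i0⟩
  obtain ⟨a1, -, a3, a4, a5, -, a7⟩ := h2 A B hQ hT hNL (idl m) hm0
    (MUXI.Hit.idl_le h2n) (K ⊔ Bn) h hD hG
  obtain ⟨x1, xt, x2⟩ := h1 A B hE hT (p * f) ι R m (by omega) h2n (K ⊔ Bn) h hD hG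
  have hcomm : ∀ σ τ : ↥(K ⊔ Bn) ≃ₐ[kk A B] ↥(K ⊔ Bn), σ * τ = τ * σ := by
    intro σ τ
    obtain ⟨a, -, ha⟩ := a3 σ
    obtain ⟨b, -, hb⟩ := a3 τ
    have h5 := a5 σ τ a b ha hb
    have h6 := a5 τ σ b a hb ha
    refine a4 _ _ _ _ h5 h6 ⟨1, 1, ?_, ?_, ?_, ?_, ?_⟩
    · have := natCast_ne_zero' hQ (n := 1) one_ne_zero
      rwa [Nat.cast_one] at this
    · have := natCast_ne_zero' hQ (n := 1) one_ne_zero
      rwa [Nat.cast_one] at this
    · rw [sp, Ideal.span_singleton_one, ← Ideal.one_eq_top]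
      exact isCoprime_one_left
    · rw [sub_self]
      exact Ideal.zero_mem _
    · rw [mul_comm a b]
  have hcopr : ∀ τ, ∀ q ∈ XXE R m h τ,
      IsCoprime (Quotient.out q.2 : OO A B) ((m : ℕ) : OO A B) := fun τ q hq => hq.1
  refine ⟨hcomm, hcopr, xt, fun q hq hq2 => (x2 q hq).1 hq2,
    fun q τ τ' hq hq' => (x2 q (hcopr τ q hq)).2 τ τ' hq hq', ?_⟩
  intro q τ hq j
  set ζ : ℂ := zt M with hζd
  have hζ : IsPrimitiveRoot ζ M := Complex.isPrimitiveRoot_exp M hM0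
  have hζM : ζ ^ M = 1 := hζ.pow_eq_one
  have hBn : Bn = IntermediateField.adjoin ℚ {ζ + ζ⁻¹} := h3 p n hS.hp Bn hLay
  have htB : ζ + ζ⁻¹ ∈ Bn := by
    rw [hBn]
    exact IntermediateField.mem_adjoin_simple_self ℚ _
  have htD : ζ + ζ⁻¹ ∈ K ⊔ Bn := (le_sup_right : Bn ≤ K ⊔ Bn) htB
  set y : ↥(K ⊔ Bn) := ⟨ζ + ζ⁻¹, htD⟩ with hy
  have hle : idl (A := A) (B := B) m ≤ idl M := by
    rw [Ideal.span_singleton_le_span_singleton, hmM]
    push_cast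
    exact dvd_mul_left _ _
  -- the ideal of `τ`
  set x : OO A B := Quotient.out q.2 with hx
  have hxc : IsCoprime x ((m : ℕ) : OO A B) := hcopr τ q hq
  have hqe : (q.1, Ideal.Quotient.mk (idl (A := A) (B := B) m) x) = q := by
    have h5 : Ideal.Quotient.mk (idl (A := A) (B := B) m) x = q.2 := Quotient.out_eq q.2
    rw [h5]
  have hAR : AR_E h (idl m) τ (sp x * cjI (R.b q.1)) := by
    refine ((x1 τ q.1 x hxc).1 ?_).2
    rw [hqe]
    exact hq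
  have hx0 : x ≠ 0 := by
    intro h0
    rw [h0, isCoprime_zero_left] at hxc
    obtain ⟨z, hz⟩ := hxc.exists_right_inv
    exact natCast_not_unit hm2 z hz
  have hb0 : R.b q.1 ≠ ⊥ := (R.nl q.1).b_ne
  have hspx : sp x ≠ ⊥ := by
    rwa [Ne, Ideal.span_singleton_eq_bot]
  have hN : ((nI (sp x * cjI (R.b q.1)) : ℕ) : ℤ) = nm x * nI (R.b q.1) := by
    rw [nI_mul hQ hspx (cjI_ne_bot hQ hb0), nI_sp hQ hx0, nI_cjI hQ hb0]
    push_cast
    rw [abs_of_nonneg (nm_nonneg hQ x)]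
  have e1 := a7 M τ _ ζ y hM0 hle hAR hζM rfl
  -- the ideal of `γ`
  obtain ⟨c, hcc, hc⟩ := a3 γ
  have hc0 : c ≠ ⊥ := by
    rintro rfl
    have h5 : IsUnit (idl (A := A) (B := B) m) := isCoprime_zero_left.1 hcc
    rw [Ideal.isUnit_iff, Ideal.eq_top_iff_one] at h5
    obtain ⟨z, hz⟩ := Ideal.mem_span_singleton.1 h5
    exact natCast_not_unit hm2 z hz.symm
  have hARj : ∀ j : ℕ, AR_E h (idl m) (γ ^ j) (c ^ j) := by
    intro j
    induction j with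
    | zero =>
      rw [pow_zero, pow_zero, Ideal.one_eq_top]
      exact a1
    | succ j ih =>
      rw [pow_succ, pow_succ]
      exact a5 _ _ _ _ ih hc
  have e2 := a7 M (γ ^ j) _ ζ y hM0 hle (hARj j) hζM rfl
  rw [(nI_pow hQ hc0 j).2] at e2
  have e3 := a7 M γ _ ζ y hM0 hle hc hζM rfl
  have e4 := hγ y rfl
  rw [e3] at e4
  have e5 := (pm hM0 hζ _ _).1 e4
  have e6 := pw (M : ℤ) (nI c : ℤ) ((1 + q0 p : ℕ) : ℤ) e5 j
  -- the condition on `τ`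
  have key : τ * (γ ^ j)⁻¹ ∈ NC h Bn ↔
      ((τ y : ↥(K ⊔ Bn)) : ℂ) = (((γ ^ j) y : ↥(K ⊔ Bn)) : ℂ) := by
    rw [hcomm τ (γ ^ j)⁻¹]
    constructor
    · intro hmem
      have h5 : ((γ ^ j)⁻¹ * τ) y = y := hmem y htB
      have h6 : τ y = (γ ^ j) y := by
        have h7 : (γ ^ j) (((γ ^ j)⁻¹ * τ) y) = (γ ^ j) y := by rw [h5]
        rwa [← AlgEquiv.mul_apply, mul_inv_cancel_left] at h7
      rw [h6]
    · intro he
      have h5 : ∀ z : ↥(K ⊔ Bn), (z : ℂ) ∈ Bn → τ z = (γ ^ j) z := by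
        intro z hz
        let φ : ↥(K ⊔ Bn) →+* ℂ := (algebraMap ↥(K ⊔ Bn) ℂ).comp (τ : ↥(K ⊔ Bn) →+* ↥(K ⊔ Bn))
        let ψ : ↥(K ⊔ Bn) →+* ℂ :=
          (algebraMap ↥(K ⊔ Bn) ℂ).comp ((γ ^ j : ↥(K ⊔ Bn) ≃ₐ[kk A B] ↥(K ⊔ Bn)) :
            ↥(K ⊔ Bn) →+* ↥(K ⊔ Bn))
        exact Subtype.ext (eqB hBn φ ψ htD he z hz)
      intro z hz
      have h6 := h5 z hz
      show (γ ^ j)⁻¹ (τ z) = z
      rw [h6, ← AlgEquiv.mul_apply, inv_mul_cancel]
      rfl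
  rw [key, e1, e2, pm hM0 hζ]
  rw [hN]
  push_cast
  push_cast at e6
  exact pm_iff (M : ℤ) _ _ _ e6

end

end Pool.Agent.NSI


end

section

/-!
# MUX, block IX, module XXF (helper65): the sets `XX R m h τ` and the Artin symbol
-/

set_option autoImplicit false

namespace Pool.Agent.MUXI

open _root_.MU3 _root_.Pool.Agent.MU3 _root_.Pool.Agent.MU3A _root_.Pool.Agent.MU3B _root_.Pool.Agent.RI _root_.Pool.Agent.RID
  _root_.Pool.Agent.MUX _root_.Pool.Agent.ME _root_.Pool.Agent.MUXE _root_.Pool.Agent.MUXK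
open _root_.Pool.Agent.MU3I (w3 zt)

noncomputable section

namespace XXF

end XXF

open _root_.Pool.Agent.MUXI.XXF in
theorem ti_XXF_E (h1 : Si_HIT_E) (h2 : Si_ARF_E) (h3 : Si_RPR_E) (h4 : Si_IAF_E)
    (h6 : Pool.Agent.MUXY.Sy_UNJ_E) : Si_XXF_E := by
  intro A B hE T n₀ ι R m hm0' hm2 D h hD hG
  letI := algC h
  have hC := hE.toCQ
  have hm : 2 ≤ m := Nat.le_of_dvd (Nat.pos_of_ne_zero hm0') hm2
  have hle := Hit.idl_le (A := A) (B := B) hm2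
  have hcop : ∀ i, (nI (R.b i)).Coprime m := fun i => by
    rw [Hit.nb_E hE h6]
    exact Nat.coprime_one_left m
  have hm0 := idl_ne (A := A) (B := B) hm
  have hex : ∃ (b : Ideal (OO A B)) (L : PeriodPair) (om : ℂ), IsNE b L om :=
    ⟨_, _, _, R.nl R.i0⟩
  obtain ⟨-, -, -, -, hch, -, -, -⟩ := h4 A B hC T hex (idl m) hm0
  obtain ⟨-, hart, -, huni, -, -, -⟩ := h2 A B hC T hex (idl m) hm0 hle D h hD hG
  obtain ⟨hr, -⟩ := h3 A B hC n₀ ι R m (by omega) hcop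
  have hit := h1 A B hE T n₀ ι R m hm0' hm2
  -- membership in `XXE` for the chosen representative
  have key : ∀ (τ : D ≃ₐ[kk A B] D) (q : ι × (OO A B ⧸ idl (A := A) (B := B) m)),
      IsCoprime (Quotient.out q.2 : OO A B) (m : OO A B) →
      (q ∈ XXE R m h τ ↔ (Quotient.out q.2 : OO A B) - 1 ∈ idl (A := A) (B := B) 2 ∧
        AR_E h (idl m) τ (sp (Quotient.out q.2 : OO A B) * cjI (R.b q.1))) := by
    intro τ q hq
    constructor
    · rintro ⟨-, σ, hσ, hτ, hh⟩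
      exact ⟨((hit σ hσ q.1 _ hq).1 hh).1, σ, ((hit σ hσ q.1 _ hq).1 hh).2, hτ⟩
    · rintro ⟨h5, σ, hσ, hτ⟩
      exact ⟨hq, σ, hσ.fix, hτ, (hit σ hσ.fix q.1 _ hq).2 ⟨h5, hσ⟩⟩
  refine ⟨fun τ i x hx => ?_, fun τ q hq => ((key τ q hq.1).1 hq).1,
    fun q hq => ⟨fun hq2 => ?_, fun τ τ' hτ hτ' => ?_⟩⟩
  · set x' : OO A B := Quotient.out (Ideal.Quotient.mk (idl (A := A) (B := B) m) x) with hx'
    have e1 : Ideal.Quotient.mk (idl (A := A) (B := B) m) x' =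
        Ideal.Quotient.mk (idl (A := A) (B := B) m) x := Quotient.out_eq _
    have e2 : x' - x ∈ idl (A := A) (B := B) m := Ideal.Quotient.eq.1 e1
    have e3 : IsCoprime x' (m : OO A B) := by
      obtain ⟨y, hy⟩ := Ideal.mem_span_singleton'.1 e2
      have e4 : x' = x + y * (m : OO A B) := by rw [hy]; ring
      rw [e4]
      exact hx.add_mul_right_left y
    have e5 := re_swap hm (cjI (R.b i)) hx e3 e2
    have e6 : RE (idl m) (sp x' * cjI (R.b i)) (sp x * cjI (R.b i)) :=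
      re_swap hm (cjI (R.b i)) e3 hx (by rw [← neg_sub]; exact neg_mem e2)
    have e7 : x' - 1 ∈ idl (A := A) (B := B) 2 ↔ x - 1 ∈ idl (A := A) (B := B) 2 := by
      have e8 := hle e2
      constructor
      · intro e9
        have e10 := sub_mem e9 e8
        rwa [sub_sub_sub_cancel_left] at e10
      · intro e9
        have e10 := add_mem e8 e9
        rwa [sub_add_sub_cancel] at e10
    rw [key τ (i, Ideal.Quotient.mk (idl (A := A) (B := B) m) x) e3]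
    refine and_congr e7 ?_
    constructor
    · rintro ⟨σ, hσ, hτ⟩
      exact ⟨σ, hch σ _ _ hσ (hr i x hx) e6, hτ⟩
    · rintro ⟨σ, hσ, hτ⟩
      exact ⟨σ, hch σ _ _ hσ (hr i x' e3) e5, hτ⟩
  · have hne : sp (Quotient.out q.2 : OO A B) * cjI (R.b q.1) ≠ ⊥ := by
      refine Pool.Agent.MUX.mul_ne_bot hC ?_ (Pool.Agent.MUX.cjI_ne_bot hC (R.nl q.1).b_ne)
      rw [Ne, Ideal.span_singleton_eq_bot]
      exact not_coprime_zero hm hq
    obtain ⟨τ, hτ⟩ := hart _ hne (hr q.1 _ hq)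
    exact ⟨τ, (key τ q hq).2 ⟨hq2, hτ⟩⟩
  · have a1 := ((key τ q hq).1 hτ).2
    have a2 := ((key τ' q hq).1 hτ').2
    refine huni τ τ' _ _ a1 a2 ⟨1, 1, ?_, ?_, ?_, ?_, rfl⟩
    · exact not_coprime_zero hm isCoprime_one_left
    · exact not_coprime_zero hm isCoprime_one_left
    · exact (Ideal.isCoprime_span_singleton_iff _ _).2 isCoprime_one_left
    · rw [sub_self]; exact zero_mem _

end

end Pool.Agent.MUXI


end

section

/-!
# MUX, block IX, module IAF: facts on the action through ideals, first part (helper72)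
-/

set_option autoImplicit false

namespace Pool.Agent.MUXI

open _root_.MU3 _root_.Pool.Agent.MU3 _root_.Pool.Agent.MU3A _root_.Pool.Agent.MU3B _root_.Pool.Agent.RI _root_.Pool.Agent.RID
  _root_.Pool.Agent.MUX _root_.Pool.Agent.ME _root_.Pool.Agent.MUXE _root_.Pool.Agent.MUXK
open _root_.Pool.Agent.MU3I (w3 zt)

noncomputable section

namespace Iaf

variable {A B : ℤ}

/-- `ActE` depends only on the lattice of the target -/
lemma act_congr_E {σ : ℂ ≃+* ℂ} {m a : Ideal (OO A B)} {L L₁ L₂ : PeriodPair} {mu : ℂ}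
    (hl : L₂.lattice = L₁.lattice) (hk : kapE L₁ = kapE L₂) (h : _root_.Pool.Agent.ME.ActE σ m a L L₂ mu) :
    _root_.Pool.Agent.ME.ActE σ m a L L₁ mu := by
  obtain ⟨h1, h2, -, -⟩ := ta_SCP L₂ L₁ 1 one_ne_zero (fun u => by rw [one_mul, hl])
  have hx : ∀ z, xnE L₁ z = xnE L₂ z := by
    intro z
    unfold xnE
    have := h1 z
    rw [one_mul, one_pow, div_one] at this
    rw [this]
  have hy : ∀ z, yy L₁ z = yy L₂ z := by
    intro z
    unfold yy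
    have := h2 z
    rw [one_mul, one_pow, div_one] at this
    rw [this]
  refine ⟨?_, h.cop, ?_, ?_⟩
  · rw [hk]
    exact h.kapE
  · refine ⟨h.isq.1, fun z => ?_⟩
    rw [← hl]
    exact h.isq.2 z
  · intro z hz
    rcases h.act z hz with ⟨i1, i2⟩ | ⟨i1, i2, i3, i4⟩
    · left
      exact ⟨i1, by rw [← hl]; exact i2⟩
    · right
      refine ⟨i1, by rw [← hl]; exact i2, ?_, ?_⟩
      · rw [hx]
        exact i3
      · rw [hy]
        exact i4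

end Iaf

open _root_.Pool.Agent.MUXI.Iaf in
theorem ti_IAF_E : Si_IAF_E := by
  intro A B _ hT hex m hm
  refine ⟨?_, ?_, ?_, ?_, ?_, ?_, ?_, ?_⟩
  · intro σ hσ
    obtain ⟨a, hc, ha⟩ := hT.act m hm σ hσ
    exact ⟨a, hσ, hc, ha⟩
  · intro a ha0 ha
    obtain ⟨σ, hσ, h⟩ := hT.surj m hm a ha0 ha
    exact ⟨σ, hσ, ha, h⟩
  · intro σ τ a b h1 h2
    refine ⟨?_, h1.cop.mul_left h2.cop, ?_⟩
    · have i1 := h1.fix
      have i2 := h2.fix
      unfold FixK at *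
      rw [RingEquiv.trans_apply, i1, i2]
    · intro b₀ L om hL
      obtain ⟨b', L', om', mu, hL', hact⟩ := h1.act b₀ L om hL
      obtain ⟨b'', L'', om'', nu, hL'', hact'⟩ := h2.act b' L' om' hL'
      exact ⟨b'', L'', om'', nu * mu, hL'', hT.comp m a b σ τ L L' L'' mu nu hact hact'⟩
  · intro σ a a' h1 h2
    obtain ⟨b, L, om, hL⟩ := hex
    obtain ⟨b₁, L₁, om₁, mu, hL₁, ha1⟩ := h1.act b L om hL
    obtain ⟨b₂, L₂, om₂, mu', hL₂, ha2⟩ := h2.act b L om hL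
    have hk : kapE L₁ = kapE L₂ := by rw [ha1.kapE, ha2.kapE]
    have ha3 := act_congr_E (hL₁.nrm.lat_eq hL₂.nrm).symm hk ha2
    obtain ⟨x, y, e1, e2, e3, e4, e5, -⟩ :=
      hT.uniq m a a' σ L L₁ mu mu' hm ⟨b, om, hL⟩ ha1 ha3
    exact ⟨x, y, e2, e3, e1, e4, e5⟩
  · intro σ a a' h1 hc hre
    obtain ⟨x, y, hx, hy, hxm, hxy, he⟩ := hre
    refine ⟨h1.fix, hc, ?_⟩
    intro b L om hL
    obtain ⟨b', L', om', mu, hL', hact⟩ := h1.act b L om hL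
    exact ⟨b', L', om', mu * emb x / emb y, hL',
      hT.chg m a a' σ L L' mu x y hm hc hxm hx hy hxy he ⟨b, om, hL⟩ hact⟩
  · intro hm2 σ a h1
    obtain ⟨b, L, om, hL⟩ := hex
    obtain ⟨b', L', om', mu, hL', hact⟩ := h1.act b L om hL
    exact hT.triv m a σ b L L' om mu hm hm2 h1.fix hL hact hL'.nrm
  · intro σ a m' hmm h1
    refine ⟨h1.fix, cop_mono hmm h1.cop, ?_⟩
    intro b L om hL
    obtain ⟨b', L', om', mu, hL', hact⟩ := h1.act b L om hL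
    refine ⟨b', L', om', mu, hL', hact.kapE, cop_mono hmm h1.cop, hact.isq, ?_⟩
    intro z hz
    exact hact.act z (fun x hx => hz x (hmm hx))
  · intro M σ a z hM hle h1 hz
    obtain ⟨b, L, om, hL⟩ := hex
    obtain ⟨b', L', om', mu, hL', hact⟩ := h1.act b L om hL
    exact hT.zeta M m a σ b L L' om mu hm h1.fix hM hle hL hact z hz

end

end Pool.Agent.MUXI


end
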