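import Mathlib
import Pool.Agent.MVF.C133
import Pool.Agent.MVF.C137
import Pool.Agent.MVF.C182

/-! Parts: ME.N.I_INP, ME.N.I_E0, ME.X.I_PTP, ME.X.I_RPR, ME.X.IAll, ME.N.IAll, VB.V_GRO -/

section

/-!
# MUX-NS, block IN, module INP (helper36): the inputs of block K
-/

set_option autoImplicit false

namespace Pool.Agent.NSI

open _root_.MU3 _root_.Pool.Agent.MU3 _root_.Pool.Agent.MU3A _root_.Pool.Agent.MU3B _root_.Pool.Agent.RI _root_.Pool.Agent.RID
  _root_.Pool.Agent.MUX _root_.Pool.Agent.ME _root_.Pool.Agent.MUXK _root_.Pool.Agent.MUXI _root_.Pool.Agent.NS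

noncomputable section

namespace INP

end INP

/-- (INP) the inputs of block K -/
theorem tn_INP_E (h1 : Sn_I31_E) (h2 : Sn_LEM1) (h3 : Sn_NRX) : Sn_INP_E := by
  intro A B V f hS hTor ι iι R u el lam hG K₀ K Bn ik iK iKB hX hKT hk hk₀ hkK S c c₀ n₁ hW C hE
    hc₀
  have iP : Fact (Nat.Prime 3) := ⟨Nat.prime_three⟩
  have iK₀ : FiniteDimensional ℚ K₀ := INP.fd hX.le
  have iKB₀ : ∀ n, FiniteDimensional ℚ ↥(K₀ ⊔ Bn n) := fun n =>
    INP.fd (E' := K ⊔ Bn n) (sup_le_sup_right hX.le _)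
  have hNr := h3 3 (kk A B) K₀ K Bn hX hk hk₀ S c c₀ n₁ hW
  have hI3 : ∀ (χ : (letI := algC hkK; (↥K₀ ≃ₐ[kk A B] ↥K₀) →*
      (IsLocalRing.ResidueField V)ˣ)) (N n₀ : ℕ), ∃ n, n₀ ≤ n ∧
      I3At (IsLocalRing.ResidueField V) 3 (kk A B) K₀ Bn hkK χ N n (hk₀ n) (c₀ n)
        (hW.mem₀ n) := by
    intro χ N n₀
    refine h2 (IsLocalRing.ResidueField V) 3 (kk A B) K₀ Bn hX.b0 hX.cop hX.om hk₀ hkK c₀ hW.mem₀
      (INP.c_ne hW) n₁ hNr χ (fun n₀ => ?_) N n₀
    exact h1 A B V f hS hTor ι R u el lam hG K₀ Bn hX.b0 hX.cop hKT hk₀ hkK C hE c₀ hW.mem₀ hc₀ χ n₀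
  exact
    { mem := hW.mem
      ne := hW.ne
      mem₀ := hW.mem₀
      norm := hW.norm
      prime := hW.prime
      su := hW.su
      nrm := hW.nrm
      kol := hW.kol
      i3 := hI3 }

end

end Pool.Agent.NSI


end

section

/-!
# MUX-NS, block IN, module E0: the characters `e0` and `kp`, for `SetL`
(`Pool/Agent/MUX/I_E0.lean` by helper42 is for `SetP`; its lemmas are used)
-/

set_option autoImplicit false

namespace Pool.Agent.NSI

open _root_.MU3 _root_.Pool.Agent.MU3 _root_.Pool.Agent.MU3A _root_.Pool.Agent.MU3B _root_.Pool.Agent.RI _root_.Pool.Agent.RID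
  _root_.Pool.Agent.MUX _root_.Pool.Agent.ME _root_.Pool.Agent.MUXK _root_.Pool.Agent.MUXI _root_.Pool.Agent.NS
open _root_.Pool.Agent.MU3I (w3 zt)

noncomputable section

open _root_.Pool.Agent.MUXI.E0

/-- the module E0 -/
theorem tn_E0_E (h1 : Pool.Agent.MUXI.Si_ARF_E) (h4 : Pool.Agent.MUXF.Sx_NIM) : Sn_E0_E := by
  intro p A B f S hE h2l T ι R K hK hKm hG X r hX
  have hp : p = 3 ∨ p = 2 := S.hp.symm
  have hlv : 3 ≤ lvX p f 0 := by
    have hf : 1 ≤ f := Nat.one_le_iff_ne_zero.2 S.f0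
    unfold lvX q0
    rcases hp with rfl | rfl
    · simp; omega
    · simp; omega
  have hm : (idl (lvX p f 0) : Ideal (OO A B)) ≠ ⊥ := by
    rw [Ne, Ideal.span_singleton_eq_bot]
    exact nat_ne (by omega)
  have hm1 : (idl (lvX p f 0) : Ideal (OO A B)) ≠ ⊤ := by
    rw [Ne, Ideal.span_singleton_eq_top]
    intro hu
    obtain ⟨y, hy⟩ := hu.exists_right_inv
    have h := congrArg QuadraticAlgebra.re hy
    rw [QuadraticAlgebra.re_mul] at h
    simp only [QuadraticAlgebra.re_natCast, QuadraticAlgebra.im_natCast, QuadraticAlgebra.re_one,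
      mul_zero, zero_mul, add_zero] at h
    have h' : ((lvX p f 0 : ℕ) : ℤ) ∣ 1 := ⟨_, h.symm⟩
    have h'' := Int.le_of_dvd one_pos h'
    omega
  have hbot : ∀ a : Ideal (OO A B), IsCoprime a (idl (lvX p f 0)) → a ≠ ⊥ := by
    rintro a ha rfl
    apply hm1
    rw [← Ideal.isCoprime_iff_sup_eq.1 ha, bot_sup_eq]
  obtain ⟨a1, a2, -, a4, a5, -, -⟩ := h1 A B S.cq T ⟨_, _, _, R.nl R.i0⟩
    (idl (lvX p f 0)) hm (MUXI.Hit.idl_le h2l) K hK hKm hG
  let _ : Algebra (kk A B) K := algC hK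
  obtain ⟨ψ, s1, s2, s3, s4, s5, s6⟩ := psi (idl (lvX p f 0))
    (fun τ a => AR_E hK (idl (lvX p f 0)) τ a) X r hX a1
    (fun a ha => a2 a (hbot a ha) ha)
    (fun τ a h => by obtain ⟨σ, h, -⟩ := h; exact h.cop)
    a4 a5
  have hcop : ∀ x : OO A B, IsCoprime (sp x) (idl (lvX p f 0)) ↔
      IsCoprime x ((lvX p f 0 : ℕ) : OO A B) := fun x => Ideal.isCoprime_span_singleton_iff _ _
  refine ⟨fun x => ψ (sp x), fun i => ψ (cjI (R.b i)), ?_, ?_, ?_, ?_, ?_, ?_, ?_, ?_, ?_⟩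
  · show ψ (sp 1) = 1
    rw [sp, Ideal.span_singleton_one, s3]
  · show ψ (sp (-1)) = 1
    rw [sp, Ideal.span_singleton_neg, Ideal.span_singleton_one, s3]
  · intro x y
    show ψ (sp (x * y)) = ψ (sp x) * ψ (sp y)
    rw [← s2, sp, sp, sp, Ideal.span_singleton_mul_span_singleton]
  · intro x y hxy
    show ψ (sp x) = ψ (sp y)
    by_cases hx : IsCoprime (sp x) (idl (lvX p f 0))
    · have hy := cop_sub hxy hx
      have hx0 : x ≠ 0 := by
        rintro rfl
        exact hbot _ hx (by rw [sp, Ideal.span_singleton_eq_bot])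
      have hy0 : y ≠ 0 := by
        rintro rfl
        exact hbot _ hy (by rw [sp, Ideal.span_singleton_eq_bot])
      refine s6 _ _ ⟨y, x, hy0, hx0, hy, ?_, mul_comm _ _⟩ hx hy
      rw [← neg_sub]
      exact neg_mem hxy
    · have hy : ¬ IsCoprime (sp y) (idl (lvX p f 0)) := fun hy => hx (cop_sub (by
        rw [← neg_sub]
        exact neg_mem hxy) hy)
      rw [not_not.1 fun h => hx ((s4 _).1 h), not_not.1 fun h => hy ((s4 _).1 h)]
  · intro x
    exact (s4 _).trans (hcop x)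
  · intro x hx
    exact s5 _ hx
  · intro z hz
    show ψ (sp z) = 1
    rw [sp, Ideal.span_singleton_eq_top.2 hz, s3]
  · intro i
    apply s5
    rw [s4]
    obtain ⟨-, -, n3, -⟩ := h4 A B (Pool.Agent.MUXY.cqF S.cq)
    obtain ⟨-, -, -, n4⟩ := n3 (R.b i) (R.nl i).b_ne
    have h5 : ((nI (R.b i) : ℕ) : OO A B) ∈ cjI (R.b i) := by
      show (starRingEnd (OO A B)) ((nI (R.b i) : ℕ) : OO A B) ∈ R.b i
      rw [map_natCast]
      exact n4
    obtain ⟨u, v, huv⟩ := cop_nat (A := A) (B := B) (lv_cop (R.cop i))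
    exact Ideal.isCoprime_iff_exists.2 ⟨u * _, Ideal.mul_mem_left _ _ h5, v * _,
      Ideal.mul_mem_left _ _ (Ideal.mem_span_singleton_self _), huv⟩
  · intro τ i x hx hA
    show (((X τ)⁻¹ : ℂˣ) : ℂ) = ψ (cjI (R.b i)) * ψ (sp x)
    rw [← s1 τ _ hA, s2, mul_comm]

end

end Pool.Agent.NSI


end

section

/-!
# MUX, block IX: module PTP, periodicity of the points `pt R m i x`
-/

set_option autoImplicit false

namespace Pool.Agent.MUXI

open _root_.MU3 _root_.Pool.Agent.MU3 _root_.Pool.Agent.MU3A _root_.Pool.Agent.MU3B _root_.Pool.Agent.RI _root_.Pool.Agent.RID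
  _root_.Pool.Agent.MUX _root_.Pool.Agent.ME _root_.Pool.Agent.MUXE _root_.Pool.Agent.MUXK
open _root_.Pool.Agent.MU3I (w3 zt)

noncomputable section

private lemma ptp_nat_MEXI_PTP {A B : ℤ} (a : ℕ) (x : OO A B) :
    emb ((a : OO A B) * x) = (a : ℂ) * emb x := by
  simp only [emb, QuadraticAlgebra.re_mul, QuadraticAlgebra.im_mul,
    QuadraticAlgebra.re_natCast, QuadraticAlgebra.im_natCast]
  push_cast
  ring

private lemma ptp_sub_MEXI_PTP {A B : ℤ} (x y : OO A B) : emb (x - y) = emb x - emb y := by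
  simp only [emb, QuadraticAlgebra.re_sub, QuadraticAlgebra.im_sub]
  push_cast
  ring

private lemma ptp_mem_MEXI_PTP {A B : ℤ} (b : Ideal (OO A B)) : ((nI b : ℕ) : OO A B) ∈ b := by
  have h1 : nI b • (1 : OO A B ⧸ b) = 0 := card_nsmul_eq_zero'
  rw [nsmul_eq_mul, mul_one] at h1
  rw [← Ideal.Quotient.eq_zero_iff_mem, map_natCast]
  exact h1

theorem ti_PTP_E : Si_PTP_E := by
  intro A B hc n₀ ι R m hm i
  have hm' : (m : ℂ) ≠ 0 := by exact_mod_cast hm
  have key : ∀ (a : ℕ) (x : OO A B), (a : ℂ) * ptE R m i x = ptE R m i (a * x) := by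
    intro a x
    unfold ptE
    rw [ptp_nat_MEXI_PTP]
    ring
  have h1 : ∀ x y : OO A B, x - y ∈ idl (A := A) (B := B) m →
      ptE R m i x - ptE R m i y ∈ (R.L i).lattice := by
    intro x y hxy
    obtain ⟨z, hz⟩ := Ideal.mem_span_singleton.1 hxy
    refine ((R.nl i).mem _).2 ⟨(nI (R.b i) : OO A B) * z,
      Ideal.mul_mem_right _ _ (ptp_mem_MEXI_PTP _), ?_⟩
    have h2 : emb x - emb y = (m : ℂ) * emb z := by
      rw [← ptp_sub_MEXI_PTP, hz, ptp_nat_MEXI_PTP]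
    unfold ptE
    rw [ptp_nat_MEXI_PTP]
    have h3 : R.om i * (nI (R.b i) : ℂ) * emb x / m - R.om i * (nI (R.b i) : ℂ) * emb y / m =
        R.om i * (nI (R.b i) : ℂ) * (emb x - emb y) / m := by ring
    rw [h3, h2]
    field_simp
  have h2 : ∀ x y : OO A B, x - y ∈ idl (A := A) (B := B) m →
      ee (R.L i) (ptE R m i x) = ee (R.L i) (ptE R m i y) := by
    intro x y hxy
    have h3 := (Pool.Agent.MU3B.b_PER (R.L i)).1 (ptE R m i y) _ (h1 x y hxy)
    rw [← h3]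
    congr 1
    ring
  refine ⟨fun x y hxy => ⟨h1 x y hxy, h2 x y hxy, fun a => ?_⟩, key⟩
  have h4 : (a : OO A B) * x - (a : OO A B) * y ∈ idl (A := A) (B := B) m := by
    rw [← mul_sub]
    exact Ideal.mul_mem_left _ _ hxy
  unfold dlX
  rw [key, key, h2 _ _ h4, h2 x y hxy]

end

end Pool.Agent.MUXI


end

section

/-!
# MUX, block IX: module RPR (every ray class contains an ideal `x cjI (b i)`)
-/

set_option autoImplicit false

namespace Pool.Agent.MUXI

open _root_.MU3 _root_.Pool.Agent.MU3 _root_.Pool.Agent.MU3A _root_.Pool.Agent.MU3B _root_.Pool.Agent.RI _root_.Pool.Agent.RID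
  _root_.Pool.Agent.MUX _root_.Pool.Agent.ME _root_.Pool.Agent.MUXE _root_.Pool.Agent.MUXK
open _root_.Pool.Agent.MU3I (w3 zt)

noncomputable section

namespace RPR

variable {A B : ℤ}

end RPR

open _root_.Pool.Agent.MUXI.RPR in
theorem ti_RPR_E (h1 : Pool.Agent.MUXF.Sx_ALG) (h2 : Pool.Agent.MUXF.Sx_IDL)
    (h3 : Pool.Agent.MUXF.Sx_NIM) : Si_RPR_E := by
  intro A B hC n₀ ι R m hm hcop
  have hF := Pool.Agent.MUXY.cqF hC
  obtain ⟨-, e2, e3, -, hdom⟩ := h1 A B hF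
  obtain ⟨n1, -, n3, n4⟩ := h3 A B hF
  have hI := h2 A B hF
  have cj : ∀ i, IsCoprime (cjI (R.b i)) (idl (A := A) (B := B) m) := by
    intro i
    obtain ⟨c1, c2, c3, c4⟩ := n3 (R.b i) (R.nl i).b_ne
    obtain ⟨d1, d2, d3, d4⟩ := n3 (cjI (R.b i)) c3
    refine cop_of_mem (N := nI (R.b i)) ?_ (hcop i)
    have c1' : nI (cjI (R.b i)) = nI (R.b i) := c1
    have d4' : ((nI (cjI (R.b i)) : ℕ) : OO A B) ∈ cjI (R.b i) := d4
    rw [c1'] at d4'
    exact d4'
  refine ⟨fun i x hx => ?_, fun a ha hac => ?_⟩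
  · refine IsCoprime.mul_left ?_ (cj i)
    exact (Ideal.isCoprime_span_singleton_iff _ _).2 hx
  · obtain ⟨c1, c2, c3, c4⟩ := n3 a ha
    obtain ⟨i, u, v, hu, hv, huv⟩ := R.surj (cjI a) c3
    have hb := (R.nl i).b_ne
    obtain ⟨hNa, ha2⟩ := hI a ha
    obtain ⟨hNb, hb2⟩ := hI (R.b i) hb
    have hspv : sp v ≠ (⊥ : Ideal (OO A B)) := by
      rw [Ne, Ideal.span_singleton_eq_bot]
      exact hv
    have k1 : sp v * (a * R.b i) = sp (u * ((nI a : ℕ) : OO A B)) := by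
      have q1 : a * (sp u * cjI a) = a * (sp v * R.b i) := by rw [huv]
      have q2 : a * cjI a = sp ((nI a : ℕ) : OO A B) := ha2
      calc sp v * (a * R.b i) = a * (sp v * R.b i) := mul_left_comm _ _ _
        _ = a * (sp u * cjI a) := q1.symm
        _ = sp u * (a * cjI a) := mul_left_comm _ _ _
        _ = sp u * sp ((nI a : ℕ) : OO A B) := by rw [q2]
        _ = sp (u * ((nI a : ℕ) : OO A B)) := Ideal.span_singleton_mul_span_singleton _ _
    have q3 : u * ((nI a : ℕ) : OO A B) ∈ sp v * (a * R.b i) := by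
      rw [k1]
      exact Ideal.mem_span_singleton_self _
    have q3' : u * ((nI a : ℕ) : OO A B) ∈ sp v :=
      (Ideal.mul_le_left : sp v * (a * R.b i) ≤ sp v) q3
    have q3'' : v ∣ u * ((nI a : ℕ) : OO A B) := Ideal.mem_span_singleton.1 q3'
    obtain ⟨y, hy⟩ := q3''
    have k2 : a * R.b i = sp y := by
      have q4 : sp v * (a * R.b i) = sp v * sp y := by
        rw [k1, hy]
        exact (Ideal.span_singleton_mul_span_singleton _ _).symm
      exact le_antisymm ((n4 (sp v) _ _ hspv).1 q4.le) ((n4 (sp v) _ _ hspv).1 q4.ge)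
    have hycop : IsCoprime y (m : OO A B) := by
      have q5 : IsCoprime (a * R.b i) (idl (A := A) (B := B) m) := by
        refine IsCoprime.mul_left hac (cop_of_mem (N := nI (R.b i)) ?_ (hcop i))
        exact (n3 (R.b i) hb).2.2.2
      rw [k2] at q5
      exact (Ideal.isCoprime_span_singleton_iff _ _).1 q5
    -- the inverse of the norm modulo `m`
    obtain ⟨s, t, hs, hst⟩ : ∃ s t : ℤ, 0 < s ∧ s * (nI (R.b i) : ℤ) + t * (m : ℤ) = 1 := by
      obtain ⟨s, t, hst⟩ : IsCoprime ((nI (R.b i) : ℕ) : ℤ) (m : ℤ) :=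
        Nat.isCoprime_iff_coprime.2 (hcop i)
      refine ⟨s + m * (|s| + 1), t - nI (R.b i) * (|s| + 1), ?_, ?_⟩
      · have q6 : (1 : ℤ) ≤ m := by
          have := Nat.pos_of_ne_zero hm
          exact_mod_cast this
        have q7 : 0 ≤ |s| + 1 := by positivity
        have q8 : |s| + 1 ≤ m * (|s| + 1) := by nlinarith
        have q9 := neg_abs_le s
        linarith
      · linear_combination hst
    have hstO : (s : OO A B) * ((nI (R.b i) : ℕ) : OO A B) + (t : OO A B) * ((m : ℕ) : OO A B)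
        = 1 := by
      have := congrArg (Int.cast : ℤ → OO A B) hst
      push_cast at this
      exact this
    have hne : ∀ n : ℤ, n ≠ 0 → (n : OO A B) ≠ 0 := by
      intro n hn h0
      apply hn
      have q10 := (e3 n).1
      rw [h0, (e2 0).1.2 rfl] at q10
      exact_mod_cast q10.symm
    have k3 : sp ((nI (R.b i) : ℕ) : OO A B) * a = sp y * cjI (R.b i) := by
      have q11 : R.b i * cjI (R.b i) = sp ((nI (R.b i) : ℕ) : OO A B) := hb2
      rw [← k2, ← q11]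
      calc R.b i * cjI (R.b i) * a = a * (R.b i * cjI (R.b i)) := mul_comm _ _
        _ = a * R.b i * cjI (R.b i) := (mul_assoc _ _ _).symm
    refine ⟨i, (s : OO A B) * y, ?_, (s : OO A B) * ((nI (R.b i) : ℕ) : OO A B), 1, ?_,
      ?_, ?_, ?_, ?_⟩
    · refine IsCoprime.mul_left ⟨((nI (R.b i) : ℕ) : OO A B), (t : OO A B), ?_⟩ hycop
      rw [← hstO]
      ring
    · refine mul_ne_zero (hne s hs.ne') ?_
      have := hne ((nI (R.b i) : ℕ) : ℤ) (by exact_mod_cast hNb)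
      simpa using this
    · exact one_ne_zero
    · refine (Ideal.isCoprime_span_singleton_iff _ _).2 ⟨1, (t : OO A B), ?_⟩
      rw [one_mul]
      exact hstO
    · rw [Ideal.mem_span_singleton]
      refine ⟨-(t : OO A B), ?_⟩
      linear_combination hstO
    · have q12 : sp ((s : OO A B) * ((nI (R.b i) : ℕ) : OO A B)) =
          sp (s : OO A B) * sp ((nI (R.b i) : ℕ) : OO A B) :=
        (Ideal.span_singleton_mul_span_singleton _ _).symm
      have q13 : sp ((s : OO A B) * y) = sp (s : OO A B) * sp y :=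
        (Ideal.span_singleton_mul_span_singleton _ _).symm
      have q14 : sp (1 : OO A B) = 1 := Ideal.span_singleton_one.trans Ideal.one_eq_top.symm
      rw [q12, q13, q14, mul_assoc, k3, one_mul, mul_assoc]

end

end Pool.Agent.MUXI


end

section

/-!
# MUX, block IX: all statements of `ME/X/StIX.lean` (frame ME)
-/

set_option autoImplicit false

namespace Pool.Agent.MUXI

open _root_.Pool.Agent.ME

open _root_.Pool.Agent.MUXF _root_.Pool.Agent.MUXU _root_.Pool.Agent.MUXY _root_.Pool.Agent.MUXK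

theorem i_IAF_E : Si_IAF_E := ti_IAF_E
theorem i_IAG_E : Si_IAG_E := ti_IAG_E i_IAF_E
theorem i_RPR_E : Si_RPR_E := ti_RPR_E xf_ALG xf_IDL xf_NIM
theorem i_HIT_E : Si_HIT_E := ti_HIT_E i_IAF_E i_IAG_E i_RPR_E y_UNJ_E xf_ALG
theorem i_ARF_E : Si_ARF_E := ti_ARF_E i_IAF_E i_IAG_E
theorem i_XXF_E : Si_XXF_E := ti_XXF_E i_HIT_E i_ARF_E i_RPR_E i_IAF_E y_UNJ_E
theorem i_PTP_E : Si_PTP_E := ti_PTP_E
end Pool.Agent.MUXI


end

section

/-!
# MUX-NS, block IN: all statements of `StIN.lean` (helper36). The only input is `Sn_HFIN` (block H)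
-/

set_option autoImplicit false

namespace Pool.Agent.NSI

open _root_.Pool.Agent.ME

open _root_.Pool.Agent.MUXF _root_.Pool.Agent.MUXU _root_.Pool.Agent.MUXY _root_.Pool.Agent.MUXK _root_.Pool.Agent.MUXI

theorem n_EPS_E : Sn_EPS_E := tn_EPS_E
theorem n_TEI_E : Sn_TEI_E := tn_TEI_E
theorem n_E0_E : Sn_E0_E := tn_E0_E i_ARF_E xf_NIM
theorem n_SUB_E : Sn_SUB_E := tn_SUB_E i_LAY i_IAF_E
theorem n_XMX_E : Sn_XMX_E := tn_XMX_E i_XXF_E i_ARF_E i_LAY
theorem n_TSH_E : Sn_TSH_E := tn_TSH_E i_PTP_E xf_ALG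
theorem n_TH_E : Sn_TH_E := tn_TH_E n_TSH_E i_PTP_E
theorem n_I31_E (hH : Pool.Agent.NS.Sn_HFIN_E) : Sn_I31_E :=
  tn_I31_E Pool.Agent.MUXJ.j_RES i_CHI n_FOU Pool.Agent.MU3I.t_ITG n_EPS_E n_TEI_E n_E0_E i_ARF_E i_XXF_E n_SUB_E
    i_GAM n_XMX_E i_BIJ n_TH_E i_GEN hH k_GALX

/-- the result of block IN -/
theorem n_INP_E (hH : Pool.Agent.NS.Sn_HFIN_E) : Sn_INP_E := tn_INP_E (n_I31_E hH) n_LEM1 n_NRX

end Pool.Agent.NSI


end

section

/-!
# VB: growth (module VB_GRO, helper12)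
-/

set_option autoImplicit false

open Filter Topology

namespace Pool.Agent.VB

private lemma gro_tend_VBV_GRO (p C n₁ : ℕ) (hp : 2 ≤ p) :
    Tendsto (fun j : ℕ => ((p : ℝ) * (C * ((n₁ : ℝ) + j + 2) ^ C + 1)) / (p : ℝ) ^ j) atTop (𝓝 0) := by
  have hp1 : (1 : ℝ) < (p : ℝ) := by exact_mod_cast (by omega : 1 < p)
  have hp0 : (0 : ℝ) < (p : ℝ) := by linarith
  have h1 := (tendsto_pow_const_div_const_pow_of_one_lt C hp1).comp
    (tendsto_add_atTop_nat (n₁ + 2))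
  have h2 := (tendsto_pow_const_div_const_pow_of_one_lt 0 hp1)
  have h3 := ((h1.const_mul ((p : ℝ) * C * (p : ℝ) ^ (n₁ + 2))).add (h2.const_mul (p : ℝ)))
  simp only [mul_zero, add_zero] at h3
  refine h3.congr fun j => ?_
  simp only [Function.comp]
  have hpj : (p : ℝ) ^ j ≠ 0 := pow_ne_zero _ hp0.ne'
  have hpn : (p : ℝ) ^ (n₁ + 2) ≠ 0 := pow_ne_zero _ hp0.ne'
  have e : (p : ℝ) ^ (j + (n₁ + 2)) = (p : ℝ) ^ j * (p : ℝ) ^ (n₁ + 2) := pow_add _ _ _
  rw [e]
  push_cast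
  field_simp
  ring

theorem tb_GRO : Sb_GRO := by
  intro p C n₁ hp
  have hp2 := hp.two_le
  have hp0 : (0 : ℝ) < (p : ℝ) := by exact_mod_cast hp.pos
  obtain ⟨j, hj⟩ := ((gro_tend_VBV_GRO p C n₁ hp2).eventually_lt_const (by norm_num : (0 : ℝ) < 1)).exists
  refine ⟨j, ?_⟩
  have hj2 : p * (C * (n₁ + j + 2) ^ C + 1) < p ^ j := by
    rw [div_lt_one (pow_pos hp0 j)] at hj
    exact_mod_cast hj
  calc p ^ (C * (n₁ + j + 2) ^ C + 1)
      ≤ (2 ^ p) ^ (C * (n₁ + j + 2) ^ C + 1) :=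
        Nat.pow_le_pow_left (Nat.lt_two_pow_self).le _
    _ = 2 ^ (p * (C * (n₁ + j + 2) ^ C + 1)) := by rw [← pow_mul]
    _ < 2 ^ (p ^ j) := Nat.pow_lt_pow_right (by norm_num) hj2

end Pool.Agent.VB


end
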