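import Mathlib
import Pool.Agent.MVF.C153
import Pool.Agent.MVF.C169

/-! Parts: ME.N.IR_I31 -/

section

/-!
# ME, block IR (helper6, after helper87's `NS/IR_Pow.lean`, `NS/IR_I31.lean`): one level, from blocks E and H; the inputs of block K, `D = -3`
-/

set_option autoImplicit false

namespace Pool.Agent.NSIR

open _root_.MU3 _root_.Pool.Agent.MU3 _root_.Pool.Agent.MU3A _root_.Pool.Agent.MU3B _root_.Pool.Agent.RI _root_.Pool.Agent.RID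
  _root_.Pool.Agent.MUX _root_.Pool.Agent.MUXK _root_.Pool.Agent.MUXI _root_.Pool.Agent.NS _root_.Pool.Agent.NSRD _root_.Pool.Agent.NSI
open _root_.Pool.Agent.ME hiding ActE
open _root_.Pool.Agent.MU3I (w3 zt St_ITG)

noncomputable section

/-- the bound for the sums -/
def BdF (V : ValuationSubring ℂ) (u x : ℂ) : Prop :=
  V.valuation (x / u) ^ 2 ≤ V.valuation (3 : ℂ) ^ 3

/-- the property `BdF` -/
lemma bdF_prop (V : ValuationSubring ℂ) (u : ℂ) :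
    BdF V u 0 ∧ (∀ x y : ℂ, BdF V u x → BdF V u y → BdF V u (x + y)) ∧
    (∀ v x : ℂ, v ∈ V → BdF V u x → BdF V u (v * x)) ∧
    ∀ v x : ℂ, v ∉ V.nonunits → BdF V u (v * x) → BdF V u x := by
  have mono : ∀ x y : ℂ, V.valuation (x / u) ≤ V.valuation (y / u) → BdF V u y →
      BdF V u x := by
    intro x y h hy
    unfold BdF at hy ⊢
    exact (pow_le_pow_left₀ zero_le h _).trans hy
  refine ⟨?_, ?_, ?_, ?_⟩
  · unfold BdF
    simp
  · intro x y hx hy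
    have h1 : V.valuation ((x + y) / u) ≤ max (V.valuation (x / u)) (V.valuation (y / u)) := by
      rw [add_div]
      exact V.valuation.map_add _ _
    rcases le_total (V.valuation (x / u)) (V.valuation (y / u)) with h | h
    · rw [max_eq_right h] at h1
      exact mono _ _ h1 hy
    · rw [max_eq_left h] at h1
      exact mono _ _ h1 hx
  · intro v x hv hx
    refine mono _ _ ?_ hx
    rw [mul_div_assoc, map_mul]
    exact mul_le_of_le_one_left' ((V.valuation_le_one_iff v).2 hv)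
  · intro v x hv hx
    refine mono _ _ ?_ hx
    rw [mul_div_assoc, map_mul]
    have h1 : 1 ≤ V.valuation v := by
      by_contra h2
      exact hv (V.mem_nonunits_iff.2 (lt_of_not_ge h2))
    exact le_mul_of_one_le_left' h1

/-- if the product is a cube, then the sum is small -/
theorem powsE (hFOU : Sn_FOU) (hTG : St_ITG) {A B : ℤ} (P : Ideal (OO A B)) (V : ValuationSubring ℂ)
    (f : ℕ) {ι : Type} (R : RepsE A B (3 * f) ι) (u : ℂ)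
    (n : ℕ) (D : IntermediateField ℚ ℂ) [FiniteDimensional ℚ D] (h : kk A B ≤ D)
    (C : (letI := algC h; D ≃ₐ[kk A B] D) → ℂ) (hE : EInpR_E P V f R u n h C)
    (w : OO A B → ℂ) (hw : IsTei6 P V w) :
    letI := algC h
    ∀ (_ : ∀ σ τ : D ≃ₐ[kk A B] D, σ * τ = τ * σ) (c₁ : ℂ) (hc : c₁ ∈ D) (_ : c₁ = C 1)
      (γ : D ≃ₐ[kk A B] D) (Δ : Subgroup (D ≃ₐ[kk A B] D)) [Fintype Δ] (N : ℕ) (b : Δ → ℕ)
      (X : Δ →* ℂˣ) (_ : (∑ δ : Δ, (b δ : ℂ) * (X δ : ℂ)) ∉ V.nonunits) (y : D)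
      (_ : y ^ 3 = ∏ δ : Δ, ((δ : D ≃ₐ[kk A B] D) ((Tg γ)^[N] ⟨c₁, hc⟩)) ^ b δ),
      BdF V u (∑ j ∈ Finset.range (N + 1),
        (((-1 : ℤ) ^ (N - j) * (N.choose j : ℤ) : ℤ) : ℂ) *
        ∑ δ : Δ, (((X δ)⁻¹ : ℂˣ) : ℂ) * TTNE R w (lvX 3 f n)
          (aX 3 f) h (γ ^ j * (δ : D ≃ₐ[kk A B] D))) := by
  classical
  let akL : Algebra (kk A B) D := algC h
  intro comm c₁ hc hc1 γ Δ iΔ N b X hX y hy
  have fdk := Pool.Agent.FX.fd (kk A B) D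
  have iG : Fintype (D ≃ₐ[kk A B] D) := Fintype.ofFinite _
  let e : ℕ → ℤ := fun j => (-1 : ℤ) ^ (N - j) * (N.choose j : ℤ)
  let g : (D ≃ₐ[kk A B] D) → ℤ := fun τ => ∑ δ : Δ, ∑ j ∈ Finset.range (N + 1),
      if (δ : D ≃ₐ[kk A B] D) * γ ^ j = τ then (b δ : ℤ) * e j else 0
  have hcτ : ∀ τ : D ≃ₐ[kk A B] D, ((τ ⟨c₁, hc⟩ : D) : ℂ) = C τ := by
    intro τ
    obtain ⟨y', hy1, hy2⟩ := hE.conj τ
    have h3 : y' = ⟨c₁, hc⟩ := Subtype.ext (hy1.trans hc1.symm)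
    rw [← h3]
    exact hy2
  have hcne : (⟨c₁, hc⟩ : D) ≠ 0 := by
    intro h0
    apply hE.ne
    have h1 : c₁ = 0 := congrArg Subtype.val h0
    rw [hc1] at h1
    exact h1
  have hu : ∀ τ : D ≃ₐ[kk A B] D, C τ ≠ 0 := by
    intro τ h0
    rw [← hcτ τ] at h0
    have h1 : τ (⟨c₁, hc⟩ : D) = 0 := Subtype.ext h0
    exact hcne ((map_eq_zero_iff τ τ.injective).1 h1)
  have e1 : (y : ℂ) ^ 3 = ∏ᶠ τ : D ≃ₐ[kk A B] D, C τ ^ g τ := by
    rw [MU3I.I3F.prod_exp γ Δ _ hu (fun δ => (b δ : ℤ)) N e g (fun τ => rfl)]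
    have h1 : (y : ℂ) ^ 3 = D.val (y ^ 3) := rfl
    rw [h1, hy, map_prod]
    refine Finset.prod_congr rfl fun δ _ => ?_
    rw [MU3I.I3F.tg_pow hTG _ _ γ δ _ hcne N (b δ), map_prod]
    refine Finset.prod_congr rfl fun j _ => ?_
    rw [map_zpow₀]
    exact congrArg (fun w : ℂ => w ^ ((b δ : ℤ) * e j)) (hcτ ((δ : D ≃ₐ[kk A B] D) * γ ^ j))
  have e2 := hE.ew w hw g ⟨y, y.2, e1⟩
  obtain ⟨q1, q2, q3, q4⟩ := bdF_prop V u
  refine hFOU V (BdF V u) q1 q2 q3 q4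
    (D ≃ₐ[kk A B] D) comm γ Δ
    (fun τ => TTNE R w (lvX 3 f n) (aX 3 f) h τ) (fun δ => (b δ : ℤ)) N e X ?_ ?_
  · simpa using hX
  · intro τ'
    have e3 := e2 τ'
    rw [MU3I.I3F.sum_exp γ Δ (fun τ => TTNE R w (lvX 3 f n) (aX 3 f) h τ)
      (fun δ => (b δ : ℤ)) N e g (fun τ => rfl) τ'] at e3
    exact e3

/-- (I31) one level -/
theorem tp_I31_E (hRES : Pool.Agent.MUXJ.Sj_RES) (hCHI : Si_CHI) (hFOU : Sn_FOU)
    (hTG : St_ITG) (hTE : Sp_TE6_E) (hEPR : Sp_EPR_E) (hE0 : Sn_E0_E) (hARF : Si_ARF_E)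
    (hXXF : Si_XXF_E) (hSUB : Sn_SUB_E) (hGAM : Si_GAM) (hXM : Sn_XMX_E) (hBIJ : Si_BIJ)
    (hTH : Sn_TH_E) (hGEN : Si_GEN) (hH : Sq_HFIN_E) (hGAL : S_GALX) : Sp_I31_E := by
  classical
  intro A B P V f hS h4f hTor ι iι R u el lam hG K Bn iK iKB hB hcop hKT hk hkK C hE c₀ mem hc₀ χ n₀
  let aK : Algebra (kk A B) K := algC hkK
  have iP : Fact (Nat.Prime 3) := ⟨Nat.prime_three⟩
  have hCE : CaseE A B := hS.case
  have hCQ : CQ A B := hCE.toCQ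
  have hL : SetL 3 A B f := ⟨hCQ, Or.inr rfl, hS.f0, hS.fp⟩
  have hf2 : 2 ∣ f := hS.f2
  have hev : ∀ m, 2 ∣ lvX 3 f m := by
    intro m
    unfold lvX
    exact Dvd.dvd.mul_right (Dvd.dvd.mul_right hf2 _) _
  have hpV : ((3 : ℕ) : ℂ) ∈ V.nonunits := by
    have h1 := (hS.hV ((3 : ℕ) : OO A B)).2 hS.hP.mem
    have h2 : emb ((3 : ℕ) : OO A B) = ((3 : ℕ) : ℂ) := by
      unfold emb
      rw [QuadraticAlgebra.re_natCast, QuadraticAlgebra.im_natCast]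
      norm_num
    rwa [h2] at h1
  obtain ⟨iF1, iF2⟩ := hRES 3 V hpV
  have galK : IsGalois (kk A B) K := (isGalois_algC hkK).2 hB.gal
  have fdkK := Pool.Agent.FX.fd (kk A B) K
  have commK : ∀ a b : K ≃ₐ[kk A B] K, a * b = b * a := by
    intro a b
    have h1 := hB.ab ((extEquiv hkK).symm.autCongr a) ((extEquiv hkK).symm.autCongr b)
    rw [← map_mul, ← map_mul] at h1
    exact (extEquiv hkK).symm.autCongr.injective h1
  have iG0 : Fintype (K ≃ₐ[kk A B] K) := Fintype.ofFinite _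
  have hcard : Fintype.card (K ≃ₐ[kk A B] K) =
      Module.finrank (kk A B) (IntermediateField.extendScalars hB.hk) := by
    rw [← Nat.card_eq_fintype_card, IsGalois.card_aut_eq_finrank]
    exact (extEquiv hkK).toLinearEquiv.finrank_eq
  have hc3 : ¬ 3 ∣ Fintype.card (K ≃ₐ[kk A B] K) := by
    rw [hcard]
    exact hcop
  obtain ⟨X, θ, hXθ⟩ := hCHI 3 V hpV iF1 iF2 (K ≃ₐ[kk A B] K) commK hc3 χ
  obtain ⟨rr, hrr⟩ : ∃ rr, rr = Fintype.card (K ≃ₐ[kk A B] K) := ⟨_, rfl⟩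
  have hXr : ∀ τ, X τ ^ rr = 1 := by
    intro τ
    rw [hrr, ← map_pow, pow_card_eq_one, map_one]
  rw [← hrr] at hc3
  obtain ⟨e0, kp, h01, h0m, h0mul, h0per, h0supp, h0pow, h0u, hkp, h0X⟩ := hE0 3 A B f hL hCE
    (hev 0) hTor ι R K hkK hKT galK X _ hXr
  obtain ⟨w, hw⟩ := hTE A B P V hS.c3 hS.hP hS.hV
  have hei := hEPR A B P V f hS w hw e0 h01 h0mul h0per h0supp h0u
  -- the weights
  have hmu : ∀ i, muXE R i ≠ 0 := by
    intro i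
    have h2 : nI (R.b i) ≠ 0 := by
      intro h
      have h1 := R.cop i
      rw [h, Nat.coprime_zero_left] at h1
      have h3 := Nat.eq_one_of_mul_eq_one_right h1
      omega
    unfold muXE
    exact div_ne_zero (mul_ne_zero (R.nl i).om_ne (Nat.cast_ne_zero.2 h2)) (R.nl R.i0).om_ne
  have hkkC : ∀ i, kkC_E R kp (fun i => muXE R i) 1 i = kp i := by
    intro i
    unfold kkC_E
    rw [mul_div_cancel_right₀ _ (hmu i), if_pos rfl, mul_one]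
  have hkk : ∀ i, kkC_E R kp (fun i => muXE R i) 1 i ^ rr = 1 := by
    intro i
    rw [hkkC, hkp]
  set e : OO A B → ℂ := fun x => e0 x * w x with he
  obtain ⟨n, hn1, hn2, hnot⟩ := hH A B P V f hS h4f hTor ι R u el lam hG w hw e e0 hei
    (fun x => rfl) rr hc3 h0pow (kkC_E R kp (fun i => muXE R i) 1) hkk (n₀ + 1)
  refine ⟨n, by omega, ?_⟩
  let akL : Algebra (kk A B) ↥(K ⊔ Bn n) := algC (hk n)
  intro γ hγ iN r hr
  obtain ⟨gal, comm⟩ := hGAL 3 (kk A B) K Bn hB n (hk n)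
  have hNL : ∃ (b : Ideal (OO A B)) (L : PeriodPair) (om : ℂ), IsNE b L om :=
    ⟨_, _, _, R.nl R.i0⟩
  have hsub := hSUB 3 A B f hL hTor hNL K hKT n (Bn n) (hB.lay n)
  obtain ⟨γ₀, hγ₀, hγ₀z⟩ := hGAM 3 (Or.inr rfl) (kk A B) K Bn hB n (hk n)
  have hXX := hXM 3 A B f hL hCE (hev 0) hTor ι R K (Bn n) n (hk n) (hB.lay n) hsub gal γ₀ hγ₀z
  obtain ⟨hbij, hrmul⟩ := hBIJ 3 (kk A B) K Bn hB n (hk n) hkK r hr
  have fdk := Pool.Agent.FX.fd (kk A B) ↥(K ⊔ Bn n)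
  have iG : Finite (↥(K ⊔ Bn n) ≃ₐ[kk A B] ↥(K ⊔ Bn n)) := inferInstance
  let rh : NC (hk n) (Bn n) →* (K ≃ₐ[kk A B] K) := MonoidHom.mk' r hrmul
  let X' : NC (hk n) (Bn n) →* ℂˣ := X.comp rh
  have hX'θ : (∑ δ : NC (hk n) (Bn n),
      (((θ ((χ (r δ))⁻¹ : (IsLocalRing.ResidueField V)ˣ)).val : ℕ) : ℂ) * (X' δ : ℂ)) ∉
        V.nonunits := by
    have h1 : (∑ δ : NC (hk n) (Bn n),
      (((θ ((χ (r δ))⁻¹ : (IsLocalRing.ResidueField V)ˣ)).val : ℕ) : ℂ) * (X' δ : ℂ)) =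
        ∑ δ : K ≃ₐ[kk A B] K,
      (((θ ((χ δ)⁻¹ : (IsLocalRing.ResidueField V)ˣ)).val : ℕ) : ℂ) * (X δ : ℂ) :=
      Fintype.sum_bijective r hbij _ _ fun δ => rfl
    rw [h1]
    exact hXθ
  have hKD : K ≤ K ⊔ Bn n := le_sup_left
  have hq3 : q0 3 = 3 := by simp [q0]
  have hm2 : 2 ≤ lvX 3 f n := I3P.two_le_lv (Or.inr rfl) hS.f0 n
  have hmn0 : lvX 3 f n ≠ 0 := by omega
  have hm0 : (idl (A := A) (B := B) (lvX 3 f n)) ≠ ⊥ := by
    intro h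
    have h1 : ((lvX 3 f n : ℕ) : OO A B) = 0 := Ideal.span_singleton_eq_bot.1 h
    have h2 := congrArg QuadraticAlgebra.re h1
    rw [QuadraticAlgebra.re_natCast, QuadraticAlgebra.re_zero] at h2
    have h4 : lvX 3 f n = 0 := by exact_mod_cast h2
    omega
  have hm2i : idl (A := A) (B := B) (lvX 3 f n) ≤ idl 2 := by
    refine Ideal.span_singleton_le_span_singleton.2 ?_
    exact_mod_cast Nat.cast_dvd_cast (hev n)
  have hlv : lvX 3 f 0 ∣ lvX 3 f n := I3P.lv_dvd 3 f n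
  have hle : idl (A := A) (B := B) (lvX 3 f n) ≤ idl (lvX 3 f 0) := by
    refine Ideal.span_singleton_le_span_singleton.2 ?_
    exact_mod_cast Nat.cast_dvd_cast hlv
  have hchi : ∀ (δ : NC (hk n) (Bn n)) (j : ℕ),
      ∀ q ∈ XXE R (lvX 3 f n) (hk n) (γ₀ ^ j * (δ : ↥(K ⊔ Bn n) ≃ₐ[kk A B] ↥(K ⊔ Bn n))),
      (((X' δ)⁻¹ : ℂˣ) : ℂ) = kp q.1 * e0 (Quotient.out q.2) := by
    intro δ j q hq
    have hqc : IsCoprime (Quotient.out q.2 : OO A B) ((lvX 3 f n : ℕ) : OO A B) := hq.1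
    have h1 := hXXF A B hCE hTor (3 * f) ι R (lvX 3 f n) hmn0 (hev n) (K ⊔ Bn n) (hk n) hsub gal
    have hq2 : (q.1, Ideal.Quotient.mk (idl (A := A) (B := B) (lvX 3 f n))
        (Quotient.out q.2)) = q := Prod.ext rfl (Quotient.out_eq' q.2)
    have h2 := ((h1.1 (γ₀ ^ j * (δ : ↥(K ⊔ Bn n) ≃ₐ[kk A B] ↥(K ⊔ Bn n))) q.1
      (Quotient.out q.2) hqc).1 (by rw [hq2]; exact hq)).2
    obtain ⟨-, -, -, -, -, h3, -⟩ := hARF A B hCQ hTor hNL (idl (lvX 3 f n)) hm0 hm2i (K ⊔ Bn n)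
      (hk n) hsub gal
    have hγj : ∀ (i : ℕ) (z : ↥(K ⊔ Bn n)), (z : ℂ) ∈ K → (γ₀ ^ i) z = z := by
      intro i z hz
      induction i with
      | zero => rfl
      | succ i ih =>
        rw [pow_succ, AlgEquiv.mul_apply, (hγ₀ z).2 hz, ih]
    have h4 := h3 K hkK (idl (lvX 3 f 0)) hle hKD
      (γ₀ ^ j * (δ : ↥(K ⊔ Bn n) ≃ₐ[kk A B] ↥(K ⊔ Bn n))) (r δ)
      (sp (Quotient.out q.2) * cjI (R.b q.1)) (by
        intro x x' hx
        rw [AlgEquiv.mul_apply]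
        have h5 := hr δ x x' hx
        have h6 : (((δ : ↥(K ⊔ Bn n) ≃ₐ[kk A B] ↥(K ⊔ Bn n)) x' : ↥(K ⊔ Bn n)) : ℂ) ∈ K := by
          rw [h5]
          exact (r δ x).2
        rw [hγj j _ h6]
        exact h5) h2
    have hco : IsCoprime (Quotient.out q.2 : OO A B) ((lvX 3 f 0 : ℕ) : OO A B) := by
      have h7 : ((lvX 3 f 0 : ℕ) : OO A B) ∣ ((lvX 3 f n : ℕ) : OO A B) := by
        exact_mod_cast Nat.cast_dvd_cast hlv
      exact hqc.of_isCoprime_of_dvd_right h7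
    exact h0X (r δ) q.1 (Quotient.out q.2) hco h4
  -- the ideal `(3 f)`
  have hg1 : idl (A := A) (B := B) (lvX 3 f 0) ≤ idl (3 * f) := by
    refine Ideal.span_singleton_le_span_singleton.2 ?_
    have h1 : 3 * f ∣ lvX 3 f 0 := by
      unfold lvX
      rw [hq3, pow_zero, mul_one, mul_comm]
    exact_mod_cast Nat.cast_dvd_cast h1
  have hg2 : idl (A := A) (B := B) (3 * f) ≤ idl f := by
    refine Ideal.span_singleton_le_span_singleton.2 ?_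
    have h1 : f ∣ 3 * f := dvd_mul_left f 3
    exact_mod_cast Nat.cast_dvd_cast h1
  have hg3 : idl (A := A) (B := B) (lvX 3 f n) ≤ idl 3 := by
    refine Ideal.span_singleton_le_span_singleton.2 ?_
    have h1 : 3 ∣ lvX 3 f n := by
      unfold lvX
      rw [hq3]
      exact Dvd.dvd.mul_right (dvd_mul_left 3 f) _
    exact_mod_cast Nat.cast_dvd_cast h1
  have hTHi := hTH 3 A B f hL hCE (hev 0) (idl (3 * f)) hg1 hg2 ι R n _ γ₀ (NC (hk n) (Bn n))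
    (fun τ => XXE R (lvX 3 f n) (hk n) τ) hXX X' e0 kp (fun i => muXE R i)
    w e 1
    (fun x y hxy => h0per x y (hle hxy))
    (fun x y hxy => hw.per x y (hg3 hxy)) hei (Or.inl rfl)
    (fun h => rfl) (fun x _ => by rw [he, if_pos rfl, mul_one]) hchi
  have hrE : (rE A B : ℂ) = 3 := by
    have h3 : rE A B = 3 := by
      unfold rE
      rw [hS.hB]
      rfl
    rw [h3]
    rfl
  -- the statement for `γ₀`
  have hcne : c₀ n ≠ 0 := by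
    rw [hc₀ n hn2]
    exact (hE n hn2).ne
  have key : ∀ y : ↥(K ⊔ Bn n), y ^ 3 ≠ ∏ δ : NC (hk n) (Bn n),
      ((δ : ↥(K ⊔ Bn n) ≃ₐ[kk A B] ↥(K ⊔ Bn n)) ((Tg γ₀)^[1] ⟨c₀ n, mem n⟩)) ^
        (θ ((χ (r δ))⁻¹ : (IsLocalRing.ResidueField V)ˣ)).val := by
    intro y hy
    have hHf := powsE hFOU hTG P V f R u n (K ⊔ Bn n) (hk n) (C n) (hE n hn2) w hw
      comm (c₀ n) (mem n) (hc₀ n hn2) γ₀ (NC (hk n) (Bn n)) 1
      (fun δ => (θ ((χ (r δ))⁻¹ : (IsLocalRing.ResidueField V)ˣ)).val) X' hX'θ y hy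
    have hS1 : (3 : ℂ) * ∑ j ∈ Finset.range (1 + 1),
        (((-1 : ℤ) ^ (1 - j) * (Nat.choose 1 j : ℤ) : ℤ) : ℂ) *
        ∑ δ : NC (hk n) (Bn n), (((X' δ)⁻¹ : ℂˣ) : ℂ) * TTNE R w (lvX 3 f n)
          (aX 3 f) (hk n) (γ₀ ^ j * (δ : ↥(K ⊔ Bn n) ≃ₐ[kk A B] ↥(K ⊔ Bn n))) =
        ∑ j ∈ Finset.range 2, (-1) ^ (1 - j) *
        (STXE R (lvX 3 f n) (3 ^ (n + 1)) (aX 3 f) e (kkC_E R kp (fun i => muXE R i) 1) (4 ^ j) +
          STXE R (lvX 3 f n) (3 ^ (n + 1)) (aX 3 f) e (kkC_E R kp (fun i => muXE R i) 1)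
            (-(4 ^ j))) := by
      rw [Finset.mul_sum]
      refine Finset.sum_congr rfl fun j hj => ?_
      have hj1 : j ≤ 1 := by
        have := Finset.mem_range.1 hj
        omega
      have hch : Nat.choose 1 j = 1 := by
        interval_cases j <;> rfl
      have h9 := hTHi j
      have e1 : q0 3 * 3 ^ n = 3 ^ (n + 1) := by
        rw [hq3]
        ring
      have e2 : (1 + (q0 3 : ℤ)) = 4 := by
        rw [hq3]
        norm_num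
      rw [e1, e2, hrE] at h9
      have h10 : (3 : ℂ) * ∑ δ : NC (hk n) (Bn n), (((X' δ)⁻¹ : ℂˣ) : ℂ) * TTNE R w (lvX 3 f n)
          (aX 3 f) (hk n) (γ₀ ^ j * (δ : ↥(K ⊔ Bn n) ≃ₐ[kk A B] ↥(K ⊔ Bn n))) = _ := h9
      rw [mul_left_comm, h10, hch]
      push_cast
      ring
    rw [← hS1, mul_div_assoc, map_mul, mul_pow] at hnot
    unfold BdF at hHf
    have h5 := mul_le_mul_right hHf (V.valuation (3 : ℂ) ^ 2)
    rw [← pow_add] at h5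
    exact absurd hnot (not_lt.2 h5)
  have key2 := hGEN 3 (kk A B) K Bn hB n (hk n) (c₀ n) (mem n) hcne 1 γ₀ hγ₀
    (fun δ => (θ ((χ (r δ))⁻¹ : (IsLocalRing.ResidueField V)ˣ)).val) key γ hγ
  exact ⟨θ, key2⟩

/-- (INP) the inputs of block K -/
theorem tp_INP_E (h1 : Sp_I31_E) (h2 : Sn_LEM1) (h3 : Sn_NRX) : Sp_INP_E := by
  intro A B P V f hS h4f hTor ι iι R u el lam hG K₀ K Bn ik iK iKB hX hKT hk hk₀ hkK S c c₀ n₁ hW C
    hE hc₀
  have iP : Fact (Nat.Prime 3) := ⟨Nat.prime_three⟩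
  have iK₀ : FiniteDimensional ℚ K₀ := fd hX.le
  have iKB₀ : ∀ n, FiniteDimensional ℚ ↥(K₀ ⊔ Bn n) := fun n =>
    fd (E' := K ⊔ Bn n) (sup_le_sup_right hX.le _)
  have hNr := h3 3 (kk A B) K₀ K Bn hX hk hk₀ S c c₀ n₁ hW
  have hI3 : ∀ (χ : (letI := algC hkK; (↥K₀ ≃ₐ[kk A B] ↥K₀) →*
      (IsLocalRing.ResidueField V)ˣ)) (N n₀ : ℕ), ∃ n, n₀ ≤ n ∧
      I3At (IsLocalRing.ResidueField V) 3 (kk A B) K₀ Bn hkK χ N n (hk₀ n) (c₀ n)
        (hW.mem₀ n) := by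
    intro χ N n₀
    refine h2 (IsLocalRing.ResidueField V) 3 (kk A B) K₀ Bn hX.b0 hX.cop hX.om hk₀ hkK c₀ hW.mem₀
      (c_ne hW) n₁ hNr χ (fun n₀ => ?_) N n₀
    exact h1 A B P V f hS h4f hTor ι R u el lam hG K₀ Bn hX.b0 hX.cop hKT hk₀ hkK C hE c₀ hW.mem₀
      hc₀ χ n₀
  exact
    { mem := hW.mem
      ne := hW.ne
      mem₀ := hW.mem₀
      norm := hW.norm
      prime := hW.prime
      su := hW.su
      nrm := hW.nrm
      kol := hW.kol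
      i3 := hI3 }

end

end Pool.Agent.NSIR


end
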