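import Mathlib
import Pool.Agent.MVF.C116
import Pool.Agent.MVF.C152
import Pool.Agent.MVF.C169

/-! Parts: ME.N.IR_TE6, ME.N.IR_SUB -/

namespace Pool.Agent.NSIR.SUBE
end Pool.Agent.NSIR.SUBE
namespace Pool.Agent.NSIR.TE6
end Pool.Agent.NSIR.TE6

section

/-!
# ME, block IR (helper6): the weights `w : (O/3)^* → μ_6` and the characters `e = e0 w`, `D = -3`
-/

set_option autoImplicit false

namespace Pool.Agent.NSIR

open _root_.MU3 _root_.Pool.Agent.MU3 _root_.Pool.Agent.MU3A _root_.Pool.Agent.MU3B _root_.Pool.Agent.RI _root_.Pool.Agent.RID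
  _root_.Pool.Agent.MUX _root_.Pool.Agent.MUXK _root_.Pool.Agent.MUXI _root_.Pool.Agent.NS _root_.Pool.Agent.NSRD _root_.Pool.Agent.NSI
open _root_.Pool.Agent.ME hiding ActE
open _root_.Pool.Agent.MU3I (w3 zt)

noncomputable section

namespace TE6

variable {A B : ℤ} {P : Ideal (OO A B)}

lemma mem_three {x : OO A B} : x ∈ idl (A := A) (B := B) 3 ↔ 3 ∣ x.re ∧ 3 ∣ x.im := by
  have e2 : ((3 : ℕ) : OO A B) = ⟨3, 0⟩ := rfl
  rw [show idl (A := A) (B := B) 3 = Ideal.span {((3 : ℕ) : OO A B)} from rfl,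
    Ideal.mem_span_singleton, e2]
  constructor
  · rintro ⟨y, rfl⟩
    constructor <;> simp
  · rintro ⟨⟨a, ha⟩, ⟨b, hb⟩⟩
    refine ⟨⟨a, b⟩, ?_⟩
    ext
    · simp [ha]
    · simp [hb]

/-- the elements of `P` -/
lemma mem_P (hc : CaseE3 A B) (hP : IsPN 3 P) (x : OO A B) : x ∈ P ↔ (3 : ℤ) ∣ x.re - x.im := by
  have hq := NSGR.TYI.qi hP
  have h3P : (3 : OO A B) ∈ P := by simpa using hP.mem
  have hnm : nm x = (x.re - x.im) ^ 2 + 3 * (x.re * x.im) := by
    unfold nm
    linear_combination (x.re * x.im) * hc.eB - x.im ^ 2 * hc.hA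
  have hstar : x * star x = ((nm x : ℤ) : OO A B) := Pool.Agent.MUXF.AlgX.mul_star' x
  have key : x ∈ P ↔ (3 : ℤ) ∣ nm x := by
    constructor
    · intro hx
      rw [← hq.int, ← hstar]
      exact P.mul_mem_right _ hx
    · intro h
      have h1 : x * star x ∈ P := by
        rw [hstar]
        exact (hq.int _).2 h
      rcases hP.prime.mem_or_mem h1 with h2 | h2
      · exact h2
      · -- `(x - star x)² = -3 im²`
        have h4 : (x - star x) ^ 2 = 3 * ((-(x.im ^ 2) : ℤ) : OO A B) := by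
          have e1 : ∀ n : ℤ, ((n : ℤ) : OO A B) = ⟨n, 0⟩ := fun n => by ext <;> simp
          have e2 : (3 : OO A B) = ⟨3, 0⟩ := rfl
          rw [e1, e2, pow_two]
          obtain ⟨a, b⟩ := x
          ext
          · simp [QuadraticAlgebra.star_mk, hc.hA, hc.eB]
            ring
          · simp [QuadraticAlgebra.star_mk, hc.hA, hc.eB]
            ring
        have h5 : (x - star x) ^ 2 ∈ P := by
          rw [h4]
          exact P.mul_mem_right _ h3P
        have h6 := hP.prime.mem_of_pow_mem _ h5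
        have h7 := P.add_mem h6 h2
        rwa [sub_add_cancel] at h7
  rw [key, hnm]
  constructor
  · intro h
    have h1 : (3 : ℤ) ∣ (x.re - x.im) ^ 2 := by
      have := dvd_sub h (Dvd.intro (x.re * x.im) rfl)
      rwa [add_sub_cancel_right] at this
    exact Int.prime_three.dvd_of_dvd_pow h1
  · intro h
    exact dvd_add (Dvd.dvd.pow h two_ne_zero) (Dvd.intro _ rfl)

/-- the unit attached to an element not in `P` -/
lemma unit_ex3 (hc : CaseE3 A B) (hP : IsPN 3 P) {x : OO A B} (hx : x ∉ P) :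
    ∃ z : OO A B, IsUnit z ∧ x - z ∈ idl (A := A) (B := B) 3 := by
  rw [mem_P hc hP] at hx
  have hE := hc.toCaseE
  have u1 : IsUnit (⟨1, 0⟩ : OO A B) := isUnit_one
  have u2 : IsUnit (⟨0, 1⟩ : OO A B) := isUnit_w hE
  have u3 : IsUnit (⟨1, -1⟩ : OO A B) := isUnit_w' hE hc.eB
  have n1 : IsUnit (⟨-1, 0⟩ : OO A B) := by
    have e1 : (⟨-1, 0⟩ : OO A B) = -⟨1, 0⟩ := by ext <;> simp
    rw [e1]
    exact u1.neg
  have n2 : IsUnit (⟨0, -1⟩ : OO A B) := by
    have e1 : (⟨0, -1⟩ : OO A B) = -⟨0, 1⟩ := by ext <;> simp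
    rw [e1]
    exact u2.neg
  have n3 : IsUnit (⟨-1, 1⟩ : OO A B) := by
    have e1 : (⟨-1, 1⟩ : OO A B) = -⟨1, -1⟩ := by ext <;> simp
    rw [e1]
    exact u3.neg
  obtain ⟨a, b⟩ := x
  simp only at hx
  have ha : a % 3 = 0 ∨ a % 3 = 1 ∨ a % 3 = 2 := by omega
  have hb : b % 3 = 0 ∨ b % 3 = 1 ∨ b % 3 = 2 := by omega
  rcases ha with ha | ha | ha <;> rcases hb with hb | hb | hb
  · omega
  · refine ⟨_, u2, mem_three.2 ⟨?_, ?_⟩⟩ <;> simp <;> omega
  · refine ⟨_, n2, mem_three.2 ⟨?_, ?_⟩⟩ <;> simp <;> omega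
  · refine ⟨_, u1, mem_three.2 ⟨?_, ?_⟩⟩ <;> simp <;> omega
  · omega
  · refine ⟨_, u3, mem_three.2 ⟨?_, ?_⟩⟩ <;> simp <;> omega
  · refine ⟨_, n1, mem_three.2 ⟨?_, ?_⟩⟩ <;> simp <;> omega
  · refine ⟨_, n3, mem_three.2 ⟨?_, ?_⟩⟩ <;> simp <;> omega
  · omega

/-- units which are congruent modulo `3` are equal -/
lemma unit_inj3 (hc : CaseE3 A B) {z z' : OO A B} (hz : IsUnit z) (hz' : IsUnit z')
    (h : z - z' ∈ idl (A := A) (B := B) 3) : z = z' := by
  have hE := hc.toCaseE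
  have l1 : ∀ {z : OO A B}, IsUnit z → z = ⟨1, 0⟩ ∨ z = ⟨-1, 0⟩ ∨ z = ⟨0, 1⟩ ∨ z = ⟨0, -1⟩ ∨
      z = ⟨1, -1⟩ ∨ z = ⟨-1, 1⟩ := by
    intro z hz
    rcases unit_list hE hz with h | h | h | h | ⟨-, h | h⟩
    · exact Or.inl (h.trans rfl)
    · refine Or.inr (Or.inl (h.trans ?_))
      ext <;> simp [QuadraticAlgebra.re_one, QuadraticAlgebra.im_one]
    · exact Or.inr (Or.inr (Or.inl h))
    · exact Or.inr (Or.inr (Or.inr (Or.inl h)))
    · exact Or.inr (Or.inr (Or.inr (Or.inr (Or.inl h))))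
    · exact Or.inr (Or.inr (Or.inr (Or.inr (Or.inr h))))
  rw [mem_three] at h
  obtain ⟨h1, h2⟩ := h
  rcases l1 hz with rfl | rfl | rfl | rfl | rfl | rfl <;>
    rcases l1 hz' with rfl | rfl | rfl | rfl | rfl | rfl <;>
      first
        | rfl
        | (exfalso; simp at h1 h2)

end TE6

open _root_.Pool.Agent.NSIR.TE6 in
/-- (TE6) the weights -/
theorem tp_TE6_E : Sp_TE6_E := by
  classical
  intro A B P V hc hP hV
  have hE := hc.toCaseE
  have hC : CQ A B := hc.toCQ
  choose! z hz1 hz2 using fun (x : OO A B) (hx : x ∉ P) => unit_ex3 hc hP hx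
  have h3P : (3 : OO A B) ∈ P := by simpa using hP.mem
  have hle : idl (A := A) (B := B) 3 ≤ P := by
    rw [Ideal.span_singleton_le_iff_mem]
    exact hP.mem
  have huP : ∀ z : OO A B, IsUnit z → z ∉ P := fun z hz hzP =>
    hP.prime.ne_top (Ideal.eq_top_of_isUnit_mem _ hzP hz)
  have hval : ∀ (x y : OO A B) (hx : x ∉ P) (hy : IsUnit y),
      x - y ∈ idl (A := A) (B := B) 3 → z x = y := by
    intro x y hx hy h
    refine unit_inj3 hc (hz1 x hx) hy ?_
    have := (idl (A := A) (B := B) 3).sub_mem h (hz2 x hx)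
    have e1 : x - y - (x - z x) = z x - y := by ring
    rwa [e1] at this
  have hemb3 : ∀ x ∈ idl (A := A) (B := B) 3, V.valuation (emb x) ≤ V.valuation (3 : ℂ) := by
    intro x hx
    obtain ⟨y, rfl⟩ := Ideal.mem_span_singleton.1 hx
    have e1 : emb (((3 : ℕ) : OO A B) * y) = 3 * emb y := by
      rw [MUX.emb_mul hC]
      congr 1
      unfold emb
      rw [QuadraticAlgebra.re_natCast, QuadraticAlgebra.im_natCast]
      push_cast
      ring
    rw [e1, map_mul]
    exact mul_le_of_le_one_right zero_le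
      ((V.valuation_le_one_iff _).2 (Pool.Agent.MUXN.N_GJ.emb_mem_V hC V y))
  refine ⟨fun x => if x ∈ P then 0 else emb (z x), ?_⟩
  have hw : ∀ x, x ∉ P → (if x ∈ P then 0 else emb (z x)) = emb (z x) := fun x hx => if_neg hx
  have hunit : ∀ y : OO A B, IsUnit y → z y = y := fun y hy =>
    hval y y (huP y hy) hy (by rw [sub_self]; exact Ideal.zero_mem _)
  constructor
  · rw [hw 1 (huP 1 isUnit_one), hunit 1 isUnit_one, MUX.emb_one hC]
  · intro x y
    by_cases hx : x ∈ P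
    · rw [if_pos hx, if_pos (P.mul_mem_right _ hx), zero_mul]
    by_cases hy : y ∈ P
    · rw [if_pos hy, if_pos (P.mul_mem_left _ hy), mul_zero]
    have hxy : x * y ∉ P := fun h => (hP.prime.mem_or_mem h).elim hx hy
    rw [hw _ hxy, hw _ hx, hw _ hy, ← MUX.emb_mul hC]
    congr 1
    refine hval _ _ hxy ((hz1 x hx).mul (hz1 y hy)) ?_
    have e1 : x * y - z x * z y = (x - z x) * y + z x * (y - z y) := by ring
    rw [e1]
    exact Ideal.add_mem _ (Ideal.mul_mem_right _ _ (hz2 x hx)) (Ideal.mul_mem_left _ _ (hz2 y hy))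
  · intro x y h
    by_cases hx : x ∈ P
    · have hy : y ∈ P := by
        have := P.sub_mem hx (hle h)
        rwa [sub_sub_cancel] at this
      rw [if_pos hx, if_pos hy]
    · have hy : y ∉ P := by
        intro hy
        apply hx
        have := P.add_mem (hle h) hy
        rwa [sub_add_cancel] at this
      rw [hw _ hx, hw _ hy]
      congr 1
      refine hval _ _ hx (hz1 y hy) ?_
      have e1 : x - z y = (x - y) + (y - z y) := by ring
      rw [e1]
      exact Ideal.add_mem _ h (hz2 y hy)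
  · intro x hx
    exact if_pos hx
  · intro x hx
    rw [hw _ hx]
    have h6 : z x ^ 6 = 1 := by
      have e1 : ∀ n : ℤ, ((n : ℤ) : OO A B) = ⟨n, 0⟩ := fun n => by ext <;> simp
      have w2 : (⟨0, 1⟩ : OO A B) * ⟨0, 1⟩ = ⟨-1, 1⟩ := by
        ext <;> simp [hc.hA, hc.eB]
      have w3 : (⟨0, 1⟩ : OO A B) ^ 3 = -1 := by
        rw [pow_succ, pow_two, w2]
        ext <;> simp [hc.hA, hc.eB, QuadraticAlgebra.re_one, QuadraticAlgebra.im_one]
      have w6 : (⟨0, 1⟩ : OO A B) ^ 6 = 1 := by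
        rw [show 6 = 3 * 2 by norm_num, pow_mul, w3]
        ring
      have e2 : (⟨0, -1⟩ : OO A B) = -⟨0, 1⟩ := by ext <;> simp
      have e3 : (⟨-1, 1⟩ : OO A B) = ⟨0, 1⟩ ^ 2 := by rw [pow_two, w2]
      have e4 : (⟨1, -1⟩ : OO A B) = -(⟨0, 1⟩ ^ 2) := by
        rw [← e3]
        ext <;> simp
      rcases unit_list hE (hz1 x hx) with h | h | h | h | ⟨-, h | h⟩
      · rw [h, one_pow]
      · rw [h]
        ring
      · rw [h, w6]
      · rw [h, e2, Even.neg_pow (by decide), w6]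
      · rw [h, e4, Even.neg_pow (by decide), ← pow_mul, mul_comm, pow_mul, w6, one_pow]
      · rw [h, e3, ← pow_mul, mul_comm, pow_mul, w6, one_pow]
    have h7 : emb (z x ^ 6) = emb (z x) ^ 6 := by
      have h8 : ∀ n : ℕ, emb (z x ^ n) = emb (z x) ^ n := by
        intro n
        induction n with
        | zero => rw [pow_zero, pow_zero, MUX.emb_one hC]
        | succ n ih => rw [pow_succ, pow_succ, MUX.emb_mul hC, ih]
      exact h8 6
    rw [← h7, h6, MUX.emb_one hC]
  · intro x hx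
    rw [hw _ hx]
    have e1 : emb (z x) - emb x = -(emb (x - z x)) := by
      unfold emb
      rw [QuadraticAlgebra.re_sub, QuadraticAlgebra.im_sub]
      push_cast
      ring
    rw [e1, Valuation.map_neg]
    exact hemb3 _ (hz2 x hx)
  · intro y hy
    rw [hw _ (huP y hy), hunit y hy]

/-- (EPR) the characters -/
theorem tp_EPR_E : Sp_EPR_E := by
  intro A B P V f hS w hw e0 h1 hmul hper hsupp hunit
  have hP := hS.hP
  have hlv0 : lvX 3 f 0 = 3 * f := by
    unfold lvX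
    simp [q0, mul_comm]
  rw [hlv0] at hper hsupp
  have hle : idl (A := A) (B := B) (3 * f) ≤ idl (A := A) (B := B) 3 := by
    rw [Ideal.span_singleton_le_span_singleton]
    exact ⟨((f : ℕ) : OO A B), by push_cast; rfl⟩
  have hsp : ∀ x : OO A B, IsCoprime (sp x) (idl (A := A) (B := B) (3 * f)) ↔
      IsCoprime x ((3 * f : ℕ) : OO A B) := fun x => Ideal.isCoprime_span_singleton_iff x _
  have hxP : ∀ x : OO A B, IsCoprime x ((3 * f : ℕ) : OO A B) → x ∉ P := by
    rintro x ⟨a, b, hab⟩ hx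
    apply hP.prime.ne_top
    rw [Ideal.eq_top_iff_one, ← hab]
    refine P.add_mem (P.mul_mem_left _ hx) (P.mul_mem_left _ ?_)
    rw [Nat.cast_mul]
    exact P.mul_mem_right _ hP.mem
  refine { one := ?_, mul := ?_, per := ?_, supp := ?_, neg := ?_, unit := ?_ }
  · show e0 1 * w 1 = 1
    rw [h1, hw.one, one_mul]
  · intro x y
    show e0 (x * y) * w (x * y) = e0 x * w x * (e0 y * w y)
    rw [hmul, hw.mul]
    ring
  · intro x y h
    show e0 x * w x = e0 y * w y
    rw [hper x y h, hw.per x y (hle h)]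
  · intro x
    show e0 x * w x ≠ 0 ↔ _
    rw [hsp, ← hsupp]
    constructor
    · intro h h0
      exact h (by rw [h0, zero_mul])
    · intro h
      refine mul_ne_zero h ?_
      intro h0
      have h2 := hw.pow x (hxP x ((hsupp x).1 h))
      rw [h0, zero_pow (by norm_num)] at h2
      exact zero_ne_one h2
  · show e0 (-1) * w (-1) = -1
    have hu : IsUnit (-1 : OO A B) := isUnit_one.neg
    rw [hunit _ hu, hw.unit _ hu, one_mul]
    unfold emb
    rw [QuadraticAlgebra.re_neg, QuadraticAlgebra.im_neg, QuadraticAlgebra.re_one,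
      QuadraticAlgebra.im_one]
    push_cast
    ring
  · intro z hz
    show e0 z * w z = emb z
    rw [hunit z hz, hw.unit z hz, one_mul]

end

end Pool.Agent.NSIR


end

section

/-!
# ME, block IR (helper6, after helper87's `NS/IR_SUB.lean`): the fields `K B_n`, `D = -3`
-/

set_option autoImplicit false

namespace Pool.Agent.NSIR

open _root_.MU3 _root_.Pool.Agent.MU3 _root_.Pool.Agent.MU3A _root_.Pool.Agent.MU3B _root_.Pool.Agent.RI _root_.Pool.Agent.RID
  _root_.Pool.Agent.MUX _root_.Pool.Agent.MUXU _root_.Pool.Agent.MUXK _root_.Pool.Agent.MUXI _root_.Pool.Agent.NS _root_.Pool.Agent.NSRD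
  _root_.Pool.Agent.NSI
open _root_.Pool.Agent.MU3I (w3 zt)

noncomputable section

namespace SUBE

open _root_.Pool.Agent.ME _root_.Pool.Agent.NSIR.TE6

variable {A B : ℤ} {P : Ideal (OO A B)}

/-- `P² = (3)` -/
theorem sq_eq (hc : CaseE3 A B) (hP : IsPN 3 P) : P ^ 2 = idl (A := A) (B := B) 3 := by
  have hA := hc.hA
  have hB := hc.eB
  apply le_antisymm
  · rw [pow_two, Ideal.mul_le]
    intro x hx y hy
    rw [mem_P hc hP] at hx hy
    obtain ⟨a, ha⟩ := hx
    obtain ⟨b, hb⟩ := hy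
    rw [mem_three]
    have hx' : x.re = x.im + 3 * a := by omega
    have hy' : y.re = y.im + 3 * b := by omega
    constructor
    · have e1 : (x * y).re = 3 * (x.im * b + a * y.im + 3 * a * b) + (A + 1) * (x.im * y.im) := by
        rw [QuadraticAlgebra.re_mul, hx', hy']
        ring
      rw [e1]
      refine ⟨x.im * b + a * y.im + 3 * a * b, ?_⟩
      linear_combination (x.im * y.im) * hA
    · have e1 : (x * y).im = 3 * (x.im * y.im + a * y.im + b * x.im) +
          (B - 1) * (x.im * y.im) := by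
        rw [QuadraticAlgebra.im_mul, hx', hy']
        ring
      rw [e1]
      refine ⟨x.im * y.im + a * y.im + b * x.im, ?_⟩
      linear_combination (x.im * y.im) * hB
  · rw [Ideal.span_singleton_le_iff_mem]
    have h1 : (⟨1, 1⟩ : OO A B) ∈ P := by
      rw [mem_P hc hP]
      simp
    have e1 : ((3 : ℕ) : OO A B) = (⟨1, 1⟩ * ⟨1, 1⟩) * ⟨1, -1⟩ := by
      have e2 : ((3 : ℕ) : OO A B) = ⟨3, 0⟩ := rfl
      rw [e2]
      ext
      · simp [hA, hB]
      · simp [hA, hB]
    rw [e1, pow_two]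
    exact Ideal.mul_mem_right _ _ (Ideal.mul_mem_mul h1 h1)

theorem pow_eq (hc : CaseE3 A B) (hP : IsPN 3 P) (n : ℕ) :
    P ^ (2 * n + 1) = Ideal.span {((3 ^ n : ℕ) : OO A B)} * P := by
  rw [pow_succ, pow_mul, sq_eq hc hP]
  congr 1
  rw [Ideal.span_singleton_pow]
  push_cast
  rfl

/-- the norm of `c ≡ 1` modulo `f P^(2n+1)` -/
theorem nm_one (hc : CaseE3 A B) (hP : IsPN 3 P)
    (f n : ℕ) {c : OO A B} (h : c - 1 ∈ lvR P f n) : ((3 ^ (n + 1) : ℕ) : ℤ) ∣ nm c - 1 := by
  have h1 : c - 1 ∈ Ideal.span {((3 ^ n : ℕ) : OO A B)} * P := by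
    rw [← pow_eq hc hP]
    exact Ideal.mul_le_right h
  obtain ⟨p, hp, hpc⟩ := Ideal.mem_span_singleton_mul.1 h1
  rw [mem_P hc hP] at hp
  obtain ⟨a, ha⟩ := hp
  have hre : p.re = p.im + 3 * a := by omega
  have e1 : c = ⟨1 + 3 ^ n * p.re, 3 ^ n * p.im⟩ := by
    have h4 : c = 1 + ((3 ^ n : ℕ) : OO A B) * p := by rw [hpc]; ring
    rw [h4]
    have e2 : ((3 ^ n : ℕ) : OO A B) = ⟨3 ^ n, 0⟩ := by
      ext
      · rw [QuadraticAlgebra.re_natCast]; push_cast; rfl
      · rw [QuadraticAlgebra.im_natCast]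
    rw [e2]
    ext
    · simp
      rfl
    · simp
      rfl
  have hA := hc.hA
  have hB := hc.eB
  have e3 : nm c - 1 = 3 ^ n * (3 * (p.im + 2 * a)) + 3 ^ n * 3 ^ n *
      (3 * (p.im ^ 2 + 3 * a * p.im + 3 * a ^ 2)) := by
    have e4 : nm c - 1 = 3 ^ n * (2 * p.re + B * p.im) + 3 ^ n * 3 ^ n *
        (p.re ^ 2 + B * p.re * p.im - A * p.im ^ 2) := by
      rw [e1]
      unfold nm
      simp only
      ring
    rw [e4, hre]
    linear_combination (3 ^ n * p.im + 3 ^ n * 3 ^ n * ((p.im + 3 * a) * p.im)) * hB -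
      3 ^ n * 3 ^ n * p.im ^ 2 * hA
  rw [e3]
  refine ⟨(p.im + 2 * a) + 3 ^ n * (p.im ^ 2 + 3 * a * p.im + 3 * a ^ 2), ?_⟩
  push_cast
  ring

end SUBE

open _root_.Pool.Agent.ME _root_.Pool.Agent.NSIR.TE6 _root_.Pool.Agent.NSIR.SUBE in
/-- (SUB) -/
theorem tp_SUB_E (h1 : Si_LAY) : Sp_SUB_E := by
  intro A B P V f hS hT hNL K hK n Bn hn hlay
  have hc : CaseE3 A B := hS.c3
  have hC : CQ A B := hc.toCQ
  have hP := hS.hP
  have hV := hS.hV
  have h3P : (3 : OO A B) ∈ P := by simpa using hP.mem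
  have hq3 : q0 3 = 3 := by simp [q0]
  have hlvdef : lvX 3 f n = f * 3 ^ (n + 1) := by
    unfold lvX
    rw [hq3]
    ring
  -- comparison of the ideals
  have hlvR : lvR P f n = idl f * (Ideal.span {((3 ^ n : ℕ) : OO A B)} * P) := by
    unfold lvR
    rw [pow_eq hc hP]
  have hle : idl (A := A) (B := B) (lvX 3 f n) ≤ lvR P f n := by
    rw [hlvR, Ideal.span_singleton_le_iff_mem]
    have e1 : ((lvX 3 f n : ℕ) : OO A B) = ((f : ℕ) : OO A B) * (((3 ^ n : ℕ) : OO A B) * 3) := by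
      rw [hlvdef]
      push_cast
      ring
    rw [e1]
    exact Ideal.mul_mem_mul (Ideal.mem_span_singleton_self _)
      (Ideal.mul_mem_mul (Ideal.mem_span_singleton_self _) h3P)
  have hle2 : lvR P f n ≤ idl (3 * f) := by
    obtain ⟨m, rfl⟩ : ∃ m, n = m + 1 := ⟨n - 1, by omega⟩
    rw [hlvR, ← mul_assoc, Ideal.span_singleton_mul_span_singleton]
    refine Ideal.mul_le_left.trans ?_
    rw [Ideal.span_singleton_le_span_singleton]
    refine ⟨((3 ^ m : ℕ) : OO A B), ?_⟩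
    push_cast
    ring
  have hle4 : lvR P f n ≤ idl 2 := by
    rw [hlvR]
    refine Ideal.mul_le_left.trans ?_
    rw [Ideal.span_singleton_le_span_singleton]
    obtain ⟨g, hg⟩ := hS.f2
    exact ⟨((g : ℕ) : OO A B), by rw [hg]; push_cast; rfl⟩
  have hf0 := hS.f0
  have hlv0 : lvX 3 f n ≠ 0 := by
    rw [hlvdef]
    positivity
  have hm : idl (A := A) (B := B) (lvX 3 f n) ≠ ⊥ := Pool.Agent.NSZ.idl_ne_bot hlv0
  have hmR : lvR P f n ≠ ⊥ := by
    intro h
    rw [h, le_bot_iff] at hle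
    exact hm hle
  have hK' : K ≤ IntermediateField.restrictScalars ℚ (RFE (lvR P f n)) := by
    intro x hx
    exact hT.mono _ _ hle2 (hK x hx)
  -- the roots of unity
  have halg : Algebra.IsAlgebraic ℚ
      ((RFE (lvR P f n)).restrictScalars ℚ : IntermediateField ℚ ℂ) := by
    refine ⟨fun x => (IntermediateField.isAlgebraic_iff).2 ?_⟩
    have hfin := hT.fin _ hmR
    have h2 : IsAlgebraic (kk A B) (⟨(x : ℂ), x.2⟩ : RFE (lvR P f n)) :=
      Algebra.IsAlgebraic.isAlgebraic _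
    exact Pool.Agent.NSG.alg_of hC (h2.algebraMap (A := ℂ))
  have hz : ∀ z : ℂ, z ^ 3 ^ (n + 1) = 1 → z ∈ RFE (lvR P f n) := by
    intro z hz
    have key := u_AUF ((RFE (lvR P f n)).restrictScalars ℚ) halg z (fun σ hσ => by
      have hσ' : ∀ y ∈ RFE (lvR P f n), σ y = y := fun y hy => hσ y hy
      have hfix : FixK A B σ :=
        hσ' _ (IntermediateField.algebraMap_mem (RFE (lvR P f n))
          (⟨wC A B, IntermediateField.mem_adjoin_simple_self ℚ (wC A B)⟩ : kk A B))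
      obtain ⟨b, L, om, hL⟩ := hNL
      obtain ⟨a, hcop, ha⟩ := hT.act (idl (lvX 3 f n)) hm σ hfix
      obtain ⟨b', L', om', mu, hL', hA⟩ := ha b L om hL
      have hA' : Pool.Agent.ME.ActE σ (lvR P f n) a L L' mu := by
        refine ⟨hA.kapE, ?_, hA.isq, fun z hz => hA.act z fun x hx => hz x (hle hx)⟩
        rw [Ideal.isCoprime_iff_sup_eq] at hcop ⊢
        rw [eq_top_iff, ← hcop]
        exact sup_le_sup_left hle a
      obtain ⟨c, hc1, hca⟩ :=
        (hT.triv _ a σ b L L' om mu hmR (Or.inl hle4) hfix hL hA' hL'.nrm).1 hσ'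
      have h3 := (hT.zeta (3 ^ (n + 1)) (idl (lvX 3 f n)) a σ b L L' om mu hm hfix
        (pow_ne_zero _ (by norm_num)) (by
          rw [Ideal.span_singleton_le_span_singleton]
          exact_mod_cast Nat.cast_dvd_cast ⟨f, by rw [hlvdef]; ring⟩) hL hA z hz).2
      rw [h3, hca]
      have h4 := nm_one hc hP f n hc1
      have hc0 : c ≠ 0 := by
        rintro rfl
        have h6 : (0 - 1 : OO A B) ∈ P := by
          have h7 : lvR P f n ≤ P := by
            rw [hlvR]
            exact (Ideal.mul_le_right).trans Ideal.mul_le_right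
          exact h7 hc1
        apply hP.prime.ne_top
        rw [Ideal.eq_top_iff_one]
        have h8 := P.neg_mem h6
        rwa [zero_sub, neg_neg] at h8
      have hnn : 0 ≤ nm c := by
        have h6 : 4 * nm c = (2 * c.re + B * c.im) ^ 2 - (B ^ 2 + 4 * A) * c.im ^ 2 := by
          unfold nm
          ring
        have h7 := hC.neg
        nlinarith [sq_nonneg (2 * c.re + B * c.im), sq_nonneg c.im]
      have h5 : ((nI (sp c) : ℕ) : ℤ) = nm c := by
        rw [Pool.Agent.MUX.nI_sp hC hc0]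
        exact Int.natAbs_of_nonneg hnn
      obtain ⟨k, hk⟩ : ∃ k : ℕ, nI (sp c) = 1 + 3 ^ (n + 1) * k := by
        obtain ⟨k, hk⟩ := h4
        have h6 : ((nI (sp c) : ℕ) : ℤ) = 1 + ((3 ^ (n + 1) : ℕ) : ℤ) * k := by
          rw [h5, ← hk]
          ring
        have h7 : 0 ≤ k := by
          by_contra h8
          have h9 : k ≤ -1 := by omega
          have h10 : (3 : ℤ) ≤ ((3 ^ (n + 1) : ℕ) : ℤ) := by
            have : 3 ^ 1 ≤ 3 ^ (n + 1) := Nat.pow_le_pow_right (by norm_num) (by omega)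
            exact_mod_cast this
          have h11 : (0 : ℤ) ≤ ((nI (sp c) : ℕ) : ℤ) := by positivity
          nlinarith
        obtain ⟨k', rfl⟩ := Int.eq_ofNat_of_zero_le h7
        exact ⟨k', by exact_mod_cast h6⟩
      rw [hk, pow_add, pow_one, pow_mul, hz, one_pow, mul_one])
    exact key
  have hzt : zt (3 ^ (n + 1)) ^ 3 ^ (n + 1) = 1 := by
    unfold Pool.Agent.MU3I.zt
    exact (Complex.isPrimitiveRoot_exp _ (pow_ne_zero _ (by norm_num))).pow_eq_one
  have hq : q0 3 * 3 ^ n = 3 ^ (n + 1) := by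
    rw [hq3]
    ring
  have hBdef : Bn = IntermediateField.adjoin ℚ {zt (3 ^ (n + 1)) + (zt (3 ^ (n + 1)))⁻¹} := by
    have h2 := h1 3 n (Or.inr rfl) Bn hlay
    rwa [hq] at h2
  have hBn : Bn ≤ IntermediateField.restrictScalars ℚ (RFE (lvR P f n)) := by
    rw [hBdef, IntermediateField.adjoin_le_iff]
    intro x hx
    rw [Set.mem_singleton_iff] at hx
    rw [hx]
    have h3 := hz _ hzt
    exact add_mem h3 (inv_mem h3)
  intro y hy
  exact (sup_le hK' hBn) hy

end

end Pool.Agent.NSIR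


end
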