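import Mathlib
import Pool.Agent.MVF.C135
import Pool.Agent.MVF.C164
import Pool.Agent.MVF.C167
import Pool.Agent.MVF.C174
import Pool.Agent.MVF.C178
import Pool.Agent.MVF.C179
import Pool.Agent.MVF.C180
import Pool.Agent.MVF.C181
import Pool.Agent.MVF.C183
import Pool.Agent.MVF.C184
import Pool.Agent.MVF.C185

/-! Parts: ME.N.IRAll, ME.E3_TPR, ME.E3_EXO, ME.E3All, ME.Z3All -/

namespace Pool.Agent.ME3.TPR
end Pool.Agent.ME3.TPR

section

/-!
# MUX-NS, block IR (`D = -3`), all statements of `ME/StIR.lean` (helper6). The only input is `Sq_HFIN_E` (block H)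
-/

set_option autoImplicit false

namespace Pool.Agent.NSIR

open _root_.Pool.Agent.ME _root_.Pool.Agent.NSI

open _root_.Pool.Agent.MUXF _root_.Pool.Agent.MUXU _root_.Pool.Agent.MUXY _root_.Pool.Agent.MUXK _root_.Pool.Agent.MUXI

theorem r_TE6_E : Sp_TE6_E := tp_TE6_E
theorem r_EPR_E : Sp_EPR_E := tp_EPR_E
theorem r_SUB_E : Sp_SUB_E := tp_SUB_E i_LAY

theorem r_I31_E (hH : Pool.Agent.NSRD.Sq_HFIN_E) : Sp_I31_E :=
  tp_I31_E Pool.Agent.MUXJ.j_RES i_CHI n_FOU Pool.Agent.MU3I.t_ITG r_TE6_E r_EPR_E n_E0_E i_ARF_E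
    i_XXF_E n_SUB_E i_GAM n_XMX_E i_BIJ n_TH_E i_GEN hH k_GALX

/-- the result of block IR -/
theorem r_INP_E (hH : Pool.Agent.NSRD.Sq_HFIN_E) : Sp_INP_E := tp_INP_E (r_I31_E hH) n_LEM1 n_NRX

end Pool.Agent.NSIR


end

section

/-!
# MUX-NS, block ER: the points of exact order `P^(j+1)` (TPR), `3` ramified (helper1)
-/

set_option autoImplicit false

open Polynomial

namespace Pool.Agent.ME3

open _root_.MU3 _root_.Pool.Agent.MU3A _root_.Pool.Agent.MU3B _root_.Pool.Agent.MUX _root_.Pool.Agent.MUXU _root_.Pool.Agent.MUXE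
open _root_.Pool.Agent.RI _root_.Pool.Agent.NS _root_.Pool.Agent.NSRD
open _root_.Pool.Agent.ME hiding ActE
open _root_.Pool.Agent.MEE
open _root_.Pool.Agent.NSER (PtsR Ex Sf_ALG Sf_PRO Sf_PUL Sf_COE Sf_GRN Sf_LEG Sf_TW3 Sf_PTS Sf_TNC Sf_UNT Sf_RAT Sf_ISO Sf_ADD Sf_THN Sf_NE1 Sf_ORB)
open _root_.Pool.Agent.MUXV (GR InK tX)
open _root_.Pool.Agent.NSE (E3 su ru WL IntP Rep)

noncomputable section

namespace TPR

theorem _root_.Pool.Agent.ME3.TPR.one_lt_of {Γ : Type*} [LinearOrderedCommGroupWithZero Γ] {T π : Γ} {m : ℕ}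
    (h : T ^ m * π = 1) (hπ : π < 1) : 1 < T := by
  by_contra hc
  have hc' : T ≤ 1 := not_lt.1 hc
  have h1 : T ^ m ≤ 1 := pow_le_one' hc' m
  have h2 : T ^ m * π ≤ 1 * π := mul_le_mul_left h1 π
  rw [h, one_mul] at h2
  exact absurd hπ (not_lt.2 h2)

theorem _root_.Pool.Agent.ME3.TPR.inv_pow_eq {Γ : Type*} [LinearOrderedCommGroupWithZero Γ] {T π : Γ} {m : ℕ}
    (hT : T ≠ 0) (h : T⁻¹ ^ m = π) : T ^ m * π = 1 := by
  rw [← h, inv_pow]
  exact mul_inv_cancel₀ (pow_ne_zero _ hT)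

theorem _root_.Pool.Agent.ME3.TPR.lt_one_of_sq {Γ : Type*} [LinearOrderedCommGroupWithZero Γ] {a b : Γ}
    (h : a ^ 2 = b) (hb : b < 1) : a < 1 := by
  by_contra hc
  have hc' : 1 ≤ a := not_lt.1 hc
  have h1 : 1 ≤ a ^ 2 := one_le_pow₀ hc'
  rw [h] at h1
  exact absurd hb (not_lt.2 h1)

end TPR

open _root_.Pool.Agent.ME3.TPR in
theorem t3_TPR (h2 : Sf_GRN) (h3 : Sf_TNC) (h4 : S3_RPV) (h5 : S3_PIS) (h6 : Su_BAC)
    (h7 : Su_PFI) : S3_TPR := by
  intro A B P V h hT hG j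
  obtain ⟨φ, hφ⟩ := h.ring.hom
  have embn : ∀ n : ℕ, emb ((n : ℕ) : OO A B) = n := fun n => by rw [← hφ, map_natCast]
  have hv3 := h.v3
  have mem3 : ((3 : ℕ) : OO A B) ∈ P := by
    have h8 : ((3 : ℕ) : OO A B) ∈ idl (A := A) (B := B) 3 :=
      Ideal.subset_span (Set.mem_singleton _)
    rw [← h.sq] at h8
    exact Ideal.mul_le_left h8
  have hPbot : P ≠ ⊥ := by
    intro h0
    rw [h0, Ideal.mem_bot] at mem3
    have h9 := embn 3
    rw [mem3, ← hφ, map_zero] at h9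
    norm_num at h9
  have hπ0 : V.valuation (3 : ℂ) ≠ 0 := (Valuation.ne_zero_iff _).2 (by norm_num)
  induction j with
  | zero =>
    intro L u e lam hL hg z hz hz0
    obtain ⟨tra1, -⟩ := tm_TRA A B h.ring L hL
    have hzL : z ∉ L.lattice := fun h8 => hz0 fun x _ => tra1 x z h8
    rw [zero_add, pow_one] at hz
    obtain ⟨k1, k2, k3⟩ := h4 A B P V h hT hG L u e lam hL hg z hz hzL
    exact ⟨k1, k2, by simpa using k3⟩
  | succ j ih =>
    intro L u e lam hL hg z hz hz0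
    obtain ⟨tra1, tra2, tra3, tra4, tra5, tra6, tra7, tra8, tra9⟩ := tm_TRA A B h.ring L hL
    obtain ⟨N, ν, hN, hQ⟩ := h.exq L hL
    obtain ⟨u', e', lam', hg'⟩ := h.good N hN
    have hν : ν ≠ 0 := hQ.1
    have hTor : ∀ z, ν * z ∈ N.lattice ↔ Tor P L z := hQ.2
    have hIsg : Isg L N ν := fun w hw => (hTor w).2 (fun x _ => tra1 x w hw)
    obtain ⟨⟨R, hR⟩, -⟩ := h6.2 L N ν hν hIsg
    obtain ⟨ξ, G⟩ := h2 V L u e lam hg hv3
    have hmu := h5 A B P V h hT hG L N ν u e lam u' e' lam' hL hN hQ hg hg'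
    have hu := hg.u0
    have hu' := hg'.u0
    -- the point of order 5
    have hw5 : ((5 : ℕ) : ℂ) * (L.ω₁ / 5) ∈ L.lattice := by
      convert L.ω₁_mem_lattice using 1; push_cast; ring
    have n1 := TP.fifth L
    set w : ℂ := L.ω₁ / 5 with hw
    have i1 : ¬ InK V L (xu L u e) w := fun hin =>
      n1 ((h3 V L u e lam hg hv3 5 (by norm_num)).2 w hw5 hin)
    have m1 : ν * w ∉ N.lattice := by
      intro h8
      have h9 := (hTor w).1 h8 _ mem3
      rw [embn] at h9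
      apply n1
      have h10 := sub_mem (add_mem h9 h9) hw5
      convert h10 using 1
      push_cast
      ring
    have i1' : ¬ InK V N (xu N u' e') (ν * w) := by
      intro hin
      refine m1 ((h3 V N u' e' lam' hg' hv3 5 (by norm_num)).2 _ ?_ hin)
      have h8 := hIsg _ hw5
      rwa [show ν * (((5 : ℕ) : ℂ) * w) = ((5 : ℕ) : ℂ) * (ν * w) by ring] at h8
    -- the point `z' = ν z`
    have hz1 : Tor (P ^ (j + 1)) N (ν * z) := by
      intro x hx
      have h8 : Tor P L (emb x * z) := by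
        apply tra6 (P ^ (j + 1)) P x z hx
        rw [← pow_succ]
        exact hz
      have h9 := (hTor _).2 h8
      rwa [show ν * (emb x * z) = emb x * (ν * z) by ring] at h9
    have hz2 : ¬ Tor (P ^ j) N (ν * z) := by
      intro h8
      apply hz0
      rw [pow_succ]
      apply tra7
      intro x hx
      have h9 := h8 x hx
      rw [show emb x * (ν * z) = ν * (emb x * z) by ring] at h9
      exact (hTor _).1 h9
    obtain ⟨y1, y2, y3⟩ := ih N u' e' lam' hN hg' (ν * z) hz1 hz2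
    have hzN : ν * z ∉ N.lattice := by
      intro h8
      apply hz2
      obtain ⟨trb1, -⟩ := tm_TRA A B h.ring N hN
      exact fun x _ => trb1 x _ h8
    -- the representatives
    have torR : ∀ q ∈ R, Tor P L q := fun q hq => (hTor q).1 (hR.mem q hq)
    have hRk : ∀ q ∈ R, InK V L (xu L u e) q ∧ xu L u e q ≠ 0 ∧
        V.valuation (xu L u e q) ^ 2 * V.valuation (3 : ℂ) = 1 := by
      intro q hq
      obtain ⟨k1, k2, k3⟩ := h4 A B P V h hT hG L u e lam hL hg q (torR q hq) (hR.ne q hq)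
      refine ⟨k1, k2, ?_⟩
      unfold su at k3
      rw [map_inv₀] at k3
      exact _root_.Pool.Agent.ME3.TPR.inv_pow_eq ((Valuation.ne_zero_iff _).2 k2) k3
    -- congruence of the points of `E[P]`
    have cong : ∀ q q', Tor P L q → Tor P L q' → q ∉ L.lattice → q' ∉ L.lattice →
        q' - q ∈ L.lattice ∨ q' + q ∈ L.lattice := by
      intro q q' hq hq' hqL hqL'
      obtain ⟨x, hx⟩ := (tm_TRB A B h.ring L hL).2 P hPbot h.max q q' hq hq' hqL
      by_cases hxP : x ∈ P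
      · exfalso
        apply hqL'
        have := add_mem hx (hq x hxP)
        rwa [sub_add_cancel] at this
      · rcases h.pm x hxP with h8 | h8
        · left
          have h9 := add_mem hx (hq _ h8)
          rw [← hφ (x - 1), map_sub, map_one, hφ] at h9
          convert h9 using 1
          ring
        · right
          have h9 := add_mem hx (hq _ h8)
          rw [← hφ (x + 1), map_add, map_one, hφ] at h9
          convert h9 using 1
          ring
    obtain ⟨q0', hq0', hq0L'⟩ : ∃ q, Tor P L q ∧ q ∉ L.lattice := by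
      obtain ⟨q, k1, k2⟩ := (tm_TRB A B h.ring L hL).1 ⊤ P hPbot h.max.ne_top.lt_top
      exact ⟨q, k1, fun h8 => k2 fun x _ => tra1 x q h8⟩
    obtain ⟨q0, hq0R, -⟩ := hR.surj q0' ((hTor q0').2 hq0') hq0L'
    have hq0L := hR.ne q0 hq0R
    have hq0T := torR q0 hq0R
    have hpq : (3 : ℂ) * q0 ∈ L.lattice := by
      have := hq0T _ mem3
      rw [embn] at this
      exact_mod_cast this
    have hcard : R.card = 3 - 1 := by
      have hnT : Tor P L (-q0) := fun x hx => by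
        rw [mul_neg]
        exact neg_mem (hq0T x hx)
      have hnL : -q0 ∉ L.lattice := fun h8 => hq0L (by simpa using neg_mem h8)
      obtain ⟨q1, hq1R, hq1⟩ := hR.surj (-q0) ((hTor _).2 hnT) hnL
      have hne : q0 ≠ q1 := by
        rintro rfl
        apply hq0L
        have h8 := add_mem hq1 hpq
        convert h8 using 1
        ring
      have : R = {q0, q1} := by
        ext q
        rw [Finset.mem_insert, Finset.mem_singleton]
        constructor
        · intro hq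
          rcases cong q0 q hq0T (torR q hq) hq0L (hR.ne q hq) with h8 | h8
          · exact Or.inl (hR.inj q hq q0 hq0R h8)
          · right
            apply hR.inj q hq q1 hq1R
            have h9 := add_mem h8 hq1
            convert h9 using 1
            ring
        · rintro (rfl | rfl)
          · exact hq0R
          · exact hq1R
      rw [this, Finset.card_pair hne]
    have hRT : ∀ q ∈ R, V.valuation (xu L u e q) = V.valuation (xu L u e q0) := by
      intro q hq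
      have h8 : V.valuation (xu L u e q) ^ 2 * V.valuation (3 : ℂ) =
          V.valuation (xu L u e q0) ^ 2 * V.valuation (3 : ℂ) := by
        rw [(hRk q hq).2.2, (hRk q0 hq0R).2.2]
      exact (pow_left_inj₀ zero_le zero_le two_ne_zero).1 (mul_right_cancel₀ hπ0 h8)
    -- the product formula
    have pf := h7 L N ν R hν hIsg hR w m1 z hzN
    have xd : ∀ a b : ℂ, L.weierstrassP a - L.weierstrassP b =
        u ^ 2 * (xu L u e a - xu L u e b) := by
      intro a b
      unfold xu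
      field_simp
      ring
    have xd' : ∀ a b : ℂ, N.weierstrassP a - N.weierstrassP b =
        u' ^ 2 * (xu N u' e' a - xu N u' e' b) := by
      intro a b
      unfold xu
      field_simp
      ring
    have pf' : (ν * u' / u) ^ 2 * (xu N u' e' (ν * z) - xu N u' e' (ν * w)) *
        ∏ q ∈ R, (xu L u e z - xu L u e q) =
        (xu L u e z - xu L u e w) * ∏ q ∈ R, (xu L u e z - xu L u e (w + q)) := by
      simp only [xd, xd', Finset.prod_mul_distrib, Finset.prod_const] at pf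
      have hu2 : u ^ 2 * (u ^ 2) ^ R.card ≠ 0 := by positivity
      apply mul_left_cancel₀ hu2
      have e1 : u ^ 2 * (ν * u' / u) ^ 2 = ν ^ 2 * u' ^ 2 := by
        field_simp
      linear_combination pf + ((u ^ 2) ^ R.card *
        (xu N u' e' (ν * z) - xu N u' e' (ν * w)) * ∏ q ∈ R, (xu L u e z - xu L u e q)) * e1
    have hm0 : V.valuation (ν * u' / u) ≠ 0 :=
      (Valuation.ne_zero_iff _).2 (div_ne_zero (mul_ne_zero hν hu') hu)
    have hm1 : V.valuation (ν * u' / u) < 1 := _root_.Pool.Agent.ME3.TPR.lt_one_of_sq hmu hv3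
    have hy0 : V.valuation (xu N u' e' (ν * z)) ≠ 0 := (Valuation.ne_zero_iff _).2 y2
    have hyk : V.valuation (xu N u' e' (ν * z)) ^ (2 * 3 ^ j) * V.valuation (3 : ℂ) = 1 := by
      unfold su at y3
      rw [map_inv₀] at y3
      exact _root_.Pool.Agent.ME3.TPR.inv_pow_eq hy0 y3
    obtain ⟨X1, X2⟩ := TP.num V.valuation 3 (3 ^ j) (by norm_num) (by positivity) R hcard
      (ν * u' / u) (xu N u' e' (ν * z)) (xu N u' e' (ν * w)) (xu L u e z) (xu L u e w)
      (fun q => xu L u e q) (fun q => xu L u e (w + q)) (V.valuation (xu L u e q0))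
      (V.valuation (ν * u' / u)) hm0 hm1 rfl
      (by rw [hmu, mul_comm]; exact (hRk q0 hq0R).2.2)
      (_root_.Pool.Agent.ME3.TPR.one_lt_of (hRk q0 hq0R).2.2 hv3) hRT
      (fun q hqR => (Pool.Agent.MUXV.int_X (fun hin => i1 (by
        have := Pool.Agent.MUXV.inK_sub G hin (hRk q hqR).1
        rwa [add_sub_cancel_right] at this))).2)
      (Pool.Agent.MUXV.int_X i1).2 (Pool.Agent.MUXV.int_X i1').2
      (_root_.Pool.Agent.ME3.TPR.one_lt_of hyk hv3) (by rw [hmu, mul_comm]; exact hyk) pf'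
    have hx0 : xu L u e z ≠ 0 := by
      intro h0
      rw [h0, map_zero] at X1
      exact absurd X1 (not_lt.2 zero_le)
    refine ⟨Or.inr fun hin => ?_, hx0, ?_⟩
    · exact absurd X1 (not_lt.2 ((V.valuation_le_one_iff _).2 hin))
    · calc V.valuation (su L u e z) ^ (2 * 3 ^ (j + 1))
          = (V.valuation (su L u e z) ^ 3) ^ (2 * 3 ^ j) := by
            rw [← pow_mul]
            congr 1
            ring
        _ = V.valuation (su N u' e' (ν * z)) ^ (2 * 3 ^ j) := by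
            unfold su
            rw [map_inv₀, map_inv₀, inv_pow, X2]
        _ = V.valuation (3 : ℂ) := y3

end

end Pool.Agent.ME3


end

section

/-!
# MUX-NS, block ER, module EXO: exact orders of the points of level `m = 3^(n+1) f`
-/

set_option autoImplicit false

namespace Pool.Agent.ME3

open _root_.MU3 _root_.Pool.Agent.MU3A _root_.Pool.Agent.MU3B _root_.Pool.Agent.MUX _root_.Pool.Agent.MUXU _root_.Pool.Agent.MUXE
open _root_.Pool.Agent.RI _root_.Pool.Agent.NS _root_.Pool.Agent.NSRD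
open _root_.Pool.Agent.ME hiding ActE
open _root_.Pool.Agent.MEE
open _root_.Pool.Agent.NSER (PtsR Ex Sf_ALG Sf_PRO Sf_PUL Sf_COE Sf_GRN Sf_LEG Sf_TW3 Sf_PTS Sf_TNC Sf_UNT Sf_RAT Sf_ISO Sf_ADD Sf_THN Sf_NE1 Sf_ORB)

noncomputable section

private lemma exo_inj_MEE3_EXO {A B : ℤ} (hR : RingE A B) (x y : OO A B) (h : emb x = emb y) : x = y := by
  obtain ⟨φ, hφ⟩ := hR.hom
  have h1 : emb (x - y) = 0 := by
    rw [← hφ, map_sub, hφ, hφ, h, sub_self]
  exact sub_eq_zero.1 (hR.inj0 _ h1)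

private lemma exo_nI_MEE3_EXO {A B : ℤ} (hR : RingE A B) (b : Ideal (OO A B)) (hb : b ≠ ⊥) :
    nI b ≠ 0 ∧ ((nI b : ℕ) : OO A B) ∈ b := by
  have := hR.ded
  refine ⟨?_, ?_⟩
  · change Ideal.absNorm b ≠ 0
    rw [Ne, Ideal.absNorm_eq_zero_iff]
    exact hb
  · change ((Ideal.absNorm b : ℕ) : OO A B) ∈ b
    exact Ideal.absNorm_mem b

private lemma exo_nat_MEE3_EXO {A B : ℤ} (m k : ℕ) (h : ((m : ℕ) : OO A B) ∣ ((k : ℕ) : OO A B)) :
    m ∣ k := by
  obtain ⟨z, hz⟩ := h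
  have h5 : (k : ℤ) = (m : ℤ) * z.re := by
    have := congrArg QuadraticAlgebra.re hz
    simpa using this
  exact Int.natCast_dvd_natCast.1 ⟨z.re, h5⟩

theorem t3_EXO (hI : S3_IDL) : S3_EXO := by
  intro A B P V hC n f ι R hf i x hx
  have hR := hC.ring
  obtain ⟨φ, hφ⟩ := hR.hom
  obtain ⟨h3P, -, -, -, hI2⟩ := hI A B P V hC
  obtain ⟨-, hlv, -⟩ := hI2 f n hf
  set m : ℕ := 3 ^ (n + 1) * f with hm
  have hm0 : m ≠ 0 := by
    rw [hm]
    exact mul_ne_zero (pow_ne_zero _ (by norm_num)) hf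
  have hmC : (m : ℂ) ≠ 0 := by exact_mod_cast hm0
  have hnl := R.nl i
  have hnl0 := R.nl R.i0
  obtain ⟨hN0, hNb⟩ := exo_nI_MEE3_EXO hR (R.b i) hnl.b_ne
  have hNC : ((nI (R.b i) : ℕ) : ℂ) ≠ 0 := by exact_mod_cast hN0
  have hom : R.om i ≠ 0 := hnl.om_ne
  have hom0 : R.om R.i0 ≠ 0 := hnl0.om_ne
  have heN : ∀ k : ℕ, emb ((k : ℕ) : OO A B) = (k : ℂ) := fun k => by rw [← hφ, map_natCast]
  have hem : ∀ x y : OO A B, emb (x * y) = emb x * emb y := fun x y => by
    rw [← hφ, ← hφ, ← hφ, map_mul]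
  have hLi := hnl.mem
  have hcop : (nI (R.b i)).Coprime m := by
    have h1 := R.cop i
    rw [hm]
    exact Nat.Coprime.mul_right (Nat.Coprime.pow_right _ (Nat.Coprime.coprime_mul_right_right h1))
      (Nat.Coprime.coprime_mul_left_right h1)
  obtain ⟨s, t, hst⟩ := Nat.isCoprime_iff_coprime.2 hcop
  have h2 : (s : OO A B) * ((nI (R.b i) : ℕ) : OO A B) + (t : OO A B) * (m : ℕ) = 1 := by
    have := congrArg (fun k : ℤ => (k : OO A B)) hst
    push_cast at this
    exact this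
  have hEx : Ex (idl (A := A) (B := B) m) (R.L i) (ptE R m i x) := by
    intro c
    rw [hLi, Ideal.mem_span_singleton]
    constructor
    · rintro ⟨y, -, hy⟩
      have h1 : ((nI (R.b i) : ℕ) : OO A B) * (c * x) = (m : ℕ) * y := by
        apply exo_inj_MEE3_EXO hR
        rw [hem, hem, hem, heN, heN]
        unfold ptE at hy
        field_simp at hy
        linear_combination hy
      have h3 : ((m : ℕ) : OO A B) ∣ x * c := by
        refine ⟨(s : OO A B) * y + (t : OO A B) * c * x, ?_⟩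
        linear_combination (-(x * c)) * h2 + (s : OO A B) * h1
      exact hx.symm.dvd_of_dvd_mul_left h3
    · rintro ⟨y, rfl⟩
      refine ⟨(nI (R.b i) : ℕ) * (y * x), (R.b i).mul_mem_right _ hNb, ?_⟩
      rw [hem, hem, hem, heN, heN]
      unfold ptE
      field_simp
  refine ⟨hEx, ?_, ?_, ?_⟩
  · rintro N nu ⟨-, hQ⟩ c
    rw [hlv c, ← mul_assoc, mul_comm (emb c) nu, mul_assoc, hQ]
    refine forall₂_congr fun p _ => ?_
    rw [← mul_assoc, ← hem]
    exact hEx (p * c)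
  · intro q hq l
    have h3q : (3 : ℂ) * q ∈ (R.L i).lattice := by
      have h1 := hq 3 h3P
      have h4 : emb (3 : OO A B) = (3 : ℂ) := by rw [← hφ, map_ofNat]
      rwa [h4] at h1
    have hnat : ∀ (k : ℕ) (u : ℂ), u ∈ (R.L i).lattice → (k : ℂ) * u ∈ (R.L i).lattice := by
      intro k u hu
      have := (R.L i).lattice.smul_mem (k : ℤ) hu
      simpa using this
    constructor
    · have h1 : ((m : ℕ) : ℂ) * ptE R m i x ∈ (R.L i).lattice := by
        rw [← heN]
        exact (hEx _).2 (Ideal.mem_span_singleton_self _)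
      have h4 := hnat (3 ^ n * f * l) _ h3q
      have h5 : ((m : ℕ) : ℂ) * (ptE R m i x + l * q) =
          ((m : ℕ) : ℂ) * ptE R m i x + ((3 ^ n * f * l : ℕ) : ℂ) * (3 * q) := by
        rw [hm]
        push_cast
        ring
      rw [h5]
      exact add_mem h1 h4
    · intro c hc
      have h1 : emb (((3 * c : ℕ)) : OO A B) * ptE R m i x ∈ (R.L i).lattice := by
        rw [heN]
        have h4 := hnat 3 _ hc
        have h5 := hnat (c * l) _ h3q
        have h6 : ((3 * c : ℕ) : ℂ) * ptE R m i x =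
            ((3 : ℕ) : ℂ) * ((c : ℂ) * (ptE R m i x + l * q)) - ((c * l : ℕ) : ℂ) * (3 * q) := by
          push_cast
          ring
        rw [h6]
        exact sub_mem h4 h5
      have h4 := exo_nat_MEE3_EXO _ _ (Ideal.mem_span_singleton.1 ((hEx _).1 h1))
      have h5 : 3 * (3 ^ n * f) ∣ 3 * c := by
        have h6 : m = 3 * (3 ^ n * f) := by rw [hm, pow_succ]; ring
        rwa [← h6]
      exact (Dvd.intro_left _ rfl).trans (Nat.dvd_of_mul_dvd_mul_left (by norm_num) h5)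
  · intro nu nu0 hnu0
    unfold ptE muXE
    field_simp

end

end Pool.Agent.ME3


end

section

/-! # Block E for `D = -3`, assembled (helper86)

`StE3.lean` states Lemma E at `3` for the exceptional field `ℚ(√-3)`; the files `E3_*.lean` prove
the statements. This file puts them together: `e3_X : S3_X`, without hypotheses; the last one,
`efin3`, derives `S3_EFIN` from `S3_RFIN`. -/

set_option autoImplicit false

namespace Pool.Agent.ME3

open _root_.Pool.Agent.NSER _root_.Pool.Agent.MUXU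

theorem e3_CTX : S3_CTX := t3_CTX
theorem e3_DIS : S3_DIS := t3_DIS u_PFI
theorem e3_IDL : S3_IDL := t3_IDL
theorem e3_MUL : S3_MUL := t3_MUL
theorem e3_RP1 : S3_RP1 := t3_RP1 f_LEG
theorem e3_STB : S3_STB := t3_STB e3_IDL
theorem e3_UNR : S3_UNR := t3_UNR
theorem e3_BPW : S3_BPW := t3_BPW e3_IDL
theorem e3_DEG : S3_DEG := t3_DEG e3_IDL
theorem e3_EXO : S3_EXO := t3_EXO e3_IDL
theorem e3_RPV : S3_RPV := t3_RPV f_COE f_TW3 e3_UNR e3_RP1
theorem e3_PIS : S3_PIS := t3_PIS f_GRN f_TNC e3_RPV u_BAC u_PFI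
theorem e3_TPR : S3_TPR := t3_TPR f_GRN f_TNC e3_RPV e3_PIS u_BAC u_PFI
theorem e3_UNI : S3_UNI := t3_UNI f_GRN f_TNC e3_TPR e3_UNR e3_DEG e3_RP1 e3_IDL
theorem e3_INN : S3_INN := t3_INN f_THN f_NE1 e3_EXO e3_MUL e3_PIS e3_DIS e3_UNR e3_RP1
theorem e3_SIG : S3_SIG := t3_SIG f_ALG f_PRO f_PTS f_ADD e3_UNI e3_RP1 e3_IDL
theorem e3_ONE : S3_ONE :=
  t3_ONE f_ALG f_PRO f_PTS f_THN e3_SIG f_NE1 e3_MUL e3_EXO e3_IDL e3_DIS e3_PIS e3_INN
theorem e3_MAIN : S3_MAIN := t3_MAIN e3_ONE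
theorem e3_RED : S3_RED := t3_RED e3_MAIN e3_INN f_ORB e3_STB e3_EXO e3_IDL
theorem e3_FIN : S3_FIN := t3_FIN e3_CTX e3_RED

/-- the function `E` of the exceptional field `ℚ(√-3)` at `3` -/
theorem efin3 : S3_RFIN → S3_EFIN := fun hR A B P V f hS hf hT ι _ R u e lam hG w hw n hn H hH
  D h hD _ => e3_FIN hR A B P V f hS hf hT ι R u e lam hG w hw n hn H hH D h hD

/-- the stronger form, without hypotheses -/
theorem efin3' : S3_EFI2 := e3_FIN Pool.Agent.MER.s3_rfin

end Pool.Agent.ME3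


end

section

/-!
# ME: the final theorem for `D = -3`, `p = 3` (helper87). Model: `NS/ZRam3.lean`
-/

set_option autoImplicit false

open NumberField IsDedekindDomain

namespace Pool.Agent.MEZ

open _root_.MU3 _root_.Pool.Agent.MU3 _root_.Pool.Agent.MU3A _root_.Pool.Agent.MU3B _root_.Pool.Agent.RI _root_.Pool.Agent.RID
  _root_.Pool.Agent.MUX _root_.Pool.Agent.ME _root_.Pool.Agent.MUXK _root_.Pool.Agent.MUXJ _root_.Pool.Agent.MUXW _root_.Pool.Agent.MUXZ
  _root_.Pool.Agent.NSI _root_.Pool.Agent.NSZ _root_.Pool.Agent.NS _root_.Pool.Agent.MU3Z _root_.Pool.Agent.NSRD _root_.Pool.Agent.NSIR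

/-- existence of `P` and `V` -/
theorem vex3 (A B : ℤ) (h : CaseE3 A B) : ∃ (P : Ideal (OO A B)) (V : ValuationSubring ℂ),
    IsPN 3 P ∧ OverI V P ∧ (3 : ℂ) ∈ V.nonunits := by
  haveI : Fact (Nat.Prime 3) := ⟨Nat.prime_three⟩
  have h3 : (3 : ℤ) ∣ B ^ 2 + 4 * A := by
    rw [h.hA, h.eB]
    norm_num
  let ψ := psiR A B h3
  have hsurj : Function.Surjective ψ := ZMod.ringHom_surjective ψ
  have hmax : (RingHom.ker ψ).IsMaximal := RingHom.ker_isMaximal_of_surjective ψ hsurj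
  have hP : IsPN 3 (RingHom.ker ψ) := by
    refine ⟨hmax.isPrime, ?_, ?_⟩
    · rw [RingHom.mem_ker, map_natCast]
      rfl
    · unfold MUX.nI
      rw [Nat.card_congr (RingHom.quotientKerEquivOfSurjective hsurj).toEquiv, Nat.card_zmod]
  obtain ⟨V, hV, hpV⟩ := vex_gen 3 A B h.toCQ _ hP.mem hmax
  exact ⟨_, V, hP, hV, by exact_mod_cast hpV⟩

/-- `RFE ⊤ = k` -/
theorem rfe_top {A B : ℤ} (h : CQ A B) {σ : ℂ ≃+* ℂ} (hσ : FixK A B σ) :
    ∀ y ∈ RFE (⊤ : Ideal (OO A B)), σ y = y := by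
  have hfix := CXW.fixk hσ
  intro y hy
  induction hy using IntermediateField.adjoin_induction with
  | mem x hx =>
    obtain ⟨b, L, om, hL, hx | ⟨z, hz, hz', hx⟩⟩ := hx
    · rw [hx]
      exact hL.nrm.fixk σ
    · exfalso
      apply hz'
      have h1 := hz 1 trivial
      rwa [MUX.emb_one h, one_mul] at h1
  | algebraMap x => exact hfix _ x.2
  | add x y _ _ hx hy => rw [map_add, hx, hy]
  | inv x _ hx => rw [map_inv₀, hx]
  | mul x y _ _ hx hy => rw [map_mul, hx, hy]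

theorem unrE {A B : ℤ} (h : CQ A B) (V : ValuationSubring ℂ) : UnrH_E A B V :=
  fun _ hσ _ => rfe_top h hσ

theorem s3_INW (h : Pool.Agent.NSZ.Zl_INW_E) : S3_INW := by
  intro A B f hL hE hf2 T ι _ R H θ hθ K₀ K Bn _ _ _ hX hKF hHK hk hk₀
  have h2 : 2 ∣ lvX 3 f 0 := by
    unfold lvX
    exact (hf2.mul_right _).mul_right _
  exact h 3 A B f hL hE h2 T ι R H θ hθ K₀ K Bn hX hKF hHK hk hk₀

theorem nSUB_E : Sn_SUB_E :=
  tn_SUB_E Pool.Agent.MUXI.i_LAY Pool.Agent.MUXI.ti_IAF_E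

/-- the inputs of block J, from `Sp_INP_E` and `Sp_SUB_E` of block IR -/
theorem inpg3 (hINP : Sp_INP_E) (hSUR : Sp_SUB_E) : S3_INPG :=
  t3_INPG Pool.Agent.MUXI.i_LAY Pool.Agent.MER.s3_rfin
    (Pool.Agent.ME3.efin3 Pool.Agent.MER.s3_rfin) hINP hSUR Pool.Agent.NSZ.tl_LVX
    (s3_INW (Pool.Agent.NSZ.l_INW_E nSUB_E)) nSUB_E (Pool.Agent.MUXZ.tz_THN_E y_THG_E) y_MEM
    y_CXW_E

/-- THE MAIN THEOREM, `D = -3`, `p = 3` -/
theorem z_main33 (hIN : S3_INPG) (A B : ℤ) (hC : CaseE3 A B)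
    (F M K : IntermediateField ℚ ℂ) [FiniteDimensional ℚ M] (hF : kk A B ≤ F) (h : F ≤ M)
    (a : ℕ) (hT : TorU_E A B F) (hGal : IsGalois F (IntermediateField.extendScalars h))
    (ha : Module.finrank F (IntermediateField.extendScalars h) = 3 ^ a) (hK : K ≤ M) :
    ∃ C : ℕ, ∀ (n : ℕ) (Q : IntermediateField ℚ ℂ), IsLayer 3 n Q →
      padicValNat 3 (classNo (K ⊔ Q)) ≤ C * (n + 1) ^ C := by
  have : Fact (Nat.Prime 3) := ⟨Nat.prime_three⟩
  have hCQ : MUX.CQ A B := hC.toCQ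
  obtain ⟨P, V, hP, hV, h3V⟩ := vex3 A B hC
  have hTor := MEC.c_TORE A B hC.toCaseE
  have hdom : IsDomain (OO A B) := (MUXE.te_RNG _ _ hCQ).ded.toIsDomain
  have hNL : NLex_E A B := by
    obtain ⟨L, om, hL⟩ := MEC.exists_isNE hC.toCaseE (⊤ : Ideal (OO A B)) bot_ne_top.symm
    exact ⟨⊤, L, om, hL⟩
  have hX : AboX 3 2 A B P V :=
    ⟨hCQ, Or.inr rfl, Or.inr rfl, fun h => by omega, hP.prime, hP.mem, fun h => by omega, hV,
      by exact_mod_cast h3V⟩
  exact j_FING_E 3 2 4 A B P V hX (by norm_num) (by norm_num)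
    (fun _ => by norm_num) (unrE hCQ V) hTor hNL (hIN A B P V hC hP hV hTor) F M K hF h a
    hT hGal ha hK

/-- every finite extension of `ℚ` inside `weberAll 3` -/
theorem final33 (hIN : S3_INPG)
    (K : IntermediateField ℚ ℂ) [FiniteDimensional ℚ K] (hK : K ≤ weberAll 3) :
    ∃ C : ℕ, ∀ (n : ℕ) (Q : IntermediateField ℚ ℂ), IsLayer 3 n Q →
      padicValNat 3 (classNo (K ⊔ Q)) ≤ C * (n + 1) ^ C := by
  have hE : CaseE (pA 3) (pB 3) := caseE_p (Or.inr rfl)
  have hC : CaseE3 (pA 3) (pB 3) := { hE with eB := by unfold pB; norm_num }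
  refine to_weberE (Or.inr rfl) (MEC.c_TORE _ _ hE) ?_ K hK
  intro F M K _ hF h a hT hGal ha hK
  exact z_main33 hIN _ _ hC F M K hF h a hT hGal ha hK

end Pool.Agent.MEZ


end
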