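import Mathlib
import Pool.Agent.MVF.C113
import Pool.Agent.MVF.C115
import Pool.Agent.MVF.C116

/-! Parts: ME.H_N, ME.H_QS, ME.H_Fin4 -/

section

/-!
# ME, block H, `D = -4` (helper58): the nebentypus, the projector, depletion (after helper6's `NS/H_Chn.lean`, `H_Prn.lean`, `H_Dep.lean`)
-/

set_option autoImplicit false

namespace Pool.Agent.MEH

open _root_.MU3 _root_.Pool.Agent.MU3A _root_.Pool.Agent.MU3B _root_.Pool.Agent.MU3F _root_.Pool.Agent.MUX _root_.Pool.Agent.MUXH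
  _root_.Pool.Agent.MUXHY _root_.Pool.Agent.MuSym _root_.Pool.Agent.NS _root_.Pool.Agent.ME OnePoint
open scoped ComplexConjugate

noncomputable section

variable {A B : ℤ}

lemma three4 {V : ValuationSubring ℂ} {f : ℕ} (h : SetE4 A B V f) :
    (3 : ℤ) ∣ B ^ 2 + 4 * A + 1 := by
  rw [h.hB, h.case.hA]
  norm_num


/-- elementary facts -/
theorem val4 {V : ValuationSubring ℂ} {f : ℕ} (H : SetE4 A B V f) :
    V.valuation (3 : ℂ) < 1 ∧ (∀ n : ℤ, V.valuation (n : ℂ) ≤ 1) ∧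
    (∀ n : ℤ, ¬ (3 : ℤ) ∣ n → V.valuation (n : ℂ) = 1) ∧
    (∀ (r : ℕ) (z : ℂ), r ≠ 0 → z ^ r = 1 → V.valuation z = 1) ∧
    0 < absD A B ∧ ¬ (3 : ℤ) ∣ absD A B ∧
    idl (A := A) (B := B) (3 * f) ≤ sp ((absD A B : ℤ) : OO A B) ∧
    idl (A := A) (B := B) (3 * f) ≠ ⊥ ∧ idl (A := A) (B := B) (3 * f) ≠ ⊤ ∧
    ((3 * f : ℕ) : OO A B) ∈ idl (A := A) (B := B) (3 * f) := by
  have h3 : V.valuation (3 : ℂ) < 1 := by
    have h1 : emb ((3 : ℕ) : OO A B) ∈ V.nonunits :=
      (H.hV _).2 (Ideal.mem_span_singleton_self _)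
    have h2 : emb ((3 : ℕ) : OO A B) = 3 := by
      unfold emb
      rw [QuadraticAlgebra.re_natCast, QuadraticAlgebra.im_natCast]
      norm_num
    rw [h2, ValuationSubring.mem_nonunits_iff] at h1
    exact h1
  have hle : ∀ z : ℤ, V.valuation (z : ℂ) ≤ 1 := fun z =>
    (V.valuation_le_one_iff _).2 (intCast_mem V z)
  have hD0 : 0 < absD A B := by
    have := H.case.neg
    unfold absD
    omega
  have h3f : ((3 * f : ℕ) : OO A B) ∈ idl (A := A) (B := B) (3 * f) :=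
    Ideal.mem_span_singleton_self _
  have hf0 := H.f0
  refine ⟨h3, hle, ?_, ?_, hD0, ?_, ?_, ?_, ?_, h3f⟩
  · intro n hn
    have hc : IsCoprime n 3 := by
      rw [isCoprime_comm]
      exact (Int.prime_three.coprime_iff_not_dvd).2 hn
    obtain ⟨a, b, hab⟩ := hc
    by_contra hne
    have hlt : V.valuation (n : ℂ) < 1 := lt_of_le_of_ne (hle n) hne
    have h1 : V.valuation ((a : ℂ) * n + b * 3) < 1 := by
      refine lt_of_le_of_lt (V.valuation.map_add _ _) (max_lt ?_ ?_)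
      · rw [map_mul]
        exact mul_lt_one_of_nonneg_of_lt_one_right (hle a) zero_le hlt
      · rw [map_mul]
        exact mul_lt_one_of_nonneg_of_lt_one_right (hle b) zero_le h3
    have h2 : (a : ℂ) * n + b * 3 = 1 := by exact_mod_cast hab
    rw [h2, map_one] at h1
    exact lt_irrefl _ h1
  · intro r z hr hz
    have h1 : V.valuation z ^ r = 1 := by rw [← map_pow, hz, map_one]
    exact (pow_eq_one_iff_of_nonneg zero_le hr).1 h1
  · have := three4 H
    unfold absD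
    omega
  · rw [Ideal.span_singleton_le_iff_mem, Ideal.mem_span_singleton]
    obtain ⟨t, ht⟩ := H.fD
    refine ⟨(3 * 2 * t : ℤ), ?_⟩
    have h1 : ((3 * f : ℕ) : OO A B) = ((3 * (f : ℤ) : ℤ) : OO A B) := by push_cast; rfl
    rw [h1, ht]
    push_cast
    ring
  · intro h
    rw [h, Ideal.mem_bot] at h3f
    have h1 := congrArg QuadraticAlgebra.re h3f
    simp only [QuadraticAlgebra.re_natCast, QuadraticAlgebra.re_zero] at h1
    have h2 : (3 * f : ℕ) = 0 := by exact_mod_cast h1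
    omega
  · intro h
    rw [Ideal.eq_top_iff_one, Ideal.mem_span_singleton] at h
    obtain ⟨y, hy⟩ := h
    have h1 := congrArg QuadraticAlgebra.re hy
    rw [QuadraticAlgebra.re_one, QuadraticAlgebra.re_mul, QuadraticAlgebra.re_natCast,
      QuadraticAlgebra.im_natCast, mul_zero, zero_mul, add_zero] at h1
    have h9 : ((3 * f : ℕ) : ℤ) ∣ 1 := ⟨y.re, h1⟩
    have h10 := Int.le_of_dvd one_pos h9
    have : 0 < f := Nat.pos_of_ne_zero hf0
    omega

theorem chr4 (h4 : MUXF.Sx_CHI) {V : ValuationSubring ℂ} {f : ℕ} (H : SetE4 A B V f)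
    {e : OO A B → ℂ} (he : IsEI (idl (A := A) (B := B) (3 * f)) e) {r : ℕ} (hr0 : r ≠ 0)
    (hr : ∀ x, e x ≠ 0 → e x ^ r = 1) :
    nuX e 1 = 1 ∧ (∀ d d', nuX e (d * d') = nuX e d * nuX e d') ∧
    (∀ d d' : ℤ, ((3 * N0X A B f : ℕ) : ℤ) ∣ d - d' → nuX e d = nuX e d') ∧
    (∀ d, V.valuation (nuX e d) ≤ 1) := by
  obtain ⟨-, vZ, -, vru, hDpos, -, hgD, hg0, -, hpf⟩ := val4 H
  have hcq : CQ A B := H.case.toCQ
  have ev : ∀ x, V.valuation (e x) ≤ 1 := by
    intro x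
    by_cases hx : e x = 0
    · rw [hx, map_zero]
      exact zero_le_one
    · exact (vru r (e x) hr0 (hr x hx)).le
  have hcopD : ∀ d : ℤ, e (d : OO A B) ≠ 0 → IsCoprime d (absD A B) := by
    intro d hd
    have h5 := (he.supp _).1 hd
    apply Chr.coprime_int (A := A) (B := B)
    rw [← Ideal.isCoprime_span_singleton_iff]
    rw [Ideal.isCoprime_iff_sup_eq] at h5 ⊢
    exact top_le_iff.1 (h5 ▸ sup_le_sup_left hgD _)
  refine ⟨?_, ?_, ?_, ?_⟩
  · unfold nuX
    have : ((1 : ℤ) : OO A B) = 1 := by push_cast; rfl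
    rw [Chr.chiX_one, this, he.one]
    norm_num
  · intro d d'
    unfold nuX
    have : ((d * d' : ℤ) : OO A B) = (d : OO A B) * (d' : OO A B) := by push_cast; rfl
    rw [Chr.chiX_mul, this, he.mul]
    push_cast
    ring
  · intro d d' hd
    have hDnat : (((absD A B).toNat : ℕ) : ℤ) = absD A B := Int.toNat_of_nonneg hDpos.le
    have hd2 : (3 : ℤ) * (absD A B * (f : ℤ) ^ 2) ∣ d - d' := by
      have h5 : ((3 * N0X A B f : ℕ) : ℤ) = (3 : ℤ) * (absD A B * (f : ℤ) ^ 2) := by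
        unfold N0X
        push_cast
        rw [hDnat]
      rwa [h5] at hd
    obtain ⟨t, ht⟩ := hd2
    have hD : absD A B ∣ d - d' := ⟨(3 : ℤ) * (f : ℤ) ^ 2 * t, by rw [ht]; ring⟩
    unfold nuX
    by_cases hcop : IsCoprime d (absD A B)
    · have h5 : chiX A B d' = chiX A B d := ((h4 A B (toCQ hcq) d hcop).2.2 d' hD)
      have h6 : e (d : OO A B) = e (d' : OO A B) := by
        apply he.per
        have h7 : (d : OO A B) - (d' : OO A B) =
            (((absD A B * f * t : ℤ)) : OO A B) * ((3 * f : ℕ) : OO A B) := by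
          have h8 : (d : OO A B) - (d' : OO A B) = ((d - d' : ℤ) : OO A B) := by push_cast; rfl
          rw [h8, ht]
          push_cast
          ring
        rw [h7]
        exact Ideal.mul_mem_left _ _ hpf
      rw [h5, h6]
    · have h5 : e (d : OO A B) = 0 := by
        by_contra hne
        exact hcop (hcopD d hne)
      have h6 : e (d' : OO A B) = 0 := by
        by_contra hne
        apply hcop
        obtain ⟨s, hs⟩ := hD
        have h7 : d = d' + absD A B * s := by linarith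
        rw [h7]
        exact (IsCoprime.add_mul_left_left_iff).2 (hcopD d' hne)
      rw [h5, h6, mul_zero, mul_zero]
  · intro d
    unfold nuX
    rw [map_mul]
    exact mul_le_one' (vZ _) (ev _)


lemma sgn_PKE {n : ℕ} {ι : Type} [Fintype ι] (R : RepsE A B n ι) (e : OO A B → ℂ) (kk : ι → ℂ)
    (Z s : ℂ) (x y : OnePoint ℚ) :
    sgnPart s (fun x y => PhiKE R e kk x y / Z) x y =
      (∑ c, kk c * sgnPart s (PhiI (R.b c) e) x y) / Z := by
  unfold sgnPart PhiKE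
  rw [← mul_div_assoc, ← add_div, Finset.mul_sum, ← Finset.sum_add_distrib]
  congr 1
  refine Finset.sum_congr rfl fun c _ => ?_
  ring

/-- the projector -/
theorem prj4 (h3 : MUXF.Sx_PHX) (h4 : MUXF.Sx_PRJ) {V : ValuationSubring ℂ} {f : ℕ}
    (hS : SetE4 A B V f) {n : ℕ} {ι : Type} [Fintype ι] (R : RepsE A B n ι) {e : OO A B → ℂ}
    (he : IsEI (idl (A := A) (B := B) (3 * f)) e) (kk : ι → ℂ) (Z s : ℂ) :
    ∃ (q : ℕ) (c : ℕ → ℂ), q ≠ 0 ∧ (∀ t, V.valuation (c t) ≤ 1) ∧ ∀ x y : OnePoint ℚ,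
      ∑ t ∈ Finset.range q, c t * sgnPart s (fun x y => PhiKE R e kk x y / Z) (mob q t 0 q x)
        (mob q t 0 q y) = PhiKE R e kk x y / Z := by
  obtain ⟨-, -, hv1, hr, hD, hD3, hgD, hg, -, -⟩ := val4 hS
  obtain ⟨φ, hφ, hper, hφ2⟩ := h3 A B (toCQ hS.case.toCQ)
  have hqD : (((absD A B).toNat : ℕ) : ℤ) = absD A B := Int.toNat_of_nonneg hD.le
  have hq : (absD A B).toNat ≠ 0 := by omega
  have hv : V.valuation (((absD A B).toNat : ℕ) : ℂ) = 1 := by
    have h5 : (((absD A B).toNat : ℕ) : ℂ) = ((absD A B : ℤ) : ℂ) := by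
      rw [← Int.cast_natCast (R := ℂ) (absD A B).toNat, hqD]
    rw [h5]
    exact hv1 _ hD3
  refine ⟨(absD A B).toNat, fun t => (1 / ((absD A B).toNat : ℂ)) *
    ∑ n ∈ Finset.range (absD A B).toNat, φ n * ex (-(t * n) / (absD A B).toNat), hq,
    fun t => Prx.val_le V hr _ hq hv φ hφ t, fun x y => ?_⟩
  have key : ∀ c, ∑ t ∈ Finset.range (absD A B).toNat, ((1 / ((absD A B).toNat : ℂ)) *
      ∑ n ∈ Finset.range (absD A B).toNat, φ n * ex (-(t * n) / (absD A B).toNat)) *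
      sgnPart s (PhiI (R.b c) e) (mob (absD A B).toNat t 0 (absD A B).toNat x)
        (mob (absD A B).toNat t 0 (absD A B).toNat y) = PhiI (R.b c) e x y := by
    intro c
    exact h4 A B (toCQ hS.case.toCQ) (R.b c) _ e (R.nl c).b_ne hg (toEI he) _ φ hq
      (fun n => by rw [hqD]; exact hper n)
      (hφ2 (R.b c) _ e (R.nl c).b_ne (toEI he) hgD) s x y
  simp only [sgn_PKE]
  simp only [← mul_div_assoc]
  rw [← Finset.sum_div]
  congr 1
  simp only [Finset.mul_sum (s := (Finset.univ : Finset ι))]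
  rw [Finset.sum_comm]
  unfold PhiKE
  refine Finset.sum_congr rfl fun c _ => ?_
  rw [← key c, Finset.mul_sum]
  refine Finset.sum_congr rfl fun t _ => ?_
  ring

/-- for `3` inert, `e x = 0` if `3` divides the exponent -/
theorem e_zero4 (hQB : MUXF.Sx_QB) {V : ValuationSubring ℂ} {f : ℕ} (hS : SetE4 A B V f)
    {e : OO A B → ℂ} (he : IsEI (idl (A := A) (B := B) (3 * f)) e) {b : Ideal (OO A B)}
    (hb : b ≠ ⊥) {x : OO A B} (hx : x ∈ b) (h3 : (3 : ℤ) ∣ MUXF.qb b x) : e x = 0 := by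
  obtain ⟨h1, -⟩ := (hQB A B (toCQ hS.case.toCQ) b hb).1 x hx
  have h2 : (3 : ℤ) ∣ nm x := by rw [h1]; exact Dvd.dvd.mul_left h3 _
  have h4 : (3 : ℤ) ∣ x.re ∧ (3 : ℤ) ∣ x.im := by
    have h5 := three4 hS
    unfold nm at h2
    rcases hS.case.hB with hB | hB
    · subst hB
      obtain ⟨k, hk⟩ := h5
      obtain ⟨l, hl⟩ := h2
      have hA : A = 2 + 3 * (k - A - 1) := by linarith
      have h6 : (3 : ℤ) ∣ x.re ^ 2 + x.im ^ 2 := by
        refine ⟨l + (k - A) * x.im ^ 2, ?_⟩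
        linear_combination hl + x.im ^ 2 * hk
      have e1 : x.re % 3 = 0 ∨ x.re % 3 = 1 ∨ x.re % 3 = 2 := by omega
      have e2 : x.im % 3 = 0 ∨ x.im % 3 = 1 ∨ x.im % 3 = 2 := by omega
      rw [Int.dvd_iff_emod_eq_zero, Int.add_emod, pow_two, pow_two, Int.mul_emod,
        Int.mul_emod x.im] at h6
      rcases e1 with e1 | e1 | e1 <;> rcases e2 with e2 | e2 | e2 <;>
        rw [e1, e2] at h6 <;> omega
    · subst hB
      obtain ⟨k, hk⟩ := h5
      obtain ⟨l, hl⟩ := h2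
      have hA : A - 1 = 3 * (k - A - 1) := by linarith
      have h6 : (3 : ℤ) ∣ x.re ^ 2 + x.re * x.im + 2 * x.im ^ 2 := by
        refine ⟨l + (k - A) * x.im ^ 2, ?_⟩
        linear_combination hl + x.im ^ 2 * hA
      have e1 : x.re % 3 = 0 ∨ x.re % 3 = 1 ∨ x.re % 3 = 2 := by omega
      have e2 : x.im % 3 = 0 ∨ x.im % 3 = 1 ∨ x.im % 3 = 2 := by omega
      rw [Int.dvd_iff_emod_eq_zero, Int.add_emod, Int.add_emod (x.re ^ 2), Int.mul_emod 2, pow_two,
        pow_two, Int.mul_emod, Int.mul_emod x.re x.im, Int.mul_emod x.im x.im] at h6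
      rcases e1 with e1 | e1 | e1 <;> rcases e2 with e2 | e2 | e2 <;>
        rw [e1, e2] at h6 <;> omega
  by_contra hne
  have h5 := (he.supp _).1 hne
  obtain ⟨⟨s, hs⟩, ⟨t, ht⟩⟩ := h4
  have h6 : x = ((3 : ℕ) : OO A B) * ⟨s, t⟩ := by
    ext
    · rw [QuadraticAlgebra.re_mul, QuadraticAlgebra.re_natCast, QuadraticAlgebra.im_natCast, hs]
      push_cast
      ring
    · rw [QuadraticAlgebra.im_mul, QuadraticAlgebra.re_natCast, QuadraticAlgebra.im_natCast, ht]
      push_cast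
      ring
  obtain ⟨i, hi, j, hj, hij⟩ := (Ideal.isCoprime_iff_exists).1 h5
  rw [Ideal.mem_span_singleton] at hi hj
  obtain ⟨i', hi'⟩ := hi
  obtain ⟨j', hj'⟩ := hj
  have h7 : ((3 : ℕ) : OO A B) * (⟨s, t⟩ * i' + ((f : ℕ) : OO A B) * j') = 1 := by
    rw [← hij, hi', hj']
    conv_rhs => rw [h6]
    push_cast
    ring
  have h8 := congrArg QuadraticAlgebra.re h7
  rw [QuadraticAlgebra.re_mul, QuadraticAlgebra.re_natCast, QuadraticAlgebra.im_natCast,
    QuadraticAlgebra.re_one] at h8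
  omega


/-- the sum over the translates by thirds of theta is zero -/
theorem theta_dep4 {V : ValuationSubring ℂ} {f : ℕ} (hS : SetE4 A B V f)
    {e : OO A B → ℂ} (he : IsEI (idl (A := A) (B := B) (3 * f)) e) {b : Ideal (OO A B)}
    (hb : b ≠ ⊥) (z : ℂ) (hz : 0 < z.im) :
    ∑ j ∈ Finset.range 3, thetaI b e (z + (j : ℂ) / 3) = 0 := by
  obtain ⟨-, -, -, -, -, -, -, hg, -, -⟩ := val4 hS
  have hcq := toCQ hS.case.toCQ
  obtain ⟨-, C, hC0, hC⟩ := MUXF.xf_BDD A B hcq _ e hg (toEI he)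
  have him : ∀ j : ℕ, 0 < (z + (j : ℂ) / 3).im := by
    intro j
    have : ((j : ℂ) / 3).im = 0 := by
      have : ((j : ℂ) / 3) = (((j : ℝ) / 3 : ℝ) : ℂ) := by push_cast; ring
      rw [this]
      exact Complex.ofReal_im _
    rw [Complex.add_im, this, add_zero]
    exact hz
  have hsum : ∀ j : ℕ, Summable (fun x : b => e x * (starRingEnd ℂ) (emb (x : OO A B)) *
      Complex.exp (2 * Real.pi * Complex.I * ((nm (x : OO A B) : ℂ) / nI b) *
        (z + (j : ℂ) / 3))) :=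
    fun j : ℕ => MUXF.xf_TSM A B hcq b hb e C hC (z + (j : ℂ) / 3) (him j)
  have e1 : ∑ j ∈ Finset.range 3, thetaI b e (z + (j : ℂ) / 3) =
      (1 / 2) * ∑ j ∈ Finset.range 3, ∑' x : b, e x * (starRingEnd ℂ) (emb (x : OO A B)) *
        Complex.exp (2 * Real.pi * Complex.I * ((nm (x : OO A B) : ℂ) / nI b) *
          (z + (j : ℂ) / 3)) := by
    rw [Finset.mul_sum]
    rfl
  rw [e1, ← Summable.tsum_finsetSum (fun j _ => hsum j)]
  have e2 : ∀ x : b, ∑ j ∈ Finset.range 3, e x * (starRingEnd ℂ) (emb (x : OO A B)) *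
      Complex.exp (2 * Real.pi * Complex.I * ((nm (x : OO A B) : ℂ) / nI b) *
        (z + (j : ℂ) / 3)) = 0 := by
    intro x
    obtain ⟨h1, h2⟩ := (MUXF.xf_QB A B hcq b hb).1 x x.2
    have hnI : ((nI b : ℕ) : ℂ) ≠ 0 := by
      have := (MUXF.xf_IDL A B hcq b hb).1
      exact_mod_cast this
    by_cases h3 : (3 : ℤ) ∣ MUXF.qb b (x : OO A B)
    · rw [e_zero4 MUXF.xf_QB hS he hb x.2 h3]
      simp
    · have h4 : ((nm (x : OO A B) : ℤ) : ℂ) / ((nI b : ℕ) : ℂ) = ((MUXF.qb b (x : OO A B) : ℤ) : ℂ) := by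
        have h5 : nm (x : OO A B) = (nI b : ℤ) * MUXF.qb b (x : OO A B) := h1
        rw [h5]
        push_cast
        field_simp
      set N : ℤ := MUXF.qb b (x : OO A B) with hN
      have e3 : ∀ j : ℕ, Complex.exp (2 * Real.pi * Complex.I * ((nm (x : OO A B) : ℂ) / nI b) *
          (z + (j : ℂ) / 3)) = Complex.exp (2 * Real.pi * Complex.I * N * z) *
            Complex.exp (2 * Real.pi * Complex.I * N / 3) ^ j := by
        intro j
        rw [← Complex.exp_nat_mul, ← Complex.exp_add, h4]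
        congr 1
        ring
      simp only [e3]
      set q : ℂ := Complex.exp (2 * Real.pi * Complex.I * N / 3) with hq
      have hq3 : q ^ 3 = 1 := by
        rw [hq, ← Complex.exp_nat_mul, Complex.exp_eq_one_iff]
        exact ⟨N, by push_cast; ring⟩
      have hq1 : q ≠ 1 := by
        intro h
        rw [hq, Complex.exp_eq_one_iff] at h
        obtain ⟨k, hk⟩ := h
        apply h3
        refine ⟨k, ?_⟩
        have hpi : (2 * Real.pi * Complex.I : ℂ) ≠ 0 := Complex.two_pi_I_ne_zero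
        have h6 : (2 * Real.pi * Complex.I : ℂ) * N = (2 * Real.pi * Complex.I) * (3 * k) := by
          linear_combination 3 * hk
        have h7 := mul_left_cancel₀ hpi h6
        exact_mod_cast h7
      have h5 : ∑ j ∈ Finset.range 3, q ^ j = 0 := by
        have h6 := mul_geom_sum q 3
        rw [hq3, sub_self] at h6
        exact (mul_eq_zero.1 h6).resolve_left (sub_ne_zero.2 hq1)
      have h6 : ∀ j ∈ Finset.range 3, e x * (starRingEnd ℂ) (emb (x : OO A B)) *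
          (Complex.exp (2 * Real.pi * Complex.I * N * z) * q ^ j) =
          e x * (starRingEnd ℂ) (emb (x : OO A B)) *
          Complex.exp (2 * Real.pi * Complex.I * N * z) * q ^ j := fun j _ => by ring
      rw [Finset.sum_congr rfl h6, ← Finset.mul_sum, h5, mul_zero]
  rw [tsum_congr e2, tsum_zero, mul_zero]

/-- depletion -/
theorem phi_dep4 {V : ValuationSubring ℂ} {f : ℕ} (hS : SetE4 A B V f)
    {e : OO A B → ℂ} (he : IsEI (idl (A := A) (B := B) (3 * f)) e) {b : Ideal (OO A B)}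
    (hb : b ≠ ⊥) (x : ℚ) :
    ∑ j ∈ Finset.range 3, PhiI b e ∞ (((x + j) / 3 : ℚ) : OnePoint ℚ) = 0 := by
  obtain ⟨-, -, -, -, -, -, -, hg, -, -⟩ := val4 hS
  have hcq := toCQ hS.case.toCQ
  have hI := fun r : ℚ => MUXF.xf_ITG A B hcq b _ e hb hg (toEI he) r
  have e1 : ∀ j ∈ Finset.range 3, PhiI b e ∞ (((x + j) / 3 : ℚ) : OnePoint ℚ) =
      2 * Real.pi * ∫ t in Set.Ioi (0 : ℝ), thetaI b e (((x / 3 : ℚ) : ℂ) + t * Complex.I +
        (j : ℂ) / 3) := by
    intro j _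
    rw [Qsx.PhiI_inf]
    unfold IvI
    rw [neg_mul, neg_neg]
    congr 1
    refine MeasureTheory.integral_congr_ae (Filter.Eventually.of_forall fun t => ?_)
    show thetaI b e _ = thetaI b e _
    congr 1
    push_cast
    ring
  rw [Finset.sum_congr rfl e1, ← Finset.mul_sum, ← MeasureTheory.integral_finsetSum]
  · have e2 : ∫ t in Set.Ioi (0 : ℝ), ∑ j ∈ Finset.range 3,
        thetaI b e (((x / 3 : ℚ) : ℂ) + t * Complex.I + (j : ℂ) / 3) = 0 := by
      rw [MeasureTheory.setIntegral_congr_fun (g := fun _ => (0 : ℂ)) measurableSet_Ioi]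
      · simp
      · intro t ht
        refine theta_dep4 hS he hb _ ?_
        have h1 : (((x / 3 : ℚ) : ℂ)).im = 0 := by
          rw [← Complex.ofReal_ratCast]
          exact Complex.ofReal_im _
        rw [Complex.add_im, h1, zero_add, Complex.mul_im]
        simpa using ht
    rw [e2, mul_zero]
  · intro j _
    have h1 := hI ((x + j) / 3)
    refine h1.congr_fun ?_ measurableSet_Ioi
    intro t _
    show thetaI b e _ = thetaI b e _
    congr 1
    push_cast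
    ring

end

end Pool.Agent.MEH


end

section

/-!
# ME, block H (helper58): the quantity of the final statement as a character sum, frame E (after `MUX/HY_QSX.lean`)
-/

set_option autoImplicit false

namespace Pool.Agent.MEH

open _root_.MU3 _root_.Pool.Agent.MU3A _root_.Pool.Agent.MU3B _root_.Pool.Agent.MU3F _root_.Pool.Agent.MUX _root_.Pool.Agent.MUXH
  _root_.Pool.Agent.MUXHY _root_.Pool.Agent.MuSym _root_.Pool.Agent.ME OnePoint
open scoped ComplexConjugate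

noncomputable section

/-- the symbol `(Σ kk_i/e(N b_i) PhiI (b_i) e)/om_(i0)` -/
def PPE {A B : ℤ} {n : ℕ} {ι : Type} [Fintype ι] (R : RepsE A B n ι) (e : OO A B → ℂ)
    (kk : ι → ℂ) (x y : OnePoint ℚ) : ℂ :=
  PhiKE R e (fun c => kk c / e ((nI (R.b c) : ℕ) : OO A B)) x y / R.om R.i0

open _root_.Pool.Agent.MUXHY.Qsx _root_.Pool.Agent.MU3H.Qs in
theorem PPE_per (h2 : MUXF.Sx_PRD) {A B : ℤ} (hC : CQ A B) {m : ℕ} {ι : Type} [Fintype ι]
    (R : RepsE A B m ι) (e : OO A B → ℂ) (kk : ι → ℂ) (r : ℚ) (k : ℤ) :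
    PPE R e kk ∞ ((r + k : ℚ) : OnePoint ℚ) = PPE R e kk ∞ ((r : ℚ) : OnePoint ℚ) := by
  unfold PPE PhiKE
  congr 1
  refine Finset.sum_congr rfl fun c _ => ?_
  rw [PhiI_per h2 hC]
  exact (R.nl c).b_ne

open _root_.Pool.Agent.MUXHY.Qsx _root_.Pool.Agent.MU3H.Qs in
theorem SnXE_eq (h1 : MUXF.Sx_F5) {A B : ℤ} (hC : CQ A B) {p f : ℕ} (hp : p.Prime) (hf : f ≠ 0)
    {ι : Type} (R : RepsE A B (p * f) ι) {g : Ideal (OO A B)} {e : OO A B → ℂ} (he : IsEI g e)
    (hg : ((p * f : ℕ) : OO A B) ∈ g) (n : ℕ) (i : ι) (c : ℤ) :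
    SnXE R (lvX p f n) (q0 p * p ^ n) e i c =
      (2 * f / R.om R.i0) * ((1 / e ((nI (R.b i) : ℕ) : OO A B)) *
        ∑ β ∈ Finset.range (q0 p * p ^ n), ex (-(β * c) / ((q0 p * p ^ n : ℕ) : ℚ)) *
          PhiI (R.b i) e ∞ (((β / ((q0 p * p ^ n : ℕ) : ℚ) : ℚ) : ℚ) : OnePoint ℚ)) := by
  have hM0 : q0 p * p ^ n ≠ 0 := mul_ne_zero (q0_ne hp) (pow_ne_zero _ hp.ne_zero)
  have hm : lvX p f n = f * (q0 p * p ^ n) := by unfold lvX; ring
  have hm0 : lvX p f n ≠ 0 := by rw [hm]; exact mul_ne_zero hf hM0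
  obtain ⟨t, ht⟩ := q0_dvd p
  have hmg : ((lvX p f n : ℕ) : OO A B) ∈ g := by
    have h3 : ((lvX p f n : ℕ) : OO A B) = ((p * f : ℕ) : OO A B) * ((t * p ^ n : ℕ) : OO A B) := by
      rw [← Nat.cast_mul, hm, ht]
      congr 1
      ring
    rw [h3]
    exact Ideal.mul_mem_right _ _ hg
  have hcop : (nI (R.b i)).Coprime (lvX p f n) := by
    have hc := R.cop i
    have hcp : (nI (R.b i)).Coprime p := Nat.Coprime.coprime_mul_right_right hc
    have hcf : (nI (R.b i)).Coprime f := Nat.Coprime.coprime_mul_left_right hc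
    rw [hm]
    exact Nat.Coprime.mul_right hcf (Nat.Coprime.mul_right (cop_q0 hcp)
      (Nat.Coprime.pow_right n hcp))
  have hN0 : nI (R.b i) ≠ 0 := by
    intro h0
    have hc := R.cop i
    rw [h0, Nat.coprime_zero_left] at hc
    have h5 := Nat.eq_one_of_mul_eq_one_right hc
    exact hp.one_lt.ne' h5
  obtain ⟨heN, h5⟩ := h1 A B (toCQ hC) (R.b i) (R.L i) (R.om i) (toLI (R.nl i).toIsLI) g e
    (toEI he) (lvX p f n) (q0 p * p ^ n) hm0 hmg hM0 ⟨f, by rw [hm]; ring⟩ hcop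
  have h6 := h5 c
  have h7 : SnXE R (lvX p f n) (q0 p * p ^ n) e i c = muXE R i *
      (2 * (lvX p f n : ℂ) / (R.om i * (nI (R.b i) : ℕ) * ((q0 p * p ^ n : ℕ) : ℂ) *
        e ((nI (R.b i) : ℕ) : OO A B)) * ∑ β ∈ Finset.range (q0 p * p ^ n),
        ex (-(β * c) / ((q0 p * p ^ n : ℕ) : ℚ)) *
          PhiI (R.b i) e ∞ (((β / ((q0 p * p ^ n : ℕ) : ℚ) : ℚ) : ℚ) : OnePoint ℚ)) := by
    unfold SnXE
    rw [← PhiI_eq]
    refine congrArg (muXE R i * ·) ?_
    refine Eq.trans ?_ h6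
    unfold sumMod
    refine finsum_congr fun q => ?_
    beta_reduce
    have hiff : ((q0 p * p ^ n : ℕ) : ℤ) ∣ nm (Quotient.out q) * (nI (R.b i) : ℤ) - c ↔
        ((q0 p * p ^ n : ℕ) : ℤ) ∣ (MUXF.nI (R.b i) : ℤ) * nm (Quotient.out q) - c := by
      rw [nI_eq, mul_comm (nm (Quotient.out q))]
    by_cases hd : ((q0 p * p ^ n : ℕ) : ℤ) ∣ nm (Quotient.out q) * (nI (R.b i) : ℤ) - c
    · rw [if_pos hd, if_pos (hiff.1 hd)]
      rfl
    · rw [if_neg hd, if_neg (mt hiff.2 hd)]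
  rw [h7]
  have ho := (R.nl i).om_ne
  have ho0 := (R.nl R.i0).om_ne
  have hMc : ((q0 p * p ^ n : ℕ) : ℂ) ≠ 0 := Nat.cast_ne_zero.2 hM0
  have hNc : ((nI (R.b i) : ℕ) : ℂ) ≠ 0 := Nat.cast_ne_zero.2 hN0
  have hmc : ((lvX p f n : ℕ) : ℂ) = f * ((q0 p * p ^ n : ℕ) : ℂ) := by
    rw [hm]; push_cast; ring
  rw [hmc]
  unfold muXE
  generalize (∑ β ∈ Finset.range (q0 p * p ^ n), ex (-(β * c) / ((q0 p * p ^ n : ℕ) : ℚ)) *
          PhiI (R.b i) e ∞ (((β / ((q0 p * p ^ n : ℕ) : ℚ) : ℚ) : ℚ) : OnePoint ℚ)) = S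
  generalize ((q0 p * p ^ n : ℕ) : ℂ) = M at hMc ⊢
  have heN' : e ((nI (R.b i) : ℕ) : OO A B) ≠ 0 := heN
  field_simp

/-- the quantity of the final statement as a character sum -/
def Sy_QSXE : Prop :=
  ∀ (p : ℕ) (_ : p.Prime) (A B : ℤ) (_ : CQ A B) (f : ℕ) (_ : f ≠ 0)
    (ι : Type) (_ : Fintype ι) (R : RepsE A B (p * f) ι) (g : Ideal (OO A B)) (e : OO A B → ℂ)
    (_ : IsEI g e) (_ : ((p * f : ℕ) : OO A B) ∈ g) (kk : ι → ℂ) (s : ℤ) (N n : ℕ),
    ∑ j ∈ Finset.range (N + 1), ((-1 : ℂ) ^ (N - j) * (N.choose j : ℂ)) *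
        (STXE R (lvX p f n) (q0 p * p ^ n) (aX p f) e kk ((1 + (q0 p : ℤ)) ^ j) +
          s * STXE R (lvX p f n) (q0 p * p ^ n) (aX p f) e kk (-(1 + (q0 p : ℤ)) ^ j)) =
      2 * f * ∑ b ∈ Finset.range (q0 p * p ^ n),
        ex (-((1 + (q0 p : ℚ)) ^ N * (aX p f : ℚ) ^ 2) / ((q0 p * p ^ n : ℕ) : ℚ)) ^ b *
          comb (aX p f) (1 + (q0 p : ℤ)) N (fun b => sgnPart (s : ℂ) (PPE R e kk) ∞
            ((b / ((q0 p * p ^ n : ℕ) : ℚ) : ℚ) : OnePoint ℚ)) b

open _root_.Pool.Agent.MUXHY.Qsx _root_.Pool.Agent.MU3H.Qs in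
/-- (QSX) the quantity of the final statement as a character sum -/
theorem h_QSX (h1 : MUXF.Sx_F5) (h2 : MUXF.Sx_PRD) : Sy_QSXE := by
  intro p hp A B hC f hf ι hι R g e he hg kk s N n
  have hMdef : q0 p * p ^ n ≠ 0 := mul_ne_zero (q0_ne hp) (pow_ne_zero _ hp.ne_zero)
  have hSnX := fun i c => SnXE_eq h1 hC hp hf R he hg n i c
  have hMp : ∀ u : ℤ, (p : ℤ) ∣ u - 1 → IsCoprime u ((q0 p * p ^ n : ℕ) : ℤ) := by
    intro u hu
    have h3 : IsCoprime u (p : ℤ) := by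
      obtain ⟨t, ht⟩ := hu
      exact ⟨1, -t, by linear_combination ht⟩
    have h4 : IsCoprime u ((q0 p : ℕ) : ℤ) := by
      unfold q0
      by_cases h2' : p = 2
      · rw [if_pos h2']
        rw [h2'] at h3
        have : (((4 : ℕ) : ℤ)) = ((2 : ℕ) : ℤ) ^ 2 := by norm_num
        rw [this]
        exact h3.pow_right
      · rw [if_neg h2']
        exact h3
    push_cast
    exact h4.mul_right h3.pow_right
  have hq0p : (p : ℤ) ∣ (q0 p : ℤ) := Int.natCast_dvd_natCast.2 (q0_dvd p)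
  generalize hMM : q0 p * p ^ n = M at *
  have : NeZero M := ⟨hMdef⟩
  have hMQ : (M : ℚ) ≠ 0 := Nat.cast_ne_zero.2 hMdef
  -- the values
  set F : ℤ → ℂ := fun b => PPE R e kk ∞ ((b / (M : ℚ) : ℚ) : OnePoint ℚ) with hFdef
  set Q : ℤ → ℂ := fun b => sgnPart (s : ℂ) (PPE R e kk) ∞ ((b / (M : ℚ) : ℚ) : OnePoint ℚ)
    with hQdef
  set E : ℤ → ℂ := fun k => ex (k / (M : ℚ)) with hEdef
  have hPF : ∀ b : ℤ, Q b = F b + s * F (-b) := by
    intro b
    simp only [hQdef, hFdef, sgnPart]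
    rw [mob_inf, mob_neg]
    congr 4
    push_cast
    ring
  have hFper : ∀ b k : ℤ, F (b + M * k) = F b := by
    intro b k
    simp only [hFdef]
    have h := PPE_per h2 hC R e kk (b / (M : ℚ)) k
    rw [← h]
    congr 3
    push_cast
    field_simp
  have hPper : ∀ b k : ℤ, Q (b + M * k) = Q b := by
    intro b k
    rw [hPF, hPF, hFper]
    congr 2
    have := hFper (-b) (-k)
    rw [← this]
    congr 1
    ring
  have hEadd : ∀ k l : ℤ, E (k + l) = E k * E l := by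
    intro k l
    simp only [hEdef]
    rw [← ex_add]
    congr 1
    push_cast
    ring
  have hEq : ∀ k : ℤ, E (M * k) = 1 := by
    intro k
    simp only [hEdef]
    rw [← ex_int k]
    congr 1
    push_cast
    field_simp
  have hEper : ∀ b k : ℤ, E (b + M * k) = E b := by
    intro b k
    rw [hEadd, hEq, mul_one]
  -- the transform
  set S : ℤ → ℂ := fun c => ∑ i, kk i * SnXE R (lvX p f n) M e i c with hSdef
  have hSn : ∀ c : ℤ, S c = (2 * f) * ∑ b ∈ Finset.range M, E (-(b * c)) * F b := by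
    intro c
    have h3 : ∀ i, kk i * SnXE R (lvX p f n) M e i c = ∑ b ∈ Finset.range M, (2 * f) *
        (E (-(b * c)) * (kk i / e ((nI (R.b i) : ℕ) : OO A B) *
          PhiI (R.b i) e ∞ (((b / (M : ℚ) : ℚ) : ℚ) : OnePoint ℚ) / R.om R.i0)) := by
      intro i
      rw [hSnX i c, Finset.mul_sum, Finset.mul_sum, Finset.mul_sum]
      refine Finset.sum_congr rfl fun b _ => ?_
      have h4 : E (-(b * c)) = ex (-(b * c) / (M : ℚ)) := by
        simp only [hEdef]
        push_cast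
        rfl
      rw [h4]
      ring
    simp only [hSdef]
    rw [Finset.sum_congr rfl (fun i _ => h3 i), Finset.sum_comm, Finset.mul_sum]
    refine Finset.sum_congr rfl fun b _ => ?_
    rw [← Finset.mul_sum, ← Finset.mul_sum, ← Finset.sum_div]
    congr 2
  set W : ℤ → ℂ := fun c => ∑ b ∈ Finset.range M, E (-(b * c)) * Q b with hWdef
  have hSW : ∀ c : ℤ, S c + s * S (-c) = (2 * f) * W c := by
    intro c
    rw [hSn c, hSn (-c)]
    have h1 : ∑ b ∈ Finset.range M, E (-(b * (-c))) * F b =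
        ∑ b ∈ Finset.range M, E (-(b * c)) * F (-b) := by
      have hG : ∀ b k : ℤ, (fun b : ℤ => E (-(b * (-c))) * F b) (b + M * k) =
          (fun b : ℤ => E (-(b * (-c))) * F b) b := by
        intro b k
        show E (-((b + M * k) * (-c))) * F (b + M * k) = E (-(b * (-c))) * F b
        rw [hFper, show -((b + M * k) * (-c)) = -(b * (-c)) + M * (k * c) by ring, hEper]
      have h := sum_mul (G := fun b : ℤ => E (-(b * (-c))) * F b) hG (u := -1)
        (by exact (isCoprime_one_left).neg_left)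
      rw [← h]
      refine Finset.sum_congr rfl (fun b _ => ?_)
      show E (-((-1 * (b : ℤ)) * (-c))) * F (-1 * (b : ℤ)) = _
      rw [show -((-1 * (b : ℤ)) * (-c)) = -(b * c) by ring, show -1 * (b : ℤ) = -b by ring]
    rw [h1]
    simp only [hWdef]
    have h5 : ∑ b ∈ Finset.range M, E (-(b * c)) * Q b =
        ∑ b ∈ Finset.range M, E (-(b * c)) * F b +
          s * ∑ b ∈ Finset.range M, E (-(b * c)) * F (-b) := by
      rw [Finset.mul_sum, ← Finset.sum_add_distrib]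
      refine Finset.sum_congr rfl fun b _ => ?_
      rw [hPF]
      ring
    rw [h5]
    ring
  -- substitution
  have hsub : ∀ (c u : ℤ), IsCoprime u (M : ℤ) →
      W c = ∑ b ∈ Finset.range M, E (-(b * (u * c))) * Q (u * b) := by
    intro c u hu
    have hG : ∀ b k : ℤ, (fun b : ℤ => E (-(b * c)) * Q b) (b + M * k) =
        (fun b : ℤ => E (-(b * c)) * Q b) b := by
      intro b k
      show E (-((b + M * k) * c)) * Q (b + M * k) = E (-(b * c)) * Q b
      rw [hPper, show -((b + M * k) * c) = -(b * c) + M * (-(k * c)) by ring, hEper]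
    have h := sum_mul (G := fun b : ℤ => E (-(b * c)) * Q b) hG hu
    simp only [hWdef]
    rw [← h]
    refine Finset.sum_congr rfl (fun b _ => ?_)
    show E (-((u * (b : ℤ)) * c)) * Q (u * (b : ℤ)) = _
    rw [show -((u * (b : ℤ)) * c) = -(b * (u * c)) by ring]
  -- coprimality
  set a : ℤ := (aX p f : ℤ) with ha
  set u : ℤ := 1 + (q0 p : ℤ) with hu
  have h3mul : ∀ x y : ℤ, (p : ℤ) ∣ x - 1 → (p : ℤ) ∣ y - 1 → (p : ℤ) ∣ x * y - 1 := by
    intro x y hx hy
    have h1 : x * y - 1 = (x - 1) * y + (y - 1) := by ring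
    rw [h1]
    exact dvd_add (Dvd.dvd.mul_right hx y) hy
  have h4 : ∀ j : ℕ, (p : ℤ) ∣ u ^ j - 1 := by
    intro j
    have := sub_dvd_pow_sub_pow u 1 j
    rw [one_pow] at this
    refine dvd_trans ?_ this
    rw [hu]
    simpa using hq0p
  have h3a : (p : ℤ) ∣ a - 1 := by
    rw [ha]
    unfold aX
    have : (((1 + 2 * q0 p * f : ℕ) : ℤ)) - 1 = (q0 p : ℤ) * (2 * f) := by push_cast; ring
    rw [this]
    exact Dvd.dvd.mul_right hq0p _
  have h3a2 : (p : ℤ) ∣ a ^ 2 - 1 := by rw [sq]; exact h3mul a a h3a h3a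
  have haC : ((a : ℤ) : ℂ) = ((aX p f : ℕ) : ℂ) := by rw [ha]; push_cast; rfl
  -- the left hand side
  have hST : ∀ c : ℤ, STXE R (lvX p f n) M (aX p f) e kk c +
      s * STXE R (lvX p f n) M (aX p f) e kk (-c) =
        (2 * f) * ((a : ℂ) * W (a ^ 2 * c) - (a : ℂ) ^ 2 * W c) := by
    intro c
    have e0 : ∀ c, STXE R (lvX p f n) M (aX p f) e kk c = (a : ℂ) * S (a ^ 2 * c) -
        (a : ℂ) ^ 2 * S c := by
      intro c
      unfold STXE
      simp only [hSdef]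
      rw [Finset.mul_sum, Finset.mul_sum, ← Finset.sum_sub_distrib]
      refine Finset.sum_congr rfl fun i _ => ?_
      rw [← haC]
      ring
    have e1 := hSW c
    have e2 := hSW (a ^ 2 * c)
    rw [e0, e0, show a ^ 2 * -c = -(a ^ 2 * c) by ring]
    linear_combination (a : ℂ) * e2 - (a : ℂ) ^ 2 * e1
  -- comparison term by term
  have hz : ∀ b : ℕ, ex (-((1 + (q0 p : ℚ)) ^ N * (aX p f : ℚ) ^ 2) / (M : ℚ)) ^ b =
      E (-(b * (u ^ N * a ^ 2))) := by
    intro b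
    rw [ex_pow]
    simp only [hEdef]
    congr 1
    rw [ha, hu]
    push_cast
    ring
  have hterm : ∀ j ∈ Finset.range (N + 1),
      (a : ℂ) * W (a ^ 2 * u ^ j) - (a : ℂ) ^ 2 * W (u ^ j) =
        ∑ b ∈ Finset.range M, E (-(b * (u ^ N * a ^ 2))) *
          ((a : ℂ) * Q (u ^ (N - j) * b) - (a : ℂ) ^ 2 * Q (u ^ (N - j) * a ^ 2 * b)) := by
    intro j hj
    have hjN : N - j + j = N := Nat.sub_add_cancel (Nat.lt_succ_iff.mp (Finset.mem_range.mp hj))
    have e4 : u ^ (N - j) * u ^ j = u ^ N := by rw [← pow_add, hjN]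
    rw [hsub (a ^ 2 * u ^ j) (u ^ (N - j)) (hMp _ (h4 _)),
      hsub (u ^ j) (u ^ (N - j) * a ^ 2) (hMp _ (h3mul _ _ (h4 _) h3a2)),
      Finset.mul_sum, Finset.mul_sum, ← Finset.sum_sub_distrib]
    refine Finset.sum_congr rfl (fun b _ => ?_)
    rw [show u ^ (N - j) * (a ^ 2 * u ^ j) = u ^ N * a ^ 2 by rw [← e4]; ring,
      show u ^ (N - j) * a ^ 2 * u ^ j = u ^ N * a ^ 2 by rw [← e4]; ring]
    ring
  have hlhs : ∀ j ∈ Finset.range (N + 1),
      ((-1 : ℂ) ^ (N - j) * (N.choose j : ℂ)) *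
        (STXE R (lvX p f n) M (aX p f) e kk (u ^ j) +
          s * STXE R (lvX p f n) M (aX p f) e kk (-u ^ j)) =
      (2 * f) * ∑ b ∈ Finset.range M, E (-(b * (u ^ N * a ^ 2))) *
        (((-1 : ℂ) ^ (N - j) * (N.choose j : ℂ)) *
          ((a : ℂ) * Q (u ^ (N - j) * b) - (a : ℂ) ^ 2 * Q (u ^ (N - j) * a ^ 2 * b))) := by
    intro j hj
    rw [hST (u ^ j), hterm j hj, Finset.mul_sum, Finset.mul_sum, Finset.mul_sum]
    refine Finset.sum_congr rfl (fun b _ => ?_)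
    ring
  rw [Finset.sum_congr rfl hlhs, ← Finset.mul_sum, Finset.sum_comm]
  congr 1
  refine Finset.sum_congr rfl (fun b _ => ?_)
  rw [hz b, ← Finset.mul_sum]
  congr 1

end

end Pool.Agent.MEH


end

section

/-!
# ME, block H, `D = -4` (helper58): the character sums (after helper6's `NS/H_Hfin.lean`)
-/

set_option autoImplicit false

namespace Pool.Agent.MEH

open _root_.MU3 _root_.Pool.Agent.MU3A _root_.Pool.Agent.MU3B _root_.Pool.Agent.MU3F _root_.Pool.Agent.MUX _root_.Pool.Agent.MUXH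
  _root_.Pool.Agent.MUXHY _root_.Pool.Agent.MuSym _root_.Pool.Agent.NS _root_.Pool.Agent.MUXHN OnePoint
open _root_.Pool.Agent.ME hiding ActE
open scoped ComplexConjugate

noncomputable section

variable {A B : ℤ}

theorem sum_alg {ι : Type} (S : Finset ι) (F : ι → ℂ) (h : ∀ c ∈ S, IsAlgebraic ℚ (F c)) :
    IsAlgebraic ℚ (∑ c ∈ S, F c) := by
  rw [← mem_algebraicClosure_iff]
  exact sum_mem fun c hc => mem_algebraicClosure_iff.2 (h c hc)

/-- the norms of the `b_i` are prime to the conductor -/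
theorem copE {n : ℕ} {ι : Type} (R : RepsE A B n ι) {g : Ideal (OO A B)}
    (hg : ((n : ℕ) : OO A B) ∈ g) (i : ι) :
    IsCoprime (MUX.sp ((MUX.nI (R.b i) : ℕ) : OO A B)) g := by
  obtain ⟨u, w, huw⟩ : IsCoprime ((nI (R.b i) : ℕ) : ℤ) (n : ℤ) :=
    Nat.isCoprime_iff_coprime.mpr (R.cop i)
  rw [Ideal.isCoprime_iff_exists]
  refine ⟨(u : OO A B) * ((nI (R.b i) : ℕ) : OO A B), ?_, (w : OO A B) * ((n : ℕ) : OO A B), ?_, ?_⟩
  · exact Ideal.mul_mem_left _ _ (Ideal.mem_span_singleton_self _)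
  · exact Ideal.mul_mem_left _ _ hg
  · have := congrArg (fun z : ℤ => (z : OO A B)) huw
    push_cast at this
    exact this

lemma e_nIE {n : ℕ} {ι : Type} (R : RepsE A B n ι) {g : Ideal (OO A B)} {e : OO A B → ℂ}
    (he : IsEI g e) (hn : ((n : ℕ) : OO A B) ∈ g) (c : ι) :
    e ((nI (R.b c) : ℕ) : OO A B) ≠ 0 := by
  rw [he.supp]
  exact copE R hn c

/-- the invariants of the normalised lattices are rational -/
theorem nrm_alg {L : PeriodPair} (h : NrmE A B L) : IsAlgebraic ℚ L.g₂ ∧ IsAlgebraic ℚ L.g₃ := by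
  rw [h.g2, h.g3]
  unfold g2E g3E
  have h0 : IsAlgebraic ℚ (0 : ℂ) := isAlgebraic_zero
  have h4 : IsAlgebraic ℚ (4 : ℂ) := by
    have := isAlgebraic_algebraMap (R := ℚ) (A := ℂ) (4 : ℚ)
    simpa using this
  split_ifs
  · exact ⟨h4, h0⟩
  · exact ⟨h0, h4.neg⟩

/-- `u` is algebraic -/
theorem u_alg {g2 g3 u e lam : ℂ} (h2 : IsAlgebraic ℚ g2) (h3 : IsAlgebraic ℚ g3)
    (h : ∀ X : ℂ, 4 * X ^ 3 - g2 * X - g3 = 4 * (X - e) * (X - e - u ^ 2) * (X - e - lam * u ^ 2)) :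
    IsAlgebraic ℚ u := by
  have k1 : IsAlgebraic ℚ e := NSG.root_alg h2 h3 (by rw [h e]; ring)
  have k2 : IsAlgebraic ℚ (e + u ^ 2) := NSG.root_alg h2 h3 (by rw [h (e + u ^ 2)]; ring)
  have k4 : IsAlgebraic ℚ (u ^ 2) := by
    have : u ^ 2 = (e + u ^ 2) - e := by ring
    rw [this]
    exact k2.sub k1
  exact IsAlgebraic.of_pow (by norm_num) k4

/-- the values of the symbol divided by `om_(i0)` are algebraic -/
theorem phi_alg (h : CaseE A B) (T : TorXE A B) {n : ℕ} {ι : Type} (R : RepsE A B n ι)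
    {g : Ideal (OO A B)} {e : OO A B → ℂ} (he : IsEI g e) (hg : g ≠ ⊤) (hn : n ≠ 0)
    (hng : ((n : ℕ) : OO A B) ∈ g) {r : ℕ} (hr : r ≠ 0) (her : ∀ x, e x ≠ 0 → e x ^ r = 1)
    (c : ι) (x y : OnePoint ℚ) : IsAlgebraic ℚ (PhiI (R.b c) e x y / R.om R.i0) := by
  have h1 := Pool.Agent.ME2.algE h T (R.nl c) he hg hn hng (copE R hng c) hr her x y
  rw [Pool.Agent.ME2.one_elt h R c] at h1 ⊢
  exact h1

/-- the hypotheses of the abstract part -/
theorem hyp4 (hG : Sn_GPT_E) (hT' : Sn_TYF_E)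
    {V : ValuationSubring ℂ} {f : ℕ}
    (hS : SetE4 A B V f) (hT : TorXE A B) {ι : Type} [Fintype ι] (R : RepsE A B (3 * f) ι)
    {u el lam : ℂ} (hg : GoodN V (R.L R.i0) u el lam) {w : OO A B → ℂ} (hw : IsTei V w)
    {e : OO A B → ℂ} (he' : IsEIE (idl (A := A) (B := B) (3 * f)) e) {r : ℕ} (hr3 : ¬ 3 ∣ r)
    (her : ∀ x, e x ≠ 0 → e x ^ r = 1) {i : ℕ} (hi4 : 4 ≤ i) (hi7 : i ≤ 7)
    (hty : ∀ x, x - 1 ∈ idl (A := A) (B := B) f → x ∉ idl (A := A) (B := B) 3 → e x = w x ^ i)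
    {s : ℤ} (hs : s = 1 ∨ s = -1) {kk : ι → ℂ} (hkk : ∀ i, kk i ^ r = 1) :
    ∃ (pi : ℂ) (KI : Subfield ℂ), HypN V (N0X A B f) 1 i (nuX e)
      (fun x y => PhiKE R e kk x y / (u * R.om R.i0)) s pi KI := by
  have he : IsEI (idl (A := A) (B := B) (3 * f)) e := he'.toIsEI
  obtain ⟨pi, KI, typ, unr, vpi⟩ := hT' A B V f hS hT ι R u el lam hg w hw e he' r hr3 her i hty kk
    hkk
  obtain ⟨v3, vZ, v1, vr, D0, D3, gD, gb, gt, h3f⟩ := val4 hS
  have hcq : CQ A B := hS.case.toCQ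
  have hr0 : r ≠ 0 := by
    rintro rfl
    exact hr3 (dvd_zero 3)
  have hf0 := hS.f0
  obtain ⟨nu1, num, nuper, nuv⟩ := chr4 MUXF.xf_CHI hS he hr0 her
  have hN0 : ((N0X A B f : ℕ) : ℤ) = absD A B * (f : ℤ) ^ 2 := Brg.N0X_cast f D0
  have hDz : absD A B * ((3 * f : ℕ) : ℤ) ^ 2 = ((3 ^ (1 + 1) * N0X A B f : ℕ) : ℤ) := by
    push_cast
    rw [hN0]
    ring
  have hfz : (f : ℤ) ≠ 0 := by exact_mod_cast hf0
  have hNne : N0X A B f ≠ 0 := by
    have h1 : ((N0X A B f : ℕ) : ℤ) ≠ 0 := by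
      rw [hN0]
      exact mul_ne_zero D0.ne' (pow_ne_zero _ hfz)
    exact_mod_cast h1
  refine ⟨pi, KI, ?_⟩
  exact
    { vp := v3
      N0 := hNne
      cop := by
        rw [Nat.Prime.coprime_iff_not_dvd Nat.prime_three]
        intro h
        have h1 : (3 : ℤ) ∣ ((N0X A B f : ℕ) : ℤ) := by exact_mod_cast h
        rw [hN0] at h1
        rcases Int.prime_three.dvd_or_dvd h1 with h2 | h2
        · exact D3 h2
        · have h4 := Int.prime_three.dvd_of_dvd_pow h2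
          exact hS.fp (by exact_mod_cast h4)
      nu1 := nu1
      num := num
      nuper := nuper
      nuv := nuv
      sym := by
        have h1 : ∀ c, IsSym (3 ^ (1 + 1) * N0X A B f) (nuX e) (PhiI (R.b c) e) := fun c =>
          MUXT.sym_EI (toCQ hcq) (R.b c) (R.nl c).b_ne _ e (toEI he) (3 * f) (by omega) h3f _
            (mul_ne_zero (by norm_num) hNne) (by rw [hDz])
        exact Sym.isSym_lin h1 kk (u * R.om R.i0)
      dep := by
        intro x
        unfold PhiKE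
        rw [← Finset.sum_div, Finset.sum_comm]
        have h1 : ∀ c, ∑ j ∈ Finset.range 3, kk c * PhiI (R.b c) e ∞
            (((x + j) / 3 : ℚ) : OnePoint ℚ) = 0 := by
          intro c
          rw [← Finset.mul_sum, phi_dep4 hS he (R.nl c).b_ne x, mul_zero]
        rw [Finset.sum_eq_zero fun c _ => h1 c, zero_div]
      alg := by
        intro x y
        have hua : IsAlgebraic ℚ u := u_alg (nrm_alg (R.nl R.i0).nrm).1 (nrm_alg (R.nl R.i0).nrm).2 (NSG.cub hg)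
        have hka : ∀ c, IsAlgebraic ℚ (kk c) := fun c =>
          IsAlgebraic.of_pow (Nat.pos_of_ne_zero hr0) (by rw [hkk c]; exact isAlgebraic_one)
        have h1 := fun c => phi_alg hS.case hT R he gt (by omega) h3f hr0 her c x y
        have e1 : PhiKE R e kk x y / (u * R.om R.i0) =
            (∑ c, kk c * (PhiI (R.b c) e x y / R.om R.i0)) * u⁻¹ := by
          unfold PhiKE
          have ho : R.om R.i0 ≠ 0 := (R.nl R.i0).om_ne
          have hu := hg.u0
          rw [mul_comm u, ← div_div, Finset.sum_div, div_eq_mul_inv]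
          congr 1
          refine Finset.sum_congr rfl fun c _ => ?_
          ring
        rw [e1]
        exact (sum_alg _ _ fun c _ => (hka c).mul (h1 c)).mul hua.inv
      fin := by
        classical
        have h1 := fun c => MUXT.fg_EI A B (toCQ hcq) (R.b c) _ e (R.nl c).b_ne gb (toEI he)
        choose S hS' using h1
        set Z : ℂ := u * R.om R.i0 with hZ
        refine ⟨Finset.univ.biUnion fun c => (S c).image fun t => kk c / Z * t, fun x y => ?_⟩
        have e1 : PhiKE R e kk x y / Z = ∑ c, kk c / Z * PhiI (R.b c) e x y := by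
          unfold PhiKE
          rw [Finset.sum_div]
          refine Finset.sum_congr rfl fun c _ => ?_
          ring
        rw [e1]
        refine sum_mem fun c _ => ?_
        have h2 := hS' c x y
        have h3 : AddMonoidHom.mulLeft (kk c / Z) (PhiI (R.b c) e x y) ∈
            (AddSubgroup.closure (S c : Set ℂ)).map (AddMonoidHom.mulLeft (kk c / Z)) :=
          AddSubgroup.mem_map_of_mem _ h2
        rw [AddMonoidHom.map_closure] at h3
        refine AddSubgroup.closure_mono ?_ h3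
        rintro _ ⟨t, ht, rfl⟩
        simp only [Finset.coe_biUnion, Set.mem_iUnion]
        exact ⟨c, by simp, Finset.mem_coe.2 (Finset.mem_image.2 ⟨t, ht, rfl⟩)⟩
      s1 := hs
      typ := typ
      unr := unr
      i4 := hi4
      i7 := hi7
      vpi := vpi
      G := by
        intro N' hN' hd
        refine hG A B V f hS hT ι R u el lam hg e he' r hr0 her kk (vr r _ hr0 (hkk _)) N' hN' ?_
        rw [hDz]
        exact_mod_cast hd
      prj := prj4 MUXF.xf_PHX MUXF.xf_PRJ hS R he kk _ _ }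

/-- the character sums -/
theorem hfin4 (hG : Sn_GPT_E) (hT' : Sn_TYF_E) :
    Sn_HFIN_E := by
  intro A B V f hS hT ι _ R u el lam hg w hw e he' r hr3 her i hi4 hi7 hty s hs kk hkk n₀
  obtain ⟨v3, vZ, v1, vr, D0, D3, gD, gb, gt, h3f⟩ := val4 hS
  have he : IsEI (idl (A := A) (B := B) (3 * f)) e := he'.toIsEI
  have hcq : CQ A B := hS.case.toCQ
  have hr0 : r ≠ 0 := by
    rintro rfl
    exact hr3 (dvd_zero 3)
  have hf0 := hS.f0
  set kk' : ι → ℂ := fun c => kk c / e ((nI (R.b c) : ℕ) : OO A B) with hkk'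
  have heN : ∀ c, e ((nI (R.b c) : ℕ) : OO A B) ≠ 0 := e_nIE R he h3f
  have hk1 : ∀ c, kk' c ^ r = 1 := by
    intro c
    rw [hkk']
    beta_reduce
    rw [div_pow, hkk, her _ (heN c), div_one]
  obtain ⟨pi, KI, hyp⟩ := hyp4 hG hT' hS hT R hg hw he' hr3 her hi4 hi7 hty hs hk1
  have hfz : (0 : ℤ) < f := by exact_mod_cast Nat.pos_of_ne_zero hf0
  have haz : ((aX 3 f : ℕ) : ℤ) - 1 = 3 * (2 * f) := by
    unfold aX q0
    push_cast
    norm_num
    ring
  have ha3 : (3 : ℤ) ∣ ((aX 3 f : ℕ) : ℤ) - 1 := by rw [haz]; exact Dvd.intro _ rfl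
  have ha1 : ((aX 3 f : ℕ) : ℤ) ≠ 1 := by
    intro h
    rw [h] at haz
    omega
  obtain ⟨n, hn, hmain⟩ := xn_HN V (N0X A B f) 1 i (nuX e) _ s pi KI hyp ((aX 3 f : ℕ) : ℤ) 4 ha3 ha1
    (by norm_num) (by norm_num) (n₀ + 1)
  obtain ⟨m, rfl⟩ : ∃ m, n = m + 1 := ⟨n - 1, by omega⟩
  refine ⟨m, by omega, ?_⟩
  have hQS := h_QSX MUXF.xf_F5 MUXF.xf_PRD 3 Nat.prime_three A B hcq f hf0 ι inferInstance R _ e
    he h3f kk s 1 m
  have hM : q0 3 * 3 ^ m = 3 ^ (m + 1) := by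
    unfold q0
    norm_num
    ring
  have hq3 : (q0 3 : ℤ) = 3 := by
    unfold q0
    norm_num
  have hq3' : (q0 3 : ℚ) = 3 := by
    unfold q0
    norm_num
  rw [hM, hq3, hq3'] at hQS
  have e4 : (1 + 3 : ℤ) = 4 := by norm_num
  have e4' : (1 + 3 : ℚ) = 4 := by norm_num
  rw [e4, e4'] at hQS
  have hL : ∑ j ∈ Finset.range 2, (-1 : ℂ) ^ (1 - j) *
        (STXE R (lvX 3 f m) (3 ^ (m + 1)) (aX 3 f) e kk (4 ^ j) +
          s * STXE R (lvX 3 f m) (3 ^ (m + 1)) (aX 3 f) e kk (-(4 ^ j))) =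
      ∑ j ∈ Finset.range (1 + 1), ((-1 : ℂ) ^ (1 - j) * ((1 : ℕ).choose j : ℂ)) *
        (STXE R (lvX 3 f m) (3 ^ (m + 1)) (aX 3 f) e kk (4 ^ j) +
          s * STXE R (lvX 3 f m) (3 ^ (m + 1)) (aX 3 f) e kk (-4 ^ j)) := by
    refine Finset.sum_congr rfl fun j hj => ?_
    have hj2 : j = 0 ∨ j = 1 := by
      have := Finset.mem_range.1 hj
      omega
    rcases hj2 with rfl | rfl <;> simp
  rw [hL, hQS]
  have hprim := Hfx.prim 3 (m + 1) Nat.prime_three (-(4 * ((aX 3 f : ℕ) : ℤ) ^ 2)) (by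
    intro h
    rw [dvd_neg] at h
    rcases Int.prime_three.dvd_or_dvd h with h | h
    · omega
    · have h5 := Int.prime_three.dvd_of_dvd_pow h
      have h6 := dvd_sub h5 ha3
      rw [sub_sub_cancel] at h6
      omega)
  have hζ : ex (-((4 : ℚ) ^ 1 * (aX 3 f : ℚ) ^ 2) / ((3 ^ (m + 1) : ℕ) : ℚ)) =
      ex (((-(4 * ((aX 3 f : ℕ) : ℤ) ^ 2) : ℤ) : ℚ) / (3 : ℕ) ^ (m + 1)) := by
    push_cast
    rw [pow_one]
  rw [hζ]
  set ζ : ℂ := ex (((-(4 * ((aX 3 f : ℕ) : ℤ) ^ 2) : ℤ) : ℚ) / (3 : ℕ) ^ (m + 1)) with hζd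
  have h1 := hmain ζ hprim
  have hu := hg.u0
  have e5 : (2 * (f : ℂ) * ∑ b ∈ Finset.range (3 ^ (m + 1)), ζ ^ b *
      comb ((aX 3 f : ℕ) : ℤ) 4 1 (fun b => sgnPart (s : ℂ) (PPE R e kk) ∞
        ((b / ((3 ^ (m + 1) : ℕ) : ℚ) : ℚ) : OnePoint ℚ)) b) / u =
      2 * f * ∑ b ∈ Finset.range (3 ^ (m + 1)), ζ ^ b *
      comb ((aX 3 f : ℕ) : ℤ) 4 1 (fun b => sgnPart (s : ℂ)
        (fun x y => PhiKE R e kk' x y / (u * R.om R.i0)) ∞
        (((b : ℚ) / 3 ^ (m + 1) : ℚ) : OnePoint ℚ)) b := by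
    rw [mul_div_assoc, Finset.sum_div]
    congr 1
    refine Finset.sum_congr rfl fun b _ => ?_
    rw [mul_div_assoc]
    congr 1
    unfold comb
    rw [Finset.sum_div]
    refine Finset.sum_congr rfl fun j _ => ?_
    rw [mul_div_assoc]
    congr 1
    have e6 : ∀ b : ℤ, sgnPart (s : ℂ) (PPE R e kk) ∞
        ((b / ((3 ^ (m + 1) : ℕ) : ℚ) : ℚ) : OnePoint ℚ) = u * sgnPart (s : ℂ)
        (fun x y => PhiKE R e kk' x y / (u * R.om R.i0)) ∞
        (((b : ℚ) / 3 ^ (m + 1) : ℚ) : OnePoint ℚ) := by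
      intro b
      have e7 : ∀ x y, PPE R e kk x y = u * (PhiKE R e kk' x y / (u * R.om R.i0)) := by
        intro x y
        unfold PPE
        rw [← mul_div_assoc, mul_div_mul_left _ _ hu]
      unfold sgnPart
      rw [e7, e7]
      push_cast
      ring
    beta_reduce
    rw [e6, e6]
    field_simp
  rw [e5, map_mul, map_mul]
  have e8 : V.valuation (2 : ℂ) = 1 := by
    have := v1 2 (by norm_num)
    exact_mod_cast this
  have e9 : V.valuation (f : ℂ) = 1 := by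
    have := v1 f (by
      intro h
      exact hS.fp (by exact_mod_cast h))
    exact_mod_cast this
  rw [e8, e9, one_mul, one_mul]
  exact h1

end

end Pool.Agent.MEH


end
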