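import Mathlib
import Pool.Agent.MVF.C154
import Pool.Agent.MVF.C164
import Pool.Agent.MVF.C168
import Pool.Agent.MVF.C187

/-! Parts: ME.H_R, ME.H_Fin3, ME.HAll3 -/

section

/-!
# ME, block H, `D = -3` (helper58): elementary facts, the nebentypus, the exponents modulo `3`, the type (after helper87's `NS/HGR_*.lean`)
-/

set_option autoImplicit false

namespace Pool.Agent.MEH

open _root_.MU3 _root_.Pool.Agent.MU3A _root_.Pool.Agent.MU3B _root_.Pool.Agent.MU3F _root_.Pool.Agent.MUX _root_.Pool.Agent.MUXH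
  _root_.Pool.Agent.MUXHY _root_.Pool.Agent.MuSym _root_.Pool.Agent.NS _root_.Pool.Agent.NSRD OnePoint
open _root_.Pool.Agent.ME hiding ActE

noncomputable section

variable {A B : ℤ}

lemma absD_posE (h : CQ A B) : 0 < absD A B := by
  have := h.neg
  unfold absD
  omega

lemma absD_3 {P : Ideal (OO A B)} {V : ValuationSubring ℂ} {f : ℕ} (h : SetE3 A B P V f) :
    absD A B = 3 := by
  unfold absD
  rw [h.hB, h.case.hA]
  norm_num

/-- elementary facts -/
theorem val3 {P : Ideal (OO A B)} {V : ValuationSubring ℂ} {f : ℕ} (H : SetE3 A B P V f) :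
    V.valuation (3 : ℂ) < 1 ∧ (∀ n : ℤ, V.valuation (n : ℂ) ≤ 1) ∧
    (∀ n : ℤ, ¬ (3 : ℤ) ∣ n → V.valuation (n : ℂ) = 1) ∧
    (∀ (r : ℕ) (z : ℂ), r ≠ 0 → z ^ r = 1 → V.valuation z = 1) ∧
    0 < absD A B ∧
    idl (A := A) (B := B) (3 * f) ≤ sp ((absD A B : ℤ) : OO A B) ∧
    idl (A := A) (B := B) (3 * f) ≠ ⊥ ∧ idl (A := A) (B := B) (3 * f) ≠ ⊤ ∧
    ((3 * f : ℕ) : OO A B) ∈ idl (A := A) (B := B) (3 * f) := by
  have h3 : V.valuation (3 : ℂ) < 1 := by
    have h1 : emb ((3 : ℕ) : OO A B) ∈ V.nonunits := (H.hV _).2 H.hP.mem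
    have h2 : emb ((3 : ℕ) : OO A B) = 3 := by
      unfold emb
      rw [QuadraticAlgebra.re_natCast, QuadraticAlgebra.im_natCast]
      norm_num
    rw [h2, ValuationSubring.mem_nonunits_iff] at h1
    exact h1
  have hle : ∀ z : ℤ, V.valuation (z : ℂ) ≤ 1 := fun z =>
    (V.valuation_le_one_iff _).2 (intCast_mem V z)
  have hD0 : 0 < absD A B := absD_posE H.case.toCQ
  have h3f : ((3 * f : ℕ) : OO A B) ∈ idl (A := A) (B := B) (3 * f) :=
    Ideal.mem_span_singleton_self _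
  have hf0 := H.f0
  refine ⟨h3, hle, ?_, ?_, hD0, ?_, ?_, ?_, h3f⟩
  · intro n hn
    have hc : IsCoprime n 3 := by
      rw [isCoprime_comm]
      exact (Int.prime_three.coprime_iff_not_dvd).2 hn
    obtain ⟨a, b, hab⟩ := hc
    by_contra hne
    have hlt : V.valuation (n : ℂ) < 1 := lt_of_le_of_ne (hle n) hne
    have h1 : V.valuation ((a : ℂ) * n + b * 3) < 1 := by
      refine lt_of_le_of_lt (V.valuation.map_add _ _) (max_lt ?_ ?_)
      · rw [map_mul]
        exact mul_lt_one_of_nonneg_of_lt_one_right (hle a) zero_le hlt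
      · rw [map_mul]
        exact mul_lt_one_of_nonneg_of_lt_one_right (hle b) zero_le h3
    have h2 : (a : ℂ) * n + b * 3 = 1 := by exact_mod_cast hab
    rw [h2, map_one] at h1
    exact lt_irrefl _ h1
  · intro r z hr hz
    have h1 : V.valuation z ^ r = 1 := by rw [← map_pow, hz, map_one]
    exact (pow_eq_one_iff_of_nonneg zero_le hr).1 h1
  · rw [Ideal.span_singleton_le_iff_mem, Ideal.mem_span_singleton]
    obtain ⟨t, ht⟩ := H.fD
    refine ⟨(2 * t : ℤ), ?_⟩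
    have h1 : ((3 * f : ℕ) : OO A B) = ((3 * (f : ℤ) : ℤ) : OO A B) := by push_cast; rfl
    rw [h1, ht]
    push_cast
    ring
  · intro h
    rw [h, Ideal.mem_bot] at h3f
    have h1 := congrArg QuadraticAlgebra.re h3f
    simp only [QuadraticAlgebra.re_natCast, QuadraticAlgebra.re_zero] at h1
    have h2 : (3 * f : ℕ) = 0 := by exact_mod_cast h1
    omega
  · intro h
    rw [Ideal.eq_top_iff_one, Ideal.mem_span_singleton] at h
    obtain ⟨y, hy⟩ := h
    have h1 := congrArg QuadraticAlgebra.re hy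
    rw [QuadraticAlgebra.re_one, QuadraticAlgebra.re_mul, QuadraticAlgebra.re_natCast,
      QuadraticAlgebra.im_natCast, mul_zero, zero_mul, add_zero] at h1
    have h9 : ((3 * f : ℕ) : ℤ) ∣ 1 := ⟨y.re, h1⟩
    have h10 := Int.le_of_dvd one_pos h9
    have : 0 < f := Nat.pos_of_ne_zero hf0
    omega


theorem chr3 (h4 : MUXF.Sx_CHI) {P : Ideal (OO A B)} {V : ValuationSubring ℂ} {f : ℕ}
    (H : SetE3 A B P V f)
    {e : OO A B → ℂ} (he : IsEI (idl (A := A) (B := B) (3 * f)) e) {r : ℕ} (hr0 : r ≠ 0)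
    (hr : ∀ x, e x ≠ 0 → e x ^ r = 1) :
    nuX e 1 = 1 ∧ (∀ d d', nuX e (d * d') = nuX e d * nuX e d') ∧
    (∀ d d' : ℤ, ((3 * f ^ 2 : ℕ) : ℤ) ∣ d - d' → nuX e d = nuX e d') ∧
    (∀ d, V.valuation (nuX e d) ≤ 1) := by
  obtain ⟨-, vZ, -, vru, hDpos, hgD, hg0, -, hpf⟩ := val3 H
  have hcq : CQ A B := H.case.toCQ
  have hD3 := absD_3 H
  have ev : ∀ x, V.valuation (e x) ≤ 1 := by
    intro x
    by_cases hx : e x = 0
    · rw [hx, map_zero]
      exact zero_le_one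
    · exact (vru r (e x) hr0 (hr x hx)).le
  have hcopD : ∀ d : ℤ, e (d : OO A B) ≠ 0 → IsCoprime d (absD A B) := by
    intro d hd
    have h5 := (he.supp _).1 hd
    apply Chr.coprime_int (A := A) (B := B)
    rw [← Ideal.isCoprime_span_singleton_iff]
    rw [Ideal.isCoprime_iff_sup_eq] at h5 ⊢
    exact top_le_iff.1 (h5 ▸ sup_le_sup_left hgD _)
  refine ⟨?_, ?_, ?_, ?_⟩
  · unfold nuX
    have : ((1 : ℤ) : OO A B) = 1 := by push_cast; rfl
    rw [Chr.chiX_one, this, he.one]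
    norm_num
  · intro d d'
    unfold nuX
    have : ((d * d' : ℤ) : OO A B) = (d : OO A B) * (d' : OO A B) := by push_cast; rfl
    rw [Chr.chiX_mul, this, he.mul]
    push_cast
    ring
  · intro d d' hd
    obtain ⟨t, ht⟩ := hd
    push_cast at ht
    have hD : absD A B ∣ d - d' := ⟨(f : ℤ) ^ 2 * t, by rw [ht, hD3]; ring⟩
    unfold nuX
    by_cases hcop : IsCoprime d (absD A B)
    · have h5 : chiX A B d' = chiX A B d := ((h4 A B (toCQ hcq) d hcop).2.2 d' hD)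
      have h6 : e (d : OO A B) = e (d' : OO A B) := by
        apply he.per
        have h7 : (d : OO A B) - (d' : OO A B) =
            (((f * t : ℤ)) : OO A B) * ((3 * f : ℕ) : OO A B) := by
          have h8 : (d : OO A B) - (d' : OO A B) = ((d - d' : ℤ) : OO A B) := by push_cast; rfl
          rw [h8, ht]
          push_cast
          ring
        rw [h7]
        exact Ideal.mul_mem_left _ _ hpf
      rw [h5, h6]
    · have h5 : e (d : OO A B) = 0 := by
        by_contra hne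
        exact hcop (hcopD d hne)
      have h6 : e (d' : OO A B) = 0 := by
        by_contra hne
        apply hcop
        obtain ⟨s, hs⟩ := hD
        have h7 : d = d' + absD A B * s := by linarith
        rw [h7]
        exact (IsCoprime.add_mul_left_left_iff).2 (hcopD d' hne)
      rw [h5, h6, mul_zero, mul_zero]
  · intro d
    unfold nuX
    rw [map_mul]
    exact mul_le_one' (vZ _) (ev _)

/-- the norm is a square modulo `3` -/
lemma nm_mod (hA : A = -1) (hB : B = 1) (x : OO A B) : (3 : ℤ) ∣ nm x - (x.re - x.im) ^ 2 := by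
  refine ⟨x.re * x.im, ?_⟩
  unfold nm
  linear_combination x.re * x.im * hB - x.im ^ 2 * hA

lemma nm_one_of (hA : A = -1) (hB : B = 1) {x : OO A B} (h : ¬ (3 : ℤ) ∣ nm x) :
    (3 : ℤ) ∣ nm x - 1 := by
  have h1 := nm_mod hA hB x
  have h2 : ¬ (3 : ℤ) ∣ x.re - x.im := by
    intro h3
    apply h
    have h4 : (3 : ℤ) ∣ (x.re - x.im) ^ 2 := dvd_pow h3 two_ne_zero
    have := dvd_add h1 h4
    rwa [sub_add_cancel] at this
  have h3 : (3 : ℤ) ∣ (x.re - x.im) ^ 2 - 1 := by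
    have : (x.re - x.im) % 3 = 1 ∨ (x.re - x.im) % 3 = 2 := by omega
    rw [Int.dvd_iff_emod_eq_zero, Int.sub_emod, pow_two, Int.mul_emod]
    rcases this with h | h <;> rw [h] <;> norm_num
  have h4 := dvd_add h1 h3
  rwa [sub_add_sub_cancel] at h4

/-- `e x ≠ 0` implies `N x ≡ 1` modulo `3` -/
lemma qb3 {P : Ideal (OO A B)} {V : ValuationSubring ℂ} {f : ℕ} (H : SetE3 A B P V f)
    {e : OO A B → ℂ} (he : IsEI (idl (A := A) (B := B) (3 * f)) e) {x : OO A B} (hx : e x ≠ 0) :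
    (3 : ℤ) ∣ nm x - 1 := by
  have hcq : CQ A B := H.case.toCQ
  refine nm_one_of H.case.hA H.hB fun h3 => ?_
  have h5 := (he.supp _).1 hx
  obtain ⟨i, hi, j, hj, hij⟩ := (Ideal.isCoprime_iff_exists).1 h5
  rw [Ideal.mem_span_singleton] at hi hj
  obtain ⟨i', rfl⟩ := hi
  obtain ⟨j', rfl⟩ := hj
  have h6 : nm (x * i') = nm (1 - ((3 * f : ℕ) : OO A B) * j') := by
    rw [← hij]
    ring_nf
  rw [nm_mul hcq] at h6
  have h7 : (3 : ℤ) ∣ nm (1 - ((3 * f : ℕ) : OO A B) * j') - 1 := by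
    have e1 : (((3 * f : ℕ) : OO A B) * j').re = 3 * f * j'.re := by
      rw [QuadraticAlgebra.re_mul, QuadraticAlgebra.re_natCast, QuadraticAlgebra.im_natCast]
      push_cast
      ring
    have e2 : (((3 * f : ℕ) : OO A B) * j').im = 3 * f * j'.im := by
      rw [QuadraticAlgebra.im_mul, QuadraticAlgebra.re_natCast, QuadraticAlgebra.im_natCast]
      push_cast
      ring
    unfold nm
    rw [QuadraticAlgebra.re_sub, QuadraticAlgebra.im_sub, QuadraticAlgebra.re_one,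
      QuadraticAlgebra.im_one, e1, e2]
    refine ⟨-2 * f * j'.re + 3 * f ^ 2 * j'.re ^ 2 - B * f * j'.im + 3 * B * f ^ 2 * j'.re * j'.im -
      3 * A * f ^ 2 * j'.im ^ 2, ?_⟩
    ring
  have h8 : (3 : ℤ) ∣ nm x * nm i' := h3.mul_right _
  rw [h6] at h8
  have h9 := dvd_sub h8 h7
  rw [sub_sub_cancel] at h9
  norm_num at h9

/-- the powers of `w`, `D = -3` -/
lemma unit_pow (h : CaseE A B) (hB : B = 1) {z : OO A B} (hz : IsUnit z) :
    ∃ k : ℕ, z = (⟨0, 1⟩ : OO A B) ^ k := by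
  have hA := h.hA
  have hl := unit_list h hz
  subst hA
  subst hB
  have w2 : (⟨0, 1⟩ : OO (-1) 1) ^ 2 = ⟨-1, 1⟩ := by
    rw [pow_two]
    ext <;> simp
  have w3 : (⟨0, 1⟩ : OO (-1) 1) ^ 3 = -1 := by
    rw [pow_succ, w2]
    ext <;> simp [QuadraticAlgebra.re_one, QuadraticAlgebra.im_one]
  rcases hl with rfl | rfl | rfl | rfl | ⟨-, rfl | rfl⟩
  · exact ⟨0, (pow_zero _).symm⟩
  · exact ⟨3, w3.symm⟩
  · exact ⟨1, (pow_one _).symm⟩
  · refine ⟨4, ?_⟩
    rw [pow_succ, w3]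
    ext <;> simp
  · refine ⟨5, ?_⟩
    rw [show (5 : ℕ) = 3 + 2 by norm_num, pow_add, w3, w2]
    ext <;> simp
  · exact ⟨2, w2.symm⟩

lemma w_six (h : CaseE A B) (hB : B = 1) : (⟨0, 1⟩ : OO A B) ^ 3 = -1 := by
  have hA := h.hA
  subst hA
  subst hB
  rw [pow_succ, pow_two]
  ext <;> simp [QuadraticAlgebra.re_one, QuadraticAlgebra.im_one]

lemma e_pow {g : Ideal (OO A B)} {e : OO A B → ℂ} (he : IsEI g e) (x : OO A B) (k : ℕ) :
    e (x ^ k) = e x ^ k := by
  induction k with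
  | zero => rw [pow_zero, pow_zero, he.one]
  | succ k ih => rw [pow_succ, pow_succ, he.mul, ih]

lemma w_pow {P : Ideal (OO A B)} {V : ValuationSubring ℂ} {w : OO A B → ℂ} (hw : IsTei6 P V w)
    (x : OO A B) (k : ℕ) : w (x ^ k) = w x ^ k := by
  induction k with
  | zero => rw [pow_zero, pow_zero, hw.one]
  | succ k ih => rw [pow_succ, pow_succ, hw.mul, ih]

/-- the type -/
theorem tyi3 {P : Ideal (OO A B)} {V : ValuationSubring ℂ} {f : ℕ} (H : SetE3 A B P V f)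
    (T : TorXE A B) {w : OO A B → ℂ} (hw : IsTei6 P V w) {e e0 : OO A B → ℂ}
    (he : IsEI (idl (A := A) (B := B) (3 * f)) e) (hee : ∀ x, e x = e0 x * w x) {r : ℕ}
    (hr : ¬ 3 ∣ r) (her : ∀ x, e0 x ≠ 0 → e0 x ^ r = 1) :
    ∃ i : ℕ, i ≤ 1 ∧ ∀ x, x - 1 ∈ idl (A := A) (B := B) f → x ∉ P → e x = w x ^ (3 * i + 1) := by
  have hE := H.case
  have hcq : CQ A B := hE.toCQ
  have hB := H.hB
  have hA := hE.hA
  have hC : Pool.Agent.ME3.CtxR3 A B P V := Pool.Agent.ME3.t3_CTX A B P V hE hB H.hP H.hV T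
    Pool.Agent.MER.s3_rfin
  -- an integer `s` with `f s ≡ 1` modulo `3`
  obtain ⟨s, t, hst⟩ : IsCoprime (f : ℤ) 3 := by
    rw [isCoprime_comm]
    exact (Int.prime_three.coprime_iff_not_dvd).2 fun h => H.fp (by exact_mod_cast h)
  set y : OO A B := 1 + ((f * s : ℤ) : OO A B) * (⟨0, 1⟩ - 1) with hy
  have hyf : y - 1 ∈ idl (A := A) (B := B) f := by
    rw [hy, add_sub_cancel_left]
    have : ((f * s : ℤ) : OO A B) = ((f : ℕ) : OO A B) * (s : OO A B) := by push_cast; rfl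
    rw [this, mul_assoc]
    exact Ideal.mul_mem_right _ _ (Ideal.mem_span_singleton_self _)
  have hy3 : y - ⟨0, 1⟩ ∈ idl (A := A) (B := B) 3 := by
    have e1 : y - ⟨0, 1⟩ = ((3 : ℕ) : OO A B) * ((-t : ℤ) : OO A B) * (⟨0, 1⟩ - 1) := by
      have e2 : ((f * s : ℤ) : OO A B) = 1 - ((3 : ℕ) : OO A B) * ((t : ℤ) : OO A B) := by
        have e3 : (f * s : ℤ) = 1 - 3 * t := by linarith
        rw [e3]
        push_cast
        rfl
      rw [hy, e2]
      push_cast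
      ring
    rw [e1]
    exact Ideal.mul_mem_right _ _ (Ideal.mul_mem_right _ _ (Ideal.mem_span_singleton_self _))
  -- congruences modulo `3 f`
  have h3f : ∀ z : OO A B, z ∈ idl (A := A) (B := B) f → z ∈ idl (A := A) (B := B) 3 →
      z ∈ idl (A := A) (B := B) (3 * f) := by
    intro z hz hz3
    obtain ⟨a, rfl⟩ := Ideal.mem_span_singleton'.1 hz
    obtain ⟨b, hb⟩ := Ideal.mem_span_singleton'.1 hz3
    rw [Ideal.mem_span_singleton']
    refine ⟨(s : OO A B) * b + (t : OO A B) * a, ?_⟩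
    have h1 : ((f : ℕ) : OO A B) * (s : OO A B) + ((3 : ℕ) : OO A B) * (t : OO A B) = 1 := by
      have h2 := congrArg (fun z : ℤ => (z : OO A B)) hst
      push_cast at h2 ⊢
      linear_combination h2
    have e3 : ((3 * f : ℕ) : OO A B) = ((3 : ℕ) : OO A B) * ((f : ℕ) : OO A B) := by push_cast; rfl
    rw [e3]
    linear_combination ((f : ℕ) : OO A B) * (s : OO A B) * hb + a * ((f : ℕ) : OO A B) * h1
  have hpw : ∀ k : ℕ, y ^ k - 1 ∈ idl (A := A) (B := B) f ∧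
      y ^ k - ⟨0, 1⟩ ^ k ∈ idl (A := A) (B := B) 3 := by
    intro k
    constructor
    · have := sub_dvd_pow_sub_pow y 1 k
      rw [one_pow] at this
      exact Ideal.mem_of_dvd _ this hyf
    · exact Ideal.mem_of_dvd _ (sub_dvd_pow_sub_pow y ⟨0, 1⟩ k) hy3
  have hkey : ∀ x, x - 1 ∈ idl (A := A) (B := B) f → x ∉ P → ∃ k : ℕ, e x = e y ^ k ∧
      w x = w y ^ k := by
    intro x hx hxP
    obtain ⟨η, η', h1, -, h2⟩ := Pool.Agent.MET.unitP hC hA hB hxP
    obtain ⟨k, hk⟩ := unit_pow hE hB (IsUnit.of_mul_eq_one η' h1)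
    refine ⟨k, ?_, ?_⟩
    · rw [← e_pow he]
      apply he.per
      refine h3f _ ?_ ?_
      · have := (idl (A := A) (B := B) f).sub_mem hx (hpw k).1
        rwa [sub_sub_sub_cancel_right] at this
      · rw [hk] at h2
        have := (idl (A := A) (B := B) 3).sub_mem h2 (hpw k).2
        rwa [sub_sub_sub_cancel_right] at this
    · rw [← w_pow hw]
      apply hw.per
      rw [hk] at h2
      have := (idl (A := A) (B := B) 3).sub_mem h2 (hpw k).2
      rwa [sub_sub_sub_cancel_right] at this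
  -- the value at `y`
  have hwu : IsUnit (⟨0, 1⟩ : OO A B) := isUnit_w hE
  have hw3 : w y ^ 3 = -1 := by
    have h1 : w y = w ⟨0, 1⟩ := hw.per _ _ hy3
    rw [h1, ← w_pow hw, w_six hE hB, hw.unit _ isUnit_one.neg, MUX.emb_neg hcq, MUX.emb_one hcq]
  have hy6 : e y ^ 6 = 1 := by
    rw [← e_pow he, ← he.one]
    apply he.per
    refine h3f _ (hpw 6).1 ?_
    have h1 := (hpw 6).2
    have h2 : (⟨0, 1⟩ : OO A B) ^ 6 = 1 := by
      rw [show (6 : ℕ) = 3 * 2 by norm_num, pow_mul, w_six hE hB]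
      norm_num
    rwa [h2] at h1
  have hw6 : w y ^ 6 = 1 := by
    rw [show (6 : ℕ) = 3 * 2 by norm_num, pow_mul, hw3]
    norm_num
  have hwy0 : w y ≠ 0 := by
    intro h0
    rw [h0, zero_pow (by norm_num)] at hw6
    exact zero_ne_one hw6
  have he06 : e0 y ^ 6 = 1 := by
    have h1 := hee y
    rw [h1, mul_pow, hw6, mul_one] at hy6
    exact hy6
  have he0 : e0 y ≠ 0 := by
    intro h0
    rw [h0, zero_pow (by norm_num)] at he06
    exact zero_ne_one he06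
  have hg : e0 y ^ 2 = 1 := by
    have h1 : e0 y ^ (Nat.gcd 6 r) = 1 := by
      rw [← orderOf_dvd_iff_pow_eq_one]
      exact Nat.dvd_gcd (orderOf_dvd_of_pow_eq_one he06) (orderOf_dvd_of_pow_eq_one (her y he0))
    have h2 : Nat.gcd 6 r ∣ 2 := by
      have h3 : Nat.Coprime (Nat.gcd 6 r) 3 := by
        rw [Nat.coprime_comm, Nat.Prime.coprime_iff_not_dvd Nat.prime_three]
        intro h4
        exact hr (h4.trans (Nat.gcd_dvd_right 6 r))
      have h5 : Nat.gcd 6 r ∣ 3 * 2 := Nat.gcd_dvd_left 6 r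
      exact h3.dvd_of_dvd_mul_left h5
    obtain ⟨c, hc⟩ := h2
    rw [hc, pow_mul, h1, one_pow]
  have hpm : e0 y = 1 ∨ e0 y = -1 := by
    have : (e0 y - 1) * (e0 y + 1) = 0 := by linear_combination hg
    rcases mul_eq_zero.1 this with h | h
    · exact Or.inl (sub_eq_zero.1 h)
    · exact Or.inr (eq_neg_of_add_eq_zero_left h)
  rcases hpm with h1 | h1
  · refine ⟨0, by norm_num, fun x hx hxP => ?_⟩
    obtain ⟨k, h2, h3⟩ := hkey x hx hxP
    rw [h2, h3, hee y, h1, one_mul, mul_zero, zero_add, pow_one]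
  · refine ⟨1, le_rfl, fun x hx hxP => ?_⟩
    obtain ⟨k, h2, h3⟩ := hkey x hx hxP
    have h4 : e y = w y ^ 4 := by
      rw [hee y, h1, show (4 : ℕ) = 3 + 1 by norm_num, pow_add, hw3, pow_one]
    rw [h2, h3, h4, ← pow_mul, ← pow_mul, mul_comm]

end

end Pool.Agent.MEH


end

section

/-!
# ME, block H, `D = -3` (helper58): the character sums (after helper87's `NS/HGR.lean`)

There is one class, so the sums `STXE .. (-4^j)` vanish, and the symbol is `PhiKE R e kk/(3 u om)`.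
-/

set_option autoImplicit false

namespace Pool.Agent.MEH

open _root_.MU3 _root_.Pool.Agent.MU3A _root_.Pool.Agent.MU3B _root_.Pool.Agent.MU3F _root_.Pool.Agent.MUX _root_.Pool.Agent.MUXH
  _root_.Pool.Agent.MUXHY _root_.Pool.Agent.MuSym _root_.Pool.Agent.NS _root_.Pool.Agent.NSRD _root_.Pool.Agent.MUXHN OnePoint
open _root_.Pool.Agent.ME hiding ActE
open scoped ComplexConjugate

noncomputable section

variable {A B : ℤ}

lemma nI_top : nI (⊤ : Ideal (OO A B)) = 1 := by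
  unfold nI
  simp

/-- the sums with `c ≡ -1` modulo `3` vanish -/
theorem SnXE_zero {P : Ideal (OO A B)} {V : ValuationSubring ℂ} {f : ℕ}
    (H : SetE3 A B P V f) {e : OO A B → ℂ} (he : IsEI (idl (A := A) (B := B) (3 * f)) e) {ι : Type}
    (R : RepsE A B (3 * f) ι) (m M : ℕ) (hM : 3 ∣ M) (i : ι) (c : ℤ)
    (hc : (3 : ℤ) ∣ c + 1) : SnXE R m M e i c = 0 := by
  have hn : nI (R.b i) = 1 := by
    rw [Pool.Agent.ME2.one_elt H.case R i, R.b0, nI_top]
  unfold SnXE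
  have h0 : ∀ x : OO A B, (if (M : ℤ) ∣ nm x * nI (R.b i) - c then
      e x * ee (R.L i) (ptE R m i x) else 0) = 0 := by
    intro x
    split_ifs with h
    · by_cases hx : e x = 0
      · rw [hx, zero_mul]
      · exfalso
        have h1 := qb3 H he hx
        have h2 : (3 : ℤ) ∣ nm x * nI (R.b i) - c := by
          refine dvd_trans ?_ h
          exact_mod_cast hM
        rw [hn, Nat.cast_one, mul_one] at h2
        omega
    · rfl
  have h1 : sumMod ((m : ℕ) : OO A B) (fun x => if (M : ℤ) ∣ nm x * nI (R.b i) - c then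
      e x * ee (R.L i) (ptE R m i x) else 0) = 0 := by
    unfold sumMod
    exact finsum_eq_zero_of_forall_eq_zero fun q => h0 _
  rw [h1, mul_zero]

theorem STXE_zero {P : Ideal (OO A B)} {V : ValuationSubring ℂ} {f : ℕ}
    (H : SetE3 A B P V f) {e : OO A B → ℂ} (he : IsEI (idl (A := A) (B := B) (3 * f)) e) {ι : Type}
    [Fintype ι] (R : RepsE A B (3 * f) ι) (m M a : ℕ) (hM : 3 ∣ M) (ha : (3 : ℤ) ∣ (a : ℤ) - 1)
    (kk : ι → ℂ) (c : ℤ) (hc : (3 : ℤ) ∣ c + 1) : STXE R m M a e kk c = 0 := by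
  have hac : (3 : ℤ) ∣ (a : ℤ) ^ 2 * c + 1 := by
    have : (a : ℤ) ^ 2 * c + 1 = ((a : ℤ) - 1) * ((a + 1) * c) + (c + 1) := by ring
    rw [this]
    exact dvd_add (Dvd.dvd.mul_right ha _) hc
  unfold STXE
  refine Finset.sum_eq_zero fun i _ => ?_
  rw [SnXE_zero H he R m M hM i _ hac, SnXE_zero H he R m M hM i _ hc]
  ring

/-- the quantity of the final statement as a character sum -/
theorem qsr3 {P : Ideal (OO A B)} {V : ValuationSubring ℂ} {f : ℕ}
    (H : SetE3 A B P V f) {e : OO A B → ℂ} (he : IsEI (idl (A := A) (B := B) (3 * f)) e) {ι : Type}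
    [Fintype ι] (R : RepsE A B (3 * f) ι) (kk : ι → ℂ) (m : ℕ) :
    ∑ j ∈ Finset.range 2, (-1 : ℂ) ^ (1 - j) *
        (STXE R (lvX 3 f m) (3 ^ (m + 1)) (aX 3 f) e kk (4 ^ j) +
          STXE R (lvX 3 f m) (3 ^ (m + 1)) (aX 3 f) e kk (-(4 ^ j))) =
      2 * f * ∑ b ∈ Finset.range (3 ^ (m + 1)),
        ex (-((4 : ℚ) ^ 1 * (aX 3 f : ℚ) ^ 2) / ((3 ^ (m + 1) : ℕ) : ℚ)) ^ b *
          comb (aX 3 f) 4 1 (fun b => PPE R e kk ∞
              ((b / ((3 ^ (m + 1) : ℕ) : ℚ) : ℚ) : OnePoint ℚ)) b := by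
  have hcq : CQ A B := H.case.toCQ
  have h3f : ((3 * f : ℕ) : OO A B) ∈ idl (A := A) (B := B) (3 * f) :=
    Ideal.mem_span_singleton_self _
  have hM : q0 3 * 3 ^ m = 3 ^ (m + 1) := by
    unfold q0
    norm_num
    ring
  have hq3 : (q0 3 : ℤ) = 3 := by
    unfold q0
    norm_num
  have hq3' : (q0 3 : ℚ) = 3 := by
    unfold q0
    norm_num
  have e4 : (1 + 3 : ℤ) = 4 := by norm_num
  have e4' : (1 + 3 : ℚ) = 4 := by norm_num
  have haz : ((aX 3 f : ℕ) : ℤ) - 1 = 3 * (2 * f) := by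
    unfold aX q0
    push_cast
    norm_num
    ring
  have ha3 : (3 : ℤ) ∣ ((aX 3 f : ℕ) : ℤ) - 1 := by rw [haz]; exact Dvd.intro _ rfl
  have h3M : 3 ∣ 3 ^ (m + 1) := dvd_pow_self 3 (Nat.succ_ne_zero m)
  have Q := fun (s : ℤ) => h_QSX MUXF.xf_F5 MUXF.xf_PRD 3 Nat.prime_three A B hcq f H.f0 ι
    inferInstance R _ e he h3f kk s 1 m
  rw [hM, hq3, hq3', e4, e4'] at Q
  have c1 : ∀ j : ℕ, (3 : ℤ) ∣ 4 ^ j - 1 := by
    intro j
    have := sub_dvd_pow_sub_pow (4 : ℤ) 1 j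
    rw [one_pow] at this
    exact dvd_trans (by norm_num) this
  have c2 : ∀ j : ℕ, (3 : ℤ) ∣ -4 ^ j + 1 := by
    intro j
    have := (dvd_neg).2 (c1 j)
    rwa [neg_sub, sub_eq_neg_add] at this
  have P2 := fun j => STXE_zero H he R (lvX 3 f m) (3 ^ (m + 1)) (aX 3 f) h3M ha3 kk (-4 ^ j) (c2 j)
  set ζ : ℂ := ex (-((4 : ℚ) ^ 1 * (aX 3 f : ℚ) ^ 2) / ((3 ^ (m + 1) : ℕ) : ℚ)) with hζ
  have A1 := Q 1
  have A2 := Q (-1)
  have L1 : ∀ s : ℤ, ∑ j ∈ Finset.range (1 + 1), ((-1 : ℂ) ^ (1 - j) * ((1 : ℕ).choose j : ℂ)) *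
      (STXE R (lvX 3 f m) (3 ^ (m + 1)) (aX 3 f) e kk (4 ^ j) +
        s * STXE R (lvX 3 f m) (3 ^ (m + 1)) (aX 3 f) e kk (-4 ^ j)) =
      ∑ j ∈ Finset.range 2, (-1 : ℂ) ^ (1 - j) *
        STXE R (lvX 3 f m) (3 ^ (m + 1)) (aX 3 f) e kk (4 ^ j) := by
    intro s
    refine Finset.sum_congr rfl fun j hj => ?_
    rw [P2 j]
    have hj2 : j = 0 ∨ j = 1 := by
      have := Finset.mem_range.1 hj
      omega
    rcases hj2 with rfl | rfl <;> simp
  rw [L1] at A1 A2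
  have E : ∀ b : ℕ, comb (aX 3 f) 4 1 (fun b => PPE R e kk ∞
              ((b / ((3 ^ (m + 1) : ℕ) : ℚ) : ℚ) : OnePoint ℚ)) b =
      (1 / 2) * (comb (aX 3 f) 4 1 (fun b => sgnPart (((1 : ℤ)) : ℂ) (PPE R e kk) ∞
            ((b / ((3 ^ (m + 1) : ℕ) : ℚ) : ℚ) : OnePoint ℚ)) b +
        comb (aX 3 f) 4 1 (fun b => sgnPart (((-1 : ℤ)) : ℂ) (PPE R e kk) ∞
            ((b / ((3 ^ (m + 1) : ℕ) : ℚ) : ℚ) : OnePoint ℚ)) b) := by
    intro b
    unfold comb sgnPart
    rw [← Finset.sum_add_distrib, Finset.mul_sum]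
    refine Finset.sum_congr rfl fun j _ => ?_
    push_cast
    ring
  have hL : ∑ j ∈ Finset.range 2, (-1 : ℂ) ^ (1 - j) *
        (STXE R (lvX 3 f m) (3 ^ (m + 1)) (aX 3 f) e kk (4 ^ j) +
          STXE R (lvX 3 f m) (3 ^ (m + 1)) (aX 3 f) e kk (-(4 ^ j))) =
      ∑ j ∈ Finset.range 2, (-1 : ℂ) ^ (1 - j) *
        STXE R (lvX 3 f m) (3 ^ (m + 1)) (aX 3 f) e kk (4 ^ j) := by
    refine Finset.sum_congr rfl fun j _ => ?_
    rw [show (-(4 : ℤ) ^ j) = -4 ^ j from rfl, P2 j, add_zero]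
  rw [hL]
  simp only [E, mul_add, Finset.sum_add_distrib]
  have hs : ∀ G : ℕ → ℂ, ∑ b ∈ Finset.range (3 ^ (m + 1)), ζ ^ b * (1 / 2 * G b) =
      (1 / 2) * ∑ b ∈ Finset.range (3 ^ (m + 1)), ζ ^ b * G b := by
    intro G
    rw [Finset.mul_sum]
    refine Finset.sum_congr rfl fun b _ => ?_
    ring
  rw [hs, hs]
  push_cast at A1 A2 ⊢
  linear_combination (1 / 2) * A1 + (1 / 2) * A2

/-- the cubic of a lattice in Legendre form -/
theorem cubR {V : ValuationSubring ℂ} {L : PeriodPair} {u e lam : ℂ} (h : GoodR V L u e lam)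
    (X : ℂ) : 4 * X ^ 3 - L.g₂ * X - L.g₃ = 4 * (X - e) * (X - e - u ^ 2) * (X - e - lam * u ^ 2) := by
  obtain ⟨y, hy⟩ := IsAlgClosed.exists_pow_nat_eq (4 * X ^ 3 - L.g₂ * X - L.g₃) (n := 2) (by norm_num)
  obtain ⟨z, hz, hX, hY⟩ := (b_DSC L).2 X y hy
  have h1 := h.eq z hz
  rw [hX, hY] at h1
  have hu := h.u0
  have hu2 : u ^ 6 ≠ 0 := pow_ne_zero _ hu
  have h2 : y ^ 2 = 4 * (X - e) * (X - e - u ^ 2) * (X - e - lam * u ^ 2) := by
    field_simp at h1
    linear_combination h1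
  rw [← h2, hy]

/-- the translation by `1/3` -/
theorem rel3 {P : Ideal (OO A B)} {V : ValuationSubring ℂ} {f : ℕ}
    (H : SetE3 A B P V f) {ι : Type} [Fintype ι] (R : RepsE A B (3 * f) ι) {e : OO A B → ℂ}
    (he : IsEI (idl (A := A) (B := B) (3 * f)) e) (kk : ι → ℂ) (Z : ℂ) (x : ℚ) :
    PhiKE R e kk ∞ ((x + 1 / 3 : ℚ) : OnePoint ℚ) / Z =
      Complex.exp (2 * Real.pi * Complex.I / 3) * (PhiKE R e kk ∞ (x : OnePoint ℚ) / Z) := by
  obtain ⟨-, -, -, -, -, -, gb, -, -⟩ := val3 H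
  have hcq : CQ A B := H.case.toCQ
  have h1 : ∀ c : ι, PhiI (R.b c) e ∞ ((x + 1 / 3 : ℚ) : OnePoint ℚ) =
      Complex.exp (2 * Real.pi * Complex.I / 3) * PhiI (R.b c) e ∞ (x : OnePoint ℚ) := by
    intro c
    have hb : R.b c = ⊤ := by rw [Pool.Agent.ME2.one_elt H.case R c, R.b0]
    have hq := (MUXF.xf_QB A B (toCQ hcq) (R.b c) (R.nl c).b_ne).1
    have h2 := (Pool.Agent.NSGR.tv_SH3 A B hcq (R.b c) _ e (R.nl c).b_ne gb he 1 (by
      intro y hy hy0
      have h3 := (hq y hy).1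
      have h4 : MUXF.nI (R.b c) = 1 := by rw [hb]; exact nI_top
      rw [h4, Nat.cast_one, one_mul] at h3
      rw [← h3]
      exact qb3 H he hy0)).1 x 1
    have e3 : (2 * Real.pi * Complex.I * (((1 : ℤ) : ℂ) * ((1 : ℤ) : ℂ) / 3) : ℂ) =
        2 * Real.pi * Complex.I / 3 := by
      push_cast
      ring
    have e4 : ((x + ((1 : ℤ) : ℚ) / 3 : ℚ)) = x + 1 / 3 := by push_cast; ring
    rw [e3, e4] at h2
    exact h2
  unfold PhiKE
  rw [← mul_div_assoc, Finset.mul_sum]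
  congr 1
  refine Finset.sum_congr rfl fun c _ => ?_
  rw [h1]
  ring

/-- the values of `e` are roots of unity -/
lemma e_six {P : Ideal (OO A B)} {V : ValuationSubring ℂ} {w : OO A B → ℂ} (hw : IsTei6 P V w)
    {e e0 : OO A B → ℂ} (hee : ∀ x, e x = e0 x * w x) {r : ℕ}
    (her : ∀ x, e0 x ≠ 0 → e0 x ^ r = 1) (x : OO A B) (hx : e x ≠ 0) : e x ^ (6 * r) = 1 := by
  rw [hee x] at hx ⊢
  have h1 : e0 x ≠ 0 := left_ne_zero_of_mul hx
  have h2 : w x ≠ 0 := right_ne_zero_of_mul hx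
  have h3 : x ∉ P := fun h => h2 (hw.zero x h)
  rw [mul_pow, mul_comm 6 r, pow_mul, her x h1, one_pow, one_mul, mul_comm r 6, pow_mul,
    hw.pow x h3, one_pow]

/-- the hypotheses of the abstract part -/
theorem hyp3 (hG : Sq_GPT_E) (hT' : Sq_TYF_E) {P : Ideal (OO A B)} {V : ValuationSubring ℂ}
    {f : ℕ} (hS : SetE3 A B P V f) (h4f : 4 ∣ f) (hT : TorXE A B) {ι : Type} [Fintype ι]
    (R : RepsE A B (3 * f) ι) {u el lam : ℂ} (hg : GoodR V (R.L R.i0) u el lam)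
    {w : OO A B → ℂ} (hw : IsTei6 P V w) {e e0 : OO A B → ℂ}
    (he' : IsEIE (idl (A := A) (B := B) (3 * f)) e) (hee : ∀ x, e x = e0 x * w x) {r : ℕ}
    (hr3 : ¬ 3 ∣ r) (her0 : ∀ x, e0 x ≠ 0 → e0 x ^ r = 1) {i : ℕ} (hi : i ≤ 1)
    (hty : ∀ x, x - 1 ∈ idl (A := A) (B := B) f → x ∉ P → e x = w x ^ (3 * i + 1))
    {kk : ι → ℂ} (hkk : ∀ i, kk i ^ r = 1) :
    ∃ (pi : ℂ) (KI : Subfield ℂ), HypR V (f ^ 2) 2 (1 - i) (nuX e)
      (fun x y => PhiKE R e kk x y / (3 * u * R.om R.i0)) pi KI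
      (Complex.exp (2 * Real.pi * Complex.I / 3)) := by
  have he : IsEI (idl (A := A) (B := B) (3 * f)) e := he'.toIsEI
  obtain ⟨pi, KI, typ, unr, vpi⟩ := hT' A B P V f hS h4f hT ι R u el lam hg w hw e e0 he' hee r
    hr3 her0 i hi hty kk hkk
  obtain ⟨v3, vZ, v1, vr, D0, gD, gb, gt, h3f⟩ := val3 hS
  have hcq : CQ A B := hS.case.toCQ
  have hr0 : r ≠ 0 := by
    rintro rfl
    exact hr3 (dvd_zero 3)
  have her : ∀ x, e x ≠ 0 → e x ^ (6 * r) = 1 := fun x hx => e_six hw hee her0 x hx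
  have h6r : 6 * r ≠ 0 := mul_ne_zero (by norm_num) hr0
  have hf0 := hS.f0
  obtain ⟨nu1, num, nuper, nuv⟩ := chr3 MUXF.xf_CHI hS he h6r her
  have hD3 := absD_3 hS
  have hDz : absD A B * ((3 * f : ℕ) : ℤ) ^ 2 = ((3 ^ (2 + 1) * f ^ 2 : ℕ) : ℤ) := by
    rw [hD3]
    push_cast
    ring
  have hNne : f ^ 2 ≠ 0 := pow_ne_zero _ hf0
  refine ⟨pi, KI, ?_⟩
  exact
    { vp := v3
      N0 := hNne
      cop := by
        rw [Nat.Prime.coprime_iff_not_dvd Nat.prime_three]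
        intro h
        exact hS.fp (Nat.prime_three.dvd_of_dvd_pow h)
      nu1 := nu1
      num := num
      nuper := nuper
      nuv := nuv
      sym := by
        have h1 : ∀ c, IsSym (3 ^ (2 + 1) * f ^ 2) (nuX e) (PhiI (R.b c) e) := fun c =>
          MUXT.sym_EI (toCQ hcq) (R.b c) (R.nl c).b_ne _ e (toEI he) (3 * f) (by omega) h3f _
            (mul_ne_zero (by norm_num) hNne) (by rw [hDz])
        exact Sym.isSym_lin h1 kk (3 * u * R.om R.i0)
      omp := by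
        have := Complex.isPrimitiveRoot_exp 3 (by norm_num)
        exact_mod_cast this
      rel := fun x => rel3 hS R he kk (3 * u * R.om R.i0) x
      alg := by
        intro x y
        have hua : IsAlgebraic ℚ u := u_alg (nrm_alg (R.nl R.i0).nrm).1 (nrm_alg (R.nl R.i0).nrm).2
          (cubR hg)
        have hka : ∀ c, IsAlgebraic ℚ (kk c) := fun c =>
          IsAlgebraic.of_pow (Nat.pos_of_ne_zero hr0) (by rw [hkk c]; exact isAlgebraic_one)
        have h1 := fun c => phi_alg hS.case hT R he gt (by omega) h3f h6r her c x y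
        have h3a : IsAlgebraic ℚ (3 : ℂ) := by
          have := isAlgebraic_algebraMap (R := ℚ) (A := ℂ) (3 : ℚ)
          simpa using this
        have e1 : PhiKE R e kk x y / (3 * u * R.om R.i0) =
            (∑ c, kk c * (PhiI (R.b c) e x y / R.om R.i0)) * (3 * u)⁻¹ := by
          unfold PhiKE
          rw [mul_comm (3 * u), ← div_div, Finset.sum_div, div_eq_mul_inv]
          congr 1
          refine Finset.sum_congr rfl fun c _ => ?_
          ring
        rw [e1]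
        exact (sum_alg _ _ fun c _ => (hka c).mul (h1 c)).mul (h3a.mul hua).inv
      fin := by
        classical
        have h1 := fun c => MUXT.fg_EI A B (toCQ hcq) (R.b c) _ e (R.nl c).b_ne gb (toEI he)
        choose S hS' using h1
        set Z : ℂ := 3 * u * R.om R.i0 with hZ
        refine ⟨Finset.univ.biUnion fun c => (S c).image fun t => kk c / Z * t, fun x y => ?_⟩
        have e1 : PhiKE R e kk x y / Z = ∑ c, kk c / Z * PhiI (R.b c) e x y := by
          unfold PhiKE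
          rw [Finset.sum_div]
          refine Finset.sum_congr rfl fun c _ => ?_
          ring
        rw [e1]
        refine sum_mem fun c _ => ?_
        have h2 := hS' c x y
        have h3 : AddMonoidHom.mulLeft (kk c / Z) (PhiI (R.b c) e x y) ∈
            (AddSubgroup.closure (S c : Set ℂ)).map (AddMonoidHom.mulLeft (kk c / Z)) :=
          AddSubgroup.mem_map_of_mem _ h2
        rw [AddMonoidHom.map_closure] at h3
        refine AddSubgroup.closure_mono ?_ h3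
        rintro _ ⟨t, ht, rfl⟩
        simp only [Finset.coe_biUnion, Set.mem_iUnion]
        exact ⟨c, by simp, Finset.mem_coe.2 (Finset.mem_image.2 ⟨t, ht, rfl⟩)⟩
      typ := typ
      unr := unr
      i1 := by omega
      vpi := vpi
      G := by
        intro N' hN' hd
        refine hG A B P V f hS hT ι R u el lam hg e he' (6 * r) h6r her kk (vr r _ hr0 (hkk _)) N'
          hN' ?_
        rw [hDz]
        exact_mod_cast hd }

/-- the character sums -/
theorem hfin3 (hG : Sq_GPT_E) (hT' : Sq_TYF_E) : Sq_HFIN_E := by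
  intro A B P V f hS h4f hT ι _ R u el lam hg w hw e e0 he' hee r hr3 her0 kk hkk n₀
  obtain ⟨v3, vZ, v1, vr, D0, gD, gb, gt, h3f⟩ := val3 hS
  have he : IsEI (idl (A := A) (B := B) (3 * f)) e := he'.toIsEI
  have hcq : CQ A B := hS.case.toCQ
  have hr0 : r ≠ 0 := by
    rintro rfl
    exact hr3 (dvd_zero 3)
  have hf0 := hS.f0
  obtain ⟨i, hi, hty⟩ := tyi3 hS hT hw he hee hr3 her0
  have hkn : ∀ c, kk c / e ((nI (R.b c) : ℕ) : OO A B) = kk c := by
    intro c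
    have hn : nI (R.b c) = 1 := by
      rw [Pool.Agent.ME2.one_elt hS.case R c, R.b0, nI_top]
    rw [hn, Nat.cast_one, he.one, div_one]
  obtain ⟨pi, KI, hyp⟩ := hyp3 hG hT' hS h4f hT R hg hw he' hee hr3 her0 hi hty hkk
  have hfz : (0 : ℤ) < f := by exact_mod_cast Nat.pos_of_ne_zero hf0
  have haz : ((aX 3 f : ℕ) : ℤ) - 1 = 3 * (2 * f) := by
    unfold aX q0
    push_cast
    norm_num
    ring
  have ha3 : (3 : ℤ) ∣ ((aX 3 f : ℕ) : ℤ) - 1 := by rw [haz]; exact Dvd.intro _ rfl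
  have ha1 : ((aX 3 f : ℕ) : ℤ) ≠ 1 := by
    intro h
    rw [h] at haz
    omega
  obtain ⟨m, hn, hmain⟩ := xn_HR V (f ^ 2) 2 (1 - i) (nuX e) _ pi KI _ hyp ((aX 3 f : ℕ) : ℤ) 4
    ha3 ha1 (by norm_num) (by norm_num) (n₀ + 2)
  refine ⟨m, by omega, by omega, ?_⟩
  rw [qsr3 hS he R kk m]
  have hprim := Hfx.prim 3 (m + 1) Nat.prime_three (-(4 * ((aX 3 f : ℕ) : ℤ) ^ 2)) (by
    intro h
    rw [dvd_neg] at h
    rcases Int.prime_three.dvd_or_dvd h with h | h
    · omega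
    · have h5 := Int.prime_three.dvd_of_dvd_pow h
      have h6 := dvd_sub h5 ha3
      rw [sub_sub_cancel] at h6
      omega)
  have hζ : ex (-((4 : ℚ) ^ 1 * (aX 3 f : ℚ) ^ 2) / ((3 ^ (m + 1) : ℕ) : ℚ)) =
      ex (((-(4 * ((aX 3 f : ℕ) : ℤ) ^ 2) : ℤ) : ℚ) / (3 : ℕ) ^ (m + 1)) := by
    push_cast
    rw [pow_one]
  rw [hζ]
  set ζ : ℂ := ex (((-(4 * ((aX 3 f : ℕ) : ℤ) ^ 2) : ℤ) : ℚ) / (3 : ℕ) ^ (m + 1)) with hζd
  have hrel : ζ ^ 3 ^ m * Complex.exp (2 * Real.pi * Complex.I / 3) = 1 := by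
    have h1 : Complex.exp (2 * Real.pi * Complex.I / 3) = ex ((1 : ℚ) / 3) := by
      unfold ex
      congr 1
      push_cast
      ring
    have h2 : ζ ^ 3 ^ m = ex (((-(4 * ((aX 3 f : ℕ) : ℤ) ^ 2) : ℤ) : ℚ) / 3) := by
      rw [hζd, Pool.Agent.MU3H.Qs.ex_pow]
      congr 1
      push_cast
      have : (3 : ℚ) ^ m ≠ 0 := pow_ne_zero _ (by norm_num)
      field_simp
      try ring
    obtain ⟨t, ht⟩ := ha3
    have h3 : ∃ k : ℤ, (-(4 * ((aX 3 f : ℕ) : ℤ) ^ 2) : ℤ) + 1 = 3 * k := by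
      refine ⟨-(12 * t ^ 2 + 8 * t + 1), ?_⟩
      have h4 : ((aX 3 f : ℕ) : ℤ) = 1 + 3 * t := by linarith
      rw [h4]
      ring
    obtain ⟨k, hk⟩ := h3
    rw [h1, h2, ← Pool.Agent.MU3H.Qs.ex_add]
    have h5 : ((-(4 * ((aX 3 f : ℕ) : ℤ) ^ 2) : ℤ) : ℚ) / 3 + 1 / 3 = (k : ℚ) := by
      have h6 : (((-(4 * ((aX 3 f : ℕ) : ℤ) ^ 2) : ℤ) + 1 : ℤ) : ℚ) = ((3 * k : ℤ) : ℚ) := by
        rw [hk]
      push_cast at h6 ⊢
      linear_combination (1 / 3) * h6
    rw [h5]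
    exact Pool.Agent.MU3H.Qs.ex_int k
  obtain ⟨hm0, hm1⟩ := hmain ζ hprim hrel
  have hz : V.valuation (ζ - 1) ^ (2 * 3 ^ m) = V.valuation (3 : ℂ) := by
    have h1 := Hz.val_p 3 Nat.prime_three V m ζ hprim
    rw [mul_comm 2 (3 ^ m)]
    simpa using h1
  have hu := hg.u0
  set Y : ℂ := ∑ b ∈ Finset.range (3 ^ (m + 1)), ζ ^ b *
      comb ((aX 3 f : ℕ) : ℤ) 4 1 (fun b => PhiKE R e kk ∞
        (((b : ℚ) / 3 ^ (m + 1) : ℚ) : OnePoint ℚ) / (3 * u * R.om R.i0)) b with hY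
  have e5 : (2 * (f : ℂ) * ∑ b ∈ Finset.range (3 ^ (m + 1)), ζ ^ b *
      comb ((aX 3 f : ℕ) : ℤ) 4 1 (fun b => PPE R e kk ∞
              ((b / ((3 ^ (m + 1) : ℕ) : ℚ) : ℚ) : OnePoint ℚ)) b) / u =
      2 * f * (3 * Y) := by
    rw [mul_div_assoc]
    congr 1
    rw [Finset.sum_div, hY, Finset.mul_sum]
    refine Finset.sum_congr rfl fun b _ => ?_
    rw [mul_div_assoc, mul_left_comm 3]
    congr 1
    have ho : R.om R.i0 ≠ 0 := (R.nl R.i0).om_ne
    have e6 : ∀ b : ℤ, PPE R e kk ∞ ((b / ((3 ^ (m + 1) : ℕ) : ℚ) : ℚ) : OnePoint ℚ) =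
        3 * u * (PhiKE R e kk ∞ (((b : ℚ) / 3 ^ (m + 1) : ℚ) : OnePoint ℚ) /
          (3 * u * R.om R.i0)) := by
      intro b
      unfold PPE
      rw [funext hkn]
      push_cast
      field_simp
    unfold comb
    rw [Finset.sum_div, Finset.mul_sum]
    refine Finset.sum_congr rfl fun j _ => ?_
    beta_reduce
    rw [e6, e6]
    field_simp
  have e5' : V.valuation ((2 * (f : ℂ) * ∑ b ∈ Finset.range (3 ^ (m + 1)), ζ ^ b *
      comb (aX 3 f) 4 1 (fun b => PPE R e kk ∞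
              ((b / ((3 ^ (m + 1) : ℕ) : ℚ) : ℚ) : OnePoint ℚ)) b) / u) =
      V.valuation (3 : ℂ) * V.valuation Y := by
    rw [e5, map_mul, map_mul, map_mul]
    have e8 : V.valuation (2 : ℂ) = 1 := by
      have := v1 2 (by norm_num)
      exact_mod_cast this
    have e9 : V.valuation (f : ℂ) = 1 := by
      have := v1 f (by
        intro h
        exact hS.fp (by exact_mod_cast h))
      exact_mod_cast this
    rw [e8, e9, one_mul, one_mul]
  rw [e5', mul_pow]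
  have hv30 : V.valuation (3 : ℂ) ≠ 0 := (Valuation.ne_zero_iff _).2 (by norm_num)
  have hpos : (0 : V.ValueGroup) < V.valuation (3 : ℂ) := zero_lt_iff.2 hv30
  have h9 : 9 ≤ 3 ^ m := by
    calc 9 = 3 ^ 2 := by norm_num
      _ ≤ 3 ^ m := Nat.pow_le_pow_right (by norm_num) (by omega)
  -- it is enough that `v(3)^3 < v(Y)^2`
  have hmain2 : V.valuation (3 : ℂ) ^ 3 < V.valuation Y ^ 2 := by
    rcases Nat.le_one_iff_eq_zero_or_eq_one.1 (show 1 - i ≤ 1 by omega) with h0 | h0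
    · have h1 := hm0 h0
      calc V.valuation (3 : ℂ) ^ 3 ≤ V.valuation (3 : ℂ) ^ 2 :=
            pow_le_pow_right_of_le_one' v3.le (by norm_num)
        _ < V.valuation Y ^ 2 := pow_lt_pow_left₀ h1 zero_le two_ne_zero
    · have h1 := hm1 h0
      by_contra hcon
      rw [not_lt] at hcon
      -- `v(Y)^4 ≤ v(3)^6`, and `v(ζ - 1)^8 ≤ 1`
      have hz1 : V.valuation (ζ - 1) ≤ 1 := by
        by_contra h2
        rw [not_le] at h2
        have h3 := one_le_pow₀ h2.le (n := 2 * 3 ^ m)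
        rw [hz] at h3
        exact absurd v3 (not_lt.2 h3)
      have h2 : V.valuation Y ^ 4 ≤ V.valuation (3 : ℂ) ^ 6 := by
        have := pow_le_pow_left₀ zero_le hcon 2
        rwa [← pow_mul, ← pow_mul] at this
      have h3 : V.valuation Y ^ 4 * V.valuation (ζ - 1) ^ 8 ≤ V.valuation (3 : ℂ) ^ 6 :=
        (mul_le_mul' h2 (pow_le_one' hz1 8)).trans (by rw [mul_one])
      have h4 : V.valuation (3 : ℂ) ^ 6 < V.valuation (3 : ℂ) ^ 5 :=
        pow_lt_pow_right_of_lt_one₀ hpos v3 (by norm_num)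
      exact absurd (h1.trans h3) (not_le.2 h4)
  calc V.valuation (3 : ℂ) ^ 5 = V.valuation (3 : ℂ) ^ 2 * V.valuation (3 : ℂ) ^ 3 := by
        rw [← pow_add]
    _ < V.valuation (3 : ℂ) ^ 2 * V.valuation Y ^ 2 := by
        exact mul_lt_mul_of_pos_left hmain2 (pow_pos hpos 2)

end

end Pool.Agent.MEH


end

section

/-!
# ME, block H, `D = -3`, `p = 3` without hypotheses (helper58)
-/

set_option autoImplicit false

namespace Pool.Agent.MEH

/-- the character sums for `D = -3` -/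
theorem h_HFIN3 : Pool.Agent.NSRD.Sq_HFIN_E :=
  hfin3 Pool.Agent.MEG.g_GPTR Pool.Agent.MET.tyf3

end Pool.Agent.MEH


end
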