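import Mathlib
import Pool.Agent.MVF.C124

/-! Parts: ME.JTE -/

namespace Pool.Agent.JTE.PHJ
end Pool.Agent.JTE.PHJ

section

/-!
# ME: every finite abelian extension of an exceptional field `k` is in a ray class field (helper4)

The port of `HB/J_PHJ.lean`, `J_FRJ.lean`, `J_JTC.lean`, `J_JTR.lean` (project JT) to the frame of `ME/DefsE.lean`. `TorXE.triv` needs `f ≤ (2)`: the modulus `f` is replaced by `2 f`
(`ray_two`: every ideal is principal, so every value of `ψ` is the value of an ideal prime to `2 f`).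
-/

set_option autoImplicit false

open NumberField IsDedekindDomain
open scoped nonZeroDivisors Pointwise

namespace Pool.Agent.JTE

open _root_.MU3 _root_.Pool.Agent.MU3A _root_.Pool.Agent.MU3B _root_.Pool.Agent.RI _root_.Pool.Agent.MUX _root_.Pool.Agent.MUXJ
open _root_.Pool.Agent.MUXU _root_.Pool.Agent.HB _root_.Pool.Agent.ME
open _root_.Pool.Agent.JT (RayHom AbvQ CycE Sj_JTA Sj_FRQ)
open _root_.Pool.Agent.MUXC.ZET (kk_fin fix_kk toAlg)

noncomputable section

namespace PHJ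

variable {A B : ℤ} {f : Ideal (OO A B)} {A' : Type} [CommGroup A'] {ψ : Ideal (OO A B) → A'}

lemma sp_ne {x : OO A B} (hx : x ≠ 0) : sp x ≠ ⊥ := by
  rwa [Ne, Ideal.span_singleton_eq_bot]

/-- the second lattice of `ActE` may be exchanged -/
lemma act_congr {s : ℂ ≃+* ℂ} {a : Ideal (OO A B)} {L L' L'' : PeriodPair} {mu : ℂ}
    (h' : NrmE A B L') (h'' : NrmE A B L'') (h : ActE s f a L L' mu) : ActE s f a L L'' mu := by
  obtain ⟨h4, hk, h5⟩ := Pool.Agent.MEC.c_SGQ A B L' L'' h' h''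
  refine ⟨hk.symm.trans h.kapE, h.cop, ⟨h.isq.1, fun z => ?_⟩, fun z hz => ?_⟩
  · rw [← h4]
    exact h.isq.2 z
  · rcases h.act z hz with h6 | h6
    · exact Or.inl ⟨h6.1, (h4 _).1 h6.2⟩
    · refine Or.inr ⟨h6.1, fun h7 => h6.2.1 ((h4 _).2 h7), ?_, ?_⟩
      · rw [h6.2.2.1]
        exact (h5 _).1
      · rw [h6.2.2.2]
        exact (h5 _).2

lemma ne_bot (hC : CQ A B) {s : ℂ ≃+* ℂ} {a b : Ideal (OO A B)} {L L' : PeriodPair} {om mu : ℂ}
    (hL : IsNE b L om) (h : ActE s f a L L' mu) : a ≠ ⊥ :=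
  (Pool.Agent.MUXC.c_QNE A B hC a L L' mu (hL.toIsLI.hasCM hC) h.isq).1

/-- two ideals of the same automorphism -/
lemma uniq (hC : CQ A B) (T : TorXE A B) (hf : f ≠ ⊥) (hψ : RayHom f A' ψ) {s : ℂ ≃+* ℂ}
    {a a' b : Ideal (OO A B)} {L L' L'' : PeriodPair} {om mu mu' : ℂ} (hL : IsNE b L om)
    (h' : NrmE A B L') (h'' : NrmE A B L'') (h : ActE s f a L L' mu)
    (h1 : ActE s f a' L L'' mu') : ψ a = ψ a' := by
  have h2 := act_congr h'' h' h1
  obtain ⟨x, y, hx, hx0, hy0, hxy, hxa, -⟩ := T.uniq f a a' s L L' mu mu' hf ⟨b, om, hL⟩ h h2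
  have hy : IsCoprime (sp y) f := by
    rw [Ideal.isCoprime_iff_exists] at hx ⊢
    obtain ⟨p, hp, q, hq, hpq⟩ := hx
    obtain ⟨t, rfl⟩ := Ideal.mem_span_singleton'.1 hp
    refine ⟨t * y, Ideal.mul_mem_left _ _ (Ideal.mem_span_singleton_self y),
      t * (x - y) + q, f.add_mem (f.mul_mem_left _ hxy) hq, ?_⟩
    rw [← hpq]
    ring
  have h3 := hψ.ray x y hx0 hy0 hx hxy
  have h4 := hψ.mul (sp x) a (sp_ne hx0) (ne_bot hC hL h) hx h.cop
  have h5 := hψ.mul (sp y) a' (sp_ne hy0) (ne_bot hC hL h1) hy h1.cop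
  rw [hxa, h5, h3] at h4
  exact (mul_left_cancel h4).symm

lemma psi_top (hψ : RayHom f A' ψ) : ψ ⊤ = 1 := by
  have h1 : IsCoprime (⊤ : Ideal (OO A B)) f := by
    rw [Ideal.isCoprime_iff_sup_eq]
    exact top_sup_eq _
  have h0 : (⊤ : Ideal (OO A B)) ≠ ⊥ := by
    intro h
    have h2 : (1 : OO A B) ∈ (⊥ : Ideal (OO A B)) := h ▸ trivial
    rw [Ideal.mem_bot] at h2
    have h3 : (1 : ℤ) = 0 := congrArg QuadraticAlgebra.re h2
    exact one_ne_zero h3
  have h2 := hψ.mul ⊤ ⊤ h0 h0 h1 h1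
  rw [Ideal.mul_top] at h2
  exact (mul_eq_left.1 h2.symm)

open Classical in
/-- the value of `ψ` at the ideals of `s` -/
def _root_.Pool.Agent.JTE.PHJ.ch (T : TorXE A B) (hf : f ≠ ⊥) (ψ : Ideal (OO A B) → A') (s : ℂ ≃+* ℂ) : A' :=
  if h : FixK A B s then ψ (T.act f hf s h).choose else 1

lemma _root_.Pool.Agent.JTE.PHJ.ch_eq (hC : CQ A B) (T : TorXE A B) (hf : f ≠ ⊥) (hψ : RayHom f A' ψ) {s : ℂ ≃+* ℂ}
    (hs : FixK A B s) {a b : Ideal (OO A B)} {L L' : PeriodPair} {om mu : ℂ} (hL : IsNE b L om)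
    (h' : NrmE A B L') (h : ActE s f a L L' mu) : _root_.Pool.Agent.JTE.PHJ.ch T hf ψ s = ψ a := by
  rw [_root_.Pool.Agent.JTE.PHJ.ch, dif_pos hs]
  obtain ⟨-, h2⟩ := (T.act f hf s hs).choose_spec
  obtain ⟨b'', L'', om'', mu'', hL'', h3⟩ := h2 b L om hL
  exact uniq hC T hf hψ hL hL''.nrm h' h3 h

/-- composition -/
lemma _root_.Pool.Agent.JTE.PHJ.ch_mul (hC : CQ A B) (T : TorXE A B) (hf : f ≠ ⊥) (hψ : RayHom f A' ψ)
    (hN : NLex_E A B) {s t : ℂ ≃+* ℂ} (hs : FixK A B s) (ht : FixK A B t) :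
    _root_.Pool.Agent.JTE.PHJ.ch T hf ψ (s.trans t) = _root_.Pool.Agent.JTE.PHJ.ch T hf ψ s * _root_.Pool.Agent.JTE.PHJ.ch T hf ψ t := by
  obtain ⟨b, L, om, hL⟩ := hN
  have hst : FixK A B (s.trans t) := by
    show t (s (wC A B)) = wC A B
    rw [hs, ht]
  obtain ⟨a, -, ha⟩ := T.act f hf s hs
  obtain ⟨c, -, hc⟩ := T.act f hf t ht
  obtain ⟨b', L', om', mu, hL', h1⟩ := ha b L om hL
  obtain ⟨b'', L'', om'', nu, hL'', h2⟩ := hc b' L' om' hL'
  have h3 := T.comp f a c s t L L' L'' mu nu h1 h2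
  rw [_root_.Pool.Agent.JTE.PHJ.ch_eq hC T hf hψ hst hL hL''.nrm h3, _root_.Pool.Agent.JTE.PHJ.ch_eq hC T hf hψ hs hL hL'.nrm h1,
    _root_.Pool.Agent.JTE.PHJ.ch_eq hC T hf hψ ht hL' hL''.nrm h2]
  exact hψ.mul a c (ne_bot hC hL h1) (ne_bot hC hL' h2) h1.cop h2.cop

/-- automorphisms which are trivial on `RFE f` -/
lemma _root_.Pool.Agent.JTE.PHJ.ch_one (hC : CQ A B) (T : TorXE A B) (hf : f ≠ ⊥) (h2f : f ≤ idl 2 ∨ f = ⊤)
    (hψ : RayHom f A' ψ)
    (hN : NLex_E A B) {s : ℂ ≃+* ℂ} (hs : FixK A B s) (h : ∀ y ∈ RFE f, s y = y) :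
    _root_.Pool.Agent.JTE.PHJ.ch T hf ψ s = 1 := by
  obtain ⟨b, L, om, hL⟩ := hN
  obtain ⟨a, -, ha⟩ := T.act f hf s hs
  obtain ⟨b', L', om', mu, hL', h1⟩ := ha b L om hL
  rw [_root_.Pool.Agent.JTE.PHJ.ch_eq hC T hf hψ hs hL hL'.nrm h1]
  obtain ⟨c, hc, rfl⟩ := (T.triv f a s b L L' om mu hf h2f hs hL h1 hL'.nrm).1 h
  have hc0 : c ≠ 0 := by
    rintro rfl
    apply ne_bot hC hL h1
    rw [Ideal.span_singleton_eq_bot]
  have h10 : (1 : OO A B) ≠ 0 := by
    intro h2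
    have h3 : (1 : ℤ) = 0 := congrArg QuadraticAlgebra.re h2
    exact one_ne_zero h3
  rw [hψ.ray c 1 hc0 h10 h1.cop hc]
  have h4 : sp (1 : OO A B) = ⊤ := Ideal.span_singleton_one
  rw [h4]
  exact psi_top hψ

end PHJ

open _root_.Pool.Agent.JTE.PHJ in
/-- (PHJ) the map factors through the Galois group of `RFE f`; `f` even or `f = (1)` -/
theorem phj {A B : ℤ} (hC : CQ A B) (T : TorXE A B) (hN : NLex_E A B) (f : Ideal (OO A B))
    (A' : Type) [CommGroup A'] (ψ : Ideal (OO A B) → A') (hf : f ≠ ⊥)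
    (h2f : f ≤ idl 2 ∨ f = ⊤) (hψ : RayHom f A' ψ) :
    ∃ Ψ : ((RFE f : IntermediateField (kk A B) ℂ) ≃ₐ[kk A B] RFE f) →* A',
      Function.Surjective Ψ ∧
      ∀ (τ : (RFE f : IntermediateField (kk A B) ℂ) ≃ₐ[kk A B] RFE f) (s : ℂ ≃+* ℂ),
        FixK A B s →
        (∀ y : (RFE f : IntermediateField (kk A B) ℂ), s (y : ℂ) = ((τ y : _) : ℂ)) →
        ∀ (a b b' : Ideal (OO A B)) (L L' : PeriodPair) (om om' mu : ℂ), IsNE b L om →
          IsNE b' L' om' → ActE s f a L L' mu → Ψ τ = ψ a := by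
  have hfd := T.fin f hf
  have hgal := T.gal f hf
  have hk := Pool.Agent.MUXC.FGL.isAlgebraic_kk hC
  have halgF : Algebra.IsAlgebraic ℚ ((RFE f).restrictScalars ℚ) := by
    have h5 : Algebra.IsAlgebraic (kk A B) (RFE f) := Algebra.IsAlgebraic.of_finite _ _
    exact Algebra.IsAlgebraic.trans ℚ (kk A B) (RFE f)
  -- extensions
  have hext : ∀ τ : (RFE f : IntermediateField (kk A B) ℂ) ≃ₐ[kk A B] RFE f,
      ∃ s : ℂ ≃+* ℂ, FixK A B s ∧
        ∀ y : (RFE f : IntermediateField (kk A B) ℂ), s (y : ℂ) = ((τ y : _) : ℂ) := by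
    intro τ
    obtain ⟨s, hs⟩ := u_AUE ((RFE f).restrictScalars ℚ) halgF
      ((algebraMap (RFE f) ℂ).comp (τ : RFE f →+* RFE f))
    have hs' : ∀ x : RFE f, s (x : ℂ) = ((τ x : _) : ℂ) := hs
    refine ⟨s, ?_, hs'⟩
    have h6 := hs' (algebraMap (kk A B) (RFE f) ⟨wC A B, _root_.Pool.Agent.MU3A.wC_mem A B⟩)
    rw [τ.commutes] at h6
    exact h6
  -- two extensions of the same `τ`
  have huniq : ∀ (τ : (RFE f : IntermediateField (kk A B) ℂ) ≃ₐ[kk A B] RFE f) (s s' : ℂ ≃+* ℂ),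
      FixK A B s → FixK A B s' →
      (∀ y : (RFE f : IntermediateField (kk A B) ℂ), s (y : ℂ) = ((τ y : _) : ℂ)) →
      (∀ y : (RFE f : IntermediateField (kk A B) ℂ), s' (y : ℂ) = ((τ y : _) : ℂ)) →
      _root_.Pool.Agent.JTE.PHJ.ch T hf ψ s = _root_.Pool.Agent.JTE.PHJ.ch T hf ψ s' := by
    intro τ s s' hs hs' h h'
    have hsi : FixK A B s.symm := by
      show s.symm (wC A B) = wC A B
      rw [RingEquiv.symm_apply_eq]
      exact hs.symm
    have ht : FixK A B (s.symm.trans s') := by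
      show s' (s.symm (wC A B)) = wC A B
      rw [hsi, hs']
    have h1 : _root_.Pool.Agent.JTE.PHJ.ch T hf ψ (s.symm.trans s') = 1 := by
      refine _root_.Pool.Agent.JTE.PHJ.ch_one hC T hf h2f hψ hN ht fun y hy => ?_
      have h2 : y = s ((τ.symm ⟨y, hy⟩ : RFE f) : ℂ) := by
        rw [h, AlgEquiv.apply_symm_apply]
      show s' (s.symm y) = y
      conv_lhs => rw [h2]
      rw [RingEquiv.symm_apply_apply, h', AlgEquiv.apply_symm_apply]
    have h3 : s.trans (s.symm.trans s') = s' := by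
      apply RingEquiv.ext
      intro x
      show s' (s.symm (s x)) = s' x
      rw [RingEquiv.symm_apply_apply]
    have h4 := _root_.Pool.Agent.JTE.PHJ.ch_mul hC T hf hψ hN hs ht
    rw [h3, h1, mul_one] at h4
    exact h4.symm
  choose e he1 he2 using hext
  have hΨ : ∀ (τ : (RFE f : IntermediateField (kk A B) ℂ) ≃ₐ[kk A B] RFE f) (s : ℂ ≃+* ℂ),
      FixK A B s →
      (∀ y : (RFE f : IntermediateField (kk A B) ℂ), s (y : ℂ) = ((τ y : _) : ℂ)) →
      _root_.Pool.Agent.JTE.PHJ.ch T hf ψ (e τ) = _root_.Pool.Agent.JTE.PHJ.ch T hf ψ s := fun τ s hs h => huniq τ _ _ (he1 τ) hs (he2 τ) h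
  refine ⟨{ toFun := fun τ => _root_.Pool.Agent.JTE.PHJ.ch T hf ψ (e τ)
            map_one' := ?_
            map_mul' := ?_ }, ?_, ?_⟩
  · have h1 := hΨ 1 (RingEquiv.refl ℂ) rfl (fun y => rfl)
    rw [h1]
    exact _root_.Pool.Agent.JTE.PHJ.ch_one hC T hf h2f hψ hN rfl fun y _ => rfl
  · intro τ₁ τ₂
    have h1 := hΨ (τ₁ * τ₂) ((e τ₂).trans (e τ₁)) (by
      show e τ₁ (e τ₂ (wC A B)) = wC A B
      rw [he1 τ₂, he1 τ₁]) (fun y => by
      show e τ₁ (e τ₂ (y : ℂ)) = _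
      rw [he2, he2]
      rfl)
    rw [h1, _root_.Pool.Agent.JTE.PHJ.ch_mul hC T hf hψ hN (he1 τ₂) (he1 τ₁), mul_comm]
  · intro g
    obtain ⟨a, ha0, hac, rfl⟩ := hψ.sur g
    obtain ⟨s, hs, hsa⟩ := T.surj f hf a ha0 hac
    obtain ⟨b, L, om, hL⟩ := hN
    obtain ⟨b', L', om', mu, hL', h1⟩ := hsa b L om hL
    let s' : ℂ ≃ₐ[kk A B] ℂ := AlgEquiv.ofRingEquiv (f := s)
      (fun x => Pool.Agent.MUXC.FGL.fix hs _ x.2)
    refine ⟨s'.restrictNormal (RFE f), ?_⟩
    have h2 := hΨ (s'.restrictNormal (RFE f)) s hs (fun y => by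
      have h3 := AlgEquiv.restrictNormal_commutes s' (RFE f) y
      exact h3.symm)
    show _root_.Pool.Agent.JTE.PHJ.ch T hf ψ (e (s'.restrictNormal (RFE f))) = ψ a
    rw [h2]
    exact _root_.Pool.Agent.JTE.PHJ.ch_eq hC T hf hψ hs hL hL'.nrm h1
  · intro τ s hs h a b b' L L' om om' mu hL hL' hA
    show _root_.Pool.Agent.JTE.PHJ.ch T hf ψ (e τ) = ψ a
    rw [hΨ τ s hs h]
    exact _root_.Pool.Agent.JTE.PHJ.ch_eq hC T hf hψ hs hL hL'.nrm hA

open _root_.Pool.Agent.JT.FRJ in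
/-- (FRJ) automorphisms which fix `E` fix the field which belongs to `ψ` -/
theorem frj (hFRQ : Sj_FRQ) {A B : ℤ} (hQE : CaseE A B) (T : TorXE A B) (hNL : NLex_E A B)
    (E : IntermediateField ℚ ℂ) [hEf : FiniteDimensional ℚ E] (hkE : kk A B ≤ E)
    (f : Ideal (OO A B)) (A' : Type) [CommGroup A'] (ψ : Ideal (OO A B) → A')
    (Ψ : ((RFE f : IntermediateField (kk A B) ℂ) ≃ₐ[kk A B] RFE f) →* A') (hf : f ≠ ⊥)
    (hψ : ∀ (Q : Ideal (OO A B)) (q : ℕ), q.Prime → Q.IsPrime → nI Q = q → IsCoprime Q f →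
      AbvQ E Q q → ψ Q = 1)
    (hΨ : ∀ (τ : (RFE f : IntermediateField (kk A B) ℂ) ≃ₐ[kk A B] RFE f) (s : ℂ ≃+* ℂ),
      FixK A B s →
      (∀ y : (RFE f : IntermediateField (kk A B) ℂ), s (y : ℂ) = ((τ y : _) : ℂ)) →
      ∀ (a b b' : Ideal (OO A B)) (L L' : PeriodPair) (om om' mu : ℂ), IsNE b L om →
        IsNE b' L' om' → ActE s f a L L' mu → Ψ τ = ψ a)
    (s : ℂ ≃+* ℂ) (hs : ∀ x ∈ E, s x = x) (y : (RFE f : IntermediateField (kk A B) ℂ))
    (hy : ∀ τ : (RFE f : IntermediateField (kk A B) ℂ) ≃ₐ[kk A B] RFE f, Ψ τ = 1 → τ y = y) :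
    s (y : ℂ) = y := by
  have hQ : CQ A B := hQE.toCQ
  have hR : Pool.Agent.MUXE.RingE A B := Pool.Agent.MUXE.te_RNG A B hQ
  have hkf := kk_fin hQ
  have hRf : FiniteDimensional (kk A B) (RFE f : IntermediateField (kk A B) ℂ) := T.fin f hf
  have hRg : IsGalois (kk A B) (RFE f : IntermediateField (kk A B) ℂ) := T.gal f hf
  have hRQ : FiniteDimensional ℚ (RFE f : IntermediateField (kk A B) ℂ) :=
    Pool.Agent.FX.ftrans ℚ (kk A B) _
  -- the field N
  set R₀ : IntermediateField ℚ ℂ := (RFE f : IntermediateField (kk A B) ℂ).restrictScalars ℚ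
    with hR₀
  have hR₀f : FiniteDimensional ℚ R₀ := hRQ
  set M : IntermediateField ℚ ℂ := E ⊔ R₀ with hM
  have hMf : FiniteDimensional ℚ M := IntermediateField.finiteDimensional_sup E R₀
  set N : IntermediateField ℚ ℂ := IntermediateField.normalClosure ℚ M ℂ with hNdef
  have hMN : M ≤ N := IntermediateField.le_normalClosure M
  have hEN : E ≤ N := le_sup_left.trans hMN
  have hRN : R₀ ≤ N := le_sup_right.trans hMN
  have hkN : kk A B ≤ N := hkE.trans hEN
  have hNf : FiniteDimensional ℚ N := inferInstance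
  have hNc : IsNormalClosure ℚ M N := Algebra.IsAlgebraic.isNormalClosure_normalClosure
    fun _ => IsAlgClosed.splits _
  have hNn : Normal ℚ N := hNc.normal
  have hNg : IsGalois ℚ N := ⟨⟩
  -- the automorphism g
  let sQ : ℂ ≃ₐ[ℚ] ℂ := AlgEquiv.ofRingEquiv (f := s) fun x => map_ratCast s x
  let g : N ≃ₐ[ℚ] N := sQ.restrictNormal N
  have hg : ∀ x : N, ((g x : N) : ℂ) = s (x : ℂ) := fun x => sQ.restrictNormal_commutes N x
  obtain ⟨n₀, hn₀, hFRO⟩ := Pool.Agent.MEC.c_FRO A B hQE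
  have hnf : nI f ≠ 0 := nI_ne_zero hQ hf
  obtain ⟨q, P, φ, V, hq, hqn, hP, hqP, hzp, hV, hφ, hD⟩ :=
    hFRQ N g (n₀ * nI f) (mul_ne_zero hn₀ hnf)
  have hqn₀ : ¬ q ∣ n₀ := fun h => hqn (h.mul_right _)
  have hqf : ¬ q ∣ nI f := fun h => hqn (h.mul_left _)
  have hgE : ∀ x : N, (x : ℂ) ∈ E → g x = x := fun x hx => Subtype.ext ((hg x).trans (hs _ hx))
  have hgk : ∀ x : N, (x : ℂ) ∈ kk A B → g x = x := fun x hx => hgE x (hkE hx)
  -- φ is a power of g and conversely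
  have hstab : ∀ x : N, (g x = x ↔ φ x = x) := by
    intro x
    have key : ∀ a b : N ≃ₐ[ℚ] N, b ∈ Subgroup.zpowers a → a x = x → b x = x := by
      intro a b hb ha
      have h1 : Subgroup.zpowers a ≤ MulAction.stabilizer (N ≃ₐ[ℚ] N) x := by
        rw [Subgroup.zpowers_le]
        exact ha
      exact h1 hb
    exact ⟨key g φ (hzp ▸ Subgroup.mem_zpowers φ), key φ g (hzp ▸ Subgroup.mem_zpowers g)⟩
  -- the prime Q
  set Q : Ideal (OO A B) := P.comap (rho hQ hR hkN) with hQdef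
  have hQp : Q.IsPrime := hP.comap _
  have hnQ : nI Q = q := by
    rw [hQdef, card_quot]
    exact hD (kk A B) hkN hgk
  have hqQ : ((q : ℕ) : OO A B) ∈ Q := by
    rw [hQdef, Ideal.mem_comap, map_natCast]
    exact hqP
  have hcop : IsCoprime Q f := coprime_of hq hqQ (nI_mem hQ hf) hqf
  have hVQ : OverI V Q := by
    intro x
    rw [hQdef, Ideal.mem_comap, ← hV, rho_coe]
  have hAbv : AbvQ E Q q := by
    refine ⟨P.comap (RingOfIntegers.mapRingHom
      (IntermediateField.inclusion hEN : E →+* N)), hP.comap _, hD E hEN hgE, ?_⟩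
    intro x z hz
    rw [hQdef, Ideal.mem_comap, Ideal.mem_comap]
    have : rho hQ hR hkN x = RingOfIntegers.mapRingHom
      (IntermediateField.inclusion hEN : E →+* N) z := by
      apply coe_inj
      rw [rho_coe, ← hz]
      rfl
    rw [this]
  have hψQ : ψ Q = 1 := hψ Q q hq hQp hnQ hcop hAbv
  -- extension of φ
  obtain ⟨s', hs'⟩ := Pool.Agent.MUXU.u_AUE N inferInstance
    ((N.val : N →+* ℂ).comp (φ : N →+* N))
  have hs'1 : ∀ x : N, s' (x : ℂ) = ((φ x : N) : ℂ) := hs'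
  have hfix : FixK A B s' := by
    have hw : wC A B ∈ N := hkN (_root_.Pool.Agent.MU3A.wC_mem A B)
    have h1 := hs'1 ⟨wC A B, hw⟩
    have h2 : φ ⟨wC A B, hw⟩ = ⟨wC A B, hw⟩ := (hstab _).1 (hgk _ (_root_.Pool.Agent.MU3A.wC_mem A B))
    rw [h2] at h1
    exact h1
  obtain ⟨b, L, om, hL⟩ := hNL
  obtain ⟨b', L', om', mu, hL', hact⟩ := hFRO f hf Q q hq hnQ hqn₀ hqf V hVQ s' hfix (by
    intro x hx hxV
    have hxN : x ∈ N := hRN hx
    have h1 := hφ ⟨x, hxN⟩ hxV
    rw [← hs'1] at h1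
    exact h1) b L om hL
  -- the restriction of s' to RFE f
  let t : ℂ ≃ₐ[kk A B] ℂ := toAlg hfix
  let τ : (RFE f : IntermediateField (kk A B) ℂ) ≃ₐ[kk A B] RFE f := t.restrictNormal _
  have hτ : ∀ z : (RFE f : IntermediateField (kk A B) ℂ), s' (z : ℂ) = ((τ z : _) : ℂ) :=
    fun z => (t.restrictNormal_commutes (RFE f : IntermediateField (kk A B) ℂ) z).symm
  have h1 : Ψ τ = 1 := by
    rw [hΨ τ s' hfix hτ Q b b' L L' om om' mu hL hL' hact, hψQ]
  have h2 : τ y = y := hy τ h1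
  have hyN : (y : ℂ) ∈ N := hRN y.2
  have h3 : φ ⟨y, hyN⟩ = ⟨y, hyN⟩ := by
    apply Subtype.ext
    rw [← hs'1 ⟨(y : ℂ), hyN⟩]
    rw [show s' ((⟨(y : ℂ), hyN⟩ : N) : ℂ) = s' (y : ℂ) from rfl, hτ y, h2]
  have h4 : g ⟨y, hyN⟩ = ⟨y, hyN⟩ := (hstab _).2 h3
  have h5 := hg ⟨y, hyN⟩
  rw [h4] at h5
  exact h5.symm

/-! ### The modulus `2 f` -/

/-- every ideal is principal -/
lemma princ {A B : ℤ} (hE : CaseE A B) {a : Ideal (OO A B)} (ha : a ≠ ⊥) :
    ∃ β : OO A B, β ≠ 0 ∧ a = sp β := by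
  have hC := hE.toCQ
  have htop : (⊤ : Ideal (OO A B)) ≠ ⊥ := by
    intro h0
    have h3 : (1 : OO A B) ∈ (⊥ : Ideal (OO A B)) := h0 ▸ trivial
    rw [Ideal.mem_bot] at h3
    have h4 : (1 : ℤ) = 0 := congrArg QuadraticAlgebra.re h3
    exact one_ne_zero h4
  obtain ⟨L₀, om₀, hL₀⟩ := Pool.Agent.MEC.exists_isNE hE (⊤ : Ideal (OO A B)) htop
  obtain ⟨L, om, hL⟩ := Pool.Agent.MEC.exists_isNE hE a ha
  obtain ⟨h1, -, -⟩ := Pool.Agent.MEC.c_SGQ A B L₀ L hL₀.nrm hL.nrm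
  have h0 : om₀ ∈ L₀.lattice := (hL₀.mem _).2 ⟨1, trivial, by rw [MUX.emb_one hC, mul_one]⟩
  obtain ⟨β, hβ, hom⟩ := (hL.mem _).1 ((h1 _).1 h0)
  refine ⟨β, ?_, ?_⟩
  · rintro rfl
    rw [MUX.emb_zero hC, mul_zero] at hom
    exact hL₀.om_ne hom
  · apply le_antisymm
    · intro x hx
      have h2 : om * emb x ∈ L.lattice := (hL.mem _).2 ⟨x, hx, rfl⟩
      obtain ⟨y, -, hy⟩ := (hL₀.mem _).1 ((h1 _).2 h2)
      rw [hom, mul_assoc, ← MUX.emb_mul hC] at hy
      have h3 := MUX.emb_inj hC (mul_left_cancel₀ hL.om_ne hy)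
      rw [h3]
      exact Ideal.mul_mem_right _ _ (Ideal.mem_span_singleton_self β)
    · rw [Ideal.span_singleton_le_iff_mem]
      exact hβ

/-- there is only one prime ideal above `2` -/
lemma two_max {A B : ℤ} (hE : CaseE A B) {M : Ideal (OO A B)} (hM : M.IsPrime)
    (h2 : ((2 : ℕ) : OO A B) ∈ M) (x : OO A B) : x ∈ M ↔ (2 : ℤ) ∣ nm x := by
  have hC := hE.toCQ
  constructor
  · intro hx
    by_contra h
    have h1 : ((nm x : ℤ) : OO A B) ∈ M := by
      rw [← MUX.mul_star x]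
      exact M.mul_mem_right _ hx
    obtain ⟨k, hk⟩ : ∃ k, nm x = 2 * k + 1 := ⟨nm x / 2, by omega⟩
    apply hM.ne_top
    rw [Ideal.eq_top_iff_one]
    have h3 : (1 : OO A B) = ((nm x : ℤ) : OO A B) - ((2 : ℕ) : OO A B) * (k : OO A B) := by
      rw [hk]
      push_cast
      ring
    rw [h3]
    exact M.sub_mem h1 (M.mul_mem_right _ h2)
  · intro hn
    have hA := hE.hA
    subst hA
    rcases hC.hB with hB | hB
    · subst hB
      have hϖ : (⟨1, 1⟩ : OO (-1) 0) ∈ M := by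
        have h3 : (⟨1, 1⟩ : OO (-1) 0) * ⟨1, 1⟩ = ((2 : ℕ) : OO (-1) 0) * ⟨0, 1⟩ := by
          ext
          · rw [QuadraticAlgebra.re_mul, QuadraticAlgebra.re_mul, QuadraticAlgebra.re_natCast,
              QuadraticAlgebra.im_natCast]
            norm_num
          · rw [QuadraticAlgebra.im_mul, QuadraticAlgebra.im_mul, QuadraticAlgebra.re_natCast,
              QuadraticAlgebra.im_natCast]
            norm_num
        have h4 : (⟨1, 1⟩ : OO (-1) 0) * ⟨1, 1⟩ ∈ M := by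
          rw [h3]
          exact M.mul_mem_right _ h2
        rcases hM.mem_or_mem h4 with h | h <;> exact h
      have hn' : nm x = x.re ^ 2 + x.im ^ 2 := by
        unfold nm
        ring
      have hd : (2 : ℤ) ∣ x.re - x.im := by
        rw [hn'] at hn
        have h3 : (2 : ℤ) ∣ (x.re - x.im) ^ 2 := by
          have h4 : (x.re - x.im) ^ 2 = (x.re ^ 2 + x.im ^ 2) - 2 * (x.re * x.im) := by ring
          rw [h4]
          exact dvd_sub hn (Dvd.intro _ rfl)
        exact Int.prime_two.dvd_of_dvd_pow h3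
      obtain ⟨k, hk⟩ := hd
      have hx : x = ((2 : ℕ) : OO (-1) 0) * (k : OO (-1) 0) + (x.im : OO (-1) 0) * ⟨1, 1⟩ := by
        ext
        · rw [QuadraticAlgebra.re_add, QuadraticAlgebra.re_mul, QuadraticAlgebra.re_mul,
            QuadraticAlgebra.re_natCast, QuadraticAlgebra.im_natCast,
            QuadraticAlgebra.re_intCast, QuadraticAlgebra.im_intCast,
            QuadraticAlgebra.re_intCast, QuadraticAlgebra.im_intCast]
          push_cast
          linarith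
        · rw [QuadraticAlgebra.im_add, QuadraticAlgebra.im_mul, QuadraticAlgebra.im_mul,
            QuadraticAlgebra.re_natCast, QuadraticAlgebra.im_natCast,
            QuadraticAlgebra.re_intCast, QuadraticAlgebra.im_intCast,
            QuadraticAlgebra.re_intCast, QuadraticAlgebra.im_intCast]
          push_cast
          ring
      rw [hx]
      exact M.add_mem (M.mul_mem_right _ h2) (M.mul_mem_left _ hϖ)
    · subst hB
      have hn' : nm x = x.re ^ 2 + x.re * x.im + x.im ^ 2 := by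
        unfold nm
        ring
      have hd : (2 : ℤ) ∣ x.re ∧ (2 : ℤ) ∣ x.im := by
        rw [hn'] at hn
        rcases Int.emod_two_eq_zero_or_one x.re with h3 | h3 <;>
          rcases Int.emod_two_eq_zero_or_one x.im with h4 | h4
        · exact ⟨Int.dvd_of_emod_eq_zero h3, Int.dvd_of_emod_eq_zero h4⟩
        all_goals
          exfalso
          obtain ⟨a, ha⟩ : ∃ a, x.re = 2 * a + x.re % 2 := ⟨x.re / 2, by omega⟩
          obtain ⟨c, hc⟩ : ∃ c, x.im = 2 * c + x.im % 2 := ⟨x.im / 2, by omega⟩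
          rw [h3] at ha
          rw [h4] at hc
          rw [ha, hc] at hn
          obtain ⟨t, ht⟩ := hn
          ring_nf at ht
          omega
      obtain ⟨⟨a, ha⟩, ⟨c, hc⟩⟩ := hd
      have hx : x = ((2 : ℕ) : OO (-1) 1) * ⟨a, c⟩ := by
        ext
        · rw [QuadraticAlgebra.re_mul, QuadraticAlgebra.re_natCast, QuadraticAlgebra.im_natCast, ha]
          push_cast
          ring
        · rw [QuadraticAlgebra.im_mul, QuadraticAlgebra.re_natCast, QuadraticAlgebra.im_natCast, hc]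
          push_cast
          ring
      rw [hx]
      exact M.mul_mem_right _ h2

/-- `ψ` as a map on the ideals prime to `2 f` -/
lemma ray_two {A B : ℤ} (hE : CaseE A B) {f : Ideal (OO A B)} {A' : Type} [CommGroup A']
    {ψ : Ideal (OO A B) → A'} (h : RayHom f A' ψ) : RayHom (f * idl 2) A' ψ := by
  have hC := hE.toCQ
  have hR := Pool.Agent.MUXE.te_RNG A B hC
  have hdom : IsDomain (OO A B) := Pool.Agent.MUX.isDomain hC
  have hcop : ∀ a : Ideal (OO A B), IsCoprime a (f * idl 2) → IsCoprime a f :=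
    fun a ha => ha.of_mul_right_left
  refine ⟨fun a b ha hb hac hbc => h.mul a b ha hb (hcop a hac) (hcop b hbc),
    fun x y hx hy hxc hxy => h.ray x y hx hy (hcop _ hxc) (Ideal.mul_le_left hxy), ?_⟩
  intro g
  obtain ⟨a, ha, hac, rfl⟩ := h.sur g
  obtain ⟨α, hα0, rfl⟩ := princ hE ha
  -- an element prime to `2 f` which is congruent to `α` modulo `f`
  obtain ⟨β, hβα, hβ2⟩ : ∃ β : OO A B, α - β ∈ f ∧ IsCoprime (sp β) (idl (A := A) (B := B) 2) := by
    by_cases hα2 : sp α ⊔ idl (A := A) (B := B) 2 = ⊤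
    · exact ⟨α, by rw [sub_self]; exact f.zero_mem, Ideal.isCoprime_iff_sup_eq.2 hα2⟩
    obtain ⟨M, hM, hle⟩ := Ideal.exists_le_maximal _ hα2
    have h2M : ((2 : ℕ) : OO A B) ∈ M := hle (Ideal.mem_sup_right (Ideal.mem_span_singleton_self _))
    have hαM : α ∈ M := hle (Ideal.mem_sup_left (Ideal.mem_span_singleton_self _))
    have hf2 : f ⊔ idl (A := A) (B := B) 2 = ⊤ := by
      by_contra hne
      obtain ⟨M', hM', hle'⟩ := Ideal.exists_le_maximal _ hne
      have h2M' : ((2 : ℕ) : OO A B) ∈ M' :=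
        hle' (Ideal.mem_sup_right (Ideal.mem_span_singleton_self _))
      have hMM : α ∈ M' := (two_max hE hM'.isPrime h2M' α).2
        ((two_max hE hM.isPrime h2M α).1 hαM)
      apply hM'.ne_top
      rw [eq_top_iff, ← Ideal.isCoprime_iff_sup_eq.1 hac]
      exact sup_le ((Ideal.span_singleton_le_iff_mem _).2 hMM) (le_sup_left.trans hle')
    obtain ⟨p, hp, q, hq, hpq⟩ := Ideal.isCoprime_iff_exists.1
      (Ideal.isCoprime_iff_sup_eq.2 hf2)
    refine ⟨α * q + p, ?_, ?_⟩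
    · have h1 : α - (α * q + p) = α * p - p := by
        have h3 : q = 1 - p := by rw [← hpq]; ring
        rw [h3]
        ring
      rw [h1]
      exact f.sub_mem (f.mul_mem_left _ hp) hp
    · rw [Ideal.isCoprime_iff_exists]
      refine ⟨α * q + p, Ideal.mem_span_singleton_self _, q - α * q,
        Ideal.sub_mem _ hq (Ideal.mul_mem_left _ _ hq), ?_⟩
      rw [← hpq]
      ring
  have hβf : IsCoprime (sp β) f := by
    obtain ⟨p, hp, q, hq, hpq⟩ := Ideal.isCoprime_iff_exists.1 hac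
    obtain ⟨t, rfl⟩ := Ideal.mem_span_singleton'.1 hp
    rw [Ideal.isCoprime_iff_exists]
    refine ⟨t * β, Ideal.mul_mem_left _ _ (Ideal.mem_span_singleton_self β),
      t * (α - β) + q, f.add_mem (f.mul_mem_left _ hβα) hq, ?_⟩
    rw [← hpq]
    ring
  have hβ0 : β ≠ 0 := by
    rintro rfl
    have h0 : sp (0 : OO A B) = ⊥ := Ideal.span_singleton_eq_bot.2 rfl
    rw [h0, Ideal.isCoprime_iff_sup_eq, bot_sup_eq] at hβ2
    have h1 : (1 : OO A B) ∈ idl (A := A) (B := B) 2 := hβ2 ▸ trivial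
    obtain ⟨t, ht⟩ := Ideal.mem_span_singleton'.1 h1
    have h2 := congrArg QuadraticAlgebra.re ht
    have h3 : (1 : OO A B).re = 1 := rfl
    rw [QuadraticAlgebra.re_mul, QuadraticAlgebra.re_natCast, QuadraticAlgebra.im_natCast, h3] at h2
    push_cast at h2
    omega
  refine ⟨sp β, PHJ.sp_ne hβ0, hβf.mul_right hβ2, ?_⟩
  exact (h.ray α β hα0 hβ0 hac hβα).symm

open _root_.Pool.Agent.JT.JTC in
/-- (JTC) the cyclic case. -/
theorem jtc (hJTA : Sj_JTA) (hFRQ : Sj_FRQ) {A B : ℤ} (hE : CaseE A B) (hT : TorXE A B)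
    (hNL : NLex_E A B) (E : IntermediateField ℚ ℂ) [FiniteDimensional ℚ E] (hk : kk A B ≤ E)
    (l m : ℕ) (hl : l.Prime) (hcyc : CycE hk (l ^ m)) : TorU_E A B E := by
  have hCQ : CQ A B := hE.toCQ
  have hdom : IsDomain (OO A B) := Pool.Agent.MUX.isDomain hCQ
  obtain ⟨f₀, A', i1, i2, ψ, hf₀, hcard, hray₀, hQ₀⟩ := hJTA A B hCQ E hk l m hl hcyc
  obtain ⟨f, hff⟩ : ∃ f, f = f₀ * idl (A := A) (B := B) 2 := ⟨_, rfl⟩
  have hf : f ≠ ⊥ := by
    rw [hff]
    exact mul_ne_zero hf₀ (by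
      rw [Ne, Ideal.zero_eq_bot, Ideal.span_singleton_eq_bot]
      exact natCast_ne_zero' hCQ two_ne_zero)
  have hray : RayHom f A' ψ := by
    rw [hff]
    exact ray_two hE hray₀
  have hQ : ∀ (Q : Ideal (OO A B)) (q : ℕ), q.Prime → Q.IsPrime → nI Q = q → IsCoprime Q f →
      AbvQ E Q q → ψ Q = 1 := by
    intro Q q hq hQp hnQ hQf hA
    refine hQ₀ Q q hq hQp hnQ ?_ hA
    rw [hff] at hQf
    exact hQf.of_mul_right_left
  have h2f : f ≤ idl (A := A) (B := B) 2 ∨ f = ⊤ := Or.inl (by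
    rw [hff]
    exact Ideal.mul_le_right (I := f₀) (J := idl (A := A) (B := B) 2))
  obtain ⟨Ψ, hsur, hΨ⟩ := phj hCQ hT hNL f A' ψ hf h2f hray
  have hfix := frj hFRQ hE hT hNL E hk f A' ψ Ψ hf hQ hΨ
  have hfin := hT.fin f hf
  have hgal := hT.gal f hf
  let L : IntermediateField (kk A B) (RFE f : IntermediateField (kk A B) ℂ) :=
    IntermediateField.fixedField Ψ.ker
  have h1 := Pool.Agent.FX.finrank_fixed_ker Ψ hsur
  have h2 : IntermediateField.lift L ≤ IntermediateField.extendScalars hk := by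
    intro y hy
    have hyR : y ∈ (RFE f : IntermediateField (kk A B) ℂ) := IntermediateField.lift_le L hy
    have hyL : (⟨y, hyR⟩ : (RFE f : IntermediateField (kk A B) ℂ)) ∈ L :=
      (IntermediateField.mem_lift ⟨y, hyR⟩).1 hy
    have h3 : y ∈ E := by
      have : Algebra.IsAlgebraic ℚ E := Algebra.IsAlgebraic.of_finite ℚ E
      refine Pool.Agent.MUXU.tu_AUF Pool.Agent.MUXU.tu_AUE Pool.Agent.MUXU.tu_AUT E this y fun s hs => ?_
      refine hfix s hs ⟨y, hyR⟩ fun τ hτ => ?_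
      exact (IntermediateField.mem_fixedField_iff Ψ.ker _).1 hyL τ hτ
    exact h3
  have hfinE := Pool.Agent.FX.fin_ext hk
  have h3 : IntermediateField.lift L = IntermediateField.extendScalars hk := by
    refine IntermediateField.eq_of_le_of_finrank_le h2 ?_
    have h4 := (Pool.Agent.FX.finrank_lift L).trans h1
    rw [h4, ← finrank_ext hk]
    have h5 := hcyc.2.2
    rw [h5]
    exact hcard
  intro x hx
  refine ⟨f, hf, ?_⟩
  have h4 : x ∈ IntermediateField.lift L := by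
    rw [h3]
    exact hx
  exact IntermediateField.lift_le L h4

open _root_.Pool.Agent.JT.JTR in
/-- every finite abelian extension of `k` is in a ray class field -/
theorem torU_E (A B : ℤ) (hE : CaseE A B) (K : IntermediateField ℚ ℂ) [FiniteDimensional ℚ K]
    (hk : kk A B ≤ K) (hgal : IsGalois (kk A B) (IntermediateField.extendScalars hk))
    (hcomm : ∀ σ τ : (IntermediateField.extendScalars hk) ≃ₐ[kk A B]
      (IntermediateField.extendScalars hk), σ * τ = τ * σ) : TorU_E A B K := by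
  have hCQ : CQ A B := hE.toCQ
  have hT : TorXE A B := Pool.Agent.MEC.c_TORE A B hE
  have hNL : NLex_E A B := by
    have htop : (⊤ : Ideal (OO A B)) ≠ ⊥ := by
      intro h0
      have h3 : (1 : OO A B) ∈ (⊥ : Ideal (OO A B)) := h0 ▸ trivial
      rw [Ideal.mem_bot] at h3
      have h4 : (1 : ℤ) = 0 := congrArg QuadraticAlgebra.re h3
      exact one_ne_zero h4
    obtain ⟨L, om, hL⟩ := Pool.Agent.MEC.exists_isNE hE (⊤ : Ideal (OO A B)) htop
    exact ⟨⊤, L, om, hL⟩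
  have hdom : IsDomain (OO A B) := Pool.Agent.MUX.isDomain hCQ
  have hfd : FiniteDimensional (kk A B) (IntermediateField.extendScalars hk) := fin_ext hk
  set K' := IntermediateField.extendScalars hk with hK'
  have hfG : Finite (K' ≃ₐ[kk A B] K') := inferInstance
  -- the elements in ray class fields
  let T : IntermediateField (kk A B) K' :=
    { carrier := {x | ∃ m : Ideal (OO A B), m ≠ ⊥ ∧ (x : ℂ) ∈ RFE m}
      mul_mem' := by
        rintro a b ⟨m, hm, ha⟩ ⟨m', hm', hb⟩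
        exact ⟨m * m', mul_ne_zero hm hm', mul_mem (hT.mono m (m * m') Ideal.mul_le_left ha)
          (hT.mono m' (m * m') Ideal.mul_le_right hb)⟩
      one_mem' := ⟨⊤, top_ne_bot, one_mem _⟩
      add_mem' := by
        rintro a b ⟨m, hm, ha⟩ ⟨m', hm', hb⟩
        exact ⟨m * m', mul_ne_zero hm hm', add_mem (hT.mono m (m * m') Ideal.mul_le_left ha)
          (hT.mono m' (m * m') Ideal.mul_le_right hb)⟩
      zero_mem' := ⟨⊤, top_ne_bot, zero_mem _⟩
      algebraMap_mem' := fun r => ⟨⊤, top_ne_bot, (RFE (⊤ : Ideal (OO A B))).algebraMap_mem r⟩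
      inv_mem' := by
        rintro a ⟨m, hm, ha⟩
        exact ⟨m, hm, inv_mem ha⟩ }
  have hmemT : ∀ x : K', x ∈ T ↔ ∃ m : Ideal (OO A B), m ≠ ⊥ ∧ (x : ℂ) ∈ RFE m := fun x => Iff.rfl
  have htop : T = ⊤ := by
    by_contra hne
    have hfix : T.fixingSubgroup ≠ ⊥ := by
      intro hb
      apply hne
      rw [← IsGalois.fixedField_fixingSubgroup T, hb]
      exact IntermediateField.fixedField_bot
    rw [Subgroup.ne_bot_iff_exists_ne_one] at hfix
    obtain ⟨⟨g, hgT⟩, hg1⟩ := hfix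
    have hg1' : g ≠ 1 := fun h1 => hg1 (Subtype.ext h1)
    obtain ⟨χ, l, m, hl, hχg, hcard⟩ := exists_char' (K' ≃ₐ[kk A B] K') hcomm g hg1'
    set U := χ.ker with hU
    set EU := IntermediateField.fixedField U with hEU
    have hfinr : Finite χ.range := Finite.of_surjective _ χ.rangeRestrict_surjective
    have hcyc0 : IsCyclic χ.range := inferInstance
    have hEUc := Pool.Agent.FX.cyc_fixed χ hcard
    -- as a subfield of `ℂ`
    set E : IntermediateField ℚ ℂ := (IntermediateField.lift EU).restrictScalars ℚ with hEdef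
    have hkE : kk A B ≤ E := fun x hx => (IntermediateField.lift EU).algebraMap_mem ⟨x, hx⟩
    have hEK : E ≤ K := fun x hx => IntermediateField.lift_le EU hx
    have hfE : FiniteDimensional ℚ E :=
      FiniteDimensional.of_injective (IntermediateField.inclusion hEK).toLinearMap
        (IntermediateField.inclusion_injective hEK)
    let _ := algC hkE
    let e : EU ≃ₐ[kk A B] E :=
      { toFun := fun x => ⟨x.1.1, (IntermediateField.mem_lift x.1).mpr x.2⟩
        invFun := fun x => ⟨⟨x.1, IntermediateField.lift_le EU x.2⟩,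
          (IntermediateField.mem_lift ⟨x.1, IntermediateField.lift_le EU x.2⟩).mp x.2⟩
        left_inv := fun _ => rfl
        right_inv := fun _ => rfl
        map_mul' := fun _ _ => rfl
        map_add' := fun _ _ => rfl
        commutes' := fun _ => rfl }
    have hCyc : CycE hkE (l ^ m) := Pool.Agent.FX.cyc_of_equiv e hEUc
    have hTor := jtc Pool.Agent.JT.j_JTA Pool.Agent.JT.j_FRQ hE hT hNL E hkE l m hl hCyc
    apply hχg
    have hgU : g ∈ U := by
      rw [← IntermediateField.fixingSubgroup_fixedField U, IntermediateField.mem_fixingSubgroup_iff]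
      intro x hx
      rw [IntermediateField.mem_fixingSubgroup_iff] at hgT
      apply hgT
      rw [hmemT]
      exact hTor x.1 ((IntermediateField.mem_lift x).mpr hx)
    exact hgU
  intro x hx
  have h1 : (⟨x, hx⟩ : K') ∈ T := by
    rw [htop]
    trivial
  exact (hmemT _).1 h1


end

end Pool.Agent.JTE


end
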