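import Mathlib
import Pool.Agent.MVF.C177
import Pool.Agent.MVF.C186
import Pool.Agent.MVF.C188
import Pool.Agent.MVF.C189
import Pool.Agent.MVF.C190

/-! Parts: ME.ZAll3, ME.JFin3, ME.JAll3 -/

section

/-!
# ME: the inputs of block J and the main theorem for `D = -3`, `p = 3`, no hypotheses (helper21)
-/

set_option autoImplicit false

open NumberField IsDedekindDomain

namespace Pool.Agent.MEZ

open _root_.MU3 _root_.Pool.Agent.MU3 _root_.Pool.Agent.MU3A _root_.Pool.Agent.MU3B _root_.Pool.Agent.RI _root_.Pool.Agent.RID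
  _root_.Pool.Agent.MUX _root_.Pool.Agent.ME _root_.Pool.Agent.MUXK _root_.Pool.Agent.MUXJ _root_.Pool.Agent.MUXW _root_.Pool.Agent.MUXZ
  _root_.Pool.Agent.NSI _root_.Pool.Agent.NSZ _root_.Pool.Agent.NS _root_.Pool.Agent.NSRD _root_.Pool.Agent.NSIR

/-- the inputs of block J for `D = -3`, `p = 3` -/
theorem s3_INPG : S3_INPG :=
  inpg3 (r_INP_E Pool.Agent.MEH.h_HFIN3) r_SUB_E

/-- THE MAIN THEOREM, `D = -3`, `p = 3` -/
theorem z_m33 (A B : ℤ) (hC : CaseE3 A B)
    (F M K : IntermediateField ℚ ℂ) [FiniteDimensional ℚ M] (hF : kk A B ≤ F) (h : F ≤ M)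
    (a : ℕ) (hT : TorU_E A B F) (hGal : IsGalois F (IntermediateField.extendScalars h))
    (ha : Module.finrank F (IntermediateField.extendScalars h) = 3 ^ a) (hK : K ≤ M) :
    ∃ C : ℕ, ∀ (n : ℕ) (Q : IntermediateField ℚ ℂ), IsLayer 3 n Q →
      padicValNat 3 (classNo (K ⊔ Q)) ≤ C * (n + 1) ^ C :=
  z_main33 s3_INPG A B hC F M K hF h a hT hGal ha hK

end Pool.Agent.MEZ


end

section

/-!
# ME: the final theorems for `p = 3`, `k = ℚ(i), ℚ(√-3)` and all finite abelian `K / k`, from (JT) in the frame E (helper21)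
-/

set_option autoImplicit false

open NumberField IsDedekindDomain

namespace Pool.Agent.ME2

open _root_.MU3 _root_.Pool.Agent.MU3 _root_.Pool.Agent.MU3A _root_.Pool.Agent.MU3B _root_.Pool.Agent.RI _root_.Pool.Agent.RID
  _root_.Pool.Agent.MUX _root_.Pool.Agent.MUXK _root_.Pool.Agent.MUXE _root_.Pool.Agent.MUXJ
open _root_.Pool.Agent.ME hiding ActE

/-- `p = 3`, `k = ℚ(i)` -/
theorem bdJ3_one (hJ : ∀ A B : ℤ, CaseE A B → JTEx A B) : BdJ 3 (MUXZ.pA 1) (MUXZ.pB 1) := by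
  refine bdJ_of (hJ _ _ case_one.1) ?_
  intro F M K _ hF h a hT hGal ha hK
  exact z_m43 _ _ case_one.1 case_one.2 F M K hF h a hT hGal ha hK

/-- `p = 3`, `k = ℚ(√-3)` -/
theorem bdJ3_three (hJ : ∀ A B : ℤ, CaseE A B → JTEx A B) : BdJ 3 (MUXZ.pA 3) (MUXZ.pB 3) := by
  refine bdJ_of (hJ _ _ case_three.1) ?_
  intro F M K _ hF h a hT hGal ha hK
  exact MEZ.z_m33 _ _ { case_three.1 with eB := case_three.2 } F M K hF h a hT hGal ha hK

end Pool.Agent.ME2


end

section

/-!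
# `μ = 0` for `p = 3`, all imaginary quadratic fields and all their finite abelian extensions, no hypotheses (helper21)
-/

set_option autoImplicit false

open NumberField

namespace Pool.Agent.JT

open _root_.MU3 _root_.Pool.Agent.MU3A _root_.Pool.Agent.RI _root_.Pool.Agent.MUX _root_.Pool.Agent.MUXJ _root_.Pool.Agent.HB

/-- `p = 3`, `k = ℚ(i)` -/
theorem finJ3_one : FinJ 3 1 := ME2.bdJ3_one JTE.torU_E

/-- `p = 3`, `k = ℚ(√-3)` -/
theorem finJ3_three : FinJ 3 3 := ME2.bdJ3_three JTE.torU_E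

/-- `p = 3`, all `k` -/
theorem finJ3_all (d : ℕ) (hd : Squarefree d) : FinJ 3 d := by
  by_cases h1 : d = 1
  · subst h1
    exact finJ3_one
  · by_cases h3 : d = 3
    · subst h3
      exact finJ3_three
    · exact finJ3_non d hd h1 h3

/-- the final theorem for `p = 3` -/
theorem final3J (k K : IntermediateField ℚ ℂ) [FiniteDimensional ℚ K] (h : k ≤ K)
    (h2 : Module.finrank ℚ k = 2) (hi : ∃ z ∈ k, (starRingEnd ℂ) z ≠ z)
    (hG : IsGalois k (IntermediateField.extendScalars h))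
    (hc : ∀ σ τ : (IntermediateField.extendScalars h) ≃ₐ[k] (IntermediateField.extendScalars h),
      σ * τ = τ * σ) :
    ∃ C : ℕ, ∀ (n : ℕ) (Q : IntermediateField ℚ ℂ), IsLayer 3 n Q →
      padicValNat 3 (classNo (K ⊔ Q)) ≤ C * (n + 1) ^ C :=
  final_all finJ3_all k K h h2 hi hG hc

end Pool.Agent.JT


end
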