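import Mathlib
import Pool.Agent.MVF.C050
import Pool.Agent.MVF.C051
import Pool.Agent.MVF.C057
import Pool.Agent.MVF.C063

/-! Parts: ME2.EU_SIG, ME2.EU_CON -/

namespace Pool.Agent.ME2E.CON
end Pool.Agent.ME2E.CON

section

/-!
# MUX-2N, block E2N, module SIG: integral elements of the ray class field are polynomials in `x(P)` (model `NS/E_SIG.lean`)
-/

set_option autoImplicit false

open Polynomial

namespace Pool.Agent.ME2E

open _root_.MU3 _root_.Pool.Agent.MU3A _root_.Pool.Agent.MU3B _root_.Pool.Agent.MUX _root_.Pool.Agent.MUXU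
open _root_.Pool.Agent.RI _root_.Pool.Agent.NS
open _root_.Pool.Agent.ME hiding ActE
open _root_.Pool.Agent.MEE _root_.Pool.Agent.ME2
open _root_.Pool.Agent.MUXE (RingE)
open _root_.Pool.Agent.N2 (GoodT et yt WT IsTei2 OddT PTq)
open _root_.Pool.Agent.N2E (dlg del cc IsoT Sd_LAG Sd_PRD Sd_COE Sd_GRT Sd_TPT Sd_UNT Sd_RAT Sd_THT Sd_DST Sd_NE1 Sd_PRT)
open _root_.Pool.Agent.NSE (IntP)
open _root_.Pool.Agent.NSE.SIG (rat_mem intP_sum)
open _root_.Pool.Agent.MUX2 (GRG)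
open _root_.Pool.Agent.MUXV (InK tX)

noncomputable section

namespace SIG

/-- rational multiples of `om` in the lattice `om O` -/
theorem rat_memE {A B : ℤ} (hR : RingE A B) {L : PeriodPair} {om : ℂ} (hL : IsNE (⊤ : Ideal (OO A B)) L om)
    (a : ℤ) {b : ℕ} (hb : b ≠ 0) : (a : ℂ) / b * om ∈ L.lattice ↔ (b : ℤ) ∣ a := by
  obtain ⟨φ, hφ⟩ := hR.hom
  have hb0 : (b : ℂ) ≠ 0 := by exact_mod_cast hb
  rw [hL.mem]
  constructor
  · rintro ⟨x, -, hx⟩
    have h1 : (a : ℂ) = b * emb x := by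
      have h2 : (a : ℂ) / b = emb x := by
        apply mul_right_cancel₀ hL.om_ne
        rw [hx, mul_comm]
      rw [← h2]
      field_simp
    have h3 : emb ((b : OO A B) * x - (a : OO A B)) = 0 := by
      rw [← hφ, map_sub, map_mul, map_natCast, map_intCast, hφ, h1, sub_self]
    have h4 := hR.inj0 _ h3
    have h5 := congrArg QuadraticAlgebra.re h4
    have re_nat : ∀ n : ℕ, ((n : ℕ) : OO A B).re = n := fun n => rfl
    have im_nat : ∀ n : ℕ, ((n : ℕ) : OO A B).im = 0 := fun n => rfl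
    have re_int : ∀ n : ℤ, ((n : ℤ) : OO A B).re = n := fun n => rfl
    rw [QuadraticAlgebra.re_sub, QuadraticAlgebra.re_mul, re_nat, im_nat, re_int] at h5
    refine ⟨x.re, ?_⟩
    have h6 : (b : ℤ) * x.re + A * 0 * x.im - a = 0 := h5
    linarith
  · rintro ⟨c, rfl⟩
    refine ⟨(c : OO A B), Submodule.mem_top, ?_⟩
    rw [← hφ, map_intCast]
    push_cast
    field_simp

lemma cube {Γ : Type} [LinearOrderedCommGroupWithZero Γ] {x y : Γ} (h : x ^ 3 = y ^ 3) : x = y :=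
  (pow_left_inj₀ zero_le zero_le (by norm_num)).1 h

/-- `2/u²` is a uniformiser -/
lemma unif {A B : ℤ} (hCE : CaseE A B) (hB : B = 1) {V : ValuationSubring ℂ} {L : PeriodPair}
    (hL : NLE A B L) {u e a1 a3 : ℂ} (hg : GoodT V L u e a1 a3) (hv2 : V.valuation (2 : ℂ) < 1)
    (h1 : 12 * e = a1 ^ 2 * u ^ 2 ∧ 12 * e ^ 2 - L.g₂ = 2 * a1 * a3 * u ^ 4 ∧
      4 * e ^ 3 - L.g₂ * e - L.g₃ = a3 ^ 2 * u ^ 6 ∧ V.valuation (3 : ℂ) = 1) {ϖ : ℂ}
    (hϖ : ϖ = 2 / u ^ 2) :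
    ϖ ≠ 0 ∧ V.valuation ϖ < 1 ∧ V.valuation ϖ ^ 3 = V.valuation (2 : ℂ) := by
  obtain ⟨b, om, hN⟩ := hL
  have hg2 : L.g₂ = 0 := by rw [hN.nrm.g2, g2E, if_neg (by rw [hB]; norm_num)]
  have hg3 : L.g₃ = -4 := by rw [hN.nrm.g3, g3E, if_neg (by rw [hB]; norm_num)]
  obtain ⟨c1, -, c3, v3⟩ := h1
  rw [hg2, hg3] at c3
  have hu0 := hg.u0
  have v20 : V.valuation (2 : ℂ) ≠ 0 := (Valuation.ne_zero_iff _).2 two_ne_zero
  have hU0 : V.valuation u ≠ 0 := (Valuation.ne_zero_iff _).2 hu0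
  have v4 : V.valuation (4 : ℂ) = V.valuation (2 : ℂ) ^ 2 := by
    rw [← map_pow]
    norm_num
  have v12 : V.valuation (12 : ℂ) = V.valuation (2 : ℂ) ^ 2 := by
    have : (12 : ℂ) = 4 * 3 := by norm_num
    rw [this, map_mul, v4, v3, mul_one]
  -- `v e ≤ v u²`
  have he : V.valuation e ≤ V.valuation u ^ 2 := by
    have h2 := congrArg V.valuation c1
    rw [map_mul, map_mul, map_pow, map_pow, v12] at h2
    have h3 : V.valuation (2 : ℂ) ^ 2 * V.valuation e ≤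
        V.valuation (2 : ℂ) ^ 2 * V.valuation u ^ 2 := by
      rw [h2]
      exact mul_le_mul_left (pow_le_pow_left₀ zero_le hg.v1 2) _
    exact le_of_mul_le_mul_left h3 (zero_lt_iff.2 (pow_ne_zero 2 v20))
  have c4 : 4 * (e ^ 3 + 1) = a3 ^ 2 * u ^ 6 := by linear_combination c3
  have h4 := congrArg V.valuation c4
  rw [map_mul, map_mul, map_pow, hg.v3, one_pow, one_mul, v4, map_pow] at h4
  -- `v u < 1`
  have hu1 : V.valuation u < 1 := by
    by_contra hge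
    rw [not_lt] at hge
    have h5 : V.valuation (e ^ 3 + 1) ≤ V.valuation u ^ 6 := by
      refine (Valuation.map_add _ _ _).trans (max_le ?_ ?_)
      · rw [map_pow]
        refine (pow_le_pow_left₀ zero_le he 3).trans ?_
        rw [← pow_mul]
      · rw [map_one]
        exact one_le_pow₀ hge
    have h6 : V.valuation (2 : ℂ) ^ 2 * V.valuation (e ^ 3 + 1) < V.valuation u ^ 6 := by
      refine lt_of_le_of_lt (mul_le_mul_right h5 _) ?_
      refine mul_lt_of_lt_one_left (zero_lt_iff.2 (pow_ne_zero 6 hU0)) ?_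
      exact pow_lt_one₀ zero_le hv2 two_ne_zero
    rw [h4] at h6
    exact lt_irrefl _ h6
  have he1 : V.valuation e < 1 := lt_of_le_of_lt he (pow_lt_one₀ zero_le hu1 two_ne_zero)
  have h7 : V.valuation (e ^ 3 + 1) = 1 := by
    rw [Valuation.map_add_eq_of_lt_right V.valuation (x := e ^ 3) (y := 1)
      (by rw [map_pow, map_one]; exact pow_lt_one₀ zero_le he1 three_ne_zero), map_one]
  rw [h7, mul_one] at h4
  have h8 : V.valuation ϖ ^ 3 = V.valuation (2 : ℂ) := by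
    have h9 : V.valuation u ^ (2 * 3) = V.valuation (2 : ℂ) ^ 2 := h4.symm
    rw [hϖ, map_div₀, map_pow, div_pow, ← pow_mul, h9, div_eq_iff (pow_ne_zero 2 v20), ← pow_succ']
  refine ⟨?_, ?_, h8⟩
  · rw [hϖ]
    exact div_ne_zero two_ne_zero (pow_ne_zero 2 hu0)
  · by_contra hge
    rw [not_lt] at hge
    have h9 := one_le_pow₀ hge (n := 3)
    rw [h8] at h9
    exact absurd hv2 (not_lt.2 h9)

end SIG

theorem ty_SIG (h1 : Sd_COE) (h2 : Sd_GRT) (h3 : Sd_TPT) (h4 : Sy_UNR) (h5 : Sy_DEG) :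
    Sy_SIG := by
  intro A B V n f a m S L om u e a1 a3 hL hgood w hw hvw
  obtain ⟨hC, hT, hn, hf, h3f, h2f, -, h2a, -, rfl⟩ := S
  have hR := hC.ring
  have hG : GalEE A B := tm_GAL A B hC.case hR hT
  obtain ⟨φ, hφ⟩ := hR.hom
  have hmul : ∀ x y : OO A B, emb (x * y) = emb x * emb y := fun x y => by
    rw [← hφ, map_mul, hφ, hφ]
  have hnat : ∀ k : ℕ, emb ((k : ℕ) : OO A B) = k := fun k => by rw [← hφ, map_natCast]
  have hLn : NLE A B L := ⟨⊤, om, hL⟩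
  have hom0 := hL.om_ne
  have hv2 := hC.v2
  have hf0 : f ≠ 0 := by omega
  have ha : a ≠ 0 := by rintro rfl; exact h2a (dvd_zero 2)
  have hfa0 : f * a ≠ 0 := Nat.mul_ne_zero hf0 ha
  have h2fa : ¬ 2 ∣ f * a := fun h => by
    rcases (Nat.Prime.dvd_mul (by norm_num)).1 h with h | h
    · exact h2f h
    · exact h2a h
  have hm0' : 2 ^ (n + 2) * f * a ≠ 0 := by positivity
  have hne : ∀ k : ℕ, k ≠ 0 → idl (A := A) (B := B) k ≠ ⊥ := by
    intro k hk h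
    rw [Ideal.span_singleton_eq_bot] at h
    apply hk
    have h' := hnat k
    rw [h, ← hφ, map_zero] at h'
    exact_mod_cast h'.symm
  -- the fields
  have hmm : idl (A := A) (B := B) (2 ^ (n + 2) * f * a) ≤ idl (2 * (f * a)) := by
    rw [Ideal.span_singleton_le_span_singleton]
    refine ⟨((2 ^ (n + 1) : ℕ) : OO A B), ?_⟩
    push_cast; ring
  have hm2 : idl (A := A) (B := B) (2 * (f * a)) ≤ idl 2 := by
    rw [Ideal.span_singleton_le_span_singleton]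
    refine ⟨((f * a : ℕ) : OO A B), ?_⟩
    push_cast; ring
  obtain ⟨c1, c2, c3, c4, c5⟩ := tm_FAC tm_TRA A B hR
  have hle := c1 _ _ hmm
  obtain ⟨ξ, G⟩ := h2 V L u e a1 a3 hgood hv2
  obtain ⟨t1, t2⟩ := h3 V L u e a1 a3 hgood hv2
  obtain ⟨w₁, w₂, hw₁, hw₂, hw₁L, hw₂L, -, -, he, hu2⟩ := hgood.tor
  -- torsion points
  have hTor : ∀ (k : ℕ) (z : ℂ), (k : ℂ) * z ∈ L.lattice → Tor (idl (A := A) (B := B) k) L z := by
    intro k z hz x hx
    obtain ⟨y, rfl⟩ := Ideal.mem_span_singleton'.1 hx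
    rw [hmul, hnat, mul_assoc]
    obtain ⟨c, -, hc⟩ := (hL.mem _).1 hz
    exact (hL.mem _).2 ⟨y * c, Submodule.mem_top, by rw [hc, hmul]; ring⟩
  have hint : ∀ (k : ℤ) (z : ℂ), z ∈ L.lattice → (k : ℂ) * z ∈ L.lattice := by
    intro k z hz
    simpa [zsmul_eq_mul] using L.lattice.smul_mem k hz
  obtain ⟨f', hf'⟩ := h3f
  have hthree : ∀ z : ℂ, 3 * z ∈ L.lattice →
      Tor (idl (A := A) (B := B) (2 * (f * a))) L z := by
    intro z hz
    apply hTor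
    have h11 := hint ((2 * (f' * a) : ℕ) : ℤ) _ hz
    have h12 : ((2 * (f * a) : ℕ) : ℂ) * z = (((2 * (f' * a) : ℕ) : ℤ) : ℂ) * (3 * z) := by
      rw [hf']; push_cast; ring
    rw [h12]; exact h11
  have hx1 : xnE L w₁ ∈ RFE (idl (A := A) (B := B) (2 * (f * a))) :=
    (c2 _ L hLn).2 _ (hthree _ hw₁) hw₁L
  have hx2 : xnE L w₂ ∈ RFE (idl (A := A) (B := B) (2 * (f * a))) :=
    (c2 _ L hLn).2 _ (hthree _ hw₂) hw₂L
  have heM : e ∈ RFE (idl (A := A) (B := B) (2 * (f * a))) := by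
    rw [he]
    exact hx1
  have huM : u ^ 2 ∈ RFE (idl (A := A) (B := B) (2 * (f * a))) := by
    have h11 : u ^ 2 = xnE L w₂ - xnE L w₁ := by rw [hu2]; unfold xnE; rfl
    rw [h11]
    exact sub_mem hx2 hx1
  -- the points
  have hcop : IsCoprime ((2 ^ (n + 2) : ℕ) : ℤ) (f : ℤ) := by
    rw [Nat.isCoprime_iff_coprime]
    exact Nat.Coprime.pow_left _ ((Nat.Prime.coprime_iff_not_dvd (by norm_num)).2 h2f)
  obtain ⟨α, β, hαβ⟩ := hcop
  push_cast at hαβ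
  obtain ⟨P₀, hP₀⟩ : ∃ z, z = (α : ℂ) / (f : ℕ) * om := ⟨_, rfl⟩
  obtain ⟨P₁, hP₁⟩ : ∃ z, z = (β : ℂ) / ((2 ^ (n + 2) : ℕ) : ℂ) * om := ⟨_, rfl⟩
  obtain ⟨Pt, hPt⟩ : ∃ z, z = om / ((2 ^ (n + 2) * f : ℕ) : ℂ) := ⟨_, rfl⟩
  rw [← hPt]
  have hfc : (f : ℂ) ≠ 0 := by exact_mod_cast hf0
  have h2c : (2 : ℂ) ^ (n + 2) ≠ 0 := pow_ne_zero _ (by norm_num)
  have hsum : P₀ + P₁ = Pt := by
    have h11 : (α : ℂ) * 2 ^ (n + 2) + β * f = 1 := by exact_mod_cast hαβ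
    rw [hP₀, hP₁, hPt]
    push_cast
    field_simp
    linear_combination h11
  have hfP₀ : (f : ℂ) * P₀ ∈ L.lattice := by
    have h11 : (f : ℂ) * P₀ = (((f : ℤ) * α : ℤ) : ℂ) / ((f : ℕ) : ℂ) * om := by
      rw [hP₀]; push_cast; ring
    rw [h11, SIG.rat_memE hR hL _ hf0]
    exact dvd_mul_right _ _
  have h2P₀ : 2 * P₀ ∉ L.lattice := by
    have h11 : 2 * P₀ = ((2 * α : ℤ) : ℂ) / ((f : ℕ) : ℂ) * om := by
      rw [hP₀]; push_cast; ring
    rw [h11, SIG.rat_memE hR hL _ hf0]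
    intro h12
    have h13 : IsCoprime (f : ℤ) α := ⟨β, 2 ^ (n + 2), by linear_combination hαβ⟩
    have h14 := h13.dvd_of_dvd_mul_right h12
    have h15 := Int.le_of_dvd (by norm_num) h14
    omega
  have hP₀L : P₀ ∉ L.lattice := fun h => h2P₀ (by rw [two_mul]; exact add_mem h h)
  have hP₀E : ¬ InK V L (xu L u e) P₀ := fun h => hP₀L ((t1 f h2f).2 P₀ hfP₀ h)
  have h2P₀E : ¬ InK V L (xu L u e) (2 * P₀) := fun h => h2P₀ ((t1 f h2f).2 _ (by
    have h11 : (f : ℂ) * (2 * P₀) = f * P₀ + f * P₀ := by ring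
    rw [h11]; exact add_mem hfP₀ hfP₀) h)
  have h2P₁ : (2 : ℂ) ^ (n + 1 + 1) * P₁ ∈ L.lattice := by
    have h11 : (2 : ℂ) ^ (n + 1 + 1) * P₁ =
        ((((2 ^ (n + 2) : ℕ) : ℤ) * β : ℤ) : ℂ) / ((2 ^ (n + 2) : ℕ) : ℂ) * om := by
      rw [hP₁]; push_cast; ring
    rw [h11, SIG.rat_memE hR hL _ (by positivity)]
    exact dvd_mul_right _ _
  have h2P₁' : (2 : ℂ) ^ (n + 1) * P₁ ∉ L.lattice := by
    have h11 : (2 : ℂ) ^ (n + 1) * P₁ = (β : ℂ) / ((2 : ℕ) : ℂ) * om := by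
      rw [hP₁]; push_cast; field_simp; ring
    rw [h11, SIG.rat_memE hR hL _ (by norm_num)]
    intro h12
    have h13 : (2 : ℤ) ∣ 1 := by
      rw [← hαβ]
      refine dvd_add (Dvd.dvd.mul_left (dvd_pow_self 2 (Nat.succ_ne_zero (n + 1))) _)
        (Dvd.dvd.mul_right ?_ _)
      exact_mod_cast h12
    omega
  obtain ⟨hP₁E, hP₁L, hP₁v⟩ := t2 (n + 1) P₁ h2P₁ h2P₁'
  obtain ⟨hPE, hnr, -, -⟩ := Pool.Agent.MUX2.gnear G hP₀E hP₁E hP₁L
  have hDX := Pool.Agent.MUX2.gv_DX G hP₀E h2P₀E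
  rw [hsum] at hPE hnr
  have hPL : Pt ∉ L.lattice := fun h => hPE (Or.inl h)
  -- the uniformiser
  obtain ⟨π, hπ⟩ : ∃ z, z = xu L u e Pt - xu L u e P₀ := ⟨_, rfl⟩
  have hvπ : V.valuation π ^ (3 * 4 ^ (n + 1)) = V.valuation (2 : ℂ) := by
    obtain ⟨h12, h12', -⟩ := Pool.Agent.MUX2.gv_tX_lt G hP₁E hP₁L
    have h13 : V.valuation (tX (xu L u e) (yt L u e a1 a3) P₁) ^ 2 <
        V.valuation (tX (xu L u e) (yt L u e a1 a3) P₁) := by
      rw [pow_two]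
      exact mul_lt_of_lt_one_right (zero_lt_iff.2 h12') h12
    rw [← hπ] at hnr
    have h14 : V.valuation ((2 * yt L u e a1 a3 P₀ + (WT a1 a3).a₁ * xu L u e P₀ +
        (WT a1 a3).a₃) * tX (xu L u e) (yt L u e a1 a3) P₁) =
        V.valuation (tX (xu L u e) (yt L u e a1 a3) P₁) := by
      rw [map_mul, hDX, one_mul]
    have h15 : V.valuation π = V.valuation (tX (xu L u e) (yt L u e a1 a3) P₁) := by
      have h16 := Valuation.map_add_eq_of_lt_left V.valuation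
        (x := (2 * yt L u e a1 a3 P₀ + (WT a1 a3).a₁ * xu L u e P₀ +
          (WT a1 a3).a₃) * tX (xu L u e) (yt L u e a1 a3) P₁)
        (y := π - (2 * yt L u e a1 a3 P₀ + (WT a1 a3).a₁ * xu L u e P₀ +
          (WT a1 a3).a₃) * tX (xu L u e) (yt L u e a1 a3) P₁)
        (by rw [h14]; exact lt_of_le_of_lt hnr h13)
      rw [add_sub_cancel, h14] at h16
      exact h16
    rw [h15]
    exact hP₁v
  have hTorPt : Tor (idl (A := A) (B := B) (2 ^ (n + 2) * f * a)) L Pt := by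
    refine hTor _ _ ?_
    have h11 : ((2 ^ (n + 2) * f * a : ℕ) : ℂ) * Pt = ((a : ℤ) : ℂ) / ((1 : ℕ) : ℂ) * om := by
      rw [hPt]; push_cast; field_simp
    rw [h11, SIG.rat_memE hR hL _ one_ne_zero]
    exact ⟨a, by simp⟩
  have hPM : xnE L Pt ∈ RFE (idl (A := A) (B := B) (2 ^ (n + 2) * f * a)) :=
    (c2 _ L hLn).2 _ hTorPt hPL
  have hP₀M : xnE L P₀ ∈ RFE (idl (A := A) (B := B) (2 * (f * a))) := by
    refine (c2 _ L hLn).2 _ (hTor _ _ ?_) hP₀L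
    have h11 : ((2 * (f * a) : ℕ) : ℂ) * P₀ = ((2 * a : ℤ) : ℂ) * (f * P₀) := by
      push_cast; ring
    rw [h11]
    exact hint _ _ hfP₀
  have hxx : ∀ z : ℂ, xu L u e z = (xnE L z - e) / u ^ 2 := by
    intro z; unfold xu xnE; rfl
  have hx0M : xu L u e P₀ ∈ RFE (idl (A := A) (B := B) (2 * (f * a))) := by
    rw [hxx]
    exact div_mem (sub_mem hP₀M heM) huM
  have hxPM : xu L u e Pt ∈ RFE (idl (A := A) (B := B) (2 ^ (n + 2) * f * a)) := by
    rw [hxx]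
    exact div_mem (sub_mem hPM (hle heM)) (hle huM)
  have hπM : π ∈ RFE (idl (A := A) (B := B) (2 ^ (n + 2) * f * a)) := by
    rw [hπ]; exact sub_mem hxPM (hle hx0M)
  have := hG.fin _ (hne _ (Nat.mul_ne_zero two_ne_zero hfa0))
  have := hG.fin _ (hne _ hm0')
  have hdeg := h5 A B V hC hG (n + 1) (f * a) hfa0 h2fa
  rw [← mul_assoc (2 ^ (n + 1 + 1)) f a] at hdeg
  -- the uniformiser of `M₀`
  obtain ⟨ϖ, hϖ⟩ : ∃ z : ℂ, z = 2 / u ^ 2 := ⟨_, rfl⟩
  obtain ⟨hϖ0, hϖ1, hϖ3⟩ := SIG.unif hC.case hC.hB hLn hgood hv2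
    (by
      obtain ⟨q1, q2, q3, q4, -⟩ := h1 V L u e a1 a3 hgood hv2
      exact ⟨q1, q2, q3, q4⟩) hϖ
  have hvM : ∀ y ∈ RFE (idl (A := A) (B := B) (2 * (f * a))), y ≠ 0 →
      ∃ k : ℤ, V.valuation y = V.valuation ϖ ^ k := by
    intro y hy hy0
    obtain ⟨k, hk⟩ := h4 A B V hC hT (f * a) hfa0 h2fa y hy hy0
    refine ⟨k, SIG.cube ?_⟩
    rw [hk, ← hϖ3, ← zpow_natCast, ← zpow_natCast, ← zpow_mul, ← zpow_mul]
    congr 1
    ring
  have hvπ' : V.valuation π ^ (4 ^ (n + 1)) = V.valuation ϖ := by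
    refine SIG.cube ?_
    rw [hϖ3, ← pow_mul, mul_comm (4 ^ (n + 1)) 3]
    exact hvπ
  obtain ⟨c, hc1, hc2⟩ := Pool.Agent.NSE.te_BAS (kk A B) ℂ V.ValueGroup V.valuation
    (RFE (idl (A := A) (B := B) (2 * (f * a)))) (RFE (idl (A := A) (B := B) (2 ^ (n + 2) * f * a)))
    (4 ^ (n + 1)) ϖ π hle (by positivity) hdeg hϖ0 hϖ1
    hvM hπM hvπ' w hw hvw
  -- the function
  have hvx0 : V.valuation (xu L u e P₀) ≤ 1 := (Pool.Agent.MUXV.int_X hP₀E).2
  obtain ⟨Pol, hPol⟩ : ∃ Q : ℂ[X], Q = ∑ i : Fin (4 ^ (n + 1)),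
    C ((c i : ℂ)) * (X - C (xu L u e P₀)) ^ (i : ℕ) := ⟨_, rfl⟩
  have hPolI : IntP V Pol := by
    rw [hPol]; exact intP_sum _ _ hc1 hvx0
  have hPolE : ∀ t : ℂ, Pol.eval t =
      ∑ i : Fin (4 ^ (n + 1)), (c i : ℂ) * (t - xu L u e P₀) ^ (i : ℕ) := by
    intro t
    rw [hPol, eval_finsetSum]
    refine Finset.sum_congr rfl fun i _ => ?_
    simp
  have hPolw : w = Pol.eval (xu L u e Pt) := by rw [hPolE, ← hπ, ← hc2]
  refine ⟨Pol, hPolI, hPolw, ?_⟩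
  intro x s hs hx
  have hsM : ∀ y ∈ RFE (idl (A := A) (B := B) (2 * (f * a))), s y = y := hs.triv _ hmm hm2 hx
  have hsx : s (xu L u e Pt) = xu L u e (emb x * Pt) := by
    rw [hxx, map_div₀, map_sub, (hs.xnE L hLn Pt hTorPt hPL).2, hsM _ heM, hsM _ huM, ← hxx]
  rw [hPolw, hPolE, hPolE, map_sum]
  refine Finset.sum_congr rfl fun i _ => ?_
  rw [map_mul, map_pow, map_sub, hsM _ (c i).2, hsx, hsM _ hx0M]

end

end Pool.Agent.ME2E


end

section

/-!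
# MUX-2N, block E2N: module CON (helper47), the elements `c = 1 + N b`, `N = 2^n f a`
-/

set_option autoImplicit false

open Polynomial

namespace Pool.Agent.ME2E

open _root_.MU3 _root_.Pool.Agent.MU3A _root_.Pool.Agent.MU3B _root_.Pool.Agent.MUX _root_.Pool.Agent.MUXU
open _root_.Pool.Agent.RI _root_.Pool.Agent.NS
open _root_.Pool.Agent.ME hiding ActE
open _root_.Pool.Agent.MEE _root_.Pool.Agent.ME2
open _root_.Pool.Agent.MUXE (RingE)
open _root_.Pool.Agent.N2 (GoodT et yt WT IsTei2 OddT PTq)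
open _root_.Pool.Agent.N2E (dlg del cc IsoT Sd_LAG Sd_PRD Sd_COE Sd_GRT Sd_TPT Sd_UNT Sd_RAT Sd_THT Sd_DST Sd_NE1 Sd_PRT)

noncomputable section

namespace CON

variable {A B : ℤ} {V : ValuationSubring ℂ} {n f a m : ℕ}

/-- numbers -/
theorem _root_.Pool.Agent.ME2E.CON.nums (h : SetEU A B V n f a m) :
    m * a = 4 * (2 ^ n * f * a) ∧ (∃ r, 2 ^ n * f * a = 2 * r) ∧
      (∃ r, 2 ^ n * f * a = 2 * (f * a) * r) ∧ (∃ r, 2 ^ n * f * a = 4 * f * r) ∧
      (∃ r, 2 ^ n * f * a = a * r) ∧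
      (∃ r, (2 ^ n * f * a) ^ 2 = 2 ^ (n + 2) * r) ∧ (∃ r, (2 ^ n * f * a) ^ 2 = m * a * r) ∧
      2 * (2 ^ n * f * a) * 2 = m * a ∧ 2 ∣ m := by
  obtain ⟨k, rfl⟩ : ∃ k, n = k + 2 := ⟨n - 2, by have := h.n2; omega⟩
  have h1 := h.hm
  have h5 : (2 : ℕ) ^ (k + 2 + 2) = 16 * 2 ^ k := by ring
  have h7 : (2 : ℕ) ^ (k + 2) = 4 * 2 ^ k := by ring
  rw [h1, h5, h7]
  refine ⟨by ring, ⟨2 * 2 ^ k * f * a, by ring⟩, ⟨2 * 2 ^ k, by ring⟩, ⟨2 ^ k * a, by ring⟩,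
    ⟨4 * 2 ^ k * f, by ring⟩, ⟨2 ^ k * f ^ 2 * a ^ 2, by ring⟩, ⟨2 ^ k * f * a, by ring⟩,
    by ring, ⟨8 * 2 ^ k * f, by ring⟩⟩

theorem _root_.Pool.Agent.ME2E.CON.mpos (h : SetEU A B V n f a m) : m ≠ 0 := by
  have h1 := h.f3
  rw [h.hm]
  positivity

theorem _root_.Pool.Agent.ME2E.CON.cast_dvd_mem {d e : ℕ} (h : ∃ r, e = d * r) (b : OO A B) :
    ((e : ℕ) : OO A B) * b ∈ idl (A := A) (B := B) d := by
  obtain ⟨r, rfl⟩ := h
  rw [Ideal.mem_span_singleton]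
  exact ⟨(r : OO A B) * b, by push_cast; ring⟩

theorem _root_.Pool.Agent.ME2E.CON.cc_sub (N : ℕ) (b : OO A B) : cc N b - 1 = (N : OO A B) * b := by
  unfold cc
  ring

theorem _root_.Pool.Agent.ME2E.CON.coprime_of {N M : ℕ} (h : ∃ r, N ^ 2 = M * r) (b : OO A B) :
    IsCoprime (cc N b) ((M : ℕ) : OO A B) := by
  have h1 : IsCoprime (cc N b) ((N : ℕ) : OO A B) := by
    refine ⟨1, -b, ?_⟩
    unfold cc
    ring
  have h2 : IsCoprime (cc N b) (((N : ℕ) : OO A B) ^ 2) := h1.pow_right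
  obtain ⟨r, hr⟩ := h
  have h3 : ((N : ℕ) : OO A B) ^ 2 = ((M : ℕ) : OO A B) * (r : OO A B) := by
    exact_mod_cast congrArg (fun x : ℕ => (x : OO A B)) hr
  rw [h3] at h2
  exact h2.of_mul_right_left

theorem _root_.Pool.Agent.ME2E.CON.cc_ne {N : ℕ} (h : ∃ r, N = 2 * r) (b : OO A B) : cc N b ≠ 0 := by
  intro h0
  have h1 := congrArg QuadraticAlgebra.re h0
  have h2 : (cc N b).re = 1 + (N : ℤ) * b.re := by
    unfold cc
    simp only [QuadraticAlgebra.re_add, QuadraticAlgebra.re_one, QuadraticAlgebra.re_mul,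
      QuadraticAlgebra.re_natCast, QuadraticAlgebra.im_natCast]
    ring
  rw [h2, QuadraticAlgebra.re_zero] at h1
  obtain ⟨r, rfl⟩ := h
  have h3 : (2 : ℤ) ∣ 1 := ⟨-(r * b.re), by push_cast at h1; linarith⟩
  norm_num at h3

theorem _root_.Pool.Agent.ME2E.CON.nI_of (hq : CQ A B) {c : OO A B} (hc : c ≠ 0) {M : ℕ} (h : (M : ℤ) ∣ nm c - 1) :
    ∃ j : ℕ, nI (sp c) = 1 + M * j := by
  obtain ⟨j, hj⟩ := h
  have h1 : 0 ≤ nm c := nm_nonneg hq c
  rw [nI_sp hq hc]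
  by_cases hM : M = 0
  · refine ⟨0, ?_⟩
    subst hM
    simp only [Nat.cast_zero, zero_mul] at hj
    have : nm c = 1 := by linarith
    rw [this]
    simp
  have hM' : (0 : ℤ) < M := by exact_mod_cast Nat.pos_of_ne_zero hM
  have hj0 : 0 ≤ j := by
    by_contra hneg
    push Not at hneg
    have h2 : nm c ≠ 0 := fun h => hc ((nm_eq_zero hq).1 h)
    have : (M : ℤ) * j < 0 := mul_neg_of_pos_of_neg hM' hneg
    omega
  refine ⟨j.natAbs, ?_⟩
  zify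
  rw [abs_of_nonneg h1, abs_of_nonneg hj0]
  linarith

theorem B1 (h : CtxU A B V) : B = 1 := by
  rcases h.cq.hB with hB | hB
  · exfalso
    obtain ⟨k, hk⟩ := h.two
    rw [hB] at hk
    omega
  · exact hB

theorem _root_.Pool.Agent.ME2E.CON.del_nmem (h : CtxU A B V) : (del : OO A B) ∉ idl (A := A) (B := B) 2 := by
  intro h0
  rw [Ideal.mem_span_singleton] at h0
  obtain ⟨y, hy⟩ := h0
  have h1 := congrArg QuadraticAlgebra.re hy
  have h2 : (del : OO A B).re = -B := rfl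
  have hB := B1 h
  rw [h2] at h1
  simp only [QuadraticAlgebra.re_mul, QuadraticAlgebra.re_natCast, QuadraticAlgebra.im_natCast]
    at h1
  push_cast at h1
  have h3 : -B = 2 * y.re := by linarith
  omega

theorem _root_.Pool.Agent.ME2E.CON.coprime_mem {x : OO A B} {M : ℕ} (h : CtxU A B V) (hx : IsCoprime x ((M : ℕ) : OO A B))
    (hM : 2 ∣ M) : x ∉ idl (A := A) (B := B) 2 := by
  intro hxP
  obtain ⟨u, v, huv⟩ := hx
  obtain ⟨r, rfl⟩ := hM
  have h1 : ((2 * r : ℕ) : OO A B) ∈ idl (A := A) (B := B) 2 := by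
    rw [Ideal.mem_span_singleton]
    exact ⟨(r : OO A B), by push_cast; ring⟩
  have h2 : (1 : OO A B) ∈ idl (A := A) (B := B) 2 := by
    rw [← huv]
    exact Ideal.add_mem _ (Ideal.mul_mem_left _ _ hxP) (Ideal.mul_mem_left _ _ h1)
  exact h.max.ne_top ((Ideal.eq_top_iff_one _).2 h2)

/-- `a del x` is not divisible by 2 -/
theorem _root_.Pool.Agent.ME2E.CON.adx (h : CtxU A B V) (ha : ¬ 2 ∣ a) {x : OO A B} (hx : x ∉ idl (A := A) (B := B) 2)
    (y : OO A B) : (a : OO A B) * del * x ≠ 2 * y := by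
  intro h0
  have h1 : V.valuation (emb ((a : OO A B) * del * x)) = V.valuation (emb (2 * y)) := by
    rw [h0]
  have h5 : emb (2 : OO A B) = 2 := by
    have := _root_.Pool.Agent.MUX.emb_natCast h.cq 2
    exact_mod_cast this
  rw [_root_.Pool.Agent.MUX.emb_mul h.cq, _root_.Pool.Agent.MUX.emb_mul h.cq, _root_.Pool.Agent.MUX.emb_natCast h.cq, map_mul, map_mul, h.nat a ha, one_mul,
    h.unit _ (_root_.Pool.Agent.ME2E.CON.del_nmem h), one_mul, h.unit x hx, _root_.Pool.Agent.MUX.emb_mul h.cq, h5, map_mul] at h1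
  have h7 : V.valuation (2 : ℂ) * V.valuation (emb y) ≤ V.valuation (2 : ℂ) :=
    mul_le_of_le_one_right' (h.int y)
  rw [← h1] at h7
  exact absurd h.v2 (not_lt.2 h7)

end CON

open _root_.Pool.Agent.ME2E.CON in
theorem ty_CON : Sy_CON := by
  intro A B V n f a m h
  obtain ⟨e1, e2, e3, e4, e5, e6, e7, e8, e9⟩ := _root_.Pool.Agent.ME2E.CON.nums h
  have hq := h.ctx.cq
  have hdom : IsDomain (OO A B) := isDomain hq
  have hm := _root_.Pool.Agent.ME2E.CON.mpos h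
  have hmN : ∃ r, (2 ^ n * f * a) ^ 2 = m * r := by
    obtain ⟨r, hr⟩ := e7
    exact ⟨a * r, by rw [hr]; ring⟩
  refine ⟨fun b => ⟨?_, ?_, ?_, ?_, ?_, ?_⟩, ⟨?_, ?_⟩, ?_, ?_, ?_, ?_⟩
  · rw [Ideal.isCoprime_span_singleton_iff]
    exact _root_.Pool.Agent.ME2E.CON.coprime_of e7 b
  · exact _root_.Pool.Agent.ME2E.CON.coprime_of hmN b
  · exact _root_.Pool.Agent.ME2E.CON.cc_ne e2 b
  · rw [_root_.Pool.Agent.ME2E.CON.cc_sub]
    exact _root_.Pool.Agent.ME2E.CON.cast_dvd_mem e3 b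
  · rw [_root_.Pool.Agent.ME2E.CON.cc_sub]
    exact _root_.Pool.Agent.ME2E.CON.cast_dvd_mem e4 b
  · rw [_root_.Pool.Agent.ME2E.CON.cc_sub]
    exact _root_.Pool.Agent.ME2E.CON.cast_dvd_mem e5 b
  · exact _root_.Pool.Agent.ME2E.CON.del_nmem h.ctx
  · intro k
    refine _root_.Pool.Agent.ME2E.CON.nI_of hq (_root_.Pool.Agent.ME2E.CON.cc_ne e2 _) (M := 2 ^ (n + 2)) ?_
    obtain ⟨r, hr⟩ := e6
    have hd1 : (del : OO A B).re = -B := rfl
    have hd2 : (del : OO A B).im = 2 := rfl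
    have h1 : nm (cc (2 ^ n * f * a) ((k : OO A B) * del)) - 1 =
        -(B ^ 2 + 4 * A) * (((2 ^ n * f * a : ℕ) : ℤ)) ^ 2 * (k : ℤ) ^ 2 := by
      unfold cc nm
      simp only [QuadraticAlgebra.re_add, QuadraticAlgebra.im_add, QuadraticAlgebra.re_one,
        QuadraticAlgebra.im_one, QuadraticAlgebra.re_mul, QuadraticAlgebra.im_mul,
        QuadraticAlgebra.re_natCast, QuadraticAlgebra.im_natCast, hd1, hd2]
      ring
    rw [h1]
    have h2 : (((2 ^ n * f * a : ℕ) : ℤ)) ^ 2 = (2 ^ (n + 2) : ℕ) * (r : ℤ) := by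
      exact_mod_cast hr
    rw [h2]
    exact ⟨-(B ^ 2 + 4 * A) * r * k ^ 2, by ring⟩
  · intro k l
    have h1 : cc (2 ^ n * f * a) ((k : OO A B) * del) * cc (2 ^ n * f * a) ((l : OO A B) * del) -
        cc (2 ^ n * f * a) (((k + l : ℕ) : OO A B) * del) =
        (((2 ^ n * f * a) ^ 2 : ℕ) : OO A B) * ((k : OO A B) * (l : OO A B) * del * del) := by
      unfold cc
      push_cast
      ring
    rw [h1]
    exact _root_.Pool.Agent.ME2E.CON.cast_dvd_mem e7 _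
  · have h1 : cc (2 ^ n * f * a) (((4 : ℕ) : OO A B) * del) - 1 =
        ((m * a : ℕ) : OO A B) * del := by
      rw [_root_.Pool.Agent.ME2E.CON.cc_sub, e1]
      push_cast
      ring
    rw [h1]
    exact _root_.Pool.Agent.ME2E.CON.cast_dvd_mem ⟨1, by ring⟩ _
  · intro x hx hmem
    have hxP := _root_.Pool.Agent.ME2E.CON.coprime_mem h.ctx hx e9
    have h1 : cc (2 ^ n * f * a) (((2 : ℕ) : OO A B) * del) * x - x =
        ((2 * (2 ^ n * f * a) : ℕ) : OO A B) * (del * x) := by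
      unfold cc
      push_cast
      ring
    rw [h1, Ideal.mem_span_singleton] at hmem
    obtain ⟨y, hy⟩ := hmem
    have h2 : ((m : ℕ) : OO A B) * ((a : OO A B) * del * x) = ((m : ℕ) : OO A B) * (2 * y) := by
      have h3 : ((2 * (2 ^ n * f * a) * 2 : ℕ) : OO A B) = ((m * a : ℕ) : OO A B) := by rw [e8]
      push_cast at h3 hy
      linear_combination 2 * hy - (del * x) * h3
    exact _root_.Pool.Agent.ME2E.CON.adx h.ctx h.ao hxP y (mul_left_cancel₀ (natCast_ne_zero' hq hm) h2)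
  · intro L om hL
    have ham := hL.mem
    have hmc : (m : ℂ) ≠ 0 := by exact_mod_cast hm
    have hNm : ((2 ^ n * f * a : ℕ) : ℂ) * 4 = m * a := by
      have : ((m * a : ℕ) : ℂ) = ((4 * (2 ^ n * f * a) : ℕ) : ℂ) := by rw [e1]
      push_cast at this ⊢
      linear_combination -this
    have hom := hL.om_ne
    refine ⟨?_, ?_, ?_, ?_, ?_⟩
    · intro b
      unfold cc
      rw [_root_.Pool.Agent.MUX.emb_add hq, _root_.Pool.Agent.MUX.emb_one hq, _root_.Pool.Agent.MUX.emb_mul hq, _root_.Pool.Agent.MUX.emb_natCast hq]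
      field_simp
      linear_combination (emb b) * hNm
    · intro k
      rw [_root_.Pool.Agent.MUX.emb_mul hq, _root_.Pool.Agent.MUX.emb_natCast hq]
      ring
    · rw [ham]
      refine ⟨(a : OO A B) * del, trivial, ?_⟩
      rw [_root_.Pool.Agent.MUX.emb_mul hq, _root_.Pool.Agent.MUX.emb_natCast hq]
      ring
    · intro h0
      rw [ham] at h0
      obtain ⟨y, -, hy⟩ := h0
      have h1 : om * (a * emb (del : OO A B) * emb (1 : OO A B) - 2 * emb y) = 0 := by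
        rw [_root_.Pool.Agent.MUX.emb_one hq]
        linear_combination 2 * hy
      have h2 := (mul_eq_zero.1 h1).resolve_left hom
      have h5 : emb (2 : OO A B) = 2 := by
        have := _root_.Pool.Agent.MUX.emb_natCast hq 2
        exact_mod_cast this
      have h1n : (1 : OO A B) ∉ idl (A := A) (B := B) 2 := fun h3 =>
        h.ctx.max.ne_top ((Ideal.eq_top_iff_one _).2 h3)
      refine _root_.Pool.Agent.ME2E.CON.adx h.ctx h.ao h1n y ?_
      apply _root_.Pool.Agent.MUX.emb_inj hq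
      rw [_root_.Pool.Agent.MUX.emb_mul hq, _root_.Pool.Agent.MUX.emb_mul hq, _root_.Pool.Agent.MUX.emb_mul hq, _root_.Pool.Agent.MUX.emb_natCast hq, h5]
      linear_combination h2
    · intro Y hY
      obtain ⟨b', -, hb'⟩ := (ham _).1 hY
      obtain ⟨r, hr⟩ : ∃ r : ℤ, (a : ℤ) ^ 2 = 1 + 4 * r := by
        have h1 : a % 2 = 1 := by
          have := h.ao
          omega
        obtain ⟨s, hs⟩ : ∃ s, a = 2 * s + 1 := ⟨a / 2, by omega⟩
        refine ⟨(s : ℤ) ^ 2 + s, ?_⟩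
        rw [hs]
        push_cast
        ring
      refine ⟨(a : OO A B) * b', ?_⟩
      rw [ham]
      refine ⟨((-r : ℤ) : OO A B) * b', trivial, ?_⟩
      rw [_root_.Pool.Agent.MUX.emb_mul hq, _root_.Pool.Agent.MUX.emb_mul hq, _root_.Pool.Agent.MUX.emb_natCast hq, _root_.Pool.Agent.MUX.emb_intCast hq]
      have h2 : (a : ℂ) ^ 2 = 1 + 4 * (r : ℂ) := by exact_mod_cast congrArg (fun x : ℤ => (x : ℂ)) hr
      push_cast
      linear_combination (1 / 4 : ℂ) * hb' - (emb b' * om / 4) * h2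

end

end Pool.Agent.ME2E


end
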