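import Mathlib
import Pool.Agent.MVF.C050
import Pool.Agent.MVF.C139

/-! Parts: ME2.L_RamI, ME2.EU_UNR, ME2.EU_SQR -/

namespace Pool.Agent.ME2E.SQR
end Pool.Agent.ME2E.SQR

section

/-!
# ME2: the values on a finite Galois extension `F / k` and its inertia group (helper34)

The proof is the one of `Pool/Agent/N2/T3_UNF.lean` (helper4), after `Pool/Agent/NS/T_UNF.lean` (helper37) and `Pool/Agent/NS/RN_RAM.lean` (helper44).
-/

set_option autoImplicit false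

open NumberField IsDedekindDomain

namespace Pool.Agent.ME2E

open _root_.MU3 _root_.Pool.Agent.MU3A _root_.Pool.Agent.MU3B _root_.Pool.Agent.RI _root_.Pool.Agent.MUX _root_.Pool.Agent.MUXU
open OnePoint _root_.Pool.Agent.NS _root_.Pool.Agent.NST

noncomputable section

open UNF _root_.Pool.Agent.MUXE.RamE _root_.Pool.Agent.MU3E.RAM Ideal in
theorem ramI {A B : ℤ} {V : ValuationSubring ℂ} {P : Ideal (OO A B)} (hcq : CQ A B)
    (hV : OverI V P) {ϖ : OO A B} (hϖ : ϖ ∈ P) (hϖ2 : ϖ ∉ P ^ 2)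
    (F : IntermediateField (kk A B) ℂ) [FiniteDimensional (kk A B) F] [IsGalois (kk A B) F] :
    ∃ I : Subgroup (F ≃ₐ[kk A B] F),
      (∀ σ ∈ I, ∀ x : F, V.valuation (x : ℂ) ≤ 1 → V.valuation ((σ x : ℂ) - x) < 1) ∧
      ∀ y ∈ F, y ≠ 0 → ∃ j : ℤ, V.valuation y ^ Nat.card I = V.valuation (emb ϖ) ^ j := by
  obtain ⟨⟨φ, hφ⟩, hinj, hded, hpos, hint⟩ := Pool.Agent.MUXE.te_RNG A B hcq
  have hlt : ∀ x : OO A B, V.valuation (emb x) < 1 ↔ x ∈ P := fun x =>
    (ValuationSubring.mem_nonunits_iff (A := V)).symm.trans (hV x)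
  have hϖ0 : ϖ ≠ 0 := by
    rintro rfl
    exact hϖ2 (Ideal.zero_mem _)
  have hw0 : IsIntegral ℤ (wC A B) := by
    rw [hint _ (wC_mem A B)]
    exact ⟨⟨0, 1⟩, by simp [emb]⟩
  have hfd : FiniteDimensional ℚ (kk A B) :=
    IntermediateField.adjoin.finiteDimensional hw0.tower_top
  have hk : NumberField (kk A B) := ⟨⟩
  have hFQ : FiniteDimensional ℚ F := FiniteDimensional.trans ℚ (kk A B) F
  have hF : NumberField F := ⟨⟩
  have hIn : ∀ x : OO A B, IsIntegral ℤ (ek x) := by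
    intro x
    have h2 : IsIntegral ℤ (emb x) := (hint (emb x) (_root_.Pool.Agent.MU3A.emb_mem x)).mpr ⟨x, rfl⟩
    have h3 : algebraMap (kk A B) ℂ (ek x) = emb x := rfl
    rw [← h3] at h2
    exact (isIntegral_algebraMap_iff (FaithfulSMul.algebraMap_injective (kk A B) ℂ)).mp h2
  -- the ring isomorphism
  let e : OO A B →+* 𝓞 (kk A B) :=
    { toFun := fun x => ⟨ek x, hIn x⟩
      map_one' := by
        apply RingOfIntegers.ext
        apply Subtype.ext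
        change emb 1 = 1
        rw [← hφ, map_one]
      map_mul' := by
        intro a b
        apply RingOfIntegers.ext
        apply Subtype.ext
        change emb (a * b) = emb a * emb b
        rw [← hφ, ← hφ, ← hφ, map_mul]
      map_zero' := by
        apply RingOfIntegers.ext
        apply Subtype.ext
        change emb 0 = 0
        rw [← hφ, map_zero]
      map_add' := by
        intro a b
        apply RingOfIntegers.ext
        apply Subtype.ext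
        change emb (a + b) = emb a + emb b
        rw [← hφ, ← hφ, ← hφ, map_add] }
  have he : ∀ x, (((e x : 𝓞 (kk A B)) : kk A B) : ℂ) = emb x := fun x => rfl
  have hesurj : Function.Surjective e := by
    intro x
    have h2 : IsIntegral ℤ ((x : kk A B) : ℂ) :=
      (RingOfIntegers.isIntegral_coe x).map (Algebra.ofId (kk A B) ℂ |>.restrictScalars ℤ)
    obtain ⟨z, hz⟩ := (hint _ (x : kk A B).2).mp h2
    refine ⟨z, ?_⟩
    apply RingOfIntegers.ext
    apply Subtype.ext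
    rw [he, hz]
  have heinj : Function.Injective e := by
    rw [injective_iff_map_eq_zero]
    intro x hx
    apply hinj
    rw [← he, hx]
    rfl
  have hϖne : emb ϖ ≠ 0 := fun h => hϖ0 (hinj ϖ h)
  have hcoe : algebraMap F ℂ ((algebraMap (𝓞 (kk A B)) (𝓞 F) (e ϖ) : 𝓞 F) : F) = emb ϖ := rfl
  obtain ⟨w, hw⟩ := exists_prime (V := V) (algebraMap F ℂ)
    (z := algebraMap (𝓞 (kk A B)) (𝓞 F) (e ϖ)) (by
      intro h
      apply hϖne
      rw [← hcoe, h]
      exact map_zero _) (by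
      rw [hcoe]
      exact (hlt ϖ).2 hϖ)
  have hcomap : (w.asIdeal.under (𝓞 (kk A B))).comap e = P := by
    ext z
    have hxw : z ∈ (w.asIdeal.under (𝓞 (kk A B))).comap e ↔ V.valuation (emb z) < 1 := by
      exact hw (algebraMap (𝓞 (kk A B)) (𝓞 F) (e z))
    rw [hxw]
    exact hlt z
  have hmap : P.map e = w.asIdeal.under (𝓞 (kk A B)) := by
    rw [← hcomap]
    exact Ideal.map_comap_of_surjective e hesurj _
  have hq1 : e ϖ ∈ w.asIdeal.under (𝓞 (kk A B)) := by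
    rw [← hmap]
    exact Ideal.mem_map_of_mem e hϖ
  have hq2 : e ϖ ∉ (w.asIdeal.under (𝓞 (kk A B))) ^ 2 := by
    rw [← hmap, ← Ideal.map_pow, Ideal.mem_map_iff_of_surjective e hesurj]
    rintro ⟨z, hz, hz2⟩
    rw [heinj hz2] at hz
    exact hϖ2 hz
  obtain ⟨v, hvp, hvv⟩ := val_card (k := kk A B) w
  set n := Nat.card (w.asIdeal.inertia (F ≃ₐ[kk A B] F)) with hn
  set q : F := algebraMap (kk A B) F ((e ϖ : 𝓞 (kk A B)) : kk A B) with hq
  have hqC : algebraMap F ℂ q = emb ϖ := rfl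
  have hq0 : q ≠ 0 := by
    intro h
    apply hϖne
    rw [← hqC, h, map_zero]
  have hval3 : w.valuation F q = WithZero.exp (-1 : ℤ) ^ n := by
    rw [hq, hvv]
    congr 1
    have h2 : ((e ϖ : 𝓞 (kk A B)) : kk A B) = algebraMap (𝓞 (kk A B)) (kk A B) (e ϖ) := rfl
    rw [h2, HeightOneSpectrum.valuation_of_algebraMap]
    exact intVal_one v (by rw [hvp]; exact hq1) (by rw [hvp]; exact hq2)
  refine ⟨w.asIdeal.inertia (F ≃ₐ[kk A B] F), fun σ hσ x hx => ?_, fun y hy hy0 => ?_⟩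
  · exact inertia_lt (algebraMap F ℂ) hw hσ (x := x) hx
  have hyF0 : (⟨y, hy⟩ : F) ≠ 0 := fun h => hy0 (congrArg Subtype.val h)
  have hwy : w.valuation F (⟨y, hy⟩ : F) ≠ 0 := (Valuation.ne_zero_iff _).2 hyF0
  obtain ⟨j, hj⟩ : ∃ j : ℤ, w.valuation F (⟨y, hy⟩ : F) = WithZero.exp (-j) :=
    ⟨-(WithZero.log (w.valuation F (⟨y, hy⟩ : F))), by rw [neg_neg, WithZero.exp_log hwy]⟩
  refine ⟨j, ?_⟩
  have hone : w.valuation F ((⟨y, hy⟩ : F) ^ n / q ^ j) = 1 := by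
    rw [map_div₀, map_pow, map_zpow₀, hj, hval3, ← WithZero.exp_nsmul, ← WithZero.exp_nsmul,
      ← WithZero.exp_zsmul, ← WithZero.exp_sub]
    have : n • (-j) - j • (n • (-1 : ℤ)) = 0 := by
      simp only [smul_eq_mul, nsmul_eq_mul]
      ring
    rw [this, WithZero.exp_zero]
  have h1 := ord_one (algebraMap F ℂ) hw hone
  rw [map_div₀, map_pow, map_zpow₀, hqC, map_div₀, map_pow, map_zpow₀] at h1
  have h2 : V.valuation (emb ϖ) ≠ 0 := (Valuation.ne_zero_iff _).2 hϖne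
  exact (div_eq_one_iff_eq (zpow_ne_zero j h2)).1 h1

end

end Pool.Agent.ME2E


end

section

/-!
# ME2, block E, module UNR: the ramification index of `RFE (2 f)` at `V | 2` divides `3` (helper34)

The inertia group acts faithfully on the third roots of unity `σ t / t`, `t = ℘(w)` for a point `w` of order three.
-/

set_option autoImplicit false

open Polynomial

namespace Pool.Agent.ME2E

open _root_.MU3 _root_.Pool.Agent.MU3A _root_.Pool.Agent.MU3B _root_.Pool.Agent.MUX _root_.Pool.Agent.MUXU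
open _root_.Pool.Agent.RI _root_.Pool.Agent.NS
open _root_.Pool.Agent.ME hiding ActE
open _root_.Pool.Agent.MEE _root_.Pool.Agent.ME2
open _root_.Pool.Agent.MUXE (RingE)
open _root_.Pool.Agent.N2 (GoodT)
open _root_.Pool.Agent.MUXY (ActN)

noncomputable section

namespace UNR

/-- extension of an automorphism of `RFE m` to `ℂ` -/
lemma extn {A B : ℤ} (hT : TorXE A B) {m : Ideal (OO A B)} (hm : m ≠ ⊥)
    (σ : (RFE m : IntermediateField (kk A B) ℂ) ≃ₐ[kk A B] RFE m) :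
    ∃ s : ℂ ≃+* ℂ, FixK A B s ∧ ∀ y : (RFE m : IntermediateField (kk A B) ℂ),
      s y = ((σ y : (RFE m : IntermediateField (kk A B) ℂ)) : ℂ) := by
  let D : IntermediateField ℚ ℂ :=
    (RFE m : IntermediateField (kk A B) ℂ).restrictScalars ℚ
  have hkD : kk A B ≤ D := fun x hx =>
    (RFE m : IntermediateField (kk A B) ℂ).algebraMap_mem ⟨x, hx⟩
  letI := algC hkD
  let f : D ≃+* D :=
    { toFun := fun y => σ y
      invFun := fun y => σ.symm y
      left_inv := fun y => σ.symm_apply_apply y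
      right_inv := fun y => σ.apply_symm_apply y
      map_mul' := fun x y => map_mul σ x y
      map_add' := fun x y => map_add σ x y }
  let τ : D ≃ₐ[kk A B] D := AlgEquiv.ofRingEquiv (f := f) (fun r => σ.commutes r)
  obtain ⟨s, hs, h1⟩ := hT.ext m hm D hkD (fun y hy => hy) τ
  exact ⟨s, hs, fun y => h1 ⟨y, y.2⟩⟩

lemma idl_ne {A B : ℤ} {f : ℕ} (hf : f ≠ 0) : idl (A := A) (B := B) f ≠ ⊥ := by
  intro h
  rw [Ideal.span_singleton_eq_bot] at h
  have h1 := congrArg QuadraticAlgebra.re h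
  rw [QuadraticAlgebra.re_natCast, QuadraticAlgebra.re_zero] at h1
  exact hf (by exact_mod_cast h1)

/-- `(2)` is the prime ideal below `V` -/
lemma overV {A B : ℤ} {V : ValuationSubring ℂ} (hC : CtxU A B V) :
    OverI V (idl (A := A) (B := B) 2) ∧
      ((2 : ℕ) : OO A B) ∉ (idl (A := A) (B := B) 2) ^ 2 ∧
      emb (((2 : ℕ) : OO A B)) = (2 : ℂ) := by
  obtain ⟨⟨φ, hφ⟩, hinj, -, -, -⟩ := hC.ring
  have h2e : emb (((2 : ℕ) : OO A B)) = (2 : ℂ) := by
    rw [← hφ, map_natCast]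
    norm_num
  have hmul : ∀ z : OO A B, emb (((2 : ℕ) : OO A B) * z) = 2 * emb z := by
    intro z
    rw [← hφ, map_mul, hφ, hφ, h2e]
  have hlt : ∀ z : OO A B, V.valuation (emb (((2 : ℕ) : OO A B) * z)) < 1 := by
    intro z
    rw [hmul, map_mul]
    exact mul_lt_one_of_lt_of_le hC.v2 (hC.int z)
  refine ⟨?_, ?_, h2e⟩
  · intro x
    rw [ValuationSubring.mem_nonunits_iff]
    constructor
    · intro h
      by_contra hx
      rw [hC.unit x hx] at h
      exact lt_irrefl _ h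
    · intro h
      obtain ⟨z, rfl⟩ := Ideal.mem_span_singleton'.mp h
      rw [mul_comm]
      exact hlt z
  · intro h
    rw [Ideal.span_singleton_pow] at h
    obtain ⟨z, hz⟩ := Ideal.mem_span_singleton'.mp h
    have h1 := congrArg emb hz
    have h2 : emb (z * ((2 : ℕ) : OO A B) ^ 2) = emb z * 4 := by
      rw [← hφ, map_mul, map_pow, hφ, hφ, h2e]
      norm_num
    rw [h2, h2e] at h1
    have h4 : (1 : ℂ) = 2 * emb z := by linear_combination (-1 / 2 : ℂ) * h1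
    have h5 := congrArg V.valuation h4
    rw [map_one, map_mul] at h5
    have h6 := mul_lt_one_of_lt_of_le hC.v2 (hC.int z)
    rw [← h5] at h6
    exact lt_irrefl _ h6

/-- the action on the points of order three -/
lemma act3 {A B : ℤ} (hE : CaseE A B) (hB : B = 1) (hT : TorXE A B) {s : ℂ ≃+* ℂ}
    (hs : FixK A B s) : ∃ ζ : kk A B, (ζ : ℂ) ^ 3 = 1 ∧
      ∀ (b : Ideal (OO A B)) (L : PeriodPair) (om : ℂ), IsNE b L om → ∀ w : ℂ,
        3 * w ∈ L.lattice → w ∉ L.lattice → s (L.weierstrassP w) = ζ * L.weierstrassP w := by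
  have hC := hE.toCQ
  obtain ⟨c, -, hcop, hact, -⟩ := actE hE hT (m := 6) (by norm_num) (by norm_num) hs
  have hcop3 : IsCoprime (sp c) (idl (A := A) (B := B) 3) := by
    rw [Ideal.isCoprime_iff_sup_eq] at hcop ⊢
    rw [eq_top_iff, ← hcop]
    exact sup_le_sup_left (idl_mono (by norm_num)) _
  obtain ⟨η, η', hη, hη3, hc⟩ := unit3 hC hE.hA hB hcop3
  have hη6 : emb η ^ 6 = 1 := by
    have h1 : η ^ 6 = 1 := by
      rcases hη3 with h | h
      · rw [show (6 : ℕ) = 3 * 2 by norm_num, pow_mul, h, one_pow]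
      · rw [show (6 : ℕ) = 3 * 2 by norm_num, pow_mul, h]
        ring
    rw [← MUX.emb_pow hC, h1, MUX.emb_one hC]
  have hη0 : emb η ≠ 0 := by
    intro h
    rw [h] at hη6
    norm_num at hη6
  refine ⟨⟨(emb η ^ 2)⁻¹, inv_mem (pow_mem (MUX.emb_mem η) 2)⟩, ?_, ?_⟩
  · show ((emb η ^ 2)⁻¹ : ℂ) ^ 3 = 1
    rw [inv_pow, ← pow_mul, hη6, inv_one]
  · intro b L om hL w h3w hw
    obtain ⟨-, -, hP, -⟩ := unit_hom hC hL.toIsLI hη
    obtain ⟨-, h1, -⟩ := (hact b L om hL).act w (by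
      have h2 := add_mem h3w h3w
      have e1 : ((6 : ℕ) : ℂ) * w = 3 * w + 3 * w := by push_cast; ring
      rw [e1]
      exact h2) hw
    obtain ⟨h4, -⟩ := wp_cong hC hL.toIsLI hc (w := w) (by exact_mod_cast h3w)
    rw [← h1, h4, hP]
    show L.weierstrassP w / emb η ^ 2 = (emb η ^ 2)⁻¹ * L.weierstrassP w
    rw [div_eq_inv_mul]

/-- an automorphism which fixes one `x`-coordinate `t ≠ 0` of a point of order three is trivial on `RFE 3` -/
lemma triv3 {A B : ℤ} (hE : CaseE A B) {s : ℂ ≃+* ℂ} (hs : FixK A B s)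
    (h : ∀ (b : Ideal (OO A B)) (L : PeriodPair) (om : ℂ), IsNE b L om → ∀ w : ℂ,
        3 * w ∈ L.lattice → w ∉ L.lattice → s (L.weierstrassP w) = L.weierstrassP w) :
    ∀ y ∈ RFE (idl (A := A) (B := B) 3), s y = y := by
  have hC := hE.toCQ
  intro y hy
  unfold RFE at hy
  induction hy using IntermediateField.adjoin_induction with
  | mem x hx =>
    obtain ⟨b, L, om, hL, hx | ⟨z, hz, hzL, hx⟩⟩ := hx
    · rw [hx, kapE, hL.nrm.g2, hL.nrm.g3]
      unfold g2E g3E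
      split_ifs
      · rw [add_zero]
        exact map_ofNat s 4
      · rw [zero_add, map_neg]
        exact congrArg Neg.neg (map_ofNat s 4)
    · rw [hx, xnE]
      refine h b L om hL z ?_ hzL
      have h1 := hz ((3 : ℕ) : OO A B) (Ideal.mem_span_singleton_self _)
      rw [MUX.emb_natCast hC] at h1
      exact_mod_cast h1
  | algebraMap x => exact Pool.Agent.MUXE.m0_fix hs _ x.2
  | add x y _ _ hx hy => rw [map_add, hx, hy]
  | inv x _ hx => rw [map_inv₀, hx]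
  | mul x y _ _ hx hy => rw [map_mul, hx, hy]

lemma unr3 {A B : ℤ} {V : ValuationSubring ℂ} (hC : CtxU A B V) (hT : TorXE A B) (f : ℕ)
    (hf : f ≠ 0) (hf2 : ¬ 2 ∣ f) (hf3 : 3 ∣ f) (y : ℂ)
    (hy : y ∈ RFE (idl (A := A) (B := B) (2 * f))) (hy0 : y ≠ 0) :
    ∃ k : ℤ, V.valuation y ^ 3 = V.valuation (2 : ℂ) ^ k := by
  classical
  have hE := hC.case
  have hQ := hE.toCQ
  have hm : idl (A := A) (B := B) (2 * f) ≠ ⊥ := idl_ne (mul_ne_zero two_ne_zero hf)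
  haveI := hT.fin _ hm
  haveI := hT.gal _ hm
  obtain ⟨hov, hsq, h2e⟩ := overV hC
  -- the point
  obtain ⟨L, om, hL⟩ := Pool.Agent.MEC.exists_isNE hE ⊤ (by
    intro h
    have h1 : (1 : OO A B) ∈ (⊥ : Ideal (OO A B)) := h ▸ trivial
    rw [Ideal.mem_bot] at h1
    have h2 := congrArg QuadraticAlgebra.re h1
    rw [QuadraticAlgebra.re_one, QuadraticAlgebra.re_zero] at h2
    exact one_ne_zero h2)
  obtain ⟨u, e, a1, a3, hg⟩ := hC.good L ⟨⊤, om, hL⟩
  obtain ⟨w0, h3w, hw, ht0⟩ : ∃ w0 : ℂ, 3 * w0 ∈ L.lattice ∧ w0 ∉ L.lattice ∧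
      L.weierstrassP w0 ≠ 0 := by
    obtain ⟨w1, w2, h31, h32, hw1, hw2, -, -, -, hu2⟩ := hg.tor
    by_cases h : L.weierstrassP w2 = 0
    · refine ⟨w1, h31, hw1, fun h' => ?_⟩
      rw [h, h', sub_zero] at hu2
      exact pow_ne_zero 2 hg.u0 hu2
    · exact ⟨w2, h32, hw2, h⟩
  have htF : L.weierstrassP w0 ∈ RFE (idl (A := A) (B := B) (2 * f)) := by
    refine wp_mem hQ hL hw ?_
    obtain ⟨k, rfl⟩ := hf3
    have h1 := nsmul_mem h3w (2 * k)
    rw [nsmul_eq_mul] at h1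
    have e1 : ((2 * (3 * k) : ℕ) : ℂ) * w0 = ((2 * k : ℕ) : ℂ) * (3 * w0) := by push_cast; ring
    rw [e1]
    exact h1
  set F := RFE (idl (A := A) (B := B) (2 * f)) with hF
  obtain ⟨I, hI, hval⟩ := ramI hC.cq hov (Ideal.mem_span_singleton_self ((2 : ℕ) : OO A B)) hsq F
  let t : F := ⟨L.weierstrassP w0, htF⟩
  have htt : ((t : F) : ℂ) = L.weierstrassP w0 := rfl
  -- the character
  have hchar : ∀ σ : F ≃ₐ[kk A B] F, ∃ ζ : kk A B, (ζ : ℂ) ^ 3 = 1 ∧
      ((σ t : F) : ℂ) = ζ * t := by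
    intro σ
    obtain ⟨s, hs, hsv⟩ := extn hT hm σ
    obtain ⟨ζ, hζ, h1⟩ := act3 hE hC.hB hT hs
    exact ⟨ζ, hζ, by rw [← hsv t]; exact h1 ⊤ L om hL w0 h3w hw⟩
  have htc : ((t : F) : ℂ) ≠ 0 := ht0
  let χ : I →* ℂ :=
    { toFun := fun σ => (((σ : F ≃ₐ[kk A B] F) t : F) : ℂ) / t
      map_one' := by
        show (((1 : F ≃ₐ[kk A B] F) t : F) : ℂ) / t = 1
        rw [AlgEquiv.one_apply, div_self htc]
      map_mul' := by
        intro σ τ
        obtain ⟨ζ, -, h1⟩ := hchar (τ : F ≃ₐ[kk A B] F)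
        obtain ⟨ζ', -, h2⟩ := hchar (σ : F ≃ₐ[kk A B] F)
        have h3 : ((τ : F ≃ₐ[kk A B] F) t : F) = algebraMap (kk A B) F ζ * t := Subtype.ext h1
        show ((((σ : F ≃ₐ[kk A B] F) * (τ : F ≃ₐ[kk A B] F)) t : F) : ℂ) / t =
          (((σ : F ≃ₐ[kk A B] F) t : F) : ℂ) / t * ((((τ : F ≃ₐ[kk A B] F) t : F) : ℂ) / t)
        rw [AlgEquiv.mul_apply, h3, map_mul, AlgEquiv.commutes]
        have h4 : ((algebraMap (kk A B) F ζ * (σ : F ≃ₐ[kk A B] F) t : F) : ℂ) =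
            ζ * (((σ : F ≃ₐ[kk A B] F) t : F) : ℂ) := rfl
        have h5 : ((algebraMap (kk A B) F ζ * t : F) : ℂ) = ζ * (t : ℂ) := rfl
        rw [h4, h5]
        field_simp }
  have hχ : ∀ σ : I, χ σ ^ 3 = 1 := by
    intro σ
    obtain ⟨ζ, h1, h2⟩ := hchar (σ : F ≃ₐ[kk A B] F)
    show ((((σ : F ≃ₐ[kk A B] F) t : F) : ℂ) / t) ^ 3 = 1
    rw [h2, mul_div_assoc, div_self htc, mul_one]
    exact h1
  let ψ : I →* rootsOfUnity 3 ℂ := (MonoidHom.toHomUnits χ).codRestrict (rootsOfUnity 3 ℂ) (by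
    intro σ
    rw [mem_rootsOfUnity]
    apply Units.ext
    push_cast
    exact hχ σ)
  have hinj : Function.Injective ψ := by
    rw [injective_iff_map_eq_one]
    intro σ hσ
    have h1 : χ σ = 1 := by
      have h2 := congrArg (fun z : rootsOfUnity 3 ℂ => ((z : ℂˣ) : ℂ)) hσ
      exact h2
    have h2 : (((σ : F ≃ₐ[kk A B] F) t : F) : ℂ) = t := (div_eq_one_iff_eq htc).1 h1
    obtain ⟨s, hs, hsv⟩ := extn hT hm (σ : F ≃ₐ[kk A B] F)
    obtain ⟨ζ, hζ, h3⟩ := act3 hE hC.hB hT hs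
    have h4 : (ζ : ℂ) = 1 := by
      have h5 := h3 ⊤ L om hL w0 h3w hw
      have h6 : s (L.weierstrassP w0) = L.weierstrassP w0 := by
        rw [← htt, hsv t, h2]
      rw [h6] at h5
      exact (mul_right_cancel₀ ht0 (by rw [one_mul]; exact h5)).symm
    have h7 := triv3 hE hs (fun b L om hL w h3w hw => by rw [h3 b L om hL w h3w hw, h4, one_mul])
    have h8 := hC.iner f hf hf2 hf3 s hs (fun y hy hyV => by
      have h9 := hI σ σ.2 ⟨y, hy⟩ ((V.valuation_le_one_iff y).2 hyV)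
      rw [ValuationSubring.mem_nonunits_iff, hsv ⟨y, hy⟩]
      exact h9) h7
    apply Subtype.ext
    apply AlgEquiv.ext
    intro y
    apply Subtype.ext
    rw [← hsv]
    exact h8 y y.2
  have hdvd : Nat.card I ∣ 3 := by
    have h1 := Subgroup.card_dvd_of_injective ψ hinj
    rwa [Complex.card_rootsOfUnity] at h1
  obtain ⟨j, hj⟩ := hval y hy hy0
  rw [h2e] at hj
  obtain ⟨q, hq⟩ := hdvd
  refine ⟨j * q, ?_⟩
  rw [hq, pow_mul, hj, zpow_mul, zpow_natCast]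

end UNR

/-- UNR. -/
theorem ty_UNR : Sy_UNR := by
  intro A B V hC hT f hf hf2 y hy hy0
  have hle : RFE (idl (A := A) (B := B) (2 * f)) ≤ RFE (idl (A := A) (B := B) (2 * (3 * f))) :=
    (tm_FAC tm_TRA A B hC.ring).1 _ _ (idl_mono ⟨3, by ring⟩)
  exact UNR.unr3 hC hT (3 * f) (mul_ne_zero three_ne_zero hf) (by omega) (dvd_mul_right 3 f) y
    (hle hy) hy0

end

end Pool.Agent.ME2E


end

section

/-!
# MUX-2N, block E2N, module SQR: the improved criterion for squares (helper42)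
-/

set_option autoImplicit false

open Polynomial

namespace Pool.Agent.ME2E

open _root_.MU3 _root_.Pool.Agent.MU3A _root_.Pool.Agent.MU3B _root_.Pool.Agent.MUX _root_.Pool.Agent.MUXU
open _root_.Pool.Agent.RI _root_.Pool.Agent.NS
open _root_.Pool.Agent.ME hiding ActE
open _root_.Pool.Agent.MEE _root_.Pool.Agent.ME2
open _root_.Pool.Agent.MUXE (RingE)
open _root_.Pool.Agent.N2 (GoodT et yt WT IsTei2 OddT PTq)
open _root_.Pool.Agent.N2E (dlg del cc IsoT Sd_LAG Sd_PRD Sd_COE Sd_GRT Sd_TPT Sd_UNT Sd_RAT Sd_THT Sd_DST Sd_NE1 Sd_PRT)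
open _root_.Pool.Agent.NSE (IntP)
open _root_.Pool.Agent.MUX2 (GRG)
open _root_.Pool.Agent.MUXV (InK tX)

noncomputable section

namespace SQR

lemma _root_.Pool.Agent.ME2E.SQR.v2_ne (V : ValuationSubring ℂ) : V.valuation (2 : ℂ) ≠ 0 :=
  (Valuation.ne_zero_iff _).2 (by norm_num)

/-- squares of powers of `v(2)` -/
def _root_.Pool.Agent.ME2E.SQR.Sb (V : ValuationSubring ℂ) (x : ℂ) : Prop :=
  ∃ k : ℤ, V.valuation x = (V.valuation (2 : ℂ) ^ k) ^ 2

lemma Sb.one (V : ValuationSubring ℂ) : _root_.Pool.Agent.ME2E.SQR.Sb V 1 := ⟨0, by simp⟩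

lemma Sb.mul {V : ValuationSubring ℂ} {x y : ℂ} (hx : _root_.Pool.Agent.ME2E.SQR.Sb V x) (hy : _root_.Pool.Agent.ME2E.SQR.Sb V y) : _root_.Pool.Agent.ME2E.SQR.Sb V (x * y) := by
  obtain ⟨k, hk⟩ := hx
  obtain ⟨l, hl⟩ := hy
  exact ⟨k + l, by rw [map_mul, hk, hl, zpow_add₀ (_root_.Pool.Agent.ME2E.SQR.v2_ne V), mul_pow]⟩

lemma Sb.zpow {V : ValuationSubring ℂ} {x : ℂ} (hx : _root_.Pool.Agent.ME2E.SQR.Sb V x) (g : ℤ) : _root_.Pool.Agent.ME2E.SQR.Sb V (x ^ g) := by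
  obtain ⟨k, hk⟩ := hx
  exact ⟨k * g, by rw [map_zpow₀, hk, pow_two, mul_zpow, ← pow_two, zpow_mul]⟩

lemma _root_.Pool.Agent.ME2E.SQR.prodZ {J κ : Type} [Fintype J] (X : J → Finset κ) (g : J → ℤ) (F : κ → ℂ) :
    ∏ j, (∏ q ∈ X j, F q) ^ g j = ∏ p ∈ Finset.univ.sigma X, F p.2 ^ g p.1 := by
  rw [Finset.prod_sigma]
  exact Finset.prod_congr rfl fun j _ => (Finset.prod_zpow _ _ _).symm

lemma _root_.Pool.Agent.ME2E.SQR.not_two {A B : ℤ} {V : ValuationSubring ℂ} (hC : CtxU A B V) {n f : ℕ} {x : OO A B}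
    (hx : IsCoprime x ((2 ^ (n + 2) * f : ℕ) : OO A B)) : x ∉ idl (A := A) (B := B) 2 := by
  intro h
  apply hC.max.ne_top
  rw [Ideal.eq_top_iff_one]
  obtain ⟨b1, b2, hb⟩ := hx
  rw [← hb]
  refine add_mem (Ideal.mul_mem_left _ _ h) (Ideal.mul_mem_left _ _ ?_)
  exact Ideal.mem_span_singleton.2 ⟨((2 ^ (n + 1) * f : ℕ) : OO A B), by push_cast; ring⟩

/-- the base point has exact order `m` -/
lemma _root_.Pool.Agent.ME2E.SQR.base {A B : ℤ} (hring : RingE A B) {L : PeriodPair} {om : ℂ}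
    (hL : IsNE (⊤ : Ideal (OO A B)) L om) {m : ℕ} (hm : m ≠ 0) :
    (m : ℂ) * (om / m) ∈ L.lattice ∧ ∀ c : ℕ, (c : ℂ) * (om / m) ∈ L.lattice → m ∣ c := by
  obtain ⟨φ, hφ⟩ := hring.hom
  have hm' : (m : ℂ) ≠ 0 := by exact_mod_cast hm
  refine ⟨?_, fun c hc => ?_⟩
  · rw [mul_div_cancel₀ _ hm']
    exact (hL.mem _).2 ⟨1, trivial, by rw [← hφ, map_one, mul_one]⟩
  · obtain ⟨x, -, hx⟩ := (hL.mem _).1 hc
    have hom := hL.om_ne
    have h1 : emb ((c : ℕ) : OO A B) = emb (((m : ℕ) : OO A B) * x) := by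
      rw [← hφ, ← hφ, map_mul, map_natCast, map_natCast, hφ]
      apply mul_left_cancel₀ hom
      rw [mul_div_assoc', div_eq_iff hm'] at hx
      linear_combination hx
    have h2 : ((c : ℕ) : OO A B) = ((m : ℕ) : OO A B) * x := by
      rw [← sub_eq_zero]
      apply hring.inj0
      rw [← hφ, map_sub, hφ, hφ, h1, sub_self]
    have h3 := congrArg QuadraticAlgebra.re h2
    simp at h3
    exact Int.natCast_dvd_natCast.1 ⟨_, h3⟩

end SQR

open _root_.Pool.Agent.ME2E.SQR in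
theorem ty_SQR (h1 : Sd_LAG) (h2 : Sd_PRD) (h3 : Sd_COE) (h4 : Sd_DST) (h5 : Sy_AUT) (h6 : Sy_GTA)
    (h7 : Sy_CON) (h8 : Sy_SIG) (h9 : Sd_NE1) (h10 : Sy_GPO) : Sy_SQR := by
  intro A B V n f a m hS ι R u e a1 a3 hgood H hH J _ X g hX ⟨y, hy, hinv, hy2⟩
  have hC := hS.ctx
  have hring := hC.ring
  obtain ⟨φ, hφ⟩ := hring.hom
  have emul : ∀ x y : OO A B, emb (x * y) = emb x * emb y := fun x y => by
    rw [← hφ, map_mul, hφ, hφ]
  have eone : emb (1 : OO A B) = 1 := by rw [← hφ, map_one]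
  have enat : ∀ n : ℕ, emb ((n : ℕ) : OO A B) = n := fun n => by rw [← hφ, map_natCast]
  have hf3 := hS.f3
  have ha3 := hS.a3
  have hm0 : m ≠ 0 := by
    rw [hS.hm]
    exact mul_ne_zero (by positivity) (by omega)
  have hNL0 : IsNE (⊤ : Ideal (OO A B)) (R.L R.i0) (R.om R.i0) := by
    have := R.nl R.i0
    rwa [R.b0] at this
  obtain ⟨c1, -, -, -, -, c7⟩ := h7 A B V n f a m hS
  obtain ⟨c71, c72, c73, c74, c75⟩ := c7 (R.L R.i0) (R.om R.i0) hNL0
  obtain ⟨ξ, hξ⟩ : ∃ ξ : OO A B → ℂ, ∀ b, ξ b = xu (R.L R.i0) u e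
      (emb (cc (2 ^ n * f * a) b) * (R.om R.i0 / m)) := ⟨_, fun _ => rfl⟩
  have hc0 : cc (2 ^ n * f * a) (0 : OO A B) = 1 := by rw [cc, mul_zero, add_zero]
  have hξ0 : ξ 0 = xu (R.L R.i0) u e (R.om R.i0 / m) := by rw [hξ, hc0, eone, one_mul]
  -- the rational functions
  have hG : ∀ q : ι × OO A B, ∃ (κ : ℂ) (k : ℤ) (P Q : ℂ[X]), q.2 ∉ idl (A := A) (B := B) 2 →
      IntP V P ∧ IntP V Q ∧ V.valuation κ = (V.valuation (2 : ℂ) ^ k) ^ 2 ∧
      ∀ c : OO A B, IsCoprime (c * q.2) ((m : ℕ) : OO A B) →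
        V.valuation (xu (R.L R.i0) u e (emb c * (R.om R.i0 / m))) ≤ 1 ∧
        V.valuation (et (R.L R.i0) u (emb c * (R.om R.i0 / m))) ≤ 1 ∧
        V.valuation (P.eval (xu (R.L R.i0) u e (emb c * (R.om R.i0 / m)))) = 1 ∧
        V.valuation (Q.eval (xu (R.L R.i0) u e (emb c * (R.om R.i0 / m)))) = 1 ∧
        ThetaH (R.L q.1) (H q.1) (ptE R m q.1 (c * q.2)) *
            Q.eval (xu (R.L R.i0) u e (emb c * (R.om R.i0 / m))) =
          κ * P.eval (xu (R.L R.i0) u e (emb c * (R.om R.i0 / m))) ∧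
        muXE R q.1 * emb q.2 * dlX (R.L q.1) a (ptE R m q.1 (c * q.2)) / u =
          dlg P Q (xu (R.L R.i0) u e (emb c * (R.om R.i0 / m))) *
            et (R.L R.i0) u (emb c * (R.om R.i0 / m)) := by
    intro q
    by_cases hq : q.2 ∈ idl (A := A) (B := B) 2
    · exact ⟨0, 0, 0, 0, fun h => absurd hq h⟩
    · obtain ⟨κ, k, P, Q, h⟩ := h10 A B V n f a m hS ι R u e a1 a3 hgood q.1 (H q.1) (hH q.1)
        q.2 hq
      exact ⟨κ, k, P, Q, fun _ => h⟩
  choose κ k P Q hG using hG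
  have hq2 : ∀ j, ∀ q ∈ X j, q.2 ∉ idl (A := A) (B := B) 2 := fun j q hq =>
    _root_.Pool.Agent.ME2E.SQR.not_two hC (n := n) (f := f) (by
      have := hX j q hq
      rwa [hS.hm] at this)
  have hGb := fun j q (hq : q ∈ X j) (b : OO A B) =>
    (hG q (hq2 j q hq)).2.2.2 (cc (2 ^ n * f * a) b) (((c1 b).2.1).mul_left (hX j q hq))
  obtain ⟨κ1, k1, P1, Q1, -, -, -, hG1⟩ := h10 A B V n f a m hS ι R u e a1 a3 hgood R.i0 (H R.i0)
    (hH R.i0) 1 (_root_.Pool.Agent.ME2E.SQR.not_two hC (n := n) (f := f) isCoprime_one_left)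
  have vξ : ∀ b, V.valuation (ξ b) ≤ 1 := fun b => by
    rw [hξ]
    exact (hG1 _ (by rw [mul_one]; exact (c1 b).2.1)).1
  have vet : V.valuation (et (R.L R.i0) u (R.om R.i0 / m)) ≤ 1 := by
    have := (hG1 1 (by rw [mul_one]; exact isCoprime_one_left)).2.1
    rwa [eone, one_mul] at this
  -- the product
  obtain ⟨P', Q', hP', hQ', hPQ⟩ := h2 V (Σ _ : J, ι × OO A B) (Finset.univ.sigma X)
    (fun p => P p.2) (fun p => Q p.2) (fun p => g p.1) (Set.range ξ) (by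
      intro p hp
      have hp' := (Finset.mem_sigma.1 hp).2
      refine ⟨(hG _ (hq2 _ _ hp')).1, (hG _ (hq2 _ _ hp')).2.1, ?_⟩
      rintro _ ⟨b, rfl⟩
      have := hGb _ _ hp' b
      rw [hξ]
      exact ⟨this.2.2.1, this.2.2.2.1⟩)
  have hPb := fun b => hPQ (ξ b) ⟨b, rfl⟩
  obtain ⟨κ0, hκ0⟩ : ∃ κ0 : ℂ, κ0 = ∏ p ∈ Finset.univ.sigma X, κ p.2 ^ g p.1 := ⟨_, rfl⟩
  have hW : ∀ b : OO A B, (∏ j, (∏ q ∈ X j, ThetaH (R.L q.1) (H q.1)
      (ptE R m q.1 (cc (2 ^ n * f * a) b * q.2))) ^ g j) * Q'.eval (ξ b) =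
      κ0 * P'.eval (ξ b) := by
    intro b
    obtain ⟨p1, p2, p3, -⟩ := hPb b
    have hne : ∏ p ∈ Finset.univ.sigma X, (Q p.2).eval (ξ b) ^ g p.1 ≠ 0 := by
      refine Finset.prod_ne_zero_iff.2 fun p hp => zpow_ne_zero _ fun h0 => ?_
      have := (hGb _ _ (Finset.mem_sigma.1 hp).2 b).2.2.2.1
      rw [← hξ, h0, map_zero] at this
      exact zero_ne_one this
    have h11 : (∏ p ∈ Finset.univ.sigma X, ThetaH (R.L p.2.1) (H p.2.1)
        (ptE R m p.2.1 (cc (2 ^ n * f * a) b * p.2.2)) ^ g p.1) *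
        ∏ p ∈ Finset.univ.sigma X, (Q p.2).eval (ξ b) ^ g p.1 =
        κ0 * ∏ p ∈ Finset.univ.sigma X, (P p.2).eval (ξ b) ^ g p.1 := by
      rw [hκ0, ← Finset.prod_mul_distrib, ← Finset.prod_mul_distrib]
      refine Finset.prod_congr rfl fun p hp => ?_
      have := (hGb _ _ (Finset.mem_sigma.1 hp).2 b).2.2.2.2.1
      rw [← hξ] at this
      rw [← mul_zpow, ← mul_zpow, this]
    rw [_root_.Pool.Agent.ME2E.SQR.prodZ X g (fun q => ThetaH (R.L q.1) (H q.1) (ptE R m q.1 (cc (2 ^ n * f * a) b * q.2)))]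
    apply mul_right_cancel₀ hne
    linear_combination (Q'.eval (ξ b)) * h11 - κ0 * p3
  have hκS : _root_.Pool.Agent.ME2E.SQR.Sb V κ0 := by
    rw [hκ0]
    exact Finset.prod_induction _ (_root_.Pool.Agent.ME2E.SQR.Sb V) (fun _ _ => Sb.mul) (Sb.one V) fun p hp =>
      Sb.zpow ⟨_, (hG _ (hq2 _ _ (Finset.mem_sigma.1 hp).2)).2.2.1⟩ _
  obtain ⟨K, hK⟩ := hκS
  have hW0 := hW 0
  simp only [hc0, one_mul] at hW0
  rw [← hy2] at hW0
  have vy : V.valuation y = V.valuation (2 : ℂ) ^ K := by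
    have h12 := congrArg V.valuation hW0
    rw [map_mul, map_mul, (hPb 0).1, (hPb 0).2.1, mul_one, mul_one, map_pow, hK] at h12
    exact (pow_left_inj₀ zero_le zero_le (by norm_num)).1 h12
  have h2K : (2 : ℂ) ^ K ≠ 0 := zpow_ne_zero _ (by norm_num)
  obtain ⟨w, hw⟩ : ∃ w : ℂ, w = y / 2 ^ K := ⟨_, rfl⟩
  have hyw : y = w * 2 ^ K := by rw [hw, div_mul_cancel₀ _ h2K]
  have vw : V.valuation w = 1 := by
    rw [hw, map_div₀, map_zpow₀, vy, div_self (zpow_ne_zero _ (_root_.Pool.Agent.ME2E.SQR.v2_ne V))]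
  have hwM : w ∈ RFE (idl (A := A) (B := B) (m * a)) := by
    rw [hw]
    refine div_mem ((tm_FAC tm_TRA A B hring).1 _ _ ?_ hy) (zpow_mem (ofNat_mem _ 2) K)
    rw [Ideal.span_singleton_le_span_singleton]
    exact ⟨(a : OO A B), by push_cast; ring⟩
  obtain ⟨h, hh, hwh, hsh⟩ := h8 A B V n f a m hS (R.L R.i0) (R.om R.i0) u e a1 a3 hNL0 hgood w
    hwM vw.le
  -- the automorphisms
  have hbot : idl (A := A) (B := B) (m * a) ≠ ⊥ := by
    intro h0
    rw [Ideal.span_singleton_eq_bot] at h0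
    have h11 := congrArg emb h0
    rw [enat, ← hφ 0, map_zero] at h11
    have h12 : m * a ≠ 0 := mul_ne_zero hm0 (by omega)
    exact h12 (by exact_mod_cast h11)
  have hs : ∀ b : OO A B, ∃ s : ℂ ≃+* ℂ, AutCE (idl (m * a)) (cc (2 ^ n * f * a) b) s := fun b =>
    h5 A B hC.case hring hS.tor ⟨_, ⟨_, _, hNL0⟩⟩ _ hbot (by
      rw [Ideal.span_singleton_le_span_singleton, hS.hm]
      exact ⟨((2 ^ (n + 1) * f * a : ℕ) : OO A B), by push_cast; ring⟩) _ (c1 b).2.2.1 (c1 b).1 (by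
      have h20 := (c1 b).2.2.2.1
      obtain ⟨t, ht⟩ := Ideal.mem_span_singleton'.1 h20
      refine Ideal.mem_span_singleton'.2 ⟨t * ((f * a : ℕ) : OO A B), ?_⟩
      rw [← ht]
      push_cast
      ring)
  have hmf : m.primeFactors ⊆ (2 * f).primeFactors := by
    rw [hS.hm, Nat.primeFactors_mul (by positivity) (by omega), Nat.primeFactors_pow _ (by omega),
      Nat.primeFactors_mul (by norm_num) (by omega)]
  have hm2 : 2 ≤ m := by
    rw [hS.hm]
    have : 0 < 2 ^ n := by positivity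
    rw [pow_add]
    nlinarith
  have hsy : ∀ (b : OO A B) (s : ℂ ≃+* ℂ), AutCE (idl (m * a)) (cc (2 ^ n * f * a) b) s →
      s w = h.eval (ξ b) ∧ (s y) ^ 2 = ∏ j, (∏ q ∈ X j, ThetaH (R.L q.1) (H q.1)
        (ptE R m q.1 (cc (2 ^ n * f * a) b * q.2))) ^ g j ∧ s y = s w * 2 ^ K := by
    intro b s hs
    refine ⟨?_, ?_, ?_⟩
    · rw [hξ]
      exact hsh _ _ hs (c1 b).2.2.2.1
    · rw [← map_pow, hy2, map_prod]
      refine Finset.prod_congr rfl fun j _ => ?_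
      rw [map_zpow₀, map_prod]
      refine congrArg (fun t : ℂ => t ^ g j) ?_
      refine Finset.prod_congr rfl fun q hq => ?_
      obtain ⟨-, -, -, hpt⟩ := tm_PT tm_TRA A B hring (2 * f) ι R (by omega) q.1
      obtain ⟨-, hzm, hzo, -⟩ := hpt m hm0 hmf q.2
      have hNLi : NLE A B (R.L q.1) := ⟨_, _, R.nl q.1⟩
      have hzL : ptE R m q.1 q.2 ∉ (R.L q.1).lattice := by
        intro h0
        have := hzo (hX j q hq) 1 (by rwa [Nat.cast_one, one_mul])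
        have := Nat.le_of_dvd one_pos this
        omega
      have hzT : Tor (idl (A := A) (B := B) (m * a)) (R.L q.1) (ptE R m q.1 q.2) := by
        refine ((tm_TRA A B hring _ hNLi).2.2.2.2.1 _ _).2 ?_
        rw [enat]
        have h1 := nsmul_mem hzm a
        rw [nsmul_eq_mul] at h1
        have h2 : ((m * a : ℕ) : ℂ) * ptE R m q.1 q.2 = (a : ℂ) * ((m : ℂ) * ptE R m q.1 q.2) := by
          push_cast
          ring
        rw [h2]
        exact h1
      rw [h6 A B hring _ hNLi a (H q.1) (hH q.1) (idl (A := A) (B := B) (m * a)) (by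
        rw [Ideal.span_singleton_le_span_singleton]
        exact ⟨((m : ℕ) : OO A B), by push_cast; ring⟩) _ s hs (c1 b).2.2.2.2.2 _ hzT hzL]
      congr 1
      rw [ptE, ptE, emul]
      ring
    · rw [hyw, map_mul, map_zpow₀, map_ofNat]
  have hκne : κ0 ≠ 0 := by
    intro h0
    rw [h0, map_zero] at hK
    exact (pow_ne_zero 2 (zpow_ne_zero K (_root_.Pool.Agent.ME2E.SQR.v2_ne V))) hK.symm
  have key : ∀ b, P'.eval (ξ b) = ((2 ^ K) ^ 2 / κ0) * h.eval (ξ b) ^ 2 * Q'.eval (ξ b) := by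
    intro b
    obtain ⟨s, hs⟩ := hs b
    obtain ⟨s1, s2, s3⟩ := hsy b s hs
    have h11 := hW b
    rw [← s2, s3, s1] at h11
    field_simp
    linear_combination -h11
  have vκ : V.valuation ((2 ^ K) ^ 2 / κ0) = 1 := by
    rw [map_div₀, map_pow, map_zpow₀, hK, div_self (pow_ne_zero 2 (zpow_ne_zero K (_root_.Pool.Agent.ME2E.SQR.v2_ne V)))]
  -- the distances
  obtain ⟨hz1, hz2⟩ := _root_.Pool.Agent.ME2E.SQR.base hring hNL0 hm0
  obtain ⟨i1, i2, -⟩ := h9 V (R.L R.i0) u e a1 a3 hgood hC.v2 (n + 2) f a hS.f3 hS.fo hS.ao hS.af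
    (R.om R.i0 / m) (by rw [← hS.hm]; exact hz1) (by rw [← hS.hm]; exact hz2)
  obtain ⟨⟨S, hS0, hS1, hS2⟩, hS'⟩ := h4 V (R.L R.i0) u e a1 a3 hgood hC.v2 _ i1 i2
  obtain ⟨S', hS0', hS1', hS2'⟩ := hS' _ c73 c74
  obtain ⟨-, -, -, -, -, -, -, -, hper⟩ := h3 V (R.L R.i0) u e a1 a3 hgood hC.v2
  have hSb : ∀ x ∈ S, ∃ b, x = ξ b := by
    intro x hx
    obtain ⟨Y, hY, rfl⟩ := (hS1 x hx).2
    obtain ⟨b, hb⟩ := c75 Y hY
    refine ⟨b, ?_⟩
    rw [hξ, c71 b, ← ((hper (R.om R.i0 / m + emb b * (a * R.om R.i0 / 4))).1 _ hb).1]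
    congr 1
    ring
  have hSh : ∀ x ∈ S', h.eval x = h.eval (xu (R.L R.i0) u e (R.om R.i0 / m)) := by
    intro x hx
    obtain ⟨k', -, rfl⟩ := (hS1' x hx).2
    obtain ⟨s, hs⟩ := hs ((k' : OO A B) * del)
    have hk : xu (R.L R.i0) u e (R.om R.i0 / m + k' * (emb (del : OO A B) *
        (a * R.om R.i0 / 4))) = ξ ((k' : OO A B) * del) := by
      rw [hξ, c71, c72]
    obtain ⟨s1, -, s3⟩ := hsy _ s hs
    have s4 := hinv k' s hs
    rw [hk, ← s1, ← hwh]
    apply mul_right_cancel₀ h2K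
    rw [← s3, s4]
    exact hyw
  have hLag := (h1 V S _ hS0 (by rw [← hξ0]; exact vξ 0) (fun x hx => (hS1 x hx).1)).2.2.2 P' Q' h
    ((2 ^ K) ^ 2 / κ0) S' hP' hQ' hh vκ.le hS0' (fun x hx => (hS1' x hx).1)
    (by rw [← hξ0]; exact key 0)
    (fun x hx => by obtain ⟨b, rfl⟩ := hSb x hx; exact key b) hSh
  have hdl : V.valuation (dlg P' Q' (ξ 0)) ^ 2 ≤ V.valuation (2 : ℂ) ^ 3 := by
    rw [dlg, map_div₀, map_mul, (hPb 0).1, (hPb 0).2.1, mul_one, div_one, hξ0]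
    refine (pow_le_pow_left' hLag 2).trans ?_
    rcases le_total (V.valuation (2 : ℂ) * ∏ x ∈ S', V.valuation
      (xu (R.L R.i0) u e (R.om R.i0 / m) - x)) (∏ x ∈ S, V.valuation
      (xu (R.L R.i0) u e (R.om R.i0 / m) - x)) with h11 | h11
    · rw [max_eq_right h11]
      refine (pow_le_pow_left' hS2 2).trans ?_
      rw [← pow_mul]
      exact pow_le_pow_right_of_le_one' hC.v2.le (by norm_num)
    · rw [max_eq_left h11, mul_pow, pow_succ (V.valuation (2 : ℂ)) 2]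
      exact mul_le_mul' le_rfl hS2'
  have hsum : (∑ j, (g j : ℂ) * ∑ q ∈ X j, emb q.2 * muXE R q.1 *
      dlX (R.L q.1) a (ptE R m q.1 q.2)) / u =
      dlg P' Q' (ξ 0) * et (R.L R.i0) u (R.om R.i0 / m) := by
    rw [(hPb 0).2.2.2, Finset.sum_sigma, Finset.sum_mul, Finset.sum_div]
    refine Finset.sum_congr rfl fun j _ => ?_
    rw [Finset.mul_sum, Finset.sum_div, Finset.sum_mul]
    refine Finset.sum_congr rfl fun q hq => ?_
    have h12 := (hGb j q hq 0).2.2.2.2.2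
    rw [← hξ, hc0, eone, one_mul, one_mul] at h12
    rw [mul_assoc (g j : ℂ), ← h12]
    ring
  rw [hsum, map_mul, mul_pow]
  exact (mul_le_mul' hdl (pow_le_one' vet 2)).trans (mul_one _).le

end

end Pool.Agent.ME2E


end
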