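import Mathlib
import Pool.Agent.MVF.C147

/-! Parts: ME2.F4_ORB, ME2.F4_CON -/

namespace Pool.Agent.ME2F.CON
end Pool.Agent.ME2F.CON
namespace Pool.Agent.ME2F.ORB
end Pool.Agent.ME2F.ORB

section

/-!
# MUX-2R, block ER2: module ORB, the sum over one orbit of `1 + N w0`

`c_k = 1 + N k w0`, `N = 2^(n-1) f a`, `Q = om_0/m'`, `ξ_j = x(Q + j Y)`. The product of the fibres over the orbit is the same rational function over `V` at the
four points `ξ_j`, and it takes the same value at them: its logarithmic derivative is small (`LAG`, `DST`).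
-/

set_option autoImplicit false

open Polynomial

namespace Pool.Agent.ME2F

open _root_.MU3 _root_.Pool.Agent.MU3A _root_.Pool.Agent.MU3B _root_.Pool.Agent.MUX _root_.Pool.Agent.MUXU
open _root_.Pool.Agent.RI _root_.Pool.Agent.NS
open _root_.Pool.Agent.ME hiding ActE
open _root_.Pool.Agent.MEE _root_.Pool.Agent.ME2
open _root_.Pool.Agent.MUXE (RingE)
open _root_.Pool.Agent.N2 (GoodQ OddQ dR et yt WT PTq)
open _root_.Pool.Agent.N2E (dlg cc Sd_LAG Sd_PRD)
open _root_.Pool.Agent.N2V (IsoU NN w0 bb Sv_COE Sv_GRT Sv_UNT Sv_RAT Sv_THT Sv_NE1 Sv_PVI Sv_TWO Sv_DS2)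
open _root_.Pool.Agent.ME2E (AutCE Sy_AUT Sy_GTA)
open _root_.Pool.Agent.NSE (IntP)
open _root_.Pool.Agent.MUX2 (GRG)
open _root_.Pool.Agent.MUXV (InK tX)

noncomputable section

namespace ORB

lemma _root_.Pool.Agent.ME2F.ORB.pf (j f : ℕ) (hf : f ≠ 0) : (2 ^ j * f).primeFactors ⊆ (2 * f).primeFactors := by
  intro p hp
  have h := Nat.mem_primeFactors.1 hp
  rw [Nat.mem_primeFactors]
  refine ⟨h.1, ?_, by omega⟩
  rcases (Nat.Prime.dvd_mul h.1).1 h.2.1 with h2 | h2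
  · exact (h.1.dvd_of_dvd_pow h2).mul_right _
  · exact h2.mul_left _

variable {V : ValuationSubring ℂ}

/-- the values of a polynomial over `V` -/
lemma ev {P : ℂ[X]} (hP : IntP V P) {x : ℂ} (hx : V.valuation x ≤ 1) :
    V.valuation (P.eval x) ≤ 1 := by
  rw [eval_eq_sum_range]
  refine Valuation.map_sum_le _ fun i _ => ?_
  rw [map_mul, map_pow]
  exact mul_le_one' (hP i) (pow_le_one' hx _)

lemma der {P : ℂ[X]} (hP : IntP V P) : IntP V (derivative P) := fun i => by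
  rw [coeff_derivative, map_mul]
  refine mul_le_one' (hP _) ?_
  have h : ((i : ℂ) + 1) = ((i + 1 : ℕ) : ℂ) := by push_cast; rfl
  rw [h]
  exact (V.valuation_le_one_iff _).2 (natCast_mem V.toSubring _)

/-- the logarithmic derivative and its numerator -/
lemma _root_.Pool.Agent.ME2F.ORB.v_dlg {P Q : ℂ[X]} {x : ℂ} (hP : V.valuation (P.eval x) = 1)
    (hQ : V.valuation (Q.eval x) = 1) : V.valuation (dlg P Q x) =
    V.valuation ((derivative P).eval x * Q.eval x - P.eval x * (derivative Q).eval x) := by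
  unfold dlg
  rw [map_div₀, map_mul (V.valuation) (P.eval x), hP, hQ, one_mul, div_one]

lemma _root_.Pool.Agent.ME2F.ORB.v_dlg_le {P Q : ℂ[X]} {x : ℂ} (hP : IntP V P) (hQ : IntP V Q) (hx : V.valuation x ≤ 1)
    (hP1 : V.valuation (P.eval x) = 1) (hQ1 : V.valuation (Q.eval x) = 1) :
    V.valuation (dlg P Q x) ≤ 1 := by
  rw [_root_.Pool.Agent.ME2F.ORB.v_dlg hP1 hQ1]
  refine (Valuation.map_sub _ _ _).trans (max_le ?_ ?_)
  · rw [map_mul]
    exact mul_le_one' (ev (der hP) hx) hQ1.le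
  · rw [map_mul]
    exact mul_le_one' hP1.le (ev (der hQ) hx)

end ORB

open _root_.Pool.Agent.ME2F.ORB

/-- (ORB) the sum over one orbit of `1 + N w0` -/
theorem t4_ORB (h1 : Sd_LAG) (h2 : Sd_PRD) (h4 : S4_DST) (h5 : S4_CON) (h6 : Sv_NE1)
    (h8 : S4_FIB) (h7 : S4_GPO) : S4_ORB := by
  intro A B P V n f a m m' hE ι R u e a1 a3 hg H i hH x hx
  have hc : CQ A B := hE.ctx.cq
  have hv2 := hE.ctx.v2
  have hf0 : f ≠ 0 := by have := hE.f3; omega
  have hm0 : m ≠ 0 := by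
    rw [hE.hm]
    positivity
  have hm0' : m' ≠ 0 := by
    rw [hE.hm']
    positivity
  have hmC' : (m' : ℂ) ≠ 0 := by exact_mod_cast hm0'
  have hpf' : m'.primeFactors ⊆ (2 * f).primeFactors := by
    rw [hE.hm']
    exact _root_.Pool.Agent.ME2F.ORB.pf (n + 1) f hf0
  have hmm' : m = 2 * m' := by
    rw [hE.hm, hE.hm']
    ring
  -- facts on the points
  obtain ⟨-, -, -, hPT0⟩ := tm_PT tm_TRA A B hE.ctx.ring (2 * f) ι R (by omega) R.i0
  -- elements prime to `m` are units at `V`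
  have h2P : ((2 : ℕ) : OO A B) ∈ P := by
    have h9 := (hE.ctx.pw 1 ((2 : ℕ) : OO A B)).2 (by
      rw [MUX.emb_natCast hc, pow_one]
      push_cast
      exact pow_le_of_le_one zero_le hv2.le (by norm_num))
    rwa [pow_one] at h9
  have hunit : ∀ y : OO A B, IsCoprime y ((m : ℕ) : OO A B) → y ∉ P := by
    intro y hy hy2
    obtain ⟨s, t, hst⟩ := hy
    have hmax := hE.ctx.max.ne_top
    apply hmax
    rw [Ideal.eq_top_iff_one, ← hst]
    refine Ideal.add_mem _ (Ideal.mul_mem_left _ _ hy2) (Ideal.mul_mem_left _ _ ?_)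
    rw [hmm']
    push_cast
    have h9 := Ideal.mul_mem_right ((m' : ℕ) : OO A B) P h2P
    push_cast at h9
    exact h9
  -- (1)
  have part1 : ∀ y : OO A B, IsCoprime y ((m : ℕ) : OO A B) →
      V.valuation (muXE R i * FFibE R a m m' i y / u) ≤ V.valuation (2 : ℂ) := by
    intro y hy
    obtain ⟨κ, k, P1, Q1, hP, hQ, -, hc1⟩ := h7 A B P V n f a m m' hE ι R u e a1 a3 hg H i hH y
      (hunit y hy)
    obtain ⟨q1, q2, q3, q4, -, q6⟩ := hc1 1 (by rwa [one_mul])
    rw [one_mul] at q6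
    have e1 : V.valuation (emb y) = 1 := hE.ctx.unit y (hunit y hy)
    have e2 : V.valuation (muXE R i * emb y * FFibE R a m m' i y / u) ≤ V.valuation (2 : ℂ) := by
      rw [q6, map_mul, map_mul, mul_assoc]
      exact mul_le_of_le_one_right' (mul_le_one' (_root_.Pool.Agent.ME2F.ORB.v_dlg_le hP hQ q1 q3 q4) q2)
    have e3 : muXE R i * emb y * FFibE R a m m' i y / u =
        emb y * (muXE R i * FFibE R a m m' i y / u) := by ring
    rwa [e3, map_mul, e1, one_mul] at e2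
  refine ⟨part1 x hx, ?_⟩
  -- (2)
  intro y hy
  obtain ⟨c1, -, c3, c4, -, c6⟩ := h5 A B P V n f a m m' hE
  have hom : IsNE (⊤ : Ideal (OO A B)) (R.L R.i0) (R.om R.i0) := by
    have := R.nl R.i0
    rwa [R.b0] at this
  obtain ⟨d1, d2, d3, d4, -⟩ := c6 (R.L R.i0) (R.om R.i0) hom
  set N : ℕ := NN n f a with hN
  set L0 := R.L R.i0 with hL0
  set om := R.om R.i0 with hom0
  have hNL : NLE A B L0 := ⟨_, _, hom⟩
  set c : ℕ → OO A B := fun k => cc N ((k : OO A B) * w0) with hcdef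
  have hcc : ∀ k, IsCoprime (c k) ((m : ℕ) : OO A B) := fun k => (c1 _).2.1
  have hc0 : c 0 = 1 := by
    simp [hcdef, cc]
  have hmma : idl (A := A) (B := B) (m * a) ≤ idl (A := A) (B := B) m' := by
    refine Ideal.span_singleton_le_span_singleton.2 ⟨((2 * a : ℕ) : OO A B), ?_⟩
    rw [hmm']
    push_cast
    ring
  have hm'a : ((m' * a : ℕ) : OO A B) * w0 ∈ idl (A := A) (B := B) m' := by
    rw [Ideal.mem_span_singleton]
    refine ⟨(a : OO A B) * w0, ?_⟩
    push_cast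
    ring
  -- the points `Q + k Y`
  set Rp : ℂ := emb (w0 : OO A B) * (a * om / 4) with hRp
  have hck : ∀ k : ℕ, emb (c k) * (om / m') = om / m' + k * Rp := by
    intro k
    rw [hcdef]
    simp only
    rw [d1, d2]
  have hP0 : ∀ c : ℕ, (c : ℂ) * (om / m') ∈ L0.lattice → f ∣ c := by
    intro c hcL
    have h9 := ((hPT0 m' hm0' hpf' 1).2.2.2 ((c : ℕ) : OO A B)).1 (by
      rw [MUX.emb_natCast hc]
      exact hcL)
    obtain ⟨z, hz⟩ := h9
    have h10 := congrArg QuadraticAlgebra.re hz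
    have h11 : (c : ℤ) = (m' : ℤ) * z.re := by simpa using h10
    have h12 : m' ∣ c := Int.natCast_dvd_natCast.1 ⟨z.re, h11⟩
    refine dvd_trans ?_ h12
    rw [hE.hm']
    exact dvd_mul_left _ _
  have hmP : ((2 ^ (n + 1) * f : ℕ) : ℂ) * (om / m') ∈ L0.lattice := by
    rw [← hE.hm', mul_div_cancel₀ _ hmC']
    refine (hom.mem _).2 ⟨1, trivial, ?_⟩
    rw [MUX.emb_one hc, mul_one]
  obtain ⟨nk1, nk2, -⟩ := h6 V L0 u e a1 a3 hg hv2 (n + 1) f a hE.f3 hE.fo hE.ao hE.af (om / m')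
    hmP hP0
  obtain ⟨S, hS1, hS2, hS3⟩ := (h4 A B P V hE.ctx L0 u e a1 a3 hNL hg (om / m') nk1 nk2).2
    Rp d3 d4
  -- the fibres
  obtain ⟨κf, -, -, hfib⟩ := h8 A B P V n f a m m' hE ι R H i hH
  -- the data for `x_k = c_k x`
  have hxk : ∀ k, IsCoprime (c k * x) ((m : ℕ) : OO A B) := fun k => (hcc k).mul_left hx
  have data := fun k : ℕ => h7 A B P V n f a m m' hE ι R u e a1 a3 hg H i hH (c k * x)
    (hunit _ (hxk k))
  choose κ kk P1 Q1 hP hQ hκ hdat using data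
  set ξ : ℕ → ℂ := fun j => xu L0 u e (om / m' + j * Rp) with hξ
  have hξ0 : ξ 0 = xu L0 u e (om / m') := by
    rw [hξ]
    simp
  have D : ∀ j k : ℕ, V.valuation (ξ j) ≤ 1 ∧
      V.valuation ((P1 k).eval (ξ j)) = 1 ∧ V.valuation ((Q1 k).eval (ξ j)) = 1 ∧
      GFibE R H m m' i (c j * (c k * x)) * (Q1 k).eval (ξ j) =
        κ k * (P1 k).eval (ξ j) := by
    intro j k
    obtain ⟨q1, -, q3, q4, q5, -⟩ := hdat k (c j) ((hcc j).mul_left (hxk k))
    rw [hck] at q1 q3 q4 q5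
    exact ⟨q1, q3, q4, q5⟩
  -- the product of the fibres does not depend on `j`
  set Th : ℕ → ℂ := fun r => GFibE R H m m' i (c r * x) with hTh
  have hcong : ∀ j k : ℕ, c j * (c k * x) - c (j + k) * x ∈ idl (A := A) (B := B) m' := by
    intro j k
    have h9 := Ideal.mul_mem_left _ x (hmma (c3 j k))
    have h10 : x * (c j * c k - c (j + k)) = c j * (c k * x) - c (j + k) * x := by ring
    have h11 : x * (cc N ((j : OO A B) * w0) * cc N ((k : OO A B) * w0) -
        cc N (((j + k : ℕ) : OO A B) * w0)) = x * (c j * c k - c (j + k)) := rfl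
    rw [h11, h10] at h9
    exact h9
  have hTjk : ∀ j k : ℕ, GFibE R H m m' i (c j * (c k * x)) = Th (j + k) :=
    fun j k => ((hfib (c (j + k) * x) (hxk _)).2.2 _ (hcong j k)).1
  have hT4 : ∀ r : ℕ, Th (r + 4) = Th r := by
    intro r
    have h9 : c (r + 4) * x - c r * x ∈ idl (A := A) (B := B) m' := by
      have h10 := hmma (c3 r 4)
      have h11 : c 4 - 1 ∈ idl (A := A) (B := B) m' := by
        have h12 : c 4 - 1 = ((m' * a : ℕ) : OO A B) * w0 := c4
        rw [h12]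
        exact hm'a
      have h13 : (c (r + 4) - c r) = -(c r * c 4 - c (r + 4)) + c r * (c 4 - 1) := by ring
      have h14 : c (r + 4) * x - c r * x = x * (c (r + 4) - c r) := by ring
      rw [h14, h13]
      refine Ideal.mul_mem_left _ _ (Ideal.add_mem _ (neg_mem h10) (Ideal.mul_mem_left _ _ h11))
    exact ((hfib (c r * x) (hxk _)).2.2 _ h9).1
  have hprod : ∀ j, j < 4 → ∏ k ∈ Finset.range 4, Th (j + k) = ∏ k ∈ Finset.range 4, Th k := by
    intro j hj
    have e4 := hT4 0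
    have e5 := hT4 1
    have e6 := hT4 2
    simp only [Finset.prod_range_succ, Finset.prod_range_zero, one_mul]
    norm_num at e4 e5 e6
    interval_cases j
    · simp
    · norm_num
      rw [e4]
      ring
    · norm_num
      rw [e4, e5]
      ring
    · norm_num
      rw [e4, e5, e6]
      ring
  have hκ0 : ∀ k, κ k ≠ 0 := by
    intro k h0
    have h9 := hκ k
    rw [h0, map_zero] at h9
    have h10 : V.valuation (2 : ℂ) ≠ 0 := (Valuation.ne_zero_iff _).2 two_ne_zero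
    exact pow_ne_zero 2 (zpow_ne_zero (kk k) h10) h9.symm
  -- the products of the rational functions
  obtain ⟨P', Q', hP', hQ', hPQ⟩ := h2 V ℕ (Finset.range 4) P1 Q1 (fun _ => 1)
    (ξ '' {j | j < 4}) (fun k _ => ⟨hP k, hQ k, by
      rintro _ ⟨j, -, rfl⟩
      exact ⟨(D j k).2.1, (D j k).2.2.1⟩⟩)
  have hne : ∀ {w : ℂ}, V.valuation w = 1 → w ≠ 0 := fun {w} hw h0 => by
    rw [h0, map_zero] at hw
    exact zero_ne_one hw
  have hval : ∀ j, j < 4 → P'.eval (ξ j) * ∏ k ∈ Finset.range 4, κ k =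
      Q'.eval (ξ j) * ∏ k ∈ Finset.range 4, Th k := by
    intro j hj
    obtain ⟨-, -, q3, -⟩ := hPQ (ξ j) ⟨j, hj, rfl⟩
    simp only [zpow_one] at q3
    have e1 : (∏ k ∈ Finset.range 4, Th k) * ∏ k ∈ Finset.range 4, (Q1 k).eval (ξ j) =
        (∏ k ∈ Finset.range 4, κ k) * ∏ k ∈ Finset.range 4, (P1 k).eval (ξ j) := by
      rw [← hprod j hj, ← Finset.prod_mul_distrib, ← Finset.prod_mul_distrib]
      refine Finset.prod_congr rfl fun k _ => ?_
      rw [← hTjk]
      exact (D j k).2.2.2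
    have e2 : (∏ k ∈ Finset.range 4, (Q1 k).eval (ξ j)) ≠ 0 :=
      Finset.prod_ne_zero_iff.2 fun k _ => hne (D j k).2.2.1
    apply mul_right_cancel₀ e2
    linear_combination (∏ k ∈ Finset.range 4, κ k) * q3 - Q'.eval (ξ j) * e1
  have hKK : (∏ k ∈ Finset.range 4, κ k) ≠ 0 := Finset.prod_ne_zero_iff.2 fun k _ => hκ0 k
  have hcross : ∀ j, j < 4 → P'.eval (ξ j) * Q'.eval (ξ 0) = P'.eval (ξ 0) * Q'.eval (ξ j) := by
    intro j hj
    apply mul_right_cancel₀ hKK
    linear_combination Q'.eval (ξ 0) * hval j hj - Q'.eval (ξ j) * hval 0 (by norm_num)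
  -- `LAG`
  obtain ⟨p1, p2, -, p4⟩ := hPQ (ξ 0) ⟨0, by norm_num, rfl⟩
  have hS1' : ξ 0 ∉ S := by
    rw [hξ0]
    exact hS1
  have hlag := (h1 V S (ξ 0) hS1' (D 0 0).1 (fun s hs => (hS2 s hs).1)).2.2.1 P' Q' hP' hQ' (by
    intro s hs
    obtain ⟨-, k, hk, rfl⟩ := hS2 s hs
    exact hcross k hk)
  have hdR : dR A = 2 ∨ dR A = 3 := by
    unfold dR
    split_ifs
    · exact Or.inl rfl
    · exact Or.inr rfl
  have hdl : V.valuation (dlg P' Q' (ξ 0)) ^ 8 ≤ V.valuation (2 : ℂ) ^ (3 * (dR A - 1)) := by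
    rw [_root_.Pool.Agent.ME2F.ORB.v_dlg p1 p2]
    refine (pow_le_pow_left₀ zero_le hlag 8).trans ?_
    rw [hξ0]
    exact hS3
  -- the sum with the weights `emb x_k`
  have hsum : ∑ k ∈ Finset.range 4, muXE R i * emb (c k * x) *
      FFibE R a m m' i (c k * x) / u = 2 * dlg P' Q' (ξ 0) * et L0 u (om / m') := by
    rw [p4, Finset.mul_sum, Finset.sum_mul]
    refine Finset.sum_congr rfl fun k _ => ?_
    obtain ⟨-, -, -, -, -, q6⟩ := hdat k 1 (by rw [one_mul]; exact hxk k)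
    rw [one_mul, MUX.emb_one hc, one_mul] at q6
    rw [q6, hξ0]
    push_cast
    ring
  have het : V.valuation (et L0 u (om / m')) ≤ 1 := by
    obtain ⟨-, q2, -⟩ := hdat 0 1 (by rw [one_mul]; exact hxk 0)
    rwa [MUX.emb_one hc, one_mul] at q2
  have hsum2 : V.valuation (∑ k ∈ Finset.range 4, muXE R i * emb (c k * x) *
      FFibE R a m m' i (c k * x) / u) ^ 8 ≤ V.valuation (2 : ℂ) ^ (3 * dR A + 5) := by
    rw [hsum, map_mul, map_mul, mul_pow, mul_pow]
    refine (mul_le_of_le_one_right' (pow_le_one' het 8)).trans ?_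
    refine (mul_le_mul' le_rfl hdl).trans ?_
    rw [← pow_add]
    refine le_of_eq ?_
    congr 1
    omega
  -- replace the weights by `emb x`
  have v4 : V.valuation (4 : ℂ) = V.valuation (2 : ℂ) ^ 2 := by
    rw [← map_pow]
    norm_num
  have hdiff : V.valuation (∑ k ∈ Finset.range 4, (emb (c k * x) - emb x) *
      (muXE R i * FFibE R a m m' i (c k * x) / u)) ≤ V.valuation (2 : ℂ) ^ 3 := by
    refine Valuation.map_sum_le _ fun k _ => ?_
    rw [map_mul]
    have e1 : V.valuation (emb (c k * x) - emb x) ≤ V.valuation (4 : ℂ) := by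
      have e2 : c k * x - x = ((4 : ℕ) : OO A B) * (((2 ^ (n - 3) * f * a : ℕ) : OO A B) *
          ((k : OO A B) * w0) * x) := by
        have e3 : N = 4 * (2 ^ (n - 3) * f * a) := by
          have e4 : 2 ^ (n - 1) = 4 * 2 ^ (n - 3) := by
            have := hE.n5
            have e6 : n - 1 = 2 + (n - 3) := by omega
            rw [e6, pow_add]
            norm_num
          rw [hN, NN, e4]
          ring
        have e5 : c k = 1 + ((N : ℕ) : OO A B) * ((k : OO A B) * w0) := rfl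
        rw [e5, e3]
        push_cast
        ring
      rw [← MUX.emb_sub hc, e2, MUX.emb_mul hc, MUX.emb_natCast hc, map_mul]
      push_cast
      exact mul_le_of_le_one_right' (hE.ctx.int _)
    refine (mul_le_mul' e1 (part1 _ (hxk k))).trans (le_of_eq ?_)
    rw [v4]
    exact (pow_succ _ 2).symm
  have key : emb x * ((∑ k ∈ Finset.range 4, muXE R i * FFibE R a m m' i (y k)) / u) =
      (∑ k ∈ Finset.range 4, muXE R i * emb (c k * x) *
        FFibE R a m m' i (c k * x) / u) -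
      ∑ k ∈ Finset.range 4, (emb (c k * x) - emb x) *
        (muXE R i * FFibE R a m m' i (c k * x) / u) := by
    rw [← Finset.sum_sub_distrib, Finset.sum_div, Finset.mul_sum]
    refine Finset.sum_congr rfl fun k hk => ?_
    rw [((hfib (c k * x) (hxk k)).2.2 _ (hy k (Finset.mem_range.1 hk))).2]
    show emb x * (muXE R i * FFibE R a m m' i (c k * x) / u) = _
    ring
  have vx : V.valuation (emb x) = 1 := hE.ctx.unit x (hunit x hx)
  have e7 : V.valuation ((∑ k ∈ Finset.range 4, muXE R i *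
      FFibE R a m m' i (y k)) / u) = V.valuation (emb x *
      ((∑ k ∈ Finset.range 4, muXE R i * FFibE R a m m' i (y k)) / u)) := by
    rw [map_mul, vx, one_mul]
  rw [e7, key]
  have e8 := Valuation.map_sub V.valuation (∑ k ∈ Finset.range 4, muXE R i * emb (c k * x) *
        FFibE R a m m' i (c k * x) / u)
      (∑ k ∈ Finset.range 4, (emb (c k * x) - emb x) *
        (muXE R i * FFibE R a m m' i (c k * x) / u))
  refine (pow_le_pow_left₀ zero_le e8 8).trans ?_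
  rcases le_total (V.valuation (∑ k ∈ Finset.range 4, muXE R i * emb (c k * x) *
        FFibE R a m m' i (c k * x) / u))
      (V.valuation (∑ k ∈ Finset.range 4, (emb (c k * x) - emb x) *
        (muXE R i * FFibE R a m m' i (c k * x) / u))) with h | h
  · rw [max_eq_right h]
    refine (pow_le_pow_left₀ zero_le hdiff 8).trans ?_
    rw [← pow_mul]
    refine pow_le_pow_of_le_one zero_le hv2.le ?_
    omega
  · rw [max_eq_left h]
    exact hsum2

end

end Pool.Agent.ME2F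


end

section

/-!
# MUX-2R, block ER2: module CON (helper28), the elements `c = 1 + N b`, `N = 2^(n-1) f a`
-/

set_option autoImplicit false

open Polynomial

namespace Pool.Agent.ME2F

open _root_.MU3 _root_.Pool.Agent.MU3A _root_.Pool.Agent.MU3B _root_.Pool.Agent.MUX _root_.Pool.Agent.MUXU
open _root_.Pool.Agent.RI _root_.Pool.Agent.NS
open _root_.Pool.Agent.ME hiding ActE
open _root_.Pool.Agent.MEE _root_.Pool.Agent.ME2
open _root_.Pool.Agent.MUXE (RingE)
open _root_.Pool.Agent.N2 (GoodQ OddQ dR et yt WT PTq)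
open _root_.Pool.Agent.N2E (dlg cc Sd_LAG Sd_PRD)
open _root_.Pool.Agent.N2V (IsoU NN w0 bb Sv_COE Sv_GRT Sv_UNT Sv_RAT Sv_THT Sv_NE1 Sv_PVI Sv_TWO Sv_DS2)
open _root_.Pool.Agent.ME2E (AutCE Sy_AUT Sy_GTA)

noncomputable section

namespace CON

variable {A B : ℤ} {P : Ideal (OO A B)} {V : ValuationSubring ℂ} {n f a m m' : ℕ}

/-- numbers -/
theorem _root_.Pool.Agent.ME2F.CON.nums (h : SetF A B P V n f a m m') :
    m' * a = 4 * NN n f a ∧ m * a = 8 * NN n f a ∧ m = 2 * m' ∧ (∃ r, NN n f a = 8 * r) ∧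
      (∃ r, NN n f a = 2 * (f * a) * r) ∧ (∃ r, NN n f a = 4 * f * r) ∧ (∃ r, NN n f a = a * r) ∧
      (∃ r, NN n f a ^ 2 = 2 ^ (n + 2) * r) ∧ (∃ r, m' ^ 2 = 2 ^ (n + 2) * r) ∧
      2 * NN n f a * 2 = m' * a := by
  obtain ⟨k, rfl⟩ : ∃ k, n = k + 5 := ⟨n - 5, by have := h.n5; omega⟩
  have h1 := h.hm
  have h2 := h.hm'
  have h3 : k + 5 - 1 = k + 4 := by omega
  have h4 : NN (k + 5) f a = 2 ^ (k + 4) * f * a := by rw [NN, h3]
  have h5 : (2 : ℕ) ^ (k + 5 + 2) = 128 * 2 ^ k := by ring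
  have h6 : (2 : ℕ) ^ (k + 5 + 1) = 64 * 2 ^ k := by ring
  have h7 : (2 : ℕ) ^ (k + 4) = 16 * 2 ^ k := by ring
  rw [h4, h1, h2, h5, h6, h7]
  refine ⟨by ring, by ring, by ring, ⟨2 * 2 ^ k * f * a, by ring⟩, ⟨8 * 2 ^ k, by ring⟩,
    ⟨4 * 2 ^ k * a, by ring⟩, ⟨16 * 2 ^ k * f, by ring⟩, ⟨2 * 2 ^ k * f ^ 2 * a ^ 2, by ring⟩,
    ⟨32 * 2 ^ k * f ^ 2, by ring⟩, by ring⟩

theorem _root_.Pool.Agent.ME2F.CON.Npos (h : SetF A B P V n f a m m') : NN n f a ≠ 0 := by
  have h1 := h.f3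
  have h2 := h.a3
  unfold NN
  positivity

theorem _root_.Pool.Agent.ME2F.CON.m'pos (h : SetF A B P V n f a m m') : m' ≠ 0 := by
  have h1 := h.f3
  rw [h.hm']
  positivity

theorem _root_.Pool.Agent.ME2F.CON.cast_dvd_mem {d e : ℕ} (h : ∃ r, e = d * r) (b : OO A B) :
    ((e : ℕ) : OO A B) * b ∈ idl (A := A) (B := B) d := by
  obtain ⟨r, rfl⟩ := h
  rw [Ideal.mem_span_singleton]
  exact ⟨(r : OO A B) * b, by push_cast; ring⟩

theorem _root_.Pool.Agent.ME2F.CON.cc_sub (N : ℕ) (b : OO A B) : cc N b - 1 = (N : OO A B) * b := by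
  unfold cc
  ring

theorem _root_.Pool.Agent.ME2F.CON.coprime_of {N M : ℕ} (h : ∃ r, N ^ 2 = M * r) (b : OO A B) :
    IsCoprime (cc N b) ((M : ℕ) : OO A B) := by
  have h1 : IsCoprime (cc N b) ((N : ℕ) : OO A B) := by
    refine ⟨1, -b, ?_⟩
    unfold cc
    ring
  have h2 : IsCoprime (cc N b) (((N : ℕ) : OO A B) ^ 2) := h1.pow_right
  obtain ⟨r, hr⟩ := h
  have h3 : ((N : ℕ) : OO A B) ^ 2 = ((M : ℕ) : OO A B) * (r : OO A B) := by
    exact_mod_cast congrArg (fun x : ℕ => (x : OO A B)) hr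
  rw [h3] at h2
  exact h2.of_mul_right_left

theorem _root_.Pool.Agent.ME2F.CON.cc_ne {N : ℕ} (h : 2 ∣ N) (b : OO A B) : cc N b ≠ 0 := by
  intro h0
  have h1 := congrArg QuadraticAlgebra.re h0
  have h2 : (cc N b).re = 1 + (N : ℤ) * b.re := by
    unfold cc
    simp only [QuadraticAlgebra.re_add, QuadraticAlgebra.re_one, QuadraticAlgebra.re_mul,
      QuadraticAlgebra.re_natCast, QuadraticAlgebra.im_natCast]
    ring
  rw [h2, QuadraticAlgebra.re_zero] at h1
  obtain ⟨r, rfl⟩ := h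
  have h3 : (2 : ℤ) ∣ 1 := ⟨-(r * b.re), by push_cast at h1; linarith⟩
  norm_num at h3

theorem _root_.Pool.Agent.ME2F.CON.nI_of (hq : CQ A B) {c : OO A B} (hc : c ≠ 0) {M : ℕ} (h : (M : ℤ) ∣ nm c - 1) :
    ∃ j : ℕ, nI (sp c) = 1 + M * j := by
  obtain ⟨j, hj⟩ := h
  have h1 : 0 ≤ nm c := nm_nonneg hq c
  have h2 : nm c ≠ 0 := fun h => hc ((nm_eq_zero hq).1 h)
  rw [nI_sp hq hc]
  by_cases hM : M = 0
  · refine ⟨0, ?_⟩
    subst hM
    simp only [Nat.cast_zero, zero_mul] at hj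
    have : nm c = 1 := by linarith
    rw [this]
    simp
  have hM' : (0 : ℤ) < M := by exact_mod_cast Nat.pos_of_ne_zero hM
  have hj0 : 0 ≤ j := by
    by_contra hneg
    push Not at hneg
    have : (M : ℤ) * j < 0 := mul_neg_of_pos_of_neg hM' hneg
    omega
  refine ⟨j.natAbs, ?_⟩
  zify
  rw [abs_of_nonneg h1, abs_of_nonneg hj0]
  linarith

theorem two_mem (h : CtxF A B P V) : ((2 : ℕ) : OO A B) ∈ P := by
  by_contra hc
  have h1 := h.unit _ hc
  rw [_root_.Pool.Agent.MUX.emb_natCast h.cq] at h1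
  exact absurd h.v2 (by rw [show (2 : ℂ) = ((2 : ℕ) : ℂ) by norm_num, h1]; exact lt_irrefl _)

theorem _root_.Pool.Agent.ME2F.CON.v2_ne : V.valuation (2 : ℂ) ≠ 0 := by
  rw [Valuation.ne_zero_iff]
  norm_num

theorem _root_.Pool.Agent.ME2F.CON.dR_cases (A : ℤ) : dR A = 2 ∨ dR A = 3 := by
  unfold dR
  split_ifs <;> simp

theorem _root_.Pool.Agent.ME2F.CON.le_of_sq {x y : V.ValueGroup} (h : x ^ 2 ≤ y ^ 2) : x ≤ y := by
  by_contra hc
  rw [not_le] at hc
  exact absurd h (not_le.2 (pow_lt_pow_left₀ hc zero_le (by norm_num)))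

theorem _root_.Pool.Agent.ME2F.CON.coprime_mem {x : OO A B} {M : ℕ} (h : CtxF A B P V) (hx : IsCoprime x ((M : ℕ) : OO A B))
    (hM : 2 ∣ M) : x ∉ P := by
  intro hxP
  obtain ⟨u, v, huv⟩ := hx
  obtain ⟨r, rfl⟩ := hM
  have h1 : ((2 * r : ℕ) : OO A B) ∈ P := by
    rw [Nat.cast_mul]
    exact P.mul_mem_right _ (two_mem h)
  have h2 : (1 : OO A B) ∈ P := by
    rw [← huv]
    exact P.add_mem (P.mul_mem_left _ hxP) (P.mul_mem_left _ h1)
  exact h.max.ne_top ((Ideal.eq_top_iff_one _).2 h2)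

/-- the valuation of `a w0 x` -/
theorem _root_.Pool.Agent.ME2F.CON.v_awx (h : CtxF A B P V) (ha : ¬ 2 ∣ a) (x : OO A B) :
    V.valuation (emb ((a : OO A B) * w0 * x)) ^ 2 =
      V.valuation (2 : ℂ) ^ (dR A - 2) * V.valuation (emb x) ^ 2 := by
  rw [_root_.Pool.Agent.MUX.emb_mul h.cq, _root_.Pool.Agent.MUX.emb_mul h.cq, _root_.Pool.Agent.MUX.emb_natCast h.cq, map_mul, map_mul, h.nat a ha, one_mul, mul_pow]
  congr 1
  exact h.w0

end CON

open _root_.Pool.Agent.ME2F.CON in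
theorem t4_CON : S4_CON := by
  intro A B P V n f a m m' h
  obtain ⟨e1, e2, e3, e4, e5, e6, e7, e8, e9, e10⟩ := _root_.Pool.Agent.ME2F.CON.nums h
  have hq := h.ctx.cq
  have hdom : IsDomain (OO A B) := isDomain hq
  have hN := _root_.Pool.Agent.ME2F.CON.Npos h
  have hm' := _root_.Pool.Agent.ME2F.CON.m'pos h
  have hN2 : 2 ∣ NN n f a := by
    obtain ⟨r, hr⟩ := e4
    exact ⟨4 * r, by omega⟩
  have hMN : ∃ r, NN n f a ^ 2 = m * a * r := by
    obtain ⟨r, hr⟩ := e4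
    refine ⟨r, ?_⟩
    rw [e2, pow_two]
    conv_lhs => rw [hr]
    rw [hr]
    ring
  have hmN : ∃ r, NN n f a ^ 2 = m * r := by
    obtain ⟨r, hr⟩ := hMN
    exact ⟨a * r, by rw [hr]; ring⟩
  have hB := h.ctx.B0
  have hA : A < 0 := by
    have := hq.neg
    rw [hB] at this
    omega
  have hwre : (w0 : OO A B).re = 0 := rfl
  have hwim : (w0 : OO A B).im = 1 := rfl
  refine ⟨fun b => ⟨?_, ?_, ?_, ?_, ?_, ?_⟩, ⟨?_, ?_⟩, ?_, ?_, ?_, ?_⟩
  · rw [Ideal.isCoprime_span_singleton_iff]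
    exact _root_.Pool.Agent.ME2F.CON.coprime_of hMN b
  · exact _root_.Pool.Agent.ME2F.CON.coprime_of hmN b
  · exact _root_.Pool.Agent.ME2F.CON.cc_ne hN2 b
  · rw [_root_.Pool.Agent.ME2F.CON.cc_sub]
    exact _root_.Pool.Agent.ME2F.CON.cast_dvd_mem e5 b
  · rw [_root_.Pool.Agent.ME2F.CON.cc_sub]
    exact _root_.Pool.Agent.ME2F.CON.cast_dvd_mem e6 b
  · rw [_root_.Pool.Agent.ME2F.CON.cc_sub]
    exact _root_.Pool.Agent.ME2F.CON.cast_dvd_mem e7 b
  · intro k
    refine _root_.Pool.Agent.ME2F.CON.nI_of hq (_root_.Pool.Agent.ME2F.CON.cc_ne hN2 _) (M := 2 ^ (n + 2)) ?_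
    obtain ⟨r, hr⟩ := e8
    have h1 : nm (cc (NN n f a) ((k : OO A B) * w0)) - 1 = -A * (NN n f a : ℤ) ^ 2 * (k : ℤ) ^ 2 := by
      unfold cc nm
      simp only [QuadraticAlgebra.re_add, QuadraticAlgebra.im_add, QuadraticAlgebra.re_one,
        QuadraticAlgebra.im_one, QuadraticAlgebra.re_mul, QuadraticAlgebra.im_mul,
        QuadraticAlgebra.re_natCast, QuadraticAlgebra.im_natCast, hwre, hwim, hB]
      ring
    rw [h1]
    have h2 : (NN n f a : ℤ) ^ 2 = (2 ^ (n + 2) : ℕ) * (r : ℤ) := by exact_mod_cast hr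
    rw [h2]
    exact ⟨-A * r * k ^ 2, by ring⟩
  · intro b
    have h2m : 2 ∣ m' := ⟨2 ^ n * f, by rw [h.hm']; ring⟩
    refine _root_.Pool.Agent.ME2F.CON.nI_of hq (_root_.Pool.Agent.ME2F.CON.cc_ne h2m _) (M := 2 ^ (n + 2)) ?_
    obtain ⟨r, hr⟩ := e9
    have h1 : nm (cc m' b) - 1 = 2 * (m' : ℤ) * b.re + (m' : ℤ) ^ 2 * (b.re ^ 2 - A * b.im ^ 2) := by
      unfold cc nm
      simp only [QuadraticAlgebra.re_add, QuadraticAlgebra.im_add, QuadraticAlgebra.re_one,
        QuadraticAlgebra.im_one, QuadraticAlgebra.re_mul, QuadraticAlgebra.im_mul,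
        QuadraticAlgebra.re_natCast, QuadraticAlgebra.im_natCast, hB]
      ring
    rw [h1]
    have h2 : (m' : ℤ) ^ 2 = (2 ^ (n + 2) : ℕ) * (r : ℤ) := by exact_mod_cast hr
    have h3 : 2 * (m' : ℤ) = (2 ^ (n + 2) : ℕ) * (f : ℤ) := by
      rw [h.hm']
      push_cast
      ring
    rw [h2, h3]
    exact ⟨f * b.re + r * (b.re ^ 2 - A * b.im ^ 2), by ring⟩
  · intro k l
    have h1 : cc (NN n f a) ((k : OO A B) * w0) * cc (NN n f a) ((l : OO A B) * w0) -
        cc (NN n f a) (((k + l : ℕ) : OO A B) * w0) =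
        ((NN n f a ^ 2 : ℕ) : OO A B) * ((k : OO A B) * (l : OO A B) * w0 * w0) := by
      unfold cc
      push_cast
      ring
    rw [h1]
    exact _root_.Pool.Agent.ME2F.CON.cast_dvd_mem hMN _
  · rw [_root_.Pool.Agent.ME2F.CON.cc_sub, e1]
    push_cast
    ring
  · intro x hx hmem
    have hxP : x ∉ P := _root_.Pool.Agent.ME2F.CON.coprime_mem h.ctx hx ⟨m', e3⟩
    have h1 : cc (NN n f a) (((2 : ℕ) : OO A B) * w0) * x - x =
        ((2 * NN n f a : ℕ) : OO A B) * (w0 * x) := by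
      unfold cc
      push_cast
      ring
    rw [h1, Ideal.mem_span_singleton] at hmem
    obtain ⟨y, hy⟩ := hmem
    have h2 : ((m' : ℕ) : OO A B) * ((a : OO A B) * w0 * x) = ((m' : ℕ) : OO A B) * (2 * y) := by
      have h3 : ((2 * NN n f a * 2 : ℕ) : OO A B) = ((m' * a : ℕ) : OO A B) := by rw [e10]
      push_cast at h3 hy
      linear_combination 2 * hy - (w0 * x) * h3
    have h3 := mul_left_cancel₀ (natCast_ne_zero' hq hm') h2
    have h4 := _root_.Pool.Agent.ME2F.CON.v_awx h.ctx h.ao x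
    rw [h3, h.ctx.unit x hxP, one_pow, mul_one, _root_.Pool.Agent.MUX.emb_mul hq, map_mul, mul_pow] at h4
    have h5 : emb (2 : OO A B) = 2 := by
      have := _root_.Pool.Agent.MUX.emb_natCast hq 2
      exact_mod_cast this
    rw [h5] at h4
    have hv0 : V.valuation (2 : ℂ) ≠ 0 := _root_.Pool.Agent.ME2F.CON.v2_ne
    have hv1 := h.ctx.v2
    have h6 : V.valuation (2 : ℂ) ^ 2 < V.valuation (2 : ℂ) ^ (dR A - 2) := by
      apply pow_lt_pow_right_of_lt_one₀ (zero_lt_iff.2 hv0) hv1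
      rcases _root_.Pool.Agent.ME2F.CON.dR_cases A with h7 | h7 <;> rw [h7] <;> norm_num
    have h7 : V.valuation (2 : ℂ) ^ 2 * V.valuation (emb y) ^ 2 ≤ V.valuation (2 : ℂ) ^ 2 :=
      mul_le_of_le_one_right' (pow_le_one' (h.ctx.int y) 2)
    rw [h4] at h7
    exact absurd h6 (not_lt.2 h7)
  · intro L om hL
    have ham := hL.mem
    have hm'c : (m' : ℂ) ≠ 0 := by exact_mod_cast hm'
    have hNm : (NN n f a : ℂ) * 4 = m' * a := by
      have : ((m' * a : ℕ) : ℂ) = ((4 * NN n f a : ℕ) : ℂ) := by rw [e1]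
      push_cast at this
      linear_combination -this
    have hom := hL.om_ne
    have key : ∀ x : OO A B, emb x * (emb (w0 : OO A B) * (a * om / 4)) ∈ L.lattice ↔
        (a : OO A B) * w0 * x ∈ idl (A := A) (B := B) (2 ^ 2) := by
      intro x
      rw [ham, Ideal.mem_span_singleton]
      constructor
      · rintro ⟨y, -, hy⟩
        refine ⟨y, ?_⟩
        apply _root_.Pool.Agent.MUX.emb_inj hq
        rw [_root_.Pool.Agent.MUX.emb_mul hq, _root_.Pool.Agent.MUX.emb_mul hq, _root_.Pool.Agent.MUX.emb_mul hq, _root_.Pool.Agent.MUX.emb_natCast hq, _root_.Pool.Agent.MUX.emb_natCast hq]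
        have h1 : om * (emb x * emb (w0 : OO A B) * a - 4 * emb y) = 0 := by
          linear_combination 4 * hy
        have h2 := (mul_eq_zero.1 h1).resolve_left hom
        push_cast
        linear_combination h2
      · rintro ⟨y, hy⟩
        refine ⟨y, trivial, ?_⟩
        have h1 := congrArg emb hy
        rw [_root_.Pool.Agent.MUX.emb_mul hq, _root_.Pool.Agent.MUX.emb_mul hq, _root_.Pool.Agent.MUX.emb_mul hq, _root_.Pool.Agent.MUX.emb_natCast hq, _root_.Pool.Agent.MUX.emb_natCast hq] at h1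
        push_cast at h1
        linear_combination (om / 4) * h1
    have hv0 : V.valuation (2 : ℂ) ≠ 0 := _root_.Pool.Agent.ME2F.CON.v2_ne
    refine ⟨?_, ?_, ?_, ?_, ?_⟩
    · intro b
      unfold cc
      rw [_root_.Pool.Agent.MUX.emb_add hq, _root_.Pool.Agent.MUX.emb_one hq, _root_.Pool.Agent.MUX.emb_mul hq, _root_.Pool.Agent.MUX.emb_natCast hq]
      field_simp
      linear_combination (emb b) * hNm
    · intro k
      rw [_root_.Pool.Agent.MUX.emb_mul hq, _root_.Pool.Agent.MUX.emb_natCast hq]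
      ring
    · intro x hx
      rw [key, h.ctx.dv]
      apply _root_.Pool.Agent.ME2F.CON.le_of_sq
      rw [_root_.Pool.Agent.ME2F.CON.v_awx h.ctx h.ao x]
      have h1 := (h.ctx.pw _ _).1 hx
      refine (mul_le_mul_right h1 _).trans ?_
      rw [← pow_add, ← pow_mul]
      rcases _root_.Pool.Agent.ME2F.CON.dR_cases A with h7 | h7 <;> rw [h7]
    · intro ht
      obtain ⟨ϖ, hϖ⟩ := h.ctx.pi
      have h1 : ϖ ^ (5 - dR A) ∈ P ^ (5 - dR A) := by
        rw [h.ctx.pw, emb_pow hq, map_pow, ← pow_mul, mul_comm, pow_mul, hϖ]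
      have h2 := ht _ h1
      rw [key, h.ctx.dv] at h2
      have h3 := _root_.Pool.Agent.ME2F.CON.v_awx h.ctx h.ao (ϖ ^ (5 - dR A))
      have h4 : V.valuation (emb (ϖ ^ (5 - dR A))) ^ 2 = V.valuation (2 : ℂ) ^ (5 - dR A) := by
        rw [emb_pow hq, map_pow, ← pow_mul, mul_comm, pow_mul, hϖ]
      rw [h4, ← pow_add] at h3
      have h5 : dR A - 2 + (5 - dR A) = 3 := by
        rcases _root_.Pool.Agent.ME2F.CON.dR_cases A with h7 | h7 <;> rw [h7]
      rw [h5] at h3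
      have h6 := pow_le_pow_left₀ zero_le h2 2
      rw [h3, ← pow_mul] at h6
      have h7 : V.valuation (2 : ℂ) ^ (2 * 2) < V.valuation (2 : ℂ) ^ 3 :=
        pow_lt_pow_right_of_lt_one₀ (zero_lt_iff.2 hv0) h.ctx.v2 (by norm_num)
      exact absurd h7 (not_lt.2 h6)
    · intro Y hY
      obtain ⟨b', -, hb'⟩ := (ham _).1 hY
      obtain ⟨r, hr⟩ : ∃ r : ℤ, (a : ℤ) ^ 2 = 1 + 4 * r := by
        have h1 : a % 2 = 1 := by
          have := h.ao
          omega
        obtain ⟨s, hs⟩ : ∃ s, a = 2 * s + 1 := ⟨a / 2, by omega⟩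
        refine ⟨(s : ℤ) ^ 2 + s, ?_⟩
        rw [hs]
        push_cast
        ring
      refine ⟨(a : OO A B) * b', ?_⟩
      rw [ham]
      refine ⟨((-r : ℤ) : OO A B) * b', trivial, ?_⟩
      rw [_root_.Pool.Agent.MUX.emb_mul hq, _root_.Pool.Agent.MUX.emb_mul hq, _root_.Pool.Agent.MUX.emb_natCast hq, _root_.Pool.Agent.MUX.emb_intCast hq]
      have h2 : (a : ℂ) ^ 2 = 1 + 4 * (r : ℂ) := by exact_mod_cast congrArg (fun x : ℤ => (x : ℂ)) hr
      push_cast
      linear_combination (1 / 4 : ℂ) * hb' - (emb b' * om / 4) * h2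

end

end Pool.Agent.ME2F


end
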