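import Mathlib
import Pool.Agent.MVF.C147
import Pool.Agent.MVF.C194

/-! Parts: ME2.F4_MUL, ME2.F4_UNR, ME2.F4_DST -/

namespace Pool.Agent.ME2F.DST
end Pool.Agent.ME2F.DST

section

/-!
# MUX-2R, block ER2, module MUL: the isogenies `μ_i x : L_(i0) → L_i` have odd degree (port of `N2/E_MUL.lean`, adapted from `NS/E_MUL.lean` of helper83)
-/

set_option autoImplicit false

namespace Pool.Agent.ME2F

open _root_.MU3 _root_.Pool.Agent.MU3A _root_.Pool.Agent.MU3B _root_.Pool.Agent.MUX _root_.Pool.Agent.MUXU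
open _root_.Pool.Agent.RI _root_.Pool.Agent.NS
open _root_.Pool.Agent.ME hiding ActE
open _root_.Pool.Agent.MEE _root_.Pool.Agent.ME2
open _root_.Pool.Agent.MUXE (RingE)
open _root_.Pool.Agent.N2 (GoodQ OddQ dR et yt WT PTq)
open _root_.Pool.Agent.N2E (dlg cc Sd_LAG Sd_PRD)
open _root_.Pool.Agent.N2V (IsoU NN w0 bb Sv_COE Sv_GRT Sv_UNT Sv_RAT Sv_THT Sv_NE1 Sv_PVI Sv_TWO Sv_DS2)
open _root_.Pool.Agent.ME2E (AutCE Sy_AUT Sy_GTA)

noncomputable section

theorem t4_MUL : S4_MUL := by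
  intro A B P V hC n ι R _ h2n i x hx
  have h := hC.cq
  have hnl := R.nl i
  have hnl0 := R.nl R.i0
  have hom : R.om i ≠ 0 := hnl.om_ne
  have hom0 : R.om R.i0 ≠ 0 := hnl0.om_ne
  have hN0 : nI (R.b i) ≠ 0 := nI_ne_zero h hnl.b_ne
  have hNC : ((nI (R.b i) : ℕ) : ℂ) ≠ 0 := by exact_mod_cast hN0
  have hNb : ((nI (R.b i) : ℕ) : OO A B) ∈ R.b i := nI_mem h hnl.b_ne
  have hx0 : x ≠ 0 := by
    rintro rfl
    exact hx (Ideal.zero_mem _)
  have hex : emb x ≠ 0 := _root_.Pool.Agent.MUX.emb_ne_zero h hx0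
  have hmu : muXE R i ≠ 0 := by
    unfold muXE
    exact div_ne_zero (mul_ne_zero hom hNC) hom0
  have hL0 : ∀ z, z ∈ (R.L R.i0).lattice ↔ ∃ x : OO A B, z = R.om R.i0 * emb x := by
    intro z
    rw [hnl0.mem, R.b0]
    simp
  have h3 : Nat.Prime 2 := Nat.prime_two
  refine ⟨mul_ne_zero hmu hex, ?_, (nm x).natAbs * nI (R.b i), ?_, ?_⟩
  · intro u hu
    obtain ⟨y, rfl⟩ := (hL0 u).1 hu
    rw [hnl.mem]
    refine ⟨(nI (R.b i) : ℕ) * (x * y), (R.b i).mul_mem_right _ hNb, ?_⟩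
    rw [_root_.Pool.Agent.MUX.emb_mul h, _root_.Pool.Agent.MUX.emb_mul h, _root_.Pool.Agent.MUX.emb_natCast h]
    unfold muXE
    field_simp
  · intro hd
    rcases h3.dvd_mul.1 hd with h4 | h4
    · apply hC.nrm x hx
      exact Int.natCast_dvd.2 h4
    · have h5 : 2 ∣ Nat.gcd (nI (R.b i)) n := Nat.dvd_gcd h4 h2n
      rw [Nat.Coprime.gcd_eq_one (R.cop i)] at h5
      omega
  · intro z hz
    obtain ⟨y, -, hy⟩ := (hnl.mem _).1 hz
    rw [hL0]
    refine ⟨star x * y, ?_⟩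
    have h1 : (nI (R.b i) : ℂ) * emb x * z = R.om R.i0 * emb y := by
      unfold muXE at hy
      field_simp at hy
      linear_combination hy
    have h2 : (((nm x).natAbs : ℕ) : ℂ) = emb x * emb (star x) := by
      have h6 : (((nm x).natAbs : ℕ) : ℤ) = nm x := Int.natAbs_of_nonneg (nm_nonneg h x)
      rw [← _root_.Pool.Agent.MUX.emb_mul h, mul_star, _root_.Pool.Agent.MUX.emb_intCast h, ← Int.cast_natCast, h6]
    rw [_root_.Pool.Agent.MUX.emb_mul h]
    have h7 : (((nm x).natAbs : ℕ) : ℂ) * (nI (R.b i) : ℂ) * z =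
        R.om R.i0 * (emb (star x) * emb y) := by
      rw [h2]
      linear_combination (emb (star x)) * h1
    rw [← h7, Nat.cast_mul]

end

end Pool.Agent.ME2F


end

section

/-!
# ME2, block E for `D = -4`, `p = 2`, module UNR: the ramification index of `RFE (2 f)` at `V | 2` over `k` divides `2` (helper59)

After `EU_UNR.lean` (helper34): the inertia group acts faithfully by signs on `t = ℘(w)` for a point `w` of order three.
-/

set_option autoImplicit false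

open Polynomial

namespace Pool.Agent.ME2F

open _root_.MU3 _root_.Pool.Agent.MU3A _root_.Pool.Agent.MU3B _root_.Pool.Agent.MUX _root_.Pool.Agent.MUXU
open _root_.Pool.Agent.RI _root_.Pool.Agent.NS
open _root_.Pool.Agent.ME hiding ActE
open _root_.Pool.Agent.MEE _root_.Pool.Agent.ME2
open _root_.Pool.Agent.MUXE (RingE)
open _root_.Pool.Agent.N2 (GoodQ OddQ dR et yt WT PTq)

noncomputable section

namespace UNR

/-- `P` is the prime ideal below `V`, with a prime element -/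
lemma overV {A B : ℤ} {P : Ideal (OO A B)} {V : ValuationSubring ℂ} (hC : CtxF A B P V) :
    OverI V P ∧ ∃ ϖ : OO A B, ϖ ∈ P ∧ ϖ ∉ P ^ 2 ∧
      V.valuation (emb ϖ) ^ 2 = V.valuation (2 : ℂ) := by
  have hlt : ∀ x ∈ P, V.valuation (emb x) < 1 := by
    intro x hx
    refine not_le.1 fun h1 => ?_
    have h2 := (hC.pw 1 x).1 (by rwa [pow_one])
    rw [pow_one] at h2
    exact not_lt.2 ((one_le_pow₀ h1).trans h2) hC.v2
  refine ⟨?_, ?_⟩
  · intro x
    rw [ValuationSubring.mem_nonunits_iff]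
    constructor
    · intro h
      by_contra hx
      rw [hC.unit x hx] at h
      exact lt_irrefl _ h
    · exact hlt x
  · obtain ⟨ϖ, h1⟩ := hC.pi
    refine ⟨ϖ, ?_, ?_, h1⟩
    · have h2 := (hC.pw 1 ϖ).2 (by rw [h1, pow_one])
      rwa [pow_one] at h2
    · intro h2
      have h3 := (hC.pw 2 ϖ).1 h2
      rw [h1, sq] at h3
      have h20 : V.valuation (2 : ℂ) ≠ 0 := by
        rw [Valuation.ne_zero_iff]
        norm_num
      have h4 : V.valuation (2 : ℂ) * V.valuation (2 : ℂ) < V.valuation (2 : ℂ) * 1 :=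
        (mul_lt_mul_iff_right₀ (zero_lt_iff.2 h20)).2 hC.v2
      rw [mul_one] at h4
      exact not_lt.2 h3 h4

lemma unr4 {A B : ℤ} {P : Ideal (OO A B)} {V : ValuationSubring ℂ} (hC : CtxF A B P V)
    (hT : TorXE A B) (f : ℕ)
    (hf : f ≠ 0) (hf2 : ¬ 2 ∣ f) (hf3 : 3 ∣ f) (y : ℂ)
    (hy : y ∈ RFE (idl (A := A) (B := B) (2 * f))) (hy0 : y ≠ 0) :
    ∃ k : ℤ, V.valuation y ^ 4 = V.valuation (2 : ℂ) ^ k := by
  classical
  have hE := hC.case
  have hQ := hE.toCQ
  have hm : idl (A := A) (B := B) (2 * f) ≠ ⊥ :=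
    Pool.Agent.ME2E.UNR.idl_ne (mul_ne_zero two_ne_zero hf)
  haveI := hT.fin _ hm
  haveI := hT.gal _ hm
  obtain ⟨hov, ϖ, hϖ1, hϖ2, hϖv⟩ := overV hC
  -- the point
  obtain ⟨L, om, hL⟩ := Pool.Agent.MEC.exists_isNE hE ⊤ (by
    intro h
    have h1 : (1 : OO A B) ∈ (⊥ : Ideal (OO A B)) := h ▸ trivial
    rw [Ideal.mem_bot] at h1
    have h2 := congrArg QuadraticAlgebra.re h1
    rw [QuadraticAlgebra.re_one, QuadraticAlgebra.re_zero] at h2
    exact one_ne_zero h2)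
  obtain ⟨u, e, a1, a3, hg⟩ := hC.good L ⟨⊤, om, hL⟩
  obtain ⟨w0, h3w, hw, ht0⟩ : ∃ w0 : ℂ, 3 * w0 ∈ L.lattice ∧ w0 ∉ L.lattice ∧
      L.weierstrassP w0 ≠ 0 := by
    obtain ⟨w1, w2, h31, h32, hw1, hw2, -, -, -, hu2⟩ := hg.tor
    by_cases h : L.weierstrassP w2 = 0
    · refine ⟨w1, h31, hw1, fun h' => ?_⟩
      rw [h, h', sub_zero] at hu2
      exact pow_ne_zero 2 hg.u0 hu2
    · exact ⟨w2, h32, hw2, h⟩
  have ht3 : L.weierstrassP w0 ∈ RFE (idl (A := A) (B := B) 3) :=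
    Pool.Agent.ME2.wp_mem hQ hL hw (by exact_mod_cast h3w)
  have htw : ∀ (b : Ideal (OO A B)) (L : PeriodPair) (om : ℂ), IsNE b L om → ∀ w : ℂ,
        3 * w ∈ L.lattice → w ∉ L.lattice →
        L.weierstrassP w ∈ RFE (idl (A := A) (B := B) (2 * f)) := by
    intro b L om hL w h3w hw
    refine Pool.Agent.ME2.wp_mem hQ hL hw ?_
    obtain ⟨k, rfl⟩ := hf3
    have h1 := nsmul_mem h3w (2 * k)
    rw [nsmul_eq_mul] at h1
    have e1 : ((2 * (3 * k) : ℕ) : ℂ) * w = ((2 * k : ℕ) : ℂ) * (3 * w) := by push_cast; ring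
    rw [e1]
    exact h1
  have htF : L.weierstrassP w0 ∈ RFE (idl (A := A) (B := B) (2 * f)) :=
    htw _ L om hL w0 h3w hw
  set F := RFE (idl (A := A) (B := B) (2 * f)) with hF
  obtain ⟨I, hI, hval⟩ := Pool.Agent.ME2E.ramI hC.cq hov hϖ1 hϖ2 F
  let t : F := ⟨L.weierstrassP w0, htF⟩
  have htt : ((t : F) : ℂ) = L.weierstrassP w0 := rfl
  have htc : ((t : F) : ℂ) ≠ 0 := ht0
  have hin : ∀ (σ : F ≃ₐ[kk A B] F), σ ∈ I → ∀ s : ℂ ≃+* ℂ,
      (∀ y : F, s y = ((σ y : F) : ℂ)) →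
      (∀ y ∈ RFE (idl (A := A) (B := B) (2 * f)), y ∈ V → s y - y ∈ V.nonunits) := by
    intro σ hσ s hsv y hy hyV
    have h9 := hI σ hσ ⟨y, hy⟩ ((V.valuation_le_one_iff y).2 hyV)
    rw [ValuationSubring.mem_nonunits_iff, hsv ⟨y, hy⟩]
    exact h9
  -- the sign
  have hchar : ∀ σ : F ≃ₐ[kk A B] F, σ ∈ I → ∃ ζ : kk A B, (ζ : ℂ) ^ 2 = 1 ∧
      ((σ t : F) : ℂ) = ζ * t := by
    intro σ hσ
    obtain ⟨s, hs, hsv⟩ := Pool.Agent.ME2E.UNR.extn hT hm σ
    rcases (hC.iner f hf hf2 hf3 s hs (hin σ hσ s hsv)).2 with h1 | h1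
    · refine ⟨1, by simp, ?_⟩
      rw [← hsv t, htt, h1 _ ht3]
      simp
    · refine ⟨-1, by simp, ?_⟩
      rw [← hsv t, htt, h1 ⊤ L om hL w0 hw h3w]
      simp
  let χ : I →* ℂ :=
    { toFun := fun σ => (((σ : F ≃ₐ[kk A B] F) t : F) : ℂ) / t
      map_one' := by
        show (((1 : F ≃ₐ[kk A B] F) t : F) : ℂ) / t = 1
        rw [AlgEquiv.one_apply, div_self htc]
      map_mul' := by
        intro σ τ
        obtain ⟨ζ, -, h1⟩ := hchar (τ : F ≃ₐ[kk A B] F) τ.2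
        have h3 : ((τ : F ≃ₐ[kk A B] F) t : F) = algebraMap (kk A B) F ζ * t := Subtype.ext h1
        show ((((σ : F ≃ₐ[kk A B] F) * (τ : F ≃ₐ[kk A B] F)) t : F) : ℂ) / t =
          (((σ : F ≃ₐ[kk A B] F) t : F) : ℂ) / t * ((((τ : F ≃ₐ[kk A B] F) t : F) : ℂ) / t)
        rw [AlgEquiv.mul_apply, h3, map_mul, AlgEquiv.commutes]
        have h4 : ((algebraMap (kk A B) F ζ * (σ : F ≃ₐ[kk A B] F) t : F) : ℂ) =
            ζ * (((σ : F ≃ₐ[kk A B] F) t : F) : ℂ) := rfl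
        have h5 : ((algebraMap (kk A B) F ζ * t : F) : ℂ) = ζ * (t : ℂ) := rfl
        rw [h4, h5]
        field_simp }
  have hχ : ∀ σ : I, χ σ ^ 2 = 1 := by
    intro σ
    obtain ⟨ζ, h1, h2⟩ := hchar (σ : F ≃ₐ[kk A B] F) σ.2
    show ((((σ : F ≃ₐ[kk A B] F) t : F) : ℂ) / t) ^ 2 = 1
    rw [h2, mul_div_assoc, div_self htc, mul_one]
    exact h1
  let ψ : I →* rootsOfUnity 2 ℂ := (MonoidHom.toHomUnits χ).codRestrict (rootsOfUnity 2 ℂ) (by
    intro σ
    rw [mem_rootsOfUnity]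
    apply Units.ext
    push_cast
    exact hχ σ)
  have hinj : Function.Injective ψ := by
    rw [injective_iff_map_eq_one]
    intro σ hσ
    have h1 : χ σ = 1 := by
      have h2 := congrArg (fun z : rootsOfUnity 2 ℂ => ((z : ℂˣ) : ℂ)) hσ
      exact h2
    have h2 : (((σ : F ≃ₐ[kk A B] F) t : F) : ℂ) = t := (div_eq_one_iff_eq htc).1 h1
    obtain ⟨s, hs, hsv⟩ := Pool.Agent.ME2E.UNR.extn hT hm (σ : F ≃ₐ[kk A B] F)
    obtain ⟨h8, h9⟩ := hC.iner f hf hf2 hf3 s hs (hin σ σ.2 s hsv)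
    have h6 : s (L.weierstrassP w0) = L.weierstrassP w0 := by
      rw [← htt, hsv t, h2]
    have h7 : ∀ y ∈ RFE (idl (A := A) (B := B) 3), s y = y := by
      rcases h9 with h9 | h9
      · exact h9
      · exfalso
        have h5 := h9 ⊤ L om hL w0 hw h3w
        rw [h6] at h5
        exact ht0 (self_eq_neg.1 h5)
    apply Subtype.ext
    apply AlgEquiv.ext
    intro y
    apply Subtype.ext
    rw [← hsv]
    exact h8 h7 y y.2
  have hdvd : Nat.card I ∣ 2 := by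
    have h1 := Subgroup.card_dvd_of_injective ψ hinj
    rwa [Complex.card_rootsOfUnity] at h1
  obtain ⟨j, hj⟩ := hval y hy hy0
  obtain ⟨q, hq⟩ := hdvd
  refine ⟨j * q, ?_⟩
  have h5 : V.valuation y ^ 2 = (V.valuation (emb ϖ) ^ j) ^ q := by
    calc V.valuation y ^ 2 = V.valuation y ^ (Nat.card I * q) := by rw [← hq]
      _ = (V.valuation (emb ϖ) ^ j) ^ q := by rw [pow_mul, hj]
  have h6 : (V.valuation (emb ϖ) ^ j) ^ 2 = V.valuation (2 : ℂ) ^ j := by
    rw [← hϖv, ← zpow_natCast (V.valuation (emb ϖ) ^ j) 2, ← zpow_mul, mul_comm, zpow_mul,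
      zpow_natCast]
  calc V.valuation y ^ 4 = (V.valuation y ^ 2) ^ 2 := by rw [← pow_mul]
    _ = ((V.valuation (emb ϖ) ^ j) ^ 2) ^ q := by rw [h5, ← pow_mul, mul_comm, pow_mul]
    _ = V.valuation (2 : ℂ) ^ (j * q) := by rw [h6, zpow_mul, zpow_natCast]

end UNR

/-- (UNR) -/
theorem t4_UNR : S4_UNR := by
  intro A B P V hC hT f hf hf2 y hy hy0
  have hle : RFE (idl (A := A) (B := B) (2 * f)) ≤ RFE (idl (A := A) (B := B) (2 * (3 * f))) :=
    (tm_FAC tm_TRA A B hC.ring).1 _ _ (idl_mono ⟨3, by ring⟩)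
  exact UNR.unr4 hC hT (3 * f) (mul_ne_zero three_ne_zero hf) (by omega) (dvd_mul_right 3 f) y
    (hle hy) hy0

end

end Pool.Agent.ME2F


end

section

/-!
# MUX-2R, block ER2: module DST, the distances
-/

set_option autoImplicit false

open Polynomial

namespace Pool.Agent.ME2F

open _root_.MU3 _root_.Pool.Agent.MU3A _root_.Pool.Agent.MU3B _root_.Pool.Agent.MUX _root_.Pool.Agent.MUXU
open _root_.Pool.Agent.RI _root_.Pool.Agent.NS
open _root_.Pool.Agent.ME hiding ActE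
open _root_.Pool.Agent.MEE _root_.Pool.Agent.ME2
open _root_.Pool.Agent.MUXE (RingE)
open _root_.Pool.Agent.N2 (GoodQ OddQ dR et yt WT PTq)
open _root_.Pool.Agent.N2E (dlg cc Sd_LAG Sd_PRD)
open _root_.Pool.Agent.N2V (IsoU NN w0 bb Sv_COE Sv_GRT Sv_UNT Sv_RAT Sv_THT Sv_NE1 Sv_PVI Sv_TWO Sv_DS2)
open _root_.Pool.Agent.ME2E (AutCE Sy_AUT Sy_GTA)
open _root_.Pool.Agent.NSE (IntP)
open _root_.Pool.Agent.MUX2 (GRG)
open _root_.Pool.Agent.MUXV (InK tX)

noncomputable section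

namespace DST

section
variable {V : ValuationSubring ℂ} {W : WeierstrassCurve.Affine ℂ} {L : PeriodPair}
  {X Y : ℂ → ℂ} {ξ : ℂ →+ W.Point}

lemma _root_.Pool.Agent.ME2F.DST.dist (G : GRG V W L X Y ξ) {Q w : ℂ} (hQ : ¬ InK V L X Q) (h2 : ¬ InK V L X (2 * Q))
    (hw : InK V L X w) (hwL : w ∉ L.lattice) :
    ¬ InK V L X (Q + w) ∧ V.valuation (X Q - X (Q + w)) = V.valuation (tX X Y w) := by
  obtain ⟨n1, n2, -, -⟩ := Pool.Agent.MUX2.gnear G hQ hw hwL
  obtain ⟨t1, t2, -⟩ := Pool.Agent.MUX2.gv_tX_lt G hw hwL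
  have hD := Pool.Agent.MUX2.gv_DX G hQ h2
  refine ⟨n1, ?_⟩
  set s : ℂ := (2 * Y Q + W.a₁ * X Q + W.a₃) * tX X Y w with hs
  have hvs : V.valuation s = V.valuation (tX X Y w) := by rw [hs, map_mul, hD, one_mul]
  have hlt : V.valuation (X (Q + w) - X Q - s) < V.valuation s := by
    rw [hvs]
    refine lt_of_le_of_lt n2 ?_
    rw [sq]
    exact mul_lt_of_lt_one_left (zero_lt_iff.2 t2) t1
  have e : X (Q + w) - X Q = s + (X (Q + w) - X Q - s) := by ring
  rw [← hvs, Valuation.map_sub_swap, e]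
  exact Valuation.map_add_eq_of_lt_left _ hlt

end

lemma _root_.Pool.Agent.ME2F.DST.inj {V : ValuationSubring ℂ} {W : WeierstrassCurve.Affine ℂ} {L : PeriodPair}
    {Y : ℂ → ℂ} {ξ : ℂ →+ W.Point} {u e : ℂ} (hu : u ≠ 0)
    (G : GRG V W L (xu L u e) Y ξ) {Q w w' : ℂ} (hQ : ¬ InK V L (xu L u e) Q)
    (h2 : ¬ InK V L (xu L u e) (2 * Q)) (hw : InK V L (xu L u e) w)
    (hw' : InK V L (xu L u e) w') (h : xu L u e (Q + w) = xu L u e (Q + w')) :
    w - w' ∈ L.lattice := by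
  have k1 : ∀ v, InK V L (xu L u e) v → Q + v ∉ L.lattice := by
    intro v hv hL
    apply hQ
    have h3 : InK V L (xu L u e) (Q + v) := Or.inl hL
    have h4 := Pool.Agent.MUX2.gInK_sub G h3 hv
    rwa [add_sub_cancel_right] at h4
  have h5 : L.weierstrassP (Q + w) = L.weierstrassP (Q + w') := by
    unfold xu at h
    have hu2 : u ^ 2 ≠ 0 := pow_ne_zero _ hu
    have h6 := (div_left_inj' hu2).1 h
    linear_combination h6
  rcases b_NEQ L (Q + w') (Q + w) (k1 w' hw') (k1 w hw) h5 with h6 | h6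
  · have e1 : Q + w - (Q + w') = w - w' := by ring
    rwa [e1] at h6
  · exfalso
    apply h2
    have h7 : InK V L (xu L u e) (Q + w + (Q + w')) := Or.inl h6
    have h8 := Pool.Agent.MUX2.gInK_sub G h7 (Pool.Agent.MUX2.gInK_add G hw hw')
    have e1 : Q + w + (Q + w') - (w + w') = 2 * Q := by ring
    rwa [e1] at h8

section ord

variable {A B : ℤ} {P : Ideal (OO A B)} {V : ValuationSubring ℂ}

lemma _root_.Pool.Agent.ME2F.DST.emb_two (h : CQ A B) (x : OO A B) : emb (2 * x) = 2 * emb x := by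
  rw [_root_.Pool.Agent.MUX.emb_mul h]
  have := _root_.Pool.Agent.MUX.emb_natCast (A := A) (B := B) h 2
  push_cast at this
  rw [this]

/-- `x ∈ P^k` implies `2 x ∈ P^(k+2)` -/
lemma _root_.Pool.Agent.ME2F.DST.two_mem (hC : CtxF A B P V) {k : ℕ} {x : OO A B} (hx : x ∈ P ^ k) :
    2 * x ∈ P ^ (k + 2) := by
  have h1 := (hC.pw k x).1 hx
  rw [hC.pw, _root_.Pool.Agent.ME2F.DST.emb_two hC.cq, map_mul, mul_pow, mul_comm, pow_add]
  exact mul_le_mul_left h1 _

/-- `x ∈ P^(k+2)` is `2 y`, `y ∈ P^k` -/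
lemma _root_.Pool.Agent.ME2F.DST.half_mem (hC : CtxF A B P V) {k : ℕ} {x : OO A B} (hx : x ∈ P ^ (k + 2)) :
    ∃ y ∈ P ^ k, x = 2 * y := by
  have h1 := (hC.pw (k + 2) x).1 hx
  have hv0 : V.valuation (2 : ℂ) ≠ 0 := (Valuation.ne_zero_iff _).2 two_ne_zero
  have h2 : V.valuation (2 : ℂ) ^ (k + 2) ≤ V.valuation (2 : ℂ) ^ 2 :=
    pow_le_pow_of_le_one zero_le hC.v2.le (Nat.le_add_left _ _)
  have h3 : V.valuation (emb x) ≤ V.valuation (2 : ℂ) ^ 1 := by
    rw [pow_one]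
    exact (pow_le_pow_iff_left₀ zero_le zero_le two_ne_zero).1 (h1.trans h2)
  have h4 := (hC.dv 1 x).2 h3
  obtain ⟨y, hy⟩ := Ideal.mem_span_singleton.1 h4
  have h5 : x = 2 * y := by
    rw [hy]
    push_cast
    ring
  refine ⟨y, ?_, h5⟩
  rw [hC.pw]
  rw [h5, _root_.Pool.Agent.ME2F.DST.emb_two hC.cq, map_mul, mul_pow, mul_comm, pow_add] at h1
  exact le_of_mul_le_mul_right h1 (zero_lt_iff.2 (pow_ne_zero _ hv0))

end ord

end DST

open _root_.Pool.Agent.ME2F.DST in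
/-- DST. -/
theorem t4_DST (h1 : Sv_GRT) (h2 : Sv_TWO) (h3 : S4_TPU) : S4_DST := by
  classical
  intro A B P V hC L u e a1 a3 hNL hG Q hQ h2Q
  have hv2 := hC.v2
  have hu := hG.u0
  obtain ⟨ξ, G⟩ := (h1 V L u e a1 a3 hG hv2).1
  obtain ⟨-, w2, -, w4⟩ := h2 V L u e a1 a3 hG hv2
  have hzero : InK V L (xu L u e) 0 := Or.inl (zero_mem _)
  constructor
  · -- all points of order 4
    have hI : Isg L L 4 := by
      intro w hw
      have := L.lattice.smul_mem (4 : ℤ) hw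
      rwa [zsmul_eq_mul, Int.cast_ofNat] at this
    obtain ⟨R, hR⟩ := (u_BAC.2 L L 4 (by norm_num) hI).1
    have hK : ∀ q ∈ R, InK V L (xu L u e) q := by
      intro q hq
      apply w2 2
      have := hR.mem q hq
      norm_num
      exact this
    have hinj : Set.InjOn (fun q => xu L u e (Q + q)) (R : Set ℂ) := by
      intro q hq q' hq' h
      exact hR.inj q hq q' hq' (_root_.Pool.Agent.ME2F.DST.inj hu G hQ h2Q (hK q hq) (hK q' hq') h)
    refine ⟨R.image fun q => xu L u e (Q + q), ?_, ?_, ?_⟩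
    · intro h
      obtain ⟨q, hq, h4⟩ := Finset.mem_image.1 h
      have h5 : xu L u e (Q + q) = xu L u e (Q + 0) := by rw [add_zero]; exact h4
      have h6 := _root_.Pool.Agent.ME2F.DST.inj hu G hQ h2Q (hK q hq) hzero h5
      rw [sub_zero] at h6
      exact hR.ne q hq h6
    · intro x hx
      obtain ⟨q, hq, rfl⟩ := Finset.mem_image.1 hx
      exact ⟨(Pool.Agent.MUXV.int_X (_root_.Pool.Agent.ME2F.DST.dist G hQ h2Q (hK q hq) (hR.ne q hq)).1).2, q,
        hR.mem q hq, rfl⟩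
    · rw [Finset.prod_image hinj]
      have e1 : ∏ q ∈ R, V.valuation (xu L u e Q - xu L u e (Q + q)) =
          ∏ q ∈ R, V.valuation (tX (xu L u e) (yt L u e a1 a3) q) :=
        Finset.prod_congr rfl fun q hq => (_root_.Pool.Agent.ME2F.DST.dist G hQ h2Q (hK q hq) (hR.ne q hq)).2
      rw [e1]
      have e2 : (∏ q ∈ R, V.valuation (xu L u e q)) *
          (∏ q ∈ R, V.valuation (tX (xu L u e) (yt L u e a1 a3) q)) ^ 2 = 1 := by
        rw [← Finset.prod_pow, ← Finset.prod_mul_distrib]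
        exact Finset.prod_eq_one fun q hq =>
          (Pool.Agent.MUX2.gv_tX_lt G (hK q hq) (hR.ne q hq)).2.2
      have e3 := w4 R hR
      have hne : ∏ q ∈ R, V.valuation (xu L u e q) ≠ 0 := by
        intro h0
        rw [h0, zero_mul] at e2
        exact zero_ne_one e2
      have e4 : (∏ q ∈ R, V.valuation (tX (xu L u e) (yt L u e a1 a3) q)) ^ 2 =
          (V.valuation (2 : ℂ) ^ 2) ^ 2 := by
        apply mul_left_cancel₀ hne
        rw [e2, ← pow_mul, mul_comm, e3]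
      exact ((pow_left_inj₀ zero_le zero_le two_ne_zero).1 e4).le
  · -- the orbit
    intro Y hY hY'
    have hd : dR A = 2 ∨ dR A = 3 := by
      unfold dR
      by_cases h : A % 4 = 3
      · exact Or.inl (if_pos h)
      · exact Or.inr (if_neg h)
    have hd2 : 2 ≤ dR A := by omega
    have hd3 : dR A ≤ 3 := by omega
    have em : ∀ (x : OO A B) (z : ℂ), emb (2 * x) * z = emb x * (2 * z) := by
      intro x z
      rw [_root_.Pool.Agent.ME2F.DST.emb_two hC.cq]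
      ring
    -- the point `Y`
    have j1 : 6 - dR A = (5 - dR A) + 1 := by omega
    have t1 : Tor (P ^ (5 - dR A + 1)) L Y := by rw [← j1]; exact hY
    obtain ⟨k1, l1, o1⟩ := h3 A B P V hC (5 - dR A) L u e a1 a3 hNL hG Y t1 hY'
    -- the point `3 Y`
    have t3 : Tor (P ^ (5 - dR A + 1)) L (3 * Y) := by
      intro x hx
      have h4 := L.lattice.smul_mem (3 : ℤ) (t1 x hx)
      rw [zsmul_eq_mul, Int.cast_ofNat] at h4
      have e5 : emb x * (3 * Y) = 3 * (emb x * Y) := by ring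
      rwa [e5]
    have t3' : ¬ Tor (P ^ (5 - dR A)) L (3 * Y) := by
      intro h4
      apply hY'
      intro x hx
      have h5 := h4 x hx
      have h6 : 2 * x ∈ P ^ (5 - dR A + 1) :=
        Ideal.pow_le_pow_right (by omega) (_root_.Pool.Agent.ME2F.DST.two_mem hC hx)
      have h7 := t1 _ h6
      have h8 := sub_mem h5 h7
      have e5 : emb x * (3 * Y) - emb (2 * x) * Y = emb x * Y := by
        rw [_root_.Pool.Agent.ME2F.DST.emb_two hC.cq]
        ring
      rwa [e5] at h8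
    obtain ⟨k3, l3, o3⟩ := h3 A B P V hC (5 - dR A) L u e a1 a3 hNL hG (3 * Y) t3 t3'
    -- the point `2 Y`
    have t2 : Tor (P ^ (3 - dR A + 1)) L (2 * Y) := by
      intro x hx
      rw [← em]
      apply t1
      have h6 := _root_.Pool.Agent.ME2F.DST.two_mem hC hx
      have e5 : 3 - dR A + 1 + 2 = 5 - dR A + 1 := by omega
      rwa [e5] at h6
    have t2' : ¬ Tor (P ^ (3 - dR A)) L (2 * Y) := by
      intro h4
      apply hY'
      intro x hx
      have e5 : 5 - dR A = 3 - dR A + 2 := by omega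
      rw [e5] at hx
      obtain ⟨y, hy, rfl⟩ := _root_.Pool.Agent.ME2F.DST.half_mem hC hx
      rw [em]
      exact h4 y hy
    obtain ⟨k2, l2, o2⟩ := h3 A B P V hC (3 - dR A) L u e a1 a3 hNL hG (2 * Y) t2 t2'
    have hkK : ∀ k : ℕ, InK V L (xu L u e) (k * Y) := fun k => Pool.Agent.MUX2.gInK_nat G k1 k
    have hinj : Set.InjOn (fun k : ℕ => xu L u e (Q + k * Y))
        (({1, 2, 3} : Finset ℕ) : Set ℕ) := by
      have key : ∀ k k' : ℕ, k < k' → (k' = 2 ∨ k' = 3) → (k = 1 ∨ k = 2) →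
          xu L u e (Q + k * Y) ≠ xu L u e (Q + k' * Y) := by
        intro k k' hlt hk' hk h
        have h4 := _root_.Pool.Agent.ME2F.DST.inj hu G hQ h2Q (hkK k) (hkK k') h
        have h5 := neg_mem h4
        rcases hk' with rfl | rfl <;> rcases hk with rfl | rfl
        · apply l1
          have e5 : -(((1 : ℕ) : ℂ) * Y - ((2 : ℕ) : ℂ) * Y) = Y := by push_cast; ring
          rwa [e5] at h5
        · omega
        · apply l2
          have e5 : -(((1 : ℕ) : ℂ) * Y - ((3 : ℕ) : ℂ) * Y) = 2 * Y := by push_cast; ring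
          rwa [e5] at h5
        · apply l1
          have e5 : -(((2 : ℕ) : ℂ) * Y - ((3 : ℕ) : ℂ) * Y) = Y := by push_cast; ring
          rwa [e5] at h5
      intro k hk k' hk' h
      simp only [Finset.coe_insert, Finset.coe_singleton, Set.mem_insert_iff,
        Set.mem_singleton_iff] at hk hk'
      rcases lt_trichotomy k k' with h4 | h4 | h4
      · exact absurd h (key k k' h4 (by omega) (by omega))
      · exact h4
      · exact absurd h.symm (key k' k h4 (by omega) (by omega))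
    have hnL : ∀ k ∈ ({1, 2, 3} : Finset ℕ), (k : ℂ) * Y ∉ L.lattice := by
      intro k hk
      simp only [Finset.mem_insert, Finset.mem_singleton] at hk
      rcases hk with rfl | rfl | rfl
      · push_cast
        rw [one_mul]
        exact l1
      · push_cast
        exact l2
      · push_cast
        exact l3
    refine ⟨({1, 2, 3} : Finset ℕ).image fun k : ℕ => xu L u e (Q + k * Y), ?_, ?_, ?_⟩
    · intro h
      obtain ⟨k, hk, h4⟩ := Finset.mem_image.1 h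
      have h5 : xu L u e (Q + k * Y) = xu L u e (Q + 0) := by rw [add_zero]; exact h4
      have h6 := _root_.Pool.Agent.ME2F.DST.inj hu G hQ h2Q (hkK k) hzero h5
      rw [sub_zero] at h6
      exact hnL k hk h6
    · intro x hx
      obtain ⟨k, hk, rfl⟩ := Finset.mem_image.1 hx
      refine ⟨(Pool.Agent.MUXV.int_X (_root_.Pool.Agent.ME2F.DST.dist G hQ h2Q (hkK k) (hnL k hk)).1).2, k, ?_, rfl⟩
      simp only [Finset.mem_insert, Finset.mem_singleton] at hk
      omega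
    · rw [Finset.prod_image hinj]
      have e1 : ∏ k ∈ ({1, 2, 3} : Finset ℕ), V.valuation (xu L u e Q - xu L u e (Q + k * Y)) =
          ∏ k ∈ ({1, 2, 3} : Finset ℕ), V.valuation (tX (xu L u e) (yt L u e a1 a3) (k * Y)) :=
        Finset.prod_congr rfl fun k hk => (_root_.Pool.Agent.ME2F.DST.dist G hQ h2Q (hkK k) (hnL k hk)).2
      rw [e1, Finset.prod_insert (by decide), Finset.prod_insert (by decide),
        Finset.prod_singleton]
      push_cast
      rw [one_mul]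
      set α := V.valuation (tX (xu L u e) (yt L u e a1 a3) Y)
      set β := V.valuation (tX (xu L u e) (yt L u e a1 a3) (2 * Y))
      set γ := V.valuation (tX (xu L u e) (yt L u e a1 a3) (3 * Y))
      set v := V.valuation (2 : ℂ)
      rcases hd with hd | hd
      · rw [hd] at o1 o2 o3 ⊢
        norm_num at o1 o2 o3 ⊢
        -- `α^16 = v`, `γ^16 = v`, `β^4 = v`
        have e6 : (α * γ) ^ 8 = v := by
          apply (pow_left_inj₀ zero_le zero_le two_ne_zero).1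
          rw [← pow_mul, mul_pow]
          norm_num
          rw [o1, o3, sq]
        have e7 : (α * (β * γ)) ^ 8 = (α * γ) ^ 8 * (β ^ 4) ^ 2 := by
          rw [← pow_mul]
          norm_num
          rw [← mul_pow]
          congr 1
          rw [mul_assoc, mul_comm γ β]
        rw [e7, e6, o2, ← pow_succ']
      · rw [hd] at o1 o2 o3 ⊢
        norm_num at o1 o2 o3 ⊢
        -- `α^8 = v`, `γ^8 = v`, `β^2 = v`
        have e7 : (α * (β * γ)) ^ 8 = α ^ 8 * ((β ^ 2) ^ 4 * γ ^ 8) := by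
          rw [mul_pow, mul_pow, ← pow_mul]
        rw [e7, o1, o2, o3, ← pow_succ, ← pow_succ']

end

end Pool.Agent.ME2F


end
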