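import Mathlib
import Pool.Agent.MVF.C062
import Pool.Agent.MVF.C147

/-! Parts: ME2.F4_MAIN, ME2.F4_HAL -/

namespace Pool.Agent.ME2F.MAIN
end Pool.Agent.ME2F.MAIN

section

/-!
# MUX-2R, block ER2, module MAIN: both estimates for families of sets stable under `1 + N w0` and the translations by `m' b`
-/

set_option autoImplicit false

open Polynomial

namespace Pool.Agent.ME2F

open _root_.MU3 _root_.Pool.Agent.MU3A _root_.Pool.Agent.MU3B _root_.Pool.Agent.MUX _root_.Pool.Agent.MUXU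
open _root_.Pool.Agent.RI _root_.Pool.Agent.NS
open _root_.Pool.Agent.ME hiding ActE
open _root_.Pool.Agent.MEE _root_.Pool.Agent.ME2
open _root_.Pool.Agent.MUXE (RingE)
open _root_.Pool.Agent.N2 (GoodQ OddQ dR et yt WT PTq)
open _root_.Pool.Agent.N2E (dlg cc Sd_LAG Sd_PRD)
open _root_.Pool.Agent.N2V (IsoU NN w0 bb Sv_COE Sv_GRT Sv_UNT Sv_RAT Sv_THT Sv_NE1 Sv_PVI Sv_TWO Sv_DS2)
open _root_.Pool.Agent.ME2E (AutCE Sy_AUT Sy_GTA)
open _root_.Pool.Agent.NSE (IntP)
open _root_.Pool.Agent.MUX2 (GRG)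
open _root_.Pool.Agent.MUXV (InK tX)

noncomputable section

namespace MAIN

lemma _root_.Pool.Agent.ME2F.MAIN.p8_add (V : ValuationSubring ℂ) (c : V.ValueGroup) (x y : ℂ)
    (hx : V.valuation x ^ 8 ≤ c) (hy : V.valuation y ^ 8 ≤ c) : V.valuation (x + y) ^ 8 ≤ c := by
  rcases le_total (V.valuation x) (V.valuation y) with h | h
  · exact (pow_le_pow_left' ((V.valuation.map_add x y).trans (max_le h le_rfl)) 8).trans hy
  · exact (pow_le_pow_left' ((V.valuation.map_add x y).trans (max_le le_rfl h)) 8).trans hx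

lemma _root_.Pool.Agent.ME2F.MAIN.p8_sum (V : ValuationSubring ℂ) (c : V.ValueGroup) {α : Type} (s : Finset α) (F : α → ℂ)
    (h : ∀ i ∈ s, V.valuation (F i) ^ 8 ≤ c) : V.valuation (∑ i ∈ s, F i) ^ 8 ≤ c := by
  classical
  induction s using Finset.induction_on with
  | empty => simp
  | insert i s hi ih =>
    rw [Finset.sum_insert hi]
    exact _root_.Pool.Agent.ME2F.MAIN.p8_add V c _ _ (h i (Finset.mem_insert_self _ _))
      (ih fun j hj => h j (Finset.mem_insert_of_mem hj))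

lemma _root_.Pool.Agent.ME2F.MAIN.p8_mul (V : ValuationSubring ℂ) (c : V.ValueGroup) (a x : ℂ) (ha : V.valuation a ≤ 1)
    (hx : V.valuation x ^ 8 ≤ c) : V.valuation (a * x) ^ 8 ≤ c := by
  rw [map_mul, mul_pow]
  calc V.valuation a ^ 8 * V.valuation x ^ 8 ≤ 1 * V.valuation x ^ 8 :=
        mul_le_mul_left (pow_le_one' ha 8) _
    _ = V.valuation x ^ 8 := one_mul _
    _ ≤ c := hx

lemma _root_.Pool.Agent.ME2F.MAIN.v_int (V : ValuationSubring ℂ) (g : ℤ) : V.valuation (g : ℂ) ≤ 1 :=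
  (V.valuation_le_one_iff _).2 (intCast_mem V g)

lemma _root_.Pool.Agent.ME2F.MAIN.dvd_mem {A B : ℤ} {M N : ℕ} (h : M ∣ N) (x : OO A B) (hx : x ∈ idl (A := A) (B := B) N) :
    x ∈ idl (A := A) (B := B) M := by
  rw [Ideal.mem_span_singleton] at hx ⊢
  exact (_root_.map_dvd (Nat.castRingHom (OO A B)) h).trans hx

end MAIN

open _root_.Pool.Agent.ME2F.MAIN in
theorem t4_MAIN (hCON : S4_CON) (hSQR : S4_SQR) (hORB : S4_ORB) (hCOS : S4_COS) : S4_MAIN := by
  classical
  intro A B P V n f a m m' hSet ι R u e a1 a3 hG H hH om hom J _ S hcop hst htr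
  obtain ⟨k1, -, -, -, -, -⟩ := hCON A B P V n f a m m' hSet
  have hC := hSet.ctx
  have hcq : CQ A B := hC.cq
  have hm := hSet.hm
  have hm' := hSet.hm'
  have hf0 : f ≠ 0 := by have := hSet.f3; omega
  have hm0 : m ≠ 0 := by
    rw [hm]
    positivity
  have hmC : (m : ℂ) ≠ 0 := by exact_mod_cast hm0
  have hpf : m.primeFactors ⊆ (2 * f).primeFactors := by
    rw [hm]
    exact Pool.Agent.N2E.ORB.pf n f hf0
  set N : ℕ := NN n f a with hN
  set ck : ℕ → OO A B := fun k => cc N ((k : OO A B) * w0) with hck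
  -- divisibilities
  have d1 : 2 * f ∣ m' := by
    rw [hm']
    exact Nat.mul_dvd_mul (dvd_pow_self 2 (by omega)) dvd_rfl
  have d0 : m' ∣ m := by
    rw [hm, hm']
    exact Nat.mul_dvd_mul (pow_dvd_pow 2 (by omega)) dvd_rfl
  have d2 : 2 * f ∣ m := d1.trans d0
  have d4 : 2 * f ∣ 4 * f := Nat.mul_dvd_mul (by norm_num) dvd_rfl
  have d5 : 4 ∣ 4 * f := dvd_mul_right 4 f
  have d6 : 2 ∣ m := (dvd_mul_right 2 f).trans d2
  -- the orbits
  have hcos := fun j => hCOS A B P V n f a m m' hSet ι (S j) (hcop j) (hst j) (htr j)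
  choose T hTc hTs hTp using hcos
  -- representatives
  have hout1 : ∀ y : OO A B,
      (Quotient.out (Ideal.Quotient.mk (idl (A := A) (B := B) m) y) : OO A B) - y ∈
        idl (A := A) (B := B) m := by
    intro y
    refine Ideal.Quotient.eq.1 ?_
    exact Quotient.out_eq _
  have hck1 : ∀ k, ck k - 1 ∈ idl (A := A) (B := B) (4 * f) := fun k => (k1 _).2.2.2.2.1
  have hck0 : ∀ k, ck k ≠ 0 := fun k => (k1 _).2.2.1
  have hckc : ∀ k, IsCoprime (ck k) ((m : ℕ) : OO A B) := fun k => (k1 _).2.1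
  have hom1 : ∀ (x : OO A B) (k l : ℕ), om (Quotient.out (Ideal.Quotient.mk
      (idl (A := A) (B := B) m) (ck k * x + (m' : OO A B) * bb l))) = om x := by
    intro x k l
    apply hom.per
    have h1 := _root_.Pool.Agent.ME2F.MAIN.dvd_mem d2 _ (hout1 (ck k * x + (m' : OO A B) * bb l))
    have h2 : (m' : OO A B) * bb l ∈ idl (A := A) (B := B) (2 * f) :=
      _root_.Pool.Agent.ME2F.MAIN.dvd_mem d1 _ (Ideal.mul_mem_right _ _ (Ideal.mem_span_singleton_self _))
    have h3 : (ck k - 1) * x ∈ idl (A := A) (B := B) (2 * f) :=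
      _root_.Pool.Agent.ME2F.MAIN.dvd_mem d4 _ (Ideal.mul_mem_right _ _ (hck1 k))
    have h4 := Ideal.add_mem _ (Ideal.add_mem _ h1 h2) h3
    have h5 : (Quotient.out (Ideal.Quotient.mk (idl (A := A) (B := B) m)
        (ck k * x + (m' : OO A B) * bb l)) : OO A B) -
        (ck k * x + (m' : OO A B) * bb l) + (m' : OO A B) * bb l + (ck k - 1) * x =
        (Quotient.out (Ideal.Quotient.mk (idl (A := A) (B := B) m)
        (ck k * x + (m' : OO A B) * bb l)) : OO A B) - x := by ring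
    rwa [h5] at h4
  -- points congruent modulo `m`
  have hpt : ∀ (i : ι) (y y' : OO A B), y - y' ∈ idl (A := A) (B := B) m →
      ptE R m i y - ptE R m i y' ∈ (R.L i).lattice := by
    intro i y y' hy
    obtain ⟨-, -, -, hPT⟩ := tm_PT tm_TRA A B hC.ring (2 * f) ι R (by omega) i
    obtain ⟨t, ht⟩ := Ideal.mem_span_singleton.1 hy
    have h8 := (hPT m hm0 hpf t).2.1
    have e1 : ptE R m i y - ptE R m i y' = (m : ℂ) * ptE R m i t := by
      have e2 : emb y - emb y' = (m : ℂ) * emb t := by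
        rw [← MUX.emb_sub hcq, ht, MUX.emb_mul hcq, MUX.emb_natCast hcq]
      unfold ptE
      field_simp
      linear_combination (R.om i * nI (R.b i)) * e2
    rw [e1]
    exact h8
  have hdl : ∀ (i : ι) (y : OO A B), dlX (R.L i) a (ptE R m i (Quotient.out
      (Ideal.Quotient.mk (idl (A := A) (B := B) m) y))) = dlX (R.L i) a (ptE R m i y) :=
    fun i y => Pool.Agent.N2E.ORB.dlX_per (R.L i) a (hpt i _ _ (hout1 y))
  have hth : ∀ (i : ι) (y : OO A B), ThetaH (R.L i) (H i) (ptE R m i (Quotient.out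
      (Ideal.Quotient.mk (idl (A := A) (B := B) m) y))) =
      ThetaH (R.L i) (H i) (ptE R m i y) :=
    fun i y => Pool.Agent.N2E.ORB.th_per (R.L i) (a : ℂ) (hH i) (hpt i _ _ (hout1 y))
  -- the values
  have hv2 : V.valuation (2 : ℂ) < 1 := hC.v2
  have hcop2 : ∀ x : OO A B, IsCoprime x ((m : ℕ) : OO A B) →
      IsCoprime x ((2 * f : ℕ) : OO A B) := by
    intro x hx
    exact hx.of_isCoprime_of_dvd_right (_root_.map_dvd (Nat.castRingHom (OO A B)) d2)
  have h2P : ((2 : ℕ) : OO A B) ∈ P := by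
    have h1 := (hC.pw 1 ((2 : ℕ) : OO A B)).2 (by
      rw [MUX.emb_natCast hcq, pow_one, pow_two]
      push_cast
      exact mul_le_of_le_one_left' hv2.le)
    rwa [pow_one] at h1
  have hnP : ∀ x : OO A B, IsCoprime x ((m : ℕ) : OO A B) → x ∉ P := by
    intro x hx hxP
    obtain ⟨s, t, hst⟩ := hx
    apply hC.max.ne_top
    rw [Ideal.eq_top_iff_one, ← hst]
    refine Ideal.add_mem _ (Ideal.mul_mem_left _ _ hxP) (Ideal.mul_mem_left _ _ ?_)
    obtain ⟨q, hq⟩ := d6
    rw [hq, Nat.cast_mul]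
    exact P.mul_mem_right _ h2P
  have hsq1 : ∀ x : OO A B, IsCoprime x ((m : ℕ) : OO A B) →
      V.valuation (om x - emb x) ^ 2 ≤ V.valuation (2 : ℂ) := by
    intro x hx
    have h1 := hom.cong x (hcop2 x hx)
    have h2 : V.valuation (1 - emb x) ^ 2 ≤ V.valuation (2 : ℂ) := by
      have h3 := hC.one x (hnP x hx)
      have h4 := (hC.pw 1 (x - 1)).1 (by rwa [pow_one])
      rw [pow_one, MUX.emb_sub hcq, MUX.emb_one hcq] at h4
      rwa [Valuation.map_sub_swap] at h4
    have h5 : om x - emb x = (om x - 1) + (1 - emb x) := by ring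
    rw [h5]
    rcases le_total (V.valuation (om x - 1)) (V.valuation (1 - emb x)) with h | h
    · exact (pow_le_pow_left' ((V.valuation.map_add _ _).trans (max_le h le_rfl)) 2).trans h2
    · exact (pow_le_pow_left' ((V.valuation.map_add _ _).trans (max_le le_rfl h)) 2).trans h1
  have hom2 : ∀ x : OO A B, IsCoprime x ((m : ℕ) : OO A B) → V.valuation (om x) ≤ 1 := by
    intro x hx
    have h1 : om x = (om x - emb x) + emb x := by ring
    rw [h1]
    refine (V.valuation.map_add _ _).trans (max_le ?_ (hC.int x))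
    by_contra h
    push Not at h
    exact absurd ((hsq1 x hx).trans_lt hv2) (not_lt.2 (one_lt_pow₀ h two_ne_zero).le)
  set E : ι → OO A B → ℂ := fun i y => muXE R i * FFibE R a m m' i y / u with hE
  have hcx : ∀ (x : OO A B) (k : ℕ), IsCoprime x ((m : ℕ) : OO A B) →
      IsCoprime (ck k * x) ((m : ℕ) : OO A B) := fun x k hx => (hckc k).mul_left hx
  have hE1 : ∀ (i : ι) (x : OO A B), IsCoprime x ((m : ℕ) : OO A B) →
      V.valuation (E i x) ≤ V.valuation (2 : ℂ) := fun i x hx =>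
    (hORB A B P V n f a m m' hSet ι R u e a1 a3 hG (H) i (hH i) x hx).1
  have hEo : ∀ (i : ι) (x : OO A B), IsCoprime x ((m : ℕ) : OO A B) →
      V.valuation (∑ k ∈ Finset.range 4, E i (ck k * x)) ^ 8 ≤
        V.valuation (2 : ℂ) ^ (3 * dR A + 5) := by
    intro i x hx
    have h1 := (hORB A B P V n f a m m' hSet ι R u e a1 a3 hG (H) i (hH i) x hx).2
      (fun k => ck k * x) (fun k _ => by
        have h2 : ck k * x - cc (NN n f a) ((k : OO A B) * w0) * x = 0 := sub_self _
        rw [h2]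
        exact Ideal.zero_mem _)
    rw [Finset.sum_div] at h1
    exact h1
  -- the sum over an orbit
  have hsum : ∀ j, (∑ q ∈ S j, om (Quotient.out q.2) * muXE R q.1 *
      dlX (R.L q.1) a (ptE R m q.1 (Quotient.out q.2))) / u =
      ∑ t ∈ T j, om t.2 * ∑ k ∈ Finset.range 4, E t.1 (ck k * t.2) := by
    intro j
    rw [hTs j (fun q => om (Quotient.out q.2) * muXE R q.1 *
      dlX (R.L q.1) a (ptE R m q.1 (Quotient.out q.2))), Finset.sum_div]
    refine Finset.sum_congr rfl fun t _ => ?_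
    rw [Finset.sum_div, Finset.mul_sum]
    refine Finset.sum_congr rfl fun k _ => ?_
    have h1 : ∀ l, om (Quotient.out (Ideal.Quotient.mk (idl (A := A) (B := B) m)
        (cc (NN n f a) ((k : OO A B) * w0) * t.2 + (m' : OO A B) * bb l))) * muXE R t.1 *
        dlX (R.L t.1) a (ptE R m t.1 (Quotient.out (Ideal.Quotient.mk
          (idl (A := A) (B := B) m)
          (cc (NN n f a) ((k : OO A B) * w0) * t.2 + (m' : OO A B) * bb l)))) =
        om t.2 * muXE R t.1 * dlX (R.L t.1) a (ptE R m t.1 (ck k * t.2 +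
          (m' : OO A B) * bb l)) := by
      intro l
      rw [hdl]
      have := hom1 t.2 k l
      simp only [hck] at this ⊢
      rw [this]
    simp only [h1]
    rw [← Finset.mul_sum, hE]
    simp only [FFibE]
    ring
  constructor
  · -- the first estimate
    intro j
    rw [hsum j]
    exact _root_.Pool.Agent.ME2F.MAIN.p8_sum V _ _ _ fun t ht => _root_.Pool.Agent.ME2F.MAIN.p8_mul V _ _ _ (hom2 _ (hTc j t ht))
      (hEo t.1 t.2 (hTc j t ht))
  · -- the second estimate
    intro g hyy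
    obtain ⟨w, hw1, hw2, hw3⟩ := hyy
    have hdom : IsDomain (OO A B) := MUX.isDomain hcq
    have hinj : ∀ k, Function.Injective (fun t : ι × OO A B => (t.1, ck k * t.2)) := by
      rintro k ⟨i, x⟩ ⟨i', x'⟩ h
      simp only [Prod.mk.injEq] at h
      rw [h.1, mul_left_cancel₀ (hck0 k) h.2]
    have hprod : ∀ j, ∏ q ∈ S j, ThetaH (R.L q.1) (H q.1) (ptE R m q.1 (Quotient.out q.2)) =
        ∏ k : Fin 4, ∏ t ∈ T j, GFibE R H m m' t.1 (ck k * t.2) := by
      intro j
      rw [hTp j (fun q => ThetaH (R.L q.1) (H q.1) (ptE R m q.1 (Quotient.out q.2))),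
        Finset.prod_comm' (t' := Finset.range 4) (s' := fun _ => T j)
          (fun x y => by simp), Finset.prod_range]
      refine Finset.prod_congr rfl fun k _ => Finset.prod_congr rfl fun t _ => ?_
      simp only [hth]
      rfl
    have hsq := hSQR A B P V n f a m m' hSet ι R u e a1 a3 hG H hH (J × Fin 4)
      (fun p => (T p.1).image (fun t : ι × OO A B => (t.1, ck p.2 * t.2))) (fun p => g p.1)
      (by
        rintro ⟨j, k⟩ q hq
        simp only [Finset.mem_image] at hq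
        obtain ⟨t, ht, rfl⟩ := hq
        exact hcx _ _ (hTc j t ht))
      ⟨w, hw1, hw2, by
        rw [hw3, Fintype.prod_prod_type]
        refine Finset.prod_congr rfl fun j _ => ?_
        rw [hprod j, ← Finset.prod_zpow]
        refine Finset.prod_congr rfl fun k _ => ?_
        rw [Finset.prod_image fun x _ z _ h => hinj k h]⟩
    have h0 : ∑ p : J × Fin 4, (g p.1 : ℂ) *
        ∑ q ∈ (T p.1).image (fun t : ι × OO A B => (t.1, ck p.2 * t.2)),
          emb q.2 * muXE R q.1 * FFibE R a m m' q.1 q.2 =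
        ∑ j, (g j : ℂ) * ∑ t ∈ T j, ∑ k ∈ Finset.range 4,
          emb (ck k * t.2) * muXE R t.1 * FFibE R a m m' t.1 (ck k * t.2) := by
      rw [Fintype.sum_prod_type]
      refine Finset.sum_congr rfl fun j _ => ?_
      rw [Finset.sum_comm, Finset.sum_range, Finset.mul_sum]
      refine Finset.sum_congr rfl fun k _ => ?_
      rw [Finset.sum_image fun x _ z _ h => hinj k h]
    rw [h0] at hsq
    -- the difference
    have hdiff : (∑ j, (g j : ℂ) * ∑ q ∈ S j, om (Quotient.out q.2) * muXE R q.1 *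
          dlX (R.L q.1) a (ptE R m q.1 (Quotient.out q.2))) / u =
        (∑ j, (g j : ℂ) * ∑ t ∈ T j, ∑ k ∈ Finset.range 4,
          emb (ck k * t.2) * muXE R t.1 * FFibE R a m m' t.1 (ck k * t.2)) / u +
        ∑ j, (g j : ℂ) * ∑ t ∈ T j, ((om t.2 - emb t.2) *
            ∑ k ∈ Finset.range 4, E t.1 (ck k * t.2) +
          ∑ k ∈ Finset.range 4, -emb ((ck k - 1) * t.2) * E t.1 (ck k * t.2)) := by
      rw [Finset.sum_div, Finset.sum_div, ← Finset.sum_add_distrib]
      refine Finset.sum_congr rfl fun j _ => ?_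
      rw [mul_div_assoc, mul_div_assoc, ← mul_add, hsum j, Finset.sum_div,
        ← Finset.sum_add_distrib]
      congr 1
      refine Finset.sum_congr rfl fun t _ => ?_
      rw [Finset.mul_sum, Finset.mul_sum, Finset.sum_div, ← Finset.sum_add_distrib,
        ← Finset.sum_add_distrib]
      refine Finset.sum_congr rfl fun k _ => ?_
      have h4 : emb ((ck k - 1) * t.2) = emb (ck k * t.2) - emb t.2 := by
        rw [← MUX.emb_sub hcq]
        congr 1
        ring
      rw [h4, hE]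
      ring
    rw [hdiff]
    have hle13 : V.valuation (2 : ℂ) ^ (3 * dR A + 13) ≤ V.valuation (2 : ℂ) ^ (3 * dR A + 9) :=
      pow_le_pow_right_of_le_one' hv2.le (by omega)
    refine _root_.Pool.Agent.ME2F.MAIN.p8_add V _ _ _ (hsq.trans hle13) (_root_.Pool.Agent.ME2F.MAIN.p8_sum V _ _ _ fun j _ => _root_.Pool.Agent.ME2F.MAIN.p8_mul V _ _ _
      (_root_.Pool.Agent.ME2F.MAIN.v_int V _) (_root_.Pool.Agent.ME2F.MAIN.p8_sum V _ _ _ fun t ht => ?_))
    have hts := hTc j t ht
    refine _root_.Pool.Agent.ME2F.MAIN.p8_add V _ _ _ ?_ (_root_.Pool.Agent.ME2F.MAIN.p8_sum V _ _ _ fun k _ => ?_)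
    · rw [map_mul, mul_pow]
      have h1 : V.valuation (om t.2 - emb t.2) ^ 8 ≤ V.valuation (2 : ℂ) ^ 4 := by
        have h2 := pow_le_pow_left' (hsq1 _ hts) 4
        rwa [← pow_mul] at h2
      calc V.valuation (om t.2 - emb t.2) ^ 8 *
            V.valuation (∑ k ∈ Finset.range 4, E t.1 (ck k * t.2)) ^ 8 ≤
          V.valuation (2 : ℂ) ^ 4 * V.valuation (2 : ℂ) ^ (3 * dR A + 5) :=
            mul_le_mul' h1 (hEo _ _ hts)
        _ = V.valuation (2 : ℂ) ^ (3 * dR A + 9) := by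
            rw [← pow_add]
            congr 1
            ring
    · have h5 := _root_.Pool.Agent.ME2F.MAIN.dvd_mem d5 _ (Ideal.mul_mem_right t.2 _ (hck1 k))
      rw [Ideal.mem_span_singleton] at h5
      obtain ⟨z, hz⟩ := h5
      have h6 : V.valuation (emb ((ck k - 1) * t.2)) ≤ V.valuation (2 : ℂ) ^ 2 := by
        rw [hz, MUX.emb_mul hcq, map_mul]
        have h7 : (emb ((4 : ℕ) : OO A B) : ℂ) = 2 ^ 2 := by
          rw [MUX.emb_natCast hcq]
          norm_num
        rw [h7, map_pow]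
        exact mul_le_of_le_one_right' (hC.int z)
      have h8 : V.valuation (-emb ((ck k - 1) * t.2) * E t.1 (ck k * t.2)) ≤
          V.valuation (2 : ℂ) ^ 3 := by
        rw [map_mul, Valuation.map_neg, pow_succ (V.valuation (2 : ℂ)) 2]
        exact mul_le_mul' h6 (hE1 _ _ (hcx _ _ hts))
      calc V.valuation (-emb ((ck k - 1) * t.2) * E t.1 (ck k * t.2)) ^ 8 ≤
          (V.valuation (2 : ℂ) ^ 3) ^ 8 := pow_le_pow_left' h8 8
        _ = V.valuation (2 : ℂ) ^ 24 := by rw [← pow_mul]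
        _ ≤ V.valuation (2 : ℂ) ^ (3 * dR A + 9) :=
          pow_le_pow_right_of_le_one' hv2.le (by
            unfold dR
            split_ifs <;> omega)

end

end Pool.Agent.ME2F


end

section

/-!
# MUX-2R, block ER2: module HAL, half systems which are stable under `1 + N w0` and `m' b`
-/

set_option autoImplicit false

open Polynomial

namespace Pool.Agent.ME2F

open _root_.MU3 _root_.Pool.Agent.MU3A _root_.Pool.Agent.MU3B _root_.Pool.Agent.MUX _root_.Pool.Agent.MUXU
open _root_.Pool.Agent.RI _root_.Pool.Agent.NS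
open _root_.Pool.Agent.ME hiding ActE
open _root_.Pool.Agent.MEE _root_.Pool.Agent.ME2
open _root_.Pool.Agent.MUXE (RingE)
open _root_.Pool.Agent.N2 (GoodQ OddQ dR et yt WT PTq)
open _root_.Pool.Agent.N2E (dlg cc Sd_LAG Sd_PRD)
open _root_.Pool.Agent.N2V (IsoU NN w0 bb Sv_COE Sv_GRT Sv_UNT Sv_RAT Sv_THT Sv_NE1 Sv_PVI Sv_TWO Sv_DS2)
open _root_.Pool.Agent.ME2E (AutCE Sy_AUT Sy_GTA)
open _root_.Pool.Agent.NSE (IntP)
open _root_.Pool.Agent.MUX2 (GRG)
open _root_.Pool.Agent.MUXV (InK tX)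

noncomputable section

open _root_.Pool.Agent.ME2E.HAL in
/-- HAL. -/
theorem t4_HAL (h1 : S4_CON) (h2 : S4_XXS) : S4_HAL := by
  classical
  intro A B P V n f a m m' hS ι _ R D h
  letI := algC h
  intro τ hst htr
  have hcq := hS.ctx.cq
  have hf3 := hS.f3
  have hm : m ≠ 0 := by
    rw [hS.hm]
    exact mul_ne_zero (pow_ne_zero _ two_ne_zero) (by omega)
  have hfm : f ∣ m := by
    rw [hS.hm]
    exact dvd_mul_left _ _
  have hfm' : f ∣ m' := by
    rw [hS.hm']
    exact dvd_mul_left _ _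
  have hbot : ∀ k : ℕ, k ≠ 0 → idl (A := A) (B := B) k ≠ ⊥ := by
    intro k hk h0
    rw [Ideal.span_singleton_eq_bot] at h0
    exact natCast_ne_zero' hcq hk h0
  haveI : Finite (OO A B ⧸ idl (A := A) (B := B) m) := finite_quot hcq (hbot m hm)
  haveI : Finite (OO A B ⧸ idl (A := A) (B := B) f) := finite_quot hcq (hbot f (by omega))
  have hle : idl (A := A) (B := B) m ≤ idl (A := A) (B := B) f := by
    rw [Ideal.span_singleton_le_span_singleton]
    obtain ⟨k, hk⟩ := hfm
    exact ⟨(k : OO A B), by rw [hk]; push_cast; ring⟩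
  set r : (OO A B ⧸ idl (A := A) (B := B) m) →+* (OO A B ⧸ idl (A := A) (B := B) f) :=
    Ideal.Quotient.factor hle with hr
  have hrm : ∀ x : OO A B, r (Ideal.Quotient.mk _ x) = Ideal.Quotient.mk _ x := fun x =>
    Ideal.Quotient.factor_mk hle x
  obtain ⟨j, hj⟩ := exists_injective_nat (OO A B ⧸ idl (A := A) (B := B) f)
  set c : OO A B := cc (NN n f a) w0 with hc
  have hc1 : r (Ideal.Quotient.mk _ c) = 1 := by
    rw [hrm, ← map_one (Ideal.Quotient.mk (idl (A := A) (B := B) f)), Ideal.Quotient.eq]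
    have h3 := ((h1 A B P V n f a m m' hS).1 w0).2.2.2.2.1
    rw [← hc] at h3
    have h4 : idl (A := A) (B := B) (4 * f) ≤ idl (A := A) (B := B) f := by
      rw [Ideal.span_singleton_le_span_singleton]
      exact ⟨4, by push_cast; ring⟩
    exact h4 h3
  have hrc : ∀ X, r (Ideal.Quotient.mk _ c * X) = r X := by
    intro X
    rw [map_mul, hc1, one_mul]
  have hrt : ∀ X, ∀ b : OO A B, r (X + Ideal.Quotient.mk _ ((m' : OO A B) * b)) = r X := by
    intro X b
    have h3 : r (Ideal.Quotient.mk _ ((m' : OO A B) * b)) = 0 := by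
      rw [hrm, Ideal.Quotient.eq_zero_iff_mem, Ideal.mem_span_singleton]
      obtain ⟨k, hk⟩ := hfm'
      exact ⟨(k : OO A B) * b, by rw [hk]; push_cast; ring⟩
    rw [map_add, h3, add_zero]
  have hne : ∀ q ∈ XXE R m h τ, r q.2 ≠ -r q.2 := by
    intro q hq h0
    have h3 : q.2 = Ideal.Quotient.mk _ (Quotient.out q.2 : OO A B) := (Quotient.out_eq q.2).symm
    have h4 : r q.2 + r q.2 = 0 := by
      nth_rewrite 1 [h0]
      exact neg_add_cancel _
    rw [h3, hrm, ← map_add, Ideal.Quotient.eq_zero_iff_mem, ← two_mul] at h4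
    exact two_mul_notMem hf3 hS.fo hfm hq.1 h4
  have hfin : {q | q ∈ XXE R m h τ ∧ j (r q.2) < j (-r q.2)}.Finite := Set.toFinite _
  have hmem : ∀ q, q ∈ hfin.toFinset ↔ q ∈ XXE R m h τ ∧ j (r q.2) < j (-r q.2) := by
    intro q
    rw [Set.Finite.mem_toFinset]
    rfl
  refine ⟨hfin.toFinset, ⟨?_, ?_, ?_⟩, ?_, ?_⟩
  · intro q hq
    exact ((hmem q).1 hq).1
  · intro q hq
    have h3 : j (r q.2) ≠ j (-r q.2) := fun h4 => hne q hq (hj h4)
    rcases lt_or_gt_of_ne h3 with h4 | h4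
    · exact Or.inl ((hmem q).2 ⟨hq, h4⟩)
    · right
      refine (hmem _).2 ⟨(h2 A B P V n f a m m' hS ι R D h τ q hq).1, ?_⟩
      change j (r (-q.2)) < j (-r (-q.2))
      rw [map_neg, neg_neg]
      exact h4
  · intro q hq h3
    have h4 := ((hmem q).1 hq).2
    have h5 : j (r (-q.2)) < j (-r (-q.2)) := ((hmem _).1 h3).2
    rw [map_neg, neg_neg] at h5
    omega
  · intro q hq
    obtain ⟨h3, h4⟩ := (hmem q).1 hq
    refine (hmem _).2 ⟨hst q h3, ?_⟩
    change j (r (Ideal.Quotient.mk _ c * q.2)) < j (-r (Ideal.Quotient.mk _ c * q.2))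
    rw [hrc]
    exact h4
  · intro q hq b
    obtain ⟨h3, h4⟩ := (hmem q).1 hq
    refine (hmem _).2 ⟨htr q h3 b, ?_⟩
    change j (r (q.2 + Ideal.Quotient.mk _ ((m' : OO A B) * b))) <
      j (-r (q.2 + Ideal.Quotient.mk _ ((m' : OO A B) * b)))
    rw [hrt]
    exact h4

end

end Pool.Agent.ME2F


end
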