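import Mathlib
import Pool.Agent.MVF.C147
import Pool.Agent.MVF.C192

/-! Parts: ME2.F4_SIG -/

section

/-!
# MUX-2R, block ER2, module SIG: integral elements of the ray class field are polynomials in `x(Q)` (port of `N2/E_SIG.lean`)
-/

set_option autoImplicit false

open Polynomial

namespace Pool.Agent.ME2F

open _root_.MU3 _root_.Pool.Agent.MU3A _root_.Pool.Agent.MU3B _root_.Pool.Agent.MUX _root_.Pool.Agent.MUXU
open _root_.Pool.Agent.RI _root_.Pool.Agent.NS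
open _root_.Pool.Agent.ME hiding ActE
open _root_.Pool.Agent.MEE _root_.Pool.Agent.ME2
open _root_.Pool.Agent.MUXE (RingE)
open _root_.Pool.Agent.N2 (GoodQ OddQ dR et yt WT PTq)
open _root_.Pool.Agent.N2E (dlg cc Sd_LAG Sd_PRD)
open _root_.Pool.Agent.N2V (IsoU NN w0 bb Sv_COE Sv_GRT Sv_UNT Sv_RAT Sv_THT Sv_NE1 Sv_PVI Sv_TWO Sv_DS2)
open _root_.Pool.Agent.ME2E (AutCE Sy_AUT Sy_GTA)
open _root_.Pool.Agent.NSE (IntP)
open _root_.Pool.Agent.NSE.SIG (intP_sum)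
open _root_.Pool.Agent.ME2E.SIG (rat_memE)
open _root_.Pool.Agent.MUX2 (GRG)
open _root_.Pool.Agent.MUXV (InK tX)

noncomputable section

theorem t4_SIG (h2 : Sv_GRT) (h3 : S4_TPU) (hU : S4_UNR) (h5 : S4_DEG) : S4_SIG := by
  intro A B P V n f a m m' S L om u e a1 a3 hL hgood w hw hvw
  obtain ⟨hC, hT, hn, hf, h3f, h2f, -, h2a, -, rfl, rfl⟩ := S
  have hR := hC.ring
  have hG : GalEE A B := tm_GAL A B hC.case hR hT
  obtain ⟨φ, hφ⟩ := hR.hom
  have hmul : ∀ x y : OO A B, emb (x * y) = emb x * emb y := fun x y => by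
    rw [← hφ, map_mul, hφ, hφ]
  have hnat : ∀ k : ℕ, emb ((k : ℕ) : OO A B) = k := fun k => by rw [← hφ, map_natCast]
  have hLn : NLE A B L := ⟨⊤, om, hL⟩
  have hom0 := hL.om_ne
  have hv2 := hC.v2
  have hf0 : f ≠ 0 := by omega
  have ha : a ≠ 0 := by rintro rfl; exact h2a (dvd_zero 2)
  have hfa0 : f * a ≠ 0 := Nat.mul_ne_zero hf0 ha
  have h2fa : ¬ 2 ∣ f * a := fun h => by
    rcases (Nat.Prime.dvd_mul (by norm_num)).1 h with h | h
    · exact h2f h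
    · exact h2a h
  have hm0' : 2 ^ (n + 1) * f * a ≠ 0 := by positivity
  have hne : ∀ k : ℕ, k ≠ 0 → idl (A := A) (B := B) k ≠ ⊥ := by
    intro k hk h
    rw [Ideal.span_singleton_eq_bot] at h
    apply hk
    have h' := hnat k
    rw [h, ← hφ, map_zero] at h'
    exact_mod_cast h'.symm
  -- the fields
  have hmm : idl (A := A) (B := B) (2 ^ (n + 1) * f * a) ≤ idl (2 * (f * a)) := by
    rw [Ideal.span_singleton_le_span_singleton]
    refine ⟨((2 ^ n : ℕ) : OO A B), ?_⟩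
    push_cast; ring
  have hmm2 : idl (A := A) (B := B) (2 ^ (n + 2) * f * a) ≤ idl (2 * (f * a)) := by
    rw [Ideal.span_singleton_le_span_singleton]
    refine ⟨((2 ^ (n + 1) : ℕ) : OO A B), ?_⟩
    push_cast; ring
  have hmm3 : idl (A := A) (B := B) (2 * (f * a)) ≤ idl 2 := by
    rw [Ideal.span_singleton_le_span_singleton]
    refine ⟨((f * a : ℕ) : OO A B), ?_⟩
    push_cast; ring
  obtain ⟨c1, c2, c3, c4, c5⟩ := Pool.Agent.MEE.tm_FAC Pool.Agent.MEE.tm_TRA A B hR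
  have hle := c1 _ _ hmm
  obtain ⟨⟨ξ, G⟩, t1⟩ := h2 V L u e a1 a3 hgood hv2
  obtain ⟨w₁, w₂, hw₁, hw₂, hw₁L, hw₂L, -, -, he, hu2⟩ := hgood.tor
  -- torsion points
  have hTor : ∀ (k : ℕ) (z : ℂ), (k : ℂ) * z ∈ L.lattice → Tor (idl (A := A) (B := B) k) L z := by
    intro k z hz x hx
    obtain ⟨y, rfl⟩ := Ideal.mem_span_singleton'.1 hx
    rw [hmul, hnat, mul_assoc]
    obtain ⟨c, -, hc⟩ := (hL.mem _).1 hz
    exact (hL.mem _).2 ⟨y * c, Submodule.mem_top, by rw [hc, hmul]; ring⟩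
  have hint : ∀ (k : ℤ) (z : ℂ), z ∈ L.lattice → (k : ℂ) * z ∈ L.lattice := by
    intro k z hz
    simpa [zsmul_eq_mul] using L.lattice.smul_mem k hz
  obtain ⟨f', hf'⟩ := h3f
  have hthree : ∀ z : ℂ, 3 * z ∈ L.lattice → Tor (idl (A := A) (B := B) (2 * (f * a))) L z := by
    intro z hz
    apply hTor
    have h11 := hint ((2 * (f' * a) : ℕ) : ℤ) _ hz
    have h12 : ((2 * (f * a) : ℕ) : ℂ) * z = (((2 * (f' * a) : ℕ) : ℤ) : ℂ) * (3 * z) := by
      rw [hf']; push_cast; ring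
    rw [h12]; exact h11
  have hx1 : xnE L w₁ ∈ RFE (idl (A := A) (B := B) (2 * (f * a))) :=
    (c2 _ L hLn).2 _ (hthree _ hw₁) hw₁L
  have hx2 : xnE L w₂ ∈ RFE (idl (A := A) (B := B) (2 * (f * a))) :=
    (c2 _ L hLn).2 _ (hthree _ hw₂) hw₂L
  have heM : e ∈ RFE (idl (A := A) (B := B) (2 * (f * a))) := by
    have h11 : e = xnE L w₁ := by rw [he]; unfold xnE; rfl
    rw [h11]
    exact hx1
  have huM : u ^ 2 ∈ RFE (idl (A := A) (B := B) (2 * (f * a))) := by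
    have h11 : u ^ 2 = xnE L w₂ - xnE L w₁ := by rw [hu2]; unfold xnE; rfl
    rw [h11]
    exact sub_mem hx2 hx1
  -- the points
  have hcop : IsCoprime ((2 ^ (n + 1) : ℕ) : ℤ) (f : ℤ) := by
    rw [Nat.isCoprime_iff_coprime]
    exact Nat.Coprime.pow_left _ ((Nat.Prime.coprime_iff_not_dvd (by norm_num)).2 h2f)
  obtain ⟨α, β, hαβ⟩ := hcop
  push_cast at hαβ
  obtain ⟨P₀, hP₀⟩ : ∃ z, z = (α : ℂ) / (f : ℕ) * om := ⟨_, rfl⟩
  obtain ⟨P₁, hP₁⟩ : ∃ z, z = (β : ℂ) / ((2 ^ (n + 1) : ℕ) : ℂ) * om := ⟨_, rfl⟩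
  obtain ⟨Pt, hPt⟩ : ∃ z, z = om / ((2 ^ (n + 1) * f : ℕ) : ℂ) := ⟨_, rfl⟩
  rw [← hPt]
  have hfc : (f : ℂ) ≠ 0 := by exact_mod_cast hf0
  have h2c : (2 : ℂ) ^ (n + 1) ≠ 0 := pow_ne_zero _ (by norm_num)
  have hsum : P₀ + P₁ = Pt := by
    have h11 : (α : ℂ) * 2 ^ (n + 1) + β * f = 1 := by exact_mod_cast hαβ
    rw [hP₀, hP₁, hPt]
    push_cast
    field_simp
    linear_combination h11
  have hfP₀ : (f : ℂ) * P₀ ∈ L.lattice := by
    have h11 : (f : ℂ) * P₀ = (((f : ℤ) * α : ℤ) : ℂ) / ((f : ℕ) : ℂ) * om := by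
      rw [hP₀]; push_cast; ring
    rw [h11, rat_memE hR hL _ hf0]
    exact dvd_mul_right _ _
  have h2P₀ : 2 * P₀ ∉ L.lattice := by
    have h11 : 2 * P₀ = ((2 * α : ℤ) : ℂ) / ((f : ℕ) : ℂ) * om := by
      rw [hP₀]; push_cast; ring
    rw [h11, rat_memE hR hL _ hf0]
    intro h12
    have h13 : IsCoprime (f : ℤ) α := ⟨β, 2 ^ (n + 1), by linear_combination hαβ⟩
    have h14 := h13.dvd_of_dvd_mul_right h12
    have h15 := Int.le_of_dvd (by norm_num) h14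
    omega
  have hP₀L : P₀ ∉ L.lattice := fun h => h2P₀ (by rw [two_mul]; exact add_mem h h)
  have hP₀E : ¬ InK V L (xu L u e) P₀ := fun h => hP₀L ((t1 f h2f).2 P₀ hfP₀ h)
  have h2P₀E : ¬ InK V L (xu L u e) (2 * P₀) := fun h => h2P₀ ((t1 f h2f).2 _ (by
    have h11 : (f : ℂ) * (2 * P₀) = f * P₀ + f * P₀ := by ring
    rw [h11]; exact add_mem hfP₀ hfP₀) h)
  have h2P₁ : Tor (P ^ (2 * n + 1 + 1)) L P₁ := by
    have h11 : ((2 ^ (n + 1) : ℕ) : ℂ) * P₁ ∈ L.lattice := by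
      have h12 : ((2 ^ (n + 1) : ℕ) : ℂ) * P₁ =
          ((((2 ^ (n + 1) : ℕ) : ℤ) * β : ℤ) : ℂ) / ((2 ^ (n + 1) : ℕ) : ℂ) * om := by
        rw [hP₁]; push_cast; ring
      rw [h12, rat_memE hR hL _ (by positivity)]
      exact dvd_mul_right _ _
    intro x hx
    refine hTor _ _ h11 x ?_
    rw [hC.pw] at hx
    rw [hC.dv]
    rw [show 2 * n + 1 + 1 = (n + 1) * 2 by ring, pow_mul] at hx
    exact le_of_not_gt fun h => absurd hx (not_le.2 (pow_lt_pow_left₀ h zero_le two_ne_zero))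
  obtain ⟨ϖ, hϖ⟩ := hC.pi
  have hv20 : V.valuation (2 : ℂ) ≠ 0 := (Valuation.ne_zero_iff _).2 two_ne_zero
  have hvϖ0 : V.valuation (emb ϖ) ≠ 0 := by
    intro h
    rw [h, zero_pow two_ne_zero] at hϖ
    exact hv20 hϖ.symm
  have hϖ0 : emb ϖ ≠ 0 := (Valuation.ne_zero_iff _).1 hvϖ0
  have hvϖ1 : V.valuation (emb ϖ) < 1 := by
    by_contra h
    have h11 := one_le_pow₀ (not_lt.1 h) (n := 2)
    rw [hϖ] at h11
    exact absurd hv2 (not_lt.2 h11)
  have hβ : V.valuation (β : ℂ) = 1 := by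
    have h11 : ¬ 2 ∣ β.natAbs := by
      intro h12
      have h13 : (2 : ℤ) ∣ β := Int.natCast_dvd.2 h12
      have h14 : (2 : ℤ) ∣ 1 := by
        rw [← hαβ]
        exact dvd_add (Dvd.dvd.mul_left (dvd_pow_self 2 (Nat.succ_ne_zero n)) _)
          (Dvd.dvd.mul_right h13 _)
      omega
    have h12 := hC.nat _ h11
    rcases Int.natAbs_eq β with h13 | h13
    · have h14 : (β : ℂ) = ((β.natAbs : ℕ) : ℂ) := by
        rw [← Int.cast_natCast (R := ℂ), ← h13]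
      rw [h14]; exact h12
    · have h14 : (β : ℂ) = -((β.natAbs : ℕ) : ℂ) := by
        rw [← Int.cast_natCast (R := ℂ), ← Int.cast_neg, ← h13]
      rw [h14, Valuation.map_neg]; exact h12
  have h2P₁' : ¬ Tor (P ^ (2 * n + 1)) L P₁ := by
    intro h11
    have h12 : ((2 ^ n : ℕ) : OO A B) * ϖ ∈ P ^ (2 * n + 1) := by
      rw [hC.pw, hmul, hnat, map_mul, mul_pow, hϖ]
      push_cast
      rw [map_pow, ← pow_mul, ← pow_succ, mul_comm n 2]
    obtain ⟨c, -, hc⟩ := (hL.mem _).1 (h11 _ h12)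
    have h13 : (2 : ℂ) ^ n * emb ϖ * β = 2 ^ (n + 1) * emb c := by
      rw [hmul, hnat, hP₁] at hc
      have h14 : (2 : ℂ) ^ n * emb ϖ * ((β : ℂ) / 2 ^ (n + 1)) = emb c := by
        apply mul_right_cancel₀ hom0
        push_cast at hc
        linear_combination hc
      rw [← h14]
      field_simp
    have h14 := congrArg V.valuation h13
    simp only [map_mul, map_pow, hβ, mul_one] at h14
    rw [pow_succ, mul_assoc] at h14
    have h15 : V.valuation (emb ϖ) = V.valuation (2 : ℂ) * V.valuation (emb c) :=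
      mul_left_cancel₀ (pow_ne_zero n hv20) h14
    have h16 : V.valuation (emb ϖ) ≤ V.valuation (2 : ℂ) := by
      rw [h15]; exact mul_le_of_le_one_right' (hC.int c)
    have h17 : V.valuation (2 : ℂ) ≤ V.valuation (emb ϖ) * V.valuation (2 : ℂ) := by
      calc V.valuation (2 : ℂ) = V.valuation (emb ϖ) * V.valuation (emb ϖ) := by
            rw [← hϖ, pow_two]
        _ ≤ _ := mul_le_mul_right h16 _
    have h18 : V.valuation (emb ϖ) * V.valuation (2 : ℂ) < V.valuation (2 : ℂ) :=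
      mul_lt_of_lt_one_left (zero_lt_iff.2 hv20) hvϖ1
    exact absurd h17 (not_le.2 h18)
  obtain ⟨hP₁E, hP₁L, hP₁v⟩ := h3 A B P V hC (2 * n + 1) L u e a1 a3 hLn hgood P₁ h2P₁ h2P₁'
  obtain ⟨hPE, hnr, -, -⟩ := Pool.Agent.MUX2.gnear G hP₀E hP₁E hP₁L
  have hDX := Pool.Agent.MUX2.gv_DX G hP₀E h2P₀E
  rw [hsum] at hPE hnr
  have hPL : Pt ∉ L.lattice := fun h => hPE (Or.inl h)
  -- the uniformiser
  obtain ⟨π, hπ⟩ : ∃ z, z = xu L u e Pt - xu L u e P₀ := ⟨_, rfl⟩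
  have hsq : ∀ x y : V.ValueGroup, x ^ 2 = y ^ 2 → x = y := fun x y h =>
    (pow_left_inj₀ zero_le zero_le two_ne_zero).1 h
  have h4 : ∀ x y : V.ValueGroup, x ^ 4 = y ^ 4 → x = y := fun x y h =>
    (pow_left_inj₀ zero_le zero_le (by norm_num)).1 h
  obtain ⟨p, hp⟩ : ∃ p : ℂ, p ^ 4 = 2 := IsAlgClosed.exists_pow_nat_eq 2 (by norm_num)
  have hvp : V.valuation p ^ 4 = V.valuation (2 : ℂ) := by rw [← map_pow, hp]
  have hp0 : p ≠ 0 := by
    rintro rfl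
    rw [zero_pow (by norm_num)] at hp
    exact two_ne_zero hp.symm
  have hvp1 : V.valuation p < 1 := by
    by_contra h
    have h11 := one_le_pow₀ (not_lt.1 h) (n := 4)
    rw [hvp] at h11
    exact absurd hv2 (not_lt.2 h11)
  have hvπ : V.valuation π ^ (4 ^ n) = V.valuation p := by
    obtain ⟨h12, h12', -⟩ := Pool.Agent.MUX2.gv_tX_lt G hP₁E hP₁L
    have h13 : V.valuation (tX (xu L u e) (yt L u e a1 a3) P₁) ^ 2 <
        V.valuation (tX (xu L u e) (yt L u e a1 a3) P₁) := by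
      rw [pow_two]
      exact mul_lt_of_lt_one_right (zero_lt_iff.2 h12') h12
    rw [← hπ] at hnr
    have h14 : V.valuation ((2 * yt L u e a1 a3 P₀ + (WT a1 a3).a₁ * xu L u e P₀ +
        (WT a1 a3).a₃) * tX (xu L u e) (yt L u e a1 a3) P₁) =
        V.valuation (tX (xu L u e) (yt L u e a1 a3) P₁) := by
      rw [map_mul, hDX, one_mul]
    have h15 : V.valuation π = V.valuation (tX (xu L u e) (yt L u e a1 a3) P₁) := by
      have h16 := Valuation.map_add_eq_of_lt_left V.valuation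
        (x := (2 * yt L u e a1 a3 P₀ + (WT a1 a3).a₁ * xu L u e P₀ +
          (WT a1 a3).a₃) * tX (xu L u e) (yt L u e a1 a3) P₁)
        (y := π - (2 * yt L u e a1 a3 P₀ + (WT a1 a3).a₁ * xu L u e P₀ +
          (WT a1 a3).a₃) * tX (xu L u e) (yt L u e a1 a3) P₁)
        (by rw [h14]; exact lt_of_le_of_lt hnr h13)
      rw [add_sub_cancel, h14] at h16
      exact h16
    rw [h15]
    apply h4
    rw [hvp, ← hP₁v, ← pow_mul]
    congr 1
    rw [show (4 : ℕ) = 2 ^ 2 by norm_num, ← pow_mul]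
    ring
  have hTorPt : Tor (idl (A := A) (B := B) (2 ^ (n + 1) * f * a)) L Pt := by
    refine hTor _ _ ?_
    have h11 : ((2 ^ (n + 1) * f * a : ℕ) : ℂ) * Pt = ((a : ℤ) : ℂ) / ((1 : ℕ) : ℂ) * om := by
      rw [hPt]; push_cast; field_simp
    rw [h11, rat_memE hR hL _ one_ne_zero]
    exact ⟨a, by simp⟩
  have hTorPt2 : Tor (idl (A := A) (B := B) (2 ^ (n + 2) * f * a)) L Pt := by
    refine hTor _ _ ?_
    have h11 : ((2 ^ (n + 2) * f * a : ℕ) : ℂ) * Pt =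
        ((2 * a : ℤ) : ℂ) / ((1 : ℕ) : ℂ) * om := by
      rw [hPt]; push_cast; field_simp; ring
    rw [h11, rat_memE hR hL _ one_ne_zero]
    exact ⟨2 * a, by simp⟩
  have hPM : xnE L Pt ∈ RFE (idl (A := A) (B := B) (2 ^ (n + 1) * f * a)) :=
    (c2 _ L hLn).2 _ hTorPt hPL
  have hP₀M : xnE L P₀ ∈ RFE (idl (A := A) (B := B) (2 * (f * a))) := by
    refine (c2 _ L hLn).2 _ (hTor _ _ ?_) hP₀L
    have h11 : ((2 * (f * a) : ℕ) : ℂ) * P₀ = ((2 * a : ℤ) : ℂ) * (f * P₀) := by push_cast; ring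
    rw [h11]
    exact hint _ _ hfP₀
  have hxx : ∀ z : ℂ, xu L u e z = (xnE L z - e) / u ^ 2 := by
    intro z; unfold xu xnE; rfl
  have hx0M : xu L u e P₀ ∈ RFE (idl (A := A) (B := B) (2 * (f * a))) := by
    rw [hxx]
    exact div_mem (sub_mem hP₀M heM) huM
  have hxPM : xu L u e Pt ∈ RFE (idl (A := A) (B := B) (2 ^ (n + 1) * f * a)) := by
    rw [hxx]
    exact div_mem (sub_mem hPM (hle heM)) (hle huM)
  have hπM : π ∈ RFE (idl (A := A) (B := B) (2 ^ (n + 1) * f * a)) := by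
    rw [hπ]; exact sub_mem hxPM (hle hx0M)
  have := hG.fin _ (hne _ (Nat.mul_ne_zero two_ne_zero hfa0))
  have := hG.fin _ (hne _ hm0')
  have hdeg := h5 A B P V hC hG n (f * a) hfa0 h2fa
  rw [← mul_assoc (2 ^ (n + 1)) f a] at hdeg
  have hval : ∀ y ∈ RFE (idl (A := A) (B := B) (2 * (f * a))), y ≠ 0 →
      ∃ k : ℤ, V.valuation y = V.valuation p ^ k := by
    intro y hy hy0
    obtain ⟨k, hk⟩ := hU A B P V hC hT (f * a) hfa0 h2fa y hy hy0
    refine ⟨k, h4 _ _ ?_⟩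
    rw [hk, ← hvp, ← zpow_natCast, ← zpow_natCast, ← zpow_mul, ← zpow_mul, mul_comm]
  obtain ⟨c, hc1, hc2⟩ := Pool.Agent.NSE.te_BAS (kk A B) ℂ V.ValueGroup V.valuation
    (RFE (idl (A := A) (B := B) (2 * (f * a)))) (RFE (idl (A := A) (B := B) (2 ^ (n + 1) * f * a)))
    (4 ^ n) p π hle (by positivity) hdeg hp0 hvp1 hval hπM hvπ w hw hvw
  -- the function
  have hvx0 : V.valuation (xu L u e P₀) ≤ 1 := (Pool.Agent.MUXV.int_X hP₀E).2
  obtain ⟨Pol, hPol⟩ : ∃ Q : ℂ[X], Q = ∑ i : Fin (4 ^ n),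
    C ((c i : ℂ)) * (X - C (xu L u e P₀)) ^ (i : ℕ) := ⟨_, rfl⟩
  have hPolI : IntP V Pol := by
    rw [hPol]; exact intP_sum _ _ hc1 hvx0
  have hPolE : ∀ t : ℂ, Pol.eval t =
      ∑ i : Fin (4 ^ n), (c i : ℂ) * (t - xu L u e P₀) ^ (i : ℕ) := by
    intro t
    rw [hPol, eval_finsetSum]
    refine Finset.sum_congr rfl fun i _ => ?_
    simp
  have hPolw : w = Pol.eval (xu L u e Pt) := by rw [hPolE, ← hπ, ← hc2]
  refine ⟨Pol, hPolI, hPolw, ?_⟩
  intro x s hs hx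
  have hsM : ∀ y ∈ RFE (idl (A := A) (B := B) (2 * (f * a))), s y = y := hs.triv _ hmm2 hmm3 hx
  have hsx : s (xu L u e Pt) = xu L u e (emb x * Pt) := by
    rw [hxx, map_div₀, map_sub, (hs.xnE L hLn Pt hTorPt2 hPL).2, hsM _ heM,
      hsM _ huM, ← hxx]
  rw [hPolw, hPolE, hPolE, map_sum]
  refine Finset.sum_congr rfl fun i _ => ?_
  rw [map_mul, map_pow, map_sub, hsM _ (c i).2, hsx, hsM _ hx0M]

end

end Pool.Agent.ME2F


end
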