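import Mathlib
import Pool.Agent.MVF.C147

/-! Parts: ME2.F4_XXS, ME2.Kap4 -/

section

/-!
# MUX-2R, block ER2, module XXS: stability of the sets `XXE` (helper72)

Port of `Pool/Agent/N2/E_XXS.lean` (helper96).
-/

set_option autoImplicit false

namespace Pool.Agent.ME2F

open _root_.MU3 _root_.Pool.Agent.MU3A _root_.Pool.Agent.MU3B _root_.Pool.Agent.MUX _root_.Pool.Agent.MUXU
open _root_.Pool.Agent.RI _root_.Pool.Agent.NS
open _root_.Pool.Agent.ME hiding ActE
open _root_.Pool.Agent.MEE _root_.Pool.Agent.ME2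
open _root_.Pool.Agent.MUXE (RingE)
open _root_.Pool.Agent.N2 (GoodQ OddQ dR et yt WT PTq)
open _root_.Pool.Agent.N2E (dlg cc Sd_LAG Sd_PRD)
open _root_.Pool.Agent.N2V (IsoU NN w0 bb Sv_COE Sv_GRT Sv_UNT Sv_RAT Sv_THT Sv_NE1 Sv_PVI Sv_TWO Sv_DS2)
open _root_.Pool.Agent.ME2E (AutCE Sy_AUT Sy_GTA)
open _root_.Pool.Agent.ME2E.XXS (pt_cong pt_mul cop_of)

noncomputable section

/-- (XXS) stability of `XXE` under `-1` and under `c` -/
theorem t4_XXS : S4_XXS := by
  intro A B P V n f a m m' hS ι R D h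
  letI := algC h
  intro τ q hq
  have hr := hS.ctx.ring
  have hf : f ≠ 0 := by have := hS.f3; omega
  have hm0 : m ≠ 0 := by rw [hS.hm]; positivity
  have h2f : 2 * f ≠ 0 := by omega
  have hNL : NLE A B (R.L q.1) := ⟨R.b q.1, R.om q.1, R.nl q.1⟩
  obtain ⟨t1, -, t3, -, t5, -, -, -, t9⟩ := tm_TRA A B hr (R.L q.1) hNL
  obtain ⟨φ, hφ⟩ := hr.hom
  obtain ⟨a1, σ, a2, a3, ⟨a4, a5, a6⟩⟩ := hq
  refine ⟨?_, ?_⟩
  · -- `-1`
    have hmk : -(Quotient.out q.2 : OO A B) - Quotient.out (-q.2) ∈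
        idl (A := A) (B := B) m := by
      rw [← Ideal.Quotient.eq_zero_iff_mem, map_sub, map_neg, Ideal.Quotient.mk_out,
        Ideal.Quotient.mk_out]
      exact sub_self _
    refine ⟨cop_of a1.neg_left hmk, σ, a2, a3, a4, ?_⟩
    have e1 := pt_cong hr R h2f q.1 hm0 hmk
    have e2 : ptE R m q.1 (-(Quotient.out q.2 : OO A B)) = -ptE R m q.1 (Quotient.out q.2) := by
      unfold ptE
      rw [← hφ, ← hφ, map_neg]
      ring
    rw [e2] at e1
    have hnz : -(ptE R m q.1 (Quotient.out q.2 : OO A B)) ∉ (R.L q.1).lattice :=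
      fun h => a6 (by simpa using neg_mem h)
    obtain ⟨b1, b2⟩ := t9 _ _ e1
    obtain ⟨c1, -, c3⟩ := b2 hnz
    refine ⟨?_, fun h => hnz (b1.2 h)⟩
    rw [a5, ← c1, ← c3, neg_neg]
  · intro c s hc hs hsD
    have hmk : c * (Quotient.out q.2 : OO A B) -
        Quotient.out (Ideal.Quotient.mk (idl (A := A) (B := B) m) c * q.2) ∈
        idl (A := A) (B := B) m := by
      rw [← Ideal.Quotient.eq_zero_iff_mem, map_sub, map_mul, Ideal.Quotient.mk_out,
        Ideal.Quotient.mk_out]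
      exact sub_self _
    refine ⟨cop_of (hc.mul_left a1) hmk, σ.trans s, ?_, ?_, ?_, ?_⟩
    · show s (σ (wC A B)) = wC A B
      rw [show σ (wC A B) = wC A B from a2]
      exact hs.fix
    · intro y
      show s (σ (y : ℂ)) = _
      rw [a3 y]
      exact hsD _ (τ y).2
    · show kapE (R.L q.1) = s (σ (kapE (R.L R.i0)))
      rw [← a4]
      exact (hs.kapE _ hNL).symm
    · have hma : Tor (idl (A := A) (B := B) (m * a)) (R.L q.1)
          (ptE R m q.1 (Quotient.out q.2 : OO A B)) := by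
        rw [show idl (A := A) (B := B) (m * a) = sp ((m * a : ℕ) : OO A B) from rfl, t5]
        have e3 : emb ((m * a : ℕ) : OO A B) = (a : ℂ) * m := by
          rw [← hφ, map_natCast]
          push_cast
          ring
        rw [e3, mul_assoc]
        have h7 := nsmul_mem (pt_mul hr R h2f q.1 hm0 (Quotient.out q.2 : OO A B)) a
        rwa [nsmul_eq_mul] at h7
      obtain ⟨d1, d2⟩ := hs.xnE _ hNL _ hma a6
      have e1 := pt_cong hr R h2f q.1 hm0 hmk
      have e2 : ptE R m q.1 (c * (Quotient.out q.2 : OO A B)) =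
          emb c * ptE R m q.1 (Quotient.out q.2) := by
        unfold ptE
        rw [← hφ, ← hφ, ← hφ, map_mul]
        ring
      rw [e2] at e1
      obtain ⟨b1, b2⟩ := t9 _ _ e1
      obtain ⟨c1, -, -⟩ := b2 d1
      refine ⟨?_, fun h => d1 (b1.2 h)⟩
      show s (σ (xnE (R.L R.i0) (ptE R m R.i0 1))) = _
      rw [a5, d2, c1]

end

end Pool.Agent.ME2F


end

section

/-!
# ME2 (helper77): `T4_KAP`: the character modulo `2 + i`, level 15
-/

set_option autoImplicit false

namespace Pool.Agent.ME2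

open _root_.MU3 _root_.Pool.Agent.MU3A _root_.Pool.Agent.MU3B _root_.Pool.Agent.RI _root_.Pool.Agent.MUX _root_.Pool.Agent.ME

noncomputable section

namespace Kap4

/-- the quartic character of `(ℤ/5)^*` with values in `ℤ[i]`, `χ (-2) = i` -/
def chi (t : ZMod 5) : OO (-1) 0 :=
  if t = 1 then ⟨1, 0⟩ else if t = 3 then ⟨0, 1⟩ else if t = 4 then ⟨-1, 0⟩ else
    if t = 2 then ⟨0, -1⟩ else ⟨0, 0⟩

lemma chi_mul : ∀ s t : ZMod 5, chi (s * t) = chi s * chi t := by
  decide

lemma chi_one : chi 1 = 1 := rfl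

lemma chi_pow : ∀ s : ZMod 5, s ≠ 0 → chi s ^ 4 = 1 := by
  decide

/-- reduction modulo `2 + i` -/
def red (x : OO (-1) 0) : ZMod 5 := (x.re : ZMod 5) - 2 * (x.im : ZMod 5)

lemma red_one : red 1 = 1 := rfl

lemma red_mul (x y : OO (-1) 0) : red (x * y) = red x * red y := by
  unfold red
  rw [QuadraticAlgebra.re_mul, QuadraticAlgebra.im_mul]
  push_cast
  have h5 : (5 : ZMod 5) = 0 := rfl
  linear_combination -(x.im : ZMod 5) * y.im * h5

lemma red_add (x y : OO (-1) 0) : red (x + y) = red x + red y := by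
  unfold red
  rw [QuadraticAlgebra.re_add, QuadraticAlgebra.im_add]
  push_cast
  ring

lemma red_idl {x : OO (-1) 0} (hx : x ∈ idl (A := -1) (B := 0) 15) : red x = 0 := by
  obtain ⟨y, rfl⟩ := Ideal.mem_span_singleton.1 hx
  rw [red_mul]
  have : red (((15 : ℕ) : OO (-1) 0)) = 0 := rfl
  rw [this, zero_mul]

lemma unit_cases {z : OO (-1) 0} (hC : CQ (-1) 0) (hz : IsUnit z) :
    z = ⟨1, 0⟩ ∨ z = ⟨-1, 0⟩ ∨ z = ⟨0, 1⟩ ∨ z = ⟨0, -1⟩ := by
  obtain ⟨y, hy⟩ := hz.exists_right_inv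
  have h1 : nm z * nm y = 1 := by
    rw [← nm_mul hC, hy]
    rfl
  have h2 : nm z = z.re * z.re + z.im * z.im := by
    unfold nm
    ring
  have h3 : nm z = 1 := by
    have h4 : 0 ≤ nm z := by
      rw [h2]
      nlinarith [mul_self_nonneg z.re, mul_self_nonneg z.im]
    exact Int.eq_one_of_mul_eq_one_right h4 h1
  rw [h2] at h3
  have h5 : z.re ≤ 1 := by nlinarith
  have h6 : -1 ≤ z.re := by nlinarith
  have h7 : z.im ≤ 1 := by nlinarith
  have h8 : -1 ≤ z.im := by nlinarith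
  have e : ∀ a b : ℤ, z.re = a → z.im = b → z = ⟨a, b⟩ := fun a b h h' =>
    QuadraticAlgebra.ext h h'
  have h9 : z.re = -1 ∨ z.re = 0 ∨ z.re = 1 := by omega
  have h10 : z.im = -1 ∨ z.im = 0 ∨ z.im = 1 := by omega
  rcases h9 with h9 | h9 | h9 <;> rcases h10 with h10 | h10 | h10 <;> rw [h9, h10] at h3 <;>
    first
    | (exfalso; revert h3; decide)
    | exact Or.inl (e _ _ h9 h10)
    | exact Or.inr (Or.inl (e _ _ h9 h10))
    | exact Or.inr (Or.inr (Or.inl (e _ _ h9 h10)))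
    | exact Or.inr (Or.inr (Or.inr (e _ _ h9 h10)))

end Kap4

theorem t4_KAP : T4_KAP := by
  intro A B h hB
  have hA := h.hA
  subst hA
  subst hB
  have hC := h.toCQ
  refine ⟨15, by norm_num, by norm_num, ?_, fun x => emb (Kap4.chi (Kap4.red x)), ?_⟩
  · have : absD (-1) 0 = 4 := rfl
    rw [this]
    norm_num
  · constructor
    · rw [Kap4.red_one, Kap4.chi_one, Pool.Agent.MUX.emb_one hC]
    · intro x y
      rw [Kap4.red_mul, Kap4.chi_mul, Pool.Agent.MUX.emb_mul hC]
    · intro z hz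
      rcases Kap4.unit_cases hC hz with rfl | rfl | rfl | rfl
      · rfl
      · rfl
      · rfl
      · rfl
    · intro x y hxy
      have h1 := Kap4.red_idl hxy
      have h2 : Kap4.red x = Kap4.red y := by
        have h3 := Kap4.red_add (x - y) y
        rw [sub_add_cancel, h1, zero_add] at h3
        exact h3
      rw [h2]
    · intro x hx
      have hr : Kap4.red x ≠ 0 := by
        intro h0
        obtain ⟨p, hp, q, hq, hpq⟩ := Ideal.isCoprime_iff_exists.1 hx
        obtain ⟨t, rfl⟩ := Ideal.mem_span_singleton'.1 hp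
        have h3 := Kap4.red_add (t * x) q
        rw [hpq, Kap4.red_mul, h0, Kap4.red_idl hq, mul_zero, add_zero, Kap4.red_one] at h3
        exact absurd h3 (by decide)
      rw [← Pool.Agent.MUX.emb_pow hC, Kap4.chi_pow _ hr, Pool.Agent.MUX.emb_one hC]

end

end Pool.Agent.ME2


end
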