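import Mathlib
import Pool.Agent.MVF.C144
import Pool.Agent.MVF.C187

/-! Parts: ME2.G_GPT4b, ME2.H_Hfin4 -/

section

/-!
# ME2, block G (helper6): `T4_GPT` (`p = 2`, `D = -4`)
-/

set_option autoImplicit false

namespace Pool.Agent.MEG

open _root_.MU3 _root_.Pool.Agent.MUX _root_.Pool.Agent.MuSym _root_.Pool.Agent.NS _root_.Pool.Agent.N2 OnePoint
open _root_.Pool.Agent.ME hiding ActE

/-- (GPT) `p = 2`, `D = -4` -/
theorem g_GPT4Q : Pool.Agent.ME2.T4_GPT := by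
  intro A B P V f hST hT ι _ R u el a1 a3 hg e he r hr her kk hkk N' hN' hNd
  obtain ⟨a, b, c, d, m1, m2, m3, m4⟩ := gptQ4 (n := 2 * f) hST.case hT hST.hP hST.hV (by
    have := Nat.pos_of_ne_zero hST.f0
    omega) (Dvd.intro _ rfl) R hg he hr her hkk hN' hNd
  refine ⟨a, b, c, d, m1, m2, m3, ?_⟩
  have hrE : (rE A B : ℂ) = 2 := by
    have h3 : rE A B = 2 := by
      unfold rE
      rw [hST.hB]
      rfl
    rw [h3]
    rfl
  rw [hrE] at m4
  exact m4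

end Pool.Agent.MEG


end

section

/-!
# ME2, block H, `p = 2`, `D = -4` (helper41): the character sums (after `N2/U_QSU.lean`, `U_Sym.lean`, `U_Hyp.lean`, `U_Hfin.lean`)
-/

set_option autoImplicit false

namespace Pool.Agent.ME2H

open _root_.MU3 _root_.Pool.Agent.MU3A _root_.Pool.Agent.MU3B _root_.Pool.Agent.MU3F _root_.Pool.Agent.MUX _root_.Pool.Agent.MUXH
  _root_.Pool.Agent.MUXHY _root_.Pool.Agent.MuSym _root_.Pool.Agent.NS _root_.Pool.Agent.N2 _root_.Pool.Agent.N2H _root_.Pool.Agent.N2U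
  _root_.Pool.Agent.MEH OnePoint
open _root_.Pool.Agent.ME hiding ActE
open _root_.Pool.Agent.ME2 (SetT4 OddF4 T4_GPT T4_TYF T4_HFIN)
open scoped ComplexConjugate

noncomputable section

/-- the sum over norms is zero if no norm is in the class -/
theorem SnXE_zero {A B : ℤ} {n : ℕ} {ι : Type} (R : RepsE A B n ι) (m M : ℕ) (e : OO A B → ℂ)
    (i : ι) (c d : ℤ) (hd : d ∣ (M : ℤ))
    (h : ∀ x : OO A B, e x ≠ 0 → ¬ d ∣ nm x * nI (R.b i) - c) : SnXE R m M e i c = 0 := by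
  unfold SnXE sumMod
  rw [show (fun q : OO A B ⧸ Ideal.span {((m : ℕ) : OO A B)} =>
      (if (M : ℤ) ∣ nm (Quotient.out q) * nI (R.b i) - c then
        e (Quotient.out q) * ee (R.L i) (ptE R m i (Quotient.out q)) else 0)) = fun _ => 0 from ?_]
  · simp
  · funext q
    split_ifs with h1
    · by_cases h2 : e (Quotient.out q) = 0
      · rw [h2, zero_mul]
      · exact absurd (hd.trans h1) (h _ h2)
    · rfl

open Qsx _root_.Pool.Agent.MU3H.Qs in
/-- (QSU) the quantity of the final statement as a character sum, for any `u = 1` modulo `8` and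
the two parts `kP`, `kM` of the weights: `kk_i = kP_i` if classes `c = 1` modulo `8` occur as
`N(x) N(b_i)`, `kk_i = kM_i` if classes `c = -1` occur. -/
theorem qsuE (h1 : MUXF.Sx_F5) (h2 : MUXF.Sx_PRD) {A B : ℤ} (hC : CQ A B) {f : ℕ} (hf : f ≠ 0)
    {ι : Type} [Fintype ι] (R : RepsE A B (2 * f) ι) {g : Ideal (OO A B)} {e : OO A B → ℂ}
    (he : IsEI g e) (hg : ((2 * f : ℕ) : OO A B) ∈ g) (kk kP kM : ι → ℂ) (N n : ℕ) {u : ℤ}
    (hu : (8 : ℤ) ∣ u - 1)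
    (hP : ∀ (i : ι) (c : ℤ), (8 : ℤ) ∣ c - 1 →
      kk i * SnXE R (lvX 2 f n) (q0 2 * 2 ^ n) e i c = kP i * SnXE R (lvX 2 f n) (q0 2 * 2 ^ n) e i c)
    (hM : ∀ (i : ι) (c : ℤ), (8 : ℤ) ∣ c - 1 →
      kk i * SnXE R (lvX 2 f n) (q0 2 * 2 ^ n) e i (-c) =
        kM i * SnXE R (lvX 2 f n) (q0 2 * 2 ^ n) e i (-c)) :
    ∑ j ∈ Finset.range (N + 1), ((-1 : ℂ) ^ (N - j) * (N.choose j : ℂ)) *
        (STXE R (lvX 2 f n) (q0 2 * 2 ^ n) (aX 2 f) e kk (u ^ j) +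
          STXE R (lvX 2 f n) (q0 2 * 2 ^ n) (aX 2 f) e kk (-u ^ j)) =
      2 * f * ∑ b ∈ Finset.range (q0 2 * 2 ^ n),
        ex (((-(u ^ N * (aX 2 f : ℤ) ^ 2) : ℤ) : ℚ) / ((q0 2 * 2 ^ n : ℕ) : ℚ)) ^ b *
          comb (aX 2 f) u N (fun b =>
            PPE R e kP ∞ ((b / ((q0 2 * 2 ^ n : ℕ) : ℚ) : ℚ) : OnePoint ℚ) +
            PPE R e kM (mob (-1) 0 0 1 ∞)
              (mob (-1) 0 0 1 ((b / ((q0 2 * 2 ^ n : ℕ) : ℚ) : ℚ) : OnePoint ℚ))) b := by
  have hp : Nat.Prime 2 := Nat.prime_two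
  have hMdef : q0 2 * 2 ^ n ≠ 0 := mul_ne_zero (q0_ne hp) (pow_ne_zero _ hp.ne_zero)
  have hSnX := fun i c => SnXE_eq h1 hC hp hf R he hg n i c
  have hodd : ∀ u : ℤ, (8 : ℤ) ∣ u - 1 → IsCoprime u ((q0 2 * 2 ^ n : ℕ) : ℤ) := by
    intro u hu
    have h3 : IsCoprime u (2 : ℤ) := by
      obtain ⟨t, ht⟩ := hu
      exact ⟨1, -(4 * t), by linear_combination ht⟩
    have h4 : ((q0 2 * 2 ^ n : ℕ) : ℤ) = 2 ^ (n + 2) := by
      unfold q0
      push_cast
      norm_num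
      ring
    rw [h4]
    exact h3.pow_right
  have ha8 : (8 : ℤ) ∣ (aX 2 f : ℤ) - 1 := by
    refine ⟨f, ?_⟩
    unfold aX q0
    push_cast
    norm_num
  have hmul8 : ∀ x y : ℤ, (8 : ℤ) ∣ x - 1 → (8 : ℤ) ∣ y - 1 → (8 : ℤ) ∣ x * y - 1 := by
    intro x y hx hy
    have h1 : x * y - 1 = (x - 1) * y + (y - 1) := by ring
    rw [h1]
    exact dvd_add (Dvd.dvd.mul_right hx y) hy
  have hpow8 : ∀ j : ℕ, (8 : ℤ) ∣ u ^ j - 1 := by
    intro j
    have := sub_dvd_pow_sub_pow u 1 j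
    rw [one_pow] at this
    exact hu.trans this
  generalize hMM : q0 2 * 2 ^ n = M at *
  have : NeZero M := ⟨hMdef⟩
  have hMQ : (M : ℚ) ≠ 0 := Nat.cast_ne_zero.2 hMdef
  set FP : ℤ → ℂ := fun b => PPE R e kP ∞ ((b / (M : ℚ) : ℚ) : OnePoint ℚ) with hFPdef
  set FM : ℤ → ℂ := fun b => PPE R e kM ∞ ((b / (M : ℚ) : ℚ) : OnePoint ℚ) with hFMdef
  set Q : ℤ → ℂ := fun b => PPE R e kP ∞ ((b / (M : ℚ) : ℚ) : OnePoint ℚ) +
            PPE R e kM (mob (-1) 0 0 1 ∞)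
              (mob (-1) 0 0 1 ((b / (M : ℚ) : ℚ) : OnePoint ℚ)) with hQdef
  set E : ℤ → ℂ := fun k => ex (k / (M : ℚ)) with hEdef
  have hPF : ∀ b : ℤ, Q b = FP b + FM (-b) := by
    intro b
    simp only [hQdef, hFPdef, hFMdef]
    rw [mob_inf, mob_neg]
    congr 4
    push_cast
    ring
  have hper : ∀ (k' : ι → ℂ) (b k : ℤ),
      PPE R e k' ∞ (((b + M * k : ℤ) / (M : ℚ) : ℚ) : OnePoint ℚ) =
        PPE R e k' ∞ ((b / (M : ℚ) : ℚ) : OnePoint ℚ) := by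
    intro k' b k
    have h := PPE_per h2 hC R e k' (b / (M : ℚ)) k
    rw [← h]
    congr 3
    push_cast
    field_simp
  have hQper : ∀ b k : ℤ, Q (b + M * k) = Q b := by
    intro b k
    rw [hPF, hPF]
    congr 1
    · exact hper kP b k
    · have := hper kM (-b) (-k)
      simp only [hFMdef]
      rw [← this]
      congr 3
      push_cast
      ring
  have hEadd : ∀ k l : ℤ, E (k + l) = E k * E l := by
    intro k l
    simp only [hEdef]
    rw [← ex_add]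
    congr 1
    push_cast
    ring
  have hEq : ∀ k : ℤ, E (M * k) = 1 := by
    intro k
    simp only [hEdef]
    rw [← ex_int k]
    congr 1
    push_cast
    field_simp
  have hEper : ∀ b k : ℤ, E (b + M * k) = E b := by
    intro b k
    rw [hEadd, hEq, mul_one]
  -- the transform
  have hSn : ∀ (k' : ι → ℂ) (c : ℤ), ∑ i, k' i * SnXE R (lvX 2 f n) M e i c =
      (2 * f) * ∑ b ∈ Finset.range M, E (-(b * c)) *
        PPE R e k' ∞ ((((b : ℕ) : ℤ) / (M : ℚ) : ℚ) : OnePoint ℚ) := by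
    intro k' c
    have h3 : ∀ i, k' i * SnXE R (lvX 2 f n) M e i c = ∑ b ∈ Finset.range M, (2 * f) *
        (E (-(b * c)) * (k' i / e ((nI (R.b i) : ℕ) : OO A B) *
          PhiI (R.b i) e ∞ ((((b : ℕ) : ℤ) / (M : ℚ) : ℚ) : OnePoint ℚ) / R.om R.i0)) := by
      intro i
      rw [hSnX i c, Finset.mul_sum, Finset.mul_sum, Finset.mul_sum]
      refine Finset.sum_congr rfl fun b _ => ?_
      have h4 : E (-(b * c)) = ex (-(b * c) / (M : ℚ)) := by
        simp only [hEdef]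
        push_cast
        rfl
      rw [h4, Int.cast_natCast]
      ring
    rw [Finset.sum_congr rfl (fun i _ => h3 i), Finset.sum_comm, Finset.mul_sum]
    refine Finset.sum_congr rfl fun b _ => ?_
    rw [← Finset.mul_sum, ← Finset.mul_sum, ← Finset.sum_div]
    congr 2
  have hneg : ∀ c : ℤ, ∑ b ∈ Finset.range M, E (-(b * (-c))) * FM b =
      ∑ b ∈ Finset.range M, E (-(b * c)) * FM (-b) := by
    intro c
    have hG : ∀ b k : ℤ, (fun b : ℤ => E (-(b * (-c))) * FM b) (b + M * k) =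
        (fun b : ℤ => E (-(b * (-c))) * FM b) b := by
      intro b k
      show E (-((b + M * k) * (-c))) * FM (b + M * k) = E (-(b * (-c))) * FM b
      have : FM (b + M * k) = FM b := hper kM b k
      rw [this, show -((b + M * k) * (-c)) = -(b * (-c)) + M * (k * c) by ring, hEper]
    have h := sum_mul (G := fun b : ℤ => E (-(b * (-c))) * FM b) hG (u := -1)
      (by exact (isCoprime_one_left).neg_left)
    rw [← h]
    refine Finset.sum_congr rfl (fun b _ => ?_)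
    show E (-((-1 * (b : ℤ)) * (-c))) * FM (-1 * (b : ℤ)) = _
    rw [show -((-1 * (b : ℤ)) * (-c)) = -(b * c) by ring, show -1 * (b : ℤ) = -b by ring]
  have hSW : ∀ c : ℤ, (8 : ℤ) ∣ c - 1 → ∑ i, kk i * SnXE R (lvX 2 f n) M e i c +
      ∑ i, kk i * SnXE R (lvX 2 f n) M e i (-c) =
      (2 * f) * ∑ b ∈ Finset.range M, E (-(b * c)) * Q b := by
    intro c hc
    rw [Finset.sum_congr rfl (fun i _ => hP i c hc), Finset.sum_congr rfl (fun i _ => hM i c hc),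
      hSn kP c, hSn kM (-c)]
    have h5 := hneg c
    simp only [hFMdef] at h5
    rw [h5, ← mul_add, ← Finset.sum_add_distrib]
    congr 1
    refine Finset.sum_congr rfl (fun b _ => ?_)
    rw [hPF, mul_add]
  have ha2 : (8 : ℤ) ∣ (aX 2 f : ℤ) ^ 2 - 1 := by rw [sq]; exact hmul8 _ _ ha8 ha8
  refine qs_gen hMdef (hodd _ ha8) (hodd _ hu) N Q hQper (2 * f) (fun j =>
    STXE R (lvX 2 f n) M (aX 2 f) e kk (u ^ j) + STXE R (lvX 2 f n) M (aX 2 f) e kk (-u ^ j)) ?_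
  intro j _
  have e0 : ∀ c, STXE R (lvX 2 f n) M (aX 2 f) e kk c =
      ((aX 2 f : ℕ) : ℂ) * ∑ i, kk i * SnXE R (lvX 2 f n) M e i ((aX 2 f : ℤ) ^ 2 * c) -
        ((aX 2 f : ℕ) : ℂ) ^ 2 * ∑ i, kk i * SnXE R (lvX 2 f n) M e i c := by
    intro c
    unfold STXE
    rw [Finset.mul_sum, Finset.mul_sum, ← Finset.sum_sub_distrib]
    refine Finset.sum_congr rfl fun i _ => ?_
    ring
  have e1 := hSW (u ^ j) (hpow8 j)
  have e2 := hSW ((aX 2 f : ℤ) ^ 2 * u ^ j) (hmul8 _ _ ha2 (hpow8 j))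
  simp only [hEdef] at e1 e2
  beta_reduce
  rw [e0, e0, show (aX 2 f : ℤ) ^ 2 * -u ^ j = -((aX 2 f : ℤ) ^ 2 * u ^ j) by ring,
    Int.cast_natCast]
  linear_combination ((aX 2 f : ℕ) : ℂ) * e2 - ((aX 2 f : ℕ) : ℂ) ^ 2 * e1

/-- the two parts of the symbol: `Σ kP_i Φ_i(x, y) + Σ kM_i Φ_i(-x, -y)` -/
def PhiUE {A B : ℤ} {n : ℕ} {ι : Type} [Fintype ι] (R : RepsE A B n ι) (e : OO A B → ℂ)
    (kP kM : ι → ℂ) (x y : OnePoint ℚ) : ℂ :=
  PhiKE R e kP x y + PhiKE R e kM (mob (-1) 0 0 1 x) (mob (-1) 0 0 1 y)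

/-- the relation for the whole symbol -/
theorem relUE {A : ℤ} (hcq : CQ A 0) {g : Ideal (OO A 0)} (hg : g ≠ ⊥) {e : OO A 0 → ℂ}
    (he : IsEI g e) {n : ℕ} {ι : Type} [Fintype ι] (R : RepsE A 0 n ι) (kP kM : ι → ℂ)
    (hP : ∀ i, kP i ≠ 0 → ∀ x ∈ R.b i, e x ≠ 0 → InH A (MUXF.qb (R.b i) x))
    (hM : ∀ i, kM i ≠ 0 → ∀ x ∈ R.b i, e x ≠ 0 → InH A (-MUXF.qb (R.b i) x)) (x : ℚ) :
    PhiUE R e kP kM ∞ ((x + 1 / 4 : ℚ) : OnePoint ℚ) -
      (ex (1 / 8) + ex (1 / 8) ^ hR A) * PhiUE R e kP kM ∞ ((x + 1 / 8 : ℚ) : OnePoint ℚ) +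
      ex (1 / 8) ^ (1 + hR A) * PhiUE R e kP kM ∞ (x : OnePoint ℚ) = 0 := by
  have h1 : PhiKE R e kP ∞ ((x + 1 / 4 : ℚ) : OnePoint ℚ) -
      (ex (1 / 8) + ex (1 / 8) ^ hR A) * PhiKE R e kP ∞ ((x + 1 / 8 : ℚ) : OnePoint ℚ) +
      ex (1 / 8) ^ (1 + hR A) * PhiKE R e kP ∞ (x : OnePoint ℚ) = 0 := by
    unfold PhiKE
    rw [Finset.mul_sum, Finset.mul_sum, ← Finset.sum_sub_distrib, ← Finset.sum_add_distrib]
    refine Finset.sum_eq_zero fun i _ => ?_
    by_cases h0 : kP i = 0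
    · rw [h0]
      ring
    · have h2 := rel_one hcq hg he (R.nl i).b_ne 1 (by
        intro y hy hy0
        rw [one_mul]
        exact hP i h0 y hy hy0) x
      have e1 : (x + ((1 : ℤ) : ℚ) * (1 / 4) : ℚ) = x + 1 / 4 := by norm_num
      have e2 : (x + ((1 : ℤ) : ℚ) * (1 / 8) : ℚ) = x + 1 / 8 := by norm_num
      rw [e1, e2] at h2
      linear_combination kP i * h2
  have h2 : PhiKE R e kM ∞ ((-(x + 1 / 4) : ℚ) : OnePoint ℚ) -
      (ex (1 / 8) + ex (1 / 8) ^ hR A) * PhiKE R e kM ∞ ((-(x + 1 / 8) : ℚ) : OnePoint ℚ) +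
      ex (1 / 8) ^ (1 + hR A) * PhiKE R e kM ∞ ((-x : ℚ) : OnePoint ℚ) = 0 := by
    unfold PhiKE
    rw [Finset.mul_sum, Finset.mul_sum, ← Finset.sum_sub_distrib, ← Finset.sum_add_distrib]
    refine Finset.sum_eq_zero fun i _ => ?_
    by_cases h0 : kM i = 0
    · rw [h0]
      ring
    · have h2 := rel_one hcq hg he (R.nl i).b_ne (-1) (by
        intro y hy hy0
        rw [neg_one_mul]
        exact hM i h0 y hy hy0) (-x)
      have e1 : (-x + ((-1 : ℤ) : ℚ) * (1 / 4) : ℚ) = -(x + 1 / 4) := by push_cast; ring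
      have e2 : (-x + ((-1 : ℤ) : ℚ) * (1 / 8) : ℚ) = -(x + 1 / 8) := by push_cast; ring
      rw [e1, e2] at h2
      linear_combination kM i * h2
  unfold PhiUE
  rw [mob_inf', Pool.Agent.MU3H.Qs.mob_neg, Pool.Agent.MU3H.Qs.mob_neg,
    Pool.Agent.MU3H.Qs.mob_neg]
  linear_combination h1 + h2

/-- the projector -/
theorem prjUE (V : ValuationSubring ℂ) {A : ℤ} (hcq : CQ A 0) (hA : A % 4 = 2 ∨ A % 4 = 3)
    (hr : ∀ (r : ℕ) (z : ℂ), r ≠ 0 → z ^ r = 1 → V.valuation z = 1)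
    (hv : V.valuation ((qR A : ℕ) : ℂ) = 1) {f : ℕ} (hqf : qR A ∣ f)
    (hg : idl (A := A) (B := 0) (2 * f) ≠ ⊥)
    {e : OO A 0 → ℂ} (he : IsEI (idl (A := A) (B := 0) (2 * f)) e) {n : ℕ} {ι : Type}
    [Fintype ι] (R : RepsE A 0 n ι) (kP kM : ι → ℂ)
    (hP : ∀ i, kP i ≠ 0 → InH A (nI (R.b i)))
    (hM : ∀ i, kM i ≠ 0 → InH A (-(nI (R.b i) : ℤ))) (Z : ℂ) :
    ∃ (q : ℕ) (c : ℕ → ℂ), q ≠ 0 ∧ (∀ t, V.valuation (c t) ≤ 1) ∧ ∀ x y : OnePoint ℚ,
      ∑ t ∈ Finset.range q, c t * (PhiUE R e kP kM (mob q t 0 q x) (mob q t 0 q y) / Z) =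
        PhiKE R e kP x y / Z := by
  have hA0 : A < 0 := by
    have := hcq.neg
    omega
  obtain ⟨hqo, -⟩ := qR_spec hA0 hA
  have hq0 : qR A ≠ 0 := by
    rintro h
    rw [h] at hqo
    exact absurd hqo (by decide)
  obtain ⟨φ, hφd⟩ : ∃ φ : ℤ → ℂ, φ = fun n => if jacobiSym n (qR A) = 1 then 1 else 0 :=
    ⟨_, rfl⟩
  have hφ01 : ∀ n, φ n = 0 ∨ φ n = 1 := by
    intro n
    rw [hφd]
    beta_reduce
    split_ifs
    · exact Or.inr rfl
    · exact Or.inl rfl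
  have hφp : ∀ n, φ (n + (qR A : ℤ)) = φ n := by
    intro n
    have h1 : jacobiSym (n + (qR A : ℤ)) (qR A) = jacobiSym n (qR A) := by
      apply jacobiSym.mod_left'
      rw [Int.add_emod_right]
    rw [hφd]
    beta_reduce
    rw [h1]
  refine ⟨qR A, MUXF.PRJ.cf (qR A) φ, hq0, fun t => Prx.val_le V hr _ hq0 hv φ hφ01 t,
    fun x y => ?_⟩
  have key1 : ∀ i, ∑ t ∈ Finset.range (qR A), MUXF.PRJ.cf (qR A) φ t *
      (kP i * PhiI (R.b i) e (mob (qR A) t 0 (qR A) x) (mob (qR A) t 0 (qR A) y)) =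
      kP i * PhiI (R.b i) e x y := by
    intro i
    by_cases h0 : kP i = 0
    · rw [h0]
      simp
    · rw [← prj_pos hcq (R.nl i).b_ne hg he hq0 hφp (by
        intro y hy hy0
        obtain ⟨h2, h3, h4, h5, h6⟩ := exp_facts hcq hA hqf he (R.nl i).b_ne hy hy0
        have h7 : InH A (MUXF.qb (R.b i) y) := by
          have h8 := inH_nI hcq hA hqf he (R.nl i).b_ne 1 (by rw [one_mul]; exact hP i h0) hy hy0
          rcases h8 with h8 | h8
          · rwa [one_mul] at h8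
          · exact absurd (Or.inl rfl) h8
        have h9 := (jac hA0 hA (MUXF.qb (R.b i) y).toNat (by omega) h6).1
        rw [Int.toNat_of_nonneg h3.le] at h9
        rw [hφd]
        beta_reduce
        rw [if_pos (h9 h7)]) x y, Finset.mul_sum]
      refine Finset.sum_congr rfl fun t _ => ?_
      ring
  have key2 : ∀ i, ∑ t ∈ Finset.range (qR A), MUXF.PRJ.cf (qR A) φ t *
      (kM i * PhiI (R.b i) e (mob (-1) 0 0 1 (mob (qR A) t 0 (qR A) x))
        (mob (-1) 0 0 1 (mob (qR A) t 0 (qR A) y))) = 0 := by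
    intro i
    by_cases h0 : kM i = 0
    · rw [h0]
      simp
    · have h1 := prj_neg hcq (R.nl i).b_ne hg he hq0 hφp (by
        intro y hy hy0
        obtain ⟨h2, h3, h4, h5, h6⟩ := exp_facts hcq hA hqf he (R.nl i).b_ne hy hy0
        have h7 : InH A (-MUXF.qb (R.b i) y) := by
          have h8 := inH_nI hcq hA hqf he (R.nl i).b_ne (-1)
            (by rw [neg_one_mul]; exact hM i h0) hy hy0
          rcases h8 with h8 | h8
          · rwa [neg_one_mul] at h8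
          · exact absurd (Or.inr rfl) h8
        have h9 := (jac hA0 hA (MUXF.qb (R.b i) y).toNat (by omega) h6).2
        rw [Int.toNat_of_nonneg h3.le] at h9
        rw [hφd]
        beta_reduce
        rw [if_neg (by rw [h9 h7]; norm_num)]) x y
      have h2 : ∑ t ∈ Finset.range (qR A), MUXF.PRJ.cf (qR A) φ t *
          (kM i * PhiI (R.b i) e (mob (-1) 0 0 1 (mob (qR A) t 0 (qR A) x))
          (mob (-1) 0 0 1 (mob (qR A) t 0 (qR A) y))) = kM i *
          ∑ t ∈ Finset.range (qR A), MUXF.PRJ.cf (qR A) φ t *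
          PhiI (R.b i) e (mob (-1) 0 0 1 (mob (qR A) t 0 (qR A) x))
          (mob (-1) 0 0 1 (mob (qR A) t 0 (qR A) y)) := by
        rw [Finset.mul_sum]
        refine Finset.sum_congr rfl fun t _ => ?_
        ring
      rw [h2, h1, mul_zero]
  have e1 : ∀ t ∈ Finset.range (qR A), MUXF.PRJ.cf (qR A) φ t *
      (PhiUE R e kP kM (mob (qR A) t 0 (qR A) x) (mob (qR A) t 0 (qR A) y) / Z) =
      (∑ i, MUXF.PRJ.cf (qR A) φ t *
      (kP i * PhiI (R.b i) e (mob (qR A) t 0 (qR A) x) (mob (qR A) t 0 (qR A) y)) +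
      ∑ i, MUXF.PRJ.cf (qR A) φ t *
      (kM i * PhiI (R.b i) e (mob (-1) 0 0 1 (mob (qR A) t 0 (qR A) x))
        (mob (-1) 0 0 1 (mob (qR A) t 0 (qR A) y)))) / Z := by
    intro t _
    unfold PhiUE PhiKE
    rw [← Finset.mul_sum, ← Finset.mul_sum]
    ring
  rw [Finset.sum_congr rfl e1, ← Finset.sum_div, Finset.sum_add_distrib, Finset.sum_comm,
    Finset.sum_congr rfl (fun i _ => key1 i)]
  have e2 : ∑ t ∈ Finset.range (qR A), ∑ i, MUXF.PRJ.cf (qR A) φ t *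
      (kM i * PhiI (R.b i) e (mob (-1) 0 0 1 (mob (qR A) t 0 (qR A) x))
        (mob (-1) 0 0 1 (mob (qR A) t 0 (qR A) y))) = 0 := by
    rw [Finset.sum_comm]
    exact Finset.sum_eq_zero fun i _ => key2 i
  rw [e2, add_zero]
  rfl

/-- elementary facts -/
theorem val4Q {A B : ℤ} {P : Ideal (OO A B)} {V : ValuationSubring ℂ} {f : ℕ}
    (H : SetT4 A B P V f) :
    V.valuation (2 : ℂ) < 1 ∧ (∀ n : ℤ, V.valuation (n : ℂ) ≤ 1) ∧
    (∀ n : ℤ, ¬ (2 : ℤ) ∣ n → V.valuation (n : ℂ) = 1) ∧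
    (∀ (r : ℕ) (z : ℂ), r ≠ 0 → z ^ r = 1 → V.valuation z = 1) ∧
    idl (A := A) (B := B) (2 * f) ≠ ⊥ ∧ idl (A := A) (B := B) (2 * f) ≠ ⊤ ∧
    ((2 * f : ℕ) : OO A B) ∈ idl (A := A) (B := B) (2 * f) := by
  have h3 : V.valuation (2 : ℂ) < 1 := by
    have h1 : emb ((2 : ℕ) : OO A B) ∈ V.nonunits := (H.hV _).2 H.hP.mem
    have h2 : emb ((2 : ℕ) : OO A B) = 2 := by
      unfold emb
      rw [QuadraticAlgebra.re_natCast, QuadraticAlgebra.im_natCast]
      norm_num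
    rw [h2, ValuationSubring.mem_nonunits_iff] at h1
    exact h1
  have hle : ∀ z : ℤ, V.valuation (z : ℂ) ≤ 1 := fun z =>
    (V.valuation_le_one_iff _).2 (intCast_mem V z)
  have h3f : ((2 * f : ℕ) : OO A B) ∈ idl (A := A) (B := B) (2 * f) :=
    Ideal.mem_span_singleton_self _
  have hf0 := H.f0
  refine ⟨h3, hle, ?_, ?_, ?_, ?_, h3f⟩
  · intro n hn
    have hc : IsCoprime n 2 := by
      rw [isCoprime_comm]
      exact (Int.prime_two.coprime_iff_not_dvd).2 hn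
    obtain ⟨a, b, hab⟩ := hc
    by_contra hne
    have hlt : V.valuation (n : ℂ) < 1 := lt_of_le_of_ne (hle n) hne
    have h1 : V.valuation ((a : ℂ) * n + b * 2) < 1 := by
      refine lt_of_le_of_lt (V.valuation.map_add _ _) (max_lt ?_ ?_)
      · rw [map_mul]
        exact mul_lt_one_of_nonneg_of_lt_one_right (hle a) zero_le hlt
      · rw [map_mul]
        exact mul_lt_one_of_nonneg_of_lt_one_right (hle b) zero_le h3
    have h2 : (a : ℂ) * n + b * 2 = 1 := by exact_mod_cast hab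
    rw [h2, map_one] at h1
    exact lt_irrefl _ h1
  · intro r z hr hz
    have h1 : V.valuation z ^ r = 1 := by rw [← map_pow, hz, map_one]
    exact (pow_eq_one_iff_of_nonneg zero_le hr).1 h1
  · intro h
    rw [h, Ideal.mem_bot] at h3f
    have h1 := congrArg QuadraticAlgebra.re h3f
    simp only [QuadraticAlgebra.re_natCast, QuadraticAlgebra.re_zero] at h1
    have h2 : (2 * f : ℕ) = 0 := by exact_mod_cast h1
    omega
  · intro h
    rw [Ideal.eq_top_iff_one, Ideal.mem_span_singleton] at h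
    obtain ⟨y, hy⟩ := h
    have h1 := congrArg QuadraticAlgebra.re hy
    rw [QuadraticAlgebra.re_one, QuadraticAlgebra.re_mul, QuadraticAlgebra.re_natCast,
      QuadraticAlgebra.im_natCast, mul_zero, zero_mul, add_zero] at h1
    have h9 : ((2 * f : ℕ) : ℤ) ∣ 1 := ⟨y.re, h1⟩
    have h10 := Int.le_of_dvd one_pos h9
    have : 0 < f := Nat.pos_of_ne_zero hf0
    omega

/-- the level `f` and the odd part of `A` -/
theorem lev4 {A : ℤ} {P : Ideal (OO A 0)} {V : ValuationSubring ℂ} {f : ℕ}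
    (H : SetT4 A 0 P V f) : A % 4 = 3 ∧ A < 0 ∧ qR A = 1 ∧ qR A ∣ f ∧ 3 ∣ f ∧ absD A 0 = 4 := by
  have hA := H.case.hA
  have hfD := H.fD
  subst hA
  have hq : qR (-1) = 1 := by
    unfold qR
    norm_num
  refine ⟨by norm_num, by norm_num, hq, by rw [hq]; exact one_dvd _, ?_, by unfold absD; norm_num⟩
  unfold absD at hfD
  norm_num at hfD
  omega

/-- coprimality from `e x ≠ 0` -/
theorem cop4Q {A : ℤ} {P : Ideal (OO A 0)} {V : ValuationSubring ℂ} {f : ℕ}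
    (H : SetT4 A 0 P V f) {e : OO A 0 → ℂ} (he : IsEI (idl (A := A) (B := 0) (2 * f)) e)
    {x : OO A 0} (hx0 : e x ≠ 0) : IsCoprime x ((absD A 0 : ℤ) : OO A 0) := by
  obtain ⟨-, -, -, -, -, hD⟩ := lev4 H
  have h5 := (he.supp _).1 hx0
  have hcop2 : IsCoprime x ((2 : ℕ) : OO A 0) := by
    rw [← Ideal.isCoprime_span_singleton_iff]
    rw [Ideal.isCoprime_iff_sup_eq] at h5 ⊢
    refine top_le_iff.1 (h5 ▸ sup_le_sup_left ?_ _)
    rw [Ideal.span_singleton_le_span_singleton]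
    exact ⟨((f : ℕ) : OO A 0), by push_cast; ring⟩
  have h8 : ((absD A 0 : ℤ) : OO A 0) = ((2 : ℕ) : OO A 0) ^ 2 := by
    rw [hD]
    push_cast
    norm_num
  rw [h8]
  exact hcop2.pow_right

theorem chr4Q {A : ℤ} {P : Ideal (OO A 0)} {V : ValuationSubring ℂ} {f : ℕ}
    (H : SetT4 A 0 P V f) {e : OO A 0 → ℂ} (he : IsEI (idl (A := A) (B := 0) (2 * f)) e)
    {r : ℕ} (hr0 : r ≠ 0) (hr : ∀ x, e x ≠ 0 → e x ^ r = 1) :
    nuX e 1 = 1 ∧ (∀ d d', nuX e (d * d') = nuX e d * nuX e d') ∧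
    (∀ d d' : ℤ, ((8 * (qR A * f ^ 2) : ℕ) : ℤ) ∣ d - d' → nuX e d = nuX e d') ∧
    (∀ d, V.valuation (nuX e d) ≤ 1) := by
  obtain ⟨-, vZ, -, vru, hg0, -, hpf⟩ := val4Q H
  obtain ⟨-, hA0, hq1, hqf, -, hD4⟩ := lev4 H
  have hD8 : absD A 0 ∣ 8 * (qR A : ℤ) := by
    rw [hD4, hq1]
    norm_num
  have hcq : CQ A 0 := H.case.toCQ
  have ev : ∀ x, V.valuation (e x) ≤ 1 := by
    intro x
    by_cases hx : e x = 0
    · rw [hx, map_zero]
      exact zero_le_one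
    · exact (vru r (e x) hr0 (hr x hx)).le
  have hcopD : ∀ d : ℤ, e (d : OO A 0) ≠ 0 → IsCoprime d (absD A 0) := fun d hd =>
    Chr.coprime_int (cop4Q H he hd)
  refine ⟨?_, ?_, ?_, ?_⟩
  · unfold nuX
    have : ((1 : ℤ) : OO A 0) = 1 := by push_cast; rfl
    rw [Chr.chiX_one, this, he.one]
    norm_num
  · intro d d'
    unfold nuX
    have : ((d * d' : ℤ) : OO A 0) = (d : OO A 0) * (d' : OO A 0) := by push_cast; rfl
    rw [Chr.chiX_mul, this, he.mul]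
    push_cast
    ring
  · intro d d' hd
    have hd2 : (8 : ℤ) * (qR A : ℤ) * (f : ℤ) ^ 2 ∣ d - d' := by
      have h5 : ((8 * (qR A * f ^ 2) : ℕ) : ℤ) = (8 : ℤ) * (qR A : ℤ) * (f : ℤ) ^ 2 := by
        push_cast
        ring
      rwa [h5] at hd
    have hD : absD A 0 ∣ d - d' := (hD8.trans (Dvd.intro _ rfl)).trans hd2
    obtain ⟨t, ht⟩ := hd2
    unfold nuX
    by_cases hcop : IsCoprime d (absD A 0)
    · have h5 : chiX A 0 d' = chiX A 0 d := ((MUXF.xf_CHI A 0 (toCQ hcq) d hcop).2.2 d' hD)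
      have h6 : e (d : OO A 0) = e (d' : OO A 0) := by
        apply he.per
        have h7 : (d : OO A 0) - (d' : OO A 0) =
            (((4 * (qR A : ℤ) * f * t : ℤ)) : OO A 0) * ((2 * f : ℕ) : OO A 0) := by
          have h8 : (d : OO A 0) - (d' : OO A 0) = ((d - d' : ℤ) : OO A 0) := by push_cast; rfl
          rw [h8, ht]
          push_cast
          ring
        rw [h7]
        exact Ideal.mul_mem_left _ _ hpf
      rw [h5, h6]
    · have h5 : e (d : OO A 0) = 0 := by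
        by_contra hne
        exact hcop (hcopD d hne)
      have h6 : e (d' : OO A 0) = 0 := by
        by_contra hne
        apply hcop
        obtain ⟨s, hs⟩ := hD
        have h7 : d = d' + absD A 0 * s := by linarith
        rw [h7]
        exact (IsCoprime.add_mul_left_left_iff).2 (hcopD d' hne)
      rw [h5, h6, mul_zero, mul_zero]
  · intro d
    unfold nuX
    rw [map_mul]
    exact mul_le_one' (vZ _) (ev _)

theorem uQ_algE {A B : ℤ} (hc : CQ A B) (hT : TorXE A B) {b : Ideal (OO A B)} {L : PeriodPair}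
    {om : ℂ} (hL : IsNE b L om) {V : ValuationSubring ℂ} {u e a1 a3 : ℂ}
    (h : GoodQ V L u e a1 a3) : IsAlgebraic ℚ u := by
  obtain ⟨w1, w2, h1, h2, h3, h4, -, -, -, h5⟩ := h.tor
  have h1' : ((3 : ℕ) : ℂ) * w1 ∈ L.lattice := by exact_mod_cast h1
  have h2' : ((3 : ℕ) : ℂ) * w2 ∈ L.lattice := by exact_mod_cast h2
  have k1 : IsAlgebraic ℚ (L.weierstrassP w1) :=
    Pool.Agent.ME2.alg_RFE hc hT three_ne_zero (Pool.Agent.ME2.wp_mem hc hL h3 h1')
  have k2 : IsAlgebraic ℚ (L.weierstrassP w2) :=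
    Pool.Agent.ME2.alg_RFE hc hT three_ne_zero (Pool.Agent.ME2.wp_mem hc hL h4 h2')
  have k3 : IsAlgebraic ℚ (u ^ 2) := by
    rw [h5]
    exact k2.sub k1
  exact k3.of_pow (by norm_num)

/-- algebraicity of the combinations -/
theorem alg4Q {A : ℤ} {P : Ideal (OO A 0)} {V : ValuationSubring ℂ} {f : ℕ}
    (H : SetT4 A 0 P V f) (hT : TorXE A 0) {ι : Type} [Fintype ι] (R : RepsE A 0 (2 * f) ι)
    {u el a1 a3 : ℂ} (hg : GoodQ V (R.L R.i0) u el a1 a3) {e : OO A 0 → ℂ}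
    (he : IsEI (idl (A := A) (B := 0) (2 * f)) e) {r : ℕ} (hr0 : r ≠ 0)
    (hr : ∀ x, e x ≠ 0 → e x ^ r = 1) (kk : ι → ℂ) (hk : ∀ i, kk i = 0 ∨ kk i ^ r = 1)
    (x y : OnePoint ℚ) : IsAlgebraic ℚ (PhiKE R e kk x y / (2 * (u * R.om R.i0))) := by
  obtain ⟨-, -, -, -, gb, gt, hpf⟩ := val4Q H
  have hcq : CQ A 0 := H.case.toCQ
  have hua : IsAlgebraic ℚ u := uQ_algE hcq hT (R.nl R.i0) hg
  have h2a : IsAlgebraic ℚ (2 : ℂ) := by
    have := isAlgebraic_algebraMap (R := ℚ) (A := ℂ) (2 : ℚ)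
    simpa using this
  have hka : ∀ c, IsAlgebraic ℚ (kk c) := by
    intro c
    rcases hk c with h | h
    · rw [h]
      exact isAlgebraic_zero
    · exact IsAlgebraic.of_pow (Nat.pos_of_ne_zero hr0) (by rw [h]; exact isAlgebraic_one)
  have hf0 := H.f0
  have h1 := fun c => phi_alg H.case hT R he gt (by omega) hpf hr0 hr c x y
  have e1 : PhiKE R e kk x y / (2 * (u * R.om R.i0)) =
      (∑ c, kk c * (PhiI (R.b c) e x y / R.om R.i0)) * (2 * u)⁻¹ := by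
    unfold PhiKE
    have ho : R.om R.i0 ≠ 0 := (R.nl R.i0).om_ne
    have hu := hg.u0
    rw [← mul_assoc, mul_comm (2 * u), ← div_div, Finset.sum_div, div_eq_mul_inv]
    congr 1
    refine Finset.sum_congr rfl fun c _ => ?_
    ring
  rw [e1]
  exact (MEH.sum_alg _ _ fun c _ => (hka c).mul (h1 c)).mul (h2a.mul hua).inv

/-- the values are in a finitely generated group -/
theorem fin4Q {A : ℤ} {P : Ideal (OO A 0)} {V : ValuationSubring ℂ} {f : ℕ}
    (H : SetT4 A 0 P V f) {ι : Type} [Fintype ι] (R : RepsE A 0 (2 * f) ι)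
    {e : OO A 0 → ℂ} (he : IsEI (idl (A := A) (B := 0) (2 * f)) e) (kk : ι → ℂ) (Z : ℂ) :
    ∃ T : Finset ℂ, ∀ x y, PhiKE R e kk x y / Z ∈ AddSubgroup.closure (T : Set ℂ) := by
  classical
  obtain ⟨-, -, -, -, gb, -, -⟩ := val4Q H
  have h1 := fun c => MUXT.fg_EI A 0 (toCQ H.case.toCQ) (R.b c) _ e (R.nl c).b_ne gb (toEI he)
  choose S hS' using h1
  refine ⟨Finset.univ.biUnion fun c => (S c).image fun t => kk c / Z * t, fun x y => ?_⟩
  have e1 : PhiKE R e kk x y / Z = ∑ c, kk c / Z * PhiI (R.b c) e x y := by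
    unfold PhiKE
    rw [Finset.sum_div]
    refine Finset.sum_congr rfl fun c _ => ?_
    ring
  rw [e1]
  refine sum_mem fun c _ => ?_
  have h2 := hS' c x y
  have h3 : AddMonoidHom.mulLeft (kk c / Z) (PhiI (R.b c) e x y) ∈
      (AddSubgroup.closure (S c : Set ℂ)).map (AddMonoidHom.mulLeft (kk c / Z)) :=
    AddSubgroup.mem_map_of_mem _ h2
  rw [AddMonoidHom.map_closure] at h3
  refine AddSubgroup.closure_mono ?_ h3
  rintro _ ⟨t, ht, rfl⟩
  simp only [Finset.coe_biUnion, Set.mem_iUnion]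
  exact ⟨c, by simp, Finset.mem_coe.2 (Finset.mem_image.2 ⟨t, ht, rfl⟩)⟩

open Classical in
/-- the part of the weights in `J+` (`s = 1`) or `J-` (`s = -1`) -/
def kSE {A : ℤ} {n : ℕ} {ι : Type} (R : RepsE A 0 n ι) (s : ℤ) (kk : ι → ℂ) (i : ι) : ℂ :=
  if InH A (s * nI (R.b i)) then kk i else 0

theorem kSE_zero {A : ℤ} {n : ℕ} {ι : Type} (R : RepsE A 0 n ι) (s : ℤ) (kk : ι → ℂ) (i : ι)
    (h : kSE R s kk i ≠ 0) : InH A (s * nI (R.b i)) := by
  unfold kSE at h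
  by_contra h1
  rw [if_neg h1] at h
  exact h rfl

theorem kSE_pow {A : ℤ} {n : ℕ} {ι : Type} (R : RepsE A 0 n ι) (s : ℤ) {kk : ι → ℂ} {r : ℕ}
    (hk : ∀ i, kk i ^ r = 1) (i : ι) : kSE R s kk i = 0 ∨ kSE R s kk i ^ r = 1 := by
  unfold kSE
  split_ifs
  · exact Or.inr (hk i)
  · exact Or.inl rfl

theorem nI_i0E {A : ℤ} {n : ℕ} {ι : Type} (R : RepsE A 0 n ι) : nI (R.b R.i0) = 1 := by
  rw [R.b0]
  unfold nI
  have : Subsingleton (OO A 0 ⧸ (⊤ : Ideal (OO A 0))) := Ideal.Quotient.subsingleton_iff.2 rfl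
  exact Nat.card_of_subsingleton 0

/-- the hypotheses of the abstract part -/
theorem hyp4Q (hG : T4_GPT) (hT' : T4_TYF) {A : ℤ} {P : Ideal (OO A 0)}
    {V : ValuationSubring ℂ} {f : ℕ}
    (hS : SetT4 A 0 P V f) (hT : TorXE A 0) {ι : Type} [Fintype ι] (R : RepsE A 0 (2 * f) ι)
    {u el a1 a3 : ℂ} (hg : GoodQ V (R.L R.i0) u el a1 a3)
    {e : OO A 0 → ℂ} (he : OddF4 f e) {r : ℕ} (hr2 : ¬ 2 ∣ r)
    (her : ∀ x, e x ≠ 0 → e x ^ (4 * r) = 1) {kk : ι → ℂ} (hkk : ∀ i, kk i ^ (4 * r) = 1) :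
    ∃ (pi : ℂ) (KI : Subfield ℂ), HypU V (qR A * f ^ 2) 4 (nuX e)
      (fun x y => PhiUE R e (kSE R 1 kk) (kSE R (-1) kk) x y / (2 * (u * R.om R.i0)))
      (fun x y => PhiKE R e (kSE R 1 kk) x y / (2 * (u * R.om R.i0))) pi KI (ex (1 / 8))
      (hR A) := by
  obtain ⟨pi, KI, typ, unr, hlf, vpi⟩ := hT' A 0 P V f hS hT ι R u el a1 a3 hg e he r hr2 her
  obtain ⟨v2, vZ, v1, vr, gb, gt, h2f⟩ := val4Q hS
  obtain ⟨hA3, hA0, hq1, hqf, h3f, hD4⟩ := lev4 hS
  have hcq : CQ A 0 := hS.case.toCQ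
  have hA : A % 4 = 2 ∨ A % 4 = 3 := Or.inr hA3
  have heI : IsEI (idl (A := A) (B := 0) (2 * f)) e := he.toIsEIE.toIsEI
  have hr0 : r ≠ 0 := by
    rintro rfl
    exact hr2 (dvd_zero 2)
  have hr20 : 4 * r ≠ 0 := by omega
  have hf0 := hS.f0
  obtain ⟨nu1, num, nuper, nuv⟩ := chr4Q hS heI hr20 her
  have hq0 : qR A ≠ 0 := by
    rw [hq1]
    exact one_ne_zero
  have hf3 : 3 ≤ f := Nat.le_of_dvd (Nat.pos_of_ne_zero hf0) h3f
  have hN2 : 2 ≤ qR A * f ^ 2 := by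
    rw [hq1]
    nlinarith
  have hDz : absD A 0 * ((2 * f : ℕ) : ℤ) ^ 2 ∣ ((2 ^ (4 + 1) * (qR A * f ^ 2) : ℕ) : ℤ) :=
    ⟨2, by rw [hD4, hq1]; push_cast; ring⟩
  have hDne : 2 ^ (4 + 1) * (qR A * f ^ 2) ≠ 0 := by positivity
  have hk0 : V.valuation (kSE R 1 kk R.i0) = 1 := by
    have h1 : kSE R 1 kk R.i0 = kk R.i0 := by
      unfold kSE
      rw [if_pos]
      rw [nI_i0E]
      exact Or.inl rfl
    rw [h1]
    exact vr _ _ hr20 (hkk _)
  have hGG := hG A 0 P V f hS hT ι R u el a1 a3 hg e he.toIsEIE (4 * r) hr20 her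
    (kSE R 1 kk) hk0
  have hsymK : ∀ k' : ι → ℂ, IsSym (2 ^ (4 + 1) * (qR A * f ^ 2)) (nuX e)
      (fun x y => PhiKE R e k' x y / (2 * (u * R.om R.i0))) := by
    intro k'
    have h1 : ∀ c, IsSym (2 ^ (4 + 1) * (qR A * f ^ 2)) (nuX e) (PhiI (R.b c) e) := fun c =>
      MUXT.sym_EI (toCQ hcq) (R.b c) (R.nl c).b_ne _ e (toEI heI) (2 * f) (by omega) h2f _
        hDne hDz
    exact Sym.isSym_lin h1 k' (2 * (u * R.om R.i0))
  have hsplit : ∀ x y, PhiUE R e (kSE R 1 kk) (kSE R (-1) kk) x y / (2 * (u * R.om R.i0)) =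
      PhiKE R e (kSE R 1 kk) x y / (2 * (u * R.om R.i0)) +
      PhiKE R e (kSE R (-1) kk) (mob (-1) 0 0 1 x) (mob (-1) 0 0 1 y) /
        (2 * (u * R.om R.i0)) := by
    intro x y
    unfold PhiUE
    rw [add_div]
  have hPn : ∀ i, kSE R 1 kk i ≠ 0 → InH A (nI (R.b i)) := by
    intro i hi
    have := kSE_zero R 1 kk i hi
    rwa [one_mul] at this
  have hMn : ∀ i, kSE R (-1) kk i ≠ 0 → InH A (-(nI (R.b i) : ℤ)) := by
    intro i hi
    have := kSE_zero R (-1) kk i hi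
    rwa [neg_one_mul] at this
  have h2KI : (2 : ℂ) ∈ KI := by
    have := natCast_mem KI 2
    exact_mod_cast this
  have hhalf : ∀ z : ℂ, z / (2 * (u * R.om R.i0)) = (z / (u * R.om R.i0)) / 2 := by
    intro z
    rw [div_div]
    congr 1
    ring
  refine ⟨pi, KI, ?_⟩
  exact
    { vp := v2
      N0 := hN2
      cop := by
        rw [hq1, one_mul, Nat.Prime.coprime_iff_not_dvd Nat.prime_two]
        intro h
        exact hS.fp (Nat.prime_two.dvd_of_dvd_pow h)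
      nu1 := nu1
      num := num
      nuper := nuper
      nuv := nuv
      sym := by
        have h1 := isSym_add (hsymK (kSE R 1 kk)) (isSym_neg (hsymK (kSE R (-1) kk)))
        have h2 : (fun x y => PhiUE R e (kSE R 1 kk) (kSE R (-1) kk) x y /
              (2 * (u * R.om R.i0))) =
            (fun x y => PhiKE R e (kSE R 1 kk) x y / (2 * (u * R.om R.i0)) +
            PhiKE R e (kSE R (-1) kk) (mob (-1) 0 0 1 x) (mob (-1) 0 0 1 y) /
              (2 * (u * R.om R.i0))) := by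
          funext x y
          exact hsplit x y
        rw [h2]
        exact h1
      om8 := om8_prim
      hh := by
        rcases hR_cases hA with ⟨-, h⟩ | ⟨-, h⟩ | ⟨-, h⟩ <;> rw [h] <;> norm_num
      rel := by
        intro x
        have h1 := relUE hcq gb heI R (kSE R 1 kk) (kSE R (-1) kk)
          (by
            intro i hi y hy hy0
            have h8 := inH_nI hcq hA hqf heI (R.nl i).b_ne 1
              (by rw [one_mul]; exact hPn i hi) hy hy0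
            rcases h8 with h8 | h8
            · rwa [one_mul] at h8
            · exact absurd (Or.inl rfl) h8)
          (by
            intro i hi y hy hy0
            have h8 := inH_nI hcq hA hqf heI (R.nl i).b_ne (-1)
              (by rw [neg_one_mul]; exact hMn i hi) hy hy0
            rcases h8 with h8 | h8
            · rwa [neg_one_mul] at h8
            · exact absurd (Or.inr rfl) h8) x
        linear_combination (1 / (2 * (u * R.om R.i0))) * h1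
      alg := by
        intro x y
        rw [hsplit]
        exact (alg4Q hS hT R hg heI hr20 her _ (kSE_pow R 1 hkk) x y).add
          (alg4Q hS hT R hg heI hr20 her _ (kSE_pow R (-1) hkk) _ _)
      fin := by
        classical
        obtain ⟨T1, hT1⟩ := fin4Q hS R heI (kSE R 1 kk) (2 * (u * R.om R.i0))
        obtain ⟨T2, hT2⟩ := fin4Q hS R heI (kSE R (-1) kk) (2 * (u * R.om R.i0))
        refine ⟨T1 ∪ T2, fun x y => ?_⟩
        rw [hsplit]
        refine add_mem ?_ ?_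
        · exact AddSubgroup.closure_mono (by
            rw [Finset.coe_union]
            exact Set.subset_union_left) (hT1 x y)
        · exact AddSubgroup.closure_mono (by
            rw [Finset.coe_union]
            exact Set.subset_union_right) (hT2 _ _)
      typ := by
        intro x y
        obtain ⟨w1, hw1, e1⟩ := typ (kSE R 1 kk) (kSE_pow R 1 hkk) x y
        obtain ⟨w2, hw2, e2⟩ := typ (kSE R (-1) kk) (kSE_pow R (-1) hkk) (mob (-1) 0 0 1 x)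
          (mob (-1) 0 0 1 y)
        refine ⟨(w1 + w2) / 2, KI.div_mem (add_mem hw1 hw2) h2KI, ?_⟩
        rw [hsplit, hhalf, hhalf, e1, e2]
        ring
      unr := unr
      hlf := hlf
      vpi := vpi
      G := by
        intro N' hN' hd
        obtain ⟨a, b, c, d, m1, m2, m3, m4⟩ := hGG N' hN' (by
          refine hDz.trans ?_
          exact_mod_cast hd)
        refine ⟨a, b, c, d, m1, m2, m3, ?_⟩
        have h1 : PTq 32 (PTq 8 (fun x y => PhiKE R e (kSE R 1 kk) x y /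
            (2 * (u * R.om R.i0)))) ∞ (mob a b c d ∞) =
            PTq 32 (PTq 8 (fun x y => PhiKE R e (kSE R 1 kk) x y / (u * R.om R.i0))) ∞
              (mob a b c d ∞) / 2 := by
          unfold PTq
          simp only [hhalf]
          ring
        have h2 : V.valuation (2 : ℂ) ≠ 0 := by
          rw [Ne, map_eq_zero]
          exact two_ne_zero
        rw [h1, map_div₀]
        exact (one_lt_div₀ (zero_lt_iff.2 h2)).2 m4
      prj := prjUE V hcq hA vr (by rw [hq1, Nat.cast_one, map_one]) hqf gb heI R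
        (kSE R 1 kk) (kSE R (-1) kk) hPn hMn (2 * (u * R.om R.i0)) }

/-- the sums over the classes `c`, `-c` see only one part of the weights -/
theorem part4 {A : ℤ} {P : Ideal (OO A 0)} {V : ValuationSubring ℂ} {f : ℕ}
    (H : SetT4 A 0 P V f) {ι : Type} (R : RepsE A 0 (2 * f) ι) {e : OO A 0 → ℂ}
    (he : IsEI (idl (A := A) (B := 0) (2 * f)) e) (kk : ι → ℂ) (m M : ℕ) (hM : 8 ∣ M) (s : ℤ)
    (hs : s = 1 ∨ s = -1) (i : ι) (c : ℤ) (hc : (8 : ℤ) ∣ c - 1) :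
    kk i * SnXE R m M e i (s * c) = kSE R s kk i * SnXE R m M e i (s * c) := by
  obtain ⟨hA3, hA0, -, hqf, -, -⟩ := lev4 H
  have hA : A % 4 = 2 ∨ A % 4 = 3 := Or.inr hA3
  unfold kSE
  by_cases h : InH A (s * nI (R.b i))
  · rw [if_pos h]
  · rw [if_neg h, zero_mul]
    have htop : (⊤ : Ideal (OO A 0)) ≠ ⊥ := top_ne_bot
    rw [SnXE_zero R m M e i (s * c) 8 (by exact_mod_cast hM), mul_zero]
    intro x hx0 h1
    apply h
    obtain ⟨h2, -⟩ := exp_facts H.case.toCQ hA hqf he htop (x := x) Submodule.mem_top hx0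
    have h3 : InH A (nm x * (s * nI (R.b i))) := by
      refine (inH_congr ?_).2 (inH_one A)
      have hss : s * s = 1 := by rcases hs with rfl | rfl <;> norm_num
      obtain ⟨t, ht⟩ := h1
      obtain ⟨w, hw⟩ := hc
      refine ⟨s * t + w, ?_⟩
      linear_combination s * ht + (c : ℤ) * hss + hw
    exact (inH_mul hA h2).1 h3

/-- the character sums, `D = -4`, `p = 2` -/
theorem hfin4Q (hHU : Su_HU) (hG : T4_GPT) (hT' : T4_TYF) : T4_HFIN := by
  intro A B P V f hS hT ι _ R u el a1 a3 hg e he r hr2 her kk hkk n₀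
  have hB := hS.hB
  subst hB
  obtain ⟨v2, vZ, v1, vr, gb, gt, h2f⟩ := val4Q hS
  obtain ⟨hA3, hA0, hq1, hqf, h3f, hD4⟩ := lev4 hS
  have hcq : CQ A 0 := hS.case.toCQ
  have hA : A % 4 = 2 ∨ A % 4 = 3 := Or.inr hA3
  have heI : IsEI (idl (A := A) (B := 0) (2 * f)) e := he.toIsEIE.toIsEI
  have hf0 := hS.f0
  set kk' : ι → ℂ := fun c => kk c / e ((nI (R.b c) : ℕ) : OO A 0) with hkk'
  have heN : ∀ c, e ((nI (R.b c) : ℕ) : OO A 0) ≠ 0 := e_nIE R heI h2f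
  have hk1 : ∀ c, kk' c ^ (4 * r) = 1 := by
    intro c
    rw [hkk']
    beta_reduce
    rw [div_pow, hkk, her _ (heN c), div_one]
  obtain ⟨pi, KI, hyp⟩ := hyp4Q hG hT' hS hT R hg he hr2 her hk1
  have haz : ((aX 2 f : ℕ) : ℤ) - 1 = 8 * f := by
    unfold aX q0
    push_cast
    norm_num
  have ha8 : (8 : ℤ) ∣ ((aX 2 f : ℕ) : ℤ) - 1 := by rw [haz]; exact Dvd.intro _ rfl
  have ha1 : ((aX 2 f : ℕ) : ℤ) ≠ 1 := by
    intro h
    rw [h] at haz
    omega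
  obtain ⟨n, hn, hmain⟩ := hHU V (qR A * f ^ 2) 4 (nuX e) _ _ pi KI (ex (1 / 8)) (hR A) hyp
    ((aX 2 f : ℕ) : ℤ) 25 ha8 ha1 (by norm_num) (by norm_num) (n₀ + 3)
  obtain ⟨m, rfl⟩ : ∃ m, n = m + 2 := ⟨n - 2, by omega⟩
  have hm1 : 1 ≤ m := by omega
  refine ⟨m, by omega, ?_⟩
  have hM : q0 2 * 2 ^ m = 2 ^ (m + 2) := by
    unfold q0
    norm_num
    ring
  have h8M : 8 ∣ q0 2 * 2 ^ m := by
    rw [hM]
    obtain ⟨k, rfl⟩ : ∃ k, m = k + 1 := ⟨m - 1, by omega⟩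
    exact ⟨2 ^ k, by ring⟩
  have hQS := qsuE MUXF.xf_F5 MUXF.xf_PRD hcq hf0 R heI h2f kk (kSE R 1 kk) (kSE R (-1) kk) 1 m
    (u := 25) (by norm_num)
    (by
      intro i c hc
      have := part4 hS R heI kk (lvX 2 f m) (q0 2 * 2 ^ m) h8M 1 (Or.inl rfl) i c hc
      rwa [one_mul] at this)
    (by
      intro i c hc
      have := part4 hS R heI kk (lvX 2 f m) (q0 2 * 2 ^ m) h8M (-1) (Or.inr rfl) i c hc
      rwa [neg_one_mul] at this)
  rw [hM] at hQS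
  have hL : ∑ j ∈ Finset.range 2, (-1 : ℂ) ^ (1 - j) *
        (STXE R (lvX 2 f m) (2 ^ (m + 2)) (aX 2 f) e kk (25 ^ j) +
          STXE R (lvX 2 f m) (2 ^ (m + 2)) (aX 2 f) e kk (-(25 ^ j))) =
      ∑ j ∈ Finset.range (1 + 1), ((-1 : ℂ) ^ (1 - j) * ((1 : ℕ).choose j : ℂ)) *
        (STXE R (lvX 2 f m) (2 ^ (m + 2)) (aX 2 f) e kk (25 ^ j) +
          STXE R (lvX 2 f m) (2 ^ (m + 2)) (aX 2 f) e kk (-25 ^ j)) := by
    refine Finset.sum_congr rfl fun j hj => ?_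
    have hj2 : j = 0 ∨ j = 1 := by
      have := Finset.mem_range.1 hj
      omega
    rcases hj2 with rfl | rfl <;> simp
  rw [hL, hQS]
  have hprim := Hfx.prim 2 (m + 2) Nat.prime_two (-(25 ^ 1 * ((aX 2 f : ℕ) : ℤ) ^ 2)) (by
    intro h
    rw [dvd_neg] at h
    rcases Int.prime_two.dvd_or_dvd h with h | h
    · norm_num at h
    · have h5 := Int.prime_two.dvd_of_dvd_pow h
      omega)
  have hζ : ex (((-(25 ^ 1 * ((aX 2 f : ℕ) : ℤ) ^ 2) : ℤ) : ℚ) / ((2 ^ (m + 2) : ℕ) : ℚ)) =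
      ex (((-(25 ^ 1 * ((aX 2 f : ℕ) : ℤ) ^ 2) : ℤ) : ℚ) / (2 : ℕ) ^ (m + 2)) := by
    push_cast
    rfl
  rw [hζ]
  set ζ : ℂ := ex (((-(25 ^ 1 * ((aX 2 f : ℕ) : ℤ) ^ 2) : ℤ) : ℚ) / (2 : ℕ) ^ (m + 2)) with hζd
  have hζ8 : ζ ^ 2 ^ (m + 2 - 3) * ex (1 / 8) = 1 := by
    rw [hζd, ex_pow', ← ex_add']
    obtain ⟨k, rfl⟩ : ∃ k, m = k + 1 := ⟨m - 1, by omega⟩
    have e1 : k + 1 + 2 - 3 = k := by omega
    rw [e1]
    obtain ⟨w, hw⟩ : (8 : ℤ) ∣ 1 - 25 ^ 1 * ((aX 2 f : ℕ) : ℤ) ^ 2 := by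
      have h1 : ((aX 2 f : ℕ) : ℤ) = 1 + 8 * f := by linarith
      rw [h1]
      exact ⟨-(3 + 25 * (2 * f + 8 * f ^ 2)), by ring⟩
    rw [← ex_int' w]
    congr 1
    have h2 : (1 : ℚ) - 25 ^ 1 * ((aX 2 f : ℕ) : ℚ) ^ 2 = 8 * w := by exact_mod_cast hw
    have h3 : ((2 : ℚ) ^ k) ≠ 0 := pow_ne_zero _ (by norm_num)
    push_cast
    rw [show ((2 : ℚ) ^ (k + 1 + 2)) = 2 ^ k * 8 by ring]
    field_simp
    linear_combination h2
  have h1 := hmain ζ hprim hζ8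
  have hu := hg.u0
  have hPPU : ∀ b : ℤ, PPE R e (kSE R 1 kk) ∞ ((b / ((2 ^ (m + 2) : ℕ) : ℚ) : ℚ) : OnePoint ℚ) +
      PPE R e (kSE R (-1) kk) (mob (-1) 0 0 1 ∞)
        (mob (-1) 0 0 1 ((b / ((2 ^ (m + 2) : ℕ) : ℚ) : ℚ) : OnePoint ℚ)) =
      2 * u * (PhiUE R e (kSE R 1 kk') (kSE R (-1) kk') ∞
        (((b : ℚ) / 2 ^ (m + 2) : ℚ) : OnePoint ℚ) / (2 * (u * R.om R.i0))) := by
    intro b
    have e7 : ∀ s x y, PPE R e (kSE R s kk) x y = PhiKE R e (kSE R s kk') x y / R.om R.i0 := by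
      intro s x y
      unfold PPE PhiKE
      congr 1
      refine Finset.sum_congr rfl fun c _ => ?_
      unfold kSE
      beta_reduce
      by_cases h : InH A (s * nI (R.b c))
      · rw [if_pos h, if_pos h]
      · rw [if_neg h, if_neg h, zero_div]
    rw [e7, e7]
    unfold PhiUE
    rw [← mul_assoc 2 u, ← mul_div_assoc, mul_div_mul_left _ _ (mul_ne_zero two_ne_zero hu),
      add_div]
    push_cast
    rfl
  have e5 : (1 / 4 * (2 * (f : ℂ) * ∑ b ∈ Finset.range (2 ^ (m + 2)), ζ ^ b *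
      comb ((aX 2 f : ℕ) : ℤ) 25 1 (fun b => PPE R e (kSE R 1 kk) ∞
          ((b / ((2 ^ (m + 2) : ℕ) : ℚ) : ℚ) : OnePoint ℚ) +
        PPE R e (kSE R (-1) kk) (mob (-1) 0 0 1 ∞)
          (mob (-1) 0 0 1 ((b / ((2 ^ (m + 2) : ℕ) : ℚ) : ℚ) : OnePoint ℚ))) b)) / u =
      f * ∑ b ∈ Finset.range (2 ^ (m + 2)), ζ ^ b *
      comb ((aX 2 f : ℕ) : ℤ) 25 1 (fun b => PhiUE R e (kSE R 1 kk') (kSE R (-1) kk') ∞
        (((b : ℚ) / 2 ^ (m + 2) : ℚ) : OnePoint ℚ) / (2 * (u * R.om R.i0))) b := by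
    have e0 : ∀ S : ℂ, (1 / 4 * (2 * (f : ℂ) * S)) / u = f * (S / (2 * u)) := by
      intro S
      field_simp
      norm_num
    rw [e0, Finset.sum_div]
    congr 1
    refine Finset.sum_congr rfl fun b _ => ?_
    rw [mul_div_assoc]
    congr 1
    unfold comb
    rw [Finset.sum_div]
    refine Finset.sum_congr rfl fun j _ => ?_
    rw [mul_div_assoc]
    congr 1
    beta_reduce
    rw [hPPU, hPPU]
    field_simp
  rw [e5, map_mul]
  have e9 : V.valuation (f : ℂ) = 1 := by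
    have := v1 f (by
      intro h
      exact hS.fp (by exact_mod_cast h))
    exact_mod_cast this
  rw [e9, one_mul, ← dH_eq A hA]
  exact h1

/-- the character sums, `D = -4`, `p = 2`, from the statement about the values -/
theorem h_HFIN4 (hT' : T4_TYF) : T4_HFIN :=
  hfin4Q Pool.Agent.N2Z.h_HU Pool.Agent.MEG.g_GPT4Q hT'

end

end Pool.Agent.ME2H


end
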