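import Mathlib
import Pool.Agent.MVF.C145
import Pool.Agent.MVF.C182

/-! Parts: ME2.I4_I31 -/

section

/-!
# ME2, block I, `D = -4`, `p = 2`, module I31 (helper36): one level, from blocks E and H

Model: `Pool/Agent/N2/IR_I31.lean`. The operator is `γ² - 1`, for `γ₀²` the power is `25 = 5²`.
-/

set_option autoImplicit false

namespace Pool.Agent.ME2I

open _root_.MU3 _root_.Pool.Agent.MU3 _root_.Pool.Agent.MU3A _root_.Pool.Agent.MU3B _root_.Pool.Agent.RI _root_.Pool.Agent.RID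
  _root_.Pool.Agent.MUX _root_.Pool.Agent.MUXK _root_.Pool.Agent.MUXI _root_.Pool.Agent.NSI _root_.Pool.Agent.ME2
open _root_.Pool.Agent.ME hiding ActE
open _root_.Pool.Agent.N2 (GoodQ et yt WT OddQ dR PTq)
open _root_.Pool.Agent.N2IR (I3Q NrRelY)
open _root_.Pool.Agent.N2IR.I31 (emb_nat val_prop sq_iff)
open _root_.Pool.Agent.MU3I (w3 zt St_ITG)

noncomputable section

namespace I31

/-- if the product is a square, then the sum is small -/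
theorem pows4 (hFOU : Sn_FOU) (hTG : St_ITG) {A B : ℤ} (V : ValuationSubring ℂ) (f : ℕ)
    {ι : Type} (R : RepsE A B (2 * f) ι) (u : ℂ)
    (n : ℕ) (D : IntermediateField ℚ ℂ) [FiniteDimensional ℚ D] (h : kk A B ≤ D)
    (C : (letI := algC h; D ≃ₐ[kk A B] D) → ℂ) (hE : EInp4 V f R u n h C) (w : OO A B → ℂ)
    (hw : OddQ f V w) :
    letI := algC h
    ∀ (_ : ∀ σ τ : D ≃ₐ[kk A B] D, σ * τ = τ * σ) (c₁ : ℂ) (hc : c₁ ∈ D) (_ : c₁ = C 1)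
      (γ : D ≃ₐ[kk A B] D) (Δ : Subgroup (D ≃ₐ[kk A B] D)) [Fintype Δ] (N : ℕ) (b : Δ → ℕ)
      (X : Δ →* ℂˣ) (_ : (∑ δ : Δ, (b δ : ℂ) * (X δ : ℂ)) ∉ V.nonunits) (y : D)
      (_ : y ^ 2 = ∏ δ : Δ, ((δ : D ≃ₐ[kk A B] D) ((Tg γ)^[N] ⟨c₁, hc⟩)) ^ b δ),
      V.valuation ((∑ j ∈ Finset.range (N + 1),
        (((-1 : ℤ) ^ (N - j) * (N.choose j : ℤ) : ℤ) : ℂ) *
        ∑ δ : Δ, (((X δ)⁻¹ : ℂˣ) : ℂ) * TT2E R w (lvX 2 f n)
          (aX 2 f) h (γ ^ j * (δ : D ≃ₐ[kk A B] D))) / u) ^ 4 ≤ V.valuation (2 : ℂ) ^ (2 * dR A + 3) := by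
  classical
  let akL : Algebra (kk A B) D := algC h
  intro comm c₁ hc hc1 γ Δ iΔ N b X hX y hy
  have fdk := Pool.Agent.FX.fd (kk A B) D
  have iG : Fintype (D ≃ₐ[kk A B] D) := Fintype.ofFinite _
  let e : ℕ → ℤ := fun j => (-1 : ℤ) ^ (N - j) * (N.choose j : ℤ)
  let g : (D ≃ₐ[kk A B] D) → ℤ := fun τ => ∑ δ : Δ, ∑ j ∈ Finset.range (N + 1),
      if (δ : D ≃ₐ[kk A B] D) * γ ^ j = τ then (b δ : ℤ) * e j else 0
  have hcτ : ∀ τ : D ≃ₐ[kk A B] D, ((τ ⟨c₁, hc⟩ : D) : ℂ) = C τ := by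
    intro τ
    obtain ⟨y', hy1, hy2⟩ := hE.conj τ
    have h3 : y' = ⟨c₁, hc⟩ := Subtype.ext (hy1.trans hc1.symm)
    rw [← h3]
    exact hy2
  have hcne : (⟨c₁, hc⟩ : D) ≠ 0 := by
    intro h0
    apply hE.ne
    have h1 : c₁ = 0 := congrArg Subtype.val h0
    rw [hc1] at h1
    exact h1
  have hu : ∀ τ : D ≃ₐ[kk A B] D, C τ ≠ 0 := by
    intro τ h0
    rw [← hcτ τ] at h0
    have h1 : τ (⟨c₁, hc⟩ : D) = 0 := Subtype.ext h0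
    exact hcne ((map_eq_zero_iff τ τ.injective).1 h1)
  have e1 : (y : ℂ) ^ 2 = ∏ᶠ τ : D ≃ₐ[kk A B] D, C τ ^ g τ := by
    rw [MU3I.I3F.prod_exp γ Δ _ hu (fun δ => (b δ : ℤ)) N e g (fun τ => rfl)]
    have h1 : (y : ℂ) ^ 2 = D.val (y ^ 2) := rfl
    rw [h1, hy, map_prod]
    refine Finset.prod_congr rfl fun δ _ => ?_
    rw [MU3I.I3F.tg_pow hTG _ _ γ δ _ hcne N (b δ), map_prod]
    refine Finset.prod_congr rfl fun j _ => ?_
    rw [map_zpow₀]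
    exact congrArg (fun w : ℂ => w ^ ((b δ : ℤ) * e j)) (hcτ ((δ : D ≃ₐ[kk A B] D) * γ ^ j))
  have e2 := hE.ew w hw g ⟨y, y.2, e1⟩
  obtain ⟨q1, q2, q3, q4⟩ := val_prop V u (2 * dR A + 3)
  refine hFOU V (fun x => V.valuation (x / u) ^ 4 ≤ V.valuation (2 : ℂ) ^ (2 * dR A + 3)) q1 q2 q3 q4
    (D ≃ₐ[kk A B] D) comm γ Δ
    (fun τ => TT2E R w (lvX 2 f n) (aX 2 f) h τ) (fun δ => (b δ : ℤ)) N e X ?_ ?_
  · simpa using hX
  · intro τ'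
    have e3 := e2 τ'
    rw [MU3I.I3F.sum_exp γ Δ (fun τ => TT2E R w (lvX 2 f n) (aX 2 f) h τ)
      (fun δ => (b δ : ℤ)) N e g (fun τ => rfl) τ'] at e3
    exact e3

lemma muX_ne4 {f : ℕ} (hf : f ≠ 0) {A B : ℤ} {ι : Type} (R : RepsE A B (2 * f) ι) (i : ι) :
    muXE R i ≠ 0 := by
  have h2 : nI (R.b i) ≠ 0 := by
    intro h
    have h1 := R.cop i
    rw [h, Nat.coprime_zero_left] at h1
    omega
  unfold muXE
  exact div_ne_zero (mul_ne_zero (R.nl i).om_ne (Nat.cast_ne_zero.2 h2)) (R.nl R.i0).om_ne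

lemma kkC_pow4 {f : ℕ} (hf : f ≠ 0) {A B : ℤ} {ι : Type} (R : RepsE A B (2 * f) ι) (kp : ι → ℂ)
    (r : ℕ) (hkp : ∀ i, kp i ^ r = 1) (i : ι) :
    kkC_E R kp (fun i => muXE R i) 1 i ^ (4 * r) = 1 := by
  have h1 : kp i * muXE R i / muXE R i = kp i := mul_div_cancel_right₀ _ (muX_ne4 hf R i)
  unfold kkC_E
  rw [h1, if_pos rfl, mul_one, show 4 * r = r * 4 by ring, pow_mul, hkp, one_pow]

end I31

/-- (I31) one level, `γ² - 1` -/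
theorem t4_I31 (hRES : Pool.Agent.MUXJ.Sj_RES) (hCHI : Si_CHI) (hFOU : Sn_FOU)
    (hTG : St_ITG) (hEPT : S4_EPQ) (hE0 : Sn_E0_E) (hARF : Si_ARF_E)
    (hXXF : Si_XXF_E) (hSUB : Sn_SUB_E) (hGAM : Si_GAM) (hXM : Sn_XMX_E) (hBIJ : Si_BIJ)
    (hTH : Sn_TH_E) (hGEN : Si_GEN) (hH : T4_HFIN) (hGAL : S_GALX) : S4_I31 := by
  classical
  intro A B P V f hS hTor ι iι R u el a1 a3 hG K Bn iK iKB hB hcop hKT hk hkK C hE c₀ mem hc₀ χ n₀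
  let aK : Algebra (kk A B) K := algC hkK
  have iP : Fact (Nat.Prime 2) := ⟨Nat.prime_two⟩
  have hCQ : CQ A B := hS.case.toCQ
  have hL : SetL 2 A B f := setL_4 hS
  have h2l : 2 ∣ lvX 2 f 0 := by
    unfold lvX
    rw [show q0 2 = 4 from rfl, pow_zero, mul_one]
    exact ⟨f * 2, by ring⟩
  have hpV : ((2 : ℕ) : ℂ) ∈ V.nonunits := by
    have h1 := (hS.hV ((2 : ℕ) : OO A B)).2 hS.hP.mem
    rwa [Pool.Agent.N2IR.I31.emb_nat] at h1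
  obtain ⟨iF1, iF2⟩ := hRES 2 V hpV
  have galK : IsGalois (kk A B) K := (isGalois_algC hkK).2 hB.gal
  have fdkK := Pool.Agent.FX.fd (kk A B) K
  have commK : ∀ a b : K ≃ₐ[kk A B] K, a * b = b * a := by
    intro a b
    have h1 := hB.ab ((extEquiv hkK).symm.autCongr a) ((extEquiv hkK).symm.autCongr b)
    rw [← map_mul, ← map_mul] at h1
    exact (extEquiv hkK).symm.autCongr.injective h1
  have iG0 : Fintype (K ≃ₐ[kk A B] K) := Fintype.ofFinite _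
  have hcard : Fintype.card (K ≃ₐ[kk A B] K) =
      Module.finrank (kk A B) (IntermediateField.extendScalars hB.hk) := by
    rw [← Nat.card_eq_fintype_card, IsGalois.card_aut_eq_finrank]
    exact (extEquiv hkK).toLinearEquiv.finrank_eq
  have hc3 : ¬ 2 ∣ Fintype.card (K ≃ₐ[kk A B] K) := by
    rw [hcard]
    exact hcop
  obtain ⟨X, θ, hXθ⟩ := hCHI 2 V hpV iF1 iF2 (K ≃ₐ[kk A B] K) commK hc3 χ
  obtain ⟨rr, hrr⟩ : ∃ rr, rr = Fintype.card (K ≃ₐ[kk A B] K) := ⟨_, rfl⟩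
  have hXr : ∀ τ, X τ ^ rr = 1 := by
    intro τ
    rw [hrr, ← map_pow, pow_card_eq_one, map_one]
  rw [← hrr] at hc3
  obtain ⟨e0, kp, h01, h0m, h0mul, h0per, h0supp, h0pow, h0un, hkp, h0X⟩ := hE0 2 A B f hL hS.case
    h2l hTor ι R K hkK hKT galK X _ hXr
  obtain ⟨w, e, hw, hef, hepow, hes⟩ := hEPT A B P V f hS e0 rr hc3 h01 h0mul h0per h0supp
    h0pow h0un
  have hei := hef.toIsEIE
  have hkk := I31.kkC_pow4 hS.f0 R kp rr hkp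
  obtain ⟨n, hn1, hnot⟩ := hH A B P V f hS hTor ι R u el a1 a3 hG e hef rr hc3 hepow
    (kkC_E R kp (fun i => muXE R i) 1) hkk (n₀ + 5)
  refine ⟨n, by omega, ?_⟩
  have hn2 : 5 ≤ n := by omega
  let akL : Algebra (kk A B) ↥(K ⊔ Bn n) := algC (hk n)
  intro γ hγ iN r hr
  obtain ⟨gal, comm⟩ := hGAL 2 (kk A B) K Bn hB n (hk n)
  have hNL : ∃ (b : Ideal (OO A B)) (L : PeriodPair) (om : ℂ), IsNE b L om :=
    ⟨_, _, _, R.nl R.i0⟩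
  have hsub := hSUB 2 A B f hL hTor hNL K hKT n (Bn n) (hB.lay n)
  obtain ⟨γ₀, hγ₀, hγ₀z⟩ := hGAM 2 (Or.inl rfl) (kk A B) K Bn hB n (hk n)
  have hXX := hXM 2 A B f hL hS.case h2l hTor ι R K (Bn n) n (hk n) (hB.lay n) hsub gal γ₀ hγ₀z
  obtain ⟨hbij, hrmul⟩ := hBIJ 2 (kk A B) K Bn hB n (hk n) hkK r hr
  have fdk := Pool.Agent.FX.fd (kk A B) ↥(K ⊔ Bn n)
  have iG : Finite (↥(K ⊔ Bn n) ≃ₐ[kk A B] ↥(K ⊔ Bn n)) := inferInstance
  let rh : NC (hk n) (Bn n) →* (K ≃ₐ[kk A B] K) := MonoidHom.mk' r hrmul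
  let X' : NC (hk n) (Bn n) →* ℂˣ := X.comp rh
  have hX'θ : (∑ δ : NC (hk n) (Bn n),
      (((θ ((χ (r δ))⁻¹ : (IsLocalRing.ResidueField V)ˣ)).val : ℕ) : ℂ) * (X' δ : ℂ)) ∉
        V.nonunits := by
    have h1 : (∑ δ : NC (hk n) (Bn n),
      (((θ ((χ (r δ))⁻¹ : (IsLocalRing.ResidueField V)ˣ)).val : ℕ) : ℂ) * (X' δ : ℂ)) =
        ∑ δ : K ≃ₐ[kk A B] K,
      (((θ ((χ δ)⁻¹ : (IsLocalRing.ResidueField V)ˣ)).val : ℕ) : ℂ) * (X δ : ℂ) :=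
      Fintype.sum_bijective r hbij _ _ fun δ => rfl
    rw [h1]
    exact hXθ
  have hKD : K ≤ K ⊔ Bn n := le_sup_left
  have hq3 : q0 2 = 4 := by simp [q0]
  have hm2 : 2 ≤ lvX 2 f n := by
    have h2 : 1 ≤ 2 ^ n := Nat.one_le_pow _ _ (by norm_num)
    have h3 : 1 ≤ f := Nat.one_le_iff_ne_zero.2 hS.f0
    unfold lvX
    rw [hq3]
    nlinarith [Nat.mul_le_mul h3 h2]
  have hm0 : (idl (A := A) (B := B) (lvX 2 f n)) ≠ ⊥ := by
    intro h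
    have h1 : ((lvX 2 f n : ℕ) : OO A B) = 0 := Ideal.span_singleton_eq_bot.1 h
    have h2 := congrArg emb h1
    rw [Pool.Agent.N2IR.I31.emb_nat] at h2
    have h3 : emb (0 : OO A B) = 0 := by
      unfold emb
      simp
    rw [h3] at h2
    have h4 : lvX 2 f n = 0 := by exact_mod_cast h2
    omega
  have hlv : lvX 2 f 0 ∣ lvX 2 f n := by
    unfold lvX
    rw [pow_zero, mul_one]
    exact dvd_mul_right _ _
  have h2n : 2 ∣ lvX 2 f n := h2l.trans hlv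
  have hle : idl (A := A) (B := B) (lvX 2 f n) ≤ idl (lvX 2 f 0) := by
    refine Ideal.span_singleton_le_span_singleton.2 ?_
    exact_mod_cast Nat.cast_dvd_cast hlv
  have hchi : ∀ (δ : NC (hk n) (Bn n)) (j : ℕ),
      ∀ q ∈ XXE R (lvX 2 f n) (hk n) (γ₀ ^ j * (δ : ↥(K ⊔ Bn n) ≃ₐ[kk A B] ↥(K ⊔ Bn n))),
      (((X' δ)⁻¹ : ℂˣ) : ℂ) = kp q.1 * e0 (Quotient.out q.2) := by
    intro δ j q hq
    have hqc : IsCoprime (Quotient.out q.2 : OO A B) ((lvX 2 f n : ℕ) : OO A B) := hq.1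
    have h1 := hXXF A B hS.case hTor (2 * f) ι R (lvX 2 f n) (by omega) h2n (K ⊔ Bn n) (hk n)
      hsub gal
    have hq2 : (q.1, Ideal.Quotient.mk (idl (A := A) (B := B) (lvX 2 f n))
        (Quotient.out q.2)) = q := Prod.ext rfl (Quotient.out_eq' q.2)
    have h2 := (h1.1 (γ₀ ^ j * (δ : ↥(K ⊔ Bn n) ≃ₐ[kk A B] ↥(K ⊔ Bn n))) q.1
      (Quotient.out q.2) hqc).1 (by rw [hq2]; exact hq) |>.2
    obtain ⟨-, -, -, -, -, h3, -⟩ := hARF A B hCQ hTor hNL (idl (lvX 2 f n)) hm0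
      (Hit.idl_le h2n) (K ⊔ Bn n) (hk n) hsub gal
    have hγj : ∀ (i : ℕ) (z : ↥(K ⊔ Bn n)), (z : ℂ) ∈ K → (γ₀ ^ i) z = z := by
      intro i z hz
      induction i with
      | zero => rfl
      | succ i ih =>
        rw [pow_succ, AlgEquiv.mul_apply, (hγ₀ z).2 hz, ih]
    have h4 := h3 K hkK (idl (lvX 2 f 0)) hle hKD
      (γ₀ ^ j * (δ : ↥(K ⊔ Bn n) ≃ₐ[kk A B] ↥(K ⊔ Bn n))) (r δ)
      (sp (Quotient.out q.2) * cjI (R.b q.1)) (by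
        intro x x' hx
        rw [AlgEquiv.mul_apply]
        have h5 := hr δ x x' hx
        have h6 : (((δ : ↥(K ⊔ Bn n) ≃ₐ[kk A B] ↥(K ⊔ Bn n)) x' : ↥(K ⊔ Bn n)) : ℂ) ∈ K := by
          rw [h5]
          exact (r δ x).2
        rw [hγj j _ h6]
        exact h5) h2
    have hco : IsCoprime (Quotient.out q.2 : OO A B) ((lvX 2 f 0 : ℕ) : OO A B) := by
      have h7 : ((lvX 2 f 0 : ℕ) : OO A B) ∣ ((lvX 2 f n : ℕ) : OO A B) := by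
        exact_mod_cast Nat.cast_dvd_cast hlv
      exact hqc.of_isCoprime_of_dvd_right h7
    exact h0X (r δ) q.1 (Quotient.out q.2) hco h4
  -- the ideal `(2 f)`
  have hg1 : idl (A := A) (B := B) (lvX 2 f 0) ≤ idl (2 * f) := by
    refine Ideal.span_singleton_le_span_singleton.2 ?_
    have h1 : 2 * f ∣ lvX 2 f 0 := by
      unfold lvX
      rw [hq3, pow_zero, mul_one]
      exact ⟨2, by ring⟩
    exact_mod_cast Nat.cast_dvd_cast h1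
  have hg2 : idl (A := A) (B := B) (2 * f) ≤ idl f := by
    refine Ideal.span_singleton_le_span_singleton.2 ?_
    have h1 : f ∣ 2 * f := dvd_mul_left f 2
    exact_mod_cast Nat.cast_dvd_cast h1
  have hTHi := hTH 2 A B f hL hS.case h2l (idl (2 * f)) hg1 hg2 ι R n _ γ₀ (NC (hk n) (Bn n))
    (fun τ => XXE R (lvX 2 f n) (hk n) τ) hXX X' e0 kp (fun i => muXE R i) w e 1
    (fun x y hxy => h0per x y (hle hxy)) (fun x y hxy => hw.per x y (hg1 (hle hxy))) hei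
    (Or.inl rfl) (fun _ => rfl) (fun x hx => by rw [if_pos rfl, mul_one]; exact hes x hx) hchi
  -- the statement for `γ₀`
  have hcne : c₀ n ≠ 0 := by
    rw [hc₀ n hn2]
    exact (hE n hn2).ne
  have key0 : ∀ y : ↥(K ⊔ Bn n), y ^ 2 ≠ ∏ δ : NC (hk n) (Bn n),
      ((δ : ↥(K ⊔ Bn n) ≃ₐ[kk A B] ↥(K ⊔ Bn n)) ((Tg (γ₀ ^ 2))^[1] ⟨c₀ n, mem n⟩)) ^
        (θ ((χ (r δ))⁻¹ : (IsLocalRing.ResidueField V)ˣ)).val := by
    intro y hy
    have hHf := I31.pows4 hFOU hTG V f R u n (K ⊔ Bn n) (hk n) (C n) (hE n hn2) w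
      hw comm (c₀ n) (mem n) (hc₀ n hn2) (γ₀ ^ 2) (NC (hk n) (Bn n)) 1
      (fun δ => (θ ((χ (r δ))⁻¹ : (IsLocalRing.ResidueField V)ˣ)).val) X' hX'θ y hy
    refine absurd hHf (not_le_of_gt ?_)
    have hS1 : ∑ j ∈ Finset.range (1 + 1),
        (((-1 : ℤ) ^ (1 - j) * (Nat.choose 1 j : ℤ) : ℤ) : ℂ) *
        ∑ δ : NC (hk n) (Bn n), (((X' δ)⁻¹ : ℂˣ) : ℂ) * TT2E R w (lvX 2 f n)
          (aX 2 f) (hk n) ((γ₀ ^ 2) ^ j * (δ : ↥(K ⊔ Bn n) ≃ₐ[kk A B] ↥(K ⊔ Bn n))) =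
        1 / 4 * ∑ j ∈ Finset.range 2, (-1) ^ (1 - j) *
        (STXE R (lvX 2 f n) (2 ^ (n + 2)) (aX 2 f) e (kkC_E R kp (fun i => muXE R i) 1) (25 ^ j) +
          STXE R (lvX 2 f n) (2 ^ (n + 2)) (aX 2 f) e (kkC_E R kp (fun i => muXE R i) 1)
            (-(25 ^ j))) := by
      rw [Finset.mul_sum]
      refine Finset.sum_congr rfl fun j hj => ?_
      have hj1 : j ≤ 1 := by
        have := Finset.mem_range.1 hj
        omega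
      have hch : Nat.choose 1 j = 1 := by
        interval_cases j <;> rfl
      have h9 := hTHi (2 * j)
      have e1 : q0 2 * 2 ^ n = 2 ^ (n + 2) := by
        rw [hq3]
        ring
      have e2 : (1 + (q0 2 : ℤ)) ^ (2 * j) = 25 ^ j := by
        rw [hq3, pow_mul]
        norm_num
      rw [e1, e2] at h9
      have e3 : (γ₀ ^ 2) ^ j = γ₀ ^ (2 * j) := (pow_mul γ₀ 2 j).symm
      have h10 : ∑ δ : NC (hk n) (Bn n), (((X' δ)⁻¹ : ℂˣ) : ℂ) * TT2E R w (lvX 2 f n)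
          (aX 2 f) (hk n) ((γ₀ ^ 2) ^ j * (δ : ↥(K ⊔ Bn n) ≃ₐ[kk A B] ↥(K ⊔ Bn n))) =
          1 / 4 * (STXE R (lvX 2 f n) (2 ^ (n + 2)) (aX 2 f) e (kkC_E R kp (fun i => muXE R i) 1)
            (25 ^ j) + ((1 : ℤ) : ℂ) * STXE R (lvX 2 f n) (2 ^ (n + 2)) (aX 2 f) e
            (kkC_E R kp (fun i => muXE R i) 1) (-25 ^ j)) := by
        have hr2 : (rE A B : ℂ) = 2 := by
          unfold rE
          rw [if_pos hS.hB]
          norm_num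
        rw [e3, ← h9, hr2, Finset.mul_sum, Finset.mul_sum]
        refine Finset.sum_congr rfl fun δ _ => ?_
        unfold TT2E
        ring
      rw [h10, hch]
      push_cast
      ring
    rw [hS1]
    exact hnot
  have hcne' : (⟨c₀ n, mem n⟩ : ↥(K ⊔ Bn n)) ≠ 0 := fun h => hcne (congrArg Subtype.val h)
  have key : ∀ y : ↥(K ⊔ Bn n), y ^ 2 ≠ ∏ δ : NC (hk n) (Bn n),
      ((δ : ↥(K ⊔ Bn n) ≃ₐ[kk A B] ↥(K ⊔ Bn n)) ((Tg γ₀)^[2] ⟨c₀ n, mem n⟩)) ^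
        (θ ((χ (r δ))⁻¹ : (IsLocalRing.ResidueField V)ˣ)).val := by
    intro y hy
    obtain ⟨y', hy'⟩ := (sq_iff γ₀ (NC (hk n) (Bn n))
      (fun δ => (θ ((χ (r δ))⁻¹ : (IsLocalRing.ResidueField V)ˣ)).val) _ hcne').1 ⟨y, hy⟩
    exact key0 y' hy'
  have key2 := hGEN 2 (kk A B) K Bn hB n (hk n) (c₀ n) (mem n) hcne 2 γ₀ hγ₀
    (fun δ => (θ ((χ (r δ))⁻¹ : (IsLocalRing.ResidueField V)ˣ)).val) key γ hγ
  refine ⟨θ, fun y hy => ?_⟩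
  obtain ⟨y', hy'⟩ := (sq_iff γ (NC (hk n) (Bn n))
      (fun δ => (θ ((χ (r δ))⁻¹ : (IsLocalRing.ResidueField V)ˣ)).val) _ hcne').2 ⟨y, hy⟩
  exact key2 y' hy'

end

end Pool.Agent.ME2I


end
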