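import Mathlib
import Pool.Agent.MVF.C170
import Pool.Agent.MVF.C183
import Pool.Agent.MVF.C208

/-! Parts: ME2.I4_INPG, ME2.I4_INP, ME2.I4_CYC, ME2.I4_EPQ, ME2.IAll4 -/

section

/-!
# ME2, block I, module INPG (helper36): the inputs of block J, `p = 2`, `D = -4`

Model: `Pool/Agent/N2/IR_INPG.lean`.
-/

set_option autoImplicit false

open NumberField IsDedekindDomain

namespace Pool.Agent.ME2I

open _root_.MU3 _root_.Pool.Agent.MU3 _root_.Pool.Agent.MU3A _root_.Pool.Agent.MU3B _root_.Pool.Agent.RI _root_.Pool.Agent.RID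
  _root_.Pool.Agent.MUX _root_.Pool.Agent.MUXK _root_.Pool.Agent.MUXJ _root_.Pool.Agent.MUXW _root_.Pool.Agent.MUXZ _root_.Pool.Agent.NSI
  _root_.Pool.Agent.NSZ _root_.Pool.Agent.ME2
open _root_.Pool.Agent.ME hiding ActE
open _root_.Pool.Agent.N2 (GoodQ et yt WT OddQ dR PTq)
open _root_.Pool.Agent.MU3V (Sub GD)

noncomputable section

lemma lv_even4 (f n : ℕ) : 2 ∣ lvX 2 f n := by
  unfold lvX
  rw [show q0 2 = 4 from rfl]
  exact ⟨f * 2 * 2 ^ n, by ring⟩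

/-- the input of block I for the norm to any field `D ≤ RFE (lvX 2 f n)` -/
theorem eInp4 (hME : Sy_MEM) (hCX : Sy_CXS_E) (hEF : T4_EFIN)
    {A B : ℤ} {P : Ideal (OO A B)} {V : ValuationSubring ℂ} {f : ℕ}
    (hS : SetT4 A B P V f) (hT : TorXE A B) (hLV : Zl_LVX)
    {ι : Type} [Fintype ι] (R : RepsE A B (2 * f) ι) {u e a1 a3 : ℂ}
    (hG : GoodQ V (R.L R.i0) u e a1 a3) {H : ι → Finset ℂ}
    {θ : ∀ n : ℕ, (RFE (idl (A := A) (B := B) (lvX 2 f n)) : IntermediateField (kk A B) ℂ)}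
    (hth : ThN_E 2 f R H θ) (n : ℕ) (hn : 5 ≤ n) (D : IntermediateField ℚ ℂ) (h : kk A B ≤ D)
    (hD : ∀ y ∈ D, y ∈ RFE (idl (A := A) (B := B) (lvX 2 f n)))
    (hDc : InCycE A B f (2 ^ (n + 2)) D) :
    EInp4 V f R u n h (fun τ => cWt h (θ n) τ) := by
  obtain ⟨hl0, _, _, hl2, hlu, hodd, hac, _, _, hcop⟩ := hLV 2 A B f (setL_4 hS) n
  have hb : (idl (A := A) (B := B) (lvX 2 f n)) ≠ ⊥ := by
    intro hh
    apply hl0
    have := (Ideal.span_singleton_eq_bot.mp hh)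
    exact_mod_cast (by
      have h1 := congrArg (fun x : OO A B => x.re) this
      simpa using h1 : ((lvX 2 f n : ℕ) : ℤ) = 0)
  have := hT.fin _ hb
  have := hT.gal _ hb
  obtain ⟨h1, h2, h3, _, _⟩ := hME A B _ (hT.fin _ hb) (hT.gal _ hb) (hT.comm _ hb) D h hD (θ n)
    (hth.ne n)
  let := algC h
  have hconj : ∀ τ : D ≃ₐ[kk A B] D, ∃ y : D, (y : ℂ) = cWt h (θ n) 1 ∧
      ((τ y : D) : ℂ) = cWt h (θ n) τ := by
    intro τ
    refine ⟨⟨cWt h (θ n) 1, (h2 1).1⟩, rfl, ?_⟩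
    have hm : cW h (θ n) ∈ D := by rw [h1]; exact (h2 1).1
    have := h3 τ hm
    have he : (⟨cWt h (θ n) 1, (h2 1).1⟩ : D) = ⟨cW h (θ n), hm⟩ := Subtype.ext h1.symm
    rw [he]; exact this
  refine ⟨(h2 1).2, hconj, ?_⟩
  intro om hom g hg τ'
  refine (hEF A B P V f hS hT ι R u e a1 a3 hG om hom n hn H hth.half D h hD hDc
    (fun τ => cWt h (θ n) τ) hconj ?_).2 g hg τ'
  intro τ
  obtain ⟨S, hS1, hS2, hS3⟩ := hCX A B hS.case hT (2 * f) ι R (lvX 2 f n) hl0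
    (lv_even4 f n) (fun i => hcop _ (R.cop i)) hl2 (aX 2 f) H (by unfold aX; omega) hac hth.half (θ n)
    (hth.ptE n) D h hD τ
  exact ⟨S, ⟨fun q hq => (hS1 q).2 (Or.inl hq), fun q hq => (hS1 q).1 hq, hS2⟩, hS3⟩

/-- the inputs of block J -/
theorem t4_INPG0 (hRF : T4_RFIN) (hEF : T4_EFIN) (hINP : S4_INP) (hCYC : S4_CYC)
    (hLV : Zl_LVX) (hIW : Zl_INW_E) (hSUB : Sn_SUB_E) (hTH : Sz_THN_E) (hME : Sy_MEM)
    (hCX : Sy_CXS_E) : T4_INPG := by
  intro A B P V d hC hB hP hV hT hd0 hd2 hdD hkap f hf0 hfp hfd K₀ K Bn _ _ _ hX hK hH hk hk₀ hkK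
  have hCQ : CQ A B := hC.toCQ
  have hS : SetT4 A B P V f := by
    refine ⟨hC, hB, hP, hV, hf0, hfp, ?_, ?_⟩
    · have h1 : 8 * (d : ℤ) ∣ 8 * (f : ℤ) := mul_dvd_mul_left 8 (by exact_mod_cast hfd)
      exact hdD.trans h1
    · obtain ⟨κ, hκ⟩ := hkap
      have hle : idl (A := A) (B := B) f ≤ idl d := by
        refine Ideal.span_singleton_le_span_singleton.2 ?_
        exact_mod_cast Nat.cast_dvd_cast hfd
      refine ⟨κ, hκ.one, hκ.mul, hκ.unit, fun x y hxy => hκ.per x y (hle hxy), fun x hx => ?_⟩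
      refine hκ.pow x ?_
      rw [Ideal.isCoprime_iff_sup_eq] at hx ⊢
      exact top_le_iff.1 (hx ▸ sup_le_sup_left hle _)
  have hL : SetL 2 A B f := setL_4 hS
  have : Fact (Nat.Prime 2) := ⟨Nat.prime_two⟩
  obtain ⟨R⟩ := Pool.Agent.MEZ.exists_reps hC (2 * f)
  have hodd := (hLV 2 A B f hL 0).2.2.2.2.2.1
  obtain ⟨H, hHalf, hθ⟩ := hTH A B hCQ hT (2 * f) Unit R (aX 2 f) hodd
  have hθ' : ∀ n : ℕ, ∃ θ : (RFE (idl (A := A) (B := B) (lvX 2 f n)) :
      IntermediateField (kk A B) ℂ),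
      (θ : ℂ) = ThetaH (R.L R.i0) (H R.i0) (ptE R (lvX 2 f n) R.i0 1) ∧
      (θ : ℂ) = ThetaH (R.L R.i0) (H R.i0) (R.om R.i0 / emb ((lvX 2 f n : ℕ) : OO A B)) ∧
      θ ≠ 0 := fun n =>
    hθ (lvX 2 f n) (hLV 2 A B f hL n).1 (hLV 2 A B f hL n).2.2.2.2.1
      (hLV 2 A B f hL n).2.2.2.2.2.2.1
  choose θ hθ1 hθ2 hθ3 using hθ'
  have hth : ThN_E 2 f R H θ := ⟨hHalf, hθ1, hθ2, hθ3⟩
  obtain ⟨S, hW⟩ := hIW 2 A B f hL hC (lv_even4 f 0) hT Unit R H θ hth K₀ K Bn hX hK hH hk hk₀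
  obtain ⟨u, e, a1, a3, hG, -, -⟩ := (hRF A B P V hC hB hP hV hT).1 _ _ _ (R.nl R.i0)
  have hNL : ∃ (b : Ideal (OO A B)) (L : PeriodPair) (om : ℂ), IsNE b L om :=
    ⟨_, _, _, R.nl R.i0⟩
  have hK₀ : ∀ y ∈ K₀, y ∈ RFE (idl (A := A) (B := B) (lvX 2 f 0)) := fun y hy => hK y (hX.le hy)
  have hDn : ∀ n, ∀ y ∈ K₀ ⊔ Bn n, y ∈ RFE (idl (A := A) (B := B) (lvX 2 f n)) := fun n =>
    hSUB 2 A B f hL hT hNL K₀ hK₀ n (Bn n) (hX.b0.lay n)
  refine ⟨S, fun n => cW (hk n) (θ n), fun n => cW (hk₀ n) (θ n), 0, ?_⟩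
  refine hINP A B P V f hS hT Unit R u e a1 a3 hG K₀ K Bn hX hK₀ hk hk₀ hkK S _ _ 0 hW
    (fun n τ => cWt (hk₀ n) (θ n) τ) (fun n hn => ?_) (fun n hn => ?_)
  · exact eInp4 hME hCX hEF hS hT hLV R hG hth n hn (K₀ ⊔ Bn n) (hk₀ n) (hDn n)
      (hCYC A B f K₀ hK₀ n (Bn n) (hX.b0.lay n))
  · have hb : (idl (A := A) (B := B) (lvX 2 f n)) ≠ ⊥ := by
      intro hh
      apply (hLV 2 A B f hL n).1
      have := (Ideal.span_singleton_eq_bot.mp hh)
      exact_mod_cast (by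
        have h1 := congrArg (fun x : OO A B => x.re) this
        simpa using h1 : ((lvX 2 f n : ℕ) : ℤ) = 0)
    exact (hME A B _ (hT.fin _ hb) (hT.gal _ hb) (hT.comm _ hb) _ (hk₀ n) (hDn n) (θ n)
      (hth.ne n)).1

end

end Pool.Agent.ME2I


end

section

/-!
# ME2, block I, `D = -4`, `p = 2`, module INP (helper36): the inputs of block K
-/

set_option autoImplicit false

namespace Pool.Agent.ME2I

open _root_.MU3 _root_.Pool.Agent.MU3 _root_.Pool.Agent.MU3A _root_.Pool.Agent.MU3B _root_.Pool.Agent.RI _root_.Pool.Agent.RID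
  _root_.Pool.Agent.MUX _root_.Pool.Agent.MUXK _root_.Pool.Agent.MUXI _root_.Pool.Agent.NSI _root_.Pool.Agent.ME2
open _root_.Pool.Agent.ME hiding ActE
open _root_.Pool.Agent.N2IR (I3Q NrRelY Sr_LEM1Y)

noncomputable section

/-- (INP) the inputs of block K -/
theorem t4_INP (h1 : S4_I31) (h2 : Sr_LEM1Y) (h3 : Sn_NRX) : S4_INP := by
  intro A B P V f hS hTor ι iι R u el a1 a3 hG K₀ K Bn ik iK iKB hX hKT hk hk₀ hkK S c c₀ n₁ hW C
    hE hc₀
  have iP : Fact (Nat.Prime 2) := ⟨Nat.prime_two⟩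
  have iK₀ : FiniteDimensional ℚ K₀ := Pool.Agent.NSI.INP.fd hX.le
  have iKB₀ : ∀ n, FiniteDimensional ℚ ↥(K₀ ⊔ Bn n) := fun n =>
    Pool.Agent.NSI.INP.fd (E' := K ⊔ Bn n) (sup_le_sup_right hX.le _)
  have hNr : NrRelY 2 (kk A B) K₀ Bn hk₀ c₀ hW.mem₀ n₁ := by
    intro m n hm1 hm hmn γ hγ
    obtain ⟨C', hC', hC0, he⟩ := h3 2 (kk A B) K₀ K Bn hX hk hk₀ S c c₀ n₁ hW m n hm1 hmn γ hγ
    exact ⟨C', (le_sup_left : K₀ ≤ K₀ ⊔ Bn 1) hC', hC0, he⟩
  have hI3 : ∀ (χ : (letI := algC hkK; (↥K₀ ≃ₐ[kk A B] ↥K₀) →*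
      (IsLocalRing.ResidueField V)ˣ)) (N n₀ : ℕ), ∃ n, n₀ ≤ n ∧
      I3At (IsLocalRing.ResidueField V) 2 (kk A B) K₀ Bn hkK χ N n (hk₀ n) (c₀ n)
        (hW.mem₀ n) := by
    intro χ N n₀
    refine h2 (IsLocalRing.ResidueField V) 2 (kk A B) K₀ Bn hX.b0 hX.cop hX.om hk₀ hkK c₀ hW.mem₀
      (Pool.Agent.NSI.INP.c_ne hW) n₁ hNr χ (fun n₀ => ?_) N n₀
    exact h1 A B P V f hS hTor ι R u el a1 a3 hG K₀ Bn hX.b0 hX.cop hKT hk₀ hkK C hE c₀ hW.mem₀
      hc₀ χ n₀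
  exact
    { mem := hW.mem
      ne := hW.ne
      mem₀ := hW.mem₀
      norm := hW.norm
      prime := hW.prime
      su := hW.su
      nrm := hW.nrm
      kol := hW.kol
      i3 := hI3 }

end

end Pool.Agent.ME2I


end

section

/-!
# ME2, block I, `D = -4`, `p = 2`: CYC (model: `N2/I_CYC.lean`, helper45)
-/

set_option autoImplicit false

namespace Pool.Agent.ME2I

open _root_.MU3 _root_.Pool.Agent.MU3 _root_.Pool.Agent.MU3A _root_.Pool.Agent.MU3B _root_.Pool.Agent.RI _root_.Pool.Agent.RID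
  _root_.Pool.Agent.MUX _root_.Pool.Agent.MUXK _root_.Pool.Agent.MUXI _root_.Pool.Agent.NSI _root_.Pool.Agent.ME2
open _root_.Pool.Agent.ME hiding ActE
open _root_.Pool.Agent.MU3I (w3 zt)

noncomputable section

theorem t4_CYC (h1 : Pool.Agent.MUXI.Si_LAY) : S4_CYC := by
  intro A B f K hK n Bn hBn σ _ hRF hz y hy
  set S : Subfield ℂ := RingHom.eqLocusField (σ : ℂ →+* ℂ) (RingHom.id ℂ) with hS
  have hmem : ∀ x : ℂ, x ∈ S ↔ σ x = x := fun x => Iff.rfl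
  have halg : ∀ x : ℚ, algebraMap ℚ ℂ x ∈ S := by
    intro x
    rw [hmem]
    simp
  set F : IntermediateField ℚ ℂ := S.toIntermediateField halg with hF
  have hmemF : ∀ x : ℂ, x ∈ F ↔ σ x = x := fun x => Iff.rfl
  have hKF : K ≤ F := by
    intro x hx
    rw [hmemF]
    exact hRF x (hK x hx)
  have hBF : Bn ≤ F := by
    rw [h1 2 n (Or.inl rfl) Bn hBn, IntermediateField.adjoin_le_iff, Set.singleton_subset_iff]
    have hM : q0 2 * 2 ^ n = 2 ^ (n + 2) := by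
      have : q0 2 = 4 := by simp [q0]
      rw [this]; ring
    have hzt : (zt (q0 2 * 2 ^ n)) ^ (2 ^ (n + 2)) = 1 := by
      rw [hM]
      unfold zt
      rw [← Complex.exp_nat_mul, Complex.exp_eq_one_iff]
      refine ⟨1, ?_⟩
      push_cast
      field_simp
    have h2 : σ (zt (q0 2 * 2 ^ n)) = zt (q0 2 * 2 ^ n) := hz _ hzt
    refine (hmemF _).2 ?_
    rw [map_add, map_inv₀, h2]
  have hsup : K ⊔ Bn ≤ F := sup_le hKF hBF
  exact (hmemF y).1 (hsup hy)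

end

end Pool.Agent.ME2I


end

section

/-!
# ME2, block I, `D = -4`, `p = 2`, module EPQ: the weights and the odd character (model: `N2/IR_EPQ.lean`)
-/

set_option autoImplicit false

namespace Pool.Agent.ME2I

open _root_.MU3 _root_.Pool.Agent.MU3 _root_.Pool.Agent.MU3A _root_.Pool.Agent.MU3B _root_.Pool.Agent.RI _root_.Pool.Agent.RID
  _root_.Pool.Agent.MUX _root_.Pool.Agent.MUXK _root_.Pool.Agent.MUXI _root_.Pool.Agent.NSI _root_.Pool.Agent.ME2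
open _root_.Pool.Agent.ME hiding ActE
open _root_.Pool.Agent.N2 (GoodQ et yt WT OddQ dR PTq)
open _root_.Pool.Agent.MU3I (w3 zt)

noncomputable section

private lemma epq4_lv_ME2I4_EPQ (f : ℕ) : lvX 2 f 0 = 2 * (2 * f) := by
  simp [lvX, q0]
  ring

private lemma epq4_cop_ME2I4_EPQ {A B : ℤ} (f : ℕ) (x : OO A B) :
    IsCoprime x ((lvX 2 f 0 : ℕ) : OO A B) ↔ IsCoprime x ((2 * f : ℕ) : OO A B) := by
  rw [epq4_lv_ME2I4_EPQ]
  push_cast
  rw [IsCoprime.mul_right_iff, IsCoprime.mul_right_iff]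
  tauto

/-- a unit modulo `2` has square `1` modulo `2` -/
private lemma epq4_sq_ME2I4_EPQ {A : ℤ} (z : OO A 0) (h : IsCoprime z 2) : (2 : OO A 0) ∣ z ^ 2 - 1 := by
  obtain ⟨u, v, h⟩ := h
  have h1 : u.re * z.re + A * u.im * z.im + v.re * 2 = 1 := by
    have := congrArg QuadraticAlgebra.re h
    simpa [QuadraticAlgebra.re_ofNat, QuadraticAlgebra.im_ofNat, QuadraticAlgebra.re_one] using this
  have h2 : u.re * z.im + u.im * z.re + v.im * 2 = 0 := by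
    have := congrArg QuadraticAlgebra.im h
    simpa [QuadraticAlgebra.re_ofNat, QuadraticAlgebra.im_ofNat, QuadraticAlgebra.im_one] using this
  have h3 : ((z.re ^ 2 + A * z.im ^ 2 - 1 : ℤ) : ZMod 2) = 0 := by
    have g1 := congrArg (fun n : ℤ => (n : ZMod 2)) h1
    have g2 := congrArg (fun n : ℤ => (n : ZMod 2)) h2
    push_cast at g1 g2 ⊢
    have two : (2 : ZMod 2) = 0 := by decide
    rw [two, mul_zero, add_zero] at g1 g2
    generalize (z.re : ZMod 2) = a at *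
    generalize (z.im : ZMod 2) = b at *
    generalize (u.re : ZMod 2) = c at *
    generalize (u.im : ZMod 2) = d at *
    generalize (A : ZMod 2) = e at *
    revert a b c d e
    decide
  rw [ZMod.intCast_zmod_eq_zero_iff_dvd] at h3
  obtain ⟨k, hk⟩ := h3
  refine ⟨⟨k, z.re * z.im⟩, ?_⟩
  apply QuadraticAlgebra.ext
  · simp only [pow_two, QuadraticAlgebra.re_sub, QuadraticAlgebra.re_mul,
      QuadraticAlgebra.re_ofNat, QuadraticAlgebra.im_ofNat, QuadraticAlgebra.re_one]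
    push_cast at hk
    linarith
  · simp only [pow_two, QuadraticAlgebra.im_sub, QuadraticAlgebra.im_mul,
      QuadraticAlgebra.re_ofNat, QuadraticAlgebra.im_ofNat, QuadraticAlgebra.im_one]
    ring

/-- the fourth power of an element prime to `2` and `1` modulo `f`, `f` odd, is `1` modulo `4 f` -/
private lemma epq4_four_ME2I4_EPQ {A : ℤ} (f : ℕ) (hf : ¬ 2 ∣ f) (z : OO A 0) (h : IsCoprime z 2)
    (h1 : ((f : ℕ) : OO A 0) ∣ z - 1) : ((2 * (2 * f) : ℕ) : OO A 0) ∣ z ^ 4 - 1 := by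
  have h2 : (4 : OO A 0) ∣ z ^ 4 - 1 := by
    obtain ⟨s, hs⟩ := epq4_sq_ME2I4_EPQ z h
    refine ⟨s + s ^ 2, ?_⟩
    have : z ^ 2 = 1 + 2 * s := by linear_combination hs
    have h4 : z ^ 4 = (z ^ 2) ^ 2 := by ring
    rw [h4, this]
    ring
  have h3 : ((f : ℕ) : OO A 0) ∣ z ^ 4 - 1 := by
    have : z ^ 4 - 1 = (z - 1) * (z ^ 3 + z ^ 2 + z + 1) := by ring
    rw [this]
    exact h1.mul_right _
  have h5 : IsCoprime (4 : OO A 0) ((f : ℕ) : OO A 0) := by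
    have h6 : Nat.Coprime 4 f := by
      have : Nat.Coprime 2 f := (Nat.Prime.coprime_iff_not_dvd Nat.prime_two).2 hf
      have h7 := Nat.Coprime.pow_left 2 this
      simpa using h7
    have h7 := Nat.isCoprime_iff_coprime.2 h6
    have h8 := h7.map (Int.castRingHom (OO A 0))
    simpa using h8
  have h6 := h5.mul_dvd h2 h3
  have e : ((2 * (2 * f) : ℕ) : OO A 0) = 4 * ((f : ℕ) : OO A 0) := by
    push_cast
    ring
  rw [e]
  exact h6

private lemma epq4_key_ME2I4_EPQ {A : ℤ} (f : ℕ) (hf : ¬ 2 ∣ f) (e0 : OO A 0 → ℂ) (r : ℕ) (hr : ¬ 2 ∣ r)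
    (h1 : e0 1 = 1) (hm : ∀ x y, e0 (x * y) = e0 x * e0 y)
    (hp : ∀ x y, x - y ∈ idl (A := A) (B := 0) (lvX 2 f 0) → e0 x = e0 y)
    (hs : ∀ x, e0 x ≠ 0 ↔ IsCoprime x ((lvX 2 f 0 : ℕ) : OO A 0))
    (hr1 : ∀ x, e0 x ≠ 0 → e0 x ^ r = 1) (x y : OO A 0)
    (hx : IsCoprime x ((2 * f : ℕ) : OO A 0)) (hy : IsCoprime y ((2 * f : ℕ) : OO A 0))
    (hxy : x - y ∈ idl (A := A) (B := 0) f) : e0 x = e0 y := by
  rw [← epq4_cop_ME2I4_EPQ] at hx hy
  obtain ⟨a, b, hab⟩ := hy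
  have ha : IsCoprime a ((lvX 2 f 0 : ℕ) : OO A 0) := ⟨y, b, by rw [mul_comm y a]; exact hab⟩
  have hz : IsCoprime (x * a) ((lvX 2 f 0 : ℕ) : OO A 0) := hx.mul_left ha
  have hz2 : IsCoprime (x * a) 2 := by
    have h3 := hz
    rw [epq4_lv_ME2I4_EPQ] at h3
    push_cast at h3
    exact (IsCoprime.mul_right_iff.1 h3).1
  have hya : e0 (y * a) = 1 := by
    rw [← h1]
    refine hp _ _ ?_
    rw [Ideal.mem_span_singleton]
    exact ⟨-b, by linear_combination hab⟩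
  have hfz : ((f : ℕ) : OO A 0) ∣ x * a - 1 := by
    rw [Ideal.mem_span_singleton] at hxy
    obtain ⟨c, hc⟩ := hxy
    refine ⟨c * a - b * 4, ?_⟩
    rw [epq4_lv_ME2I4_EPQ] at hab
    push_cast at hab
    linear_combination a * hc + hab
  have h4 : e0 (x * a) ^ 4 = 1 := by
    have h5 : e0 ((x * a) ^ 4) = 1 := by
      rw [← h1]
      refine hp _ _ ?_
      rw [Ideal.mem_span_singleton, epq4_lv_ME2I4_EPQ]
      exact epq4_four_ME2I4_EPQ f hf _ hz2 hfz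
    have h6 : (x * a) ^ 4 = (x * a) * (x * a) * ((x * a) * (x * a)) := by ring
    rw [h6, hm, hm] at h5
    rw [← h5]
    ring
  have h5 : e0 (x * a) = 1 := by
    have h6 := hr1 _ ((hs _).2 hz)
    rw [← orderOf_eq_one_iff]
    have h7 := orderOf_dvd_of_pow_eq_one h4
    have h8 := orderOf_dvd_of_pow_eq_one h6
    have h9 : Nat.Coprime 4 r := by
      have : Nat.Coprime 2 r := (Nat.Prime.coprime_iff_not_dvd Nat.prime_two).2 hr
      have h7 := Nat.Coprime.pow_left 2 this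
      simpa using h7
    exact Nat.eq_one_of_dvd_coprimes h9 h7 h8
  calc e0 x = e0 x * e0 (y * a) := by rw [hya, mul_one]
    _ = e0 y * e0 (x * a) := by rw [hm, hm]; ring
    _ = e0 y := by rw [h5, mul_one]

/-- (EPQ) the weights and the odd character -/
theorem t4_EPQ : S4_EPQ := by
  intro A B P V f hS e0 r hr h1 hm hp hs hr1 hun
  have hCQ : MUX.CQ A B := hS.case.toCQ
  obtain rfl : B = 0 := hS.hB
  obtain ⟨κ, hκ⟩ := hS.kap
  have hle : idl (A := A) (B := 0) (2 * f) ≤ idl (A := A) (B := 0) f := by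
    rw [Ideal.span_singleton_le_span_singleton]
    exact ⟨2, by push_cast; ring⟩
  have hcf : ∀ x : OO A 0, IsCoprime x ((2 * f : ℕ) : OO A 0) →
      IsCoprime (sp x) (idl (A := A) (B := 0) f) := by
    intro x hx
    rw [Ideal.isCoprime_span_singleton_iff]
    push_cast at hx
    exact (IsCoprime.mul_right_iff.1 hx).2
  have hkey := epq4_key_ME2I4_EPQ f hS.fp e0 r hr h1 hm hp hs hr1
  have hsx : ∀ x : OO A 0, e0 x ≠ 0 ↔ IsCoprime x ((2 * f : ℕ) : OO A 0) := fun x =>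
    (hs x).trans (epq4_cop_ME2I4_EPQ f x)
  have hκ0 : ∀ x : OO A 0, IsCoprime x ((2 * f : ℕ) : OO A 0) → κ x ≠ 0 := by
    intro x hx h0
    have h2 := hκ.pow x (hcf x hx)
    rw [h0] at h2
    norm_num at h2
  have hκn : κ (-1) = -1 := by
    rw [hκ.unit (-1) isUnit_one.neg, MUX.emb_neg hCQ, MUX.emb_one hCQ]
  have hV2 : V.valuation (2 : ℂ) ≤ 1 := by
    rw [ValuationSubring.valuation_le_one_iff]
    have : (2 : ℂ) = 1 + 1 := by norm_num
    rw [this]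
    exact V.add_mem _ _ V.one_mem V.one_mem
  have hV2' : V.valuation (2 : ℂ) ^ 2 ≤ V.valuation (2 : ℂ) := by
    rw [pow_two]
    exact mul_le_of_le_one_left' hV2
  have hn : e0 (-1) = 1 := hun _ isUnit_one.neg
  refine ⟨κ, fun x => e0 x * κ x, ⟨?_, ?_, ?_⟩, ⟨⟨⟨?_, ?_, ?_, ?_, ?_⟩, ?_⟩, ?_⟩,
    ?_, fun x _ => rfl⟩
  · intro x
    have h2 : -x = -1 * x := by ring
    rw [h2, hκ.mul, hκn]
    ring
  · intro x y hxy
    exact hκ.per x y (hle hxy)
  · intro x hx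
    have h4 := hκ.pow x (hcf x hx)
    have h5 : (κ x - 1) * (κ x + 1) * (κ x ^ 2 + 1) = 0 := by linear_combination h4
    rcases mul_eq_zero.1 h5 with h6 | h6
    · rcases mul_eq_zero.1 h6 with h7 | h7
      · rw [h7]
        simp
      · have h8 : κ x - 1 = -2 := by linear_combination h7
        rw [h8, Valuation.map_neg]
        exact hV2'
    · have h7 : (κ x - 1) ^ 2 = -(2 * κ x) := by linear_combination h6
      rw [← map_pow, h7, Valuation.map_neg, map_mul]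
      have h8 : V.valuation (κ x) = 1 := by
        have h9 : V.valuation (κ x) ^ 4 = 1 := by rw [← map_pow, h4, map_one]
        rcases pow_eq_one_iff.1 h9 with h10 | h10
        · exact h10
        · omega
      rw [h8, mul_one]
  · simp only [h1, hκ.one]
    simp
  · intro x y
    simp only [hm, hκ.mul]
    ring
  · intro x y hxy
    simp only [hκ.per x y (hle hxy)]
    by_cases hx : IsCoprime x ((2 * f : ℕ) : OO A 0)
    · have hy : IsCoprime y ((2 * f : ℕ) : OO A 0) := by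
        rw [Ideal.mem_span_singleton] at hxy
        obtain ⟨c, hc⟩ := hxy
        have h2 : y = x + ((2 * f : ℕ) : OO A 0) * (-c) := by linear_combination -hc
        rw [h2]
        exact IsCoprime.add_mul_left_left hx _
      rw [hkey x y hx hy (hle hxy)]
    · have hy : ¬ IsCoprime y ((2 * f : ℕ) : OO A 0) := by
        intro hy
        apply hx
        rw [Ideal.mem_span_singleton] at hxy
        obtain ⟨c, hc⟩ := hxy
        have h2 : x = y + ((2 * f : ℕ) : OO A 0) * c := by linear_combination hc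
        rw [h2]
        exact IsCoprime.add_mul_left_left hy _
      rw [← hsx, not_not] at hx hy
      rw [hx, hy]
  · intro x
    rw [Ideal.isCoprime_span_singleton_iff, ← hsx, mul_ne_zero_iff]
    constructor
    · exact fun h => h.1
    · exact fun h => ⟨h, hκ0 x ((hsx x).1 h)⟩
  · simp only [hn, hκn]
    ring
  · intro z hz
    simp only [hun z hz, hκ.unit z hz, one_mul]
  · intro x y hx hy hxy
    simp only [hκ.per x y hxy, hkey x y hx hy hxy]
  · intro x hx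
    have h2 := left_ne_zero_of_mul hx
    have h3 := hκ.pow x (hcf x ((hsx x).1 h2))
    simp only
    rw [mul_pow, mul_comm 4 r, pow_mul, hr1 x h2, one_pow, one_mul, mul_comm r 4, pow_mul, h3,
      one_pow]

end

end Pool.Agent.ME2I


end

section

/-!
# ME2, block I without hypotheses (helper36): `p = 2`, `D = -4`; the inputs are blocks R, E, H
-/

set_option autoImplicit false

namespace Pool.Agent.ME2I

open _root_.Pool.Agent.MUXF _root_.Pool.Agent.MUXI _root_.Pool.Agent.MUXK _root_.Pool.Agent.NSI _root_.Pool.Agent.ME2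


theorem i4_EPQ : S4_EPQ := t4_EPQ
theorem i4_CYC : S4_CYC := t4_CYC i_LAY

theorem i4_I31 (hH : T4_HFIN) : S4_I31 :=
  t4_I31 Pool.Agent.MUXJ.j_RES i_CHI n_FOU Pool.Agent.MU3I.t_ITG i4_EPQ n_E0_E i_ARF_E i_XXF_E
    n_SUB_E i_GAM n_XMX_E i_BIJ n_TH_E i_GEN hH k_GALX

theorem i4_INP (hH : T4_HFIN) : S4_INP :=
  t4_INP (i4_I31 hH) (Pool.Agent.N2IR.tr_LEM1Y k_GALX k_RSX) n_NRX

/-- the result of block I for `D = -4`, `p = 2` -/
theorem i4_INPG (hRF : T4_RFIN) (hEF : T4_EFIN) (hH : T4_HFIN) : T4_INPG :=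
  t4_INPG0 hRF hEF (i4_INP hH) i4_CYC Pool.Agent.NSZ.tl_LVX (Pool.Agent.NSZ.l_INW_E n_SUB_E) n_SUB_E
    (Pool.Agent.MUXZ.tz_THN_E MUXW.y_THG_E) MUXW.y_MEM MUXW.y_CXS_E

end Pool.Agent.ME2I


end
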