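import Mathlib
import Pool.Agent.MVF.C149
import Pool.Agent.MVF.C190
import Pool.Agent.MVF.C203
import Pool.Agent.MVF.C204
import Pool.Agent.MVF.C207
import Pool.Agent.MVF.C209
import Pool.Agent.MVF.C210

/-! Parts: ME2.ZIn4, ME2.JFin2, ME2.JAll2 -/

section

/-!
# ME2: the inputs of block J for `D = -4`, `p = 2` from `T4_EFIN` (helper21)
-/

set_option autoImplicit false

namespace Pool.Agent.ME2

theorem zin4 (hEF : T4_EFIN) : T4_INPG :=
  Pool.Agent.ME2I.i4_INPG r4_RFIN hEF (Pool.Agent.ME2H.h_HFIN4 (t4_TYF r4_RFIN))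

end Pool.Agent.ME2


end

section

/-!
# ME: the final theorems for `p = 2`, `k = ℚ(i), ℚ(√-3)` and all finite abelian `K / k`, from (JT) in the frame E and the inputs of block J (helper21)
-/

set_option autoImplicit false

open NumberField IsDedekindDomain

namespace Pool.Agent.ME2

open _root_.MU3 _root_.Pool.Agent.MU3 _root_.Pool.Agent.MU3A _root_.Pool.Agent.MU3B _root_.Pool.Agent.RI _root_.Pool.Agent.RID
  _root_.Pool.Agent.MUX _root_.Pool.Agent.MUXK _root_.Pool.Agent.MUXE _root_.Pool.Agent.MUXJ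
open _root_.Pool.Agent.ME hiding ActE

/-- `p = 2`, `k = ℚ(i)` -/
theorem bdJ2_one (hEF : T4_EFIN) (hJ : ∀ A B : ℤ, CaseE A B → JTEx A B) :
    BdJ 2 (MUXZ.pA 1) (MUXZ.pB 1) := by
  refine bdJ_of (hJ _ _ case_one.1) ?_
  intro F M K _ hF h a hT hGal ha hK
  exact z_main42 t4_KAP (zin4 hEF) _ _ case_one.1 case_one.2 F M K hF h a hT hGal ha hK

/-- `p = 2`, `k = ℚ(√-3)` -/
theorem bdJ2_three (hG : T3_INPG) (hJ : ∀ A B : ℤ, CaseE A B → JTEx A B) :
    BdJ 2 (MUXZ.pA 3) (MUXZ.pB 3) := by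
  refine bdJ_of (hJ _ _ case_three.1) ?_
  intro F M K _ hF h a hT hGal ha hK
  exact z_main32 hG _ _ case_three.1 case_three.2 F M K hF h a hT hGal ha hK

end Pool.Agent.ME2


end

section

/-!
# `μ = 0` for `p = 2`, all imaginary quadratic fields and all their finite abelian extensions, no hypotheses (helper21)
-/

set_option autoImplicit false

open NumberField

namespace Pool.Agent.JT

open _root_.MU3 _root_.Pool.Agent.MU3A _root_.Pool.Agent.RI _root_.Pool.Agent.MUX _root_.Pool.Agent.MUXJ _root_.Pool.Agent.HB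

/-- `p = 2`, `k = ℚ(i)` -/
theorem finJ2_one : FinJ 2 1 := ME2.bdJ2_one (ME2F.f_EFIN ME2.r4_RFIN) JTE.torU_E

/-- `p = 2`, `k = ℚ(√-3)` -/
theorem finJ2_three : FinJ 2 3 := ME2.bdJ2_three ME2I.i3_T3_INPG JTE.torU_E

/-- `p = 2`, all `k` -/
theorem finJ2_all (d : ℕ) (hd : Squarefree d) : FinJ 2 d := by
  by_cases h1 : d = 1
  · subst h1
    exact finJ2_one
  · by_cases h3 : d = 3
    · subst h3
      exact finJ2_three
    · exact finJ2_non d hd h1 h3

/-- the final theorem for `p = 2` -/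
theorem final2J (k K : IntermediateField ℚ ℂ) [FiniteDimensional ℚ K] (h : k ≤ K)
    (h2 : Module.finrank ℚ k = 2) (hi : ∃ z ∈ k, (starRingEnd ℂ) z ≠ z)
    (hG : IsGalois k (IntermediateField.extendScalars h))
    (hc : ∀ σ τ : (IntermediateField.extendScalars h) ≃ₐ[k] (IntermediateField.extendScalars h),
      σ * τ = τ * σ) :
    ∃ C : ℕ, ∀ (n : ℕ) (Q : IntermediateField ℚ ℂ), IsLayer 2 n Q →
      padicValNat 2 (classNo (K ⊔ Q)) ≤ C * (n + 1) ^ C :=
  final_all finJ2_all k K h h2 hi hG hc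

end Pool.Agent.JT


end
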