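import Mathlib
import Pool.Agent.MVF.C110
import Pool.Agent.MVF.C117

/-! Parts: MUX.ZGrow, VB.V_FNP, VB.V_CNT, VB.V_IDX -/

section

/-!
# MUX: Iwasawa's growth formula with the polynomial bound gives `μ = 0` (helper3)
-/

set_option autoImplicit false

open Filter Topology

namespace Pool.Agent.MUXZ

open _root_.Pool.Agent.RI _root_.Pool.Agent.MUXJ

/-- a polynomial bound and the growth formula give `μ = 0` -/
theorem mu_zero (p : ℕ) (hp : p = 2 ∨ p = 3) (f : IntermediateField ℚ ℂ → ℕ)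
    (h : ∃ C : ℕ, ∀ (n : ℕ) (Q : IntermediateField ℚ ℂ), IsLayer p n Q → f Q ≤ C * (n + 1) ^ C)
    (mu lam nu : ℝ)
    (hg : ∃ n₀ : ℕ, ∀ n ≥ n₀, ∀ Q : IntermediateField ℚ ℂ, IsLayer p n Q →
      (f Q : ℝ) = mu * (p : ℝ) ^ n + lam * n + nu) : mu = 0 := by
  obtain ⟨C, hC⟩ := h
  obtain ⟨n₀, hn₀⟩ := hg
  obtain ⟨Bn, hlay, -, -⟩ := j_LAY p hp
  have hp1 : (1 : ℝ) < p := by rcases hp with rfl | rfl <;> norm_num
  have hp0 : (0 : ℝ) < p := by linarith
  set D : ℝ := C + |lam| + |nu| with hD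
  have hD0 : 0 ≤ D := by positivity
  have hbd : ∀ n ≥ n₀, |mu| ≤ D * p * ((((n + 1 : ℕ) : ℝ) ^ (C + 1)) / (p : ℝ) ^ (n + 1)) := by
    intro n hn
    have h1 := hn₀ n hn (Bn n) (hlay n)
    have h2 : ((f (Bn n) : ℕ) : ℝ) ≤ C * ((n : ℝ) + 1) ^ C := by
      exact_mod_cast hC n (Bn n) (hlay n)
    have h3 : (0 : ℝ) ≤ (f (Bn n) : ℝ) := by positivity
    have hpn : (0 : ℝ) < (p : ℝ) ^ n := by positivity
    have h4 : |mu| * (p : ℝ) ^ n ≤ D * ((n : ℝ) + 1) ^ (C + 1) := by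
      have e1 : |mu| * (p : ℝ) ^ n = |(f (Bn n) : ℝ) - lam * n - nu| := by
        rw [h1, ← abs_of_pos hpn, ← abs_mul, abs_of_pos hpn]
        congr 1
        ring
      rw [e1]
      have e2 : |(f (Bn n) : ℝ) - lam * n - nu| ≤ (f (Bn n) : ℝ) + |lam| * n + |nu| := by
        have a1 := abs_sub ((f (Bn n) : ℝ) - lam * n) nu
        have a2 := abs_sub (f (Bn n) : ℝ) (lam * n)
        rw [abs_mul, abs_of_nonneg h3, abs_of_nonneg (by positivity : (0 : ℝ) ≤ n)] at a2
        linarith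
      have hn1 : (1 : ℝ) ≤ (n : ℝ) + 1 := by
        have : (0 : ℝ) ≤ n := by positivity
        linarith
      have e3 : ((n : ℝ) + 1) ^ C ≤ ((n : ℝ) + 1) ^ (C + 1) :=
        pow_le_pow_right₀ hn1 (Nat.le_succ C)
      have e4 : (n : ℝ) ≤ ((n : ℝ) + 1) ^ (C + 1) := by
        calc (n : ℝ) ≤ (n : ℝ) + 1 := by linarith
          _ = ((n : ℝ) + 1) ^ 1 := (pow_one _).symm
          _ ≤ ((n : ℝ) + 1) ^ (C + 1) := pow_le_pow_right₀ hn1 (by omega)
      have e5 : (1 : ℝ) ≤ ((n : ℝ) + 1) ^ (C + 1) := one_le_pow₀ hn1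
      calc |(f (Bn n) : ℝ) - lam * n - nu| ≤ (f (Bn n) : ℝ) + |lam| * n + |nu| := e2
        _ ≤ C * ((n : ℝ) + 1) ^ (C + 1) + |lam| * ((n : ℝ) + 1) ^ (C + 1) +
            |nu| * ((n : ℝ) + 1) ^ (C + 1) := by
          have i1 : (C : ℝ) * ((n : ℝ) + 1) ^ C ≤ C * ((n : ℝ) + 1) ^ (C + 1) :=
            mul_le_mul_of_nonneg_left e3 (by positivity)
          have i2 : |lam| * n ≤ |lam| * ((n : ℝ) + 1) ^ (C + 1) :=
            mul_le_mul_of_nonneg_left e4 (abs_nonneg _)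
          have i3 : |nu| * 1 ≤ |nu| * ((n : ℝ) + 1) ^ (C + 1) :=
            mul_le_mul_of_nonneg_left e5 (abs_nonneg _)
          rw [mul_one] at i3
          linarith
        _ = D * ((n : ℝ) + 1) ^ (C + 1) := by rw [hD]; ring
    rw [pow_succ (p : ℝ) n]
    push_cast
    rw [show D * (p : ℝ) * (((n : ℝ) + 1) ^ (C + 1) / ((p : ℝ) ^ n * p)) =
      D * ((n : ℝ) + 1) ^ (C + 1) / (p : ℝ) ^ n by field_simp]
    rw [le_div_iff₀ hpn]
    exact h4
  have hlim : Tendsto (fun n : ℕ => D * p * ((((n + 1 : ℕ) : ℝ) ^ (C + 1)) / (p : ℝ) ^ (n + 1)))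
      atTop (𝓝 (D * p * 0)) :=
    ((tendsto_pow_const_div_const_pow_of_one_lt (C + 1) hp1).comp
      (tendsto_add_atTop_nat 1)).const_mul _
  rw [mul_zero] at hlim
  have : |mu| ≤ 0 := ge_of_tendsto hlim (eventually_atTop.2 ⟨n₀, hbd⟩)
  exact abs_eq_zero.1 (le_antisymm this (abs_nonneg _))

end Pool.Agent.MUXZ


end

section

/-!
# VB, module FNP (helper53): the main theorem for a field with `p`-th roots of unity
-/

set_option autoImplicit false

open NumberField IsDedekindDomain Filter Topology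
open scoped nonZeroDivisors Pointwise

namespace Pool.Agent.VB

open _root_.Pool.Agent.RI _root_.Pool.Agent.MU3 _root_.Pool.Agent.Lib_helper28.FROB

namespace FNP

/-- bounded families of inequivalent elements: finite index -/
theorem index_le {G : Type} [CommGroup G] (P K : Subgroup G) (N : ℕ)
    (h : ∀ T : Finset G, (∀ x ∈ T, x ∈ K) → (∀ x ∈ T, ∀ x' ∈ T, x ≠ x' → x / x' ∉ P) →
      T.card ≤ N) : P.relIndex K ≠ 0 ∧ P.relIndex K ≤ N := by
  classical
  have hb : ∀ U : Finset (K ⧸ P.subgroupOf K), U.card ≤ N := by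
    intro U
    have hinj : Function.Injective fun q : K ⧸ P.subgroupOf K => ((Quotient.out q : K) : G) := by
      intro a b hab
      have h1 : (Quotient.out a : K) = Quotient.out b := Subtype.ext hab
      rw [← Quotient.out_eq a, ← Quotient.out_eq b, h1]
    rw [← Finset.card_image_of_injective U hinj]
    refine h _ ?_ ?_
    · intro x hx
      obtain ⟨q, -, rfl⟩ := Finset.mem_image.1 hx
      exact (Quotient.out q : K).2
    · intro x hx x' hx' hne hdiv
      obtain ⟨q, -, rfl⟩ := Finset.mem_image.1 hx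
      obtain ⟨q', -, rfl⟩ := Finset.mem_image.1 hx'
      apply hne
      have hq : q = q' := by
        rw [← QuotientGroup.out_eq' q, ← QuotientGroup.out_eq' q', QuotientGroup.eq]
        rw [Subgroup.mem_subgroupOf]
        have h2 := P.inv_mem hdiv
        rw [inv_div] at h2
        have e : (((Quotient.out q)⁻¹ * Quotient.out q' : K) : G) =
            ((Quotient.out q' : K) : G) / ((Quotient.out q : K) : G) := by
          rw [Subgroup.coe_mul, Subgroup.coe_inv, div_eq_mul_inv, mul_comm]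
        rw [e]
        exact h2
      rw [hq]
  have hfin : Finite (K ⧸ P.subgroupOf K) := by
    by_contra hinf
    rw [not_finite_iff_infinite] at hinf
    obtain ⟨U, hU⟩ := Infinite.exists_subset_card_eq (K ⧸ P.subgroupOf K) (N + 1)
    have := hb U
    omega
  have := Fintype.ofFinite (K ⧸ P.subgroupOf K)
  have hc : P.relIndex K = Fintype.card (K ⧸ P.subgroupOf K) := by
    rw [Subgroup.relIndex, Subgroup.index, Nat.card_eq_fintype_card]
  rw [hc]
  exact ⟨Fintype.card_ne_zero, hb Finset.univ⟩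

/-- the action on the units -/
noncomputable def su (γ : ℂ ≃+* ℂ) : ℂˣ →* ℂˣ := Units.map (γ : ℂ →* ℂ)

theorem su_val (γ : ℂ ≃+* ℂ) (x : ℂˣ) : ((su γ x : ℂˣ) : ℂ) = γ x := rfl

theorem su_iter (γ : ℂ ≃+* ℂ) (k : ℕ) (x : ℂˣ) : (((⇑(su γ))^[k] x : ℂˣ) : ℂ) = (γ ^ k) x := by
  induction k with
  | zero => rfl
  | succ k ih =>
    rw [Function.iterate_succ_apply', su_val, ih, pow_succ']
    rfl

/-- `y^p = y'^p t^p` in terms of roots of unity -/
theorem adj_le_adj {p : ℕ} (hp : 0 < p) {E : IntermediateField ℚ ℂ} {ζ : ℂ} (hζE : ζ ∈ E)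
    (hζ : IsPrimitiveRoot ζ p) {y y' t : ℂ} (ht : t ∈ E) (ht0 : t ≠ 0) (hy : y ≠ 0)
    (h : t ^ p * y ^ p = y' ^ p) : adj E y' ≤ adj E y := by
  have : NeZero p := ⟨hp.ne'⟩
  have h1 : (y' / (t * y)) ^ p = 1 := by
    rw [div_pow, mul_pow, h]
    refine div_self (pow_ne_zero _ ?_)
    rintro rfl
    rw [zero_pow hp.ne'] at h
    exact mul_ne_zero (pow_ne_zero _ ht0) (pow_ne_zero _ hy) h
  obtain ⟨i, -, hi⟩ := hζ.eq_pow_of_pow_eq_one h1
  have h2 : y' = ζ ^ i * (t * y) := by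
    rw [hi]
    field_simp
  refine adj_le (le_adj E y) ?_
  rw [h2]
  exact mul_mem (le_adj E y (pow_mem hζE i)) (mul_mem (le_adj E y ht) (mem_adj E y))

end FNP

theorem tb_FNP (hTOW : Sb_TOW) (hLIM : Sb_LIM) (hDGR : Sb_DGR) (hBND : Sb_BND) (hABS : Sb_ABS)
    (hGRO : Sb_GRO) (hVD1 : Sb_VD1) (hKUF : Sb_KUF) : Sb_FNP := by
  intro p hpF F hFd B hlay hmono hTC hζ hC
  classical
  have hp : p.Prime := hpF.out
  obtain ⟨n₁, γ, hT⟩ := hTOW p F B hlay hmono hζ
  obtain ⟨l1, -, -⟩ := hLIM F B hmono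
  obtain ⟨C, hC⟩ := hC
  obtain ⟨ζ, hζF, hζ⟩ := hζ
  have hle : ∀ i j, i ≤ j → F ⊔ B (n₁ + i) ≤ F ⊔ B (n₁ + j) := fun i j hij =>
    sup_le_sup_left (hmono (by omega)) F
  have hle' : ∀ i, F ⊔ B i ≤ F ⊔ B (n₁ + i) := fun i => sup_le_sup_left (hmono (by omega)) F
  have hfd : ∀ i, FiniteDimensional ℚ ↥(F ⊔ B (n₁ + i)) := fun i => hT.fd _
  have hζi : ∀ i, ∃ ζ ∈ F ⊔ B (n₁ + i), IsPrimitiveRoot ζ p := fun i =>
    ⟨ζ, (le_sup_left : F ≤ F ⊔ B (n₁ + i)) hζF, hζ⟩
  have hd : ∀ i, _ := fun i => @hDGR p hpF (F ⊔ B (n₁ + i)) (hfd i) (hζi i)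
  -- the group `D`
  set E := Finf F B with hE
  have hFE : ∀ i, F ⊔ B (n₁ + i) ≤ E := fun i => le_Finf F B _
  have hζE : ζ ∈ E := (le_sup_left : F ≤ F ⊔ ⨆ n, B n) hζF
  have hup : ∀ i j, i ≤ j → ∀ x, InD p (F ⊔ B (n₁ + i)) x → InD p (F ⊔ B (n₁ + j)) x :=
    fun i j hij x hx => (hd i).2.2.2.1 _ (hle i j hij) x hx
  let D : Subgroup ℂˣ :=
    { carrier := {x | ∃ i, InD p (F ⊔ B (n₁ + i)) (x : ℂ)}
      mul_mem' := by
        rintro a b ⟨i, hi⟩ ⟨j, hj⟩
        refine ⟨max i j, ?_⟩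
        rw [Units.val_mul]
        exact (hd (max i j)).2.1 _ _ (hup _ _ (le_max_left i j) _ hi)
          (hup _ _ (le_max_right i j) _ hj)
      one_mem' := by
        refine ⟨0, ?_⟩
        have h1 := (hd 0).1 1 (one_mem _) one_ne_zero
        rw [one_pow] at h1
        rw [Units.val_one]
        exact h1
      inv_mem' := by
        rintro a ⟨i, hi⟩
        refine ⟨i, ?_⟩
        rw [Units.val_inv_eq_inv_val]
        exact (hd i).2.2.1 _ hi }
  have memD : ∀ x : ℂˣ, x ∈ D ↔ ∃ i, InD p (F ⊔ B (n₁ + i)) (x : ℂ) := fun x => Iff.rfl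
  set P : Subgroup ℂˣ := PL p E with hP
  have memP : ∀ x : ℂˣ, x ∈ P ↔ ∃ t : ℂˣ, (t : ℂ) ∈ E ∧ t ^ p = x := fun x => Iff.rfl
  have hPD : P ≤ D := by
    rintro x ⟨t, ht, rfl⟩
    obtain ⟨n, hn⟩ := l1 _ ht
    refine (memD _).2 ⟨n, ?_⟩
    rw [Units.val_pow_eq_pow_val]
    exact (hd n).1 _ (hle' n hn) t.ne_zero
  have hDp : ∀ x ∈ D, x ^ p ∈ P := by
    rintro x ⟨i, hi⟩
    exact (memP _).2 ⟨x, hFE i hi.1, rfl⟩
  -- `γ` acts
  have hγF : Fixes F γ := by
    have h1 := hT.fix 0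
    rw [pow_zero, pow_one] at h1
    exact fixes_mono le_sup_left h1
  have hstab : ∀ σ : ℂ ≃+* ℂ, Fixes F σ → ∀ i, ∀ x ∈ F ⊔ B (n₁ + i), σ x ∈ F ⊔ B (n₁ + i) := by
    intro σ hσ i
    have h1 : F ⊔ B (n₁ + i) ≤ PreF σ (F ⊔ B (n₁ + i)) := by
      refine sup_le (fun x hx => ?_) (fun x hx => ?_)
      · rw [mem_PreF, hσ x hx]
        exact (le_sup_left : F ≤ F ⊔ B (n₁ + i)) hx
      · rw [mem_PreF]
        exact (le_sup_right : B (n₁ + i) ≤ F ⊔ B (n₁ + i)) (hT.nrm _ σ (fixes_bot σ) x hx)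
    exact fun x hx => h1 hx
  have hsD : ∀ x ∈ D, FNP.su γ x ∈ D := by
    rintro x ⟨i, hi⟩
    refine (memD _).2 ⟨i, ?_⟩
    rw [FNP.su_val]
    exact (hd i).2.2.2.2 γ (hstab γ hγF i) (hstab γ⁻¹ (fixes_inv hγF) i) _ hi
  have hsP : ∀ x ∈ P, FNP.su γ x ∈ P := by
    rintro x ⟨t, ht, rfl⟩
    refine (memP _).2 ⟨FNP.su γ t, ?_, ?_⟩
    · obtain ⟨n, hn⟩ := l1 _ ht
      rw [FNP.su_val]
      exact hFE n (hstab γ hγF n _ (hle' n hn))
    · rw [map_pow]
  have hDm : ∀ x ∈ D, ∃ m : ℕ, (⇑(FNP.su γ))^[p ^ m] x / x ∈ P := by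
    rintro x ⟨i, hi⟩
    refine ⟨i, ?_⟩
    have h1 : (⇑(FNP.su γ))^[p ^ i] x = x := by
      refine Units.ext ?_
      rw [FNP.su_iter]
      exact hT.fix i _ hi.1
    rw [h1, div_self']
    exact P.one_mem
  -- the exponent
  obtain ⟨j, hj⟩ := hGRO p C n₁ hp
  set N := p ^ (padicValNat p (classNo (F ⊔ B (n₁ + (j + 1)))) + 1) with hN
  have hN2 : N < 2 ^ (p ^ j) := by
    refine lt_of_le_of_lt (Nat.pow_le_pow_right hp.pos ?_) hj
    have h1 := hC (n₁ + (j + 1))
    have e : n₁ + (j + 1) + 1 = n₁ + j + 2 := by omega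
    rw [e] at h1
    omega
  let K : Subgroup ℂˣ := D ⊓ P.comap (FNP.su (γ ^ p ^ j) / MonoidHom.id ℂˣ)
  have hsu : ∀ x : ℂˣ, FNP.su (γ ^ p ^ j) x = (⇑(FNP.su γ))^[p ^ j] x := by
    intro x
    refine Units.ext ?_
    rw [FNP.su_iter, FNP.su_val]
  have hK : ∀ x, x ∈ K ↔ x ∈ D ∧ (⇑(FNP.su γ))^[p ^ j] x / x ∈ P := by
    intro x
    rw [← hsu x]
    exact Iff.rfl
  obtain ⟨hK0, hKN⟩ := FNP.index_le P K N (by
    intro U hUK hUP
    refine hBND p F B n₁ γ hT hTC j U ?_ hUP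
    intro x hx
    obtain ⟨hxD, hxP⟩ := (hK x).1 (hUK x hx)
    refine ⟨(memD x).1 hxD, ?_⟩
    obtain ⟨t, ht, he⟩ := (memP _).1 hxP
    refine ⟨t, ht, ?_⟩
    rw [← FNP.su_val, hsu, ← Units.val_pow_eq_pow_val, he, Units.val_div_eq_div_val]
    field_simp)
  have hDP : P.relIndex D ≠ 0 := hABS ℂˣ p (FNP.su γ) D P hPD hsD hsP hDp hDm j K hK hK0
    (lt_of_le_of_lt hKN hN2)
  -- the extensions
  have hfi : (P.subgroupOf D).FiniteIndex := ⟨hDP⟩
  have hfin : Finite (D ⧸ P.subgroupOf D) := Subgroup.finite_quotient_of_finiteIndex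
  have hy : ∀ M : UM p E, ∃ y : ℂ, y ≠ 0 ∧ (M : IntermediateField ℚ ℂ) = adj E y ∧
      ∃ i, InD p (F ⊔ B (n₁ + i)) (y ^ p) := by
    rintro ⟨M, h, hG, hr, hU⟩
    obtain ⟨y, hyp, hyE, hM⟩ := hKUF p E M h ⟨ζ, hζE, hζ⟩ hG hr
    have hy0 : y ≠ 0 := by
      rintro rfl
      exact hyE (zero_mem E)
    obtain ⟨i, hi⟩ := l1 _ hyp
    refine ⟨y, hy0, hM, i + 1, ?_⟩
    refine hVD1 p F B n₁ γ hT i (y ^ p) y (hle' i hi) (pow_ne_zero _ hy0) rfl hyE ?_
    rw [← hM]
    exact hU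
  choose y hy0 hyM hyD using hy
  let f : UM p E → D ⧸ P.subgroupOf D := fun M =>
    QuotientGroup.mk ⟨Units.mk0 (y M ^ p) (pow_ne_zero _ (hy0 M)), hyD M⟩
  have hf : Function.Injective f := by
    intro M M' hMM
    have h1 := QuotientGroup.eq.1 hMM
    rw [Subgroup.mem_subgroupOf] at h1
    obtain ⟨t, ht, he⟩ := (memP _).1 h1
    have he' : (t : ℂ) ^ p = (y M ^ p)⁻¹ * y M' ^ p := by
      rw [← Units.val_pow_eq_pow_val, he]
      rfl
    have hn := pow_ne_zero p (hy0 M)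
    have hn' := pow_ne_zero p (hy0 M')
    have ht0 := t.ne_zero
    apply Subtype.ext
    rw [hyM M, hyM M']
    refine le_antisymm ?_ ?_
    · refine FNP.adj_le_adj hp.pos hζE hζ (t := (t : ℂ)⁻¹) (inv_mem ht) (inv_ne_zero ht0)
        (hy0 M') ?_
      rw [inv_pow, he']
      field_simp
    · refine FNP.adj_le_adj hp.pos hζE hζ ht ht0 (hy0 M) ?_
      rw [he']
      field_simp
  have := Finite.of_injective f hf
  exact Set.toFinite _

end Pool.Agent.VB


end

section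

/-!
# VB, module CNT (helper20): the number of elements with unramified `p`-th root
-/

set_option autoImplicit false

open NumberField IsDedekindDomain Filter Topology
open scoped nonZeroDivisors Pointwise

namespace Pool.Agent.VB

open _root_.Pool.Agent.RI _root_.Pool.Agent.MU3 _root_.Pool.Agent.Lib_helper28.FROB

noncomputable section

namespace CNT

open IntermediateField in
/-- `[L(y) : L] = p` -/
theorem finrank_adj (p : ℕ) [Fact p.Prime] (L : IntermediateField ℚ ℂ) (y : ℂ) (x : ℂ) (hx : x ∈ L)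
    (hy : y ^ p = x) (hn : ∀ t ∈ L, t ^ p ≠ x) :
    Module.finrank L (IntermediateField.extendScalars (le_adj L y)) = p := by
  have hp : p.Prime := Fact.out
  have hirr : Irreducible (Polynomial.X ^ p - Polynomial.C (⟨x, hx⟩ : L)) := by
    refine X_pow_sub_C_irreducible_of_prime hp fun b hb => hn b.1 b.2 ?_
    have := congrArg (Subtype.val) hb
    simpa using this
  have hroot : Polynomial.aeval y (Polynomial.X ^ p - Polynomial.C (⟨x, hx⟩ : L)) = 0 := by
    rw [map_sub, map_pow, Polynomial.aeval_X, Polynomial.aeval_C, hy]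
    exact sub_self x
  have hmonic : (Polynomial.X ^ p - Polynomial.C (⟨x, hx⟩ : L)).Monic :=
    Polynomial.monic_X_pow_sub_C _ hp.ne_zero
  have hmin := minpoly.eq_of_irreducible_of_monic hirr hroot hmonic
  have hint : IsIntegral L y := ⟨_, hmonic, hroot⟩
  have h1 : Module.finrank L (L⟮y⟯) = p := by
    rw [IntermediateField.adjoin.finrank hint, ← hmin, Polynomial.natDegree_X_pow_sub_C]
  have h2 : IntermediateField.extendScalars (le_adj L y) = L⟮y⟯ := by
    have h3 := IntermediateField.restrictScalars_adjoin_eq_sup (F := ℚ) L ({y} : Set ℂ)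
    ext z
    exact (SetLike.ext_iff.mp h3 z).symm
  rw [h2]
  exact h1

/-- `p`-th roots of unity are in `L` -/
theorem root_mem (p : ℕ) [Fact p.Prime] (L : IntermediateField ℚ ℂ)
    (hz : ∃ ζ ∈ L, IsPrimitiveRoot ζ p) {η : ℂ} (hη : η ^ p = 1) : η ∈ L := by
  obtain ⟨ζ, hζ, hp⟩ := hz
  obtain ⟨i, -, rfl⟩ := hp.eq_pow_of_pow_eq_one hη
  exact pow_mem hζ i

theorem nrm (p : ℕ) [Fact p.Prime] (L : IntermediateField ℚ ℂ)
    (hz : ∃ ζ ∈ L, IsPrimitiveRoot ζ p) {x y : ℂ} (hx : x ∈ L) (hx0 : x ≠ 0) (hy : y ^ p = x) :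
    Nrm L (adj L y) := by
  have hp : p.Prime := Fact.out
  have hy0 : y ≠ 0 := by
    rintro rfl
    rw [zero_pow hp.ne_zero] at hy
    exact hx0 hy.symm
  refine nrm_adj fun σ hσ => ?_
  have h1 : (σ y / y) ^ p = 1 := by
    rw [div_pow, ← map_pow, hy, hσ x hx, div_self hx0]
  have h2 : σ y = (σ y / y) * y := by rw [div_mul_cancel₀ _ hy0]
  rw [h2]
  exact mul_mem (le_adj L y (root_mem p L hz h1)) (mem_adj L y)

theorem fd (p : ℕ) [Fact p.Prime] (L : IntermediateField ℚ ℂ) [FiniteDimensional ℚ L] {x y : ℂ}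
    (hx : x ∈ L) (hy : y ^ p = x) : FiniteDimensional ℚ (adj L y) := by
  have hp : p.Prime := Fact.out
  have h1 : IsIntegral ℚ x := by
    have := Algebra.IsIntegral.isIntegral (R := ℚ) (⟨x, hx⟩ : L)
    exact this.map (L.val)
  have h2 : IsIntegral ℚ y := by
    rw [← hy] at h1
    exact IsIntegral.of_pow hp.pos h1
  have h3 : FiniteDimensional ℚ (IntermediateField.adjoin ℚ {y}) :=
    IntermediateField.adjoin.finiteDimensional h2
  exact IntermediateField.finiteDimensional_sup L (IntermediateField.adjoin ℚ {y})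

/-- the data attached to `x` -/
structure Dta (p : ℕ) (L : IntermediateField ℚ ℂ) [FiniteDimensional ℚ L] (x : ℂˣ) (y : ℂ)
    (U : Subgroup (ClassGroup (𝓞 L))) (S : Finset (HeightOneSpectrum (𝓞 L))) : Prop where
  hy : y ^ p = x
  hn : y ∉ L
  fd : FiniteDimensional ℚ (adj L y)
  nr : Nrm L (adj L y)
  cr : cR L (adj L y) = p
  un : UNR L (adj L y)
  ui : U.index = p
  hs : letI := algC (le_adj L y)
    ∀ v ∉ S, Pool.Agent.HB.Deg1 L (adj L y) v → cl L v ∈ U

end CNT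

open Classical in
theorem tb_CNT (h1 : Sb_FQC) (h2 : Sb_INJ) (h3 : Sb_CGP) (h4 : Sb_KFI) (h5 : Sb_CRD) : Sb_CNT := by
  intro p _ L _ hTC hz T hT hne
  have hp : p.Prime := Fact.out
  -- the data for an element
  have hD : ∀ x : ℂˣ, x ∈ T → x ∉ PL p L → ∃ (y : ℂ) (U : Subgroup (ClassGroup (𝓞 L)))
      (S : Finset (HeightOneSpectrum (𝓞 L))), CNT.Dta p L x y U S := by
    intro x hx hxP
    obtain ⟨hxL, hx0, hU⟩ := hT x hx
    obtain ⟨y, hy⟩ := IsAlgClosed.exists_pow_nat_eq (x : ℂ) hp.pos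
    have hn : ∀ t ∈ L, t ^ p ≠ (x : ℂ) := by
      intro t ht htx
      have ht0 : t ≠ 0 := by
        rintro rfl
        rw [zero_pow hp.ne_zero] at htx
        exact hx0 htx.symm
      exact hxP ⟨Units.mk0 t ht0, ht, Units.ext htx⟩
    have hfd := CNT.fd p L hxL hy
    have hnr := CNT.nrm p L hz hxL hx0 hy
    have hcr : cR L (adj L y) = p := by
      have := (h5 L (adj L y) (le_adj L y)).2.2.1
      rw [← this]
      exact CNT.finrank_adj p L y x hxL hy hn
    obtain ⟨U, S, hUi, hS⟩ := h1 p L (adj L y) (le_adj L y) hTC hnr hcr (hU y hy)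
    exact ⟨y, U, S, hy, fun hyL => hn y hyL hy, hfd, hnr, hcr, hU y hy, hUi, hS⟩
  choose! Y U S hD using hD
  set T' := T.filter (fun x => x ∉ PL p L) with hT'
  -- the fibres
  have hfib : ∀ V ∈ T'.image U, (T'.filter (fun x => U x = V)).card ≤ p - 1 := by
    intro V hV
    obtain ⟨x, hx, rfl⟩ := Finset.mem_image.mp hV
    rw [hT', Finset.mem_filter] at hx
    have hJ : ∀ x' ∈ T'.filter (fun x' => U x' = U x), ∃ j < p, x' / x ^ j ∈ PL p L := by
      intro x' hx'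
      rw [hT', Finset.mem_filter, Finset.mem_filter] at hx'
      obtain ⟨⟨hx'T, hx'P⟩, hUU⟩ := hx'
      have hd := hD x hx.1 hx.2
      have hd' := hD x' hx'T hx'P
      have := hd.fd
      have := hd'.fd
      have hM : adj L (Y x) = adj L (Y x') := by
        refine h2 p L (adj L (Y x)) (adj L (Y x')) (le_adj _ _) (le_adj _ _)
          hd.nr hd'.nr hd.cr hd'.cr hd.un hd'.un (U x) (S x ∪ S x') hd.ui ?_ ?_
        · intro v hv hdeg
          exact hd.hs v (fun h => hv (Finset.mem_union_left _ h)) hdeg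
        · intro v hv hdeg
          rw [← hUU]
          exact hd'.hs v (fun h => hv (Finset.mem_union_right _ h)) hdeg
      exact h4 p L hz x x' (Y x) (Y x') (hT x hx.1).1 (hT x' hx'T).1 hd.hy
        hd'.hy hd.hn (by rw [hM]; exact mem_adj L (Y x'))
    choose! j hj hjP using hJ
    have hcard : (T'.filter (fun x' => U x' = U x)).card ≤ (Finset.Ico 1 p).card := by
      refine Finset.card_le_card_of_injOn j ?_ ?_
      · intro x' hx'
        have hx'' := hx'
        rw [Finset.mem_coe, hT', Finset.mem_filter, Finset.mem_filter] at hx''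
        rw [Finset.coe_Ico, Set.mem_Ico]
        refine ⟨?_, hj x' hx'⟩
        by_contra h0
        have h0' : j x' = 0 := by omega
        have := hjP x' hx'
        rw [h0', pow_zero, div_one] at this
        exact hx''.1.2 this
      · intro x' hx' x'' hx'' he
        by_contra hc
        have e1 := hjP x' hx'
        have e2 := hjP x'' hx''
        rw [← he] at e2
        have e3 := (PL p L).div_mem e1 e2
        rw [div_div_div_cancel_right] at e3
        have k1 : x' ∈ T := by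
          rw [Finset.mem_coe, hT', Finset.mem_filter, Finset.mem_filter] at hx'
          exact hx'.1.1
        have k2 : x'' ∈ T := by
          rw [Finset.mem_coe, hT', Finset.mem_filter, Finset.mem_filter] at hx''
          exact hx''.1.1
        exact hne x' k1 x'' k2 hc e3
    rwa [Nat.card_Ico] at hcard
  have hT'c := Finset.card_le_mul_card_image T' (p - 1) hfib
  have himg : (T'.image U).card ≤ p ^ padicValNat p (classNo L) := by
    refine h3 (ClassGroup (𝓞 L)) p (T'.image U) ?_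
    intro V hV
    obtain ⟨x, hx, rfl⟩ := Finset.mem_image.mp hV
    rw [hT', Finset.mem_filter] at hx
    exact (hD x hx.1 hx.2).ui
  have hP : (T.filter (fun x => x ∈ PL p L)).card ≤ 1 := by
    rw [Finset.card_le_one]
    intro x hx x' hx'
    rw [Finset.mem_filter] at hx hx'
    by_contra hc
    exact hne x hx.1 x' hx'.1 hc ((PL p L).div_mem hx.2 hx'.2)
  have hsum : (T.filter (fun x => x ∈ PL p L)).card + T'.card = T.card :=
    Finset.card_filter_add_card_filter_not _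
  have hr : 1 ≤ p ^ padicValNat p (classNo L) := Nat.one_le_pow _ _ hp.pos
  have hm : (p - 1) * (T'.image U).card ≤ (p - 1) * p ^ padicValNat p (classNo L) :=
    Nat.mul_le_mul_left _ himg
  rw [pow_succ]
  obtain ⟨q, hq⟩ : ∃ q, p = q + 1 := ⟨p - 1, by have := hp.pos; omega⟩
  have e1 : p - 1 = q := by omega
  have hfin : p ^ padicValNat p (classNo L) * p =
      (p - 1) * p ^ padicValNat p (classNo L) + p ^ padicValNat p (classNo L) := by
    rw [e1]
    conv_lhs => rw [show p ^ padicValNat p (classNo L) * p =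
      p ^ padicValNat p (classNo L) * (q + 1) from by rw [← hq]]
    ring
  rw [hfin]
  omega

end

end Pool.Agent.VB


end

section

/-!
# IDX: density of primes in a subgroup of the class group (helper9)
-/

set_option autoImplicit false

namespace Pool.Agent.VB

theorem tb_IDX : Sb_IDX := Pool.Agent.MUXK.k_IDX

end Pool.Agent.VB


end
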