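import Mathlib
import Pool.Agent.MVF.C057
import Pool.Agent.MVF.C059
import Pool.Agent.MVF.C068

/-! Parts: VB.V_INJ, VB.V_KDX, VB.V_DEG, VB.V_CIR, VB.V_MUL -/

namespace Pool.Agent.VB.CIRx
end Pool.Agent.VB.CIRx
namespace Pool.Agent.VB.INJ
end Pool.Agent.VB.INJ
namespace Pool.Agent.VB.MULx
end Pool.Agent.VB.MULx

section

/-!
# VB, module INJ: the group `U` determines the unramified extension (helper65)
-/

set_option autoImplicit false

open NumberField IsDedekindDomain
open scoped nonZeroDivisors Pointwise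

namespace Pool.Agent.VB

open _root_.Pool.Agent.RI _root_.Pool.Agent.MU3

namespace INJ

/-- the join does not depend on the base field -/
lemma ext_sup {L M M' : IntermediateField ℚ ℂ} (h : L ≤ M) (h' : L ≤ M') (hN : L ≤ M ⊔ M') :
    IntermediateField.extendScalars h ⊔ IntermediateField.extendScalars h' =
      IntermediateField.extendScalars hN := by
  apply le_antisymm
  · refine sup_le ?_ ?_
    · intro x hx
      exact (le_sup_left : M ≤ M ⊔ M') hx
    · intro x hx
      exact (le_sup_right : M' ≤ M ⊔ M') hx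
  · set A := IntermediateField.extendScalars h
    set B := IntermediateField.extendScalars h'
    have h1 : M ⊔ M' ≤ IntermediateField.restrictScalars ℚ (A ⊔ B) := by
      refine sup_le ?_ ?_
      · intro x hx
        exact (le_sup_left : A ≤ A ⊔ B) hx
      · intro x hx
        exact (le_sup_right : B ≤ A ⊔ B) hx
    intro x hx
    exact h1 hx

/-- a ring automorphism of `M ⊔ M'` which is trivial on `M` and on `M'` is trivial -/
lemma triv {M M' : IntermediateField ℚ ℂ} (σ : ↥(M ⊔ M') →+* ↥(M ⊔ M'))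
    (h1 : ∀ (x : ℂ) (hx : x ∈ M ⊔ M'), x ∈ M → σ ⟨x, hx⟩ = ⟨x, hx⟩)
    (h2 : ∀ (x : ℂ) (hx : x ∈ M ⊔ M'), x ∈ M' → σ ⟨x, hx⟩ = ⟨x, hx⟩) :
    ∀ x, σ x = x := by
  let E : IntermediateField ℚ ℂ :=
    { carrier := {x | ∃ hx : x ∈ M ⊔ M', σ ⟨x, hx⟩ = ⟨x, hx⟩}
      mul_mem' := by
        rintro a b ⟨ha, ha'⟩ ⟨hb, hb'⟩
        refine ⟨mul_mem ha hb, ?_⟩
        have : (⟨a * b, mul_mem ha hb⟩ : ↥(M ⊔ M')) = ⟨a, ha⟩ * ⟨b, hb⟩ := rfl
        rw [this, map_mul, ha', hb']
      one_mem' := ⟨one_mem _, map_one σ⟩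
      add_mem' := by
        rintro a b ⟨ha, ha'⟩ ⟨hb, hb'⟩
        refine ⟨add_mem ha hb, ?_⟩
        have : (⟨a + b, add_mem ha hb⟩ : ↥(M ⊔ M')) = ⟨a, ha⟩ + ⟨b, hb⟩ := rfl
        rw [this, map_add, ha', hb']
      zero_mem' := ⟨zero_mem _, map_zero σ⟩
      algebraMap_mem' := fun r => ⟨(M ⊔ M').algebraMap_mem r, by
        have : (⟨algebraMap ℚ ℂ r, (M ⊔ M').algebraMap_mem r⟩ : ↥(M ⊔ M')) = ((r : ℚ) : ↥(M ⊔ M')) := by
          apply Subtype.ext
          simp
        rw [this, map_ratCast]⟩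
      inv_mem' := by
        rintro a ⟨ha, ha'⟩
        refine ⟨inv_mem ha, ?_⟩
        have : (⟨a⁻¹, inv_mem ha⟩ : ↥(M ⊔ M')) = (⟨a, ha⟩)⁻¹ := rfl
        rw [this, map_inv₀, ha'] }
  have hE : M ⊔ M' ≤ E := by
    refine sup_le ?_ ?_
    · intro x hx
      exact ⟨(le_sup_left : M ≤ M ⊔ M') hx, h1 x _ hx⟩
    · intro x hx
      exact ⟨(le_sup_right : M' ≤ M ⊔ M') hx, h2 x _ hx⟩
  intro x
  obtain ⟨hx, hx'⟩ := hE x.2
  exact hx'

end INJ

open _root_.Pool.Agent.VB.INJ in
theorem tb_INJ (hINA : Sb_INA) (hUNR : Sb_UNR) (hNRM : Sb_NRM) (hCRD : Sb_CRD) : Sb_INJ := by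
  intro p hp L M M' _ _ _ h h' nM nM' cM cM' uM uM' U S hU hS hS'
  by_contra hne
  have hN : L ≤ M ⊔ M' := h.trans le_sup_left
  have hMN : M ≤ M ⊔ M' := le_sup_left
  have hMN' : M' ≤ M ⊔ M' := le_sup_right
  have algM : Algebra.IsAlgebraic ℚ M := inferInstance
  have algM' : Algebra.IsAlgebraic ℚ M' := inferInstance
  have : FiniteDimensional ℚ ↥(M ⊔ M') := IntermediateField.finiteDimensional_sup M M'
  have algN : Algebra.IsAlgebraic ℚ ↥(M ⊔ M') := inferInstance
  have nN : Nrm L (M ⊔ M') := nrm_sup nM nM'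
  have gA : IsGalois L (IntermediateField.extendScalars h) := (hNRM L M algM h).2 nM
  have gB : IsGalois L (IntermediateField.extendScalars h') := (hNRM L M' algM' h').2 nM'
  have gN : IsGalois L (IntermediateField.extendScalars hN) := (hNRM L _ algN hN).2 nN
  have fA : Module.finrank L (IntermediateField.extendScalars h) = p :=
    (hCRD L M h).2.2.1.trans cM
  have fB : Module.finrank L (IntermediateField.extendScalars h') = p :=
    (hCRD L M' h').2.2.1.trans cM'
  have hp0 : 0 < p := hp.out.pos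
  have fdA : FiniteDimensional L (IntermediateField.extendScalars h) :=
    Module.finite_of_finrank_pos (by rw [fA]; exact hp0)
  have fdB : FiniteDimensional L (IntermediateField.extendScalars h') :=
    Module.finite_of_finrank_pos (by rw [fB]; exact hp0)
  have hAB : IntermediateField.extendScalars h ≠ IntermediateField.extendScalars h' := by
    intro he
    apply hne
    apply SetLike.ext
    intro x
    have : x ∈ IntermediateField.extendScalars h ↔ x ∈ IntermediateField.extendScalars h' := by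
      rw [he]
    exact this
  have hinf : IntermediateField.extendScalars h ⊓ IntermediateField.extendScalars h' = ⊥ := by
    set A := IntermediateField.extendScalars h
    set B := IntermediateField.extendScalars h'
    have h1 : Module.finrank L ↥(A ⊓ B) ∣ p := by
      rw [← fA]
      exact IntermediateField.finrank_dvd_of_le_right inf_le_left
    rcases (Nat.dvd_prime hp.out).1 h1 with h2 | h2
    · exact IntermediateField.finrank_eq_one_iff.1 h2
    · exfalso
      have h3 : A ⊓ B = A := IntermediateField.eq_of_le_of_finrank_eq inf_le_left (by rw [h2, fA])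
      have h4 : A ⊓ B = B := IntermediateField.eq_of_le_of_finrank_eq inf_le_right (by rw [h2, fB])
      exact hAB (h3.symm.trans h4)
  have fN : Module.finrank L (IntermediateField.extendScalars hN) = p ^ 2 := by
    rw [← ext_sup h h' hN]
    have hd := IntermediateField.LinearDisjoint.of_inf_eq_bot hinf
    rw [hd.finrank_sup, fA, fB, sq]
  let a1 := algC h
  let a2 := algC h'
  let a3 := algC hN
  let a4 := algC hMN
  let a5 := algC hMN'
  have t1 := towerC h hMN
  have t2 := towerC h' hMN'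
  have g1 : IsGalois L M := (isGalois_algC h).2 gA
  have g2 : IsGalois L M' := (isGalois_algC h').2 gB
  have g3 : IsGalois L ↥(M ⊔ M') := (isGalois_algC hN).2 gN
  refine hINA L M M' ↥(M ⊔ M') p hp.out ?_ ((finrank_algC h).trans fA)
    ((finrank_algC h').trans fB) ((finrank_algC hN).trans fN) (hUNR L M h nM uM)
    (hUNR L M' h' nM' uM') U S hU.ge hS hS'
  intro σ hσ hσ'
  apply AlgEquiv.ext
  exact triv (σ : ↥(M ⊔ M') →+* ↥(M ⊔ M')) (fun x hx hxM => hσ ⟨x, hxM⟩)
    (fun x hx hxM => hσ' ⟨x, hxM⟩)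

end Pool.Agent.VB


end

section

/-!
# KDX: Kummer descent (helper27)
-/

set_option autoImplicit false

open Finset

namespace Pool.Agent.VB

open _root_.Pool.Agent.RI _root_.Pool.Agent.MUXU

private lemma kdx_succ_VBV_KDX (g : ℂ ≃+* ℂ) (k : ℕ) (x : ℂ) : (g ^ (k + 1)) x = g ((g ^ k) x) := by
  rw [pow_succ']
  rfl

private lemma kdx_add_VBV_KDX (g : ℂ ≃+* ℂ) (a b : ℕ) (x : ℂ) :
    (g ^ (a + b)) x = (g ^ a) ((g ^ b) x) := by
  rw [pow_add]
  rfl

private lemma kdx_zero_VBV_KDX (g : ℂ ≃+* ℂ) (x : ℂ) : (g ^ 0) x = x := by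
  rw [pow_zero]
  rfl

private lemma kdx_mul_VBV_KDX (g : ℂ ≃+* ℂ) (a k : ℕ) (x : ℂ) (h : (g ^ a) x = x) :
    (g ^ (a * k)) x = x := by
  induction k with
  | zero => rw [mul_zero, kdx_zero_VBV_KDX]
  | succ k ih => rw [Nat.mul_succ, kdx_add_VBV_KDX, h, ih]

private lemma kdx_shift_VBV_KDX (g : ℂ ≃+* ℂ) (w : ℂ) (i : ℕ) :
    ∏ k ∈ range (i + 1), (g ^ k) w = w * g (∏ k ∈ range i, (g ^ k) w) := by
  rw [Finset.prod_range_succ', map_prod, kdx_zero_VBV_KDX, mul_comm]
  congr 1
  exact Finset.prod_congr rfl fun k _ => kdx_succ_VBV_KDX g k w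

private lemma kdx_tel_VBV_KDX (g : ℂ ≃+* ℂ) (p : ℕ) (z w : ℂ) (h : g z = z * w ^ p) (i : ℕ) :
    (∏ k ∈ range i, (g ^ k) w) ^ p * z = (g ^ i) z := by
  induction i with
  | zero => simp
  | succ i ih =>
    have h1 : (g ^ (i + 1)) z = (g ^ i) z * ((g ^ i) w) ^ p := by
      rw [kdx_add_VBV_KDX, pow_one, h, map_mul, map_pow]
    rw [Finset.prod_range_succ, mul_pow, h1, ← ih]
    ring

private lemma kdx_block_VBV_KDX (g : ℂ ≃+* ℂ) (q : ℕ) (w : ℂ) (h : (g ^ q) w = w) (t : ℕ) :
    ∏ k ∈ range (q * t), (g ^ k) w = (∏ k ∈ range q, (g ^ k) w) ^ t := by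
  induction t with
  | zero => simp
  | succ t ih =>
    rw [Nat.mul_succ, Finset.prod_range_add, ih, pow_succ]
    congr 1
    refine Finset.prod_congr rfl fun k _ => ?_
    rw [add_comm, kdx_add_VBV_KDX, kdx_mul_VBV_KDX g q t w h]

private lemma kdx_ord_VBV_KDX (K E : IntermediateField ℚ ℂ) [FiniteDimensional ℚ E] (hKE : K ≤ E)
    (g : ℂ ≃+* ℂ) (N : ℕ)
    (hgen : ∀ σ : ℂ ≃+* ℂ, Fixes K σ → ∃ i : ℕ, ∀ x ∈ E, σ x = (g ^ i) x)
    (hdeg : Module.finrank ℚ E = Module.finrank ℚ K * N) (d : ℕ) (hd : 0 < d)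
    (hgd : ∀ x ∈ E, (g ^ d) x = x) : N ≤ d := by
  classical
  let _ := algC hKE
  have : FiniteDimensional ℚ K :=
    Module.Finite.of_injective (IntermediateField.inclusion hKE).toLinearMap
      (IntermediateField.inclusion hKE).injective
  have : FiniteDimensional K E := Pool.Agent.FX.fright ℚ K E
  have h1 : Module.finrank ℚ K * Module.finrank K E = Module.finrank ℚ E :=
    Pool.Agent.FX.fmul ℚ K E
  have hKpos : 0 < Module.finrank ℚ K := Module.finrank_pos
  have h2 : Module.finrank K E = N := by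
    have : Module.finrank ℚ K * Module.finrank K E = Module.finrank ℚ K * N := by rw [h1, hdeg]
    exact Nat.eq_of_mul_eq_mul_left hKpos this
  have h3 : Fintype.card (E →ₐ[K] ℂ) = N := by
    rw [AlgHom.card K E ℂ, h2]
  have halg : Algebra.IsAlgebraic ℚ E := inferInstance
  have hex : ∀ f : E →ₐ[K] ℂ, ∃ i : ℕ, ∀ x : E, f x = (g ^ i) (x : ℂ) := by
    intro f
    obtain ⟨σ, hσ⟩ := u_AUE E halg (f : E →+* ℂ)
    have hfix : Fixes K σ := by
      intro x hx
      have e1 := hσ ⟨x, hKE hx⟩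
      have e2 : f (algebraMap K E ⟨x, hx⟩) = algebraMap K ℂ ⟨x, hx⟩ := f.commutes _
      exact e1.trans e2
    obtain ⟨i, hi⟩ := hgen σ hfix
    exact ⟨i, fun x => by rw [← hi x x.2]; exact (hσ x).symm⟩
  choose i hi using hex
  have hmod : ∀ (k : ℕ) (x : E), (g ^ k) (x : ℂ) = (g ^ (k % d)) (x : ℂ) := by
    intro k x
    conv_lhs => rw [← Nat.mod_add_div k d]
    rw [kdx_add_VBV_KDX, kdx_mul_VBV_KDX g d (k / d) x (hgd x x.2)]
  have hinj : Function.Injective (fun f : E →ₐ[K] ℂ => (⟨i f % d, Nat.mod_lt _ hd⟩ : Fin d)) := by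
    intro f f' hff
    have e : i f % d = i f' % d := congrArg Fin.val hff
    ext x
    rw [hi f x, hi f' x, hmod, e, ← hmod]
  have h4 := Fintype.card_le_of_injective _ hinj
  rw [h3, Fintype.card_fin] at h4
  exact h4

private lemma kdx_dedekind_VBV_KDX (E : IntermediateField ℚ ℂ) (g : ℂ ≃+* ℂ) (N : ℕ) (hN : 0 < N)
    (hord : ∀ d : ℕ, 0 < d → (∀ x ∈ E, (g ^ d) x = x) → N ≤ d) (c : ℕ → ℂ) (hc : c 0 ≠ 0) :
    ∃ x ∈ E, ∑ i ∈ range N, c i * (g ^ i) x ≠ 0 := by
  by_contra hcon
  push Not at hcon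
  let v : Fin N → (E →* ℂ) := fun i =>
    (((g ^ (i : ℕ) : ℂ ≃+* ℂ) : ℂ →+* ℂ).comp (algebraMap E ℂ) : E →+* ℂ)
  have hv : ∀ (i : Fin N) (x : E), v i x = (g ^ (i : ℕ)) (x : ℂ) := fun i x => rfl
  have hlt : ∀ i k : Fin N, (i : ℕ) < k → v i ≠ v k := by
    intro i k hik h
    have h1 : ∀ x ∈ E, (g ^ ((k : ℕ) - i)) x = x := by
      intro x hx
      have e := congrArg (fun f : E →* ℂ => f ⟨x, hx⟩) h
      simp only [hv] at e
      have e2 : (k : ℕ) = i + (k - i) := by omega
      rw [e2, kdx_add_VBV_KDX] at e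
      exact ((g ^ (i : ℕ)).injective e).symm
    have := hord _ (by omega) h1
    have := k.2
    omega
  have hinj : Function.Injective v := by
    intro i k h
    rcases lt_trichotomy (i : ℕ) k with h1 | h1 | h1
    · exact absurd h (hlt i k h1)
    · exact Fin.ext h1
    · exact absurd h.symm (hlt k i h1)
  have hli := (linearIndependent_monoidHom E ℂ).comp v hinj
  have h0 := Fintype.linearIndependent_iff.1 hli (fun i => c i) (by
    funext x
    have h1 := hcon x x.2
    rw [Finset.sum_range] at h1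
    rw [Finset.sum_apply]
    exact h1) ⟨0, hN⟩
  exact hc h0

theorem tb_KDX : Sb_KDX := by
  intro p _ F B n₁ γ hT j m z w hjm hz hz0 hw hgz
  have hp : p.Prime := Fact.out
  set g : ℂ ≃+* ℂ := γ ^ p ^ j with hg
  set K : IntermediateField ℚ ℂ := F ⊔ B (n₁ + j) with hK
  set E : IntermediateField ℚ ℂ := F ⊔ B (n₁ + (m + 1)) with hE
  set M : IntermediateField ℚ ℂ := F ⊔ B (n₁ + m) with hM
  set q : ℕ := p ^ (m - j) with hq
  have : FiniteDimensional ℚ E := hT.fd _
  have : FiniteDimensional ℚ K := hT.fd _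
  have hKE : K ≤ E := sup_le_sup_left (hT.mono (by omega)) F
  have hME : M ≤ E := sup_le_sup_left (hT.mono (by omega)) F
  have hgpow : ∀ i : ℕ, g ^ i = γ ^ (p ^ j * i) := by
    intro i
    rw [hg, ← pow_mul]
  have hgq : g ^ q = γ ^ p ^ m := by
    rw [hgpow, hq, ← pow_add]
    congr 2
    omega
  have hgN : g ^ (q * p) = γ ^ p ^ (m + 1) := by
    rw [pow_mul, hgq, ← pow_mul, ← pow_succ]
  have hgM : ∀ x ∈ M, (g ^ q) x = x := by
    intro x hx
    rw [hgq]
    exact hT.fix m x hx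
  have hgE : ∀ x ∈ E, (g ^ (q * p)) x = x := by
    intro x hx
    rw [hgN]
    exact hT.fix (m + 1) x hx
  have hgen : ∀ σ : ℂ ≃+* ℂ, Fixes K σ → ∃ i : ℕ, ∀ x ∈ E, σ x = (g ^ i) x := by
    intro σ hσ
    obtain ⟨i, hi⟩ := hT.gen j (m + 1) (by omega) σ hσ
    exact ⟨i, fun x hx => by rw [hi x hx, hgpow]⟩
  have hdeg : Module.finrank ℚ E = Module.finrank ℚ K * (q * p) := by
    have e1 := hT.deg (m + 1)
    have e2 := hT.deg j
    rw [hE, hK, e1, e2, hq, mul_assoc]
    congr 1
    rw [← pow_succ, ← pow_add]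
    congr 1
    omega
  have hqpos : 0 < q := by
    rw [hq]
    exact pow_pos hp.pos _
  have hNpos : 0 < q * p := Nat.mul_pos hqpos hp.pos
  have hord := fun d hd h => kdx_ord_VBV_KDX K E hKE g (q * p) hgen hdeg d hd h
  -- stability
  have hγF : Fixes F γ := by
    intro x hx
    have h := hT.fix 0 x ((le_sup_left : F ≤ F ⊔ B (n₁ + 0)) hx)
    rwa [pow_zero, pow_one] at h
  have hst : ∀ x ∈ E, γ x ∈ E :=
    (nrm_sup (nrm_self F) (nrm_mono bot_le (hT.nrm _)) : Nrm F E) γ hγF
  have hstg : ∀ (k : ℕ), ∀ x ∈ E, (γ ^ k) x ∈ E := by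
    intro k x hx
    induction k with
    | zero => rw [kdx_zero_VBV_KDX]; exact hx
    | succ k ih => rw [kdx_succ_VBV_KDX]; exact hst _ ih
  have hstg' : ∀ (k : ℕ), ∀ x ∈ E, (g ^ k) x ∈ E := by
    intro k x hx
    rw [hgpow]
    exact hstg _ x hx
  -- the coefficients
  set c : ℕ → ℂ := fun i => ∏ k ∈ range i, (g ^ k) w with hc
  have hc0 : c 0 = 1 := by simp [hc]
  have hcE : ∀ i, c i ∈ E := fun i => prod_mem fun k _ => hstg' k w (hME hw)
  have hcs : ∀ i, c (i + 1) = w * g (c i) := fun i => kdx_shift_VBV_KDX g w i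
  have hcN : c (q * p) = 1 := by
    have e1 : c (q * p) = (c q) ^ p := kdx_block_VBV_KDX g q w (hgM w hw) p
    have e2 : (c q) ^ p * z = (g ^ q) z := kdx_tel_VBV_KDX g p z w hgz q
    rw [hgM z hz] at e2
    rw [e1]
    have e3 : ((c q) ^ p - 1) * z = 0 := by rw [sub_mul, e2, one_mul, sub_self]
    rcases mul_eq_zero.1 e3 with h | h
    · exact sub_eq_zero.1 h
    · exact absurd h hz0
  obtain ⟨x, hx, hS⟩ := kdx_dedekind_VBV_KDX E g (q * p) hNpos hord c (by rw [hc0]; exact one_ne_zero)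
  set S : ℂ := ∑ i ∈ range (q * p), c i * (g ^ i) x with hSdef
  have hSE : S ∈ E := sum_mem fun i _ => mul_mem (hcE i) (hstg' i x hx)
  have hwS : w * g S = S := by
    have e1 : w * g S = ∑ i ∈ range (q * p), c (i + 1) * (g ^ (i + 1)) x := by
      rw [hSdef, map_sum, Finset.mul_sum]
      refine Finset.sum_congr rfl fun i _ => ?_
      rw [map_mul, hcs, kdx_succ_VBV_KDX]
      ring
    have e2 := Finset.sum_range_succ (fun i => c i * (g ^ i) x) (q * p)
    have e3 := Finset.sum_range_succ' (fun i => c i * (g ^ i) x) (q * p)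
    rw [e2] at e3
    rw [hcN, hgE x hx, hc0, kdx_zero_VBV_KDX] at e3
    rw [e1]
    have e4 := add_right_cancel e3
    exact e4.symm
  have hgS : (g S) ≠ 0 := by
    intro h
    rw [h, mul_zero] at hwS
    exact hS hwS.symm
  set y : ℂ := z * S ^ p with hy
  have hyE : y ∈ E := mul_mem (hME hz) (pow_mem hSE p)
  have hgy : g y = y := by
    rw [hy, map_mul, map_pow, hgz]
    conv_rhs => rw [← hwS]
    ring
  have hgy' : ∀ i : ℕ, (g ^ i) y = y := by
    intro i
    induction i with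
    | zero => exact kdx_zero_VBV_KDX g y
    | succ i ih => rw [kdx_succ_VBV_KDX, ih, hgy]
  have hyK : y ∈ K := by
    refine u_AUF K inferInstance y fun σ hσ => ?_
    obtain ⟨i, hi⟩ := hgen σ hσ
    rw [hi y hyE, hgy']
  refine ⟨y, hyK, S⁻¹, inv_mem hSE, inv_ne_zero hS, ?_⟩
  rw [hy, mul_assoc, ← mul_pow, mul_inv_cancel₀ hS, one_pow, mul_one]

end Pool.Agent.VB


end

section

/-!
# VB, DEG: the degrees of the layers (helper41)
-/

set_option autoImplicit false

open NumberField IsDedekindDomain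
open scoped nonZeroDivisors Pointwise

namespace Pool.Agent.VB

open _root_.Pool.Agent.RI _root_.Pool.Agent.RID _root_.Pool.Agent.MU3 _root_.Pool.Agent.Lib_helper28.FROB

namespace DEGx

theorem step {F E : Type*} [Field F] [Field E] [Algebra F E] (p : ℕ) (hp : p.Prime)
    (K : IntermediateField F E) (B : ℕ → IntermediateField F E) (hK : FiniteDimensional F K)
    (hd : ∀ n, Module.finrank F (B n) = p ^ n) (hG : ∀ n, IsGalois F (B n))
    (hC : ∀ n, IsCyclic ((B n) ≃ₐ[F] (B n))) (hmono : Monotone B) (n₀ : ℕ)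
    (hnot : ¬ B (n₀ + 1) ≤ K ⊔ B n₀) (j : ℕ) :
    Module.finrank F ↥(K ⊔ B (n₀ + j)) = Module.finrank F ↥(K ⊔ B n₀) * p ^ j := by
  have hfin : ∀ n, FiniteDimensional F (B n) := fun n =>
    Module.finite_of_finrank_pos (by rw [hd]; exact pow_pos hp.pos n)
  have hfinK : ∀ n, FiniteDimensional F ↥(K ⊔ B n) := fun n =>
    IntermediateField.finiteDimensional_sup K (B n)
  have h0 : B n₀ ≤ K ⊔ B n₀ := le_sup_right
  have hle : ∀ j, B n₀ ≤ B (n₀ + j) := fun j => hmono (Nat.le_add_right _ _)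
  set K' : IntermediateField (B n₀) E := IntermediateField.extendScalars h0 with hK'
  set B' : ℕ → IntermediateField (B n₀) E := fun j => IntermediateField.extendScalars (hle j)
    with hB'
  have fB : ∀ j, FiniteDimensional F ↥(B' j) := fun j => hfin (n₀ + j)
  have gB : ∀ j, IsGalois F ↥(B' j) := fun j => hG (n₀ + j)
  have cB : ∀ j, IsCyclic (↥(B' j) ≃ₐ[F] ↥(B' j)) := fun j => hC (n₀ + j)
  have dB : ∀ j, Module.finrank F ↥(B' j) = p ^ (n₀ + j) := fun j => hd (n₀ + j)
  have fK : FiniteDimensional F ↥K' := hfinK n₀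
  have fK' : FiniteDimensional (B n₀) ↥K' := Module.Finite.of_restrictScalars_finite F _ _
  have hpos : 0 < p ^ n₀ := pow_pos hp.pos _
  have hd' : ∀ j, Module.finrank (B n₀) (B' j) = p ^ j := by
    intro j
    have h1 := Pool.Agent.FX.fmul F (B n₀) ↥(B' j)
    rw [dB, hd, pow_add] at h1
    exact Nat.eq_of_mul_eq_mul_left hpos h1
  have hG' : ∀ j, IsGalois (B n₀) (B' j) := fun j => IsGalois.tower_top_of_isGalois F _ _
  have hC' : ∀ j, IsCyclic (↥(B' j) ≃ₐ[B n₀] ↥(B' j)) := by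
    intro j
    exact isCyclic_of_injective (AlgEquiv.restrictScalarsHom F)
      (AlgEquiv.restrictScalars_injective F)
  have hmono' : Monotone B' := by
    intro a b hab x hx
    exact hmono (Nat.add_le_add_left hab n₀) hx
  have hnot' : ¬ B' 1 ≤ K' := by
    intro h
    exact hnot (fun x hx => h hx)
  have key := MUXJ.ldx_gen p hp K' B' fK' hd' hG' hC' hmono' hnot' j
  have hsup : (K' ⊔ B' j) = IntermediateField.extendScalars
      (le_sup_of_le_left h0 : B n₀ ≤ (K ⊔ B n₀) ⊔ B (n₀ + j)) := by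
    rw [hK', hB']
    exact IntermediateField.extendScalars_sup _ _
  have h2 : (K ⊔ B n₀) ⊔ B (n₀ + j) = K ⊔ B (n₀ + j) := by
    rw [sup_assoc, sup_eq_right.2 (hle j)]
  have h3 : Module.finrank F ↥((K ⊔ B n₀) ⊔ B (n₀ + j)) =
      Module.finrank F (B n₀) * Module.finrank (B n₀) ↥(K' ⊔ B' j) := by
    rw [Pool.Agent.FX.fmul F (B n₀) ↥(K' ⊔ B' j), hsup]
    rfl
  have h4 : Module.finrank F ↥(K ⊔ B n₀) =
      Module.finrank F (B n₀) * Module.finrank (B n₀) ↥K' :=
    (Pool.Agent.FX.fmul F (B n₀) ↥K').symm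
  rw [← h2, h3, key, h4, mul_assoc]

theorem gen {F E : Type*} [Field F] [Field E] [Algebra F E] (p : ℕ) (hp : p.Prime)
    (K : IntermediateField F E) (B : ℕ → IntermediateField F E) (hK : FiniteDimensional F K)
    (hd : ∀ n, Module.finrank F (B n) = p ^ n) (hG : ∀ n, IsGalois F (B n))
    (hC : ∀ n, IsCyclic ((B n) ≃ₐ[F] (B n))) (hmono : Monotone B) :
    ∃ n₀ : ℕ, ∀ n m : ℕ, n₀ ≤ n → n ≤ m →
      Module.finrank F ↥(K ⊔ B m) = Module.finrank F ↥(K ⊔ B n) * p ^ (m - n) := by
  have hex : ∃ n₀, ¬ B (n₀ + 1) ≤ K ⊔ B n₀ := by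
    by_contra hcon
    push Not at hcon
    have h1 : ∀ n, B n ≤ K := by
      intro n
      induction n with
      | zero =>
        have h2 := hd 0
        rw [pow_zero] at h2
        rw [IntermediateField.finrank_eq_one_iff.1 h2]
        exact bot_le
      | succ n ih => exact (hcon n).trans (sup_le le_rfl ih)
    have h2 : ∀ n, p ^ n ≤ Module.finrank F K := by
      intro n
      rw [← hd n]
      exact IntermediateField.finrank_le_of_le_right (h1 n)
    have h3 := h2 (Module.finrank F K)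
    have h4 := Nat.lt_pow_self (n := Module.finrank F K) hp.one_lt
    omega
  obtain ⟨n₀, hn₀⟩ := hex
  refine ⟨n₀, ?_⟩
  intro n m hn hm
  obtain ⟨a, rfl⟩ := Nat.exists_eq_add_of_le hn
  obtain ⟨b, rfl⟩ := Nat.exists_eq_add_of_le hm
  rw [step p hp K B hK hd hG hC hmono n₀ hn₀ a, add_assoc,
    step p hp K B hK hd hG hC hmono n₀ hn₀ (a + b), mul_assoc, ← pow_add]
  congr 2
  omega

end DEGx

/-- DEG -/
theorem tb_DEG : Sb_DEG := by
  intro p hp F hF B hB hmono
  have key : ∀ (D : IntermediateField ℚ ℂ) (a b : Algebra ℚ D), @IsGalois ℚ _ D _ a →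
      @IsGalois ℚ _ D _ b := by
    intro D a b h
    rw [Subsingleton.elim b a]
    exact h
  have key2 : ∀ (D : IntermediateField ℚ ℂ) (a b : Algebra ℚ D),
      IsCyclic (@AlgEquiv ℚ D D _ _ _ a a) → IsCyclic (@AlgEquiv ℚ D D _ _ _ b b) := by
    intro D a b h
    have e : b = a := Subsingleton.elim b a
    subst e
    exact h
  exact DEGx.gen (F := ℚ) (E := ℂ) p hp.out F B hF (fun n => (hB n).1)
    (fun n => key _ _ _ (LAY_thm p n (B n) (hB n)).2.1)
    (fun n => key2 _ _ _ (t_LAYC p n (B n) (hB n))) hmono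

end Pool.Agent.VB


end

section

/-!
# (CIR): the order of the inertia group is the ramification index (helper15)
-/

set_option autoImplicit false

open NumberField IsDedekindDomain
open scoped nonZeroDivisors Pointwise

namespace Pool.Agent.VB

open _root_.Pool.Agent.RI

noncomputable section

namespace CIRx

theorem card_inertia {k F : Type} [Field k] [NumberField k] [Field F] [NumberField F]
    [Algebra k F] [IsGalois k F] (w : HeightOneSpectrum (𝓞 F)) :
    Nat.card (w.asIdeal.inertia (F ≃ₐ[k] F)) = w.asIdeal.ramificationIdx (𝓞 k) := by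
  set p : Ideal (𝓞 k) := w.asIdeal.under (𝓞 k) with hp
  have hlo : w.asIdeal.LiesOver p := ⟨rfl⟩
  have hwp : w.asIdeal.IsPrime := w.isPrime
  have hpp : p.IsPrime := Ideal.IsPrime.under (𝓞 k) w.asIdeal
  have hp0 : p ≠ ⊥ := (w.under (𝓞 k)).ne_bot
  have hfin : Finite (𝓞 k ⧸ p) := Ideal.finiteQuotientOfFreeOfNeBot p hp0
  have hmax : p.IsMaximal := hpp.isMaximal hp0
  have hfr : Finite p.ResidueField :=
    Finite.of_surjective (algebraMap (𝓞 k ⧸ p) p.ResidueField)
      (Ideal.bijective_algebraMap_quotient_residueField p).2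
  have h1 := Ideal.card_inertia_eq_ramificationIdxIn (G := F ≃ₐ[k] F) p w.asIdeal
  rw [Ideal.ramificationIdxIn_eq_ramificationIdx p w.asIdeal (F ≃ₐ[k] F)] at h1
  exact h1

theorem int_mem (V : ValuationSubring ℂ) {z : ℂ} (hz : IsIntegral ℤ z) : z ∈ V := by
  have h1 : IsIntegral V z := hz.tower_top
  obtain ⟨y, hy⟩ := (IsIntegrallyClosed.isIntegral_iff (R := V) (K := ℂ)).1 h1
  rw [← hy]
  exact y.2

theorem int_coe {M : IntermediateField ℚ ℂ} (x : 𝓞 M) : IsIntegral ℤ ((x : M) : ℂ) := by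
  have h1 : IsIntegral ℤ (x : M) := RingOfIntegers.isIntegral_coe x
  exact h1.map (M.val : M →ₐ[ℚ] ℂ)

end CIRx

open _root_.Pool.Agent.VB.CIRx

theorem tb_CIR (hFRC : Sb_FRC) (hNRM : Sb_NRM) : Sb_CIR := by
  classical
  intro V L M _ h hN P hP
  let _ := algC h
  have hAL : Algebra.IsAlgebraic ℚ M := Algebra.IsAlgebraic.of_finite ℚ M
  have hfdL : FiniteDimensional ℚ L :=
    FiniteDimensional.of_injective (IntermediateField.inclusion h).toLinearMap
      (IntermediateField.inclusion h).injective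
  have hNL : NumberField L := NumberField.mk
  have hNM : NumberField M := NumberField.mk
  have hgal : IsGalois L M := (isGalois_algC h).2 ((hNRM L M hAL h).2 hN)
  have hfin := Pool.Agent.FX.fd L M
  have hcomm : ∀ (τ : M ≃ₐ[L] M) (x : ℂ) (hx : x ∈ L), ((τ ⟨x, h hx⟩ : M) : ℂ) = x := by
    intro τ x hx
    have h1 := τ.commutes (⟨x, hx⟩ : L)
    exact congrArg Subtype.val h1
  have hsm : ∀ (τ : M ≃ₐ[L] M) (x : 𝓞 M), ((((τ • x - x : 𝓞 M)) : M) : ℂ) =
      ((τ (x : M) : M) : ℂ) - ((x : M) : ℂ) := by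
    intro τ x
    rfl
  -- from the inertia group to the maps
  have hto : ∀ τ : M ≃ₐ[L] M, τ ∈ P.asIdeal.inertia (M ≃ₐ[L] M) →
      ∃ σ : ℂ ≃+* ℂ, Fixes L σ ∧ Inr V M σ ∧ ∀ x : M, ((τ x : M) : ℂ) = σ x := by
    intro τ hτ
    obtain ⟨σ, hσ⟩ := Pool.Agent.MUXU.tu_AUE M hAL
      ((algebraMap M ℂ).comp (τ : M →+* M))
    have hσ' : ∀ x : M, ((τ x : M) : ℂ) = σ x := fun x => (hσ x).symm
    refine ⟨σ, ?_, ?_, hσ'⟩
    · intro x hx
      rw [← hσ' ⟨x, h hx⟩, hcomm τ x hx]
    · apply (hFRC M V).2 σ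
      intro x
      rw [← hσ' (x : M), ← hsm τ x]
      exact (hP _).1 (hτ x)
  have hfrom : ∀ f : M → ℂ, (∃ σ : ℂ ≃+* ℂ, Fixes L σ ∧ Inr V M σ ∧ ∀ x : M, f x = σ x) →
      ∃ τ : M ≃ₐ[L] M, τ ∈ P.asIdeal.inertia (M ≃ₐ[L] M) ∧ ∀ x : M, ((τ x : M) : ℂ) = f x := by
    rintro f ⟨σ, hfix, hin, hf⟩
    let τ₀ : M →ₐ[L] M :=
      { toFun := fun x => ⟨σ x, hN σ hfix x x.2⟩
        map_one' := Subtype.ext (by show σ ((1 : M) : ℂ) = ((1 : M) : ℂ); simp)
        map_mul' := fun a b => Subtype.ext (by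
          show σ ((a * b : M) : ℂ) = σ a * σ b
          rw [← map_mul]; rfl)
        map_zero' := Subtype.ext (by show σ ((0 : M) : ℂ) = ((0 : M) : ℂ); simp)
        map_add' := fun a b => Subtype.ext (by
          show σ ((a + b : M) : ℂ) = σ a + σ b
          rw [← map_add]; rfl)
        commutes' := fun r => Subtype.ext (by
          show σ (r : ℂ) = (r : ℂ)
          exact hfix r r.2) }
    have hbij : Function.Bijective τ₀ := by
      have hinj : Function.Injective τ₀ := τ₀.injective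
      have hlin : Function.Surjective τ₀.toLinearMap :=
        LinearMap.injective_iff_surjective.1 hinj
      exact ⟨hinj, hlin⟩
    refine ⟨AlgEquiv.ofBijective τ₀ hbij, ?_, ?_⟩
    · intro x
      show (AlgEquiv.ofBijective τ₀ hbij) • x - x ∈ P.asIdeal
      rw [hP, hsm]
      exact hin ((x : M) : ℂ) (x : M).2 (int_mem V (int_coe x))
    · intro x
      rw [hf x]
      rfl
  rw [← card_inertia (k := L) P]
  unfold cI
  apply Nat.card_congr
  refine (Equiv.ofBijective (fun τ : P.asIdeal.inertia (M ≃ₐ[L] M) =>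
    (⟨fun x : M => (((τ : M ≃ₐ[L] M) x : M) : ℂ), hto τ τ.2⟩ :
      {f : M → ℂ // ∃ σ : ℂ ≃+* ℂ, Fixes L σ ∧ Inr V M σ ∧ ∀ x : M, f x = σ x})) ?_).symm
  constructor
  · intro τ₁ τ₂ h12
    apply Subtype.ext
    apply AlgEquiv.ext
    intro x
    apply Subtype.ext
    exact congrFun (congrArg Subtype.val h12) x
  · rintro ⟨f, hf⟩
    obtain ⟨τ, hτ, hx⟩ := hfrom f hf
    refine ⟨⟨τ, hτ⟩, Subtype.ext ?_⟩
    funext x
    exact hx x

end

end Pool.Agent.VB


end

section

/-!
# (MUL): the orders of the inertia groups are multiplicative (helper11)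
-/

set_option autoImplicit false

open NumberField IsDedekindDomain
open scoped nonZeroDivisors Pointwise

namespace Pool.Agent.VB

open _root_.Pool.Agent.RI

noncomputable section

namespace MULx

open _root_.Pool.Agent.VB.CIRx

/-- the ring homomorphism from the integers of `M` to `V` -/
def toV (V : ValuationSubring ℂ) (M : IntermediateField ℚ ℂ) : 𝓞 M →+* V where
  toFun x := ⟨((x : M) : ℂ), int_mem V (int_coe x)⟩
  map_one' := Subtype.ext (by simp)
  map_mul' a b := Subtype.ext (by simp)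
  map_zero' := Subtype.ext (by simp)
  map_add' a b := Subtype.ext (by simp)

/-- the ideal of the integers in the nonunits of `V` -/
def PV (V : ValuationSubring ℂ) (M : IntermediateField ℚ ℂ) : Ideal (𝓞 M) :=
  (IsLocalRing.maximalIdeal V).comap (toV V M)

theorem mem_PV (V : ValuationSubring ℂ) (M : IntermediateField ℚ ℂ) (x : 𝓞 M) :
    x ∈ PV V M ↔ ((x : M) : ℂ) ∈ V.nonunits := by
  unfold PV
  rw [Ideal.mem_comap]
  exact (ValuationSubring.coe_mem_nonunits_iff (a := toV V M x)).symm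

instance (V : ValuationSubring ℂ) (M : IntermediateField ℚ ℂ) : (PV V M).IsPrime := by
  unfold PV
  infer_instance

end MULx

open _root_.Pool.Agent.VB.MULx _root_.Pool.Agent.VB.CIRx

theorem tb_MUL (hCRD : Sb_CRD) (hCIR : Sb_CIR) : Sb_MUL := by
  intro V L M' M _ hLM' hM'M hN' hN
  have hLM : L ≤ M := hLM'.trans hM'M
  have hN'' : Nrm M' M := nrm_mono hLM' hN
  have hfdM' : FiniteDimensional ℚ M' :=
    FiniteDimensional.of_injective (IntermediateField.inclusion hM'M).toLinearMap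
      (IntermediateField.inclusion hM'M).injective
  have hfdL : FiniteDimensional ℚ L :=
    FiniteDimensional.of_injective (IntermediateField.inclusion hLM).toLinearMap
      (IntermediateField.inclusion hLM).injective
  have hNL : NumberField L := NumberField.mk
  have hNM' : NumberField M' := NumberField.mk
  have hNM : NumberField M := NumberField.mk
  obtain ⟨-, -, -, -, c1⟩ := hCRD L M hLM
  obtain ⟨-, -, -, -, c2⟩ := hCRD M' M hM'M
  obtain ⟨-, -, -, -, c3⟩ := hCRD L M' hLM'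
  have key : cI V L M = cI V M' M * cI V L M' := by
    by_cases hP : PV V M = ⊥
    · -- `M` is contained in `V` and has no nonzero nonunits
      have hint : ∀ x : 𝓞 M, ((x : M) : ℂ) ∈ V.nonunits → x = 0 := by
        intro x hx
        have : x ∈ PV V M := (mem_PV V M x).2 hx
        rw [hP] at this
        exact (Submodule.mem_bot _).1 this
      have hunit : ∀ x : 𝓞 M, x ≠ 0 → (((x : M) : ℂ))⁻¹ ∈ V := by
        intro x hx
        have h1 : ((x : M) : ℂ) ∉ V.nonunits := fun h => hx (hint x h)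
        rw [ValuationSubring.mem_nonunits_iff, not_lt] at h1
        have h2 : V.valuation ((x : M) : ℂ) ≤ 1 :=
          (V.valuation_le_one_iff _).2 (int_mem V (int_coe x))
        have h3 : V.valuation ((x : M) : ℂ) = 1 := le_antisymm h2 h1
        rw [← V.valuation_le_one_iff, map_inv₀, h3, inv_one]
      have hMV : ∀ x ∈ M, x ∈ V := by
        intro x hx
        obtain ⟨s, t, ht, hst⟩ := IsFractionRing.div_surjective (A := 𝓞 M) (⟨x, hx⟩ : M)
        have ht0 : t ≠ 0 := nonZeroDivisors.ne_zero ht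
        have h1 : x = ((s : M) : ℂ) * (((t : M) : ℂ))⁻¹ := by
          have h2 := congrArg (Subtype.val : M → ℂ) hst
          rw [← div_eq_mul_inv]
          exact h2.symm
        rw [h1]
        exact V.mul_mem _ _ (int_mem V (int_coe s)) (hunit t ht0)
      have hzero : ∀ x ∈ M, x ∈ V.nonunits → x = 0 := by
        intro x hx hxn
        by_contra h0
        have h1 : x⁻¹ ∈ V := hMV _ (M.inv_mem hx)
        have h2 := nonunits_mul h1 hxn
        rw [inv_mul_cancel₀ h0, ValuationSubring.mem_nonunits_iff, map_one] at h2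
        exact lt_irrefl _ h2
      have hti : ∀ (K K' : IntermediateField ℚ ℂ), K' ≤ M → Nrm K K' → TI V K K' := by
        intro K K' hK' hNK σ hσ hI x hx
        have h1 := hI x hx (hMV x (hK' hx))
        have h2 := hzero _ (hK' (K'.sub_mem (hNK σ hσ x hx) hx)) h1
        exact sub_eq_zero.1 h2
      rw [(c1 V).2.2.1.2 (hti L M le_rfl hN), (c2 V).2.2.1.2 (hti M' M le_rfl hN''),
        (c3 V).2.2.1.2 (hti L M' hM'M hN')]
    · have hP' : PV V M' ≠ ⊥ := by
        intro h0
        -- the integer `absNorm P` is in `P`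
        have h1 : Ideal.absNorm (PV V M) ≠ 0 := by
          rw [Ne, Ideal.absNorm_eq_zero_iff]
          exact hP
        have h2 : ((Ideal.absNorm (PV V M) : ℕ) : 𝓞 M) ∈ PV V M := Ideal.absNorm_mem _
        rw [mem_PV] at h2
        have h3 : ((Ideal.absNorm (PV V M) : ℕ) : 𝓞 M') ∈ PV V M' := by
          rw [mem_PV]
          simpa using h2
        rw [h0, Submodule.mem_bot] at h3
        exact h1 (by exact_mod_cast h3)
      let P : HeightOneSpectrum (𝓞 M) := ⟨PV V M, inferInstance, hP⟩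
      let P' : HeightOneSpectrum (𝓞 M') := ⟨PV V M', inferInstance, hP'⟩
      have e1 := hCIR V L M hLM hN P (fun x => mem_PV V M x)
      have e2 := hCIR V M' M hM'M hN'' P (fun x => mem_PV V M x)
      have e3 := hCIR V L M' hLM' hN' P' (fun x => mem_PV V M' x)
      let a1 := algC hLM'
      let a2 := algC hM'M
      let a3 := algC hLM
      have tw := towerC hLM' hM'M
      have hlo : P.asIdeal.LiesOver P'.asIdeal := by
        constructor
        ext x
        show x ∈ PV V M' ↔ algebraMap (𝓞 M') (𝓞 M) x ∈ PV V M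
        rw [mem_PV, mem_PV]
        rfl
      have hflat : Module.Flat (𝓞 M') (𝓞 M) := inferInstance
      have h4 := Ideal.ramificationIdx_tower (R := 𝓞 L) P'.asIdeal P.asIdeal
      rw [e1, e2, e3, h4, mul_comm]
  refine ⟨key, fun hti => ?_⟩
  have h1 := (c1 V).2.2.1.2 hti
  rw [h1] at key
  have h2 : cI V L M' = 1 := Nat.eq_one_of_mul_eq_one_left key.symm
  exact (c3 V).2.2.1.1 h2

end

end Pool.Agent.VB


end
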