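import Mathlib
import Pool.Agent.MVF.C125
import Pool.Agent.MVF.C138
import Pool.Agent.MVF.C183
import Pool.Agent.MVF.C212
import Pool.Agent.MVF.C213
import Pool.Agent.VB.HDefs

/-! Parts: VB.V_NRM, VB.VAll, VB.HThird, VB.HLast -/

namespace Pool.Agent.VB.NRMa
end Pool.Agent.VB.NRMa

section

set_option autoImplicit false

namespace Pool.Agent.VB

namespace NRMa

open Polynomial IntermediateField

/-- elements of an algebraic subfield are algebraic numbers -/
lemma alg_Q {M : IntermediateField ℚ ℂ} (hM : Algebra.IsAlgebraic ℚ M) {x : ℂ} (hx : x ∈ M) :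
    IsAlgebraic ℚ x := by
  obtain ⟨p, hp, hpx⟩ := hM.isAlgebraic (⟨x, hx⟩ : M)
  refine ⟨p, hp, ?_⟩
  have h1 := congrArg (algebraMap M ℂ) hpx
  rw [Polynomial.aeval_def, Polynomial.hom_eval₂, map_zero] at h1
  rw [Polynomial.aeval_def]
  have h2 : (algebraMap M ℂ).comp (algebraMap ℚ M) = algebraMap ℚ ℂ := Subsingleton.elim _ _
  rw [h2] at h1
  exact h1

/-- a subextension of an algebraic extension (as sets) is algebraic -/
lemma alg_of_le {M F : IntermediateField ℚ ℂ} (hM : Algebra.IsAlgebraic ℚ M) (h : F ≤ M) :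
    Algebra.IsAlgebraic ℚ F := by
  refine ⟨fun y => ?_⟩
  obtain ⟨p, hp, hpx⟩ := alg_Q hM (h y.2)
  refine ⟨p, hp, ?_⟩
  apply (algebraMap F ℂ).injective
  rw [Polynomial.aeval_def, Polynomial.hom_eval₂, map_zero]
  rw [Polynomial.aeval_def] at hpx
  have h2 : (algebraMap F ℂ).comp (algebraMap ℚ F) = algebraMap ℚ ℂ := Subsingleton.elim _ _
  rw [h2]
  exact hpx

/-- an element of `M` is algebraic over `L` -/
lemma alg_elt {M : IntermediateField ℚ ℂ} (hM : Algebra.IsAlgebraic ℚ M)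
    (L : IntermediateField ℚ ℂ) {x : ℂ} (hx : x ∈ M) : IsAlgebraic L x :=
  IsAlgebraic.tower_top (K := ℚ) L (alg_Q hM hx)

/-- conjugates come from automorphisms -/
lemma conj_aut {L M : IntermediateField ℚ ℂ} (hM : Algebra.IsAlgebraic ℚ M) (h : L ≤ M)
    {x z : ℂ} (hx : x ∈ M) (hz : z ∈ (minpoly L x).rootSet ℂ) :
    ∃ σ : ℂ ≃+* ℂ, Fixes L σ ∧ σ x = z := by
  have hint : IsIntegral L x := (alg_elt hM L hx).isIntegral
  have hz' : z ∈ (minpoly L x).aroots ℂ := by
    rw [Polynomial.rootSet_def] at hz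
    exact Multiset.mem_toFinset.1 (by simpa using hz)
  let f : L⟮x⟯ →ₐ[L] ℂ := (IntermediateField.algHomAdjoinIntegralEquiv L hint).symm ⟨z, hz'⟩
  have hf : f (IntermediateField.AdjoinSimple.gen L x) = z :=
    IntermediateField.algHomAdjoinIntegralEquiv_symm_apply_gen L hint ⟨z, hz'⟩
  let F : IntermediateField ℚ ℂ := IntermediateField.restrictScalars ℚ L⟮x⟯
  have hFM : F ≤ M := by
    intro y hy
    have h1 : L⟮x⟯ ≤ IntermediateField.extendScalars h := by
      rw [IntermediateField.adjoin_le_iff]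
      intro t ht
      rw [Set.mem_singleton_iff] at ht
      subst ht
      exact hx
    exact h1 hy
  obtain ⟨σ, hσ⟩ := Pool.Agent.MUXU.u_AUE F (alg_of_le hM hFM) (f : L⟮x⟯ →+* ℂ)
  refine ⟨σ, fun y hy => ?_, ?_⟩
  · have h1 := hσ (⟨y, (algebraMap L L⟮x⟯ ⟨y, hy⟩).2⟩ : L⟮x⟯)
    have h2 : f (algebraMap L L⟮x⟯ ⟨y, hy⟩) = y := f.commutes _
    exact h1.trans h2
  · have h1 := hσ (IntermediateField.AdjoinSimple.gen L x)
    exact h1.trans hf

end NRMa

open _root_.Pool.Agent.VB.NRMa in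
theorem tb_NRM : Sb_NRM := by
  intro L M hM h
  constructor
  · intro hG σ hσ x hx
    have : Normal L (IntermediateField.extendScalars h) := hG.to_normal
    let f : (IntermediateField.extendScalars h) →ₐ[L] ℂ :=
      { toRingHom := (σ : ℂ →+* ℂ).comp (algebraMap (IntermediateField.extendScalars h) ℂ)
        commutes' := fun r => hσ r r.2 }
    have hr : f.fieldRange = IntermediateField.extendScalars h := AlgHom.fieldRange_of_normal f
    have h1 : f ⟨x, hx⟩ ∈ f.fieldRange := ⟨⟨x, hx⟩, rfl⟩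
    rw [hr] at h1
    exact h1
  · intro hN
    have halg : Algebra.IsAlgebraic L (IntermediateField.extendScalars h) := by
      refine ⟨fun y => ?_⟩
      rw [IntermediateField.isAlgebraic_iff]
      exact alg_elt hM L (show (y : ℂ) ∈ M from y.2)
    have hnor : Normal L (IntermediateField.extendScalars h) := by
      refine { toIsAlgebraic := halg, splits' := fun x => ?_ }
      have hmp : minpoly L x = minpoly L (x : ℂ) := by
        have := minpoly.algebraMap_eq (A := L)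
          (algebraMap (IntermediateField.extendScalars h) ℂ).injective x
        exact this.symm
      refine IntermediateField.splits_of_splits (IsAlgClosed.splits _) ?_
      intro z hz
      rw [hmp] at hz
      obtain ⟨σ, hσ, hσx⟩ := conj_aut hM h (show (x : ℂ) ∈ M from x.2) hz
      have h1 := hN σ hσ x x.2
      rw [hσx] at h1
      exact h1
    have := halg
    have : Algebra.IsSeparable L (IntermediateField.extendScalars h) := inferInstance
    exact isGalois_iff.2 ⟨inferInstance, hnor⟩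

end Pool.Agent.VB


end

section

/-!
# VB: all statements (helper51)

`Sb_FQI` is the first inequality for unramified cyclic extensions (block HB).
-/

set_option autoImplicit false

namespace Pool.Agent.VB

theorem v_FQI : Sb_FQI := Pool.Agent.HB.h_FIQ

theorem v_FRC : Sb_FRC := tb_FRC

theorem v_CRD : Sb_CRD := tb_CRD

theorem v_NRM : Sb_NRM := tb_NRM

theorem v_CIR : Sb_CIR := tb_CIR v_FRC v_NRM

theorem v_MUL : Sb_MUL := tb_MUL v_CRD v_CIR

theorem v_UNR : Sb_UNR := tb_UNR v_CIR v_CRD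

theorem v_CYQ : Sb_CYQ := tb_CYQ v_FRC v_MUL

theorem v_DEG : Sb_DEG := tb_DEG

theorem v_GAM : Sb_GAM := tb_GAM v_CRD

theorem v_TOT : Sb_TOT := tb_TOT v_MUL v_CRD v_CYQ

theorem v_TOW : Sb_TOW := tb_TOW v_DEG v_GAM v_TOT v_CYQ

theorem v_LIM : Sb_LIM := tb_LIM

theorem v_DGR : Sb_DGR := tb_DGR v_MUL

theorem v_VD2 : Sb_VD2 := tb_VD2 v_MUL v_CRD

theorem v_VD1 : Sb_VD1 := tb_VD1 v_VD2 v_LIM

theorem v_KUF : Sb_KUF := tb_KUF

theorem v_KDX : Sb_KDX := tb_KDX

theorem v_KFI : Sb_KFI := tb_KFI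

theorem v_ABS : Sb_ABS := tb_ABS

theorem v_CGP : Sb_CGP := tb_CGP

theorem v_GRO : Sb_GRO := tb_GRO

theorem v_IDX : Sb_IDX := tb_IDX

theorem v_DLB : Sb_DLB := tb_DLB

theorem v_UIX : Sb_UIX := tb_UIX v_IDX v_DLB

theorem v_SPN : Sb_SPN := tb_SPN

theorem v_INA : Sb_INA := tb_INA v_IDX v_DLB v_SPN

theorem v_FQC : Sb_FQC := tb_FQC v_FQI v_UIX v_UNR v_NRM v_CRD

theorem v_INJ : Sb_INJ := tb_INJ v_INA v_UNR v_NRM v_CRD

theorem v_CNT : Sb_CNT := tb_CNT v_FQC v_INJ v_CGP v_KFI v_CRD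

theorem v_BND : Sb_BND := tb_BND v_KDX v_VD2 v_DGR v_CNT v_LIM

theorem v_FNP : Sb_FNP := tb_FNP v_TOW v_LIM v_DGR v_BND v_ABS v_GRO v_VD1 v_KUF

theorem v_RED : Sb_RED := tb_RED v_NRM

theorem v_TCQ : Sb_TCQ := tb_TCQ

end Pool.Agent.VB


end

section

/-!
# VB: the third part of the final theorem in the definitions of the hand-in (helper51)
-/

set_option autoImplicit false

open NumberField

namespace Pool.Agent.VB

open _root_.Pool.Agent.RI

lemma ext_eq (p : ℕ) (K : IntermediateField ℚ ℂ) :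
    MuCyc.unramifiedExt p (MuCyc.cycExt p K) = UM p (cyc p K) := rfl

/-- the third part: `hall` is the bound for all finite abelian extensions of `k` -/
theorem third (p : ℕ) (hp : p = 2 ∨ p = 3) (k : IntermediateField ℚ ℂ)
    (hk : Module.finrank ℚ k = 2) (him : ∃ z ∈ k, (starRingEnd ℂ) z ≠ z)
    (hall : ∀ (K : IntermediateField ℚ ℂ) [FiniteDimensional ℚ K] (h : k ≤ K),
      IsGalois k (IntermediateField.extendScalars h) →
      (∀ σ τ : (IntermediateField.extendScalars h) ≃ₐ[k] (IntermediateField.extendScalars h),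
        σ * τ = τ * σ) →
      ∃ C : ℕ, ∀ (n : ℕ) (Q : IntermediateField ℚ ℂ), IsLayer p n Q →
        padicValNat p (classNo (K ⊔ Q)) ≤ C * (n + 1) ^ C)
    (K : IntermediateField ℚ ℂ) [FiniteDimensional ℚ K] (h : k ≤ K)
    (hG : IsGalois k (IntermediateField.extendScalars h))
    (hc : ∀ σ τ : (IntermediateField.extendScalars h) ≃ₐ[k] (IntermediateField.extendScalars h),
      σ * τ = τ * σ) :
    (MuCyc.unramifiedExt p (MuCyc.cycExt p K)).Finite := by
  rw [ext_eq]
  exact V_third v_FNP v_RED v_NRM v_TCQ p hp k hk him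
    (fun K' _ hK' => hall K' hK'.1 hK'.2.1 hK'.2.2) K K ⟨h, hG, hc⟩ le_rfl

/-- for every totally complex number field `E` with a polynomial bound and all `p`-th roots of unity -/
theorem third_gen (p : ℕ) (hp : p = 2 ∨ p = 3) (K E : IntermediateField ℚ ℂ)
    [FiniteDimensional ℚ E] (hKE : K ≤ E) (hTC : TCx E) (hz : ∃ ζ ∈ E, IsPrimitiveRoot ζ p)
    (hb : ∃ C : ℕ, ∀ (n : ℕ) (Q : IntermediateField ℚ ℂ), IsLayer p n Q →
      padicValNat p (classNo (E ⊔ Q)) ≤ C * (n + 1) ^ C) :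
    (MuCyc.unramifiedExt p (MuCyc.cycExt p K)).Finite := by
  rw [ext_eq]
  exact V_UMF v_FNP v_RED p hp K E hKE hTC hz hb

end Pool.Agent.VB


end

section

/-!
# VB: the final statement (three parts) from the bound for all abelian extensions (helper51)
-/

set_option autoImplicit false

open NumberField

namespace Pool.Agent.VB

open _root_.Pool.Agent.JT

/-- the three parts of the final theorem for `K` -/
def Parts (p : ℕ) (K : IntermediateField ℚ ℂ) : Prop :=
  (∃ C : ℕ, ∀ (n : ℕ) (Q : IntermediateField ℚ ℂ), MuCyc.IsLayer p n Q →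
      padicValNat p (MuCyc.classNo (K ⊔ Q)) ≤ C * (n + 1) ^ C) ∧
  (∀ μ lam nu : ℝ, (∃ n₀ : ℕ, ∀ n ≥ n₀, ∀ Q : IntermediateField ℚ ℂ, MuCyc.IsLayer p n Q →
      (padicValNat p (MuCyc.classNo (K ⊔ Q)) : ℝ) = μ * (p : ℝ) ^ n + lam * n + nu) → μ = 0) ∧
  (MuCyc.unramifiedExt p (MuCyc.cycExt p K)).Finite

/-- `hall`: the bound for all finite abelian extensions of `k` -/
theorem parts_of (p : ℕ) (hp : p = 2 ∨ p = 3) (k : IntermediateField ℚ ℂ)
    (hk : Module.finrank ℚ k = 2) (hi : ∃ z ∈ k, (starRingEnd ℂ) z ≠ z)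
    (hall : ∀ (K : IntermediateField ℚ ℂ) [FiniteDimensional ℚ K] (h : k ≤ K),
      IsGalois k (IntermediateField.extendScalars h) →
      (∀ σ τ : (IntermediateField.extendScalars h) ≃ₐ[k] (IntermediateField.extendScalars h),
        σ * τ = τ * σ) →
      ∃ C : ℕ, ∀ (n : ℕ) (Q : IntermediateField ℚ ℂ), RI.IsLayer p n Q →
        padicValNat p (RI.classNo (K ⊔ Q)) ≤ C * (n + 1) ^ C)
    (K : IntermediateField ℚ ℂ) [FiniteDimensional ℚ K] (h : k ≤ K)
    (hG : IsGalois k (IntermediateField.extendScalars h))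
    (hc : ∀ σ τ : (IntermediateField.extendScalars h) ≃ₐ[k] (IntermediateField.extendScalars h),
      σ * τ = τ * σ) : Parts p K := by
  have hb := hall K h hG hc
  refine ⟨hb, fun μ lam nu hg => ?_, third p hp k hk hi hall K h hG hc⟩
  exact MUXZ.mu_zero p hp (fun Q => padicValNat p (RI.classNo (K ⊔ Q))) hb μ lam nu hg

/-- all `k`, given the bound for all `ℚ(√-d)` -/
theorem last_all {p : ℕ} (hp : p = 2 ∨ p = 3) (H : ∀ d : ℕ, Squarefree d → FinJ p d)
    (k K : IntermediateField ℚ ℂ) [FiniteDimensional ℚ K] (hk : Module.finrank ℚ k = 2)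
    (hi : ∃ z ∈ k, (starRingEnd ℂ) z ≠ z) (h : k ≤ K)
    (hG : IsGalois k (IntermediateField.extendScalars h))
    (hc : ∀ σ τ : (IntermediateField.extendScalars h) ≃ₐ[k] (IntermediateField.extendScalars h),
      σ * τ = τ * σ) : Parts p K :=
  parts_of p hp k hk hi (fun K' _ h' hG' hc' => final_all H k K' h' hk hi hG' hc') K h hG hc

/-- all `k` except `ℚ(i)` and `ℚ(√-3)` -/
theorem last_exc {p : ℕ} (hp : p = 2 ∨ p = 3)
    (H : ∀ d : ℕ, Squarefree d → d ≠ 1 → d ≠ 3 → FinJ p d)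
    (k K : IntermediateField ℚ ℂ) [FiniteDimensional ℚ K] (hk : Module.finrank ℚ k = 2)
    (hi : ∃ z ∈ k, (starRingEnd ℂ) z ≠ z) (h4 : ∀ z ∈ k, z ^ 2 ≠ -1)
    (h3 : ∀ z ∈ k, z ^ 2 ≠ -3) (h : k ≤ K)
    (hG : IsGalois k (IntermediateField.extendScalars h))
    (hc : ∀ σ τ : (IntermediateField.extendScalars h) ≃ₐ[k] (IntermediateField.extendScalars h),
      σ * τ = τ * σ) : Parts p K :=
  parts_of p hp k hk hi (fun K' _ h' hG' hc' => final_exc H k K' h' hk hi h4 h3 hG' hc')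
    K h hG hc

end Pool.Agent.VB


end
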